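import Pool.Agent.Work.MP_3a9764_gt.EvSqrt

-- merged part: Pool.Agent.Work.MP_3a9764_gt.TBW
section
/-! The reaction term and Kulkarni-Nomizu products. -/

set_option autoImplicit false

namespace Pool.Agent.Work.MP_3a9764_gt

noncomputable section

variable {n : ℕ}

/-- The Kulkarni-Nomizu product. -/
def kn (A B : Mat n) : T4 n :=
  fun i j k l => A i k * B j l - A i l * B j k - A j k * B i l + A j l * B i k

/-- The Ricci tensor of a four-tensor. -/
def ric4 (R : T4 n) : Mat n := fun p q => ∑ i, R i p i q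

/-- The action of a four-tensor on symmetric matrices. -/
def st4 (R : T4 n) (A : Mat n) : Mat n := fun i j => ∑ p, ∑ q, R i p j q * A p q

/-- The polarisation of the reaction term. -/
def Q2 (R S : T4 n) : T4 n := fun i j k l => ∑ p, ∑ q,
  ((1 / 2) * (R i j p q * S k l p q + S i j p q * R k l p q) +
    (R i p k q * S j p l q + S i p k q * R j p l q) -
    (R i p l q * S j p k q + S i p l q * R j p k q))

theorem Qq4_add (R S : T4 n) : Qq4 (R + S) = Qq4 R + Q2 R S + Qq4 S := by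
  funext i j k l
  simp only [Qq4, Q2, Pi.add_apply, ← Finset.sum_add_distrib]
  exact Finset.sum_congr rfl fun _ _ => Finset.sum_congr rfl fun _ _ => by ring

theorem Q2_self (R : T4 n) : Q2 R R = (2 : ℝ) • Qq4 R := by
  funext i j k l
  simp only [Qq4, Q2, Pi.smul_apply, smul_eq_mul, Finset.mul_sum]
  exact Finset.sum_congr rfl fun _ _ => Finset.sum_congr rfl fun _ _ => by ring

theorem Q2_comm (R S : T4 n) : Q2 R S = Q2 S R := by
  funext i j k l
  exact Finset.sum_congr rfl fun _ _ => Finset.sum_congr rfl fun _ _ => by ring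

theorem Q2_add_right (R S U : T4 n) : Q2 R (S + U) = Q2 R S + Q2 R U := by
  funext i j k l
  simp only [Q2, Pi.add_apply, ← Finset.sum_add_distrib]
  exact Finset.sum_congr rfl fun _ _ => Finset.sum_congr rfl fun _ _ => by ring

theorem Q2_smul_right (c : ℝ) (R S : T4 n) : Q2 R (c • S) = c • Q2 R S := by
  funext i j k l
  simp only [Q2, Pi.smul_apply, smul_eq_mul, Finset.mul_sum]
  exact Finset.sum_congr rfl fun _ _ => Finset.sum_congr rfl fun _ _ => by ring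

theorem kn_comm (A B : Mat n) : kn A B = kn B A := by
  funext i j k l; simp only [kn]; ring

theorem kn_add_left (A B C : Mat n) : kn (A + B) C = kn A C + kn B C := by
  funext i j k l; simp only [kn, Matrix.add_apply, Pi.add_apply]; ring

theorem kn_sub_left (A B C : Mat n) : kn (A - B) C = kn A C - kn B C := by
  funext i j k l; simp only [kn, Matrix.sub_apply, Pi.sub_apply]; ring

theorem kn_smul_left (c : ℝ) (A B : Mat n) : kn (c • A) B = c • kn A B := by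
  funext i j k l; simp only [kn, Matrix.smul_apply, Pi.smul_apply, smul_eq_mul]; ring

theorem kn_add_right (A B C : Mat n) : kn A (B + C) = kn A B + kn A C := by
  funext i j k l; simp only [kn, Matrix.add_apply, Pi.add_apply]; ring

theorem kn_sub_right (A B C : Mat n) : kn A (B - C) = kn A B - kn A C := by
  funext i j k l; simp only [kn, Matrix.sub_apply, Pi.sub_apply]; ring

theorem kn_smul_right (c : ℝ) (A B : Mat n) : kn A (c • B) = c • kn A B := by
  funext i j k l; simp only [kn, Matrix.smul_apply, Pi.smul_apply, smul_eq_mul]; ring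

theorem kn_one_one : kn (1 : Mat n) 1 = (2 : ℝ) • Id4 n := by
  funext i j k l
  simp only [kn, Id4, Matrix.one_apply, Pi.smul_apply, smul_eq_mul, ite_and]
  split_ifs <;> norm_num

theorem isCurv_kn {A B : Mat n} (hA : A.IsSymm) (hB : B.IsSymm) : IsCurv (kn A B) := by
  refine ⟨fun i j k l => ?_, fun i j k l => ?_, fun i j k l => ?_⟩
  · simp only [kn]; ring
  · simp only [kn, hA.apply i k, hA.apply j l, hA.apply i l, hA.apply j k, hB.apply i k,
      hB.apply j l, hB.apply i l, hB.apply j k]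
    ring
  · simp only [kn, hA.apply i k, hA.apply j k, hA.apply i j, hB.apply i k, hB.apply j k,
      hB.apply i j]
    ring

theorem isCurv_Id4 : IsCurv (Id4 n) := by
  have h := T.isCurv_smul (1 / 2) (isCurv_kn (n := n) Matrix.isSymm_one Matrix.isSymm_one)
  rwa [kn_one_one, smul_smul, show (1 / 2 * 2 : ℝ) = 1 by norm_num, one_smul] at h

theorem IsCurv.add {R S : T4 n} (hR : IsCurv R) (hS : IsCurv S) : IsCurv (R + S) := by
  refine ⟨fun i j k l => ?_, fun i j k l => ?_, fun i j k l => ?_⟩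
  · simp only [Pi.add_apply, hR.skew i j k l, hS.skew i j k l]; ring
  · simp only [Pi.add_apply, hR.pair i j k l, hS.pair i j k l]
  · have := hR.bianchi i j k l
    have := hS.bianchi i j k l
    simp only [Pi.add_apply]; linarith

theorem IsCurv.swap {R : T4 n} (hR : IsCurv R) (i j k l : Fin n) : R j i l k = R i j k l := by
  rw [hR.skew, hR.skew', neg_neg]

theorem ric4_isSymm {R : T4 n} (hR : IsCurv R) : (ric4 R).IsSymm := by
  ext p q
  simp only [Matrix.transpose_apply, ric4]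
  exact Finset.sum_congr rfl fun i _ => hR.pair i p i q

theorem st4_isSymm {R : T4 n} (hR : IsCurv R) {A : Mat n} (hA : A.IsSymm) : (st4 R A).IsSymm := by
  ext i j
  simp only [Matrix.transpose_apply, st4]
  rw [Finset.sum_comm]
  exact Finset.sum_congr rfl fun p _ => Finset.sum_congr rfl fun q _ => by
    rw [hR.pair i p j q, hA.apply p q]

theorem trace_ric4 (R : T4 n) : (ric4 R).trace = scal4 R := by
  simp only [Matrix.trace, Matrix.diag_apply, ric4, scal4]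
  exact Finset.sum_comm

theorem ric4_add (R S : T4 n) : ric4 (R + S) = ric4 R + ric4 S := by
  ext p q; simp only [ric4, Pi.add_apply, Matrix.add_apply, Finset.sum_add_distrib]

theorem ric4_smul (c : ℝ) (R : T4 n) : ric4 (c • R) = c • ric4 R := by
  ext p q; simp only [ric4, Pi.smul_apply, Matrix.smul_apply, smul_eq_mul, Finset.mul_sum]

theorem st4_add_right (R : T4 n) (A B : Mat n) : st4 R (A + B) = st4 R A + st4 R B := by
  ext p q; simp only [st4, Matrix.add_apply, mul_add, Finset.sum_add_distrib]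

theorem st4_add_left (R S : T4 n) (A : Mat n) : st4 (R + S) A = st4 R A + st4 S A := by
  ext p q; simp only [st4, Pi.add_apply, Matrix.add_apply, add_mul, Finset.sum_add_distrib]

theorem st4_smul_right (c : ℝ) (R : T4 n) (A : Mat n) : st4 R (c • A) = c • st4 R A := by
  ext p q
  simp only [st4, Matrix.smul_apply, smul_eq_mul, Finset.mul_sum]
  exact Finset.sum_congr rfl fun _ _ => Finset.sum_congr rfl fun _ _ => by ring

theorem st4_smul_left (c : ℝ) (R : T4 n) (A : Mat n) : st4 (c • R) A = c • st4 R A := by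
  ext p q
  simp only [st4, Pi.smul_apply, Matrix.smul_apply, smul_eq_mul, Finset.mul_sum, mul_assoc]

theorem st4_one {R : T4 n} (hR : IsCurv R) : st4 R 1 = ric4 R := by
  ext i j
  simp only [st4, ric4, Matrix.one_apply, mul_ite, mul_one, mul_zero, Finset.sum_ite_eq,
    Finset.mem_univ, if_true]
  exact Finset.sum_congr rfl fun p _ => hR.swap p i p j

theorem ric4_kn (A B : Mat n) :
    ric4 (kn A B) = B.trace • A + A.trace • B - A * B - B * A := by
  ext p q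
  simp only [ric4, kn, Matrix.sub_apply, Matrix.add_apply, Matrix.smul_apply, Matrix.mul_apply,
    Matrix.trace, Matrix.diag_apply, smul_eq_mul, Finset.sum_mul, ← Finset.sum_add_distrib,
    ← Finset.sum_sub_distrib]
  exact Finset.sum_congr rfl fun i _ => by ring

theorem ric4_Id4 : ric4 (Id4 n) = ((n : ℝ) - 1) • (1 : Mat n) := by
  have h := ric4_kn (1 : Mat n) 1
  rw [kn_one_one, ric4_smul, Matrix.trace_one, Fintype.card_fin, Matrix.mul_one] at h
  have h2 : (2 : ℝ) • ric4 (Id4 n) = (2 : ℝ) • (((n : ℝ) - 1) • (1 : Mat n)) := by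
    rw [h]; module
  exact smul_right_injective _ two_ne_zero h2

theorem st4_kn_one (A : Mat n) {B : Mat n} (hB : B.IsSymm) :
    st4 (kn A 1) B = B.trace • A + (A * B).trace • (1 : Mat n) - A * B - B * A := by
  ext i j
  simp only [st4, kn, Matrix.sub_apply, Matrix.add_apply, Matrix.smul_apply, Matrix.mul_apply,
    Matrix.trace, Matrix.diag_apply, smul_eq_mul, Matrix.one_apply, sub_mul, add_mul, mul_ite,
    ite_mul, mul_one, mul_zero, zero_mul, Finset.sum_add_distrib, Finset.sum_sub_distrib,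
    Finset.sum_ite_eq, Finset.sum_ite_eq', Finset.mem_univ, if_true, Finset.sum_ite_irrel,
    Finset.sum_const_zero, Finset.sum_mul]
  simp only [hB.apply, mul_comm (A _ _)]
  ring

theorem Q2_kn_one {R : T4 n} (hR : IsCurv R) {A : Mat n} (hA : A.IsSymm) :
    Q2 R (kn A 1) = kn (ric4 R) A + kn (st4 R A) 1 := by
  funext i j k l
  simp only [Q2, kn, Pi.add_apply, Matrix.one_apply, mul_add, mul_sub, sub_mul, add_mul, mul_ite,
    ite_mul, mul_one, mul_zero, zero_mul, Finset.sum_add_distrib, Finset.sum_sub_distrib,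
    Finset.sum_ite_eq, Finset.sum_ite_eq', Finset.mem_univ, if_true, Finset.sum_ite_irrel,
    Finset.sum_const_zero]
  have e1 : ∀ a b, ∑ x, ∑ y, R a x b y * A x y = st4 R A a b := fun _ _ => rfl
  have e2 : ∀ a b, ∑ x, ∑ y, A x y * R a x b y = st4 R A a b := fun _ _ => by
    simp only [st4, mul_comm]
  have e3 : ∀ a b, ∑ x, R a x b x = ric4 R a b :=
    fun a b => Finset.sum_congr rfl fun x _ => hR.swap x a x b
  have e4 : ∀ k l, ∑ x, 1 / 2 * (R i j x l * A k x) - ∑ x, 1 / 2 * (R i j l x * A k x) -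
      ∑ x, A x k * R j x l i + ∑ x, R i x l j * A x k = 0 := by
    intro k l
    simp only [← Finset.sum_add_distrib, ← Finset.sum_sub_distrib]
    refine Finset.sum_eq_zero fun x _ => ?_
    rw [hR.skew' i j x l, hR.skew' j x i l, hR.swap x i j l, hA.apply k x]
    linear_combination A k x * hR.bianchi i j x l
  have e5 : ∀ i j, ∑ x, 1 / 2 * (A i x * R k l x j) - ∑ x, 1 / 2 * (A i x * R k l j x) -
      ∑ x, A i x * R j k l x + ∑ x, A i x * R j l k x = 0 := by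
    intro i j
    simp only [← Finset.sum_add_distrib, ← Finset.sum_sub_distrib]
    refine Finset.sum_eq_zero fun x _ => ?_
    rw [hR.skew' k l x j, hR.pair l x j k, hR.skew' l x k j, hR.pair k x j l, hR.swap x k l j]
    linear_combination A i x * hR.bianchi k l x j
  have e6 := e5 j i
  simp only [mul_comm (A j _)] at e6
  simp only [e1, e2, ← Finset.sum_mul, ← Finset.mul_sum, e3, mul_comm (A j _)] at e6 ⊢
  have e7 := e4 k l
  have e8 := e4 l k
  have e9 := e5 i j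
  simp only [← Finset.mul_sum] at e7 e8 e9
  linear_combination e7 - e8 + e9 - e6

theorem ric4_Qq4 {R : T4 n} (hR : IsCurv R) : ric4 (Qq4 R) = st4 R (ric4 R) := by
  ext p q
  have e : ∑ i, ∑ a, ∑ b, R i p a b * R i q a b = 2 * ∑ i, ∑ a, ∑ b, R i a q b * R p a i b := by
    have e1 : ∑ i, ∑ a, ∑ b, R i p a b * R i q a b =
        ∑ i, ∑ a, ∑ b, R i a p b * R i q a b - ∑ i, ∑ a, ∑ b, R p a i b * R i q a b := by
      simp only [← Finset.sum_sub_distrib]
      refine Finset.sum_congr rfl fun i _ => Finset.sum_congr rfl fun a _ =>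
        Finset.sum_congr rfl fun b _ => ?_
      linear_combination R i q a b * hR.bianchi i p a b - R i q a b * hR.skew i a p b
    have e2 : ∑ i, ∑ a, ∑ b, R i a p b * R i q a b = ∑ i, ∑ a, ∑ b, R i a q b * R p a i b := by
      rw [Finset.sum_comm]
      refine Finset.sum_congr rfl fun a _ => ?_
      rw [Finset.sum_comm]
      refine Finset.sum_congr rfl fun b _ => Finset.sum_congr rfl fun i _ => ?_
      rw [hR.pair q i a b, hR.skew i q a b, hR.skew' p b i a, hR.pair i a p b]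
      ring
    have e3 : ∑ i, ∑ a, ∑ b, R p a i b * R i q a b = -∑ i, ∑ a, ∑ b, R i a q b * R p a i b := by
      simp only [← Finset.sum_neg_distrib]
      rw [Finset.sum_comm, Finset.sum_comm (f := fun i a => ∑ b, -(R i a q b * R p a i b))]
      refine Finset.sum_congr rfl fun a _ => ?_
      rw [Finset.sum_comm]
      refine Finset.sum_congr rfl fun b _ => Finset.sum_congr rfl fun i _ => ?_
      rw [hR.pair q i b a, hR.swap i q a b, hR.skew' p a i b]
      ring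
    linarith only [e1, e2, e3]
  have e4 : ∑ i, ∑ a, ∑ b, R i a i b * R p a q b = st4 R (ric4 R) p q := by
    simp only [st4, ric4, Finset.mul_sum]
    rw [Finset.sum_comm]
    refine Finset.sum_congr rfl fun a _ => ?_
    rw [Finset.sum_comm]
    exact Finset.sum_congr rfl fun b _ => Finset.sum_congr rfl fun i _ => mul_comm _ _
  rw [← e4]
  simp only [ric4, Qq4, Finset.sum_add_distrib, Finset.sum_sub_distrib, ← Finset.mul_sum]
  linarith only [e]

theorem Q2_Id4 {R : T4 n} (hR : IsCurv R) : Q2 R (Id4 n) = kn (ric4 R) 1 := by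
  have h := Q2_kn_one hR Matrix.isSymm_one
  rw [kn_one_one, Q2_smul_right, st4_one hR, ← two_smul ℝ] at h
  exact smul_right_injective _ two_ne_zero h

theorem Qq4_Id4 : Qq4 (Id4 n) = ((n : ℝ) - 1) • Id4 n := by
  have h := Q2_Id4 (isCurv_Id4 (n := n))
  rw [Q2_self, ric4_Id4, kn_smul_left, kn_one_one, smul_comm] at h
  exact smul_right_injective _ two_ne_zero h

theorem Qq4_add_Id4 {R : T4 n} (hR : IsCurv R) (c : ℝ) :
    Qq4 (R + c • Id4 n) = Qq4 R + c • kn (ric4 R) 1 + (c * c * ((n : ℝ) - 1)) • Id4 n := by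
  rw [Qq4_add, Q2_smul_right, Q2_Id4 hR, T.Qq4_smul, Qq4_Id4, smul_smul]

theorem Qq4_kn_one {A : Mat n} (hA : A.IsSymm) : Qq4 (kn A 1) = (((n : ℝ) - 2) / 2) • kn A A +
    kn (A.trace • A - A * A) 1 + (A * A).trace • Id4 n := by
  have h := Q2_kn_one (isCurv_kn hA Matrix.isSymm_one) hA
  rw [Q2_self, ric4_kn, st4_kn_one A hA, Matrix.trace_one, Fintype.card_fin, Matrix.mul_one,
    Matrix.one_mul] at h
  refine smul_right_injective _ (two_ne_zero (α := ℝ)) (h.trans ?_)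
  simp only [kn_add_left, kn_sub_left, kn_smul_left, kn_one_one, kn_comm 1 A]
  module

/-- The reaction term of `R + A ∧ id`. -/
theorem Qq4_add_kn {R : T4 n} (hR : IsCurv R) {A : Mat n} (hA : A.IsSymm) :
    Qq4 (R + kn A 1) = Qq4 R + kn (ric4 R) A + (((n : ℝ) - 2) / 2) • kn A A +
      kn (st4 R A + A.trace • A - A * A) 1 + (A * A).trace • Id4 n := by
  rw [Qq4_add, Q2_kn_one hR hA, Qq4_kn_one hA]
  simp only [kn_add_left, kn_sub_left]
  abel

end

end Pool.Agent.Work.MP_3a9764_gt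
end

-- merged part: Pool.Agent.Work.MP_3a9764_gt.ADef
section
-- merged part: Pool.Agent.Work.MP_3a9764_gt.TOp
section
/-! From the asymptotic form to the pinching estimate. -/

set_option autoImplicit false

open Filter Set
open scoped Topology

namespace Pool.Agent.Work.MP_3a9764_gt

noncomputable section

variable {n : ℕ} {T : ℝ} {W : ℝ → Set (T4 n)}

open T

/-- The curvature operator as a bilinear form on matrices. -/
def opL (φ ψ : Mat n) : T4 n →ₗ[ℝ] ℝ where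
  toFun R := ∑ i, ∑ j, ∑ k, ∑ l, R i j k l * φ i j * ψ k l
  map_add' R S := by simp only [Pi.add_apply, add_mul, Finset.sum_add_distrib]
  map_smul' c R := by
    simp only [Pi.smul_apply, smul_eq_mul, Finset.mul_sum, mul_assoc, RingHom.id_apply]

theorem opL_apply (φ ψ : Mat n) (R : T4 n) :
    opL φ ψ R = ∑ i, ∑ j, ∑ k, ∑ l, R i j k l * φ i j * ψ k l := rfl

theorem opL_add_left (φ φ' ψ : Mat n) (R : T4 n) : opL (φ + φ') ψ R = opL φ ψ R + opL φ' ψ R := by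
  simp only [opL_apply, Matrix.add_apply, mul_add, add_mul, Finset.sum_add_distrib]

theorem opL_add_right (φ ψ ψ' : Mat n) (R : T4 n) : opL φ (ψ + ψ') R = opL φ ψ R + opL φ ψ' R := by
  simp only [opL_apply, Matrix.add_apply, mul_add, Finset.sum_add_distrib]

theorem opL_smul_left (c : ℝ) (φ ψ : Mat n) (R : T4 n) : opL (c • φ) ψ R = c * opL φ ψ R := by
  simp only [opL_apply, Matrix.smul_apply, smul_eq_mul, Finset.mul_sum]
  exact Finset.sum_congr rfl fun _ _ => Finset.sum_congr rfl fun _ _ =>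
    Finset.sum_congr rfl fun _ _ => Finset.sum_congr rfl fun _ _ => by ring

theorem opL_smul_right (c : ℝ) (φ ψ : Mat n) (R : T4 n) : opL φ (c • ψ) R = c * opL φ ψ R := by
  simp only [opL_apply, Matrix.smul_apply, smul_eq_mul, Finset.mul_sum]
  exact Finset.sum_congr rfl fun _ _ => Finset.sum_congr rfl fun _ _ =>
    Finset.sum_congr rfl fun _ _ => Finset.sum_congr rfl fun _ _ => by ring

theorem opL_single (i j k l : Fin n) (R : T4 n) :
    opL (Matrix.single i j 1) (Matrix.single k l 1) R = R i j k l := by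
  simp [opL_apply, Matrix.single_apply, ite_and]

theorem opL_Id4 {φ : Mat n} (h : ∀ i j, φ j i = -φ i j) :
    opL φ φ (Id4 n) = 2 * ∑ i, ∑ j, φ i j ^ 2 := by
  simp only [opL_apply, Id4, sub_mul, Finset.sum_sub_distrib, ite_and, ite_mul, one_mul, zero_mul,
    Finset.sum_ite_irrel, Finset.sum_ite_eq, Finset.mem_univ, if_true, Finset.sum_const_zero]
  simp only [Finset.mul_sum, ← Finset.sum_sub_distrib]
  refine Finset.sum_congr rfl fun i _ => Finset.sum_congr rfl fun j _ => ?_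
  rw [h i j]; ring

/-- The elementary bivectors. -/
def biv (i j : Fin n) : Mat n := Matrix.single i j 1 + (-1 : ℝ) • Matrix.single j i 1

theorem biv_skew (i j a b : Fin n) : biv i j b a = -biv i j a b := by
  simp only [biv, Matrix.add_apply, Matrix.smul_apply, Matrix.single_apply, smul_eq_mul,
    and_comm (a := i = b), and_comm (a := j = b)]
  ring

theorem opL_biv {R : T4 n} (hR : IsCurv R) (i j k l : Fin n) :
    opL (biv i j) (biv k l) R = 4 * R i j k l := by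
  simp only [biv, opL_add_left, opL_add_right, opL_smul_left, opL_smul_right, opL_single]
  rw [hR.skew i j l k, hR.skew i j k l, hR.skew' i j k l]
  ring

theorem OpNonneg.abs_le_scal {R : T4 n} (hR : IsCurv R) (h : OpNonneg R) (i j k l : Fin n) :
    |R i j k l| ≤ scal4 R := by
  have h1 : ∀ a b, 0 ≤ R a b a b := fun a b => by
    have h2 : 0 ≤ opL (biv a b) (biv a b) R := h _ (biv_skew a b)
    rw [opL_biv hR] at h2
    linarith
  have h2 : ∀ a b, R a b a b ≤ scal4 R := fun a b =>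
    (Finset.single_le_sum (f := fun b => R a b a b) (fun b _ => h1 a b) (Finset.mem_univ b)).trans
      (Finset.single_le_sum (f := fun a => ∑ b, R a b a b)
        (fun a _ => Finset.sum_nonneg fun b _ => h1 a b) (Finset.mem_univ a))
  have h3 : ∀ c : ℝ, 0 ≤ R i j i j + 2 * c * R i j k l + c * c * R k l k l := by
    intro c
    have h4 : 0 ≤ opL (biv i j + c • biv k l) (biv i j + c • biv k l) R := h _ fun a b => by
      simp only [Matrix.add_apply, Matrix.smul_apply, smul_eq_mul, biv_skew i j a b,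
        biv_skew k l a b]
      ring
    simp only [opL_add_left, opL_add_right, opL_smul_left, opL_smul_right, opL_biv hR,
      hR.pair i j k l] at h4
    linarith
  have h4 := h3 1
  have h5 := h3 (-1)
  have := h2 i j
  have := h2 k l
  rw [abs_le]
  constructor <;> linarith

/-- Unit bivectors. -/
def UnitBiv (n : ℕ) : Set (Fin n → Fin n → ℝ) :=
  {φ | (∀ i j, φ j i = -φ i j) ∧ ∑ i, ∑ j, φ i j ^ 2 = 1}

theorem isCompact_unitBiv : IsCompact (UnitBiv n) := by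
  refine (isCompact_closedBall (0 : Fin n → Fin n → ℝ) 1).of_isClosed_subset ?_ fun φ hφ => ?_
  · refine IsClosed.inter ?_ (isClosed_eq (by fun_prop) continuous_const)
    change IsClosed {φ : Fin n → Fin n → ℝ | ∀ i j, φ j i = -φ i j}
    simp only [ofPred_forall]
    exact isClosed_iInter fun i => isClosed_iInter fun j => isClosed_eq (by fun_prop) (by fun_prop)
  · rw [mem_closedBall_zero_iff]
    refine (pi_norm_le_iff_of_nonneg zero_le_one).2 fun i =>
      (pi_norm_le_iff_of_nonneg zero_le_one).2 fun j => ?_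
    rw [Real.norm_eq_abs, ← sq_le_one_iff_abs_le_one, ← hφ.2]
    exact (Finset.single_le_sum (f := fun j => φ i j ^ 2) (fun _ _ => sq_nonneg _)
      (Finset.mem_univ j)).trans (Finset.single_le_sum (f := fun i => ∑ j, φ i j ^ 2)
        (fun _ _ => Finset.sum_nonneg fun _ _ => sq_nonneg _) (Finset.mem_univ i))

theorem opNonneg_of_unit {R : T4 n} (h : ∀ φ ∈ UnitBiv n, 0 ≤ opL φ φ R) : OpNonneg R := by
  intro φ hφ
  change 0 ≤ opL φ φ R
  have h0 : 0 ≤ ∑ i, ∑ j, φ i j ^ 2 :=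
    Finset.sum_nonneg fun _ _ => Finset.sum_nonneg fun _ _ => sq_nonneg _
  rcases h0.eq_or_lt with h1 | h1
  · have h2 : φ = 0 := by
      ext i j
      have h3 := (Finset.sum_eq_zero_iff_of_nonneg fun _ _ =>
        Finset.sum_nonneg fun _ _ => sq_nonneg _).1 h1.symm i (Finset.mem_univ _)
      exact pow_eq_zero_iff two_ne_zero |>.1
        ((Finset.sum_eq_zero_iff_of_nonneg fun _ _ => sq_nonneg _).1 h3 j (Finset.mem_univ _))
    simp [h2, opL_apply]
  · set c := (√(∑ i, ∑ j, φ i j ^ 2))⁻¹ with hc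
    have hcp : 0 < c := inv_pos.2 (Real.sqrt_pos.2 h1)
    have h2 : 0 ≤ opL (c • φ) (c • φ) R := h (c • φ) ⟨fun i j => by
        change c * φ j i = -(c * φ i j)
        rw [hφ i j]; ring, by
      change ∑ i, ∑ j, (c * φ i j) ^ 2 = 1
      simp only [mul_pow, ← Finset.mul_sum]
      rw [hc, inv_pow, Real.sq_sqrt h0, inv_mul_cancel₀ h1.ne']⟩
    rw [opL_smul_left, opL_smul_right] at h2
    exact nonneg_of_mul_nonneg_right (nonneg_of_mul_nonneg_right h2 hcp) hcp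

/-- If the curvature lies asymptotically in a cone of non-negative curvature operators, the
pinching estimate holds. -/
theorem pinched_of_asym (hW : CurvFlow n T W) {K : Type} {l : K → T4 n →ₗ[ℝ] ℝ}
    (hsub : ∀ R, IsCurv R → (∀ τ, 0 ≤ l τ R) → OpNonneg R) (h : Asym T W l) : Pinched T W := by
  have : CompactSpace (UnitBiv n) := isCompact_iff_compactSpace.1 isCompact_unitBiv
  have h1 : Asym T W fun φ : UnitBiv n => opL φ.1 φ.1 :=
    asym_mono hW (fun R => Continuous.comp (g := fun φ : Fin n → Fin n → ℝ =>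
        ∑ i, ∑ j, ∑ k, ∑ l, R i j k l * φ i j * φ k l) (by fun_prop) continuous_subtype_val)
      (fun R hR h φ => hsub R hR h φ.1 φ.2.1) h
  have h2 : Asym T W fun τ : Bool × (Fin n × Fin n) × Fin n × Fin n => scalL n +
      (if τ.1 then 1 else -1 : ℝ) • opL (Matrix.single τ.2.1.1 τ.2.1.2 1)
        (Matrix.single τ.2.2.1 τ.2.2.2 1) :=
    asym_mono hW (fun R => continuous_of_discreteTopology) (fun R hR h τ => by
      have h3 := abs_le.1 ((hsub R hR h).abs_le_scal hR τ.2.1.1 τ.2.1.2 τ.2.2.1 τ.2.2.2)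
      change 0 ≤ scal4 R + _ * opL _ _ R
      rw [opL_single]
      split_ifs <;> linarith only [h3, h3.1, h3.2]) h
  obtain ⟨a, ha⟩ := h2 (1 / 2) (by norm_num)
  intro ε hε
  obtain ⟨b, hb⟩ := h1 ε hε
  refine ⟨ε * a + b / 2, fun t ht R hR => opNonneg_of_unit fun φ hφ => ?_⟩
  have h3 : ∀ i j k l, |R i j k l| ≤ scal4 R + (1 / 2 * ‖R‖ + a) := by
    intro i j k l
    have b1 : _ ≤ scal4 R + _ * opL _ _ R := ha t ht R hR (true, (i, j), k, l)
    have b2 : _ ≤ scal4 R + _ * opL _ _ R := ha t ht R hR (false, (i, j), k, l)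
    simp only [opL_single, if_true, Bool.false_eq_true, if_false] at b1 b2
    rw [abs_le]
    constructor <;> linarith only [b1, b2]
  have hn : Nonempty (Fin n) := by
    by_contra h0
    have := not_nonempty_iff.1 h0
    simpa using hφ.2
  obtain ⟨i₀⟩ := hn
  have h0 := (abs_nonneg _).trans (h3 i₀ i₀ i₀ i₀)
  have h4 : ‖R‖ ≤ scal4 R + (1 / 2 * ‖R‖ + a) :=
    (pi_norm_le_iff_of_nonneg h0).2 fun i => (pi_norm_le_iff_of_nonneg h0).2 fun j =>
      (pi_norm_le_iff_of_nonneg h0).2 fun k => (pi_norm_le_iff_of_nonneg h0).2 fun l => h3 i j k l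
  have h5 : _ ≤ opL φ φ R := hb t ht R hR ⟨φ, hφ⟩
  have h6 := mul_le_mul_of_nonneg_left h4 hε.le
  rw [map_add, map_smul, opL_Id4 hφ.1, hφ.2, smul_eq_mul]
  linarith only [h5, h6]

end

end Pool.Agent.Work.MP_3a9764_gt
end

-- merged part: Pool.Agent.Work.MP_3a9764_gt.ADef
section
/-! Definitions of the algebraic part and the calculus of asymptotic cones. -/

set_option autoImplicit false

open Filter Set Matrix
open scoped Topology ComplexConjugate

namespace Pool.Agent.Work.MP_3a9764_gt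

noncomputable section

variable {n N : ℕ} {T : ℝ} {W : ℝ → Set (T4 n)}

/-- The mean Ricci eigenvalue. -/
def lb (R : T4 n) : ℝ := scal4 R / n

/-- The traceless Ricci tensor. -/
def ric0 (R : T4 n) : Mat n := ric4 R - lb R • (1 : Mat n)

/-- The mean square of the traceless Ricci tensor. -/
def sg (R : T4 n) : ℝ := (ric0 R * ric0 R).trace / n

def aa (n : ℕ) (b : ℝ) : ℝ := b + ((n : ℝ) - 2) * b ^ 2 / 2

def cc (n : ℕ) (b : ℝ) : ℝ :=
  b ^ 2 * (2 - 4 * b - n * ((n : ℝ) - 2) * b ^ 2) / (1 + 2 * ((n : ℝ) - 1) * aa n b)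

def ee (n : ℕ) (b : ℝ) : ℝ := n * b ^ 2 + ((n : ℝ) - 1) * cc n b

/-- The inverse of the Boehm-Wilking map with parameters `aa n b`, `b`. -/
def linv (b : ℝ) (R : T4 n) : T4 n :=
  R - (2 * aa n b / (1 + 2 * ((n : ℝ) - 1) * aa n b) * lb R) • Id4 n -
    (b / (1 + ((n : ℝ) - 2) * b)) • kn (ric0 R) 1

/-- The Boehm-Wilking correction term. -/
def DD (b : ℝ) (S : T4 n) : T4 n :=
  aa n b • kn (ric4 S) (ric4 S) + b ^ 2 • kn (ric0 S * ric0 S) 1 + (cc n b * sg S) • Id4 n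

/-- The bivector `x ∧ y`. -/
def wedge (x y : Fin n → ℂ) : CMat n := vecMulVec x y - vecMulVec y x

/-- The Hermitian quadratic form of a four-tensor; `rq R (x ∧ y) = R(x, y, conj x, conj y)`. -/
def rq (R : T4 n) (v : CMat n) : ℝ := (cq R v v).re / 4

/-- A real matrix as a sesquilinear form. -/
def hf (A : Mat n) (x y : Fin n → ℂ) : ℂ := ∑ i, ∑ j, (A i j : ℂ) * x i * conj (y j)

/-- The squared norm of a complex vector. -/
def nv (x : Fin n → ℂ) : ℝ := ∑ i, Complex.normSq (x i)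

def PICw (R : T4 n) : Prop :=
  ∀ z w : Fin n → ℂ, z ⬝ᵥ z = 0 → z ⬝ᵥ w = 0 → w ⬝ᵥ w = 0 → 0 ≤ rq R (wedge z w)

def PIC1w (R : T4 n) : Prop :=
  ∀ z w : Fin n → ℂ, z ⬝ᵥ z = 0 → z ⬝ᵥ w = 0 → 0 ≤ rq R (wedge z w)

def PIC2w (R : T4 n) : Prop := ∀ z w : Fin n → ℂ, 0 ≤ rq R (wedge z w)

def bOne (n : ℕ) : ℝ := 3 / (10 * n)

/-- The cone reached at the end of stage 1. -/
def G1 (R : T4 n) : Prop :=
  PICw (linv (bOne n) R) ∧ ∀ z : Fin n → ℂ, z ⬝ᵥ z = 0 →
    0 ≤ (hf (ric4 (linv (bOne n) R)) z z).re + bOne n / 3 * lb (linv (bOne n) R) * nv z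

/-- The pull-back of a four-tensor under a rectangular matrix. -/
def pullT (R : T4 n) (P : Matrix (Fin n) (Fin N) ℝ) : T4 N :=
  fun i j k l => ev4 R (fun a => P a i) (fun a => P a j) (fun a => P a k) (fun a => P a l)

/-- The coordinate projection. -/
def emb (n N : ℕ) : Matrix (Fin n) (Fin N) ℝ := fun i j => if (i : ℕ) = j then 1 else 0

/-- The product with a flat factor. -/
def flat (N : ℕ) (R : T4 n) : T4 N := pullT R (emb n N)

/-- `w = ∑ z_i ∧ x_i` with `x_i ⋅ z_j = 0` on the pattern. -/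
def XS {q : ℕ} (pat : Fin q → Fin q → Prop) (Z : Matrix (Fin N) (Fin q) ℂ) (w : CMat N) : Prop :=
  ∃ C : Matrix (Fin N) (Fin q) ℂ, w = Z * Cᵀ - C * Zᵀ ∧ ∀ i j, pat i j → (Cᵀ * Z) i j = 0

/-- Non-negativity on the test set of a pattern. -/
def Pos (q : ℕ) (pat : Fin q → Fin q → Prop) (R : T4 N) : Prop :=
  ∀ (Z : Matrix (Fin N) (Fin q) ℂ) (w : CMat N), Zᵀ * Z = 0 → Zᴴ * Z = 1 → XS pat Z w →
    0 ≤ rq R w

/-- The first `r` columns. -/
def cols {q r : ℕ} (h : r ≤ q) (Z : Matrix (Fin N) (Fin q) ℂ) : Matrix (Fin N) (Fin r) ℂ :=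
  Z.submatrix id (Fin.castLE h)

/-- The penalty of the non-invariant steps. -/
def penK {r : ℕ} (k : ℕ) (V : Matrix (Fin N) (Fin r) ℂ) (w : CMat N) : ℝ :=
  ‖(Vᴴ * w ^ k * V.map conj).det‖ ^ ((2 : ℝ) / (r * k))

/-- The flow lies asymptotically in a cone of tensors with property `P`. -/
def AsymP (T : ℝ) (W : ℝ → Set (T4 n)) (P : T4 n → Prop) : Prop :=
  ∃ (K : Type) (l : K → T4 n →ₗ[ℝ] ℝ), Asym T W l ∧ ∀ R, IsCurv R → (∀ τ, 0 ≤ l τ R) → P R

theorem AsymP.mono {P P' : T4 n → Prop} (h : AsymP T W P) (hP : ∀ R, IsCurv R → P R → P' R) :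
    AsymP T W P' := by
  obtain ⟨K, l, h1, h2⟩ := h
  exact ⟨K, l, h1, fun R hR h3 => hP R hR (h2 R hR h3)⟩

theorem AsymP.and {P P' : T4 n → Prop} (h : AsymP T W P) (h' : AsymP T W P') :
    AsymP T W fun R => P R ∧ P' R := by
  obtain ⟨K, l, h1, h2⟩ := h
  obtain ⟨K', l', h1', h2'⟩ := h'
  exact ⟨K ⊕ K', Sum.elim l l', h1.sum h1', fun R hR h3 =>
    ⟨h2 R hR fun τ => h3 (.inl τ), h2' R hR fun τ => h3 (.inr τ)⟩⟩

theorem AsymP.start (hW : CurvFlow n T W) {P : T4 n → Prop} (h : AsymP T W P) {K : Type}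
    [TopologicalSpace K] [CompactSpace K] {l : K → T4 n →ₗ[ℝ] ℝ}
    (hl : ∀ R, Continuous fun τ => l τ R) (hP : ∀ R, IsCurv R → P R → ∀ τ, 0 ≤ l τ R) :
    Asym T W l := by
  obtain ⟨K₀, l₀, h1, h2⟩ := h
  exact asym_mono hW hl (fun R hR h3 => hP R hR (h2 R hR h3)) h1

theorem AsymP.family (hW : CurvFlow n T W) {P : T4 n → Prop} (h : AsymP T W P) {K : Type}
    [TopologicalSpace K] [CompactSpace K] {l : ℝ → K → T4 n →ₗ[ℝ] ℝ} {a b : ℝ} (hab : a ≤ b)
    (hl : ∀ R, ContinuousOn (fun p : ℝ × K => l p.1 p.2 R) (Icc a b ×ˢ univ))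
    (htr : ∀ s ∈ Ico a b, ∀ R, IsCurv R → R ≠ 0 → P R → (∀ τ, 0 ≤ l s τ R) →
      ∀ τ, l s τ R = 0 → 0 < l s τ (Qq4 R)) (ha : Asym T W (l a)) : Asym T W (l b) := by
  obtain ⟨K₀, l₀, h1, h2⟩ := h
  exact asym_family hW hab hl h1 (fun s hs R hR hne h3 => htr s hs R hR hne (h2 R hR h3)) ha

theorem AsymP.pinched (hW : CurvFlow n T W) (h : AsymP T W OpNonneg) : Pinched T W := by
  obtain ⟨K, l, h1, h2⟩ := h
  exact pinched_of_asym hW h2 h1

end

end Pool.Agent.Work.MP_3a9764_gt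
end

-- merged part: Pool.Agent.Work.MP_3a9764_gt.St2d
section
/-! The scalar quantities of stage 2. -/

set_option autoImplicit false

namespace Pool.Agent.Work.MP_3a9764_gt

noncomputable section

def tb (n : ℕ) (τ : ℝ) : ℝ := 2 * τ ^ 2 / (1 - ((n : ℝ) - 2) * τ ^ 2)

def tal (n : ℕ) (τ : ℝ) : ℝ := 2 * τ / (1 - ((n : ℝ) - 2) * τ ^ 2)

def cA (n : ℕ) (b : ℝ) : ℝ :=
  2 * (aa n (bOne n) - aa n b) / (1 + 2 * ((n : ℝ) - 1) * aa n (bOne n))

def cB (n : ℕ) (b : ℝ) : ℝ := (bOne n - b) / (1 + ((n : ℝ) - 2) * bOne n)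

def dl (n : ℕ) (b : ℝ) : ℝ :=
  2 - (1 + ((n : ℝ) - 2) * bOne n) / (1 + ((n : ℝ) - 2) * b) * (2 + 2 * (bOne n / 3)) *
    ((1 + 2 * ((n : ℝ) - 1) * aa n b) / (1 + 2 * ((n : ℝ) - 1) * aa n (bOne n)))

/-- The lower bound for the derivative at an active frame. -/
def Efull (n : ℕ) (b α β L u s t q σ : ℝ) : ℝ :=
  α ^ 2 * (1 + L) * (u + 2) ^ 2 / 2 + α * β * (1 + L) * (u + 2) -
    2 * α * β * ((s + 1) + L * (t + 1)) + b ^ 2 * ((1 + L) * q + 2 * s ^ 2 + 2 * L * t ^ 2) +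
    2 * (1 + L) * cc n b * σ +
    (1 - L) * (α * (-2 * b * q + 2 * aa n b * (((n : ℝ) - 2) * (u + 2) + 2) + 2 * ee n b * σ) +
      β * (4 * aa n b * ((n : ℝ) - 1) - u + 2 * (1 - 2 * b + ee n b) * σ))

/-- The activity constraint. -/
def Act (n : ℕ) (A B α β η u s t : ℝ) : ℝ :=
  η * (2 - 2 * ((n : ℝ) - 2) * A + (1 - ((n : ℝ) - 4) * B) * (t + u / 2) - (α * (u + 2) + 2 * β)) -
    (4 * A + 2 * B * (u + s + t))

end

end Pool.Agent.Work.MP_3a9764_gt
end
end

-- merged part: Pool.Agent.Work.MP_3a9764_gt.APic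
section
-- merged part: Pool.Agent.Work.MP_3a9764_gt.AFrame
section
/-! Frames: completion, QR, normal forms of isotropic subspaces. -/

set_option autoImplicit false

open Filter Set Matrix
open scoped Topology ComplexConjugate

namespace Pool.Agent.Work.MP_3a9764_gt

noncomputable section

variable {n N : ℕ} {T : ℝ} {W : ℝ → Set (T4 n)}

/-- The complex vector with given real and imaginary parts. -/
def cv (a b : Fin n → ℝ) : Fin n → ℂ := fun i => (a i : ℂ) + Complex.I * (b i : ℂ)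

theorem exists_orth_of_on {k : ℕ} (hk : k ≤ n) (e : Fin k → Fin n → ℝ)
    (he : ∀ a b, e a ⬝ᵥ e b = if a = b then 1 else 0) :
    ∃ P : Mat n, Pᵀ * P = 1 ∧ ∀ a i, P i (Fin.castLE hk a) = e a i := by
  classical
  let v : Fin n → EuclideanSpace ℝ (Fin n) := fun j =>
    if h : (j : ℕ) < k then WithLp.toLp 2 (e ⟨j, h⟩) else 0
  have hv : Orthonormal ℝ (({j : Fin n | (j : ℕ) < k}).domRestrict v) := by
    rw [orthonormal_iff_ite]
    rintro ⟨i, hi⟩ ⟨j, hj⟩
    have hi' : (i : ℕ) < k := hi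
    have hj' : (j : ℕ) < k := hj
    change inner ℝ (v i) (v j) = _
    simp only [v, dif_pos hi', dif_pos hj', EuclideanSpace.inner_toLp_toLp, star_trivial, he,
      Fin.mk.injEq, Subtype.mk.injEq, Fin.val_inj, eq_comm]
  obtain ⟨b, hb⟩ := hv.exists_orthonormalBasis_extension_of_card_eq (by simp)
  refine ⟨fun i j => b j i, ?_, fun a i => ?_⟩
  · ext i j
    have := orthonormal_iff_ite.1 b.orthonormal j i
    rw [EuclideanSpace.inner_eq_star_dotProduct, star_trivial] at this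
    rw [Matrix.one_apply, if_congr eq_comm rfl rfl, ← this]
    rfl
  · have h : ((Fin.castLE hk a : Fin n) : ℕ) < k := a.2
    simp only [hb _ h, v, dif_pos h]
    rfl

theorem fr_perp {ι : Type} [Fintype ι] (hk : Fintype.card ι < n) (a : ι → Fin n → ℝ) :
    ∃ c : Fin n → ℝ, c ⬝ᵥ c = 1 ∧ ∀ j, a j ⬝ᵥ c = 0 := by
  have h := (Matrix.of a).mulVecLin.ker_ne_bot_of_finrank_lt (by simpa using hk)
  obtain ⟨c, hc, h0⟩ := (Submodule.ne_bot_iff _).1 h
  have h1 : 0 < c ⬝ᵥ c := lt_of_le_of_ne (Finset.sum_nonneg fun i _ => mul_self_nonneg _)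
    fun e => h0 (dotProduct_self_eq_zero.1 e.symm)
  have h2 := Real.sqrt_pos.2 h1
  refine ⟨(√(c ⬝ᵥ c))⁻¹ • c, ?_, fun j => ?_⟩
  · rw [smul_dotProduct, dotProduct_smul, smul_eq_mul, smul_eq_mul, ← mul_assoc, ← mul_inv,
      Real.mul_self_sqrt h1.le, inv_mul_cancel₀ h1.ne']
  · have : a j ⬝ᵥ c = 0 := congrFun hc j
    rw [dotProduct_smul, this, smul_zero]

theorem exists_perp {k : ℕ} (hk : k < n) (a : Fin k → Fin n → ℝ) :
    ∃ c : Fin n → ℝ, c ⬝ᵥ c = 1 ∧ ∀ j, a j ⬝ᵥ c = 0 := by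
  exact fr_perp (by simpa using hk) a

theorem exists_qr {q : ℕ} (Y : Matrix (Fin N) (Fin q) ℂ) (hY : Function.Injective Y.mulVec) :
    ∃ (Z : Matrix (Fin N) (Fin q) ℂ) (U : Matrix (Fin q) (Fin q) ℂ), Zᴴ * Z = 1 ∧
      U.BlockTriangular id ∧ IsUnit U.det ∧ Y = Z * U := by
  let f : Fin q → EuclideanSpace ℂ (Fin N) := fun j => WithLp.toLp 2 (Yᵀ j)
  have hf : LinearIndependent ℂ f := by
    have := (mulVec_injective_iff.1 hY).map' (WithLp.linearEquiv 2 ℂ (Fin N → ℂ)).symm.toLinearMap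
      (LinearEquiv.ker _)
    exact this
  let g := InnerProductSpace.gramSchmidtNormed ℂ f
  let Z : Matrix (Fin N) (Fin q) ℂ := Matrix.of fun i j => g j i
  have h1 : Zᴴ * Z = 1 := by
    ext i j
    have := orthonormal_iff_ite.1 (InnerProductSpace.gramSchmidtNormed_orthonormal hf) i j
    rw [EuclideanSpace.inner_eq_star_dotProduct, dotProduct_comm] at this
    rw [Matrix.one_apply, ← this]
    rfl
  have h2 : ∃ U : Matrix (Fin q) (Fin q) ℂ, Y = Z * U := by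
    have : ∀ j, ∃ c : Fin q → ℂ, ∑ a, c a • g a = f j := fun j => by
      rw [← Submodule.mem_span_range_iff_exists_fun,
        InnerProductSpace.span_gramSchmidtNormed_range, InnerProductSpace.span_gramSchmidt]
      exact Submodule.subset_span ⟨j, rfl⟩
    choose c hc using this
    refine ⟨Matrix.of fun a j => c j a, ?_⟩
    ext i j
    have := congrArg (fun x : EuclideanSpace ℂ (Fin N) => x i) (hc j)
    simp only [WithLp.ofLp_sum, WithLp.ofLp_smul, Finset.sum_apply, Pi.smul_apply,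
      smul_eq_mul] at this
    rw [Matrix.mul_apply]
    exact this.symm.trans (Finset.sum_congr rfl fun a _ => mul_comm _ _)
  obtain ⟨U, hU⟩ := h2
  refine ⟨Z, U, h1, fun i j hij => ?_, ?_, hU⟩
  · have e : U = Zᴴ * Y := by rw [hU, ← Matrix.mul_assoc, h1, Matrix.one_mul]
    have : inner ℂ (g i) (f j) = 0 := by
      simp only [g, InnerProductSpace.gramSchmidtNormed, inner_smul_left]
      rw [InnerProductSpace.gramSchmidt_inv_triangular ℂ f (show j < i from hij), mul_zero]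
    rw [EuclideanSpace.inner_eq_star_dotProduct, dotProduct_comm] at this
    rw [e, ← this]
    rfl
  · rw [← isUnit_iff_isUnit_det, ← mulVec_injective_iff_isUnit]
    intro x y h
    apply hY
    rw [hU, ← mulVec_mulVec, ← mulVec_mulVec, h]

theorem fr_cv_dot (a b c d : Fin n → ℝ) : cv a b ⬝ᵥ cv c d =
    ((a ⬝ᵥ c - b ⬝ᵥ d : ℝ) : ℂ) + Complex.I * ((a ⬝ᵥ d + b ⬝ᵥ c : ℝ) : ℂ) := by
  simp only [dotProduct, cv]
  push_cast
  rw [← Finset.sum_sub_distrib, ← Finset.sum_add_distrib, Finset.mul_sum,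
    ← Finset.sum_add_distrib]
  refine Finset.sum_congr rfl fun i _ => ?_
  linear_combination (b i * d i : ℂ) * Complex.I_sq

theorem fr_star_cv (a b : Fin n → ℝ) : star (cv a b) = cv a (-b) := by
  ext i
  simp [cv]

theorem fr_exists_cv (z : Fin n → ℂ) : ∃ a b, z = cv a b :=
  ⟨fun i => (z i).re, fun i => (z i).im, funext fun i => by
    simp only [cv]
    rw [mul_comm, Complex.re_add_im]⟩

theorem fr_cv_smul (t : ℝ) (a b : Fin n → ℝ) : cv (t • a) (t • b) = (t : ℂ) • cv a b := by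
  ext i
  simp only [cv, Pi.smul_apply, smul_eq_mul]
  push_cast
  ring

theorem fr_re_im {a b c d : Fin n → ℝ} {t : ℝ} (h1 : cv a b ⬝ᵥ cv c d = 0)
    (h2 : star (cv a b) ⬝ᵥ cv c d = t) :
    a ⬝ᵥ c = t / 2 ∧ b ⬝ᵥ d = t / 2 ∧ a ⬝ᵥ d = 0 ∧ b ⬝ᵥ c = 0 := by
  rw [fr_cv_dot] at h1
  rw [fr_star_cv, fr_cv_dot, neg_dotProduct, neg_dotProduct] at h2
  have e1 := congrArg Complex.re h1
  have e2 := congrArg Complex.im h1
  have e3 := congrArg Complex.re h2
  have e4 := congrArg Complex.im h2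
  simp only [Complex.add_re, Complex.add_im, Complex.ofReal_re, Complex.ofReal_im,
    Complex.mul_re, Complex.mul_im, Complex.I_re, Complex.I_im, Complex.zero_re,
    Complex.zero_im] at e1 e2 e3 e4
  refine ⟨?_, ?_, ?_, ?_⟩ <;> linarith only [e1, e3, e2, e4]

/-- Unitary isotropic frames. -/
def Fr {ι : Type} [DecidableEq ι] (z : ι → Fin N → ℂ) : Prop :=
  (∀ a b, z a ⬝ᵥ z b = 0) ∧ ∀ a b, star (z a) ⬝ᵥ z b = if a = b then 1 else 0

theorem fr_iff {ι : Type} [DecidableEq ι] (Z : Matrix (Fin N) ι ℂ) :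
    (Zᵀ * Z = 0 ∧ Zᴴ * Z = 1) ↔ Fr fun a i => Z i a :=
  ⟨fun h => ⟨fun a b => congrFun (congrFun h.1 a) b, fun a b => congrFun (congrFun h.2 a) b⟩,
    fun h => ⟨Matrix.ext h.1, Matrix.ext h.2⟩⟩

theorem fr_new {ι : Type} [Fintype ι] (h : 2 * Fintype.card ι + 2 ≤ N) (z : ι → Fin N → ℂ) :
    ∃ y : Fin N → ℂ, y ⬝ᵥ y = 0 ∧ star y ⬝ᵥ y = 1 ∧
      ∀ a, z a ⬝ᵥ y = 0 ∧ star (z a) ⬝ᵥ y = 0 ∧ star y ⬝ᵥ z a = 0 := by
  choose a b hab using fun i => fr_exists_cv (z i)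
  obtain ⟨c, hc1, hc⟩ := fr_perp (ι := ι ⊕ ι) (n := N) (by rw [Fintype.card_sum]; omega)
    (Sum.elim a b)
  obtain ⟨d, hd1, hd⟩ := fr_perp (ι := Option (ι ⊕ ι)) (n := N)
    (by rw [Fintype.card_option, Fintype.card_sum]; omega) fun o => o.elim c (Sum.elim a b)
  have e0 : c ⬝ᵥ d = 0 := hd none
  have e1 : d ⬝ᵥ c = 0 := by rw [dotProduct_comm, e0]
  have e2 : (√2)⁻¹ * (√2)⁻¹ = (2 : ℝ)⁻¹ := by rw [← mul_inv, Real.mul_self_sqrt zero_le_two]
  refine ⟨cv ((√2)⁻¹ • c) ((√2)⁻¹ • d), ?_, ?_, fun i => ?_⟩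
  · simp [fr_cv_dot, hc1, hd1, e0, e1]
  · simp only [fr_star_cv, fr_cv_dot, neg_dotProduct, smul_dotProduct, dotProduct_smul, hc1, hd1,
      e0, e1, smul_eq_mul, mul_one, mul_neg, e2]
    norm_num
  · have k1 : a i ⬝ᵥ c = 0 := hc (.inl i)
    have k2 : b i ⬝ᵥ c = 0 := hc (.inr i)
    have k3 : a i ⬝ᵥ d = 0 := hd (some (.inl i))
    have k4 : b i ⬝ᵥ d = 0 := hd (some (.inr i))
    rw [dotProduct_comm (star _) (z i), hab i]
    simp [fr_star_cv, fr_cv_dot, k1, k2, k3, k4]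

theorem fr_ext {d r : ℕ} (hd : d ≤ r) (hr : 2 * r ≤ N) {z : Fin d → Fin N → ℂ} (h : Fr z) :
    ∃ z' : Fin r → Fin N → ℂ, Fr z' ∧ ∀ a, z' (Fin.castLE hd a) = z a := by
  induction r, hd using Nat.le_induction with
  | base => exact ⟨z, h, fun _ => rfl⟩
  | succ r hd ih =>
    obtain ⟨z', k0, k1⟩ := ih (by omega)
    obtain ⟨y, y0, y1, y2⟩ := fr_new (ι := Fin r) (N := N) (by rw [Fintype.card_fin]; omega) z'
    refine ⟨Fin.snoc (α := fun _ => Fin N → ℂ) z' y, ⟨fun a b => ?_, fun a b => ?_⟩, fun a => ?_⟩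
    · refine Fin.lastCases ?_ (fun a => ?_) a <;> refine Fin.lastCases ?_ (fun b => ?_) b <;>
        simp only [Fin.snoc_last, Fin.snoc_castSucc]
      exacts [y0, (dotProduct_comm _ _).trans (y2 b).1, (y2 a).1, k0.1 a b]
    · refine Fin.lastCases ?_ (fun a => ?_) a <;> refine Fin.lastCases ?_ (fun b => ?_) b <;>
        simp only [Fin.snoc_last, Fin.snoc_castSucc, Fin.castSucc_inj]
      · exact y1
      · rw [(y2 b).2.2, if_neg (Fin.castSucc_lt_last b).ne']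
      · rw [(y2 a).2.1, if_neg (Fin.castSucc_lt_last a).ne]
      · exact k0.2 a b
    · rw [← k1, ← Fin.snoc_castSucc (α := fun _ => Fin N → ℂ) y z']
      rfl

theorem fr_pad {d r : ℕ} (hd : d ≤ r) (c : Fin d → ℂ) : ∃ u : Fin r → ℂ,
    ∀ g : Fin r → ℂ, ∑ a, g a * u a = ∑ a, g (Fin.castLE hd a) * c a := by
  refine ⟨fun a => if h : (a : ℕ) < d then c ⟨a, h⟩ else 0, fun g => (Fintype.sum_of_injective
    (Fin.castLE hd) (Fin.castLE_injective hd) _ _ (fun a ha => ?_) fun a => ?_).symm⟩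
  · have h : ¬ (a : ℕ) < d := fun h => ha ⟨⟨a, h⟩, rfl⟩
    simp only [dif_neg h, mul_zero]
  · have h : ((Fin.castLE hd a : Fin r) : ℕ) < d := a.2
    simp only [dif_pos h]
    rfl

/-- Every isotropic family of at most `r` vectors lies in the span of a unitary isotropic
`r`-frame. -/
theorem exists_iso_frame {k r : ℕ} (hk : k ≤ r) (hr : 2 * r ≤ N) (Y : Matrix (Fin N) (Fin k) ℂ)
    (hY : Yᵀ * Y = 0) : ∃ (Z : Matrix (Fin N) (Fin r) ℂ) (U : Matrix (Fin r) (Fin k) ℂ),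
      Zᵀ * Z = 0 ∧ Zᴴ * Z = 1 ∧ Y = Z * U := by
  classical
  let f : Fin k → EuclideanSpace ℂ (Fin N) := fun j => WithLp.toLp 2 (Yᵀ j)
  let V := Submodule.span ℂ (range f)
  have hd : Module.finrank ℂ V ≤ r :=
    ((finrank_range_le_card (R := ℂ) f).trans (Fintype.card_fin k).le).trans hk
  let b := stdOrthonormalBasis ℂ V
  have hV : ∀ x ∈ V, ∃ c, x.ofLp = Y *ᵥ c := fun x hx => by
    obtain ⟨c, rfl⟩ := (Submodule.mem_span_range_iff_exists_fun ℂ).1 hx
    refine ⟨c, funext fun i => ?_⟩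
    simp only [WithLp.ofLp_sum, WithLp.ofLp_smul, Finset.sum_apply, Pi.smul_apply, smul_eq_mul]
    exact Finset.sum_congr rfl fun a _ => mul_comm _ _
  have hz : Fr fun a => (b a : EuclideanSpace ℂ (Fin N)).ofLp := by
    refine ⟨fun a a' => ?_, fun a a' => ?_⟩
    · obtain ⟨c, hc⟩ := hV _ (b a).2
      obtain ⟨c', hc'⟩ := hV _ (b a').2
      simp only [hc, hc']
      rw [dotProduct_mulVec, vecMul_mulVec, hY, vecMul_zero, zero_dotProduct]
    · have := orthonormal_iff_ite.1 b.orthonormal a a'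
      rw [Submodule.coe_inner, EuclideanSpace.inner_eq_star_dotProduct, dotProduct_comm] at this
      exact this
  obtain ⟨z, k1, k2⟩ := fr_ext hd hr hz
  have hj : ∀ j, ∃ u : Fin r → ℂ, ∀ i, Y i j = ∑ a, z a i * u a := fun j => by
    have h1 := congrArg (fun x : V => (x : EuclideanSpace ℂ (Fin N)).ofLp)
      (b.sum_repr ⟨f j, Submodule.subset_span ⟨j, rfl⟩⟩)
    simp only [Submodule.coe_sum, Submodule.coe_smul, WithLp.ofLp_sum, WithLp.ofLp_smul] at h1
    generalize (b.repr ⟨f j, _⟩).ofLp = c at h1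
    obtain ⟨u, hu⟩ := fr_pad hd c
    refine ⟨u, fun i => ?_⟩
    have h2 := congrFun h1 i
    rw [Finset.sum_apply] at h2
    rw [hu fun a => z a i]
    refine h2.symm.trans (Finset.sum_congr rfl fun a _ => ?_)
    rw [k2, mul_comm]
    rfl
  choose u hu using hj
  obtain ⟨k3, k4⟩ := (fr_iff (Matrix.of z)ᵀ).2 k1
  exact ⟨(Matrix.of z)ᵀ, (Matrix.of u)ᵀ, k3, k4, by ext i j; exact hu j i⟩

theorem iso_nf (hn : 4 ≤ n) {z w : Fin n → ℂ} (hz : z ⬝ᵥ z = 0) (hzw : z ⬝ᵥ w = 0)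
    (hw : w ⬝ᵥ w = 0) : ∃ (e : Fin 4 → Fin n → ℝ) (κ : ℂ), ON4 e ∧
      wedge z w = κ • wedge (cv (e 0) (e 1)) (cv (e 2) (e 3)) := by
  obtain ⟨Z, U, h0, h1, hY⟩ := exists_iso_frame (k := 2) (r := 2) le_rfl hn (Matrix.of ![z, w])ᵀ
    (by
      ext a b
      fin_cases a <;> fin_cases b
      exacts [hz, hzw, (dotProduct_comm _ _).trans hzw, hw])
  obtain ⟨k0, k1⟩ := (fr_iff Z).1 ⟨h0, h1⟩
  choose a b hab using fun j : Fin 2 => fr_exists_cv fun i => Z i j
  simp only [hab] at k0 k1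
  have k2 : ∀ i j : Fin 2, _ := fun i j => fr_re_im (t := if i = j then 1 else 0) (k0 i j)
    (by rw [k1]; split_ifs <;> simp)
  have e2 : √2 * √2 = 2 := Real.mul_self_sqrt zero_le_two
  have e3 : (√2 : ℂ) * (√2 : ℂ) = 2 := by exact_mod_cast e2
  refine ⟨![√2 • a 0, √2 • b 0, √2 • a 1, √2 • b 1], U.det / 2, fun i j => ?_, ?_⟩
  · change _ ⬝ᵥ _ = _
    fin_cases i <;> fin_cases j <;>
      simp [(k2 _ _).1, (k2 _ _).2.1, (k2 _ _).2.2.1, (k2 _ _).2.2.2, ← mul_assoc, e2]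
  · ext i j
    have hz' : ∀ i, z i = Z i 0 * U 0 0 + Z i 1 * U 1 0 := fun i => by
      have := congrFun (congrFun hY i) 0
      rw [Matrix.mul_apply, Fin.sum_univ_two] at this
      exact this
    have hw' : ∀ i, w i = Z i 0 * U 0 1 + Z i 1 * U 1 1 := fun i => by
      have := congrFun (congrFun hY i) 1
      rw [Matrix.mul_apply, Fin.sum_univ_two] at this
      exact this
    change _ = (U.det / 2) • wedge (cv (√2 • a 0) (√2 • b 0)) (cv (√2 • a 1) (√2 • b 1)) i j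
    rw [fr_cv_smul, fr_cv_smul, ← hab, ← hab, det_fin_two]
    simp only [wedge, Matrix.sub_apply, vecMulVec_apply, hz', hw', Pi.smul_apply, smul_eq_mul]
    linear_combination (-(U 0 0 * U 1 1 - U 0 1 * U 1 0) / 2 *
      (Z i 0 * Z j 1 - Z i 1 * Z j 0)) * e3

theorem fr_dir {k : ℕ} (hk : k < n) (a : Fin k → Fin n → ℝ) (b : Fin n → ℝ)
    (h : ∀ j, a j ⬝ᵥ b = 0) : ∃ (c : Fin n → ℝ) (t : ℝ), c ⬝ᵥ c = 1 ∧ (∀ j, a j ⬝ᵥ c = 0) ∧
      0 ≤ t ∧ b = t • c := by
  by_cases h0 : b = 0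
  · obtain ⟨c, h1, h2⟩ := exists_perp hk a
    exact ⟨c, 0, h1, h2, le_rfl, by rw [h0, zero_smul]⟩
  have h1 : 0 < b ⬝ᵥ b := lt_of_le_of_ne (Finset.sum_nonneg fun i _ => mul_self_nonneg _)
    fun e => h0 (dotProduct_self_eq_zero.1 e.symm)
  have h2 := Real.sqrt_pos.2 h1
  refine ⟨(√(b ⬝ᵥ b))⁻¹ • b, √(b ⬝ᵥ b), ?_, fun j => ?_, h2.le, (smul_inv_smul₀ h2.ne' _).symm⟩
  · rw [smul_dotProduct, dotProduct_smul, smul_eq_mul, smul_eq_mul, ← mul_assoc, ← mul_inv,
      Real.mul_self_sqrt h1.le, inv_mul_cancel₀ h1.ne']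
  · rw [dotProduct_smul, h, smul_zero]

theorem fr_phase (y : Fin n → ℂ) : ∃ u : ℂ, u ≠ 0 ∧ ∃ c d : Fin n → ℝ, y = u • cv c d ∧
    c ⬝ᵥ d = 0 ∧ d ⬝ᵥ d ≤ c ⬝ᵥ c := by
  obtain ⟨u, hu, t, ht, h⟩ : ∃ u : ℂ, u ≠ 0 ∧ ∃ t : ℝ, 0 ≤ t ∧ (u⁻¹ • y) ⬝ᵥ (u⁻¹ • y) = t := by
    by_cases h0 : y ⬝ᵥ y = 0
    · exact ⟨1, one_ne_zero, 0, le_rfl, by simp [h0]⟩
    · obtain ⟨u, hu⟩ := IsAlgClosed.exists_eq_mul_self (y ⬝ᵥ y)
      have h1 : u ≠ 0 := fun e => h0 (by rw [hu, e, mul_zero])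
      refine ⟨u, h1, 1, zero_le_one, ?_⟩
      rw [smul_dotProduct, dotProduct_smul, hu, smul_eq_mul, smul_eq_mul, Complex.ofReal_one]
      field_simp
  obtain ⟨c, d, e⟩ := fr_exists_cv (u⁻¹ • y)
  rw [e, fr_cv_dot, dotProduct_comm d c] at h
  have e1 := congrArg Complex.re h
  have e2 := congrArg Complex.im h
  simp only [Complex.add_re, Complex.add_im, Complex.ofReal_re, Complex.ofReal_im,
    Complex.mul_re, Complex.mul_im, Complex.I_re, Complex.I_im] at e1 e2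
  exact ⟨u, hu, c, d, by rw [← e, smul_inv_smul₀ hu], by linarith only [e2], by linarith⟩

open scoped ComplexOrder in
/-- An isotropic vector together with an arbitrary orthogonal vector. -/
theorem pic1_nf (hn : 4 ≤ n) {z y : Fin n → ℂ} (hz : z ⬝ᵥ z = 0) (hz0 : z ≠ 0) (hzy : z ⬝ᵥ y = 0) :
    ∃ (e : Fin 4 → Fin n → ℝ) (la : ℝ) (κ κ' μ : ℂ), ON4 e ∧ la ∈ Icc (0 : ℝ) 1 ∧
      z = κ • cv (e 0) (e 1) ∧ y = κ' • cv (e 2) (la • e 3) + μ • z := by
  obtain ⟨a, b, rfl⟩ := fr_exists_cv z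
  have h1 : star (cv a b) ⬝ᵥ cv a b = ((a ⬝ᵥ a + b ⬝ᵥ b : ℝ) : ℂ) := by
    rw [fr_star_cv, fr_cv_dot, neg_dotProduct, neg_dotProduct, dotProduct_comm b a]
    simp
  generalize a ⬝ᵥ a + b ⬝ᵥ b = t at h1
  have ht0 : (t : ℂ) ≠ 0 := fun e => hz0 (dotProduct_star_self_eq_zero.1 (h1.trans e))
  obtain ⟨p1, p2, p3, p4⟩ := fr_re_im hz h1
  have ht : 0 < t / 2 := lt_of_le_of_ne
    (p1 ▸ Finset.sum_nonneg fun i _ => mul_self_nonneg (a i))
    fun e => ht0 (by rw [show t = 0 by linarith only [e], Complex.ofReal_zero])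
  have hs := Real.sqrt_pos.2 ht
  have es := Real.mul_self_sqrt ht.le
  generalize √(t / 2) = s at hs es
  obtain ⟨μ, hμ⟩ : ∃ μ : ℂ, star (cv a b) ⬝ᵥ (y - μ • cv a b) = 0 :=
    ⟨(star (cv a b) ⬝ᵥ y) / t, by
      rw [dotProduct_sub, dotProduct_smul, h1, smul_eq_mul, div_mul_cancel₀ _ ht0, sub_self]⟩
  have hμ' : cv a b ⬝ᵥ (y - μ • cv a b) = 0 := by
    rw [dotProduct_sub, dotProduct_smul, hz, hzy, smul_zero, sub_zero]
  obtain ⟨u, hu, c, d, q0, q1, q2⟩ := fr_phase (y - μ • cv a b)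
  rw [q0, dotProduct_smul, smul_eq_zero_iff_right hu] at hμ hμ'
  obtain ⟨r1, r2, r3, r4⟩ := fr_re_im (t := 0) hμ' (by rw [hμ, Complex.ofReal_zero])
  rw [zero_div] at r1 r2
  obtain ⟨e2, t2, f1, f2, f3, rfl⟩ := fr_dir (k := 2) (by omega) ![a, b] c fun j => by
    fin_cases j
    exacts [r1, r4]
  have g0 : e2 ⬝ᵥ d = 0 := by
    rcases f3.eq_or_lt with e | e
    · subst e
      have : d = 0 := dotProduct_self_eq_zero.1 (le_antisymm (by simpa using q2)
        (Finset.sum_nonneg fun i _ => mul_self_nonneg _))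
      rw [this, dotProduct_zero]
    · rw [smul_dotProduct, smul_eq_zero_iff_right e.ne'] at q1
      exact q1
  obtain ⟨e3, t3, g1, g2, g3, rfl⟩ := fr_dir (k := 3) (by omega) ![a, b, e2] d fun j => by
    fin_cases j
    exacts [r3, r2, g0]
  have f4 : a ⬝ᵥ e2 = 0 := f2 0
  have f5 : b ⬝ᵥ e2 = 0 := f2 1
  have g4 : a ⬝ᵥ e3 = 0 := g2 0
  have g5 : b ⬝ᵥ e3 = 0 := g2 1
  have g6 : e2 ⬝ᵥ e3 = 0 := g2 2
  simp only [smul_dotProduct, dotProduct_smul, f1, g1, smul_eq_mul, mul_one] at q2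
  have h32 : t3 ≤ t2 := (mul_self_le_mul_self_iff g3 f3).2 q2
  have h33 : t2 * (t3 / t2) = t3 := by
    rcases f3.eq_or_lt with e | e
    · rw [← e, zero_mul]
      linarith only [h32, e, g3]
    · exact mul_div_cancel₀ _ e.ne'
  have es' : s⁻¹ * (s⁻¹ * (t / 2)) = 1 := by
    rw [← es]
    field_simp
  refine ⟨![s⁻¹ • a, s⁻¹ • b, e2, e3], t3 / t2, s, u * t2, μ, fun i j => ?_,
    ⟨div_nonneg g3 f3, div_le_one_of_le₀ h32 f3⟩, ?_, ?_⟩
  · change _ ⬝ᵥ _ = _
    fin_cases i <;> fin_cases j <;>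
      simp [p1, p2, p3, p4, f1, g1, f4, f5, g4, g5, g6, es', dotProduct_comm e2 a,
        dotProduct_comm e2 b, dotProduct_comm e3 a, dotProduct_comm e3 b, dotProduct_comm e3 e2]
  · change _ = (s : ℂ) • cv (s⁻¹ • a) (s⁻¹ • b)
    rw [← fr_cv_smul, smul_inv_smul₀ hs.ne', smul_inv_smul₀ hs.ne']
  · change _ = (u * t2) • cv e2 ((t3 / t2) • e3) + _
    rw [mul_smul, ← fr_cv_smul, smul_smul t2, h33, ← q0, sub_add_cancel]

theorem fr_dbl {ι : Type} [DecidableEq ι] {z : ι → Fin N → ℂ} (h : Fr z) (s t : ι ⊕ ι) :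
    star (Sum.elim z (star z) s) ⬝ᵥ Sum.elim z (star z) t = if s = t then 1 else 0 := by
  rcases s with a | a <;> rcases t with b | b <;>
    simp only [Sum.elim_inl, Sum.elim_inr, Pi.star_apply, star_star, Sum.inl.injEq, Sum.inr.injEq,
      reduceCtorEq, if_false]
  · exact h.2 a b
  · rw [star_dotProduct_star, h.1, star_zero]
  · exact h.1 a b
  · rw [dotProduct_comm, h.2, if_congr eq_comm rfl rfl]

theorem fr_complete {ι : Type} [Fintype ι] [DecidableEq ι] (hc : Fintype.card ι = N)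
    (w : ι → Fin N → ℂ) (h : ∀ s t, star (w s) ⬝ᵥ w t = if s = t then 1 else 0) (i j : Fin N) :
    ∑ s, w s i * conj (w s j) = (1 : Matrix (Fin N) (Fin N) ℂ) i j := by
  have h1 : ((Matrix.of w)ᵀ)ᴴ * (Matrix.of w)ᵀ = 1 := Matrix.ext h
  exact congrFun (congrFun ((mul_eq_one_comm_of_equiv
    (Fintype.equivFinOfCardEq hc)).1 h1) i) j

theorem fr_card_le {ι : Type} [Fintype ι] [DecidableEq ι] (w : ι → Fin N → ℂ)
    (h : ∀ s t, star (w s) ⬝ᵥ w t = if s = t then 1 else 0) : Fintype.card ι ≤ N := by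
  have h1 : ((Matrix.of w)ᵀ)ᴴ * (Matrix.of w)ᵀ = 1 := Matrix.ext h
  rw [← rank_one (R := ℂ), ← h1]
  exact (rank_mul_le_right _ _).trans ((rank_le_card_height _).trans (Fintype.card_fin N).le)

theorem complete_even {r : ℕ} {Z : Matrix (Fin (2 * r)) (Fin r) ℂ} (h0 : Zᵀ * Z = 0)
    (h1 : Zᴴ * Z = 1) : Z * Zᴴ + (Z * Zᴴ).map conj = 1 := by
  ext i j
  rw [← fr_complete (by rw [Fintype.card_sum, Fintype.card_fin]; omega) _
    (fr_dbl ((fr_iff Z).1 ⟨h0, h1⟩)) i j, Fintype.sum_sum_type]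
  simp [Matrix.mul_apply]

theorem complete_odd {r : ℕ} {Z : Matrix (Fin (2 * r + 1)) (Fin r) ℂ} (h0 : Zᵀ * Z = 0)
    (h1 : Zᴴ * Z = 1) : ∃ e : Fin (2 * r + 1) → ℝ, e ⬝ᵥ e = 1 ∧
      Zᵀ *ᵥ (fun i => (e i : ℂ)) = 0 ∧
      Z * Zᴴ + (Z * Zᴴ).map conj + vecMulVec (fun i => (e i : ℂ)) (fun i => (e i : ℂ)) = 1 := by
  have hF := (fr_iff Z).1 ⟨h0, h1⟩
  choose a b hab using fun j : Fin r => fr_exists_cv fun i => Z i j
  obtain ⟨e, he1, he⟩ := fr_perp (ι := Fin r ⊕ Fin r) (n := 2 * r + 1)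
    (by rw [Fintype.card_sum, Fintype.card_fin]; omega) (Sum.elim a b)
  have e0 : (fun i => (e i : ℂ)) = cv e 0 := funext fun i => by simp [cv]
  have e1 : star (cv e 0) = cv e 0 := by rw [fr_star_cv, neg_zero]
  have k1 : ∀ j, a j ⬝ᵥ e = 0 := fun j => he (.inl j)
  have k2 : ∀ j, b j ⬝ᵥ e = 0 := fun j => he (.inr j)
  have k3 : ∀ j, (fun i => Z i j) ⬝ᵥ cv e 0 = 0 := fun j => by
    simp [hab j, fr_cv_dot, k1, k2]
  have k4 : ∀ j, star (fun i => Z i j) ⬝ᵥ cv e 0 = 0 := fun j => by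
    simp [hab j, fr_star_cv, fr_cv_dot, k1, k2]
  have k5 : ∀ s, star (Sum.elim (fun j i => Z i j) (star fun j i => Z i j) s) ⬝ᵥ cv e 0 = 0 := by
    rintro (j | j)
    · exact k4 j
    · rw [Sum.elim_inr, Pi.star_apply, star_star]
      exact k3 j
  refine ⟨e, he1, ?_, ?_⟩
  · rw [e0]
    exact funext k3
  · ext i j
    rw [← fr_complete (ι := Option (Fin r ⊕ Fin r))
      (by rw [Fintype.card_option, Fintype.card_sum, Fintype.card_fin]; omega)
      (fun o => o.elim (cv e 0) (Sum.elim (fun j i => Z i j) (star fun j i => Z i j))) ?_ i j,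
      Fintype.sum_option, Fintype.sum_sum_type, add_comm]
    · simp [Matrix.mul_apply, vecMulVec_apply, cv]
    · rintro (_ | s) (_ | t) <;> simp only [Option.elim, reduceCtorEq, if_false, if_true,
        Option.some.injEq]
      · simp [e1, fr_cv_dot, he1]
      · rw [star_dotProduct, k5, star_zero]
      · exact k5 s
      · exact fr_dbl hF s t

theorem fr_spec {H : CMat N} (hH : H.IsHermitian) : ∃ (U : CMat N) (l : Fin N → ℝ),
    Uᴴ * U = 1 ∧ U * Uᴴ = 1 ∧ H * U = U * diagonal fun j => (l j : ℂ) := by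
  refine ⟨hH.eigenvectorUnitary, hH.eigenvalues, hH.eigenvectorUnitary.2.1,
    hH.eigenvectorUnitary.2.2, ?_⟩
  ext i j
  have := congrFun (hH.mulVec_eigenvectorBasis j) i
  rw [mul_diagonal, mul_comm]
  exact this

/-- A real skew matrix preserves a maximal isotropic flag. -/
theorem real_skew_flag {r : ℕ} (φ : Mat (2 * r + 1)) (hφ : ∀ i j, φ j i = -φ i j) :
    ∃ Z : Matrix (Fin (2 * r + 1)) (Fin r) ℂ, Zᵀ * Z = 0 ∧ Zᴴ * Z = 1 ∧
      XS (fun i j => j < i) Z (φ.map fun x => (x : ℂ)) := by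
  classical
  set Φ : CMat (2 * r + 1) := φ.map fun x => (x : ℂ) with hΦ
  have t1 : Φᵀ = -Φ := by
    ext i j
    simp [hΦ, hφ i j]
  have t2 : Φ.map conj = Φ := by
    ext i j
    simp [hΦ]
  obtain ⟨U, l, u1, u2, hU⟩ := fr_spec (H := Complex.I • Φ) (by
    ext i j
    simp [hΦ, hφ i j])
  have s1 : ∀ j k, (Uᵀ * U) j k * (l j + l k : ℝ) = 0 := fun j k => by
    have e1 : Uᵀ * ((Complex.I • Φ) * U) = -(((Complex.I • Φ) * U)ᵀ * U) := by
      rw [transpose_mul, transpose_smul, t1, smul_neg, Matrix.mul_neg, Matrix.neg_mul, neg_neg,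
        Matrix.mul_assoc]
    rw [hU, transpose_mul, diagonal_transpose, ← Matrix.mul_assoc, Matrix.mul_assoc (diagonal _)]
      at e1
    have e2 := congrFun (congrFun e1 j) k
    rw [mul_diagonal, Matrix.neg_apply, diagonal_mul] at e2
    push_cast
    linear_combination e2
  have s2 : ∀ j k, (Uᵀ * U) j k ≠ 0 → l j + l k = 0 := fun j k h => by
    exact_mod_cast (mul_eq_zero.1 (s1 j k)).resolve_left h
  let Dp : CMat (2 * r + 1) := diagonal fun j => ((max (l j) 0 : ℝ) : ℂ)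
  let Dm : CMat (2 * r + 1) := diagonal fun j => ((max (-l j) 0 : ℝ) : ℂ)
  have s3 : Dp * (Uᵀ * U) = Uᵀ * U * Dm := by
    ext j k
    rw [diagonal_mul, mul_diagonal, mul_comm]
    by_cases h : (Uᵀ * U) j k = 0
    · rw [h, zero_mul, zero_mul]
    · rw [show l j = -l k by linarith only [s2, h, s2 j k h]]
  have u3 : U.map conj * Uᵀ = 1 := by
    have := congrArg transpose u2
    rw [transpose_mul, transpose_one] at this
    exact this
  have s4 : U.map conj * Dp * Uᵀ = U * Dm * Uᴴ := by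
    rw [← Matrix.mul_one (U.map conj * Dp * Uᵀ), ← u2, ← Matrix.mul_assoc,
      Matrix.mul_assoc _ Uᵀ, Matrix.mul_assoc _ Dp, s3, ← Matrix.mul_assoc, ← Matrix.mul_assoc,
      u3, Matrix.one_mul]
  have s5 : Complex.I • Φ = U * Dp * Uᴴ - U.map conj * Dp * Uᵀ := by
    rw [s4, ← Matrix.sub_mul, ← Matrix.mul_sub, diagonal_sub, ← Matrix.mul_one (Complex.I • Φ),
      ← u2, ← Matrix.mul_assoc, hU]
    congr 3
    funext j
    rw [← Complex.ofReal_sub, max_zero_sub_max_neg_zero_eq_self]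
  let S := Finset.univ.filter fun j => 0 < l j
  let g := S.orderEmbOfFin rfl
  have g1 : ∀ a, 0 < l (g a) := fun a => (Finset.mem_filter.1 (S.orderEmbOfFin_mem rfl a)).2
  have hF : Fr fun a i => U i (g a) := by
    refine ⟨fun a b => ?_, fun a b => ?_⟩
    · by_contra h
      linarith [s2 (g a) (g b) h, g1 a, g1 b]
    · have := congrFun (congrFun u1 (g a)) (g b)
      rw [Matrix.one_apply, if_congr g.injective.eq_iff rfl rfl] at this
      exact this
  have hd : S.card ≤ r := by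
    have := fr_card_le _ (fr_dbl hF)
    rw [Fintype.card_sum, Fintype.card_fin] at this
    omega
  obtain ⟨z, k1, k2⟩ := fr_ext hd (by omega) hF
  obtain ⟨c, hc⟩ := fr_pad hd fun a => (l (g a) : ℂ)
  obtain ⟨k3, k4⟩ := (fr_iff (Matrix.of z)ᵀ).2 k1
  have s6 : ∀ F : ℂ → ℂ → ℂ, ∀ i j, ∑ a, F (z a i) (z a j) * c a =
      ∑ k, F (U i k) (U j k) * ((max (l k) 0 : ℝ) : ℂ) := fun F i j => by
    rw [hc fun a => F (z a i) (z a j)]
    refine Fintype.sum_of_injective g g.injective _ _ (fun k hk => ?_) fun a => ?_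
    · have : ¬ 0 < l k := fun h => hk (by
        rw [Finset.range_orderEmbOfFin]
        exact Finset.mem_filter.2 ⟨Finset.mem_univ _, h⟩)
      rw [max_eq_right (not_lt.1 this), Complex.ofReal_zero, mul_zero]
    · rw [k2, max_eq_left (g1 a).le]
  refine ⟨(Matrix.of z)ᵀ, k3, k4, Matrix.of fun i a => -Complex.I * c a * conj (z a i), ?_,
    fun a b hab => ?_⟩
  · ext i j
    have e1 := congrFun (congrFun s5 i) j
    have e2 := s6 (fun x y => x * conj y) i j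
    have e3 := s6 (fun x y => conj x * y) i j
    simp only [Matrix.smul_apply, Matrix.sub_apply, Matrix.mul_apply (N := Uᴴ),
      Matrix.mul_apply (N := Uᵀ), Dp, mul_diagonal, conjTranspose_apply, transpose_apply,
      Matrix.map_apply, smul_eq_mul, Complex.star_def] at e1
    simp only [mul_right_comm _ _ ((max (l _) 0 : ℝ) : ℂ)] at e2 e3
    rw [← e2, ← e3] at e1
    simp only [Matrix.sub_apply, Matrix.mul_apply, transpose_apply, of_apply]
    have e4 : ∑ a, z a i * (-Complex.I * c a * conj (z a j)) =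
        -Complex.I * ∑ a, z a i * conj (z a j) * c a := by
      rw [Finset.mul_sum]
      exact Finset.sum_congr rfl fun a _ => by ring
    have e5 : ∑ a, -Complex.I * c a * conj (z a i) * z a j =
        -Complex.I * ∑ a, conj (z a i) * z a j * c a := by
      rw [Finset.mul_sum]
      exact Finset.sum_congr rfl fun a _ => by ring
    rw [e4, e5]
    linear_combination -Complex.I * e1 + Φ i j * Complex.I_sq
  · have e1 := k1.2 a b
    rw [if_neg hab.ne'] at e1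
    simp only [Matrix.mul_apply, transpose_apply, of_apply, mul_assoc, ← Finset.mul_sum]
    rw [show ∑ i, conj (z a i) * z b i = 0 from e1, mul_zero, mul_zero]

end

end Pool.Agent.Work.MP_3a9764_gt
end

-- merged part: Pool.Agent.Work.MP_3a9764_gt.APic
section
/-! Elementary consequences of the isotropic curvature conditions; flat extensions. -/

set_option autoImplicit false

open Filter Set Matrix
open scoped Topology ComplexConjugate

namespace Pool.Agent.Work.MP_3a9764_gt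

noncomputable section

variable {n N : ℕ} {T : ℝ} {W : ℝ → Set (T4 n)}

theorem ap_rot3 {α M : Type} [Fintype α] [AddCommMonoid M] (X : α → α → α → M) :
    ∑ a, ∑ b, ∑ c, X a b c = ∑ b, ∑ c, ∑ a, X a b c := by
  rw [Finset.sum_comm]
  exact Finset.sum_congr rfl fun _ _ => Finset.sum_comm

theorem ap_sum14 {α β M : Type} [Fintype α] [Fintype β] [AddCommMonoid M]
    (X : α → β → β → β → β → M) :
    ∑ i, ∑ a, ∑ b, ∑ c, ∑ d, X i a b c d = ∑ a, ∑ b, ∑ c, ∑ d, ∑ i, X i a b c d := by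
  have h := Finset.sum_comm (s := (Finset.univ : Finset α))
    (t := (Finset.univ : Finset (β × β × β × β)))
    (f := fun i q => X i q.1 q.2.1 q.2.2.1 q.2.2.2)
  simpa only [Fintype.sum_prod_type] using h

theorem ap_sum22 {α β M : Type} [Fintype α] [Fintype β] [AddCommMonoid M]
    (X : α → α → β → β → M) :
    ∑ i, ∑ j, ∑ a, ∑ b, X i j a b = ∑ a, ∑ b, ∑ i, ∑ j, X i j a b := by
  have h := Finset.sum_comm (s := (Finset.univ : Finset (α × α)))
    (t := (Finset.univ : Finset (β × β))) (f := fun p q => X p.1 p.2 q.1 q.2)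
  simpa only [Fintype.sum_prod_type] using h

theorem ap_sum44 {α β M : Type} [Fintype α] [Fintype β] [AddCommMonoid M]
    (X : α → α → α → α → β → β → β → β → M) :
    ∑ i, ∑ j, ∑ k, ∑ l, ∑ a, ∑ b, ∑ c, ∑ d, X i j k l a b c d =
      ∑ a, ∑ b, ∑ c, ∑ d, ∑ i, ∑ j, ∑ k, ∑ l, X i j k l a b c d := by
  have h := Finset.sum_comm (s := (Finset.univ : Finset (α × α × α × α)))
    (t := (Finset.univ : Finset (β × β × β × β)))
    (f := fun p q => X p.1 p.2.1 p.2.2.1 p.2.2.2 q.1 q.2.1 q.2.2.1 q.2.2.2)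
  simpa only [Fintype.sum_prod_type] using h

theorem ap_ev_skew {R : T4 n} (hR : IsCurv R) (a b c d : Fin n → ℝ) :
    ev4 R b a c d = -ev4 R a b c d := by
  unfold ev4
  rw [Finset.sum_comm]
  simp only [← Finset.sum_neg_distrib]
  exact Finset.sum_congr rfl fun i _ => Finset.sum_congr rfl fun j _ =>
    Finset.sum_congr rfl fun k _ => Finset.sum_congr rfl fun l _ => by
      rw [hR.skew i j k l]; ring

theorem ap_ev_pair {R : T4 n} (hR : IsCurv R) (a b c d : Fin n → ℝ) :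
    ev4 R c d a b = ev4 R a b c d := by
  unfold ev4
  rw [ap_sum22]
  exact Finset.sum_congr rfl fun i _ => Finset.sum_congr rfl fun j _ =>
    Finset.sum_congr rfl fun k _ => Finset.sum_congr rfl fun l _ => by
      rw [hR.pair i j k l]; ring

theorem ap_ev_bianchi {R : T4 n} (hR : IsCurv R) (a b c d : Fin n → ℝ) :
    ev4 R a b c d + ev4 R b c a d + ev4 R c a b d = 0 := by
  have cyc : ∀ (S : T4 n) (a b c d : Fin n → ℝ),
      ev4 S b c a d = ev4 (fun i j k l => S j k i l) a b c d := by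
    intro S a b c d
    unfold ev4
    rw [ap_rot3 fun i j k => ∑ l, S j k i l * a i * b j * c k * d l]
    exact Finset.sum_congr rfl fun _ _ => Finset.sum_congr rfl fun _ _ =>
      Finset.sum_congr rfl fun _ _ => Finset.sum_congr rfl fun _ _ => by ring
  rw [cyc R b c a, cyc _ a b c, cyc _ a b c]
  simp only [ev4, ← Finset.sum_add_distrib, ← add_mul, hR.bianchi, zero_mul,
    Finset.sum_const_zero]

theorem ap_cq_wedge {R : T4 n} (hR : IsOp R) (x y z w : Fin n → ℂ) :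
    cq R (wedge x y) (wedge z w) = 4 * cq R (vecMulVec x y) (vecMulVec z w) := by
  have e : ∀ a b : Fin n → ℂ, wedge a b = vecMulVec a b + -(vecMulVec a b)ᵀ := fun a b => by
    simp [wedge, sub_eq_add_neg]
  simp only [e, cq_add_left, cq_add_right, cq_neg_left, cq_neg_right, cq_transpose_left hR,
    cq_transpose_right hR]
  ring

theorem ap_rq_cv {R : T4 n} (hR : IsCurv R) (a b c d : Fin n → ℝ) :
    rq R (wedge (cv a b) (cv c d)) =
      ev4 R a c a c + ev4 R a d a d + ev4 R b c b c + ev4 R b d b d - 2 * ev4 R a b c d := by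
  have h : (cq R (vecMulVec (cv a b) (cv c d)) (vecMulVec (cv a b) (cv c d))).re =
      ev4 R a c a c + ev4 R a d a d + ev4 R b c b c + ev4 R b d b d - ev4 R b d a c -
        ev4 R a c b d + ev4 R b c a d + ev4 R a d b c := by
    simp only [cq, ev4, Complex.re_sum, ← Finset.sum_add_distrib, ← Finset.sum_sub_distrib]
    refine Finset.sum_congr rfl fun i _ => Finset.sum_congr rfl fun j _ =>
      Finset.sum_congr rfl fun k _ => Finset.sum_congr rfl fun l _ => ?_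
    simp [vecMulVec_apply, cv]
    ring
  have h1 := ap_ev_bianchi hR a b c d
  have h2 := ap_ev_skew hR a c b d
  have h3 := ap_ev_pair hR a c b d
  have h4 := ap_ev_pair hR a d b c
  rw [rq, ap_cq_wedge hR.isOp]
  simp only [Complex.mul_re, Complex.re_ofNat, Complex.im_ofNat, h]
  linarith only [h1, h2, h3, h4]

theorem ap_rq_smul (R : T4 n) (c : ℂ) (w : CMat n) :
    rq R (c • w) = Complex.normSq c * rq R w := by
  rw [rq, rq, cq_smul_left, cq_smul_right, ← mul_assoc, Complex.mul_conj, Complex.re_ofReal_mul]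
  ring

theorem ap_on4_dot {e : Fin 4 → Fin n → ℝ} (he : ON4 e) (a b : Fin 4) :
    e a ⬝ᵥ e b = if a = b then 1 else 0 := he a b

theorem rq_wedge_cv {R : T4 n} (hR : IsCurv R) (e : Fin 4 → Fin n → ℝ) (la : ℝ) :
    rq R (wedge (cv (e 0) (e 1)) (cv (e 2) (la • e 3))) =
      ev4 R (e 0) (e 2) (e 0) (e 2) + la ^ 2 * ev4 R (e 0) (e 3) (e 0) (e 3) +
      ev4 R (e 1) (e 2) (e 1) (e 2) + la ^ 2 * ev4 R (e 1) (e 3) (e 1) (e 3) -
      2 * la * ev4 R (e 0) (e 1) (e 2) (e 3) := by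
  have e2 : ∀ a b c d : Fin n → ℝ, ev4 R a (la • b) c (la • d) = la ^ 2 * ev4 R a b c d := by
    intro a b c d
    simp only [ev4, Finset.mul_sum, Pi.smul_apply, smul_eq_mul]
    exact Finset.sum_congr rfl fun _ _ => Finset.sum_congr rfl fun _ _ =>
      Finset.sum_congr rfl fun _ _ => Finset.sum_congr rfl fun _ _ => by ring
  have e1 : ∀ a b c d : Fin n → ℝ, ev4 R a b c (la • d) = la * ev4 R a b c d := by
    intro a b c d
    simp only [ev4, Finset.mul_sum, Pi.smul_apply, smul_eq_mul]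
    exact Finset.sum_congr rfl fun _ _ => Finset.sum_congr rfl fun _ _ =>
      Finset.sum_congr rfl fun _ _ => Finset.sum_congr rfl fun _ _ => by ring
  rw [ap_rq_cv hR, e2, e2, e1]
  ring

theorem picw_iff (hn : 4 ≤ n) {R : T4 n} (hR : IsCurv R) :
    PICw R ↔ ∀ e, ON4 e → 0 ≤ iso4 R e := by
  constructor
  · intro h e he
    have h1 := h (cv (e 0) (e 1)) (cv (e 2) (e 3)) (by simp [fr_cv_dot, ap_on4_dot he])
      (by simp [fr_cv_dot, ap_on4_dot he]) (by simp [fr_cv_dot, ap_on4_dot he])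
    rwa [ap_rq_cv hR] at h1
  · intro h z w hz hzw hw
    obtain ⟨e, κ, he, h1⟩ := iso_nf hn hz hzw hw
    rw [h1, ap_rq_smul, ap_rq_cv hR]
    exact mul_nonneg (Complex.normSq_nonneg _) (h e he)

theorem isCurv_pullT {R : T4 n} (hR : IsCurv R) (P : Matrix (Fin n) (Fin N) ℝ) :
    IsCurv (pullT R P) := by
  exact ⟨fun _ _ _ _ => ap_ev_skew hR _ _ _ _, fun _ _ _ _ => ap_ev_pair hR _ _ _ _,
    fun _ _ _ _ => ap_ev_bianchi hR _ _ _ _⟩

theorem ap_delta {P : Matrix (Fin n) (Fin N) ℝ} (hP : P * Pᵀ = 1) (a c : Fin n) :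
    ∑ i, P a i * P c i = if a = c then 1 else 0 := by
  have h := congrFun (congrFun hP a) c
  simpa only [mul_apply, transpose_apply, one_apply] using h

/-- A four-tensor as a matrix on pairs. -/
def apM (R : T4 n) : Matrix (Fin n × Fin n) (Fin n × Fin n) ℝ := of fun p q => R p.1 p.2 q.1 q.2

theorem apM_pullT (R : T4 n) (P : Matrix (Fin n) (Fin N) ℝ) :
    apM (pullT R P) = (kroneckerMap (· * ·) P P)ᵀ * apM R * kroneckerMap (· * ·) P P := by
  ext p q
  simp only [apM, pullT, ev4, of_apply, mul_apply, transpose_apply, kroneckerMap_apply,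
    Fintype.sum_prod_type, Finset.sum_mul]
  rw [ap_sum22]
  exact Finset.sum_congr rfl fun _ _ => Finset.sum_congr rfl fun _ _ =>
    Finset.sum_congr rfl fun _ _ => Finset.sum_congr rfl fun _ _ => by ring

theorem ap_contr (A B : T4 n) {P : Matrix (Fin n) (Fin N) ℝ} (hP : P * Pᵀ = 1) (i j k l : Fin N) :
    ∑ p, ∑ q, pullT A P i j p q * pullT B P k l p q =
      pullT (fun a b c d => ∑ p, ∑ q, A a b p q * B c d p q) P i j k l := by
  have e : ∀ {m : ℕ} (A B : T4 m),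
      apM (fun a b c d => ∑ p, ∑ q, A a b p q * B c d p q) = apM A * (apM B)ᵀ := by
    intro m A B
    ext p q
    simp only [apM, of_apply, mul_apply, transpose_apply, Fintype.sum_prod_type]
  have hK : kroneckerMap (· * ·) P P * (kroneckerMap (· * ·) P P)ᵀ = 1 := by
    rw [← kroneckerMap_transpose, ← Matrix.mul_kronecker_mul, hP, Matrix.one_kronecker_one]
  have h : apM (fun a b c d => ∑ p, ∑ q, pullT A P a b p q * pullT B P c d p q) =
      apM (pullT (fun a b c d => ∑ p, ∑ q, A a b p q * B c d p q) P) := by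
    rw [e, apM_pullT, apM_pullT, apM_pullT, e, transpose_mul, transpose_mul, transpose_transpose,
      Matrix.mul_assoc, ← Matrix.mul_assoc (kroneckerMap (· * ·) P P), hK, Matrix.one_mul]
    simp only [Matrix.mul_assoc]
  exact congrFun (congrFun h (i, j)) (k, l)

theorem ap_mid (R : T4 n) (P : Matrix (Fin n) (Fin N) ℝ) (i j k l : Fin N) :
    pullT R P i k j l = pullT (fun a b c d => R a c b d) P i j k l := by
  simp only [pullT, ev4]
  refine Finset.sum_congr rfl fun a _ => ?_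
  rw [Finset.sum_comm]
  exact Finset.sum_congr rfl fun _ _ => Finset.sum_congr rfl fun _ _ =>
    Finset.sum_congr rfl fun _ _ => by ring

theorem ap_last (R : T4 n) (P : Matrix (Fin n) (Fin N) ℝ) (i j k l : Fin N) :
    pullT R P i j l k = pullT (fun a b c d => R a b d c) P i j k l := by
  simp only [pullT, ev4]
  refine Finset.sum_congr rfl fun a _ => Finset.sum_congr rfl fun b _ => ?_
  rw [Finset.sum_comm]
  exact Finset.sum_congr rfl fun _ _ => Finset.sum_congr rfl fun _ _ => by ring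

theorem Qq4_pullT (R : T4 n) {P : Matrix (Fin n) (Fin N) ℝ} (hP : P * Pᵀ = 1) :
    Qq4 (pullT R P) = pullT (Qq4 R) P := by
  funext i j k l
  have h1 := ap_contr R R hP i j k l
  have h2 := ap_contr (fun a b c d => R a c b d) (fun a b c d => R a c b d) hP i k j l
  have h3 := ap_contr (fun a b c d => R a c b d) (fun a b c d => R a c b d) hP i l j k
  rw [ap_mid _ P i j k l] at h2
  rw [ap_mid _ P i j l k, ap_last _ P i j k l] at h3
  simp only [fun a b c d => (ap_mid R P a b c d).symm] at h2 h3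
  simp only [Qq4, Finset.sum_add_distrib, Finset.sum_sub_distrib, ← Finset.mul_sum]
  rw [h1, h2, h3]
  simp only [pullT, ev4, Qq4, Finset.sum_add_distrib, Finset.sum_sub_distrib, ← Finset.mul_sum,
    add_mul, sub_mul, mul_assoc]

theorem ric4_pullT (R : T4 n) {P : Matrix (Fin n) (Fin N) ℝ} (hP : P * Pᵀ = 1) :
    ric4 (pullT R P) = Pᵀ * ric4 R * P := by
  ext p q
  have e : ∀ a b c d, ∑ i, R a b c d * P a i * P b p * P c i * P d q =
      if a = c then P b p * R a b c d * P d q else 0 := by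
    intro a b c d
    have h : ∑ i, R a b c d * P a i * P b p * P c i * P d q =
        (P b p * R a b c d * P d q) * ∑ i, P a i * P c i := by
      rw [Finset.mul_sum]
      exact Finset.sum_congr rfl fun _ _ => by ring
    rw [h, ap_delta hP]
    simp
  simp only [ric4, pullT, ev4, mul_apply, transpose_apply, Finset.sum_mul, Finset.mul_sum]
  rw [ap_sum14]
  simp only [e, Finset.sum_ite_irrel, Finset.sum_const_zero, Finset.sum_ite_eq, Finset.mem_univ,
    if_true]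
  rw [ap_rot3, Finset.sum_comm]

theorem scal4_pullT (R : T4 n) {P : Matrix (Fin n) (Fin N) ℝ} (hP : P * Pᵀ = 1) :
    scal4 (pullT R P) = scal4 R := by
  rw [← trace_ric4, ← trace_ric4, ric4_pullT R hP, trace_mul_comm, ← Matrix.mul_assoc, hP,
    Matrix.one_mul]

theorem cq_pullT (R : T4 n) (P : Matrix (Fin n) (Fin N) ℝ) (v w : CMat N) :
    cq (pullT R P) v w = cq R (P.map (fun x => (x : ℂ)) * v * (P.map fun x => (x : ℂ))ᵀ)
      (P.map (fun x => (x : ℂ)) * w * (P.map fun x => (x : ℂ))ᵀ) := by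
  have e : ∀ (u : CMat N) a b, (P.map (fun x => (x : ℂ)) * u * (P.map fun x => (x : ℂ))ᵀ) a b =
      ∑ i, ∑ j, (P a i : ℂ) * u i j * P b j := by
    intro u a b
    simp only [mul_apply, transpose_apply, map_apply, Finset.sum_mul]
    exact Finset.sum_comm
  have e' : ∀ (c : ℂ) (F G : Fin N → Fin N → ℂ), c * (∑ i, ∑ j, F i j) * (∑ k, ∑ l, G k l) =
      ∑ i, ∑ j, ∑ k, ∑ l, c * F i j * G k l := by
    intro c F G
    simp only [Finset.mul_sum, Finset.sum_mul]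
    exact ap_sum22 _
  simp only [cq, pullT, ev4, e, map_sum, e', Complex.ofReal_sum, Finset.sum_mul]
  rw [ap_sum44]
  refine Finset.sum_congr rfl fun _ _ => Finset.sum_congr rfl fun _ _ =>
    Finset.sum_congr rfl fun _ _ => Finset.sum_congr rfl fun _ _ =>
    Finset.sum_congr rfl fun _ _ => Finset.sum_congr rfl fun _ _ =>
    Finset.sum_congr rfl fun _ _ => Finset.sum_congr rfl fun _ _ => ?_
  simp only [map_mul, Complex.conj_ofReal, Complex.ofReal_mul]
  ring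

theorem emb_mul (h : n ≤ N) : emb n N * (emb n N)ᵀ = 1 := by
  ext a b
  rw [mul_apply, Finset.sum_eq_single (Fin.castLE h a)]
  · simp [emb, one_apply, Fin.ext_iff, eq_comm]
  · intro j _ hj
    have h1 : (a : ℕ) ≠ j := fun h2 => hj (Fin.ext h2.symm)
    simp [emb, h1]
  · simp

theorem ap_rq_pullT (R : T4 n) (P : Matrix (Fin n) (Fin N) ℝ) (z w : Fin N → ℂ) :
    rq (pullT R P) (wedge z w) =
      rq R (wedge (P.map (fun x => (x : ℂ)) *ᵥ z) (P.map (fun x => (x : ℂ)) *ᵥ w)) := by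
  have e : ∀ Q : Matrix (Fin n) (Fin N) ℂ, Q * wedge z w * Qᵀ = wedge (Q *ᵥ z) (Q *ᵥ w) := by
    intro Q
    simp only [wedge, Matrix.mul_sub, Matrix.sub_mul, mul_vecMulVec, vecMulVec_mul,
      vecMul_transpose]
  rw [rq, rq, cq_pullT, e]

theorem ap_dot_pull {P : Matrix (Fin n) (Fin N) ℝ} (hP : Pᵀ * P = 1) (z w : Fin N → ℂ) :
    (P.map (fun x => (x : ℂ)) *ᵥ z) ⬝ᵥ (P.map (fun x => (x : ℂ)) *ᵥ w) = z ⬝ᵥ w := by
  have h : (P.map fun x => (x : ℂ))ᵀ * P.map (fun x => (x : ℂ)) = 1 := by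
    have h1 := congrArg (fun M : Mat N => M.map Complex.ofRealHom) hP
    simp only [Matrix.map_mul] at h1
    rw [Matrix.map_one _ (map_zero _) (map_one _)] at h1
    exact h1
  rw [dotProduct_mulVec, ← vecMul_transpose, vecMul_vecMul, h, vecMul_one]

theorem PICw.pullT {R : T4 n} (h : PICw R) {P : Mat n} (hP : Pᵀ * P = 1) : PICw (pullT R P) := by
  intro z w hz hzw hw
  rw [ap_rq_pullT]
  exact h _ _ (by rw [ap_dot_pull hP, hz]) (by rw [ap_dot_pull hP, hzw])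
    (by rw [ap_dot_pull hP, hw])

theorem PIC2w.pullT {R : T4 n} (h : PIC2w R) (P : Matrix (Fin n) (Fin N) ℝ) :
    PIC2w (pullT R P) := by
  intro z w
  rw [ap_rq_pullT]
  exact h _ _

theorem PICw.ap_four {R : T4 n} (hR : IsCurv R) (h : PICw R) {a b c d : Fin n} (hab : a ≠ b)
    (hac : a ≠ c) (had : a ≠ d) (hbc : b ≠ c) (hbd : b ≠ d) (hcd : c ≠ d) :
    2 * |R a b c d| ≤ R a c a c + R a d a d + R b c b c + R b d b d := by
  have key : ∀ s : ℝ, s * s = 1 →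
      0 ≤ R a c a c + R a d a d + R b c b c + R b d b d - 2 * s * R a b c d := by
    intro s hs
    have h1 := h (cv (Pi.single a 1) (Pi.single b 1)) (cv (Pi.single c 1) (Pi.single d s))
      (by simp [fr_cv_dot, hab, hab.symm])
      (by simp [fr_cv_dot, hac, had, hbc, hbd])
      (by simp [fr_cv_dot, hcd, hcd.symm, hs])
    rw [ap_rq_cv hR] at h1
    simp only [ev4_single, mul_one, mul_assoc, hs] at h1
    linarith
  have h1 := key 1 (by norm_num)
  have h2 := key (-1) (by norm_num)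
  rcases abs_cases (R a b c d) with h3 | h3 <;> linarith only [h1, h3, h2, h3.1]

/-- (P1) -/
theorem PICw.p1 {R : T4 n} (hR : IsCurv R) (h : PICw R) {a b c d : Fin n} (hab : a ≠ b)
    (hac : a ≠ c) (had : a ≠ d) (hbc : b ≠ c) (hbd : b ≠ d) (hcd : c ≠ d) :
    0 ≤ R a c a c + R a d a d + R b c b c + R b d b d := by
  exact le_trans (by positivity) (h.ap_four hR hab hac had hbc hbd hcd)

theorem ap_pair {α : Type} [DecidableEq α] {S : Finset α} (hS : 2 ≤ S.card) {f : α → ℝ}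
    (h : ∀ c ∈ S, ∀ d ∈ S, c ≠ d → 0 ≤ f c + f d) :
    ∃ c ∈ S, ∃ d ∈ S, c ≠ d ∧ f c + f d ≤ ∑ x ∈ S, f x := by
  obtain ⟨c, hc, hmin⟩ := S.exists_min_image f (Finset.card_pos.1 (by omega))
  obtain ⟨d, hd, hdc⟩ := Finset.exists_mem_ne (by omega : 1 < S.card) c
  refine ⟨c, hc, d, hd, hdc.symm, ?_⟩
  rw [← Finset.add_sum_erase S f hc]
  refine add_le_add_right (Finset.single_le_sum (f := f) (fun x hx => ?_)
    (Finset.mem_erase.2 ⟨hdc, hd⟩)) _
  obtain ⟨h1, h2⟩ := Finset.mem_erase.1 hx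
  linarith only [hmin, h2, h, hc, h1, hmin x h2, h c hc x h2 h1.symm]

theorem ap_diag {R : T4 n} (hR : IsCurv R) (a k l : Fin n) : R a a k l = 0 := by
  linarith only [hR, hR.skew a a k l]

theorem PICw.ap_two {R : T4 n} (hR : IsCurv R) (h : PICw R) {J : Finset (Fin n)}
    (hJ : 4 ≤ J.card) {a b : Fin n} (ha : a ∈ J) (hb : b ∈ J) (hab : a ≠ b) :
    2 * R a b a b ≤ ∑ j ∈ J, R a j a j + ∑ j ∈ J, R b j b j := by
  have hb' : b ∈ J.erase a := Finset.mem_erase.2 ⟨hab.symm, hb⟩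
  have hc : 2 ≤ ((J.erase a).erase b).card := by
    rw [Finset.card_erase_of_mem hb', Finset.card_erase_of_mem ha]; omega
  have hp : ∀ c ∈ (J.erase a).erase b, ∀ d ∈ (J.erase a).erase b, c ≠ d →
      0 ≤ (R a c a c + R b c b c) + (R a d a d + R b d b d) := by
    intro c hc d hd hcd
    simp only [Finset.mem_erase] at hc hd
    linarith only [hR, h, hab, hc, hd, hcd, h.p1 hR hab hc.2.1.symm hd.2.1.symm hc.1.symm hd.1.symm hcd]
  obtain ⟨c, hc, d, hd, hcd, h1⟩ := ap_pair hc hp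
  have h2 := hp c hc d hd hcd
  rw [← Finset.sum_add_distrib, ← Finset.add_sum_erase J _ ha, ← Finset.add_sum_erase _ _ hb',
    ap_diag hR, ap_diag hR, hR.swap a b a b]
  linarith

theorem PICw.ap_sum {R : T4 n} (hR : IsCurv R) (h : PICw R) {J : Finset (Fin n)}
    (hJ : 4 ≤ J.card) : 0 ≤ ∑ a ∈ J, ∑ j ∈ J, R a j a j := by
  have h1 : ∀ a ∈ J, 2 * ∑ j ∈ J, R a j a j ≤ ∑ b ∈ J,
      (∑ j ∈ J, R a j a j + ∑ j ∈ J, R b j b j - 2 * R a b a b) := by
    intro a ha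
    have h2 : 0 ≤ ∑ b ∈ J.erase a,
        (∑ j ∈ J, R a j a j + ∑ j ∈ J, R b j b j - 2 * R a b a b) :=
      Finset.sum_nonneg fun b hb => by
        obtain ⟨h3, h4⟩ := Finset.mem_erase.1 hb
        linarith only [hR, h, hJ, ha, h4, h3, h.ap_two hR hJ ha h4 h3.symm]
    rw [← Finset.add_sum_erase J (fun b => ∑ j ∈ J, R a j a j + ∑ j ∈ J, R b j b j -
      2 * R a b a b) ha, ap_diag hR]
    linarith
  have h2 := Finset.sum_le_sum h1
  simp only [Finset.sum_add_distrib, Finset.sum_sub_distrib, ← Finset.mul_sum, Finset.sum_const,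
    nsmul_eq_mul] at h2
  have h3 : (4 : ℝ) ≤ J.card := by exact_mod_cast hJ
  (refine le_of_not_gt fun h_nl => ?_; linarith only [h_nl, h2, h3, mul_nonneg_of_nonpos_of_nonpos (Mathlib.Tactic.Linarith.sub_nonpos_of_le h3) (le_of_lt (Mathlib.Tactic.Linarith.sub_neg_of_lt h_nl))])

theorem ap_ric {R : T4 n} (hR : IsCurv R) (i : Fin n) : ric4 R i i = ∑ j, R i j i j :=
  Finset.sum_congr rfl fun j _ => hR.swap i j i j

/-- (P2) -/
theorem PICw.p2 (hn : 5 ≤ n) {R : T4 n} (hR : IsCurv R) (h : PICw R) (i : Fin n) :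
    ric4 R i i ≤ scal4 R / 2 := by
  have h1 := h.ap_sum hR (J := Finset.univ.erase i) (by
    rw [Finset.card_erase_of_mem (Finset.mem_univ _), Finset.card_univ, Fintype.card_fin]; omega)
  simp only [Finset.sum_erase_eq_sub (Finset.mem_univ i), Finset.sum_sub_distrib,
    ap_diag hR] at h1
  have h2 := ap_ric hR i
  rw [ric4] at h2
  rw [ric4, scal4]
  linarith only [h1, h2]

/-- (P3) -/
theorem PICw.p3 (hn : 5 ≤ n) {R : T4 n} (hR : IsCurv R) (h : PICw R) {a b d : Fin n}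
    (hab : a ≠ b) (had : a ≠ d) (hbd : b ≠ d) :
    R a d a d + R b d b d ≤ ric4 R d d + (ric4 R a a + ric4 R b b) / 2 := by
  have hb' : b ∈ Finset.univ.erase a := Finset.mem_erase.2 ⟨hab.symm, Finset.mem_univ _⟩
  have hd' : d ∈ (Finset.univ.erase a).erase b :=
    Finset.mem_erase.2 ⟨hbd.symm, Finset.mem_erase.2 ⟨had.symm, Finset.mem_univ _⟩⟩
  have hc : 2 ≤ (((Finset.univ.erase a).erase b).erase d).card := by
    rw [Finset.card_erase_of_mem hd', Finset.card_erase_of_mem hb',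
      Finset.card_erase_of_mem (Finset.mem_univ _), Finset.card_univ, Fintype.card_fin]
    omega
  have hp : ∀ j ∈ ((Finset.univ.erase a).erase b).erase d,
      ∀ k ∈ ((Finset.univ.erase a).erase b).erase d, j ≠ k →
      0 ≤ (R a j a j + R b j b j + 2 * R d j d j) + (R a k a k + R b k b k + 2 * R d k d k) := by
    intro j hj k hk hjk
    simp only [Finset.mem_erase] at hj hk
    linarith only [hR, h, had, hj, hk, hjk, hbd, h.p1 hR had hj.2.2.1.symm hk.2.2.1.symm hj.1.symm hk.1.symm hjk,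
      h.p1 hR hbd hj.2.1.symm hk.2.1.symm hj.1.symm hk.1.symm hjk]
  obtain ⟨j, hj, k, hk, hjk, h1⟩ := ap_pair hc hp
  have h2 := hp j hj k hk hjk
  simp only [Finset.mem_erase] at hj hk
  have h3 := h.p1 hR had hab hj.2.2.1.symm hbd.symm hj.1.symm hj.2.1.symm
  have h4 := h.p1 hR had hab hk.2.2.1.symm hbd.symm hk.1.symm hk.2.1.symm
  have h5 := h.p1 hR hbd hab.symm hj.2.1.symm had.symm hj.1.symm hj.2.2.1.symm
  have h6 := h.p1 hR hbd hab.symm hk.2.1.symm had.symm hk.1.symm hk.2.2.1.symm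
  have h7 : ric4 R a a + ric4 R b b + 2 * ric4 R d d =
      ∑ x, (R a x a x + R b x b x + 2 * R d x d x) := by
    simp only [ap_ric hR, Finset.sum_add_distrib, Finset.mul_sum]
  rw [← Finset.add_sum_erase _ _ (Finset.mem_univ a), ← Finset.add_sum_erase _ _ hb',
    ← Finset.add_sum_erase _ _ hd', ap_diag hR, ap_diag hR, ap_diag hR] at h7
  have h8 := hR.swap a b a b
  have h9 := hR.swap a d a d
  have h10 := hR.swap b d b d
  linarith only [h1, h2, h3, h4, h5, h6, h7, h9, h10]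

theorem ap_lower {f : Fin n → ℝ} {m : ℝ} (hm : 0 ≤ m) (h : ∀ c, f c ≤ m) (a : Fin n) :
    ∑ c, f c - n * m ≤ f a := by
  have h1 := Finset.single_le_sum (f := fun c => m - f c) (s := Finset.univ)
    (fun c _ => sub_nonneg.2 (h c)) (Finset.mem_univ a)
  simp only [Finset.sum_sub_distrib, Finset.sum_const, Finset.card_univ, Fintype.card_fin,
    nsmul_eq_mul] at h1
  linarith

theorem PICw.scal_nonneg (hn : 4 ≤ n) {R : T4 n} (hR : IsCurv R) (h : PICw R) : 0 ≤ scal4 R :=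
  h.ap_sum hR (J := Finset.univ) (by simpa using hn)

theorem PICw.ap_sec (hn : 5 ≤ n) {R : T4 n} (hR : IsCurv R) (h : PICw R) (a b : Fin n) :
    |R a b a b| ≤ n * scal4 R := by
  have h0 := h.scal_nonneg (by omega) hR
  have h5 : (5 : ℝ) ≤ n := by exact_mod_cast hn
  have h1 : ∀ c d, R c d c d ≤ scal4 R / 2 := by
    intro c d
    by_cases hcd : c = d
    · rw [hcd, ap_diag hR]; linarith only [h0]
    · have h2 := h.ap_two hR (J := Finset.univ) (by simp; omega) (Finset.mem_univ c)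
        (Finset.mem_univ d) hcd
      rw [← ap_ric hR, ← ap_ric hR] at h2
      linarith only [h2, hn, hR, h, h.p2 hn hR c, h.p2 hn hR d]
  have h2 := ap_lower (by linarith : 0 ≤ scal4 R / 2) (h.p2 hn hR) a
  have h3 := ap_lower (by linarith only [h0] : 0 ≤ scal4 R / 2) (h1 a) b
  have h4 : ∑ c, ric4 R c c = scal4 R := trace_ric4 R
  rw [← ap_ric hR] at h3
  rw [abs_le]
  constructor <;> linarith only [h0, h2, h3, h4, h1, h1 a b]

theorem PICw.ap_sec' (hn : 5 ≤ n) {R : T4 n} (hR : IsCurv R) (h : PICw R) {x y : Fin n → ℝ}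
    (hx : x ⬝ᵥ x = 1) (hy : y ⬝ᵥ y = 1) (hxy : x ⬝ᵥ y = 0) :
    |ev4 R x y x y| ≤ n * scal4 R := by
  obtain ⟨P, hP, h1⟩ := exists_orth_of_on (k := 2) (by omega) ![x, y] (by
    intro a b
    fin_cases a <;> fin_cases b <;> simp [hx, hy, hxy, dotProduct_comm y x])
  have h2 := (h.pullT hP).ap_sec hn (isCurv_pullT hR P) (Fin.castLE (by omega) (0 : Fin 2))
    (Fin.castLE (by omega) (1 : Fin 2))
  rw [scal4_pullT R (mul_eq_one_comm.1 hP)] at h2
  simpa [Pool.Agent.Work.MP_3a9764_gt.pullT, h1] using h2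

theorem PICw.ap_three (hn : 5 ≤ n) {R : T4 n} (hR : IsCurv R) (h : PICw R) (i j k : Fin n) :
    |R i j i k| ≤ 3 * n * scal4 R := by
  have h0 : 0 ≤ n * scal4 R := mul_nonneg (Nat.cast_nonneg _) (h.scal_nonneg (by omega) hR)
  by_cases hij : i = j
  · rw [← hij, ap_diag hR, abs_zero]; linarith only [h0]
  by_cases hik : i = k
  · rw [← hik, ← hR.pair, ap_diag hR, abs_zero]; linarith only [h0]
  by_cases hjk : j = k
  · rw [← hjk]; linarith only [h0, hn, hR, h, h.ap_sec hn hR i j]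
  have h1 := h.ap_sec' hn hR (x := Pi.single i 1)
    (y := Pi.single j (3 / 5) + Pi.single k (4 / 5)) (by simp)
    (by simp [hjk, Ne.symm hjk]; norm_num) (by simp [hij, hik])
  have h2 : ev4 R (Pi.single i 1) (Pi.single j (3 / 5) + Pi.single k (4 / 5)) (Pi.single i 1)
      (Pi.single j (3 / 5) + Pi.single k (4 / 5)) =
      9 / 25 * R i j i j + 16 / 25 * R i k i k + 24 / 25 * R i j i k := by
    have e : ∀ a b b' c d d' : Fin n → ℝ, ev4 R a (b + b') c (d + d') =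
        ev4 R a b c d + ev4 R a b c d' + (ev4 R a b' c d + ev4 R a b' c d') := by
      intro a b b' c d d'
      simp only [ev4, ← Finset.sum_add_distrib, Pi.add_apply]
      exact Finset.sum_congr rfl fun _ _ => Finset.sum_congr rfl fun _ _ =>
        Finset.sum_congr rfl fun _ _ => Finset.sum_congr rfl fun _ _ => by ring
    simp only [e, ev4_single, hR.pair i j i k]
    ring
  rw [h2, abs_le] at h1
  have h3 := abs_le.1 (h.ap_sec hn hR i j)
  have h4 := abs_le.1 (h.ap_sec hn hR i k)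
  rw [abs_le]
  constructor <;> linarith only [h0, h1, h3, h4, h1.1, h1.2, h3.1, h3.2, h4.1, h4.2]

theorem PICw.ap_norm (hn : 5 ≤ n) {R : T4 n} (hR : IsCurv R) (h : PICw R) :
    ‖R‖ ≤ 3 * n * scal4 R := by
  have h0 : 0 ≤ n * scal4 R := mul_nonneg (Nat.cast_nonneg _) (h.scal_nonneg (by omega) hR)
  have h0' : 0 ≤ 3 * n * scal4 R := by linarith only [h0]
  refine (pi_norm_le_iff_of_nonneg h0').2 fun i => (pi_norm_le_iff_of_nonneg h0').2 fun j =>
    (pi_norm_le_iff_of_nonneg h0').2 fun k => (pi_norm_le_iff_of_nonneg h0').2 fun l => ?_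
  rw [Real.norm_eq_abs]
  by_cases hij : i = j
  · rw [← hij, ap_diag hR, abs_zero]; exact h0'
  by_cases hkl : k = l
  · rw [← hkl, ← hR.pair, ap_diag hR, abs_zero]; exact h0'
  by_cases hik : i = k
  · rw [← hik]; exact h.ap_three hn hR i j l
  by_cases hil : i = l
  · rw [← hil, hR.skew', abs_neg]; exact h.ap_three hn hR i j k
  by_cases hjk : j = k
  · rw [← hjk, hR.skew, abs_neg]; exact h.ap_three hn hR j i l
  by_cases hjl : j = l
  · rw [← hjl, hR.swap]; exact h.ap_three hn hR j i k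
  have h1 := h.ap_four hR hij hik hil hjk hjl hkl
  linarith only [h0, h1, hn, hR, h, (abs_le.1 (h.ap_sec hn hR i k)).2, (abs_le.1 (h.ap_sec hn hR i l)).2,
    (abs_le.1 (h.ap_sec hn hR j k)).2, (abs_le.1 (h.ap_sec hn hR j l)).2]

/-- (P4) -/
theorem PICw.p4 (hn : 5 ≤ n) {R : T4 n} (hR : IsCurv R) (h : PICw R) (hs : scal4 R ≤ 0) :
    R = 0 := by
  have h0 : (0 : ℝ) ≤ 3 * n := by positivity
  exact norm_le_zero_iff.1 ((h.ap_norm hn hR).trans (mul_nonpos_of_nonneg_of_nonpos h0 hs))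

theorem PICw.norm_le (hn : 5 ≤ n) :
    ∃ C : ℝ, 0 ≤ C ∧ ∀ R : T4 n, IsCurv R → PICw R → ‖R‖ ≤ C * scal4 R := by
  exact ⟨3 * n, by positivity, fun R hR h => h.ap_norm hn hR⟩

theorem abs_cq_le (R : T4 n) (v w : CMat n) :
    ‖cq R v w‖ ≤ (n : ℝ) ^ 2 * ‖R‖ * (√(nsq v) * √(nsq w)) := by
  have e : ∀ u : CMat n, ∑ i, ∑ j, ‖u i j‖ ≤ n * √(nsq u) := by
    intro u
    have h1 := sq_sum_le_card_mul_sum_sq (s := (Finset.univ : Finset (Fin n × Fin n)))
      (f := fun p => ‖u p.1 p.2‖)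
    simp only [Fintype.sum_prod_type, Finset.card_univ, Fintype.card_prod, Fintype.card_fin,
      ← Complex.normSq_eq_norm_sq, Nat.cast_mul] at h1
    refine le_of_sq_le_sq ?_ (by positivity)
    rw [mul_pow, Real.sq_sqrt (nsq_nonneg u), sq (n : ℝ)]
    exact h1
  have h1 : ‖cq R v w‖ ≤ ‖R‖ * ((∑ i, ∑ j, ‖v i j‖) * ∑ k, ∑ l, ‖w k l‖) := by
    simp only [Finset.sum_mul]
    simp only [cq, Finset.mul_sum]
    refine norm_sum_le_of_le _ fun i _ => norm_sum_le_of_le _ fun j _ =>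
      norm_sum_le_of_le _ fun k _ => norm_sum_le_of_le _ fun l _ => ?_
    rw [norm_mul, norm_mul, Complex.norm_conj, Complex.norm_real, mul_assoc]
    exact mul_le_mul_of_nonneg_right ((((norm_le_pi_norm _ l).trans (norm_le_pi_norm _ k)).trans
      (norm_le_pi_norm _ j)).trans (norm_le_pi_norm R i)) (by positivity)
  calc ‖cq R v w‖ ≤ ‖R‖ * ((n * √(nsq v)) * (n * √(nsq w))) := by
        refine h1.trans (mul_le_mul_of_nonneg_left ?_ (norm_nonneg _))
        exact mul_le_mul (e v) (e w) (by positivity) (by positivity)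
    _ = _ := by ring

end

end Pool.Agent.Work.MP_3a9764_gt
end
end

-- merged part: Pool.Agent.Work.MP_3a9764_gt.TLb
section
/-! The linear maps `l_{a,b}` of Boehm and Wilking and the transformed reaction term. -/

set_option autoImplicit false

open Matrix

namespace Pool.Agent.Work.MP_3a9764_gt

noncomputable section

variable {n : ℕ}

theorem lb_add (R S : T4 n) : lb (R + S) = lb R + lb S := by
  simp only [lb, T.scal4_add, add_div]

theorem lb_smul (c : ℝ) (R : T4 n) : lb (c • R) = c * lb R := by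
  simp only [lb, T.scal4_smul, mul_div_assoc]

theorem ric0_add (R S : T4 n) : ric0 (R + S) = ric0 R + ric0 S := by
  simp only [ric0, ric4_add, lb_add]; module

theorem ric0_smul (c : ℝ) (R : T4 n) : ric0 (c • R) = c • ric0 R := by
  simp only [ric0, ric4_smul, lb_smul]; module

theorem ric4_eq (S : T4 n) : ric4 S = ric0 S + lb S • (1 : Mat n) := by simp [ric0]

theorem ric0_isSymm {S : T4 n} (hS : IsCurv S) : (ric0 S).IsSymm :=
  (ric4_isSymm hS).sub (isSymm_one.smul _)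

theorem lb_eq (S : T4 n) : lb S = (ric4 S).trace / n := by rw [trace_ric4, lb]

theorem scal4_eq (hn : (n : ℝ) ≠ 0) (S : T4 n) : scal4 S = n * lb S := by
  rw [lb]; field_simp

theorem trace_ric0 (hn : (n : ℝ) ≠ 0) (S : T4 n) : (ric0 S).trace = 0 := by
  simp only [ric0, trace_sub, trace_smul, trace_one, Fintype.card_fin, trace_ric4, smul_eq_mul,
    scal4_eq hn S]
  ring

theorem trace_ric0_sq (hn : (n : ℝ) ≠ 0) (S : T4 n) : (ric0 S * ric0 S).trace = n * sg S := by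
  rw [sg]; field_simp

theorem trace_sq_eq {A : Mat n} (hA : A.IsSymm) : (A * A).trace = ∑ i, ∑ j, A i j ^ 2 := by
  simp only [trace, diag_apply, mul_apply, sq]
  exact Finset.sum_congr rfl fun i _ => Finset.sum_congr rfl fun j _ => by rw [hA.apply i j]

theorem sg_nonneg {S : T4 n} (hS : IsCurv S) : 0 ≤ sg S := by
  rw [sg, trace_sq_eq (ric0_isSymm hS)]
  positivity

/-- Splitting of a Ricci tensor into its traceless part and its trace. -/
theorem lb_ric0_of (hn : (n : ℝ) ≠ 0) {S : T4 n} {Z : Mat n} {x : ℝ} (hZ : Z.trace = 0)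
    (h : ric4 S = Z + x • (1 : Mat n)) : lb S = x ∧ ric0 S = Z := by
  have h1 : lb S = x := by
    rw [lb_eq, h, trace_add, hZ, trace_smul, trace_one, Fintype.card_fin, smul_eq_mul]
    field_simp
    ring
  exact ⟨h1, by rw [ric0, h, h1, add_sub_cancel_right]⟩

theorem lb_Id4 (hn : (n : ℝ) ≠ 0) : lb (Id4 n) = n - 1 :=
  (lb_ric0_of hn trace_zero' (by rw [ric4_Id4, zero_add])).1
  where trace_zero' : (0 : Mat n).trace = 0 := trace_zero _ _

theorem ric0_Id4 (hn : (n : ℝ) ≠ 0) : ric0 (Id4 n) = 0 := by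
  rw [ric0, ric4_Id4, lb_Id4 hn, sub_self]

/-- The map `l_{a,b}`. -/
def lB (a b : ℝ) : T4 n →ₗ[ℝ] T4 n where
  toFun S := S + (2 * a * lb S) • Id4 n + b • kn (ric0 S) 1
  map_add' R S := by simp only [lb_add, ric0_add, kn_add_left]; module
  map_smul' c R := by simp only [lb_smul, ric0_smul, kn_smul_left, RingHom.id_apply]; module

theorem lB_apply (a b : ℝ) (S : T4 n) :
    lB a b S = S + (2 * a * lb S) • Id4 n + b • kn (ric0 S) 1 := rfl

theorem lB_eq_kn (a b : ℝ) (S : T4 n) :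
    lB a b S = S + kn (b • ric0 S + (a * lb S) • (1 : Mat n)) 1 := by
  rw [lB_apply, kn_add_left, kn_smul_left, kn_smul_left, kn_one_one]; module

theorem isCurv_lB (a b : ℝ) {S : T4 n} (hS : IsCurv S) : IsCurv (lB a b S) := by
  rw [lB_eq_kn]
  exact hS.add (isCurv_kn (((ric0_isSymm hS).smul _).add (isSymm_one.smul _)) isSymm_one)

theorem continuous_lB (S : T4 n) : Continuous fun p : ℝ × ℝ => lB p.1 p.2 S := by
  simp only [lB_apply]
  fun_prop

theorem ric4_lB (hn : (n : ℝ) ≠ 0) (a b : ℝ) (S : T4 n) : ric4 (lB a b S) =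
    (1 + ((n : ℝ) - 2) * b) • ric0 S + ((1 + 2 * ((n : ℝ) - 1) * a) * lb S) • (1 : Mat n) := by
  rw [lB_apply, ric4_add, ric4_add, ric4_smul, ric4_smul, ric4_Id4, ric4_kn, trace_ric0 hn,
    trace_one, Fintype.card_fin, Matrix.mul_one, Matrix.one_mul, ric4_eq S]
  module

theorem lb_lB (hn : (n : ℝ) ≠ 0) (a b : ℝ) (S : T4 n) :
    lb (lB a b S) = (1 + 2 * ((n : ℝ) - 1) * a) * lb S :=
  (lb_ric0_of hn (by rw [trace_smul, trace_ric0 hn, smul_zero]) (ric4_lB hn a b S)).1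

theorem ric0_lB (hn : (n : ℝ) ≠ 0) (a b : ℝ) (S : T4 n) :
    ric0 (lB a b S) = (1 + ((n : ℝ) - 2) * b) • ric0 S :=
  (lb_ric0_of hn (by rw [trace_smul, trace_ric0 hn, smul_zero]) (ric4_lB hn a b S)).2

theorem scal4_lB (hn : (n : ℝ) ≠ 0) (a b : ℝ) (S : T4 n) :
    scal4 (lB a b S) = (1 + 2 * ((n : ℝ) - 1) * a) * scal4 S := by
  rw [scal4_eq hn, scal4_eq hn S, lb_lB hn]; ring

theorem lB_Id4 (hn : (n : ℝ) ≠ 0) (a b : ℝ) :
    lB a b (Id4 n) = (1 + 2 * ((n : ℝ) - 1) * a) • Id4 n := by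
  rw [lB_apply, lb_Id4 hn, ric0_Id4 hn, ← zero_smul ℝ (1 : Mat n), kn_smul_left]; module

theorem lB_zero (S : T4 n) : lB 0 0 S = S := by simp [lB_apply]

theorem lB_lB (hn : (n : ℝ) ≠ 0) (a b a' b' : ℝ) (S : T4 n) : lB a b (lB a' b' S) =
    lB (a' + a * (1 + 2 * ((n : ℝ) - 1) * a')) (b' + b * (1 + ((n : ℝ) - 2) * b')) S := by
  rw [lB_apply a b, lb_lB hn, ric0_lB hn, kn_smul_left, lB_apply, lB_apply]; module

/-- The inverse of `l_{a,b}`. -/
def lBi (a b : ℝ) : T4 n →ₗ[ℝ] T4 n :=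
  lB (-a / (1 + 2 * ((n : ℝ) - 1) * a)) (-b / (1 + ((n : ℝ) - 2) * b))

theorem isCurv_lBi (a b : ℝ) {S : T4 n} (hS : IsCurv S) : IsCurv (lBi a b S) := isCurv_lB _ _ hS

theorem div_aux {x y z d e : ℝ} (hd : 1 + x * d ≠ 0) (he : 1 + x * e ≠ 0) (hy : y = e - d)
    (hz : z = -d) : -e / (1 + x * e) + y / (1 + x * d) * (1 + x * (-e / (1 + x * e))) =
      z / (1 + x * d) := by
  have h1 : 1 + x * (-e / (1 + x * e)) = 1 / (1 + x * e) := by field_simp; ring
  rw [h1, hy, hz, div_mul_div_comm, mul_one, div_add_div _ _ he (mul_ne_zero hd he),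
    div_eq_div_iff (mul_ne_zero he (mul_ne_zero hd he)) hd]
  ring

theorem lBi_zero (S : T4 n) : lBi 0 0 S = S := by simp [lBi, lB_zero]

section

variable (hn : (n : ℝ) ≠ 0) {a b : ℝ} (ha : 1 + 2 * ((n : ℝ) - 1) * a ≠ 0)
  (hb : 1 + ((n : ℝ) - 2) * b ≠ 0)
include hn ha hb

theorem lBi_lB (S : T4 n) : lBi a b (lB a b S) = S := by
  rw [lBi, lB_lB hn, div_mul_cancel₀ _ ha, div_mul_cancel₀ _ hb, add_neg_cancel, add_neg_cancel,
    lB_zero]

theorem lB_lBi (S : T4 n) : lB a b (lBi a b S) = S := by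
  have h1 := div_aux (d := 0) (by simp) ha (sub_zero a).symm neg_zero.symm
  have h2 := div_aux (d := 0) (by simp) hb (sub_zero b).symm neg_zero.symm
  simp only [mul_zero, add_zero, div_one] at h1 h2
  rw [lBi, lB_lB hn, h1, h2, lB_zero]

omit hb in
theorem lb_lBi (S : T4 n) : lb (lBi a b S) = lb S / (1 + 2 * ((n : ℝ) - 1) * a) := by
  rw [lBi, lb_lB hn]; field_simp; ring

omit hb in
theorem scal4_lBi (S : T4 n) : scal4 (lBi a b S) = scal4 S / (1 + 2 * ((n : ℝ) - 1) * a) := by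
  rw [lBi, scal4_lB hn]; field_simp; ring

omit ha in
theorem ric0_lBi (S : T4 n) : ric0 (lBi a b S) = (1 + ((n : ℝ) - 2) * b)⁻¹ • ric0 S := by
  rw [lBi, ric0_lB hn]; congr 1; field_simp; ring

omit hb in
theorem lBi_Id4 : lBi a b (Id4 n) = (1 + 2 * ((n : ℝ) - 1) * a)⁻¹ • Id4 n := by
  rw [lBi, lB_Id4 hn]; congr 1; field_simp; ring

/-- Change of the parameters. -/
theorem lBi_eq_lB_lBi {a₁ b₁ : ℝ} (ha₁ : 1 + 2 * ((n : ℝ) - 1) * a₁ ≠ 0)
    (hb₁ : 1 + ((n : ℝ) - 2) * b₁ ≠ 0) (R : T4 n) : lBi a b R =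
      lB ((a₁ - a) / (1 + 2 * ((n : ℝ) - 1) * a)) ((b₁ - b) / (1 + ((n : ℝ) - 2) * b))
        (lBi a₁ b₁ R) := by
  rw [lBi, lBi, lB_lB hn, div_aux ha ha₁ rfl rfl, div_aux hb hb₁ rfl rfl]

end

/-- The coefficient of the identity in the correction term. -/
def cD (n : ℕ) (a b : ℝ) : ℝ :=
  ((n : ℝ) * b ^ 2 * (1 - 2 * b) - 2 * (a - b) * (1 - 2 * b + n * b ^ 2)) /
    (1 + 2 * ((n : ℝ) - 1) * a)

/-- The correction term `D_{a,b}`. -/
def DG (a b : ℝ) (S : T4 n) : T4 n :=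
  ((((n : ℝ) - 2) * b ^ 2 - 2 * (a - b)) / 2) • kn (ric0 S) (ric0 S) + a • kn (ric4 S) (ric4 S) +
    b ^ 2 • kn (ric0 S * ric0 S) 1 + (cD n a b * sg S) • Id4 n

theorem IsCurv.ric0_sq_isSymm {S : T4 n} (hS : IsCurv S) : (ric0 S * ric0 S).IsSymm := by
  rw [IsSymm, transpose_mul, (ric0_isSymm hS).eq]

theorem isCurv_DG (a b : ℝ) {S : T4 n} (hS : IsCurv S) : IsCurv (DG a b S) :=
  (((T.isCurv_smul _ (isCurv_kn (ric0_isSymm hS) (ric0_isSymm hS))).add
    (T.isCurv_smul _ (isCurv_kn (ric4_isSymm hS) (ric4_isSymm hS)))).add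
    (T.isCurv_smul _ (isCurv_kn hS.ric0_sq_isSymm isSymm_one))).add (T.isCurv_smul _ isCurv_Id4)

theorem ric4_DG (hn : (n : ℝ) ≠ 0) (a b : ℝ) (S : T4 n) : ric4 (DG a b S) =
    (-2 * b) • (ric0 S * ric0 S) + (2 * a * ((n : ℝ) - 2) * lb S) • ric0 S +
      (2 * a * ((n : ℝ) - 1) * lb S ^ 2 + (n * b ^ 2 + ((n : ℝ) - 1) * cD n a b) * sg S) •
        (1 : Mat n) := by
  simp only [DG, ric4_add, ric4_smul, ric4_Id4, ric4_kn, trace_ric0 hn, trace_ric0_sq hn,
    trace_ric4, scal4_eq hn S, trace_one, Fintype.card_fin, Matrix.mul_one, Matrix.one_mul]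
  simp only [ric4_eq S, Matrix.add_mul, Matrix.mul_add, Matrix.smul_mul, Matrix.mul_smul,
    Matrix.mul_one, Matrix.one_mul]
  module

theorem ric4_Qq4_eq {S : T4 n} (hS : IsCurv S) :
    ric4 (Qq4 S) = st4 S (ric0 S) + lb S • ric4 S := by
  rw [ric4_Qq4 hS, ric4_eq S, st4_add_right, st4_smul_right, st4_one hS, ← ric4_eq S]

theorem lb_Qq4 (hn : (n : ℝ) ≠ 0) {S : T4 n} (hS : IsCurv S) :
    lb (Qq4 S) = lb S ^ 2 + sg S := by
  have h : scal4 (Qq4 S) = (ric4 S * ric4 S).trace := by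
    rw [scal4_Qq4 hS, trace_sq_eq (ric4_isSymm hS)]; rfl
  rw [lb, h, ric4_eq S]
  simp only [Matrix.add_mul, Matrix.mul_add, Matrix.smul_mul, Matrix.mul_smul, Matrix.mul_one,
    Matrix.one_mul, trace_add, trace_smul, trace_ric0 hn, trace_ric0_sq hn, trace_one,
    Fintype.card_fin, smul_eq_mul]
  field_simp
  ring

theorem scal4_Qq4_ge (hn : (n : ℝ) ≠ 0) {S : T4 n} (hS : IsCurv S) :
    scal4 S ^ 2 / n ≤ scal4 (Qq4 S) := by
  have h0 : (0 : ℝ) ≤ n := Nat.cast_nonneg n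
  have h1 := mul_nonneg h0 (sg_nonneg hS)
  rw [scal4_eq hn (Qq4 S), lb_Qq4 hn hS, scal4_eq hn S]
  have : ((n : ℝ) * lb S) ^ 2 / n = n * lb S ^ 2 := by field_simp
  linarith only [h1, this]

theorem lb_DG (hn : (n : ℝ) ≠ 0) (a b : ℝ) (S : T4 n) : lb (DG a b S) =
    2 * a * ((n : ℝ) - 1) * lb S ^ 2 +
      (-2 * b + (n * b ^ 2 + ((n : ℝ) - 1) * cD n a b)) * sg S := by
  rw [lb_eq, ric4_DG hn]
  simp only [trace_add, trace_smul, trace_ric0 hn, trace_ric0_sq hn, trace_one, Fintype.card_fin,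
    smul_eq_mul]
  field_simp
  ring

/-- The identity of Boehm and Wilking. -/
theorem Qq4_lB (hn : (n : ℝ) ≠ 0) {a : ℝ} (ha : 1 + 2 * ((n : ℝ) - 1) * a ≠ 0) (b : ℝ)
    {S : T4 n} (hS : IsCurv S) : Qq4 (lB a b S) = lB a b (Qq4 S + DG a b S) := by
  have hc : cD n a b * (1 + 2 * ((n : ℝ) - 1) * a) =
      (n : ℝ) * b ^ 2 * (1 - 2 * b) - 2 * (a - b) * (1 - 2 * b + n * b ^ 2) :=
    div_mul_cancel₀ _ ha
  rw [lB_eq_kn, Qq4_add_kn hS (((ric0_isSymm hS).smul _).add (isSymm_one.smul _)), lB_apply,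
    ric0.eq_1 (Qq4 S + DG a b S), ric4_add, lb_add, lb_DG hn, lb_Qq4 hn hS, ric4_DG hn, ric4_Qq4_eq hS, DG,
    st4_add_right, st4_smul_right, st4_smul_right, st4_one hS]
  simp only [ric4_eq S, Matrix.add_mul, Matrix.mul_add, Matrix.smul_mul, Matrix.mul_smul,
    Matrix.mul_one, Matrix.one_mul, trace_add, trace_smul, trace_ric0 hn, trace_ric0_sq hn,
    trace_one, Fintype.card_fin, smul_eq_mul, smul_add, kn_add_left, kn_sub_left, kn_smul_left,
    kn_add_right, kn_smul_right, kn_comm 1 (ric0 S), kn_one_one]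
  match_scalars
  all_goals first | ring1 | linear_combination (-sg S) * hc

theorem lBi_Qq4 (hn : (n : ℝ) ≠ 0) {a b : ℝ} (ha : 1 + 2 * ((n : ℝ) - 1) * a ≠ 0)
    (hb : 1 + ((n : ℝ) - 2) * b ≠ 0) {R : T4 n} (hR : IsCurv R) :
    lBi a b (Qq4 R) = Qq4 (lBi a b R) + DG a b (lBi a b R) := by
  conv_lhs => rw [← lB_lBi hn ha hb R, Qq4_lB hn ha b (isCurv_lBi a b hR), lBi_lB hn ha hb]

theorem cD_aa (b : ℝ) : cD n (aa n b) b = cc n b := by
  rw [cD, cc]; congr 1; rw [aa]; ring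

theorem DG_aa (b : ℝ) (S : T4 n) : DG (aa n b) b S = DD b S := by
  rw [DG, show (((n : ℝ) - 2) * b ^ 2 - 2 * (aa n b - b)) / 2 = 0 by rw [aa]; ring, zero_smul,
    zero_add, cD_aa, DD]

theorem linv_eq (b : ℝ) (R : T4 n) : linv b R = lBi (aa n b) b R := by
  rw [linv, lBi, lB_apply]; module

end

end Pool.Agent.Work.MP_3a9764_gt
end

-- merged part: Pool.Agent.Work.MP_3a9764_gt.AD
section
/-! The Boehm-Wilking identity. -/

set_option autoImplicit false

open Filter Set Matrix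
open scoped Topology ComplexConjugate

namespace Pool.Agent.Work.MP_3a9764_gt

noncomputable section

variable {n N : ℕ} {T : ℝ} {W : ℝ → Set (T4 n)}

theorem AD_n (hn : 3 ≤ n) : (n : ℝ) ≠ 0 := Nat.cast_ne_zero.2 (by omega)

theorem aa_nonneg (hn : 3 ≤ n) {b : ℝ} (hb : 0 ≤ b) : 0 ≤ aa n b := by
  have h : (3 : ℝ) ≤ n := by exact_mod_cast hn
  have h1 : (0 : ℝ) ≤ n - 2 := by linarith only [h]
  rw [aa]
  positivity

theorem AD_a (hn : 3 ≤ n) {b : ℝ} (hb : 0 ≤ b) : 0 < 1 + 2 * ((n : ℝ) - 1) * aa n b := by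
  have h : (3 : ℝ) ≤ n := by exact_mod_cast hn
  have h1 : (0 : ℝ) ≤ n - 1 := by linarith only [h]
  have h2 := aa_nonneg hn hb
  positivity

theorem AD_b (hn : 3 ≤ n) {b : ℝ} (hb : 0 ≤ b) : 0 < 1 + ((n : ℝ) - 2) * b := by
  have h : (3 : ℝ) ≤ n := by exact_mod_cast hn
  have h1 : (0 : ℝ) ≤ n - 2 := by linarith only [h]
  positivity

theorem isCurv_linv {R : T4 n} (hR : IsCurv R) (b : ℝ) : IsCurv (linv b R) := by
  rw [linv_eq]; exact isCurv_lBi _ _ hR

theorem isLinearMap_linv (b : ℝ) : IsLinearMap ℝ (linv b : T4 n → T4 n) := by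
  rw [show (linv b : T4 n → T4 n) = ⇑(lBi (aa n b) b) from funext (linv_eq b)]
  exact LinearMap.isLinear _

theorem lb_linv (hn : 3 ≤ n) {b : ℝ} (hb : 0 ≤ b) (R : T4 n) :
    lb R = (1 + 2 * ((n : ℝ) - 1) * aa n b) * lb (linv b R) := by
  rw [linv_eq, lb_lBi (AD_n hn) (AD_a hn hb).ne', mul_div_cancel₀ _ (AD_a hn hb).ne']

theorem ric0_linv (hn : 3 ≤ n) {b : ℝ} (hb : 0 ≤ b) (R : T4 n) :
    ric0 R = (1 + ((n : ℝ) - 2) * b) • ric0 (linv b R) := by
  rw [linv_eq, ric0_lBi (AD_n hn) (AD_b hn hb).ne', smul_inv_smul₀ (AD_b hn hb).ne']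

theorem linv_zero (R : T4 n) : linv 0 R = R := by
  simp [linv, aa]

/-- Comparison of two members of the family. -/
theorem linv_sub (hn : 3 ≤ n) {b b' : ℝ} (hb : 0 ≤ b) (hb' : 0 ≤ b') (R : T4 n) :
    linv b R = linv b' R +
      (2 * (aa n b' - aa n b) / (1 + 2 * ((n : ℝ) - 1) * aa n b') * lb (linv b R)) • Id4 n +
      ((b' - b) / (1 + ((n : ℝ) - 2) * b')) • kn (ric0 (linv b R)) 1 := by
  have h := lBi_eq_lB_lBi (AD_n hn) (AD_a hn hb').ne' (AD_b hn hb').ne' (AD_a hn hb).ne'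
    (AD_b hn hb).ne' R
  rw [linv_eq b', h, ← linv_eq, lB_apply]
  module

theorem linv_Qq4 (hn : 3 ≤ n) {b : ℝ} (hb : 0 ≤ b) {R : T4 n} (hR : IsCurv R) :
    linv b (Qq4 R) = Qq4 (linv b R) + DD b (linv b R) := by
  rw [linv_eq, linv_eq, lBi_Qq4 (AD_n hn) (AD_a hn hb).ne' (AD_b hn hb).ne' hR, DG_aa]

theorem ric4_DD (hn : 3 ≤ n) (b : ℝ) {S : T4 n} (hS : IsCurv S) :
    ric4 (DD b S) = (-2 * b) • (ric0 S * ric0 S) + (2 * aa n b * ((n : ℝ) - 2) * lb S) • ric0 S +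
      (2 * aa n b * ((n : ℝ) - 1) * lb S ^ 2 + ee n b * sg S) • (1 : Mat n) := by
  rw [← DG_aa, ric4_DG (AD_n hn), cD_aa, ee]

theorem lb_Qq4_add_DD (hn : 3 ≤ n) (b : ℝ) {S : T4 n} (hS : IsCurv S) :
    lb (Qq4 S + DD b S) =
      (1 + 2 * aa n b * ((n : ℝ) - 1)) * lb S ^ 2 + (1 - 2 * b + ee n b) * sg S := by
  rw [lb_add, ← DG_aa, lb_DG (AD_n hn), lb_Qq4 (AD_n hn) hS, cD_aa, ee]
  ring

theorem isCurv_DD (b : ℝ) {S : T4 n} (hS : IsCurv S) : IsCurv (DD b S) := by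
  rw [← DG_aa]; exact isCurv_DG _ _ hS

theorem wedge_skew (x y : Fin n → ℂ) : (wedge x y)ᵀ = -wedge x y := by
  simp [wedge]

theorem cq_wedge {R : T4 n} (hR : IsOp R) (x y z w : Fin n → ℂ) :
    cq R (wedge x y) (wedge z w) = 4 * cq R (vecMulVec x y) (vecMulVec z w) := by
  have e : ∀ a b : Fin n → ℂ, wedge a b = vecMulVec a b + -(vecMulVec a b)ᵀ := fun a b => by
    simp [wedge, sub_eq_add_neg]
  simp only [e, cq_add_left, cq_add_right, cq_neg_left, cq_neg_right, cq_transpose_left hR,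
    cq_transpose_right hR]
  ring

theorem cq_kn_vec (A B : Mat n) (x y z w : Fin n → ℂ) :
    cq (kn A B) (vecMulVec x y) (vecMulVec z w) = hf A x z * hf B y w - hf A x w * hf B y z -
      hf A y z * hf B x w + hf A y w * hf B x z := by
  have e : ∀ (F G : Fin n → Fin n → ℂ), (∑ i, ∑ k, F i k) * (∑ j, ∑ l, G j l) =
      ∑ i, ∑ j, ∑ k, ∑ l, F i k * G j l := fun F G => by
    simp only [Finset.sum_mul_sum]
  have e' : ∀ (F G : Fin n → Fin n → ℂ), (∑ i, ∑ l, F i l) * (∑ j, ∑ k, G j k) =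
      ∑ i, ∑ j, ∑ k, ∑ l, F i l * G j k := fun F G => by
    rw [e]
    exact Finset.sum_congr rfl fun _ _ => Finset.sum_congr rfl fun _ _ => Finset.sum_comm
  rw [mul_comm (hf A y z), mul_comm (hf A y w)]
  unfold hf
  rw [e, e', e', e]
  simp only [cq, kn, vecMulVec_apply, ← Finset.sum_sub_distrib, ← Finset.sum_add_distrib, map_mul]
  refine Finset.sum_congr rfl fun _ _ => Finset.sum_congr rfl fun _ _ =>
    Finset.sum_congr rfl fun _ _ => Finset.sum_congr rfl fun _ _ => ?_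
  push_cast
  ring

theorem rq_kn_wedge {A B : Mat n} (hA : A.IsSymm) (hB : B.IsSymm) (x y : Fin n → ℂ) :
    rq (kn A B) (wedge x y) = (hf A x x * hf B y y + hf A y y * hf B x x -
      hf A x y * hf B y x - hf A y x * hf B x y).re := by
  rw [rq, cq_wedge (isCurv_kn hA hB).isOp, cq_kn_vec]
  simp only [Complex.mul_re, Complex.add_re, Complex.sub_re, Complex.re_ofNat, Complex.im_ofNat]
  ring

theorem pullT_add (R S : T4 n) (P : Matrix (Fin n) (Fin N) ℝ) :
    pullT (R + S) P = pullT R P + pullT S P := by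
  funext i j k l
  simp only [pullT, ev4, Pi.add_apply, add_mul, Finset.sum_add_distrib]

theorem pullT_smul (c : ℝ) (R : T4 n) (P : Matrix (Fin n) (Fin N) ℝ) :
    pullT (c • R) P = c • pullT R P := by
  funext i j k l
  simp only [pullT, ev4, Pi.smul_apply, smul_eq_mul, Finset.mul_sum, mul_assoc]

theorem pullT_kn (A B : Mat n) (P : Matrix (Fin n) (Fin N) ℝ) :
    pullT (kn A B) P = kn (Pᵀ * A * P) (Pᵀ * B * P) := by
  have e0 : ∀ (A : Mat n) i j, (Pᵀ * A * P) i j = ∑ a, ∑ b, P a i * A a b * P b j := by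
    intro A i j
    simp only [mul_apply, transpose_apply, Finset.sum_mul]
    exact Finset.sum_comm
  have e : ∀ (F G : Fin n → Fin n → ℝ), (∑ i, ∑ k, F i k) * (∑ j, ∑ l, G j l) =
      ∑ i, ∑ j, ∑ k, ∑ l, F i k * G j l := fun F G => by
    simp only [Finset.sum_mul_sum]
  have e' : ∀ (F G : Fin n → Fin n → ℝ), (∑ i, ∑ l, F i l) * (∑ j, ∑ k, G j k) =
      ∑ i, ∑ j, ∑ k, ∑ l, F i l * G j k := fun F G => by
    rw [e]
    exact Finset.sum_congr rfl fun _ _ => Finset.sum_congr rfl fun _ _ => Finset.sum_comm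
  funext i j k l
  simp only [pullT, ev4, kn]
  rw [mul_comm ((Pᵀ * A * P) j k), mul_comm ((Pᵀ * A * P) j l)]
  simp only [e0]
  rw [e, e', e', e]
  simp only [← Finset.sum_sub_distrib, ← Finset.sum_add_distrib]
  exact Finset.sum_congr rfl fun _ _ => Finset.sum_congr rfl fun _ _ =>
    Finset.sum_congr rfl fun _ _ => Finset.sum_congr rfl fun _ _ => by ring

theorem pullT_Id4 {P : Matrix (Fin n) (Fin N) ℝ} (hP : Pᵀ * P = 1) : pullT (Id4 n) P = Id4 N := by
  have h := pullT_kn (1 : Mat n) 1 P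
  rw [Matrix.mul_one, hP, kn_one_one, kn_one_one, pullT_smul] at h
  exact smul_right_injective _ two_ne_zero h

theorem lb_pullT (R : T4 n) {P : Mat n} (hP : Pᵀ * P = 1) : lb (pullT R P) = lb R := by
  rw [lb, lb, scal4_pullT R (mul_eq_one_comm.1 hP)]

theorem ric0_pullT (R : T4 n) {P : Mat n} (hP : Pᵀ * P = 1) :
    ric0 (pullT R P) = Pᵀ * ric0 R * P := by
  rw [ric0, ric0, lb_pullT R hP, ric4_pullT R (mul_eq_one_comm.1 hP), Matrix.mul_sub,
    Matrix.sub_mul, Matrix.mul_smul, Matrix.smul_mul, Matrix.mul_one, hP]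

theorem lB_pullT (a b : ℝ) (R : T4 n) {P : Mat n} (hP : Pᵀ * P = 1) :
    lB a b (pullT R P) = pullT (lB a b R) P := by
  rw [lB_apply, lB_apply, pullT_add, pullT_add, pullT_smul, pullT_smul, pullT_kn, pullT_Id4 hP,
    Matrix.mul_one, hP, lb_pullT R hP, ric0_pullT R hP]

theorem linv_pullT (b : ℝ) (R : T4 n) {P : Mat n} (hP : Pᵀ * P = 1) :
    linv b (pullT R P) = pullT (linv b R) P := by
  rw [linv_eq, linv_eq]; exact lB_pullT _ _ R hP

end

end Pool.Agent.Work.MP_3a9764_gt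
end

-- merged part: Pool.Agent.Work.MP_3a9764_gt.St2e
section
/-! Reduction of the scalar inequalities of stage 2 to finitely many quadratic inequalities. -/

set_option autoImplicit false

namespace Pool.Agent.Work.MP_3a9764_gt

noncomputable section

def sig0 (n : ℕ) (u s t : ℝ) : ℝ :=
  (u ^ 2 / 2 + s ^ 2 + t ^ 2 + (u + s + t) ^ 2 / ((n : ℝ) - 4)) / n

def E1 (n : ℕ) (a b α β L u s t : ℝ) : ℝ :=
  α ^ 2 * (1 + L) * (u + 2) ^ 2 / 2 + α * β * (1 + L) * (u + 2) -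
    2 * α * β * ((s + 1) + L * (t + 1)) +
    (1 - L) * (α * (-b * u ^ 2 + 2 * a * (((n : ℝ) - 2) * (u + 2) + 2)) +
      β * (4 * a * ((n : ℝ) - 1) - u + 2 * (1 - 2 * b) * sig0 n u s t))

def E2 (n : ℕ) (b₂ α L u s t : ℝ) : ℝ :=
  (1 + L) * (u + 2) ^ 2 + 2 * α * (1 + L) * (u + 2) - 4 * α * ((s + 1) + L * (t + 1)) +
    (1 - L) * (α * (-u ^ 2 + 2 * (((n : ℝ) - 2) * (u + 2) + 2)) - 2 * u +
      4 * (1 - 2 * b₂) * sig0 n u s t)

variable {n : ℕ}

theorem sig0_nonneg (hn : 5 ≤ n) (u s t : ℝ) : 0 ≤ sig0 n u s t := by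
  have h : (5 : ℝ) ≤ n := by exact_mod_cast hn
  have h4 : (0 : ℝ) < (n : ℝ) - 4 := by linarith only [h]
  unfold sig0
  positivity

theorem E1_le_Efull (hn : 5 ≤ n) {b α β L u s t q σ : ℝ} (hα : 0 ≤ α) (hβ : 0 ≤ β)
    (hL : 0 ≤ L) (hL1 : L ≤ 1) (hc : 0 ≤ cc n b) (hb : 2 * b ≤ 1)
    (hk : n * α * b ≤ β * (1 - 2 * b)) (hq : u ^ 2 / 2 ≤ q)
    (hσ : q + s ^ 2 + t ^ 2 + (u + s + t) ^ 2 / ((n : ℝ) - 4) ≤ n * σ) :
    E1 n (aa n b) b α β L u s t ≤ Efull n b α β L u s t q σ := by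
  have h : (5 : ℝ) ≤ n := by exact_mod_cast hn
  have hn0 : (0 : ℝ) < n := by linarith only [h]
  have hs := sig0_nonneg hn u s t
  have h1 : q - u ^ 2 / 2 ≤ n * (σ - sig0 n u s t) := by
    have : n * sig0 n u s t = u ^ 2 / 2 + s ^ 2 + t ^ 2 + (u + s + t) ^ 2 / ((n : ℝ) - 4) := by
      unfold sig0; field_simp
    linarith only [hσ, this]
  have h2 : 0 ≤ σ - sig0 n u s t := by
    by_contra h3
    have := mul_neg_of_pos_of_neg hn0 (not_le.1 h3)
    linarith only [hq, h1, this]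
  have hσ0 : 0 ≤ σ := by linarith only [hs, h2]
  have hq0 : 0 ≤ q := by linarith only [hq, sq_nonneg u, sq_nonneg u]
  have he : 0 ≤ ee n b := by
    unfold ee
    have : (0 : ℝ) ≤ (n : ℝ) - 1 := by linarith only [h]
    positivity
  have h3 : α * b * (q - u ^ 2 / 2) ≤ β * (1 - 2 * b) * (σ - sig0 n u s t) := by
    have h4 : n * (α * b * (q - u ^ 2 / 2)) ≤ n * (β * (1 - 2 * b) * (σ - sig0 n u s t)) := by
      have h5 := mul_le_mul_of_nonneg_right hk (sub_nonneg.2 hq)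
      have h6 := mul_le_mul_of_nonneg_left h1 (mul_nonneg hβ (sub_nonneg.2 hb))
      linarith only [h5, h6]
    exact le_of_mul_le_mul_left h4 hn0
  have hw : 0 ≤ 1 - L := by linarith only [hL1]
  have e : Efull n b α β L u s t q σ - E1 n (aa n b) b α β L u s t =
      b ^ 2 * ((1 + L) * q + 2 * s ^ 2 + 2 * L * t ^ 2) + 2 * (1 + L) * cc n b * σ +
      (1 - L) * (2 * (α + β) * ee n b * σ) +
      (1 - L) * (2 * (β * (1 - 2 * b) * (σ - sig0 n u s t) - α * b * (q - u ^ 2 / 2))) := by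
    unfold Efull E1; ring
  have h7 := mul_nonneg hw (mul_nonneg two_pos.le (sub_nonneg.2 h3))
  have h8 : 0 ≤ b ^ 2 * ((1 + L) * q + 2 * s ^ 2 + 2 * L * t ^ 2) + 2 * (1 + L) * cc n b * σ +
      (1 - L) * (2 * (α + β) * ee n b * σ) := by positivity
  linarith only [e, h7, h8]

theorem E2_le_E1 (hn : 5 ≤ n) {b b₂ α L u s t : ℝ} (hb : 0 ≤ b) (hb2 : b ≤ b₂) (hα : 0 ≤ α)
    (hα2 : α ^ 2 = 2 * aa n b) (hL : 0 ≤ L) (hL1 : L ≤ 1) (hx : 0 ≤ u + 2) :
    b * E2 n b₂ α L u s t ≤ E1 n (aa n b) b α (2 * b) L u s t := by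
  have h : (5 : ℝ) ≤ n := by exact_mod_cast hn
  have hs := sig0_nonneg hn u s t
  have h2 : (0 : ℝ) ≤ (n : ℝ) - 2 := by linarith only [h]
  have h1 : (0 : ℝ) ≤ (n : ℝ) - 1 := by linarith
  have hw : 0 ≤ 1 - L := by linarith
  have hd : 0 ≤ b₂ - b := by linarith
  have e : E1 n (aa n b) b α (2 * b) L u s t - b * E2 n b₂ α L u s t =
      ((n : ℝ) - 2) * b ^ 2 / 2 * (1 + L) * (u + 2) ^ 2 + (1 - L) *
        (α * (((n : ℝ) - 2) * b ^ 2 * (((n : ℝ) - 2) * (u + 2) + 2)) +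
          8 * b * (b + ((n : ℝ) - 2) * b ^ 2 / 2) * ((n : ℝ) - 1) +
          8 * b * (b₂ - b) * sig0 n u s t) := by
    unfold E1 E2; rw [hα2]; unfold aa; ring
  have : 0 ≤ E1 n (aa n b) b α (2 * b) L u s t - b * E2 n b₂ α L u s t := by
    rw [e]; positivity
  linarith only [this]

theorem aff_pos {f : ℝ → ℝ} (hf : ∀ x, f x = f 0 + (f 1 - f 0) * x) {x₀ x₁ x : ℝ} (h0 : x₀ ≤ x)
    (h1 : x ≤ x₁) (v0 : 0 < f x₀) (v1 : 0 < f x₁) : 0 < f x := by
  rw [hf] at v0 v1 ⊢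
  rcases le_total 0 (f 1 - f 0) with h | h
  · linarith only [v0, h0, h, mul_le_mul_of_nonneg_left h0 h]
  · linarith only [v1, h1, h, mul_le_mul_of_nonpos_left h1 h]

theorem bern {F : ℝ → ℝ → ℝ}
    (hF : ∀ L η, F L η = F 0 0 + (F 1 0 - F 0 0) * L + (F 0 1 - F 0 0) * η) {l₀ l₁ la : ℝ}
    (hl : l₀ < l₁) (h0 : l₀ ≤ la) (h1 : la ≤ l₁) (v0 : 0 < F (l₀ * l₀) ((1 - l₀) * (1 - l₀)))
    (v1 : 0 < F (l₀ * l₁) ((1 - l₀) * (1 - l₁))) (v2 : 0 < F (l₁ * l₁) ((1 - l₁) * (1 - l₁))) :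
    0 < F (la ^ 2) ((1 - la) ^ 2) := by
  have e : (l₁ - l₀) ^ 2 * F (la ^ 2) ((1 - la) ^ 2) =
      (l₁ - la) ^ 2 * F (l₀ * l₀) ((1 - l₀) * (1 - l₀)) +
      2 * ((l₁ - la) * (la - l₀)) * F (l₀ * l₁) ((1 - l₀) * (1 - l₁)) +
      (la - l₀) ^ 2 * F (l₁ * l₁) ((1 - l₁) * (1 - l₁)) := by
    rw [hF (la ^ 2), hF (l₀ * l₀), hF (l₀ * l₁), hF (l₁ * l₁)]; ring
  have a0 := sub_nonneg.2 h0
  have a1 := sub_nonneg.2 h1
  have hp : 0 < (l₁ - l₀) ^ 2 * F (la ^ 2) ((1 - la) ^ 2) := by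
    rw [e]
    rcases a0.eq_or_lt with h | h
    · have : 0 < l₁ - la := by linarith
      positivity
    · positivity
  exact (pos_iff_pos_of_mul_pos hp).1 (pow_pos (sub_pos.2 hl) 2)

theorem cellA {a b α A B β β₀ β₁ l₀ l₁ la u s t μ₀ μ₁ : ℝ} (hβ0 : β₀ ≤ β) (hβ1 : β ≤ β₁)
    (hl : l₀ < l₁) (h0 : l₀ ≤ la) (h1 : la ≤ l₁) (h4 : 0 ≤ Act n A B α β ((1 - la) ^ 2) u s t)
    (hμ0 : 0 ≤ μ₀) (hμ1 : 0 ≤ μ₁)
    (v0 : 0 < E1 n a b α β₀ (l₀ * l₀) u s t - μ₀ * Act n A B α β₀ ((1 - l₀) * (1 - l₀)) u s t)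
    (v1 : 0 < E1 n a b α β₀ (l₀ * l₁) u s t - μ₀ * Act n A B α β₀ ((1 - l₀) * (1 - l₁)) u s t)
    (v2 : 0 < E1 n a b α β₀ (l₁ * l₁) u s t - μ₀ * Act n A B α β₀ ((1 - l₁) * (1 - l₁)) u s t)
    (w0 : 0 < E1 n a b α β₁ (l₀ * l₀) u s t - μ₁ * Act n A B α β₀ ((1 - l₀) * (1 - l₀)) u s t)
    (w1 : 0 < E1 n a b α β₁ (l₀ * l₁) u s t - μ₁ * Act n A B α β₀ ((1 - l₀) * (1 - l₁)) u s t)
    (w2 : 0 < E1 n a b α β₁ (l₁ * l₁) u s t - μ₁ * Act n A B α β₀ ((1 - l₁) * (1 - l₁)) u s t) :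
    0 < E1 n a b α β (la ^ 2) u s t := by
  have h5 : 0 ≤ Act n A B α β₀ ((1 - la) ^ 2) u s t := by
    have := mul_nonneg (sq_nonneg (1 - la)) (sub_nonneg.2 hβ0)
    unfold Act at h4 ⊢
    linarith only [h4, this]
  have k0 := bern (F := fun L η => E1 n a b α β₀ L u s t - μ₀ * Act n A B α β₀ η u s t)
    (fun L η => by unfold E1 Act; ring) hl h0 h1 v0 v1 v2
  have k1 := bern (F := fun L η => E1 n a b α β₁ L u s t - μ₁ * Act n A B α β₀ η u s t)
    (fun L η => by unfold E1 Act; ring) hl h0 h1 w0 w1 w2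
  have m0 := mul_nonneg hμ0 h5
  have m1 := mul_nonneg hμ1 h5
  exact aff_pos (f := fun β => E1 n a b α β (la ^ 2) u s t) (fun x => by unfold E1; ring) hβ0 hβ1
    (by linarith) (by linarith)

theorem cellB {b₂ α α₀ α₁ A B β l₀ l₁ la u s t μ₀ μ₁ : ℝ} (hα0 : α₀ ≤ α) (hα1 : α ≤ α₁)
    (hl : l₀ < l₁) (h0 : l₀ ≤ la) (h1 : la ≤ l₁) (h4 : 0 ≤ Act n A B α₀ β ((1 - la) ^ 2) u s t)
    (hμ0 : 0 ≤ μ₀) (hμ1 : 0 ≤ μ₁)
    (v0 : 0 < E2 n b₂ α₀ (l₀ * l₀) u s t - μ₀ * Act n A B α₀ β ((1 - l₀) * (1 - l₀)) u s t)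
    (v1 : 0 < E2 n b₂ α₀ (l₀ * l₁) u s t - μ₀ * Act n A B α₀ β ((1 - l₀) * (1 - l₁)) u s t)
    (v2 : 0 < E2 n b₂ α₀ (l₁ * l₁) u s t - μ₀ * Act n A B α₀ β ((1 - l₁) * (1 - l₁)) u s t)
    (w0 : 0 < E2 n b₂ α₁ (l₀ * l₀) u s t - μ₁ * Act n A B α₀ β ((1 - l₀) * (1 - l₀)) u s t)
    (w1 : 0 < E2 n b₂ α₁ (l₀ * l₁) u s t - μ₁ * Act n A B α₀ β ((1 - l₀) * (1 - l₁)) u s t)
    (w2 : 0 < E2 n b₂ α₁ (l₁ * l₁) u s t - μ₁ * Act n A B α₀ β ((1 - l₁) * (1 - l₁)) u s t) :
    0 < E2 n b₂ α (la ^ 2) u s t := by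
  have k0 := bern (F := fun L η => E2 n b₂ α₀ L u s t - μ₀ * Act n A B α₀ β η u s t)
    (fun L η => by unfold E2 Act; ring) hl h0 h1 v0 v1 v2
  have k1 := bern (F := fun L η => E2 n b₂ α₁ L u s t - μ₁ * Act n A B α₀ β η u s t)
    (fun L η => by unfold E2 Act; ring) hl h0 h1 w0 w1 w2
  have m0 := mul_nonneg hμ0 h4
  have m1 := mul_nonneg hμ1 h4
  exact aff_pos (f := fun α => E2 n b₂ α (la ^ 2) u s t) (fun x => by unfold E2; ring) hα0 hα1
    (by linarith) (by linarith)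

/-- The activity constraint at one of the two ends of an interval of parameters. -/
theorem act_ends (hn : 5 ≤ n) {b b₀ b₁ α α₀ η u s t : ℝ} (h0 : b₀ ≤ b) (h1 : b ≤ b₁)
    (hα : α₀ ≤ α) (hη : 0 ≤ η) (hx : 0 ≤ u + 2)
    (h4 : 0 ≤ Act n (cA n b) (cB n b) α (2 * b) η u s t) :
    0 ≤ Act n (cA n b₀) (cB n b₀) α₀ (2 * b₀) η u s t ∨
      0 ≤ Act n (cA n b₁) (cB n b₁) α₀ (2 * b₁) η u s t := by
  have h : (5 : ℝ) ≤ n := by exact_mod_cast hn
  have h2 : (0 : ℝ) ≤ (n : ℝ) - 2 := by linarith only [h]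
  have h1' : (0 : ℝ) ≤ (n : ℝ) - 1 := by linarith
  have hs : 0 < 1 + 2 * ((n : ℝ) - 1) * aa n (bOne n) := by unfold aa bOne; positivity
  by_contra hc
  rw [not_or, not_le, not_le] at hc
  set k := ((n : ℝ) - 2) / (1 + 2 * ((n : ℝ) - 1) * aa n (bOne n)) * (2 * ((n : ℝ) - 2) * η + 4)
    with hk
  have hk0 : 0 ≤ k := by positivity
  have key := aff_pos (f := fun x => -(Act n (cA n x) (cB n x) α₀ (2 * x) η u s t) +
      k * ((x - b₀) * (x - b₁))) (fun x => by rw [hk]; unfold Act cA cB aa; ring) h0 h1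
    (by simpa using hc.1) (by simpa using hc.2)
  have h5 := mul_nonneg hk0 (mul_nonneg (sub_nonneg.2 h0) (sub_nonneg.2 h1))
  have h6 := mul_nonneg hη (mul_nonneg (sub_nonneg.2 hα) hx)
  unfold Act at h4 key
  linarith only [h4, key, h5, h6]

end

namespace QC

/-- A real number given by a rational number. -/
def Rep (x : ℝ) (q : ℚ) : Prop := x = (q : ℝ)

theorem rd (p q : ℕ) : Rep ((p : ℝ) / (q : ℝ)) ((p : ℚ) / (q : ℚ)) := by
  unfold Rep; push_cast; rfl

theorem ri (q : ℕ) : Rep (1 / (q : ℝ)) (1 / (q : ℚ)) := by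
  unfold Rep; push_cast; rfl

theorem rn (p : ℕ) : Rep (p : ℝ) (p : ℚ) := by
  unfold Rep; push_cast; rfl

theorem r0 : Rep 0 0 := by unfold Rep; push_cast; rfl

theorem r1 : Rep 1 1 := by unfold Rep; push_cast; rfl

def Ok1 (a b c : ℚ) : Bool :=
  (decide (0 < a) && decide (b * b < 4 * a * c)) ||
    (decide (a = 0) && decide (b = 0) && decide (0 < c))

def Ok2 (a b₁ b₀ c₂ c₁ c₀ : ℚ) : Bool :=
  (decide (0 < a) && Ok1 (4 * a * c₂ - b₁ * b₁) (4 * a * c₁ - 2 * b₁ * b₀) (4 * a * c₀ - b₀ * b₀)) ||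
    (decide (a = 0) && decide (b₁ = 0) && decide (b₀ = 0) && Ok1 c₂ c₁ c₀)

def Ok3 (a bs bt b₀ css cst cs ctt ct c₀ : ℚ) : Bool :=
  decide (0 < a) && Ok2 (4 * a * css - bs * bs) (4 * a * cst - 2 * bs * bt)
    (4 * a * cs - 2 * bs * b₀) (4 * a * ctt - bt * bt) (4 * a * ct - 2 * bt * b₀)
    (4 * a * c₀ - b₀ * b₀)

theorem sq_step {a x l r : ℝ} (ha : 0 < a) (h : 0 < 4 * a * r - l * l) :
    0 < a * x ^ 2 + x * l + r := by
  have e : 4 * a * (a * x ^ 2 + x * l + r) = (2 * a * x + l) ^ 2 + (4 * a * r - l * l) := by ring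
  have h1 : 0 < 4 * a * (a * x ^ 2 + x * l + r) := by
    rw [e]; exact add_pos_of_nonneg_of_pos (sq_nonneg _) h
  exact (pos_iff_pos_of_mul_pos h1).1 (by linarith)

theorem ok1 {a b c : ℚ} (h : Ok1 a b c = true) (t : ℝ) : 0 < (a : ℝ) * t ^ 2 + t * b + c := by
  simp only [Ok1, Bool.or_eq_true, Bool.and_eq_true, decide_eq_true_eq] at h
  rcases h with ⟨h1, h2⟩ | ⟨⟨h1, h2⟩, h3⟩
  · have k1 : (0 : ℝ) < a := by exact_mod_cast h1
    have k2 : (b : ℝ) * b < 4 * a * c := by exact_mod_cast h2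
    exact sq_step k1 (by linarith)
  · have k3 : (0 : ℝ) < c := by exact_mod_cast h3
    rw [h1, h2]; push_cast; linarith

theorem ok2 {a b₁ b₀ c₂ c₁ c₀ : ℚ} (h : Ok2 a b₁ b₀ c₂ c₁ c₀ = true) (s t : ℝ) :
    0 < (a : ℝ) * s ^ 2 + s * (b₁ * t + b₀) + (c₂ * t ^ 2 + t * c₁ + c₀) := by
  simp only [Ok2, Bool.or_eq_true, Bool.and_eq_true, decide_eq_true_eq] at h
  rcases h with ⟨h1, h2⟩ | ⟨⟨⟨h1, h2⟩, h3⟩, h4⟩
  · have k1 : (0 : ℝ) < a := by exact_mod_cast h1
    have k2 := ok1 h2 t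
    push_cast at k2
    exact sq_step k1 (by linarith only [k2])
  · have k3 := ok1 h4 t
    rw [h1, h2, h3]; push_cast; linarith

theorem ok3 {a bs bt b₀ css cst cs ctt ct c₀ : ℚ} (h : Ok3 a bs bt b₀ css cst cs ctt ct c₀ = true)
    (u s t : ℝ) : 0 < (a : ℝ) * u ^ 2 + u * (bs * s + bt * t + b₀) +
      (css * s ^ 2 + s * (cst * t + cs) + (ctt * t ^ 2 + t * ct + c₀)) := by
  simp only [Ok3, Bool.and_eq_true, decide_eq_true_eq] at h
  have k1 : (0 : ℝ) < a := by exact_mod_cast h.1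
  have k2 := ok2 h.2 s t
  push_cast at k2
  exact sq_step k1 (by linarith only [k2])

/-- The test for `p u ^ 2 + g sig0 + cu u + cs s + ct t + c₀ - μ Act` with three multipliers. -/
def Core (N p g cu cs ct c₀ μ A B α β η c d x y z : ℚ) : Bool :=
  decide (0 ≤ x) && decide (0 ≤ y) && decide (0 ≤ z) &&
  Ok3 (p + g * ((1 / 2 + 1 / (N - 4)) / N)) (g * (2 / (N - 4) / N)) (g * (2 / (N - 4) / N))
    (cu - μ * (η * ((1 - (N - 4) * B) / 2 - α) - 2 * B) - x)
    (g * ((1 + 1 / (N - 4)) / N)) (g * (2 / (N - 4) / N)) (cs + μ * (2 * B) - y)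
    (g * ((1 + 1 / (N - 4)) / N)) (ct - μ * (η * (1 - (N - 4) * B) - 2 * B) - y + z)
    (c₀ - μ * (η * (2 - 2 * (N - 2) * A - 2 * α - 2 * β) - 4 * A) - x * (2 - c) - y * (2 - c) -
      z * (d - 1))

theorem core {n : ℕ} {p g cu cs ct c₀ μ A B α β η c d x y z : ℚ}
    (h : Core n p g cu cs ct c₀ μ A B α β η c d x y z = true) {u s t : ℝ}
    (h1 : (c : ℝ) ≤ u + 2) (h2 : (c : ℝ) ≤ s + t + 2) (h3 : t + 1 ≤ (d : ℝ)) :
    0 < (p : ℝ) * u ^ 2 + g * sig0 n u s t + cu * u + cs * s + ct * t + c₀ -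
      μ * Act n A B α β η u s t := by
  simp only [Core, Bool.and_eq_true, decide_eq_true_eq] at h
  obtain ⟨⟨⟨hx, hy⟩, hz⟩, h⟩ := h
  have k := ok3 h u s t
  have kx : (0 : ℝ) ≤ x := by exact_mod_cast hx
  have ky : (0 : ℝ) ≤ y := by exact_mod_cast hy
  have kz : (0 : ℝ) ≤ z := by exact_mod_cast hz
  have m1 := mul_nonneg kx (sub_nonneg.2 h1)
  have m2 := mul_nonneg ky (sub_nonneg.2 h2)
  have m3 := mul_nonneg kz (sub_nonneg.2 h3)
  refine lt_of_lt_of_eq (add_pos_of_pos_of_nonneg (add_pos_of_pos_of_nonneg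
    (add_pos_of_pos_of_nonneg k m1) m2) m3) ?_
  unfold sig0 Act
  push_cast
  ring

def ChkA (N a b α β l₀ l₁ μ A B α' β' c d x y z : ℚ) : Bool :=
  Core N (α * α * (1 + l₀ * l₁) / 2 - (1 - l₀ * l₁) * α * b) ((1 - l₀ * l₁) * β * 2 * (1 - 2 * b))
    (2 * α * α * (1 + l₀ * l₁) + α * β * (1 + l₀ * l₁) +
      (1 - l₀ * l₁) * (α * 2 * a * (N - 2) - β))
    (-(2 * α * β)) (-(2 * α * β * (l₀ * l₁)))
    (2 * α * α * (1 + l₀ * l₁) + (1 - l₀ * l₁) * (4 * a * (N - 1) * (α + β)))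
    μ A B α' β' ((1 - l₀) * (1 - l₁)) c d x y z

def ChkB (N b α l₀ l₁ μ A B α' β' c d x y z : ℚ) : Bool :=
  Core N (1 + l₀ * l₁ - (1 - l₀ * l₁) * α) ((1 - l₀ * l₁) * 4 * (1 - 2 * b))
    (4 * (1 + l₀ * l₁) + 2 * α * (1 + l₀ * l₁) + (1 - l₀ * l₁) * (α * 2 * (N - 2) - 2))
    (-(4 * α)) (-(4 * α * (l₀ * l₁)))
    (4 * (1 + l₀ * l₁) + (1 - l₀ * l₁) * (4 * α * (N - 1)))
    μ A B α' β' ((1 - l₀) * (1 - l₁)) c d x y z

theorem chkA {n : ℕ} {a b α β l₀ l₁ μ A B α' β' c d : ℚ}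
    {ra rb rα rβ rl₀ rl₁ rμ rA rB rα' rβ' rc rd' : ℝ} (x y z : ℚ) (e1 : Rep ra a) (e2 : Rep rb b)
    (e3 : Rep rα α) (e4 : Rep rβ β) (e5 : Rep rl₀ l₀) (e6 : Rep rl₁ l₁) (e7 : Rep rμ μ)
    (e8 : Rep rA A) (e9 : Rep rB B) (e10 : Rep rα' α') (e11 : Rep rβ' β') (e12 : Rep rc c)
    (e13 : Rep rd' d) (h : ChkA n a b α β l₀ l₁ μ A B α' β' c d x y z = true) {u s t : ℝ}
    (h1 : rc ≤ u + 2) (h2 : rc ≤ s + t + 2) (h3 : t + 1 ≤ rd') :
    0 < E1 n ra rb rα rβ (rl₀ * rl₁) u s t -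
      rμ * Act n rA rB rα' rβ' ((1 - rl₀) * (1 - rl₁)) u s t := by
  unfold Rep at *
  subst_vars
  refine lt_of_lt_of_eq (core h h1 h2 h3) ?_
  unfold E1
  push_cast
  ring

theorem chkB {n : ℕ} {b α l₀ l₁ μ A B α' β' c d : ℚ}
    {rb rα rl₀ rl₁ rμ rA rB rα' rβ' rc rd' : ℝ} (x y z : ℚ) (e2 : Rep rb b)
    (e3 : Rep rα α) (e5 : Rep rl₀ l₀) (e6 : Rep rl₁ l₁) (e7 : Rep rμ μ)
    (e8 : Rep rA A) (e9 : Rep rB B) (e10 : Rep rα' α') (e11 : Rep rβ' β') (e12 : Rep rc c)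
    (e13 : Rep rd' d) (h : ChkB n b α l₀ l₁ μ A B α' β' c d x y z = true) {u s t : ℝ}
    (h1 : rc ≤ u + 2) (h2 : rc ≤ s + t + 2) (h3 : t + 1 ≤ rd') :
    0 < E2 n rb rα (rl₀ * rl₁) u s t -
      rμ * Act n rA rB rα' rβ' ((1 - rl₀) * (1 - rl₁)) u s t := by
  unfold Rep at *
  subst_vars
  refine lt_of_lt_of_eq (core h h1 h2 h3) ?_
  unfold E2
  push_cast
  ring

end QC

end Pool.Agent.Work.MP_3a9764_gt
end
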