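import Pool.Agent.Work.MP_3a9764_gt.Stmt

/-! Two further curvature conditions. -/

set_option autoImplicit false

namespace Pool.Agent.Work.MP_3a9764_gt.Stmt

variable {n : ℕ} {M : Type} [TopologicalSpace M] [ChartedSpace (Eu n) M]

/-- Weakly PIC2: the product with a flat plane has non-negative isotropic curvature. -/
def WeakPIC2 (g : Forms (Eu n) M) : Prop :=
  ∀ x e, IsFrame g x e → ∀ la ∈ Set.Icc (0 : ℝ) 1, ∀ mu ∈ Set.Icc (0 : ℝ) 1, 0 ≤ iso g x e la mu

/-- The scalar curvature is non-negative and the isotropic curvature is at least `θ` times the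
scalar curvature. -/
def UnifPIC (θ : ℝ) (g : Forms (Eu n) M) : Prop :=
  ∀ x, 0 ≤ scalar (coef g x) (ctr n x) ∧
    ∀ e, IsFrame g x e → θ * scalar (coef g x) (ctr n x) ≤ iso g x e 1 1

end Pool.Agent.Work.MP_3a9764_gt.Stmt
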