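import Pool.Agent.Work.MP_3a9764_gt.EvSqrt
import Pool.Agent.Work.MP_3a9764_gt.St2e
import Pool.Agent.Work.MP_3a9764_gt.Stmt2

-- merged part: Pool.Agent.Work.MP_3a9764_gt.Tens
section
/-! Tensoriality of the curvature under a change of coordinates. -/

set_option autoImplicit false

open scoped ContDiff Topology
open Filter

namespace Pool.Agent.Work.MP_3a9764_gt

noncomputable section

variable {n : ℕ}

namespace T

/-- Christoffel symbols of the first kind, as the matrices `(l, j) ↦ Γ_{l, i j}`. -/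
def lowM (G : Eu n → Mat n) (i : Fin n) (y : Eu n) : Mat n :=
  fun l j => (1 / 2) * (pdM i G y j l + pdM j G y i l - pdM l G y i j)

/-- The connection matrices `(k, j) ↦ Γ^k_{i j}`. -/
def gamM (G : Eu n → Mat n) (i : Fin n) (y : Eu n) : Mat n := fun k j => christoffel G k i j y

/-- The curvature matrices `(m, l) ↦ R^m_{i j l}`. -/
def omM (G : Eu n → Mat n) (i j : Fin n) (y : Eu n) : Mat n := fun m l => riemUp G m i j l y

theorem gamM_eq (G : Eu n → Mat n) (i : Fin n) (y : Eu n) :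
    gamM G i y = (G y)⁻¹ * lowM G i y := by
  ext k j
  simp only [gamM, christoffel, Matrix.mul_apply, lowM, pdM, Finset.mul_sum]
  exact Finset.sum_congr rfl fun l _ => by ring

theorem omM_eq (G : Eu n → Mat n) (i j : Fin n) (y : Eu n) :
    omM G i j y = pdM i (gamM G j) y - pdM j (gamM G i) y +
      (gamM G i y * gamM G j y - gamM G j y * gamM G i y) := by
  ext m l
  simp only [omM, riemUp, Matrix.add_apply, Matrix.sub_apply, Matrix.mul_apply,
    Finset.sum_sub_distrib]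
  rfl

theorem riem_eq (G : Eu n → Mat n) (y : Eu n) (i j k l : Fin n) :
    riem G y i j k l = (G y * omM G i j y) k l := by
  simp only [riem, Matrix.mul_apply, omM]

theorem ricci_eq (G : Eu n → Mat n) (y : Eu n) (j l : Fin n) :
    ricci G y j l = ∑ i, omM G i j y i l := rfl

theorem CM.lowM {m k : WithTop ℕ∞} {G : Eu n → Mat n} {y : Eu n} (hG : CM k G y)
    (hm : m + 1 ≤ k) (i : Fin n) : CM m (lowM G i) y := fun l j =>
  contDiffAt_const.mul (((hG.pdM hm i j l).add (hG.pdM hm j i l)).sub (hG.pdM hm l i j))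

theorem CM.gamM {m k : WithTop ℕ∞} {G : Eu n → Mat n} {y : Eu n} (hG : CM k G y)
    (hd : (G y).det ≠ 0) (hm : m + 1 ≤ k) (i : Fin n) : CM m (gamM G i) y := by
  have h : T.gamM G i = fun x => (G x)⁻¹ * T.lowM G i x := funext fun x => gamM_eq G i x
  rw [h]
  exact ((hG.of_le (le_trans le_self_add hm)).inv hd).mul (hG.lowM hm i)

theorem CM.omM {m k : WithTop ℕ∞} {G : Eu n → Mat n} {y : Eu n} (hG : CM k G y)
    (hd : (G y).det ≠ 0) (hm : m + 1 + 1 ≤ k) (i j : Fin n) : CM m (omM G i j) y := by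
  have h : T.omM G i j = fun x => T.pdM i (T.gamM G j) x - T.pdM j (T.gamM G i) x +
      (T.gamM G i x * T.gamM G j x - T.gamM G j x * T.gamM G i x) :=
    funext fun x => omM_eq G i j x
  have h1 : ∀ a, CM (m + 1) (T.gamM G a) y := fun a => hG.gamM hd hm a
  have h0 : ∀ a, CM m (T.gamM G a) y := fun a => (h1 a).of_le le_self_add
  rw [h]
  exact (((h1 j).pdM le_rfl i).sub ((h1 i).pdM le_rfl j)).add
    (((h0 i).mul (h0 j)).sub ((h0 j).mul (h0 i)))

theorem lowM_congr {G H : Eu n → Mat n} {y : Eu n} (h : G =ᶠ[𝓝 y] H) (i : Fin n) :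
    lowM G i y = lowM H i y := by
  ext l j
  simp only [lowM, pdM_congr h]

theorem gamM_congr {G H : Eu n → Mat n} {y : Eu n} (h : G =ᶠ[𝓝 y] H) (i : Fin n) :
    gamM G i y = gamM H i y := by
  rw [gamM_eq, gamM_eq, lowM_congr h, h.eq_of_nhds]

theorem omM_congr {G H : Eu n → Mat n} {y : Eu n} (h : G =ᶠ[𝓝 y] H) (i j : Fin n) :
    omM G i j y = omM H i j y := by
  have h1 : ∀ a, gamM G a =ᶠ[𝓝 y] gamM H a :=
    fun a => h.eventually_nhds.mono fun x hx => gamM_congr hx a
  rw [omM_eq, omM_eq, pdM_congr (h1 j), pdM_congr (h1 i), gamM_congr h, gamM_congr h]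

/-- A three-tensor in the frame formed by the columns of `D`. -/
def tr3 (D : Mat n) (X : Fin n → Fin n → Fin n → ℝ) (c a b : Fin n) : ℝ :=
  ∑ r, ∑ p, ∑ q, D r c * D p a * D q b * X r p q

theorem tr3_swap12 (D : Mat n) (X : Fin n → Fin n → Fin n → ℝ) (c a b : Fin n) :
    tr3 D X a c b = tr3 D (fun r p q => X p r q) c a b := by
  unfold tr3
  rw [Finset.sum_comm]
  exact Finset.sum_congr rfl fun r _ => Finset.sum_congr rfl fun p _ =>
    Finset.sum_congr rfl fun q _ => by ring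

theorem tr3_swap23 (D : Mat n) (X : Fin n → Fin n → Fin n → ℝ) (c a b : Fin n) :
    tr3 D X c b a = tr3 D (fun r p q => X r q p) c a b := by
  unfold tr3
  refine Finset.sum_congr rfl fun r _ => ?_
  rw [Finset.sum_comm]
  exact Finset.sum_congr rfl fun p _ => Finset.sum_congr rfl fun q _ => by ring

theorem tr3_mat (D : Mat n) (X : Fin n → Mat n) (c a b : Fin n) :
    (D.transpose * (∑ r, D r c • X r) * D) a b = tr3 D (fun r p q => X r p q) c a b := by
  unfold tr3
  simp only [Matrix.mul_apply, Matrix.sum_apply, Matrix.smul_apply, Matrix.transpose_apply,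
    smul_eq_mul, Finset.mul_sum, Finset.sum_mul]
  rw [Finset.sum_comm]
  refine Eq.trans (Finset.sum_congr rfl fun p _ => Finset.sum_comm) ?_
  exact Finset.sum_congr rfl fun r _ => Finset.sum_congr rfl fun p _ =>
    Finset.sum_congr rfl fun q _ => by ring

section

variable {G H : Eu n → Mat n} {f : Eu n → Eu n} {y : Eu n}

theorem pdM_pull (hf : ContDiffAt ℝ 2 f y) (hG : CM 1 G (f y))
    (hH : ∀ᶠ x in 𝓝 y, H x = (jac f x).transpose * G (f x) * jac f x) (c : Fin n) :
    pdM c H y = (pdM c (jac f) y).transpose * G (f y) * jac f y +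
      (jac f y).transpose * (∑ r, jac f y r c • pdM r G (f y)) * jac f y +
      (jac f y).transpose * G (f y) * pdM c (jac f) y := by
  have hD : CM 1 (jac f) y := CM.jac hf (by norm_num)
  have hf1 : ContDiffAt ℝ 1 f y := hf.of_le (by norm_num)
  have hGf : CM 1 (fun x => G (f x)) y := hG.comp hf1
  rw [pdM_congr (G := fun x => (jac f x).transpose * G (f x) * jac f x) hH,
    pdM_mul (hD.transpose.mul hGf) hD, pdM_mul hD.transpose hGf,
    pdM_comp hG (hf1.differentiableAt (by norm_num)), pdM_transpose, Matrix.add_mul]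

theorem lowM_pull (hf : ContDiffAt ℝ 2 f y) (hG : CM 1 G (f y)) (hs : (G (f y)).IsSymm)
    (hH : ∀ᶠ x in 𝓝 y, H x = (jac f x).transpose * G (f x) * jac f x) (a : Fin n) :
    lowM H a y = (jac f y).transpose * G (f y) * pdM a (jac f) y +
      (jac f y).transpose * (∑ q, jac f y q a • lowM G q (f y)) * jac f y := by
  have hU : ∀ c i j, ((pdM c (jac f) y).transpose * G (f y) * jac f y) i j =
      ((jac f y).transpose * G (f y) * pdM c (jac f) y) j i := by
    intro c i j
    rw [← Matrix.transpose_apply ((pdM c (jac f) y).transpose * G (f y) * jac f y) j i]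
    simp only [Matrix.transpose_mul, Matrix.transpose_transpose, hs.eq, Matrix.mul_assoc]
  have hV : ∀ c i j, ((jac f y).transpose * G (f y) * pdM c (jac f) y) i j =
      ((jac f y).transpose * G (f y) * pdM j (jac f) y) i c := by
    intro c i j
    simp only [Matrix.mul_apply (M := (jac f y).transpose * G (f y))]
    exact Finset.sum_congr rfl fun p _ => by rw [pdM_jac_symm hf p c j]
  ext l j
  simp only [lowM, pdM_pull hf hG hH, Matrix.add_apply, hU, tr3_mat]
  rw [hV a j l, hV j a l, hV j l a]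
  rw [tr3_swap23 (jac f y) _ a l j, tr3_swap12 (jac f y) _ a j l, tr3_swap23 (jac f y) _ a l j,
    tr3_swap12 (jac f y) _ a l j]
  have : ∀ X Y Z : Fin n → Fin n → Fin n → ℝ,
      tr3 (jac f y) (fun r p q => (1 / 2) * (X r p q + Y r p q - Z r p q)) a l j =
      (1 / 2) * (tr3 (jac f y) X a l j + tr3 (jac f y) Y a l j - tr3 (jac f y) Z a l j) := by
    intro X Y Z
    simp only [tr3, Finset.mul_sum, ← Finset.sum_add_distrib, ← Finset.sum_sub_distrib]
    exact Finset.sum_congr rfl fun r _ => Finset.sum_congr rfl fun p _ =>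
      Finset.sum_congr rfl fun q _ => by ring
  rw [this]
  ring

/-- The pulled back connection form. -/
def conM (G : Eu n → Mat n) (f : Eu n → Eu n) (a : Fin n) (y : Eu n) : Mat n :=
  ∑ q, jac f y q a • gamM G q (f y)

theorem gamM_pull (hf : ContDiffAt ℝ 2 f y) (hG : CM 1 G (f y)) (hs : (G (f y)).IsSymm)
    (hd : (G (f y)).det ≠ 0) (hD : (jac f y).det ≠ 0)
    (hH : ∀ᶠ x in 𝓝 y, H x = (jac f x).transpose * G (f x) * jac f x) (a : Fin n) :
    jac f y * gamM H a y = pdM a (jac f) y + conM G f a y * jac f y := by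
  have hu : IsUnit (G (f y)).det := isUnit_iff_ne_zero.2 hd
  have hv : IsUnit (jac f y).det := isUnit_iff_ne_zero.2 hD
  have hw : IsUnit (jac f y).transpose.det := by rwa [Matrix.det_transpose]
  have h1 : jac f y * (H y)⁻¹ * (jac f y).transpose = (G (f y))⁻¹ := by
    rw [hH.self_of_nhds, Matrix.mul_inv_rev, Matrix.mul_inv_rev]
    simp only [← Matrix.mul_assoc]
    rw [Matrix.mul_nonsing_inv _ hv, Matrix.one_mul, Matrix.mul_assoc,
      Matrix.nonsing_inv_mul _ hw, Matrix.mul_one]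
  rw [gamM_eq, lowM_pull hf hG hs hH, Matrix.mul_add, Matrix.mul_add]
  simp only [← Matrix.mul_assoc]
  rw [h1, Matrix.nonsing_inv_mul _ hu, Matrix.one_mul]
  simp only [conM, gamM_eq, Finset.mul_sum, Matrix.mul_smul]

theorem omM_pull (hf : ContDiffAt ℝ 3 f y) (hG : CM 2 G (f y))
    (hs : ∀ᶠ x in 𝓝 (f y), (G x).IsSymm) (hd : (G (f y)).det ≠ 0) (hD : (jac f y).det ≠ 0)
    (hH : ∀ᶠ x in 𝓝 y, H x = (jac f x).transpose * G (f x) * jac f x) (a b : Fin n) :
    jac f y * omM H a b y =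
      (∑ r, ∑ q, (jac f y r a * jac f y q b) • omM G r q (f y)) * jac f y := by
  have hD2 : CM 2 (jac f) y := CM.jac hf (by norm_num)
  have hD1 : CM 1 (jac f) y := hD2.of_le (by norm_num)
  have hf2 : ContDiffAt ℝ 2 f y := hf.of_le (by norm_num)
  have hf1 : ContDiffAt ℝ 1 f y := hf.of_le (by norm_num)
  have hc : Tendsto f (𝓝 y) (𝓝 (f y)) := hf.continuousAt
  have hH2 : CM 2 H y := ((hD2.transpose.mul (hG.comp hf2)).mul hD2).congr hH
  have hHd : (H y).det ≠ 0 := by
    rw [hH.self_of_nhds, Matrix.det_mul, Matrix.det_mul, Matrix.det_transpose]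
    exact mul_ne_zero (mul_ne_zero hD hd) hD
  have hΓH : ∀ c, CM 1 (gamM H c) y := fun c => hH2.gamM hHd (by norm_num) c
  have hΓG : ∀ c, CM 1 (gamM G c) (f y) := fun c => hG.gamM hd (by norm_num) c
  have hA : ∀ c, CM 1 (conM G f c) y :=
    fun c => CM.sum _ fun q _ => CM.smul (hD1 q c) ((hΓG q).comp hf1)
  have hev : ∀ c, (fun x => jac f x * gamM H c x) =ᶠ[𝓝 y]
      fun x => pdM c (jac f) x + conM G f c x * jac f x := by
    intro c
    filter_upwards [hf2.eventually (by simp),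
      hc.eventually ((hG.of_le (m := 1) (by norm_num)).eventually (by simp)), hc.eventually hs,
      hc.eventually (hG.det_ne hd), hD2.det_ne hD, hH.eventually_nhds]
      with x h1 h2 h3 h4 h5 h6
    exact gamM_pull h1 h2 h3 h4 h5 h6 c
  have e0 : ∀ c, pdM c (jac f) y = jac f y * gamM H c y - conM G f c y * jac f y := by
    intro c
    have := (hev c).self_of_nhds
    simp only at this
    rw [this]; abel
  have e1 : ∀ c d, pdM c (jac f) y * gamM H d y + jac f y * pdM c (gamM H d) y =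
      pdM c (pdM d (jac f)) y +
        (pdM c (conM G f d) y * jac f y + conM G f d y * pdM c (jac f) y) := by
    intro c d
    have := pdM_congr (hev d) c
    rwa [pdM_mul hD1 (hΓH d), pdM_add (hD2.pdM (by norm_num) d) ((hA d).mul hD1),
      pdM_mul (hA d) hD1] at this
  have e2 : jac f y * omM H a b y = (pdM a (conM G f b) y - pdM b (conM G f a) y +
      (conM G f a y * conM G f b y - conM G f b y * conM G f a y)) * jac f y := by
    have k1 := e1 a b
    have k2 := e1 b a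
    rw [pdM_comm hD2 b a] at k2
    have k3 : jac f y * pdM a (gamM H b) y - jac f y * pdM b (gamM H a) y =
        (pdM a (conM G f b) y * jac f y + conM G f b y * pdM a (jac f) y
          - pdM a (jac f) y * gamM H b y) -
        (pdM b (conM G f a) y * jac f y + conM G f a y * pdM b (jac f) y
          - pdM b (jac f) y * gamM H a y) := by
      rw [eq_sub_of_add_eq' k1, eq_sub_of_add_eq' k2]; abel
    rw [omM_eq, Matrix.mul_add, Matrix.mul_sub, k3, e0 a, e0 b]
    noncomm_ring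
  have e3 : ∀ c d, pdM c (conM G f d) y = ∑ q, pdM c (jac f) y q d • gamM G q (f y) +
      ∑ r, ∑ q, (jac f y r c * jac f y q d) • pdM r (gamM G q) (f y) := by
    intro c d
    have h1 : pdM c (conM G f d) y =
        ∑ q, pdM c (fun x => jac f x q d • gamM G q (f x)) y :=
      pdM_sum (F := fun q x => jac f x q d • gamM G q (f x)) _
        (fun q _ => CM.smul (hD1 q d) ((hΓG q).comp hf1)) c
    rw [h1, Finset.sum_comm, ← Finset.sum_add_distrib]
    refine Finset.sum_congr rfl fun q _ => ?_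
    rw [pdM_smul (u := fun x => jac f x q d) (F := fun x => gamM G q (f x)) (hD1.diff q d)
      ((hΓG q).comp hf1), pdM_comp (hΓG q) (hf1.differentiableAt (by norm_num)),
      Finset.smul_sum]
    congr 1
    exact Finset.sum_congr rfl fun r _ => by rw [smul_smul, mul_comm]
  have e4 : ∀ c d, conM G f c y * conM G f d y =
      ∑ r, ∑ q, (jac f y r c * jac f y q d) • (gamM G r (f y) * gamM G q (f y)) := by
    intro c d
    simp only [conM, Finset.sum_mul, Finset.mul_sum, Matrix.smul_mul, Matrix.mul_smul, smul_smul]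
    rw [Finset.sum_comm]
    exact Finset.sum_congr rfl fun r _ => Finset.sum_congr rfl fun q _ => by rw [mul_comm]
  have e5 : ∀ X : Fin n → Fin n → Mat n, ∑ r, ∑ q, (jac f y r b * jac f y q a) • X r q =
      ∑ r, ∑ q, (jac f y r a * jac f y q b) • X q r := by
    intro X
    rw [Finset.sum_comm]
    exact Finset.sum_congr rfl fun r _ => Finset.sum_congr rfl fun q _ => by rw [mul_comm]
  rw [e2, e3, e3, e4, e4, e5, e5]
  congr 1
  simp only [omM_eq, smul_add, smul_sub, Finset.sum_add_distrib, Finset.sum_sub_distrib,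
    pdM_jac_symm hf2 _ a b]
  abel

end

end T

open T

section

variable {G H : Eu n → Mat n} {f : Eu n → Eu n} {y : Eu n}

theorem christoffel_congr (h : G =ᶠ[𝓝 y] H) (k i j : Fin n) :
    christoffel G k i j y = christoffel H k i j y :=
  congrFun (congrFun (gamM_congr h i) k) j

theorem riemUp_congr (h : G =ᶠ[𝓝 y] H) (m i j l : Fin n) :
    riemUp G m i j l y = riemUp H m i j l y :=
  congrFun (congrFun (omM_congr h i j) m) l

theorem riem_congr (h : G =ᶠ[𝓝 y] H) : riem G y = riem H y := by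
  funext i j k l
  rw [riem_eq, riem_eq, omM_congr h, h.eq_of_nhds]

theorem ricci_congr (h : G =ᶠ[𝓝 y] H) : ricci G y = ricci H y := by
  funext j l
  simp only [ricci_eq, omM_congr h]

theorem christoffel_smul {c : ℝ} (hc : c ≠ 0) (G : Eu n → Mat n) :
    christoffel (fun x => c • G x) = christoffel G := by
  funext k i j y
  have h1 : (c • G y)⁻¹ = c⁻¹ • (G y)⁻¹ := by
    by_cases hd : IsUnit (G y).det
    · apply Matrix.inv_eq_left_inv
      rw [Matrix.smul_mul, Matrix.mul_smul, smul_smul, inv_mul_cancel₀ hc, one_smul,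
        Matrix.nonsing_inv_mul _ hd]
    · have hd' : ¬IsUnit (c • G y).det := by
        rw [Matrix.det_smul]
        exact fun h => hd (isUnit_of_mul_isUnit_right h)
      rw [Matrix.nonsing_inv_apply_not_isUnit _ hd, Matrix.nonsing_inv_apply_not_isUnit _ hd',
        smul_zero]
  simp only [christoffel, h1, Matrix.smul_apply, smul_eq_mul, pd_const_mul]
  congr 1
  refine Finset.sum_congr rfl fun l _ => ?_
  field_simp

theorem riemUp_smul {c : ℝ} (hc : c ≠ 0) (G : Eu n → Mat n) :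
    riemUp (fun x => c • G x) = riemUp G := by
  funext m i j l y
  simp only [riemUp, christoffel_smul hc]

theorem riem_smul {c : ℝ} (hc : c ≠ 0) (G : Eu n → Mat n) (y : Eu n) :
    riem (fun x => c • G x) y = c • riem G y := by
  funext i j k l
  simp only [riem, riemUp_smul hc, Matrix.smul_apply, Pi.smul_apply, smul_eq_mul, Finset.mul_sum,
    mul_assoc]

theorem ricci_smul {c : ℝ} (hc : c ≠ 0) (G : Eu n → Mat n) (y : Eu n) :
    ricci (fun x => c • G x) y = ricci G y := by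
  funext j l
  simp only [ricci, riemUp_smul hc]

theorem christoffel_pullback (hf : ContDiffAt ℝ 2 f y)
    (hG : ∀ i j, ContDiffAt ℝ 1 (fun x => G x i j) (f y)) (hs : (G (f y)).IsSymm)
    (hd : (G (f y)).det ≠ 0) (hD : (jac f y).det ≠ 0)
    (hH : ∀ᶠ x in 𝓝 y, H x = (jac f x).transpose * G (f x) * jac f x) (p a b : Fin n) :
    ∑ c, jac f y p c * christoffel H c a b y = pd a (pd b fun x => f x p) y +
      ∑ q, ∑ r, christoffel G p q r (f y) * jac f y q a * jac f y r b := by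
  have h := congrFun (congrFun (gamM_pull hf hG hs hd hD hH a) p) b
  simp only [Matrix.mul_apply, Matrix.add_apply, conM, Matrix.sum_apply, Matrix.smul_apply,
    smul_eq_mul, Finset.sum_mul, gamM] at h
  rw [h]
  congr 1
  exact Finset.sum_congr rfl fun q _ => Finset.sum_congr rfl fun r _ => by ring

theorem riem_pullback (hf : ContDiffAt ℝ 3 f y)
    (hG : ∀ i j, ContDiffAt ℝ 2 (fun x => G x i j) (f y))
    (hs : ∀ᶠ x in 𝓝 (f y), (G x).IsSymm) (hd : (G (f y)).det ≠ 0) (hD : (jac f y).det ≠ 0)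
    (hH : ∀ᶠ x in 𝓝 y, H x = (jac f x).transpose * G (f x) * jac f x) :
    riem H y = act (riem G (f y)) (jac f y) := by
  funext a b c d
  have h := omM_pull hf hG hs hd hD hH a b
  rw [riem_eq, hH.self_of_nhds, Matrix.mul_assoc, h, ← Matrix.mul_assoc,
    Matrix.mul_assoc (jac f y).transpose, Finset.mul_sum]
  simp only [Finset.mul_sum, Finset.sum_mul, Matrix.mul_smul, Matrix.smul_mul, Matrix.sum_apply,
    Matrix.smul_apply, smul_eq_mul, act, ev4, riem_eq]
  refine Finset.sum_congr rfl fun r _ => Finset.sum_congr rfl fun q _ => ?_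
  generalize G (f y) * omM G r q (f y) = X
  simp only [Matrix.mul_apply, Matrix.transpose_apply, Finset.sum_mul, Finset.mul_sum]
  rw [Finset.sum_comm]
  exact Finset.sum_congr rfl fun k _ => Finset.sum_congr rfl fun l _ => by ring

theorem ricci_pullback (hf : ContDiffAt ℝ 3 f y)
    (hG : ∀ i j, ContDiffAt ℝ 2 (fun x => G x i j) (f y))
    (hs : ∀ᶠ x in 𝓝 (f y), (G x).IsSymm) (hd : (G (f y)).det ≠ 0) (hD : (jac f y).det ≠ 0)
    (hH : ∀ᶠ x in 𝓝 y, H x = (jac f x).transpose * G (f x) * jac f x) (j l : Fin n) :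
    ricci H y j l = ∑ a, ∑ b, ricci G (f y) a b * jac f y a j * jac f y b l := by
  have hv : IsUnit (jac f y).det := isUnit_iff_ne_zero.2 hD
  have h1 : ∀ i, omM H i j y = ∑ r, ∑ q, (jac f y r i * jac f y q j) •
      ((jac f y)⁻¹ * (omM G r q (f y) * jac f y)) := by
    intro i
    have h := congrArg (fun X => (jac f y)⁻¹ * X) (omM_pull hf hG hs hd hD hH i j)
    simp only [← Matrix.mul_assoc, Matrix.nonsing_inv_mul _ hv, Matrix.one_mul] at h
    rw [h]
    simp only [Finset.mul_sum, Finset.sum_mul, Matrix.mul_smul, Matrix.smul_mul, Matrix.mul_assoc]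
  have h2 : ∀ (r : Fin n) (X : Mat n), ∑ i, jac f y r i * ((jac f y)⁻¹ * X) i l = X r l := by
    intro r X
    rw [← Matrix.mul_apply, ← Matrix.mul_assoc, Matrix.mul_nonsing_inv _ hv, Matrix.one_mul]
  simp only [ricci_eq, h1, Matrix.sum_apply, Matrix.smul_apply, smul_eq_mul]
  rw [Finset.sum_comm]
  have h3 : ∀ r, ∑ i, ∑ q, jac f y r i * jac f y q j *
      ((jac f y)⁻¹ * (omM G r q (f y) * jac f y)) i l =
      ∑ q, jac f y q j * (omM G r q (f y) * jac f y) r l := by
    intro r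
    rw [Finset.sum_comm]
    refine Finset.sum_congr rfl fun q _ => ?_
    rw [← h2 r (omM G r q (f y) * jac f y), Finset.mul_sum]
    exact Finset.sum_congr rfl fun i _ => by ring
  simp only [h3]
  rw [Finset.sum_comm]
  refine Finset.sum_congr rfl fun q _ => ?_
  simp only [Matrix.mul_apply, Finset.mul_sum, Finset.sum_mul]
  rw [Finset.sum_comm]
  exact Finset.sum_congr rfl fun b _ => Finset.sum_congr rfl fun r _ => by ring

end

end

end Pool.Agent.Work.MP_3a9764_gt
end

-- merged part: Pool.Agent.Work.MP_3a9764_gt.TSym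
section
/-! The symmetries of the curvature tensor. -/

set_option autoImplicit false

open scoped ContDiff Topology
open Filter

namespace Pool.Agent.Work.MP_3a9764_gt

noncomputable section

variable {n : ℕ}

namespace T

variable {G : Eu n → Mat n} {y : Eu n}

theorem pdM_symm (hs : ∀ᶠ x in 𝓝 y, (G x).IsSymm) (a i j : Fin n) :
    pdM a G y i j = pdM a G y j i :=
  pd_congr (hs.mono fun _ hx => (hx.apply j i)) a

theorem christoffel_symm (hs : ∀ᶠ x in 𝓝 y, (G x).IsSymm) (k i j : Fin n) :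
    christoffel G k i j y = christoffel G k j i y := by
  unfold christoffel
  congr 1
  refine Finset.sum_congr rfl fun l _ => ?_
  have h : pd l (fun x => G x i j) y = pd l (fun x => G x j i) y := pdM_symm hs l i j
  rw [h]; ring

theorem pdM_eq_lowM (hs : ∀ᶠ x in 𝓝 y, (G x).IsSymm) (a : Fin n) :
    pdM a G y = lowM G a y + (lowM G a y).transpose := by
  ext l j
  simp only [lowM, Matrix.add_apply, Matrix.transpose_apply]
  rw [pdM_symm hs a j l]; ring

theorem mul_gamM (hd : (G y).det ≠ 0) (a : Fin n) : G y * gamM G a y = lowM G a y := by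
  rw [gamM_eq, ← Matrix.mul_assoc, Matrix.mul_nonsing_inv _ (isUnit_iff_ne_zero.2 hd),
    Matrix.one_mul]

/-- The connection is compatible with the metric. -/
theorem pdM_metric (hs : ∀ᶠ x in 𝓝 y, (G x).IsSymm) (hd : (G y).det ≠ 0) (a : Fin n) :
    pdM a G y = G y * gamM G a y + (gamM G a y).transpose * G y := by
  rw [pdM_eq_lowM hs, ← mul_gamM hd, Matrix.transpose_mul, hs.self_of_nhds.eq]

theorem omM_skew (G : Eu n → Mat n) (i j : Fin n) (y : Eu n) : omM G j i y = -omM G i j y := by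
  rw [omM_eq, omM_eq]; abel

theorem mul_omM_skew (hG : CM 2 G y) (hs : ∀ᶠ x in 𝓝 y, (G x).IsSymm) (hd : (G y).det ≠ 0)
    (a b : Fin n) : (G y * omM G a b y).transpose = -(G y * omM G a b y) := by
  have hG1 : CM 1 G y := hG.of_le (by norm_num)
  have hΓ : ∀ c, CM 1 (gamM G c) y := fun c => hG.gamM hd (by norm_num) c
  have hev : ∀ c, pdM c G =ᶠ[𝓝 y] fun x => G x * gamM G c x + (gamM G c x).transpose * G x := by
    intro c
    filter_upwards [hs.eventually_nhds, hG.det_ne hd] with x h1 h2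
    exact pdM_metric h1 h2 c
  have e1 : ∀ c d, pdM c (pdM d G) y = pdM c G y * gamM G d y + G y * pdM c (gamM G d) y +
      ((pdM c (gamM G d) y).transpose * G y + (gamM G d y).transpose * pdM c G y) := by
    intro c d
    rw [pdM_congr (hev d) c, pdM_add (hG1.mul (hΓ d)) ((hΓ d).transpose.mul hG1),
      pdM_mul hG1 (hΓ d), pdM_mul (hΓ d).transpose hG1, pdM_transpose]
  have k := pdM_comm hG a b
  rw [e1, e1, pdM_metric hs hd a, pdM_metric hs hd b] at k
  rw [← sub_eq_zero] at k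
  rw [eq_neg_iff_add_eq_zero, ← k, omM_eq]
  simp only [Matrix.transpose_mul, Matrix.transpose_add, Matrix.transpose_sub,
    hs.self_of_nhds.eq]
  noncomm_ring

theorem riemUp_bianchi (hs : ∀ᶠ x in 𝓝 y, (G x).IsSymm) (m i j l : Fin n) :
    riemUp G m i j l y + riemUp G m j l i y + riemUp G m l i j y = 0 := by
  have h1 : ∀ a b c, pd a (christoffel G m b c) y = pd a (christoffel G m c b) y :=
    fun a b c => pd_congr (hs.eventually_nhds.mono fun _ hx => christoffel_symm hx m b c) a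
  simp only [riemUp, Finset.sum_sub_distrib]
  rw [h1 j l i, h1 l j i, h1 i l j]
  simp only [christoffel_symm hs _ l i, christoffel_symm hs _ j i, christoffel_symm hs _ l j]
  ring

end T

open T

theorem riem_skew (G : Eu n → Mat n) (y : Eu n) (i j k l : Fin n) :
    riem G y j i k l = -riem G y i j k l := by
  rw [riem_eq, riem_eq, omM_skew, Matrix.mul_neg, Matrix.neg_apply]

/-- The curvature tensor has the symmetries of an algebraic curvature tensor. -/
theorem isCurv_riem {G : Eu n → Mat n} {y : Eu n}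
    (hG : ∀ i j, ContDiffAt ℝ 2 (fun x => G x i j) y) (hs : ∀ᶠ x in 𝓝 y, (G x).IsSymm)
    (hd : (G y).det ≠ 0) : IsCurv (riem G y) := by
  have s1 := riem_skew G y
  have s2 : ∀ i j k l, riem G y i j l k = -riem G y i j k l := by
    intro i j k l
    have := congrFun (congrFun (mul_omM_skew hG hs hd i j) k) l
    rw [riem_eq, riem_eq]
    simpa only [Matrix.transpose_apply, Matrix.neg_apply] using this
  have b : ∀ i j k l, riem G y i j k l + riem G y j k i l + riem G y k i j l = 0 := by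
    intro i j k l
    have h : riem G y i j l k + riem G y j k l i + riem G y k i l j = 0 := by
      simp only [riem, ← Finset.sum_add_distrib, ← mul_add, riemUp_bianchi hs, mul_zero,
        Finset.sum_const_zero]
    rw [s2 i j k l, s2 j k i l, s2 k i j l] at h
    linarith
  refine ⟨s1, fun i j k l => ?_, b⟩
  have b1 := b i j k l
  have b2 := b j k l i
  have b3 := b k l i j
  have b4 := b l i j k
  have := s1 i k j l
  have := s1 i l j k
  have := s1 j l k i
  have := s1 j l i k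
  have := s2 i j k l
  have := s2 j k i l
  have := s2 k i j l
  have := s2 k l i j
  have := s2 l i j k
  have := s2 l j i k
  have := s2 j l i k
  have := s2 i k j l
  have := s1 i l k j
  have := s1 i k l j
  linarith

theorem ricci_eq_riem {G : Eu n → Mat n} {y : Eu n} (hd : (G y).det ≠ 0) (j l : Fin n) :
    ricci G y j l = ∑ i, ∑ k, (G y)⁻¹ i k * riem G y i j k l := by
  rw [ricci_eq]
  refine Finset.sum_congr rfl fun i _ => ?_
  simp only [riem_eq]
  rw [← Matrix.mul_apply, ← Matrix.mul_assoc,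
    Matrix.nonsing_inv_mul _ (isUnit_iff_ne_zero.2 hd), Matrix.one_mul]

end

end Pool.Agent.Work.MP_3a9764_gt
end

-- merged part: Pool.Agent.Work.MP_3a9764_gt.TGlue
section
/-! Pull-backs of a metric under maps from Euclidean space, and the sets `vals`. -/

set_option autoImplicit false

open scoped Manifold ContDiff Topology
open Filter

namespace Pool.Agent.Work.MP_3a9764_gt

noncomputable section

open T

variable {n : ℕ}

namespace T

theorem sum_rot3 (X : Fin n → Fin n → Fin n → ℝ) :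
    ∑ a, ∑ b, ∑ c, X a b c = ∑ b, ∑ c, ∑ a, X a b c := by
  rw [Finset.sum_comm]
  exact Finset.sum_congr rfl fun _ _ => Finset.sum_comm

theorem sum_rot4 (X : Fin n → Fin n → Fin n → Fin n → ℝ) :
    ∑ a, ∑ b, ∑ c, ∑ d, X a b c d = ∑ b, ∑ c, ∑ d, ∑ a, X a b c d := by
  rw [Finset.sum_comm]
  exact Finset.sum_congr rfl fun b _ => sum_rot3 fun a c d => X a b c d

theorem ev4_rot (R : T4 n) (a b c d : Fin n → ℝ) :
    ev4 R a b c d = ev4 (fun j k l i => R i j k l) b c d a := by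
  unfold ev4
  rw [sum_rot4]
  exact Finset.sum_congr rfl fun _ _ => Finset.sum_congr rfl fun _ _ =>
    Finset.sum_congr rfl fun _ _ => Finset.sum_congr rfl fun _ _ => by ring

theorem ev4_last (R : T4 n) (P : Mat n) (a b c d : Fin n → ℝ) :
    ev4 (fun i j k l => ∑ s, R i j k s * P s l) a b c d = ev4 R a b c (P.mulVec d) := by
  unfold ev4
  refine Finset.sum_congr rfl fun i _ => Finset.sum_congr rfl fun j _ =>
    Finset.sum_congr rfl fun k _ => ?_
  simp only [Matrix.mulVec, dotProduct, Finset.sum_mul, Finset.mul_sum]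
  rw [Finset.sum_comm]
  exact Finset.sum_congr rfl fun _ _ => Finset.sum_congr rfl fun _ _ => by ring

/-- Change of frame in the last slot, followed by a rotation of the slots. -/
def stp (P : Mat n) (R : T4 n) : T4 n := fun l i j k => ∑ s, R i j k s * P s l

theorem ev4_stp (R : T4 n) (P : Mat n) (a b c d : Fin n → ℝ) :
    ev4 (stp P R) d a b c = ev4 R a b c (P.mulVec d) := by
  rw [ev4_rot, ← ev4_last]; rfl

theorem act_eq_stp (R : T4 n) (P : Mat n) : act R P = stp P (stp P (stp P (stp P R))) := by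
  funext i j k l
  simp only [act, ev4, stp, Finset.sum_mul]
  exact Finset.sum_congr rfl fun _ _ => Finset.sum_congr rfl fun _ _ =>
    Finset.sum_congr rfl fun _ _ => Finset.sum_congr rfl fun _ _ => by ring

end T

theorem ev4_act (R : T4 n) (P : Mat n) (a b c d : Fin n → ℝ) :
    ev4 (act R P) a b c d = ev4 R (P.mulVec a) (P.mulVec b) (P.mulVec c) (P.mulVec d) := by
  rw [act_eq_stp, ev4_stp, ev4_stp, ev4_stp, ev4_stp]

theorem act_act (R : T4 n) (P Q : Mat n) : act (act R P) Q = act R (P * Q) := by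
  funext i j k l
  exact ev4_act R P _ _ _ _

theorem act_one (R : T4 n) : act R 1 = R := by
  funext i j k l
  simp [act, ev4, Matrix.one_apply]

theorem act_add (R S : T4 n) (P : Mat n) : act (R + S) P = act R P + act S P := by
  funext i j k l
  simp only [act, ev4, Pi.add_apply, add_mul, Finset.sum_add_distrib]

theorem act_smul (c : ℝ) (R : T4 n) (P : Mat n) : act (c • R) P = c • act R P := by
  funext i j k l
  simp only [act, ev4, Pi.smul_apply, smul_eq_mul, Finset.mul_sum, mul_assoc]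

theorem IsCurv.act {R : T4 n} (hR : IsCurv R) (P : Mat n) : IsCurv (act R P) := by
  have swap : ∀ a b c d : Fin n → ℝ, ev4 R b a c d = ev4 (fun i j k l => R j i k l) a b c d := by
    intro a b c d
    unfold ev4
    rw [Finset.sum_comm]
    exact Finset.sum_congr rfl fun _ _ => Finset.sum_congr rfl fun _ _ =>
      Finset.sum_congr rfl fun _ _ => Finset.sum_congr rfl fun _ _ => by ring
  have cyc : ∀ (S : T4 n) (a b c d : Fin n → ℝ),
      ev4 S b c a d = ev4 (fun i j k l => S j k i l) a b c d := by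
    intro S a b c d
    unfold ev4
    rw [sum_rot3 fun i j k => ∑ l, S j k i l * a i * b j * c k * d l]
    exact Finset.sum_congr rfl fun _ _ => Finset.sum_congr rfl fun _ _ =>
      Finset.sum_congr rfl fun _ _ => Finset.sum_congr rfl fun _ _ => by ring
  refine ⟨fun i j k l => ?_, fun i j k l => ?_, fun i j k l => ?_⟩
  · unfold Pool.Agent.Work.MP_3a9764_gt.act
    have h : (fun i j k l => R j i k l) = fun i j k l => -R i j k l := by
      funext i j k l; exact hR.skew i j k l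
    rw [swap, h]
    simp only [ev4, neg_mul, Finset.sum_neg_distrib]
  · unfold Pool.Agent.Work.MP_3a9764_gt.act
    have h : (fun k l i j => R i j k l) = R := by
      funext k l i j; exact hR.pair k l i j
    rw [ev4_rot, ev4_rot, h]
  · unfold Pool.Agent.Work.MP_3a9764_gt.act
    rw [cyc R (fun a => P a j) (fun a => P a k) (fun a => P a i),
      cyc _ (fun a => P a i) (fun a => P a j) (fun a => P a k),
      cyc _ (fun a => P a i) (fun a => P a j) (fun a => P a k)]
    simp only [ev4, ← Finset.sum_add_distrib, ← add_mul, hR.bianchi, zero_mul,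
      Finset.sum_const_zero]

section

variable {M : Type} [TopologicalSpace M] [ChartedSpace (Eu n) M]

/-- The bilinear form of `g` at `x`, on Euclidean space. -/
def bil (g : Bil n M) (x : M) : Eu n →L[ℝ] Eu n →L[ℝ] ℝ := g x

/-- The differential of `F`, as a map of Euclidean space. -/
def dif (F : Eu n → M) (y : Eu n) : Eu n →L[ℝ] Eu n := mfderiv 𝓘(ℝ, Eu n) 𝓘(ℝ, Eu n) F y

theorem pull_eq (g : Bil n M) (F : Eu n → M) (y : Eu n) (i j : Fin n) :
    pull g F y i j = bil g (F y) (dif F y (EuclideanSpace.single i 1))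
      (dif F y (EuclideanSpace.single j 1)) := rfl

theorem pull_congr (g : Bil n M) {F F' : Eu n → M} {y : Eu n} (h : F =ᶠ[𝓝 y] F') :
    pull g F y = pull g F' y := by
  ext i j
  have h1 : dif F y = dif F' y := h.mfderiv_eq
  rw [pull_eq, pull_eq, h1, h.eq_of_nhds]

theorem pull_comp (g : Bil n M) {F : Eu n → M} {f : Eu n → Eu n} {y : Eu n}
    (hF : MDifferentiableAt 𝓘(ℝ, Eu n) 𝓘(ℝ, Eu n) F (f y)) (hf : DifferentiableAt ℝ f y) :
    pull g (F ∘ f) y = (jac f y).transpose * pull g F (f y) * jac f y := by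
  ext i j
  have h1 : dif (F ∘ f) y = (dif F (f y)).comp (fderiv ℝ f y) := by
    unfold dif
    rw [mfderiv_comp y hF hf.mdifferentiableAt, mfderiv_eq_fderiv]
    rfl
  rw [pull_eq, h1]
  simp only [ContinuousLinearMap.comp_apply, fderiv_single hf, map_sum, map_smul,
    Matrix.mul_apply, Matrix.transpose_apply, pull_eq, Finset.sum_mul, smul_eq_mul,
    sum_apply, smul_apply, Function.comp_apply,
    Finset.mul_sum]
  exact Finset.sum_congr rfl fun _ _ => Finset.sum_congr rfl fun _ _ => by ring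

theorem pull_isSymm {g : Bil n M} (hs : ∀ x v w, g x v w = g x w v) (F : Eu n → M) (y : Eu n) :
    (pull g F y).IsSymm := by
  ext i j
  exact hs _ _ _

theorem pull_quad (g : Bil n M) (F : Eu n → M) (y : Eu n) (v w : Eu n) :
    ∑ i, ∑ j, pull g F y i j * v i * w j = bil g (F y) (dif F y v) (dif F y w) := by
  have hv : ∀ u : Eu n, u = ∑ i, u i • (EuclideanSpace.single i (1 : ℝ) : Eu n) := by
    intro u; ext k
    simp [Pi.single_apply, Finset.sum_apply]
  conv_rhs => rw [hv v, hv w]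
  simp only [map_sum, map_smul, pull_eq, smul_eq_mul, sum_apply,
    smul_apply, Finset.mul_sum]
  rw [Finset.sum_comm]
  exact Finset.sum_congr rfl fun _ _ => Finset.sum_congr rfl fun _ _ => by ring

theorem pull_posDef {g : Bil n M} (hs : ∀ x v w, g x v w = g x w v)
    (hp : ∀ x v, v ≠ 0 → 0 < g x v v) {F : Eu n → M} {y : Eu n}
    (hF : Function.Injective (dif F y)) : (pull g F y).PosDef := by
  refine Matrix.PosDef.of_dotProduct_mulVec_pos ?_ fun v hv => ?_
  · exact (Matrix.isHermitian_iff_isSymm).2 (pull_isSymm hs F y)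
  · have h1 := pull_quad g F y (WithLp.toLp 2 v) (WithLp.toLp 2 v)
    have h2 : dif F y (WithLp.toLp 2 v) ≠ 0 := by
      intro h
      apply hv
      have := hF (h.trans (map_zero _).symm)
      simpa using this
    have h3 : 0 < bil g (F y) (dif F y (WithLp.toLp 2 v)) (dif F y (WithLp.toLp 2 v)) :=
      hp _ _ h2
    rw [← h1] at h3
    simp only [star_trivial, dotProduct, Matrix.mulVec, Finset.mul_sum]
    refine h3.trans_eq (Finset.sum_congr rfl fun _ _ => Finset.sum_congr rfl fun _ _ => ?_)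
    ring

/-- A smooth Riemannian metric. -/
structure IsMetric (g : Bil n M) : Prop where
  symm : ∀ x v w, g x v w = g x w v
  pos : ∀ x v, v ≠ 0 → 0 < g x v v
  smooth : ∀ x, ∀ y ∈ (chartAt (Eu n) x).target, CM ∞ (coef g x) y

theorem IsRicciFlow.isMetric {J : Set ℝ} {g : ℝ → Bil n M} (hg : IsRicciFlow J g) {t : ℝ}
    (ht : t ∈ J) : IsMetric (g t) := by
  refine ⟨hg.symm t ht, hg.pos t ht, fun x y hy i j => ?_⟩
  have h1 : ContDiffOn ℝ ∞ (fun z => coef (g t) x z i j) (chartAt (Eu n) x).target :=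
    (hg.smooth x i j).comp (f := fun z : Eu n => (t, z)) (by fun_prop) fun z hz => ⟨ht, hz⟩
  exact h1.contDiffAt ((chartAt (Eu n) x).open_target.mem_nhds hy)

theorem ctr_mem (x : M) : ctr n x ∈ (chartAt (Eu n) x).target := mem_chart_target _ x

variable [IsManifold 𝓘(ℝ, Eu n) ∞ M]

theorem dif_chart_injective (x : M) {y : Eu n} (hy : y ∈ (chartAt (Eu n) x).target) :
    Function.Injective (dif (chartAt (Eu n) x).symm y) :=
  haveI : IsManifold 𝓘(ℝ, Eu n) 1 M := IsManifold.of_le (n := ∞) (by simp)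
  (mdifferentiable_chart (I := 𝓘(ℝ, Eu n)) x).symm.mfderiv_injective hy

theorem IsMetric.posDef {g : Bil n M} (hg : IsMetric g) (x : M) {y : Eu n}
    (hy : y ∈ (chartAt (Eu n) x).target) : (coef g x y).PosDef :=
  pull_posDef hg.symm hg.pos (dif_chart_injective x hy)

omit [IsManifold 𝓘(ℝ, Eu n) ∞ M] in
theorem IsMetric.isSymm {g : Bil n M} (hg : IsMetric g) (x : M) (y : Eu n) :
    (coef g x y).IsSymm := pull_isSymm hg.symm _ y

theorem IsMetric.det_ne {g : Bil n M} (hg : IsMetric g) (x : M) {y : Eu n}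
    (hy : y ∈ (chartAt (Eu n) x).target) : (coef g x y).det ≠ 0 := (hg.posDef x hy).det_pos.ne'

theorem IsMetric.isCurv {g : Bil n M} (hg : IsMetric g) (x : M) {y : Eu n}
    (hy : y ∈ (chartAt (Eu n) x).target) : IsCurv (riem (coef g x) y) :=
  isCurv_riem ((hg.smooth x y hy).of_le (by norm_cast)) (.of_forall (hg.isSymm x))
    (hg.det_ne x hy)

theorem contMDiffAt_chart_symm (x : M) {y : Eu n} (hy : y ∈ (chartAt (Eu n) x).target) :
    ContMDiffAt 𝓘(ℝ, Eu n) 𝓘(ℝ, Eu n) ∞ (chartAt (Eu n) x).symm y :=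
  (contMDiffOn_chart_symm (n := ∞)).contMDiffAt ((chartAt (Eu n) x).open_target.mem_nhds hy)

theorem contDiffAt_chart_comp {m : WithTop ℕ∞} (hm : m ≤ ∞) {F : Eu n → M} {y : Eu n}
    (hF : ContMDiffAt 𝓘(ℝ, Eu n) 𝓘(ℝ, Eu n) m F y) {x : M}
    (hx : F y ∈ (chartAt (Eu n) x).source) : ContDiffAt ℝ m (chartAt (Eu n) x ∘ F) y := by
  have h1 : ContMDiffAt 𝓘(ℝ, Eu n) 𝓘(ℝ, Eu n) ∞ (chartAt (Eu n) x) (F y) :=
    (contMDiffOn_chart (n := ∞)).contMDiffAt ((chartAt (Eu n) x).open_source.mem_nhds hx)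
  exact ((h1.of_le hm).comp y hF).contDiffAt

/-- A pull-back, written through a chart. -/
theorem pull_chart {F : Eu n → M} {y : Eu n} (hF : ContMDiffAt 𝓘(ℝ, Eu n) 𝓘(ℝ, Eu n) 1 F y)
    {x : M} (hx : F y ∈ (chartAt (Eu n) x).source) :
    ∀ᶠ z in 𝓝 y, ∀ g : Bil n M, pull g F z = (jac (chartAt (Eu n) x ∘ F) z).transpose *
      coef g x ((chartAt (Eu n) x ∘ F) z) * jac (chartAt (Eu n) x ∘ F) z := by
  have h1 : ∀ᶠ z in 𝓝 y, F z ∈ (chartAt (Eu n) x).source :=
    hF.continuousAt.eventually ((chartAt (Eu n) x).open_source.mem_nhds hx)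
  have h2 := (contDiffAt_chart_comp (by simp) hF hx).eventually (by simp)
  filter_upwards [h1.eventually_nhds, h2] with z hz1 hz2 g
  have h3 : F =ᶠ[𝓝 z] (chartAt (Eu n) x).symm ∘ (chartAt (Eu n) x ∘ F) :=
    hz1.mono fun w hw => ((chartAt (Eu n) x).left_inv hw).symm
  rw [pull_congr g h3]
  exact pull_comp g ((contMDiffAt_chart_symm x
    ((chartAt (Eu n) x).map_source hz1.self_of_nhds)).mdifferentiableAt (by simp))
    (hz2.differentiableAt (by simp))

theorem det_jac_ne {g : Bil n M} {F : Eu n → M} {y : Eu n}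
    (hF : ContMDiffAt 𝓘(ℝ, Eu n) 𝓘(ℝ, Eu n) 1 F y) {x : M}
    (hx : F y ∈ (chartAt (Eu n) x).source) (hd : (pull g F y).det ≠ 0) :
    (jac (chartAt (Eu n) x ∘ F) y).det ≠ 0 := by
  rw [(pull_chart hF hx).self_of_nhds g, Matrix.det_mul] at hd
  exact right_ne_zero_of_mul hd

theorem IsMetric.cm_pull {g : Bil n M} (hg : IsMetric g) {m k : WithTop ℕ∞} (hm : m + 1 ≤ k)
    (hk : k ≤ ∞) {F : Eu n → M} {y : Eu n} (hF : ContMDiffAt 𝓘(ℝ, Eu n) 𝓘(ℝ, Eu n) k F y) :
    CM m (pull g F) y := by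
  have hx : F y ∈ (chartAt (Eu n) (F y)).source := mem_chart_source _ _
  have hf := contDiffAt_chart_comp hk hF hx
  have hD : CM m (jac (chartAt (Eu n) (F y) ∘ F)) y := CM.jac hf hm
  have hmk : m ≤ k := le_trans le_self_add hm
  have hG : CM m (coef g (F y)) ((chartAt (Eu n) (F y) ∘ F) y) :=
    (hg.smooth (F y) _ (mem_chart_target _ _)).of_le (hmk.trans hk)
  exact ((hD.transpose.mul (hG.comp (hf.of_le hmk))).mul hD).congr
    ((pull_chart (hF.of_le (le_trans le_add_self hm)) hx).mono fun z hz => hz g)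

theorem IsMetric.riem_pull {g : Bil n M} (hg : IsMetric g) {F : Eu n → M} {y : Eu n}
    (hF : ContMDiffAt 𝓘(ℝ, Eu n) 𝓘(ℝ, Eu n) 3 F y) (hd : (pull g F y).det ≠ 0) {x : M}
    (hx : F y ∈ (chartAt (Eu n) x).source) :
    riem (pull g F) y = act (riem (coef g x) (chartAt (Eu n) x (F y)))
      (jac (chartAt (Eu n) x ∘ F) y) := by
  have hF1 := hF.of_le (m := 1) (by norm_num)
  have ht := (chartAt (Eu n) x).map_source hx
  exact riem_pullback (f := chartAt (Eu n) x ∘ F) (contDiffAt_chart_comp (by norm_cast) hF hx)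
    ((hg.smooth x _ ht).of_le (by norm_cast)) (.of_forall (hg.isSymm x)) (hg.det_ne x ht)
    (det_jac_ne hF1 hx hd) ((pull_chart hF1 hx).mono fun z hz => hz g)

theorem IsMetric.ricci_pull {g : Bil n M} (hg : IsMetric g) {F : Eu n → M} {y : Eu n}
    (hF : ContMDiffAt 𝓘(ℝ, Eu n) 𝓘(ℝ, Eu n) 3 F y) (hd : (pull g F y).det ≠ 0) {x : M}
    (hx : F y ∈ (chartAt (Eu n) x).source) (j l : Fin n) :
    ricci (pull g F) y j l = ∑ a, ∑ b, ricci (coef g x) (chartAt (Eu n) x (F y)) a b *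
      jac (chartAt (Eu n) x ∘ F) y a j * jac (chartAt (Eu n) x ∘ F) y b l := by
  have hF1 := hF.of_le (m := 1) (by norm_num)
  have ht := (chartAt (Eu n) x).map_source hx
  exact ricci_pullback (f := chartAt (Eu n) x ∘ F) (contDiffAt_chart_comp (by norm_cast) hF hx)
    ((hg.smooth x _ ht).of_le (by norm_cast)) (.of_forall (hg.isSymm x)) (hg.det_ne x ht)
    (det_jac_ne hF1 hx hd) ((pull_chart hF1 hx).mono fun z hz => hz g) j l

theorem det_ne_of_frame {A P : Mat n} (h : P.transpose * A * P = 1) : A.det ≠ 0 := by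
  have h1 := congrArg Matrix.det h
  rw [Matrix.det_mul, Matrix.det_mul, Matrix.det_one] at h1
  intro h0
  rw [h0] at h1
  simp at h1

/-- The curvature of a pull-back in an orthonormal frame is a value of the curvature. -/
theorem IsMetric.pull_mem_vals {g : Bil n M} (hg : IsMetric g) {F : Eu n → M} {y : Eu n}
    (hF : ContMDiffAt 𝓘(ℝ, Eu n) 𝓘(ℝ, Eu n) 3 F y) {P : Mat n}
    (hP : P.transpose * pull g F y * P = 1) : act (riem (pull g F) y) P ∈ vals g := by
  have hx : F y ∈ (chartAt (Eu n) (F y)).source := mem_chart_source _ _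
  refine ⟨F y, jac (chartAt (Eu n) (F y) ∘ F) y * P, ?_, ?_⟩
  · rw [(pull_chart (hF.of_le (by norm_num)) hx).self_of_nhds g] at hP
    rw [← hP, Matrix.transpose_mul]
    simp only [Matrix.mul_assoc]
    rfl
  · rw [hg.riem_pull hF (det_ne_of_frame hP) hx, act_act]
    rfl

theorem IsMetric.coef_mem_vals {g : Bil n M} (hg : IsMetric g) (x : M) {y : Eu n}
    (hy : y ∈ (chartAt (Eu n) x).target) {P : Mat n} (hP : P.transpose * coef g x y * P = 1) :
    act (riem (coef g x) y) P ∈ vals g :=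
  hg.pull_mem_vals ((contMDiffAt_chart_symm x hy).of_le (by norm_cast)) hP

/-- The values at a point can be read in any chart around it. -/
theorem IsMetric.exists_frame_chart {g : Bil n M} (hg : IsMetric g) {x : M} {P : Mat n}
    (hP : P.transpose * coef g x (ctr n x) * P = 1) {x₀ : M}
    (hx : x ∈ (chartAt (Eu n) x₀).source) :
    ∃ P' : Mat n, P'.transpose * coef g x₀ (chartAt (Eu n) x₀ x) * P' = 1 ∧
      act (riem (coef g x) (ctr n x)) P = act (riem (coef g x₀) (chartAt (Eu n) x₀ x)) P' := by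
  have hF := contMDiffAt_chart_symm x (ctr_mem (n := n) x)
  have h0 : (chartAt (Eu n) x).symm (ctr n x) = x :=
    (chartAt (Eu n) x).left_inv (mem_chart_source _ x)
  have hx' : (chartAt (Eu n) x).symm (ctr n x) ∈ (chartAt (Eu n) x₀).source := by rwa [h0]
  refine ⟨jac (chartAt (Eu n) x₀ ∘ (chartAt (Eu n) x).symm) (ctr n x) * P, ?_, ?_⟩
  · have h1 := (pull_chart (hF.of_le (by norm_cast)) hx').self_of_nhds g
    rw [Function.comp_apply, h0] at h1
    rw [coef, h1] at hP
    rw [← hP, Matrix.transpose_mul]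
    simp only [Matrix.mul_assoc]
  · have h1 := hg.riem_pull (hF.of_le (by norm_cast)) (det_ne_of_frame hP) hx'
    rw [h0] at h1
    rw [coef, h1, act_act]

theorem IsMetric.mem_vals_iff {g : Bil n M} (hg : IsMetric g) {S : Set M} {K : M → Set M}
    (hK : ∀ x₀ ∈ S, K x₀ ⊆ (chartAt (Eu n) x₀).source) (hcov : ∀ x, ∃ x₀ ∈ S, x ∈ K x₀)
    {R : T4 n} : R ∈ vals g ↔ ∃ x₀ ∈ S, ∃ x ∈ K x₀, ∃ P : Mat n,
      P.transpose * coef g x₀ (chartAt (Eu n) x₀ x) * P = 1 ∧
        R = act (riem (coef g x₀) (chartAt (Eu n) x₀ x)) P := by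
  constructor
  · rintro ⟨x, P, hP, rfl⟩
    obtain ⟨x₀, h0, hx⟩ := hcov x
    exact ⟨x₀, h0, x, hx, hg.exists_frame_chart hP (hK x₀ h0 hx)⟩
  · rintro ⟨x₀, h0, x, hx, P, hP, rfl⟩
    exact hg.coef_mem_vals x₀ ((chartAt (Eu n) x₀).map_source (hK x₀ h0 hx)) hP

theorem IsMetric.vals_isCurv {g : Bil n M} (hg : IsMetric g) {R : T4 n} (hR : R ∈ vals g) :
    IsCurv R := by
  obtain ⟨x, P, -, rfl⟩ := hR
  exact (hg.isCurv x (ctr_mem x)).act P

omit [IsManifold 𝓘(ℝ, Eu n) ∞ M] in
theorem vals_orth {g : Bil n M} {R : T4 n} (hR : R ∈ vals g) {Q : Mat n}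
    (hQ : Q.transpose * Q = 1) : act R Q ∈ vals g := by
  obtain ⟨x, P, hP, rfl⟩ := hR
  refine ⟨x, P * Q, ?_, act_act _ _ _⟩
  rw [Matrix.transpose_mul, Matrix.mul_assoc, Matrix.mul_assoc, ← Matrix.mul_assoc _ P Q,
    ← Matrix.mul_assoc P.transpose, ← Matrix.mul_assoc P.transpose, hP, Matrix.one_mul, hQ]

omit [IsManifold 𝓘(ℝ, Eu n) ∞ M] in
theorem pic_vals' {g : Bil n M} (hg : HasPIC g) {R : T4 n} (hR : R ∈ vals g)
    {e : Fin 4 → Fin n → ℝ} (he : ON4 e) : 0 < iso4 R e := by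
  obtain ⟨x, P, hP, rfl⟩ := hR
  simp only [iso4, ev4_act]
  refine hg x (fun a => P.mulVec (e a)) fun a b => ?_
  rw [← he a b]
  have h1 : ∑ i, e a i * e b i = e a ⬝ᵥ (P.transpose * coef g x (ctr n x) * P).mulVec (e b) := by
    rw [hP, Matrix.one_mulVec]; rfl
  rw [h1, ← Matrix.mulVec_mulVec, ← Matrix.mulVec_mulVec, Matrix.dotProduct_mulVec,
    Matrix.vecMul_transpose]
  generalize P.mulVec (e a) = u
  generalize P.mulVec (e b) = v
  simp only [dotProduct, Matrix.mulVec, Finset.mul_sum]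
  exact Finset.sum_congr rfl fun _ _ => Finset.sum_congr rfl fun _ _ => by ring

/-- A pull-back of a Ricci flow solves the Ricci flow. -/
theorem IsRicciFlow.flow_pull {J : Set ℝ} {g : ℝ → Bil n M} (hg : IsRicciFlow J g) {t : ℝ}
    (ht : t ∈ J) {F : Eu n → M} {y : Eu n} (hF : ContMDiffAt 𝓘(ℝ, Eu n) 𝓘(ℝ, Eu n) 3 F y)
    (hd : (pull (g t) F y).det ≠ 0) (i j : Fin n) :
    HasDerivWithinAt (fun s => pull (g s) F y i j) (-2 * ricci (pull (g t) F) y i j) J t := by
  have hx : F y ∈ (chartAt (Eu n) (F y)).source := mem_chart_source _ _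
  have h1 := (pull_chart (hF.of_le (by norm_num)) hx).self_of_nhds
  rw [(hg.isMetric ht).ricci_pull hF hd hx]
  simp only [h1, Matrix.mul_apply, Matrix.transpose_apply, Finset.sum_mul, Finset.mul_sum]
  rw [Finset.sum_comm]
  refine HasDerivWithinAt.fun_sum fun b _ => HasDerivWithinAt.fun_sum fun a _ => ?_
  have h2 := ((hg.flow (F y) a b t ht _ (mem_chart_target _ (F y))).const_mul
    (jac (chartAt (Eu n) (F y) ∘ F) y a i)).mul_const (jac (chartAt (Eu n) (F y) ∘ F) y b j)
  refine HasDerivWithinAt.congr_deriv h2 ?_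
  ring

end

end

end Pool.Agent.Work.MP_3a9764_gt
end

-- merged part: Pool.Agent.Work.MP_3a9764_gt.EvQuad
section
/-! The quadratic identity behind the evolution equation of the curvature tensor; `h a b c d` is
the second derivative of the coefficient `a b` of the metric in the directions `c`, `d`. -/

set_option autoImplicit false

namespace Pool.Agent.Work.MP_3a9764_gt.Ev

noncomputable section

variable {n : ℕ}

/-- First derivatives of the Christoffel symbols. -/
def gam (h : T4 n) (k i j c : Fin n) : ℝ := 1 / 2 * (h j k c i + h i k c j - h i j c k)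

/-- The curvature tensor. -/
def cur (h : T4 n) : T4 n := fun i j k l => gam h k j l i - gam h k i l j

/-- Second derivatives of the part of the curvature that is quadratic in the symbols. -/
def nn1 (h : T4 n) (i j k l c d m : Fin n) : ℝ :=
  gam h m j k c * gam h m i l d + gam h m j k d * gam h m i l c -
    gam h m i k c * gam h m j l d - gam h m i k d * gam h m j l c

/-- The quadratic part of the second derivatives of the Ricci tensor. -/
def rq1 (h : T4 n) (x y c d a b : Fin n) : ℝ := nn1 h a x a y c d b - h a b c d * cur h a x b y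

/-- The heat operator applied to the frame. -/
def bb1 (h : T4 n) (a i m : Fin n) : ℝ := cur h m a m i + gam h a m i m

theorem sum_skew (F : Fin n → Fin n → ℝ) (hF : ∀ p q, F p q + F q p = 0) :
    ∑ p, ∑ q, F p q = 0 := by
  have : ∑ p, ∑ q, F p q + ∑ p, ∑ q, F p q = 0 := by
    nth_rewrite 2 [Finset.sum_comm]
    simp only [← Finset.sum_add_distrib, hF, Finset.sum_const_zero]
  linarith

theorem quad (h : T4 n) (h1 : ∀ a b c d, h a b c d = h b a c d)
    (h2 : ∀ a b c d, h a b c d = h a b d c) (i j k l : Fin n) :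
    -((∑ a, ∑ b, rq1 h j k i l a b) - (∑ a, ∑ b, rq1 h j l i k a b) -
        (∑ a, ∑ b, rq1 h i k j l a b) + ∑ a, ∑ b, rq1 h i l j k a b) -
      (∑ m, ∑ b, nn1 h i j k l m m b) +
      ∑ a, ((∑ m, bb1 h a i m) * cur h a j k l + (∑ m, bb1 h a j m) * cur h i a k l +
        (∑ m, bb1 h a k m) * cur h i j a l + (∑ m, bb1 h a l m) * cur h i j k a) =
      2 * Qq4 (cur h) i j k l := by
  rw [← sub_eq_zero]
  simp only [Qq4, Finset.sum_mul, Finset.mul_sum, ← Finset.sum_add_distrib,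
    ← Finset.sum_sub_distrib, ← Finset.sum_neg_distrib]
  refine sum_skew _ fun p q => ?_
  simp only [rq1, nn1, bb1, cur, gam]
  simp only [h1, h2]
  ring

end

end Pool.Agent.Work.MP_3a9764_gt.Ev
end

-- merged part: Pool.Agent.Work.MP_3a9764_gt.EvCalc
section
/-! The evolution of curvature in a commutative ring with commuting derivations. -/

set_option autoImplicit false

namespace Pool.Agent.Work.MP_3a9764_gt.Ev

noncomputable section

/-- A ring of functions with evaluation at a point, constants, space and time derivatives. -/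
structure Calc (n : ℕ) (A : Type) [CommRing A] where
  ev : A →+* ℝ
  C : ℝ →+* A
  D : Fin n → A →+ A
  T : A →+ A
  evC : ∀ r, ev (C r) = r
  DC : ∀ i r, D i (C r) = 0
  TC : ∀ r, T (C r) = 0
  Dmul : ∀ i x y, D i (x * y) = D i x * y + x * D i y
  Tmul : ∀ x y, T (x * y) = T x * y + x * T y
  DD : ∀ i j x, D i (D j x) = D j (D i x)
  TD : ∀ i x, T (D i x) = D i (T x)

namespace Calc

variable {n : ℕ} {A : Type} [CommRing A] (K : Calc n A) (g gi : Fin n → Fin n → A)

/-- Christoffel symbols of the first kind. -/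
def lo (k i j : Fin n) : A := K.C (1 / 2) * (K.D i (g j k) + K.D j (g i k) - K.D k (g i j))

/-- Christoffel symbols of the second kind. -/
def chr (k i j : Fin n) : A :=
  K.C (1 / 2) * ∑ l, gi k l * (K.D i (g j l) + K.D j (g i l) - K.D l (g i j))

/-- The curvature tensor with one upper index. -/
def rup (m i j l : Fin n) : A := K.D i (K.chr g gi m j l) - K.D j (K.chr g gi m i l) +
  ∑ p, (K.chr g gi m i p * K.chr g gi p j l - K.chr g gi m j p * K.chr g gi p i l)

/-- The curvature tensor. -/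
def rm (i j k l : Fin n) : A := ∑ m, g k m * K.rup g gi m i j l

/-- The Ricci tensor. -/
def ric (j l : Fin n) : A := ∑ i, K.rup g gi i i j l

/-- The linear part of the curvature tensor. -/
def lin (i j k l : Fin n) : A := K.D i (K.lo g k j l) - K.D j (K.lo g k i l)

/-- The heat operator at the point. -/
def tau (x : A) : ℝ := K.ev (K.T x) - ∑ m, K.ev (K.D m (K.D m x))

/-- The second derivatives of the metric at the point. -/
def hh : T4 n := fun a b c d => K.ev (K.D c (K.D d (g a b)))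

/-- A solution of the Ricci flow in normal coordinates. -/
structure Met : Prop where
  sym : ∀ i j, g i j = g j i
  inv : ∀ i j, ∑ k, g i k * gi k j = if i = j then 1 else 0
  inv' : ∀ i j, ∑ k, gi i k * g k j = if i = j then 1 else 0
  ev0 : ∀ i j, K.ev (g i j) = if i = j then 1 else 0
  ev1 : ∀ m i j, K.ev (K.D m (g i j)) = 0
  fl0 : ∀ i j, K.ev (K.T (g i j)) = -2 * K.ev (K.ric g gi i j)
  fl2 : ∀ c d i j, K.ev (K.D c (K.D d (K.T (g i j)))) = -2 * K.ev (K.D c (K.D d (K.ric g gi i j)))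

theorem D_ite (m : Fin n) (p : Prop) [Decidable p] : K.D m (if p then 1 else 0) = 0 := by
  split_ifs
  · simpa using K.DC m 1
  · simp

theorem T_ite (p : Prop) [Decidable p] : K.T (if p then 1 else 0) = 0 := by
  split_ifs
  · simpa using K.TC 1
  · simp

theorem tau_add (x y : A) : K.tau (x + y) = K.tau x + K.tau y := by
  simp only [tau, map_add, Finset.sum_add_distrib]; ring

theorem tau_sum {ι : Type} (s : Finset ι) (x : ι → A) :
    K.tau (∑ a ∈ s, x a) = ∑ a ∈ s, K.tau (x a) := by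
  simp only [tau, map_sum, Finset.sum_sub_distrib]
  rw [Finset.sum_comm]

theorem tau_mul (x : A) {y : A} (hy : ∀ m, K.ev (K.D m y) = 0) :
    K.tau (x * y) = K.tau x * K.ev y + K.ev x * K.tau y := by
  simp only [tau, K.Tmul, K.Dmul, map_add, map_mul, hy, mul_zero, add_zero, zero_add, sub_mul,
    mul_sub, Finset.sum_add_distrib, Finset.sum_mul, Finset.mul_sum]
  ring

theorem tau_C (r : ℝ) : K.tau (K.C r) = 0 := by simp [tau, K.TC, K.DC]

theorem tau_C_mul (r : ℝ) (x : A) : K.tau (K.C r * x) = r * K.tau x := by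
  rw [mul_comm, K.tau_mul x (fun m => by simp [K.DC]), tau_C, K.evC]; ring

theorem chr_eq (k i j : Fin n) : K.chr g gi k i j = ∑ l, gi k l * K.lo g l i j := by
  simp only [chr, lo, Finset.mul_sum]
  exact Finset.sum_congr rfl fun l _ => by ring

theorem ev_DD_mul (c d : Fin n) (x y : A) : K.ev (K.D c (K.D d (x * y))) =
    K.ev (K.D c (K.D d x)) * K.ev y + K.ev (K.D d x) * K.ev (K.D c y) +
      K.ev (K.D c x) * K.ev (K.D d y) + K.ev x * K.ev (K.D c (K.D d y)) := by
  simp only [K.Dmul, map_add, map_mul]; ring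

namespace Met

variable {K g gi} (H : K.Met g gi)
include H

theorem g_chr (k i j : Fin n) : ∑ m, g k m * K.chr g gi m i j = K.lo g k i j := by
  simp only [chr_eq, Finset.mul_sum]
  rw [Finset.sum_comm]
  simp only [← mul_assoc, ← Finset.sum_mul, H.inv]
  simp

theorem D_g (i k m : Fin n) : K.D i (g k m) = K.lo g k i m + K.lo g m i k := by
  have c2 : K.C (1 / 2) + K.C (1 / 2) = 1 := by rw [← map_add]; norm_num
  simp only [lo, H.sym m k]
  linear_combination (-K.D i (g k m)) * c2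

theorem half_rm (i j k l : Fin n) :
    ∑ m, g k m * (K.D i (K.chr g gi m j l) + ∑ p, K.chr g gi m i p * K.chr g gi p j l) =
      K.D i (K.lo g k j l) - ∑ m, K.lo g m i k * K.chr g gi m j l := by
  have e1 := congrArg (K.D i) (H.g_chr k j l)
  have e2 : ∑ m, g k m * ∑ p, K.chr g gi m i p * K.chr g gi p j l =
      ∑ p, K.lo g k i p * K.chr g gi p j l := by
    simp only [Finset.mul_sum]
    rw [Finset.sum_comm]
    simp only [← mul_assoc, ← Finset.sum_mul, H.g_chr]
  simp only [map_sum, K.Dmul, H.D_g, add_mul, Finset.sum_add_distrib] at e1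
  simp only [mul_add, Finset.sum_add_distrib, e2]
  linear_combination e1

theorem rm_eq (i j k l : Fin n) : K.rm g gi i j k l = K.lin g i j k l +
    ∑ m, (K.lo g m j k * K.chr g gi m i l - K.lo g m i k * K.chr g gi m j l) := by
  have e1 := H.half_rm i j k l
  have e2 := H.half_rm j i k l
  simp only [rm, rup, lin, mul_add, mul_sub, Finset.sum_add_distrib, Finset.sum_sub_distrib]
    at e1 e2 ⊢
  linear_combination e1 - e2

theorem ric_eq (j l : Fin n) : K.ric g gi j l = ∑ a, ∑ b, gi a b * K.rm g gi a j b l := by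
  refine Finset.sum_congr rfl fun a _ => ?_
  simp only [rm, Finset.mul_sum]
  rw [Finset.sum_comm]
  simp only [← mul_assoc, ← Finset.sum_mul, H.inv']
  simp

theorem h1 (a b c d : Fin n) : K.hh g a b c d = K.hh g b a c d := by simp only [hh, H.sym a b]

omit H in
theorem h2 (a b c d : Fin n) : K.hh g a b c d = K.hh g a b d c := by simp only [hh, K.DD c d]

theorem gi0 (i j : Fin n) : K.ev (gi i j) = if i = j then 1 else 0 := by
  have := congrArg K.ev (H.inv i j)
  simpa [map_sum, H.ev0, apply_ite K.ev] using this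

theorem gi1 (m i j : Fin n) : K.ev (K.D m (gi i j)) = 0 := by
  have := congrArg (fun x => K.ev (K.D m x)) (H.inv i j)
  simpa [map_sum, K.Dmul, H.ev0, H.ev1, D_ite] using this

theorem gi2 (c d i j : Fin n) : K.ev (K.D c (K.D d (gi i j))) = -K.hh g i j c d := by
  have := congrArg (fun x => K.ev (K.D c (K.D d x))) (H.inv i j)
  simp only [map_sum, ev_DD_mul, H.ev0, H.ev1, H.gi0, D_ite, map_zero, zero_mul, add_zero,
    Finset.sum_add_distrib, mul_ite, ite_mul, mul_one, one_mul, mul_zero, Finset.sum_ite_eq,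
    Finset.sum_ite_eq', Finset.mem_univ, if_true] at this
  rw [hh]
  linarith

theorem lo0 (k i j : Fin n) : K.ev (K.lo g k i j) = 0 := by simp [lo, H.ev1]

theorem chr0 (k i j : Fin n) : K.ev (K.chr g gi k i j) = 0 := by simp [chr_eq, H.lo0]

omit H in
theorem lo1 (c k i j : Fin n) : K.ev (K.D c (K.lo g k i j)) = gam (K.hh g) k i j c := by
  simp [lo, K.Dmul, K.DC, K.evC, gam, hh, -map_inv₀, -map_div₀, -one_div]

theorem chr1 (c k i j : Fin n) : K.ev (K.D c (K.chr g gi k i j)) = gam (K.hh g) k i j c := by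
  simp [chr_eq, K.Dmul, H.lo0, H.gi0, lo1]

theorem rm0 (i j k l : Fin n) : K.ev (K.rm g gi i j k l) = cur (K.hh g) i j k l := by
  simp [H.rm_eq, lin, H.lo0, lo1, cur]

theorem rm2 (c d i j k l : Fin n) : K.ev (K.D c (K.D d (K.rm g gi i j k l))) =
    K.ev (K.D c (K.D d (K.lin g i j k l))) + ∑ m, nn1 (K.hh g) i j k l c d m := by
  simp only [H.rm_eq, map_add, map_sum, map_sub, ev_DD_mul, H.lo0, H.chr0, lo1, H.chr1, nn1]
  congr 1
  exact Finset.sum_congr rfl fun m _ => by ring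

theorem ric2 (c d x y : Fin n) : K.ev (K.D c (K.D d (K.ric g gi x y))) =
    ∑ a, K.ev (K.D c (K.D d (K.lin g a x a y))) + ∑ a, ∑ b, rq1 (K.hh g) x y c d a b := by
  simp only [H.ric_eq, map_sum, ev_DD_mul, H.gi0, H.gi1, H.gi2, H.rm0, H.rm2, rq1, zero_mul,
    add_zero, Finset.sum_add_distrib, Finset.sum_sub_distrib, ite_mul, one_mul, Finset.sum_ite_eq,
    Finset.mem_univ, if_true, neg_mul, Finset.sum_neg_distrib]
  ring

theorem T_rm (i j k l : Fin n) : K.ev (K.T (K.rm g gi i j k l)) =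
    -(K.ev (K.D i (K.D l (K.ric g gi j k))) - K.ev (K.D i (K.D k (K.ric g gi j l))) -
      K.ev (K.D j (K.D l (K.ric g gi i k))) + K.ev (K.D j (K.D k (K.ric g gi i l)))) := by
  have e : ∀ a b c, K.ev (K.T (K.D a (K.lo g k b c))) =
      -(K.ev (K.D a (K.D b (K.ric g gi c k))) + K.ev (K.D a (K.D c (K.ric g gi b k))) -
        K.ev (K.D a (K.D k (K.ric g gi b c)))) := fun a b c => by
    simp only [lo, K.TD, K.Tmul, K.TC, K.Dmul, K.DC, map_add, map_sub, map_mul, zero_mul, zero_add,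
      K.evC, H.fl2]
    ring
  simp only [H.rm_eq, lin, map_add, map_sum, map_sub, K.Tmul, map_mul, H.lo0, H.chr0, e, K.DD j i]
  simp only [mul_zero, zero_mul, add_zero, sub_zero, Finset.sum_const_zero]
  ring

theorem four (i j k l a : Fin n) :
    -(K.ev (K.D i (K.D l (K.lin g a j a k))) - K.ev (K.D i (K.D k (K.lin g a j a l))) -
      K.ev (K.D j (K.D l (K.lin g a i a k))) + K.ev (K.D j (K.D k (K.lin g a i a l)))) =
      K.ev (K.D a (K.D a (K.lin g i j k l))) := by
  simp only [lin, lo, K.Dmul, K.DC, map_add, map_sub, map_mul, zero_mul, zero_add, K.evC]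
  simp only [K.DD, H.sym]
  ring

theorem tau_rm (i j k l : Fin n) : K.tau (K.rm g gi i j k l) =
    -((∑ a, ∑ b, rq1 (K.hh g) j k i l a b) - (∑ a, ∑ b, rq1 (K.hh g) j l i k a b) -
        (∑ a, ∑ b, rq1 (K.hh g) i k j l a b) + ∑ a, ∑ b, rq1 (K.hh g) i l j k a b) -
      ∑ m, ∑ b, nn1 (K.hh g) i j k l m m b := by
  have e := Finset.sum_congr (rfl : Finset.univ = Finset.univ) fun a _ => H.four i j k l a
  simp only [Finset.sum_add_distrib, Finset.sum_sub_distrib, Finset.sum_neg_distrib] at e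
  simp only [tau, H.T_rm, H.ric2, H.rm2, Finset.sum_add_distrib]
  linear_combination e

theorem evol {P : Fin n → Fin n → A} (p0 : ∀ a i, K.ev (P a i) = if a = i then 1 else 0)
    (p1 : ∀ m a i, K.ev (K.D m (P a i)) = K.ev (K.D m (P i a)))
    (po : ∀ i j, ∑ b, (∑ a, P a i * g a b) * P b j = if i = j then 1 else 0)
    (ps : ∀ a i, K.tau (P a i) - K.tau (P i a) =
      ∑ m, (gam (K.hh g) a m i m - gam (K.hh g) i m a m)) (i j k l : Fin n) :
    K.tau (∑ a, ∑ b, ∑ c, ∑ d, K.rm g gi a b c d * P a i * P b j * P c k * P d l) =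
      2 * Qq4 (cur (K.hh g)) i j k l := by
  have f1 : ∀ m a i, K.ev (K.D m (P a i)) = 0 := fun m a i => by
    have := congrArg (fun x => K.ev (K.D m x)) (po a i)
    simp [map_sum, K.Dmul, H.ev0, H.ev1, p0, D_ite, Finset.sum_add_distrib, p1 m i a] at this
    linarith
  have c0 : ∀ (x : Fin n → A) i, K.ev (∑ a, x a * P a i) = K.ev (x i) := fun x i => by
    simp [map_sum, p0]
  have c1 : ∀ (x : Fin n → A) i, K.tau (∑ a, x a * P a i) =
      K.tau (x i) + ∑ a, K.ev (x a) * K.tau (P a i) := fun x i => by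
    simp [tau_sum, K.tau_mul _ (f1 · _ _), p0, Finset.sum_add_distrib]
  have f2 : ∀ a i, K.tau (P a i) = ∑ m, bb1 (K.hh g) a i m := fun a i => by
    have e1 := congrArg K.tau (po a i)
    have e2 : K.tau (if a = i then 1 else 0) = 0 := by simp [tau, D_ite, T_ite]
    have e3 : K.tau (g a i) = -2 * ∑ m, cur (K.hh g) m a m i - ∑ m, K.hh g a i m m := by
      simp [tau, H.fl0, H.ric_eq, H.gi0, H.rm0, hh]
    have e4 : ∑ m, gam (K.hh g) a m i m + ∑ m, gam (K.hh g) i m a m = ∑ m, K.hh g a i m m := by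
      rw [← Finset.sum_add_distrib]
      exact Finset.sum_congr rfl fun m _ => by simp only [gam, H.h1 i a]; ring
    have e5 := ps a i
    rw [c1, e2] at e1
    simp [tau_sum, K.tau_mul _ (H.ev1 · _ _), p0, H.ev0, Finset.sum_add_distrib] at e1
    simp only [bb1, Finset.sum_add_distrib, Finset.sum_sub_distrib] at e5 ⊢
    linarith
  have e : ∑ a, ∑ b, ∑ c, ∑ d, K.rm g gi a b c d * P a i * P b j * P c k * P d l =
      ∑ a, (∑ b, (∑ c, (∑ d, K.rm g gi a b c d * P d l) * P c k) * P b j) * P a i := by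
    simp only [Finset.sum_mul]
    refine Finset.sum_congr rfl fun a _ => Finset.sum_congr rfl fun b _ =>
      Finset.sum_congr rfl fun c _ => Finset.sum_congr rfl fun d _ => by ring
  rw [e, ← quad _ H.h1 h2, ← H.tau_rm]
  simp only [c1, c0, H.rm0, f2, Finset.sum_add_distrib, mul_comm (cur _ _ _ _ _)]
  ring

end Met

end Calc

end

end Pool.Agent.Work.MP_3a9764_gt.Ev
end

-- merged part: Pool.Agent.Work.MP_3a9764_gt.EvGerm
section
/-! The ring of germs of smooth functions on space-time. -/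

set_option autoImplicit false

open scoped ContDiff Topology
open Filter

namespace Pool.Agent.Work.MP_3a9764_gt.Ev

noncomputable section

section

variable {X : Type} [NormedAddCommGroup X] [NormedSpace ℝ X]

/-- Germs of smooth functions. -/
def SG (p : X) : Subring (Germ (𝓝 p) ℝ) where
  carrier := {φ | ∃ f : X → ℝ, ContDiffAt ℝ ∞ f p ∧ (f : Germ (𝓝 p) ℝ) = φ}
  mul_mem' := by rintro _ _ ⟨f, hf, rfl⟩ ⟨g, hg, rfl⟩; exact ⟨f * g, hf.mul hg, rfl⟩
  add_mem' := by rintro _ _ ⟨f, hf, rfl⟩ ⟨g, hg, rfl⟩; exact ⟨f + g, hf.add hg, rfl⟩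
  one_mem' := ⟨1, contDiffAt_const, rfl⟩
  zero_mem' := ⟨0, contDiffAt_const, rfl⟩
  neg_mem' := by rintro _ ⟨f, hf, rfl⟩; exact ⟨-f, hf.neg, rfl⟩

variable {p : X} {a b : SG p} {f g : X → ℝ}

/-- `f` represents the germ `a`. -/
def Rep (a : SG p) (f : X → ℝ) : Prop := (f : Germ (𝓝 p) ℝ) = a

theorem exists_rep (a : SG p) : ∃ f, Rep a f := let ⟨f, _, h⟩ := a.2; ⟨f, h⟩

theorem exists_germ (hf : ContDiffAt ℝ ∞ f p) : ∃ a : SG p, Rep a f := ⟨⟨f, f, hf, rfl⟩, rfl⟩

theorem Rep.smooth (h : Rep a f) : ContDiffAt ℝ ∞ f p := by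
  obtain ⟨g, hg, e⟩ := a.2
  exact hg.congr_of_eventuallyEq (Germ.coe_eq.1 (h.trans e.symm))

theorem Rep.congr (h : Rep a f) (e : g =ᶠ[𝓝 p] f) : Rep a g := (Germ.coe_eq.2 e).trans h

theorem Rep.ext (h : Rep a f) (h' : Rep b g) (e : f =ᶠ[𝓝 p] g) : a = b :=
  Subtype.ext (h.symm.trans ((Germ.coe_eq.2 e).trans h'))

theorem Rep.add (h : Rep a f) (h' : Rep b g) : Rep (a + b) fun x => f x + g x :=
  congrArg₂ (· + ·) h h'

theorem Rep.sub (h : Rep a f) (h' : Rep b g) : Rep (a - b) fun x => f x - g x :=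
  congrArg₂ (· - ·) h h'

theorem Rep.mul (h : Rep a f) (h' : Rep b g) : Rep (a * b) fun x => f x * g x :=
  congrArg₂ (· * ·) h h'

theorem Rep.sum {ι : Type} (s : Finset ι) {a : ι → SG p} {f : ι → X → ℝ}
    (h : ∀ i, Rep (a i) (f i)) : Rep (∑ i ∈ s, a i) fun x => ∑ i ∈ s, f i x := by
  classical
  induction s using Finset.induction_on with
  | empty => simp only [Finset.sum_empty]; rfl
  | insert i s hi ih => simp only [Finset.sum_insert hi]; exact (h i).add ih

theorem Rep.ite (q : Prop) [Decidable q] :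
    Rep (if q then 1 else 0 : SG p) fun _ => if q then 1 else 0 := by
  split_ifs <;> rfl

theorem Rep.ev2 (h : Rep a f) : ∀ᶠ x in 𝓝 p, ContDiffAt ℝ 2 f x :=
  (h.smooth.of_le (WithTop.coe_le_coe.2 (le_top : (2 : ℕ∞) ≤ ⊤))).eventually (by simp)

theorem Rep.ev1 (h : Rep a f) : ∀ᶠ x in 𝓝 p, DifferentiableAt ℝ f x :=
  h.ev2.mono fun _ hx => hx.differentiableAt (by simp)

/-- Directional derivatives of germs. -/
def dG (p v : X) : Germ (𝓝 p) ℝ → Germ (𝓝 p) ℝ :=
  Germ.map' (fun f x => fderiv ℝ f x v) fun _ _ h =>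
    (h.fderiv (𝕜 := ℝ)).mono fun x hx => by simp only [hx]

/-- Directional derivatives of smooth germs. -/
def dS (v : X) (a : SG p) : SG p := ⟨dG p v a, by
  obtain ⟨f, hf, e⟩ := a.2
  exact ⟨fun x => fderiv ℝ f x v, (hf.fderiv_right (by simp)).clm_apply contDiffAt_const,
    by rw [← e]; rfl⟩⟩

theorem Rep.dS (h : Rep a f) (v : X) : Rep (dS v a) fun x => fderiv ℝ f x v :=
  congrArg (dG p v) h

/-- Directional derivatives as additive maps. -/
def dv (p v : X) : SG p →+ SG p := AddMonoidHom.mk' (dS v) fun a b => by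
  obtain ⟨f, hf⟩ := exists_rep a
  obtain ⟨g, hg⟩ := exists_rep b
  refine ((hf.add hg).dS v).ext ((hf.dS v).add (hg.dS v)) ?_
  filter_upwards [hf.ev1, hg.ev1] with x h1 h2
  rw [fderiv_fun_add h1 h2]; rfl

theorem Rep.dv (h : Rep a f) (v : X) : Rep (dv p v a) fun x => fderiv ℝ f x v := h.dS v

theorem dv_mul (v : X) (a b : SG p) : dv p v (a * b) = dv p v a * b + a * dv p v b := by
  obtain ⟨f, hf⟩ := exists_rep a
  obtain ⟨g, hg⟩ := exists_rep b
  refine ((hf.mul hg).dv v).ext (((hf.dv v).mul hg).add (hf.mul (hg.dv v))) ?_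
  filter_upwards [hf.ev1, hg.ev1] with x h1 h2
  rw [fderiv_fun_mul h1 h2]
  simp only [add_apply, smul_apply, smul_eq_mul]
  ring

theorem dv_comm (v w : X) (a : SG p) : dv p v (dv p w a) = dv p w (dv p v a) := by
  obtain ⟨f, hf⟩ := exists_rep a
  refine ((hf.dv w).dv v).ext ((hf.dv v).dv w) ?_
  filter_upwards [hf.ev2] with x h
  have hd : DifferentiableAt ℝ (fderiv ℝ f) x :=
    (h.fderiv_right (m := 1) (by norm_num)).differentiableAt (by simp)
  rw [fderiv_clm_apply hd (differentiableAt_const _), fderiv_clm_apply hd (differentiableAt_const _)]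
  simpa using (h.isSymmSndFDerivAt (by simp)).eq v w

/-- Constant germs. -/
def cst (p : X) : ℝ →+* SG p :=
  RingHom.codRestrict ((Germ.coeRingHom (𝓝 p)).comp (Pi.constRingHom X ℝ)) (SG p)
    fun r => ⟨fun _ => r, contDiffAt_const, rfl⟩

theorem rep_cst (r : ℝ) : Rep (cst p r) fun _ => r := rfl

theorem dv_cst (v : X) (r : ℝ) : dv p v (cst p r) = 0 :=
  ((rep_cst r).dv v).ext (g := fun _ => 0) rfl (Eventually.of_forall fun x => by simp)

end

variable {n : ℕ}

/-- The calculus of smooth germs at a point of space-time. -/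
def germs (p : ℝ × Eu n) : Calc n (SG p) where
  ev := Germ.valueRingHom.comp (SG p).subtype
  C := cst p
  D i := dv p (0, EuclideanSpace.single i 1)
  T := dv p (1, 0)
  evC _ := rfl
  DC _ := dv_cst _
  TC := dv_cst _
  Dmul _ := dv_mul _
  Tmul := dv_mul _
  DD _ _ := dv_comm _ _
  TD _ := dv_comm _ _

variable {p : ℝ × Eu n} {a : SG p} {f : ℝ × Eu n → ℝ}

theorem Rep.C (r : ℝ) : Rep ((germs p).C r) fun _ => r := rfl

theorem Rep.ev (h : Rep a f) : (germs p).ev a = f p :=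
  (congrArg Germ.value h).symm

theorem Rep.D (h : Rep a f) (i : Fin n) :
    Rep ((germs p).D i a) fun x => pd i (fun y => f (x.1, y)) x.2 := by
  refine (h.dv _).congr ?_
  filter_upwards [h.ev1] with x hx
  have := (HasFDerivAt.comp (f := fun y : Eu n => (x.1, y)) x.2 hx.hasFDerivAt
    (hasFDerivAt_prodMk_right (𝕜 := ℝ) x.1 x.2)).fderiv
  exact congrArg (fun L : Eu n →L[ℝ] ℝ => L (EuclideanSpace.single i 1)) this

theorem hasDerivAt_slice {x : ℝ × Eu n} (hx : DifferentiableAt ℝ f x) :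
    HasDerivAt (fun s => f (s, x.2)) (fderiv ℝ f x (1, 0)) x.1 :=
  hx.hasFDerivAt.comp_hasDerivAt x.1 ((hasDerivAt_id x.1).prodMk (hasDerivAt_const x.1 x.2))

theorem Rep.T (h : Rep a f) : Rep ((germs p).T a) fun x => deriv (fun s => f (s, x.2)) x.1 := by
  refine (h.dv _).congr ?_
  filter_upwards [h.ev1] with x hx
  exact (hasDerivAt_slice hx).deriv

theorem pd_pd_nonpos {u : Eu n → ℝ} {y : Eu n} (hu : ContDiffAt ℝ 2 u y) (hm : IsLocalMax u y)
    (m : Fin n) : pd m (pd m u) y ≤ 0 := by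
  obtain ⟨ℓ, hℓ⟩ : ∃ ℓ : ℝ → Eu n, ℓ = fun s => y + s • EuclideanSpace.single m (1 : ℝ) := ⟨_, rfl⟩
  have l0 : ℓ 0 = y := by simp [hℓ]
  have l1 : ∀ s, HasDerivAt ℓ (EuclideanSpace.single m 1) s := fun s => by
    simpa [hℓ] using ((hasDerivAt_id s).smul_const (EuclideanSpace.single m (1 : ℝ))).const_add y
  have l2 : Tendsto ℓ (𝓝 0) (𝓝 y) := l0 ▸ (l1 0).continuousAt.tendsto
  have d1 : ∀ (v : Eu n → ℝ) s, DifferentiableAt ℝ v (ℓ s) →
      HasDerivAt (fun s => v (ℓ s)) (pd m v (ℓ s)) s :=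
    fun v s hv => hv.hasFDerivAt.comp_hasDerivAt s (l1 s)
  have d2 : deriv (fun s => u (ℓ s)) =ᶠ[𝓝 0] fun s => pd m u (ℓ s) :=
    (l2.eventually (hu.eventually (by simp))).mono fun s hs =>
      (d1 u s (hs.differentiableAt (by simp))).deriv
  have d3 : DifferentiableAt ℝ (pd m u) (ℓ 0) := by
    rw [l0]
    exact ((hu.fderiv_right (m := 1) (by norm_num)).clm_apply contDiffAt_const).differentiableAt
      (by simp)
  have d4 : deriv (deriv fun s => u (ℓ s)) 0 = pd m (pd m u) y := by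
    rw [d2.deriv_eq, (d1 _ 0 d3).deriv, l0]
  have m1 : IsLocalMax (fun s => u (ℓ s)) 0 := by
    have := l2.eventually hm
    rw [← l0] at this
    exact this
  by_contra hc
  have m2 := isLocalMin_of_deriv_deriv_pos (f := fun s => u (ℓ s)) (d4 ▸ not_le.1 hc)
    m1.deriv_eq_zero (d1 u 0 (l0 ▸ hu.differentiableAt (by simp))).continuousAt
  have m3 : (fun s => u (ℓ s)) =ᶠ[𝓝 0] fun _ => u (ℓ 0) := by
    filter_upwards [m1, m2] with s h1 h2 using le_antisymm h1 h2
  rw [m3.deriv.deriv_eq] at d4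
  simp only [deriv_const'] at d4
  exact hc d4.ge

theorem Rep.le_tau (h : Rep a f) {c : ℝ}
    (hm : ∀ᶠ x in 𝓝 p, x.1 ≤ p.1 → f x + c * (p.1 - x.1) ≤ f p) : c ≤ (germs p).tau a := by
  have h1 : c ≤ (germs p).ev ((germs p).T a) := by
    have e := (hasDerivAt_slice h.ev1.self_of_nhds).add
      (((hasDerivAt_id p.1).const_sub p.1).const_mul c)
    rw [show (germs p).ev ((germs p).T a) = _ from (h.dv (1, 0)).ev]
    have t1 : Tendsto (fun s : ℝ => (s, p.2)) (𝓝[<] p.1) (𝓝 p) :=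
      ((continuous_id.prodMk continuous_const).tendsto p.1).mono_left nhdsWithin_le_nhds
    have := ge_of_tendsto (b := 0) (hasDerivAt_iff_tendsto_slope_left_right.1 e).1 (by
      filter_upwards [t1.eventually hm, self_mem_nhdsWithin] with s h1 h2
      rw [slope_def_field]
      refine div_nonneg_of_nonpos ?_ (sub_nonpos.2 h2.le)
      simpa using h1 h2.le)
    linarith
  have h2 : ∀ m, (germs p).ev ((germs p).D m ((germs p).D m a)) ≤ 0 := fun m => by
    rw [((h.D m).D m).ev]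
    have t1 : Tendsto (fun y : Eu n => (p.1, y)) (𝓝 p.2) (𝓝 p) :=
      (continuous_const.prodMk continuous_id).tendsto p.2
    refine pd_pd_nonpos (u := fun y => f (p.1, y))
      (ContDiffAt.comp (g := f) p.2 h.ev2.self_of_nhds (contDiffAt_const.prodMk contDiffAt_id))
      ((t1.eventually hm).mono fun y hy => ?_) m
    simpa using hy le_rfl
  have := Finset.sum_nonpos (s := Finset.univ) fun m _ => h2 m
  rw [Calc.tau]
  linarith

end

end Pool.Agent.Work.MP_3a9764_gt.Ev
end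

-- merged part: Pool.Agent.Work.MP_3a9764_gt.Ev
section
/-! The maximum principle for the curvature tensor at the centre of normal coordinates. -/

set_option autoImplicit false

open scoped ContDiff Topology
open Filter Matrix

namespace Pool.Agent.Work.MP_3a9764_gt

noncomputable section

namespace Ev

variable {n : ℕ}

theorem xi_expand (ξ : T4 n →L[ℝ] ℝ) : ∃ w : T4 n, ∀ R : T4 n,
    ξ R = ∑ i, ∑ j, ∑ k, ∑ l, w i j k l * R i j k l := by
  refine ⟨fun i j k l => ξ (Pi.single i (Pi.single j (Pi.single k (Pi.single l 1)))), fun R => ?_⟩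
  have e : R = ∑ i, ∑ j, ∑ k, ∑ l,
      R i j k l • (Pi.single i (Pi.single j (Pi.single k (Pi.single l 1))) : T4 n) := by
    funext a b c d
    simp [Finset.sum_apply, Pi.single_apply, ite_apply]
  conv_lhs => rw [e]
  simp only [map_sum, map_smul, smul_eq_mul, mul_comm]

theorem act_one (R : T4 n) : act R 1 = R := by
  funext i j k l
  simp [act, ev4, Matrix.one_apply]

section

variable {G : ℝ → Eu n → Mat n} {p : ℝ × Eu n} {g gi : Fin n → Fin n → SG p}
  (hg : ∀ i j, Rep (g i j) fun x => G x.1 x.2 i j)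
  (hi : ∀ i j, Rep (gi i j) fun x => (G x.1 x.2)⁻¹ i j)
include hg hi

theorem rep_chr (k i j : Fin n) :
    Rep ((germs p).chr g gi k i j) fun x => christoffel (G x.1) k i j x.2 :=
  (Rep.C _).mul (Rep.sum _ fun l =>
    (hi k l).mul ((((hg j l).D i).add ((hg i l).D j)).sub ((hg i j).D l)))

theorem rep_rup (m i j l : Fin n) :
    Rep ((germs p).rup g gi m i j l) fun x => riemUp (G x.1) m i j l x.2 :=
  (((rep_chr hg hi m j l).D i).sub ((rep_chr hg hi m i l).D j)).add (Rep.sum _ fun q =>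
    ((rep_chr hg hi m i q).mul (rep_chr hg hi q j l)).sub
      ((rep_chr hg hi m j q).mul (rep_chr hg hi q i l)))

theorem rep_rm (i j k l : Fin n) :
    Rep ((germs p).rm g gi i j k l) fun x => riem (G x.1) x.2 i j k l :=
  Rep.sum _ fun m => (hg k m).mul (rep_rup hg hi m i j l)

theorem rep_ric (j l : Fin n) : Rep ((germs p).ric g gi j l) fun x => ricci (G x.1) x.2 j l :=
  Rep.sum _ fun i => rep_rup hg hi i i j l

theorem met (hs : ∀ᶠ x : ℝ × Eu n in 𝓝 p, (G x.1 x.2).IsSymm) (h1 : G p.1 p.2 = 1)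
    (hd : ∀ k i j, pd k (fun y => G p.1 y i j) p.2 = 0)
    (hfl : ∀ i j, ∀ᶠ y in 𝓝 p.2,
      HasDerivAt (fun s => G s y i j) (-2 * ricci (G p.1) y i j) p.1) : (germs p).Met g gi := by
  have hdet : ∀ᶠ x : ℝ × Eu n in 𝓝 p, (G x.1 x.2).det ≠ 0 :=
    (contDiffAt_det (B := fun x : ℝ × Eu n => G x.1 x.2)
      fun i j => (hg i j).smooth).continuousAt.eventually_ne (by simp [h1])
  refine ⟨fun i j => (hg i j).ext (hg j i) (hs.mono fun x hx => hx.apply j i), fun i j => ?_,
    fun i j => ?_, fun i j => ?_, fun m i j => ?_, fun i j => ?_, fun c d i j => ?_⟩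
  · refine (Rep.sum _ fun k => (hg i k).mul (hi k j)).ext (Rep.ite _) (hdet.mono fun x hx => ?_)
    have := congrFun (congrFun (Matrix.mul_nonsing_inv _ (Ne.isUnit hx)) i) j
    rwa [Matrix.mul_apply, Matrix.one_apply] at this
  · refine (Rep.sum _ fun k => (hi i k).mul (hg k j)).ext (Rep.ite _) (hdet.mono fun x hx => ?_)
    have := congrFun (congrFun (Matrix.nonsing_inv_mul _ (Ne.isUnit hx)) i) j
    rwa [Matrix.mul_apply, Matrix.one_apply] at this
  · rw [(hg i j).ev, h1, Matrix.one_apply]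
  · rw [((hg i j).D m).ev]; exact hd m i j
  · rw [(hg i j).T.ev, (rep_ric hg hi i j).ev]; exact (hfl i j).self_of_nhds.deriv
  · have e1 := ((((Rep.C (-2)).mul (rep_ric hg hi i j)).D d).D c).ev
    have e2 : (fun y => deriv (fun s => G s y i j) p.1) =ᶠ[𝓝 p.2]
        fun y => -2 * ricci (G p.1) y i j := (hfl i j).mono fun y hy => hy.deriv
    have e3 : pd d (fun y => deriv (fun s => G s y i j) p.1) =ᶠ[𝓝 p.2]
        pd d fun y => -2 * ricci (G p.1) y i j :=
      (e2.fderiv (𝕜 := ℝ)).mono fun y hy => by simp only [pd, hy]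
    simp only [Calc.Dmul, Calc.DC, zero_mul, zero_add, map_mul, Calc.evC] at e1
    rw [(((hg i j).T.D d).D c).ev, e1]
    exact congrArg (fun L : Eu n →L[ℝ] ℝ => L (EuclideanSpace.single c 1)) e3.fderiv_eq

omit hi in
theorem exists_P (hs : ∀ᶠ x : ℝ × Eu n in 𝓝 p, (G x.1 x.2).IsSymm) (h1 : G p.1 p.2 = 1)
    (Z : Mat n) : ∃ (P : ℝ × Eu n → Mat n) (q : Fin n → Fin n → SG p),
      (∀ a i, Rep (q a i) fun x => P x a i) ∧ P p = 1 ∧
      (∀ᶠ x in 𝓝 p, (P x)ᵀ * G x.1 x.2 * P x = 1) ∧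
      (∀ m a i, (germs p).ev ((germs p).D m (q a i)) = (germs p).ev ((germs p).D m (q i a))) ∧
      ∀ a i, (germs p).tau (q a i) - (germs p).tau (q i a) = Z a i - Z i a := by
  obtain ⟨F, F1, F2, F3⟩ := exists_frame (n := n)
  obtain ⟨tm, htm⟩ := exists_germ (p := p) (f := fun x => x.1 - p.1) (by fun_prop)
  have t1 : ∀ m, (germs p).D m tm = 0 := fun m =>
    (htm.D m).ext (g := fun _ => 0) rfl (Eventually.of_forall fun x => by simp [pd])
  have t2 : (germs p).tau tm = 1 := by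
    simp [Calc.tau, t1, htm.T.ev]
  obtain ⟨M, hM⟩ : ∃ M : ℝ × Eu n → Mat n, ∀ x, M x = 1 + (x.1 - p.1) • Z := ⟨_, fun _ => rfl⟩
  obtain ⟨mm, hmm⟩ : ∃ mm : Fin n → Fin n → SG p,
    ∀ a k, mm a k = (germs p).C ((1 : Mat n) a k) + (germs p).C (Z a k) * tm := ⟨_, fun _ _ => rfl⟩
  have m0 : ∀ a k, Rep (mm a k) fun x => M x a k := fun a k => by
    rw [hmm]
    exact ((Rep.C _).add ((Rep.C _).mul htm)).congr
      (Eventually.of_forall fun x => by simp [hM, mul_comm])
  have m1 : M p = 1 := by simp [hM]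
  have m2 : ∀ m a k, (germs p).ev ((germs p).D m (mm a k)) = 0 := fun m a k => by
    simp [hmm, Calc.Dmul, Calc.DC, t1]
  have m3 : ∀ a k, (germs p).tau (mm a k) = Z a k := fun a k => by
    rw [hmm, Calc.tau_add, Calc.tau_C, Calc.tau_C_mul, t2]; ring
  have m4 : ∀ a k, (germs p).ev (mm a k) = if a = k then 1 else 0 := fun a k => by
    rw [(m0 a k).ev, m1, Matrix.one_apply]
  obtain ⟨B, hB⟩ : ∃ B : ℝ × Eu n → Mat n, B = fun x => (M x)ᵀ * G x.1 x.2 * M x := ⟨_, rfl⟩
  have b0 : ∀ i j, ContDiffAt ℝ ∞ (fun x => B x i j) p := by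
    rw [hB]
    exact contDiffAt_mul_entry (contDiffAt_mul_entry (B := fun x => (M x)ᵀ)
      (fun i j => (m0 j i).smooth) fun i j => (hg i j).smooth) fun i j => (m0 i j).smooth
  have b1 : B p = 1 := by simp [hB, m1, h1]
  have b2 : ∀ᶠ x in 𝓝 p, (F (B x)).IsSymm ∧ (F (B x))ᵀ * B x * F (B x) = 1 := by
    have t : Tendsto B (𝓝 p) (𝓝 1) := b1 ▸ (continuousAt_mat b0).tendsto
    filter_upwards [t.eventually F3, hs] with x h2 h3
    refine h2 ?_
    simp only [hB, Matrix.IsSymm, Matrix.transpose_mul, Matrix.transpose_transpose, h3.eq,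
      Matrix.mul_assoc]
  have b3 : ∀ i j, ∃ s : SG p, Rep s fun x => F (B x) i j := fun i j => exists_germ
    (ContDiffAt.comp (g := fun C : Fin n → Fin n → ℝ => F C i j) (f := fun x a b => B x a b) p
      (by have := F1 i j; rw [← b1] at this; exact this)
      (contDiffAt_pi.2 fun a => contDiffAt_pi.2 fun b => b0 a b))
  choose s hS using b3
  have s1 : ∀ i j, s i j = s j i := fun i j =>
    (hS i j).ext (hS j i) (b2.mono fun x hx => hx.1.apply j i)
  have s2 : ∀ i j, (germs p).ev (s i j) = if i = j then 1 else 0 := fun i j => by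
    rw [(hS i j).ev, b1, F2, Matrix.one_apply]
  refine ⟨fun x => M x * F (B x), fun a i => ∑ k, s k i * mm a k, fun a i => ?_, ?_, ?_,
    fun m a i => ?_, fun a i => ?_⟩
  · exact (Rep.sum _ fun k => (hS k i).mul (m0 a k)).congr
      (Eventually.of_forall fun x => by simp [Matrix.mul_apply, mul_comm])
  · simp [m1, b1, F2]
  · refine b2.mono fun x hx => ?_
    rw [← hx.2]
    simp only [hB, Matrix.transpose_mul, Matrix.mul_assoc]
  · simp [Calc.Dmul, m2, m4, s1 a i]
  · simp [Calc.tau_sum, (germs p).tau_mul _ (m2 · _ _), m3, m4, s2, Finset.sum_add_distrib, s1 a i]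

theorem exists_W (hs : ∀ᶠ x : ℝ × Eu n in 𝓝 p, (G x.1 x.2).IsSymm) (h1 : G p.1 p.2 = 1)
    (H : (germs p).Met g gi) : ∃ (P : ℝ × Eu n → Mat n) (W : Fin n → Fin n → Fin n → Fin n → SG p),
      P p = 1 ∧ (∀ᶠ x in 𝓝 p, (P x)ᵀ * G x.1 x.2 * P x = 1) ∧
      (∀ i j k l, Rep (W i j k l) fun x => act (riem (G x.1) x.2) (P x) i j k l) ∧
      ∀ i j k l, (germs p).tau (W i j k l) = 2 * Qq4 (riem (G p.1) p.2) i j k l := by
  obtain ⟨P, q, q0, q1, q2, q3, q4⟩ := exists_P hg hs h1 (Matrix.of fun a i =>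
    ∑ m, gam ((germs p).hh g) a m i m)
  have e1 : cur ((germs p).hh g) = riem (G p.1) p.2 := by
    funext i j k l
    rw [← H.rm0, (rep_rm hg hi i j k l).ev]
  refine ⟨P, fun i j k l => ∑ a, ∑ b, ∑ c, ∑ d,
    (germs p).rm g gi a b c d * q a i * q b j * q c k * q d l, q1, q2, fun i j k l => ?_, ?_⟩
  · exact Rep.sum _ fun a => Rep.sum _ fun b => Rep.sum _ fun c => Rep.sum _ fun d =>
      ((((rep_rm hg hi a b c d).mul (q0 a i)).mul (q0 b j)).mul (q0 c k)).mul (q0 d l)
  · rw [← e1]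
    refine H.evol (fun a i => by rw [(q0 a i).ev, q1, Matrix.one_apply]) q3 (fun i j => ?_)
      fun a i => ?_
    · refine (Rep.sum _ fun b => (Rep.sum _ fun a => (q0 a i).mul (hg a b)).mul (q0 b j)).ext
        (Rep.ite _) (q2.mono fun x hx => ?_)
      have := congrFun (congrFun hx i) j
      simpa only [Matrix.mul_apply, Matrix.transpose_apply, Matrix.one_apply] using this
    · rw [q4]
      simp only [Matrix.of_apply, Finset.sum_sub_distrib]

end

end Ev

open Ev

theorem maxp_normal {n : ℕ} {G : ℝ → Eu n → Mat n} {t0 : ℝ} {y0 : Eu n}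
    (hG : ∀ i j, ContDiffAt ℝ ∞ (fun p : ℝ × Eu n => G p.1 p.2 i j) (t0, y0))
    (hs : ∀ᶠ p : ℝ × Eu n in 𝓝 (t0, y0), (G p.1 p.2).IsSymm) (h1 : G t0 y0 = 1)
    (hd : ∀ k i j, pd k (fun y => G t0 y i j) y0 = 0)
    (hfl : ∀ i j, ∀ᶠ y in 𝓝 y0, HasDerivAt (fun s => G s y i j) (-2 * ricci (G t0) y i j) t0)
    (ξ : T4 n →L[ℝ] ℝ) (c : ℝ)
    (hmax : ∀ᶠ p : ℝ × Eu n in 𝓝 (t0, y0), p.1 ≤ t0 → ∀ P : Mat n,
      P.transpose * G p.1 p.2 * P = 1 →
      ξ (act (riem (G p.1) p.2) P) + c * (t0 - p.1) ≤ ξ (riem (G t0) y0)) :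
    c ≤ 2 * ξ (Qq4 (riem (G t0) y0)) := by
  choose g hg using fun i j => exists_germ (hG i j)
  choose gi hi using fun i j => exists_germ (contDiffAt_inv_entry
    (B := fun x : ℝ × Eu n => G x.1 x.2) hG (by simp [h1]) i j)
  obtain ⟨P, W, q1, q2, q3, q4⟩ := exists_W (G := G) hg hi hs h1
    (met (G := G) hg hi hs h1 hd hfl)
  obtain ⟨w, hw⟩ := xi_expand ξ
  have R : Rep (∑ i, ∑ j, ∑ k, ∑ l, (germs (t0, y0)).C (w i j k l) * W i j k l)
      fun x => ξ (act (riem (G x.1) x.2) (P x)) := by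
    simp only [hw]
    exact Rep.sum _ fun i => Rep.sum _ fun j => Rep.sum _ fun k => Rep.sum _ fun l =>
      (Rep.C (w i j k l)).mul (q3 i j k l)
  have R' := R.le_tau (c := c) (by
    filter_upwards [hmax, q2] with x h2 h3 h4
    rw [q1, act_one]
    exact h2 h4 _ h3)
  simp only [Calc.tau_sum, Calc.tau_C_mul, q4] at R'
  rw [hw]
  refine R'.trans (le_of_eq ?_)
  simp only [Finset.mul_sum, mul_left_comm (2 : ℝ)]

end

end Pool.Agent.Work.MP_3a9764_gt
end

-- merged part: Pool.Agent.Work.MP_3a9764_gt.TMax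
section
/-! Normal coordinates and the maximum principle for the sets `vals`. -/

set_option autoImplicit false

open scoped Manifold ContDiff Topology
open Filter

namespace Pool.Agent.Work.MP_3a9764_gt

noncomputable section

open T

variable {n : ℕ}

namespace T

theorem pd_coord (a b : Fin n) (y : Eu n) :
    pd b (fun z : Eu n => z a) y = if a = b then 1 else 0 := by
  unfold pd
  have h : HasFDerivAt (fun z : Eu n => z a) (EuclideanSpace.proj a : Eu n →L[ℝ] ℝ) y :=
    (EuclideanSpace.proj a : Eu n →L[ℝ] ℝ).hasFDerivAt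
  rw [h.fderiv]
  simp

/-- A quadratic change of coordinates. -/
def quadMap (y₀ : Eu n) (P : Mat n) (B : Fin n → Mat n) (z : Eu n) : Eu n :=
  WithLp.toLp 2 fun p => y₀ p + ∑ a, P p a * z a - (1 / 2) * ∑ a, ∑ c, B a p c * (z a * z c)

theorem contDiff_quadMap (y₀ : Eu n) (P : Mat n) (B : Fin n → Mat n) :
    ContDiff ℝ ∞ (quadMap y₀ P B) := by
  refine contDiff_euclidean.2 fun p => ?_
  simp only [quadMap]
  fun_prop

theorem quadMap_zero (y₀ : Eu n) (P : Mat n) (B : Fin n → Mat n) : quadMap y₀ P B 0 = y₀ := by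
  ext p; simp [quadMap]

theorem jac_quadMap (y₀ : Eu n) (P : Mat n) {B : Fin n → Mat n} (hB : ∀ a p c, B a p c = B c p a)
    (z : Eu n) : jac (quadMap y₀ P B) z = P - ∑ a, z a • B a := by
  ext p b
  simp only [jac, quadMap]
  rw [pd_sub (by fun_prop) (by fun_prop), pd_add (by fun_prop) (by fun_prop), pd_const,
    pd_const_mul, pd_sum (u := fun a (x : Eu n) => P p a * x a) _ (fun _ _ => by fun_prop),
    pd_sum (u := fun a (x : Eu n) => ∑ c, B a p c * (x a * x c)) _ (fun _ _ => by fun_prop)]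
  have h1 : ∀ a, pd b (fun x : Eu n => ∑ c, B a p c * (x a * x c)) z =
      ∑ c, B a p c * ((if a = b then 1 else 0) * z c + z a * if c = b then 1 else 0) := by
    intro a
    rw [pd_sum (u := fun c (x : Eu n) => B a p c * (x a * x c)) _ (fun _ _ => by fun_prop)]
    refine Finset.sum_congr rfl fun c _ => ?_
    rw [pd_const_mul, pd_mul (by fun_prop) (by fun_prop), pd_coord, pd_coord]
  simp only [h1, pd_const_mul, pd_coord, mul_add, Finset.sum_add_distrib]
  rw [Finset.sum_comm (f := fun a c => B a p c * ((if a = b then 1 else 0) * z c))]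
  simp only [Matrix.sub_apply, Matrix.sum_apply, Matrix.smul_apply, smul_eq_mul, mul_ite, ite_mul,
    mul_one, mul_zero, one_mul, zero_mul, Finset.sum_ite_eq', Finset.mem_univ, if_true, hB b p]
  have h2 : ∑ a, z a * B a p b = ∑ a, B a p b * z a := Finset.sum_congr rfl fun _ _ => mul_comm _ _
  rw [h2]
  ring

theorem pdM_jac_quadMap (y₀ : Eu n) (P : Mat n) {B : Fin n → Mat n}
    (hB : ∀ a p c, B a p c = B c p a) (c : Fin n) (z : Eu n) :
    pdM c (jac (quadMap y₀ P B)) z = -B c := by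
  ext p b
  simp only [pdM, jac_quadMap y₀ P hB, Matrix.sub_apply, Matrix.sum_apply, Matrix.smul_apply,
    smul_eq_mul, Matrix.neg_apply]
  rw [pd_sub (by fun_prop) (by fun_prop), pd_const,
    pd_sum (u := fun a (x : Eu n) => x a * B a p b) _ (fun _ _ => by fun_prop)]
  have h1 : ∀ a, pd c (fun x : Eu n => x a * B a p b) z = (if a = c then 1 else 0) * B a p b := by
    intro a
    rw [pd_mul (by fun_prop) (by fun_prop), pd_coord, pd_const, mul_zero, add_zero]
  simp [h1]

/-- Normal coordinates to first order adapted to an orthonormal frame. -/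
theorem exists_normal {G : Eu n → Mat n} {y₀ : Eu n} (hG : CM 1 G y₀)
    (hs : ∀ᶠ x in 𝓝 y₀, (G x).IsSymm) {P : Mat n} (hP : P.transpose * G y₀ * P = 1) :
    ∃ f : Eu n → Eu n, ContDiff ℝ ∞ f ∧ f 0 = y₀ ∧ jac f 0 = P ∧ ∀ H : Eu n → Mat n,
      (∀ᶠ x in 𝓝 0, H x = (jac f x).transpose * G (f x) * jac f x) → ∀ a, pdM a H 0 = 0 := by
  set B : Fin n → Mat n := fun a => (∑ q, P q a • gamM G q y₀) * P with hBdef
  have hB : ∀ a p c, B a p c = B c p a := by
    intro a p c
    simp only [hBdef, Matrix.mul_apply, Matrix.sum_apply, Matrix.smul_apply, smul_eq_mul, gamM,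
      Finset.sum_mul]
    rw [Finset.sum_comm]
    refine Finset.sum_congr rfl fun q _ => Finset.sum_congr rfl fun r _ => ?_
    rw [christoffel_symm hs p q r]; ring
  have h0 := quadMap_zero y₀ P B
  have hj : jac (quadMap y₀ P B) 0 = P := by
    rw [jac_quadMap y₀ P hB]; simp
  have hc := contDiff_quadMap y₀ P B
  refine ⟨quadMap y₀ P B, hc, h0, hj, fun H hH a => ?_⟩
  have hPd : P.det ≠ 0 := by
    have h1 := congrArg Matrix.det hP
    rw [Matrix.det_mul, Matrix.det_one] at h1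
    exact right_ne_zero_of_mul_eq_one h1
  have hH0 : H 0 = 1 := by rw [hH.self_of_nhds, hj, h0, hP]
  have h1 := gamM_pull (G := G) (H := H) (hc.contDiffAt.of_le (by norm_cast)) (h0.symm ▸ hG)
    (h0.symm ▸ hs.self_of_nhds) (h0.symm ▸ det_ne_of_frame hP) (hj.symm ▸ hPd) hH a
  rw [pdM_jac_quadMap y₀ P hB, conM, hj, h0] at h1
  have h2 : gamM H a 0 = 0 := by
    have h3 : P * gamM H a 0 = 0 := by rw [h1]; exact neg_add_cancel _
    rw [← Matrix.one_mul (gamM H a 0), ← Matrix.nonsing_inv_mul P (isUnit_iff_ne_zero.2 hPd),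
      Matrix.mul_assoc, h3, Matrix.mul_zero]
  have hs' : ∀ᶠ x in 𝓝 0, (H x).IsSymm := by
    have h4 : Tendsto (quadMap y₀ P B) (𝓝 0) (𝓝 y₀) := by
      have h5 := hc.continuous.tendsto 0
      rwa [h0] at h5
    filter_upwards [hH, h4.eventually hs] with x hx1 hx2
    rw [hx1, Matrix.IsSymm, Matrix.transpose_mul, Matrix.transpose_mul, hx2.eq,
      Matrix.transpose_transpose, Matrix.mul_assoc]
  rw [pdM_metric hs' (by rw [hH0]; simp), h2]
  simp

end T

variable {M : Type} [TopologicalSpace M] [ChartedSpace (Eu n) M] [IsManifold 𝓘(ℝ, Eu n) ∞ M]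

/-- The maximum principle with a linear barrier. -/
theorem vals_maxp {T : ℝ} {g : ℝ → Bil n M} (hg : IsRicciFlow (Set.Ico 0 T) g) {t : ℝ}
    (ht : t ∈ Set.Ioo 0 T) {R : T4 n} (hR : R ∈ vals (g t)) (ξ : T4 n →L[ℝ] ℝ) (c : ℝ)
    (h : ∀ᶠ s in 𝓝 t, s ≤ t → ∀ R' ∈ vals (g s), ξ R' + c * (t - s) ≤ ξ R) :
    c ≤ 2 * ξ (Qq4 R) := by
  obtain ⟨x, P, hP, rfl⟩ := hR
  have ht' : t ∈ Set.Ico 0 T := Set.Ioo_subset_Ico_self ht
  have hJ : Set.Ico 0 T ∈ 𝓝 t := Ico_mem_nhds ht.1 ht.2
  have hm := hg.isMetric ht'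
  have hy := ctr_mem (n := n) x
  have hG := hm.smooth x _ hy
  obtain ⟨f, hf, hf0, hj, hn⟩ := exists_normal (hG.of_le (by norm_cast))
    (.of_forall (hm.isSymm x)) hP
  set F : Eu n → M := (chartAt (Eu n) x).symm ∘ f with hF
  have hc : Tendsto f (𝓝 0) (𝓝 (ctr n x)) := hf0 ▸ hf.continuous.continuousAt
  have htar : ∀ᶠ z in 𝓝 0, f z ∈ (chartAt (Eu n) x).target :=
    hc.eventually ((chartAt (Eu n) x).open_target.mem_nhds hy)
  have hsm : ∀ᶠ z in 𝓝 0, ContMDiffAt 𝓘(ℝ, Eu n) 𝓘(ℝ, Eu n) 3 F z := htar.mono fun z hz =>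
    ((contMDiffAt_chart_symm x hz).comp z hf.contDiffAt.contMDiffAt).of_le (by norm_cast)
  have hpull : ∀ᶠ z in 𝓝 0, ∀ k : Bil n M,
      pull k F z = (jac f z).transpose * coef k x (f z) * jac f z := htar.mono fun z hz k =>
    pull_comp k ((contMDiffAt_chart_symm x hz).mdifferentiableAt (by simp))
      (hf.differentiable (by simp) z)
  have h1 : pull (g t) F 0 = 1 := by rw [hpull.self_of_nhds, hj, hf0, hP]
  have hPd : P.det ≠ 0 := by
    have h2 := congrArg Matrix.det hP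
    rw [Matrix.det_mul, Matrix.det_one] at h2
    exact right_ne_zero_of_mul_eq_one h2
  have hR : riem (pull (g t) F) 0 = act (riem (coef (g t) x) (ctr n x)) P := by
    have h2 := riem_pullback (G := coef (g t) x) (H := pull (g t) F) (f := f) (y := 0)
      (hf.contDiffAt.of_le (by norm_cast)) (hf0.symm ▸ hG.of_le (by norm_cast))
      (.of_forall (hm.isSymm x)) (hf0.symm ▸ hm.det_ne x hy) (hj.symm ▸ hPd)
      (hpull.mono fun z hz => hz _)
    rw [h2, hf0, hj]
  have hsnd : Tendsto (fun p : ℝ × Eu n => p.2) (𝓝 (t, 0)) (𝓝 0) := continuousAt_snd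
  have hfst : Tendsto (fun p : ℝ × Eu n => p.1) (𝓝 (t, 0)) (𝓝 t) := continuousAt_fst
  rw [← hR] at h ⊢
  refine maxp_normal (G := fun s => pull (g s) F) (t0 := t) (y0 := 0) (fun i j => ?_) ?_ h1
    (fun k i j => ?_) (fun i j => ?_) ξ c ?_
  · have hD : ∀ p a, ContDiffAt ℝ ∞ (fun z : ℝ × Eu n => jac f z.2 p a) (t, 0) := fun p a =>
      (CM.jac (m := ∞) (y := 0) hf.contDiffAt (by simp) p a).comp (t, (0 : Eu n))
        (f := fun z : ℝ × Eu n => z.2) contDiffAt_snd
    have hC : ∀ p q, ContDiffAt ℝ ∞ (fun z : ℝ × Eu n => coef (g z.1) x (f z.2) p q) (t, 0) := by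
      intro p q
      have h2 : ContDiffAt ℝ ∞ (fun z : ℝ × Eu n => coef (g z.1) x z.2 p q) (t, f 0) :=
        (hg.smooth x p q).contDiffAt (prod_mem_nhds hJ
          (hf0.symm ▸ (chartAt (Eu n) x).open_target.mem_nhds hy))
      exact h2.comp (t, (0 : Eu n)) (f := fun z : ℝ × Eu n => (z.1, f z.2))
        (contDiffAt_fst.prodMk (hf.contDiffAt.comp _ contDiffAt_snd))
    have h3 : ContDiffAt ℝ ∞ (fun z : ℝ × Eu n =>
        ((jac f z.2).transpose * coef (g z.1) x (f z.2) * jac f z.2) i j) (t, 0) := by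
      simp only [Matrix.mul_apply, Matrix.transpose_apply]
      exact ContDiffAt.sum fun q _ =>
        (ContDiffAt.sum fun p _ => (hD p i).mul (hC p q)).mul (hD q j)
    exact h3.congr_of_eventuallyEq ((hsnd.eventually hpull).mono fun z hz => by simp only [hz])
  · exact (hfst.eventually hJ).mono fun p hp => pull_isSymm (hg.symm _ hp) F _
  · exact congrFun (congrFun (hn _ (hpull.mono fun z hz => hz _) k) i) j
  · have h2 : CM 2 (pull (g t) F) 0 := hm.cm_pull (by norm_num) (by norm_cast) hsm.self_of_nhds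
    filter_upwards [hsm, h2.det_ne (by rw [h1]; simp)] with z hz1 hz2
    exact (hg.flow_pull ht' hz1 hz2 i j).hasDerivAt hJ
  · filter_upwards [hfst.eventually hJ, hfst.eventually h, hsnd.eventually hsm]
      with p hp1 hp2 hp3 hle Q hQ
    exact hp2 hle _ ((hg.isMetric hp1).pull_mem_vals hp3 hQ)

/-- The field `maxp` of `CurvFlow`. -/
theorem vals_maxp_field {T : ℝ} {g : ℝ → Bil n M} (hg : IsRicciFlow (Set.Ico 0 T) g) :
    ∀ t ∈ Set.Ioo 0 T, ∀ R ∈ vals (g t), ∀ ξ : T4 n →L[ℝ] ℝ,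
      (∀ s ∈ Set.Icc 0 t, ∀ R' ∈ vals (g s), ξ R' ≤ ξ R) → 0 ≤ ξ (Qq4 R) := by
  intro t ht R hR ξ h
  have h1 := vals_maxp hg ht hR ξ 0 ((lt_mem_nhds ht.1).mono fun s hs hle R' hR' => by
    rw [zero_mul, add_zero]; exact h s ⟨hs.le, hle⟩ R' hR')
  linarith

end

end Pool.Agent.Work.MP_3a9764_gt
end

-- merged part: Pool.Agent.Work.MP_3a9764_gt.GAlg
section
/-! Algebra of four-tensors in frames: non-negative curvature operator, limits. -/

set_option autoImplicit false

open scoped Manifold ContDiff Topology Matrix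
open Filter

namespace Pool.Agent.Work.MP_3a9764_gt

noncomputable section

namespace G

variable {n : ℕ}

theorem act_smul_right (c : ℝ) (R : T4 n) (P : Mat n) : act R (c • P) = c ^ 4 • act R P := by
  funext i j k l
  simp only [act, ev4, Pi.smul_apply, Matrix.smul_apply, smul_eq_mul, Finset.mul_sum]
  exact Finset.sum_congr rfl fun _ _ => Finset.sum_congr rfl fun _ _ =>
    Finset.sum_congr rfl fun _ _ => Finset.sum_congr rfl fun _ _ => by ring

theorem continuous_act : Continuous fun z : T4 n × Mat n => act z.1 z.2 := by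
  refine continuous_pi fun i => continuous_pi fun j => continuous_pi fun k =>
    continuous_pi fun l => ?_
  unfold act ev4
  refine continuous_finsetSum _ fun a _ => continuous_finsetSum _ fun b _ =>
    continuous_finsetSum _ fun c _ => continuous_finsetSum _ fun d _ => ?_
  have h : ∀ p q, Continuous fun z : T4 n × Mat n => z.2 p q :=
    fun p q => continuous_snd.matrix_elem p q
  have h' : Continuous fun z : T4 n × Mat n => z.1 a b c d := by fun_prop
  exact (((h'.mul (h a i)).mul (h b j)).mul (h c k)).mul (h d l)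

theorem tendsto_act {ι : Type} {l : Filter ι} {R : ι → T4 n} {R₀ : T4 n} {P : ι → Mat n}
    {P₀ : Mat n} (hR : Tendsto R l (𝓝 R₀)) (hP : Tendsto P l (𝓝 P₀)) :
    Tendsto (fun i => act (R i) (P i)) l (𝓝 (act R₀ P₀)) := by
  have h := (continuous_act.tendsto (R₀, P₀)).comp (hR.prodMk_nhds hP)
  simp only [Function.comp_def] at h
  exact h

/-- The quadratic form of a four-tensor on two-tensors. -/
def qf (R : T4 n) (φ : Mat n) : ℝ := ∑ i, ∑ j, ∑ k, ∑ l, R i j k l * φ i j * φ k l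

theorem quad_swap {ι : Type} [Fintype ι] (R M : ι → ι → ℝ) (φ : ι → ℝ) :
    ∑ u, ∑ v, (∑ α, ∑ β, R α β * M α u * M β v) * φ u * φ v =
      ∑ α, ∑ β, R α β * (∑ u, M α u * φ u) * (∑ v, M β v * φ v) := by
  simp only [Finset.sum_mul, Finset.mul_sum]
  calc _ = ∑ u, ∑ α, ∑ β, ∑ v, R α β * M α u * M β v * φ u * φ v := by
        refine Finset.sum_congr rfl fun u _ => ?_
        rw [Finset.sum_comm]
        exact Finset.sum_congr rfl fun α _ => Finset.sum_comm
    _ = ∑ α, ∑ β, ∑ u, ∑ v, R α β * M α u * M β v * φ u * φ v := by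
        rw [Finset.sum_comm]
        exact Finset.sum_congr rfl fun α _ => Finset.sum_comm
    _ = _ := by
        refine Finset.sum_congr rfl fun α _ => Finset.sum_congr rfl fun β _ => ?_
        rw [Finset.sum_comm]
        exact Finset.sum_congr rfl fun _ _ => Finset.sum_congr rfl fun _ _ => by ring

theorem qf_act (R : T4 n) (P φ : Mat n) : qf (act R P) φ = qf R (P * φ * Pᵀ) := by
  have h := quad_swap (ι := Fin n × Fin n) (fun α β => R α.1 α.2 β.1 β.2)
    (fun α u => P α.1 u.1 * P α.2 u.2) (fun u => φ u.1 u.2)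
  simp only [Fintype.sum_prod_type] at h
  have e : ∀ a b, (P * φ * Pᵀ) a b = ∑ i, ∑ j, P a i * P b j * φ i j := by
    intro a b
    simp only [Matrix.mul_apply, Matrix.transpose_apply, Finset.sum_mul]
    rw [Finset.sum_comm]
    exact Finset.sum_congr rfl fun _ _ => Finset.sum_congr rfl fun _ _ => by ring
  unfold qf
  simp only [e]
  rw [← h]
  refine Finset.sum_congr rfl fun _ _ => Finset.sum_congr rfl fun _ _ =>
    Finset.sum_congr rfl fun _ _ => Finset.sum_congr rfl fun _ _ => ?_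
  congr 2
  unfold act ev4
  exact Finset.sum_congr rfl fun _ _ => Finset.sum_congr rfl fun _ _ =>
    Finset.sum_congr rfl fun _ _ => Finset.sum_congr rfl fun _ _ => by ring

theorem opNonneg_act {R : T4 n} (h : OpNonneg R) (P : Mat n) : OpNonneg (act R P) := by
  intro φ hφ
  show 0 ≤ qf (act R P) φ
  rw [qf_act]
  refine h _ fun i j => ?_
  have h1 : φᵀ = -φ := by ext a b; exact hφ a b
  have h2 : (P * φ * Pᵀ)ᵀ = -(P * φ * Pᵀ) := by
    rw [Matrix.transpose_mul, Matrix.transpose_mul, Matrix.transpose_transpose, h1,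
      Matrix.neg_mul, Matrix.mul_neg, Matrix.mul_assoc]
  exact congrFun (congrFun h2 i) j

theorem opNonneg_of_act {R : T4 n} {P : Mat n} (hP : P.det ≠ 0) (h : OpNonneg (act R P)) :
    OpNonneg R := by
  have h1 := opNonneg_act h P⁻¹
  rwa [act_act, Matrix.mul_nonsing_inv _ (isUnit_iff_ne_zero.2 hP), act_one] at h1

theorem qf_add_smul (R S : T4 n) (a b : ℝ) (φ : Mat n) :
    qf (a • R + b • S) φ = a * qf R φ + b * qf S φ := by
  simp only [qf, Pi.add_apply, Pi.smul_apply, smul_eq_mul, Finset.mul_sum,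
    ← Finset.sum_add_distrib]
  exact Finset.sum_congr rfl fun _ _ => Finset.sum_congr rfl fun _ _ =>
    Finset.sum_congr rfl fun _ _ => Finset.sum_congr rfl fun _ _ => by ring

theorem scal4_smul (a : ℝ) (R : T4 n) : scal4 (a • R) = a * scal4 R := by
  simp only [scal4, Pi.smul_apply, smul_eq_mul, Finset.mul_sum]

theorem opNonneg_limit {R : ℕ → T4 n} {R₀ : T4 n} {Q : ℕ → ℝ} (hR : Tendsto R atTop (𝓝 R₀))
    (hQ : Tendsto Q atTop atTop)
    (h : ∀ ε > 0, ∃ C : ℝ, ∀ᶠ i in atTop,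
      OpNonneg (Q i • R i + (ε * scal4 (Q i • R i) + C) • Id4 n)) : OpNonneg R₀ := by
  intro φ hφ
  show 0 ≤ qf R₀ φ
  have hq : Continuous fun S : T4 n => qf S φ := by unfold qf; fun_prop
  have hs : Continuous fun S : T4 n => scal4 S := by unfold scal4; fun_prop
  have h1 : ∀ ε > 0, 0 ≤ qf R₀ φ + ε * (scal4 R₀ * qf (Id4 n) φ) := by
    intro ε hε
    obtain ⟨C, hC⟩ := h ε hε
    have h2 : Tendsto (fun i => qf (R i) φ + (ε * scal4 (R i) + C * (Q i)⁻¹) * qf (Id4 n) φ) atTop
        (𝓝 (qf R₀ φ + (ε * scal4 R₀ + C * 0) * qf (Id4 n) φ)) :=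
      ((hq.tendsto R₀).comp hR).add (((((hs.tendsto R₀).comp hR).const_mul ε).add
        (hQ.inv_tendsto_atTop.const_mul C)).mul_const _)
    have h3 := ge_of_tendsto h2 (b := 0) ?_
    · linarith
    filter_upwards [hC, hQ.eventually_gt_atTop 0] with i h4 h5
    have h6 : 0 ≤ qf (Q i • R i + (ε * scal4 (Q i • R i) + C) • Id4 n) φ := h4 φ hφ
    rw [qf_add_smul, scal4_smul] at h6
    have h7 := mul_nonneg (inv_pos.2 h5).le h6
    calc _ ≤ _ := h7
      _ = _ := by field_simp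
  have h2 : Tendsto (fun ε : ℝ => qf R₀ φ + ε * (scal4 R₀ * qf (Id4 n) φ)) (𝓝[>] 0)
      (𝓝 (qf R₀ φ + 0 * (scal4 R₀ * qf (Id4 n) φ))) :=
    (Continuous.tendsto (by fun_prop) 0).mono_left nhdsWithin_le_nhds
  have h3 := ge_of_tendsto h2 (b := 0) (eventually_mem_nhdsWithin.mono fun ε hε => h1 ε hε)
  linarith

end G

end

end Pool.Agent.Work.MP_3a9764_gt
end

-- merged part: Pool.Agent.Work.MP_3a9764_gt.GJet
section
/-! The curvature tensor as a continuous function of the two-jet of the metric. -/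

set_option autoImplicit false

open scoped Manifold ContDiff Topology Matrix
open Filter

namespace Pool.Agent.Work.MP_3a9764_gt

noncomputable section

namespace G

variable {n : ℕ}

/-- First derivatives of the coefficients. -/
def jet1 (G : Eu n → Mat n) (y : Eu n) : Fin n → Mat n := fun a => T.pdM a G y

/-- Second derivatives of the coefficients. -/
def jet2 (G : Eu n → Mat n) (y : Eu n) : Fin n → Fin n → Mat n :=
  fun a b => T.pdM a (T.pdM b G) y

/-- Christoffel symbols of the first kind. -/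
def lowJ (D : Fin n → Mat n) (i : Fin n) : Mat n :=
  fun l j => (1 / 2) * (D i j l + D j i l - D l i j)

/-- The curvature tensor in terms of the metric, its inverse and the derivatives. -/
def riemJ (B A : Mat n) (D : Fin n → Mat n) (E : Fin n → Fin n → Mat n) : T4 n :=
  fun i j k l => (B * ((-(A * D i * A) * lowJ D j + A * lowJ (E i) j) -
    (-(A * D j * A) * lowJ D i + A * lowJ (E j) i) +
    (A * lowJ D i * (A * lowJ D j) - A * lowJ D j * (A * lowJ D i)))) k l

theorem pdM_lowM {G : Eu n → Mat n} {y : Eu n} (hG : T.CM 2 G y) (a i : Fin n) :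
    T.pdM a (T.lowM G i) y = lowJ (jet2 G y a) i := by
  ext l j
  have h : ∀ b p q, DifferentiableAt ℝ (fun x => T.pdM b G x p q) y := fun b p q =>
    (hG.pdM (m := 1) (by norm_num) b).diff p q
  simp only [T.pdM, T.lowM, lowJ, jet2]
  rw [T.pd_const_mul]
  congr 1
  have h1 := T.pd_sub ((h i j l).add (h j i l)) (h l i j) a
  have h2 := T.pd_add (h i j l) (h j i l) a
  simp only [T.pdM, Pi.add_apply] at h1 h2
  rw [← h2]
  exact h1

theorem pdM_gamM {G : Eu n → Mat n} {y : Eu n} (hG : T.CM 2 G y) (hd : (G y).det ≠ 0)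
    (a i : Fin n) :
    T.pdM a (T.gamM G i) y = -((G y)⁻¹ * jet1 G y a * (G y)⁻¹) * lowJ (jet1 G y) i +
      (G y)⁻¹ * lowJ (jet2 G y a) i := by
  have h : T.gamM G i = fun x => (G x)⁻¹ * T.lowM G i x := funext fun x => T.gamM_eq G i x
  have hG1 : T.CM 1 G y := hG.of_le (by norm_num)
  rw [h, T.pdM_mul (hG1.inv hd) (hG.lowM (by norm_num) i), T.pdM_inv hG1 hd, pdM_lowM hG]
  rfl

theorem riem_eq_jet {G : Eu n → Mat n} {y : Eu n} (hG : T.CM 2 G y) (hd : (G y).det ≠ 0) :
    riem G y = riemJ (G y) (G y)⁻¹ (jet1 G y) (jet2 G y) := by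
  funext i j k l
  rw [T.riem_eq, T.omM_eq, pdM_gamM hG hd, pdM_gamM hG hd, T.gamM_eq, T.gamM_eq]
  rfl

theorem continuous_lowJ (i : Fin n) : Continuous fun D : Fin n → Mat n => lowJ D i := by
  refine continuous_pi fun l => continuous_pi fun j => ?_
  unfold lowJ
  fun_prop

theorem continuous_riemJ :
    Continuous fun z : (Mat n × Mat n) × (Fin n → Mat n) × (Fin n → Fin n → Mat n) =>
      riemJ z.1.1 z.1.2 z.2.1 z.2.2 := by
  refine continuous_pi fun i => continuous_pi fun j => continuous_pi fun k =>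
    continuous_pi fun l => ?_
  unfold riemJ
  have hB : Continuous fun z : (Mat n × Mat n) × (Fin n → Mat n) × (Fin n → Fin n → Mat n) =>
      z.1.1 := by fun_prop
  have hA : Continuous fun z : (Mat n × Mat n) × (Fin n → Mat n) × (Fin n → Fin n → Mat n) =>
      z.1.2 := by fun_prop
  have hD : ∀ a, Continuous
      fun z : (Mat n × Mat n) × (Fin n → Mat n) × (Fin n → Fin n → Mat n) => z.2.1 a :=
    fun a => by fun_prop
  have hL : ∀ a, Continuous
      fun z : (Mat n × Mat n) × (Fin n → Mat n) × (Fin n → Fin n → Mat n) => lowJ z.2.1 a :=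
    fun a => (continuous_lowJ a).comp (by fun_prop)
  have hE : ∀ a b, Continuous
      fun z : (Mat n × Mat n) × (Fin n → Mat n) × (Fin n → Fin n → Mat n) => lowJ (z.2.2 a) b :=
    fun a b => (continuous_lowJ b).comp (by fun_prop)
  refine Continuous.matrix_elem (hB.matrix_mul ?_) k l
  refine ((((((hA.matrix_mul (hD i)).matrix_mul hA).neg.matrix_mul (hL j)).add
    (hA.matrix_mul (hE i j))).sub (((((hA.matrix_mul (hD j)).matrix_mul hA).neg.matrix_mul
    (hL i)).add (hA.matrix_mul (hE j i))))).add ?_)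
  exact ((hA.matrix_mul (hL i)).matrix_mul (hA.matrix_mul (hL j))).sub
    ((hA.matrix_mul (hL j)).matrix_mul (hA.matrix_mul (hL i)))

theorem tendsto_inv {ι : Type} {l : Filter ι} {B : ι → Mat n} {B₀ : Mat n}
    (hB : Tendsto B l (𝓝 B₀)) (hd : B₀.det ≠ 0) : Tendsto (fun i => (B i)⁻¹) l (𝓝 B₀⁻¹) := by
  refine (continuousAt_matrix_inv B₀ ?_).tendsto.comp hB
  rw [Ring.inverse_eq_inv']
  exact continuousAt_inv₀ hd

theorem tendsto_riemJ {ι : Type} {l : Filter ι} {B : ι → Mat n} {B₀ : Mat n}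
    {D : ι → Fin n → Mat n} {D₀ : Fin n → Mat n} {E : ι → Fin n → Fin n → Mat n}
    {E₀ : Fin n → Fin n → Mat n} (hB : Tendsto B l (𝓝 B₀)) (hd : B₀.det ≠ 0)
    (hD : Tendsto D l (𝓝 D₀)) (hE : Tendsto E l (𝓝 E₀)) :
    Tendsto (fun i => riemJ (B i) (B i)⁻¹ (D i) (E i)) l (𝓝 (riemJ B₀ B₀⁻¹ D₀ E₀)) :=
  ((continuous_riemJ.tendsto ((B₀, B₀⁻¹), D₀, E₀)).comp
    ((hB.prodMk_nhds (tendsto_inv hB hd)).prodMk_nhds (hD.prodMk_nhds hE)) :)

end G

end

end Pool.Agent.Work.MP_3a9764_gt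
end

-- merged part: Pool.Agent.Work.MP_3a9764_gt.GCont
section
/-! Families of metrics on an open set: slices and joint continuity of the curvature. -/

set_option autoImplicit false

open scoped Manifold ContDiff Topology Matrix
open Filter

namespace Pool.Agent.Work.MP_3a9764_gt

noncomputable section

namespace G

variable {n : ℕ} {J : Set ℝ} {U : Set (Eu n)}

theorem contDiffAt_slice {u : ℝ × Eu n → ℝ} (hU : IsOpen U) (hu : ContDiffOn ℝ ∞ u (J ×ˢ U))
    {t : ℝ} (ht : t ∈ J) {y : Eu n} (hy : y ∈ U) : ContDiffAt ℝ ∞ (fun x => u (t, x)) y := by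
  have h1 : ContDiffOn ℝ ∞ (fun x => u (t, x)) U :=
    hu.comp (contDiff_const.prodMk contDiff_id).contDiffOn fun x hx => ⟨ht, hx⟩
  exact h1.contDiffAt (hU.mem_nhds hy)

theorem contDiffOn_pd {u : ℝ × Eu n → ℝ} (hJ : UniqueDiffOn ℝ J) (hU : IsOpen U)
    (hu : ContDiffOn ℝ ∞ u (J ×ˢ U)) (a : Fin n) :
    ContDiffOn ℝ ∞ (fun p : ℝ × Eu n => pd a (fun x => u (p.1, x)) p.2) (J ×ˢ U) := by
  have h1 : ContDiffOn ℝ ∞ (fderivWithin ℝ u (J ×ˢ U)) (J ×ˢ U) :=
    hu.fderivWithin (hJ.prod hU.uniqueDiffOn) (by simp)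
  refine (h1.clm_apply (contDiffOn_const
    (c := ((0, EuclideanSpace.single a 1) : ℝ × Eu n)))).congr ?_
  rintro ⟨t, y⟩ hp
  have h2 : HasFDerivWithinAt u (fderivWithin ℝ u (J ×ˢ U) (t, y)) (J ×ˢ U) (t, y) :=
    (hu.differentiableOn (by simp) _ hp).hasFDerivWithinAt
  have h3 : HasFDerivAt (fun x : Eu n => ((t, x) : ℝ × Eu n))
      (ContinuousLinearMap.inr ℝ ℝ (Eu n)) y := hasFDerivAt_prodMk_right t y
  have h4 := (h2.comp y h3.hasFDerivWithinAt (s := U) fun x hx => ⟨hp.1, hx⟩).hasFDerivAt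
    (hU.mem_nhds hp.2)
  show fderiv ℝ (u ∘ fun x : Eu n => ((t, x) : ℝ × Eu n)) y _ = _
  rw [h4.fderiv]
  rfl

variable {G : ℝ → Eu n → Mat n}

theorem continuousOn_mat
    (h : ∀ i j, ContDiffOn ℝ ∞ (fun p : ℝ × Eu n => G p.1 p.2 i j) (J ×ˢ U)) :
    ContinuousOn (fun p : ℝ × Eu n => G p.1 p.2) (J ×ˢ U) :=
  continuousOn_pi.2 fun i => continuousOn_pi.2 fun j => (h i j).continuousOn

theorem continuousOn_riem (hJ : UniqueDiffOn ℝ J) (hU : IsOpen U)
    (h : ∀ i j, ContDiffOn ℝ ∞ (fun p : ℝ × Eu n => G p.1 p.2 i j) (J ×ˢ U))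
    (hd : ∀ t ∈ J, ∀ y ∈ U, (G t y).det ≠ 0) :
    ContinuousOn (fun p : ℝ × Eu n => riem (G p.1) p.2) (J ×ˢ U) := by
  have h1 : ContinuousOn (fun p : ℝ × Eu n => jet1 (G p.1) p.2) (J ×ˢ U) :=
    continuousOn_pi.2 fun a => continuousOn_pi.2 fun i => continuousOn_pi.2 fun j =>
      (contDiffOn_pd hJ hU (h i j) a).continuousOn
  have h2 : ContinuousOn (fun p : ℝ × Eu n => jet2 (G p.1) p.2) (J ×ˢ U) :=
    continuousOn_pi.2 fun a => continuousOn_pi.2 fun b => continuousOn_pi.2 fun i =>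
      continuousOn_pi.2 fun j =>
        (contDiffOn_pd hJ hU (contDiffOn_pd hJ hU (h i j) b) a).continuousOn
  have h3 : ContinuousOn (fun p : ℝ × Eu n =>
      riemJ (G p.1 p.2) (G p.1 p.2)⁻¹ (jet1 (G p.1) p.2) (jet2 (G p.1) p.2)) (J ×ˢ U) :=
    fun p hp => tendsto_riemJ (continuousOn_mat h p hp) (hd _ hp.1 _ hp.2) (h1 p hp) (h2 p hp)
  refine h3.congr fun p hp => riem_eq_jet (fun i j => ?_) (hd _ hp.1 _ hp.2)
  exact (contDiffAt_slice hU (h i j) hp.1 hp.2).of_le (by norm_cast)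

end G

end

end Pool.Agent.Work.MP_3a9764_gt
end

-- merged part: Pool.Agent.Work.MP_3a9764_gt.GFrame
section
/-! Orthonormal frames of positive definite matrices. -/

set_option autoImplicit false

open scoped Manifold ContDiff Topology Matrix
open Filter

namespace Pool.Agent.Work.MP_3a9764_gt

noncomputable section

namespace G

variable {n : ℕ}

theorem det_ne_zero_of_frame {B P : Mat n} (h : Pᵀ * B * P = 1) : P.det ≠ 0 ∧ B.det ≠ 0 := by
  have h1 := congrArg Matrix.det h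
  rw [Matrix.det_mul, Matrix.det_mul, Matrix.det_one] at h1
  constructor
  · intro h0; rw [h0, mul_zero] at h1; exact zero_ne_one h1
  · intro h0; rw [h0, mul_zero, zero_mul] at h1; exact zero_ne_one h1

theorem exists_frame_posDef {B : Mat n} (hB : B.PosDef) : ∃ P : Mat n, Pᵀ * B * P = 1 := by
  have h1 := hB.1.conjStarAlgAut_star_eigenvectorUnitary
  set U : Mat n := (hB.1.eigenvectorUnitary : Mat n) with hU
  have h2 : Uᵀ * B * U = Matrix.diagonal hB.1.eigenvalues := by
    have h3 : star U = Uᵀ := by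
      ext i j; simp [Matrix.star_apply]
    rw [← h3]
    simpa [Unitary.conjStarAlgAut_apply, Function.comp_def] using h1
  refine ⟨U * Matrix.diagonal fun i => (√(hB.1.eigenvalues i))⁻¹, ?_⟩
  rw [Matrix.transpose_mul, Matrix.diagonal_transpose]
  calc _ = (Matrix.diagonal fun i => (√(hB.1.eigenvalues i))⁻¹) * (Uᵀ * B * U) *
        Matrix.diagonal fun i => (√(hB.1.eigenvalues i))⁻¹ := by simp only [Matrix.mul_assoc]
    _ = 1 := by
      rw [h2, Matrix.diagonal_mul_diagonal, Matrix.diagonal_mul_diagonal, ← Matrix.diagonal_one]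
      congr 1
      funext i
      have h4 := hB.eigenvalues_pos i
      have h5 : √(hB.1.eigenvalues i) ≠ 0 := (Real.sqrt_pos.2 h4).ne'
      have h6 := Real.mul_self_sqrt h4.le
      field_simp
      nlinarith [h6]

theorem frame_tendsto {ι : Type} {l : Filter ι} {B : ι → Mat n} {B₀ P : Mat n}
    (hB : Tendsto B l (𝓝 B₀)) (hs : ∀ᶠ i in l, (B i).IsSymm) (hP : Pᵀ * B₀ * P = 1) :
    ∃ P' : ι → Mat n, (∀ᶠ i in l, (P' i)ᵀ * B i * P' i = 1) ∧ Tendsto P' l (𝓝 P) := by
  obtain ⟨F, hF, hF1, hF2⟩ := exists_frame (n := n)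
  have hc : ContinuousAt F 1 :=
    continuousAt_pi.2 fun i => continuousAt_pi.2 fun j => (hF i j).continuousAt
  have h1 : Tendsto (fun i => Pᵀ * B i * P) l (𝓝 1) := by
    rw [← hP]
    have : Continuous fun X : Mat n => Pᵀ * X * P :=
      (continuous_const.matrix_mul continuous_id).matrix_mul continuous_const
    exact (this.tendsto B₀).comp hB
  refine ⟨fun i => P * F (Pᵀ * B i * P), ?_, ?_⟩
  · filter_upwards [h1.eventually hF2, hs] with i h2 h3
    have h4 : (Pᵀ * B i * P).IsSymm := by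
      unfold Matrix.IsSymm
      rw [Matrix.transpose_mul, Matrix.transpose_mul, Matrix.transpose_transpose, h3.eq,
        Matrix.mul_assoc]
    rw [← (h2 h4).2, Matrix.transpose_mul]
    simp only [Matrix.mul_assoc]
  · have h2 : Tendsto (fun i => F (Pᵀ * B i * P)) l (𝓝 1) := by
      rw [← hF1]; exact hc.tendsto.comp (hF1 ▸ h1)
    have h3 : Continuous fun X : Mat n => P * X := continuous_const.matrix_mul continuous_id
    have h4 := (h3.tendsto 1).comp h2
    rw [Matrix.mul_one] at h4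
    exact h4

theorem isCompact_frames {X : Type} [TopologicalSpace X] [T2Space X] {K : Set X}
    (hK : IsCompact K) {B : X → Mat n} (hB : ContinuousOn B K) (hp : ∀ x ∈ K, (B x).PosDef) :
    IsCompact {z : X × Mat n | z.1 ∈ K ∧ z.2ᵀ * B z.1 * z.2 = 1} := by
  have hq : ContinuousOn (fun z : X × (Fin n → ℝ) => z.2 ⬝ᵥ B z.1 *ᵥ z.2)
      (K ×ˢ Metric.sphere 0 1) := by
    have h1 : Continuous fun z : Mat n × (Fin n → ℝ) => z.2 ⬝ᵥ z.1 *ᵥ z.2 :=
      continuous_snd.dotProduct (continuous_fst.matrix_mulVec continuous_snd)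
    exact h1.comp_continuousOn ((hB.comp continuousOn_fst fun z hz => hz.1).prodMk
      continuousOn_snd)
  obtain ⟨m, hm, hm'⟩ : ∃ m > 0, ∀ x ∈ K, ∀ v : Fin n → ℝ, ‖v‖ = 1 → m ≤ v ⬝ᵥ B x *ᵥ v := by
    rcases (K ×ˢ Metric.sphere (0 : Fin n → ℝ) 1).eq_empty_or_nonempty with h | h
    · refine ⟨1, one_pos, fun x hx v hv => ?_⟩
      have : (x, v) ∈ K ×ˢ Metric.sphere (0 : Fin n → ℝ) 1 := ⟨hx, by simpa using hv⟩
      rw [h] at this
      exact this.elim
    · obtain ⟨z, hz, hz'⟩ := (hK.prod (isCompact_sphere _ _)).exists_isMinOn h hq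
      refine ⟨_, ?_, fun x hx v hv => hz' (show (x, v) ∈ _ from ⟨hx, by simpa using hv⟩)⟩
      have h2 : z.2 ≠ 0 := by
        intro h0
        have := hz.2
        rw [h0] at this
        simp at this
      simpa using (Matrix.posDef_iff_dotProduct_mulVec.1 (hp _ hz.1)).2 h2
  have hb : ∀ x ∈ K, ∀ v : Fin n → ℝ, v ⬝ᵥ B x *ᵥ v = 1 → ‖v‖ ≤ 1 + m⁻¹ := by
    intro x hx v hv
    have h0 : v ≠ 0 := by
      intro h0; rw [h0] at hv; simp at hv
    have h1 : 0 < ‖v‖ := norm_pos_iff.2 h0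
    have h2 := hm' x hx (‖v‖⁻¹ • v) (by rw [norm_smul, norm_inv, norm_norm, inv_mul_cancel₀ h1.ne'])
    rw [Matrix.mulVec_smul, smul_dotProduct, dotProduct_smul, hv, smul_eq_mul, smul_eq_mul] at h2
    have h3 : m * ‖v‖ ^ 2 ≤ 1 := by
      have := mul_le_mul_of_nonneg_right h2 (sq_nonneg ‖v‖)
      calc _ ≤ _ := this
        _ = 1 := by field_simp
    have h4 : ‖v‖ ^ 2 ≤ m⁻¹ := by
      rw [← one_div, le_div_iff₀ hm]; linarith
    nlinarith [sq_nonneg (‖v‖ - 1), inv_pos.2 hm]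
  have hC : IsCompact {P : Mat n | ∀ i j, P i j ∈ Set.Icc (-(1 + m⁻¹)) (1 + m⁻¹)} := by
    have := isCompact_univ_pi fun _ : Fin n => isCompact_univ_pi fun _ : Fin n =>
      (isCompact_Icc : IsCompact (Set.Icc (-(1 + m⁻¹)) (1 + m⁻¹)))
    have e : {P : Mat n | ∀ i j, P i j ∈ Set.Icc (-(1 + m⁻¹)) (1 + m⁻¹)} =
        Set.univ.pi fun _ : Fin n => Set.univ.pi fun _ : Fin n =>
          Set.Icc (-(1 + m⁻¹)) (1 + m⁻¹) :=
      Set.ext fun P => ⟨fun h i _ j _ => h i j, fun h i j => h i trivial j trivial⟩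
    rw [e]
    exact this
  refine (hK.prod hC).of_isClosed_subset ?_ ?_
  · have h1 : Continuous fun z : Mat n × Mat n => z.2ᵀ * z.1 * z.2 :=
      (continuous_snd.matrix_transpose.matrix_mul continuous_fst).matrix_mul continuous_snd
    have h2 : ContinuousOn (fun z : X × Mat n => z.2ᵀ * B z.1 * z.2) (K ×ˢ Set.univ) :=
      h1.comp_continuousOn (f := fun z : X × Mat n => (B z.1, z.2))
        ((hB.comp continuousOn_fst fun z hz => hz.1).prodMk continuousOn_snd)
    have h3 := h2.preimage_isClosed_of_isClosed (hK.isClosed.prod isClosed_univ)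
      (isClosed_singleton (x := (1 : Mat n)))
    have e : {z : X × Mat n | z.1 ∈ K ∧ z.2ᵀ * B z.1 * z.2 = 1} = K ×ˢ Set.univ ∩
        (fun z : X × Mat n => z.2ᵀ * B z.1 * z.2) ⁻¹' {1} :=
      Set.ext fun z => ⟨fun h => ⟨⟨h.1, trivial⟩, h.2⟩, fun h => ⟨h.1.1, h.2⟩⟩
    rw [e]
    exact h3
  · rintro ⟨x, P⟩ ⟨hx, hP⟩
    refine ⟨hx, fun i j => ?_⟩
    have h1 : (fun a => P a j) ⬝ᵥ B x *ᵥ (fun a => P a j) = 1 := by
      have := congrFun (congrFun hP j) j
      rw [Matrix.mul_assoc, Matrix.one_apply_eq] at this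
      exact this
    have h2 := (norm_le_pi_norm (fun a => P a j) i).trans (hb x hx _ h1)
    exact abs_le.1 h2

end G

end

end Pool.Agent.Work.MP_3a9764_gt
end

-- merged part: Pool.Agent.Work.MP_3a9764_gt.GCompact
section
/-! Compactness and lower semicontinuity of the sets of curvature tensors along a Ricci flow. -/

set_option autoImplicit false

open scoped Manifold ContDiff Topology Matrix
open Filter

namespace Pool.Agent.Work.MP_3a9764_gt

noncomputable section

namespace G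

variable {n : ℕ} {M : Type} [TopologicalSpace M] [ChartedSpace (Eu n) M]
  [IsManifold 𝓘(ℝ, Eu n) ∞ M] {T : ℝ} {g : ℝ → Bil n M}

theorem continuousOn_riem_coef (hg : IsRicciFlow (Set.Ico 0 T) g) (x : M) :
    ContinuousOn (fun p : ℝ × Eu n => riem (coef (g p.1) x) p.2)
      (Set.Ico 0 T ×ˢ (chartAt (Eu n) x).target) :=
  continuousOn_riem (G := fun t => coef (g t) x) (uniqueDiffOn_Ico 0 T)
    (chartAt (Eu n) x).open_target (hg.smooth x) fun _ ht _ hy => (hg.isMetric ht).det_ne x hy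

omit [IsManifold 𝓘(ℝ, Eu n) ∞ M] in
theorem exists_cover [CompactSpace M] : ∃ (S : Finset M) (K : M → Set (Eu n)),
    (∀ x, IsCompact (K x) ∧ K x ⊆ (chartAt (Eu n) x).target) ∧
      ∀ x, ∃ x₀ ∈ S, x ∈ (chartAt (Eu n) x₀).source ∧ chartAt (Eu n) x₀ x ∈ K x₀ := by
  have h : ∀ x : M, ∃ K : Set (Eu n), K ∈ 𝓝 (ctr n x) ∧ K ⊆ (chartAt (Eu n) x).target ∧
      IsCompact K := fun x =>
    local_compact_nhds ((chartAt (Eu n) x).open_target.mem_nhds (ctr_mem x))
  choose K hK1 hK2 hK3 using h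
  obtain ⟨S, hS⟩ := CompactSpace.elim_nhds_subcover
    (fun x : M => (chartAt (Eu n) x).source ∩ chartAt (Eu n) x ⁻¹' K x) fun x =>
      inter_mem ((chartAt (Eu n) x).open_source.mem_nhds (mem_chart_source _ x))
        ((chartAt (Eu n) x).continuousAt (mem_chart_source _ x) (hK1 x))
  refine ⟨S, K, fun x => ⟨hK3 x, hK2 x⟩, fun x => ?_⟩
  have hx : x ∈ ⋃ x₀ ∈ S, (chartAt (Eu n) x₀).source ∩ chartAt (Eu n) x₀ ⁻¹' K x₀ := by
    rw [hS]; trivial
  obtain ⟨x₀, h0, h1⟩ := Set.mem_iUnion₂.1 hx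
  exact ⟨x₀, h0, h1.1, h1.2⟩

theorem vals_compact [CompactSpace M] (hg : IsRicciFlow (Set.Ico 0 T) g) :
    ∀ t₁ < T, IsCompact {z : ℝ × T4 n | z.1 ∈ Set.Icc 0 t₁ ∧ z.2 ∈ vals (g z.1)} := by
  intro t₁ ht₁
  obtain ⟨S, K, hK, hS⟩ := exists_cover (n := n) (M := M)
  have hI : Set.Icc 0 t₁ ⊆ Set.Ico 0 T := Set.Icc_subset_Ico_right ht₁
  have hsub : ∀ x, Set.Icc 0 t₁ ×ˢ K x ⊆ Set.Ico 0 T ×ˢ (chartAt (Eu n) x).target :=
    fun x => Set.prod_mono hI (hK x).2
  have e : {z : ℝ × T4 n | z.1 ∈ Set.Icc 0 t₁ ∧ z.2 ∈ vals (g z.1)} = ⋃ x ∈ S,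
      (fun z : (ℝ × Eu n) × Mat n => (z.1.1, act (riem (coef (g z.1.1) x) z.1.2) z.2)) ''
        {z : (ℝ × Eu n) × Mat n | z.1 ∈ Set.Icc 0 t₁ ×ˢ K x ∧
          z.2ᵀ * coef (g z.1.1) x z.1.2 * z.2 = 1} := by
    ext ⟨t, R⟩
    constructor
    · rintro ⟨ht, x, P, hP, hR⟩
      obtain ⟨x₀, h0, h1, h2⟩ := hS x
      obtain ⟨P', h3, h4⟩ := (hg.isMetric (hI ht)).exists_frame_chart hP h1
      refine Set.mem_iUnion₂.2 ⟨x₀, h0, ((t, chartAt (Eu n) x₀ x), P'), ⟨⟨ht, h2⟩, h3⟩, ?_⟩
      exact Prod.ext rfl (h4.symm.trans hR.symm)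
    · intro h
      obtain ⟨x₀, -, ⟨⟨s, y⟩, P⟩, ⟨⟨h1, h2⟩, h3⟩, h4⟩ := Set.mem_iUnion₂.1 h
      obtain ⟨rfl, rfl⟩ := Prod.mk.inj h4
      exact ⟨h1, (hg.isMetric (hI h1)).coef_mem_vals x₀ ((hK x₀).2 h2) h3⟩
  rw [e]
  refine S.isCompact_biUnion fun x _ => IsCompact.image_of_continuousOn ?_ ?_
  · exact isCompact_frames (B := fun p : ℝ × Eu n => coef (g p.1) x p.2)
      (isCompact_Icc.prod (hK x).1)
      ((continuousOn_mat (G := fun t => coef (g t) x) (hg.smooth x)).mono (hsub x))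
      fun p hp => (hg.isMetric (hI hp.1)).posDef x ((hK x).2 hp.2)
  · refine (continuous_fst.comp continuous_fst).continuousOn.prodMk ?_
    exact continuous_act.comp_continuousOn
      (f := fun z : (ℝ × Eu n) × Mat n => (riem (coef (g z.1.1) x) z.1.2, z.2))
      (((continuousOn_riem_coef hg x).comp continuousOn_fst fun z hz => hsub x hz.1).prodMk
        continuousOn_snd)

theorem vals_lsc (hg : IsRicciFlow (Set.Ico 0 T) g) :
    ∀ t ∈ Set.Ioo 0 T, ∀ R ∈ vals (g t), ∀ ε > 0,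
      ∀ᶠ s in 𝓝 t, ∃ R' ∈ vals (g s), dist R' R < ε := by
  intro t ht R hR ε hε
  obtain ⟨x, P, hP, hR⟩ := hR
  rw [hR]
  have hJ : Set.Ico 0 T ∈ 𝓝 t := Ico_mem_nhds ht.1 ht.2
  have hn : Set.Ico 0 T ×ˢ (chartAt (Eu n) x).target ∈ 𝓝 (t, ctr n x) :=
    prod_mem_nhds hJ ((chartAt (Eu n) x).open_target.mem_nhds (ctr_mem x))
  have hi : Tendsto (fun s : ℝ => (s, ctr n x)) (𝓝 t) (𝓝 (t, ctr n x)) :=
    (continuous_id.prodMk continuous_const).tendsto t
  have h1 : Tendsto (fun s => coef (g s) x (ctr n x)) (𝓝 t) (𝓝 (coef (g t) x (ctr n x))) := by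
    have h := ((continuousOn_mat (G := fun t => coef (g t) x)
      (hg.smooth x)).continuousAt hn).tendsto.comp hi
    simp only [Function.comp_def] at h
    exact h
  have h2 : Tendsto (fun s => riem (coef (g s) x) (ctr n x)) (𝓝 t)
      (𝓝 (riem (coef (g t) x) (ctr n x))) := by
    have h := ((continuousOn_riem_coef hg x).continuousAt hn).tendsto.comp hi
    simp only [Function.comp_def] at h
    exact h
  have hs : ∀ᶠ s in 𝓝 t, (coef (g s) x (ctr n x)).IsSymm := by
    filter_upwards [hJ] with s hs using (hg.isMetric hs).isSymm x _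
  obtain ⟨P', h3, h4⟩ := frame_tendsto h1 hs hP
  have h5 := tendsto_act h2 h4
  filter_upwards [h3, Metric.tendsto_nhds.1 h5 ε hε] with s h6 h7
  exact ⟨_, ⟨x, P' s, h6, rfl⟩, h7⟩

end G

end

end Pool.Agent.Work.MP_3a9764_gt
end

-- merged part: Pool.Agent.Work.MP_3a9764_gt.GLimit
section
/-! Passage to a blow-up limit. -/

set_option autoImplicit false

open scoped Manifold ContDiff Topology Matrix
open Filter

namespace Pool.Agent.Work.MP_3a9764_gt

noncomputable section

namespace G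

variable {n : ℕ}

theorem pd_eq_iterated (u : Eu n → ℝ) (y : Eu n) (a : Fin n) :
    pd a u y = iteratedFDeriv ℝ 1 u y fun _ => EuclideanSpace.single a 1 := by
  rw [iteratedFDeriv_one_apply]; rfl

theorem pd_pd_eq_iterated {u : Eu n → ℝ} {y : Eu n} (hu : ContDiffAt ℝ 2 u y) (a b : Fin n) :
    pd a (pd b u) y =
      iteratedFDeriv ℝ 2 u y ![EuclideanSpace.single a 1, EuclideanSpace.single b 1] := by
  have hd : DifferentiableAt ℝ (fderiv ℝ u) y :=
    (hu.fderiv_right (m := 1) (by norm_num)).differentiableAt (by norm_num)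
  rw [iteratedFDeriv_two_apply]
  unfold pd
  rw [fderiv_clm_apply hd (differentiableAt_const _)]
  simp

theorem tendsto_apply {k : ℕ} {L : ℕ → ContinuousMultilinearMap ℝ (fun _ : Fin k => Eu n) ℝ}
    {L₀ : ContinuousMultilinearMap ℝ (fun _ : Fin k => Eu n) ℝ} (h : Tendsto L atTop (𝓝 L₀))
    (v : Fin k → Eu n) : Tendsto (fun i => L i v) atTop (𝓝 (L₀ v)) :=
  ((ContinuousMultilinearMap.apply ℝ (fun _ : Fin k => Eu n) ℝ v).continuous.tendsto L₀).comp h

theorem riem_tendsto {H : ℕ → Eu n → Mat n} {H₀ : Eu n → Mat n} {y : Eu n}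
    (hH : ∀ᶠ i in atTop, T.CM 2 (H i) y) (h₀ : T.CM 2 H₀ y) (hd : (H₀ y).det ≠ 0)
    (hc : ∀ a b k, Tendsto (fun i => iteratedFDeriv ℝ k (fun x => H i x a b) y) atTop
      (𝓝 (iteratedFDeriv ℝ k (fun x => H₀ x a b) y))) :
    Tendsto (fun i => H i y) atTop (𝓝 (H₀ y)) ∧
      Tendsto (fun i => riem (H i) y) atTop (𝓝 (riem H₀ y)) := by
  have h0 : Tendsto (fun i => H i y) atTop (𝓝 (H₀ y)) :=
    tendsto_pi_nhds.2 fun a => tendsto_pi_nhds.2 fun b => by
      simpa only [iteratedFDeriv_zero_apply] using tendsto_apply (hc a b 0) fun _ => 0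
  have h1 : Tendsto (fun i => jet1 (H i) y) atTop (𝓝 (jet1 H₀ y)) :=
    tendsto_pi_nhds.2 fun c => tendsto_pi_nhds.2 fun a => tendsto_pi_nhds.2 fun b => by
      simp only [jet1, T.pdM, pd_eq_iterated]
      exact tendsto_apply (hc a b 1) _
  have h2 : Tendsto (fun i => jet2 (H i) y) atTop (𝓝 (jet2 H₀ y)) :=
    tendsto_pi_nhds.2 fun c => tendsto_pi_nhds.2 fun d => tendsto_pi_nhds.2 fun a =>
      tendsto_pi_nhds.2 fun b => by
        have e : jet2 H₀ y c d a b = _ := pd_pd_eq_iterated (h₀ a b) c d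
        rw [e]
        refine (tendsto_apply (hc a b 2) _).congr' (hH.mono fun i hi => ?_)
        exact (pd_pd_eq_iterated (hi a b) c d).symm
  refine ⟨h0, ?_⟩
  rw [riem_eq_jet h₀ hd]
  refine (tendsto_riemJ h0 hd h1 h2).congr' ?_
  have h3 : ∀ᶠ i in atTop, (H i y).det ≠ 0 :=
    (((continuous_id.matrix_det).tendsto (H₀ y)).comp h0).eventually_ne hd
  filter_upwards [hH, h3] with i h4 h5
  exact (riem_eq_jet h4 h5).symm

variable {M : Type} [TopologicalSpace M] [ChartedSpace (Eu n) M] [IsManifold 𝓘(ℝ, Eu n) ∞ M]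

theorem smul_mem_vals {g : Bil n M} (hg : IsMetric g) {F : Eu n → M} {y : Eu n}
    (hF : ContMDiffAt 𝓘(ℝ, Eu n) 𝓘(ℝ, Eu n) 3 F y) {c : ℝ} (hc : 0 < c) {P : Mat n}
    (hP : Pᵀ * (c • pull g F y) * P = 1) :
    c • act (riem (fun x => c • pull g F x) y) P ∈ vals g := by
  have h1 : (√c • P)ᵀ * pull g F y * (√c • P) = 1 := by
    rw [← hP, Matrix.transpose_smul]
    simp only [Matrix.smul_mul, Matrix.mul_smul, smul_smul, Real.mul_self_sqrt hc.le]
  have h2 := hg.pull_mem_vals hF h1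
  rw [act_smul_right, show √c ^ 4 = c * c by
    rw [show √c ^ 4 = (√c * √c) * (√c * √c) by ring, Real.mul_self_sqrt hc.le]] at h2
  rwa [riem_smul hc.ne', act_smul, smul_smul]

theorem nonneg_of_pinched {T₀ : ℝ} {g : ℝ → Bil n M} (hg : IsRicciFlow (Set.Ico 0 T₀) g)
    (hp : Pinched T₀ fun t => vals (g t)) {N : Type} [TopologicalSpace N] [ChartedSpace (Eu n) N]
    [IsManifold 𝓘(ℝ, Eu n) ∞ N] {J : Set ℝ} {h : ℝ → Bil n N} {p : N}
    (hl : IsBlowupLimit T₀ g J h p) : ∀ s ∈ J, NonnegCurvOp (h s) := by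
  obtain ⟨hh, -, -, x, t, Q, Φ, -, -, -, hQ, hmono, hun, -, hs, hc⟩ := hl
  intro s hsJ q
  have hm := hh.isMetric hsJ
  have hy := ctr_mem (n := n) q
  have hq : ∀ᶠ i in atTop, q ∈ (Φ i).source := by
    obtain ⟨i₀, hi₀⟩ := Set.mem_iUnion.1 (hun ▸ Set.mem_univ q)
    exact (eventually_ge_atTop i₀).mono fun i hi => hmono hi hi₀
  have hF : ∀ᶠ i in atTop, ContMDiffAt 𝓘(ℝ, Eu n) 𝓘(ℝ, Eu n) 3
      (Φ i ∘ (chartAt (Eu n) q).symm) (ctr n q) := by
    filter_upwards [hq] with i hi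
    have e : (chartAt (Eu n) q).symm (ctr n q) = q :=
      (chartAt (Eu n) q).left_inv (mem_chart_source _ q)
    have h1 : ContMDiffAt 𝓘(ℝ, Eu n) 𝓘(ℝ, Eu n) ∞ (Φ i) ((chartAt (Eu n) q).symm (ctr n q)) := by
      rw [e]
      exact (Φ i).contMDiffOn_toFun.contMDiffAt ((Φ i).open_source.mem_nhds hi)
    exact (h1.comp _ (contMDiffAt_chart_symm q hy)).of_le (by norm_cast)
  set H : ℕ → Eu n → Mat n := fun i y =>
    Q i • pull (g (t i + s / Q i)) (Φ i ∘ (chartAt (Eu n) q).symm) y with hH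
  have hcm : ∀ᶠ i in atTop, T.CM 2 (H i) (ctr n q) := by
    filter_upwards [hF, hs s hsJ] with i h1 h2
    exact T.CM.smul contDiffAt_const
      ((hg.isMetric h2).cm_pull (k := 3) (by norm_num) (by norm_cast) h1)
  have hcv : ∀ a b k, Tendsto (fun i => iteratedFDeriv ℝ k (fun y => H i y a b) (ctr n q)) atTop
      (𝓝 (iteratedFDeriv ℝ k (fun y => coef (h s) q y a b) (ctr n q))) := by
    intro a b k
    have h1 := (hc q a b k {(s, ctr n q)} isCompact_singleton
      (Set.singleton_subset_iff.2 ⟨hsJ, hy⟩)).tendsto_at (Set.mem_singleton _)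
    simpa only [hH, Matrix.smul_apply, smul_eq_mul] using h1
  obtain ⟨h1, h2⟩ := riem_tendsto hcm ((hm.smooth q _ hy).of_le (by norm_cast)) (hm.det_ne q hy)
    hcv
  obtain ⟨P, hP⟩ := exists_frame_posDef (hm.posDef q hy)
  have hsy : ∀ᶠ i in atTop, (H i (ctr n q)).IsSymm := by
    filter_upwards [hs s hsJ] with i hi
    exact (pull_isSymm (hg.isMetric hi).symm _ _).smul (Q i)
  obtain ⟨P', h3, h4⟩ := frame_tendsto h1 hsy hP
  have h5 := tendsto_act h2 h4
  show OpNonneg (riem (coef (h s) q) (ctr n q))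
  refine opNonneg_of_act (det_ne_zero_of_frame hP).1 (opNonneg_limit h5 hQ fun ε hε => ?_)
  obtain ⟨C, hC⟩ := hp ε hε
  refine ⟨C, ?_⟩
  filter_upwards [h3, hF, hs s hsJ, hQ.eventually_gt_atTop 0] with i h6 h7 h8 h9
  exact hC _ h8 _ (smul_mem_vals (hg.isMetric h8) h7 h9 h6)

end G

end

end Pool.Agent.Work.MP_3a9764_gt
end

-- merged part: Pool.Agent.Work.MP_3a9764_gt.Geo
section
/-! The geometric part: evolution of curvature, maximum principle, passage to the limit. -/

set_option autoImplicit false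

open scoped Manifold ContDiff Topology
open Filter

namespace Pool.Agent.Work.MP_3a9764_gt

noncomputable section

variable {n : ℕ} {M : Type} [TopologicalSpace M] [ChartedSpace (Eu n) M]
  [IsManifold 𝓘(ℝ, Eu n) ∞ M]

theorem curvFlow_vals [CompactSpace M] {T : ℝ} {g : ℝ → Bil n M}
    (hg : IsRicciFlow (Set.Ico 0 T) g) : CurvFlow n T fun t => vals (g t) :=
  ⟨fun _ ht _ hR => (hg.isMetric ht).vals_isCurv hR, fun _ _ _ hR _ hP => vals_orth hR hP,
    G.vals_compact hg, G.vals_lsc hg, vals_maxp_field hg⟩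

omit [IsManifold 𝓘(ℝ, Eu n) ∞ M] in
theorem pic_vals {g : Bil n M} (hg : HasPIC g) {R : T4 n} (hR : R ∈ vals g)
    {e : Fin 4 → Fin n → ℝ} (he : ON4 e) : 0 < iso4 R e :=
  pic_vals' hg hR he

theorem nonneg_of_pinched {T : ℝ} {g : ℝ → Bil n M} (hg : IsRicciFlow (Set.Ico 0 T) g)
    (hp : Pinched T fun t => vals (g t)) {N : Type} [TopologicalSpace N] [ChartedSpace (Eu n) N]
    [IsManifold 𝓘(ℝ, Eu n) ∞ N] {J : Set ℝ} {h : ℝ → Bil n N} {p : N}
    (hl : IsBlowupLimit T g J h p) : ∀ s ∈ J, NonnegCurvOp (h s) :=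
  G.nonneg_of_pinched hg hp hl

end

end Pool.Agent.Work.MP_3a9764_gt
end

-- merged part: Pool.Agent.Work.MP_3a9764_gt.Defs2
section
/-! Two further curvature conditions. -/

set_option autoImplicit false

open scoped Manifold ContDiff Topology

namespace Pool.Agent.Work.MP_3a9764_gt

noncomputable section

variable {n : ℕ} {M : Type} [TopologicalSpace M] [ChartedSpace (Eu n) M]

/-- Weakly PIC2: the product with a flat plane has non-negative isotropic curvature. -/
def WeakPIC2 (g : Bil n M) : Prop :=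
  ∀ (x : M) (e : Fin 4 → Fin n → ℝ),
    (∀ a b, ∑ i, ∑ j, coef g x (ctr n x) i j * e a i * e b j = if a = b then 1 else 0) →
    ∀ la ∈ Set.Icc (0 : ℝ) 1, ∀ mu ∈ Set.Icc (0 : ℝ) 1,
    0 ≤ ev4 (riem (coef g x) (ctr n x)) (e 0) (e 2) (e 0) (e 2) +
      la ^ 2 * ev4 (riem (coef g x) (ctr n x)) (e 0) (e 3) (e 0) (e 3) +
      mu ^ 2 * ev4 (riem (coef g x) (ctr n x)) (e 1) (e 2) (e 1) (e 2) +
      la ^ 2 * mu ^ 2 * ev4 (riem (coef g x) (ctr n x)) (e 1) (e 3) (e 1) (e 3) -
      2 * la * mu * ev4 (riem (coef g x) (ctr n x)) (e 0) (e 1) (e 2) (e 3)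

/-- The scalar curvature is non-negative and the isotropic curvature is at least `θ` times the
scalar curvature. -/
def UnifPIC (θ : ℝ) (g : Bil n M) : Prop :=
  ∀ x : M, 0 ≤ scalar (coef g x) (ctr n x) ∧ ∀ e : Fin 4 → Fin n → ℝ,
    (∀ a b, ∑ i, ∑ j, coef g x (ctr n x) i j * e a i * e b j = if a = b then 1 else 0) →
    θ * scalar (coef g x) (ctr n x) ≤
      ev4 (riem (coef g x) (ctr n x)) (e 0) (e 2) (e 0) (e 2) +
      ev4 (riem (coef g x) (ctr n x)) (e 0) (e 3) (e 0) (e 3) +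
      ev4 (riem (coef g x) (ctr n x)) (e 1) (e 2) (e 1) (e 2) +
      ev4 (riem (coef g x) (ctr n x)) (e 1) (e 3) (e 1) (e 3) -
      2 * ev4 (riem (coef g x) (ctr n x)) (e 0) (e 1) (e 2) (e 3)

end

end Pool.Agent.Work.MP_3a9764_gt
end

-- merged part: Pool.Agent.Work.MP_3a9764_gt.GLim2
section
/-! Asymptotic cones pass to blow-up limits. -/

set_option autoImplicit false

open scoped Manifold ContDiff Topology Matrix ComplexConjugate
open Filter

namespace Pool.Agent.Work.MP_3a9764_gt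

noncomputable section

namespace G

variable {n : ℕ}

theorem lin_limit {R : ℕ → T4 n} {R₀ : T4 n} {Q : ℕ → ℝ} (hR : Tendsto R atTop (𝓝 R₀))
    (hQ : Tendsto Q atTop atTop) (l : T4 n →ₗ[ℝ] ℝ)
    (h : ∀ ε > 0, ∃ C : ℝ, ∀ᶠ i in atTop, -(ε * ‖Q i • R i‖ + C) ≤ l (Q i • R i)) : 0 ≤ l R₀ := by
  have hl : Continuous l := l.continuous_of_finiteDimensional
  have h1 : ∀ ε > 0, 0 ≤ l R₀ + ε * ‖R₀‖ := by
    intro ε hε
    obtain ⟨C, hC⟩ := h ε hε
    have h2 : Tendsto (fun i => l (R i) + (ε * ‖R i‖ + C * (Q i)⁻¹)) atTop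
        (𝓝 (l R₀ + (ε * ‖R₀‖ + C * 0))) :=
      ((hl.tendsto R₀).comp hR).add ((hR.norm.const_mul ε).add
        (hQ.inv_tendsto_atTop.const_mul C))
    have h3 := ge_of_tendsto h2 (b := 0) ?_
    · linarith
    filter_upwards [hC, hQ.eventually_gt_atTop 0] with i h4 h5
    rw [map_smul, norm_smul, Real.norm_of_nonneg h5.le, smul_eq_mul] at h4
    have h6 : 0 ≤ Q i * l (R i) + (ε * (Q i * ‖R i‖) + C) := by linarith
    have h7 := mul_nonneg (inv_pos.2 h5).le h6
    calc _ ≤ _ := h7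
      _ = _ := by field_simp
  have h2 : Tendsto (fun ε : ℝ => l R₀ + ε * ‖R₀‖) (𝓝[>] 0) (𝓝 (l R₀ + 0 * ‖R₀‖)) :=
    (Continuous.tendsto (by fun_prop) 0).mono_left nhdsWithin_le_nhds
  have h3 := ge_of_tendsto h2 (b := 0) (eventually_mem_nhdsWithin.mono fun ε hε => h1 ε hε)
  linarith

variable {M : Type} [TopologicalSpace M] [ChartedSpace (Eu n) M] [IsManifold 𝓘(ℝ, Eu n) ∞ M]

theorem asymP_limit {T₀ : ℝ} {g : ℝ → Bil n M} (hg : IsRicciFlow (Set.Ico 0 T₀) g)
    {Pr : T4 n → Prop} (hp : AsymP T₀ (fun t => vals (g t)) Pr) {N : Type} [TopologicalSpace N]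
    [ChartedSpace (Eu n) N] [IsManifold 𝓘(ℝ, Eu n) ∞ N] {J : Set ℝ} {h : ℝ → Bil n N} {p : N}
    (hl : IsBlowupLimit T₀ g J h p) : ∀ s ∈ J, ∀ R ∈ vals (h s), Pr R := by
  obtain ⟨hh, -, -, x, t, Q, Φ, -, -, -, hQ, hmono, hun, -, hs, hc⟩ := hl
  intro s hsJ R hR
  have hm := hh.isMetric hsJ
  have hcurv := hm.vals_isCurv hR
  obtain ⟨q, P, hP, rfl⟩ := hR
  have hy := ctr_mem (n := n) q
  have hq : ∀ᶠ i in atTop, q ∈ (Φ i).source := by
    obtain ⟨i₀, hi₀⟩ := Set.mem_iUnion.1 (hun ▸ Set.mem_univ q)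
    exact (eventually_ge_atTop i₀).mono fun i hi => hmono hi hi₀
  have hF : ∀ᶠ i in atTop, ContMDiffAt 𝓘(ℝ, Eu n) 𝓘(ℝ, Eu n) 3
      (Φ i ∘ (chartAt (Eu n) q).symm) (ctr n q) := by
    filter_upwards [hq] with i hi
    have e : (chartAt (Eu n) q).symm (ctr n q) = q :=
      (chartAt (Eu n) q).left_inv (mem_chart_source _ q)
    have h1 : ContMDiffAt 𝓘(ℝ, Eu n) 𝓘(ℝ, Eu n) ∞ (Φ i) ((chartAt (Eu n) q).symm (ctr n q)) := by
      rw [e]
      exact (Φ i).contMDiffOn_toFun.contMDiffAt ((Φ i).open_source.mem_nhds hi)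
    exact (h1.comp _ (contMDiffAt_chart_symm q hy)).of_le (by norm_cast)
  set H : ℕ → Eu n → Mat n := fun i y =>
    Q i • pull (g (t i + s / Q i)) (Φ i ∘ (chartAt (Eu n) q).symm) y with hH
  have hcm : ∀ᶠ i in atTop, T.CM 2 (H i) (ctr n q) := by
    filter_upwards [hF, hs s hsJ] with i h1 h2
    exact T.CM.smul contDiffAt_const
      ((hg.isMetric h2).cm_pull (k := 3) (by norm_num) (by norm_cast) h1)
  have hcv : ∀ a b k, Tendsto (fun i => iteratedFDeriv ℝ k (fun y => H i y a b) (ctr n q)) atTop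
      (𝓝 (iteratedFDeriv ℝ k (fun y => coef (h s) q y a b) (ctr n q))) := by
    intro a b k
    have h1 := (hc q a b k {(s, ctr n q)} isCompact_singleton
      (Set.singleton_subset_iff.2 ⟨hsJ, hy⟩)).tendsto_at (Set.mem_singleton _)
    simpa only [hH, Matrix.smul_apply, smul_eq_mul] using h1
  obtain ⟨h1, h2⟩ := riem_tendsto hcm ((hm.smooth q _ hy).of_le (by norm_cast)) (hm.det_ne q hy)
    hcv
  have hsy : ∀ᶠ i in atTop, (H i (ctr n q)).IsSymm := by
    filter_upwards [hs s hsJ] with i hi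
    exact (pull_isSymm (hg.isMetric hi).symm _ _).smul (Q i)
  obtain ⟨P', h3, h4⟩ := frame_tendsto h1 hsy hP
  have h5 := tendsto_act h2 h4
  obtain ⟨K, l, hl, hK⟩ := hp
  refine hK _ hcurv fun τ => lin_limit h5 hQ (l τ) fun ε hε => ?_
  obtain ⟨C, hC⟩ := hl ε hε
  refine ⟨C, ?_⟩
  filter_upwards [h3, hF, hs s hsJ, hQ.eventually_gt_atTop 0] with i h6 h7 h8 h9
  exact hC _ h8 _ (smul_mem_vals (hg.isMetric h8) h7 h9 h6) τ

theorem ev4_smul₁ (R : T4 n) (r : ℝ) (a b c d : Fin n → ℝ) :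
    ev4 R (r • a) b c d = r * ev4 R a b c d := by
  simp only [ev4, Pi.smul_apply, smul_eq_mul, Finset.mul_sum]
  exact Finset.sum_congr rfl fun _ _ => Finset.sum_congr rfl fun _ _ =>
    Finset.sum_congr rfl fun _ _ => Finset.sum_congr rfl fun _ _ => by ring

theorem ev4_smul₂ (R : T4 n) (r : ℝ) (a b c d : Fin n → ℝ) :
    ev4 R a (r • b) c d = r * ev4 R a b c d := by
  simp only [ev4, Pi.smul_apply, smul_eq_mul, Finset.mul_sum]
  exact Finset.sum_congr rfl fun _ _ => Finset.sum_congr rfl fun _ _ =>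
    Finset.sum_congr rfl fun _ _ => Finset.sum_congr rfl fun _ _ => by ring

theorem ev4_smul₃ (R : T4 n) (r : ℝ) (a b c d : Fin n → ℝ) :
    ev4 R a b (r • c) d = r * ev4 R a b c d := by
  simp only [ev4, Pi.smul_apply, smul_eq_mul, Finset.mul_sum]
  exact Finset.sum_congr rfl fun _ _ => Finset.sum_congr rfl fun _ _ =>
    Finset.sum_congr rfl fun _ _ => Finset.sum_congr rfl fun _ _ => by ring

/-- A frame of a metric in the coordinates of an orthonormal basis. -/
theorem frame_coord {B P : Mat n} (hP : Pᵀ * B * P = 1) {e : Fin 4 → Fin n → ℝ}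
    (he : ∀ a b, ∑ i, ∑ j, B i j * e a i * e b j = if a = b then 1 else 0) :
    ∃ f : Fin 4 → Fin n → ℝ, ON4 f ∧ ∀ a, P.mulVec (f a) = e a := by
  have hd := (det_ne_zero_of_frame hP).1
  have h1 : ∀ a, P.mulVec (P⁻¹.mulVec (e a)) = e a := fun a => by
    rw [Matrix.mulVec_mulVec, Matrix.mul_nonsing_inv _ (isUnit_iff_ne_zero.2 hd),
      Matrix.one_mulVec]
  refine ⟨fun a => P⁻¹.mulVec (e a), fun a b => ?_, h1⟩
  rw [← he a b]
  have key : ∀ u v : Fin n → ℝ,
      ∑ i, u i * v i = ∑ i, ∑ j, B i j * P.mulVec u i * P.mulVec v j := by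
    intro u v
    have h2 : ∑ i, u i * v i = u ⬝ᵥ (Pᵀ * B * P).mulVec v := by
      rw [hP, Matrix.one_mulVec]; rfl
    rw [h2, ← Matrix.mulVec_mulVec, ← Matrix.mulVec_mulVec, Matrix.dotProduct_mulVec,
      Matrix.vecMul_transpose]
    generalize P.mulVec u = u'
    generalize P.mulVec v = v'
    simp only [dotProduct, Matrix.mulVec, Finset.mul_sum]
    exact Finset.sum_congr rfl fun _ _ => Finset.sum_congr rfl fun _ _ => by ring
  rw [key, h1, h1]

theorem weakPIC2_of {g : Bil n M} (hg : IsMetric g) (h : ∀ R ∈ vals g, PIC2w R) : WeakPIC2 g := by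
  intro x e he la _ mu _
  obtain ⟨P, hP⟩ := exists_frame_posDef (hg.posDef x (ctr_mem (n := n) x))
  obtain ⟨f, -, hf⟩ := frame_coord hP he
  have hR : act (riem (coef g x) (ctr n x)) P ∈ vals g := ⟨x, P, hP, rfl⟩
  have h1 := h _ hR (cv (f 0) (mu • f 1)) (cv (f 2) (la • f 3))
  have h2 := rq_wedge_cv (hg.vals_isCurv hR) ![f 0, mu • f 1, f 2, f 3] la
  simp only [Matrix.cons_val_zero, Matrix.cons_val_one, Matrix.cons_val] at h2
  rw [h2] at h1
  simp only [ev4_smul₁, ev4_smul₂, ev4_smul₃, ev4_act, hf] at h1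
  linarith

theorem scal4_act {G : Eu n → Mat n} {y : Eu n} {P : Mat n} (hP : Pᵀ * G y * P = 1) :
    scal4 (act (riem G y) P) = scalar G y := by
  obtain ⟨hd, hG⟩ := det_ne_zero_of_frame hP
  have h1 : (G y)⁻¹ = P * Pᵀ := by
    refine Matrix.inv_eq_right_inv ?_
    have h2 : P * (Pᵀ * G y) = 1 := mul_eq_one_comm.1 hP
    exact mul_eq_one_comm.1 (by rw [Matrix.mul_assoc]; exact h2)
  simp only [scalar, ricci_eq_riem hG, h1, scal4, act, ev4, Matrix.mul_apply,
    Matrix.transpose_apply, Finset.sum_mul, Finset.mul_sum]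
  calc _ = ∑ a, ∑ b, ∑ c, ∑ d, ∑ i, ∑ j, riem G y a b c d * P a i * P b j * P c i * P d j := by
        rw [← Finset.sum_product', Finset.sum_comm]
        refine Finset.sum_congr rfl fun a _ => ?_
        rw [Finset.sum_comm]
        refine Finset.sum_congr rfl fun b _ => ?_
        rw [Finset.sum_comm]
        refine Finset.sum_congr rfl fun c _ => ?_
        rw [Finset.sum_comm]
        refine Finset.sum_congr rfl fun d _ => ?_
        rw [Finset.sum_product]
    _ = ∑ b, ∑ d, ∑ a, ∑ c, ∑ i, ∑ j, riem G y a b c d * P a i * P b j * P c i * P d j := by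
        rw [Finset.sum_comm]
        refine Finset.sum_congr rfl fun b _ => ?_
        rw [T.sum_rot3, T.sum_rot3]
    _ = _ := by
        refine Finset.sum_congr rfl fun b _ => Finset.sum_congr rfl fun d _ =>
          Finset.sum_congr rfl fun a _ => Finset.sum_congr rfl fun c _ => ?_
        exact Finset.sum_congr rfl fun _ _ => Finset.sum_congr rfl fun _ _ => by ring

/-- The pinching constant. -/
def theta (n : ℕ) : ℝ :=
  8 * bOne n ^ 2 * (((n : ℝ) - 2) / 2 - 1 / 3) / (n * (1 + 2 * ((n : ℝ) - 1) * aa n (bOne n)))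

theorem bOne_pos (hn : 5 ≤ n) : 0 < bOne n := by
  have h : (5 : ℝ) ≤ n := by exact_mod_cast hn
  unfold bOne
  positivity

theorem theta_pos (hn : 5 ≤ n) : 0 < theta n := by
  have h : (5 : ℝ) ≤ n := by exact_mod_cast hn
  have h1 := AD_a (n := n) (by omega) (bOne_pos hn).le
  have h2 := bOne_pos hn
  have h3 : 0 < ((n : ℝ) - 2) / 2 - 1 / 3 := by linarith
  unfold theta
  positivity

theorem rq_add (R S : T4 n) (v : CMat n) : rq (R + S) v = rq R v + rq S v := by
  simp only [rq, cq_add, Complex.add_re]; ring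

theorem rq_smul (c : ℝ) (R : T4 n) (v : CMat n) : rq (c • R) v = c * rq R v := by
  simp only [rq, cq_smul, Complex.re_ofReal_mul]; ring

theorem hf_one (x y : Fin n → ℂ) : hf (1 : Mat n) x y = ∑ i, x i * conj (y i) := by
  simp [hf, Matrix.one_apply, apply_ite]

theorem hf_sub (A B : Mat n) (x y : Fin n → ℂ) : hf (A - B) x y = hf A x y - hf B x y := by
  simp only [hf, Matrix.sub_apply, ← Finset.sum_sub_distrib]
  refine Finset.sum_congr rfl fun _ _ => Finset.sum_congr rfl fun _ _ => ?_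
  push_cast; ring

theorem hf_smul (c : ℝ) (A : Mat n) (x y : Fin n → ℂ) : hf (c • A) x y = c * hf A x y := by
  simp only [hf, Matrix.smul_apply, smul_eq_mul, Finset.mul_sum]
  refine Finset.sum_congr rfl fun _ _ => Finset.sum_congr rfl fun _ _ => ?_
  push_cast; ring

theorem hf_one_cv (a b c d : Fin n → ℝ) : hf (1 : Mat n) (cv a b) (cv c d) =
    ((a ⬝ᵥ c + b ⬝ᵥ d : ℝ) : ℂ) + Complex.I * ((b ⬝ᵥ c - a ⬝ᵥ d : ℝ) : ℂ) := by
  have h := fr_cv_dot a b c (-d)
  rw [← fr_star_cv] at h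
  rw [hf_one]
  refine Eq.trans ?_ (h.trans ?_)
  · rfl
  · simp only [dotProduct_neg]
    push_cast; ring

theorem nv_cv (a b : Fin n → ℝ) : nv (cv a b) = a ⬝ᵥ a + b ⬝ᵥ b := by
  simp only [nv, cv, dotProduct, ← Finset.sum_add_distrib]
  refine Finset.sum_congr rfl fun i _ => ?_
  simp [Complex.normSq_apply]

theorem g1_unif (hn : 5 ≤ n) {R : T4 n} (hR : IsCurv R) (h : G1 R) :
    0 ≤ scal4 R ∧ ∀ e, ON4 e → theta n * scal4 R ≤ iso4 R e := by
  have hn3 : 3 ≤ n := by omega
  have hb := bOne_pos hn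
  have hn0 := AD_n hn3
  have ha := AD_a hn3 hb.le
  set S := linv (bOne n) R with hS
  have hSc : IsCurv S := isCurv_linv hR _
  have hlb : scal4 R = n * ((1 + 2 * ((n : ℝ) - 1) * aa n (bOne n)) * lb S) := by
    rw [scal4_eq hn0, lb_linv hn3 hb.le]
  have hl0 : 0 ≤ lb S := by
    by_contra h0
    have h1 : scal4 S ≤ 0 := by
      rw [scal4_eq hn0]
      exact mul_nonpos_of_nonneg_of_nonpos (Nat.cast_nonneg _) (not_le.1 h0).le
    rw [h.1.p4 hn hSc h1] at h0
    simp [lb, scal4] at h0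
  refine ⟨by rw [hlb]; positivity, fun e he => ?_⟩
  have hd : ∀ a b, e a ⬝ᵥ e b = if a = b then 1 else 0 := he
  have e1 : R = S + (2 * aa n (bOne n) * lb S) • Id4 n + bOne n • kn (ric0 S) 1 := by
    rw [← lB_apply, hS, linv_eq, lB_lBi hn0 ha.ne' (AD_b hn3 hb.le).ne']
  have e2 := rq_wedge_cv hR e 1
  rw [one_smul] at e2
  have e3 : iso4 R e = rq R (wedge (cv (e 0) (e 1)) (cv (e 2) (e 3))) := by
    rw [e2, iso4]; ring
  set z := cv (e 0) (e 1) with hz
  set w := cv (e 2) (e 3) with hw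
  have zz : z ⬝ᵥ z = 0 := by rw [hz, fr_cv_dot]; simp [hd]
  have zw : z ⬝ᵥ w = 0 := by rw [hz, hw, fr_cv_dot]; simp [hd]
  have ww : w ⬝ᵥ w = 0 := by rw [hw, fr_cv_dot]; simp [hd]
  have nz : nv z = 2 := by rw [hz, nv_cv]; simp [hd]; norm_num
  have nw : nv w = 2 := by rw [hw, nv_cv]; simp [hd]; norm_num
  have o1 : hf (1 : Mat n) z z = 2 := by rw [hz, hf_one_cv]; simp [hd]; norm_num
  have o2 : hf (1 : Mat n) w w = 2 := by rw [hw, hf_one_cv]; simp [hd]; norm_num
  have o3 : hf (1 : Mat n) z w = 0 := by rw [hz, hw, hf_one_cv]; simp [hd]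
  have o4 : hf (1 : Mat n) w z = 0 := by rw [hz, hw, hf_one_cv]; simp [hd]
  have i1 : rq (Id4 n) (wedge z w) = 4 := by
    have h1 := rq_kn_wedge (n := n) Matrix.isSymm_one Matrix.isSymm_one z w
    rw [kn_one_one, rq_smul, o1, o2, o3, o4] at h1
    norm_num at h1
    linarith
  have i2 : rq (kn (ric0 S) 1) (wedge z w) =
      2 * (hf (ric4 S) z z).re + 2 * (hf (ric4 S) w w).re - 8 * lb S := by
    rw [rq_kn_wedge (ric0_isSymm hSc) Matrix.isSymm_one, o1, o2, o3, o4, ric0, hf_sub, hf_sub,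
      hf_smul, hf_smul, o1, o2]
    simp
    ring
  have p0 := h.1 z w zz zw ww
  have p1 := h.2 z zz
  have p2 := h.2 w ww
  rw [nz] at p1
  rw [nw] at p2
  rw [← hS] at p0 p1 p2
  have e4 : theta n * scal4 R = 8 * bOne n ^ 2 * (((n : ℝ) - 2) / 2 - 1 / 3) * lb S := by
    rw [hlb, theta]
    field_simp
  have e5 : rq R (wedge z w) = rq S (wedge z w) + 2 * aa n (bOne n) * lb S * 4 +
      bOne n * (2 * (hf (ric4 S) z z).re + 2 * (hf (ric4 S) w w).re - 8 * lb S) := by
    conv_lhs => rw [e1]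
    rw [rq_add, rq_add, rq_smul, rq_smul, i1, i2]
  rw [e3, e4, e5, aa]
  nlinarith [mul_nonneg hb.le p1, mul_nonneg hb.le p2]

theorem unifPIC_of (hn : 5 ≤ n) {g : Bil n M} (hg : IsMetric g) (h : ∀ R ∈ vals g, G1 R) :
    UnifPIC (theta n) g := by
  intro x
  obtain ⟨P, hP⟩ := exists_frame_posDef (hg.posDef x (ctr_mem (n := n) x))
  have hR : act (riem (coef g x) (ctr n x)) P ∈ vals g := ⟨x, P, hP, rfl⟩
  obtain ⟨h1, h2⟩ := g1_unif hn (hg.vals_isCurv hR) (h _ hR)
  rw [scal4_act hP] at h1 h2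
  refine ⟨h1, fun e he => ?_⟩
  obtain ⟨f, hf0, hf⟩ := frame_coord hP he
  have h3 := h2 f hf0
  simpa only [iso4, ev4_act, hf] using h3

end G

end

end Pool.Agent.Work.MP_3a9764_gt
end

-- merged part: Pool.Agent.Work.MP_3a9764_gt.Bridge
section
/-! The notions of the statements agree with their working versions. -/

set_option autoImplicit false

open scoped Manifold ContDiff Topology

namespace Pool.Agent.Work.MP_3a9764_gt.Stmt

variable {n : ℕ} {M : Type} [TopologicalSpace M] [ChartedSpace (Eu n) M]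

/-- The same family of forms. -/
def Forms.toBil (g : Forms (Eu n) M) : Bil n M := g

theorem pull_eq (g : Forms (Eu n) M) (F : Eu n → M) :
    pull g F = Pool.Agent.Work.MP_3a9764_gt.pull g.toBil F := rfl

theorem coef_eq (g : Forms (Eu n) M) (x : M) :
    coef g x = Pool.Agent.Work.MP_3a9764_gt.coef g.toBil x := rfl

theorem IsRicciFlow.out {J : Set ℝ} {g : ℝ → Forms (Eu n) M} (h : IsRicciFlow J g) :
    Pool.Agent.Work.MP_3a9764_gt.IsRicciFlow J fun t => (g t).toBil :=
  ⟨fun t ht => (h.1 t ht).1, fun t ht => (h.1 t ht).2, h.2.1, h.2.2⟩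

theorem HasPIC.out {g : Forms (Eu n) M} (h : HasPIC g) :
    Pool.Agent.Work.MP_3a9764_gt.HasPIC g.toBil := by
  intro x e he
  have h1 := h x e he
  simp only [iso, curv, coef_eq, one_pow, one_mul, mul_one] at h1
  exact h1

theorem IsBlowupLimit.out {T : ℝ} {g : ℝ → Forms (Eu n) M} {N : Type} [TopologicalSpace N]
    [ChartedSpace (Eu n) N] {J : Set ℝ} {h : ℝ → Forms (Eu n) N} {p : N}
    (hl : IsBlowupLimit T g J h p) :
    Pool.Agent.Work.MP_3a9764_gt.IsBlowupLimit T (fun t => (g t).toBil) J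
      (fun s => (h s).toBil) p := by
  obtain ⟨h1, h2, h3, x, t, Q, Φ, h4, h5, h6, h7, ⟨Ψ, e, h8, h9, h10⟩, h11, h12⟩ := hl
  obtain rfl : Φ = fun i => (Ψ i : N → M) := funext e
  exact ⟨h1.out, h2, h3, x, t, Q, Ψ, h4, h5, h6, h7, h8, h9, h10, h11,
    fun q a b k K hK hs => h12 q a b k K hK hs⟩

theorem nonnegCurvOp_of {g : Forms (Eu n) M}
    (h : Pool.Agent.Work.MP_3a9764_gt.NonnegCurvOp g.toBil) : NonnegCurvOp g := h

theorem weakPIC2_of {g : Forms (Eu n) M}
    (h : Pool.Agent.Work.MP_3a9764_gt.WeakPIC2 g.toBil) : WeakPIC2 g := h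

theorem unifPIC_of {θ : ℝ} {g : Forms (Eu n) M}
    (h : Pool.Agent.Work.MP_3a9764_gt.UnifPIC θ g.toBil) : UnifPIC θ g := by
  intro x
  refine ⟨(h x).1, fun e he => ?_⟩
  have h1 := (h x).2 e he
  simp only [iso, curv, coef_eq, one_pow, one_mul, mul_one]
  exact h1

end Pool.Agent.Work.MP_3a9764_gt.Stmt
end
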