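import Mathlib

/-! Curvature of a metric given by its coefficients in coordinates. -/

set_option autoImplicit false

open scoped Manifold ContDiff Topology
open Filter

namespace Pool.Agent.Work.MP_3a9764_gt

noncomputable section

/-- Euclidean space of dimension `n`. -/
abbrev Eu (n : ℕ) : Type := EuclideanSpace ℝ (Fin n)

/-- Real `n × n` matrices. -/
abbrev Mat (n : ℕ) : Type := Matrix (Fin n) (Fin n) ℝ

/-- The derivative in the `i`-th coordinate direction. -/
def pd {n : ℕ} (i : Fin n) (f : Eu n → ℝ) (y : Eu n) : ℝ :=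
  fderiv ℝ f y (EuclideanSpace.single i 1)

/-- The Christoffel symbols `Γ^k_{ij}` of a metric given by its coefficients in coordinates. -/
def christoffel {n : ℕ} (G : Eu n → Mat n) (k i j : Fin n) (y : Eu n) : ℝ :=
  (1 / 2) * ∑ l, (G y)⁻¹ k l *
    (pd i (fun x => G x j l) y + pd j (fun x => G x i l) y - pd l (fun x => G x i j) y)

/-- The component `m` of `R(∂_i, ∂_j) ∂_l = ∇_i ∇_j ∂_l - ∇_j ∇_i ∂_l`. -/
def riemUp {n : ℕ} (G : Eu n → Mat n) (m i j l : Fin n) (y : Eu n) : ℝ :=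
  pd i (christoffel G m j l) y - pd j (christoffel G m i l) y +
    ∑ p, (christoffel G m i p y * christoffel G p j l y -
      christoffel G m j p y * christoffel G p i l y)

/-- The curvature tensor `R_{ijkl} = g(R(∂_i, ∂_j) ∂_l, ∂_k)`; `R(X, Y, X, Y)` is the sectional
curvature of an orthonormal pair. -/
def riem {n : ℕ} (G : Eu n → Mat n) (y : Eu n) (i j k l : Fin n) : ℝ :=
  ∑ m, G y k m * riemUp G m i j l y

/-- The Ricci tensor. -/
def ricci {n : ℕ} (G : Eu n → Mat n) (y : Eu n) (j l : Fin n) : ℝ :=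
  ∑ i, riemUp G i i j l y

/-- A four-tensor evaluated on four vectors. -/
def ev4 {n : ℕ} (R : Fin n → Fin n → Fin n → Fin n → ℝ) (a b c d : Fin n → ℝ) : ℝ :=
  ∑ i, ∑ j, ∑ k, ∑ l, R i j k l * a i * b j * c k * d l

/-- The norm `|Rm|` of the curvature tensor. -/
def riemNorm {n : ℕ} (G : Eu n → Mat n) (y : Eu n) : ℝ :=
  √(∑ i, ∑ j, ∑ k, ∑ l,
    riem G y i j k l * ev4 (riem G y) ((G y)⁻¹ i) ((G y)⁻¹ j) ((G y)⁻¹ k) ((G y)⁻¹ l))

/-- The scalar curvature. -/
def scalar {n : ℕ} (G : Eu n → Mat n) (y : Eu n) : ℝ :=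
  ∑ j, ∑ l, (G y)⁻¹ j l * ricci G y j l

/-- The coordinates of `x` in its chart. -/
def ctr (n : ℕ) {M : Type} [TopologicalSpace M] [ChartedSpace (Eu n) M] (x : M) : Eu n :=
  chartAt (Eu n) x x

end

end Pool.Agent.Work.MP_3a9764_gt
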