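import Pool.Agent.Work.MP_3a9764_gt.Defs0

-- merged part: Pool.Agent.Work.MP_3a9764_gt.Iface
section
-- merged part: Pool.Agent.Work.MP_3a9764_gt.Defs
section
/-! Working versions of the geometric notions. -/

set_option autoImplicit false

open scoped Manifold ContDiff Topology
open Filter

namespace Pool.Agent.Work.MP_3a9764_gt

noncomputable section

/-- A bilinear form on every tangent space of `M`. -/
abbrev Bil (n : ℕ) (M : Type) [TopologicalSpace M] [ChartedSpace (Eu n) M] : Type :=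
  (x : M) → TangentSpace 𝓘(ℝ, Eu n) x →L[ℝ] TangentSpace 𝓘(ℝ, Eu n) x →L[ℝ] ℝ

section

variable {n : ℕ} {M : Type} [TopologicalSpace M] [ChartedSpace (Eu n) M]

/-- The coefficients of the pull-back of `g` under a map `F` from Euclidean space to `M`. -/
def pull (g : Bil n M) (F : Eu n → M) (y : Eu n) : Mat n :=
  fun i j => g (F y) (mfderiv 𝓘(ℝ, Eu n) 𝓘(ℝ, Eu n) F y (EuclideanSpace.single i 1))
    (mfderiv 𝓘(ℝ, Eu n) 𝓘(ℝ, Eu n) F y (EuclideanSpace.single j 1))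

/-- The coefficients of `g` in the chart at `x`. -/
def coef (g : Bil n M) (x : M) : Eu n → Mat n := pull g (chartAt (Eu n) x).symm

/-- `g t`, `t ∈ J`, is a smooth family of Riemannian metrics that solves the Ricci flow
`∂_t g = -2 Ric`. -/
structure IsRicciFlow (J : Set ℝ) (g : ℝ → Bil n M) : Prop where
  symm : ∀ t ∈ J, ∀ x v w, g t x v w = g t x w v
  pos : ∀ t ∈ J, ∀ x v, v ≠ 0 → 0 < g t x v v
  smooth : ∀ x i j, ContDiffOn ℝ ∞ (fun p : ℝ × Eu n => coef (g p.1) x p.2 i j)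
    (J ×ˢ (chartAt (Eu n) x).target)
  flow : ∀ x i j, ∀ t ∈ J, ∀ y ∈ (chartAt (Eu n) x).target,
    HasDerivWithinAt (fun s => coef (g s) x y i j) (-2 * ricci (coef (g t) x) y i j) J t

/-- Positive isotropic curvature. -/
def HasPIC (g : Bil n M) : Prop :=
  ∀ (x : M) (e : Fin 4 → Fin n → ℝ),
    (∀ a b, ∑ i, ∑ j, coef g x (ctr n x) i j * e a i * e b j = if a = b then 1 else 0) →
    0 < ev4 (riem (coef g x) (ctr n x)) (e 0) (e 2) (e 0) (e 2) +
      ev4 (riem (coef g x) (ctr n x)) (e 0) (e 3) (e 0) (e 3) +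
      ev4 (riem (coef g x) (ctr n x)) (e 1) (e 2) (e 1) (e 2) +
      ev4 (riem (coef g x) (ctr n x)) (e 1) (e 3) (e 1) (e 3) -
      2 * ev4 (riem (coef g x) (ctr n x)) (e 0) (e 1) (e 2) (e 3)

/-- Non-negative curvature operator: `R(φ, φ) ≥ 0` for every bivector `φ`. -/
def NonnegCurvOp (g : Bil n M) : Prop :=
  ∀ (x : M) (φ : Mat n), (∀ i j, φ j i = -φ i j) →
    0 ≤ ∑ i, ∑ j, ∑ k, ∑ l, riem (coef g x) (ctr n x) i j k l * φ i j * φ k l

end

/-- The pointed Ricci flow `(N, h s, p)`, `s ∈ J`, is a blow-up limit of the flow `g` on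
`M × [0, T)`: a smooth pointed Cheeger-Gromov limit of the flows `Q i * g (t i + s / Q i)` based
at `x i`, where `t i → T` and `Q i = |Rm| (x i, t i) → ∞`. -/
def IsBlowupLimit {n : ℕ} {M : Type} [TopologicalSpace M] [ChartedSpace (Eu n) M] (T : ℝ)
    (g : ℝ → Bil n M) {N : Type} [TopologicalSpace N] [ChartedSpace (Eu n) N] (J : Set ℝ)
    (h : ℝ → Bil n N) (p : N) : Prop :=
  IsRicciFlow J h ∧ (0 : ℝ) ∈ J ∧ J.OrdConnected ∧
  ∃ (x : ℕ → M) (t Q : ℕ → ℝ) (Φ : ℕ → PartialDiffeomorph 𝓘(ℝ, Eu n) 𝓘(ℝ, Eu n) N M ∞),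
    (∀ i, t i ∈ Set.Ico 0 T) ∧ Tendsto t atTop (𝓝 T) ∧
    (∀ i, Q i = riemNorm (coef (g (t i)) (x i)) (ctr n (x i))) ∧ Tendsto Q atTop atTop ∧
    (Monotone fun i => (Φ i).source) ∧ (⋃ i, (Φ i).source) = Set.univ ∧
    (∀ i, p ∈ (Φ i).source ∧ Φ i p = x i) ∧
    (∀ s ∈ J, ∀ᶠ i in atTop, t i + s / Q i ∈ Set.Ico 0 T) ∧
    ∀ (q : N) (a b : Fin n) (k : ℕ) (K : Set (ℝ × Eu n)), IsCompact K →
      K ⊆ J ×ˢ (chartAt (Eu n) q).target →
      TendstoUniformlyOn
        (fun i (z : ℝ × Eu n) => iteratedFDeriv ℝ k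
          (fun y => Q i * pull (g (t i + z.1 / Q i)) (Φ i ∘ (chartAt (Eu n) q).symm) y a b) z.2)
        (fun z => iteratedFDeriv ℝ k (fun y => coef (h z.1) q y a b) z.2) atTop K

end

end Pool.Agent.Work.MP_3a9764_gt
end

-- merged part: Pool.Agent.Work.MP_3a9764_gt.Iface
section
/-! The interface between the geometric and the algebraic part. -/

set_option autoImplicit false

open scoped Manifold ContDiff Topology
open Filter

namespace Pool.Agent.Work.MP_3a9764_gt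

noncomputable section

/-- Four-tensors. -/
abbrev T4 (n : ℕ) : Type := Fin n → Fin n → Fin n → Fin n → ℝ

/-- The symmetries of an algebraic curvature tensor. -/
structure IsCurv {n : ℕ} (R : T4 n) : Prop where
  skew : ∀ i j k l, R j i k l = -R i j k l
  pair : ∀ i j k l, R k l i j = R i j k l
  bianchi : ∀ i j k l, R i j k l + R j k i l + R k i j l = 0

/-- Components of `R` in the frame formed by the columns of `P`. -/
def act {n : ℕ} (R : T4 n) (P : Mat n) : T4 n :=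
  fun i j k l => ev4 R (fun a => P a i) (fun a => P a j) (fun a => P a k) (fun a => P a l)

/-- The reaction term `R ^ 2 + R ^ #`; the curvature evolves by `∂_t R = Δ R + 2 Q R`. -/
def Qq4 {n : ℕ} (R : T4 n) : T4 n :=
  fun i j k l => ∑ p, ∑ q,
    ((1 / 2) * (R i j p q * R k l p q) + R i p k q * R j p l q - R i p l q * R j p k q)

/-- The curvature tensor of the unit sphere. -/
def Id4 (n : ℕ) : T4 n :=
  fun i j k l => (if i = k ∧ j = l then 1 else 0) - (if i = l ∧ j = k then 1 else 0)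

/-- The scalar curvature. -/
def scal4 {n : ℕ} (R : T4 n) : ℝ := ∑ i, ∑ j, R i j i j

/-- Non-negative curvature operator. -/
def OpNonneg {n : ℕ} (R : T4 n) : Prop :=
  ∀ φ : Mat n, (∀ i j, φ j i = -φ i j) → 0 ≤ ∑ i, ∑ j, ∑ k, ∑ l, R i j k l * φ i j * φ k l

/-- The isotropic curvature of a four-frame. -/
def iso4 {n : ℕ} (R : T4 n) (e : Fin 4 → Fin n → ℝ) : ℝ :=
  ev4 R (e 0) (e 2) (e 0) (e 2) + ev4 R (e 0) (e 3) (e 0) (e 3) + ev4 R (e 1) (e 2) (e 1) (e 2) +
    ev4 R (e 1) (e 3) (e 1) (e 3) - 2 * ev4 R (e 0) (e 1) (e 2) (e 3)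

/-- Orthonormal four-frames of Euclidean space. -/
def ON4 {n : ℕ} (e : Fin 4 → Fin n → ℝ) : Prop :=
  ∀ a b, ∑ i, e a i * e b i = if a = b then 1 else 0

/-- What the algebraic part uses of the sets of curvature tensors along a Ricci flow. -/
structure CurvFlow (n : ℕ) (T : ℝ) (W : ℝ → Set (T4 n)) : Prop where
  curv : ∀ t ∈ Set.Ico 0 T, ∀ R ∈ W t, IsCurv R
  orth : ∀ t ∈ Set.Ico 0 T, ∀ R ∈ W t, ∀ P : Mat n, P.transpose * P = 1 → act R P ∈ W t
  compact : ∀ t₁ < T, IsCompact {z : ℝ × T4 n | z.1 ∈ Set.Icc 0 t₁ ∧ z.2 ∈ W z.1}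
  lsc : ∀ t ∈ Set.Ioo 0 T, ∀ R ∈ W t, ∀ ε > 0, ∀ᶠ s in 𝓝 t, ∃ R' ∈ W s, dist R' R < ε
  maxp : ∀ t ∈ Set.Ioo 0 T, ∀ R ∈ W t, ∀ ξ : T4 n →L[ℝ] ℝ,
    (∀ s ∈ Set.Icc 0 t, ∀ R' ∈ W s, ξ R' ≤ ξ R) → 0 ≤ ξ (Qq4 R)

/-- The pinching estimate. -/
def Pinched {n : ℕ} (T : ℝ) (W : ℝ → Set (T4 n)) : Prop :=
  ∀ ε > 0, ∃ C : ℝ, ∀ t ∈ Set.Ico 0 T, ∀ R ∈ W t, OpNonneg (R + (ε * scal4 R + C) • Id4 n)

/-- The curvature tensors of `g` in orthonormal frames. -/
def vals {n : ℕ} {M : Type} [TopologicalSpace M] [ChartedSpace (Eu n) M] (g : Bil n M) :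
    Set (T4 n) :=
  {R | ∃ (x : M) (P : Mat n), P.transpose * coef g x (ctr n x) * P = 1 ∧
    R = act (riem (coef g x) (ctr n x)) P}

end

end Pool.Agent.Work.MP_3a9764_gt
end

-- merged part: Pool.Agent.Work.MP_3a9764_gt.TPd
section
/-! Calculus of coordinate derivatives at a point, for scalar and matrix valued functions. -/

set_option autoImplicit false

open scoped ContDiff Topology
open Filter

namespace Pool.Agent.Work.MP_3a9764_gt

noncomputable section

variable {n : ℕ}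

namespace T

theorem pd_congr {u v : Eu n → ℝ} {y : Eu n} (h : u =ᶠ[𝓝 y] v) (a : Fin n) :
    pd a u y = pd a v y := by
  unfold pd; rw [h.fderiv_eq]

theorem pd_eventuallyEq {u v : Eu n → ℝ} {y : Eu n} (h : u =ᶠ[𝓝 y] v) (a : Fin n) :
    pd a u =ᶠ[𝓝 y] pd a v :=
  h.eventually_nhds.mono fun _ hx => pd_congr hx a

theorem pd_const (a : Fin n) (c : ℝ) (y : Eu n) : pd a (fun _ => c) y = 0 := by
  unfold pd; simp

theorem pd_add {u v : Eu n → ℝ} {y : Eu n} (hu : DifferentiableAt ℝ u y)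
    (hv : DifferentiableAt ℝ v y) (a : Fin n) :
    pd a (fun x => u x + v x) y = pd a u y + pd a v y := by
  unfold pd; rw [fderiv_fun_add hu hv]; rfl

theorem pd_sub {u v : Eu n → ℝ} {y : Eu n} (hu : DifferentiableAt ℝ u y)
    (hv : DifferentiableAt ℝ v y) (a : Fin n) :
    pd a (fun x => u x - v x) y = pd a u y - pd a v y := by
  unfold pd; rw [fderiv_fun_sub hu hv]; rfl

theorem pd_neg (u : Eu n → ℝ) (y : Eu n) (a : Fin n) :
    pd a (fun x => -u x) y = -pd a u y := by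
  unfold pd; rw [fderiv_fun_neg]; rfl

theorem pd_mul {u v : Eu n → ℝ} {y : Eu n} (hu : DifferentiableAt ℝ u y)
    (hv : DifferentiableAt ℝ v y) (a : Fin n) :
    pd a (fun x => u x * v x) y = pd a u y * v y + u y * pd a v y := by
  unfold pd; rw [fderiv_fun_mul hu hv]
  simp only [add_apply, smul_apply, smul_eq_mul]
  ring

theorem pd_const_mul (c : ℝ) (u : Eu n → ℝ) (y : Eu n) (a : Fin n) :
    pd a (fun x => c * u x) y = c * pd a u y := by
  unfold pd
  have : (fun x => c * u x) = c • u := by funext x; simp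
  rw [this, fderiv_const_smul_field]; rfl

theorem pd_sum {ι : Type*} (s : Finset ι) {u : ι → Eu n → ℝ} {y : Eu n}
    (hu : ∀ i ∈ s, DifferentiableAt ℝ (u i) y) (a : Fin n) :
    pd a (fun x => ∑ i ∈ s, u i x) y = ∑ i ∈ s, pd a (u i) y := by
  unfold pd; rw [fderiv_fun_sum hu]; simp

theorem contDiffAt_pd {m k : WithTop ℕ∞} {u : Eu n → ℝ} {y : Eu n} (hu : ContDiffAt ℝ k u y)
    (hm : m + 1 ≤ k) (a : Fin n) : ContDiffAt ℝ m (pd a u) y := by
  unfold pd
  exact (hu.fderiv_right hm).clm_apply contDiffAt_const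

theorem pd_comm {u : Eu n → ℝ} {y : Eu n} (hu : ContDiffAt ℝ 2 u y) (a b : Fin n) :
    pd a (pd b u) y = pd b (pd a u) y := by
  have hs : IsSymmSndFDerivAt ℝ u y := hu.isSymmSndFDerivAt (by simp)
  have hd : DifferentiableAt ℝ (fderiv ℝ u) y :=
    (hu.fderiv_right (m := 1) (by norm_num)).differentiableAt (by norm_num)
  have key : ∀ c d : Fin n, pd c (pd d u) y =
      fderiv ℝ (fderiv ℝ u) y (EuclideanSpace.single c 1) (EuclideanSpace.single d 1) := by
    intro c d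
    unfold pd
    rw [fderiv_clm_apply hd (differentiableAt_const _)]
    simp
  rw [key, key, hs.eq]

end T

/-- The Jacobian matrix `∂_a f^p`. -/
def jac (f : Eu n → Eu n) (y : Eu n) : Mat n := fun p a => pd a (fun x => f x p) y

namespace T

theorem contDiffAt_coord {m : WithTop ℕ∞} {f : Eu n → Eu n} {y : Eu n}
    (hf : ContDiffAt ℝ m f y) (p : Fin n) : ContDiffAt ℝ m (fun x => f x p) y :=
  (contDiffAt_euclidean.1 hf) p

theorem fderiv_single {f : Eu n → Eu n} {y : Eu n} (hf : DifferentiableAt ℝ f y) (a : Fin n) :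
    fderiv ℝ f y (EuclideanSpace.single a 1) =
      ∑ q, jac f y q a • (EuclideanSpace.single q (1 : ℝ) : Eu n) := by
  have h1 : ∀ q, jac f y q a = fderiv ℝ f y (EuclideanSpace.single a 1) q := by
    intro q
    unfold jac pd
    have h2 : HasFDerivAt (fun x => f x q)
        ((EuclideanSpace.proj q : Eu n →L[ℝ] ℝ).comp (fderiv ℝ f y)) y :=
      (EuclideanSpace.proj q : Eu n →L[ℝ] ℝ).hasFDerivAt.comp y hf.hasFDerivAt
    rw [h2.fderiv]; rfl
  ext k
  simp [h1, Pi.single_apply, Finset.sum_apply]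

theorem pd_comp {u : Eu n → ℝ} {f : Eu n → Eu n} {y : Eu n} (hu : DifferentiableAt ℝ u (f y))
    (hf : DifferentiableAt ℝ f y) (a : Fin n) :
    pd a (fun x => u (f x)) y = ∑ q, jac f y q a * pd q u (f y) := by
  have h : pd a (fun x => u (f x)) y =
      fderiv ℝ u (f y) (fderiv ℝ f y (EuclideanSpace.single a 1)) := by
    unfold pd
    rw [show (fun x => u (f x)) = u ∘ f from rfl, fderiv_comp y hu hf]; rfl
  rw [h, fderiv_single hf, map_sum]
  simp [pd]

/-- Entrywise differentiability of class `m` of a matrix valued function. -/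
def CM (m : WithTop ℕ∞) (F : Eu n → Mat n) (y : Eu n) : Prop :=
  ∀ i j, ContDiffAt ℝ m (fun x => F x i j) y

/-- The entrywise coordinate derivative of a matrix valued function. -/
def pdM (a : Fin n) (F : Eu n → Mat n) (y : Eu n) : Mat n := fun i j => pd a (fun x => F x i j) y

theorem CM.of_le {m k : WithTop ℕ∞} {F : Eu n → Mat n} {y : Eu n} (h : CM k F y) (hm : m ≤ k) :
    CM m F y := fun i j => (h i j).of_le hm

theorem CM.diff {F : Eu n → Mat n} {y : Eu n} (h : CM 1 F y) (i j : Fin n) :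
    DifferentiableAt ℝ (fun x => F x i j) y := (h i j).differentiableAt (by norm_num)

theorem CM.const {m : WithTop ℕ∞} (A : Mat n) (y : Eu n) : CM m (fun _ => A) y :=
  fun _ _ => contDiffAt_const

theorem CM.add {m : WithTop ℕ∞} {F G : Eu n → Mat n} {y : Eu n} (hF : CM m F y) (hG : CM m G y) :
    CM m (fun x => F x + G x) y := fun i j => (hF i j).add (hG i j)

theorem CM.sub {m : WithTop ℕ∞} {F G : Eu n → Mat n} {y : Eu n} (hF : CM m F y) (hG : CM m G y) :
    CM m (fun x => F x - G x) y := fun i j => (hF i j).sub (hG i j)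

theorem CM.mul {m : WithTop ℕ∞} {F G : Eu n → Mat n} {y : Eu n} (hF : CM m F y) (hG : CM m G y) :
    CM m (fun x => F x * G x) y := by
  intro i j
  simp only [Matrix.mul_apply]
  exact ContDiffAt.sum fun k _ => (hF i k).mul (hG k j)

theorem CM.smul {m : WithTop ℕ∞} {u : Eu n → ℝ} {F : Eu n → Mat n} {y : Eu n}
    (hu : ContDiffAt ℝ m u y) (hF : CM m F y) : CM m (fun x => u x • F x) y :=
  fun i j => hu.mul (hF i j)

theorem CM.sum {m : WithTop ℕ∞} {ι : Type*} (s : Finset ι) {F : ι → Eu n → Mat n} {y : Eu n}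
    (hF : ∀ q ∈ s, CM m (F q) y) : CM m (fun x => ∑ q ∈ s, F q x) y := by
  intro i j
  simp only [Matrix.sum_apply]
  exact ContDiffAt.sum fun q hq => hF q hq i j

theorem CM.transpose {m : WithTop ℕ∞} {F : Eu n → Mat n} {y : Eu n} (hF : CM m F y) :
    CM m (fun x => (F x).transpose) y := fun i j => hF j i

theorem CM.comp {m : WithTop ℕ∞} {F : Eu n → Mat n} {f : Eu n → Eu n} {y : Eu n}
    (hF : CM m F (f y)) (hf : ContDiffAt ℝ m f y) : CM m (fun x => F (f x)) y :=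
  fun i j => (hF i j).comp y hf

theorem CM.congr {m : WithTop ℕ∞} {F G : Eu n → Mat n} {y : Eu n} (hF : CM m F y)
    (h : G =ᶠ[𝓝 y] F) : CM m G y :=
  fun i j => (hF i j).congr_of_eventuallyEq (h.mono fun x hx => by simp only [hx])

theorem CM.pdM {m k : WithTop ℕ∞} {F : Eu n → Mat n} {y : Eu n} (hF : CM k F y) (hm : m + 1 ≤ k)
    (a : Fin n) : CM m (pdM a F) y := fun i j => contDiffAt_pd (hF i j) hm a

theorem CM.jac {m k : WithTop ℕ∞} {f : Eu n → Eu n} {y : Eu n} (hf : ContDiffAt ℝ k f y)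
    (hm : m + 1 ≤ k) : CM m (jac f) y := fun p a => contDiffAt_pd (contDiffAt_coord hf p) hm a

theorem CM.det {m : WithTop ℕ∞} {F : Eu n → Mat n} {y : Eu n} (hF : CM m F y) :
    ContDiffAt ℝ m (fun x => (F x).det) y := by
  simp only [Matrix.det_apply']
  exact ContDiffAt.sum fun σ _ => contDiffAt_const.mul (contDiffAt_prod fun i _ => hF _ _)

theorem CM.adjugate {m : WithTop ℕ∞} {F : Eu n → Mat n} {y : Eu n} (hF : CM m F y) :
    CM m (fun x => (F x).adjugate) y := by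
  intro i j
  simp only [Matrix.adjugate_apply]
  refine CM.det (F := fun x => (F x).updateRow j (Pi.single i 1)) fun a b => ?_
  by_cases h : a = j
  · subst h; simp only [Matrix.updateRow_self]; exact contDiffAt_const
  · simp only [Matrix.updateRow_ne h]; exact hF a b

theorem CM.inv {m : WithTop ℕ∞} {F : Eu n → Mat n} {y : Eu n} (hF : CM m F y)
    (hd : (F y).det ≠ 0) : CM m (fun x => (F x)⁻¹) y := by
  intro i j
  simp only [Matrix.inv_def, Ring.inverse_eq_inv', Matrix.smul_apply, smul_eq_mul]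
  exact (hF.det.inv hd).mul (hF.adjugate i j)

theorem CM.eventually {m : WithTop ℕ∞} {F : Eu n → Mat n} {y : Eu n} (hF : CM m F y)
    (hm : m ≠ ∞) : ∀ᶠ x in 𝓝 y, CM m F x := by
  unfold CM
  simp only [eventually_all]
  exact fun i j => (hF i j).eventually hm

theorem CM.det_ne {m : WithTop ℕ∞} {F : Eu n → Mat n} {y : Eu n} (hF : CM m F y)
    (hd : (F y).det ≠ 0) : ∀ᶠ x in 𝓝 y, (F x).det ≠ 0 :=
  hF.det.continuousAt.eventually_ne hd

theorem pdM_congr {F G : Eu n → Mat n} {y : Eu n} (h : F =ᶠ[𝓝 y] G) (a : Fin n) :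
    pdM a F y = pdM a G y := by
  ext i j
  exact pd_congr (h.mono fun x hx => by simp only [hx]) a

theorem pdM_const (a : Fin n) (A : Mat n) (y : Eu n) : pdM a (fun _ => A) y = 0 := by
  ext i j; exact pd_const a _ y

theorem pdM_add {F G : Eu n → Mat n} {y : Eu n} (hF : CM 1 F y) (hG : CM 1 G y) (a : Fin n) :
    pdM a (fun x => F x + G x) y = pdM a F y + pdM a G y := by
  ext i j; exact pd_add (hF.diff i j) (hG.diff i j) a

theorem pdM_sub {F G : Eu n → Mat n} {y : Eu n} (hF : CM 1 F y) (hG : CM 1 G y) (a : Fin n) :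
    pdM a (fun x => F x - G x) y = pdM a F y - pdM a G y := by
  ext i j; exact pd_sub (hF.diff i j) (hG.diff i j) a

theorem pdM_transpose (F : Eu n → Mat n) (y : Eu n) (a : Fin n) :
    pdM a (fun x => (F x).transpose) y = (pdM a F y).transpose := rfl

theorem pdM_mul {F G : Eu n → Mat n} {y : Eu n} (hF : CM 1 F y) (hG : CM 1 G y) (a : Fin n) :
    pdM a (fun x => F x * G x) y = pdM a F y * G y + F y * pdM a G y := by
  ext i j
  simp only [pdM, Matrix.mul_apply, Matrix.add_apply]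
  rw [pd_sum (u := fun k x => F x i k * G x k j) _ fun k _ => (hF.diff i k).mul (hG.diff k j),
    ← Finset.sum_add_distrib]
  exact Finset.sum_congr rfl fun k _ => pd_mul (hF.diff i k) (hG.diff k j) a

theorem pdM_smul {u : Eu n → ℝ} {F : Eu n → Mat n} {y : Eu n} (hu : DifferentiableAt ℝ u y)
    (hF : CM 1 F y) (a : Fin n) :
    pdM a (fun x => u x • F x) y = pd a u y • F y + u y • pdM a F y := by
  ext i j; exact pd_mul hu (hF.diff i j) a

theorem pdM_sum {ι : Type*} (s : Finset ι) {F : ι → Eu n → Mat n} {y : Eu n}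
    (hF : ∀ q ∈ s, CM 1 (F q) y) (a : Fin n) :
    pdM a (fun x => ∑ q ∈ s, F q x) y = ∑ q ∈ s, pdM a (F q) y := by
  ext i j
  simp only [pdM, Matrix.sum_apply]
  exact pd_sum s (fun q hq => (hF q hq).diff i j) a

theorem pdM_comp {F : Eu n → Mat n} {f : Eu n → Eu n} {y : Eu n} (hF : CM 1 F (f y))
    (hf : DifferentiableAt ℝ f y) (a : Fin n) :
    pdM a (fun x => F (f x)) y = ∑ q, jac f y q a • pdM q F (f y) := by
  ext i j
  simp only [pdM, Matrix.sum_apply, Matrix.smul_apply, smul_eq_mul]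
  exact pd_comp (u := fun x => F x i j) (hF.diff i j) hf a

theorem pdM_comm {F : Eu n → Mat n} {y : Eu n} (hF : CM 2 F y) (a b : Fin n) :
    pdM a (pdM b F) y = pdM b (pdM a F) y := by
  ext i j; exact pd_comm (hF i j) a b

theorem pdM_jac_symm {f : Eu n → Eu n} {y : Eu n} (hf : ContDiffAt ℝ 2 f y) (p a b : Fin n) :
    pdM a (jac f) y p b = pdM b (jac f) y p a := pd_comm (contDiffAt_coord hf p) a b

/-- The derivative of the inverse matrix. -/
theorem pdM_inv {F : Eu n → Mat n} {y : Eu n} (hF : CM 1 F y) (hd : (F y).det ≠ 0) (a : Fin n) :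
    pdM a (fun x => (F x)⁻¹) y = -((F y)⁻¹ * pdM a F y * (F y)⁻¹) := by
  have h1 : (fun x => (F x)⁻¹ * F x) =ᶠ[𝓝 y] fun _ => (1 : Mat n) :=
    (hF.det_ne hd).mono fun x hx => Matrix.nonsing_inv_mul _ (isUnit_iff_ne_zero.2 hx)
  have h2 := pdM_congr h1 a
  rw [pdM_mul (hF.inv hd) hF, pdM_const] at h2
  have h3 : F y * (F y)⁻¹ = 1 := Matrix.mul_nonsing_inv _ (isUnit_iff_ne_zero.2 hd)
  have h4 : pdM a (fun x => (F x)⁻¹) y = pdM a (fun x => (F x)⁻¹) y * F y * (F y)⁻¹ := by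
    rw [Matrix.mul_assoc, h3, Matrix.mul_one]
  rw [h4, eq_neg_of_add_eq_zero_left h2, Matrix.neg_mul]

end T

end

end Pool.Agent.Work.MP_3a9764_gt
end
end

-- merged part: Pool.Agent.Work.MP_3a9764_gt.TScal
section
-- merged part: Pool.Agent.Work.MP_3a9764_gt.TPinch
section
/-! From transversally invariant families of cones to pinching estimates. -/

set_option autoImplicit false

open scoped Topology
open Filter Set

namespace Pool.Agent.Work.MP_3a9764_gt

noncomputable section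

variable {n : ℕ} {T : ℝ} {W : ℝ → Set (T4 n)}

/-- The curvature lies asymptotically in the cone cut out by the functionals `l τ`. -/
def Asym (T : ℝ) (W : ℝ → Set (T4 n)) {K : Type} (l : K → T4 n →ₗ[ℝ] ℝ) : Prop :=
  ∀ ε > 0, ∃ h : ℝ, ∀ t ∈ Ico 0 T, ∀ R ∈ W t, ∀ τ, -(ε * ‖R‖ + h) ≤ l τ R

namespace T

section

variable {E : Type} [NormedAddCommGroup E] [NormedSpace ℝ E] [FiniteDimensional ℝ E]

theorem cont_clm {K : Type} [TopologicalSpace K] {l : K → E →ₗ[ℝ] ℝ}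
    (hl : ∀ R, Continuous fun τ => l τ R) :
    Continuous fun τ => LinearMap.toContinuousLinearMap (l τ) :=
  continuous_clm_apply.2 hl

theorem cont_app {K X : Type} [TopologicalSpace K] [TopologicalSpace X] {l : K → E →ₗ[ℝ] ℝ}
    (hl : ∀ R, Continuous fun τ => l τ R) {f : X → K} {g : X → E} (hf : Continuous f)
    (hg : Continuous g) : Continuous fun x => l (f x) (g x) :=
  ((cont_clm hl).comp hf).clm_apply hg

theorem exists_bound {K : Type} [TopologicalSpace K] [CompactSpace K] {l : K → E →ₗ[ℝ] ℝ}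
    (hl : ∀ R, Continuous fun τ => l τ R) : ∃ M : ℝ, 0 ≤ M ∧ ∀ τ R, |l τ R| ≤ M * ‖R‖ := by
  obtain ⟨M, hM⟩ := isCompact_univ.exists_bound_of_continuousOn (cont_clm hl).continuousOn
  refine ⟨|M|, abs_nonneg _, fun τ R => ?_⟩
  exact ((LinearMap.toContinuousLinearMap (l τ)).le_opNorm R).trans
    (mul_le_mul_of_nonneg_right ((hM τ (mem_univ _)).trans (le_abs_self _)) (norm_nonneg _))

theorem tube {K : Type} [TopologicalSpace K] [CompactSpace K] {l : ℝ → K → E →ₗ[ℝ] ℝ}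
    (hl : ∀ R, Continuous fun p : ℝ × K => l p.1 p.2 R) (s : ℝ) {ε : ℝ} (hε : 0 < ε) :
    ∀ᶠ s' in 𝓝 s, ∀ τ R, |l s' τ R - l s τ R| ≤ ε * ‖R‖ := by
  have hc := cont_clm (l := fun p : ℝ × K => l p.1 p.2) hl
  have h1 : Continuous fun p : ℝ × K => ‖LinearMap.toContinuousLinearMap (l p.1 p.2) -
      LinearMap.toContinuousLinearMap (l s p.2)‖ :=
    (hc.sub (hc.comp (f := fun p : ℝ × K => (s, p.2)) (by fun_prop))).norm
  have h2 := (isCompact_univ (X := K)).eventually_forall_of_forall_eventually (x₀ := s)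
    (P := fun s' τ => ‖LinearMap.toContinuousLinearMap (l s' τ) -
      LinearMap.toContinuousLinearMap (l s τ)‖ < ε)
    fun τ _ => h1.continuousAt.eventually_lt continuousAt_const (by simpa using hε)
  refine h2.mono fun s' hs' τ R => ?_
  exact ((LinearMap.toContinuousLinearMap (l s' τ) -
    LinearMap.toContinuousLinearMap (l s τ)).le_opNorm R).trans
    (mul_le_mul_of_nonneg_right (hs' τ (mem_univ _)).le (norm_nonneg _))

omit [FiniteDimensional ℝ E] in
theorem unit_scale {R : E} (hR : R ≠ 0) : ‖(‖R‖⁻¹ • R)‖ = 1 := norm_smul_inv_norm hR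

omit [FiniteDimensional ℝ E] in
theorem neg_le_scale {R : E} (hR : R ≠ 0) (f : E →ₗ[ℝ] ℝ) {η : ℝ}
    (h : -(η * ‖R‖) ≤ f R) : -η ≤ f (‖R‖⁻¹ • R) := by
  have hp : 0 < ‖R‖ := norm_pos_iff.2 hR
  rw [map_smul, smul_eq_mul, le_inv_mul_iff₀ hp]
  linarith

end

theorem continuous_Qq4 : Continuous (Qq4 : T4 n → T4 n) := by
  unfold Qq4
  fun_prop

theorem Qq4_smul (c : ℝ) (R : T4 n) : Qq4 (c • R) = (c * c) • Qq4 R := by
  funext i j k l
  simp only [Qq4, Pi.smul_apply, smul_eq_mul, Finset.mul_sum]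
  exact Finset.sum_congr rfl fun _ _ => Finset.sum_congr rfl fun _ _ => by ring

theorem isCurv_smul (c : ℝ) {R : T4 n} (h : IsCurv R) : IsCurv (c • R) := by
  refine ⟨fun i j k l => ?_, fun i j k l => ?_, fun i j k l => ?_⟩
  · simp only [Pi.smul_apply, smul_eq_mul, h.skew i j k l, mul_neg]
  · simp only [Pi.smul_apply, smul_eq_mul, h.pair i j k l]
  · simp only [Pi.smul_apply, smul_eq_mul, ← mul_add, h.bianchi i j k l, mul_zero]

theorem isClosed_isCurv : IsClosed {R : T4 n | IsCurv R} := by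
  have h : {R : T4 n | IsCurv R} = ⋂ i, ⋂ j, ⋂ k, ⋂ l, ({R : T4 n | R j i k l = -R i j k l} ∩
      {R : T4 n | R k l i j = R i j k l} ∩
      {R : T4 n | R i j k l + R j k i l + R k i j l = 0}) := by
    ext R
    simp only [mem_ofPred_eq, mem_iInter, mem_inter_iff]
    exact ⟨fun h i j k l => ⟨⟨h.skew i j k l, h.pair i j k l⟩, h.bianchi i j k l⟩,
      fun h => ⟨fun i j k l => (h i j k l).1.1, fun i j k l => (h i j k l).1.2,
        fun i j k l => (h i j k l).2⟩⟩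
  rw [h]
  refine isClosed_iInter fun i => isClosed_iInter fun j => isClosed_iInter fun k =>
    isClosed_iInter fun l => IsClosed.inter (IsClosed.inter ?_ ?_) ?_ <;>
  exact isClosed_eq (by fun_prop) (by fun_prop)

theorem isCompact_unit : IsCompact {R : T4 n | IsCurv R ∧ ‖R‖ = 1} := by
  have h : {R : T4 n | IsCurv R ∧ ‖R‖ = 1} = Metric.sphere 0 1 ∩ {R : T4 n | IsCurv R} := by
    ext R; simp [and_comm]
  rw [h]
  exact (isCompact_sphere _ _).inter_right isClosed_isCurv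

/-- A compactness argument: closed conditions that are empty in the limit are empty. -/
theorem exists_eta {X : Type} [TopologicalSpace X] {Z : Set X} (hZ : IsCompact Z)
    (B : ℝ → Set X) (hB : ∀ η, IsClosed (B η)) (hm : Monotone B)
    (h0 : ∀ z ∈ Z, ¬∀ η > 0, z ∈ B η) : ∃ η > 0, ∀ z ∈ Z, z ∉ B η := by
  have hd : Directed (· ⊇ ·) fun η : {η : ℝ // 0 < η} => B η.1 := fun a b =>
    ⟨⟨min a.1 b.1, lt_min a.2 b.2⟩, hm (min_le_left _ _), hm (min_le_right _ _)⟩
  have : Nonempty {η : ℝ // 0 < η} := ⟨⟨1, one_pos⟩⟩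
  obtain ⟨η, hη⟩ := hZ.elim_directed_family_closed (fun η : {η : ℝ // 0 < η} => B η.1)
    (fun η => hB η.1) (eq_empty_of_forall_notMem fun z hz =>
      h0 z hz.1 fun η hη => mem_iInter.1 hz.2 ⟨η, hη⟩) hd
  exact ⟨η.1, η.2, fun z hz h => (eq_empty_iff_forall_notMem.1 hη) z ⟨hz, h⟩⟩

theorem isClosed_forall_le {K X : Type} [TopologicalSpace X] {f : K → X → ℝ}
    (hf : ∀ τ, Continuous (f τ)) (c : ℝ) : IsClosed {x | ∀ τ, c ≤ f τ x} := by
  rw [ofPred_forall]
  exact isClosed_iInter fun τ => isClosed_le continuous_const (hf τ)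

end T

open T

theorem first_touch (hW : CurvFlow n T W) {K : Type} [TopologicalSpace K] [CompactSpace K]
    {l : K → T4 n →ₗ[ℝ] ℝ} (hl : ∀ R, Continuous fun τ => l τ R) (c : ℝ)
    (h0 : ∀ R ∈ W 0, ∀ τ, c < l τ R)
    (ht : ∀ t ∈ Ioo 0 T, ∀ R ∈ W t, (∀ τ, c ≤ l τ R) → ∀ τ, l τ R = c → 0 < l τ (Qq4 R)) :
    ∀ t ∈ Ico 0 T, ∀ R ∈ W t, ∀ τ, c < l τ R := by
  intro t₁ ht₁ R₁ hR₁ τ₁
  by_contra hc
  have hS : IsCompact (({z : ℝ × T4 n | z.1 ∈ Icc 0 t₁ ∧ z.2 ∈ W z.1} ×ˢ (univ : Set K)) ∩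
      {z | l z.2 z.1.2 ≤ c}) :=
    ((hW.compact t₁ ht₁.2).prod isCompact_univ).inter_right
      (isClosed_le (cont_app hl continuous_snd (by fun_prop)) continuous_const)
  obtain ⟨⟨⟨t, R⟩, τ⟩, ⟨⟨⟨htI, hR⟩, -⟩, hle⟩, hmin⟩ := hS.exists_isMinOn
    ⟨((t₁, R₁), τ₁), ⟨⟨⟨ht₁.1, le_rfl⟩, hR₁⟩, mem_univ _⟩, not_lt.1 hc⟩
    (f := fun z => z.1.1) (by fun_prop)
  simp only [mem_ofPred_eq] at htI hR hle
  have hpos : 0 < t := by
    rcases htI.1.eq_or_lt with h | h
    · subst h; exact absurd (h0 R hR τ) (not_lt.2 hle)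
    · exact h
  have htO : t ∈ Ioo 0 T := ⟨hpos, htI.2.trans_lt ht₁.2⟩
  have hlt : ∀ s ∈ Ico 0 t, ∀ R' ∈ W s, ∀ σ, c < l σ R' := by
    intro s hs R' hR' σ
    by_contra h
    have := hmin (a := ((s, R'), σ))
      ⟨⟨⟨⟨hs.1, hs.2.le.trans htI.2⟩, hR'⟩, mem_univ _⟩, not_lt.1 h⟩
    exact absurd hs.2 (not_lt.2 this)
  have hat : ∀ R' ∈ W t, ∀ σ, c ≤ l σ R' := by
    intro R' hR' σ
    by_contra h
    have ho : IsOpen {S : T4 n | l σ S < c} :=
      isOpen_lt (l σ).continuous_of_finiteDimensional continuous_const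
    obtain ⟨ε, hε, hb⟩ := Metric.isOpen_iff.1 ho R' (not_le.1 h)
    have h1 := ((hW.lsc t htO R' hR' ε hε).and (lt_mem_nhds hpos)).filter_mono
      (nhdsWithin_le_nhds (s := Iio t))
    obtain ⟨s, ⟨⟨S, hS1, hS2⟩, hs0⟩, hst⟩ := (h1.and self_mem_nhdsWithin).exists
    exact absurd (hlt s ⟨hs0.le, hst⟩ S hS1 σ) (not_lt.2 (le_of_lt (hb hS2)))
  have heq : l τ R = c := le_antisymm hle (hat R hR τ)
  have h1 := hW.maxp t htO R hR (-LinearMap.toContinuousLinearMap (l τ)) fun s hs R' hR' => by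
    have : c ≤ l τ R' := by
      rcases hs.2.eq_or_lt with h | h
      · subst h; exact hat R' hR' τ
      · exact (hlt s ⟨hs.1, h⟩ R' hR' τ).le
    change -l τ R' ≤ -l τ R
    linarith
  have h2 := ht t htO R hR (hat R hR) τ heq
  change 0 ≤ -l τ (Qq4 R) at h1
  linarith

theorem CurvFlow.bound_zero (hW : CurvFlow n T W) (hT : 0 < T) : IsCompact (W 0) := by
  have h := (hW.compact 0 hT).image continuous_snd
  convert h using 1
  ext R
  constructor
  · exact fun hR => ⟨(0, R), ⟨⟨le_rfl, le_rfl⟩, hR⟩, rfl⟩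
  · rintro ⟨⟨t, S⟩, ⟨ht, hS⟩, rfl⟩
    have : t = 0 := le_antisymm ht.2 ht.1
    subst this
    exact hS

/-- Transversality is stable under small perturbations. -/
theorem robust {S K K₀ : Type} [TopologicalSpace S] [CompactSpace S] [TopologicalSpace K]
    [CompactSpace K] {l : S → K → T4 n →ₗ[ℝ] ℝ}
    (hl : ∀ R, Continuous fun p : S × K => l p.1 p.2 R) (l₀ : K₀ → T4 n →ₗ[ℝ] ℝ)
    (htr : ∀ s R, IsCurv R → R ≠ 0 → (∀ τ, 0 ≤ l₀ τ R) → (∀ τ, 0 ≤ l s τ R) →
      ∀ τ, l s τ R = 0 → 0 < l s τ (Qq4 R)) :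
    ∃ η > 0, ∀ s R, IsCurv R → R ≠ 0 → (∀ τ, -(η * ‖R‖) ≤ l₀ τ R) →
      (∀ τ, -(η * ‖R‖) ≤ l s τ R) → ∀ τ, l s τ R ≤ η * ‖R‖ → 0 < l s τ (Qq4 R) := by
  have hc : ∀ {f : (S × K) × T4 n → S × K} {g : (S × K) × T4 n → T4 n}, Continuous f →
      Continuous g → Continuous fun x => l (f x).1 (f x).2 (g x) :=
    fun hf hg => cont_app (l := fun p : S × K => l p.1 p.2) hl hf hg
  obtain ⟨η, hη, h⟩ := exists_eta ((isCompact_univ (X := S × K)).prod (isCompact_unit (n := n)))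
    (fun η => {z | ∀ τ, -η ≤ l₀ τ z.2} ∩ {z | ∀ τ, -η ≤ l z.1.1 τ z.2} ∩
      {z | l z.1.1 z.1.2 z.2 ≤ η} ∩ {z | l z.1.1 z.1.2 (Qq4 z.2) ≤ 0})
    (fun η => (((isClosed_forall_le (fun τ =>
        (l₀ τ).continuous_of_finiteDimensional.comp continuous_snd) _).inter
      (isClosed_forall_le (fun τ => hc (f := fun z => (z.1.1, τ)) (by fun_prop) continuous_snd)
        _)).inter (isClosed_le (hc continuous_fst continuous_snd) continuous_const)).inter
      (isClosed_le (hc continuous_fst (continuous_Qq4.comp continuous_snd)) continuous_const))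
    (fun a b hab z hz => ⟨⟨⟨fun τ => (neg_le_neg hab).trans (hz.1.1.1 τ),
      fun τ => (neg_le_neg hab).trans (hz.1.1.2 τ)⟩, le_trans hz.1.2 hab⟩, hz.2⟩)
    (by
      rintro ⟨⟨s, τ⟩, R⟩ ⟨-, hR, hn⟩ hz
      have hne : R ≠ 0 := by rintro rfl; simp at hn
      have h1 : ∀ σ, 0 ≤ l₀ σ R := fun σ => le_of_forall_pos_le_add fun η hη => by
        have := (hz η hη).1.1.1 σ; linarith
      have h2 : ∀ σ, 0 ≤ l s σ R := fun σ => le_of_forall_pos_le_add fun η hη => by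
        have := (hz η hη).1.1.2 σ; linarith
      have h3 : l s τ R ≤ 0 := le_of_forall_pos_le_add fun η hη => by
        have : l s τ R ≤ η := (hz η hη).1.2
        linarith
      exact absurd (htr s R hR hne h1 h2 τ (le_antisymm h3 (h2 τ))) (not_lt.2 (hz 1 one_pos).2))
  refine ⟨η, hη, fun s R hR hne h1 h2 τ h3 => ?_⟩
  by_contra h4
  have hp : 0 < ‖R‖ := norm_pos_iff.2 hne
  refine h ((s, τ), ‖R‖⁻¹ • R) ⟨mem_univ _, isCurv_smul _ hR, unit_scale hne⟩
    ⟨⟨⟨fun σ => neg_le_scale hne _ (h1 σ), fun σ => neg_le_scale hne _ (h2 σ)⟩, ?_⟩, ?_⟩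
  · change l s τ (‖R‖⁻¹ • R) ≤ η
    rw [map_smul, smul_eq_mul, inv_mul_le_iff₀ hp]
    linarith
  · change l s τ (Qq4 (‖R‖⁻¹ • R)) ≤ 0
    rw [Qq4_smul, map_smul, smul_eq_mul]
    exact mul_nonpos_of_nonneg_of_nonpos (mul_self_nonneg _) (not_lt.1 h4)

theorem asym_step (hW : CurvFlow n T W) {K K₀ : Type} [TopologicalSpace K] [CompactSpace K]
    {l : K → T4 n →ₗ[ℝ] ℝ} (hl : ∀ R, Continuous fun τ => l τ R) {l₀ : K₀ → T4 n →ₗ[ℝ] ℝ}
    (h₀ : Asym T W l₀) {η : ℝ} (hη : 0 < η)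
    (htr : ∀ R, IsCurv R → R ≠ 0 → (∀ τ, -(η * ‖R‖) ≤ l₀ τ R) →
      (∀ τ, -(η * ‖R‖) ≤ l τ R) → ∀ τ, l τ R ≤ η * ‖R‖ → 0 < l τ (Qq4 R))
    {h₁ : ℝ} (h1 : ∀ t ∈ Ico 0 T, ∀ R ∈ W t, ∀ τ, -(η / 2 * ‖R‖ + h₁) ≤ l τ R) :
    Asym T W l := by
  by_cases hT : 0 < T
  swap
  · exact fun ε _ => ⟨0, fun t ht => absurd (ht.1.trans_lt ht.2) hT⟩
  obtain ⟨h₂, h2⟩ := h₀ (η / 2) (half_pos hη)
  obtain ⟨B, hB⟩ := (hW.bound_zero hT).isBounded.exists_norm_le
  have a1 := le_abs_self h₁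
  have a2 := le_abs_self h₂
  have a3 := abs_nonneg h₁
  have a4 := abs_nonneg h₂
  have a5 : 0 ≤ η * |B| := by positivity
  have key := first_touch hW hl (-(2 * |h₁| + 2 * |h₂| + η * |B| + 1))
    (fun R hR τ => by
      have b1 := h1 0 ⟨le_rfl, hT⟩ R hR τ
      have b2 : η * ‖R‖ ≤ η * |B| :=
        mul_le_mul_of_nonneg_left ((hB R hR).trans (le_abs_self _)) hη.le
      linarith)
    (fun t ht R hR hall τ hτ => by
      have ht' := Ioo_subset_Ico_self ht
      have b1 := h1 t ht' R hR τ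
      have hne : R ≠ 0 := by
        rintro rfl
        rw [map_zero] at hτ
        linarith
      refine htr R (hW.curv t ht' R hR) hne (fun σ => ?_) (fun σ => ?_) τ ?_
      · have := h2 t ht' R hR σ
        linarith
      · have := hall σ
        linarith
      · linarith)
  refine fun ε hε => ⟨2 * |h₁| + 2 * |h₂| + η * |B| + 1, fun t ht R hR τ => ?_⟩
  have b1 := key t ht R hR τ
  have b2 : 0 ≤ ε * ‖R‖ := by positivity
  linarith

theorem Asym.near {K : Type} {l l' : K → T4 n →ₗ[ℝ] ℝ} (h : Asym T W l) {ε : ℝ} (hε : 0 < ε)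
    (hc : ∀ τ R, |l' τ R - l τ R| ≤ ε / 2 * ‖R‖) :
    ∃ h₁ : ℝ, ∀ t ∈ Ico 0 T, ∀ R ∈ W t, ∀ τ, -(ε * ‖R‖ + h₁) ≤ l' τ R := by
  obtain ⟨h₁, h1⟩ := h (ε / 2) (half_pos hε)
  refine ⟨h₁, fun t ht R hR τ => ?_⟩
  have := h1 t ht R hR τ
  have := (abs_le.1 (hc τ R)).1
  linarith

theorem asym_family' (hW : CurvFlow n T W) {K K₀ : Type} [TopologicalSpace K] [CompactSpace K]
    {l : ℝ → K → T4 n →ₗ[ℝ] ℝ} (hl : ∀ R, Continuous fun p : ℝ × K => l p.1 p.2 R)
    {l₀ : K₀ → T4 n →ₗ[ℝ] ℝ} (h₀ : Asym T W l₀) {a b : ℝ} (hab : a ≤ b)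
    (htr : ∀ s ∈ Ico a b, ∀ R, IsCurv R → R ≠ 0 → (∀ τ, 0 ≤ l₀ τ R) → (∀ τ, 0 ≤ l s τ R) →
      ∀ τ, l s τ R = 0 → 0 < l s τ (Qq4 R)) (ha : Asym T W (l a)) : Asym T W (l b) := by
  have hcl : IsClosed {s | Asym T W (l s)} := by
    refine isClosed_of_closure_subset fun s hs ε hε => ?_
    obtain ⟨s', h1, h2⟩ :=
      ((mem_closure_iff_frequently.1 hs).and_eventually (tube hl s (half_pos hε))).exists
    exact Asym.near h1 hε fun τ R => by rw [abs_sub_comm]; exact h2 τ R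
  refine IsClosed.mem_of_ge_of_forall_exists_gt (s := {s | Asym T W (l s)})
    (hcl.inter isClosed_Icc) ha hab fun s hs => ?_
  obtain ⟨b', hb1, hb2⟩ := exists_between hs.2.2
  obtain ⟨η, hη, hr⟩ := robust (S := Icc s b') (l := fun u => l u.1)
    (fun R => (hl R).comp (f := fun p : Icc s b' × K => (p.1.1, p.2)) (by fun_prop)) l₀
    fun u => htr u.1 ⟨hs.2.1.trans u.2.1, u.2.2.trans_lt hb2⟩
  have h1 := ((tube hl s (half_pos (half_pos hη))).and (gt_mem_nhds hb1)).filter_mono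
    (nhdsWithin_le_nhds (s := Ioi s))
  obtain ⟨s', ⟨h2, h3⟩, h4⟩ := (h1.and self_mem_nhdsWithin).exists
  obtain ⟨h₁, h5⟩ := Asym.near hs.1 (half_pos hη) h2
  exact ⟨s', asym_step hW (fun R => (hl R).comp (f := fun τ : K => (s', τ)) (by fun_prop)) h₀ hη
    (hr ⟨s', le_of_lt h4, h3.le⟩) h5, h4, h3.le.trans hb2.le⟩

/-- Pinching along a continuous family of transversally invariant cones. -/
theorem asym_family (hW : CurvFlow n T W) {K K₀ : Type} [TopologicalSpace K] [CompactSpace K]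
    {l : ℝ → K → T4 n →ₗ[ℝ] ℝ} {a b : ℝ} (hab : a ≤ b)
    (hl : ∀ R, ContinuousOn (fun p : ℝ × K => l p.1 p.2 R) (Icc a b ×ˢ univ))
    {l₀ : K₀ → T4 n →ₗ[ℝ] ℝ} (h₀ : Asym T W l₀)
    (htr : ∀ s ∈ Ico a b, ∀ R, IsCurv R → R ≠ 0 → (∀ τ, 0 ≤ l₀ τ R) → (∀ τ, 0 ≤ l s τ R) →
      ∀ τ, l s τ R = 0 → 0 < l s τ (Qq4 R)) (ha : Asym T W (l a)) : Asym T W (l b) := by
  have e : ∀ s ∈ Icc a b, l (projIcc a b hab s) = l s := fun s hs => by
    rw [projIcc_of_mem hab hs]
  have h := asym_family' hW (l := fun s => l (projIcc a b hab s))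
    (fun R => (hl R).comp_continuous (f := fun p : ℝ × K => ((projIcc a b hab p.1 : ℝ), p.2))
      ((continuous_subtype_val.comp (continuous_projIcc.comp continuous_fst)).prodMk
        continuous_snd) fun p => ⟨(projIcc a b hab p.1).2, mem_univ _⟩) h₀ hab
    (fun s hs => by rw [e s (Ico_subset_Icc_self hs)]; exact htr s hs)
    (by rw [e a (left_mem_Icc.2 hab)]; exact ha)
  rwa [e b (right_mem_Icc.2 hab)] at h

theorem asym_empty (T : ℝ) (W : ℝ → Set (T4 n)) :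
    Asym T W (fun τ : Empty => (τ.elim : T4 n →ₗ[ℝ] ℝ)) :=
  fun _ _ => ⟨0, fun _ _ _ _ τ => τ.elim⟩

theorem Asym.sum {K K' : Type} {l : K → T4 n →ₗ[ℝ] ℝ} {l' : K' → T4 n →ₗ[ℝ] ℝ}
    (h : Asym T W l) (h' : Asym T W l') : Asym T W (Sum.elim l l') := by
  intro ε hε
  obtain ⟨a, ha⟩ := h ε hε
  obtain ⟨b, hb⟩ := h' ε hε
  refine ⟨max a b, fun t ht R hR τ => ?_⟩
  rcases τ with τ | τ
  · have := ha t ht R hR τ
    have := le_max_left a b
    simp only [Sum.elim_inl]; linarith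
  · have := hb t ht R hR τ
    have := le_max_right a b
    simp only [Sum.elim_inr]; linarith

theorem asym_of_nonneg {K : Type} {l : K → T4 n →ₗ[ℝ] ℝ}
    (h : ∀ t ∈ Ico 0 T, ∀ R ∈ W t, ∀ τ, 0 ≤ l τ R) : Asym T W l := by
  refine fun ε hε => ⟨0, fun t ht R hR τ => ?_⟩
  have := h t ht R hR τ
  have : 0 ≤ ε * ‖R‖ := by positivity
  linarith

/-- Inclusions of cones pass to the asymptotic statements. -/
theorem asym_mono (hW : CurvFlow n T W) {K K' : Type} [TopologicalSpace K'] [CompactSpace K']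
    {l : K → T4 n →ₗ[ℝ] ℝ} {l' : K' → T4 n →ₗ[ℝ] ℝ} (hl' : ∀ R, Continuous fun τ => l' τ R)
    (hsub : ∀ R, IsCurv R → (∀ τ, 0 ≤ l τ R) → ∀ τ, 0 ≤ l' τ R) (h : Asym T W l) :
    Asym T W l' := by
  intro ε hε
  obtain ⟨η, hη, h1⟩ := exists_eta ((isCompact_univ (X := K')).prod (isCompact_unit (n := n)))
    (fun η => {z | ∀ τ, -η ≤ l τ z.2} ∩ {z | l' z.1 z.2 ≤ -ε})
    (fun η => (isClosed_forall_le (fun τ =>
        (l τ).continuous_of_finiteDimensional.comp continuous_snd) _).inter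
      (isClosed_le (cont_app hl' continuous_fst continuous_snd) continuous_const))
    (fun a b hab z hz => ⟨fun τ => (neg_le_neg hab).trans (hz.1 τ), hz.2⟩)
    (by
      rintro ⟨τ, R⟩ ⟨-, hR, -⟩ hz
      have h1 : ∀ σ, 0 ≤ l σ R := fun σ => le_of_forall_pos_le_add fun η hη => by
        have := (hz η hη).1 σ; linarith
      have h2 := hsub R hR h1 τ
      have h3 : l' τ R ≤ -ε := (hz 1 one_pos).2
      linarith)
  obtain ⟨M, hM0, hM⟩ := exists_bound hl'
  obtain ⟨h₁, h2⟩ := h (η / 2) (half_pos hη)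
  refine ⟨M * (2 * |h₁| / η), fun t ht R hR τ => ?_⟩
  have a0 : 0 ≤ ε * ‖R‖ := by positivity
  have a1 : 0 ≤ M * (2 * |h₁| / η) := by positivity
  by_cases hb : ‖R‖ ≤ 2 * |h₁| / η
  · have a2 := (abs_le.1 (hM τ R)).1
    have a3 := mul_le_mul_of_nonneg_left hb hM0
    linarith
  · rw [not_le, div_lt_iff₀ hη] at hb
    have hne : R ≠ 0 := by
      rintro rfl
      have := abs_nonneg h₁
      simp only [norm_zero, zero_mul] at hb
      linarith
    have hp : 0 < ‖R‖ := norm_pos_iff.2 hne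
    have a2 := h1 (τ, ‖R‖⁻¹ • R) ⟨mem_univ _, isCurv_smul _ (hW.curv t ht R hR), unit_scale hne⟩
    have a3 : ¬l' τ (‖R‖⁻¹ • R) ≤ -ε := fun a4 => a2 ⟨fun σ => neg_le_scale hne _ (by
      have := h2 t ht R hR σ
      have := le_abs_self h₁
      linarith), a4⟩
    rw [map_smul, smul_eq_mul, inv_mul_le_iff₀ hp, not_le] at a3
    linarith

end

end Pool.Agent.Work.MP_3a9764_gt
end

-- merged part: Pool.Agent.Work.MP_3a9764_gt.Step
section
/-! The abstract barrier argument and the continuity method along a family of cones. -/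

set_option autoImplicit false

open Filter Set
open scoped Topology

namespace Pool.Agent.Work.MP_3a9764_gt

noncomputable section

variable {n : ℕ} {T : ℝ} {W : ℝ → Set (T4 n)}

/-- The flow lies in `G` up to a lower order error. -/
def AM (T : ℝ) (W : ℝ → Set (T4 n)) (G : Set (T4 n)) : Prop :=
  ∀ ε > 0, ∃ C : ℝ, ∀ t ∈ Ico 0 T, ∀ R ∈ W t, R + (ε * scal4 R + C) • Id4 n ∈ G

/-- The projection of the cone cut out by the functionals `f w`, `w ∈ Ω`. -/
def Cone {A Y : Type} (Ω : Set A) (f : A → T4 n × Y → ℝ) : Set (T4 n) :=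
  {R | ∃ y, ∀ w ∈ Ω, 0 ≤ f w (R, y)}

/-- Closed cones stable under adding non-negative multiples of the identity. -/
structure GoodCone (G : Set (T4 n)) : Prop where
  closed : IsClosed G
  zero : 0 ∈ G
  smul : ∀ R ∈ G, ∀ r : ℝ, 0 ≤ r → r • R ∈ G
  addId : ∀ R ∈ G, ∀ r : ℝ, 0 ≤ r → R + r • Id4 n ∈ G

namespace T

theorem abs_scal_le (R : T4 n) : |scal4 R| ≤ (n : ℝ) ^ 2 * ‖R‖ := by
  have h : ∀ i j, |R i j i j| ≤ ‖R‖ := fun i j =>
    (((norm_le_pi_norm (R i j i) j).trans (norm_le_pi_norm (R i j) i)).trans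
      (norm_le_pi_norm (R i) j)).trans (norm_le_pi_norm R i)
  calc |scal4 R| ≤ ∑ i, |∑ j, R i j i j| := Finset.abs_sum_le_sum_abs _ _
    _ ≤ ∑ _i : Fin n, ∑ _j : Fin n, ‖R‖ := Finset.sum_le_sum fun i _ =>
        (Finset.abs_sum_le_sum_abs _ _).trans (Finset.sum_le_sum fun j _ => h i j)
    _ = (n : ℝ) ^ 2 * ‖R‖ := by simp; ring

theorem norm_Id4_le : ‖Id4 n‖ ≤ 1 := by
  refine (pi_norm_le_iff_of_nonneg zero_le_one).2 fun i =>
    (pi_norm_le_iff_of_nonneg zero_le_one).2 fun j =>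
    (pi_norm_le_iff_of_nonneg zero_le_one).2 fun k =>
    (pi_norm_le_iff_of_nonneg zero_le_one).2 fun l => ?_
  simp only [Id4]
  split_ifs <;> simp

theorem norm_smul_Id4 (a : ℝ) : ‖a • Id4 n‖ ≤ |a| := by
  rw [norm_smul]
  exact mul_le_of_le_one_right (abs_nonneg a) norm_Id4_le

theorem scal4_add (R S : T4 n) : scal4 (R + S) = scal4 R + scal4 S := by
  simp only [scal4, Pi.add_apply, Finset.sum_add_distrib]

theorem scal4_smul (c : ℝ) (R : T4 n) : scal4 (c • R) = c * scal4 R := by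
  simp only [scal4, Pi.smul_apply, smul_eq_mul, Finset.mul_sum]

theorem continuous_scal4 : Continuous (scal4 : T4 n → ℝ) := by
  unfold scal4
  fun_prop

section

variable {K Y : Type} [TopologicalSpace K] [CompactSpace K] [NormedAddCommGroup Y]
  [NormedSpace ℝ Y] [FiniteDimensional ℝ Y]

omit [NormedSpace ℝ Y] [FiniteDimensional ℝ Y] in
theorem norm_inl (R : T4 n) : ‖((R, 0) : T4 n × Y)‖ = ‖R‖ := by simp

/-- The hidden variable is controlled by the curvature tensor. -/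
theorem lift_bound {l : K → T4 n × Y →ₗ[ℝ] ℝ} (hl : ∀ x, Continuous fun w => l w x)
    (hpt : ∀ y, (∀ w, 0 ≤ l w (0, y)) → y = 0) :
    ∃ B : ℝ, 0 ≤ B ∧ ∀ R y (a : ℝ), 0 ≤ a → (∀ w, -a ≤ l w (R, y)) → ‖y‖ ≤ B * (‖R‖ + a) := by
  obtain ⟨η, hη, h⟩ := exists_eta (isCompact_sphere (0 : Y) 1)
    (fun η => {y | ∀ w, -η ≤ l w (0, y)})
    (fun η => isClosed_forall_le (fun w =>
      (l w).continuous_of_finiteDimensional.comp (by fun_prop)) _)
    (fun a b hab z hz w => (neg_le_neg hab).trans (hz w))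
    (fun y hy hz => by
      have h1 := hpt y fun w => le_of_forall_pos_le_add fun η hη => by
        have := hz η hη w; linarith
      simp [h1] at hy)
  obtain ⟨M, hM0, hM⟩ := exists_bound hl
  refine ⟨(M + 1) / η, by positivity, fun R y a ha hy => ?_⟩
  by_cases h0 : y = 0
  · rw [h0, norm_zero]; positivity
  have hp : 0 < ‖y‖ := norm_pos_iff.2 h0
  have h1 := h (‖y‖⁻¹ • y) (by simpa using unit_scale h0)
  simp only [mem_ofPred_eq, not_forall, not_le] at h1
  obtain ⟨w, hw⟩ := h1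
  have e : ((0, ‖y‖⁻¹ • y) : T4 n × Y) = ‖y‖⁻¹ • ((R, y) - (R, 0)) := by simp
  rw [e, map_smul, map_sub, smul_eq_mul, inv_mul_lt_iff₀ hp] at hw
  have h2 := (abs_le.1 (hM w (R, 0))).2
  rw [norm_inl] at h2
  have h3 := hy w
  rw [div_mul_eq_mul_div, le_div_iff₀ hη]
  have h4 := mul_nonneg hM0 ha
  have h5 := norm_nonneg R
  nlinarith

theorem exists_gap {g : K → ℝ} (hg : Continuous g) {S : Set K} (hS : IsClosed S)
    (h : ∀ w ∈ S, 0 < g w) : ∃ m > 0, ∀ w ∈ S, m ≤ g w :=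
  hS.isCompact.exists_forall_le' hg.continuousOn h

theorem barrier_core (hW : CurvFlow n T W) {l : K → T4 n × Y →ₗ[ℝ] ℝ}
    (hl : ∀ x, Continuous fun w => l w x) {c : K → ℝ} (hc : Continuous c)
    (h0 : ∀ R ∈ W 0, ∃ y, ∀ w, c w < l w (R, y)) (hpt : ∀ y, (∀ w, 0 ≤ l w (0, y)) → y = 0)
    (htr : ∀ t ∈ Ioo 0 T, ∀ R ∈ W t, ∀ y, (∀ w, c w ≤ l w (R, y)) →
      (∃ y₁, ∀ w, c w < l w (R, y₁)) ∨ ∃ y', ∀ w, l w (R, y) = c w → 0 < l w (Qq4 R, y')) :
    ∀ t ∈ Ico 0 T, ∀ R ∈ W t, ∃ y, ∀ w, c w < l w (R, y) := by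
  obtain ⟨M, hM0, hM⟩ := exists_bound hl
  set F : Set (T4 n) := {R | ∃ y, ∀ w, c w < l w (R, y)} with hF
  have hFo : IsOpen F := by
    refine Metric.isOpen_iff.2 fun R ⟨y, hy⟩ => ?_
    obtain ⟨m, hm, h⟩ := exists_gap ((hl (R, y)).sub hc) isClosed_univ fun w _ => sub_pos.2 (hy w)
    refine ⟨m / (M + 1), by positivity, fun S hS => ⟨y, fun w => ?_⟩⟩
    have e : ((S, y) : T4 n × Y) = (R, y) + (S - R, 0) := by simp
    have h1 := (abs_le.1 (hM w (S - R, 0))).1
    rw [norm_inl] at h1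
    rw [Metric.mem_ball, dist_eq_norm, lt_div_iff₀ (by positivity)] at hS
    have h2 : m ≤ l w (R, y) - c w := h w (mem_univ _)
    have h3 := norm_nonneg (S - R)
    rw [e, map_add]
    nlinarith
  have hFc : Convex ℝ F := by
    rintro R ⟨y, hy⟩ S ⟨z, hz⟩ a b ha hb hab
    refine ⟨a • y + b • z, fun w => ?_⟩
    have e : ((a • R + b • S, a • y + b • z) : T4 n × Y) = a • (R, y) + b • (S, z) := by simp
    rw [e, map_add, map_smul, map_smul]
    exact (convex_Ioi (c w)) (hy w) (hz w) ha hb hab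
  have hlift : ∀ R ∈ closure F, ∃ y, ∀ w, c w ≤ l w (R, y) := by
    obtain ⟨B, hB0, hB⟩ := lift_bound hl hpt
    obtain ⟨a, ha⟩ := isCompact_univ.exists_bound_of_continuousOn hc.continuousOn
    intro R hR
    have hZ : IsCompact ((Metric.closedBall R 1 ×ˢ
        Metric.closedBall (0 : Y) (B * (‖R‖ + 1 + |a|))) ∩ {x | ∀ w, c w ≤ l w x}) := by
      refine ((isCompact_closedBall _ _).prod (isCompact_closedBall _ _)).inter_right ?_
      rw [ofPred_forall]
      exact isClosed_iInter fun w =>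
        isClosed_le continuous_const (l w).continuous_of_finiteDimensional
    have h1 : R ∈ closure (Metric.ball R 1 ∩ F) :=
      Metric.isOpen_ball.inter_closure ⟨Metric.mem_ball_self one_pos, hR⟩
    have h2 : Metric.ball R 1 ∩ F ⊆ Prod.fst '' ((Metric.closedBall R 1 ×ˢ
        Metric.closedBall (0 : Y) (B * (‖R‖ + 1 + |a|))) ∩ {x | ∀ w, c w ≤ l w x}) := by
      rintro S ⟨hS, y, hy⟩
      refine ⟨(S, y), ⟨⟨Metric.ball_subset_closedBall hS, ?_⟩, fun w => (hy w).le⟩, rfl⟩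
      rw [mem_closedBall_zero_iff]
      refine (hB S y |a| (abs_nonneg a) fun w => ?_).trans (mul_le_mul_of_nonneg_left ?_ hB0)
      · have h3 := (abs_le.1 (ha w (mem_univ _))).1
        have h4 := le_abs_self a
        have h5 := hy w
        linarith
      · have h3 : ‖S‖ ≤ ‖R‖ + 1 := norm_le_of_mem_closedBall (Metric.ball_subset_closedBall hS)
        linarith
    obtain ⟨⟨S, y⟩, hx, rfl⟩ :=
      (hZ.image continuous_fst).isClosed.closure_subset_iff.2 h2 h1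
    exact ⟨y, hx.2⟩
  intro t₁ ht₁ R₁ hR₁
  by_contra hcon
  have hS : IsCompact ({z : ℝ × T4 n | z.1 ∈ Icc 0 t₁ ∧ z.2 ∈ W z.1} ∩ Prod.snd ⁻¹' Fᶜ) :=
    (hW.compact t₁ ht₁.2).inter_right (hFo.isClosed_compl.preimage continuous_snd)
  obtain ⟨⟨t, R⟩, ⟨⟨htI, hR⟩, hRF⟩, hmin⟩ := hS.exists_isMinOn
    ⟨(t₁, R₁), ⟨⟨ht₁.1, le_rfl⟩, hR₁⟩, hcon⟩ (f := fun z => z.1) (by fun_prop)
  change R ∉ F at hRF
  change R ∈ W t at hR
  change t ∈ Icc 0 t₁ at htI
  have hpos : 0 < t := by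
    rcases htI.1.eq_or_lt with h | h
    · subst h; exact absurd (h0 R hR) hRF
    · exact h
  have htO : t ∈ Ioo 0 T := ⟨hpos, htI.2.trans_lt ht₁.2⟩
  have hlt : ∀ s ∈ Ico 0 t, ∀ R' ∈ W s, R' ∈ F := by
    intro s hs R' hR'
    by_contra h
    have := hmin (a := (s, R')) ⟨⟨⟨hs.1, hs.2.le.trans htI.2⟩, hR'⟩, h⟩
    exact absurd hs.2 (not_lt.2 this)
  have hat : ∀ R' ∈ W t, R' ∈ closure F := by
    intro R' hR'
    refine Metric.mem_closure_iff.2 fun ε hε => ?_
    have h1 := ((hW.lsc t htO R' hR' ε hε).and (lt_mem_nhds hpos)).filter_mono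
      (nhdsWithin_le_nhds (s := Iio t))
    obtain ⟨s, ⟨⟨S, hS1, hS2⟩, hs0⟩, hst⟩ := (h1.and self_mem_nhdsWithin).exists
    exact ⟨S, hlt s ⟨hs0.le, hst⟩ S hS1, by rwa [dist_comm]⟩
  obtain ⟨ξ, hξ⟩ := geometric_hahn_banach_open_point hFc hFo hRF
  have hξ' : ∀ S ∈ closure F, ξ S ≤ ξ R := fun S hS =>
    (isClosed_le ξ.continuous continuous_const).closure_subset_iff.2 (fun S hS => (hξ S hS).le) hS
  have h1 := hW.maxp t htO R hR ξ fun s hs R' hR' => by
    rcases hs.2.eq_or_lt with h | h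
    · subst h; exact hξ' R' (hat R' hR')
    · exact (hξ R' (hlt s ⟨hs.1, h⟩ R' hR')).le
  obtain ⟨y, hy⟩ := hlift R (hat R hR)
  rcases htr t htO R hR y hy with h | ⟨y', hy'⟩
  · exact hRF h
  obtain ⟨m, hm, h⟩ := exists_gap ((hl (R, y)).sub hc)
    (isClosed_le (hl (Qq4 R, y')) (continuous_const (y := (0 : ℝ)))) fun w hw =>
      sub_pos.2 (lt_of_le_of_ne (hy w) fun e => absurd (hy' w e.symm) (not_lt.2 hw))
  have hN : 0 ≤ M * ‖((Qq4 R, y') : T4 n × Y)‖ := by positivity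
  obtain ⟨d, hd, hd'⟩ : ∃ d > 0, d * (M * ‖((Qq4 R, y') : T4 n × Y)‖) < m :=
    ⟨m / (M * ‖((Qq4 R, y') : T4 n × Y)‖ + 1), by positivity, by
      rw [div_mul_eq_mul_div, div_lt_iff₀ (by positivity)]; nlinarith⟩
  have h2 : R + d • Qq4 R ∈ F := by
    refine ⟨y + d • y', fun w => ?_⟩
    have e : ((R + d • Qq4 R, y + d • y') : T4 n × Y) = (R, y) + d • (Qq4 R, y') := by simp
    rw [e, map_add, map_smul, smul_eq_mul]
    by_cases hw : l w (Qq4 R, y') ≤ 0
    · have h3 : m ≤ l w (R, y) - c w := h w hw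
      have h4 := mul_le_mul_of_nonneg_left (abs_le.1 (hM w (Qq4 R, y'))).1 hd.le
      linarith
    · have h3 := mul_pos hd (not_le.1 hw)
      have h4 := hy w
      linarith
  have h3 := hξ _ h2
  rw [map_add, map_smul, smul_eq_mul] at h3
  have h4 := mul_nonneg hd.le h1
  linarith

/-- The lifted form of `Asym`. -/
def LA (T : ℝ) (W : ℝ → Set (T4 n)) (l : K → T4 n × Y →ₗ[ℝ] ℝ) : Prop :=
  ∀ ρ > 0, ∃ h : ℝ, ∀ t ∈ Ico 0 T, ∀ R ∈ W t, ∃ y, ∀ w, -(ρ * ‖R‖ + h) ≤ l w (R, y)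

omit [TopologicalSpace K] [CompactSpace K] [FiniteDimensional ℝ Y] in
theorem LA.near {l l' : K → T4 n × Y →ₗ[ℝ] ℝ} (h : LA T W l) {B : ℝ} (hB0 : 0 ≤ B)
    (hB : ∀ R y (a : ℝ), 0 ≤ a → (∀ w, -a ≤ l w (R, y)) → ‖y‖ ≤ B * (‖R‖ + a)) {ρ : ℝ}
    (hρ : 0 < ρ) (hc : ∀ w x, |l' w x - l w x| ≤ ρ / (2 * (1 + 2 * B)) * ‖x‖) :
    ∃ h₁ : ℝ, ∀ t ∈ Ico 0 T, ∀ R ∈ W t, ∃ y, ∀ w, -(ρ * ‖R‖ + h₁) ≤ l' w (R, y) := by
  obtain ⟨h₁, h1⟩ := h (min 1 (ρ / 2)) (lt_min one_pos (half_pos hρ))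
  set δ := ρ / (2 * (1 + 2 * B)) with hδ
  have hδ0 : 0 ≤ δ := by positivity
  have hδ1 : δ * (1 + 2 * B) = ρ / 2 := by rw [hδ]; field_simp
  refine ⟨|h₁| + δ * (B * |h₁|), fun t ht R hR => ?_⟩
  obtain ⟨y, hy⟩ := h1 t ht R hR
  refine ⟨y, fun w => ?_⟩
  have a0 := norm_nonneg R
  have a1 := le_abs_self h₁
  have a2 := mul_le_mul_of_nonneg_right (min_le_left 1 (ρ / 2)) a0
  have a3 := mul_le_mul_of_nonneg_right (min_le_right 1 (ρ / 2)) a0
  have a4 := hB R y (‖R‖ + |h₁|) (by positivity) fun w => by have := hy w; linarith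
  have a5 : ‖((R, y) : T4 n × Y)‖ ≤ (1 + 2 * B) * ‖R‖ + B * |h₁| := by
    have b1 : 0 ≤ B * ‖R‖ := by positivity
    have b2 : 0 ≤ B * |h₁| := by positivity
    rw [Prod.norm_def, max_le_iff]
    constructor
    · change ‖R‖ ≤ _
      linarith
    · change ‖y‖ ≤ _
      linarith
  have a6 := mul_le_mul_of_nonneg_left a5 hδ0
  have a7 := (abs_le.1 (hc w (R, y))).1
  have a8 := hy w
  have a9 : δ * ((1 + 2 * B) * ‖R‖ + B * |h₁|) = ρ / 2 * ‖R‖ + δ * (B * |h₁|) := by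
    rw [← hδ1]; ring
  linarith

theorem robust_lift {S : Type} [TopologicalSpace S] [CompactSpace S] {G : Set (T4 n)}
    (hG : GoodCone G) {l : S → K → T4 n × Y →ₗ[ℝ] ℝ}
    (hl : ∀ x, Continuous fun p : S × K => l p.1 p.2 x) {v : S → T4 n × Y → Y}
    (hv : Continuous fun p : S × (T4 n × Y) => v p.1 p.2)
    (hv2 : ∀ s x, ∀ r : ℝ, 0 < r → v s (r • x) = r ^ 2 • v s x)
    (hpt : ∀ s y, (∀ w, 0 ≤ l s w (0, y)) → y = 0)
    (htr : ∀ s, ∀ R ∈ G, ∀ y, (∀ w, 0 ≤ l s w (R, y)) → R ≠ 0 →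
      ∀ w, l s w (R, y) = 0 → 0 < l s w (Qq4 R, v s (R, y))) :
    ∃ η > 0, ∀ s (x : T4 n × Y), x ≠ 0 → (∃ R' ∈ G, ‖x.1 - R'‖ ≤ η * ‖x‖) →
      (∀ w, -(η * ‖x‖) ≤ l s w x) → ∀ w, l s w x ≤ η * ‖x‖ → 0 < l s w (Qq4 x.1, v s x) := by
  have hc : ∀ {f : (S × K) × (T4 n × Y) → S × K} {g : (S × K) × (T4 n × Y) → T4 n × Y},
      Continuous f → Continuous g → Continuous fun x => l (f x).1 (f x).2 (g x) :=
    fun hf hg => cont_app (l := fun p : S × K => l p.1 p.2) hl hf hg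
  obtain ⟨η, hη, h⟩ := exists_eta
    ((isCompact_univ (X := S × K)).prod (isCompact_sphere (0 : T4 n × Y) 1))
    (fun η => {z | Metric.infDist z.2.1 G ≤ η} ∩ {z | ∀ τ, -η ≤ l z.1.1 τ z.2} ∩
      {z | l z.1.1 z.1.2 z.2 ≤ η} ∩ {z | l z.1.1 z.1.2 (Qq4 z.2.1, v z.1.1 z.2) ≤ 0})
    (fun η => (((isClosed_le ((Metric.continuous_infDist_pt G).comp (by fun_prop))
        continuous_const).inter
      (isClosed_forall_le (fun τ => hc (f := fun z => (z.1.1, τ)) (by fun_prop) continuous_snd)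
        _)).inter (isClosed_le (hc continuous_fst continuous_snd) continuous_const)).inter
      (isClosed_le (hc continuous_fst ((continuous_Qq4.comp (by fun_prop)).prodMk
        (hv.comp (f := fun z : (S × K) × (T4 n × Y) => (z.1.1, z.2)) (by fun_prop))))
        continuous_const))
    (fun a b hab z hz => ⟨⟨⟨le_trans hz.1.1.1 hab,
      fun τ => (neg_le_neg hab).trans (hz.1.1.2 τ)⟩, le_trans hz.1.2 hab⟩, hz.2⟩)
    (by
      rintro ⟨⟨s, τ⟩, R, y⟩ ⟨-, hn⟩ hz
      have h1 : R ∈ G := (hG.closed.mem_iff_infDist_zero ⟨0, hG.zero⟩).2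
        (le_antisymm (le_of_forall_pos_le_add fun η hη => by
          have : Metric.infDist R G ≤ η := (hz η hη).1.1.1
          linarith) Metric.infDist_nonneg)
      have h2 : ∀ σ, 0 ≤ l s σ (R, y) := fun σ => le_of_forall_pos_le_add fun η hη => by
        have := (hz η hη).1.1.2 σ; linarith
      have h3 : l s τ (R, y) ≤ 0 := le_of_forall_pos_le_add fun η hη => by
        have : l s τ (R, y) ≤ η := (hz η hη).1.2
        linarith
      have hne : R ≠ 0 := by
        rintro rfl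
        rw [hpt s y h2] at hn
        simp at hn
      exact absurd (htr s R h1 y h2 hne τ (le_antisymm h3 (h2 τ))) (not_lt.2 (hz 1 one_pos).2))
  refine ⟨η, hη, fun s x hne ⟨R', hR', h1⟩ h2 τ h3 => ?_⟩
  by_contra h4
  have hp : 0 < ‖x‖ := norm_pos_iff.2 hne
  have hq : 0 < ‖x‖⁻¹ := inv_pos.2 hp
  refine h ((s, τ), ‖x‖⁻¹ • x) ⟨mem_univ _, by simpa using unit_scale hne⟩
    ⟨⟨⟨?_, fun σ => neg_le_scale hne _ (h2 σ)⟩, ?_⟩, ?_⟩
  · refine (Metric.infDist_le_dist_of_mem (hG.smul R' hR' _ hq.le)).trans ?_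
    change dist (‖x‖⁻¹ • x.1) _ ≤ η
    rw [dist_eq_norm, ← smul_sub, norm_smul, Real.norm_of_nonneg hq.le, inv_mul_le_iff₀ hp]
    linarith
  · change l s τ (‖x‖⁻¹ • x) ≤ η
    rw [map_smul, smul_eq_mul, inv_mul_le_iff₀ hp]
    linarith
  · change l s τ (Qq4 (‖x‖⁻¹ • x.1), v s (‖x‖⁻¹ • x)) ≤ 0
    rw [Qq4_smul, hv2 s x _ hq, pow_two, ← Prod.smul_mk, map_smul, smul_eq_mul]
    exact mul_nonpos_of_nonneg_of_nonpos (mul_self_nonneg _) (not_lt.1 h4)

theorem la_step (hW : CurvFlow n T W) {G : Set (T4 n)} (hAG : AM T W G)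
    {l : K → T4 n × Y →ₗ[ℝ] ℝ} (hl : ∀ x, Continuous fun w => l w x)
    (hpt : ∀ y, (∀ w, 0 ≤ l w (0, y)) → y = 0) {v : T4 n × Y → Y} {η : ℝ} (hη : 0 < η)
    (htr : ∀ x : T4 n × Y, x ≠ 0 → (∃ R' ∈ G, ‖x.1 - R'‖ ≤ η * ‖x‖) →
      (∀ w, -(η * ‖x‖) ≤ l w x) → ∀ w, l w x ≤ η * ‖x‖ → 0 < l w (Qq4 x.1, v x))
    {h₁ : ℝ} (h1 : ∀ t ∈ Ico 0 T, ∀ R ∈ W t, ∃ y, ∀ w, -(η / 2 * ‖R‖ + h₁) ≤ l w (R, y)) :
    LA T W l := by
  by_cases hT : 0 < T
  swap
  · exact fun ε _ => ⟨0, fun t ht => absurd (ht.1.trans_lt ht.2) hT⟩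
  obtain ⟨C, hC⟩ := hAG (η / (2 * ((n : ℝ) ^ 2 + 1))) (by positivity)
  obtain ⟨B, hB⟩ := (hW.bound_zero hT).isBounded.exists_norm_le
  have a1 := le_abs_self h₁
  have a3 := abs_nonneg h₁
  have a4 := abs_nonneg C
  have a5 : 0 ≤ η * |B| := by positivity
  have key := barrier_core hW hl (c := fun _ => -(2 * |h₁| + 2 * |C| + η * |B| + 1))
    continuous_const
    (fun R hR => by
      obtain ⟨y, hy⟩ := h1 0 ⟨le_rfl, hT⟩ R hR
      have b2 : η * ‖R‖ ≤ η * |B| :=
        mul_le_mul_of_nonneg_left ((hB R hR).trans (le_abs_self _)) hη.le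
      exact ⟨y, fun w => by have := hy w; linarith⟩) hpt
    (fun t ht R hR y hall => by
      have ht' := Ioo_subset_Ico_self ht
      by_cases hb : η * ‖R‖ < 2 * |h₁| + 2 * |C| + η * |B| + 1
      · by_cases hb' : η / 2 * ‖R‖ + h₁ < 2 * |h₁| + 2 * |C| + η * |B| + 1
        · obtain ⟨y₁, hy⟩ := h1 t ht' R hR
          exact Or.inl ⟨y₁, fun w => by have := hy w; linarith⟩
        · exfalso; linarith
      have b0 : η * ‖R‖ ≤ η * ‖((R, y) : T4 n × Y)‖ :=
        mul_le_mul_of_nonneg_left (norm_fst_le ((R, y) : T4 n × Y)) hη.le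
      have hne : ((R, y) : T4 n × Y) ≠ 0 := by
        intro e
        rw [e, norm_zero] at b0
        linarith
      refine Or.inr ⟨v (R, y), fun w hw => htr (R, y) hne ⟨_, hC t ht' R hR, ?_⟩
        (fun σ => by have := hall σ; linarith) w (by linarith)⟩
      rw [sub_add_cancel_left, norm_neg]
      refine (norm_smul_Id4 _).trans ((abs_add_le _ _).trans ?_)
      have b1 : |η / (2 * ((n : ℝ) ^ 2 + 1)) * scal4 R| ≤ η / 2 * ‖R‖ := by
        rw [abs_mul, abs_of_pos (by positivity), div_mul_eq_mul_div,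
          div_le_iff₀ (by positivity)]
        have b2 := mul_le_mul_of_nonneg_left (abs_scal_le R) hη.le
        have b3 : 0 ≤ η * ‖R‖ := by positivity
        nlinarith
      linarith)
  refine fun ε hε => ⟨2 * |h₁| + 2 * |C| + η * |B| + 1, fun t ht R hR => ?_⟩
  obtain ⟨y, hy⟩ := key t ht R hR
  have b2 : 0 ≤ ε * ‖R‖ := by positivity
  exact ⟨y, fun w => by have := hy w; linarith⟩

theorem la_family (hW : CurvFlow n T W) {G : Set (T4 n)} (hG : GoodCone G) (hAG : AM T W G)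
    {l : ℝ → K → T4 n × Y →ₗ[ℝ] ℝ} (hl : ∀ x, Continuous fun p : ℝ × K => l p.1 p.2 x)
    {v : ℝ → T4 n × Y → Y} (hv : Continuous fun p : ℝ × (T4 n × Y) => v p.1 p.2)
    (hv2 : ∀ s x, ∀ r : ℝ, 0 < r → v s (r • x) = r ^ 2 • v s x)
    (hpt : ∀ s y, (∀ w, 0 ≤ l s w (0, y)) → y = 0) {a b : ℝ} (hab : a ≤ b)
    (htr : ∀ s ∈ Ico a b, ∀ R ∈ G, ∀ y, (∀ w, 0 ≤ l s w (R, y)) → R ≠ 0 →
      ∀ w, l s w (R, y) = 0 → 0 < l s w (Qq4 R, v s (R, y)))
    (ha : LA T W (l a)) : LA T W (l b) := by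
  have hls : ∀ s x, Continuous fun w => l s w x :=
    fun s x => (hl x).comp (f := fun w : K => (s, w)) (by fun_prop)
  have hcl : IsClosed {s | LA T W (l s)} := by
    refine isClosed_of_closure_subset fun s hs ρ hρ => ?_
    obtain ⟨B, hB0, hB⟩ := lift_bound (hls s) (hpt s)
    obtain ⟨δ, hδ, hδ1, hδ2⟩ : ∃ δ > 0, δ * (2 * B) ≤ 1 ∧ δ ≤ ρ / (2 * (1 + 2 * (2 * B + 1))) :=
      ⟨min (1 / (2 * B + 1)) (ρ / (2 * (1 + 2 * (2 * B + 1)))),
        lt_min (by positivity) (by positivity),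
        (mul_le_mul_of_nonneg_right (min_le_left _ _) (by positivity)).trans (by
          rw [div_mul_eq_mul_div, div_le_iff₀ (by positivity)]; linarith), min_le_right _ _⟩
    obtain ⟨s', h1, h2⟩ :=
      ((mem_closure_iff_frequently.1 hs).and_eventually (tube hl s hδ)).exists
    refine LA.near h1 (B := 2 * B + 1) (by positivity) (fun R y a ha hy => ?_) hρ fun w x => ?_
    · have b0 := norm_nonneg R
      have b1 := norm_nonneg y
      have b2 : ‖((R, y) : T4 n × Y)‖ ≤ ‖R‖ + ‖y‖ :=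
        max_le (le_add_of_nonneg_right b1) (le_add_of_nonneg_left b0)
      have b3 := hB R y (a + δ * (‖R‖ + ‖y‖)) (by positivity) fun w => by
        have c1 := (abs_le.1 (h2 w (R, y))).2
        have c2 := mul_le_mul_of_nonneg_left b2 hδ.le
        have c3 := hy w
        linarith
      have b4 := mul_le_mul_of_nonneg_right hδ1 (add_nonneg b0 b1)
      nlinarith
    · rw [abs_sub_comm]
      exact (h2 w x).trans (mul_le_mul_of_nonneg_right hδ2 (norm_nonneg _))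
  refine IsClosed.mem_of_ge_of_forall_exists_gt (s := {s | LA T W (l s)})
    (hcl.inter isClosed_Icc) ha hab fun s hs => ?_
  obtain ⟨b', hb1, hb2⟩ := exists_between hs.2.2
  obtain ⟨η, hη, hr⟩ := robust_lift (S := Icc s b') hG (l := fun u => l u.1)
    (fun R => (hl R).comp (f := fun p : Icc s b' × K => (p.1.1, p.2)) (by fun_prop))
    (v := fun u => v u.1)
    (hv.comp (f := fun p : Icc s b' × (T4 n × Y) => (p.1.1, p.2)) (by fun_prop))
    (fun u => hv2 u.1) (fun u => hpt u.1)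
    fun u => htr u.1 ⟨hs.2.1.trans u.2.1, u.2.2.trans_lt hb2⟩
  obtain ⟨B, hB0, hB⟩ := lift_bound (hls s) (hpt s)
  have h1 := ((tube hl s (ε := η / 2 / (2 * (1 + 2 * B))) (by positivity)).and
    (gt_mem_nhds hb1)).filter_mono (nhdsWithin_le_nhds (s := Ioi s))
  obtain ⟨s', ⟨h2, h3⟩, h4⟩ := (h1.and self_mem_nhdsWithin).exists
  obtain ⟨h₁, h5⟩ := LA.near hs.1 hB0 hB (half_pos hη) h2
  exact ⟨s', la_step hW hAG (hls s') (hpt s') hη (hr ⟨s', le_of_lt h4, h3.le⟩) h5, h4,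
    h3.le.trans hb2.le⟩

theorem la_of_am {l : K → T4 n × Y →ₗ[ℝ] ℝ} (hl : ∀ x, Continuous fun w => l w x)
    (h : AM T W {R | ∃ y, ∀ w, 0 ≤ l w (R, y)}) : LA T W l := by
  obtain ⟨M, hM0, hM⟩ := exists_bound hl
  intro ρ hρ
  obtain ⟨C, hC⟩ := h (ρ / (M * (n : ℝ) ^ 2 + 1)) (by positivity)
  refine ⟨M * |C|, fun t ht R hR => ?_⟩
  obtain ⟨y, hy⟩ := hC t ht R hR
  refine ⟨y, fun w => ?_⟩
  set a := ρ / (M * (n : ℝ) ^ 2 + 1) * scal4 R + C with ha
  have e : ((R + a • Id4 n, y) : T4 n × Y) = (R, y) + (a • Id4 n, 0) := by simp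
  have h1 := hy w
  rw [e, map_add] at h1
  have h2 := (abs_le.1 (hM w (a • Id4 n, 0))).2
  rw [norm_inl] at h2
  have h3 := mul_le_mul_of_nonneg_left ((norm_smul_Id4 (n := n) a).trans (abs_add_le _ _)) hM0
  have h4 : M * |ρ / (M * (n : ℝ) ^ 2 + 1) * scal4 R| ≤ ρ * ‖R‖ := by
    rw [abs_mul, abs_of_pos (by positivity), div_mul_eq_mul_div, ← mul_div_assoc,
      div_le_iff₀ (by positivity)]
    have b2 := mul_le_mul_of_nonneg_left (abs_scal_le R) (mul_nonneg hM0 hρ.le)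
    have b3 : 0 ≤ ρ * ‖R‖ := by positivity
    nlinarith
  linarith

omit [FiniteDimensional ℝ Y] in
theorem am_of_la {l : K → T4 n × Y →ₗ[ℝ] ℝ} (hl : ∀ x, Continuous fun w => l w x) {y₀ : Y}
    (hI : ∀ w, 0 < l w (Id4 n, y₀)) {A : ℝ} (hA0 : 0 < A) {h₀ : ℝ}
    (hA : ∀ t ∈ Ico 0 T, ∀ R ∈ W t, ‖R‖ ≤ A * scal4 R + h₀) (h : LA T W l) :
    AM T W {R | ∃ y, ∀ w, 0 ≤ l w (R, y)} := by
  obtain ⟨m, hm, hm'⟩ := exists_gap (hl (Id4 n, y₀)) isClosed_univ fun w _ => hI w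
  intro ε hε
  obtain ⟨h₁, h1⟩ := h (ε * m / A) (by positivity)
  refine ⟨ε * h₀ / A + |h₁| / m, fun t ht R hR => ?_⟩
  obtain ⟨y, hy⟩ := h1 t ht R hR
  set a := ε * scal4 R + (ε * h₀ / A + |h₁| / m) with ha
  refine ⟨y + a • y₀, fun w => ?_⟩
  have e : ((R + a • Id4 n, y + a • y₀) : T4 n × Y) = (R, y) + a • (Id4 n, y₀) := by simp
  have h2 : ε * m / A * ‖R‖ + |h₁| ≤ a * m := by
    have b1 := mul_le_mul_of_nonneg_left (hA t ht R hR) (show 0 ≤ ε * m / A by positivity)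
    have b2 : a * m = ε * m / A * (A * scal4 R + h₀) + |h₁| := by rw [ha]; field_simp; ring
    linarith
  have h3 : 0 ≤ a := by
    have b1 : 0 ≤ ε * m / A * ‖R‖ + |h₁| := by positivity
    exact nonneg_of_mul_nonneg_left (b1.trans h2) hm
  have h4 := mul_le_mul_of_nonneg_left (hm' w (mem_univ _)) h3
  have h5 := hy w
  have h6 := le_abs_self h₁
  rw [e, map_add, map_smul, smul_eq_mul]
  linarith

omit [TopologicalSpace K] [CompactSpace K] in
theorem norm_le_scal (hsc : ∀ t ∈ Ico 0 T, ∀ R ∈ W t, 0 ≤ scal4 R) {G : Set (T4 n)}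
    (hG : GoodCone G) (hAG : AM T W G) {l : K → T4 n × Y →ₗ[ℝ] ℝ} {y₀ : Y}
    (hI : ∀ w, 0 < l w (Id4 n, y₀))
    (hpt : ∀ R ∈ G, ∀ y, (∀ w, 0 ≤ l w (R, y)) → scal4 R ≤ 0 → R = 0 ∧ y = 0)
    (h : AM T W {R | ∃ y, ∀ w, 0 ≤ l w (R, y)}) :
    ∃ A > 0, ∃ h₀ : ℝ, ∀ t ∈ Ico 0 T, ∀ R ∈ W t, ‖R‖ ≤ A * scal4 R + h₀ := by
  have hZ : IsCompact (Metric.sphere (0 : T4 n × Y) 1 ∩
      (Prod.fst ⁻¹' G ∩ {x | ∀ w, 0 ≤ l w x})) :=
    (isCompact_sphere _ _).inter_right ((hG.closed.preimage continuous_fst).inter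
      (isClosed_forall_le (fun w => (l w).continuous_of_finiteDimensional) _))
  obtain ⟨κ, hκ, hκ'⟩ := hZ.exists_forall_le' (f := fun x : T4 n × Y => scal4 x.1)
    (a := (0 : ℝ)) (continuous_scal4.fst' (Y := Y)).continuousOn (by
      rintro ⟨R, y⟩ ⟨h1, h2, h3⟩
      by_contra h4
      obtain ⟨rfl, rfl⟩ := hpt R h2 y h3 (not_lt.1 h4)
      simp at h1)
  have key : ∀ R ∈ G, ∀ y, (∀ w, 0 ≤ l w (R, y)) → κ * ‖R‖ ≤ scal4 R := by
    intro R hR y hy
    by_cases h0 : ((R, y) : T4 n × Y) = 0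
    · obtain rfl : R = 0 := congrArg Prod.fst h0
      simp [scal4]
    have hp : 0 < ‖((R, y) : T4 n × Y)‖ := norm_pos_iff.2 h0
    have hq := inv_pos.2 hp
    have h1 := hκ' (‖((R, y) : T4 n × Y)‖⁻¹ • (R, y)) ⟨by simpa using unit_scale h0,
      hG.smul R hR _ hq.le, fun w => by
        rw [map_smul]; exact mul_nonneg hq.le (hy w)⟩
    change κ ≤ scal4 (‖((R, y) : T4 n × Y)‖⁻¹ • R) at h1
    rw [scal4_smul, le_inv_mul_iff₀ hp] at h1
    have h2 := mul_le_mul_of_nonneg_left (norm_fst_le ((R, y) : T4 n × Y)) hκ.le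
    linarith
  obtain ⟨C₁, hC₁⟩ := hAG 1 one_pos
  obtain ⟨C₂, hC₂⟩ := h 1 one_pos
  refine ⟨(1 + (n : ℝ) ^ 2) / κ + 1, by positivity,
    ((n : ℝ) ^ 2 / κ + 1) * (|C₁| + |C₂|), fun t ht R hR => ?_⟩
  obtain ⟨y, hy⟩ := hC₂ t ht R hR
  have s0 := hsc t ht R hR
  have a1 := le_abs_self C₁
  have a2 := le_abs_self C₂
  have a3 := abs_nonneg C₁
  have a4 := abs_nonneg C₂
  set a := scal4 R + (|C₁| + |C₂|) with ha
  have ha0 : 0 ≤ a := by linarith
  have h1 : R + a • Id4 n ∈ G := by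
    have := hG.addId _ (hC₁ t ht R hR) (|C₁| + |C₂| - C₁) (by linarith)
    rw [add_assoc, ← add_smul] at this
    convert this using 3
    rw [ha]; ring
  have h2 := key _ h1 (y + (|C₁| + |C₂| - C₂) • y₀) fun w => by
    have e : ((R + a • Id4 n, y + (|C₁| + |C₂| - C₂) • y₀) : T4 n × Y) =
        (R + (1 * scal4 R + C₂) • Id4 n, y) + (|C₁| + |C₂| - C₂) • (Id4 n, y₀) := by
      rw [Prod.smul_mk, Prod.mk_add_mk, add_assoc, ← add_smul]
      congr 3
      rw [ha]; ring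
    rw [e, map_add, map_smul]
    exact add_nonneg (hy w) (mul_nonneg (by linarith) (hI w).le)
  have h3 : ‖R‖ ≤ ‖R + a • Id4 n‖ + a := by
    have b1 := norm_sub_le (R + a • Id4 n) (a • Id4 n)
    have b2 := norm_smul_Id4 (n := n) a
    rw [add_sub_cancel_right] at b1
    rw [abs_of_nonneg ha0] at b2
    linarith
  have h4 : scal4 (R + a • Id4 n) ≤ scal4 R + (n : ℝ) ^ 2 * a := by
    have b1 := (abs_le.1 (abs_scal_le (a • Id4 n))).2
    have b2 := norm_smul_Id4 (n := n) a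
    rw [abs_of_nonneg ha0] at b2
    have b3 := mul_le_mul_of_nonneg_left b2 (sq_nonneg (n : ℝ))
    rw [scal4_add]
    linarith
  have h5 : ‖R + a • Id4 n‖ ≤ (scal4 R + (n : ℝ) ^ 2 * a) / κ := by
    rw [le_div_iff₀ hκ]; linarith
  have h6 : (scal4 R + (n : ℝ) ^ 2 * a) / κ + a = ((1 + (n : ℝ) ^ 2) / κ + 1) * scal4 R +
      ((n : ℝ) ^ 2 / κ + 1) * (|C₁| + |C₂|) := by rw [ha]; field_simp; ring
  linarith

end

end T

open T

theorem barrier (hW : CurvFlow n T W) {A Y : Type} [TopologicalSpace A] [NormedAddCommGroup Y]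
    [NormedSpace ℝ Y] [FiniteDimensional ℝ Y] {Ω : Set A} (hΩ : IsCompact Ω)
    (f : A → T4 n × Y → ℝ) (hl : ∀ w, IsLinearMap ℝ (f w))
    (hf : ∀ x, ContinuousOn (fun w => f w x) Ω) (c : A → ℝ) (hc : ContinuousOn c Ω)
    (h0 : ∀ R ∈ W 0, ∃ y, ∀ w ∈ Ω, c w < f w (R, y))
    (hpt : ∀ y, (∀ w ∈ Ω, 0 ≤ f w (0, y)) → y = 0)
    (htr : ∀ t ∈ Ioo 0 T, ∀ R ∈ W t, ∀ y, (∀ w ∈ Ω, c w ≤ f w (R, y)) →
      ∃ y', ∀ w ∈ Ω, f w (R, y) = c w → 0 < f w (Qq4 R, y')) :
    ∀ t ∈ Ico 0 T, ∀ R ∈ W t, ∃ y, ∀ w ∈ Ω, c w < f w (R, y) := by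
  have : CompactSpace Ω := isCompact_iff_compactSpace.1 hΩ
  have h := barrier_core hW (K := Ω) (l := fun w => IsLinearMap.mk' (f w.1) (hl w.1))
    (fun x => (hf x).domRestrict) (c := fun w => c w.1) hc.domRestrict
    (fun R hR => (h0 R hR).imp fun y hy w => hy w.1 w.2)
    (fun y hy => hpt y fun w hw => hy ⟨w, hw⟩)
    fun t ht R hR y hy => Or.inr
      ((htr t ht R hR y fun w hw => hy ⟨w, hw⟩).imp fun y' hy' w => hy' w.1 w.2)
  exact fun t ht R hR => (h t ht R hR).imp fun y hy w hw => hy ⟨w, hw⟩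

theorem step (hW : CurvFlow n T W) (hsc : ∀ t ∈ Ico 0 T, ∀ R ∈ W t, 0 ≤ scal4 R)
    {G : Set (T4 n)} (hG : GoodCone G) (hAG : AM T W G) {A Y : Type} [TopologicalSpace A]
    [NormedAddCommGroup Y] [NormedSpace ℝ Y] [FiniteDimensional ℝ Y] {Ω : Set A}
    (hΩ : IsCompact Ω) {s₀ s₁ : ℝ} (hs : s₀ ≤ s₁) (f : ℝ → A → T4 n × Y → ℝ)
    (hl : ∀ s w, IsLinearMap ℝ (f s w))
    (hf : ∀ x, ContinuousOn (fun p : ℝ × A => f p.1 p.2 x) (Icc s₀ s₁ ×ˢ Ω))
    (v : ℝ → T4 n × Y → Y) (hv : ContinuousOn (fun p : ℝ × (T4 n × Y) => v p.1 p.2)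
      (Icc s₀ s₁ ×ˢ univ))
    (hv2 : ∀ s x, ∀ r : ℝ, 0 < r → v s (r • x) = r ^ 2 • v s x) (y₀ : Y)
    (hI : ∀ s ∈ Icc s₀ s₁, ∀ w ∈ Ω, 0 < f s w (Id4 n, y₀))
    (hpt : ∀ s ∈ Icc s₀ s₁, ∀ R ∈ G, ∀ y, (∀ w ∈ Ω, 0 ≤ f s w (R, y)) → scal4 R ≤ 0 →
      R = 0 ∧ y = 0)
    (htr : ∀ s ∈ Icc s₀ s₁, ∀ R ∈ G, ∀ y, (∀ w ∈ Ω, 0 ≤ f s w (R, y)) → R ≠ 0 →
      ∀ w ∈ Ω, f s w (R, y) = 0 → 0 < f s w (Qq4 R, v s (R, y)))
    (h0 : AM T W (Cone Ω (f s₀))) : AM T W (Cone Ω (f s₁)) := by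
  have : CompactSpace Ω := isCompact_iff_compactSpace.1 hΩ
  set l : ℝ → Ω → T4 n × Y →ₗ[ℝ] ℝ :=
    fun s w => IsLinearMap.mk' (f (projIcc s₀ s₁ hs s) w.1) (hl _ w.1) with hldef
  have hp : Continuous fun s : ℝ => (projIcc s₀ s₁ hs s : ℝ) :=
    continuous_subtype_val.comp continuous_projIcc
  have hlc : ∀ x, Continuous fun p : ℝ × Ω => l p.1 p.2 x := fun x =>
    (hf x).comp_continuous (f := fun p : ℝ × Ω => ((projIcc s₀ s₁ hs p.1 : ℝ), p.2.1))
      ((hp.comp continuous_fst).prodMk (by fun_prop)) fun p => ⟨(projIcc s₀ s₁ hs p.1).2, p.2.2⟩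
  have hls : ∀ s x, Continuous fun w => l s w x :=
    fun s x => (hlc x).comp (f := fun w : Ω => (s, w)) (by fun_prop)
  have e : ∀ s ∈ Icc s₀ s₁, Cone Ω (f s) = {R | ∃ y, ∀ w, 0 ≤ l s w (R, y)} := by
    intro s h
    ext R
    simp only [Cone, hldef, projIcc_of_mem hs h, IsLinearMap.mk'_apply, mem_ofPred_eq,
      Subtype.forall]
  have hI' : ∀ s w, 0 < l s w (Id4 n, y₀) := fun s w => hI _ (projIcc s₀ s₁ hs s).2 w.1 w.2
  have hpt' : ∀ s, ∀ R ∈ G, ∀ y, (∀ w, 0 ≤ l s w (R, y)) → scal4 R ≤ 0 → R = 0 ∧ y = 0 :=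
    fun s R hR y hy => hpt _ (projIcc s₀ s₁ hs s).2 R hR y fun w hw => hy ⟨w, hw⟩
  rw [e _ (left_mem_Icc.2 hs)] at h0
  rw [e _ (right_mem_Icc.2 hs)]
  obtain ⟨A, hA0, h₀, hA⟩ := norm_le_scal hsc hG hAG (hI' s₀) (hpt' s₀) h0
  refine am_of_la (hls s₁) (hI' s₁) hA0 hA (la_family hW hG hAG hlc
    (v := fun s => v (projIcc s₀ s₁ hs s))
    (hv.comp_continuous (f := fun p : ℝ × (T4 n × Y) => ((projIcc s₀ s₁ hs p.1 : ℝ), p.2))
      ((hp.comp continuous_fst).prodMk continuous_snd)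
      fun p => ⟨(projIcc s₀ s₁ hs p.1).2, mem_univ _⟩)
    (fun s => hv2 _) (fun s y hy => (hpt' s 0 hG.zero y hy (by simp [scal4])).2) hs
    (fun s _ R hR y hy hne w hw => htr _ (projIcc s₀ s₁ hs s).2 R hR y
      (fun w hw => hy ⟨w, hw⟩) hne w.1 w.2 hw) (la_of_am (hls s₀) h0))

theorem AM.mono {G G' : Set (T4 n)} (h : AM T W G) (hGG : G ⊆ G') : AM T W G' := by
  exact fun ε hε => (h ε hε).imp fun C hC t ht R hR => hGG (hC t ht R hR)

theorem AM.inter {G G' : Set (T4 n)} (h : AM T W G) (h' : AM T W G')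
    (hG : ∀ R ∈ G, ∀ r : ℝ, 0 ≤ r → R + r • Id4 n ∈ G)
    (hG' : ∀ R ∈ G', ∀ r : ℝ, 0 ≤ r → R + r • Id4 n ∈ G') : AM T W (G ∩ G') := by
  intro ε hε
  obtain ⟨C, hC⟩ := h ε hε
  obtain ⟨C', hC'⟩ := h' ε hε
  refine ⟨max C C', fun t ht R hR => ⟨?_, ?_⟩⟩
  · have := hG _ (hC t ht R hR) (max C C' - C) (sub_nonneg.2 (le_max_left _ _))
    rw [add_assoc, ← add_smul] at this
    convert this using 3
    ring
  · have := hG' _ (hC' t ht R hR) (max C C' - C') (sub_nonneg.2 (le_max_right _ _))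
    rw [add_assoc, ← add_smul] at this
    convert this using 3
    ring

theorem scal4_Id4 : scal4 (Id4 n) = n * (n - 1) := by
  have h : ∀ i j : Fin n, Id4 n i j i j = 1 - if i = j then 1 else 0 := by
    intro i j
    by_cases hij : i = j
    · simp [Id4, hij]
    · simp [Id4, hij]
  simp only [scal4, h, Finset.sum_sub_distrib]
  simp
  ring

theorem AM.of_approx (hsc : ∀ t ∈ Ico 0 T, ∀ R ∈ W t, 0 ≤ scal4 R) {G : Set (T4 n)}
    (hG : ∀ R ∈ G, ∀ r : ℝ, 0 ≤ r → R + r • Id4 n ∈ G)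
    (h : ∀ η > 0, ∃ G', AM T W G' ∧ ∀ R ∈ G', R + (η * scal4 R) • Id4 n ∈ G) : AM T W G := by
  intro ε hε
  have hN : (0 : ℝ) ≤ n * (n - 1) := by
    rcases Nat.eq_zero_or_pos n with h0 | h0
    · simp [h0]
    · have : (1 : ℝ) ≤ n := by exact_mod_cast h0
      nlinarith
  set N : ℝ := n * (n - 1) with hNdef
  obtain ⟨G', hA, hG'⟩ := h (ε / (2 * (1 + ε / 2 * N))) (by positivity)
  obtain ⟨C, hC⟩ := hA (ε / 2) (half_pos hε)
  refine ⟨C + ε / (2 * (1 + ε / 2 * N)) * (C * N), fun t ht R hR => ?_⟩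
  have h1 := hG' _ (hC t ht R hR)
  rw [add_assoc, ← add_smul, scal4_add, scal4_smul, scal4_Id4, ← hNdef] at h1
  convert h1 using 3
  field_simp
  ring

theorem AM.of_shift (hsc : ∀ t ∈ Ico 0 T, ∀ R ∈ W t, 0 ≤ scal4 R) {G : Set (T4 n)}
    (hG : ∀ R ∈ G, ∀ r : ℝ, 0 ≤ r → R + r • Id4 n ∈ G) {C : ℝ}
    (h : ∀ t ∈ Ico 0 T, ∀ R ∈ W t, R + C • Id4 n ∈ G) : AM T W G := by
  intro ε hε
  refine ⟨C, fun t ht R hR => ?_⟩
  have := hG _ (h t ht R hR) (ε * scal4 R) (mul_nonneg hε.le (hsc t ht R hR))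
  rwa [add_assoc, ← add_smul, add_comm C] at this

end

end Pool.Agent.Work.MP_3a9764_gt
end

-- merged part: Pool.Agent.Work.MP_3a9764_gt.TScal
section
/-! The scalar curvature along the flow. -/

set_option autoImplicit false

open Filter Set
open scoped Topology

namespace Pool.Agent.Work.MP_3a9764_gt

noncomputable section

variable {n : ℕ} {T : ℝ} {W : ℝ → Set (T4 n)}

open T

/-- The scalar curvature as a linear functional. -/
def scalL (n : ℕ) : T4 n →ₗ[ℝ] ℝ where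
  toFun := scal4
  map_add' := scal4_add
  map_smul' := scal4_smul

theorem IsCurv.skew' {R : T4 n} (hR : IsCurv R) (i j k l : Fin n) : R i j l k = -R i j k l := by
  rw [← hR.pair i j l k, hR.skew k l i j, hR.pair i j k l]

theorem scal4_Qq4 {R : T4 n} (hR : IsCurv R) :
    scal4 (Qq4 R) = ∑ p, ∑ q, (∑ i, R i p i q) ^ 2 := by
  have e1 : ∀ i j p q, R i j p q = R i p j q - R j p i q := by
    intro i j p q
    have h1 := hR.bianchi i j p q
    have h2 := hR.skew i p j q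
    linarith
  have e2 : ∑ i, ∑ j, ∑ p, ∑ q, R i p j q * R i p j q =
      ∑ i, ∑ j, ∑ p, ∑ q, R i j p q * R i j p q :=
    Finset.sum_congr rfl fun i _ => Finset.sum_comm
  have e3 : ∑ i, ∑ j, ∑ p, ∑ q, R j p i q * R j p i q =
      ∑ i, ∑ j, ∑ p, ∑ q, R i j p q * R i j p q := by
    rw [Finset.sum_comm, e2]
  have e4 : ∑ i, ∑ j, ∑ p, ∑ q, R i j p q * R i j p q =
      ∑ i, ∑ j, ∑ p, ∑ q, R i p j q * R i p j q + ∑ i, ∑ j, ∑ p, ∑ q, R j p i q * R j p i q -
        2 * ∑ i, ∑ j, ∑ p, ∑ q, R i p j q * R j p i q := by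
    simp only [Finset.mul_sum, ← Finset.sum_add_distrib, ← Finset.sum_sub_distrib]
    refine Finset.sum_congr rfl fun i _ => Finset.sum_congr rfl fun j _ =>
      Finset.sum_congr rfl fun p _ => Finset.sum_congr rfl fun q _ => ?_
    rw [e1 i j p q]; ring
  have e5 : ∑ p, ∑ q, (∑ i, R i p i q) ^ 2 = ∑ i, ∑ j, ∑ p, ∑ q, R i p i q * R j p j q := by
    simp only [pow_two, Finset.sum_mul_sum]
    have h : ∀ X : Fin n → Fin n → Fin n → Fin n → ℝ,
        ∑ a, ∑ b, ∑ c, ∑ d, X a b c d = ∑ b, ∑ c, ∑ d, ∑ a, X a b c d := by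
      intro X
      rw [Finset.sum_comm]
      refine Finset.sum_congr rfl fun b _ => ?_
      rw [Finset.sum_comm]
      exact Finset.sum_congr rfl fun c _ => Finset.sum_comm
    rw [h, h]
  rw [e5]
  simp only [scal4, Qq4, Finset.sum_sub_distrib, Finset.sum_add_distrib, ← Finset.mul_sum]
  rw [e2, e3] at e4
  linarith

theorem scal4_Qq4_pos {R : T4 n} (hR : IsCurv R) (h : scal4 R ≠ 0) : 0 < scal4 (Qq4 R) := by
  rw [scal4_Qq4 hR]
  by_contra h1
  have h2 := le_antisymm (not_lt.1 h1)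
    (Finset.sum_nonneg fun p _ => Finset.sum_nonneg fun q _ => sq_nonneg _)
  rw [Finset.sum_eq_zero_iff_of_nonneg fun p _ => Finset.sum_nonneg fun q _ => sq_nonneg _] at h2
  apply h
  rw [scal4, Finset.sum_comm]
  refine Finset.sum_eq_zero fun p _ => ?_
  have h3 := (Finset.sum_eq_zero_iff_of_nonneg fun q _ => sq_nonneg _).1 (h2 p (Finset.mem_univ _))
    p (Finset.mem_univ _)
  exact pow_eq_zero_iff two_ne_zero |>.1 h3

/-- A positive lower bound for the scalar curvature is preserved. -/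
theorem CurvFlow.scal_lower (hW : CurvFlow n T W) (h0 : ∀ R ∈ W 0, 0 < scal4 R) :
    ∃ δ > 0, ∀ t ∈ Ico 0 T, ∀ R ∈ W t, δ < scal4 R := by
  by_cases hT : 0 < T
  swap
  · exact ⟨1, one_pos, fun t ht => absurd (ht.1.trans_lt ht.2) hT⟩
  obtain ⟨δ, hδ, h1⟩ := (hW.bound_zero hT).exists_forall_le' (f := scal4) (a := 0)
    continuous_scal4.continuousOn h0
  refine ⟨δ / 2, half_pos hδ, fun t ht R hR => ?_⟩
  refine first_touch hW (K := Unit) (l := fun _ => scalL n) (fun _ => continuous_const) (δ / 2)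
    (fun R hR _ => (half_lt_self hδ).trans_le (h1 R hR)) (fun t ht R hR _ _ h => ?_) t ht R hR ()
  refine scal4_Qq4_pos (hW.curv t (Ioo_subset_Ico_self ht) R hR) ?_
  change scal4 R = δ / 2 at h
  rw [h]
  exact (half_pos hδ).ne'

theorem CurvFlow.scal_pos (hW : CurvFlow n T W) (h0 : ∀ R ∈ W 0, 0 < scal4 R) :
    ∀ t ∈ Ico 0 T, ∀ R ∈ W t, 0 < scal4 R := by
  obtain ⟨δ, hδ, h⟩ := hW.scal_lower h0
  exact fun t ht R hR => hδ.trans (h t ht R hR)

theorem ev4_single (R : T4 n) (i j k l : Fin n) (a b c d : ℝ) :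
    ev4 R (Pi.single i a) (Pi.single j b) (Pi.single k c) (Pi.single l d) =
      R i j k l * a * b * c * d := by
  simp [ev4, Pi.single_apply]

theorem pic_coord {R : T4 n} (h : ∀ e, ON4 e → 0 < iso4 R e) {f : Fin 4 → Fin n}
    (hf : Function.Injective f) :
    0 < R (f 0) (f 2) (f 0) (f 2) + R (f 0) (f 3) (f 0) (f 3) + R (f 1) (f 2) (f 1) (f 2) +
      R (f 1) (f 3) (f 1) (f 3) := by
  have key : ∀ s : Fin 4 → ℝ, (∀ a, s a * s a = 1) → ON4 fun a => Pi.single (f a) (s a) := by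
    intro s hs a b
    by_cases hab : a = b
    · subst hab
      simp [Pi.single_apply, hs]
    · simp [Pi.single_apply, hab, hf.ne (Ne.symm hab)]
  have h1 := h _ (key ![1, 1, 1, 1] fun a => by fin_cases a <;> simp)
  have h2 := h _ (key ![1, 1, 1, -1] fun a => by fin_cases a <;> simp)
  simp only [iso4, ev4_single] at h1 h2
  simp at h1 h2
  linarith

/-- Positive isotropic curvature implies positive scalar curvature. -/
theorem scal_pos_of_pic (hn : 4 ≤ n) {R : T4 n} (hR : IsCurv R)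
    (h : ∀ e, ON4 e → 0 < iso4 R e) : 0 < scal4 R := by
  set S : Fin n → Fin n → ℝ := fun a b => ∑ σ : Equiv.Perm (Fin n), R (σ a) (σ b) (σ a) (σ b)
    with hS
  have hc : ∀ a b c d, a ≠ b → c ≠ d → S a b = S c d := by
    intro a b c d hab hcd
    obtain ⟨τ, h1, h2⟩ : ∃ τ : Equiv.Perm (Fin n), τ a = c ∧ τ b = d := by
      refine ⟨Equiv.swap (Equiv.swap a c b) d * Equiv.swap a c, ?_, by simp⟩
      rw [Equiv.Perm.mul_apply, Equiv.swap_apply_left, Equiv.swap_apply_of_ne_of_ne _ hcd]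
      intro e
      apply hab
      apply (Equiv.swap a c).injective
      rw [Equiv.swap_apply_left, ← e]
    simp only [hS]
    rw [← Equiv.sum_comp (Equiv.mulRight τ)]
    simp [h1, h2]
  set f : Fin 4 → Fin n := Fin.castLE hn with hf
  have hfi : Function.Injective f := Fin.castLE_injective hn
  have h01 : f 0 ≠ f 2 := hfi.ne (by decide)
  have hpos : 0 < S (f 0) (f 2) := by
    have h1 : 0 < ∑ σ : Equiv.Perm (Fin n), (R (σ (f 0)) (σ (f 2)) (σ (f 0)) (σ (f 2)) +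
        R (σ (f 0)) (σ (f 3)) (σ (f 0)) (σ (f 3)) + R (σ (f 1)) (σ (f 2)) (σ (f 1)) (σ (f 2)) +
        R (σ (f 1)) (σ (f 3)) (σ (f 1)) (σ (f 3))) :=
      Finset.sum_pos (fun σ _ => pic_coord h (f := σ ∘ f) (σ.injective.comp hfi))
        Finset.univ_nonempty
    simp only [Finset.sum_add_distrib] at h1
    have h2 := hc _ _ (f 0) (f 3) h01 (hfi.ne (by decide))
    have h3 := hc _ _ (f 1) (f 2) h01 (hfi.ne (by decide))
    have h4 := hc _ _ (f 1) (f 3) h01 (hfi.ne (by decide))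
    simp only [hS] at h2 h3 h4 ⊢
    linarith
  have hsum : ∑ a, ∑ b, S a b = ∑ _σ : Equiv.Perm (Fin n), scal4 R := by
    simp only [hS]
    rw [Finset.sum_congr rfl fun a _ => Finset.sum_comm, Finset.sum_comm]
    refine Finset.sum_congr rfl fun σ _ => ?_
    rw [scal4, ← Equiv.sum_comp σ fun a => ∑ b, R a b a b]
    exact Finset.sum_congr rfl fun a _ => Equiv.sum_comp σ fun b => R (σ a) b (σ a) b
  have hnn : ∀ a b, 0 ≤ S a b := by
    intro a b
    by_cases hab : a = b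
    · subst hab
      refine Finset.sum_nonneg fun σ _ => ?_
      have := hR.skew (σ a) (σ a) (σ a) (σ a)
      linarith
    · rw [hc a b _ _ hab h01]; exact hpos.le
  have h1 : 0 < ∑ a, ∑ b, S a b :=
    Finset.sum_pos' (fun a _ => Finset.sum_nonneg fun b _ => hnn a b) ⟨f 0, Finset.mem_univ _,
      Finset.sum_pos' (fun b _ => hnn _ b) ⟨f 2, Finset.mem_univ _, hpos⟩⟩
  rw [hsum, Finset.sum_const, nsmul_eq_mul] at h1
  exact pos_of_mul_pos_right h1 (Nat.cast_nonneg _)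

theorem pinched_iff_am : Pinched T W ↔ AM T W {R | OpNonneg R} := Iff.rfl

end

end Pool.Agent.Work.MP_3a9764_gt
end
end

-- merged part: Pool.Agent.Work.MP_3a9764_gt.TWilk
section
/-! The variational lemma for orbits of the complex orthogonal group. -/

set_option autoImplicit false

open Filter Matrix
open scoped Topology ComplexConjugate ComplexOrder

namespace Pool.Agent.Work.MP_3a9764_gt

noncomputable section

variable {n : ℕ}

/-- Symmetric operators on bivectors. -/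
structure IsOp (R : T4 n) : Prop where
  skew : ∀ i j k l, R j i k l = -R i j k l
  pair : ∀ i j k l, R k l i j = R i j k l

theorem IsCurv.isOp {R : T4 n} (hR : IsCurv R) : IsOp R := ⟨hR.skew, hR.pair⟩

theorem IsOp.skew' {R : T4 n} (hR : IsOp R) (i j k l : Fin n) : R i j l k = -R i j k l := by
  rw [← hR.pair i j l k, hR.skew k l i j, hR.pair i j k l]

theorem IsOp.add {R S : T4 n} (hR : IsOp R) (hS : IsOp S) : IsOp (R + S) :=
  ⟨fun i j k l => by simp only [Pi.add_apply, hR.skew i j k l, hS.skew i j k l]; ring,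
    fun i j k l => by simp only [Pi.add_apply, hR.pair i j k l, hS.pair i j k l]⟩

theorem IsOp.sub {R S : T4 n} (hR : IsOp R) (hS : IsOp S) : IsOp (R - S) :=
  ⟨fun i j k l => by simp only [Pi.sub_apply, hR.skew i j k l, hS.skew i j k l]; ring,
    fun i j k l => by simp only [Pi.sub_apply, hR.pair i j k l, hS.pair i j k l]⟩

theorem IsOp.smul {R : T4 n} (hR : IsOp R) (c : ℝ) : IsOp (c • R) :=
  ⟨fun i j k l => by simp only [Pi.smul_apply, smul_eq_mul, hR.skew i j k l]; ring,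
    fun i j k l => by simp only [Pi.smul_apply, hR.pair i j k l]⟩

/-- Complex matrices. -/
abbrev CMat (n : ℕ) : Type := Matrix (Fin n) (Fin n) ℂ

/-- A four-tensor acting on complex matrices. -/
def cop (R : T4 n) (v : CMat n) : CMat n := fun i j => ∑ k, ∑ l, (R i j k l : ℂ) * v k l

/-- A four-tensor as a sesquilinear form on complex matrices. -/
def cq (R : T4 n) (v w : CMat n) : ℂ :=
  ∑ i, ∑ j, ∑ k, ∑ l, (R i j k l : ℂ) * v i j * conj (w k l)

/-- The squared norm of a complex matrix. -/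
def nsq (v : CMat n) : ℝ := ∑ i, ∑ j, Complex.normSq (v i j)

theorem cq_add_left (R : T4 n) (u v w : CMat n) : cq R (u + v) w = cq R u w + cq R v w := by
  simp only [cq, Matrix.add_apply, mul_add, add_mul, Finset.sum_add_distrib]

theorem cq_add_right (R : T4 n) (u v w : CMat n) : cq R u (v + w) = cq R u v + cq R u w := by
  simp only [cq, Matrix.add_apply, map_add, mul_add, Finset.sum_add_distrib]

theorem cq_smul_left (R : T4 n) (c : ℂ) (v w : CMat n) : cq R (c • v) w = c * cq R v w := by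
  simp only [cq, Matrix.smul_apply, smul_eq_mul, Finset.mul_sum]
  exact Finset.sum_congr rfl fun _ _ => Finset.sum_congr rfl fun _ _ =>
    Finset.sum_congr rfl fun _ _ => Finset.sum_congr rfl fun _ _ => by ring

theorem cq_smul_right (R : T4 n) (c : ℂ) (v w : CMat n) :
    cq R v (c • w) = conj c * cq R v w := by
  simp only [cq, Matrix.smul_apply, smul_eq_mul, map_mul, Finset.mul_sum]
  exact Finset.sum_congr rfl fun _ _ => Finset.sum_congr rfl fun _ _ =>
    Finset.sum_congr rfl fun _ _ => Finset.sum_congr rfl fun _ _ => by ring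

theorem sum_pair (X : Fin n → Fin n → Fin n → Fin n → ℂ) :
    ∑ a, ∑ b, ∑ c, ∑ d, X a b c d = ∑ c, ∑ d, ∑ a, ∑ b, X a b c d := by
  have h : ∀ Y : Fin n → Fin n → Fin n → Fin n → ℂ,
      ∑ a, ∑ b, ∑ c, ∑ d, Y a b c d = ∑ b, ∑ c, ∑ d, ∑ a, Y a b c d := by
    intro Y
    rw [Finset.sum_comm]
    refine Finset.sum_congr rfl fun b _ => ?_
    rw [Finset.sum_comm]
    exact Finset.sum_congr rfl fun c _ => Finset.sum_comm
  rw [h, h]

theorem cq_symm {R : T4 n} (hR : IsOp R) (v w : CMat n) : cq R w v = conj (cq R v w) := by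
  simp only [cq, map_sum, map_mul, Complex.conj_ofReal, Complex.conj_conj]
  rw [sum_pair]
  exact Finset.sum_congr rfl fun i _ => Finset.sum_congr rfl fun j _ =>
    Finset.sum_congr rfl fun k _ => Finset.sum_congr rfl fun l _ => by rw [hR.pair i j k l]; ring

theorem cq_conj (R : T4 n) (v w : CMat n) :
    cq R (v.map conj) (w.map conj) = conj (cq R v w) := by
  simp only [cq, map_sum, map_mul, Complex.conj_ofReal, Matrix.map_apply]

theorem cq_eq_cop {R : T4 n} (hR : IsOp R) (v w : CMat n) :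
    cq R v w = ∑ k, ∑ l, cop R v k l * conj (w k l) := by
  simp only [cq, cop, Finset.sum_mul]
  rw [sum_pair]
  exact Finset.sum_congr rfl fun i _ => Finset.sum_congr rfl fun j _ =>
    Finset.sum_congr rfl fun k _ => Finset.sum_congr rfl fun l _ => by rw [hR.pair i j k l]

theorem continuous_cq (R : T4 n) : Continuous fun p : CMat n × CMat n => cq R p.1 p.2 := by
  unfold cq
  fun_prop

namespace T

theorem second_aux {c : ℂ} {φ : ℂ → ℂ} {ψ : ℂ → ℝ} (hφ : ContinuousAt φ 0)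
    (hψ : ContinuousAt ψ 0)
    (h : ∀ᶠ t in 𝓝 (0 : ℂ), 0 ≤ 2 * (t * c).re + 2 * (t ^ 2 * φ t).re + Complex.normSq t * ψ t) :
    c = 0 ∧ 0 ≤ ψ 0 := by
  have hray : ∀ ω : ℂ, Tendsto (fun s : ℝ => (s : ℂ) * ω) (𝓝[>] 0) (𝓝 0) := fun ω => by
    have h1 : Continuous fun s : ℝ => (s : ℂ) * ω := by fun_prop
    simpa using (h1.tendsto 0).mono_left nhdsWithin_le_nhds
  have hid : Tendsto (fun s : ℝ => s) (𝓝[>] 0) (𝓝 0) := tendsto_id.mono_left nhdsWithin_le_nhds
  have hq : ∀ ω : ℂ, Tendsto (fun s : ℝ => 2 * (ω ^ 2 * φ (s * ω)).re +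
      Complex.normSq ω * ψ (s * ω)) (𝓝[>] 0)
      (𝓝 (2 * (ω ^ 2 * φ 0).re + Complex.normSq ω * ψ 0)) := fun ω =>
    (((Complex.continuous_re.tendsto _).comp
      ((hφ.tendsto.comp (hray ω)).const_mul _)).const_mul _).add
      ((hψ.tendsto.comp (hray ω)).const_mul _)
  have hev : ∀ ω : ℂ, ∀ᶠ s : ℝ in 𝓝[>] 0, 0 < s ∧ 0 ≤ 2 * (ω * c).re +
      s * (2 * (ω ^ 2 * φ (s * ω)).re + Complex.normSq ω * ψ (s * ω)) := by
    intro ω
    filter_upwards [(hray ω).eventually h, self_mem_nhdsWithin] with s hs hs0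
    refine ⟨hs0, nonneg_of_mul_nonneg_right (a := s) (hs.trans_eq ?_) hs0⟩
    rw [mul_pow, mul_assoc (s : ℂ), mul_assoc ((s : ℂ) ^ 2), ← Complex.ofReal_pow,
      Complex.re_ofReal_mul, Complex.re_ofReal_mul, map_mul, Complex.normSq_ofReal]
    ring
  have h1 : ∀ ω : ℂ, 0 ≤ (ω * c).re := fun ω => by
    have h2 := ge_of_tendsto ((hid.mul (hq ω)).const_add (2 * (ω * c).re))
      ((hev ω).mono fun s hs => hs.2)
    linarith
  have hc : c = 0 := by
    have h2 := h1 (-conj c)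
    rw [neg_mul, mul_comm, Complex.mul_conj, Complex.neg_re, Complex.ofReal_re] at h2
    exact Complex.normSq_eq_zero.1 (le_antisymm (by linarith) (Complex.normSq_nonneg _))
  have h2 : ∀ ω : ℂ, 0 ≤ 2 * (ω ^ 2 * φ 0).re + Complex.normSq ω * ψ 0 := fun ω =>
    ge_of_tendsto (hq ω) ((hev ω).mono fun s hs => by
      have h3 := hs.2
      rw [hc, mul_zero, Complex.zero_re, mul_zero, zero_add] at h3
      exact nonneg_of_mul_nonneg_right h3 hs.1)
  have h3 := h2 1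
  have h4 := h2 Complex.I
  simp only [one_pow, one_mul, map_one, Complex.I_sq, neg_mul, Complex.neg_re,
    Complex.normSq_I] at h3 h4
  exact ⟨hc, by linarith⟩

/-- The Cayley curve through the identity. -/
theorem exists_cayley {x : CMat n} (hx : xᵀ = -x) : ∃ b : ℂ → CMat n, ContinuousAt b 0 ∧
    ∀ᶠ t in 𝓝 (0 : ℂ), (1 + t • ((2 : ℂ) • x) + t ^ 2 • b t)ᵀ *
      (1 + t • ((2 : ℂ) • x) + t ^ 2 • b t) = 1 ∧
      (1 + t • ((2 : ℂ) • x) + t ^ 2 • b t).det = 1 := by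
  have hc : Continuous fun t : ℂ => (1 : CMat n) - t • x := by fun_prop
  have h0 : (1 : CMat n) - (0 : ℂ) • x = 1 := by simp
  refine ⟨fun t => (2 : ℂ) • (x * x * (1 - t • x)⁻¹), ?_, ?_⟩
  · have hN : ContinuousAt (fun t : ℂ => ((1 : CMat n) - t • x)⁻¹) 0 := by
      refine ContinuousAt.comp (f := fun t : ℂ => (1 : CMat n) - t • x) ?_ hc.continuousAt
      rw [h0]
      refine continuousAt_matrix_inv _ ?_
      rw [Matrix.det_one, Ring.inverse_eq_inv']
      exact continuousAt_inv₀ one_ne_zero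
    fun_prop
  · have h1 : ∀ᶠ t in 𝓝 (0 : ℂ), ((1 : CMat n) - t • x).det ≠ 0 :=
      hc.matrix_det.continuousAt.eventually_ne (by rw [h0]; simp)
    filter_upwards [h1] with t ht
    have hu : IsUnit ((1 : CMat n) - t • x).det := isUnit_iff_ne_zero.2 ht
    have hT : ((1 : CMat n) - t • x)ᵀ = 1 + t • x := by
      rw [transpose_sub, transpose_one, transpose_smul, hx, smul_neg, sub_neg_eq_add]
    have hT' : ((1 : CMat n) + t • x)ᵀ = 1 - t • x := by rw [← hT, transpose_transpose]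
    have hg : 1 + t • ((2 : ℂ) • x) + t ^ 2 • ((2 : ℂ) • (x * x * (1 - t • x)⁻¹)) =
        (1 + t • x) * (1 - t • x)⁻¹ := by
      have e : (1 : CMat n) + t • x = (1 + t • ((2 : ℂ) • x)) * (1 - t • x) +
          t ^ 2 • ((2 : ℂ) • (x * x)) := by
        simp only [mul_sub, add_mul, Matrix.mul_smul, Matrix.smul_mul, mul_one, one_mul]
        module
      rw [e, add_mul, Matrix.mul_nonsing_inv_cancel_right _ _ hu, Matrix.smul_mul,
        Matrix.smul_mul]
    rw [hg]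
    constructor
    · have e : ((1 : CMat n) - t • x) * (1 + t • x) = (1 + t • x) * (1 - t • x) := by
        simp only [mul_sub, sub_mul, add_mul, mul_add, Matrix.mul_smul, Matrix.smul_mul, mul_one,
          one_mul]
        module
      rw [transpose_mul, hT', transpose_nonsing_inv, hT, Matrix.mul_assoc,
        ← Matrix.mul_assoc (1 - t • x), e, Matrix.mul_assoc, Matrix.mul_nonsing_inv _ hu,
        Matrix.mul_one, Matrix.nonsing_inv_mul _ (by rwa [← hT, det_transpose])]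
    · rw [det_mul, ← hT, det_transpose, ← det_mul, Matrix.mul_nonsing_inv _ hu, det_one]

theorem trace_nonneg_gen {ι : Type} [Fintype ι] [DecidableEq ι] {S S' A : Matrix ι ι ℂ}
    (hS : S.IsHermitian) (h1 : (Aᴴ * S * A).PosSemidef) (h2 : (A * S' * Aᴴ).PosSemidef) :
    0 ≤ (S' * (Aᴴ * S * A)).trace := by
  obtain ⟨U, d, hd, hU, hU', hH⟩ : ∃ (U : Matrix ι ι ℂ) (d : ι → ℝ), (∀ k, 0 ≤ d k) ∧
      Uᴴ * U = 1 ∧ U * Uᴴ = 1 ∧ Aᴴ * S * A = U * diagonal (fun k => (d k : ℂ)) * Uᴴ :=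
    ⟨h1.1.eigenvectorUnitary, h1.1.eigenvalues, h1.eigenvalues_nonneg,
      Unitary.coe_star_mul_self _, Unitary.coe_mul_star_self _, h1.1.spectral_theorem⟩
  have h3 := (h2.conjTranspose_mul_mul_same (S * A)).conjTranspose_mul_mul_same U
  have e : Uᴴ * ((S * A)ᴴ * (A * S' * Aᴴ) * (S * A)) * U =
      diagonal (fun k => (d k : ℂ)) * (Uᴴ * S' * U) * diagonal fun k => (d k : ℂ) := by
    have e1 : (S * A)ᴴ * (A * S' * Aᴴ) * (S * A) = (Aᴴ * S * A) * S' * (Aᴴ * S * A) := by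
      rw [conjTranspose_mul, hS.eq]; simp only [Matrix.mul_assoc]
    rw [e1, hH]
    simp only [← Matrix.mul_assoc, hU, Matrix.one_mul]
    rw [Matrix.mul_assoc _ Uᴴ U, hU, Matrix.mul_one]
  rw [e] at h3
  rw [hH, ← Matrix.mul_assoc, trace_mul_comm, ← Matrix.mul_assoc, ← Matrix.mul_assoc]
  refine Finset.sum_nonneg fun k _ => ?_
  have h4 := h3.diag_nonneg (i := k)
  rw [mul_diagonal, diagonal_mul] at h4
  rw [diag_apply, mul_diagonal]
  rcases (hd k).eq_or_lt with h | h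
  · rw [← h]; simp
  · have h5 : (0 : ℂ) ≤ (((d k)⁻¹ : ℝ) : ℂ) := by exact_mod_cast (inv_pos.2 h).le
    have h6 := mul_nonneg h5 h4
    rwa [mul_assoc, ← mul_assoc, ← Complex.ofReal_mul, inv_mul_cancel₀ h.ne', Complex.ofReal_one,
      one_mul] at h6

theorem trace_nonneg_aux {ι : Type} [Fintype ι] [DecidableEq ι] {S A : Matrix ι ι ℂ}
    (hS : S.IsHermitian) (h1 : (Aᴴ * S * A).PosSemidef) (h2 : (A * S * Aᴴ).PosSemidef) :
    0 ≤ (S * (Aᴴ * S * A)).trace := trace_nonneg_gen hS h1 h2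

end T

open T

/-- First and second variation at a minimum on an orbit. -/
theorem orbit_variation {R : T4 n} (hR : IsOp R) {v : CMat n}
    (hmin : ∀ᶠ g in 𝓝 (1 : CMat n), gᵀ * g = 1 → g.det = 1 →
      (cq R v v).re ≤ (cq R (g * v * gᵀ) (g * v * gᵀ)).re) {x : CMat n} (hx : xᵀ = -x) :
    cq R (x * v - v * x) v = 0 ∧ 0 ≤ (cq R (x * v - v * x) (x * v - v * x)).re := by
  obtain ⟨b, hb, hg⟩ := exists_cayley hx
  set a : CMat n := (2 : ℂ) • x with ha
  have haT : aᵀ = -a := by rw [ha, transpose_smul, hx, smul_neg]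
  set u : CMat n := a * v - v * a with hu
  set r : ℂ → CMat n := fun t => b t * v + v * (b t)ᵀ - a * v * a +
    t • (a * v * (b t)ᵀ - b t * v * a) + t ^ 2 • (b t * v * (b t)ᵀ) with hr
  have hbT : ContinuousAt (fun t => (b t)ᵀ) 0 :=
    (continuous_id.matrix_transpose).continuousAt.comp hb
  have hrc : ContinuousAt r 0 := by
    rw [hr]; fun_prop
  have hgc : Tendsto (fun t : ℂ => 1 + t • a + t ^ 2 • b t) (𝓝 0) (𝓝 1) := by
    have h1 : ContinuousAt (fun t : ℂ => 1 + t • a + t ^ 2 • b t) 0 := by fun_prop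
    simpa using h1.tendsto
  have key := second_aux (c := cq R u v) (φ := fun t => cq R (r t) v)
    (ψ := fun t => (cq R (u + t • r t) (u + t • r t)).re)
    ((continuous_cq R).continuousAt.comp (f := fun t => (r t, v)) (by fun_prop))
    (Complex.continuous_re.continuousAt.comp ((continuous_cq R).continuousAt.comp
      (f := fun t => (u + t • r t, u + t • r t)) (by fun_prop))) (by
      filter_upwards [hg, hgc.eventually hmin] with t h1 h2
      have h3 := h2 h1.1 h1.2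
      have e : (1 + t • a + t ^ 2 • b t) * v * (1 + t • a + t ^ 2 • b t)ᵀ =
          v + t • (u + t • r t) := by
        simp only [hu, hr, transpose_add, transpose_smul, transpose_one, haT, add_mul, mul_add,
          Matrix.mul_smul, Matrix.smul_mul, mul_one, one_mul, mul_neg, smul_neg]
        module
      rw [e, cq_add_left, cq_add_right, cq_add_right, cq_symm hR (t • (u + t • r t)) v,
        cq_smul_left R t _ (t • _), cq_smul_right, ← mul_assoc, Complex.mul_conj,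
        cq_smul_left, cq_add_left, cq_smul_left] at h3
      simp only [Complex.add_re, Complex.conj_re, Complex.re_ofReal_mul, mul_add] at h3
      rw [pow_two, mul_assoc t]
      linarith)
  have e : u = (2 : ℂ) • (x * v - v * x) := by
    rw [hu, ha, Matrix.smul_mul, Matrix.mul_smul, smul_sub]
  simp only [zero_smul, add_zero, e, cq_smul_left, cq_smul_right] at key
  refine ⟨by simpa using key.1, ?_⟩
  have h2 := key.2
  rw [← mul_assoc, mul_comm (conj (2 : ℂ)), Complex.mul_conj, Complex.re_ofReal_mul] at h2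
  exact nonneg_of_mul_nonneg_right h2 (Complex.normSq_pos.2 two_ne_zero)

theorem cop_skew {R : T4 n} (hR : IsOp R) (v : CMat n) : (cop R v)ᵀ = -cop R v := by
  ext i j
  simp only [transpose_apply, Matrix.neg_apply, cop, ← Finset.sum_neg_distrib]
  exact Finset.sum_congr rfl fun k _ => Finset.sum_congr rfl fun l _ => by
    rw [hR.skew i j k l]; push_cast; ring

theorem cop_transpose {R : T4 n} (hR : IsOp R) (v : CMat n) : cop R vᵀ = -cop R v := by
  ext i j
  simp only [transpose_apply, Matrix.neg_apply, cop, ← Finset.sum_neg_distrib]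
  rw [Finset.sum_comm]
  exact Finset.sum_congr rfl fun k _ => Finset.sum_congr rfl fun l _ => by
    rw [hR.skew' i j k l]; push_cast; ring

theorem cq_neg_left (R : T4 n) (v w : CMat n) : cq R (-v) w = -cq R v w := by
  rw [← neg_one_smul ℂ v, cq_smul_left, neg_one_mul]

theorem cq_neg_right (R : T4 n) (v w : CMat n) : cq R v (-w) = -cq R v w := by
  rw [← neg_one_smul ℂ w, cq_smul_right, map_neg, map_one, neg_one_mul]

theorem cq_transpose_left {R : T4 n} (hR : IsOp R) (v w : CMat n) :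
    cq R vᵀ w = -cq R v w := by
  simp only [cq_eq_cop hR, cop_transpose hR, Matrix.neg_apply, neg_mul, Finset.sum_neg_distrib]

theorem cq_transpose_right {R : T4 n} (hR : IsOp R) (v w : CMat n) :
    cq R v wᵀ = -cq R v w := by
  rw [cq_symm hR, cq_transpose_left hR, map_neg, ← cq_symm hR]

theorem skew_conj {v : CMat n} (hv : vᵀ = -v) : (v.map conj)ᵀ = -v.map conj := by
  rw [← transpose_map, hv]
  ext i j
  simp only [Matrix.map_apply, Matrix.neg_apply, map_neg]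

theorem skew_comm {x v : CMat n} (hx : xᵀ = -x) (hv : vᵀ = -v) :
    (x * v - v * x)ᵀ = -(x * v - v * x) := by
  simp only [transpose_sub, transpose_mul, hx, hv, neg_mul_neg, neg_sub]

theorem conj_comm (x v : CMat n) :
    (x * v - v * x).map conj = x.map conj * v.map conj - v.map conj * x.map conj := by
  rw [Matrix.map_sub _ (map_sub _), Matrix.map_mul, Matrix.map_mul]

theorem conj_conj (x : CMat n) : (x.map conj).map conj = x := by
  ext i j; simp

theorem pair_eq_trace (p : CMat n) {q : CMat n} (hq : qᵀ = -q) :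
    ∑ k, ∑ l, p k l * conj (q k l) = -(p * q.map conj).trace := by
  rw [← trace_neg, ← Matrix.mul_neg, ← skew_conj hq]
  simp only [trace, diag_apply, mul_apply, transpose_apply, Matrix.map_apply]

theorem nsq_eq (p : CMat n) : ∑ k, ∑ l, p k l * conj (p k l) = (nsq p : ℂ) := by
  simp only [nsq, Complex.mul_conj, Complex.ofReal_sum]

theorem nsq_nonneg (p : CMat n) : 0 ≤ nsq p :=
  Finset.sum_nonneg fun _ _ => Finset.sum_nonneg fun _ _ => Complex.normSq_nonneg _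

theorem nsq_eq_zero {p : CMat n} (h : nsq p = 0) : p = 0 := by
  ext i j
  have h1 := (Finset.sum_eq_zero_iff_of_nonneg fun _ _ =>
    Finset.sum_nonneg fun _ _ => Complex.normSq_nonneg _).1 h i (Finset.mem_univ _)
  exact Complex.normSq_eq_zero.1 ((Finset.sum_eq_zero_iff_of_nonneg fun _ _ =>
    Complex.normSq_nonneg _).1 h1 j (Finset.mem_univ _))

/-- The first order condition: `R v` commutes with the conjugate of `v`. -/
theorem commute_of_first {R : T4 n} (hR : IsOp R) {v : CMat n} (hv : vᵀ = -v)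
    (h : ∀ x : CMat n, xᵀ = -x → cq R (x * v - v * x) v = 0) :
    cop R v * v.map conj = v.map conj * cop R v := by
  have hxT := skew_comm (cop_skew hR v) (skew_conj hv)
  have h1 := h _ hxT
  rw [cq_symm hR, map_eq_zero, cq_eq_cop hR, pair_eq_trace _ (skew_comm hxT hv), conj_comm,
    neg_eq_zero] at h1
  have h2 := nsq_eq (cop R v * v.map conj - v.map conj * cop R v)
  rw [pair_eq_trace _ hxT] at h2
  generalize (cop R v * v.map conj - v.map conj * cop R v).map conj = z at h1 h2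
  rw [Matrix.mul_sub, trace_sub, ← Matrix.mul_assoc, ← Matrix.mul_assoc,
    trace_mul_comm (cop R v * z), ← Matrix.mul_assoc] at h1
  rw [Matrix.sub_mul, trace_sub, neg_sub, h1] at h2
  exact sub_eq_zero.1 (nsq_eq_zero (by exact_mod_cast h2.symm))

namespace T

/-- The matrix of `x ↦ x u - u x`. -/
def adM (u : CMat n) : Matrix (Fin n × Fin n) (Fin n × Fin n) ℂ := fun p q =>
  (if p.1 = q.1 then u q.2 p.2 else 0) - if q.2 = p.2 then u p.1 q.1 else 0

/-- The matrix of a four-tensor. -/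
def opM (R : T4 n) : Matrix (Fin n × Fin n) (Fin n × Fin n) ℂ := fun p q => R p.1 p.2 q.1 q.2

theorem adM_mulVec (u : CMat n) (z : Fin n × Fin n → ℂ) (p : Fin n × Fin n) :
    (adM u *ᵥ z) p = (of (Function.curry z) * u - u * of (Function.curry z)) p.1 p.2 := by
  simp [adM, mulVec, dotProduct, Fintype.sum_prod_type, sub_mul, Finset.sum_sub_distrib,
    mul_apply, mul_comm]

theorem adM_conjTranspose {u : CMat n} (hu : uᵀ = -u) : (adM u)ᴴ = -adM (u.map conj) := by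
  have h : ∀ i j, u j i = -u i j := fun i j => congrFun (congrFun hu i) j
  ext p q
  simp only [adM, conjTranspose_apply, Matrix.neg_apply, Matrix.map_apply, star_sub,
    eq_comm (a := q.1), eq_comm (a := p.2), h p.2 q.2, h q.1 p.1, map_neg]
  split_ifs <;> simp [add_comm, sub_eq_add_neg]

theorem opM_herm {R : T4 n} (hR : IsOp R) : (opM R).IsHermitian := by
  ext p q
  simp [opM, conjTranspose_apply, hR.pair p.1 p.2 q.1 q.2]

theorem adM_psd {R : T4 n} (hR : IsOp R) {u : CMat n} (hu : uᵀ = -u)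
    (h : ∀ x : CMat n, xᵀ = -x → 0 ≤ (cq R (x * u - u * x) (x * u - u * x)).re) :
    ((adM u)ᴴ * opM R * adM u).PosSemidef := by
  refine .of_dotProduct_mulVec_nonneg (isHermitian_conjTranspose_mul_mul _ (opM_herm hR))
    fun z => ?_
  set x : CMat n := of (Function.curry z) with hx
  have e : star z ⬝ᵥ (((adM u)ᴴ * opM R * adM u) *ᵥ z) = cq R (x * u - u * x) (x * u - u * x) := by
    rw [← mulVec_mulVec, ← mulVec_mulVec, dotProduct_mulVec, ← star_mulVec, cq_eq_cop hR]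
    simp only [dotProduct, Fintype.sum_prod_type, Pi.star_apply, adM_mulVec]
    refine Finset.sum_congr rfl fun a _ => Finset.sum_congr rfl fun b _ => ?_
    rw [mul_comm]
    congr 1
    simp only [mulVec, dotProduct, Fintype.sum_prod_type, opM, cop]
    exact Finset.sum_congr rfl fun c _ => Finset.sum_congr rfl fun d _ => by
      rw [← adM_mulVec u z (c, d)]; simp only [mulVec, dotProduct, Fintype.sum_prod_type]
  have h1 := h (x - xᵀ) (by rw [transpose_sub, transpose_transpose, neg_sub])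
  have e2 : (x - xᵀ) * u - u * (x - xᵀ) = (x * u - u * x) + -(x * u - u * x)ᵀ := by
    simp only [transpose_sub, transpose_mul, hu, Matrix.sub_mul, Matrix.mul_sub, Matrix.neg_mul,
      Matrix.mul_neg]
    abel
  rw [e2, ← transpose_neg, cq_add_left, cq_add_right, cq_add_right, cq_transpose_left hR,
    cq_transpose_left hR, cq_transpose_right hR, cq_transpose_right hR, cq_neg_left,
    cq_neg_left, cq_neg_right] at h1
  rw [e, Complex.nonneg_iff]
  have h2 := congrArg Complex.im (cq_symm hR (x * u - u * x) (x * u - u * x))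
  simp only [Complex.conj_im] at h2
  simp at h1
  constructor <;> linarith

theorem sum6 (X : Fin n → Fin n → Fin n → Fin n → Fin n → Fin n → ℂ) :
    ∑ a, ∑ b, ∑ c, ∑ d, ∑ e, ∑ f, X a b c d e f =
      ∑ p : Fin n × Fin n × Fin n × Fin n × Fin n × Fin n,
        X p.1 p.2.1 p.2.2.1 p.2.2.2.1 p.2.2.2.2.1 p.2.2.2.2.2 := by
  simp only [Fintype.sum_prod_type]

theorem opM_adM {R : T4 n} (hR : IsOp R) {u : CMat n} (hu : uᵀ = -u) (p q : Fin n × Fin n) :
    (opM R * adM u) p q =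
      ∑ b, R p.1 p.2 q.1 b * u q.2 b - ∑ b, R p.1 p.2 q.2 b * u q.1 b := by
  have h : ∀ i j, u j i = -u i j := fun i j => congrFun (congrFun hu i) j
  simp only [mul_apply, opM, adM, Fintype.sum_prod_type, mul_sub, Finset.sum_sub_distrib, mul_ite,
    mul_zero, Finset.sum_ite_eq, Finset.mem_univ, if_true]
  rw [Finset.sum_comm]
  simp only [Finset.sum_ite_eq', Finset.mem_univ, if_true]
  congr 1
  exact Finset.sum_congr rfl fun a _ => by
    rw [hR.skew' p.1 p.2 q.2 a, h q.1 a]; push_cast; ring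

end T

/-- The term `R ^ #` as a trace. -/
theorem trace_sharp {R : T4 n} (hR : IsOp R) {v : CMat n} (hv : vᵀ = -v) :
    (opM R * ((adM v)ᴴ * opM R * adM v)).trace = 2 * cq (Qq4 R) v v - nsq (cop R v) := by
  have hw := skew_conj hv
  rw [adM_conjTranspose hv, Matrix.mul_assoc, ← Matrix.mul_assoc, Matrix.mul_neg,
    Matrix.neg_mul, trace_neg]
  set w := v.map conj with hwdef
  have hv' : ∀ i j, v j i = -v i j := fun i j => congrFun (congrFun hv i) j
  have hw' : ∀ i j, w j i = -w i j := fun i j => congrFun (congrFun hw i) j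
  set X : ℂ := ∑ i, ∑ j, ∑ k, ∑ l, ∑ p, ∑ q, (R i p k q : ℂ) * R j p l q * v i j * w k l with hX
  have eX2 : ∑ i, ∑ j, ∑ k, ∑ l, ∑ p, ∑ q, (R i p l q : ℂ) * R j p k q * v i j * w k l = -X := by
    simp only [hX, ← Finset.sum_neg_distrib]
    refine Finset.sum_congr rfl fun i _ => Finset.sum_congr rfl fun j _ => ?_
    rw [Finset.sum_comm]
    exact Finset.sum_congr rfl fun k _ => Finset.sum_congr rfl fun l _ =>
      Finset.sum_congr rfl fun p _ => Finset.sum_congr rfl fun q _ => by rw [hw' k l]; ring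
  have eG : ∑ c, ∑ d, ∑ i, ∑ j, ∑ b, ∑ a, (R c d i b : ℂ) * w j b * (R i j c a * v d a) = -X := by
    rw [← eX2, sum6, sum6]
    refine Fintype.sum_equiv
      ⟨fun p => (p.2.1, p.2.2.2.2.2, p.2.2.2.1, p.2.2.2.2.1, p.1, p.2.2.1),
        fun p => (p.2.2.2.2.1, p.1, p.2.2.2.2.2, p.2.2.1, p.2.2.2.1, p.2.1),
        fun _ => rfl, fun _ => rfl⟩ _ _ fun ⟨c, d, i, j, b, a⟩ => ?_
    simp only [Equiv.coe_fn_mk]
    rw [hR.skew d c i b, hR.skew' d c b i, ← hR.pair i j c a, hR.skew a c i j, hR.skew' a c j i]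
    push_cast
    ring
  have eT : (opM R * adM w * (opM R * adM v)).trace = -(4 * X) := by
    set G : CMat n → Fin n → Fin n → Fin n → Fin n → ℂ :=
      fun u c d i j => ∑ b, R c d i b * u j b with hG
    have hGs : ∀ u c d i j, G u d c i j = -G u c d i j := by
      intro u c d i j
      simp only [hG, ← Finset.sum_neg_distrib]
      exact Finset.sum_congr rfl fun b _ => by rw [hR.skew c d i b]; push_cast; ring
    have e0 : ∑ c, ∑ d, ∑ i, ∑ j, G w c d i j * G v i j c d = -X := by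
      simp only [hG, Finset.sum_mul_sum]
      exact eG
    have e1 : ∑ c, ∑ d, ∑ i, ∑ j, G w c d j i * G v i j c d = X := by
      rw [← neg_neg X, ← e0]
      simp only [← Finset.sum_neg_distrib]
      refine Finset.sum_congr rfl fun c _ => Finset.sum_congr rfl fun d _ => ?_
      rw [Finset.sum_comm]
      exact Finset.sum_congr rfl fun i _ => Finset.sum_congr rfl fun j _ => by
        rw [hGs v i j c d]; ring
    have e2 : ∑ c, ∑ d, ∑ i, ∑ j, G w c d i j * G v i j d c = X := by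
      rw [← neg_neg X, ← e0, Finset.sum_comm]
      simp only [← Finset.sum_neg_distrib]
      exact Finset.sum_congr rfl fun c _ => Finset.sum_congr rfl fun d _ =>
        Finset.sum_congr rfl fun i _ => Finset.sum_congr rfl fun j _ => by
          rw [hGs w c d i j]; ring
    have e3 : ∑ c, ∑ d, ∑ i, ∑ j, G w c d j i * G v i j d c = -X := by
      rw [← e2]
      simp only [← Finset.sum_neg_distrib]
      refine Finset.sum_congr rfl fun c _ => Finset.sum_congr rfl fun d _ => ?_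
      rw [Finset.sum_comm]
      exact Finset.sum_congr rfl fun i _ => Finset.sum_congr rfl fun j _ => by
        rw [hGs v i j d c]; ring
    have e4 : (opM R * adM w * (opM R * adM v)).trace = ∑ c, ∑ d, ∑ i, ∑ j,
        (G w c d i j - G w c d j i) * (G v i j c d - G v i j d c) := by
      simp only [trace, diag_apply, mul_apply (M := opM R * adM w), Fintype.sum_prod_type,
        opM_adM hR hv, opM_adM hR hw, hG]
    rw [e4]
    simp only [sub_mul, mul_sub, Finset.sum_sub_distrib]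
    rw [e0, e1, e2, e3]
    ring
  have eQ : cq (Qq4 R) v v = (nsq (cop R v) : ℂ) / 2 + 2 * X := by
    have e0 : ∑ i, ∑ j, ∑ k, ∑ l, ∑ p, ∑ q, (R i j p q : ℂ) * R k l p q * v i j * w k l =
        nsq (cop R v) := by
      rw [← nsq_eq]
      simp only [cop, map_sum, map_mul, Complex.conj_ofReal, Finset.sum_mul_sum]
      rw [sum6, sum6]
      refine Fintype.sum_equiv
        ⟨fun p => (p.2.2.2.2.1, p.2.2.2.2.2, p.1, p.2.2.1, p.2.1, p.2.2.2.1),
          fun p => (p.2.2.1, p.2.2.2.2.1, p.2.2.2.1, p.2.2.2.2.2, p.1, p.2.1),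
          fun _ => rfl, fun _ => rfl⟩ _ _ fun ⟨i, j, k, l, p, q⟩ => ?_
      simp only [Equiv.coe_fn_mk, hwdef, Matrix.map_apply]
      rw [hR.pair i j p q, hR.pair k l p q]
      ring
    rw [two_mul, ← add_assoc, ← sub_neg_eq_add, ← eX2, ← e0, hX]
    simp only [cq, Qq4, Finset.sum_div, ← Finset.sum_add_distrib, ← Finset.sum_sub_distrib,
      Complex.ofReal_sum, Finset.sum_mul]
    refine Finset.sum_congr rfl fun i _ => Finset.sum_congr rfl fun j _ =>
      Finset.sum_congr rfl fun k _ => Finset.sum_congr rfl fun l _ =>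
      Finset.sum_congr rfl fun p _ => Finset.sum_congr rfl fun q _ => ?_
    simp only [hwdef, Matrix.map_apply]
    push_cast
    ring
  rw [eT, eQ]
  ring

/-- The term `R ^ #` is non-negative if the second variation is. -/
theorem sharp_nonneg {R : T4 n} (hR : IsOp R) {v : CMat n} (hv : vᵀ = -v)
    (h : ∀ x : CMat n, xᵀ = -x → 0 ≤ (cq R (x * v - v * x) (x * v - v * x)).re) :
    nsq (cop R v) / 2 ≤ (cq (Qq4 R) v v).re := by
  have hw := skew_conj hv
  have h1 := adM_psd hR hv h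
  have h2 := adM_psd hR hw fun x hx => by
    have h3 := h _ (skew_conj hx)
    rwa [← Complex.conj_re, ← cq_conj, conj_comm, conj_conj] at h3
  rw [adM_conjTranspose hw, conj_conj, ← neg_neg (adM (v.map conj)), ← adM_conjTranspose hv,
    Matrix.neg_mul, neg_mul_neg] at h2
  have h3 := trace_nonneg_aux (opM_herm hR) h1 h2
  rw [trace_sharp hR hv] at h3
  have h4 := (Complex.nonneg_iff.1 h3).1
  simp at h4
  linarith

/-- The variational lemma: at a minimum on an orbit, `R v` commutes with the conjugate of `v`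
and the reaction term is bounded below by the squared norm of `R v`. -/
theorem orbit_min_op {R : T4 n} (hR : IsOp R) {v : CMat n} (hv : vᵀ = -v)
    (hmin : ∀ᶠ g in 𝓝 (1 : CMat n), gᵀ * g = 1 → g.det = 1 →
      (cq R v v).re ≤ (cq R (g * v * gᵀ) (g * v * gᵀ)).re) :
    cop R v * v.map conj = v.map conj * cop R v ∧ nsq (cop R v) / 2 ≤ (cq (Qq4 R) v v).re :=
  ⟨commute_of_first hR hv fun _ hx => (orbit_variation hR hmin hx).1,
    sharp_nonneg hR hv fun _ hx => (orbit_variation hR hmin hx).2⟩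

theorem orbit_min {R : T4 n} (hR : IsCurv R) {v : CMat n} (hv : vᵀ = -v)
    (hmin : ∀ᶠ g in 𝓝 (1 : CMat n), gᵀ * g = 1 → g.det = 1 →
      (cq R v v).re ≤ (cq R (g * v * gᵀ) (g * v * gᵀ)).re) :
    cop R v * v.map conj = v.map conj * cop R v ∧ nsq (cop R v) / 2 ≤ (cq (Qq4 R) v v).re :=
  orbit_min_op hR.isOp hv hmin

theorem cq_add (R S : T4 n) (v w : CMat n) : cq (R + S) v w = cq R v w + cq S v w := by
  simp only [cq, Pi.add_apply, Complex.ofReal_add, add_mul, Finset.sum_add_distrib]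

theorem cq_sub (R S : T4 n) (v w : CMat n) : cq (R - S) v w = cq R v w - cq S v w := by
  simp only [cq, Pi.sub_apply, Complex.ofReal_sub, sub_mul, Finset.sum_sub_distrib]

theorem cq_smul (c : ℝ) (R : T4 n) (v w : CMat n) : cq (c • R) v w = c * cq R v w := by
  simp only [cq, Pi.smul_apply, smul_eq_mul, Complex.ofReal_mul, Finset.mul_sum, mul_assoc]

theorem cop_add (R S : T4 n) (v : CMat n) : cop (R + S) v = cop R v + cop S v := by
  ext i j
  simp only [cop, Pi.add_apply, Matrix.add_apply, Complex.ofReal_add, add_mul,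
    Finset.sum_add_distrib]

theorem cop_sub (R S : T4 n) (v : CMat n) : cop (R - S) v = cop R v - cop S v := by
  ext i j
  simp only [cop, Pi.sub_apply, Matrix.sub_apply, Complex.ofReal_sub, sub_mul,
    Finset.sum_sub_distrib]

theorem cop_smul (c : ℝ) (R : T4 n) (v : CMat n) : cop (c • R) v = (c : ℂ) • cop R v := by
  ext i j
  simp only [cop, Pi.smul_apply, Matrix.smul_apply, smul_eq_mul, Complex.ofReal_mul,
    Finset.mul_sum, mul_assoc]

/-- A non-negative operator is non-negative on complex bivectors. -/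
theorem OpNonneg.cq_nonneg {U : T4 n} (h : OpNonneg U) {v : CMat n} (hv : vᵀ = -v) :
    0 ≤ (cq U v v).re := by
  have hv' : ∀ i j, v j i = -v i j := fun i j => congrFun (congrFun hv i) j
  have h1 := h (fun i j => (v i j).re) fun i j => by simp only [hv' i j, Complex.neg_re]
  have h2 := h (fun i j => (v i j).im) fun i j => by simp only [hv' i j, Complex.neg_im]
  refine (add_nonneg h1 h2).trans_eq ?_
  simp only [cq, Complex.re_sum, ← Finset.sum_add_distrib]
  refine Finset.sum_congr rfl fun i _ => Finset.sum_congr rfl fun j _ =>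
    Finset.sum_congr rfl fun k _ => Finset.sum_congr rfl fun l _ => ?_
  simp

/-- The variational lemma with a hidden non-negative operator. -/
theorem orbit_min_hidden {S U : T4 n} (hS : IsOp S) (hU : IsOp U) (hU0 : OpNonneg U) {v : CMat n}
    (hv : vᵀ = -v) (hmin : ∀ᶠ g in 𝓝 (1 : CMat n), gᵀ * g = 1 → g.det = 1 →
      (cq (S - U) v v).re ≤ (cq (S - U) (g * v * gᵀ) (g * v * gᵀ)).re) :
    nsq (cop S v) / 2 ≤ (cq (Qq4 S) v v).re := by
  refine sharp_nonneg hS hv fun x hx => ?_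
  have h1 := (orbit_variation (hS.sub hU) hmin hx).2
  have h2 := hU0.cq_nonneg (skew_comm hx hv)
  rw [cq_sub, Complex.sub_re] at h1
  linarith

end

end Pool.Agent.Work.MP_3a9764_gt
end

-- merged part: Pool.Agent.Work.MP_3a9764_gt.PTrace
section
/-! The trace lemma for an extended skew matrix. -/

set_option autoImplicit false

open Matrix
open scoped ComplexConjugate ComplexOrder

namespace Pool.Agent.Work.MP_3a9764_gt

noncomputable section

namespace T

variable {ι κ : Type} [Fintype ι] [DecidableEq ι] [Fintype κ] [DecidableEq κ]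

omit [DecidableEq ι] [DecidableEq κ] in
theorem trace_blocks (A : Matrix ι ι ℂ) (B : Matrix ι κ ℂ) (C : Matrix κ ι ℂ) (D : Matrix κ κ ℂ) :
    (fromBlocks A B C D).trace = A.trace + D.trace := by
  simp [trace, Fintype.sum_sum_type]

omit [Fintype ι] [DecidableEq ι] [Fintype κ] [DecidableEq κ] in
theorem ct_comm (M : Matrix ι κ ℂ) : Mᴴᵀ = Mᵀᴴ := rfl

theorem trace_ext {A R : Matrix ι ι ℂ} {L : Matrix κ ι ℂ} (hA : Aᵀ = -A) (hR : R.IsHermitian)
    (δ : ℝ) (h : ∀ (x : ι → ℂ) (μ : κ → ℂ),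
      0 ≤ star (A *ᵥ x + Lᵀ *ᵥ μ) ⬝ᵥ (R *ᵥ (A *ᵥ x + Lᵀ *ᵥ μ)) + δ * (star (L *ᵥ x) ⬝ᵥ (L *ᵥ x))) :
    0 ≤ (Rᵀ * (Aᴴ * R * A)).trace + 2 * δ * (L * Rᵀ * Lᴴ).trace := by
  set Ω : Matrix (ι ⊕ κ) (ι ⊕ κ) ℂ := fromBlocks A Lᵀ (-L) 0 with hΩ
  set S : Matrix (ι ⊕ κ) (ι ⊕ κ) ℂ := fromBlocks R 0 0 ((δ : ℂ) • 1) with hS
  have hΩT : Ωᵀ = -Ω := by
    rw [hΩ, fromBlocks_transpose, hA, fromBlocks_neg]; simp
  have hSH : S.IsHermitian := by
    rw [hS, IsHermitian, fromBlocks_conjTranspose, hR.eq]; simp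
  have h1 : (Ωᴴ * S * Ω).PosSemidef := by
    refine .of_dotProduct_mulVec_nonneg (isHermitian_conjTranspose_mul_mul _ hSH) fun z => ?_
    rw [← mulVec_mulVec, ← mulVec_mulVec, dotProduct_mulVec, ← star_mulVec]
    convert h (z ∘ .inl) (z ∘ .inr) using 1
    simp only [hΩ, hS, fromBlocks_mulVec, Function.star_sumElim, sumElim_dotProduct_sumElim,
      Sum.elim_comp_inl, Sum.elim_comp_inr, zero_mulVec, add_zero, zero_add, neg_mulVec,
      smul_mulVec, one_mulVec, star_neg, dotProduct_smul, neg_dotProduct, dotProduct_neg, neg_neg,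
      smul_eq_mul]
  have h2 : (Ω * Sᵀ * Ωᴴ).PosSemidef := by
    have h3 := h1.transpose
    rwa [transpose_mul, transpose_mul, ct_comm, hΩT, conjTranspose_neg,
      Matrix.mul_neg, neg_mul_neg, ← Matrix.mul_assoc] at h3
  have h3 := trace_nonneg_gen hSH h1 h2
  have e : (Lᵀᴴ * R * Lᵀ).trace = (L * Rᵀ * Lᴴ).trace := by
    rw [← trace_transpose, transpose_mul, transpose_mul, ct_comm,
      transpose_transpose, Matrix.mul_assoc]
  have e' : (Rᵀ * (Lᴴ * L)).trace = (L * Rᵀ * Lᴴ).trace := by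
    rw [← Matrix.mul_assoc, trace_mul_comm, ← Matrix.mul_assoc]
  convert h3 using 1
  simp only [hΩ, hS, fromBlocks_transpose, fromBlocks_conjTranspose, fromBlocks_multiply,
    trace_blocks, transpose_zero, conjTranspose_zero, Matrix.zero_mul, Matrix.mul_zero, add_zero,
    zero_add, transpose_smul, transpose_one, conjTranspose_neg, Matrix.neg_mul, Matrix.mul_neg,
    neg_neg, smul_neg, smul_zero, neg_zero, Matrix.mul_smul, Matrix.smul_mul, Matrix.mul_one, Matrix.one_mul, Matrix.mul_add,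
    trace_add, trace_smul, smul_eq_mul, e, e']
  ring

/-- The trace lemma with a rank one correction. -/
theorem trace_ext_rank {A K : Matrix ι ι ℂ} {L : Matrix κ ι ℂ} (hA : Aᵀ = -A) (hK : K.IsHermitian)
    (hK' : Kᵀ = K) (p : ι → ℂ) (a δ : ℝ) (h : ∀ (x : ι → ℂ) (μ : κ → ℂ),
      0 ≤ star (A *ᵥ x + Lᵀ *ᵥ μ) ⬝ᵥ (K *ᵥ (A *ᵥ x + Lᵀ *ᵥ μ)) +
        a * Complex.normSq (star p ⬝ᵥ (A *ᵥ x + Lᵀ *ᵥ μ)) + δ * (star (L *ᵥ x) ⬝ᵥ (L *ᵥ x))) :
    0 ≤ (K * (Aᴴ * K * A)).trace + 2 * a * (star (A *ᵥ star p) ⬝ᵥ (K *ᵥ (A *ᵥ star p))) +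
      2 * δ * ∑ k, (star (L k) ⬝ᵥ (K *ᵥ L k) + a * Complex.normSq (star p ⬝ᵥ L k)) := by
  have e0 : ∀ v : ι → ℂ, star v ⬝ᵥ ((K + (a : ℂ) • vecMulVec p (star p)) *ᵥ v) =
      star v ⬝ᵥ (K *ᵥ v) + a * Complex.normSq (star p ⬝ᵥ v) := fun v => by
    rw [add_mulVec, smul_mulVec, vecMulVec_mulVec, dotProduct_add, dotProduct_smul,
      op_smul_eq_smul, dotProduct_smul, star_dotProduct v p, ← Complex.mul_conj]
    simp
  have h1 := trace_ext (R := K + (a : ℂ) • vecMulVec p (star p)) (L := L) hA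
    (hK.add (by simp [IsHermitian])) δ fun x μ => by rw [e0]; exact h x μ
  have e1 : ∀ M : Matrix ι ι ℂ, (L * Mᵀ * Lᴴ).trace = ∑ k, star (L k) ⬝ᵥ (M *ᵥ L k) := by
    intro M
    simp only [trace, diag_apply, mul_apply, transpose_apply, conjTranspose_apply, dotProduct,
      mulVec, Pi.star_apply, Finset.sum_mul, Finset.mul_sum]
    exact Finset.sum_congr rfl fun k _ => Finset.sum_congr rfl fun i _ =>
      Finset.sum_congr rfl fun j _ => by ring
  have hs : star p ᵥ* A = -(A *ᵥ star p) := by rw [← mulVec_transpose, hA, neg_mulVec]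
  have hs' : Aᴴ *ᵥ p = -star (A *ᵥ star p) := by
    rw [mulVec_conjTranspose, hs, star_neg]
  have hz : star p ⬝ᵥ (A *ᵥ star p) = 0 := by
    have := dotProduct_mulVec (star p) A (star p)
    rw [hs, neg_dotProduct, dotProduct_comm (A *ᵥ star p)] at this
    linear_combination this / 2
  have e2 : (K * (Aᴴ * vecMulVec p (star p) * A)).trace =
      star (A *ᵥ star p) ⬝ᵥ (K *ᵥ (A *ᵥ star p)) := by
    rw [mul_vecMulVec, vecMulVec_mul, mul_vecMulVec, trace_vecMulVec, hs, hs', mulVec_neg,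
      neg_dotProduct_neg, dotProduct_mulVec (star (A *ᵥ star p)), ← mulVec_transpose, hK']
  have e3 : (vecMulVec (star p) p * (Aᴴ * K * A)).trace =
      star (A *ᵥ star p) ⬝ᵥ (K *ᵥ (A *ᵥ star p)) := by
    rw [trace_mul_comm, mul_vecMulVec, trace_vecMulVec, ← mulVec_mulVec, ← mulVec_mulVec,
      dotProduct_comm, dotProduct_mulVec, star_mulVec, star_star]
  have e4 : (vecMulVec (star p) p * (Aᴴ * vecMulVec p (star p) * A)).trace = 0 := by
    rw [mul_vecMulVec, vecMulVec_mul _ _ A, vecMulVec_mul_vecMulVec, trace_vecMulVec, hs,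
      dotProduct_smul, dotProduct_neg, hz, neg_zero, smul_zero]
  rw [e1] at h1
  simp only [e0] at h1
  simp only [transpose_add, transpose_smul, transpose_vecMulVec, hK', Matrix.add_mul,
    Matrix.mul_add, Matrix.smul_mul, Matrix.mul_smul, trace_add, trace_smul, e2, e3, e4,
    smul_eq_mul] at h1
  convert h1 using 1
  ring

end T

end

end Pool.Agent.Work.MP_3a9764_gt
end

-- merged part: Pool.Agent.Work.MP_3a9764_gt.EvSqrt
section
/-! Smooth orthonormal frames for symmetric matrices near the identity. -/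

set_option autoImplicit false

open scoped ContDiff Topology
open Filter Matrix

namespace Pool.Agent.Work.MP_3a9764_gt

noncomputable section

variable {n : ℕ}

section

variable {X : Type} [NormedAddCommGroup X] [NormedSpace ℝ X] {B : X → Mat n} {p : X}
  {k : WithTop ℕ∞}

theorem contDiffAt_det (h : ∀ i j, ContDiffAt ℝ k (fun x => B x i j) p) :
    ContDiffAt ℝ k (fun x => (B x).det) p := by
  simp only [Matrix.det_apply']
  exact ContDiffAt.sum fun σ _ => contDiffAt_const.mul (contDiffAt_prod fun i _ => h _ _)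

theorem contDiffAt_inv_entry (h : ∀ i j, ContDiffAt ℝ k (fun x => B x i j) p)
    (hd : (B p).det ≠ 0) (i j : Fin n) : ContDiffAt ℝ k (fun x => (B x)⁻¹ i j) p := by
  have e : (fun x => (B x)⁻¹ i j) =
      fun x => ((B x).det)⁻¹ * ((B x).updateRow j (Pi.single i 1)).det := by
    funext x
    rw [Matrix.inv_def, Ring.inverse_eq_inv', Matrix.smul_apply, smul_eq_mul, adjugate_apply]
  rw [e]
  refine ((contDiffAt_det h).inv hd).mul (contDiffAt_det fun a b => ?_)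
  simp only [Matrix.updateRow_apply]
  split_ifs
  · exact contDiffAt_const
  · exact h _ _

theorem continuousAt_mat (h : ∀ i j, ContDiffAt ℝ k (fun x => B x i j) p) : ContinuousAt B p :=
  continuousAt_pi.2 fun i => continuousAt_pi.2 fun j => (h i j).continuousAt

theorem contDiffAt_mul_entry {B' : X → Mat n} (h : ∀ i j, ContDiffAt ℝ k (fun x => B x i j) p)
    (h' : ∀ i j, ContDiffAt ℝ k (fun x => B' x i j) p) (i j : Fin n) :
    ContDiffAt ℝ k (fun x => (B x * B' x) i j) p := by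
  simp only [Matrix.mul_apply]
  exact ContDiffAt.sum fun a _ => (h _ _).mul (h' _ _)

end

theorem exists_sqrt : ∃ r : (Fin n → Fin n → ℝ) → (Fin n → Fin n → ℝ),
    ContDiffAt ℝ ∞ r (1 : Mat n) ∧ r (1 : Mat n) = (1 : Mat n) ∧
      ∀ᶠ B : Mat n in 𝓝 (1 : Mat n), B.IsSymm → (Matrix.of (r B)).IsSymm ∧ Matrix.of (r B) * Matrix.of (r B) = B := by
  let q : (Fin n → Fin n → ℝ) → (Fin n → Fin n → ℝ) :=
    fun K => K + fun i j => (1 / 4) * ∑ a, K i a * K a j
  have hq : ContDiff ℝ ∞ q := by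
    refine contDiff_id.add (contDiff_pi.2 fun i => contDiff_pi.2 fun j => contDiff_const.mul ?_)
    exact ContDiff.sum fun a _ => by fun_prop
  have hq' : HasFDerivAt q ((ContinuousLinearEquiv.refl ℝ (Fin n → Fin n → ℝ) :
      (Fin n → Fin n → ℝ) →L[ℝ] (Fin n → Fin n → ℝ))) 0 := by
    have h0 : HasFDerivAt (fun K : Fin n → Fin n → ℝ => fun i j => (1 / 4 : ℝ) * ∑ a, K i a * K a j)
        (0 : (Fin n → Fin n → ℝ) →L[ℝ] (Fin n → Fin n → ℝ)) 0 := by
      refine hasFDerivAt_pi'.2 fun i => hasFDerivAt_pi'.2 fun j => ?_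
      have e : ∀ a b, DifferentiableAt ℝ (fun K : Fin n → Fin n → ℝ => K a b) 0 :=
        fun a b => by fun_prop
      have := (HasFDerivAt.fun_sum (u := Finset.univ) fun a _ =>
        (e i a).hasFDerivAt.mul (e a j).hasFDerivAt).const_mul (1 / 4 : ℝ)
      simpa using this
    have := (hasFDerivAt_id (0 : Fin n → Fin n → ℝ)).add h0
    rw [add_zero] at this
    exact this
  have hs := hq.contDiffAt.hasStrictFDerivAt' hq' (by simp)
  have q0 : q 0 = 0 := by funext i j; simp [q]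
  have h1 := hq.contDiffAt.to_localInverse hq' (by simp)
  have h2 := hq.contDiffAt.localInverse_apply_image hq' (by simp)
  have h3 : ∀ᶠ y in 𝓝 (q 0), q (hq.contDiffAt.localInverse hq' (by simp) y) = y :=
    hs.eventually_right_inverse
  have h4 : ∀ᶠ x in 𝓝 0, hq.contDiffAt.localInverse hq' (by simp) (q x) = x :=
    hs.eventually_left_inverse
  generalize hq.contDiffAt.localInverse hq' (by simp) = u at h1 h2 h3 h4
  rw [q0] at h1 h2 h3
  obtain ⟨o, ho⟩ : ∃ o : Fin n → Fin n → ℝ, o = (1 : Mat n) := ⟨_, rfl⟩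
  have t1 : Tendsto (fun B : Fin n → Fin n → ℝ => B - o) (𝓝 o) (𝓝 0) := by
    exact (continuous_id.sub (continuous_const (y := o))).tendsto' o 0 (sub_self o)
  have t2 : Tendsto (fun B : Fin n → Fin n → ℝ => fun i j => u (B - o) j i) (𝓝 o) (𝓝 0) := by
    have a1 : Tendsto u (𝓝 0) (𝓝 0) := by simpa [h2] using h1.continuousAt.tendsto
    have a2 : Continuous fun K : Fin n → Fin n → ℝ => fun i j => K j i := by fun_prop
    exact (a2.tendsto 0).comp (a1.comp t1)
  refine ⟨fun B => o + (1 / 2 : ℝ) • u (B - o), ?_, ?_, ?_⟩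
  · rw [← ho]
    refine contDiffAt_const.add (ContDiffAt.const_smul _ ?_)
    exact ContDiffAt.comp (g := u) o (by simpa using h1) (contDiffAt_id.sub contDiffAt_const)
  · rw [← ho]; simp [h2]
  · have h5 := (t1.eventually h3).and (t2.eventually h4)
    suffices h6 : ∀ᶠ B : Fin n → Fin n → ℝ in 𝓝 o, (Matrix.of B).IsSymm →
        (Matrix.of (o + (1 / 2 : ℝ) • u (B - o))).IsSymm ∧ Matrix.of (o + (1 / 2 : ℝ) • u (B - o)) *
          Matrix.of (o + (1 / 2 : ℝ) • u (B - o)) = Matrix.of B by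
      subst ho
      exact h6
    filter_upwards [h5] with B hB hsB
    obtain ⟨b1, b2⟩ := hB
    have e1 : q (fun i j => u (B - o) j i) = B - o := by
      funext i j
      have := congrFun (congrFun b1 j) i
      simp only [q, Pi.add_apply, Pi.sub_apply] at this ⊢
      rw [show B i j - o i j = B j i - o j i by
        rw [ho, show B i j = B j i from hsB.apply j i,
          show (1 : Mat n) i j = (1 : Mat n) j i from Matrix.isSymm_one.apply j i], ← this]
      simp only [mul_comm]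
    rw [e1] at b2
    obtain ⟨K, hK⟩ : ∃ K : Mat n, K = u (B - o) := ⟨_, rfl⟩
    have e2 : Matrix.of (o + (1 / 2 : ℝ) • u (B - o)) = 1 + (1 / 2 : ℝ) • K := by
      rw [hK, ho]; rfl
    have e3 : K + (1 / 4 : ℝ) • (K * K) = Matrix.of B - 1 := by
      rw [← hK] at b1
      rw [ho] at b1
      exact b1
    have e4 : K.IsSymm := by rw [hK]; exact b2.symm
    rw [e2]
    refine ⟨Matrix.isSymm_one.add (e4.smul _), ?_⟩
    rw [eq_sub_iff_add_eq] at e3
    rw [← e3]
    simp only [add_mul, mul_add, one_mul, mul_one, smul_mul_assoc, mul_smul_comm]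
    module

theorem exists_frame : ∃ F : Mat n → Mat n,
    (∀ i j, ContDiffAt ℝ ∞ (fun B : Fin n → Fin n → ℝ => F B i j) (1 : Mat n)) ∧ F 1 = 1 ∧
      ∀ᶠ B in 𝓝 (1 : Mat n), B.IsSymm → (F B).IsSymm ∧ (F B)ᵀ * B * F B = 1 := by
  obtain ⟨r, h1, h2, h3⟩ := exists_sqrt (n := n)
  have h4 : ∀ i j, ContDiffAt ℝ ∞ (fun B : Fin n → Fin n → ℝ => Matrix.of (r B) i j) (1 : Mat n) :=
    fun i j => contDiffAt_pi.1 (contDiffAt_pi.1 h1 i) j
  have h5 : Matrix.of (r (1 : Mat n)) = 1 := by rw [h2]; rfl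
  have h6 : (Matrix.of (r (1 : Mat n))).det ≠ 0 := by rw [h5]; simp
  refine ⟨fun B => (Matrix.of (r B))⁻¹, contDiffAt_inv_entry h4 h6, by simp [h5], ?_⟩
  have h7 : ∀ᶠ B : Mat n in 𝓝 (1 : Mat n), (Matrix.of (r B)).det ≠ 0 :=
    (contDiffAt_det h4).continuousAt.eventually_ne h6
  filter_upwards [h3, h7] with B hB hd hs
  obtain ⟨b1, b2⟩ := hB hs
  refine ⟨b1.inv, ?_⟩
  rw [b1.inv.eq]
  generalize Matrix.of (r B) = S at b2 hd
  rw [← b2, ← Matrix.mul_assoc, Matrix.nonsing_inv_mul _ (Ne.isUnit hd), Matrix.one_mul,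
    Matrix.mul_nonsing_inv _ (Ne.isUnit hd)]

end

end Pool.Agent.Work.MP_3a9764_gt
end
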