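import Mathlib
import Pool.Agent.Work.MP_3a9764_gt.EvSqrt

-- merged part: Pool.Agent.Work.MP_3a9764_gt.FourSpec
section
/-! Linear algebra of `3 × 3` matrices for the pinching estimate in dimension four. -/

set_option autoImplicit false

open Matrix

namespace Pool.Agent.Work.MP_3a9764_gt.Four

noncomputable section

/-- Real `3 × 3` matrices. -/
abbrev M3 : Type := Matrix (Fin 3) (Fin 3) ℝ

/-- Vectors of length three. -/
abbrev V3 : Type := Fin 3 → ℝ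

/-- The bilinear form of a matrix. -/
def qf (M : M3) (u v : V3) : ℝ := u ⬝ᵥ M *ᵥ v

/-- The square of the Frobenius norm. -/
def nsq (B : M3) : ℝ := (B * Bᵀ).trace

theorem qf_add (M N : M3) (u v : V3) : qf (M + N) u v = qf M u v + qf N u v := by
  simp [qf, add_mulVec]

theorem qf_sub (M N : M3) (u v : V3) : qf (M - N) u v = qf M u v - qf N u v := by
  simp [qf, sub_mulVec]

theorem qf_smul (c : ℝ) (M : M3) (u v : V3) : qf (c • M) u v = c * qf M u v := by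
  simp [qf, smul_mulVec]

theorem qf_one (u v : V3) : qf 1 u v = u ⬝ᵥ v := by simp [qf]

theorem qf_tr (M : M3) (u v : V3) : qf Mᵀ u v = qf M v u := by
  simp [qf, dotProduct, mulVec, Fin.sum_univ_three]; ring

theorem qf_mul (M N : M3) (u v : V3) : qf (M * N) u v = (Mᵀ *ᵥ u) ⬝ᵥ (N *ᵥ v) := by
  simp [qf, dotProduct, mulVec, Matrix.mul_apply, Fin.sum_univ_three]; ring

theorem qf_smul_smul (M : M3) (a b : ℝ) (u v : V3) :
    qf M (a • u) (b • v) = a * b * qf M u v := by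
  simp [qf, mulVec_smul]; ring

theorem dot_nonneg {n : ℕ} (u : Fin n → ℝ) : 0 ≤ u ⬝ᵥ u :=
  Finset.sum_nonneg fun _ _ => mul_self_nonneg _

theorem polar {n : ℕ} (u : Fin (n + 1) → ℝ) : ∃ (r : ℝ) (v : Fin (n + 1) → ℝ), v ⬝ᵥ v = 1 ∧ u = r • v := by
  by_cases h : u = 0
  · exact ⟨0, Pi.single 0 1, by simp, by simp [h]⟩
  · have hp : 0 < u ⬝ᵥ u := lt_of_le_of_ne (dot_nonneg u) fun h' => h (dotProduct_self_eq_zero.1 h'.symm)
    have hs : 0 < √(u ⬝ᵥ u) := Real.sqrt_pos.2 hp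
    refine ⟨√(u ⬝ᵥ u), (√(u ⬝ᵥ u))⁻¹ • u, ?_, ?_⟩
    · rw [smul_dotProduct, dotProduct_smul, smul_eq_mul, smul_eq_mul, ← mul_assoc, ← mul_inv,
        Real.mul_self_sqrt hp.le, inv_mul_cancel₀ hp.ne']
    · rw [smul_smul, mul_inv_cancel₀ hs.ne', one_smul]

/-- The ordered eigenvalues of a symmetric matrix. -/
structure Spec (A : M3) (a₁ a₂ a₃ : ℝ) : Prop where
  symm : Aᵀ = A
  le₁ : a₁ ≤ a₂
  le₂ : a₂ ≤ a₃
  tr : A.trace = a₁ + a₂ + a₃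
  sq : (A * A).trace = a₁ ^ 2 + a₂ ^ 2 + a₃ ^ 2
  det : A.det = a₁ * a₂ * a₃
  lo : ∀ x, a₁ * (x ⬝ᵥ x) ≤ qf A x x
  hi : ∀ x, qf A x x ≤ a₃ * (x ⬝ᵥ x)
  exlo : ∃ u : V3, u ⬝ᵥ u = 1 ∧ qf A u u = a₁
  exhi : ∃ u : V3, u ⬝ᵥ u = 1 ∧ qf A u u = a₃

theorem diag {A : M3} (hA : Aᵀ = A) :
    ∃ (U : M3) (d : V3), Uᵀ * U = 1 ∧ U * Uᵀ = 1 ∧ A = U * diagonal d * Uᵀ := by
  have hH : A.IsHermitian := by
    rw [IsHermitian, conjTranspose_eq_transpose_of_trivial, hA]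
  refine ⟨hH.eigenvectorUnitary, hH.eigenvalues, ?_, ?_, ?_⟩
  · have := Unitary.coe_star_mul_self hH.eigenvectorUnitary
    rwa [star_eq_conjTranspose, conjTranspose_eq_transpose_of_trivial] at this
  · have := Unitary.coe_mul_star_self hH.eigenvectorUnitary
    rwa [Unitary.coe_star, star_eq_conjTranspose, conjTranspose_eq_transpose_of_trivial] at this
  · have := hH.spectral_theorem
    rw [Unitary.conjStarAlgAut_apply, star_eq_conjTranspose,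
      conjTranspose_eq_transpose_of_trivial] at this
    simpa using this

theorem spec0 {A : M3} (hA : Aᵀ = A) : ∃ d : V3, A.trace = d 0 + d 1 + d 2 ∧
    (A * A).trace = d 0 ^ 2 + d 1 ^ 2 + d 2 ^ 2 ∧ A.det = d 0 * d 1 * d 2 ∧
    (∀ x : V3, ∃ y : V3, x ⬝ᵥ x = y 0 ^ 2 + y 1 ^ 2 + y 2 ^ 2 ∧
      qf A x x = d 0 * y 0 ^ 2 + d 1 * y 1 ^ 2 + d 2 * y 2 ^ 2) ∧
    ∀ i, ∃ u : V3, u ⬝ᵥ u = 1 ∧ qf A u u = d i := by
  obtain ⟨U, d, h1, h2, h3⟩ := diag hA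
  have hq : ∀ x : V3, qf A x x = (Uᵀ *ᵥ x) ⬝ᵥ (diagonal d *ᵥ (Uᵀ *ᵥ x)) := fun x => by
    rw [h3, Matrix.mul_assoc, qf_mul, mulVec_mulVec]
  have hn : ∀ x : V3, x ⬝ᵥ x = (Uᵀ *ᵥ x) ⬝ᵥ (Uᵀ *ᵥ x) := fun x => by
    rw [← qf_mul, h2, qf_one]
  refine ⟨d, ?_, ?_, ?_, fun x => ⟨Uᵀ *ᵥ x, ?_, ?_⟩, fun i => ⟨U *ᵥ Pi.single i 1, ?_, ?_⟩⟩
  · rw [h3, trace_mul_cycle, h1, Matrix.one_mul, trace_diagonal, Fin.sum_univ_three]
  · have : A * A = U * (diagonal d * diagonal d) * Uᵀ := by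
      rw [h3]
      calc U * diagonal d * Uᵀ * (U * diagonal d * Uᵀ)
          = U * diagonal d * (Uᵀ * U) * diagonal d * Uᵀ := by simp only [Matrix.mul_assoc]
        _ = _ := by rw [h1]; simp only [Matrix.mul_assoc, Matrix.one_mul]
    rw [this, trace_mul_cycle, h1, Matrix.one_mul, diagonal_mul_diagonal, trace_diagonal,
      Fin.sum_univ_three]
    ring
  · have : U.det * Uᵀ.det = 1 := by rw [← det_mul, h2, det_one]
    rw [h3, det_mul, det_mul, det_diagonal, Fin.prod_univ_three]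
    linear_combination (d 0 * d 1 * d 2) * this
  · rw [hn]; simp [dotProduct, Fin.sum_univ_three]; ring
  · rw [hq]; simp [dotProduct, Fin.sum_univ_three, mulVec_diagonal]; ring
  · rw [hn, mulVec_mulVec, h1, one_mulVec]; simp
  · rw [hq, mulVec_mulVec, h1, one_mulVec]; simp

theorem spec {A : M3} (hA : Aᵀ = A) : ∃ a₁ a₂ a₃, Spec A a₁ a₂ a₃ := by
  obtain ⟨d, h1, h2, h3, h4, h5⟩ := spec0 hA
  have key : ∀ i j k : Fin 3, d i ≤ d j → d j ≤ d k → d 0 + d 1 + d 2 = d i + d j + d k →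
      d 0 ^ 2 + d 1 ^ 2 + d 2 ^ 2 = d i ^ 2 + d j ^ 2 + d k ^ 2 →
      d 0 * d 1 * d 2 = d i * d j * d k → (d i ≤ d 0 ∧ d i ≤ d 1 ∧ d i ≤ d 2) →
      (d 0 ≤ d k ∧ d 1 ≤ d k ∧ d 2 ≤ d k) → ∃ a₁ a₂ a₃, Spec A a₁ a₂ a₃ := by
    intro i j k a b c e f g h
    refine ⟨d i, d j, d k, hA, a, b, h1.trans c, h2.trans e, h3.trans f, fun x => ?_, fun x => ?_,
      h5 i, h5 k⟩
    · obtain ⟨y, e1, e2⟩ := h4 x
      rw [e1, e2]
      linarith only [g, mul_nonneg (sub_nonneg.2 g.1) (sq_nonneg (y 0)),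
        mul_nonneg (sub_nonneg.2 g.2.1) (sq_nonneg (y 1)),
        mul_nonneg (sub_nonneg.2 g.2.2) (sq_nonneg (y 2)), sq_nonneg (y (0 : Fin (3 : ℕ))), sq_nonneg (y (1 : Fin (3 : ℕ))), sq_nonneg (y (2 : Fin (3 : ℕ)))]
    · obtain ⟨y, e1, e2⟩ := h4 x
      rw [e1, e2]
      linarith only [h, mul_nonneg (sub_nonneg.2 h.1) (sq_nonneg (y 0)),
        mul_nonneg (sub_nonneg.2 h.2.1) (sq_nonneg (y 1)),
        mul_nonneg (sub_nonneg.2 h.2.2) (sq_nonneg (y 2)), sq_nonneg (y (0 : Fin (3 : ℕ))), sq_nonneg (y (1 : Fin (3 : ℕ))), sq_nonneg (y (2 : Fin (3 : ℕ)))]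
  rcases le_total (d 0) (d 1) with a | a <;> rcases le_total (d 1) (d 2) with b | b <;>
    rcases le_total (d 0) (d 2) with c | c
  · exact key 0 1 2 a b rfl rfl rfl ⟨le_rfl, a, c⟩ ⟨c, b, le_rfl⟩
  · exact key 0 1 2 a b rfl rfl rfl ⟨le_rfl, a, a.trans b⟩ ⟨a.trans b, b, le_rfl⟩
  · exact key 0 2 1 c b (by ring) (by ring) (by ring) ⟨le_rfl, a, c⟩ ⟨a, le_rfl, b⟩
  · exact key 2 0 1 c a (by ring) (by ring) (by ring) ⟨c, b, le_rfl⟩ ⟨a, le_rfl, b⟩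
  · exact key 1 0 2 a c (by ring) (by ring) (by ring) ⟨a, le_rfl, b⟩ ⟨c, b, le_rfl⟩
  · exact key 1 2 0 b c (by ring) (by ring) (by ring) ⟨a, le_rfl, b⟩ ⟨le_rfl, a, c⟩
  · exact key 2 1 0 b a (by ring) (by ring) (by ring) ⟨b.trans a, b, le_rfl⟩
      ⟨le_rfl, a, b.trans a⟩
  · exact key 2 1 0 b a (by ring) (by ring) (by ring) ⟨c, b, le_rfl⟩ ⟨le_rfl, a, c⟩

theorem null_vec {N : M3} (hN : Nᵀ = N) (h : ∀ x, 0 ≤ qf N x x) {u : V3} (hu : qf N u u = 0) :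
    N *ᵥ u = 0 := by
  have h1 : ∀ t : ℝ, 0 ≤ qf N (N *ᵥ u) (N *ᵥ u) * (t * t) + 2 * ((N *ᵥ u) ⬝ᵥ (N *ᵥ u)) * t + 0 := by
    intro t
    have h2 := h (u + t • N *ᵥ u)
    have h3 : qf N u (N *ᵥ u) = (N *ᵥ u) ⬝ᵥ (N *ᵥ u) := by
      rw [← qf_tr, hN]; rfl
    have h4 : qf N (u + t • N *ᵥ u) (u + t • N *ᵥ u) = qf N u u + t * qf N u (N *ᵥ u) +
        t * qf N (N *ᵥ u) u + t * t * qf N (N *ᵥ u) (N *ᵥ u) := by
      simp only [qf, mulVec_add, mulVec_smul, add_dotProduct, dotProduct_add, smul_dotProduct,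
        dotProduct_smul, smul_eq_mul]
      ring
    have h5 : qf N (N *ᵥ u) u = (N *ᵥ u) ⬝ᵥ (N *ᵥ u) := rfl
    rw [h4, hu, h3, h5] at h2
    linarith only [h2]
  have h6 := discrim_le_zero (a := qf N (N *ᵥ u) (N *ᵥ u)) (b := 2 * ((N *ᵥ u) ⬝ᵥ (N *ᵥ u)))
    (c := 0) h1
  rw [discrim] at h6
  refine dotProduct_self_eq_zero.1 (pow_eq_zero_iff (n := 2) two_ne_zero |>.1 ?_)
  nlinarith [sq_nonneg ((N *ᵥ u) ⬝ᵥ (N *ᵥ u))]

theorem adj_eq (A : M3) : A.adjugate =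
    A * A - A.trace • A + ((A.trace ^ 2 - (A * A).trace) / 2) • (1 : M3) := by
  ext i j
  fin_cases i <;> fin_cases j <;>
    simp [adjugate_fin_three, Matrix.mul_apply, Fin.sum_univ_three, trace] <;>
    ring

theorem qf_eig {A : M3} (hA : Aᵀ = A) {u : V3} (hu : u ⬝ᵥ u = 1) {a : ℝ} (h : A *ᵥ u = a • u) :
    qf (A * A + (2 : ℝ) • A.adjugate) u u =
      3 * a ^ 2 - 2 * A.trace * a + A.trace ^ 2 - (A * A).trace := by
  have h1 : qf (A * A) u u = a ^ 2 := by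
    rw [qf_mul, hA, h, smul_dotProduct, dotProduct_smul, hu]; simp [sq]
  have h2 : qf A u u = a := by rw [qf, h, dotProduct_smul, hu]; simp
  rw [adj_eq, qf_add, qf_smul, qf_add, qf_sub, qf_smul, qf_smul, qf_one, hu, h1, h2]
  ring

namespace Spec

variable {A : M3} {a₁ a₂ a₃ : ℝ}

theorem bot (h : Spec A a₁ a₂ a₃) {u : V3} (hu : u ⬝ᵥ u = 1) (he : qf A u u = a₁) :
    qf (A * A + (2 : ℝ) • A.adjugate) u u = a₁ ^ 2 + 2 * a₂ * a₃ := by
  have h1 := null_vec (N := A - a₁ • (1 : M3)) (by simp [h.symm])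
    (fun x => by rw [qf_sub, qf_smul, qf_one]; linarith only [h, h.lo x]) (u := u)
    (by rw [qf_sub, qf_smul, qf_one, hu, he]; ring)
  rw [sub_mulVec, smul_mulVec, one_mulVec, sub_eq_zero] at h1
  rw [qf_eig h.symm hu h1, h.tr, h.sq]
  ring

theorem top (h : Spec A a₁ a₂ a₃) {u : V3} (hu : u ⬝ᵥ u = 1) (he : qf A u u = a₃) :
    qf (A * A + (2 : ℝ) • A.adjugate) u u = a₃ ^ 2 + 2 * a₁ * a₂ := by
  have h1 := null_vec (N := a₃ • (1 : M3) - A) (by simp [h.symm])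
    (fun x => by rw [qf_sub, qf_smul, qf_one]; linarith only [h, h.hi x]) (u := u)
    (by rw [qf_sub, qf_smul, qf_one, hu, he]; ring)
  rw [sub_mulVec, smul_mulVec, one_mulVec, sub_eq_zero] at h1
  rw [qf_eig h.symm hu h1.symm, h.tr, h.sq]
  ring

theorem lo' (h : Spec A a₁ a₂ a₃) {u : V3} (hu : u ⬝ᵥ u = 1) : a₁ ≤ qf A u u := by
  have := h.lo u; rwa [hu, mul_one] at this

theorem hi' (h : Spec A a₁ a₂ a₃) {u : V3} (hu : u ⬝ᵥ u = 1) : qf A u u ≤ a₃ := by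
  have := h.hi u; rwa [hu, mul_one] at this

theorem eq_bot (h : Spec A a₁ a₂ a₃) {u : V3} (hu : u ⬝ᵥ u = 1)
    (hm : ∀ x : V3, x ⬝ᵥ x = 1 → qf A u u ≤ qf A x x) : qf A u u = a₁ := by
  obtain ⟨x, hx, e⟩ := h.exlo
  exact le_antisymm (e ▸ hm x hx) (h.lo' hu)

theorem eq_top (h : Spec A a₁ a₂ a₃) {u : V3} (hu : u ⬝ᵥ u = 1)
    (hm : ∀ x : V3, x ⬝ᵥ x = 1 → qf A x x ≤ qf A u u) : qf A u u = a₃ := by
  obtain ⟨x, hx, e⟩ := h.exhi
  exact le_antisymm (h.hi' hu) (e ▸ hm x hx)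

end Spec

/-- An operator norm bound from a bound on the bilinear form. -/
theorem opbound {B : M3} {m : ℝ}
    (h : ∀ z w : V3, z ⬝ᵥ z = 1 → w ⬝ᵥ w = 1 → qf B z w ^ 2 ≤ m) {w : V3} (hw : w ⬝ᵥ w = 1) :
    (B *ᵥ w) ⬝ᵥ (B *ᵥ w) ≤ m := by
  obtain ⟨r, z, hz, e⟩ := polar (B *ᵥ w)
  have h1 := h z w hz hw
  rw [qf, e, dotProduct_smul, hz] at h1
  rw [e, smul_dotProduct, dotProduct_smul, hz]
  simpa [sq] using h1

theorem nsq_tr (B : M3) : nsq Bᵀ = nsq B := by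
  rw [nsq, nsq, transpose_transpose, trace_mul_comm]

theorem nsq_nonneg (B : M3) : 0 ≤ nsq B := by
  simp only [nsq, trace, diag_apply, Matrix.mul_apply, transpose_apply]
  exact Finset.sum_nonneg fun _ _ => Finset.sum_nonneg fun _ _ => mul_self_nonneg _

theorem nsq_le {B : M3} {m : ℝ}
    (h : ∀ z w : V3, z ⬝ᵥ z = 1 → w ⬝ᵥ w = 1 → qf B z w ^ 2 ≤ m) : nsq B ≤ 3 * m := by
  have h0 := opbound h (w := Pi.single 0 1) (by simp)
  have h1 := opbound h (w := Pi.single 1 1) (by simp)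
  have h2 := opbound h (w := Pi.single 2 1) (by simp)
  simp [dotProduct, Fin.sum_univ_three] at h0 h1 h2
  simp [nsq, trace, Matrix.mul_apply, Fin.sum_univ_three]
  linarith only [h0, h1, h2]

theorem mulVec_le_nsq (B : M3) {w : V3} (hw : w ⬝ᵥ w = 1) : (B *ᵥ w) ⬝ᵥ (B *ᵥ w) ≤ nsq B := by
  have h : nsq B * (w ⬝ᵥ w) - (B *ᵥ w) ⬝ᵥ (B *ᵥ w) = ∑ i, ((B i 0 * w 1 - B i 1 * w 0) ^ 2 +
      (B i 0 * w 2 - B i 2 * w 0) ^ 2 + (B i 1 * w 2 - B i 2 * w 1) ^ 2) := by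
    simp [nsq, trace, Matrix.mul_apply, dotProduct, mulVec, Fin.sum_univ_three]; ring
  have h2 : 0 ≤ ∑ i, ((B i 0 * w 1 - B i 1 * w 0) ^ 2 +
      (B i 0 * w 2 - B i 2 * w 0) ^ 2 + (B i 1 * w 2 - B i 2 * w 1) ^ 2) := by positivity
  rw [hw] at h
  linarith only [h, h2]

/-- At a maximal pair the vectors are singular vectors. -/
theorem sing {B : M3} {z w : V3} (hz : z ⬝ᵥ z = 1)
    (h : (B *ᵥ w) ⬝ᵥ (B *ᵥ w) ≤ qf B z w ^ 2) : B *ᵥ w = qf B z w • z := by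
  have h1 : (B *ᵥ w - qf B z w • z) ⬝ᵥ (B *ᵥ w - qf B z w • z) =
      (B *ᵥ w) ⬝ᵥ (B *ᵥ w) - qf B z w ^ 2 := by
    have : (B *ᵥ w) ⬝ᵥ z = qf B z w := dotProduct_comm _ _
    have h3 : z ⬝ᵥ (B *ᵥ w) = qf B z w := rfl
    simp only [sub_dotProduct, dotProduct_sub, smul_dotProduct, dotProduct_smul, smul_eq_mul, hz,
      this, h3]
    ring
  rw [← sub_eq_zero]
  exact dotProduct_self_eq_zero.1 (le_antisymm (by linarith only [h, h1]) (dot_nonneg _))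

/-- The cross product matrix. -/
def crs (z : V3) : M3 := !![0, -z 2, z 1; z 2, 0, -z 0; -z 1, z 0, 0]

theorem cof_le (B : M3) {z w : V3} (hz : z ⬝ᵥ z = 1) (hw : w ⬝ᵥ w = 1) :
    4 * |qf B.adjugateᵀ z w| ≤
      2 * nsq B - (Bᵀ *ᵥ z) ⬝ᵥ (Bᵀ *ᵥ z) - (B *ᵥ w) ⬝ᵥ (B *ᵥ w) := by
  have h1 : nsq (crs z * B - B * crs w) = nsq B * (z ⬝ᵥ z) + nsq B * (w ⬝ᵥ w) -
      (Bᵀ *ᵥ z) ⬝ᵥ (Bᵀ *ᵥ z) - (B *ᵥ w) ⬝ᵥ (B *ᵥ w) - 4 * qf B.adjugateᵀ z w := by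
    simp [nsq, crs, qf, trace, Matrix.mul_apply, dotProduct, mulVec, vecMul, Fin.sum_univ_three,
      adjugate_fin_three]
    ring
  have h2 : nsq (crs z * B + B * crs w) = nsq B * (z ⬝ᵥ z) + nsq B * (w ⬝ᵥ w) -
      (Bᵀ *ᵥ z) ⬝ᵥ (Bᵀ *ᵥ z) - (B *ᵥ w) ⬝ᵥ (B *ᵥ w) + 4 * qf B.adjugateᵀ z w := by
    simp [nsq, crs, qf, trace, Matrix.mul_apply, dotProduct, mulVec, vecMul, Fin.sum_univ_three,
      adjugate_fin_three]
    ring
  have h3 := nsq_nonneg (crs z * B - B * crs w)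
  have h4 := nsq_nonneg (crs z * B + B * crs w)
  rw [hz, hw] at h1 h2
  rcases abs_cases (qf B.adjugateᵀ z w) with h | h <;> linarith only [h1, h3, h, h2, h4, h.1]

theorem cof_det {B : M3} {z w : V3} (hw : w ⬝ᵥ w = 1) {g : ℝ} (h : B *ᵥ w = g • z) :
    g * qf B.adjugateᵀ z w = B.det := by
  have h1 : qf (B.adjugate * B) w w = B.det := by
    rw [adjugate_mul, qf_smul, qf_one, hw, mul_one]
  rw [qf_mul, h, dotProduct_smul, smul_eq_mul, dotProduct_comm] at h1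
  exact h1

theorem det_sq_le {B : M3} {m : ℝ} (h : ∀ w : V3, w ⬝ᵥ w = 1 → (B *ᵥ w) ⬝ᵥ (B *ᵥ w) ≤ m)
    {v : V3} (hv : v ⬝ᵥ v = 1) : B.det ^ 2 ≤ m ^ 2 * ((B *ᵥ v) ⬝ᵥ (B *ᵥ v)) := by
  obtain ⟨m₁, m₂, m₃, hs⟩ := spec (A := Bᵀ * B) (by simp)
  have hq : ∀ x : V3, qf (Bᵀ * B) x x = (B *ᵥ x) ⬝ᵥ (B *ᵥ x) := fun x => by
    rw [qf_mul, transpose_transpose]
  have h0 : 0 ≤ m₁ := by
    obtain ⟨x, -, e⟩ := hs.exlo
    rw [← e, hq]; exact dot_nonneg _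
  have h3 : m₃ ≤ m := by
    obtain ⟨x, hx, e⟩ := hs.exhi
    rw [← e, hq]; exact h x hx
  have h1 := hs.lo' hv
  rw [hq] at h1
  have hd := hs.det
  rw [det_mul, det_transpose] at hd
  have h2 : 0 ≤ m₂ := h0.trans hs.le₁
  have h4 : m₂ * m₃ ≤ m ^ 2 := by
    rw [sq]; exact mul_le_mul (hs.le₂.trans h3) h3 (h2.trans hs.le₂) (h2.trans (hs.le₂.trans h3))
  calc B.det ^ 2 = m₂ * m₃ * m₁ := by rw [sq, hd]; ring
    _ ≤ _ := mul_le_mul h4 h1 h0 (sq_nonneg _)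

end

end Pool.Agent.Work.MP_3a9764_gt.Four
end

-- merged part: Pool.Agent.Work.MP_3a9764_gt.FourAlg
section
/-! Transversality of Hamilton's cones for the blocks of the curvature operator. -/

set_option autoImplicit false

open Matrix

namespace Pool.Agent.Work.MP_3a9764_gt.Four

noncomputable section

/-- The diagonal block of the reaction term. -/
def QA (A B : M3) : M3 := A * A + (2 : ℝ) • A.adjugate + B * Bᵀ

/-- The off-diagonal block of the reaction term. -/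
def QB (A B C : M3) : M3 := A * B + B * C + (2 : ℝ) • B.adjugateᵀ

/-- The matrix `tr A - A`. -/
def til (A : M3) : M3 := A.trace • (1 : M3) - A

/-- The functionals that cut out the cone `μ ^ 2 |B| ^ 2 ≤ (min X) (min Y)`. -/
def cr (μ : ℝ) (X Y B : M3) (p : Fin 2 → ℝ) (u v z w : V3) : ℝ :=
  p 0 ^ 2 * qf X u u + p 1 ^ 2 * qf Y v v + 2 * μ * (p 0 * p 1) * qf B z w

/-- The cone `μ ^ 2 |B| ^ 2 ≤ (min X) (min Y)`. -/
def Cross (μ : ℝ) (X Y B : M3) : Prop :=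
  ∀ (p : Fin 2 → ℝ) (u v z w : V3), p ⬝ᵥ p = 1 → u ⬝ᵥ u = 1 → v ⬝ᵥ v = 1 → z ⬝ᵥ z = 1 →
    w ⬝ᵥ w = 1 → 0 ≤ cr μ X Y B p u v z w

theorem qf_til (A : M3) {u : V3} (hu : u ⬝ᵥ u = 1) : qf (til A) u u = A.trace - qf A u u := by
  rw [til, qf_sub, qf_smul, qf_one, hu, mul_one]

theorem trace_QA (A B : M3) : (QA A B).trace = A.trace ^ 2 + nsq B := by
  simp [QA, nsq, trace, Matrix.mul_apply, Fin.sum_univ_three, adjugate_fin_three]
  ring

theorem qf_QA (A B : M3) (u : V3) : qf (QA A B) u u =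
    qf (A * A + (2 : ℝ) • A.adjugate) u u + (Bᵀ *ᵥ u) ⬝ᵥ (Bᵀ *ᵥ u) := by
  rw [QA, qf_add _ (B * Bᵀ), qf_mul]

theorem Cross.sq_le {μ : ℝ} {X Y B : M3} (h : Cross μ X Y B) {u v z w : V3} (hu : u ⬝ᵥ u = 1)
    (hv : v ⬝ᵥ v = 1) (hz : z ⬝ᵥ z = 1) (hw : w ⬝ᵥ w = 1) :
    μ ^ 2 * qf B z w ^ 2 ≤ qf X u u * qf Y v v := by
  have h1 : ∀ t : ℝ, 0 ≤ qf X u u * (t * t) + 2 * μ * qf B z w * t + qf Y v v := fun t => by
    obtain ⟨r, p, hp, e⟩ := polar (n := 1) ![t, 1]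
    have e0 : t = r * p 0 := congrFun e 0
    have e1 : (1 : ℝ) = r * p 1 := congrFun e 1
    have h2 := mul_nonneg (sq_nonneg r) (h p u v z w hp hu hv hz hw)
    have h3 : r ^ 2 * cr μ X Y B p u v z w = qf X u u * ((r * p 0) * (r * p 0)) +
        2 * μ * qf B z w * (r * p 0) * (r * p 1) + qf Y v v * (r * p 1) ^ 2 := by
      rw [cr]; ring
    rw [h3, ← e0, ← e1] at h2
    linarith only [h2]
  have h4 := discrim_le_zero h1
  rw [discrim] at h4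
  linarith only [h4]

theorem Cross.swap {μ : ℝ} {X Y B : M3} (h : Cross μ X Y B) : Cross μ Y X Bᵀ := by
  intro p u v z w hp hu hv hz hw
  have h1 := h ![p 1, p 0] v u w z (by
    simp only [dotProduct, Fin.sum_univ_two] at hp ⊢
    simpa [add_comm] using hp) hv hu hw hz
  simp only [cr, cons_val_zero, cons_val_one, qf_tr] at h1 ⊢
  linarith only [h1]

/-- The first order conditions at a point where the boundary of the cone is touched. -/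
theorem touch {μ : ℝ} (hμ : 0 < μ) {X Y B : M3} (h : Cross μ X Y B) {p : Fin 2 → ℝ}
    {u v z w : V3} (hp : p ⬝ᵥ p = 1) (hu : u ⬝ᵥ u = 1) (hv : v ⬝ᵥ v = 1) (hz : z ⬝ᵥ z = 1)
    (hw : w ⬝ᵥ w = 1) (hx : 0 < qf X u u) (hy : 0 < qf Y v v) (h0 : cr μ X Y B p u v z w = 0) :
    (∀ t : V3, t ⬝ᵥ t = 1 → qf X u u ≤ qf X t t) ∧ (∀ t : V3, t ⬝ᵥ t = 1 → qf Y v v ≤ qf Y t t) ∧
    qf X u u * qf Y v v = μ ^ 2 * qf B z w ^ 2 ∧
    (∀ z' w' : V3, z' ⬝ᵥ z' = 1 → w' ⬝ᵥ w' = 1 → qf B z' w' ^ 2 ≤ qf B z w ^ 2) ∧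
    ∀ a b c d : ℝ, 2 * c * qf B z w = d * qf B z w ^ 2 → d < a / qf X u u + b / qf Y v v →
      0 < p 0 ^ 2 * a + p 1 ^ 2 * b + 2 * μ * (p 0 * p 1) * c := by
  have hs := h.sq_le hu hv hz hw
  have hp' : p 0 ^ 2 + p 1 ^ 2 = 1 := by
    simpa [dotProduct, Fin.sum_univ_two, sq] using hp
  rw [cr] at h0
  set x := qf X u u
  set y := qf Y v v
  set g := qf B z w
  have h1 : p 0 ^ 2 * x = p 1 ^ 2 * y := by
    have h2 := mul_le_mul_of_nonneg_left hs (sq_nonneg (p 0 * p 1))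
    have h3 : (p 0 ^ 2 * x - p 1 ^ 2 * y) ^ 2 =
        4 * ((p 0 * p 1) ^ 2 * (μ ^ 2 * g ^ 2) - (p 0 * p 1) ^ 2 * (x * y)) := by
      have : p 0 ^ 2 * x + p 1 ^ 2 * y = -(2 * μ * (p 0 * p 1) * g) := by linarith only [h0]
      calc _ = (p 0 ^ 2 * x + p 1 ^ 2 * y) ^ 2 - 4 * ((p 0 * p 1) ^ 2 * (x * y)) := by ring
        _ = _ := by rw [this]; ring
    exact sub_eq_zero.1 (pow_eq_zero_iff (n := 2) two_ne_zero |>.1
      (le_antisymm (by linarith only [h2, h3]) (sq_nonneg _)))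
  have hk : 0 < p 0 ^ 2 * x := by
    have h2 : 0 < p 0 ^ 2 * x + p 1 ^ 2 * y := by
      rcases (sq_nonneg (p 0)).eq_or_lt with e | e
      · have : p 1 ^ 2 = 1 := by linarith only [hp', e]
        rw [← e, this]; linarith only [hy]
      · have := mul_pos e hx
        have := mul_nonneg (sq_nonneg (p 1)) hy.le
        linarith
    linarith only [h1, h2]
  have hp0 : 0 < p 0 ^ 2 := pos_of_mul_pos_left hk hx.le
  have hp1 : 0 < p 1 ^ 2 := pos_of_mul_pos_left (h1 ▸ hk) hy.le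
  have hg : μ * (p 0 * p 1) * g = -(p 0 ^ 2 * x) := by linarith only [h0, h1]
  have hxy : x * y = μ ^ 2 * g ^ 2 := by
    have h2 : (p 0 ^ 2 * p 1 ^ 2) * (x * y) = (p 0 ^ 2 * p 1 ^ 2) * (μ ^ 2 * g ^ 2) := by
      calc _ = (p 0 ^ 2 * x) * (p 1 ^ 2 * y) := by ring
        _ = (μ * (p 0 * p 1) * g) ^ 2 := by rw [hg, ← h1]; ring
        _ = _ := by ring
    exact mul_left_cancel₀ (mul_pos hp0 hp1).ne' h2
  refine ⟨fun t ht => ?_, fun t ht => ?_, hxy, fun z' w' hz' hw' => ?_, fun a b c d hc hd => ?_⟩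
  · have h2 := h p t v z w hp ht hv hz hw
    rw [cr] at h2
    exact le_of_mul_le_mul_left (by linarith only [h0, h2]) hp0
  · have h2 := h p u t z w hp hu ht hz hw
    rw [cr] at h2
    exact le_of_mul_le_mul_left (by linarith only [h0, h2]) hp1
  · have h2 := h.sq_le hu hv hz' hw'
    exact le_of_mul_le_mul_left (h2.trans hxy.le) (by positivity)
  · have hg0 : g ≠ 0 := by
      rintro e
      rw [e] at hg
      linarith only [hk, hg]
    have e1 : p 0 ^ 2 * a = p 0 ^ 2 * x * (a / x) := by field_simp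
    have e2 : p 1 ^ 2 * b = p 0 ^ 2 * x * (b / y) := by rw [h1]; field_simp
    have e3 : 2 * c = d * g := mul_right_cancel₀ hg0 (by rw [hc]; ring)
    have e4 : 2 * μ * (p 0 * p 1) * c = -(p 0 ^ 2 * x * d) := by
      calc _ = μ * (p 0 * p 1) * (2 * c) := by ring
        _ = μ * (p 0 * p 1) * g * d := by rw [e3]; ring
        _ = _ := by rw [hg]; ring
    have := mul_pos hk (sub_pos.2 hd)
    rw [e1, e2, e4]
    linarith only [this]

/-- The off-diagonal block at a maximal pair of singular vectors. -/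
theorem sing_data {A B C : M3} (hA : Aᵀ = A) {z w : V3} (hz : z ⬝ᵥ z = 1) (hw : w ⬝ᵥ w = 1)
    (h : ∀ z' w' : V3, z' ⬝ᵥ z' = 1 → w' ⬝ᵥ w' = 1 → qf B z' w' ^ 2 ≤ qf B z w ^ 2) :
    (∀ t : V3, t ⬝ᵥ t = 1 → (B *ᵥ t) ⬝ᵥ (B *ᵥ t) ≤ qf B z w ^ 2) ∧
    (∀ t : V3, t ⬝ᵥ t = 1 → (Bᵀ *ᵥ t) ⬝ᵥ (Bᵀ *ᵥ t) ≤ qf B z w ^ 2) ∧
    qf (QB A B C) z w = qf B z w * (qf A z z + qf C w w) + 2 * qf B.adjugateᵀ z w ∧
    2 * |qf B.adjugateᵀ z w| ≤ nsq B - qf B z w ^ 2 ∧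
    qf B z w * qf B.adjugateᵀ z w = B.det := by
  have h1 : ∀ t : V3, t ⬝ᵥ t = 1 → (B *ᵥ t) ⬝ᵥ (B *ᵥ t) ≤ qf B z w ^ 2 :=
    fun t ht => opbound h ht
  have h2 : ∀ t : V3, t ⬝ᵥ t = 1 → (Bᵀ *ᵥ t) ⬝ᵥ (Bᵀ *ᵥ t) ≤ qf B z w ^ 2 :=
    fun t ht => opbound (fun a b ha hb => by rw [qf_tr]; exact h b a hb ha) ht
  have h3 : B *ᵥ w = qf B z w • z := sing hz (h1 w hw)
  have h4 : Bᵀ *ᵥ z = qf B z w • w := by
    have := sing (B := Bᵀ) (z := w) (w := z) hw (by rw [qf_tr]; exact h2 z hz)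
    rwa [qf_tr] at this
  refine ⟨h1, h2, ?_, ?_, cof_det hw h3⟩
  · have e1 : (A *ᵥ z) ⬝ᵥ z = qf A z z := dotProduct_comm _ _
    have e2 : w ⬝ᵥ (C *ᵥ w) = qf C w w := rfl
    rw [QB, qf_add, qf_add, qf_smul, qf_mul, qf_mul, hA, h3, h4, dotProduct_smul, smul_dotProduct,
      e1, e2, smul_eq_mul, smul_eq_mul]
    ring
  · have h5 := cof_le B hz hw
    rw [h3, h4, smul_dotProduct, dotProduct_smul, smul_dotProduct, dotProduct_smul, hz, hw] at h5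
    simp only [smul_eq_mul, mul_one] at h5
    linarith only [h5]

theorem trans_theta {A B C : M3} (hA : Aᵀ = A) (hC : Cᵀ = C) (htr : C.trace = A.trace)
    {θ μ : ℝ} (hθ : 0 < θ) (hμ : 0 < μ) (hθμ : θ * (4 + 9 * μ ^ 2) < 6 * μ ^ 2)
    (hs : 0 < A.trace) (hX : Cross μ (til A) (til C) B)
    (hall : ∀ t : V3, t ⬝ᵥ t = 1 → qf A t t ≤ (1 - θ) * A.trace) {u : V3} (hu : u ⬝ᵥ u = 1)
    (he : qf A u u = (1 - θ) * A.trace) :
    qf (QA A B) u u < (1 - θ) * (QA A B).trace := by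
  obtain ⟨a₁, a₂, a₃, ha⟩ := spec hA
  obtain ⟨c₁, c₂, c₃, hc⟩ := spec hC
  have h3 := ha.eq_top hu fun x hx => he ▸ hall x hx
  obtain ⟨v, hv, ev⟩ := hc.exhi
  have hm2 : 0 < μ ^ 2 := by positivity
  have hb : (Bᵀ *ᵥ u) ⬝ᵥ (Bᵀ *ᵥ u) ≤ θ * A.trace * (2 / 3 * A.trace) / μ ^ 2 := by
    refine opbound (fun z w hz hw => ?_) hu
    have h1 := hX.sq_le hu hv hw hz
    rw [qf_til A hu, qf_til C hv, he, ev] at h1
    rw [qf_tr, le_div_iff₀ hm2]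
    have h2 : C.trace - c₃ ≤ 2 / 3 * A.trace := by
      have := hc.tr; have := hc.le₁; have := hc.le₂; linarith
    have h4 := mul_le_mul_of_nonneg_left h2 (mul_pos hθ hs).le
    linarith only [h1, h4]
  rw [le_div_iff₀ hm2] at hb
  have hn := mulVec_le_nsq Bᵀ hu
  rw [nsq_tr] at hn
  rw [qf_QA, ha.top hu h3, trace_QA]
  set β := (Bᵀ *ᵥ u) ⬝ᵥ (Bᵀ *ᵥ u)
  set s := A.trace
  have e3 : a₃ = (1 - θ) * s := h3 ▸ he
  have e12 : a₁ + a₂ = θ * s := by have := ha.tr; linarith only [h3, he, this]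
  have hθ1 : θ < 2 / 3 := by (refine lt_of_not_ge fun h_nl => ?_; linarith only [h_nl, hθ, hθμ, mul_nonneg_of_nonpos_of_nonpos (Mathlib.Tactic.Linarith.sub_nonpos_of_le (sq_nonneg μ)) (Mathlib.Tactic.Linarith.sub_nonpos_of_le h_nl)])
  have h5 : 2 * a₁ * a₂ ≤ (θ * s) ^ 2 / 2 := by rw [← e12]; linarith only [sq_nonneg (a₁ - a₂), sq_nonneg (a₁ - a₂)]
  have h6 : β < (1 - 3 / 2 * θ) * s ^ 2 := by
    refine lt_of_mul_lt_mul_right (hb.trans_lt ?_) hm2.le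
    have := mul_pos (sub_pos.2 hθμ) (pow_pos hs 2)
    linarith only [this]
  have h7 := mul_lt_mul_of_pos_left h6 hθ
  have h8 := mul_le_mul_of_nonneg_left hn (by linarith only [hθ, hθ1] : 0 ≤ 1 - θ)
  rw [e3]
  linarith only [h5, h7, h8]

theorem num_lam {x y G N r μ : ℝ} (hx : 0 < x) (hy : 0 < y) (hG : 0 < G) (hμ : 0 < μ)
    (hμ2 : μ < 2) (hxy : x * y = μ ^ 2 * G ^ 2) (hN0 : 0 ≤ N) (hN : N ≤ 2 * G ^ 2)
    (hr : 2 * (r * G) ≤ N) : 4 * r < x / 2 + N / x + (y / 2 + N / y) := by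
  have h1 : 2 * (μ * G) ≤ x + y := by
    refine abs_le_of_sq_le_sq' ?_ (by linarith only [hx, hy]) |>.2
    linarith only [hxy, sq_nonneg (x - y), sq_nonneg (x - y)]
  have h2 : N / x + N / y = N * (x + y) / (μ * G) ^ 2 := by
    rw [mul_pow, ← hxy]; field_simp; ring
  have hm : 0 < μ * G := mul_pos hμ hG
  have h3 : 2 * N / (μ * G) ≤ N * (x + y) / (μ * G) ^ 2 := by
    rw [div_le_div_iff₀ hm (by positivity)]
    linarith only [h1, hN0, hm, mul_le_mul_of_nonneg_left h1 (mul_nonneg hN0 hm.le)]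
  have h4 : 4 * r < μ * G + 2 * N / (μ * G) := by
    rw [← sub_lt_iff_lt_add', lt_div_iff₀ hm]
    have h5 := mul_le_mul_of_nonneg_left hr hμ.le
    have h6 : 2 * N * (μ - 1) < (μ * G) ^ 2 := by
      rcases le_total μ 1 with h | h
      · linarith only [hN0, h, hm, mul_nonneg hN0 (sub_nonneg.2 h), pow_pos hm 2]
      · have := mul_le_mul_of_nonneg_right hN (sub_nonneg.2 h)
        have := mul_pos (pow_pos (sub_pos.2 hμ2) 2) (pow_pos hG 2)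
        nlinarith
    linarith only [h5, h6]
  linarith only [h1, h2, h3, h4]

theorem til_aux {A B : M3} {a₁ a₂ a₃ : ℝ} (ha : Spec A a₁ a₂ a₃) {u : V3} (hu : u ⬝ᵥ u = 1)
    (hm : ∀ t : V3, t ⬝ᵥ t = 1 → qf (til A) u u ≤ qf (til A) t t) (hx : 0 < qf (til A) u u)
    {m : ℝ} (hb : (Bᵀ *ᵥ u) ⬝ᵥ (Bᵀ *ᵥ u) ≤ m) :
    2 * a₃ + (qf (til A) u u / 2 + (nsq B - m) / qf (til A) u u) ≤
      qf (til (QA A B)) u u / qf (til A) u u := by
  have h3 := ha.eq_top hu fun x hx => by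
    have := hm x hx
    rw [qf_til A hu, qf_til A hx] at this
    linarith
  have e : qf (til A) u u = a₁ + a₂ := by rw [qf_til A hu, h3, ha.tr]; ring
  rw [le_div_iff₀ hx, add_mul, add_mul, div_mul_cancel₀ _ hx.ne', e, qf_til _ hu, qf_QA,
    ha.top hu h3, trace_QA, ha.tr]
  linarith only [hb, sq_nonneg (a₁ - a₂), sq_nonneg (a₁ - a₂)]

theorem trans_lam {A B C : M3} (hA : Aᵀ = A) (hC : Cᵀ = C) {μ : ℝ} (hμ : 0 < μ) (hμ2 : μ < 2)
    (hX : Cross μ (til A) (til C) B) {p : Fin 2 → ℝ} {u v z w : V3} (hp : p ⬝ᵥ p = 1)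
    (hu : u ⬝ᵥ u = 1) (hv : v ⬝ᵥ v = 1) (hz : z ⬝ᵥ z = 1) (hw : w ⬝ᵥ w = 1)
    (hx : 0 < qf (til A) u u) (hy : 0 < qf (til C) v v)
    (h0 : cr μ (til A) (til C) B p u v z w = 0) :
    0 < cr μ (til (QA A B)) (til (QA C Bᵀ)) (QB A B C) p u v z w := by
  obtain ⟨a₁, a₂, a₃, ha⟩ := spec hA
  obtain ⟨c₁, c₂, c₃, hc⟩ := spec hC
  obtain ⟨t1, t2, t3, t4, t5⟩ := touch hμ hX hp hu hv hz hw hx hy h0
  obtain ⟨s1, s2, s3, s4, -⟩ := sing_data (C := C) hA hz hw t4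
  have hg : qf B z w ≠ 0 := by
    intro e
    rw [e] at t3
    have := mul_pos hx hy
    linarith only [t3, this]
  have k1 := til_aux (B := B) ha hu t1 hx (s2 u hu)
  have k2 := til_aux (B := Bᵀ) (m := qf B z w ^ 2) hc hv t2 hy
    (by rw [transpose_transpose]; exact s1 v hv)
  rw [nsq_tr] at k2
  have k3 := num_lam (G := |qf B z w|) (N := nsq B - qf B z w ^ 2)
    (r := qf B.adjugateᵀ z w / qf B z w) hx hy (abs_pos.2 hg) hμ hμ2 (by rw [sq_abs]; exact t3)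
    (by linarith only [s4, abs_nonneg (qf B.adjugateᵀ z w)])
    (by rw [sq_abs]; linarith only [t4, nsq_le t4])
    (by
      have : qf B.adjugateᵀ z w / qf B z w * |qf B z w| ≤ |qf B.adjugateᵀ z w| := by
        refine (le_abs_self _).trans (le_of_eq ?_)
        rw [abs_mul, abs_div, abs_abs, div_mul_cancel₀ _ (abs_ne_zero.2 hg)]
      linarith only [s4, this])
  refine t5 _ _ _ (2 * (qf A z z + qf C w w) + 4 * (qf B.adjugateᵀ z w / qf B z w)) ?_ ?_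
  · rw [s3]; field_simp; ring
  · linarith only [k1, k2, k3, ha, hz, hc, hw, ha.hi' hz, hc.hi' hw]

theorem trans_sigma {A B C : M3} (hA : Aᵀ = A) (hC : Cᵀ = C) (htr : C.trace = A.trace)
    {θ σ : ℝ} (hθ : 0 < θ) (hσ : σ ≤ θ / 5) (hs : 0 < A.trace) (hX : Cross 2 (til A) (til C) B)
    (hθA : ∀ t : V3, t ⬝ᵥ t = 1 → qf A t t ≤ (1 - θ) * A.trace)
    (hall : ∀ t : V3, t ⬝ᵥ t = 1 → σ * A.trace ≤ qf A t t) {u : V3} (hu : u ⬝ᵥ u = 1)
    (he : qf A u u = σ * A.trace) :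
    σ * (QA A B).trace < qf (QA A B) u u := by
  obtain ⟨a₁, a₂, a₃, ha⟩ := spec hA
  obtain ⟨c₁, c₂, c₃, hc⟩ := spec hC
  have h1 := ha.eq_bot hu fun x hx => he ▸ hall x hx
  obtain ⟨v, hv, ev⟩ := hc.exhi
  obtain ⟨u', hu', eu⟩ := ha.exhi
  have h2 := hθA u' hu'
  rw [eu] at h2
  have := ha.tr; have := ha.le₁; have := ha.le₂
  have := hc.tr; have := hc.le₁; have := hc.le₂
  have hθs := mul_pos hθ hs
  have hn : nsq B ≤ 3 * (A.trace ^ 2 / 9) := nsq_le fun z w hz hw => by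
    have h3 := hX.sq_le hu' hv hz hw
    rw [qf_til A hu', qf_til C hv, eu, ev] at h3
    have h4 : (A.trace - a₃) * (C.trace - c₃) ≤ (A.trace - a₃) * (2 / 3 * A.trace) :=
      mul_le_mul_of_nonneg_left (by linarith) (by linarith only [h2, hθs])
    have h5 : (A.trace - a₃) * (2 / 3 * A.trace) ≤ (2 / 3 * A.trace) * (2 / 3 * A.trace) :=
      mul_le_mul_of_nonneg_right (by linarith) (by linarith only [hs])
    linarith only [h3, h4, h5]
  have h6 : (θ * A.trace / 2) * (A.trace / 3) ≤ a₂ * a₃ :=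
    mul_le_mul (by linarith) (by linarith) (by linarith only [hs]) (by linarith)
  have h7 := mul_le_mul_of_nonneg_right hσ (add_nonneg (sq_nonneg A.trace) (nsq_nonneg B))
  have h8 := mul_le_mul_of_nonneg_left hn hθ.le
  have h9 := mul_pos hθs hs
  rw [qf_QA, ha.bot hu h1, trace_QA]
  linarith only [h6, h7, h8, h9, sq_nonneg a₁, dot_nonneg (Bᵀ *ᵥ u), sq_nonneg a₁]

theorem bot_aux {A B : M3} {a₁ a₂ a₃ : ℝ} (ha : Spec A a₁ a₂ a₃) {u : V3} (hu : u ⬝ᵥ u = 1)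
    (h1 : qf A u u = a₁) (hx : 0 < a₁) {r : ℝ} (hb : r ^ 2 ≤ (Bᵀ *ᵥ u) ⬝ᵥ (Bᵀ *ᵥ u)) :
    2 * a₃ + 2 * r + 2 * (a₂ - a₁) ≤ qf (QA A B) u u / a₁ := by
  rw [le_div_iff₀ hx, qf_QA, ha.bot hu h1]
  linarith only [hb, ha, sq_nonneg (a₁ - r), mul_nonneg (sub_nonneg.2 ha.le₁)
    (sub_nonneg.2 (ha.le₁.trans ha.le₂)), sq_nonneg (a₁ - r)]

theorem trans_H {A B C : M3} (hA : Aᵀ = A) (hC : Cᵀ = C) {μ : ℝ} (hμ : 0 < μ) (hμ1 : μ < 1)
    (hX2 : Cross 2 (til A) (til C) B) (hX : Cross μ A C B) {p : Fin 2 → ℝ} {u v z w : V3}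
    (hp : p ⬝ᵥ p = 1) (hu : u ⬝ᵥ u = 1) (hv : v ⬝ᵥ v = 1) (hz : z ⬝ᵥ z = 1) (hw : w ⬝ᵥ w = 1)
    (hx : 0 < qf A u u) (hy : 0 < qf C v v) (h0 : cr μ A C B p u v z w = 0) :
    0 < cr μ (QA A B) (QA C Bᵀ) (QB A B C) p u v z w := by
  obtain ⟨a₁, a₂, a₃, ha⟩ := spec hA
  obtain ⟨c₁, c₂, c₃, hc⟩ := spec hC
  obtain ⟨t1, t2, t3, t4, t5⟩ := touch hμ hX hp hu hv hz hw hx hy h0
  obtain ⟨s1, s2, s3, -, s5⟩ := sing_data (C := C) hA hz hw t4
  have e1 := ha.eq_bot hu t1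
  have e2 := hc.eq_bot hv t2
  rw [e1] at hx
  rw [e2] at hy
  rw [e1, e2] at t3 t5
  have hg : qf B z w ≠ 0 := by
    intro e
    rw [e] at t3
    have := mul_pos hx hy
    linarith only [t3, this]
  have hg2 : 0 < qf B z w ^ 2 := by positivity
  have hr : ∀ β : ℝ, B.det ^ 2 ≤ (qf B z w ^ 2) ^ 2 * β →
      (qf B.adjugateᵀ z w / qf B z w) ^ 2 ≤ β := fun β h => by
    rw [div_pow, div_le_iff₀ hg2]
    rw [← s5] at h
    exact le_of_mul_le_mul_left (by linarith only [h]) hg2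
  have k1 := bot_aux (B := B) ha hu e1 hx (hr _ (by
    have := det_sq_le s2 hu
    rwa [det_transpose] at this))
  have k2 := bot_aux (B := Bᵀ) hc hv e2 hy (hr _ (by
    rw [transpose_transpose]; exact det_sq_le s1 hv))
  have k3 : 0 < (a₂ - a₁) + (c₂ - c₁) := by
    by_contra hcon
    have l1 := ha.le₁
    have l2 := hc.le₁
    obtain ⟨u', hu', eu⟩ := ha.exhi
    obtain ⟨v', hv', ev⟩ := hc.exhi
    have h3 := hX2.sq_le hu' hv' hz hw
    rw [qf_til A hu', qf_til C hv', eu, ev, ha.tr, hc.tr,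
      show a₂ = a₁ by linarith only [l1, hcon, l2], show c₂ = c₁ by linarith only [l2, hcon, l1]] at h3
    have := mul_pos hg2 (show 0 < 1 - μ ^ 2 by linarith only [hμ1, hμ, mul_pos_of_neg_of_neg (Mathlib.Tactic.Linarith.sub_neg_of_lt hμ) (Mathlib.Tactic.Linarith.sub_neg_of_lt hμ1)])
    linarith only [t3, h3, this]
  refine t5 _ _ _ (2 * (qf A z z + qf C w w) + 4 * (qf B.adjugateᵀ z w / qf B z w)) ?_ ?_
  · rw [s3]; field_simp; ring
  · linarith only [k1, k2, k3, ha, hz, hc, hw, ha.hi' hz, hc.hi' hw]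

/-- Size of the blocks inside the first cone. -/
theorem size_le {A B C : M3} (hA : Aᵀ = A) (hC : Cᵀ = C) (htr : C.trace = A.trace)
    {θ μ : ℝ} (hθ : 0 < θ) (hθ1 : θ < 2 / 3) (hμ : 0 < μ) (hX : Cross μ (til A) (til C) B)
    (hθA : ∀ t : V3, t ⬝ᵥ t = 1 → qf A t t ≤ (1 - θ) * A.trace)
    (hθC : ∀ t : V3, t ⬝ᵥ t = 1 → qf C t t ≤ (1 - θ) * C.trace) :
    0 ≤ A.trace ∧
      4 * ((A * A).trace + 2 * nsq B + (C * C).trace) ≤ ((5 + 4 / μ) * A.trace) ^ 2 := by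
  obtain ⟨a₁, a₂, a₃, ha⟩ := spec hA
  obtain ⟨c₁, c₂, c₃, hc⟩ := spec hC
  obtain ⟨v, hv, ev⟩ := hc.exhi
  obtain ⟨u, hu, eu⟩ := ha.exhi
  have h1 := hθA u hu
  have h2 := hθC v hv
  rw [eu] at h1
  rw [ev, htr] at h2
  have := ha.tr; have := ha.le₁; have := ha.le₂
  have := hc.tr; have := hc.le₁; have := hc.le₂
  have hs : 0 ≤ A.trace := by
    by_contra h
    have := mul_pos (sub_pos.2 hθ1) (neg_pos.2 (not_le.1 h))
    nlinarith
  have hθs := mul_nonneg hθ.le hs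
  have hn : nsq B ≤ 3 * (4 / 9 * (A.trace / μ) ^ 2) := nsq_le fun z w hz hw => by
    have h3 := hX.sq_le hu hv hz hw
    rw [qf_til A hu, qf_til C hv, eu, ev] at h3
    have h4 : (A.trace - a₃) * (C.trace - c₃) ≤ (A.trace - a₃) * (2 / 3 * A.trace) :=
      mul_le_mul_of_nonneg_left (by linarith) (by linarith only [h1, hθs])
    have h5 : (A.trace - a₃) * (2 / 3 * A.trace) ≤ (2 / 3 * A.trace) * (2 / 3 * A.trace) :=
      mul_le_mul_of_nonneg_right (by linarith) (by linarith only [hs])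
    rw [div_pow, ← mul_div_assoc, le_div_iff₀ (by positivity)]
    linarith only [h3, h4, h5]
  have b : ∀ x : ℝ, -A.trace ≤ x → x ≤ A.trace → x ^ 2 ≤ A.trace ^ 2 := fun x h h' => sq_le_sq' h h'
  have b1 := b a₁ (by linarith) (by linarith)
  have b2 := b a₂ (by linarith) (by linarith)
  have b3 := b a₃ (by linarith) (by linarith only [h1, hθs])
  have b4 := b c₁ (by linarith) (by linarith)
  have b5 := b c₂ (by linarith) (by linarith only [h2, this, hθs])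
  have b6 := b c₃ (by linarith) (by linarith only [h2, hθs])
  refine ⟨hs, ?_⟩
  have e : (5 + 4 / μ) * A.trace = 5 * A.trace + 4 * (A.trace / μ) := by ring
  have := mul_nonneg hs (div_nonneg hs hμ.le)
  rw [ha.sq, hc.sq, e]
  linarith only [hn, b1, b2, b3, b4, b5, b6, this, sq_nonneg A.trace, sq_nonneg (A.trace / μ), sq_nonneg ((1 : ℝ) * (trace A / μ)), sq_nonneg ((1 : ℝ) * (5 : ℝ) * ((1 : ℝ) * trace A) + (1 : ℝ) * (4 : ℝ) * ((1 : ℝ) * (trace A / μ)))]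

/-- The start of the last family of cones. -/
theorem cross_start {A B C : M3} (hA : Aᵀ = A) (hC : Cᵀ = C) (htr : C.trace = A.trace)
    {θ σ : ℝ} (hθ : 0 < θ) (hσ : 0 ≤ σ) (hs : 0 ≤ A.trace) (hX : Cross 2 (til A) (til C) B)
    (hθA : ∀ t : V3, t ⬝ᵥ t = 1 → qf A t t ≤ (1 - θ) * A.trace)
    (h1 : ∀ t : V3, t ⬝ᵥ t = 1 → σ * A.trace ≤ qf A t t)
    (h2 : ∀ t : V3, t ⬝ᵥ t = 1 → σ * C.trace ≤ qf C t t) : Cross σ A C B := by
  obtain ⟨a₁, a₂, a₃, ha⟩ := spec hA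
  obtain ⟨c₁, c₂, c₃, hc⟩ := spec hC
  obtain ⟨v', hv', ev⟩ := hc.exhi
  obtain ⟨u', hu', eu⟩ := ha.exhi
  have k := hθA u' hu'
  rw [eu] at k
  have := ha.tr; have := ha.le₁; have := ha.le₂
  have := hc.tr; have := hc.le₁; have := hc.le₂
  have hθs := mul_nonneg hθ.le hs
  intro p u v z w hp hu hv hz hw
  have h3 := hX.sq_le hu' hv' hz hw
  rw [qf_til A hu', qf_til C hv', eu, ev] at h3
  have h4 : (A.trace - a₃) * (C.trace - c₃) ≤ (A.trace - a₃) * A.trace :=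
    mul_le_mul_of_nonneg_left (by linarith) (by linarith only [k, hθs])
  have h5 : (A.trace - a₃) * A.trace ≤ A.trace * A.trace :=
    mul_le_mul_of_nonneg_right (by linarith) hs
  obtain ⟨h6, h7⟩ := abs_le_of_sq_le_sq' (show qf B z w ^ 2 ≤ A.trace ^ 2 by linarith only [h3, h4, h5, mul_self_nonneg (trace A)]) hs
  have k1 := mul_le_mul_of_nonneg_left (h1 u hu) (sq_nonneg (p 0))
  have k2 := mul_le_mul_of_nonneg_left (h2 v hv) (sq_nonneg (p 1))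
  have k3 := mul_nonneg hσ (mul_nonneg (sq_nonneg (p 0 + p 1)) (by linarith only [h6] : 0 ≤ A.trace + qf B z w))
  have k4 := mul_nonneg hσ (mul_nonneg (sq_nonneg (p 0 - p 1)) (by linarith only [h7] : 0 ≤ A.trace - qf B z w))
  rw [htr] at k2
  rw [cr]
  linarith only [k1, k2, k3, k4]

/-- The start of the third family of cones. -/
theorem sigma_start {A : M3} (hA : Aᵀ = A) {θ : ℝ} (hθ : 0 < θ) (hs : 0 ≤ A.trace)
    (hθA : ∀ t : V3, t ⬝ᵥ t = 1 → qf A t t ≤ (1 - θ) * A.trace) {u : V3} (hu : u ⬝ᵥ u = 1) :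
    -1 * A.trace ≤ qf A u u := by
  obtain ⟨a₁, a₂, a₃, ha⟩ := spec hA
  obtain ⟨u', hu', eu⟩ := ha.exhi
  have k := hθA u' hu'
  rw [eu] at k
  have := ha.tr; have := ha.le₁; have := ha.le₂
  have := mul_nonneg hθ.le hs
  linarith [ha.lo' hu]

/-- From the functionals of the last cone to the quadratic form. -/
theorem form_ge {A B C : M3} {D : ℝ}
    (h : ∀ (p : Fin 2 → ℝ) (u v : V3), p ⬝ᵥ p = 1 → u ⬝ᵥ u = 1 → v ⬝ᵥ v = 1 →
      -D ≤ cr 1 A C B p u v u v) (u v : V3) :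
    0 ≤ qf A u u - 2 * qf B u v + qf C v v + D * (u ⬝ᵥ u + v ⬝ᵥ v) := by
  obtain ⟨a, u', hu, rfl⟩ : ∃ (r : ℝ) (x : V3), x ⬝ᵥ x = 1 ∧ u = r • x := polar u
  obtain ⟨b, v', hv, rfl⟩ : ∃ (r : ℝ) (x : V3), x ⬝ᵥ x = 1 ∧ v = r • x := polar v
  obtain ⟨r, p, hp, e⟩ := polar (n := 1) ![a, -b]
  have e0 : a = r * p 0 := congrFun e 0
  have e1 : -b = r * p 1 := congrFun e 1
  have e2 : b = -(r * p 1) := by linarith only [e1]
  have hp' : p 0 ^ 2 + p 1 ^ 2 = 1 := by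
    simpa [dotProduct, Fin.sum_univ_two, sq] using hp
  have h1 := mul_le_mul_of_nonneg_left (h p u' v' hp hu hv) (sq_nonneg r)
  rw [cr] at h1
  simp only [qf_smul_smul, smul_dotProduct, dotProduct_smul, smul_eq_mul, hu, hv]
  have e3 : D * (a * (a * 1) + b * (b * 1)) = r ^ 2 * D := by
    rw [e0, e2]; linear_combination (D * r ^ 2) * hp'
  rw [e3, e0, e2]
  linarith only [h1]

end

end Pool.Agent.Work.MP_3a9764_gt.Four
end

-- merged part: Pool.Agent.Work.MP_3a9764_gt.FourBlk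
section
/-! The blocks of a curvature tensor in dimension four. -/

set_option autoImplicit false

open Matrix

namespace Pool.Agent.Work.MP_3a9764_gt.Four

noncomputable section

/-- First index of the dual bivector. -/
def ia : Fin 3 → Fin 4 := ![2, 3, 1]

/-- Second index of the dual bivector. -/
def ib : Fin 3 → Fin 4 := ![3, 1, 2]

/-- Second index of the basic bivector. -/
def ic : Fin 3 → Fin 4 := ![1, 2, 3]

/-- A block of the curvature operator. -/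
def blk (c e d : ℝ) : T4 4 →ₗ[ℝ] M3 where
  toFun R := fun a b => c / 2 * (R 0 (ic a) 0 (ic b) + d * R 0 (ic a) (ia b) (ib b) +
    e * R (ia a) (ib a) 0 (ic b) + e * d * R (ia a) (ib a) (ia b) (ib b))
  map_add' R S := by
    ext a b
    simp only [Pi.add_apply, Matrix.add_apply]
    ring
  map_smul' r R := by
    ext a b
    simp only [Pi.smul_apply, Matrix.smul_apply, smul_eq_mul, RingHom.id_apply]
    ring

/-- The self-dual block. -/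
def bA : T4 4 →ₗ[ℝ] M3 := blk 1 1 1

/-- The mixed block. -/
def bB : T4 4 →ₗ[ℝ] M3 := blk (-1) 1 (-1)

/-- The anti-self-dual block. -/
def bC : T4 4 →ₗ[ℝ] M3 := blk 1 (-1) (-1)

variable {R : T4 4}

theorem blk_apply (c e d : ℝ) (R : T4 4) (a b : Fin 3) : blk c e d R a b =
    c / 2 * (R 0 (ic a) 0 (ic b) + d * R 0 (ic a) (ia b) (ib b) +
      e * R (ia a) (ib a) 0 (ic b) + e * d * R (ia a) (ib a) (ia b) (ib b)) := rfl

theorem d0 (h : IsCurv R) (i k l : Fin 4) : R i i k l = 0 := by linarith only [h, h.skew i i k l]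

theorem skew' (h : IsCurv R) (k l i j : Fin 4) : R i j l k = -R i j k l := by
  rw [h.pair l k i j, h.skew k l i j, h.pair i j k l]

theorem d1 (h : IsCurv R) (i j k : Fin 4) : R i j k k = 0 := by linarith only [h, skew' h k k i j]

theorem bia (h : IsCurv R) : R 0 3 1 2 = R 0 2 1 3 - R 0 1 2 3 := by
  linarith only [h, h.bianchi 0 1 2 3, h.pair 0 3 1 2, h.skew 0 2 1 3]

/-- All components of a curvature tensor in terms of twenty of them. -/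
theorem canon (h : IsCurv R) :
    (∀ i k l, R i i k l = 0) ∧ (∀ i j k, R i j k k = 0) ∧ (∀ k l, R 1 0 k l = -R 0 1 k l) ∧
    (∀ k l, R 2 0 k l = -R 0 2 k l) ∧ (∀ k l, R 3 0 k l = -R 0 3 k l) ∧
    (∀ k l, R 2 1 k l = -R 1 2 k l) ∧ (∀ k l, R 3 1 k l = -R 1 3 k l) ∧
    (∀ k l, R 3 2 k l = -R 2 3 k l) ∧ (∀ i j, R i j 1 0 = -R i j 0 1) ∧
    (∀ i j, R i j 2 0 = -R i j 0 2) ∧ (∀ i j, R i j 3 0 = -R i j 0 3) ∧
    (∀ i j, R i j 2 1 = -R i j 1 2) ∧ (∀ i j, R i j 3 1 = -R i j 1 3) ∧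
    (∀ i j, R i j 3 2 = -R i j 2 3) ∧ R 0 2 0 1 = R 0 1 0 2 ∧ R 0 3 0 1 = R 0 1 0 3 ∧
    R 1 2 0 1 = R 0 1 1 2 ∧ R 1 3 0 1 = R 0 1 1 3 ∧ R 2 3 0 1 = R 0 1 2 3 ∧
    R 0 3 0 2 = R 0 2 0 3 ∧ R 1 2 0 2 = R 0 2 1 2 ∧ R 1 3 0 2 = R 0 2 1 3 ∧
    R 2 3 0 2 = R 0 2 2 3 ∧ R 1 2 0 3 = R 0 3 1 2 ∧ R 1 3 0 3 = R 0 3 1 3 ∧
    R 2 3 0 3 = R 0 3 2 3 ∧ R 1 3 1 2 = R 1 2 1 3 ∧ R 2 3 1 2 = R 1 2 2 3 ∧
    R 2 3 1 3 = R 1 3 2 3 ∧ R 0 3 1 2 = R 0 2 1 3 - R 0 1 2 3 :=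
  ⟨d0 h, d1 h, h.skew 0 1, h.skew 0 2, h.skew 0 3, h.skew 1 2, h.skew 1 3, h.skew 2 3,
    skew' h 0 1, skew' h 0 2, skew' h 0 3, skew' h 1 2, skew' h 1 3, skew' h 2 3,
    h.pair 0 1 0 2, h.pair 0 1 0 3, h.pair 0 1 1 2, h.pair 0 1 1 3, h.pair 0 1 2 3,
    h.pair 0 2 0 3, h.pair 0 2 1 2, h.pair 0 2 1 3, h.pair 0 2 2 3, h.pair 0 3 1 2,
    h.pair 0 3 1 3, h.pair 0 3 2 3, h.pair 1 2 1 3, h.pair 1 2 2 3, h.pair 1 3 2 3, bia h⟩

theorem idx : ia 0 = 2 ∧ ia 1 = 3 ∧ ia 2 = 1 ∧ ib 0 = 3 ∧ ib 1 = 1 ∧ ib 2 = 2 ∧ ic 0 = 1 ∧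
    ic 1 = 2 ∧ ic 2 = 3 :=
  ⟨rfl, rfl, rfl, rfl, rfl, rfl, rfl, rfl, rfl⟩

theorem m3_ext {M N : M3} (h : M 0 0 = N 0 0 ∧ M 0 1 = N 0 1 ∧ M 0 2 = N 0 2 ∧ M 1 0 = N 1 0 ∧
    M 1 1 = N 1 1 ∧ M 1 2 = N 1 2 ∧ M 2 0 = N 2 0 ∧ M 2 1 = N 2 1 ∧ M 2 2 = N 2 2) : M = N := by
  obtain ⟨h1, h2, h3, h4, h5, h6, h7, h8, h9⟩ := h
  ext i j
  fin_cases i <;> fin_cases j <;> assumption

theorem bA_symm (h : IsCurv R) : (bA R)ᵀ = bA R := by
  refine m3_ext ?_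
  simp only [transpose_apply]
  simp only [bA, bB, bC, blk_apply, idx]
  simp only [canon h]
  refine ⟨trivial, ?_, ?_, ?_, trivial, ?_, ?_, ?_, trivial⟩ <;> ring

theorem bC_symm (h : IsCurv R) : (bC R)ᵀ = bC R := by
  refine m3_ext ?_
  simp only [transpose_apply]
  simp only [bA, bB, bC, blk_apply, idx]
  simp only [canon h]
  refine ⟨trivial, ?_, ?_, ?_, trivial, ?_, ?_, ?_, trivial⟩ <;> ring

theorem trace_bC (h : IsCurv R) : (bC R).trace = (bA R).trace := by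
  simp only [trace, diag_apply, Fin.sum_univ_three]
  simp only [bA, bB, bC, blk_apply, idx]
  simp only [canon h]
  ring

theorem scal_eq (h : IsCurv R) : scal4 R = 4 * (bA R).trace := by
  simp only [scal4, trace, diag_apply, Fin.sum_univ_three, Fin.sum_univ_four]
  simp only [bA, bB, bC, blk_apply, idx]
  simp only [canon h]
  ring

theorem adj_apply (A : M3) : A.adjugate 0 0 = A 1 1 * A 2 2 - A 1 2 * A 2 1 ∧
    A.adjugate 0 1 = -(A 0 1 * A 2 2) + A 0 2 * A 2 1 ∧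
    A.adjugate 0 2 = A 0 1 * A 1 2 - A 0 2 * A 1 1 ∧
    A.adjugate 1 0 = -(A 1 0 * A 2 2) + A 1 2 * A 2 0 ∧
    A.adjugate 1 1 = A 0 0 * A 2 2 - A 0 2 * A 2 0 ∧
    A.adjugate 1 2 = -(A 0 0 * A 1 2) + A 0 2 * A 1 0 ∧
    A.adjugate 2 0 = A 1 0 * A 2 1 - A 1 1 * A 2 0 ∧
    A.adjugate 2 1 = -(A 0 0 * A 2 1) + A 0 1 * A 2 0 ∧
    A.adjugate 2 2 = A 0 0 * A 1 1 - A 0 1 * A 1 0 := by
  simp [adjugate_fin_three]

theorem bA_Q (h : IsCurv R) : bA (Qq4 R) = QA (bA R) (bB R) := by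
  refine m3_ext ?_
  simp only [QA, Matrix.add_apply, Matrix.smul_apply, Matrix.mul_apply, transpose_apply,
    smul_eq_mul, Fin.sum_univ_three, adj_apply]
  simp only [bA, bB, bC, blk_apply, idx]
  simp only [Qq4, Fin.sum_univ_four]
  simp only [canon h]
  refine ⟨?_, ?_, ?_, ?_, ?_, ?_, ?_, ?_, ?_⟩ <;> ring

theorem bC_Q (h : IsCurv R) : bC (Qq4 R) = QA (bC R) (bB R)ᵀ := by
  refine m3_ext ?_
  simp only [QA, Matrix.add_apply, Matrix.smul_apply, Matrix.mul_apply, transpose_apply,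
    smul_eq_mul, Fin.sum_univ_three, adj_apply]
  simp only [bA, bB, bC, blk_apply, idx]
  simp only [Qq4, Fin.sum_univ_four]
  simp only [canon h]
  refine ⟨?_, ?_, ?_, ?_, ?_, ?_, ?_, ?_, ?_⟩ <;> ring

theorem bB_Q (h : IsCurv R) : bB (Qq4 R) = QB (bA R) (bB R) (bC R) := by
  refine m3_ext ?_
  simp only [QB, Matrix.add_apply, Matrix.smul_apply, Matrix.mul_apply, transpose_apply,
    smul_eq_mul, Fin.sum_univ_three, adj_apply]
  simp only [bA, bB, bC, blk_apply, idx]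
  simp only [Qq4, Fin.sum_univ_four]
  simp only [canon h]
  refine ⟨?_, ?_, ?_, ?_, ?_, ?_, ?_, ?_, ?_⟩ <;> ring

theorem sum_sq_eq (h : IsCurv R) : ∑ i, ∑ j, ∑ k, ∑ l, R i j k l ^ 2 =
    4 * ((bA R * bA R).trace + 2 * nsq (bB R) + (bC R * bC R).trace) := by
  simp only [nsq, trace, diag_apply, Matrix.mul_apply, transpose_apply, Fin.sum_univ_three,
    Fin.sum_univ_four]
  simp only [bA, bB, bC, blk_apply, idx]
  simp only [canon h]
  ring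

theorem norm_le_of_sq {K : ℝ} (hK : 0 ≤ K) (h : ∑ i, ∑ j, ∑ k, ∑ l, R i j k l ^ 2 ≤ K ^ 2) :
    ‖R‖ ≤ K := by
  refine (pi_norm_le_iff_of_nonneg hK).2 fun i => (pi_norm_le_iff_of_nonneg hK).2 fun j =>
    (pi_norm_le_iff_of_nonneg hK).2 fun k => (pi_norm_le_iff_of_nonneg hK).2 fun l => ?_
  refine abs_le_of_sq_le_sq (le_trans ?_ h) hK
  calc R i j k l ^ 2 ≤ ∑ l, R i j k l ^ 2 :=
        Finset.single_le_sum (f := fun l => R i j k l ^ 2) (fun _ _ => by positivity)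
          (Finset.mem_univ l)
    _ ≤ ∑ k, ∑ l, R i j k l ^ 2 :=
        Finset.single_le_sum (f := fun k => ∑ l, R i j k l ^ 2) (fun _ _ => by positivity)
          (Finset.mem_univ k)
    _ ≤ ∑ j, ∑ k, ∑ l, R i j k l ^ 2 :=
        Finset.single_le_sum (f := fun j => ∑ k, ∑ l, R i j k l ^ 2) (fun _ _ => by positivity)
          (Finset.mem_univ j)
    _ ≤ _ :=
        Finset.single_le_sum (f := fun i => ∑ j, ∑ k, ∑ l, R i j k l ^ 2)
          (fun _ _ => by positivity) (Finset.mem_univ i)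

/-- The self-dual or anti-self-dual part of a bivector. -/
def part (e : ℝ) (φ : Mat 4) : V3 :=
  ![φ 0 1 + e * φ 2 3, φ 0 2 - e * φ 1 3, φ 0 3 + e * φ 1 2]

theorem op_eq (h : IsCurv R) (D : ℝ) (φ : Mat 4) (hφ : ∀ i j, φ j i = -φ i j) :
    ∑ i, ∑ j, ∑ k, ∑ l, (R + D • Id4 4) i j k l * φ i j * φ k l =
      2 * (qf (bA R) (part 1 φ) (part 1 φ) - 2 * qf (bB R) (part 1 φ) (part (-1) φ) +
        qf (bC R) (part (-1) φ) (part (-1) φ) +
        D * (part 1 φ ⬝ᵥ part 1 φ + part (-1) φ ⬝ᵥ part (-1) φ)) := by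
  have h0 : ∀ i, φ i i = 0 := fun i => by linarith only [hφ, hφ i i]
  have e1 : ∑ i, ∑ j, ∑ k, ∑ l, (R + D • Id4 4) i j k l * φ i j * φ k l =
      ∑ i, ∑ j, ∑ k, ∑ l, R i j k l * φ i j * φ k l +
        D * ∑ i, ∑ j, ∑ k, ∑ l, Id4 4 i j k l * φ i j * φ k l := by
    simp only [Pi.add_apply, Pi.smul_apply, smul_eq_mul, add_mul, Finset.sum_add_distrib,
      Finset.mul_sum, mul_assoc]
  have e2 : ∑ i, ∑ j, ∑ k, ∑ l, Id4 4 i j k l * φ i j * φ k l =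
      2 * (part 1 φ ⬝ᵥ part 1 φ + part (-1) φ ⬝ᵥ part (-1) φ) := by
    simp [Id4, part, dotProduct, Fin.sum_univ_three, Fin.sum_univ_four, h0, hφ 0 1, hφ 0 2,
      hφ 0 3, hφ 1 2, hφ 1 3, hφ 2 3]
    ring
  have e3 : ∑ i, ∑ j, ∑ k, ∑ l, R i j k l * φ i j * φ k l =
      2 * (qf (bA R) (part 1 φ) (part 1 φ) - 2 * qf (bB R) (part 1 φ) (part (-1) φ) +
        qf (bC R) (part (-1) φ) (part (-1) φ)) := by
    simp only [qf, part, dotProduct, mulVec, Fin.sum_univ_three, Fin.sum_univ_four, h0, hφ 0 1,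
      hφ 0 2, hφ 0 3, hφ 1 2, hφ 1 3, hφ 2 3, cons_val_zero, cons_val_one, cons_val]
    simp only [bA, bB, bC, blk_apply, idx]
    simp only [canon h]
    ring
  rw [e1, e2, e3]
  ring

theorem iso_A (h : IsCurv R) (a c d : ℝ) :
    iso4 R ![![a, 0, c, d], ![0, a, d, -c], ![-c, -d, a, 0], ![-d, c, 0, a]] =
      2 * ((a ^ 2 + c ^ 2 + d ^ 2) ^ 2 * (bA R).trace -
        qf (bA R) ![a ^ 2 - c ^ 2 - d ^ 2, 2 * a * d, -2 * a * c]
          ![a ^ 2 - c ^ 2 - d ^ 2, 2 * a * d, -2 * a * c]) := by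
  simp only [iso4, ev4, qf, trace, diag_apply, dotProduct, mulVec, Fin.sum_univ_three,
    Fin.sum_univ_four, cons_val_zero, cons_val_one, cons_val]
  simp only [bA, bB, bC, blk_apply, idx]
  simp only [canon h]
  ring

theorem iso_C (h : IsCurv R) (a c d : ℝ) :
    iso4 R ![![a, 0, c, d], ![0, a, -d, c], ![-d, -c, 0, a], ![-c, d, a, 0]] =
      2 * ((a ^ 2 + c ^ 2 + d ^ 2) ^ 2 * (bC R).trace -
        qf (bC R) ![a ^ 2 - c ^ 2 - d ^ 2, -2 * a * d, 2 * a * c]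
          ![a ^ 2 - c ^ 2 - d ^ 2, -2 * a * d, 2 * a * c]) := by
  simp only [iso4, ev4, qf, trace, diag_apply, dotProduct, mulVec, Fin.sum_univ_three,
    Fin.sum_univ_four, cons_val_zero, cons_val_one, cons_val]
  simp only [bA, bB, bC, blk_apply, idx]
  simp only [canon h]
  ring

theorem quat {u : V3} (hu : u ⬝ᵥ u = 1) : ∃ a c d e : ℝ, a ^ 2 + c ^ 2 + d ^ 2 = 1 ∧ e * e = 1 ∧
    ![a ^ 2 - c ^ 2 - d ^ 2, 2 * a * d, -2 * a * c] = e • u := by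
  have key : ∀ x y z : ℝ, 0 ≤ x → x * x + y * y + z * z = 1 → ∃ a c d : ℝ,
      a ^ 2 + c ^ 2 + d ^ 2 = 1 ∧ a ^ 2 - c ^ 2 - d ^ 2 = x ∧ 2 * a * d = y ∧ -2 * a * c = z := by
    intro x y z hx h
    have hp : 0 < 2 * (1 + x) := by linarith only [hx]
    have hk : (√(2 * (1 + x)))⁻¹ ^ 2 * (2 * (1 + x)) = 1 := by
      rw [inv_pow, Real.sq_sqrt hp.le, inv_mul_cancel₀ hp.ne']
    set k := (√(2 * (1 + x)))⁻¹
    refine ⟨k * (1 + x), -(k * z), k * y, ?_, ?_, ?_, ?_⟩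
    · linear_combination hk + k ^ 2 * h
    · linear_combination x * hk - k ^ 2 * h
    · linear_combination y * hk
    · linear_combination z * hk
  simp only [dotProduct, Fin.sum_univ_three] at hu
  rcases le_total 0 (u 0) with h | h
  · obtain ⟨a, c, d, h1, h2, h3, h4⟩ := key (u 0) (u 1) (u 2) h hu
    refine ⟨a, c, d, 1, h1, by ring, ?_⟩
    ext i
    fin_cases i <;> simp [h2, h3, ← h4]
  · obtain ⟨a, c, d, h1, h2, h3, h4⟩ := key (-u 0) (-u 1) (-u 2) (by linarith) (by linarith only [hu])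
    refine ⟨a, c, d, -1, h1, by ring, ?_⟩
    rw [h2, h3, h4]
    ext i
    fin_cases i <;> simp

theorem til_bA_pos (h : IsCurv R) (hp : ∀ e, ON4 e → 0 < iso4 R e) {u : V3} (hu : u ⬝ᵥ u = 1) :
    0 < qf (til (bA R)) u u := by
  obtain ⟨a, c, d, e, h1, h2, h3⟩ := quat hu
  have h4 := hp ![![a, 0, c, d], ![0, a, d, -c], ![-c, -d, a, 0], ![-d, c, 0, a]] fun i j => by
    fin_cases i <;> fin_cases j <;> simp [Fin.sum_univ_four] <;> linarith only [h1]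
  rw [iso_A h, h3, qf_smul_smul, h1, h2] at h4
  rw [qf_til _ hu]
  linarith only [h4]

theorem til_bC_pos (h : IsCurv R) (hp : ∀ e, ON4 e → 0 < iso4 R e) {u : V3} (hu : u ⬝ᵥ u = 1) :
    0 < qf (til (bC R)) u u := by
  obtain ⟨a, c, d, e, h1, h2, h3⟩ := quat hu
  have h4 := hp ![![a, 0, -c, -d], ![0, a, - -d, -c], ![- -d, - -c, 0, a], ![- -c, -d, a, 0]]
    fun i j => by fin_cases i <;> fin_cases j <;> simp [Fin.sum_univ_four] <;> linarith only [h1]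
  have h5 : ![a ^ 2 - (-c) ^ 2 - (-d) ^ 2, -2 * a * -d, 2 * a * -c] = e • u := by
    rw [← h3]
    ext i
    fin_cases i <;> simp
  rw [iso_C h, h5, qf_smul_smul, neg_sq, neg_sq, h1, h2] at h4
  rw [qf_til _ hu]
  linarith only [h4]

end

end Pool.Agent.Work.MP_3a9764_gt.Four
end

-- merged part: Pool.Agent.Work.MP_3a9764_gt.Four
section
/-! The pinching estimate in dimension four. -/

set_option autoImplicit false

open Matrix Set

namespace Pool.Agent.Work.MP_3a9764_gt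

noncomputable section

namespace Four

/-- The unit sphere. -/
abbrev Sph (n : ℕ) : Type := {u : Fin n → ℝ // u ⬝ᵥ u = 1}

instance (n : ℕ) : CompactSpace (Sph n) := by
  refine isCompact_iff_compactSpace.1 (Metric.isCompact_of_isClosed_isBounded
    (s := {u : Fin n → ℝ | u ⬝ᵥ u = 1}) (isClosed_eq (by unfold dotProduct; fun_prop)
      continuous_const) (isBounded_iff_forall_norm_le.2 ⟨1, fun u hu => ?_⟩))
  refine (pi_norm_le_iff_of_nonneg zero_le_one).2 fun i => abs_le_one_iff_mul_self_le_one.2 ?_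
  rw [← show u ⬝ᵥ u = 1 from hu]
  exact Finset.single_le_sum (f := fun i => u i * u i) (fun _ _ => mul_self_nonneg _)
    (Finset.mem_univ i)

/-- The parameter space of the mixed functionals. -/
abbrev KK : Type := Sph 2 × Sph 3 × Sph 3 × Sph 3 × Sph 3

/-- A combination of the trace and of the quadratic form of a block. -/
def lin (a b : ℝ) (X : T4 4 →ₗ[ℝ] M3) (u : Sph 3) : T4 4 →ₗ[ℝ] ℝ where
  toFun R := a * (X R).trace + b * qf (X R) u.1 u.1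
  map_add' R S := by rw [map_add, trace_add, qf_add]; ring
  map_smul' r R := by
    rw [map_smul, trace_smul, qf_smul, smul_eq_mul, smul_eq_mul, RingHom.id_apply]; ring

/-- The trace of the first block. -/
def trA : T4 4 →ₗ[ℝ] ℝ := (traceLinearMap (Fin 3) ℝ ℝ).comp bA

/-- The map `til` composed with a block. -/
def tilL (X : T4 4 →ₗ[ℝ] M3) : T4 4 →ₗ[ℝ] M3 where
  toFun R := til (X R)
  map_add' R S := by rw [map_add, til, til, til, trace_add, add_smul]; abel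
  map_smul' r R := by
    rw [map_smul, til, til, trace_smul, RingHom.id_apply, smul_sub, smul_smul, smul_eq_mul]

/-- The mixed functionals. -/
def crL (μ : ℝ) (X Y : T4 4 →ₗ[ℝ] M3) (τ : KK) : T4 4 →ₗ[ℝ] ℝ where
  toFun R := cr μ (X R) (Y R) (bB R) τ.1.1 τ.2.1.1 τ.2.2.1.1 τ.2.2.2.1.1 τ.2.2.2.2.1
  map_add' R S := by simp only [map_add, cr, qf_add]; ring
  map_smul' r R := by simp only [map_smul, cr, qf_smul, smul_eq_mul, RingHom.id_apply]; ring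

theorem tilL_apply (X : T4 4 →ₗ[ℝ] M3) (R : T4 4) : tilL X R = til (X R) := rfl

theorem trA_apply (R : T4 4) : trA R = (bA R).trace := rfl

theorem lin_apply (a b : ℝ) (X : T4 4 →ₗ[ℝ] M3) (u : Sph 3) (R : T4 4) :
    lin a b X u R = a * (X R).trace + b * qf (X R) u.1 u.1 := rfl

theorem crL_apply (μ : ℝ) (X Y : T4 4 →ₗ[ℝ] M3) (τ : KK) (R : T4 4) : crL μ X Y τ R =
    cr μ (X R) (Y R) (bB R) τ.1.1 τ.2.1.1 τ.2.2.1.1 τ.2.2.2.1.1 τ.2.2.2.2.1 := rfl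

theorem cont_qf {Z : Type} [TopologicalSpace Z] {M : Z → M3} {u v : Z → V3} (hM : Continuous M)
    (hu : Continuous u) (hv : Continuous v) : Continuous fun x => qf (M x) (u x) (v x) :=
  hu.dotProduct (hM.matrix_mulVec hv)

theorem cont_lin (b : ℝ) (X : T4 4 →ₗ[ℝ] M3) (R : T4 4) :
    Continuous fun p : ℝ × Sph 3 => lin p.1 b X p.2 R := by
  simp only [lin_apply]
  exact (continuous_fst.mul continuous_const).add (continuous_const.mul
    (cont_qf continuous_const (by fun_prop) (by fun_prop)))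

theorem cont_crL (X Y : T4 4 →ₗ[ℝ] M3) (R : T4 4) :
    Continuous fun p : ℝ × KK => crL p.1 X Y p.2 R := by
  simp only [crL_apply, cr]
  have h : ∀ i, Continuous fun p : ℝ × KK => p.2.1.1 i := fun i =>
    (continuous_apply i).comp (continuous_subtype_val.comp (continuous_fst.comp continuous_snd))
  exact ((((h 0).pow 2).mul (cont_qf continuous_const (by fun_prop) (by fun_prop))).add
    (((h 1).pow 2).mul (cont_qf continuous_const (by fun_prop) (by fun_prop)))).add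
    (((continuous_const.mul continuous_fst).mul ((h 0).mul (h 1))).mul
      (cont_qf continuous_const (by fun_prop) (by fun_prop)))

theorem cross_iff {μ : ℝ} {X Y : T4 4 →ₗ[ℝ] M3} {R : T4 4} :
    (∀ τ, 0 ≤ crL μ X Y τ R) ↔ Cross μ (X R) (Y R) (bB R) :=
  ⟨fun h p u v z w hp hu hv hz hw => h (⟨p, hp⟩, ⟨u, hu⟩, ⟨v, hv⟩, ⟨z, hz⟩, ⟨w, hw⟩),
    fun h τ => h _ _ _ _ _ τ.1.2 τ.2.1.2 τ.2.2.1.2 τ.2.2.2.1.2 τ.2.2.2.2.2⟩

theorem cross_til {μ : ℝ} {R : T4 4} (h : ∀ τ, 0 ≤ crL μ (tilL bA) (tilL bC) τ R) :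
    Cross μ (til (bA R)) (til (bC R)) (bB R) := by
  have := cross_iff.1 h
  rwa [tilL_apply, tilL_apply] at this

theorem theta_iff {θ : ℝ} {X : T4 4 →ₗ[ℝ] M3} {R : T4 4} :
    (∀ u, 0 ≤ lin (1 - θ) (-1) X u R) ↔
      ∀ t : V3, t ⬝ᵥ t = 1 → qf (X R) t t ≤ (1 - θ) * (X R).trace :=
  ⟨fun h t ht => by have := h ⟨t, ht⟩; rw [lin_apply] at this; linarith only [ht, this],
    fun h u => by have := h u.1 u.2; rw [lin_apply]; linarith⟩

theorem sigma_iff {σ : ℝ} {X : T4 4 →ₗ[ℝ] M3} {R : T4 4} :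
    (∀ u, 0 ≤ lin (-σ) 1 X u R) ↔ ∀ t : V3, t ⬝ᵥ t = 1 → σ * (X R).trace ≤ qf (X R) t t :=
  ⟨fun h t ht => by have := h ⟨t, ht⟩; rw [lin_apply] at this; linarith,
    fun h u => by have := h u.1 u.2; rw [lin_apply]; linarith⟩

/-- The functionals of the first cone. -/
def l₀ (θ μ : ℝ) : Sph 3 ⊕ Sph 3 ⊕ KK → T4 4 →ₗ[ℝ] ℝ :=
  Sum.elim (lin (1 - θ) (-1) bA) (Sum.elim (lin (1 - θ) (-1) bC) (crL μ (tilL bA) (tilL bC)))

/-- The first cone. -/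
structure InCone (θ μ : ℝ) (R : T4 4) : Prop where
  a : ∀ t : V3, t ⬝ᵥ t = 1 → qf (bA R) t t ≤ (1 - θ) * (bA R).trace
  c : ∀ t : V3, t ⬝ᵥ t = 1 → qf (bC R) t t ≤ (1 - θ) * (bC R).trace
  x : Cross μ (til (bA R)) (til (bC R)) (bB R)

theorem inCone_of {θ μ : ℝ} {R : T4 4} (h : ∀ τ, 0 ≤ l₀ θ μ τ R) : InCone θ μ R :=
  ⟨theta_iff.1 fun u => h (.inl u), theta_iff.1 fun u => h (.inr (.inl u)),
    cross_til fun τ => h (.inr (.inr τ))⟩

theorem InCone.size {θ μ : ℝ} {R : T4 4} (h : InCone θ μ R) (hR : IsCurv R) (hθ : 0 < θ)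
    (hθ1 : θ < 2 / 3) (hμ : 0 < μ) :
    0 ≤ (bA R).trace ∧ ‖R‖ ≤ (5 + 4 / μ) * (bA R).trace := by
  obtain ⟨h1, h2⟩ := size_le (bA_symm hR) (bC_symm hR) (trace_bC hR) hθ hθ1 hμ h.x h.a h.c
  exact ⟨h1, norm_le_of_sq (by positivity) (by rw [sum_sq_eq hR]; exact h2)⟩

theorem InCone.pos {θ μ : ℝ} {R : T4 4} (h : InCone θ μ R) (hR : IsCurv R) (hθ : 0 < θ)
    (hθ1 : θ < 2 / 3) (hμ : 0 < μ) (h0 : R ≠ 0) : 0 < (bA R).trace :=
  pos_of_mul_pos_right ((norm_pos_iff.2 h0).trans_le (h.size hR hθ hθ1 hμ).2) (by positivity)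

theorem til_pos {θ : ℝ} (hθ : 0 < θ) {A : M3} (hs : 0 < A.trace)
    (h : ∀ t : V3, t ⬝ᵥ t = 1 → qf A t t ≤ (1 - θ) * A.trace) {u : V3} (hu : u ⬝ᵥ u = 1) :
    0 < qf (til A) u u := by
  have := h u hu
  have := mul_pos hθ hs
  rw [qf_til A hu]
  linarith

theorem lam_step {θ μ : ℝ} {R : T4 4} (h : InCone θ μ R) (hR : IsCurv R) (hθ : 0 < θ)
    (hμ : 0 < μ) (hμ2 : μ < 2) (hs : 0 < (bA R).trace) (τ : KK)
    (h0 : crL μ (tilL bA) (tilL bC) τ R = 0) : 0 < crL μ (tilL bA) (tilL bC) τ (Qq4 R) := by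
  rw [crL_apply, tilL_apply, tilL_apply] at h0 ⊢
  have := trans_lam (bA_symm hR) (bC_symm hR) hμ hμ2 h.x τ.1.2 τ.2.1.2 τ.2.2.1.2 τ.2.2.2.1.2
    τ.2.2.2.2.2 (til_pos hθ hs h.a τ.2.1.2) (til_pos hθ (trace_bC hR ▸ hs) h.c τ.2.2.1.2) h0
  rwa [← bA_Q hR, ← bC_Q hR, ← bB_Q hR] at this

variable {T : ℝ} {W : ℝ → Set (T4 4)}

theorem initial (hW : CurvFlow 4 T W) (hT : 0 < T)
    (h0 : ∀ R ∈ W 0, ∀ e, ON4 e → 0 < iso4 R e) :
    ∃ θ μ δ : ℝ, 0 < θ ∧ 0 < μ ∧ μ ≤ 1 ∧ θ * (4 + 9 * μ ^ 2) < 6 * μ ^ 2 ∧ 0 < δ ∧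
      ∀ R ∈ W 0, δ < (bA R).trace ∧ ∀ τ, 0 < l₀ θ μ τ R := by
  have hc : IsCompact (W 0 ×ˢ (univ : Set (Sph 3 × Sph 3))) :=
    (hW.bound_zero hT).prod isCompact_univ
  have hcu : ∀ R ∈ W 0, IsCurv R := hW.curv 0 ⟨le_rfl, hT⟩
  have cl : ∀ X : T4 4 →ₗ[ℝ] M3, Continuous fun z : T4 4 × Sph 3 × Sph 3 => X z.1 := fun X =>
    X.continuous_of_finiteDimensional.comp continuous_fst
  have c1 : Continuous fun z : T4 4 × Sph 3 × Sph 3 => z.2.1.1 := by fun_prop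
  have c2 : Continuous fun z : T4 4 × Sph 3 × Sph 3 => z.2.2.1 := by fun_prop
  have c3 := Continuous.min (cont_qf (cl (tilL bA)) c1 c1) (cont_qf (cl (tilL bC)) c2 c2)
  have c4 : Continuous fun z : T4 4 × Sph 3 × Sph 3 => trA z.1 :=
    trA.continuous_of_finiteDimensional.comp continuous_fst
  have c5 : Continuous fun z : T4 4 × Sph 3 × Sph 3 => |trA z.1| + |qf (bB z.1) z.2.1.1 z.2.2.1| :=
    c4.abs.add (cont_qf (cl bB) c1 c2).abs
  simp only [tilL_apply] at c3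
  simp only [trA_apply] at c5
  obtain ⟨m, hm, h1⟩ := hc.exists_forall_le' (a := 0) c3.continuousOn
    fun z hz => lt_min (til_bA_pos (hcu _ hz.1) (h0 _ hz.1) z.2.1.2)
      (til_bC_pos (hcu _ hz.1) (h0 _ hz.1) z.2.2.2)
  obtain ⟨M₀, h2⟩ := hc.bddAbove_image c5.continuousOn
  have hA : ∀ R ∈ W 0, ∀ u : Sph 3, m ≤ qf (til (bA R)) u.1 u.1 := fun R hR u =>
    (h1 (R, u, u) ⟨hR, mem_univ _⟩).trans (min_le_left _ _)
  have hC : ∀ R ∈ W 0, ∀ u : Sph 3, m ≤ qf (til (bC R)) u.1 u.1 := fun R hR u =>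
    (h1 (R, u, u) ⟨hR, mem_univ _⟩).trans (min_le_right _ _)
  set M := |M₀| + 1
  have hM : 0 < M := by positivity
  have hB : ∀ R ∈ W 0, ∀ z w : Sph 3, |(bA R).trace| + |qf (bB R) z.1 w.1| ≤ M := fun R hR z w =>
    (h2 ⟨(R, z, w), ⟨hR, mem_univ _⟩, rfl⟩).trans ((le_abs_self _).trans (lt_add_one _).le)
  set μ := min 1 (m / (2 * M))
  have hμ : 0 < μ := lt_min one_pos (by positivity)
  have hμ1 : μ ≤ 1 := min_le_left _ _
  have hμM : μ * (2 * M) ≤ m := (le_div_iff₀ (by positivity)).1 (min_le_right _ _)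
  have hθM : μ ^ 2 / 3 * M < m := by linarith only [hμM, hμ, hM, hm, hμ1, mul_pos hμ hM, mul_nonneg_of_nonpos_of_nonpos (le_of_lt (Mathlib.Tactic.Linarith.sub_neg_of_lt hm)) (Mathlib.Tactic.Linarith.sub_nonpos_of_le hμ1), mul_nonneg_of_nonpos_of_nonpos (le_of_lt (Mathlib.Tactic.Linarith.sub_neg_of_lt hμ)) (Mathlib.Tactic.Linarith.sub_nonpos_of_le hμM)]
  have hth : ∀ (A : M3) (u : Sph 3), A.trace ≤ M → m ≤ qf (til A) u.1 u.1 →
      0 < (1 - μ ^ 2 / 3) * A.trace + -1 * qf A u.1 u.1 := fun A u h h' => by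
    rw [qf_til A u.2] at h'
    have := mul_le_mul_of_nonneg_left h (by positivity : 0 ≤ μ ^ 2 / 3)
    linarith only [hθM, h', this]
  refine ⟨μ ^ 2 / 3, μ, m, by positivity, hμ, hμ1, ?_, hm, fun R hR => ⟨?_, fun τ => ?_⟩⟩
  · have : μ ^ 2 ≤ 1 := by linarith only [hμ1, hμ, mul_nonneg_of_nonpos_of_nonpos (le_of_lt (Mathlib.Tactic.Linarith.sub_neg_of_lt hμ)) (Mathlib.Tactic.Linarith.sub_nonpos_of_le hμ1)]
    linarith only [hμ, this, pow_pos hμ 2, mul_nonneg_of_nonpos_of_nonpos (Mathlib.Tactic.Linarith.sub_nonpos_of_le (sq_nonneg μ)) (Mathlib.Tactic.Linarith.sub_nonpos_of_le this)]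
  · obtain ⟨a₁, a₂, a₃, ha⟩ := spec (bA_symm (hcu R hR))
    obtain ⟨u, hu, e⟩ := ha.exhi
    have h3 := hA R hR ⟨u, hu⟩
    rw [qf_til _ hu, e] at h3
    linarith only [hm, h3, ha, ha.tr, ha.le₁, ha.le₂]
  · rcases τ with u | u | τ
    · have := hB R hR u u
      exact hth _ u (by linarith only [this, le_abs_self (bA R).trace, abs_nonneg (qf (bB R) u.1 u.1)])
        (hA R hR u)
    · have := hB R hR u u
      have := trace_bC (hcu R hR)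
      exact hth _ u (by linarith [le_abs_self (bA R).trace, abs_nonneg (qf (bB R) u.1 u.1)])
        (hC R hR u)
    · obtain ⟨p, u, v, z, w⟩ := τ
      have hp' : p.1 0 ^ 2 + p.1 1 ^ 2 = 1 := by
        simpa [dotProduct, Fin.sum_univ_two, sq] using p.2
      have k1 := mul_le_mul_of_nonneg_left (hA R hR u) (sq_nonneg (p.1 0))
      have k2 := mul_le_mul_of_nonneg_left (hC R hR v) (sq_nonneg (p.1 1))
      obtain ⟨k3, k4⟩ := abs_le.1 (show |qf (bB R) z.1 w.1| ≤ M by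
        linarith only [hB, hR, hB R hR z w, abs_nonneg (bA R).trace])
      have k5 := mul_nonneg hμ.le (mul_nonneg (sq_nonneg (p.1 0 + p.1 1))
        (by linarith only [k3] : 0 ≤ M + qf (bB R) z.1 w.1))
      have k6 := mul_nonneg hμ.le (mul_nonneg (sq_nonneg (p.1 0 - p.1 1))
        (by linarith only [k4] : 0 ≤ M - qf (bB R) z.1 w.1))
      have k7 : p.1 0 ^ 2 * m + p.1 1 ^ 2 * m = m := by rw [← add_mul, hp', one_mul]
      have k8 : μ * M * (p.1 0 ^ 2 + p.1 1 ^ 2) = μ * M := by rw [hp', mul_one]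
      change 0 < crL μ (tilL bA) (tilL bC) (p, u, v, z, w) R
      rw [crL_apply, tilL_apply, tilL_apply, cr]
      dsimp only
      linarith only [hm, hμM, k1, k2, k5, k6, k7, k8]

theorem cont_l₀ (θ μ : ℝ) (R : T4 4) : Continuous fun τ => l₀ θ μ τ R :=
  continuous_sum_dom.2 ⟨(cont_lin _ _ R).comp (Continuous.prodMk_right (1 - θ)),
    continuous_sum_dom.2 ⟨(cont_lin _ _ R).comp (Continuous.prodMk_right (1 - θ)),
      (cont_crL _ _ R).comp (Continuous.prodMk_right μ)⟩⟩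

theorem start (hW : CurvFlow 4 T W) (hT : 0 < T)
    (h0 : ∀ R ∈ W 0, ∀ e, ON4 e → 0 < iso4 R e) :
    ∃ θ μ : ℝ, 0 < θ ∧ θ < 2 / 3 ∧ 0 < μ ∧ μ ≤ 1 ∧
      ∀ t ∈ Ico 0 T, ∀ R ∈ W t, ∀ τ, 0 ≤ l₀ θ μ τ R := by
  obtain ⟨θ, μ, δ, hθ, hμ, hμ1, hθμ, hδ, h⟩ := initial hW hT h0
  have hs := first_touch hW (K := Unit) (l := fun _ => trA) (fun _ => continuous_const) δ
    (fun R hR _ => (h R hR).1) fun t ht R hR _ _ e => by
      have hR' := hW.curv t (Ioo_subset_Ico_self ht) R hR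
      change (bA R).trace = δ at e
      change 0 < (bA (Qq4 R)).trace
      rw [bA_Q hR', trace_QA, e]
      linarith only [hδ, pow_pos hδ 2, nsq_nonneg (bB R)]
  refine ⟨θ, μ, hθ, by (refine lt_of_not_ge fun h_nl => ?_; linarith only [h_nl, hθ, hθμ, pow_pos hμ 2, mul_nonneg_of_nonpos_of_nonpos (Mathlib.Tactic.Linarith.sub_nonpos_of_le (sq_nonneg μ)) (Mathlib.Tactic.Linarith.sub_nonpos_of_le h_nl)]), hμ, hμ1, fun t ht R hR τ => le_of_lt ?_⟩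
  refine first_touch hW (cont_l₀ θ μ) 0 (fun R hR => (h R hR).2) ?_ t ht R hR τ
  intro t ht R hR hall τ e
  have hR' := hW.curv t (Ioo_subset_Ico_self ht) R hR
  have hp : 0 < (bA R).trace := hδ.trans (hs t (Ioo_subset_Ico_self ht) R hR ())
  have hc := inCone_of hall
  rcases τ with u | u | τ
  · change (1 - θ) * (bA R).trace + -1 * qf (bA R) u.1 u.1 = 0 at e
    change 0 < (1 - θ) * (bA (Qq4 R)).trace + -1 * qf (bA (Qq4 R)) u.1 u.1
    have := trans_theta (bA_symm hR') (bC_symm hR') (trace_bC hR') hθ hμ hθμ hp hc.x hc.a u.2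
      (by linarith only [e])
    rw [bA_Q hR']
    linarith only [this]
  · change (1 - θ) * (bC R).trace + -1 * qf (bC R) u.1 u.1 = 0 at e
    change 0 < (1 - θ) * (bC (Qq4 R)).trace + -1 * qf (bC (Qq4 R)) u.1 u.1
    have := trans_theta (bC_symm hR') (bA_symm hR') (trace_bC hR').symm hθ hμ hθμ
      (trace_bC hR' ▸ hp) hc.x.swap hc.c u.2 (by linarith only [e])
    rw [bC_Q hR']
    linarith
  · exact lam_step hc hR' hθ hμ (by linarith) hp τ e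

theorem asym_two (hW : CurvFlow 4 T W) {θ μ : ℝ} (hθ : 0 < θ) (hθ1 : θ < 2 / 3) (hμ : 0 < μ)
    (hμ1 : μ ≤ 1) (h : Asym T W (l₀ θ μ)) : Asym T W (l₀ θ 2) := by
  have h1 : Asym T W (crL 2 (tilL bA) (tilL bC)) :=
    asym_family hW (l := fun s => crL s (tilL bA) (tilL bC)) (a := μ) (by linarith only [hθ, hθ1, hμ1])
      (fun R => (cont_crL _ _ R).continuousOn) h
      (fun s hs R hR hne h1 h2 τ e =>
        lam_step (θ := θ) ⟨(inCone_of h1).a, (inCone_of h1).c, cross_til h2⟩ hR hθ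
          (hμ.trans_le hs.1) hs.2 ((inCone_of h1).pos hR hθ hθ1 hμ hne) τ e)
      fun ε hε => (h ε hε).imp fun _ h t ht R hR τ => h t ht R hR (.inr (.inr τ))
  exact Asym.sum (fun ε hε => (h ε hε).imp fun _ h t ht R hR τ => h t ht R hR (.inl τ))
    (Asym.sum (fun ε hε => (h ε hε).imp fun _ h t ht R hR τ => h t ht R hR (.inr (.inl τ))) h1)

theorem asym_sigma (hW : CurvFlow 4 T W) {θ : ℝ} (hθ : 0 < θ) (hθ1 : θ < 2 / 3)
    (h : Asym T W (l₀ θ 2)) :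
    Asym T W (lin (-(θ / 5)) 1 bA) ∧ Asym T W (lin (-(θ / 5)) 1 bC) := by
  have hc : ∀ (X : T4 4 →ₗ[ℝ] M3) (R : T4 4),
      Continuous fun p : ℝ × Sph 3 => lin (-p.1) 1 X p.2 R := fun X R =>
    (cont_lin 1 X R).comp (f := fun p : ℝ × Sph 3 => (-p.1, p.2)) (by fun_prop)
  constructor
  · refine asym_family hW (l := fun s => lin (-s) 1 bA) (a := -1) (by linarith only [hθ, hθ1])
      (fun R => (hc _ R).continuousOn) h (fun s hs R hR hne h1 h2 u e => ?_)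
      (asym_mono hW (fun R => (hc _ R).comp (Continuous.prodMk_right (-1))) (fun R hR h1 =>
        sigma_iff.2 fun t ht => sigma_start (bA_symm hR) hθ
          ((inCone_of h1).size hR hθ hθ1 two_pos).1 (inCone_of h1).a ht) h)
    have k := inCone_of h1
    rw [lin_apply] at e
    have := trans_sigma (bA_symm hR) (bC_symm hR) (trace_bC hR) hθ hs.2.le
      (k.pos hR hθ hθ1 two_pos hne) k.x k.a (sigma_iff.1 h2) u.2 (by linarith only [e])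
    rw [lin_apply, bA_Q hR]
    linarith only [this]
  · refine asym_family hW (l := fun s => lin (-s) 1 bC) (a := -1) (by linarith only [hθ, hθ1])
      (fun R => (hc _ R).continuousOn) h (fun s hs R hR hne h1 h2 u e => ?_)
      (asym_mono hW (fun R => (hc _ R).comp (Continuous.prodMk_right (-1))) (fun R hR h1 =>
        sigma_iff.2 fun t ht => sigma_start (bC_symm hR) hθ
          (trace_bC hR ▸ ((inCone_of h1).size hR hθ hθ1 two_pos).1) (inCone_of h1).c ht) h)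
    have k := inCone_of h1
    rw [lin_apply] at e
    have := trans_sigma (bC_symm hR) (bA_symm hR) (trace_bC hR).symm hθ hs.2.le
      (trace_bC hR ▸ k.pos hR hθ hθ1 two_pos hne) k.x.swap k.c (sigma_iff.1 h2) u.2 (by linarith only [e])
    rw [lin_apply, bC_Q hR]
    linarith only [this]

theorem asym_last (hW : CurvFlow 4 T W) {θ : ℝ} (hθ : 0 < θ) (hθ1 : θ < 2 / 3)
    (h : Asym T W (l₀ θ 2)) : Asym T W (crL 1 bA bC) := by
  have h' := h.sum ((asym_sigma hW hθ hθ1 h).1.sum (asym_sigma hW hθ hθ1 h).2)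
  have h5 : 0 < θ / 5 := by positivity
  refine asym_family hW (l := fun s => crL s bA bC) (a := θ / 5) (by linarith only [hθ, hθ1])
    (fun R => (cont_crL _ _ R).continuousOn) h' (fun s hs R hR hne h1 h2 τ e => ?_)
    (asym_mono hW (fun R => (cont_crL _ _ R).comp (Continuous.prodMk_right (θ / 5)))
      (fun R hR h1 => ?_) h')
  · have k := inCone_of fun τ => h1 (.inl τ)
    have hp := k.pos hR hθ hθ1 two_pos hne
    have := trans_H (bA_symm hR) (bC_symm hR) (h5.trans_le hs.1) hs.2 k.x (cross_iff.1 h2) τ.1.2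
      τ.2.1.2 τ.2.2.1.2 τ.2.2.2.1.2 τ.2.2.2.2.2
      ((mul_pos h5 hp).trans_le (sigma_iff.1 (fun u => h1 (.inr (.inl u))) _ τ.2.1.2))
      ((mul_pos h5 (trace_bC hR ▸ hp)).trans_le
        (sigma_iff.1 (fun u => h1 (.inr (.inr u))) _ τ.2.2.1.2)) e
    rwa [← bA_Q hR, ← bC_Q hR, ← bB_Q hR] at this
  · have k := inCone_of fun τ => h1 (.inl τ)
    exact cross_iff.2 (cross_start (bA_symm hR) (bC_symm hR) (trace_bC hR) hθ h5.le
      (k.size hR hθ hθ1 two_pos).1 k.x k.a (sigma_iff.1 fun u => h1 (.inr (.inl u)))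
      (sigma_iff.1 fun u => h1 (.inr (.inr u))))

end Four

open Four in
/-- Hamilton's pinching estimate for positive isotropic curvature in dimension four. -/
theorem pinched_four {T : ℝ} {W : ℝ → Set (T4 4)} (hW : CurvFlow 4 T W)
    (h0 : ∀ R ∈ W 0, ∀ e, ON4 e → 0 < iso4 R e) : Pinched T W := by
  intro ε hε
  by_cases hT : 0 < T
  swap
  · exact ⟨0, fun t ht => absurd (ht.1.trans_lt ht.2) hT⟩
  obtain ⟨θ, μ, hθ, hθ1, hμ, hμ1, h⟩ := start hW hT h0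
  have hK : 0 < 5 + 4 / μ := by positivity
  obtain ⟨C, hC⟩ := asym_last hW hθ hθ1 (asym_two hW hθ hθ1 hμ hμ1 (asym_of_nonneg h))
    (4 * ε / (5 + 4 / μ)) (by positivity)
  refine ⟨C, fun t ht R hR φ hφ => ?_⟩
  have hR' := hW.curv t ht R hR
  have h1 := ((inCone_of (h t ht R hR)).size hR' hθ hθ1 hμ).2
  have h2 : 4 * ε / (5 + 4 / μ) * ‖R‖ ≤ ε * scal4 R := by
    rw [scal_eq hR', div_mul_eq_mul_div, div_le_iff₀ hK]
    linarith only [h1, hε, mul_le_mul_of_nonneg_left h1 hε.le]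
  rw [op_eq hR' _ φ hφ]
  refine mul_nonneg two_pos.le (form_ge (fun p u v hp hu hv => ?_) _ _)
  have := hC t ht R hR (⟨p, hp⟩, ⟨u, hu⟩, ⟨v, hv⟩, ⟨u, hu⟩, ⟨v, hv⟩)
  rw [crL_apply] at this
  linarith only [h2, hp, hu, hv, this]

end

end Pool.Agent.Work.MP_3a9764_gt
end
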