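import Pool.Agent.Work.MP_3a9764_gt.EvSqrt
import Pool.Agent.Work.MP_3a9764_gt.St2e

-- merged part: Pool.Agent.Work.MP_3a9764_gt.TExt
section
/-! Extension of a curvature tensor to a space of higher dimension. -/

set_option autoImplicit false

open Filter Matrix Sum
open scoped Topology ComplexConjugate

namespace Pool.Agent.Work.MP_3a9764_gt

noncomputable section

variable {n k : ℕ}

/-- The extended tensor, indexed by a sum type. -/
def extS (S : T4 n) (h : Mat n) (c : ℝ) :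
    Fin n ⊕ Fin k → Fin n ⊕ Fin k → Fin n ⊕ Fin k → Fin n ⊕ Fin k → ℝ
  | inl i, inl j, inl p, inl q => S i j p q
  | inl i, inr a, inl j, inr b => if a = b then h i j else 0
  | inl i, inr a, inr b, inl j => if a = b then -h i j else 0
  | inr a, inl i, inl j, inr b => if a = b then -h i j else 0
  | inr a, inl i, inr b, inl j => if a = b then h i j else 0
  | inr a, inr b, inr p, inr q => c * Id4 k a b p q
  | _, _, _, _ => 0

/-- The extension of `S` with mixed curvature `h` and normal curvature `c`. -/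
def ext4 (k : ℕ) (S : T4 n) (h : Mat n) (c : ℝ) : T4 (n + k) := fun a b p q =>
  extS S h c (finSumFinEquiv.symm a) (finSumFinEquiv.symm b) (finSumFinEquiv.symm p)
    (finSumFinEquiv.symm q)

/-- The matrix with blocks `v`, `U`, `-Uᵀ`, `w`. -/
def blk (v : CMat n) (U : Matrix (Fin n) (Fin k) ℂ) (w : CMat k) : CMat (n + k) :=
  reindex finSumFinEquiv finSumFinEquiv (fromBlocks v U (-Uᵀ) w)

/-- A symmetric matrix as a sesquilinear form on `k`-tuples of vectors. -/
def hq (h : Mat n) (U V : Matrix (Fin n) (Fin k) ℂ) : ℂ :=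
  ∑ i, ∑ j, ∑ a, (h i j : ℂ) * U i a * conj (V j a)

/-- The squared norm of a rectangular complex matrix. -/
def nsr (U : Matrix (Fin n) (Fin k) ℂ) : ℝ := ∑ i, ∑ a, Complex.normSq (U i a)

/-- The product of a real matrix with a rectangular complex matrix. -/
def hm (h : Mat n) (U : Matrix (Fin n) (Fin k) ℂ) : Matrix (Fin n) (Fin k) ℂ :=
  of fun i a => ∑ j, (h i j : ℂ) * U j a

theorem hm_apply (h : Mat n) (U : Matrix (Fin n) (Fin k) ℂ) (i : Fin n) (a : Fin k) :
    hm h U i a = ∑ j, (h i j : ℂ) * U j a := rfl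

theorem hm_eq (h : Mat n) (U : Matrix (Fin n) (Fin k) ℂ) :
    hm h U = (h.map Complex.ofReal : CMat n) * U := rfl

theorem sum_fin_add {β : Type} [AddCommMonoid β] (f : Fin (n + k) → β) :
    ∑ a, f a = ∑ s : Fin n ⊕ Fin k, f (finSumFinEquiv s) :=
  (Equiv.sum_comp finSumFinEquiv f).symm

theorem ext4_apply (S : T4 n) (h : Mat n) (c : ℝ) (a b p q : Fin n ⊕ Fin k) :
    ext4 k S h c (finSumFinEquiv a) (finSumFinEquiv b) (finSumFinEquiv p) (finSumFinEquiv q) =
      extS S h c a b p q := by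
  simp only [ext4, Equiv.symm_apply_apply]

theorem blk_apply (v : CMat n) (U : Matrix (Fin n) (Fin k) ℂ) (w : CMat k) (a b : Fin n ⊕ Fin k) :
    blk v U w (finSumFinEquiv a) (finSumFinEquiv b) = fromBlocks v U (-Uᵀ) w a b := by
  simp only [blk, reindex_apply, submatrix_apply, Equiv.symm_apply_apply]

theorem isOp_ext4 {S : T4 n} (hS : IsOp S) {h : Mat n} (hh : h.IsSymm) (c : ℝ) :
    IsOp (ext4 k S h c) := by
  have hI := isCurv_Id4 (n := k)
  refine ⟨fun a b p q => ?_, fun a b p q => ?_⟩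
  all_goals
    simp only [ext4]
    generalize finSumFinEquiv.symm a = a
    generalize finSumFinEquiv.symm b = b
    generalize finSumFinEquiv.symm p = p
    generalize finSumFinEquiv.symm q = q
    rcases a with a | a <;> rcases b with b | b <;> rcases p with p | p <;> rcases q with q | q <;>
      simp only [extS, neg_zero]
  · exact hS.skew a b p q
  · split_ifs <;> simp
  · split_ifs <;> simp
  · split_ifs <;> simp
  · split_ifs <;> simp
  · rw [hI.skew a b p q, mul_neg]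
  · exact hS.pair a b p q
  · simp only [eq_comm (a := q), hh.apply a p]
  · simp only [eq_comm (a := p), hh.apply a q]
  · simp only [eq_comm (a := q), hh.apply b p]
  · simp only [eq_comm (a := p), hh.apply b q]
  · rw [hI.pair a b p q]

theorem isCurv_ext4 {S : T4 n} (hS : IsCurv S) {h : Mat n} (hh : h.IsSymm) (c : ℝ) :
    IsCurv (ext4 k S h c) := by
  have hI := isCurv_Id4 (n := k)
  refine ⟨(isOp_ext4 hS.isOp hh c).skew, (isOp_ext4 hS.isOp hh c).pair, fun a b p q => ?_⟩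
  simp only [ext4]
  generalize finSumFinEquiv.symm a = a
  generalize finSumFinEquiv.symm b = b
  generalize finSumFinEquiv.symm p = p
  generalize finSumFinEquiv.symm q = q
  rcases a with a | a <;> rcases b with b | b <;> rcases p with p | p <;> rcases q with q | q <;>
    simp only [extS, add_zero, zero_add]
  · exact hS.bianchi a b p q
  · simp only [hh.apply a b]; split_ifs <;> simp
  · simp only [hh.apply a p]; split_ifs <;> simp
  · simp only [eq_comm (a := p)]; split_ifs <;> simp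
  · simp only [hh.apply b p]; split_ifs <;> simp
  · simp only [eq_comm (a := p)]; split_ifs <;> simp
  · simp only [eq_comm (a := b)]; split_ifs <;> simp
  · rw [← mul_add, ← mul_add, hI.bianchi, mul_zero]

theorem ext4_add (S S' : T4 n) (h h' : Mat n) (c c' : ℝ) :
    ext4 k (S + S') (h + h') (c + c') = ext4 k S h c + ext4 k S' h' c' := by
  funext a b p q
  simp only [ext4, Pi.add_apply]
  generalize finSumFinEquiv.symm a = a
  generalize finSumFinEquiv.symm b = b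
  generalize finSumFinEquiv.symm p = p
  generalize finSumFinEquiv.symm q = q
  rcases a with a | a <;> rcases b with b | b <;> rcases p with p | p <;> rcases q with q | q <;>
    simp only [extS, add_zero, Pi.add_apply, Matrix.add_apply, add_mul] <;>
    split_ifs <;> simp [add_comm]

theorem Qq4_ext4 {S : T4 n} {h : Mat n} (hh : h.IsSymm) (c : ℝ) :
    Qq4 (ext4 k S h c) = ext4 k (Qq4 S + ((k : ℝ) / 2) • kn h h)
      (h * h + st4 S h + (((k : ℝ) - 1) * c) • h) (((k : ℝ) - 1) * c ^ 2 + (h * h).trace) := by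
  have hI : ∀ b q : Fin k, ∑ x, Id4 k b x q x = if b = q then (k : ℝ) - 1 else 0 := by
    intro b q
    have h1 := congrFun (congrFun (ric4_Id4 (n := k)) b) q
    simp only [ric4, Matrix.smul_apply, Matrix.one_apply, smul_eq_mul, mul_ite, mul_one,
      mul_zero] at h1
    rw [← h1]
    exact Finset.sum_congr rfl fun x _ => isCurv_Id4.swap x b x q
  have hM : ∀ a p, ∑ x, h a x * h p x = (h * h) a p := fun a p => by
    simp only [mul_apply, hh.apply p]
  have hS : ∀ a p, ∑ x, ∑ y, S a x p y * h x y = st4 S h a p := fun _ _ => rfl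
  have hS' : ∀ a p, ∑ x, ∑ y, h x y * S a x p y = st4 S h a p := fun _ _ => by
    simp only [st4, mul_comm]
  funext a b p q
  obtain ⟨a, rfl⟩ := finSumFinEquiv.surjective a
  obtain ⟨b, rfl⟩ := finSumFinEquiv.surjective b
  obtain ⟨p, rfl⟩ := finSumFinEquiv.surjective p
  obtain ⟨q, rfl⟩ := finSumFinEquiv.surjective q
  simp only [Qq4, sum_fin_add, ext4_apply, Fintype.sum_sum_type]
  rcases a with a | a <;> rcases b with b | b <;> rcases p with p | p <;> rcases q with q | q <;>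
    simp only [extS, mul_zero, zero_mul, add_zero, zero_add, sub_zero, zero_sub,
      Finset.sum_const_zero, sub_self, Finset.sum_add_distrib, Finset.sum_sub_distrib, mul_ite,
      ite_mul, Finset.sum_ite_eq, Finset.sum_ite_eq', Finset.mem_univ, if_true, neg_zero,
      Finset.sum_ite_irrel, Finset.sum_neg_distrib]
  · simp only [Qq4, kn, Pi.add_apply, Pi.smul_apply, smul_eq_mul, Finset.sum_add_distrib,
      Finset.sum_sub_distrib, Finset.sum_const, Finset.card_univ, Fintype.card_fin, nsmul_eq_mul]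
    ring
  · simp only [eq_comm (a := q), sub_self]
  iterate 2
    · simp only [neg_mul, mul_neg, neg_neg, Finset.sum_neg_distrib, ← Finset.mul_sum, hM, hS, hI,
        Matrix.add_apply, Matrix.smul_apply, smul_eq_mul]
      split_ifs <;> ring
  · simp
  iterate 2
    · simp only [neg_mul, mul_neg, neg_neg, Finset.sum_neg_distrib, ← Finset.mul_sum,
        ← Finset.sum_mul, hM, hS', hI, Matrix.add_apply, Matrix.smul_apply, smul_eq_mul]
      split_ifs <;> ring
  · simp only [mul_comm (-h _ p), sub_self]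
  · simp
  · simp
  · have h1 := congrFun (congrFun (congrFun (congrFun
      ((T.Qq4_smul c (Id4 k)).trans (by rw [Qq4_Id4])) a) b) p) q
    simp only [Qq4, Pi.smul_apply, smul_eq_mul, Finset.sum_add_distrib,
      Finset.sum_sub_distrib] at h1
    have h2 : ∑ x, ∑ y, h x y * h x y = (h * h).trace := by simp only [hM, trace, diag_apply]
    rw [h1, h2]
    simp only [Id4, ite_and]
    split_ifs <;> ring

theorem blk_skew {v : CMat n} (hv : vᵀ = -v) (U : Matrix (Fin n) (Fin k) ℂ) {w : CMat k}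
    (hw : wᵀ = -w) : (blk v U w)ᵀ = -blk v U w := by
  rw [blk, transpose_reindex, fromBlocks_transpose, hv, hw, transpose_neg, transpose_transpose]
  ext a b
  simp only [reindex_apply, submatrix_apply, Matrix.neg_apply]
  rw [← Matrix.neg_apply, fromBlocks_neg, neg_neg]

theorem exists_blk {u : CMat (n + k)} (hu : uᵀ = -u) :
    ∃ v U w, vᵀ = -v ∧ wᵀ = -w ∧ u = blk v U w := by
  have h : ∀ a b, u b a = -u a b := fun a b => congrFun (congrFun hu a) b
  refine ⟨of fun i j => u (finSumFinEquiv (inl i)) (finSumFinEquiv (inl j)),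
    of fun i a => u (finSumFinEquiv (inl i)) (finSumFinEquiv (inr a)),
    of fun a b => u (finSumFinEquiv (inr a)) (finSumFinEquiv (inr b)), ?_, ?_, ?_⟩
  · ext i j; exact h _ _
  · ext i j; exact h _ _
  · ext a b
    obtain ⟨a, rfl⟩ := finSumFinEquiv.surjective a
    obtain ⟨b, rfl⟩ := finSumFinEquiv.surjective b
    rw [blk_apply]
    rcases a with a | a <;> rcases b with b | b
    · rfl
    · rfl
    · exact h _ _
    · rfl

theorem blk_inj {v v' : CMat n} {U U' : Matrix (Fin n) (Fin k) ℂ} {w w' : CMat k}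
    (h : blk v U w = blk v' U' w') : v = v' ∧ U = U' ∧ w = w' := by
  have h1 := fromBlocks_inj.1 ((reindex finSumFinEquiv finSumFinEquiv).injective h)
  exact ⟨h1.1, h1.2.1, h1.2.2.2⟩

theorem blk_conj (v : CMat n) (U : Matrix (Fin n) (Fin k) ℂ) (w : CMat k) :
    (blk v U w).map conj = blk (v.map conj) (U.map conj) (w.map conj) := by
  ext a b
  obtain ⟨a, rfl⟩ := finSumFinEquiv.surjective a
  obtain ⟨b, rfl⟩ := finSumFinEquiv.surjective b
  rw [Matrix.map_apply, blk_apply, blk_apply]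
  rcases a with a | a <;> rcases b with b | b <;> simp

theorem blk_mul (v v' : CMat n) (U U' : Matrix (Fin n) (Fin k) ℂ) (w w' : CMat k) :
    blk v U w * blk v' U' w' = reindex finSumFinEquiv finSumFinEquiv
      (fromBlocks (v * v' - U * U'ᵀ) (v * U' + U * w') (-(Uᵀ * v' + w * U'ᵀ))
        (w * w' - Uᵀ * U')) := by
  simp only [blk, reindex_apply, submatrix_mul_equiv, fromBlocks_multiply, Matrix.mul_neg,
    Matrix.neg_mul, sub_eq_add_neg, neg_add, add_comm (w * w')]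

theorem blk_sq_zero {v : CMat n} {U : Matrix (Fin n) (Fin k) ℂ} {w : CMat k}
    (h : blk v U w * blk v U w = 0) :
    v * v = U * Uᵀ ∧ v * U + U * w = 0 ∧ w * w = Uᵀ * U := by
  rw [blk_mul] at h
  have h0 : (0 : CMat (n + k)) = reindex finSumFinEquiv finSumFinEquiv (fromBlocks 0 0 0 0) := by
    simp
  have h1 := fromBlocks_inj.1 ((reindex finSumFinEquiv finSumFinEquiv).injective (h.trans h0))
  exact ⟨sub_eq_zero.1 h1.1, h1.2.1, sub_eq_zero.1 h1.2.2.2⟩

theorem nsq_blk (v : CMat n) (U : Matrix (Fin n) (Fin k) ℂ) (w : CMat k) :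
    nsq (blk v U w) = nsq v + 2 * nsr U + nsq w := by
  simp only [nsq, nsr, sum_fin_add, blk_apply, Fintype.sum_sum_type, fromBlocks_apply₁₁,
    fromBlocks_apply₁₂, fromBlocks_apply₂₁, fromBlocks_apply₂₂, Finset.sum_add_distrib,
    Matrix.neg_apply, transpose_apply, Complex.normSq_neg]
  rw [Finset.sum_comm (f := fun (a : Fin k) (i : Fin n) => Complex.normSq (U i a))]
  ring

theorem cop_Id4 {w : CMat k} (hw : wᵀ = -w) : cop (Id4 k) w = (2 : ℂ) • w := by
  ext a b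
  have h : w b a = -w a b := congrFun (congrFun hw a) b
  simp only [cop, Id4, ite_and, Complex.ofReal_sub, apply_ite Complex.ofReal, Complex.ofReal_one,
    Complex.ofReal_zero, sub_mul, ite_mul, one_mul, zero_mul, Finset.sum_sub_distrib,
    Finset.sum_ite_irrel, Finset.sum_ite_eq, Finset.mem_univ, if_true, Finset.sum_const_zero, h,
    Matrix.smul_apply, smul_eq_mul]
  ring

theorem cop_ext4 (S : T4 n) (h : Mat n) (c : ℝ) (v : CMat n) (U : Matrix (Fin n) (Fin k) ℂ)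
    {w : CMat k} (hw : wᵀ = -w) : cop (ext4 k S h c) (blk v U w) =
      blk (cop S v) ((2 : ℂ) • (hm h U)) ((2 * c : ℂ) • w) := by
  ext a b
  obtain ⟨a, rfl⟩ := finSumFinEquiv.surjective a
  obtain ⟨b, rfl⟩ := finSumFinEquiv.surjective b
  simp only [cop, sum_fin_add, ext4_apply, blk_apply, Fintype.sum_sum_type]
  rcases a with a | a <;> rcases b with b | b
  · simp [extS, cop]
  · simp [extS, apply_ite, hm_apply, two_mul]
  · simp [extS, apply_ite, hm_apply, two_mul]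
  · have h1 := congrFun (congrFun (cop_Id4 hw) a) b
    simp only [cop, Matrix.smul_apply, smul_eq_mul] at h1
    simp only [extS, Complex.ofReal_zero, zero_mul, Finset.sum_const_zero, zero_add,
      fromBlocks_apply₂₂, Complex.ofReal_mul, mul_assoc, ← Finset.mul_sum, h1, Matrix.smul_apply,
      smul_eq_mul]
    ring

theorem cq_eq_cop' (R : T4 n) (v w : CMat n) :
    cq R v w = ∑ i, ∑ j, v i j * conj (cop R w i j) := by
  simp only [cq, cop, map_sum, map_mul, Complex.conj_ofReal, Finset.mul_sum]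
  exact Finset.sum_congr rfl fun _ _ => Finset.sum_congr rfl fun _ _ =>
    Finset.sum_congr rfl fun _ _ => Finset.sum_congr rfl fun _ _ => by ring

theorem cq_ext4 (S : T4 n) (h : Mat n) (c : ℝ) (v v' : CMat n) (U U' : Matrix (Fin n) (Fin k) ℂ)
    (w : CMat k) {w' : CMat k} (hw : w'ᵀ = -w') :
    cq (ext4 k S h c) (blk v U w) (blk v' U' w') =
      cq S v v' + 4 * hq h U U' + 2 * c * ∑ a, ∑ b, w a b * conj (w' a b) := by
  rw [cq_eq_cop', cop_ext4 S h c v' U' hw, cq_eq_cop']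
  simp only [sum_fin_add, blk_apply, Fintype.sum_sum_type, fromBlocks_apply₁₁,
    fromBlocks_apply₁₂, fromBlocks_apply₂₁, fromBlocks_apply₂₂, Finset.sum_add_distrib,
    Matrix.neg_apply, transpose_apply, map_neg, neg_mul_neg]
  rw [Finset.sum_comm (f := fun (a : Fin k) (i : Fin n) => U i a * _)]
  have e1 : ∑ i, ∑ a, U i a * conj (((2 : ℂ) • hm h U') i a) = 2 * hq h U U' := by
    simp only [hq, Matrix.smul_apply, hm_apply, smul_eq_mul, map_mul,
      map_sum, Complex.conj_ofReal, map_ofNat, Finset.mul_sum]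
    refine Finset.sum_congr rfl fun i _ => ?_
    rw [Finset.sum_comm]
    exact Finset.sum_congr rfl fun _ _ => Finset.sum_congr rfl fun _ _ => by ring
  have e2 : ∑ a, ∑ b, w a b * conj (((2 * c : ℂ) • w') a b) =
      2 * c * ∑ a, ∑ b, w a b * conj (w' a b) := by
    simp only [Matrix.smul_apply, smul_eq_mul, map_mul, Complex.conj_ofReal, map_ofNat,
      Finset.mul_sum]
    exact Finset.sum_congr rfl fun _ _ => Finset.sum_congr rfl fun _ _ => by ring
  rw [e1, e2]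
  ring

theorem cq_ext4_re (S : T4 n) (h : Mat n) (c : ℝ) (v : CMat n) (U : Matrix (Fin n) (Fin k) ℂ)
    {w : CMat k} (hw : wᵀ = -w) : (cq (ext4 k S h c) (blk v U w) (blk v U w)).re =
      (cq S v v).re + 4 * (hq h U U).re + 2 * c * nsq w := by
  rw [cq_ext4 S h c v v U U w hw, nsq_eq]
  simp

theorem hq_add (h h' : Mat n) (U V : Matrix (Fin n) (Fin k) ℂ) :
    hq (h + h') U V = hq h U V + hq h' U V := by
  simp only [hq, Matrix.add_apply, Complex.ofReal_add, add_mul, Finset.sum_add_distrib]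

theorem hq_smul (c : ℝ) (h : Mat n) (U V : Matrix (Fin n) (Fin k) ℂ) :
    hq (c • h) U V = c * hq h U V := by
  simp only [hq, Matrix.smul_apply, smul_eq_mul, Complex.ofReal_mul, Finset.mul_sum, mul_assoc]

theorem hq_one (U : Matrix (Fin n) (Fin k) ℂ) : hq 1 U U = nsr U := by
  simp [hq, nsr, Matrix.one_apply, apply_ite, Complex.mul_conj]

theorem hq_sq {h : Mat n} (hh : h.IsSymm) (U : Matrix (Fin n) (Fin k) ℂ) :
    hq (h * h) U U = nsr (hm h U) := by
  simp only [hq, nsr, Complex.ofReal_sum, ← Complex.mul_conj, Matrix.mul_apply, hm_apply,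
    map_sum, map_mul, Complex.conj_ofReal, Complex.ofReal_mul, Finset.sum_mul_sum]
  simp only [Finset.sum_mul]
  calc _ = ∑ i, ∑ a, ∑ j, ∑ p, (h i p : ℂ) * (h p j : ℂ) * U i a * conj (U j a) :=
        Finset.sum_congr rfl fun i _ => Finset.sum_comm
    _ = ∑ a, ∑ i, ∑ j, ∑ p, (h i p : ℂ) * (h p j : ℂ) * U i a * conj (U j a) := Finset.sum_comm
    _ = ∑ a, ∑ p, ∑ i, ∑ j, (h i p : ℂ) * (h p j : ℂ) * U i a * conj (U j a) := by
        refine Finset.sum_congr rfl fun a _ => ?_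
        rw [Finset.sum_comm (f := fun p i => ∑ j, (h i p : ℂ) * (h p j : ℂ) * U i a * conj (U j a))]
        exact Finset.sum_congr rfl fun i _ => Finset.sum_comm
    _ = _ := by
        rw [Finset.sum_comm]
        refine Finset.sum_congr rfl fun p _ => Finset.sum_congr rfl fun a _ =>
          Finset.sum_congr rfl fun i _ => Finset.sum_congr rfl fun j _ => ?_
        rw [hh.apply i p]
        ring

theorem nsq_smul (c : ℂ) (v : CMat n) : nsq (c • v) = Complex.normSq c * nsq v := by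
  simp only [nsq, Matrix.smul_apply, smul_eq_mul, map_mul, Finset.mul_sum]

theorem nsr_smul (c : ℂ) (U : Matrix (Fin n) (Fin k) ℂ) :
    nsr (c • U) = Complex.normSq c * nsr U := by
  simp only [nsr, Matrix.smul_apply, smul_eq_mul, map_mul, Finset.mul_sum]

/-- The variational lemma for the extended tensor, in terms of the blocks. -/
theorem ext_min {S : T4 n} (hS : IsOp S) {h : Mat n} (hh : h.IsSymm) (c : ℝ) {v : CMat n}
    (hv : vᵀ = -v) (U : Matrix (Fin n) (Fin k) ℂ) {w : CMat k} (hw : wᵀ = -w)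
    (hmin : ∀ᶠ g in 𝓝 (1 : CMat (n + k)), gᵀ * g = 1 → g.det = 1 →
      (cq (ext4 k S h c) (blk v U w) (blk v U w)).re ≤
        (cq (ext4 k S h c) (g * blk v U w * gᵀ) (g * blk v U w * gᵀ)).re) :
    (nsq (cop S v) / 2 - (k : ℝ) / 2 * (cq (kn h h) v v).re -
        4 * (hq (st4 S h + (((k : ℝ) - 1) * c) • h) U U).re -
        2 * (((k : ℝ) - 2) * c ^ 2 + (h * h).trace) * nsq w ≤ (cq (Qq4 S) v v).re) ∧
      cop S v * v.map conj - v.map conj * cop S v =
        (2 : ℂ) • (hm h U * (U.map conj)ᵀ - U.map conj * (hm h U)ᵀ) ∧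
      cop S v * U.map conj = (2 : ℂ) • (v.map conj * (hm h U) -
        hm h U * w.map conj + (c : ℂ) • (U.map conj * w)) ∧
      (c : ℂ) • (w * w.map conj - w.map conj * w) =
        (hm h U)ᵀ * U.map conj - (U.map conj)ᵀ * (hm h U) := by
  obtain ⟨h1, h2⟩ := orbit_min_op (isOp_ext4 hS hh c) (blk_skew hv U hw) hmin
  rw [cop_ext4 S h c v U hw] at h1 h2
  rw [blk_conj, blk_mul, blk_mul] at h1
  have h3 := fromBlocks_inj.1 ((reindex finSumFinEquiv finSumFinEquiv).injective h1)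
  rw [Qq4_ext4 hh, cq_ext4_re _ _ _ _ _ hw, nsq_blk, nsr_smul, nsq_smul, add_assoc (h * h),
    hq_add, hq_sq hh, cq_add, cq_smul] at h2
  simp only [Complex.add_re, Complex.re_ofReal_mul, Complex.ofReal_re, map_mul,
    Complex.normSq_ofNat, Complex.normSq_ofReal] at h2
  obtain ⟨a1, a2, -, a4⟩ := h3
  simp only [Matrix.smul_mul, Matrix.mul_smul, transpose_smul] at a1 a2 a4
  refine ⟨by linarith only [h2], ?_, ?_, ?_⟩
  · linear_combination (norm := module) a1
  · linear_combination (norm := module) a2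
  · refine smul_right_injective _ (two_ne_zero (α := ℂ)) ?_
    linear_combination (norm := (beta_reduce; module)) a4

/-- Minimality on orbits at a null vector of an invariant set. -/
theorem min_of_invariant {N : ℕ} {R : T4 N} {Z : Set (CMat N)}
    (hZ : ∀ u ∈ Z, ∀ g : CMat N, gᵀ * g = 1 → g.det = 1 → g * u * gᵀ ∈ Z)
    (h0 : ∀ u ∈ Z, 0 ≤ (cq R u u).re) {v : CMat N} (hv : v ∈ Z) (h1 : (cq R v v).re = 0) :
    ∀ᶠ g in 𝓝 (1 : CMat N), gᵀ * g = 1 → g.det = 1 →
      (cq R v v).re ≤ (cq R (g * v * gᵀ) (g * v * gᵀ)).re :=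
  .of_forall fun g hg hd => h1.le.trans (h0 _ (hZ v hv g hg hd))

/-- Skew matrices of square zero. -/
def SqZero (N : ℕ) : Set (CMat N) := {u | uᵀ = -u ∧ u * u = 0}

theorem sqZero_invariant {N : ℕ} : ∀ u ∈ SqZero N, ∀ g : CMat N, gᵀ * g = 1 → g.det = 1 →
    g * u * gᵀ ∈ SqZero N := by
  rintro u ⟨h1, h2⟩ g hg -
  constructor
  · rw [transpose_mul, transpose_mul, transpose_transpose, h1, Matrix.neg_mul, Matrix.mul_neg,
      Matrix.mul_assoc]
  · calc g * u * gᵀ * (g * u * gᵀ) = g * u * (gᵀ * g) * u * gᵀ := by simp only [Matrix.mul_assoc]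
      _ = 0 := by rw [hg, Matrix.mul_one, Matrix.mul_assoc g u u, h2]; simp

end

end Pool.Agent.Work.MP_3a9764_gt
end

-- merged part: Pool.Agent.Work.MP_3a9764_gt.PCore
section
/-! The pointwise inequality of the step with a non-invariant penalty. -/

set_option autoImplicit false

open Matrix
open scoped ComplexConjugate ComplexOrder

namespace Pool.Agent.Work.MP_3a9764_gt

noncomputable section

open T

variable {N r : ℕ}

/-- The sectional pairing of two matrices. -/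
def bt (R : T4 N) (E F : CMat N) : ℂ := ∑ i, ∑ j, ∑ k, ∑ l, (R i j k l : ℂ) * E i k * F j l

theorem bt_add_left (R : T4 N) (E E' F : CMat N) : bt R (E + E') F = bt R E F + bt R E' F := by
  simp only [bt, Matrix.add_apply, mul_add, add_mul, Finset.sum_add_distrib]

theorem bt_add_right (R : T4 N) (E F F' : CMat N) : bt R E (F + F') = bt R E F + bt R E F' := by
  simp only [bt, Matrix.add_apply, mul_add, Finset.sum_add_distrib]

theorem bt_add (R S : T4 N) (E F : CMat N) : bt (R + S) E F = bt R E F + bt S E F := by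
  simp only [bt, Pi.add_apply, Complex.ofReal_add, add_mul, Finset.sum_add_distrib]

theorem bt_smul (c : ℝ) (R : T4 N) (E F : CMat N) : bt (c • R) E F = c * bt R E F := by
  simp only [bt, Pi.smul_apply, smul_eq_mul, Complex.ofReal_mul, Finset.mul_sum, mul_assoc]

theorem bt_comm {R : T4 N} (hR : IsOp R) (E F : CMat N) : bt R E F = bt R F E := by
  unfold bt
  rw [Finset.sum_comm]
  refine Finset.sum_congr rfl fun i _ => Finset.sum_congr rfl fun j _ => ?_
  rw [Finset.sum_comm]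
  refine Finset.sum_congr rfl fun k _ => Finset.sum_congr rfl fun l _ => ?_
  rw [hR.skew i j l k, hR.skew' i j k l, neg_neg]
  ring

theorem bt_transpose {R : T4 N} (hR : IsOp R) (E F : CMat N) : bt R Eᵀ Fᵀ = bt R E F := by
  unfold bt
  rw [sum_pair]
  exact Finset.sum_congr rfl fun i _ => Finset.sum_congr rfl fun j _ =>
    Finset.sum_congr rfl fun k _ => Finset.sum_congr rfl fun l _ => by
      rw [hR.pair i j k l, transpose_apply, transpose_apply]

theorem bt_one_one (R : T4 N) : bt R 1 1 = scal4 R := by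
  simp [bt, scal4, Matrix.one_apply]

theorem cq_bianchi {R : T4 N} (hR : IsCurv R) (E F : CMat N) :
    cq R E (F.map conj) = bt R E F - bt R Eᵀ F := by
  have e1 : bt R Eᵀ F = ∑ i, ∑ j, ∑ k, ∑ l, (R j k i l : ℂ) * E i j * F k l := by
    unfold bt
    rw [Finset.sum_comm (f := fun i j => ∑ k, ∑ l, (R j k i l : ℂ) * E i j * F k l)]
    exact Finset.sum_congr rfl fun j _ => Finset.sum_comm
  have e2 : bt R E F = ∑ i, ∑ j, ∑ k, ∑ l, -((R k i j l : ℂ) * E i j * F k l) := by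
    unfold bt
    refine Finset.sum_congr rfl fun i _ => ?_
    rw [Finset.sum_comm]
    exact Finset.sum_congr rfl fun j _ => Finset.sum_congr rfl fun k _ =>
      Finset.sum_congr rfl fun l _ => by rw [hR.skew i k j l]; push_cast; ring
  rw [e1, e2]
  simp only [cq, Matrix.map_apply, Complex.conj_conj, ← Finset.sum_sub_distrib]
  refine Finset.sum_congr rfl fun i _ => Finset.sum_congr rfl fun j _ =>
    Finset.sum_congr rfl fun k _ => Finset.sum_congr rfl fun l _ => ?_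
  have h : (R i j k l : ℂ) = -R j k i l - R k i j l := by
    have := hR.bianchi i j k l
    rw [show R i j k l = -R j k i l - R k i j l by linarith]
    push_cast
    ring
  rw [h]
  ring

theorem cq_herm {R : T4 N} (hR : IsCurv R) {E : CMat N} (hE : Eᴴ = E) :
    cq R (Eᵀ - E) (Eᵀ - E) = 4 * (bt R E Eᵀ - bt R E E) := by
  have h1 : cq R E E = bt R E Eᵀ - bt R E E := by
    have h2 : Eᵀ.map conj = E := hE
    have h3 := cq_bianchi hR E Eᵀ
    rwa [h2, bt_transpose hR.isOp] at h3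
  simp only [sub_eq_add_neg Eᵀ, cq_add_left, cq_add_right, cq_neg_left, cq_neg_right,
    cq_transpose_left hR.isOp, cq_transpose_right hR.isOp, h1]
  ring

theorem bt_gram {R : T4 N} (hR : IsOp R) {α β : Type} [Fintype α] [Fintype β]
    (A : Matrix (Fin N) α ℂ) (B : Matrix (Fin N) β ℂ) : 4 * bt R (A * Aᴴ) (B * Bᴴ) =
      ∑ a, ∑ b, cq R (wedge (Aᵀ a) (Bᵀ b)) (wedge (Aᵀ a) (Bᵀ b)) := by
  simp only [cq_wedge hR, ← Finset.mul_sum]
  congr 1
  have e : ∀ F : α → β → Fin N → Fin N → Fin N → Fin N → ℂ,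
      ∑ a, ∑ b, ∑ i, ∑ j, ∑ k, ∑ l, F a b i j k l = ∑ i, ∑ j, ∑ k, ∑ l, ∑ a, ∑ b, F a b i j k l := by
    intro F
    rw [← Fintype.sum_prod_type', Finset.sum_comm]
    refine Finset.sum_congr rfl fun i _ => ?_
    rw [Finset.sum_comm]
    refine Finset.sum_congr rfl fun j _ => ?_
    rw [Finset.sum_comm]
    refine Finset.sum_congr rfl fun k _ => ?_
    rw [Finset.sum_comm]
    exact Finset.sum_congr rfl fun l _ => Fintype.sum_prod_type' fun a b => F a b i j k l
  simp only [cq]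
  rw [e]
  simp only [bt, mul_apply, conjTranspose_apply, vecMulVec_apply, transpose_apply, mul_assoc,
    Finset.sum_mul_sum, map_mul, RCLike.star_def]
  simp only [Finset.mul_sum]
  exact Finset.sum_congr rfl fun i _ => Finset.sum_congr rfl fun j _ =>
    Finset.sum_congr rfl fun k _ => Finset.sum_congr rfl fun l _ =>
    Finset.sum_congr rfl fun a _ => Finset.sum_congr rfl fun b _ => by ring

theorem bt_gram_re {R : T4 N} (hR : IsOp R) {α β : Type} [Fintype α] [Fintype β]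
    (A : Matrix (Fin N) α ℂ) (B : Matrix (Fin N) β ℂ) :
    (bt R (A * Aᴴ) (B * Bᴴ)).re = ∑ a, ∑ b, rq R (wedge (Aᵀ a) (Bᵀ b)) := by
  have h := congrArg Complex.re (bt_gram hR A B)
  simp only [Complex.re_sum, Complex.mul_re, Complex.re_ofNat, Complex.im_ofNat] at h
  simp only [rq, ← Finset.sum_div]
  linarith only [h]

theorem PIC2w.bt_nonneg {R : T4 N} (h : PIC2w R) (hR : IsOp R) {α β : Type} [Fintype α]
    [Fintype β] (A : Matrix (Fin N) α ℂ) (B : Matrix (Fin N) β ℂ) :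
    0 ≤ (bt R (A * Aᴴ) (B * Bᴴ)).re := by
  rw [bt_gram_re hR]
  exact Finset.sum_nonneg fun _ _ => Finset.sum_nonneg fun _ _ => h _ _

/-- The projection on the complement of an isotropic subspace and its conjugate. -/
def midP (V : Matrix (Fin N) (Fin r) ℂ) : CMat N := 1 - V * Vᴴ - (V * Vᴴ)ᵀ

theorem proj_herm (V : Matrix (Fin N) (Fin r) ℂ) : (V * Vᴴ)ᴴ = V * Vᴴ := by simp

theorem proj_transpose (V : Matrix (Fin N) (Fin r) ℂ) :
    (V * Vᴴ)ᵀ = V.map conj * (V.map conj)ᴴ := by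
  ext i j
  simp [mul_apply, mul_comm]

theorem midP_transpose (V : Matrix (Fin N) (Fin r) ℂ) : (midP V)ᵀ = midP V := by
  simp only [midP, transpose_sub, transpose_one, transpose_transpose]; abel

theorem midP_herm (V : Matrix (Fin N) (Fin r) ℂ) : (midP V)ᴴ = midP V := by
  simp only [midP, conjTranspose_sub, conjTranspose_one, ← ct_comm, proj_herm]

theorem proj_sq {V : Matrix (Fin N) (Fin r) ℂ} (hV1 : Vᴴ * V = 1) :
    V * Vᴴ * (V * Vᴴ) = V * Vᴴ := by
  rw [Matrix.mul_assoc, ← Matrix.mul_assoc Vᴴ, hV1, Matrix.one_mul]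

theorem proj_orth {V : Matrix (Fin N) (Fin r) ℂ} (hV0 : Vᵀ * V = 0) :
    (V * Vᴴ)ᵀ * (V * Vᴴ) = 0 := by
  rw [transpose_mul, Matrix.mul_assoc, ← Matrix.mul_assoc Vᵀ, hV0]; simp

theorem proj_orth' {V : Matrix (Fin N) (Fin r) ℂ} (hV0 : Vᵀ * V = 0) :
    V * Vᴴ * (V * Vᴴ)ᵀ = 0 := by
  have h := congrArg conjTranspose (proj_orth hV0)
  rwa [conjTranspose_mul, ← ct_comm, proj_herm, conjTranspose_zero] at h

theorem midP_sq {V : Matrix (Fin N) (Fin r) ℂ} (hV0 : Vᵀ * V = 0) (hV1 : Vᴴ * V = 1) :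
    midP V * midP V = midP V := by
  have h : (V * Vᴴ)ᵀ * (V * Vᴴ)ᵀ = (V * Vᴴ)ᵀ := by rw [← transpose_mul, proj_sq hV1]
  simp only [midP, Matrix.sub_mul, Matrix.mul_sub, Matrix.one_mul, Matrix.mul_one, proj_sq hV1,
    proj_orth hV0, proj_orth' hV0, h]
  abel

theorem midP_gram {V : Matrix (Fin N) (Fin r) ℂ} (hV0 : Vᵀ * V = 0) (hV1 : Vᴴ * V = 1) :
    midP V * (midP V)ᴴ = midP V := by rw [midP_herm, midP_sq hV0 hV1]

theorem scal4_eq_bt {R : T4 N} (hR : IsOp R) (V : Matrix (Fin N) (Fin r) ℂ) :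
    scal4 R = 2 * (bt R (V * Vᴴ) (V * Vᴴ)).re + 2 * (bt R (V * Vᴴ) (V * Vᴴ)ᵀ).re +
      4 * (bt R (V * Vᴴ) (midP V)).re + (bt R (midP V) (midP V)).re := by
  have h0 : (1 : CMat N) = V * Vᴴ + (V * Vᴴ)ᵀ + midP V := by rw [midP]; abel
  have h1 := bt_one_one R
  have h2 : bt R (V * Vᴴ)ᵀ (midP V) = bt R (V * Vᴴ) (midP V) := by
    rw [← bt_transpose hR, transpose_transpose, midP_transpose]
  rw [h0] at h1
  simp only [bt_add_left, bt_add_right, bt_transpose hR, bt_comm hR (midP V) (V * Vᴴ),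
    bt_comm hR (midP V) (V * Vᴴ)ᵀ, bt_comm hR (V * Vᴴ)ᵀ (V * Vᴴ), h2] at h1
  have h3 := congrArg Complex.re h1
  simp only [Complex.add_re, Complex.ofReal_re] at h3
  linarith only [h3]

namespace T

/-- A matrix as a vector. -/
def vc (x : CMat N) : Fin N × Fin N → ℂ := fun p => x p.1 p.2

theorem vc_surj (z : Fin N × Fin N → ℂ) : ∃ x, z = vc x := ⟨of (Function.curry z), rfl⟩

theorem vc_form {R : T4 N} (hR : IsOp R) (x y : CMat N) :
    star (vc x) ⬝ᵥ (opM R *ᵥ vc y) = cq R y x := by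
  rw [cq_eq_cop hR]
  simp only [dotProduct, mulVec, Fintype.sum_prod_type, Pi.star_apply, vc, opM, cop, mul_comm,
    RCLike.star_def]

theorem vc_dot (R : T4 N) (v w : CMat N) : star (vc (cop R w)) ⬝ᵥ vc v = cq R v w := by
  rw [cq_eq_cop']
  simp only [dotProduct, Fintype.sum_prod_type, Pi.star_apply, vc, mul_comm, RCLike.star_def]

theorem adM_vc (u x : CMat N) : adM u *ᵥ vc x = vc (x * u - u * x) :=
  funext fun p => adM_mulVec u (vc x) p

theorem adM_transpose {u : CMat N} (hu : uᵀ = -u) : (adM u)ᵀ = -adM u := by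
  have h : ∀ i j, u j i = -u i j := fun i j => congrFun (congrFun hu i) j
  ext p q
  simp only [adM, transpose_apply, Matrix.neg_apply, eq_comm (a := q.1), eq_comm (a := p.2),
    h p.2 q.2, h q.1 p.1]
  split_ifs <;> simp [add_comm, sub_eq_add_neg]

theorem opM_transpose {R : T4 N} (hR : IsOp R) : (opM R)ᵀ = opM R := by
  ext p q
  simp [opM, hR.pair p.1 p.2 q.1 q.2]

theorem symm_of_trace {M : CMat N} (h : ∀ X : CMat N, Xᵀ = -X → (X * M).trace = 0) : Mᵀ = M := by
  ext i j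
  have h1 := h (single i j 1 - single j i 1) (by simp)
  rw [Matrix.sub_mul, trace_sub, trace_single_mul, trace_single_mul] at h1
  simpa [sub_eq_zero] using h1

theorem cq_skew_left {R : T4 N} (hR : IsOp R) (v u : CMat N) :
    cq R ((1 / 2 : ℂ) • (v - vᵀ)) u = cq R v u := by
  rw [cq_smul_left, sub_eq_add_neg, cq_add_left, cq_neg_left, cq_transpose_left hR]; ring

theorem cq_skew_right {R : T4 N} (hR : IsOp R) (v u : CMat N) :
    cq R u ((1 / 2 : ℂ) • (v - vᵀ)) = cq R u v := by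
  rw [cq_symm hR, cq_skew_left hR, ← cq_symm hR]

theorem cq_self {R : T4 N} (hR : IsOp R) (v : CMat N) : cq R v v = (4 * rq R v : ℝ) := by
  have h := congrArg Complex.im (cq_symm hR v v)
  simp only [Complex.conj_im] at h
  apply Complex.ext
  · simp only [rq, Complex.ofReal_re]; ring
  · simp only [Complex.ofReal_im]; linarith

theorem nsr_eq {α β : ℕ} (U : Matrix (Fin α) (Fin β) ℂ) : (nsr U : ℂ) = (U * Uᴴ).trace := by
  simp [nsr, trace, mul_apply, Complex.mul_conj]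

end T

theorem nsr_nonneg {α β : ℕ} (U : Matrix (Fin α) (Fin β) ℂ) : 0 ≤ nsr U :=
  Finset.sum_nonneg fun _ _ => Finset.sum_nonneg fun _ _ => Complex.normSq_nonneg _

/-- The first order condition. -/
theorem pen_first {R : T4 N} (hR : IsOp R) {V : Matrix (Fin N) (Fin r) ℂ} {w : CMat N}
    (hw : wᵀ = -w) {c t : ℝ}
    (H1 : ∀ X : CMat N, Xᵀ = -X → cq R (X * w - w * X) w / 4 = -(c * t) * (Vᴴ * X * V).trace) :
    (cop R w).map conj * w - w * (cop R w).map conj =
      (2 * c * t : ℂ) • ((V * Vᴴ)ᵀ - V * Vᴴ) := by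
  have hl := skew_conj (cop_skew hR w)
  have h1 := symm_of_trace (M := (cop R w).map conj * w - w * (cop R w).map conj +
      (4 * c * t : ℂ) • (V * Vᴴ)) fun X hX => by
    have h2 := H1 X hX
    rw [cq_eq_cop', pair_eq_trace _ (cop_skew hR w), Matrix.sub_mul, trace_sub,
      Matrix.mul_assoc w, trace_mul_comm w, trace_mul_comm (Vᴴ * X), ← Matrix.mul_assoc V,
      trace_mul_comm (V * Vᴴ)] at h2
    simp only [Matrix.mul_add, Matrix.mul_sub, Matrix.mul_smul, trace_add, trace_sub, trace_smul,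
      smul_eq_mul, ← Matrix.mul_assoc] at h2 ⊢
    linear_combination 4 * h2
  rw [transpose_add, skew_comm hl hw, transpose_smul] at h1
  refine smul_right_injective _ (two_ne_zero (α := ℂ)) ?_
  linear_combination (norm := (beta_reduce; module)) -h1

/-- The sharp form of the pointwise inequality. -/
theorem pen_exact {R : T4 N} (hR : IsCurv R) {V : Matrix (Fin N) (Fin r) ℂ} (hV1 : Vᴴ * V = 1)
    {w : CMat N} (hw : wᵀ = -w) {c t : ℝ} (hc : 0 < c)
    (H1 : ∀ X : CMat N, Xᵀ = -X → cq R (X * w - w * X) w / 4 = -(c * t) * (Vᴴ * X * V).trace)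
    (H2 : ∀ (X : CMat N) (Y : Matrix (Fin N) (Fin r) ℂ), Xᵀ = -X → Yᵀ * V = 0 →
      0 ≤ rq R (X * w - w * X + (V * Yᵀ - Y * Vᵀ)) +
        Complex.normSq (cq R (X * w - w * X + (V * Yᵀ - Y * Vᵀ)) w / 4) / c +
        c * t * nsr ((1 - V * Vᴴ) * X * V)) :
    nsq (cop R w) / 8 - t / 4 * nsr ((1 - V * Vᴴ) * (cop R w).map conj * V) -
      c * ((t - t ^ 2) * (bt R (V * Vᴴ) (V * Vᴴ)).re + t ^ 2 * (bt R (V * Vᴴ) (V * Vᴴ)ᵀ).re +
        t * (bt R (V * Vᴴ) (midP V)).re) ≤ rq (Qq4 R) w := by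
  have hO := hR.isOp
  set E : CMat N := 1 - V * Vᴴ with hE
  have hEV : E * V = 0 := by
    rw [hE, Matrix.sub_mul, Matrix.mul_assoc, hV1, Matrix.one_mul, Matrix.mul_one, sub_self]
  set L : Matrix (Fin N × Fin r) (Fin N × Fin N) ℂ := fun k => vc (wedge (E k.1) (Vᵀ k.2)) with hL
  have hL1 : ∀ x k, (L *ᵥ vc x) k = (E * (x - xᵀ) * V) k.1 k.2 := by
    intro x k
    simp only [hL, mulVec, dotProduct, vc, wedge, Fintype.sum_prod_type, Matrix.sub_apply,
      vecMulVec_apply, transpose_apply, mul_apply, Finset.sum_mul, sub_mul, mul_sub,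
      Finset.sum_sub_distrib]
    congr 1
    · rw [Finset.sum_comm]
      exact Finset.sum_congr rfl fun _ _ => Finset.sum_congr rfl fun _ _ => by ring
    · exact Finset.sum_congr rfl fun _ _ => Finset.sum_congr rfl fun _ _ => by ring
  have hL2 : ∀ μ : Matrix (Fin N) (Fin r) ℂ, Lᵀ *ᵥ (fun k => μ k.1 k.2) =
      vc (V * (-(Eᵀ * μ))ᵀ - -(Eᵀ * μ) * Vᵀ) := by
    intro μ
    funext p
    simp only [hL, mulVec, dotProduct, vc, wedge, Fintype.sum_prod_type, Matrix.sub_apply,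
      vecMulVec_apply, transpose_apply, mul_apply, Finset.sum_mul, sub_mul, Matrix.neg_apply,
      Finset.sum_sub_distrib, Finset.mul_sum, mul_neg, neg_mul, Finset.sum_neg_distrib,
      neg_sub_neg]
    congr 1 <;> rw [Finset.sum_comm] <;>
      exact Finset.sum_congr rfl fun _ _ => Finset.sum_congr rfl fun _ _ => by ring
  have h := trace_ext_rank (L := L) (adM_transpose hw) (opM_herm hO) (opM_transpose hO)
    (vc (cop R w)) (1 / (4 * c)) (c * t) fun x μ => by
      obtain ⟨x, rfl⟩ := vc_surj x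
      obtain ⟨μ, rfl⟩ : ∃ ν : Matrix (Fin N) (Fin r) ℂ, μ = fun k => ν k.1 k.2 :=
        ⟨of (Function.curry μ), rfl⟩
      have hY : (-(Eᵀ * μ))ᵀ * V = 0 := by
        rw [transpose_neg, transpose_mul, transpose_transpose, Matrix.neg_mul, Matrix.mul_assoc,
          hEV, Matrix.mul_zero, neg_zero]
      have h2 := H2 ((1 / 2 : ℂ) • (x - xᵀ)) _ (by
        rw [transpose_smul, transpose_sub, transpose_transpose, ← smul_neg, neg_sub]) hY
      rw [adM_vc, hL2]
      generalize -(Eᵀ * μ) = Y at h2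
      have e : (1 / 2 : ℂ) • (x - xᵀ) * w - w * (1 / 2 : ℂ) • (x - xᵀ) + (V * Yᵀ - Y * Vᵀ) =
          (1 / 2 : ℂ) • ((x * w - w * x + (V * Yᵀ - Y * Vᵀ)) -
            (x * w - w * x + (V * Yᵀ - Y * Vᵀ))ᵀ) := by
        simp only [transpose_add, transpose_sub, transpose_mul, transpose_transpose, hw,
          Matrix.smul_mul, Matrix.mul_smul, Matrix.sub_mul, Matrix.mul_sub, Matrix.neg_mul,
          Matrix.mul_neg]
        module
      have e' : vc (x * w - w * x) + vc (V * Yᵀ - Y * Vᵀ) =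
          vc (x * w - w * x + (V * Yᵀ - Y * Vᵀ)) := rfl
      have e2 : star (L *ᵥ vc x) ⬝ᵥ (L *ᵥ vc x) = (nsr (E * (x - xᵀ) * V) : ℂ) := by
        simp only [dotProduct, Pi.star_apply, hL1, Fintype.sum_prod_type, nsr, RCLike.star_def,
          Complex.ofReal_sum, Complex.normSq_eq_conj_mul_self]
      rw [e, rq, cq_skew_left hO, cq_skew_right hO, cq_skew_left hO, Matrix.mul_smul,
        Matrix.smul_mul, nsr_smul, ← rq] at h2
      rw [e', vc_form hO, vc_dot, e2, cq_self hO]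
      simp only [map_div₀, Complex.normSq_ofNat, map_one] at h2
      have h3 : 0 ≤ 4 * rq R (x * w - w * x + (V * Yᵀ - Y * Vᵀ)) + 1 / (4 * c) *
          Complex.normSq (cq R (x * w - w * x + (V * Yᵀ - Y * Vᵀ)) w) +
          c * t * nsr (E * (x - xᵀ) * V) := by
        refine (mul_nonneg (show (0 : ℝ) ≤ 4 by norm_num) h2).trans_eq ?_
        field_simp
        ring
      exact_mod_cast h3
  have e1 : star (vc (cop R w)) = vc ((cop R w).map conj) := rfl
  have e2 : ∀ k : Fin N × Fin r, cq R (wedge (E k.1) (Vᵀ k.2)) w =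
      2 * (E * (cop R w).map conj * V) k.1 k.2 := by
    intro k
    have h1 := hL1 ((cop R w).map conj) k
    rw [skew_conj (cop_skew hO w), sub_neg_eq_add, ← two_smul ℂ, Matrix.mul_smul,
      Matrix.smul_mul, Matrix.smul_apply, smul_eq_mul] at h1
    rw [← h1, ← vc_dot, e1, dotProduct_comm]
    rfl
  have e3 : ∑ k : Fin N × Fin r, cq R (wedge (E k.1) (Vᵀ k.2)) (wedge (E k.1) (Vᵀ k.2)) =
      4 * (bt R (V * Vᴴ) (V * Vᴴ) + bt R (V * Vᴴ) (midP V)) := by
    have h1 := bt_gram hO Eᵀ V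
    have h2 : Eᵀ * Eᵀᴴ = V * Vᴴ + midP V := by
      rw [← ct_comm, ← transpose_mul, hE, conjTranspose_sub, conjTranspose_one, proj_herm, midP]
      simp only [Matrix.sub_mul, Matrix.mul_sub, Matrix.one_mul, Matrix.mul_one, proj_sq hV1,
        transpose_sub, transpose_one, sub_self, sub_zero]
      abel
    rw [h2, bt_add_left, bt_comm hO (midP V), transpose_transpose] at h1
    rw [h1, Fintype.sum_prod_type]
  rw [trace_sharp hO hw, e1, adM_vc, vc_form hO, pen_first hO hw H1, cq_smul_left, cq_smul_right,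
    cq_herm hR (proj_herm V), ← e1] at h
  simp only [hL, vc_form hO, vc_dot, e2, Finset.sum_add_distrib, e3, ← Finset.mul_sum, map_mul,
    Complex.normSq_ofNat, Complex.conj_ofReal, map_ofNat, Complex.ofReal_mul] at h
  rw [← Complex.ofReal_sum, Fintype.sum_prod_type, ← nsr] at h
  have h4 := (Complex.nonneg_iff.1 h).1
  simp only [← Complex.ofReal_mul, ← Complex.ofReal_ofNat, ← mul_assoc, Complex.add_re,
    Complex.sub_re, Complex.re_ofReal_mul, Complex.ofReal_re] at h4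
  rw [rq]
  have e4 : 2 * (1 / (4 * c)) * 2 * c * t * 2 * c * t * 4 = 8 * c * t ^ 2 := by field_simp; ring
  have e5 : ∀ x y : ℝ, 2 * c * t * (x + 1 / (4 * c) * 2 * 2 * y) = 2 * c * t * x + 2 * t * y := by
    intro x y; field_simp; ring
  rw [e4, e5] at h4
  change 0 ≤ _ + (_ + 2 * t * nsr (E * (cop R w).map conj * V)) at h4
  linarith only [h4]

theorem nsr_proj_left {V : Matrix (Fin N) (Fin r) ℂ} (hV1 : Vᴴ * V = 1) {k : ℕ}
    (Y : Matrix (Fin N) (Fin k) ℂ) : nsr Y = nsr ((1 - V * Vᴴ) * Y) + nsr (Vᴴ * Y) := by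
  have h : (1 - V * Vᴴ)ᴴ * (1 - V * Vᴴ) = 1 - V * Vᴴ := by
    rw [conjTranspose_sub, conjTranspose_one, proj_herm]
    simp only [Matrix.sub_mul, Matrix.mul_sub, Matrix.one_mul, Matrix.mul_one, proj_sq hV1,
      sub_self, sub_zero]
  apply Complex.ofReal_injective
  rw [Complex.ofReal_add, nsr_eq, nsr_eq, nsr_eq, conjTranspose_mul, conjTranspose_mul,
    conjTranspose_conjTranspose, ← Matrix.mul_assoc, trace_mul_comm _ (1 - V * Vᴴ)ᴴ,
    ← Matrix.mul_assoc, ← Matrix.mul_assoc, h, ← Matrix.mul_assoc, trace_mul_comm _ V]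
  simp only [Matrix.sub_mul, Matrix.one_mul, trace_sub, ← Matrix.mul_assoc]
  ring

theorem nsr_conjTranspose {α β : ℕ} (Y : Matrix (Fin α) (Fin β) ℂ) : nsr Yᴴ = nsr Y := by
  simp only [nsr, conjTranspose_apply, RCLike.star_def, Complex.normSq_conj]
  exact Finset.sum_comm

theorem nsr_proj_right {V : Matrix (Fin N) (Fin r) ℂ} (hV1 : Vᴴ * V = 1) {k : ℕ}
    (Y : Matrix (Fin k) (Fin N) ℂ) : nsr Y = nsr (Y * (1 - V * Vᴴ)) + nsr (Y * V) := by
  rw [← nsr_conjTranspose Y, nsr_proj_left hV1, ← nsr_conjTranspose (Y * V),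
    ← nsr_conjTranspose (Y * _), conjTranspose_mul, conjTranspose_mul, conjTranspose_sub,
    conjTranspose_one, proj_herm]

theorem nsq_conj (Y : CMat N) : nsq (Y.map conj) = nsq Y := by simp [nsq]

theorem nsr_block_le {V : Matrix (Fin N) (Fin r) ℂ} (hV1 : Vᴴ * V = 1) (Y : CMat N) :
    nsr ((1 - V * Vᴴ) * Y * V) ≤ nsq Y := by
  have h1 : nsq Y = _ := nsr_proj_left hV1 Y
  have h2 := nsr_proj_right hV1 ((1 - V * Vᴴ) * Y)
  have h3 := nsr_nonneg (Vᴴ * Y)
  have h4 := nsr_nonneg ((1 - V * Vᴴ) * Y * (1 - V * Vᴴ))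
  linarith

theorem PIC2w.signs {R : T4 N} (h : PIC2w R) (hR : IsOp R) {V : Matrix (Fin N) (Fin r) ℂ}
    (hV0 : Vᵀ * V = 0) (hV1 : Vᴴ * V = 1) :
    0 ≤ (bt R (V * Vᴴ) (V * Vᴴ)).re ∧ 0 ≤ (bt R (V * Vᴴ) (V * Vᴴ)ᵀ).re ∧
      0 ≤ (bt R (V * Vᴴ) (midP V)).re ∧ 0 ≤ (bt R (midP V) (midP V)).re := by
  refine ⟨h.bt_nonneg hR V V, ?_, ?_, ?_⟩
  · rw [proj_transpose]; exact h.bt_nonneg hR _ _
  · rw [← midP_gram hV0 hV1]; exact h.bt_nonneg hR _ _
  · rw [← midP_gram hV0 hV1]; exact h.bt_nonneg hR _ _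

theorem pen_core' {R : T4 N} (hR : IsCurv R) (h2 : PIC2w R)
    {V : Matrix (Fin N) (Fin r) ℂ} (hV0 : Vᵀ * V = 0) (hV1 : Vᴴ * V = 1) {w : CMat N}
    (hw : wᵀ = -w) {c t : ℝ} (hc : 0 < c) (ht : 0 ≤ t) (ht2 : t ≤ 1 / 2)
    (H1 : ∀ X : CMat N, Xᵀ = -X → cq R (X * w - w * X) w / 4 = -(c * t) * (Vᴴ * X * V).trace)
    (H2 : ∀ (X : CMat N) (Y : Matrix (Fin N) (Fin r) ℂ), Xᵀ = -X → Yᵀ * V = 0 →
      0 ≤ rq R (X * w - w * X + (V * Yᵀ - Y * Vᵀ)) +
        Complex.normSq (cq R (X * w - w * X + (V * Yᵀ - Y * Vᵀ)) w / 4) / c +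
        c * t * nsr ((1 - V * Vᴴ) * X * V)) :
    -(c * (scal4 R / 8)) ≤ rq (Qq4 R) w := by
  refine le_trans ?_ (pen_exact hR hV1 hw hc H1 H2)
  obtain ⟨a1, a2, a3, a4⟩ := h2.signs hR.isOp hV0 hV1
  have a5 := nsr_block_le hV1 ((cop R w).map conj)
  have a6 := nsr_nonneg ((1 - V * Vᴴ) * (cop R w).map conj * V)
  rw [nsq_conj] at a5
  have a7 : (t - t ^ 2) * (bt R (V * Vᴴ) (V * Vᴴ)).re + t ^ 2 * (bt R (V * Vᴴ) (V * Vᴴ)ᵀ).re +
      t * (bt R (V * Vᴴ) (midP V)).re ≤ scal4 R / 8 := by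
    rw [scal4_eq_bt hR.isOp V]
    have b1 := mul_le_mul_of_nonneg_right (show t - t ^ 2 ≤ 1 / 4 by
      linarith only [sq_nonneg (t - 1 / 2), sq_nonneg ((2 : ℝ) * t - (1 : ℝ) * (1 : ℝ))]) a1
    have b2 := mul_le_mul_of_nonneg_right (show t ^ 2 ≤ 1 / 4 by linarith only [ht2, ht, mul_nonneg_of_nonpos_of_nonpos (Mathlib.Tactic.Linarith.sub_nonpos_of_le ht) (Mathlib.Tactic.Linarith.sub_nonpos_of_le ht2)]) a2
    have b3 := mul_le_mul_of_nonneg_right ht2 a3
    linarith only [a4, b1, b2, b3]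
  have a8 := mul_le_mul_of_nonneg_left a7 hc.le
  have a9 := mul_le_mul_of_nonneg_right ht2 a6
  linarith only [a5, a8, a9]

end

end Pool.Agent.Work.MP_3a9764_gt
end

-- merged part: Pool.Agent.Work.MP_3a9764_gt.PJet
section
/-! Second order expansions and the Levi lemma. -/

set_option autoImplicit false

open Filter Matrix
open scoped Topology ComplexConjugate

namespace Pool.Agent.Work.MP_3a9764_gt

noncomputable section

namespace T

/-- A second order expansion at the origin. -/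
def J2 {E : Type} [AddCommGroup E] [Module ℂ E] [TopologicalSpace E] (f : ℂ → E) (a b : E) :
    Prop := ∃ φ : ℂ → E, ContinuousAt φ 0 ∧ ∀ᶠ s in 𝓝 (0 : ℂ), f s = a + s • (b + s • φ s)

section

variable {E : Type} [AddCommGroup E] [Module ℂ E] [TopologicalSpace E] [IsTopologicalAddGroup E]
  [ContinuousSMul ℂ E]

theorem J2.smul {ψ : ℂ → ℂ} {a b : ℂ} {u : ℂ → E} {w v : E} (h : J2 ψ a b) (h' : J2 u w v) :
    J2 (fun s => ψ s • u s) (a • w) (a • v + b • w) := by
  obtain ⟨φ, h1, h2⟩ := h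
  obtain ⟨φ', h1', h2'⟩ := h'
  refine ⟨fun s => a • φ' s + φ s • w + (b + s * φ s) • (v + s • φ' s), by fun_prop, ?_⟩
  filter_upwards [h2, h2'] with s e e'
  rw [e, e']
  simp only [smul_eq_mul]
  module

theorem J2.tendsto {u : ℂ → E} {w v : E} (h : J2 u w v) : Tendsto u (𝓝 0) (𝓝 w) := by
  obtain ⟨φ, h1, h2⟩ := h
  have h3 : ContinuousAt (fun s : ℂ => w + s • (v + s • φ s)) 0 := by fun_prop
  simpa using h3.tendsto.congr' (EventuallyEq.symm h2)

omit [IsTopologicalAddGroup E] [ContinuousSMul ℂ E] in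
theorem J2.lin (w v : E) : J2 (fun s : ℂ => w + s • v) w v :=
  ⟨fun _ => 0, continuousAt_const, .of_forall fun s => by simp⟩

omit [IsTopologicalAddGroup E] [ContinuousSMul ℂ E] in
theorem J2.const (w : E) : J2 (fun _ : ℂ => w) w 0 :=
  ⟨fun _ => 0, continuousAt_const, .of_forall fun s => by simp⟩

end

theorem J2.mul {α β γ : Type} [Fintype β] {A : ℂ → Matrix α β ℂ} {a b : Matrix α β ℂ}
    {B : ℂ → Matrix β γ ℂ} {a' b' : Matrix β γ ℂ} (h : J2 A a b) (h' : J2 B a' b') :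
    J2 (fun s => A s * B s) (a * a') (a * b' + b * a') := by
  obtain ⟨φ, h1, h2⟩ := h
  obtain ⟨φ', h1', h2'⟩ := h'
  have hm : ∀ {f : ℂ → Matrix α β ℂ} {g : ℂ → Matrix β γ ℂ}, ContinuousAt f 0 → ContinuousAt g 0 →
      ContinuousAt (fun s => f s * g s) 0 := fun {f g} hf hg =>
    ContinuousAt.comp (g := fun p : Matrix α β ℂ × Matrix β γ ℂ => p.1 * p.2)
      (f := fun s => (f s, g s)) (continuous_fst.matrix_mul continuous_snd).continuousAt
      (hf.prodMk hg)
  refine ⟨fun s => a * φ' s + φ s * a' + (b + s • φ s) * (b' + s • φ' s),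
    ((hm continuousAt_const h1').add (hm h1 continuousAt_const)).add
      (hm (by fun_prop) (by fun_prop)), ?_⟩
  filter_upwards [h2, h2'] with s e e'
  rw [e, e']
  simp only [Matrix.add_mul, Matrix.mul_add, Matrix.smul_mul, Matrix.mul_smul]
  module

theorem J2.transpose {α β : Type} {A : ℂ → Matrix α β ℂ} {a b : Matrix α β ℂ} (h : J2 A a b) :
    J2 (fun s => (A s)ᵀ) aᵀ bᵀ := by
  obtain ⟨φ, h1, h2⟩ := h
  exact ⟨fun s => (φ s)ᵀ, (continuous_id.matrix_transpose).continuousAt.comp h1,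
    h2.mono fun s e => congrArg Matrix.transpose e⟩

theorem J2.pow {N : ℕ} (w y : CMat N) (k : ℕ) :
    ∃ b, (y = 0 → b = 0) ∧ J2 (fun s : ℂ => (w + s • y) ^ k) (w ^ k) b := by
  induction k with
  | zero => exact ⟨0, fun _ => rfl, by simpa using J2.const (1 : CMat N)⟩
  | succ k ih =>
    obtain ⟨b, h1, h2⟩ := ih
    refine ⟨_, ?_, by simpa only [pow_succ] using h2.mul (J2.lin w y)⟩
    intro h
    simp [h, h1 h]

theorem J2.cpow {f : ℂ → ℂ} {b : ℂ} (h : J2 f 1 b) (x : ℂ) : J2 (fun s => f s ^ x) 1 (x * b) := by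
  have ht := h.tendsto
  obtain ⟨φ, h1, h2⟩ := h
  have ha : AnalyticAt ℂ (fun z : ℂ => z ^ x) 1 :=
    analyticAt_id.cpow analyticAt_const Complex.one_mem_slitPlane
  have hd : deriv (fun z : ℂ => z ^ x) 1 = x := by
    simpa using (Complex.hasStrictDerivAt_cpow_const (c := x)
      Complex.one_mem_slitPlane).hasDerivAt.deriv
  obtain ⟨p, hp⟩ := ha
  have hc : ContinuousAt (dslope (dslope (fun z : ℂ => z ^ x) 1) 1) 1 :=
    hp.has_fpower_series_dslope_fslope.has_fpower_series_dslope_fslope.continuousAt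
  have e : ∀ z : ℂ, z ^ x = 1 + (z - 1) * (x + (z - 1) *
      dslope (dslope (fun z : ℂ => z ^ x) 1) 1 z) := fun z => by
    have e1 := sub_smul_dslope (fun z : ℂ => z ^ x) 1 z
    have e2 := sub_smul_dslope (dslope (fun z : ℂ => z ^ x) 1) 1 z
    rw [dslope_same, hd] at e2
    simp only [smul_eq_mul, Complex.one_cpow] at e1 e2
    rw [e2]
    linear_combination -e1
  have hc' : ContinuousAt (fun s : ℂ => dslope (dslope (fun z : ℂ => z ^ x) 1) 1
      (1 + s * (b + s * φ s))) 0 :=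
    ContinuousAt.comp_of_eq hc (by fun_prop) (by simp)
  refine ⟨fun s => x * φ s + (b + s * φ s) ^ 2 *
    dslope (dslope (fun z : ℂ => z ^ x) 1) 1 (1 + s * (b + s * φ s)), by fun_prop, ?_⟩
  filter_upwards [h2] with s e1
  rw [e (f s), e1]
  simp only [smul_eq_mul]
  ring

/-- Functions continuous at the origin. -/
def CA : Subring (ℂ → ℂ) where
  carrier := {f | ContinuousAt f 0}
  mul_mem' := fun hf hg => ContinuousAt.mul hf hg
  one_mem' := continuousAt_const
  add_mem' := fun hf hg => ContinuousAt.add hf hg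
  zero_mem' := continuousAt_const
  neg_mem' := fun hf => ContinuousAt.neg hf

theorem det_exp {r : ℕ} {M : ℂ → CMat r} (hM : ContinuousAt M 0) {ρ : ℂ → ℂ}
    (hρ : ContinuousAt ρ 0) : ∃ E : ℂ → ℂ, ContinuousAt E 0 ∧
      ∀ s, (1 + ρ s • M s).det = 1 + (M s).trace * ρ s + E s * ρ s ^ 2 := by
  set M' : Matrix (Fin r) (Fin r) CA := of fun i j =>
    ⟨fun s => M s i j, (continuous_apply_apply i j).continuousAt.comp hM⟩ with hM'
  obtain ⟨E, h⟩ : ∃ E : CA, (1 + (⟨ρ, hρ⟩ : CA) • M').det =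
      1 + M'.trace * ⟨ρ, hρ⟩ + E * ⟨ρ, hρ⟩ ^ 2 := ⟨_, det_one_add_smul _ _⟩
  refine ⟨E.1, E.2, fun s => ?_⟩
  have h1 := congrArg ((Pi.evalRingHom (fun _ => ℂ) s).comp CA.subtype) h
  rw [RingHom.map_det] at h1
  convert h1 using 2
  · ext i j
    by_cases hij : i = j <;> simp [hM', hij]
  · simp [hM', trace]

theorem J2.det {r : ℕ} {A : ℂ → CMat r} {b : CMat r} (h : J2 A 1 b) :
    J2 (fun s => (A s).det) 1 b.trace := by
  obtain ⟨φ, h1, h2⟩ := h
  obtain ⟨E, h3, h4⟩ := det_exp (M := fun s => b + s • φ s) (by fun_prop) (ρ := id)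
    continuousAt_id
  refine ⟨fun s => (φ s).trace + E s,
    ((continuous_id.matrix_trace).continuousAt.comp h1).add h3, ?_⟩
  filter_upwards [h2] with s e
  have h5 := h4 s
  simp only [id, trace_add, trace_smul, smul_eq_mul] at h5 ⊢
  rw [e, h5]
  ring

/-- The Levi lemma. -/
theorem levi {N : ℕ} {S : T4 N} (hS : IsOp S) {u : ℂ → CMat N} {w v : CMat N} (hu : J2 u w v)
    {χ : ℂ → ℝ} (hχ : ContinuousAt χ 0)
    (h : ∀ᶠ s in 𝓝 (0 : ℂ), rq S w ≤ rq S (u s) + Complex.normSq s * χ s) :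
    cq S v w = 0 ∧ 0 ≤ rq S v + χ 0 := by
  obtain ⟨φ, h1, h2⟩ := hu
  have key := second_aux (c := cq S v w) (φ := fun t => cq S (φ t) w)
    (ψ := fun t => (cq S (v + t • φ t) (v + t • φ t)).re + 4 * χ t)
    ((continuous_cq S).continuousAt.comp (f := fun t => (φ t, w)) (by fun_prop))
    ((Complex.continuous_re.continuousAt.comp ((continuous_cq S).continuousAt.comp
      (f := fun t => (v + t • φ t, v + t • φ t)) (by fun_prop))).add (by fun_prop)) (by
      filter_upwards [h, h2] with t h3 e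
      rw [e, rq, rq, cq_add_left, cq_add_right, cq_add_right, cq_symm hS (t • (v + t • φ t)) w,
        cq_smul_left S t _ (t • _), cq_smul_right, ← mul_assoc, Complex.mul_conj,
        cq_smul_left, cq_add_left, cq_smul_left] at h3
      simp only [Complex.add_re, Complex.conj_re, Complex.re_ofReal_mul, mul_add] at h3
      rw [pow_two, mul_assoc t]
      linarith only [h3])
  simp only [zero_smul, add_zero] at key
  exact ⟨key.1, by rw [rq]; linarith [key.2]⟩

theorem exists_curve {N : ℕ} {X : CMat N} (hX : Xᵀ = -X) : ∃ g : ℂ → CMat N, J2 g 1 X ∧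
    ∀ᶠ s in 𝓝 (0 : ℂ), (g s)ᵀ * g s = 1 := by
  obtain ⟨b, h1, h2⟩ := exists_cayley (x := (1 / 2 : ℂ) • X) (by rw [transpose_smul, hX, smul_neg])
  refine ⟨_, ⟨b, h1, .of_forall fun s => ?_⟩, h2.mono fun s hs => hs.1⟩
  module

end T

end

end Pool.Agent.Work.MP_3a9764_gt
end

-- merged part: Pool.Agent.Work.MP_3a9764_gt.PXS
section
-- merged part: Pool.Agent.Work.MP_3a9764_gt.PRat
section
/-! The ratio step. -/

set_option autoImplicit false

open Filter Set Matrix
open scoped Topology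

namespace Pool.Agent.Work.MP_3a9764_gt

noncomputable section

variable {n : ℕ} {T : ℝ} {W : ℝ → Set (T4 n)}

theorem asym_of_approx {K : Type} {l : K → T4 n →ₗ[ℝ] ℝ}
    (h : ∀ ε > 0, ∃ l' : K → T4 n →ₗ[ℝ] ℝ, Asym T W l' ∧ ∀ τ R, |l τ R - l' τ R| ≤ ε * ‖R‖) :
    Asym T W l := by
  intro ε hε
  obtain ⟨l', h1, h2⟩ := h (ε / 2) (half_pos hε)
  exact h1.near hε h2

theorem AsymP.of_asym {K : Type} {l : K → T4 n →ₗ[ℝ] ℝ} (h : Asym T W l) :
    AsymP T W fun R => ∀ τ, 0 ≤ l τ R := ⟨K, l, h, fun _ _ h => h⟩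

theorem abs_scal_mul_le {x ε : ℝ} (hx : |x| ≤ ε / ((n : ℝ) ^ 2 + 1)) (R : T4 n) :
    |x * scal4 R| ≤ ε * ‖R‖ := by
  have h1 := T.abs_scal_le R
  have h2 : |x| * ((n : ℝ) ^ 2 + 1) ≤ ε := (le_div_iff₀ (by positivity)).1 hx
  have h3 := abs_nonneg x
  have h4 := norm_nonneg R
  rw [abs_mul]
  linarith only [h1, h3, h2, h4, mul_le_mul_of_nonneg_left h1 h3, mul_le_mul_of_nonneg_right h2 h4, mul_nonneg h3 h4]

theorem rat' (hW : CurvFlow n T W) {P : T4 n → Prop} (h0 : AsymP T W P) {K : Type}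
    [TopologicalSpace K] [CompactSpace K] (φ : K → T4 n →ₗ[ℝ] ℝ)
    (hφ : ∀ R, Continuous fun w => φ w R) (pen : K → ℝ) (hpen : Continuous pen)
    (hp0 : ∀ w, 0 ≤ pen w) (hsc : ∀ R, IsCurv R → P R → R ≠ 0 → 0 < scal4 R) {β κ C : ℝ}
    (hβ : 0 < β) (hκ : 0 < κ)
    (hstart : ∀ R, IsCurv R → P R → ∀ w, 0 ≤ φ w R + β * scal4 R * pen w)
    (hgain : ∀ η ∈ Ioc (0 : ℝ) 1, ∀ s ∈ Ioc (0 : ℝ) β, ∀ R, IsCurv R → P R → R ≠ 0 →
      (∀ w, 0 ≤ φ w R + scal4 R * (η + s * pen w)) →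
      ∀ w, φ w R + scal4 R * (η + s * pen w) = 0 → 0 < pen w →
        scal4 R ^ 2 * (κ * s * pen w - C * η) ≤
          φ w (Qq4 R) + scal4 (Qq4 R) * (η + s * pen w)) : Asym T W φ := by
  set L : ℝ → ℝ → K → T4 n →ₗ[ℝ] ℝ := fun s η w => φ w + (η + s * pen w) • scalL n with hL
  have hLa : ∀ s η w R, L s η w R = φ w R + scal4 R * (η + s * pen w) := fun s η w R => by
    simp only [hL, LinearMap.add_apply, LinearMap.smul_apply, smul_eq_mul, mul_comm]
    rfl
  have hLc : ∀ η R, Continuous fun p : ℝ × K => L (-p.1) η p.2 R := fun η R => by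
    simp only [hLa]
    have := hφ R
    fun_prop
  have hLc' : ∀ s η R, Continuous fun w => L s η w R := fun s η R => by
    simp only [hLa]
    have := hφ R
    fun_prop
  have hs0 : ∀ R, IsCurv R → P R → 0 ≤ scal4 R := fun R hR hP => by
    by_cases h : R = 0
    · simp [h, scal4]
    · exact (hsc R hR hP h).le
  set θ : ℝ := (|C| + 1) / (|C| + 1 + κ) with hθ
  have hC := abs_nonneg C
  have hθ0 : 0 < θ := by positivity
  have hθ1 : θ < 1 := (div_lt_one (by positivity)).2 (by linarith only [hκ])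
  have hθ2 : θ * (|C| + 1 + κ) = |C| + 1 := div_mul_cancel₀ _ (by positivity)
  have hstep : ∀ s ∈ Ioc (0 : ℝ) β, Asym T W (L s 0) → Asym T W (L (θ * s) 0) := by
    intro s hs h1
    have h2 := h0.and (AsymP.of_asym h1)
    refine asym_of_approx fun ε hε => ?_
    set η := min 1 (ε / ((n : ℝ) ^ 2 + 1)) with hη
    have hη0 : 0 < η := lt_min one_pos (by positivity)
    refine ⟨L (θ * s) η, ?_, fun w R => ?_⟩
    · have h3 := h2.family hW (l := fun u => L (-u) η) (a := -s) (b := -(θ * s))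
        (neg_le_neg (mul_le_of_le_one_left hs.1.le hθ1.le)) (fun R => (hLc η R).continuousOn)
        (fun u hu R hR hne hP hall w hw => by
          simp only [hLa] at hall hw hP ⊢
          have a1 := hsc R hR hP.1 hne
          have a2 := hP.2 w
          have a3 : η ≤ (s + u) * pen w := by
            by_contra h
            linarith only [hw, a2, a1, h, mul_pos a1 (sub_pos.2 (not_le.1 h))]
          have a4 : 0 < pen w := by
            rcases (hp0 w).eq_or_lt with h | h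
            · rw [← h] at a3; linarith only [hη0, a3]
            · exact h
          have a5 : θ * s < -u := lt_neg.1 hu.2
          have a6 : 0 < θ * s := mul_pos hθ0 hs.1
          refine lt_of_lt_of_le ?_ (hgain η ⟨hη0, min_le_left _ _⟩ (-u)
            ⟨by linarith only [a5, a6], (neg_le.1 hu.1).trans hs.2⟩ R hR hP.1 hne hall w hw a4)
          refine mul_pos (by positivity) ?_
          have a7 : C * η ≤ |C| * ((s + u) * pen w) :=
            (mul_le_mul_of_nonneg_right (le_abs_self C) hη0.le).trans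
              (mul_le_mul_of_nonneg_left a3 hC)
          have a8 : |C| * (s + u) < κ * -u := by
            have b1 : (|C| + κ) * (θ * s) ≤ (|C| + κ) * -u :=
              mul_le_mul_of_nonneg_left a5.le (by positivity)
            have b2 : θ * (|C| + 1 + κ) * s = (|C| + 1) * s := by rw [hθ2]
            linarith only [b1, b2, hθ1, hs, mul_pos (sub_pos.2 hθ1) hs.1]
          linarith only [a7, a8, a4, mul_lt_mul_of_pos_right a8 a4])
        (by
          simp only [neg_neg]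
          refine h2.start hW (hLc' s η) fun R hR hP w => ?_
          have a1 := hP.2 w
          have a2 := mul_nonneg (hs0 R hR hP.1) hη0.le
          simp only [hLa] at a1 ⊢
          linarith only [a2, a1])
      simpa only [neg_neg] using h3
    · have := abs_scal_mul_le (x := -η) (by rw [abs_neg, abs_of_pos hη0]; exact min_le_right _ _) R
      convert this using 2
      simp only [hLa]
      ring
  have hiter : ∀ k : ℕ, Asym T W (L (θ ^ k * β) 0) := by
    intro k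
    induction k with
    | zero =>
      refine h0.start hW (hLc' _ 0) fun R hR hP w => ?_
      have := hstart R hR hP w
      simp only [hLa, pow_zero]
      linarith
    | succ k ih =>
      have := hstep _ ⟨by positivity, mul_le_of_le_one_left hβ.le (pow_le_one₀ hθ0.le hθ1.le)⟩ ih
      rwa [← mul_assoc, ← pow_succ'] at this
  obtain ⟨M, hM⟩ := isCompact_univ.exists_bound_of_continuousOn hpen.continuousOn
  refine asym_of_approx fun ε hε => ?_
  obtain ⟨k, hk⟩ := exists_pow_lt_of_lt_one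
    (show 0 < ε / ((n : ℝ) ^ 2 + 1) / (β * (|M| + 1)) by positivity) hθ1
  refine ⟨_, hiter k, fun w R => ?_⟩
  have h1 : |-(θ ^ k * β * pen w)| ≤ ε / ((n : ℝ) ^ 2 + 1) := by
    have a1 : pen w ≤ |M| + 1 := by
      have := (le_abs_self _).trans ((hM w (mem_univ _)).trans (le_abs_self M))
      linarith only [hθ0, hθ1, this]
    rw [lt_div_iff₀ (by positivity)] at hk
    have a2 := hp0 w
    rw [abs_neg, abs_of_nonneg (by positivity)]
    have a3 := mul_le_mul_of_nonneg_left a1 (show 0 ≤ θ ^ k * β by positivity)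
    linarith only [hk, a3]
  convert abs_scal_mul_le h1 R using 2
  simp only [hLa]
  ring

/-- The ratio step with a gain that is uniform on compact sets of parameters. -/
theorem rat2 (hW : CurvFlow n T W) {P : T4 n → Prop} (h0 : AsymP T W P) {K : Type}
    [TopologicalSpace K] [CompactSpace K] (φ : K → T4 n →ₗ[ℝ] ℝ)
    (hφ : ∀ R, Continuous fun w => φ w R) (pen : K → ℝ) (hpen : Continuous pen)
    (hp0 : ∀ w, 0 ≤ pen w) (hsc : ∀ R, IsCurv R → P R → R ≠ 0 → 0 < scal4 R) {β : ℝ}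
    (hβ : 0 < β) (hstart : ∀ R, IsCurv R → P R → ∀ w, 0 ≤ φ w R + β * scal4 R * pen w)
    (hgain : ∀ s₁ ∈ Ioc (0 : ℝ) β, ∃ η₀ > 0, ∀ η ∈ Ioc (0 : ℝ) η₀, ∀ s ∈ Icc s₁ β, ∀ R,
      IsCurv R → P R → R ≠ 0 → (∀ w, 0 ≤ φ w R + scal4 R * (η + s * pen w)) →
      ∀ w, φ w R + scal4 R * (η + s * pen w) = 0 → 0 < pen w →
        0 < φ w (Qq4 R) + scal4 (Qq4 R) * (η + s * pen w)) : Asym T W φ := by
  set L : ℝ → ℝ → K → T4 n →ₗ[ℝ] ℝ := fun s η w => φ w + (η + s * pen w) • scalL n with hL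
  have hLa : ∀ s η w R, L s η w R = φ w R + scal4 R * (η + s * pen w) := fun s η w R => by
    simp only [hL, LinearMap.add_apply, LinearMap.smul_apply, smul_eq_mul, mul_comm]
    rfl
  have hLc : ∀ η R, Continuous fun p : ℝ × K => L (-p.1) η p.2 R := fun η R => by
    simp only [hLa]
    have := hφ R
    fun_prop
  have hLc' : ∀ s η R, Continuous fun w => L s η w R := fun s η R => by
    simp only [hLa]
    have := hφ R
    fun_prop
  have hs0 : ∀ R, IsCurv R → P R → 0 ≤ scal4 R := fun R hR hP => by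
    by_cases h : R = 0
    · simp [h, scal4]
    · exact (hsc R hR hP h).le
  obtain ⟨M, hM⟩ := isCompact_univ.exists_bound_of_continuousOn hpen.continuousOn
  refine asym_of_approx fun ε hε => ?_
  set δ := ε / ((n : ℝ) ^ 2 + 1) / (|M| + 1) with hδ
  have hδ0 : 0 < δ := by positivity
  obtain ⟨η₀, hη₀, hg⟩ := hgain (min δ β) ⟨lt_min hδ0 hβ, min_le_right _ _⟩
  have hη : 0 < min η₀ δ := lt_min hη₀ hδ0
  refine ⟨L (min δ β) (min η₀ δ), ?_, fun w R => ?_⟩
  · have h3 := h0.family hW (l := fun u => L (-u) (min η₀ δ)) (a := -β) (b := -min δ β)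
      (neg_le_neg (min_le_right _ _)) (fun R => (hLc _ R).continuousOn)
      (fun u hu R hR hne hP hall w hw => by
        simp only [hLa] at hall hw ⊢
        refine hg _ ⟨hη, min_le_left _ _⟩ (-u) ⟨(lt_neg.1 hu.2).le, neg_le.1 hu.1⟩ R hR hP hne
          hall w hw ((hp0 w).lt_of_ne fun h => ?_)
        have a1 := hstart R hR hP w
        have a2 := mul_pos (hsc R hR hP hne) hη
        rw [← h] at a1 hw
        linarith only [hw, a1, a2])
      (by
        simp only [neg_neg]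
        refine h0.start hW (hLc' _ _) fun R hR hP w => ?_
        have a1 := hstart R hR hP w
        have a2 := mul_nonneg (hs0 R hR hP) hη.le
        simp only [hLa]
        linarith only [a1, a2])
    simpa only [neg_neg] using h3
  · have a1 : pen w ≤ |M| := (le_abs_self _).trans ((hM w (mem_univ _)).trans (le_abs_self M))
    have a2 := hp0 w
    have a3 : 0 < min δ β := lt_min hδ0 hβ
    have h1 : |-(min η₀ δ + min δ β * pen w)| ≤ ε / ((n : ℝ) ^ 2 + 1) := by
      rw [abs_neg, abs_of_nonneg (by positivity)]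
      have b1 := mul_le_mul (min_le_left δ β) a1 a2 hδ0.le
      have b2 := min_le_right η₀ δ
      have b3 : δ * (|M| + 1) = ε / ((n : ℝ) ^ 2 + 1) := div_mul_cancel₀ _ (by positivity)
      linarith only [b1, b2, b3]
    convert abs_scal_mul_le h1 R using 2
    simp only [hLa]
    ring

end

end Pool.Agent.Work.MP_3a9764_gt
end

-- merged part: Pool.Agent.Work.MP_3a9764_gt.PXS
section
/-! The test sets attached to isotropic frames. -/

set_option autoImplicit false

open Filter Set Matrix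
open scoped Topology ComplexConjugate

namespace Pool.Agent.Work.MP_3a9764_gt

noncomputable section

open T

variable {n N q : ℕ} {T : ℝ} {W : ℝ → Set (T4 n)} {pat : Fin q → Fin q → Prop}
  {Z : Matrix (Fin N) (Fin q) ℂ} {w : CMat N}

theorem XS.skew (h : XS pat Z w) : wᵀ = -w := by
  obtain ⟨C, rfl, -⟩ := h
  simp

theorem XS.smul (h : XS pat Z w) (c : ℂ) : XS pat Z (c • w) := by
  obtain ⟨C, rfl, h⟩ := h
  refine ⟨c • C, by simp [smul_sub], fun i j hij => ?_⟩
  rw [transpose_smul, Matrix.smul_mul, Matrix.smul_apply, h i j hij, smul_zero]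

theorem XS.add {w' : CMat N} (h : XS pat Z w) (h' : XS pat Z w') : XS pat Z (w + w') := by
  obtain ⟨C, rfl, h⟩ := h
  obtain ⟨C', rfl, h'⟩ := h'
  refine ⟨C + C', ?_, fun i j hij => ?_⟩
  · rw [transpose_add, Matrix.mul_add, Matrix.add_mul]; abel
  · rw [transpose_add, Matrix.add_mul, Matrix.add_apply, h i j hij, h' i j hij, add_zero]

theorem XS.act (h : XS pat Z w) {g : CMat N} (hg : gᵀ * g = 1) : XS pat (g * Z) (g * w * gᵀ) := by
  obtain ⟨C, rfl, h⟩ := h
  refine ⟨g * C, ?_, fun i j hij => ?_⟩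
  · simp only [transpose_mul, Matrix.mul_sub, Matrix.sub_mul, Matrix.mul_assoc]
  · rw [transpose_mul, Matrix.mul_assoc, ← Matrix.mul_assoc gᵀ, hg, Matrix.one_mul, h i j hij]

theorem xs_tau (h0 : Zᵀ * Z = 0) (h1 : Zᴴ * Z = 1) (C : Matrix (Fin N) (Fin q) ℂ) :
    Zᴴ * (Z * Cᵀ - C * Zᵀ) * Z = Cᵀ * Z := by
  rw [Matrix.mul_assoc, Matrix.sub_mul, Matrix.mul_assoc C, h0, Matrix.mul_zero, sub_zero,
    Matrix.mul_assoc, ← Matrix.mul_assoc, h1, Matrix.one_mul]

theorem xs_iff (h0 : Zᵀ * Z = 0) (h1 : Zᴴ * Z = 1) : XS pat Z w ↔ wᵀ = -w ∧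
    (1 - Z * Zᴴ) * w * (1 - Z * Zᴴ)ᵀ = 0 ∧ ∀ i j, pat i j → (Zᴴ * w * Z) i j = 0 := by
  constructor
  · intro h
    refine ⟨h.skew, ?_⟩
    obtain ⟨C, rfl, h⟩ := h
    have e : (1 - Z * Zᴴ) * Z = 0 := by
      rw [Matrix.sub_mul, Matrix.mul_assoc, h1, Matrix.one_mul, Matrix.mul_one, sub_self]
    refine ⟨?_, by rwa [xs_tau h0 h1]⟩
    rw [Matrix.mul_sub, Matrix.sub_mul, ← Matrix.mul_assoc, e, Matrix.mul_assoc _ (C * Zᵀ),
      Matrix.mul_assoc C, ← transpose_mul, e]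
    simp
  · rintro ⟨h2, h3, h4⟩
    have e : w = Z * (-((1 - (1 / 2 : ℂ) • (Z * Zᴴ)) * w * Zᴴᵀ))ᵀ -
        -((1 - (1 / 2 : ℂ) • (Z * Zᴴ)) * w * Zᴴᵀ) * Zᵀ := by
      simp only [transpose_mul, transpose_sub, transpose_smul, transpose_one,
        transpose_transpose, h2, Matrix.sub_mul, Matrix.mul_sub, Matrix.one_mul, Matrix.mul_one,
        Matrix.neg_mul, Matrix.mul_neg, Matrix.smul_mul, Matrix.mul_smul, Matrix.mul_assoc,
        neg_sub] at h3 ⊢
      linear_combination (norm := module) h3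
    refine ⟨_, e, fun i j hij => ?_⟩
    rw [← xs_tau h0 h1, ← e, h4 i j hij]

/-- The compact test space of a pattern. -/
def TK (N : ℕ) (pat : Fin q → Fin q → Prop) : Set (Matrix (Fin N) (Fin q) ℂ × CMat N) :=
  {p | p.1ᵀ * p.1 = 0 ∧ p.1ᴴ * p.1 = 1 ∧ XS pat p.1 p.2 ∧ nsq p.2 = 2}

theorem isCompact_box (α β : Type) (c : ℝ) :
    IsCompact {M : Matrix α β ℂ | ∀ i j, Complex.normSq (M i j) ≤ c} := by
  have h : IsCompact {z : ℂ | Complex.normSq z ≤ c} := by
    refine (isCompact_closedBall (0 : ℂ) (|c| + 1)).of_isClosed_subset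
      (isClosed_le Complex.continuous_normSq continuous_const) fun z hz => ?_
    rw [mem_closedBall_zero_iff]
    have h1 : ‖z‖ ^ 2 ≤ c := by rw [← Complex.normSq_eq_norm_sq]; exact hz
    linarith only [h1, le_abs_self c, sq_nonneg (‖z‖ - 1), abs_nonneg c, sq_nonneg (‖z‖ - (1 : ℝ)), sq_nonneg ‖z‖]
  have e : {M : α → β → ℂ | ∀ i j, Complex.normSq (M i j) ≤ c} =
      pi univ fun _ => pi univ fun _ => {z : ℂ | Complex.normSq z ≤ c} := by
    ext M
    simp only [mem_ofPred_eq, Set.mem_pi, mem_univ, forall_const]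
  change IsCompact {M : α → β → ℂ | ∀ i j, Complex.normSq (M i j) ≤ c}
  rw [e]
  exact isCompact_univ_pi fun _ : α => isCompact_univ_pi fun _ : β => h

theorem normSq_le_nsr {α β : ℕ} (M : Matrix (Fin α) (Fin β) ℂ) (i : Fin α) (j : Fin β) :
    Complex.normSq (M i j) ≤ nsr M :=
  (Finset.single_le_sum (f := fun j => Complex.normSq (M i j))
    (fun _ _ => Complex.normSq_nonneg _) (Finset.mem_univ j)).trans
    (Finset.single_le_sum (f := fun i => ∑ j, Complex.normSq (M i j))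
      (fun _ _ => Finset.sum_nonneg fun _ _ => Complex.normSq_nonneg _) (Finset.mem_univ i))

theorem continuous_nsq : Continuous (nsq : CMat N → ℝ) := by
  unfold nsq
  fun_prop

theorem isCompact_TK (N : ℕ) (pat : Fin q → Fin q → Prop) : IsCompact (TK N pat) := by
  refine ((isCompact_box _ _ q).prod (isCompact_box _ _ 2)).of_isClosed_subset ?_ ?_
  · have e : TK N pat = {p | p.1ᵀ * p.1 = (0 : CMat q)} ∩ {p | p.1ᴴ * p.1 = (1 : CMat q)} ∩
        {p | p.2ᵀ = -p.2} ∩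
        {p | (1 - p.1 * p.1ᴴ) * p.2 * (1 - p.1 * p.1ᴴ)ᵀ = 0} ∩
        (⋂ i, ⋂ j, ⋂ _ : pat i j, {p | (p.1ᴴ * p.2 * p.1) i j = 0}) ∩ {p | nsq p.2 = 2} := by
      ext p
      simp only [TK, mem_ofPred_eq, mem_inter_iff, mem_iInter, and_assoc]
      exact and_congr_right fun h0 => and_congr_right fun h1 => by rw [xs_iff h0 h1]; tauto
    rw [e]
    refine (((((isClosed_eq ?_ ?_).inter (isClosed_eq ?_ ?_)).inter (isClosed_eq ?_ ?_)).inter
      (isClosed_eq ?_ ?_)).inter (isClosed_iInter fun i => isClosed_iInter fun j =>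
        isClosed_iInter fun _ => isClosed_eq ?_ ?_)).inter
        (isClosed_eq (continuous_nsq.comp continuous_snd) ?_) <;> fun_prop
  · rintro ⟨Z, w⟩ ⟨-, h1, -, h3⟩
    refine ⟨fun i j => (normSq_le_nsr Z i j).trans_eq ?_,
      fun i j => (normSq_le_nsr w i j).trans_eq h3⟩
    apply Complex.ofReal_injective
    rw [nsr_eq, trace_mul_comm, h1]
    simp

theorem exists_qr_iso (h0 : Zᵀ * Z = 0) (h1 : Zᴴ * Z = 1) {g : CMat N} (hg : gᵀ * g = 1) :
    ∃ (Z' : Matrix (Fin N) (Fin q) ℂ) (U : Matrix (Fin q) (Fin q) ℂ), Z'ᵀ * Z' = 0 ∧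
      Z'ᴴ * Z' = 1 ∧ U.BlockTriangular id ∧ IsUnit U.det ∧ g * Z = Z' * U := by
  obtain ⟨Z', U, a1, a2, a3, a4⟩ := exists_qr (g * Z) (by
    refine Function.LeftInverse.injective (g := (Zᴴ * gᵀ).mulVec) fun x => ?_
    rw [mulVec_mulVec, Matrix.mul_assoc, ← Matrix.mul_assoc gᵀ, hg, Matrix.one_mul, h1,
      one_mulVec])
  refine ⟨Z', U, ?_, a1, a2, a3, a4⟩
  have e : Z' = g * Z * U⁻¹ := by rw [a4, Matrix.mul_nonsing_inv_cancel_right _ _ a3]
  rw [e]
  simp only [transpose_mul, Matrix.mul_assoc]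
  rw [← Matrix.mul_assoc gᵀ, hg, Matrix.one_mul, ← Matrix.mul_assoc Zᵀ, h0]
  simp

/-- The Hermitian form as a linear functional of the tensor. -/
def rqL (w : CMat N) : T4 N →ₗ[ℝ] ℝ where
  toFun R := rq R w
  map_add' R S := by simp only [rq, cq_add, Complex.add_re, add_div]
  map_smul' c R := by
    simp only [rq, cq_smul, Complex.re_ofReal_mul, RingHom.id_apply, smul_eq_mul, mul_div_assoc]

theorem rq_add (R S : T4 N) (w : CMat N) : rq (R + S) w = rq R w + rq S w := (rqL w).map_add R S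

theorem rq_smul (c : ℝ) (R : T4 N) (w : CMat N) : rq (c • R) w = c * rq R w :=
  (rqL w).map_smul c R

theorem rq_smul_right (R : T4 N) (c : ℂ) (w : CMat N) :
    rq R (c • w) = Complex.normSq c * rq R w := by
  rw [rq, rq, cq_smul_left, cq_smul_right, ← mul_assoc, Complex.mul_conj, Complex.re_ofReal_mul,
    mul_div_assoc]

theorem rq_Id4 (hw : wᵀ = -w) : rq (Id4 N) w = nsq w / 2 := by
  rw [rq, cq_eq_cop', cop_Id4 hw]
  simp only [Matrix.smul_apply, smul_eq_mul, map_mul, map_ofNat, mul_left_comm _ (2 : ℂ),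
    ← Finset.mul_sum, nsq_eq]
  simp
  ring

theorem continuous_rq (R : T4 N) : Continuous (rq R) := by
  unfold rq
  have := (continuous_cq R).comp (continuous_id.prodMk continuous_id)
  exact (Complex.continuous_re.comp this).div_const _

section

variable {pen : Matrix (Fin N) (Fin q) ℂ → CMat N → ℝ}

theorem TK_homog (hp2 : ∀ Z (c : ℂ) w, pen Z (c • w) = Complex.normSq c * pen Z w) {S : T4 N}
    {c : ℝ} (h : ∀ p ∈ TK N pat, 0 ≤ rq S p.2 + c * pen p.1 p.2) (h0 : Zᵀ * Z = 0)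
    (h1 : Zᴴ * Z = 1) (hw : XS pat Z w) : 0 ≤ rq S w + c * pen Z w := by
  rcases (nsq_nonneg w).eq_or_lt with h2 | h2
  · rw [nsq_eq_zero h2.symm, ← zero_smul ℂ (0 : CMat N), rq_smul_right, hp2]
    simp
  · have e : Complex.normSq (√(2 / nsq w) : ℝ) = 2 / nsq w := by
      rw [Complex.normSq_ofReal, Real.mul_self_sqrt (by positivity)]
    have h3 := h (Z, ((√(2 / nsq w) : ℝ) : ℂ) • w) ⟨h0, h1, hw.smul _, by
      rw [nsq_smul, e, div_mul_cancel₀ _ h2.ne']⟩
    rw [rq_smul_right, hp2, e, mul_left_comm, ← mul_add] at h3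
    exact nonneg_of_mul_nonneg_right h3 (by positivity)

theorem TK_eq (hp : (Z, w) ∈ TK N pat) (S : T4 N) (x η s : ℝ) :
    rq S w + x * (η + s * pen Z w) = rq (S + (η * x) • Id4 N) w + s * x * pen Z w := by
  rw [rq_add, rq_smul, rq_Id4 hp.2.2.1.skew, hp.2.2.2]
  ring

theorem asymP_pos (F : T4 n →ₗ[ℝ] T4 N) (h : Asym T W fun p : TK N pat => rqL p.1.2 ∘ₗ F) :
    AsymP T W fun R => Pos q pat (F R) := by
  refine ⟨_, _, h, fun R _ h2 Z w h0 h1 hw => ?_⟩
  simpa using TK_homog (pen := fun _ _ => 0) (c := 0) (S := F R) (by simp)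
    (fun p hp => by rw [zero_mul, add_zero]; exact h2 ⟨p, hp⟩) h0 h1 hw

/-- The ratio step on the test set of a pattern. -/
theorem rat_XS (hW : CurvFlow n T W) {P : T4 n → Prop} (h0 : AsymP T W P)
    (hsc : ∀ R, IsCurv R → P R → R ≠ 0 → 0 < scal4 R) (F : T4 n →ₗ[ℝ] T4 N)
    (hc : Continuous fun p : Matrix (Fin N) (Fin q) ℂ × CMat N => pen p.1 p.2)
    (hp0 : ∀ Z w, 0 ≤ pen Z w) (hp2 : ∀ Z (c : ℂ) w, pen Z (c • w) = Complex.normSq c * pen Z w)
    {β κ C : ℝ} (hβ : 0 < β) (hκ : 0 < κ)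
    (hstart : ∀ R, IsCurv R → P R → ∀ Z w, Zᵀ * Z = 0 → Zᴴ * Z = 1 → XS pat Z w →
      0 ≤ rq (F R) w + β * scal4 R * pen Z w)
    (hgain : ∀ η ∈ Ioc (0 : ℝ) 1, ∀ s ∈ Ioc (0 : ℝ) β, ∀ R, IsCurv R → P R → R ≠ 0 →
      (∀ Z w, Zᵀ * Z = 0 → Zᴴ * Z = 1 → XS pat Z w →
        0 ≤ rq (F R + (η * scal4 R) • Id4 N) w + s * scal4 R * pen Z w) →
      ∀ Z w, (Z, w) ∈ TK N pat →
        rq (F R + (η * scal4 R) • Id4 N) w + s * scal4 R * pen Z w = 0 → 0 < pen Z w →
        scal4 R ^ 2 * (κ * s * pen Z w - C * η) ≤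
          rq (F (Qq4 R)) w + scal4 (Qq4 R) * (η + s * pen Z w)) :
    AsymP T W fun R => Pos q pat (F R) := by
  have : CompactSpace (TK N pat) := isCompact_iff_compactSpace.1 (isCompact_TK N pat)
  refine asymP_pos F (rat' hW h0 _ (fun R => (continuous_rq (F R)).comp (by fun_prop))
    (fun p => pen p.1.1 p.1.2) (hc.comp continuous_subtype_val) (fun p => hp0 _ _) hsc hβ hκ
    (fun R hR hP p => hstart R hR hP _ _ p.2.1 p.2.2.1 p.2.2.2.1) (C := C)
    fun η hη s hs R hR hP hne hall p hp => hgain η hη s hs R hR hP hne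
      (fun Z w => TK_homog hp2 fun p hp => ?_) _ _ p.2 ?_)
  · exact (hall ⟨p, hp⟩).trans_eq (TK_eq hp _ _ _ _)
  · exact (TK_eq p.2 _ _ _ _).symm.trans hp

/-- The ratio step with absolute gain on the test set of a pattern. -/
theorem rat2_XS (hW : CurvFlow n T W) {P : T4 n → Prop} (h0 : AsymP T W P)
    (hsc : ∀ R, IsCurv R → P R → R ≠ 0 → 0 < scal4 R) (F : T4 n →ₗ[ℝ] T4 N)
    (hc : Continuous fun p : Matrix (Fin N) (Fin q) ℂ × CMat N => pen p.1 p.2)
    (hp0 : ∀ Z w, 0 ≤ pen Z w) (hp2 : ∀ Z (c : ℂ) w, pen Z (c • w) = Complex.normSq c * pen Z w)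
    {β : ℝ} (hβ : 0 < β)
    (hstart : ∀ R, IsCurv R → P R → ∀ Z w, Zᵀ * Z = 0 → Zᴴ * Z = 1 → XS pat Z w →
      0 ≤ rq (F R) w + β * scal4 R * pen Z w)
    (hgain : ∀ s₁ ∈ Ioc (0 : ℝ) β, ∃ η₀ > 0, ∀ η ∈ Ioc (0 : ℝ) η₀, ∀ s ∈ Icc s₁ β, ∀ R,
      IsCurv R → P R → R ≠ 0 → (∀ Z w, Zᵀ * Z = 0 → Zᴴ * Z = 1 → XS pat Z w →
        0 ≤ rq (F R + (η * scal4 R) • Id4 N) w + s * scal4 R * pen Z w) →
      ∀ Z w, (Z, w) ∈ TK N pat →
        rq (F R + (η * scal4 R) • Id4 N) w + s * scal4 R * pen Z w = 0 → 0 < pen Z w →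
        0 < rq (F (Qq4 R)) w + scal4 (Qq4 R) * (η + s * pen Z w)) :
    AsymP T W fun R => Pos q pat (F R) := by
  have : CompactSpace (TK N pat) := isCompact_iff_compactSpace.1 (isCompact_TK N pat)
  refine asymP_pos F (rat2 hW h0 _ (fun R => (continuous_rq (F R)).comp (by fun_prop))
    (fun p => pen p.1.1 p.1.2) (hc.comp continuous_subtype_val) (fun p => hp0 _ _) hsc hβ
    (fun R hR hP p => hstart R hR hP _ _ p.2.1 p.2.2.1 p.2.2.2.1)
    fun s₁ hs₁ => (hgain s₁ hs₁).imp fun η₀ hg => ⟨hg.1, fun η hη s hs R hR hP hne hall p hp =>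
      hg.2 η hη s hs R hR hP hne (fun Z w => TK_homog hp2 fun p hp => ?_) _ _ p.2 ?_⟩)
  · exact (hall ⟨p, hp⟩).trans_eq (TK_eq hp _ _ _ _)
  · exact (TK_eq p.2 _ _ _ _).symm.trans hp

end

end

end Pool.Agent.Work.MP_3a9764_gt
end
end

-- merged part: Pool.Agent.Work.MP_3a9764_gt.PVar
section
/-! First and second variation at an active point of a penalised inequality. -/

set_option autoImplicit false

open Filter Matrix
open scoped Topology ComplexConjugate

namespace Pool.Agent.Work.MP_3a9764_gt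

noncomputable section

open T

variable {N q r k : ℕ} {pat : Fin q → Fin q → Prop} {Z : Matrix (Fin N) (Fin q) ℂ} {w : CMat N}

theorem cols_mul (hr : r ≤ q) (g : CMat N) (Z : Matrix (Fin N) (Fin q) ℂ) :
    cols hr (g * Z) = g * cols hr Z := rfl

theorem cols_tri (hr : r ≤ q) (Z : Matrix (Fin N) (Fin q) ℂ) {U : CMat q}
    (hU : U.BlockTriangular id) :
    cols hr (Z * U) = cols hr Z * U.submatrix (Fin.castLE hr) (Fin.castLE hr) := by
  ext i a
  simp only [cols, submatrix_apply, mul_apply, id]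
  refine (Fintype.sum_of_injective _ (Fin.castLE_injective hr) _ _ (fun b hb => ?_)
    fun _ => rfl).symm
  rw [hU (i := b) (j := Fin.castLE hr a), mul_zero]
  by_contra h
  exact hb ⟨⟨b, lt_of_le_of_lt (not_lt.1 h) a.2⟩, rfl⟩

theorem cols_iso (hr : r ≤ q) (h0 : Zᵀ * Z = 0) : (cols hr Z)ᵀ * cols hr Z = 0 := by
  ext a b
  exact congrFun (congrFun h0 (Fin.castLE hr a)) (Fin.castLE hr b)

theorem cols_unit (hr : r ≤ q) (h1 : Zᴴ * Z = 1) : (cols hr Z)ᴴ * cols hr Z = 1 := by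
  rw [← submatrix_one _ (Fin.castLE_injective hr), ← h1]
  rfl

theorem xs_nil (hr : r ≤ q) (hrow : ∀ i j, pat i j → (i : ℕ) < r → (j : ℕ) < r)
    {Y : Matrix (Fin N) (Fin r) ℂ} (hY : Yᵀ * cols hr Z = 0) :
    XS pat Z (cols hr Z * Yᵀ - Y * (cols hr Z)ᵀ) := by
  have e : cols hr Z = Z * cols hr (1 : CMat q) := by
    conv_lhs => rw [← Matrix.mul_one Z]
    rfl
  refine ⟨Y * (cols hr (1 : CMat q))ᵀ, ?_, fun i j hij => ?_⟩
  · rw [e]
    simp only [transpose_mul, transpose_transpose, Matrix.mul_assoc]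
  · rw [transpose_mul, transpose_transpose, Matrix.mul_assoc, mul_apply]
    refine Finset.sum_eq_zero fun a _ => ?_
    by_cases h : i = Fin.castLE hr a
    · have h2 : (j : ℕ) < r := hrow i j hij (h ▸ a.2)
      exact mul_eq_zero_of_right _ (congrFun (congrFun hY a) ⟨j, h2⟩)
    · exact mul_eq_zero_of_left (one_apply_ne h) _

theorem conj_pow_orth {g : CMat N} (hg : gᵀ * g = 1) (w : CMat N) (k : ℕ) :
    (g * w * gᵀ) ^ k = g * w ^ k * gᵀ := by
  induction k with
  | zero => rw [pow_zero, pow_zero, Matrix.mul_one, mul_eq_one_comm.1 hg]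
  | succ k ih =>
    rw [pow_succ, ih, pow_succ]
    simp only [Matrix.mul_assoc]
    rw [← Matrix.mul_assoc gᵀ, hg, Matrix.one_mul]

theorem unit_conj {V : Matrix (Fin N) (Fin r) ℂ} (h : Vᴴ * V = 1) : Vᵀ * V.map conj = 1 := by
  have h1 := congrArg transpose h
  rwa [transpose_mul, transpose_one] at h1

theorem penK_nonneg (k : ℕ) (V : Matrix (Fin N) (Fin r) ℂ) (w : CMat N) : 0 ≤ penK k V w :=
  Real.rpow_nonneg (norm_nonneg _) _

theorem continuous_penK (k : ℕ) :
    Continuous fun p : Matrix (Fin N) (Fin r) ℂ × CMat N => penK k p.1 p.2 := by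
  refine Continuous.rpow_const (Continuous.norm (Continuous.matrix_det ?_)) fun _ => .inr ?_
  · exact ((continuous_fst.matrix_conjTranspose.matrix_mul (continuous_snd.pow k)).matrix_mul
      (continuous_fst.matrix_map Complex.continuous_conj))
  · positivity

theorem penK_smul (hrk : r * k ≠ 0) (V : Matrix (Fin N) (Fin r) ℂ) (c : ℂ) (w : CMat N) :
    penK k V (c • w) = Complex.normSq c * penK k V w := by
  have h : ((r : ℝ) * k) ≠ 0 := by exact_mod_cast hrk
  rw [penK, penK, smul_pow, Matrix.mul_smul, Matrix.smul_mul, det_smul, norm_mul, norm_pow,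
    norm_pow, ← pow_mul, Real.mul_rpow (by positivity) (norm_nonneg _), Fintype.card_fin,
    ← Real.rpow_natCast, ← Real.rpow_mul (norm_nonneg _), Complex.normSq_eq_norm_sq,
    ← Real.rpow_natCast]
  congr 2
  push_cast
  rw [mul_comm (k : ℝ), mul_div_cancel₀ _ h]

theorem penK_act {V V' : Matrix (Fin N) (Fin r) ℂ} (hV : Vᴴ * V = 1) (hV' : V'ᴴ * V' = 1)
    {g : CMat N} (hg : gᵀ * g = 1) {U B : CMat r} (e : g * V = V' * U) (hB : w ^ k = V * B * Vᵀ) :
    penK k V' (g * w * gᵀ) = (((g * V)ᴴ * (g * V)).det.re *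
      ‖(Vᴴ * w ^ k * V.map conj).det‖) ^ ((2 : ℝ) / (r * k)) := by
  have e1 : Vᴴ * w ^ k * V.map conj = B := by
    rw [hB, ← Matrix.mul_assoc, ← Matrix.mul_assoc, hV, Matrix.one_mul, Matrix.mul_assoc,
      unit_conj hV, Matrix.mul_one]
  have e2 : V'ᴴ * (g * w * gᵀ) ^ k * V'.map conj = U * B * Uᵀ := by
    have e3 : g * (V * B * Vᵀ) * gᵀ = g * V * B * (g * V)ᵀ := by
      simp only [transpose_mul, Matrix.mul_assoc]
    rw [conj_pow_orth hg, hB, e3, e, transpose_mul]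
    simp only [← Matrix.mul_assoc]
    rw [hV', Matrix.one_mul, Matrix.mul_assoc _ V'ᵀ, unit_conj hV', Matrix.mul_one]
  rw [penK, e1, e2, e, conjTranspose_mul, Matrix.mul_assoc Uᴴ, ← Matrix.mul_assoc V'ᴴ, hV',
    Matrix.one_mul, det_mul, det_mul, det_mul, det_transpose, det_conjTranspose, norm_mul,
    norm_mul, RCLike.star_def, ← Complex.normSq_eq_conj_mul_self, Complex.ofReal_re,
    Complex.normSq_eq_norm_sq]
  congr 1
  ring

theorem gram_exp {V : Matrix (Fin N) (Fin r) ℂ} (hV : Vᴴ * V = 1) {g : ℂ → CMat N} {X : CMat N}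
    (hg : J2 g 1 X) : ∃ χ : ℂ → ℝ, ContinuousAt χ 0 ∧ χ 0 = nsr ((1 - V * Vᴴ) * X * V) ∧
      ∀ᶠ s in 𝓝 (0 : ℂ), ((g s * V)ᴴ * (g s * V)).det.re =
        ‖(Vᴴ * g s * V).det‖ ^ 2 * (1 + Complex.normSq s * χ s) := by
  have hA : Tendsto (fun s => Vᴴ * g s * V) (𝓝 0) (𝓝 1) := by
    simpa [hV] using (((J2.const Vᴴ).mul hg).mul (J2.const V)).tendsto
  have hA0 : ∀ᶠ s in 𝓝 (0 : ℂ), (Vᴴ * g s * V).det ≠ 0 :=
    ((continuous_id.matrix_det.tendsto 1).comp hA).eventually_ne (by simp)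
  obtain ⟨φ, h1, h2⟩ := hg
  have hg0 : g 0 = 1 := by simpa using h2.self_of_nhds
  have hAi : ContinuousAt (fun s => (Vᴴ * g s * V)⁻¹) 0 := by
    have h3 : ContinuousAt (fun A : CMat r => A⁻¹) 1 := by
      refine continuousAt_matrix_inv _ ?_
      rw [Matrix.det_one, Ring.inverse_eq_inv']
      exact continuousAt_inv₀ one_ne_zero
    have h4 := h3.tendsto.comp hA
    simpa [ContinuousAt, hg0, hV, Function.comp_def] using h4
  set M : ℂ → Matrix (Fin N) (Fin r) ℂ :=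
    fun s => (1 - V * Vᴴ) * (X + s • φ s) * V * (Vᴴ * g s * V)⁻¹ with hM
  have hMc : ContinuousAt M 0 := by
    have h3 : Continuous fun p : CMat N × CMat r => (1 - V * Vᴴ) * p.1 * V * p.2 := by fun_prop
    exact h3.continuousAt.comp (f := fun s => (X + s • φ s, (Vᴴ * g s * V)⁻¹))
      (ContinuousAt.prodMk (by fun_prop) hAi)
  have hHc : ContinuousAt (fun s => (M s)ᴴ * M s) 0 := by
    have h3 : Continuous fun p : Matrix (Fin N) (Fin r) ℂ => pᴴ * p := by fun_prop
    exact h3.continuousAt.comp hMc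
  have hn : Continuous fun s : ℂ => (Complex.normSq s : ℂ) := by fun_prop
  obtain ⟨E, h3, h4⟩ := det_exp hHc hn.continuousAt
  refine ⟨fun s => (((M s)ᴴ * M s).trace + E s * Complex.normSq s).re, ?_, ?_, ?_⟩
  · exact Complex.continuous_re.continuousAt.comp
      (((continuous_id.matrix_trace).continuousAt.comp hHc).add (h3.mul hn.continuousAt))
  · simp only [hM, hg0, zero_smul, add_zero, Matrix.mul_one, hV, inv_one, map_zero,
      Complex.ofReal_zero, mul_zero]
    rw [trace_mul_comm, ← nsr_eq, Complex.ofReal_re]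
  · filter_upwards [hA0, h2] with s a1 a2
    have hE : (1 - V * Vᴴ) * V = 0 := by
      rw [Matrix.sub_mul, Matrix.mul_assoc, hV, Matrix.one_mul, Matrix.mul_one, sub_self]
    have hE' : Vᴴ * (1 - V * Vᴴ) = 0 := by
      rw [Matrix.mul_sub, ← Matrix.mul_assoc, hV, Matrix.one_mul, Matrix.mul_one, sub_self]
    have e1 : g s * V = (V + s • M s) * (Vᴴ * g s * V) := by
      have e2 : (1 - V * Vᴴ) * g s * V = s • ((1 - V * Vᴴ) * (X + s • φ s) * V) := by
        rw [a2, Matrix.mul_add, Matrix.add_mul, Matrix.mul_one, hE, zero_add, Matrix.mul_smul,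
          Matrix.smul_mul]
      rw [Matrix.add_mul, Matrix.smul_mul, hM, Matrix.nonsing_inv_mul_cancel_right _ _
        (isUnit_iff_ne_zero.2 a1), ← e2]
      simp only [Matrix.sub_mul, Matrix.one_mul, Matrix.mul_assoc, add_sub_cancel]
    have e2 : Vᴴ * M s = 0 := by
      simp only [hM, ← Matrix.mul_assoc, hE', Matrix.zero_mul]
    have e3 : (M s)ᴴ * V = 0 := by simpa using congrArg conjTranspose e2
    have e4 : (V + s • M s)ᴴ * (V + s • M s) = 1 + (Complex.normSq s : ℂ) • ((M s)ᴴ * M s) := by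
      simp only [conjTranspose_add, conjTranspose_smul, Matrix.add_mul, Matrix.mul_add,
        Matrix.smul_mul, Matrix.mul_smul, hV, e2, e3, smul_zero, add_zero, zero_add, smul_smul,
        RCLike.star_def, Complex.mul_conj]
    rw [e1]
    generalize Vᴴ * g s * V = A
    rw [conjTranspose_mul, Matrix.mul_assoc, ← Matrix.mul_assoc (V + s • M s)ᴴ, e4, det_mul,
      det_mul, h4, det_conjTranspose, mul_comm _ A.det, ← mul_assoc, RCLike.star_def,
      ← Complex.normSq_eq_conj_mul_self, Complex.re_ofReal_mul, Complex.normSq_eq_norm_sq A.det]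
    congr 1
    rw [add_assoc, pow_two, ← mul_assoc, ← add_mul, mul_comm _ (Complex.normSq s : ℂ),
      Complex.add_re, Complex.re_ofReal_mul, Complex.one_re]

theorem pen_curve {S : T4 N} (hS : IsOp S) (hr : r ≤ q) (hrk : 2 ≤ r * k)
    (hU : ∀ (Z : Matrix (Fin N) (Fin q) ℂ) (U : Matrix (Fin q) (Fin q) ℂ) (w : CMat N),
      U.BlockTriangular id → IsUnit U.det → XS pat (Z * U) w → XS pat Z w)
    (hpow : ∀ (Z : Matrix (Fin N) (Fin q) ℂ) (w : CMat N), Zᵀ * Z = 0 → Zᴴ * Z = 1 → XS pat Z w →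
      ∃ B : Matrix (Fin r) (Fin r) ℂ, w ^ k = cols hr Z * B * (cols hr Z)ᵀ) {c₀ : ℝ} (hc₀ : 0 < c₀)
    (hall : ∀ (Z : Matrix (Fin N) (Fin q) ℂ) (w : CMat N), Zᵀ * Z = 0 → Zᴴ * Z = 1 → XS pat Z w →
      0 ≤ rq S w + c₀ * penK k (cols hr Z) w)
    (h0 : Zᵀ * Z = 0) (h1 : Zᴴ * Z = 1) (hw : XS pat Z w)
    (hact : rq S w + c₀ * penK k (cols hr Z) w = 0) (hpos : 0 < penK k (cols hr Z) w)
    {X y : CMat N} (hX : Xᵀ = -X) (hy : XS pat Z y) :
    ∃ α : ℂ, (y = 0 → α = (2 / (r * k) : ℝ) * ((cols hr Z)ᴴ * X * cols hr Z).trace) ∧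
      cq S (X * w - w * X + y + (-α) • w) w = 0 ∧ 0 ≤ rq S (X * w - w * X + y + (-α) • w) +
        c₀ * penK k (cols hr Z) w * (2 / (r * k)) *
          nsr ((1 - cols hr Z * (cols hr Z)ᴴ) * X * cols hr Z) := by
  set V := cols hr Z with hV
  set t : ℝ := 2 / (r * k) with ht
  have hrk' : (2 : ℝ) ≤ r * k := by exact_mod_cast hrk
  have ht0 : 0 < t := by positivity
  have ht1 : t ≤ 1 := (div_le_one (by positivity)).2 hrk'
  have hV1 : Vᴴ * V = 1 := cols_unit hr h1
  obtain ⟨g, hg, hg1⟩ := exists_curve hX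
  obtain ⟨χ, hχ, hχ0, hχ1⟩ := gram_exp hV1 hg
  obtain ⟨b, hb0, hb⟩ := J2.pow w y k
  set B₀ := Vᴴ * w ^ k * V.map conj with hB₀
  have hB0 : B₀.det ≠ 0 := fun h => by
    rw [penK, ← hB₀, h, norm_zero, Real.zero_rpow ht0.ne'] at hpos
    exact lt_irrefl _ hpos
  have hA : J2 (fun s => (Vᴴ * g s * V).det) 1 (Vᴴ * X * V).trace := by
    refine J2.det ?_
    simpa [hV1] using ((J2.const Vᴴ).mul hg).mul (J2.const V)
  have hB : J2 (fun s : ℂ => (B₀⁻¹ * (Vᴴ * (w + s • y) ^ k * V.map conj)).det) 1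
      (B₀⁻¹ * (Vᴴ * b * V.map conj)).trace := by
    refine J2.det ?_
    simpa [← hB₀, Matrix.nonsing_inv_mul _ (isUnit_iff_ne_zero.2 hB0)] using
      (J2.const B₀⁻¹).mul (((J2.const Vᴴ).mul hb).mul (J2.const (V.map conj)))
  have hD := (hA.smul hA).smul hB
  simp only [smul_eq_mul, mul_one, one_mul] at hD
  have hDt := hD.tendsto
  have hu := (hD.cpow ((-(t / 2) : ℝ) : ℂ)).smul ((hg.mul (J2.lin w y)).mul hg.transpose)
  simp only [one_smul, Matrix.one_mul, transpose_one, Matrix.mul_one, hX, Matrix.mul_neg] at hu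
  have hcχ : ∀ᶠ s in 𝓝 (0 : ℂ), 0 < 1 + Complex.normSq s * χ s := by
    have h2 : ContinuousAt (fun s => 1 + Complex.normSq s * χ s) 0 := by fun_prop
    exact continuousAt_const.eventually_lt h2 (by simp)
  have key := levi hS hu (χ := fun s => c₀ * penK k V w * t * χ s) (by fun_prop) (by
    filter_upwards [hg1, hχ1, hcχ, hDt.eventually_ne one_ne_zero] with s a1 a2 a3 a4
    obtain ⟨Z', U, b0, b1, b2, b3, b4⟩ := exists_qr_iso h0 h1 a1
    have hws := hw.add (hy.smul s)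
    obtain ⟨B, hBs⟩ := hpow Z _ h0 h1 hws
    have b5 := hall Z' _ b0 b1 (hU _ _ _ b2 b3 (b4 ▸ hws.act a1))
    rw [penK_act hV1 (cols_unit hr b1) a1 (by rw [← cols_tri hr Z' b2, ← b4]; rfl) hBs, a2] at b5
    set D := (Vᴴ * g s * V).det * (Vᴴ * g s * V).det *
      (B₀⁻¹ * (Vᴴ * (w + s • y) ^ k * V.map conj)).det with hDdef
    have e1 : ‖(Vᴴ * g s * V).det‖ ^ 2 * (1 + Complex.normSq s * χ s) *
        ‖(Vᴴ * (w + s • y) ^ k * V.map conj).det‖ =
        ‖B₀.det‖ * ‖D‖ * (1 + Complex.normSq s * χ s) := by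
      rw [hDdef, det_mul B₀⁻¹, det_nonsing_inv, Ring.inverse_eq_inv', norm_mul, norm_mul, norm_mul,
        norm_inv]
      have := norm_ne_zero_iff.2 hB0
      field_simp
    have e2 : Complex.normSq (D ^ ((-(t / 2) : ℝ) : ℂ)) * ‖D‖ ^ t = 1 := by
      rw [Complex.normSq_eq_norm_sq, Complex.norm_cpow_real, ← Real.rpow_natCast,
        ← Real.rpow_mul (norm_nonneg _), ← Real.rpow_add (norm_pos_iff.2 a4)]
      convert Real.rpow_zero _
      push_cast
      ring
    rw [e1, Real.mul_rpow (by positivity) a3.le, Real.mul_rpow (norm_nonneg _) (norm_nonneg _),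
      ← ht] at b5
    have e3 : ‖B₀.det‖ ^ t = penK k V w := rfl
    have e4 := rpow_one_add_le_one_add_mul_self (s := Complex.normSq s * χ s) (by linarith only [a3])
      ht0.le ht1
    have b6 := mul_nonneg (Complex.normSq_nonneg (D ^ ((-(t / 2) : ℝ) : ℂ))) b5
    have b7 := mul_le_mul_of_nonneg_left e4 (mul_pos hc₀ hpos).le
    rw [rq_smul_right, e3] at *
    have e5 : Complex.normSq (D ^ ((-(t / 2) : ℝ) : ℂ)) * (c₀ * (penK k V w * ‖D‖ ^ t *
        (1 + Complex.normSq s * χ s) ^ t)) = c₀ * penK k V w * (1 + Complex.normSq s * χ s) ^ t := by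
      linear_combination c₀ * penK k V w * (1 + Complex.normSq s * χ s) ^ t * e2
    rw [mul_add, e5] at b6
    linarith only [hact, b6, b7])
  rw [hχ0] at key
  refine ⟨(t / 2 : ℝ) * ((B₀⁻¹ * (Vᴴ * b * V.map conj)).trace +
    ((Vᴴ * X * V).trace + (Vᴴ * X * V).trace)), fun h => ?_, ?_⟩
  · rw [hb0 h]
    simp
    ring
  · have e : ∀ d : ℂ, X * w - w * X + y + (-((t / 2 : ℝ) * d)) • w =
        -(w * X) + (y + X * w) + (((-(t / 2) : ℝ) : ℂ) * d) • w := fun d => by
      push_cast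
      module
    rw [e]
    exact key

/-- First and second variation at an active point. -/
theorem pen_var {S : T4 N} (hS : IsOp S) (hr : r ≤ q) (hrk : 2 ≤ r * k)
    (hU : ∀ (Z : Matrix (Fin N) (Fin q) ℂ) (U : Matrix (Fin q) (Fin q) ℂ) (w : CMat N),
      U.BlockTriangular id → IsUnit U.det → XS pat (Z * U) w → XS pat Z w)
    (hrow : ∀ i j, pat i j → (i : ℕ) < r → (j : ℕ) < r)
    (hpow : ∀ (Z : Matrix (Fin N) (Fin q) ℂ) (w : CMat N), Zᵀ * Z = 0 → Zᴴ * Z = 1 → XS pat Z w →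
      ∃ B : Matrix (Fin r) (Fin r) ℂ, w ^ k = cols hr Z * B * (cols hr Z)ᵀ) {c₀ : ℝ} (hc₀ : 0 < c₀)
    (hall : ∀ (Z : Matrix (Fin N) (Fin q) ℂ) (w : CMat N), Zᵀ * Z = 0 → Zᴴ * Z = 1 → XS pat Z w →
      0 ≤ rq S w + c₀ * penK k (cols hr Z) w)
    (h0 : Zᵀ * Z = 0) (h1 : Zᴴ * Z = 1) (hw : XS pat Z w)
    (hact : rq S w + c₀ * penK k (cols hr Z) w = 0) (hpos : 0 < penK k (cols hr Z) w) :
    (∀ X : CMat N, Xᵀ = -X → cq S (X * w - w * X) w / 4 =
      -((c₀ * penK k (cols hr Z) w : ℝ) * (2 / (r * k) : ℝ)) *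
        ((cols hr Z)ᴴ * X * cols hr Z).trace) ∧
    ∀ (X : CMat N) (Y : Matrix (Fin N) (Fin r) ℂ), Xᵀ = -X → Yᵀ * cols hr Z = 0 →
      0 ≤ rq S (X * w - w * X + (cols hr Z * Yᵀ - Y * (cols hr Z)ᵀ)) +
        Complex.normSq (cq S (X * w - w * X + (cols hr Z * Yᵀ - Y * (cols hr Z)ᵀ)) w / 4) /
          (c₀ * penK k (cols hr Z) w) + c₀ * penK k (cols hr Z) w * (2 / (r * k)) *
          nsr ((1 - cols hr Z * (cols hr Z)ᴴ) * X * cols hr Z) := by
  have hc : 0 < c₀ * penK k (cols hr Z) w := mul_pos hc₀ hpos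
  have hww : cq S w w = -4 * (c₀ * penK k (cols hr Z) w : ℝ) := by
    rw [cq_self hS, eq_neg_of_add_eq_zero_left hact]
    push_cast
    ring
  refine ⟨fun X hX => ?_, fun X Y hX hY => ?_⟩
  · obtain ⟨α, a1, a2, -⟩ := pen_curve hS hr hrk hU hpow hc₀ hall h0 h1 hw hact hpos hX
      (zero_smul ℂ w ▸ hw.smul 0)
    rw [cq_add_left, add_zero, cq_smul_left, hww, a1 rfl] at a2
    linear_combination a2 / 4
  · obtain ⟨α, -, a2, a3⟩ := pen_curve hS hr hrk hU hpow hc₀ hall h0 h1 hw hact hpos hX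
      (xs_nil hr hrow hY)
    generalize X * w - w * X + (cols hr Z * Yᵀ - Y * (cols hr Z)ᵀ) = v at a2 a3 ⊢
    generalize c₀ * penK k (cols hr Z) w = c at a3 hc hww ⊢
    have e1 : cq S v w / 4 = -(c * α) := by
      rw [cq_add_left, cq_smul_left, hww] at a2
      linear_combination a2 / 4
    have e2 : rq S (v + (-α) • w) = rq S v + c * Complex.normSq α := by
      have e3 : cq S v w = -4 * c * α := by linear_combination 4 * e1
      rw [rq, cq_add_left, cq_add_right, cq_add_right, cq_smul_left, cq_smul_left, cq_smul_right,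
        cq_smul_right, cq_symm hS v w, e3, hww, rq]
      simp [Complex.normSq_apply]
      ring
    rw [e1, Complex.normSq_neg, map_mul, Complex.normSq_ofReal, mul_assoc c c,
      mul_div_cancel_left₀ _ hc.ne', ← e2]
    exact a3

end

end Pool.Agent.Work.MP_3a9764_gt
end

-- merged part: Pool.Agent.Work.MP_3a9764_gt.S3a
section
-- merged part: Pool.Agent.Work.MP_3a9764_gt.APen
section
/-! The ratio step and the two generic steps of the last stage. -/

set_option autoImplicit false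

open Filter Set Matrix
open scoped Topology ComplexConjugate

namespace Pool.Agent.Work.MP_3a9764_gt

noncomputable section

variable {n N : ℕ} {T : ℝ} {W : ℝ → Set (T4 n)}

/-- The flat extension as a linear map. -/
def flatL (n N : ℕ) : T4 n →ₗ[ℝ] T4 N where
  toFun := flat N
  map_add' R S := pullT_add R S _
  map_smul' c R := pullT_smul c R _

theorem PICw.scal_pos (hn : 5 ≤ n) {R : T4 n} (hR : IsCurv R) (h : PICw R) (hne : R ≠ 0) :
    0 < scal4 R := lt_of_not_ge fun hs => hne (h.p4 hn hR hs)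

theorem PICw.scal_ge (hn : 5 ≤ n) {R : T4 n} (hR : IsCurv R) (h : PICw R) : 0 ≤ scal4 R := by
  by_cases h0 : R = 0
  · simp [h0, scal4]
  · exact (h.scal_pos hn hR h0).le

theorem PIC2w.picw {R : T4 n} (h : PIC2w R) : PICw R := fun z w _ _ _ => h z w

theorem PIC2w.add_Id4 {R : T4 n} (h : PIC2w R) {c : ℝ} (hc : 0 ≤ c) : PIC2w (R + c • Id4 n) := by
  intro z w
  rw [rq_add, rq_smul, rq_Id4 (wedge_skew z w)]
  exact add_nonneg (h z w) (mul_nonneg hc (div_nonneg (nsq_nonneg _) zero_le_two))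

theorem IsCurv.add_Id4 {R : T4 n} (hR : IsCurv R) (c : ℝ) : IsCurv (R + c • Id4 n) :=
  hR.add (T.isCurv_smul c isCurv_Id4)

theorem scal4_add_Id4 (R : T4 n) (c : ℝ) :
    scal4 (R + c • Id4 n) = scal4 R + c * (n * (n - 1)) := by
  rw [T.scal4_add, T.scal4_smul, scal4_Id4]

/-- The reaction term of a shifted tensor. -/
theorem shift_bound (hn : 5 ≤ n) (F : T4 n →ₗ[ℝ] T4 N) (hF : ∀ R, IsCurv R → IsCurv (F R)) {q : ℕ}
    (pat : Fin q → Fin q → Prop) : ∃ C : ℝ, ∀ R, IsCurv R → PICw R → ∀ η ∈ Ioc (0 : ℝ) 1,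
      ∀ Z w, (Z, w) ∈ TK N pat → rq (Qq4 (F R + (η * scal4 R) • Id4 N)) w ≤
        rq (Qq4 (F R)) w + C * η * scal4 R ^ 2 := by
  have : CompactSpace (TK N pat) := isCompact_iff_compactSpace.1 (isCompact_TK N pat)
  obtain ⟨M, hM0, hM⟩ := T.exists_bound (l := fun p : TK N pat => rqL p.1.2 ∘ₗ
    IsLinearMap.mk' (fun R : T4 n => kn (ric4 (F R)) 1)
      ⟨fun R S => by rw [map_add, ric4_add, kn_add_left],
        fun c R => by rw [map_smul, ric4_smul, kn_smul_left]⟩)
    fun R => (continuous_rq _).comp (by fun_prop)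
  obtain ⟨A, hA0, hA⟩ := PICw.norm_le hn
  refine ⟨M * A + N, fun R hR hP η hη Z w hp => ?_⟩
  have h1 : rq (kn (ric4 (F R)) 1) w ≤ M * ‖R‖ := (le_abs_self _).trans (hM ⟨_, hp⟩ R)
  have h2 := mul_le_mul_of_nonneg_left (hA R hR hP) hM0
  have h3 := hP.scal_ge hn hR
  have h4 := mul_le_mul_of_nonneg_left (h1.trans h2) (mul_nonneg hη.1.le h3)
  have h5 : η * η * scal4 R ^ 2 * N ≤ η * scal4 R ^ 2 * N :=
    mul_le_mul_of_nonneg_right (mul_le_mul_of_nonneg_right
      (mul_le_of_le_one_right hη.1.le hη.2) (sq_nonneg _)) (Nat.cast_nonneg _)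
  have h6 := mul_self_nonneg (η * scal4 R)
  rw [Qq4_add_Id4 (hF R hR), rq_add, rq_add, rq_smul, rq_smul, rq_Id4 hp.2.2.1.skew, hp.2.2.2]
  linarith only [h4, h5, mul_self_nonneg ((1 : ℝ) * η * ((1 : ℝ) * scal4 R))]

theorem tri_mul_diag {q : ℕ} {A B : CMat q} (hA : A.BlockTriangular id)
    (hB : B.BlockTriangular id) (i : Fin q) : (A * B) i i = A i i * B i i := by
  rw [mul_apply]
  refine Finset.sum_eq_single i (fun j _ hj => ?_) fun h => absurd (Finset.mem_univ _) h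
  rcases lt_or_gt_of_ne hj with h | h
  · rw [hA h, zero_mul]
  · rw [hB h, mul_zero]

theorem tri_inv {q : ℕ} {U : CMat q} (hU : U.BlockTriangular id) (hd : IsUnit U.det) :
    U⁻¹.BlockTriangular id :=
  have := U.invertibleOfIsUnitDet hd
  blockTriangular_inv_of_blockTriangular hU

theorem tri_conj_diag {q : ℕ} {U A : CMat q} (hU : U.BlockTriangular id) (hd : IsUnit U.det)
    (hA : A.BlockTriangular id) (i : Fin q) : (U * A * U⁻¹) i i = A i i := by
  have h := tri_mul_diag hU (tri_inv hU hd) i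
  rw [Matrix.mul_nonsing_inv _ hd, one_apply_eq] at h
  rw [tri_mul_diag (hU.mul hA) (tri_inv hU hd), tri_mul_diag hU hA]
  linear_combination -A i i * h

/-- Change of the frame by an invertible matrix. -/
theorem xs_frame {q : ℕ} {Z C : Matrix (Fin N) (Fin q) ℂ} {U : CMat q} (hd : IsUnit U.det) :
    Z * U * Cᵀ - C * (Z * U)ᵀ = Z * (C * Uᵀ)ᵀ - C * Uᵀ * Zᵀ ∧
      (C * Uᵀ)ᵀ * Z = U * (Cᵀ * (Z * U)) * U⁻¹ := by
  constructor
  · simp only [transpose_mul, transpose_transpose, Matrix.mul_assoc]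
  · simp only [transpose_mul, transpose_transpose, Matrix.mul_assoc, Matrix.mul_nonsing_inv _ hd,
      Matrix.mul_one]

theorem xs_act_diag {q : ℕ} {pat : Fin q → Fin q → Prop} (hup : ∀ i j, j < i → pat i j)
    (hdiag : ∀ i j, pat i j → j ≤ i) {Z : Matrix (Fin N) (Fin q) ℂ} {w : CMat N}
    (h0 : Zᵀ * Z = 0) (h1 : Zᴴ * Z = 1) (hw : XS pat Z w) {g : CMat N} (hg : gᵀ * g = 1) :
    ∃ Z' : Matrix (Fin N) (Fin q) ℂ, Z'ᵀ * Z' = 0 ∧ Z'ᴴ * Z' = 1 ∧ XS pat Z' (g * w * gᵀ) ∧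
      ∀ i, (Z'ᴴ * (g * w * gᵀ) * Z') i i = (Zᴴ * w * Z) i i := by
  obtain ⟨Z', U, b0, b1, b2, b3, b4⟩ := exists_qr_iso h0 h1 hg
  obtain ⟨C, rfl, hC⟩ := hw
  have e0 : (g * C)ᵀ * (Z' * U) = Cᵀ * Z := by
    rw [← b4, transpose_mul, Matrix.mul_assoc, ← Matrix.mul_assoc gᵀ, hg, Matrix.one_mul]
  obtain ⟨e1, e2⟩ := xs_frame (Z := Z') (C := g * C) b3
  have e3 : g * (Z * Cᵀ - C * Zᵀ) * gᵀ = Z' * (g * C * Uᵀ)ᵀ - g * C * Uᵀ * Z'ᵀ := by
    rw [← e1, ← b4]
    simp only [transpose_mul, Matrix.mul_sub, Matrix.sub_mul, Matrix.mul_assoc]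
  have hτ : (Cᵀ * Z).BlockTriangular id := fun i j h => hC i j (hup i j h)
  rw [e0] at e2
  refine ⟨Z', b0, b1, ⟨_, e3, fun i j hij => ?_⟩, fun i => ?_⟩
  · rw [e2]
    rcases (hdiag i j hij).eq_or_lt with h | h
    · subst h
      rw [tri_conj_diag b2 b3 hτ, hC _ _ hij]
    · exact (b2.mul hτ).mul (tri_inv b2 b3) h
  · rw [e3, xs_tau b0 b1, xs_tau h0 h1, e2, tri_conj_diag b2 b3 hτ]

theorem rat (hW : CurvFlow n T W) {P : T4 n → Prop} (h0 : AsymP T W P) {K : Type}
    [TopologicalSpace K] [CompactSpace K] (φ : K → T4 n →ₗ[ℝ] ℝ)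
    (hφ : ∀ R, Continuous fun w => φ w R) (pen : K → ℝ) (hpen : Continuous pen)
    (hp0 : ∀ w, 0 ≤ pen w) (hsc : ∀ R, IsCurv R → P R → R ≠ 0 → 0 < scal4 R) {β κ C : ℝ}
    (hβ : 0 < β) (hκ : 0 < κ)
    (hstart : ∀ R, IsCurv R → P R → ∀ w, 0 ≤ φ w R + β * scal4 R * pen w)
    (hgain : ∀ η ∈ Ioc (0 : ℝ) 1, ∀ s ∈ Ioc (0 : ℝ) β, ∀ R, IsCurv R → P R → R ≠ 0 →
      (∀ w, 0 ≤ φ w R + scal4 R * (η + s * pen w)) →
      ∀ w, φ w R + scal4 R * (η + s * pen w) = 0 → 0 < pen w →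
        scal4 R ^ 2 * (κ * s * pen w - C * η) ≤
          φ w (Qq4 R) + scal4 (Qq4 R) * (η + s * pen w)) : Asym T W φ := by
  exact rat' hW h0 φ hφ pen hpen hp0 hsc hβ hκ hstart hgain

/-- The step with an invariant penalty. -/
theorem invStep (hW : CurvFlow n T W) (hn : 5 ≤ n) (hN : n ≤ N) {q : ℕ}
    (pat : Fin q → Fin q → Prop) (hup : ∀ i j, j < i → pat i j)
    (hdiag : ∀ i j, pat i j → j ≤ i)
    (g : (Fin q → ℂ) → ℝ) (hg : Continuous g) (hg0 : ∀ x, 0 ≤ g x)
    (hg2 : ∀ (c : ℂ) x, g (c • x) = Complex.normSq c * g x) {P : T4 n → Prop}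
    (h0 : AsymP T W P) (hP : ∀ R, IsCurv R → P R → PICw R) {β : ℝ}
    (hstart : ∀ R, IsCurv R → P R → ∀ (Z : Matrix (Fin N) (Fin q) ℂ) (w : CMat N),
      Zᵀ * Z = 0 → Zᴴ * Z = 1 → XS pat Z w →
        0 ≤ rq (flat N R) w + β * scal4 R * g fun i => (Zᴴ * w * Z) i i) :
    AsymP T W fun R => Pos q pat (flat N R) := by
  have hn0 : (0 : ℝ) < n := by positivity
  obtain ⟨C, hC⟩ := shift_bound hn (flatL n N) (fun R hR => isCurv_pullT hR _) pat
  refine rat_XS (pen := fun Z w => g fun i => (Zᴴ * w * Z) i i) hW h0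
    (fun R hR h => (hP R hR h).scal_pos hn hR) (flatL n N) (hg.comp (by fun_prop))
    (fun _ _ => hg0 _) (fun Z c w => ?_) (β := max β 1) (κ := 1 / n) (C := C)
    (lt_max_of_lt_right one_pos) (by positivity) (fun R hR h Z w h0 h1 hw => ?_)
    fun η hη s hs R hR h hne hall Z w hp hact hpos => ?_
  · rw [← hg2, Matrix.mul_smul, Matrix.smul_mul]
    rfl
  · refine (hstart R hR h Z w h0 h1 hw).trans (add_le_add_right ?_ _)
    exact mul_le_mul_of_nonneg_right (mul_le_mul_of_nonneg_right (le_max_left _ _)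
      ((hP R hR h).scal_ge hn hR)) (hg0 _)
  · have a1 := (orbit_min ((isCurv_pullT hR (emb n N)).add_Id4 (η * scal4 R))
      hp.2.2.1.skew (.of_forall fun x hx _ => by
        obtain ⟨Z', b0, b1, b2, b3⟩ := xs_act_diag hup hdiag hp.1 hp.2.1 hp.2.2.1 hx
        have b4 := hall Z' _ b0 b1 b2
        simp only [b3, rq] at b4 hact
        change (cq (flatL n N R + _) w w).re ≤ (cq (flatL n N R + _) (x * w * xᵀ) _).re
        linarith only [hact, b4])).2
    have a2 := hC R hR (hP R hR h) η hη Z w hp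
    have a3 : 0 ≤ rq (Qq4 (flatL n N R + (η * scal4 R) • Id4 N)) w :=
      div_nonneg ((div_nonneg (nsq_nonneg _) zero_le_two).trans a1) (by norm_num)
    have a4 : Qq4 (flatL n N R) = flatL n N (Qq4 R) := Qq4_pullT R (emb_mul hN)
    have a5 := scal4_Qq4_ge hn0.ne' hR
    have a6 := mul_pos hs.1 hpos
    have a7 := mul_le_mul_of_nonneg_right a5 (add_pos hη.1 a6).le
    have a8 : 0 ≤ scal4 R ^ 2 / n * η := mul_nonneg (by positivity) hη.1.le
    rw [a4] at a2
    have e : scal4 R ^ 2 * (1 / n * s * g (fun i => (Zᴴ * w * Z) i i)) =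
      scal4 R ^ 2 / n * (s * g fun i => (Zᴴ * w * Z) i i) := by ring
    linarith only [a2, a3, a7, a8, e]

/-- The pointwise inequality of the step with a non-invariant penalty. -/
theorem pen_core {R : T4 N} (hR : IsCurv R) (h2 : PIC2w R) {r : ℕ}
    {V : Matrix (Fin N) (Fin r) ℂ} (hV0 : Vᵀ * V = 0) (hV1 : Vᴴ * V = 1) {w : CMat N}
    (hw : wᵀ = -w) (hwV : (1 - V * Vᴴ) * w * V = 0) {c t : ℝ} (hc : 0 < c) (ht : 0 ≤ t)
    (ht2 : t ≤ 1 / 2)
    (H1 : ∀ X : CMat N, Xᵀ = -X → cq R (X * w - w * X) w / 4 = -(c * t) * (Vᴴ * X * V).trace)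
    (H2 : ∀ (X : CMat N) (Y : Matrix (Fin N) (Fin r) ℂ), Xᵀ = -X → Yᵀ * V = 0 →
      0 ≤ rq R (X * w - w * X + (V * Yᵀ - Y * Vᵀ)) +
        Complex.normSq (cq R (X * w - w * X + (V * Yᵀ - Y * Vᵀ)) w / 4) / c +
        c * t * ∑ i, ∑ a, Complex.normSq (((1 - V * Vᴴ) * X * V : Matrix (Fin N) (Fin r) ℂ) i a)) :
    -(c * (scal4 R / 8)) ≤ rq (Qq4 R) w := by
  exact pen_core' hR h2 hV0 hV1 hw hc ht ht2 H1 H2

/-- The step with a non-invariant penalty. -/
theorem penStep (hW : CurvFlow n T W) (hn : 5 ≤ n) (hn7 : n ≤ 7) (hN : n ≤ N) {q r k : ℕ}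
    (hr : r ≤ q) (hrk : 4 ≤ r * k) (pat : Fin q → Fin q → Prop)
    (hU : ∀ (Z : Matrix (Fin N) (Fin q) ℂ) (U : Matrix (Fin q) (Fin q) ℂ) (w : CMat N),
      U.BlockTriangular id → IsUnit U.det → XS pat (Z * U) w → XS pat Z w)
    (hrow : ∀ i j, pat i j → (i : ℕ) < r → (j : ℕ) < r)
    (hcol : ∀ i j : Fin q, (j : ℕ) < r → r ≤ (i : ℕ) → pat i j)
    (hpow : ∀ (Z : Matrix (Fin N) (Fin q) ℂ) (w : CMat N), Zᵀ * Z = 0 → Zᴴ * Z = 1 → XS pat Z w →
      ∃ B : Matrix (Fin r) (Fin r) ℂ, w ^ k = cols hr Z * B * (cols hr Z)ᵀ)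
    {P : T4 n → Prop} (h0 : AsymP T W P) (hP : ∀ R, IsCurv R → P R → PIC2w R) {β : ℝ}
    (hstart : ∀ R, IsCurv R → P R → ∀ (Z : Matrix (Fin N) (Fin q) ℂ) (w : CMat N),
      Zᵀ * Z = 0 → Zᴴ * Z = 1 → XS pat Z w →
        0 ≤ rq (flat N R) w + β * scal4 R * penK k (cols hr Z) w) :
    AsymP T W fun R => Pos q pat (flat N R) := by
  have hn0 : (0 : ℝ) < n := by positivity
  have hn8 : (n : ℝ) ≤ 7 := by exact_mod_cast hn7
  have hrk' : (4 : ℝ) ≤ r * k := by exact_mod_cast hrk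
  have hc : Continuous fun p : Matrix (Fin N) (Fin q) ℂ × CMat N => penK k (cols hr p.1) p.2 :=
    (continuous_penK k).comp (f := fun p : Matrix (Fin N) (Fin q) ℂ × CMat N => (cols hr p.1, p.2))
      ((continuous_fst.matrix_submatrix id (Fin.castLE hr)).prodMk continuous_snd)
  obtain ⟨C, hC⟩ := shift_bound hn (flatL n N) (fun R hR => isCurv_pullT hR _) pat
  obtain ⟨M, hM⟩ := (isCompact_TK N pat).exists_bound_of_continuousOn hc.continuousOn
  refine rat_XS (pen := fun Z w => penK k (cols hr Z) w) hW h0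
    (fun R hR h => (hP R hR h).picw.scal_pos hn hR) (flatL n N) hc
    (fun _ _ => penK_nonneg _ _ _) (fun Z c w => penK_smul (by omega) _ _ _) (β := max β 1)
    (κ := 1 / 56) (C := C + max β 1 * M * (N * (N - 1)) / 8)
    (lt_max_of_lt_right one_pos) (by positivity) (fun R hR h Z w h0 h1 hw => ?_)
    fun η hη s hs R hR h hne hall Z w hp hact hpos => ?_
  · refine (hstart R hR h Z w h0 h1 hw).trans (add_le_add_right ?_ _)
    exact mul_le_mul_of_nonneg_right (mul_le_mul_of_nonneg_right (le_max_left _ _)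
      ((hP R hR h).picw.scal_ge hn hR)) (penK_nonneg _ _ _)
  · have a0 := (hP R hR h).picw.scal_pos hn hR hne
    have hS : IsCurv (flatL n N R + (η * scal4 R) • Id4 N) :=
      (isCurv_pullT hR (emb n N)).add_Id4 _
    obtain ⟨H1, H2⟩ := pen_var hS.isOp hr (by omega) hU hrow hpow (mul_pos hs.1 a0) hall hp.1
      hp.2.1 hp.2.2.1 hact hpos
    have a1 := pen_core' hS (((hP R hR h).pullT (emb n N)).add_Id4 (mul_pos hη.1 a0).le)
      (cols_iso hr hp.1) (cols_unit hr hp.2.1) hp.2.2.1.skew (mul_pos (mul_pos hs.1 a0) hpos)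
      (by positivity) ((div_le_iff₀ (by positivity)).2 (by linarith only [hrk'])) H1 H2
    have a2 := hC R hR (hP R hR h).picw η hη Z w hp
    have a3 : scal4 (flatL n N R) = scal4 R := scal4_pullT R (emb_mul hN)
    have a4 : Qq4 (flatL n N R) = flatL n N (Qq4 R) := Qq4_pullT R (emb_mul hN)
    have a5 : scal4 R ^ 2 / 7 ≤ scal4 (Qq4 R) :=
      (div_le_div_of_nonneg_left (sq_nonneg _) hn0 hn8).trans (scal4_Qq4_ge hn0.ne' hR)
    have a6 := mul_pos hs.1 hpos
    have a7 := mul_le_mul_of_nonneg_right a5 (add_pos hη.1 a6).le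
    have a8 : 0 ≤ scal4 R ^ 2 * η := mul_nonneg (by positivity) hη.1.le
    have a9 : s * penK k (cols hr Z) w ≤ max β 1 * M :=
      mul_le_mul hs.2 (Real.le_norm_self _ |>.trans (hM (Z, w) hp)) hpos.le (hs.1.le.trans hs.2)
    have b0 : (1 : ℝ) ≤ N := by exact_mod_cast (by omega : 1 ≤ N)
    have b1 := mul_le_mul_of_nonneg_right a9
      (mul_nonneg a8 (mul_nonneg (zero_le_one.trans b0) (sub_nonneg.2 b0)))
    rw [scal4_add_Id4, a3] at a1
    rw [a4] at a2
    linarith only [hr, a1, a2, a7, a8, b1]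

end

end Pool.Agent.Work.MP_3a9764_gt
end

-- merged part: Pool.Agent.Work.MP_3a9764_gt.S3a
section
/-! The invariant step in vector form; elementary estimates. -/

set_option autoImplicit false

open Filter Set Matrix
open scoped Topology ComplexConjugate

namespace Pool.Agent.Work.MP_3a9764_gt

noncomputable section

variable {n N : ℕ} {T : ℝ} {W : ℝ → Set (T4 n)}

theorem s3_sum {q : ℕ} (Z C : Matrix (Fin N) (Fin q) ℂ) :
    Z * Cᵀ - C * Zᵀ = ∑ i, wedge (fun a => Z a i) (fun a => C a i) := by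
  ext a b
  simp only [wedge, Matrix.sub_apply, mul_apply, transpose_apply, Matrix.sum_apply,
    vecMulVec_apply, Finset.sum_sub_distrib]

theorem s3_pos {q : ℕ} {pat : Fin q → Fin q → Prop} {S : T4 N} (h : Pos q pat S)
    {z x : Fin q → Fin N → ℂ} (hz : Fr z) (hx : ∀ i j, pat i j → x i ⬝ᵥ z j = 0) :
    0 ≤ rq S (∑ i, wedge (z i) (x i)) := by
  obtain ⟨h0, h1⟩ := (fr_iff (of z)ᵀ).2 hz
  exact h _ _ h0 h1 ⟨(of x)ᵀ, (s3_sum (of z)ᵀ (of x)ᵀ).symm, hx⟩

theorem s3_nv_nonneg (x : Fin N → ℂ) : 0 ≤ nv x :=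
  Finset.sum_nonneg fun _ _ => Complex.normSq_nonneg _

theorem s3_nv_smul (c : ℂ) (x : Fin N → ℂ) : nv (c • x) = Complex.normSq c * nv x := by
  simp only [nv, Pi.smul_apply, smul_eq_mul, map_mul, Finset.mul_sum]

theorem s3_nv_star (x : Fin N → ℂ) : nv (star x) = nv x := by simp [nv]

theorem s3_nv_eq (x : Fin N → ℂ) : star x ⬝ᵥ x = (nv x : ℂ) := by
  simp only [nv, dotProduct, Complex.ofReal_sum, Complex.normSq_eq_conj_mul_self, Pi.star_apply,
    Complex.star_def]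

theorem s3_nv_one {x : Fin N → ℂ} (h : star x ⬝ᵥ x = 1) : nv x = 1 := by
  rw [s3_nv_eq] at h
  exact_mod_cast h

theorem s3_normSq_par (a b : ℂ) :
    Complex.normSq (a + b) + Complex.normSq (a - b) = 2 * Complex.normSq a + 2 * Complex.normSq b := by
  simp only [Complex.normSq_apply, Complex.add_re, Complex.add_im, Complex.sub_re, Complex.sub_im]
  ring

theorem s3_nv_par (x y : Fin N → ℂ) : nv (x + y) + nv (x - y) = 2 * nv x + 2 * nv y := by
  simp only [nv, Finset.mul_sum, ← Finset.sum_add_distrib, Pi.add_apply, Pi.sub_apply,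
    s3_normSq_par]

theorem s3_nv_add (x y : Fin N → ℂ) : nv (x + y) ≤ 2 * nv x + 2 * nv y := by
  linarith only [s3_nv_par x y, s3_nv_nonneg (x - y)]

theorem s3_nsq_par (v w : CMat N) : nsq (v + w) + nsq (v - w) = 2 * nsq v + 2 * nsq w := by
  simp only [nsq, Finset.mul_sum, ← Finset.sum_add_distrib, Matrix.add_apply, Matrix.sub_apply,
    s3_normSq_par]

theorem s3_nsq_add (v w : CMat N) : nsq (v + w) ≤ 2 * nsq v + 2 * nsq w := by
  linarith only [s3_nsq_par v w, nsq_nonneg (v - w)]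

theorem s3_nsq_sub (v w : CMat N) : nsq (v - w) ≤ 2 * nsq v + 2 * nsq w := by
  linarith only [s3_nsq_par v w, nsq_nonneg (v + w)]

theorem s3_nsq_wedge (x y : Fin N → ℂ) : nsq (wedge x y) ≤ 4 * (nv x * nv y) := by
  have e : ∀ a b : Fin N → ℂ, nsq (vecMulVec a b) = nv a * nv b := fun a b => by
    simp only [nsq, nv, vecMulVec_apply, map_mul, Finset.sum_mul_sum]
  have h := s3_nsq_sub (vecMulVec x y) (vecMulVec y x)
  rw [e, e] at h
  rw [wedge]
  linarith

theorem s3_unit {v : Fin N → ℂ} (hv : v ≠ 0) :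
    ∃ (r : ℂ) (u : Fin N → ℂ), r ≠ 0 ∧ star u ⬝ᵥ u = 1 ∧ v = r • u := by
  have h0 : 0 < nv v := by
    refine lt_of_le_of_ne (s3_nv_nonneg v) fun h => hv ?_
    funext i
    exact Complex.normSq_eq_zero.1 ((Finset.sum_eq_zero_iff_of_nonneg fun _ _ =>
      Complex.normSq_nonneg _).1 h.symm i (Finset.mem_univ _))
  have h1 : ((√(nv v) : ℝ) : ℂ) ≠ 0 := Complex.ofReal_ne_zero.2 (Real.sqrt_pos.2 h0).ne'
  refine ⟨_, ((√(nv v) : ℝ) : ℂ)⁻¹ • v, h1, ?_, by rw [smul_inv_smul₀ h1]⟩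
  rw [s3_nv_eq, s3_nv_smul, map_inv₀, Complex.normSq_ofReal, Real.mul_self_sqrt h0.le,
    inv_mul_cancel₀ h0.ne', Complex.ofReal_one]

theorem s3_rq_add {S : T4 N} (hS : IsOp S) (u v : CMat N) :
    rq S (u + v) = rq S u + rq S v + (cq S u v).re / 2 := by
  have h := congrArg Complex.re (cq_symm hS u v)
  simp only [rq, cq_add_left, cq_add_right, Complex.add_re, Complex.conj_re] at h ⊢
  linarith only [h]

theorem s3_rq_par {S : T4 N} (hS : IsOp S) (u v : CMat N) :
    rq S (u + v) + rq S (u - v) = 2 * rq S u + 2 * rq S v := by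
  rw [sub_eq_add_neg, s3_rq_add hS, s3_rq_add hS, cq_neg_right, ← neg_one_smul ℂ v, rq_smul_right]
  simp only [Complex.normSq_neg, map_one, Complex.neg_re, neg_smul, one_smul]
  ring

theorem s3_cq_le (hN : 5 ≤ N) {S : T4 N} (hS : IsCurv S) (h : PICw S) (v w : CMat N) :
    ‖cq S v w‖ ≤ 4 * (N ^ 3 * scal4 S) * (√(nsq v) * √(nsq w)) := by
  refine (abs_cq_le S v w).trans (mul_le_mul_of_nonneg_right ?_ (by positivity))
  have h1 := mul_le_mul_of_nonneg_left (h.ap_norm hN hS) (sq_nonneg (N : ℝ))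
  have h2 : 0 ≤ (N : ℝ) ^ 3 * scal4 S := mul_nonneg (by positivity) (h.scal_ge hN hS)
  linarith only [h1, h2]

theorem s3_rq_le (hN : 5 ≤ N) {S : T4 N} (hS : IsCurv S) (h : PICw S) (v : CMat N) :
    |rq S v| ≤ N ^ 3 * scal4 S * nsq v := by
  have h1 := (Complex.abs_re_le_norm _).trans (s3_cq_le hN hS h v v)
  rw [Real.mul_self_sqrt (nsq_nonneg v)] at h1
  rw [rq, abs_div, abs_of_pos (by norm_num : (0 : ℝ) < 4)]
  linarith only [h1]

/-- The invariant step in vector form. -/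
theorem s3_step (hW : CurvFlow n T W) (hn : 5 ≤ n) (hN : n ≤ N) {q : ℕ}
    (pat : Fin q → Fin q → Prop) (hup : ∀ i j, j < i → pat i j) (hdiag : ∀ i j, pat i j → j ≤ i)
    {P : T4 n → Prop} (h0 : AsymP T W P) (hP : ∀ R, IsCurv R → P R → PICw R) {β : ℝ}
    (hstart : ∀ R, IsCurv R → P R → ∀ z x : Fin q → Fin N → ℂ, Fr z →
      (∀ i j, pat i j → x i ⬝ᵥ z j = 0) →
        0 ≤ rq (flat N R) (∑ i, wedge (z i) (x i)) + β * scal4 R * nv fun i => x i ⬝ᵥ z i) :
    AsymP T W fun R => Pos q pat (flat N R) := by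
  refine invStep hW hn hN pat hup hdiag nv (by unfold nv; fun_prop) s3_nv_nonneg s3_nv_smul h0 hP
    (β := β) ?_
  rintro R hR h Z w h1 h2 ⟨C, rfl, h3⟩
  rw [xs_tau h1 h2, s3_sum]
  exact hstart R hR h _ _ ((fr_iff Z).1 ⟨h1, h2⟩) h3

/-- Unitary isotropic three-frames. -/
structure Fr3 (a b c : Fin N → ℂ) : Prop where
  aa : a ⬝ᵥ a = 0
  ab : a ⬝ᵥ b = 0
  ac : a ⬝ᵥ c = 0
  bb : b ⬝ᵥ b = 0
  bc : b ⬝ᵥ c = 0
  cc : c ⬝ᵥ c = 0
  saa : star a ⬝ᵥ a = 1
  sab : star a ⬝ᵥ b = 0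
  sac : star a ⬝ᵥ c = 0
  sbb : star b ⬝ᵥ b = 1
  sbc : star b ⬝ᵥ c = 0
  scc : star c ⬝ᵥ c = 1

theorem s3_star_comm {a b : Fin N → ℂ} (h : star a ⬝ᵥ b = 0) : star b ⬝ᵥ a = 0 := by
  rw [star_dotProduct, h, star_zero]

theorem Fr3.fr {a b c : Fin N → ℂ} (h : Fr3 a b c) : Fr ![a, b, c] := by
  constructor <;> intro i j <;> fin_cases i <;> fin_cases j <;>
    simp [h.aa, h.ab, h.ac, h.bb, h.bc, h.cc, h.saa, h.sab, h.sac, h.sbb, h.sbc, h.scc,
      dotProduct_comm b a, dotProduct_comm c a, dotProduct_comm c b, s3_star_comm h.sab,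
      s3_star_comm h.sac, s3_star_comm h.sbc]

theorem Fr.fr3 {z : Fin 3 → Fin N → ℂ} (h : Fr z) : Fr3 (z 0) (z 1) (z 2) :=
  ⟨h.1 _ _, h.1 _ _, h.1 _ _, h.1 _ _, h.1 _ _, h.1 _ _, h.2 0 0, h.2 0 1, h.2 0 2, h.2 1 1,
    h.2 1 2, h.2 2 2⟩

/-- A lower bound on the test set of a triangular pattern of size three. -/
def Lo3 (d₀ d₁ d₂ : Prop) (S : T4 N) (κ : ℝ) : Prop :=
  ∀ a b c x y u : Fin N → ℂ, Fr3 a b c → y ⬝ᵥ a = 0 → u ⬝ᵥ a = 0 → u ⬝ᵥ b = 0 →
    (d₀ → x ⬝ᵥ a = 0) → (d₁ → y ⬝ᵥ b = 0) → (d₂ → u ⬝ᵥ c = 0) →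
    0 ≤ rq S (wedge a x + wedge b y + wedge c u) +
      κ * (Complex.normSq (x ⬝ᵥ a) + Complex.normSq (y ⬝ᵥ b) + Complex.normSq (u ⬝ᵥ c))

theorem Pos.lo3 {pat : Fin 3 → Fin 3 → Prop} {S : T4 N} (h : Pos 3 pat S)
    (hdiag : ∀ i j, pat i j → j ≤ i) : Lo3 (pat 0 0) (pat 1 1) (pat 2 2) S 0 := by
  intro a b c x y u hF h1 h2 h3 h4 h5 h6
  have h7 := s3_pos h hF.fr (x := ![x, y, u]) fun i j hij => by
    have h8 := hdiag i j hij
    fin_cases i <;> fin_cases j
    exacts [h4 hij, absurd h8 (by decide), absurd h8 (by decide), h1, h5 hij,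
      absurd h8 (by decide), h2, h3, h6 hij]
  rw [Fin.sum_univ_three] at h7
  rw [zero_mul, add_zero]
  exact h7

theorem s3_step3 (hW : CurvFlow n T W) (hn : 5 ≤ n) (hn7 : n ≤ 7) (pat : Fin 3 → Fin 3 → Prop)
    (hup : ∀ i j, j < i → pat i j) (hdiag : ∀ i j, pat i j → j ≤ i) {P : T4 7 → Prop}
    (h0 : AsymP T W fun R => PIC2w R ∧ P (flat 7 R)) {β : ℝ}
    (hstart : ∀ (S : T4 7) (M : ℝ), IsOp S → P S → 0 ≤ M → (∀ v, rq S v ≤ M * nsq v) →
      Lo3 (pat 0 0) (pat 1 1) (pat 2 2) S (β * M)) :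
    AsymP T W fun R => Pos 3 pat (flat 7 R) := by
  refine s3_step hW hn hn7 pat hup hdiag h0 (fun R _ h => h.1.picw) (β := β * 7 ^ 3)
    fun R hR h z x hz hx => ?_
  have hS : IsCurv (flat 7 R) := isCurv_pullT hR _
  have h1 : PICw (flat 7 R) := (h.1.pullT _).picw
  have h2 : scal4 (flat 7 R) = scal4 R := scal4_pullT R (emb_mul hn7)
  have h3 := hstart (flat 7 R) (7 ^ 3 * scal4 R) hS.isOp h.2
    (mul_nonneg (by norm_num) (h.1.picw.scal_ge hn hR))
    (fun v => by
      have h4 := (le_abs_self _).trans (s3_rq_le (by norm_num) hS h1 v)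
      rwa [h2, Nat.cast_ofNat] at h4)
    (z 0) (z 1) (z 2) (x 0) (x 1) (x 2) hz.fr3 (hx _ _ (hup _ _ (by decide)))
    (hx _ _ (hup _ _ (by decide))) (hx _ _ (hup _ _ (by decide))) (hx 0 0) (hx 1 1) (hx 2 2)
  rw [Fin.sum_univ_three, nv, Fin.sum_univ_three, mul_assoc β]
  exact h3

end

end Pool.Agent.Work.MP_3a9764_gt
end
end

-- merged part: Pool.Agent.Work.MP_3a9764_gt.S3b
section
/-! The starting estimates of the invariant steps in dimension seven. -/

set_option autoImplicit false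

open Filter Set Matrix
open scoped Topology ComplexConjugate

namespace Pool.Agent.Work.MP_3a9764_gt

noncomputable section

variable {N : ℕ} {S : T4 N} {a b c : Fin N → ℂ}

theorem Lo3.imp {d₀ d₁ d₂ e₀ e₁ e₂ : Prop} {κ : ℝ} (h : Lo3 d₀ d₁ d₂ S κ) (h0 : d₀ → e₀)
    (h1 : d₁ → e₁) (h2 : d₂ → e₂) : Lo3 e₀ e₁ e₂ S κ :=
  fun a b c x y u hF k1 k2 k3 k4 k5 k6 => h a b c x y u hF k1 k2 k3 (fun d => k4 (h0 d))
    (fun d => k5 (h1 d)) fun d => k6 (h2 d)

theorem s3_perp2 (l t : ℂ) : ∃ α β : ℂ, conj α * α + conj β * β = 1 ∧ α * l + β * t = 0 := by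
  by_cases h : (![-t, l] : Fin 2 → ℂ) = 0
  · have h1 : l = 0 := congrFun h 1
    exact ⟨1, 0, by simp, by simp [h1]⟩
  · obtain ⟨r, u, -, h1, h2⟩ := s3_unit h
    have h3 : -t = r * u 0 := congrFun h2 0
    have h4 : l = r * u 1 := congrFun h2 1
    refine ⟨u 0, u 1, by simpa [dotProduct, Fin.sum_univ_two] using h1, ?_⟩
    linear_combination u 0 * h4 - u 1 * h3

theorem s3_rot (a b x y : Fin N → ℂ) {α β : ℂ} (h : conj α * α + conj β * β = 1) :
    wedge (α • a + β • b) (conj α • x + conj β • y) +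
      wedge (-conj β • a + conj α • b) (-β • x + α • y) = wedge a x + wedge b y := by
  ext i j
  simp only [wedge, vecMulVec_apply, Matrix.add_apply, Matrix.sub_apply, Pi.add_apply,
    Pi.smul_apply, smul_eq_mul]
  linear_combination (a i * x j - x i * a j + (b i * y j - y i * b j)) * h

theorem Fr3.rot01 (hF : Fr3 a b c) {α β : ℂ} (h : conj α * α + conj β * β = 1) :
    Fr3 (α • a + β • b) (-conj β • a + conj α • b) c := by
  have e1 := s3_star_comm hF.sab
  constructor <;>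
    simp only [add_dotProduct, dotProduct_add, smul_dotProduct, dotProduct_smul, star_add,
      star_smul, smul_eq_mul, hF.aa, hF.ab, hF.ac, hF.bb, hF.bc, hF.cc, hF.saa, hF.sab, hF.sac,
      hF.sbb, hF.sbc, hF.scc, e1, dotProduct_comm b a, mul_zero, add_zero, zero_add, mul_one,
      star_neg, Complex.star_def, Complex.conj_conj]
  · linear_combination h
  · ring
  · linear_combination h

theorem Fr3.rot12 (hF : Fr3 a b c) {α β : ℂ} (h : conj α * α + conj β * β = 1) :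
    Fr3 a (α • b + β • c) (-conj β • b + conj α • c) := by
  have e1 := s3_star_comm hF.sbc
  constructor <;>
    simp only [add_dotProduct, dotProduct_add, smul_dotProduct, dotProduct_smul, star_add,
      star_smul, smul_eq_mul, hF.aa, hF.ab, hF.ac, hF.bb, hF.bc, hF.cc, hF.saa, hF.sab, hF.sac,
      hF.sbb, hF.sbc, hF.scc, e1, dotProduct_comm c b, mul_zero, add_zero, zero_add, mul_one,
      star_neg, Complex.star_def, Complex.conj_conj]
  · linear_combination h
  · ring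
  · linear_combination h

theorem s3_swap12 (h : Lo3 True True False S 0) : Lo3 True False True S 0 := by
  intro a b c x y u hF h1 h2 h3 h4 _ h6
  obtain ⟨α, β, k1, k2⟩ := s3_perp2 (y ⬝ᵥ b) (y ⬝ᵥ c)
  have h7 := h a _ _ x (conj α • y + conj β • u) (-β • y + α • u) (hF.rot12 k1)
    (by simp [h1, h2]) (by simp [h1, h2])
    (by simp only [add_dotProduct, dotProduct_add, smul_dotProduct, dotProduct_smul, smul_eq_mul,
          h3, h6 trivial]
        linear_combination -β * k2) h4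
    (fun _ => by
      simp only [add_dotProduct, dotProduct_add, smul_dotProduct, dotProduct_smul, smul_eq_mul,
        h3, h6 trivial]
      linear_combination conj α * k2) False.elim
  rw [add_assoc, s3_rot b c y u k1, ← add_assoc] at h7
  simpa only [zero_mul] using h7

theorem s3_swap01 (h : Lo3 True False False S 0) : Lo3 False True False S 0 := by
  intro a b c x y u hF h1 h2 h3 _ h5 _
  obtain ⟨α, β, k1, k2⟩ := s3_perp2 (x ⬝ᵥ a) (x ⬝ᵥ b)
  have h7 := h _ _ c (conj α • x + conj β • y) (-β • x + α • y) u (hF.rot01 k1)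
    (by simp only [add_dotProduct, dotProduct_add, smul_dotProduct, dotProduct_smul, smul_eq_mul,
          h1, h5 trivial]
        linear_combination -β * k2) (by simp [h2, h3]) (by simp [h2, h3])
    (fun _ => by
      simp only [add_dotProduct, dotProduct_add, smul_dotProduct, dotProduct_smul, smul_eq_mul,
        h1, h5 trivial]
      linear_combination conj α * k2) False.elim False.elim
  rw [s3_rot a b x y k1] at h7
  simpa only [zero_mul] using h7

theorem s3_diag_le {a : Fin N → ℂ} (ha : star a ⬝ᵥ a = 1) (l : ℂ) :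
    nsq (wedge a (l • star a)) ≤ 4 * Complex.normSq l := by
  have h := s3_nsq_wedge a (l • star a)
  rwa [s3_nv_smul, s3_nv_star, s3_nv_one ha, one_mul, mul_one] at h

theorem s3_six (hS : IsOp S) {M : ℝ} (hM0 : 0 ≤ M) (hM : ∀ v, rq S v ≤ M * nsq v)
    (h : Lo3 True True False S 0) : Lo3 True False False S (8 * M) := by
  intro a b c x y u hF h1 h2 h3 h4 _ _
  have e1 := s3_star_comm hF.sab
  have e2 := s3_star_comm hF.sac
  have e3 := s3_star_comm hF.sbc
  have k1 := h a b c x (y - (y ⬝ᵥ b) • star b) (u + (u ⬝ᵥ c) • star c) hF (by simp [h1, e1])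
    (by simp [h2, e2]) (by simp [h3, e3]) h4 (fun _ => by simp [hF.sbb]) False.elim
  have k2 := s3_swap12 h a b c x (y + (y ⬝ᵥ b) • star b) (u - (u ⬝ᵥ c) • star c) hF
    (by simp [h1, e1]) (by simp [h2, e2]) (by simp [h3, e3]) h4 False.elim
    (fun _ => by simp [hF.scc])
  have k3 := s3_rq_par hS (wedge a x + wedge b y + wedge c u)
    (wedge b ((y ⬝ᵥ b) • star b) - wedge c ((u ⬝ᵥ c) • star c))
  have k4 := (hM _).trans (mul_le_mul_of_nonneg_left ((s3_nsq_sub _ _).trans (add_le_add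
    (mul_le_mul_of_nonneg_left (s3_diag_le hF.sbb (y ⬝ᵥ b)) zero_le_two)
    (mul_le_mul_of_nonneg_left (s3_diag_le hF.scc (u ⬝ᵥ c)) zero_le_two))) hM0)
  have f1 : wedge a x + wedge b (y - (y ⬝ᵥ b) • star b) + wedge c (u + (u ⬝ᵥ c) • star c) =
      wedge a x + wedge b y + wedge c u -
        (wedge b ((y ⬝ᵥ b) • star b) - wedge c ((u ⬝ᵥ c) • star c)) := by
    ext i j
    simp only [wedge, vecMulVec_apply, Matrix.add_apply, Matrix.sub_apply, Pi.add_apply,
      Pi.sub_apply]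
    ring
  have f2 : wedge a x + wedge b (y + (y ⬝ᵥ b) • star b) + wedge c (u - (u ⬝ᵥ c) • star c) =
      wedge a x + wedge b y + wedge c u +
        (wedge b ((y ⬝ᵥ b) • star b) - wedge c ((u ⬝ᵥ c) • star c)) := by
    ext i j
    simp only [wedge, vecMulVec_apply, Matrix.add_apply, Matrix.sub_apply, Pi.add_apply,
      Pi.sub_apply]
    ring
  rw [f1] at k1
  rw [f2] at k2
  linarith only [k1, k2, k3, k4, hM0, mul_nonneg hM0 (Complex.normSq_nonneg (x ⬝ᵥ a))]

theorem s3_seven (hS : IsOp S) {M : ℝ} (hM0 : 0 ≤ M) (hM : ∀ v, rq S v ≤ M * nsq v)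
    (h : Lo3 True False False S 0) : Lo3 False False False S (8 * M) := by
  intro a b c x y u hF h1 h2 h3 _ _ _
  have e1 := s3_star_comm hF.sab
  have k1 := h a b c (x - (x ⬝ᵥ a) • star a) (y + (y ⬝ᵥ b) • star b) u hF (by simp [h1, e1])
    h2 h3 (fun _ => by simp [hF.saa]) False.elim False.elim
  have k2 := s3_swap01 h a b c (x + (x ⬝ᵥ a) • star a) (y - (y ⬝ᵥ b) • star b) u hF
    (by simp [h1, e1]) h2 h3 False.elim (fun _ => by simp [hF.sbb]) False.elim
  have k3 := s3_rq_par hS (wedge a x + wedge b y + wedge c u)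
    (wedge a ((x ⬝ᵥ a) • star a) - wedge b ((y ⬝ᵥ b) • star b))
  have k4 := (hM _).trans (mul_le_mul_of_nonneg_left ((s3_nsq_sub _ _).trans (add_le_add
    (mul_le_mul_of_nonneg_left (s3_diag_le hF.saa (x ⬝ᵥ a)) zero_le_two)
    (mul_le_mul_of_nonneg_left (s3_diag_le hF.sbb (y ⬝ᵥ b)) zero_le_two))) hM0)
  have f1 : wedge a (x - (x ⬝ᵥ a) • star a) + wedge b (y + (y ⬝ᵥ b) • star b) + wedge c u =
      wedge a x + wedge b y + wedge c u -
        (wedge a ((x ⬝ᵥ a) • star a) - wedge b ((y ⬝ᵥ b) • star b)) := by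
    ext i j
    simp only [wedge, vecMulVec_apply, Matrix.add_apply, Matrix.sub_apply, Pi.add_apply,
      Pi.sub_apply]
    ring
  have f2 : wedge a (x + (x ⬝ᵥ a) • star a) + wedge b (y - (y ⬝ᵥ b) • star b) + wedge c u =
      wedge a x + wedge b y + wedge c u +
        (wedge a ((x ⬝ᵥ a) • star a) - wedge b ((y ⬝ᵥ b) • star b)) := by
    ext i j
    simp only [wedge, vecMulVec_apply, Matrix.add_apply, Matrix.sub_apply, Pi.add_apply,
      Pi.sub_apply]
    ring
  rw [f1] at k1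
  rw [f2] at k2
  linarith only [k1, k2, k3, k4, hM0, mul_nonneg hM0 (Complex.normSq_nonneg (u ⬝ᵥ c))]

theorem s3_last (h : Lo3 True True True S 0) (hF : Fr3 a b c) {v x y u : Fin N → ℂ}
    (h0 : v ⬝ᵥ v = 0) (h1 : a ⬝ᵥ v = 0) (h2 : b ⬝ᵥ v = 0) (h3 : star a ⬝ᵥ v = 0)
    (h4 : star b ⬝ᵥ v = 0) (h5 : x ⬝ᵥ a = 0) (h6 : y ⬝ᵥ a = 0) (h7 : y ⬝ᵥ b = 0)
    (h8 : u ⬝ᵥ a = 0) (h9 : u ⬝ᵥ b = 0) (h10 : u ⬝ᵥ v = 0) :
    0 ≤ rq S (wedge a x + wedge b y + wedge v u) := by
  by_cases hv : v = 0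
  · have k := h a b c x y 0 hF h6 (by simp) (by simp) (fun _ => h5) (fun _ => h7)
      fun _ => by simp
    simpa [hv, wedge] using k
  · obtain ⟨r, t, hr, k1, rfl⟩ := s3_unit hv
    simp only [smul_dotProduct, dotProduct_smul, smul_eq_mul, mul_eq_zero, hr, false_or]
      at h0 h1 h2 h3 h4 h10
    have k := h a b t x y (r • u) ⟨hF.aa, hF.ab, h1, hF.bb, h2, h0, hF.saa, hF.sab, h3, hF.sbb,
      h4, k1⟩ h6 (by simp [h8]) (by simp [h9]) (fun _ => h5) (fun _ => h7) fun _ => by simp [h10]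
    have e : wedge t (r • u) = wedge (r • t) u := by
      ext i j
      simp only [wedge, vecMulVec_apply, Matrix.sub_apply, Pi.smul_apply, smul_eq_mul]
      ring
    rwa [zero_mul, add_zero, e] at k

theorem s3_coef {A L B : ℂ} (h : L ^ 2 + 2 * A * B = 0) : ∃ p q r : ℂ,
    A * q + L * p = A ∧ A * r - B * p = L ∧ -L * r - B * q = B ∧ A * r - L * q + B * p = 0 := by
  by_cases hA : A = 0
  · have hL : L = 0 := by simpa [hA] using h
    exact ⟨0, -1, 0, by simp [hA], by simp [hL], by simp, by simp [hL]⟩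
  · refine ⟨0, 1, L / A, by simp, by field_simp; ring, ?_, by field_simp; ring⟩
    field_simp
    linear_combination -h

theorem s3_nil (h : Lo3 True True True S 0) (hF : Fr3 a b c) {e x y : Fin N → ℂ}
    (e0 : e ⬝ᵥ e = 1) (e1 : star e = e) (ea : a ⬝ᵥ e = 0) (eb : b ⬝ᵥ e = 0) (ec : c ⬝ᵥ e = 0)
    (h5 : x ⬝ᵥ a = 0) (h6 : y ⬝ᵥ a = 0) (h7 : y ⬝ᵥ b = 0) {A L B : ℂ}
    (hq : L ^ 2 + 2 * A * B = 0) :
    0 ≤ rq S (wedge a x + wedge b y + (wedge c (A • e + L • star c) + wedge e (B • star c))) := by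
  obtain ⟨p, q, r, k1, k2, k3, k4⟩ := s3_coef hq
  have st : ∀ s t : Fin N → ℂ, s ⬝ᵥ t = 0 → star s ⬝ᵥ star t = 0 := fun s t hst => by
    rw [star_dotProduct_star, dotProduct_comm, hst, star_zero]
  have se : ∀ s : Fin N → ℂ, s ⬝ᵥ e = 0 → star s ⬝ᵥ e = 0 := fun s hs => by
    rw [← e1]; exact st s e hs
  have f1 := s3_star_comm hF.sac
  have f2 := s3_star_comm hF.sbc
  have k := s3_last h hF (v := A • c - L • e + B • star c) (u := p • c + q • e + r • star c)
    (by simp only [add_dotProduct, dotProduct_add, sub_dotProduct, dotProduct_sub,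
          smul_dotProduct, dotProduct_smul, smul_eq_mul, hF.cc, hF.scc, ec, e0, se c ec,
          st c c hF.cc, dotProduct_comm e c, dotProduct_comm c (star c),
          dotProduct_comm e (star c)]
        linear_combination hq)
    (by simp [hF.ac, ea, dotProduct_comm a (star c), f1])
    (by simp [hF.bc, eb, dotProduct_comm b (star c), f2])
    (by simp [hF.sac, se a ea, st a c hF.ac]) (by simp [hF.sbc, se b eb, st b c hF.bc]) h5 h6 h7
    (by simp [dotProduct_comm c a, dotProduct_comm e a, hF.ac, ea, f1])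
    (by simp [dotProduct_comm c b, dotProduct_comm e b, hF.bc, eb, f2])
    (by simp only [add_dotProduct, dotProduct_add, dotProduct_sub,
          smul_dotProduct, dotProduct_smul, smul_eq_mul, hF.cc, hF.scc, ec, e0, se c ec,
          st c c hF.cc, dotProduct_comm e c, dotProduct_comm c (star c),
          dotProduct_comm e (star c)]
        linear_combination k4)
  have f : wedge (A • c - L • e + B • star c) (p • c + q • e + r • star c) =
      wedge c (A • e + L • star c) + wedge e (B • star c) := by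
    ext i j
    simp only [wedge, vecMulVec_apply, Matrix.add_apply, Matrix.sub_apply, Pi.add_apply,
      Pi.sub_apply, Pi.smul_apply, smul_eq_mul]
    linear_combination (c i * e j - e i * c j) * k1 + (c i * star c j - star c i * c j) * k2 +
      (e i * star c j - star c i * e j) * k3
  rwa [f] at k

theorem s3_pair (l b : ℂ) : ∃ A L B : ℂ, l * L + b * B = 0 ∧ L ^ 2 + 2 * A * B = -l ^ 2 ∧
    ‖A‖ ≤ ‖l‖ ∧ ‖L‖ ≤ ‖l‖ ∧ ‖B‖ ≤ ‖l‖ := by
  by_cases hl : l = 0
  · exact ⟨0, 0, 0, by simp, by simp [hl], by simp, by simp, by simp⟩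
  have hl' : 0 < ‖l‖ := norm_pos_iff.2 hl
  rcases le_or_gt ‖b‖ ‖l‖ with h | h
  · refine ⟨-(l ^ 2 + b ^ 2) / (2 * l), -b, l, by ring, by field_simp; ring, ?_, by simpa using h,
      le_rfl⟩
    rw [norm_div, norm_neg, norm_mul, Complex.norm_ofNat, div_le_iff₀ (by positivity)]
    have h1 := norm_add_le (l ^ 2) (b ^ 2)
    rw [norm_pow, norm_pow] at h1
    linarith only [h1, hl', h, norm_nonneg b, mul_nonneg_of_nonpos_of_nonpos (le_of_lt (Mathlib.Tactic.Linarith.sub_neg_of_lt hl')) (Mathlib.Tactic.Linarith.sub_nonpos_of_le h), mul_nonneg_of_nonpos_of_nonpos (Mathlib.Tactic.Linarith.sub_nonpos_of_le h) (Mathlib.Tactic.Linarith.sub_nonpos_of_le (norm_nonneg b))]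
  · have hb : 0 < ‖b‖ := hl'.trans h
    have hb' : b ≠ 0 := norm_pos_iff.1 hb
    refine ⟨0, Complex.I * l, -(Complex.I * l ^ 2) / b, by field_simp; ring, ?_, by simp, by simp,
      ?_⟩
    · rw [mul_pow, Complex.I_sq]; ring
    · rw [norm_div, norm_neg, norm_mul, Complex.norm_I, norm_pow, div_le_iff₀ hb]
      linarith only [hl', h, mul_pos_of_neg_of_neg (Mathlib.Tactic.Linarith.sub_neg_of_lt hl') (Mathlib.Tactic.Linarith.sub_neg_of_lt h)]

theorem s3_dec {a b c : Fin 7 → ℂ} (hF : Fr3 a b c) : ∃ e : Fin 7 → ℂ, e ⬝ᵥ e = 1 ∧ star e = e ∧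
    a ⬝ᵥ e = 0 ∧ b ⬝ᵥ e = 0 ∧ c ⬝ᵥ e = 0 ∧ ∀ u : Fin 7 → ℂ,
      u = (star a ⬝ᵥ u) • a + (star b ⬝ᵥ u) • b + (star c ⬝ᵥ u) • c + (u ⬝ᵥ a) • star a +
        (u ⬝ᵥ b) • star b + (u ⬝ᵥ c) • star c + (e ⬝ᵥ u) • e := by
  obtain ⟨h0, h1⟩ := (fr_iff (of ![a, b, c])ᵀ).2 hF.fr
  obtain ⟨e, k1, k2, k3⟩ := complete_odd (r := 3) h0 h1
  refine ⟨fun i => e i, ?_, by ext i; simp, congrFun k2 0, congrFun k2 1, congrFun k2 2,
    fun u => ?_⟩
  · have := congrArg (fun t : ℝ => (t : ℂ)) k1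
    simpa [dotProduct] using this
  · funext i
    have k4 := congrFun (congrArg (· *ᵥ u) k3) i
    simp only [one_mulVec] at k4
    rw [← k4]
    simp only [mulVec, dotProduct, Matrix.add_apply, map_apply, mul_apply, Fin.sum_univ_three,
      conjTranspose_apply, transpose_apply, of_apply, vecMulVec_apply, Pi.add_apply,
      Pi.smul_apply, smul_eq_mul, Pi.star_apply, Finset.sum_mul, ← Finset.sum_add_distrib,
      cons_val_zero, cons_val_one, cons_val_two, head_cons, tail_cons, map_add, map_mul,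
      Complex.star_def, Complex.conj_conj]
    exact Finset.sum_congr rfl fun j _ => by ring

theorem s3_five {S : T4 7} (hS : IsOp S) {M : ℝ} (hM0 : 0 ≤ M) (hM : ∀ v, rq S v ≤ M * nsq v)
    (h : Lo3 True True True S 0) : Lo3 True True False S (40 * M) := by
  intro a b c x y u hF h1 h2 h3 h4 h5 _
  obtain ⟨e, e0, e1, ea, eb, ec, hu⟩ := s3_dec hF
  obtain ⟨A, L, B, k1, k2, k3, k4, k5⟩ := s3_pair (u ⬝ᵥ c) (e ⬝ᵥ u)
  have g1 : (x - (star a ⬝ᵥ u) • c) ⬝ᵥ a = 0 := by simp [h4 trivial, dotProduct_comm c a, hF.ac]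
  have g2 : (y - (star b ⬝ᵥ u) • c) ⬝ᵥ a = 0 := by simp [h1, dotProduct_comm c a, hF.ac]
  have g3 : (y - (star b ⬝ᵥ u) • c) ⬝ᵥ b = 0 := by simp [h5 trivial, dotProduct_comm c b, hF.bc]
  have p1 := s3_nil h hF e0 e1 ea eb ec g1 g2 g3 (A := e ⬝ᵥ u + A) (L := u ⬝ᵥ c + L) (B := B)
    (by linear_combination 2 * k1 + k2)
  have p2 := s3_nil h hF e0 e1 ea eb ec g1 g2 g3 (A := e ⬝ᵥ u - A) (L := u ⬝ᵥ c - L) (B := -B)
    (by linear_combination -2 * k1 + k2)
  have p3 := s3_rq_par hS (wedge a x + wedge b y + wedge c u)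
    (wedge c (A • e + L • star c) + wedge e (B • star c))
  have hu' := fun i => congrFun (hu u) i
  simp only [h2, h3, zero_smul, add_zero, Pi.add_apply, Pi.smul_apply, smul_eq_mul] at hu'
  have f1 : wedge a (x - (star a ⬝ᵥ u) • c) + wedge b (y - (star b ⬝ᵥ u) • c) +
      (wedge c ((e ⬝ᵥ u + A) • e + (u ⬝ᵥ c + L) • star c) + wedge e (B • star c)) =
      wedge a x + wedge b y + wedge c u +
        (wedge c (A • e + L • star c) + wedge e (B • star c)) := by
    ext i j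
    simp only [wedge, vecMulVec_apply, Matrix.add_apply, Matrix.sub_apply, Pi.add_apply,
      Pi.sub_apply, Pi.smul_apply, smul_eq_mul]
    linear_combination c j * hu' i - c i * hu' j
  have f2 : wedge a (x - (star a ⬝ᵥ u) • c) + wedge b (y - (star b ⬝ᵥ u) • c) +
      (wedge c ((e ⬝ᵥ u - A) • e + (u ⬝ᵥ c - L) • star c) + wedge e (-B • star c)) =
      wedge a x + wedge b y + wedge c u -
        (wedge c (A • e + L • star c) + wedge e (B • star c)) := by
    ext i j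
    simp only [wedge, vecMulVec_apply, Matrix.add_apply, Matrix.sub_apply, Pi.add_apply,
      Pi.sub_apply, Pi.smul_apply, smul_eq_mul]
    linear_combination c j * hu' i - c i * hu' j
  rw [f1] at p1
  rw [f2] at p2
  have ne : nv e = 1 := s3_nv_one (by rw [e1, e0])
  have nc : nv c = 1 := s3_nv_one hF.scc
  have q1 := s3_nsq_add (wedge c (A • e + L • star c)) (wedge e (B • star c))
  have q2 := s3_nsq_wedge c (A • e + L • star c)
  have q3 := s3_nsq_wedge e (B • star c)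
  have q4 := s3_nv_add (A • e) (L • star c)
  simp only [s3_nv_smul, s3_nv_star, ne, nc, mul_one, one_mul] at q2 q3 q4
  have sq : ∀ t : ℂ, ‖t‖ ≤ ‖u ⬝ᵥ c‖ → Complex.normSq t ≤ Complex.normSq (u ⬝ᵥ c) := fun t ht => by
    rw [Complex.normSq_eq_norm_sq, Complex.normSq_eq_norm_sq]
    exact pow_le_pow_left₀ (norm_nonneg _) ht 2
  have q5 : nsq (wedge c (A • e + L • star c) + wedge e (B • star c)) ≤
      40 * Complex.normSq (u ⬝ᵥ c) := by linarith only [q1, q2, q3, q4, sq, k3, k4, k5, sq A k3, sq L k4, sq B k5]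
  have q6 := (hM _).trans (mul_le_mul_of_nonneg_left q5 hM0)
  linarith only [p1, p2, p3, q6, hM0, mul_nonneg hM0 (Complex.normSq_nonneg (x ⬝ᵥ a)),
    mul_nonneg hM0 (Complex.normSq_nonneg (y ⬝ᵥ b))]

end

end Pool.Agent.Work.MP_3a9764_gt
end
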