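import Pool.Agent.Work.MP_3a9764_gt.N8F
import Pool.Agent.Work.MP_3a9764_gt.St2e
import Pool.Agent.Work.MP_3a9764_gt.S3b
import Mathlib

-- merged part: Pool.Agent.Work.MP_3a9764_gt.S4b
section
/-! The second non-invariant step of stage 4. -/

set_option autoImplicit false

open Filter Set Matrix
open scoped Topology ComplexConjugate

namespace Pool.Agent.Work.MP_3a9764_gt

noncomputable section

variable {n N : ℕ} {T : ℝ} {W : ℝ → Set (T4 n)}

theorem s4_th_id {S : T4 N} (hS : IsOp S) (u p q : CMat N) (α β : ℝ) :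
    α * β * (α + β) * rq S (u + p + q) = β * rq S ((α : ℂ) • u + ((α + β : ℝ) : ℂ) • p) +
      α * rq S ((β : ℂ) • u + ((α + β : ℝ) : ℂ) • q) -
      (α + β) * rq S ((β : ℂ) • p + ((-α : ℝ) : ℂ) • q) := by
  simp only [s3_rq_add hS, rq_smul_right, cq_add_left, cq_smul_left, cq_smul_right,
    Complex.conj_ofReal, Complex.re_ofReal_mul, Complex.add_re, Complex.normSq_ofReal]
  ring

/-- A form which is non-negative on two hyperplanes. -/
theorem s4_th {S : T4 N} (hS : IsOp S) {M : ℝ} (hM0 : 0 ≤ M) (hM : ∀ v, |rq S v| ≤ M * nsq v)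
    {u p q : CMat N} (hp : ∀ a b : ℂ, 0 ≤ rq S (a • u + b • p))
    (hq : ∀ a b : ℂ, 0 ≤ rq S (a • u + b • q)) {α β : ℝ} (hα : 0 ≤ α) (hβ : 0 ≤ β)
    (h1 : nsq p ≤ α ^ 2) (h2 : nsq q ≤ β ^ 2) : 0 ≤ rq S (u + p + q) + 4 * M * (α * β) := by
  rcases hα.eq_or_lt with rfl | hα
  · have := hq 1 1
    rw [nsq_eq_zero (le_antisymm (by simpa using h1) (nsq_nonneg p))]
    simpa using this
  rcases hβ.eq_or_lt with rfl | hβ
  · have := hp 1 1
    rw [nsq_eq_zero (le_antisymm (by simpa using h2) (nsq_nonneg q))]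
    simpa using this
  have e := s4_th_id hS u p q α β
  have k1 := mul_nonneg hβ.le (hp α ((α + β : ℝ) : ℂ))
  have k2 := mul_nonneg hα.le (hq β ((α + β : ℝ) : ℂ))
  have k3 := (le_abs_self _).trans (hM ((β : ℂ) • p + ((-α : ℝ) : ℂ) • q))
  have k4 := s3_nsq_add ((β : ℂ) • p) (((-α : ℝ) : ℂ) • q)
  rw [nsq_smul, nsq_smul, Complex.normSq_ofReal, Complex.normSq_ofReal] at k4
  have k5 := mul_le_mul_of_nonneg_left h1 (mul_self_nonneg β)
  have k6 := mul_le_mul_of_nonneg_left h2 (mul_self_nonneg α)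
  have k7 := mul_le_mul_of_nonneg_left
    (show nsq ((β : ℂ) • p + ((-α : ℝ) : ℂ) • q) ≤ 4 * (α * β) ^ 2 by linarith only [k4, k5, k6]) hM0
  have k8 := mul_le_mul_of_nonneg_left (k3.trans k7) (add_pos hα hβ).le
  refine nonneg_of_mul_nonneg_right ?_ (show 0 < α * β * (α + β) by positivity)
  linarith only [e, k1, k2, k8]

theorem s4_mul_wedge (g : Matrix (Fin n) (Fin N) ℂ) (x y : Fin N → ℂ) :
    g * wedge x y * gᵀ = wedge (g *ᵥ x) (g *ᵥ y) := by
  simp only [wedge, Matrix.mul_sub, Matrix.sub_mul, mul_vecMulVec, vecMulVec_mul, vecMul_transpose]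

theorem s4_xs_skew {q : ℕ} {pat : Fin q → Fin q → Prop} {Z : Matrix (Fin N) (Fin q) ℂ}
    (h0 : Zᵀ * Z = 0) {B : CMat q} (hB : Bᵀ = -B) : XS pat Z (Z * B * Zᵀ) := by
  refine ⟨Z * ((-1 / 2 : ℂ) • B), ?_, fun i j _ => ?_⟩
  · simp only [transpose_mul, transpose_smul, hB, Matrix.mul_smul, Matrix.smul_mul,
      Matrix.neg_mul, Matrix.mul_neg, Matrix.mul_assoc]
    module
  · rw [transpose_mul, Matrix.mul_assoc, h0, Matrix.mul_zero, Matrix.zero_apply]

theorem s4_snoc_dot (a b : Fin N → ℂ) (s t : ℂ) :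
    (Fin.snoc a s : Fin (N + 1) → ℂ) ⬝ᵥ Fin.snoc b t = a ⬝ᵥ b + s * t := by
  simp [dotProduct, Fin.sum_univ_castSucc]

theorem s4_emb_snoc (h : n ≤ N) (a : Fin N → ℂ) (s : ℂ) :
    (emb n (N + 1)).map (fun x => (x : ℂ)) *ᵥ Fin.snoc a s = (emb n N).map (fun x => (x : ℂ)) *ᵥ a := by
  ext i
  have : (i : ℕ) ≠ N := by have := i.2; omega
  simp [mulVec, dotProduct, Fin.sum_univ_castSucc, emb, this]

/-- The consequence of the first step in dimension seven. -/
def L4 (S : T4 N) : Prop := ∀ a b c x : Fin N → ℂ, a ⬝ᵥ a = 0 → a ⬝ᵥ b = 0 → a ⬝ᵥ c = 0 →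
  b ⬝ᵥ b = 0 → b ⬝ᵥ c = 0 → c ⬝ᵥ c = 0 → x ⬝ᵥ a = 0 → x ⬝ᵥ b = 0 → x ⬝ᵥ c = 0 →
  0 ≤ rq S (wedge a x + wedge b c)

theorem s4_lift (hn7 : n ≤ 7) {R : T4 n} (h : Pos 4 (fun _ _ => True) (flat 8 R)) :
    L4 (flat 7 R) := by
  intro a b c x aa ab ac bb bc cc xa xb xc
  obtain ⟨t, ht⟩ : ∃ t : ℂ, t ^ 2 = -(x ⬝ᵥ x) := IsAlgClosed.exists_pow_nat_eq _ two_pos
  let y : Fin 4 → Fin 8 → ℂ := ![Fin.snoc a 0, Fin.snoc x t, Fin.snoc b 0, Fin.snoc c 0]
  obtain ⟨Z, U, z0, z1, e⟩ := exists_iso_frame (N := 8) (r := 4) le_rfl le_rfl (of y)ᵀ (by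
    ext i j
    change y i ⬝ᵥ y j = 0
    fin_cases i <;> fin_cases j <;>
      simp [y, s4_snoc_dot, dotProduct_comm a x, dotProduct_comm b x, dotProduct_comm c x,
        dotProduct_comm b a, dotProduct_comm c a, dotProduct_comm c b, *]
    linear_combination ht)
  have e1 : ∀ i, y i = Z *ᵥ Uᵀ i := fun i => funext fun j => congrFun (congrFun e j) i
  have k := h Z _ z0 z1 (s4_xs_skew z0 (B := wedge (Uᵀ 0) (Uᵀ 1) + wedge (Uᵀ 2) (Uᵀ 3))
    (by rw [transpose_add, wedge_skew, wedge_skew, neg_add]))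
  rw [Matrix.mul_add, Matrix.add_mul, s4_mul_wedge, s4_mul_wedge, ← e1, ← e1, ← e1, ← e1] at k
  simp only [rq, flat, cq_pullT, Matrix.mul_add, Matrix.add_mul, s4_mul_wedge] at k ⊢
  simpa only [y, cons_val, s4_emb_snoc hn7] using k

theorem s3_diag_le' {a c : Fin N → ℂ} (ha : star a ⬝ᵥ a = 1) (hc : nv c = 1) (l : ℂ) :
    nsq (wedge a (l • c)) ≤ (2 * ‖l‖) ^ 2 := by
  have := s3_nsq_wedge a (l • c)
  rw [s3_nv_smul, s3_nv_one ha, hc, Complex.normSq_eq_norm_sq] at this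
  linarith

theorem s4_two {S : T4 N} (hS : IsOp S) (h2 : PIC2w S) (h4 : L4 S) {M : ℝ} (hM0 : 0 ≤ M)
    (hM : ∀ v, |rq S v| ≤ M * nsq v) {a b x y : Fin N → ℂ} (aa : a ⬝ᵥ a = 0) (ab : a ⬝ᵥ b = 0)
    (bb : b ⬝ᵥ b = 0) (saa : star a ⬝ᵥ a = 1) (sab : star a ⬝ᵥ b = 0) (sbb : star b ⬝ᵥ b = 1)
    (xa : x ⬝ᵥ a = 0) (xb : x ⬝ᵥ b = 0) (ya : y ⬝ᵥ a = 0) (yb : y ⬝ᵥ b = 0) (yy : y ⬝ᵥ y = 0) :
    0 ≤ rq S (wedge a x + wedge b y) + 16 * M * ‖x ⬝ᵥ y‖ := by
  have sba := s3_star_comm sab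
  have ba : b ⬝ᵥ a = 0 := by rwa [dotProduct_comm]
  obtain ⟨v, hv⟩ : ∃ v, v = y - (star a ⬝ᵥ y) • a - (star b ⬝ᵥ y) • b := ⟨_, rfl⟩
  have va : v ⬝ᵥ a = 0 := by simp [*]
  have vb : v ⬝ᵥ b = 0 := by simp [*]
  have sav : star a ⬝ᵥ v = 0 := by simp [*]
  have sbv : star b ⬝ᵥ v = 0 := by simp [*]
  have vv : v ⬝ᵥ v = 0 := by
    conv_lhs => enter [2]; rw [hv]
    simp only [dotProduct_sub, dotProduct_smul, va, vb]
    simp [dotProduct_comm a y, dotProduct_comm b y, *]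
  have xy : x ⬝ᵥ y = x ⬝ᵥ v := by simp [*]
  have e : wedge b y = wedge b v + wedge a (-(star a ⬝ᵥ y) • b) := by
    ext i j
    simp [hv, wedge, vecMulVec_apply]
    ring
  generalize star a ⬝ᵥ y = γ at e
  rw [e, xy]
  by_cases h0 : v = 0
  · have := h2 a (x + -γ • b)
    rw [h0, dotProduct_zero, norm_zero, mul_zero, add_zero]
    convert this using 2
    ext i j
    simp [wedge, vecMulVec_apply]
    ring
  obtain ⟨ρ, c, hρ, scc, rfl⟩ := s3_unit h0
  simp only [smul_dotProduct, dotProduct_smul, smul_eq_mul, mul_eq_zero, hρ, false_or] at va vb sav sbv vv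
  have ac : a ⬝ᵥ c = 0 := by rwa [dotProduct_comm]
  have bc : b ⬝ᵥ c = 0 := by rwa [dotProduct_comm]
  have sca := s3_star_comm sav
  have scb := s3_star_comm sbv
  have k := s4_th hS hM0 hM (u := wedge a (x - (x ⬝ᵥ c) • star c - γ • b))
    (p := wedge a ((x ⬝ᵥ c) • star c)) (q := wedge b (ρ • c)) (fun s t => by
      convert h2 a (s • (x - (x ⬝ᵥ c) • star c - γ • b) + t • (x ⬝ᵥ c) • star c) using 2
      ext i j
      simp [wedge, vecMulVec_apply]
      ring) (fun s t => by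
      convert h4 a b ((t * ρ) • c) (s • (x - (x ⬝ᵥ c) • star c - γ • b)) aa ab (by simp [*]) bb
        (by simp [*]) (by simp [*]) (by simp [*]) (by simp [*]) (by simp [*]) using 2
      ext i j
      simp [wedge, vecMulVec_apply]
      ring) (α := 2 * ‖x ⬝ᵥ c‖) (β := 2 * ‖ρ‖) (by positivity) (by positivity)
    ((s3_diag_le' saa (s3_nv_star c ▸ s3_nv_one scc) _)) ((s3_diag_le' sbb (s3_nv_one scc) _))
  rw [dotProduct_smul, smul_eq_mul, norm_mul]
  convert k using 2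
  · congr 1
    ext i j
    simp [wedge, vecMulVec_apply]
    ring
  · ring

theorem s4_root (p q r : ℂ) : ∃ α β : ℂ, conj α * α + conj β * β = 1 ∧
    β ^ 2 * p - 2 * α * β * q + α ^ 2 * r = 0 := by
  by_cases h : r = 0
  · exact ⟨1, 0, by simp, by simp [h]⟩
  obtain ⟨s, hs⟩ : ∃ s : ℂ, s ^ 2 = q ^ 2 - p * r := IsAlgClosed.exists_pow_nat_eq _ two_pos
  obtain ⟨α, β, h1, h2⟩ := s3_perp2 r (-(q + s))
  refine ⟨α, β, h1, mul_left_cancel₀ h ?_⟩
  linear_combination (α * r + β * (s - q)) * h2 + β ^ 2 * hs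

theorem s4_two' {S : T4 N} (hS : IsOp S) (h2 : PIC2w S) (h4 : L4 S) {M : ℝ} (hM0 : 0 ≤ M)
    (hM : ∀ v, |rq S v| ≤ M * nsq v) {a b x y : Fin N → ℂ} (aa : a ⬝ᵥ a = 0) (ab : a ⬝ᵥ b = 0)
    (bb : b ⬝ᵥ b = 0) (saa : star a ⬝ᵥ a = 1) (sab : star a ⬝ᵥ b = 0) (sbb : star b ⬝ᵥ b = 1)
    (xa : x ⬝ᵥ a = 0) (xb : x ⬝ᵥ b = 0) (ya : y ⬝ᵥ a = 0) (yb : y ⬝ᵥ b = 0) :
    0 ≤ rq S (wedge a x + wedge b y) +
      16 * M * ‖x ⬝ᵥ x * y ⬝ᵥ y - x ⬝ᵥ y * x ⬝ᵥ y‖ ^ ((1 : ℝ) / 2) := by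
  have sba := s3_star_comm sab
  have ba : b ⬝ᵥ a = 0 := by rwa [dotProduct_comm]
  obtain ⟨α, β, h, hr⟩ := s4_root (x ⬝ᵥ x) (x ⬝ᵥ y) (y ⬝ᵥ y)
  have k := s4_two hS h2 h4 hM0 hM (a := α • a + β • b) (b := -conj β • a + conj α • b)
    (x := conj α • x + conj β • y) (y := -β • x + α • y) (by simp [*]) (by simp [*]) (by simp [*])
    (by simp [*]; linear_combination h) (by simp [*]; ring) (by simp [*]; linear_combination h)
    (by simp [*]) (by simp [*]) (by simp [*]) (by simp [*])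
    (by simp [dotProduct_comm y x]; linear_combination hr)
  have e : x ⬝ᵥ x * y ⬝ᵥ y - x ⬝ᵥ y * x ⬝ᵥ y =
      -((conj α • x + conj β • y) ⬝ᵥ (-β • x + α • y)) ^ 2 := by
    simp only [add_dotProduct, dotProduct_add, smul_dotProduct, dotProduct_smul, smul_eq_mul,
      dotProduct_comm y x]
    linear_combination (conj α ^ 2 * x ⬝ᵥ x + 2 * conj α * conj β * x ⬝ᵥ y + conj β ^ 2 * y ⬝ᵥ y) * hr -
      (x ⬝ᵥ x * y ⬝ᵥ y - x ⬝ᵥ y * x ⬝ᵥ y) * (conj α * α + conj β * β + 1) * h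
  rw [s3_rot a b x y h] at k
  rw [e, norm_neg, norm_pow, ← Real.rpow_natCast, ← Real.rpow_mul (norm_nonneg _)]
  simpa using k

theorem s4_sq {q : ℕ} {Z C : Matrix (Fin N) (Fin q) ℂ} (h0 : Zᵀ * Z = 0) (hC : Cᵀ * Z = 0) :
    (Z * Cᵀ - C * Zᵀ) ^ 2 = Z * -(Cᵀ * C) * Zᵀ := by
  have e0 : Zᵀ * C = 0 := by rw [← transpose_transpose C, ← transpose_mul, hC, transpose_zero]
  have e1 : ∀ X : Matrix (Fin q) (Fin N) ℂ, Zᵀ * (C * X) = 0 ∧ Zᵀ * (Z * X) = 0 ∧ Cᵀ * (Z * X) = 0 :=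
    fun X => by simp only [← Matrix.mul_assoc, e0, h0, hC, Matrix.zero_mul, and_self]
  simp only [sq, Matrix.mul_sub, Matrix.sub_mul, Matrix.mul_assoc, e1, Matrix.mul_zero,
    Matrix.mul_neg, Matrix.neg_mul, sub_zero, zero_sub, sub_self]

theorem stage_S2 (hW : CurvFlow n T W) (hn : 5 ≤ n) (hn7 : n ≤ 7)
    (h : AsymP T W fun R => PIC2w R ∧ Pos 4 (fun _ _ => True) (flat 8 R)) :
    AsymP T W fun R => Pos 2 (fun _ _ => True) (flat 7 R) := by
  refine s4_step hW hn hn7 hn7 (r := 2) (k := 2) le_rfl le_rfl _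
    (fun Z U w _ => s4_hU_true Z U w) (fun _ j _ _ => j.2) (fun _ _ _ _ => trivial)
    (fun Z w h0 h1 hw => ?_) h (β := 16) fun R M hS h2 h4 hM0 hM _ Z w h0 h1 hw => ?_
  · obtain ⟨C, rfl, hC⟩ := hw
    exact ⟨_, s4_sq h0 (Matrix.ext fun i j => hC i j trivial)⟩
  obtain ⟨C, rfl, hC⟩ := hw
  obtain ⟨f0, f1⟩ := (fr_iff Z).1 ⟨h0, h1⟩
  have k := s4_two' hS.isOp h2 (s4_lift hn7 h4) hM0 hM (x := Cᵀ 0) (y := Cᵀ 1) (f0 0 0) (f0 0 1)
    (f0 1 1) (f1 0 0) (f1 0 1) (f1 1 1) (hC 0 0 trivial) (hC 0 1 trivial) (hC 1 0 trivial)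
    (hC 1 1 trivial)
  rw [penK, s4_cols, s4_sq h0 (Matrix.ext fun i j => hC i j trivial), Matrix.mul_assoc,
    Matrix.mul_assoc, unit_conj h1, Matrix.mul_one, ← Matrix.mul_assoc, h1, Matrix.one_mul,
    det_fin_two, s3_sum, Fin.sum_univ_two]
  simp only [Matrix.neg_apply, neg_mul_neg]
  rw [show (Cᵀ * C) 1 0 = Cᵀ 0 ⬝ᵥ Cᵀ 1 from dotProduct_comm _ _,
    show (2 : ℝ) / ((2 : ℕ) * (2 : ℕ)) = 1 / 2 by norm_num]
  exact k

end

end Pool.Agent.Work.MP_3a9764_gt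
end

-- merged part: Pool.Agent.Work.MP_3a9764_gt.St2b
section
-- merged part: Pool.Agent.Work.MP_3a9764_gt.St2a
section
/-! Stage 2: the extension by one dimension. -/

set_option autoImplicit false

open Filter Set Matrix Sum
open scoped Topology ComplexConjugate

namespace Pool.Agent.Work.MP_3a9764_gt

noncomputable section

variable {n : ℕ}

namespace S2

theorem hf_add (A B : Mat n) (x y : Fin n → ℂ) : hf (A + B) x y = hf A x y + hf B x y := by
  simp only [hf, Matrix.add_apply, Complex.ofReal_add, add_mul, Finset.sum_add_distrib]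

theorem hf_smul (c : ℝ) (A : Mat n) (x y : Fin n → ℂ) : hf (c • A) x y = c * hf A x y := by
  simp only [hf, Matrix.smul_apply, smul_eq_mul, Complex.ofReal_mul, Finset.mul_sum, mul_assoc]

theorem hf_one (x y : Fin n → ℂ) : hf 1 x y = ∑ i, x i * conj (y i) := by
  simp [hf, Matrix.one_apply, apply_ite]

theorem hf_one_self (x : Fin n → ℂ) : hf 1 x x = nv x := by
  simp only [hf_one, nv, Complex.mul_conj, Complex.ofReal_sum]

theorem hf_symm {A : Mat n} (hA : A.IsSymm) (x y : Fin n → ℂ) : hf A y x = conj (hf A x y) := by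
  simp only [hf, map_sum, map_mul, Complex.conj_ofReal, Complex.conj_conj]
  rw [Finset.sum_comm]
  exact Finset.sum_congr rfl fun i _ => Finset.sum_congr rfl fun j _ => by
    rw [hA.apply i j]; ring

theorem hf_im {A : Mat n} (hA : A.IsSymm) (x : Fin n → ℂ) : (hf A x x).im = 0 := by
  have h := congrArg Complex.im (hf_symm hA x x)
  rw [Complex.conj_im] at h
  linarith only [h]

theorem hf_smul_self (A : Mat n) (c : ℂ) (x : Fin n → ℂ) :
    hf A (c • x) (c • x) = Complex.normSq c * hf A x x := by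
  simp only [hf, Pi.smul_apply, smul_eq_mul, map_mul, ← Complex.mul_conj, Finset.mul_sum]
  exact Finset.sum_congr rfl fun i _ => Finset.sum_congr rfl fun j _ => by ring

theorem rq_add (R S : T4 n) (v : CMat n) : rq (R + S) v = rq R v + rq S v := by
  simp only [rq, cq_add, Complex.add_re, add_div]

theorem rq_smul (c : ℝ) (R : T4 n) (v : CMat n) : rq (c • R) v = c * rq R v := by
  simp only [rq, cq_smul, Complex.re_ofReal_mul, mul_div_assoc]

theorem rq_smul_right (R : T4 n) (c : ℂ) (v : CMat n) :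
    rq R (c • v) = Complex.normSq c * rq R v := by
  rw [rq, rq, cq_smul_left, cq_smul_right, ← mul_assoc, Complex.mul_conj, Complex.re_ofReal_mul,
    mul_div_assoc]

theorem rq_kn_self {A : Mat n} (hA : A.IsSymm) (x y : Fin n → ℂ) :
    rq (kn A A) (wedge x y) =
      2 * ((hf A x x).re * (hf A y y).re - Complex.normSq (hf A x y)) := by
  rw [rq_kn_wedge hA hA, hf_symm hA x y]
  simp only [Complex.mul_re, Complex.add_re, Complex.sub_re, hf_im hA, Complex.conj_re,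
    Complex.conj_im, Complex.normSq_apply]
  ring

theorem rq_kn_one {A : Mat n} (hA : A.IsSymm) {x y : Fin n → ℂ} (h : hf 1 x y = 0) :
    rq (kn A 1) (wedge x y) = (hf A x x).re * nv y + (hf A y y).re * nv x := by
  rw [rq_kn_wedge hA isSymm_one, hf_symm isSymm_one x y, h, hf_one_self, hf_one_self]
  simp

theorem rq_Id4 {x y : Fin n → ℂ} (h : hf 1 x y = 0) : rq (Id4 n) (wedge x y) = nv x * nv y := by
  have h1 := rq_kn_one isSymm_one h
  rw [kn_one_one, rq_smul, hf_one_self, hf_one_self, Complex.ofReal_re, Complex.ofReal_re] at h1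
  linarith only [h1]

theorem wedge_comm (x y : Fin n → ℂ) : wedge y x = (-1 : ℂ) • wedge x y := by
  ext i j; simp [wedge, vecMulVec_apply]

theorem wedge_sub_smul (x y : Fin n → ℂ) (c : ℂ) : wedge (x - c • y) y = wedge x y := by
  ext i j; simp only [wedge, vecMulVec_apply, Matrix.sub_apply, Pi.sub_apply, Pi.smul_apply,
    smul_eq_mul]; ring

theorem wedge_nf (x y : Fin n → ℂ) (κ κ' μ : ℂ) :
    wedge (κ • x) (κ' • y + μ • κ • x) = (κ * κ') • wedge x y := by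
  ext i j; simp only [wedge, vecMulVec_apply, Matrix.sub_apply, Pi.add_apply, Pi.smul_apply,
    smul_eq_mul, Matrix.smul_apply]; ring

theorem mul_wedge (g : CMat n) (x y : Fin n → ℂ) :
    g * wedge x y * gᵀ = wedge (g *ᵥ x) (g *ᵥ y) := by
  simp only [wedge, Matrix.mul_sub, Matrix.sub_mul, mul_vecMulVec, vecMulVec_mul, vecMul_transpose]

theorem dot_orth {g : CMat n} (hg : gᵀ * g = 1) (x y : Fin n → ℂ) :
    (g *ᵥ x) ⬝ᵥ (g *ᵥ y) = x ⬝ᵥ y := by
  rw [dotProduct_mulVec, ← mulVec_transpose, mulVec_mulVec, hg, one_mulVec]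

/-- The isotropic bivectors. -/
def IsoB (n : ℕ) : Set (CMat n) :=
  {u | ∃ z w : Fin n → ℂ, z ⬝ᵥ z = 0 ∧ z ⬝ᵥ w = 0 ∧ w ⬝ᵥ w = 0 ∧ u = wedge z w}

theorem isoB_invariant : ∀ u ∈ IsoB n, ∀ g : CMat n, gᵀ * g = 1 → g.det = 1 →
    g * u * gᵀ ∈ IsoB n := by
  rintro u ⟨z, w, h1, h2, h3, rfl⟩ g hg -
  exact ⟨g *ᵥ z, g *ᵥ w, by rw [dot_orth hg, h1], by rw [dot_orth hg, h2],
    by rw [dot_orth hg, h3], mul_wedge g z w⟩

theorem PICw.min {R : T4 n} (h : PICw R) {v : CMat n} (hv : v ∈ IsoB n) (h0 : rq R v = 0) :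
    ∀ᶠ g in 𝓝 (1 : CMat n), gᵀ * g = 1 → g.det = 1 →
      (cq R v v).re ≤ (cq R (g * v * gᵀ) (g * v * gᵀ)).re := by
  refine min_of_invariant isoB_invariant ?_ hv (by rw [rq] at h0; linarith only [h0])
  rintro u ⟨z, w, h1, h2, h3, rfl⟩
  have := h z w h1 h2 h3
  rw [rq] at this
  linarith

/-- A vector with one more coordinate. -/
def jn (z : Fin n → ℂ) (c : ℂ) : Fin (n + 1) → ℂ :=
  fun a => Sum.elim z (fun _ => c) (finSumFinEquiv.symm a)

theorem jn_apply (z : Fin n → ℂ) (c : ℂ) (s : Fin n ⊕ Fin 1) :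
    jn z c (finSumFinEquiv s) = Sum.elim z (fun _ => c) s := by
  simp only [jn, Equiv.symm_apply_apply]

theorem exists_jn (x : Fin (n + 1) → ℂ) : ∃ z c, x = jn z c := by
  refine ⟨fun i => x (finSumFinEquiv (inl i)), x (finSumFinEquiv (inr 0)), ?_⟩
  funext a
  obtain ⟨a, rfl⟩ := finSumFinEquiv.surjective a
  rw [jn_apply]
  rcases a with a | a
  · rfl
  · rw [Subsingleton.elim a 0]; rfl

theorem jn_dot (z y : Fin n → ℂ) (c d : ℂ) : jn z c ⬝ᵥ jn y d = z ⬝ᵥ y + c * d := by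
  simp [dotProduct, sum_fin_add, jn_apply]

theorem jn_sub_smul (z y : Fin n → ℂ) (c d t : ℂ) :
    jn z c - t • jn y d = jn (z - t • y) (c - t * d) := by
  funext a
  obtain ⟨a, rfl⟩ := finSumFinEquiv.surjective a
  simp only [Pi.sub_apply, Pi.smul_apply, jn_apply]
  rcases a with a | a <;> rfl

/-- A vector as a matrix with one column. -/
def col1 (z : Fin n → ℂ) : Matrix (Fin n) (Fin 1) ℂ := of fun i _ => z i

theorem wedge_jn (z y : Fin n → ℂ) (c : ℂ) :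
    wedge (jn z 0) (jn y c) = blk (wedge z y) (col1 (c • z)) 0 := by
  ext a b
  obtain ⟨a, rfl⟩ := finSumFinEquiv.surjective a
  obtain ⟨b, rfl⟩ := finSumFinEquiv.surjective b
  rw [blk_apply]
  simp only [wedge, Matrix.sub_apply, vecMulVec_apply, jn_apply]
  rcases a with a | a <;> rcases b with b | b <;> simp [col1, vecMulVec_apply, mul_comm]

theorem hq_col1 (H : Mat n) (x y : Fin n → ℂ) : hq H (col1 x) (col1 y) = hf H x y := by
  simp [hq, hf, col1]

theorem zero_skew : (0 : CMat 1)ᵀ = -0 := by simp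

theorem rq_ext (S : T4 n) (H : Mat n) (z y : Fin n → ℂ) (c : ℂ) :
    rq (ext4 1 S H 0) (wedge (jn z 0) (jn y c)) =
      rq S (wedge z y) + Complex.normSq c * (hf H z z).re := by
  rw [wedge_jn, rq, cq_ext4_re _ _ _ _ _ zero_skew, hq_col1, hf_smul_self, rq,
    Complex.re_ofReal_mul]
  ring

theorem picw_ext_of {S : T4 n} {H : Mat n}
    (h : ∀ (z y : Fin n → ℂ) (c : ℂ), z ⬝ᵥ z = 0 → z ⬝ᵥ y = 0 → y ⬝ᵥ y + c * c = 0 →
      0 ≤ rq S (wedge z y) + Complex.normSq c * (hf H z z).re) : PICw (ext4 1 S H 0) := by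
  have h1 : ∀ (z : Fin n → ℂ) (w : Fin (n + 1) → ℂ), jn z 0 ⬝ᵥ jn z 0 = 0 → jn z 0 ⬝ᵥ w = 0 →
      w ⬝ᵥ w = 0 → 0 ≤ rq (ext4 1 S H 0) (wedge (jn z 0) w) := by
    intro z w a1 a2 a3
    obtain ⟨y, c, rfl⟩ := exists_jn w
    rw [jn_dot] at a1 a2 a3
    rw [rq_ext]
    exact h z y c (by simpa using a1) (by simpa using a2) a3
  intro x w a1 a2 a3
  obtain ⟨z, c, rfl⟩ := exists_jn x
  obtain ⟨y, d, rfl⟩ := exists_jn w
  by_cases hd : d = 0
  · subst hd
    rw [wedge_comm, rq_smul_right]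
    exact mul_nonneg (Complex.normSq_nonneg _) (h1 y _ a3 (by rwa [dotProduct_comm]) a1)
  · rw [← wedge_sub_smul _ _ (c / d)]
    have e := jn_sub_smul z y c d (c / d)
    rw [div_mul_cancel₀ _ hd, sub_self] at e
    have b2 : jn y d ⬝ᵥ jn z c = 0 := by rwa [dotProduct_comm]
    rw [e]
    refine h1 _ _ ?_ ?_ a3
    · rw [← e]
      simp only [sub_dotProduct, dotProduct_sub, smul_dotProduct, dotProduct_smul, a1, a2, a3, b2,
        smul_zero, sub_zero]
    · rw [← e]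
      simp only [sub_dotProduct, smul_dotProduct, a2, a3, smul_zero, sub_zero]

theorem PICw.ext {S : T4 n} {H : Mat n} (h : PICw (ext4 1 S H 0)) {z y : Fin n → ℂ} {c : ℂ}
    (h1 : z ⬝ᵥ z = 0) (h2 : z ⬝ᵥ y = 0) (h3 : y ⬝ᵥ y + c * c = 0) :
    0 ≤ rq S (wedge z y) + Complex.normSq c * (hf H z z).re := by
  rw [← rq_ext]
  exact h _ _ (by rw [jn_dot, h1]; simp) (by rw [jn_dot, h2]; simp) (by rw [jn_dot, h3])

theorem nsq_wedge (x y : Fin n → ℂ) :
    nsq (wedge x y) = 2 * (nv x * nv y - Complex.normSq (hf 1 x y)) := by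
  have h1 := rq_kn_self isSymm_one x y
  rw [kn_one_one, rq_smul, hf_one_self, hf_one_self, rq, cq_eq_cop', cop_Id4 (wedge_skew x y)] at h1
  simp only [Matrix.smul_apply, smul_eq_mul, map_mul, map_ofNat, mul_left_comm _ (2 : ℂ),
    ← Finset.mul_sum, nsq_eq, Complex.ofReal_re] at h1
  rw [← h1, show (2 : ℂ) * (nsq (wedge x y) : ℂ) = ((2 * nsq (wedge x y) : ℝ) : ℂ) by simp,
    Complex.ofReal_re]
  ring

theorem cs_mat (A B : CMat n) :
    Complex.normSq (∑ i, ∑ j, A i j * conj (B i j)) ≤ nsq A * nsq B := by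
  have h := Finset.sum_mul_sq_le_sq_mul_sq Finset.univ (fun p : Fin n × Fin n => ‖A p.1 p.2‖)
    (fun p => ‖B p.1 p.2‖)
  simp only [Fintype.sum_prod_type, ← Complex.normSq_eq_norm_sq] at h
  refine le_trans ?_ h
  rw [Complex.normSq_eq_norm_sq]
  refine pow_le_pow_left₀ (norm_nonneg _) ?_ 2
  refine (norm_sum_le _ _).trans (Finset.sum_le_sum fun i _ => ?_)
  refine (norm_sum_le _ _).trans (Finset.sum_le_sum fun j _ => ?_)
  rw [norm_mul, Complex.norm_conj]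

/-- The variational inequality at a null vector of the extension. -/
theorem ext_active {S : T4 n} (hS : IsCurv S) {H : Mat n} (hH : H.IsSymm)
    (h : PICw (ext4 1 S H 0)) {z y : Fin n → ℂ} {r : ℝ} (hr : r ≠ 0) (h1 : z ⬝ᵥ z = 0)
    (h2 : z ⬝ᵥ y = 0) (h3 : y ⬝ᵥ y = (r : ℂ) ^ 2) (h4 : hf 1 z y = 0) (hz : nv z = 2)
    (hy : 0 < nv y) (h0 : rq S (wedge z y) + r ^ 2 * (hf H z z).re = 0) :
    nv y * (hf H z z).re ^ 2 / 2 - rq (kn H H) (wedge z y) / 2 -
      r ^ 2 * (hf (st4 S H) z z).re ≤ rq (Qq4 S) (wedge z y) := by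
  set c : ℂ := r * Complex.I with hc
  have hc2 : Complex.normSq c = r ^ 2 := by simp [hc, sq]
  have hv : wedge (jn z 0) (jn y c) ∈ IsoB (n + 1) :=
    ⟨_, _, by rw [jn_dot, h1]; simp, by rw [jn_dot, h2]; simp, by
      rw [jn_dot, h3, hc]; linear_combination (r : ℂ) ^ 2 * Complex.I_mul_I, rfl⟩
  have hm := PICw.min h hv (by rw [rq_ext, hc2, h0])
  rw [wedge_jn] at hm
  obtain ⟨a1, -, a3, -⟩ := ext_min hS.isOp hH 0 (wedge_skew z y) _ zero_skew hm
  set A := cop S (wedge z y) with hA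
  have hAs : ∀ i j, A j i = -A i j := fun i j =>
    congrFun (congrFun (cop_skew hS.isOp (wedge z y)) i) j
  have b1 : ∀ i, ∑ j, A i j * conj (z j) =
      -2 * ∑ j, conj (wedge z y i j) * ∑ k, (H j k : ℂ) * z k := by
    intro i
    have e := congrFun (congrFun a3 i) 0
    simp only [Matrix.mul_apply, Matrix.map_apply, col1, of_apply, Pi.smul_apply, smul_eq_mul,
      Matrix.smul_apply, Matrix.add_apply, Matrix.sub_apply, hm_apply, Matrix.zero_apply, map_zero,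
      mul_zero, Finset.sum_const_zero, sub_zero, add_zero, map_mul, hc, Complex.conj_ofReal,
      Complex.conj_I] at e
    have hr' : (r : ℂ) * Complex.I ≠ 0 := mul_ne_zero (Complex.ofReal_ne_zero.2 hr) Complex.I_ne_zero
    refine mul_left_cancel₀ hr' ?_
    simp only [Finset.mul_sum] at e ⊢
    rw [← neg_inj, ← Finset.sum_neg_distrib, ← Finset.sum_neg_distrib]
    refine Eq.trans (Finset.sum_congr rfl fun j _ => by ring) (e.trans ?_)
    refine Finset.sum_congr rfl fun j _ => ?_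
    rw [← Finset.sum_neg_distrib]
    exact Finset.sum_congr rfl fun k _ => by ring
  have b2 : ∑ i, ∑ j, A i j * conj (wedge (fun i => conj (y i)) z i j) =
      4 * nv y * hf H z z := by
    have e1 : ∑ i, ∑ j, A i j * conj (wedge (fun i => conj (y i)) z i j) =
        2 * ∑ i, y i * ∑ j, A i j * conj (z j) := by
      simp only [wedge, Matrix.sub_apply, vecMulVec_apply, map_sub, map_mul, Complex.conj_conj,
        mul_sub, Finset.sum_sub_distrib]
      rw [Finset.sum_comm (f := fun i j => A i j * (conj (z i) * y j)), two_mul, sub_eq_add_neg]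
      simp only [Finset.mul_sum, ← Finset.sum_neg_distrib]
      congr 1
      · exact Finset.sum_congr rfl fun i _ => Finset.sum_congr rfl fun j _ => by ring
      · exact Finset.sum_congr rfl fun i _ => Finset.sum_congr rfl fun j _ => by
          rw [hAs i j]; ring
    have e2 : ∑ i, y i * conj (z i) = 0 := by
      rw [← hf_one, hf_symm isSymm_one, h4, map_zero]
    have e3 : ∑ i, y i * conj (y i) = nv y := by rw [← hf_one, hf_one_self]
    have e4 : hf H z z = ∑ j, conj (z j) * ∑ k, (H j k : ℂ) * z k := by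
      simp only [hf, Finset.mul_sum]
      rw [Finset.sum_comm]
      exact Finset.sum_congr rfl fun i _ => Finset.sum_congr rfl fun j _ => by
        rw [hH.apply i j]; ring
    rw [e1, e4]
    simp only [b1]
    generalize (fun j => ∑ k, (H j k : ℂ) * z k) = w
    have e5 : ∀ i, ∑ j, conj (wedge z y i j) * ∑ k, (H j k : ℂ) * z k =
        conj (z i) * ∑ j, conj (y j) * ∑ k, (H j k : ℂ) * z k -
          conj (y i) * ∑ j, conj (z j) * ∑ k, (H j k : ℂ) * z k := fun i => by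
      simp only [wedge, Matrix.sub_apply, vecMulVec_apply, map_sub, map_mul, sub_mul,
        Finset.sum_sub_distrib, mul_assoc, ← Finset.mul_sum]
    simp only [e5]
    generalize (∑ j, conj (y j) * ∑ k, (H j k : ℂ) * z k) = p
    generalize (∑ j, conj (z j) * ∑ k, (H j k : ℂ) * z k) = q
    have e6 : ∀ i, y i * (-2 * (conj (z i) * p - conj (y i) * q)) =
        y i * conj (y i) * (2 * q) - y i * conj (z i) * (2 * p) := fun i => by ring
    simp only [e6, Finset.sum_sub_distrib, ← Finset.sum_mul, e2, e3]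
    ring
  have b3 := cs_mat A (wedge (fun i => conj (y i)) z)
  have b4 : hf 1 (fun i => conj (y i)) z = 0 := by
    rw [hf_one]
    simp only [← map_mul, ← map_sum]
    rw [show ∑ i, y i * z i = z ⬝ᵥ y from dotProduct_comm y z, h2, map_zero]
  have b5 : nv (fun i => conj (y i)) = nv y := by simp only [nv, Complex.normSq_conj]
  have b6 : hf H z z = ((hf H z z).re : ℂ) := Complex.ext rfl (by rw [hf_im hH, Complex.ofReal_im])
  rw [b2, nsq_wedge, b4, b5, hz, b6, map_mul, map_mul, Complex.normSq_ofReal,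
    Complex.normSq_ofReal, Complex.normSq_ofNat, map_zero] at b3
  have b7 : 4 * nv y * (hf H z z).re ^ 2 ≤ nsq A := by
    refine le_of_mul_le_mul_left (a := 4 * nv y) ?_ (by positivity)
    linarith only [b3, b3]
  simp only [Nat.cast_one, sub_self, zero_mul, zero_smul, add_zero, hq_col1, hf_smul_self, hc2,
    Complex.re_ofReal_mul] at a1
  have b8 : nsq (0 : CMat 1) = 0 := by simp [nsq]
  rw [b8] at a1
  simp only [rq]
  linarith only [b7, a1]

end S2

end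

end Pool.Agent.Work.MP_3a9764_gt
end

-- merged part: Pool.Agent.Work.MP_3a9764_gt.St2b
section
/-! Stage 2: estimates in an orthonormal four-frame. -/

set_option autoImplicit false

open Filter Set Matrix
open scoped Topology ComplexConjugate

namespace Pool.Agent.Work.MP_3a9764_gt

noncomputable section

variable {n : ℕ}

namespace S2

/-- A real matrix as a bilinear form. -/
def bf (A : Mat n) (a b : Fin n → ℝ) : ℝ := ∑ i, ∑ j, A i j * a i * b j

theorem bf_add (A B : Mat n) (x y : Fin n → ℝ) : bf (A + B) x y = bf A x y + bf B x y := by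
  simp only [bf, Matrix.add_apply, add_mul, Finset.sum_add_distrib]

theorem bf_smul (c : ℝ) (A : Mat n) (x y : Fin n → ℝ) : bf (c • A) x y = c * bf A x y := by
  simp only [bf, Matrix.smul_apply, smul_eq_mul, Finset.mul_sum, mul_assoc]

theorem bf_one (x y : Fin n → ℝ) : bf 1 x y = ∑ i, x i * y i := by
  simp [bf, Matrix.one_apply]

theorem bf_smul_self (A : Mat n) (c : ℝ) (x : Fin n → ℝ) :
    bf A (c • x) (c • x) = c ^ 2 * bf A x x := by
  simp only [bf, Pi.smul_apply, smul_eq_mul, Finset.mul_sum]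
  exact Finset.sum_congr rfl fun i _ => Finset.sum_congr rfl fun j _ => by ring

theorem hf_cv_re (A : Mat n) (a b : Fin n → ℝ) :
    (hf A (cv a b) (cv a b)).re = bf A a a + bf A b b := by
  simp only [hf, bf, cv, Complex.re_sum, ← Finset.sum_add_distrib]
  exact Finset.sum_congr rfl fun i _ => Finset.sum_congr rfl fun j _ => by simp

theorem cv_dot (a b c d : Fin n → ℝ) : cv a b ⬝ᵥ cv c d =
    ((∑ i, a i * c i - ∑ i, b i * d i : ℝ) : ℂ) +
      Complex.I * ((∑ i, a i * d i + ∑ i, b i * c i : ℝ) : ℂ) := by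
  simp only [dotProduct, cv, ← Finset.sum_sub_distrib, ← Finset.sum_add_distrib,
    Complex.ofReal_sum, Finset.mul_sum]
  exact Finset.sum_congr rfl fun i _ => by
    push_cast; linear_combination (b i : ℂ) * d i * Complex.I_mul_I

theorem hf_one_cv (a b c d : Fin n → ℝ) : hf 1 (cv a b) (cv c d) =
    ((∑ i, a i * c i + ∑ i, b i * d i : ℝ) : ℂ) +
      Complex.I * ((∑ i, b i * c i - ∑ i, a i * d i : ℝ) : ℂ) := by
  simp only [hf_one, cv, ← Finset.sum_sub_distrib, ← Finset.sum_add_distrib,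
    Complex.ofReal_sum, Finset.mul_sum, map_add, map_mul, Complex.conj_ofReal, Complex.conj_I]
  exact Finset.sum_congr rfl fun i _ => by
    push_cast; linear_combination -(b i : ℂ) * d i * Complex.I_mul_I

theorem nv_cv (a b : Fin n → ℝ) : nv (cv a b) = ∑ i, a i * a i + ∑ i, b i * b i := by
  rw [← bf_one, ← bf_one, ← hf_cv_re, hf_one_self, Complex.ofReal_re]

/-- The isotropic vector of a frame. -/
def zv (e : Fin 4 → Fin n → ℝ) : Fin n → ℂ := cv (e 0) (e 1)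

/-- The second vector of a frame. -/
def yv (e : Fin 4 → Fin n → ℝ) (la : ℝ) : Fin n → ℂ := cv (e 2) (la • e 3)

section

variable {e : Fin 4 → Fin n → ℝ} (he : ON4 e) (la : ℝ)
include he

theorem on_smul (a b : Fin 4) : ∑ i, e a i * (la • e b) i = if a = b then la else 0 := by
  simp only [Pi.smul_apply, smul_eq_mul, mul_left_comm _ la, ← Finset.mul_sum, he a b]
  split_ifs <;> simp

theorem on_smul2 : ∑ i, (la • e 3) i * (la • e 3) i = la ^ 2 := by
  rw [← bf_one, bf_smul_self, bf_one, he 3 3]; simp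

theorem zv_zv : zv e ⬝ᵥ zv e = 0 := by
  rw [zv, cv_dot, he, he, he, he]; simp

theorem zv_yv : zv e ⬝ᵥ yv e la = 0 := by
  rw [zv, yv, cv_dot, he, he, on_smul he, on_smul he]; simp

theorem yv_yv : yv e la ⬝ᵥ yv e la = ((1 - la ^ 2 : ℝ) : ℂ) := by
  have h : ∑ i, (la • e 3) i * e 2 i = 0 := by
    simp only [mul_comm _ (e 2 _)]; rw [on_smul he]; simp
  rw [yv, cv_dot, he, on_smul2 he, on_smul he, h]; simp

theorem hf_zv_yv : hf 1 (zv e) (yv e la) = 0 := by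
  rw [zv, yv, hf_one_cv, he, he, on_smul he, on_smul he]; simp

theorem nv_zv : nv (zv e) = 2 := by
  rw [zv, nv_cv, he, he]; norm_num

theorem nv_yv : nv (yv e la) = 1 + la ^ 2 := by
  rw [yv, nv_cv, he, on_smul2 he]; simp

theorem on_perm {σ : Fin 4 → Fin 4} (hσ : Function.Injective σ) : ON4 (e ∘ σ) := fun a b => by
  simp only [Function.comp_apply, he (σ a) (σ b), hσ.eq_iff]

end

theorem hf_zv (A : Mat n) (e : Fin 4 → Fin n → ℝ) :
    (hf A (zv e) (zv e)).re = bf A (e 0) (e 0) + bf A (e 1) (e 1) := hf_cv_re _ _ _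

theorem hf_yv (A : Mat n) (e : Fin 4 → Fin n → ℝ) (la : ℝ) :
    (hf A (yv e la) (yv e la)).re = bf A (e 2) (e 2) + la ^ 2 * bf A (e 3) (e 3) := by
  rw [yv, hf_cv_re, bf_smul_self]

theorem exists_frame (hn : 4 ≤ n) {e : Fin 4 → Fin n → ℝ} (he : ON4 e) :
    ∃ (P : Mat n) (ι : Fin 4 ↪ Fin n), Pᵀ * P = 1 ∧ P * Pᵀ = 1 ∧
      (∀ (A : Mat n) a b, (Pᵀ * A * P) (ι a) (ι b) = bf A (e a) (e b)) ∧
      ∀ (R : T4 n) a b c d, pullT R P (ι a) (ι b) (ι c) (ι d) = ev4 R (e a) (e b) (e c) (e d) := by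
  obtain ⟨P, h1, h2⟩ := exists_orth_of_on hn e he
  refine ⟨P, Fin.castLEEmb hn, h1, mul_eq_one_comm.1 h1, fun A a b => ?_, fun R a b c d => ?_⟩
  · simp only [Matrix.mul_apply, transpose_apply, Fin.castLEEmb_apply, h2, bf, Finset.sum_mul]
    rw [Finset.sum_comm]
    exact Finset.sum_congr rfl fun i _ => Finset.sum_congr rfl fun j _ => by ring
  · simp only [pullT, Fin.castLEEmb_apply, h2]

section

variable (hn : 5 ≤ n) {e : Fin 4 → Fin n → ℝ} (he : ON4 e)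
include hn he

theorem p2_frame {R : T4 n} (hR : IsCurv R) (h : PICw R) (a : Fin 4) :
    bf (ric4 R) (e a) (e a) ≤ scal4 R / 2 := by
  obtain ⟨P, ι, h1, h2, h3, -⟩ := exists_frame (by omega) he
  have h4 := (h.pullT h1).p2 hn (isCurv_pullT hR P) (ι a)
  rwa [ric4_pullT R h2, scal4_pullT R h2, h3] at h4

theorem p3_frame {R : T4 n} (hR : IsCurv R) (h : PICw R) :
    ev4 R (e 0) (e 3) (e 0) (e 3) + ev4 R (e 1) (e 3) (e 1) (e 3) ≤ bf (ric4 R) (e 3) (e 3) +
      (bf (ric4 R) (e 0) (e 0) + bf (ric4 R) (e 1) (e 1)) / 2 := by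
  obtain ⟨P, ι, h1, h2, h3, h5⟩ := exists_frame (by omega) he
  have h4 := (h.pullT h1).p3 hn (isCurv_pullT hR P) (a := ι 0) (b := ι 1) (d := ι 3)
    (by simp) (by simp) (by simp)
  rwa [ric4_pullT R h2, h3, h3, h3, h5, h5] at h4

theorem sq_frame {A : Mat n} (hA : A.IsSymm) (h0 : A.trace = 0) :
    (∀ a, bf A (e a) (e a) ^ 2 ≤ bf (A * A) (e a) (e a)) ∧
      ∑ a, bf (A * A) (e a) (e a) + (∑ a, bf A (e a) (e a)) ^ 2 / ((n : ℝ) - 4) ≤
        (A * A).trace := by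
  obtain ⟨P, ι, h1, h2, h3, -⟩ := exists_frame (by omega) he
  have hB : (Pᵀ * A * P).IsSymm := by
    rw [IsSymm, transpose_mul, transpose_mul, transpose_transpose, hA.eq, Matrix.mul_assoc]
  have e1 : Pᵀ * (A * A) * P = Pᵀ * A * P * (Pᵀ * A * P) := by
    calc Pᵀ * (A * A) * P = Pᵀ * A * (P * Pᵀ) * A * P := by
          rw [h2, Matrix.mul_one, Matrix.mul_assoc Pᵀ A A]
      _ = _ := by simp only [Matrix.mul_assoc]
  have e2 : ∀ X : Mat n, (Pᵀ * X * P).trace = X.trace := fun X => by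
    rw [trace_mul_comm, ← Matrix.mul_assoc, h2, Matrix.one_mul]
  rw [← e2 (A * A), e1]
  rw [← e2 A] at h0
  simp only [← h3, e1]
  generalize Pᵀ * A * P = B at hB h0
  have e3 : ∀ i, B i i ^ 2 ≤ (B * B) i i := fun i => by
    rw [Matrix.mul_apply, sq]
    exact Finset.single_le_sum (f := fun j => B i j * B j i)
      (fun j _ => by rw [hB.apply j i]; exact mul_self_nonneg _) (Finset.mem_univ i)
  refine ⟨fun a => e3 _, ?_⟩
  have e4 : ∀ f : Fin n → ℝ, ∑ i, f i = ∑ a, f (ι a) + ∑ i ∈ (Finset.univ.map ι)ᶜ, f i := by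
    intro f
    rw [← Finset.sum_map Finset.univ ι f, Finset.sum_add_sum_compl]
  have e5 : (((Finset.univ.map ι)ᶜ).card : ℝ) = n - 4 := by
    rw [Finset.card_compl, Finset.card_map, Finset.card_univ, Fintype.card_fin, Fintype.card_fin,
      Nat.cast_sub (by omega)]
    simp
  have e6 := sq_sum_le_card_mul_sum_sq (s := (Finset.univ.map ι)ᶜ) (f := fun i => B i i)
  have e7 := Finset.sum_le_sum (s := (Finset.univ.map ι)ᶜ) fun i _ => e3 i
  have h5 : (5 : ℝ) ≤ n := by exact_mod_cast hn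
  simp only [trace, diag_apply] at h0 ⊢
  rw [e4] at h0
  rw [e4 fun i => (B * B) i i, add_le_add_iff_left, div_le_iff₀ (by linarith only [h5]),
    eq_neg_of_add_eq_zero_left h0, neg_sq]
  rw [e5] at e6
  linarith only [e6, e7, e5, mul_nonneg_of_nonpos_of_nonpos (Mathlib.Tactic.Linarith.sub_nonpos_of_le (Mathlib.Tactic.Linarith.natCast_nonneg ℝ (Finset.map ι Finset.univ)ᶜ.card)) (Mathlib.Tactic.Linarith.sub_nonpos_of_le e7), Mathlib.Tactic.Linarith.zero_mul_eq (sub_eq_zero_of_eq e5) (Mathlib.Tactic.Linarith.sub_nonpos_of_le e7)]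

end

theorem double_root {p q r la : ℝ} (h : ∀ x ∈ Icc (-1 : ℝ) 1, 0 ≤ p + x ^ 2 * q - 2 * x * r)
    (h1 : la ∈ Ioo (-1 : ℝ) 1) (h0 : p + la ^ 2 * q - 2 * la * r = 0) :
    p + q - 2 * r = (1 - la) ^ 2 * q := by
  have hm : IsLocalMin (fun x : ℝ => p + x ^ 2 * q - 2 * x * r) la := by
    filter_upwards [Icc_mem_nhds h1.1 h1.2] with x hx
    exact h0.le.trans (h x hx)
  have hd : HasDerivAt (fun x : ℝ => p + x ^ 2 * q - 2 * x * r) (2 * la * q - 2 * r) la := by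
    have := ((((hasDerivAt_id la).pow 2).mul_const q).const_add p).sub
      (((hasDerivAt_id la).const_mul 2).mul_const r)
    exact this.congr_deriv (by simp)
  have h2 := hm.hasDerivAt_eq_zero hd
  linear_combination h0 + (1 - la) * h2

end S2

end

end Pool.Agent.Work.MP_3a9764_gt
end

-- merged part: Pool.Agent.Work.MP_3a9764_gt.St2g
section
/-! Stage 2: the derivative at an active frame and the constraints from stage 1. -/

set_option autoImplicit false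

open Filter Set Matrix
open scoped Topology ComplexConjugate

namespace Pool.Agent.Work.MP_3a9764_gt

noncomputable section

variable {n : ℕ}

namespace S2

/-- The mixed curvature of the extension. -/
def HH (α β : ℝ) (S : T4 n) : Mat n := α • ric4 S + (β * lb S) • 1

/-- The test function of stage 2. -/
def Fv (S : T4 n) (H : Mat n) (e : Fin 4 → Fin n → ℝ) (la : ℝ) : ℝ :=
  rq S (wedge (zv e) (yv e la)) + (1 - la ^ 2) * (hf H (zv e) (zv e)).re

theorem HH_isSymm (α β : ℝ) {S : T4 n} (hS : IsCurv S) : (HH α β S).IsSymm :=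
  ((ric4_isSymm hS).smul _).add (isSymm_one.smul _)

theorem picw_ext (hn : 4 ≤ n) {S : T4 n} {H : Mat n}
    (h : ∀ e la, ON4 e → la ∈ Icc (0 : ℝ) 1 → 0 ≤ Fv S H e la) : PICw (ext4 1 S H 0) := by
  refine picw_ext_of fun z y c h1 h2 h3 => ?_
  by_cases hz : z = 0
  · subst hz
    simp [rq, cq, hf, wedge]
  obtain ⟨e, la, κ, κ', μ, he, hla, rfl, rfl⟩ := pic1_nf hn h1 hz h2
  change (κ' • yv e la + μ • κ • zv e) ⬝ᵥ (κ' • yv e la + μ • κ • zv e) + c * c = 0 at h3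
  change 0 ≤ rq S (wedge (κ • zv e) (κ' • yv e la + μ • κ • zv e)) +
    Complex.normSq c * (hf H (κ • zv e) (κ • zv e)).re
  simp only [add_dotProduct, dotProduct_add, smul_dotProduct, dotProduct_smul, zv_zv he,
    zv_yv he, dotProduct_comm (yv e la) (zv e), yv_yv he, mul_zero, add_zero, smul_eq_mul] at h3
  have h4 : 0 ≤ 1 - la ^ 2 := by linarith only [hla, hla.1, hla.2, mul_nonneg_of_nonpos_of_nonpos (Mathlib.Tactic.Linarith.sub_nonpos_of_le hla.left) (Mathlib.Tactic.Linarith.sub_nonpos_of_le hla.right)]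
  have h5 : Complex.normSq c = Complex.normSq κ' * (1 - la ^ 2) := by
    have h6 := congrArg Complex.normSq (eq_neg_of_add_eq_zero_right h3)
    simp only [map_mul, Complex.normSq_neg, Complex.normSq_ofReal] at h6
    refine (mul_self_inj_of_nonneg (Complex.normSq_nonneg _)
      (mul_nonneg (Complex.normSq_nonneg _) h4)).1 ?_
    rw [h6]; ring
  have h7 := mul_nonneg (mul_nonneg (Complex.normSq_nonneg κ) (Complex.normSq_nonneg κ'))
    (h e la he hla)
  rw [wedge_nf, rq_smul_right, hf_smul_self, Complex.re_ofReal_mul, h5, map_mul]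
  rw [Fv] at h7
  linarith only [h7]

theorem Fv_nonneg {S : T4 n} {H : Mat n} (h : PICw (ext4 1 S H 0)) {e : Fin 4 → Fin n → ℝ}
    (he : ON4 e) {x : ℝ} (hx : x ∈ Icc (-1 : ℝ) 1) : 0 ≤ Fv S H e x := by
  have h4 : 0 ≤ 1 - x ^ 2 := by linarith only [hx, hx.1, hx.2, mul_nonneg_of_nonpos_of_nonpos (Mathlib.Tactic.Linarith.sub_nonpos_of_le hx.left) (Mathlib.Tactic.Linarith.sub_nonpos_of_le hx.right)]
  have h1 := PICw.ext h (c := √(1 - x ^ 2) * Complex.I) (zv_zv he) (zv_yv he x) (by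
    rw [yv_yv he, mul_mul_mul_comm, ← Complex.ofReal_mul, Real.mul_self_sqrt h4, Complex.I_mul_I]
    ring)
  rwa [map_mul, Complex.normSq_I, mul_one, Complex.normSq_ofReal, Real.mul_self_sqrt h4] at h1

theorem picw_of_ext {S : T4 n} {H : Mat n} (h : PICw (ext4 1 S H 0)) : PICw S := by
  intro z w h1 h2 h3
  simpa using PICw.ext h (c := 0) h1 h2 (by simpa using h3)

theorem pic1w_of_ext {S : T4 n} (h : PICw (ext4 1 S 0 0)) : PIC1w S := by
  intro z w h1 h2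
  obtain ⟨c, hc⟩ := IsAlgClosed.exists_eq_mul_self (-(w ⬝ᵥ w))
  simpa [hf] using PICw.ext h (c := c) h1 h2 (by rw [← hc, add_neg_cancel])

theorem Fv_eq {S : T4 n} (hS : IsCurv S) (H : Mat n) (e : Fin 4 → Fin n → ℝ) (x : ℝ) :
    Fv S H e x = (ev4 S (e 0) (e 2) (e 0) (e 2) + ev4 S (e 1) (e 2) (e 1) (e 2) +
      (hf H (zv e) (zv e)).re) + x ^ 2 * (ev4 S (e 0) (e 3) (e 0) (e 3) +
      ev4 S (e 1) (e 3) (e 1) (e 3) - (hf H (zv e) (zv e)).re) -
      2 * x * ev4 S (e 0) (e 1) (e 2) (e 3) := by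
  rw [Fv, zv, yv, rq_wedge_cv hS]; ring

theorem bf_ric4 {e : Fin 4 → Fin n → ℝ} (he : ON4 e) (S : T4 n) (a : Fin 4) :
    bf (ric4 S) (e a) (e a) = bf (ric0 S) (e a) (e a) + lb S := by
  rw [ric4_eq S, bf_add, bf_smul, bf_one, he a a]; simp

theorem hf_HH {e : Fin 4 → Fin n → ℝ} (he : ON4 e) (α β : ℝ) (S : T4 n) :
    (hf (HH α β S) (zv e) (zv e)).re = α * (hf (ric4 S) (zv e) (zv e)).re + 2 * β * lb S := by
  rw [HH, hf_add, hf_smul, hf_smul, hf_one_self, nv_zv he, Complex.add_re, Complex.re_ofReal_mul,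
    Complex.re_ofReal_mul, Complex.ofReal_re]
  ring

theorem deriv_ge (hn : 5 ≤ n) {S : T4 n} (hS : IsCurv S) (hl : lb S = 1) {b α β : ℝ}
    (hα : α ^ 2 = 2 * aa n b) (h : PICw (ext4 1 S (HH α β S) 0)) {e : Fin 4 → Fin n → ℝ}
    (he : ON4 e) {la : ℝ} (hla : la ^ 2 < 1) (h0 : Fv S (HH α β S) e la = 0) :
    Efull n b α β (la ^ 2) (bf (ric0 S) (e 0) (e 0) + bf (ric0 S) (e 1) (e 1))
      (bf (ric0 S) (e 2) (e 2)) (bf (ric0 S) (e 3) (e 3))
      (bf (ric0 S * ric0 S) (e 0) (e 0) + bf (ric0 S * ric0 S) (e 1) (e 1)) (sg S) ≤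
      Fv (Qq4 S + DD b S) (HH α β (Qq4 S + DD b S)) e la := by
  have h4 : 0 < 1 - la ^ 2 := by linarith only [hla]
  have hr : √(1 - la ^ 2) ^ 2 = 1 - la ^ 2 := Real.sq_sqrt h4.le
  have a1 := ext_active hS (HH_isSymm α β hS) h (r := √(1 - la ^ 2)) (Real.sqrt_pos.2 h4).ne'
    (zv_zv he) (zv_yv he la) (by rw [yv_yv he, ← Complex.ofReal_pow, hr]) (hf_zv_yv he la)
    (nv_zv he) (by rw [nv_yv he]; positivity) (by rw [hr]; exact h0)
  have hn0 : (n : ℝ) ≠ 0 := AD_n (by omega)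
  have a2 := (sq_frame hn he (ric0_isSymm hS) (trace_ric0 hn0 S)).1
  have e1 : hf (HH α β S) (zv e) (yv e la) = α * hf (ric4 S) (zv e) (yv e la) := by
    rw [HH, hf_add, hf_smul, hf_smul, hf_zv_yv he, mul_zero, add_zero]
  have e2 : (hf (HH α β S) (yv e la) (yv e la)).re =
      α * (hf (ric4 S) (yv e la) (yv e la)).re + β * (1 + la ^ 2) := by
    rw [HH, hf_add, hf_smul, hf_smul, hf_one_self, nv_yv he, Complex.add_re, Complex.re_ofReal_mul,
      Complex.re_ofReal_mul, Complex.ofReal_re, hl, mul_one]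
  have e3 : (hf (st4 S (HH α β S)) (zv e) (zv e)).re = α * (hf (ric4 (Qq4 S)) (zv e) (zv e)).re +
      β * (hf (ric4 S) (zv e) (zv e)).re := by
    rw [HH, st4_add_right, st4_smul_right, st4_smul_right, st4_one hS, ← ric4_Qq4 hS, hf_add,
      hf_smul, hf_smul, Complex.add_re, Complex.re_ofReal_mul, Complex.re_ofReal_mul, hl, mul_one]
  rw [hr, rq_kn_self (HH_isSymm α β hS), e1, e2, e3, hf_HH he, nv_yv he, map_mul,
    Complex.normSq_ofReal, hl] at a1
  rw [Fv, hf_HH he, lb_Qq4_add_DD (by omega) b hS, ric4_add, ric4_DD (by omega) b hS, rq_add, DD,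
    rq_add, rq_add, rq_smul, rq_smul, rq_smul, rq_kn_self (ric4_isSymm hS),
    rq_kn_one hS.ric0_sq_isSymm (hf_zv_yv he la), rq_Id4 (hf_zv_yv he la), nv_zv he, nv_yv he, hl]
  simp only [hf_add, hf_smul, hf_one_self, nv_zv he, Complex.add_re, Complex.re_ofReal_mul,
    Complex.ofReal_re]
  generalize (hf (ric4 (Qq4 S)) (zv e) (zv e)).re = w at a1 ⊢
  simp only [hf_zv, hf_yv, bf_ric4 he, hl] at a1 ⊢
  have ha : aa n b = α ^ 2 / 2 := by linarith only [hα]
  have b1 := mul_nonneg (sq_nonneg b) (sub_nonneg.2 (a2 2))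
  have b2 := mul_nonneg (mul_nonneg (sq_nonneg b) (sq_nonneg la)) (sub_nonneg.2 (a2 3))
  rw [Efull, ha]
  linarith only [a1, b1, b2]

section

variable (hn : 5 ≤ n) {R : T4 n} (hR : IsCurv R) (hG : G1 R) {b : ℝ} (hb : 0 ≤ b)
  (hl : lb (linv b R) = 1) {e : Fin 4 → Fin n → ℝ} (he : ON4 e)

theorem bOne_nonneg (n : ℕ) : 0 ≤ bOne n := by rw [bOne]; positivity

include hn hb hl

theorem linv_cmp : linv b R =
    linv (bOne n) R + cA n b • Id4 n + cB n b • kn (ric0 (linv b R)) 1 := by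
  have h := linv_sub (by omega) hb (bOne_nonneg n) R
  rwa [hl, mul_one] at h

include hG he

theorem dl_le : dl n b ≤
    bf (ric0 (linv b R)) (e 0) (e 0) + bf (ric0 (linv b R)) (e 1) (e 1) + 2 := by
  have h3 : 3 ≤ n := by omega
  have h1 := hG.2 (zv e) (zv_zv he)
  have h2 := (ric0_linv h3 hb R).symm.trans (ric0_linv h3 (bOne_nonneg n) R)
  have h4 := (lb_linv h3 hb R).symm.trans (lb_linv h3 (bOne_nonneg n) R)
  have h5 := congrArg (fun A => bf A (e 0) (e 0) + bf A (e 1) (e 1)) h2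
  simp only [bf_smul] at h5
  rw [hf_zv, bf_ric4 he, bf_ric4 he, nv_zv he] at h1
  rw [hl, mul_one] at h4
  have p1 := AD_a h3 (bOne_nonneg n)
  have p2 := AD_b h3 (bOne_nonneg n)
  have p3 := AD_b h3 hb
  rw [dl, h4, mul_div_cancel_left₀ _ p1.ne']
  have h6 := mul_nonneg (div_pos p2 p3).le h1
  have h7 : bf (ric0 (linv b R)) (e 0) (e 0) + bf (ric0 (linv b R)) (e 1) (e 1) =
      (1 + ((n : ℝ) - 2) * bOne n) / (1 + ((n : ℝ) - 2) * b) *
        (bf (ric0 (linv (bOne n) R)) (e 0) (e 0) + bf (ric0 (linv (bOne n) R)) (e 1) (e 1)) := by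
    rw [div_mul_eq_mul_div, eq_div_iff p3.ne']
    linarith only [h5]
  rw [h7]
  linarith only [h6]

include hR

theorem iso_ge : 4 * cA n b + 2 * cB n b * (bf (ric0 (linv b R)) (e 0) (e 0) +
    bf (ric0 (linv b R)) (e 1) (e 1) + bf (ric0 (linv b R)) (e 2) (e 2) +
    bf (ric0 (linv b R)) (e 3) (e 3)) ≤ rq (linv b R) (wedge (zv e) (yv e 1)) := by
  have h1 := hG.1 (zv e) (yv e 1) (zv_zv he) (zv_yv he 1) (by rw [yv_yv he]; simp)
  have h2 := congrArg (fun S => rq S (wedge (zv e) (yv e 1))) (linv_cmp hn hb hl)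
  simp only [rq_add, rq_smul, rq_Id4 (hf_zv_yv he 1), nv_zv he, nv_yv he,
    rq_kn_one (ric0_isSymm (isCurv_linv hR b)) (hf_zv_yv he 1), hf_zv, hf_yv] at h2
  linarith only [h1, h2]

theorem sec_le : ev4 (linv b R) (e 0) (e 3) (e 0) (e 3) + ev4 (linv b R) (e 1) (e 3) (e 1) (e 3) ≤
    2 - 2 * ((n : ℝ) - 2) * cA n b + (1 - ((n : ℝ) - 4) * cB n b) *
      (bf (ric0 (linv b R)) (e 3) (e 3) +
        (bf (ric0 (linv b R)) (e 0) (e 0) + bf (ric0 (linv b R)) (e 1) (e 1)) / 2) := by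
  have hn0 : (n : ℝ) ≠ 0 := AD_n (by omega)
  have h1 := p3_frame hn he (isCurv_linv hR (bOne n)) hG.1
  have he' : ON4 (e ∘ ![0, 1, 3, 2]) := on_perm he (by decide)
  have e1 : ∀ S : T4 n, IsCurv S → rq S (wedge (zv (e ∘ ![0, 1, 3, 2])) (yv (e ∘ ![0, 1, 3, 2]) 0)) =
      ev4 S (e 0) (e 3) (e 0) (e 3) + ev4 S (e 1) (e 3) (e 1) (e 3) := fun S hS => by
    rw [zv, yv, rq_wedge_cv hS]; simp
  have h2 := congrArg (fun S => rq S (wedge (zv (e ∘ ![0, 1, 3, 2])) (yv (e ∘ ![0, 1, 3, 2]) 0)))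
    (linv_cmp hn hb hl)
  simp only [rq_add, rq_smul, rq_Id4 (hf_zv_yv he' 0), nv_zv he', nv_yv he',
    rq_kn_one (ric0_isSymm (isCurv_linv hR b)) (hf_zv_yv he' 0), hf_zv, hf_yv,
    e1 _ (isCurv_linv hR _)] at h2
  simp only [Function.comp_apply, cons_val_zero, cons_val_one, cons_val] at h2
  have h3 := congrArg ric4 (linv_cmp hn hb hl)
  rw [ric4_add, ric4_add, ric4_smul, ric4_smul, ric4_Id4, ric4_kn, trace_ric0 hn0, trace_one,
    Fintype.card_fin, Matrix.mul_one, Matrix.one_mul] at h3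
  have h4 : ric4 (linv (bOne n) R) = (1 - ((n : ℝ) - 2) * cB n b) • ric0 (linv b R) +
      (1 - ((n : ℝ) - 1) * cA n b) • (1 : Mat n) := by
    rw [ric4_eq (linv b R), hl] at h3
    linear_combination (norm := module) -h3
  simp only [h4, bf_add, bf_smul, bf_one, he _ _, if_true] at h1
  linarith only [h2, h1]

end

end S2

end

end Pool.Agent.Work.MP_3a9764_gt
end
end

-- merged part: Pool.Agent.Work.MP_3a9764_gt.N8Def
section
-- merged part: Pool.Agent.Work.MP_3a9764_gt.N8Def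
section
/-! The cones of the extended first stage. -/

set_option autoImplicit false

open Filter Set Matrix
open scoped Topology ComplexConjugate

namespace Pool.Agent.Work.MP_3a9764_gt

noncomputable section

variable {n : ℕ}

/-- The family of cones of stage 1. -/
def Gb (b g : ℝ) (R : T4 n) : Prop :=
  PICw (linv b R) ∧ ∀ z : Fin n → ℂ, z ⬝ᵥ z = 0 →
    0 ≤ (hf (ric4 (linv b R)) z z).re + g * lb (linv b R) * nv z

theorem G1_iff (R : T4 n) : G1 R ↔ Gb (bOne n) (bOne n / 3) R := Iff.rfl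

end

end Pool.Agent.Work.MP_3a9764_gt
end

-- merged part: Pool.Agent.Work.MP_3a9764_gt.N8B
section
/-! The square-zero cone in dimension eight. -/

set_option autoImplicit false

open Filter Set Matrix
open scoped Topology ComplexConjugate ComplexOrder

namespace Pool.Agent.Work.MP_3a9764_gt

noncomputable section

variable {n N : ℕ} {T : ℝ} {W : ℝ → Set (T4 n)}

/-- A real matrix as a complex matrix. -/
def cm (A : Mat n) : CMat n := A.map Complex.ofRealHom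

theorem cm_mul (A B : Mat n) : cm (A * B) = cm A * cm B := Matrix.map_mul

theorem cm_one : cm (1 : Mat n) = 1 := Matrix.map_one _ (map_zero _) (map_one _)

theorem cm_transpose {A : Mat n} (hA : A.IsSymm) : (cm A)ᵀ = cm A := hA.map _

theorem cm_herm {A : Mat n} (hA : A.IsSymm) : (cm A)ᴴ = cm A := by
  ext i j
  simp [cm, hA.apply]

theorem cop_kn {A B : Mat n} (hA : A.IsSymm) (hB : B.IsSymm) {w : CMat n} (hw : wᵀ = -w) :
    cop (kn A B) w = (2 : ℂ) • (cm A * w * cm B + cm B * w * cm A) := by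
  have h : ∀ i j, w j i = -w i j := fun i j => congrFun (congrFun hw i) j
  have e : ∀ (A B : Mat n), B.IsSymm → ∀ i j, (cm A * w * cm B) i j =
      ∑ k, ∑ l, (A i k : ℂ) * B j l * w k l := fun A B hB i j => by
    simp only [mul_apply, Finset.sum_mul, cm, map_apply, Complex.ofRealHom_eq_coe]
    rw [Finset.sum_comm]
    exact Finset.sum_congr rfl fun k _ => Finset.sum_congr rfl fun l _ => by
      rw [hB.apply j l]; ring
  have e' : ∀ (A B : Mat n) i j, ∑ k, ∑ l, (A i l : ℂ) * B j k * w k l =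
      -∑ k, ∑ l, (A i k : ℂ) * B j l * w k l := fun A B i j => by
    rw [Finset.sum_comm]
    simp only [← Finset.sum_neg_distrib]
    exact Finset.sum_congr rfl fun k _ => Finset.sum_congr rfl fun l _ => by rw [h k l]; ring
  ext i j
  rw [Matrix.smul_apply, Matrix.add_apply, e A B hB, e B A hA]
  simp only [cop, kn, Complex.ofReal_add, Complex.ofReal_sub, Complex.ofReal_mul, add_mul, sub_mul,
    Finset.sum_add_distrib, Finset.sum_sub_distrib, mul_comm (A j _ : ℂ), e', smul_eq_mul]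
  ring

theorem rq_kn {A B : Mat n} (hA : A.IsSymm) (hB : B.IsSymm) {w : CMat n} (hw : wᵀ = -w) :
    rq (kn A B) w = (cm A * w * cm B * wᴴ).trace.re := by
  have e2 : (cm B * w * cm A * wᴴ).trace = (cm A * w * cm B * wᴴ).trace := by
    rw [← trace_transpose, trace_mul_comm _ wᴴ]
    simp only [transpose_mul, cm_transpose hA, cm_transpose hB, MP_3a9764_gt.T.ct_comm, hw,
      conjTranspose_neg, Matrix.neg_mul, Matrix.mul_neg, neg_neg, Matrix.mul_assoc]
  have e3 : ∀ X : CMat n, ∑ k, ∑ l, X k l * conj (w k l) = (X * wᴴ).trace := fun X => by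
    simp only [trace, diag_apply, mul_apply, conjTranspose_apply, RCLike.star_def]
  rw [rq, cq_eq_cop (isCurv_kn hA hB).isOp, e3, cop_kn hA hB hw, Matrix.smul_mul, add_mul,
    trace_smul, trace_add, e2]
  simp only [smul_eq_mul, Complex.mul_re, Complex.add_re, Complex.re_ofNat, Complex.im_ofNat]
  ring

theorem hf_eq (A : Mat n) (x y : Fin n → ℂ) : hf A x y = x ⬝ᵥ (cm A *ᵥ star y) := by
  simp only [hf, dotProduct, mulVec, Finset.mul_sum, cm, map_apply, Complex.ofRealHom_eq_coe,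
    Pi.star_apply, RCLike.star_def]
  exact Finset.sum_congr rfl fun _ _ => Finset.sum_congr rfl fun _ _ => by ring

/-- The square of a form which is non-negative on a subspace. -/
theorem n8b_psd {A : Mat n} (hA : A.IsSymm) {q : ℕ} {Z : Matrix (Fin n) (Fin q) ℂ} {B : CMat q}
    (hB : Bᵀ = -B) (h : ∀ c : Fin q → ℂ, 0 ≤ (hf A (Z *ᵥ c) (Z *ᵥ c)).re) :
    0 ≤ rq (kn A A) (Z * B * Zᵀ) := by
  have h1 : (Zᴴ * cm A * Z).IsHermitian := isHermitian_conjTranspose_mul_mul Z (cm_herm hA)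
  have h2 : (Zᴴ * cm A * Z).PosSemidef := .of_dotProduct_mulVec_nonneg h1 fun c => by
    refine Complex.nonneg_iff.2 ⟨?_, (h1.im_star_dotProduct_mulVec_self c).symm⟩
    have h3 := h c
    rwa [hf_eq, ← cm_transpose hA, mulVec_transpose, dotProduct_comm, ← dotProduct_mulVec,
      star_mulVec, ← dotProduct_mulVec, mulVec_mulVec, mulVec_mulVec] at h3
  have h3 := MP_3a9764_gt.T.trace_nonneg_gen (A := 1) (S' := B * (Zᴴ * cm A * Z)ᵀ * Bᴴ) h1 (by simpa using h2)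
    (by simpa using h2.transpose.mul_mul_conjTranspose_same B)
  rw [rq_kn hA hA (by
    simp only [transpose_mul, transpose_transpose, hB, Matrix.neg_mul, Matrix.mul_neg,
      Matrix.mul_assoc])]
  refine (Complex.nonneg_iff.1 h3).1.trans_eq (congrArg Complex.re ?_)
  simp only [conjTranspose_one, Matrix.one_mul, Matrix.mul_one, transpose_mul, cm_transpose hA,
    conjTranspose_mul, MP_3a9764_gt.T.ct_comm, ← Matrix.mul_assoc]
  rw [Matrix.mul_assoc _ (cm A) Z, trace_mul_comm]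
  simp only [Matrix.mul_assoc]

theorem n8b_sq {A : Mat n} (hA : A.IsSymm) {w : CMat n} (hw : wᵀ = -w) (m : ℝ) :
    0 ≤ 2 * rq (kn (A * A) 1) w + 2 * rq (kn A A) w + 4 * m * rq (kn A 1) w +
      m ^ 2 * rq (kn 1 1) w := by
  have hAA : (A * A).IsSymm := by rw [IsSymm, transpose_mul, hA.eq]
  have h := nsr_nonneg (cm A * w + w * cm A + (m : ℂ) • w)
  have e := congrArg Complex.re (MP_3a9764_gt.T.nsr_eq (cm A * w + w * cm A + (m : ℂ) • w))
  have e1 := rq_kn hAA isSymm_one hw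
  have e2 := rq_kn isSymm_one hAA hw
  have e3 := rq_kn hA hA hw
  have e4 := rq_kn hA isSymm_one hw
  have e5 := rq_kn isSymm_one hA hw
  have e6 := rq_kn isSymm_one isSymm_one hw
  rw [kn_comm] at e2 e5
  simp only [cm_one, cm_mul, Matrix.mul_one, Matrix.one_mul, Matrix.mul_assoc] at e1 e2 e3 e4 e5 e6
  simp only [Complex.ofReal_re, conjTranspose_add, conjTranspose_mul, conjTranspose_smul,
    cm_herm hA, add_mul, mul_add, Matrix.smul_mul, Matrix.mul_smul, trace_add, trace_smul,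
    Complex.add_re, smul_eq_mul, RCLike.star_def, Complex.conj_ofReal, Complex.re_ofReal_mul,
    Matrix.mul_assoc] at e
  have k1 := trace_mul_comm (cm A * w * wᴴ) (cm A)
  have k2 := trace_mul_comm (w * cm A * wᴴ) (cm A)
  have k3 := trace_mul_comm (w * wᴴ) (cm A)
  simp only [Matrix.mul_assoc] at k1 k2 k3
  rw [k1, k2, k3, ← e1, ← e2, ← e3, ← e4, ← e5, ← e6] at e
  linarith only [h, e]

theorem n8b_skew {q : ℕ} (Z : Matrix (Fin n) (Fin q) ℂ) {B : CMat q} (hB : Bᵀ = -B) :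
    (Z * B * Zᵀ)ᵀ = -(Z * B * Zᵀ) := by
  simp only [transpose_mul, transpose_transpose, hB, Matrix.neg_mul, Matrix.mul_neg,
    Matrix.mul_assoc]

theorem n8b_iso {q : ℕ} {Z : Matrix (Fin n) (Fin q) ℂ} (h0 : Zᵀ * Z = 0) (c d : Fin q → ℂ) :
    (Z *ᵥ c) ⬝ᵥ (Z *ᵥ d) = 0 := by
  rw [dotProduct_mulVec, vecMul_mulVec, h0, vecMul_zero, zero_dotProduct]

theorem n8b_D {S : T4 8} (hS : IsCurv S)
    (h : ∀ z : Fin 8 → ℂ, z ⬝ᵥ z = 0 → 0 ≤ (hf (ric4 S) z z).re + 1 / 32 * lb S * nv z) {q : ℕ}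
    {Z : Matrix (Fin 8) (Fin q) ℂ} (h0 : Zᵀ * Z = 0) {B : CMat q} (hB : Bᵀ = -B) :
    0 ≤ rq (DD (1 / 8) S) (Z * B * Zᵀ) := by
  have hA := ric0_isSymm hS
  have hw := n8b_skew Z hB
  have e : ric4 S = ric0 S + lb S • (1 : Mat 8) := (sub_add_cancel _ _).symm
  have k1 := n8b_psd ((ric4_isSymm hS).add (isSymm_one.smul (1 / 32 * lb S))) hB (Z := Z)
    fun c => (h _ (n8b_iso h0 c c)).trans_eq (by
      simp only [hf, nv, Matrix.add_apply, Matrix.smul_apply, one_apply, smul_eq_mul, mul_ite,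
        mul_one, mul_zero, Complex.ofReal_add, add_mul, Finset.sum_add_distrib, Complex.add_re,
        apply_ite Complex.ofReal, ite_mul, Complex.ofReal_zero, zero_mul, Finset.sum_ite_eq,
        Finset.mem_univ, if_true, Complex.re_sum, mul_assoc, Complex.re_ofReal_mul,
        Complex.mul_conj, Complex.ofReal_re, Finset.mul_sum])
  have k2 := n8b_sq hA hw (11 / 16 * lb S)
  have k3 : 0 ≤ rq (Id4 8) (Z * B * Zᵀ) := by
    rw [rq_Id4 hw]
    exact div_nonneg (nsq_nonneg _) zero_le_two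
  have k4 := mul_nonneg (sg_nonneg hS) k3
  have k5 := mul_nonneg (sq_nonneg (lb S)) k3
  rw [DD, e]
  rw [e] at k1
  simp only [kn_add_left, kn_add_right, kn_smul_left, kn_smul_right, kn_comm 1 (ric0 S),
    kn_one_one, rq_add, rq_smul, aa, cc, Nat.cast_ofNat] at k1 k2 ⊢
  linarith only [k4, k5, k1, k2]

theorem n8b_dec {S : T4 N} (h2 : PICw S) {Z : Matrix (Fin N) (Fin 4) ℂ} (hZ : Zᵀ * Z = 0)
    {B : CMat 4} (hB : Bᵀ = -B) (h : pf4 B = 0) : 0 ≤ rq S (Z * B * Zᵀ) := by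
  by_cases h0 : B = 0
  · simp [h0, rq, cq]
  obtain ⟨p, q, hpq⟩ : ∃ p q, B p q ≠ 0 := by
    by_contra h1
    push Not at h1
    exact h0 (Matrix.ext h1)
  have e : B p q • (Z * B * Zᵀ) = wedge (Z *ᵥ B p) (Z *ᵥ B q) := by
    rw [← Matrix.smul_mul, ← Matrix.mul_smul, s4_plucker hB h]
    simp only [wedge, Matrix.mul_sub, Matrix.sub_mul, mul_vecMulVec, vecMulVec_mul,
      vecMul_transpose]
  have h3 := h2 (Z *ᵥ B p) (Z *ᵥ B q) (n8b_iso hZ _ _) (n8b_iso hZ _ _) (n8b_iso hZ _ _)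
  rw [← e, rq_smul_right] at h3
  exact nonneg_of_mul_nonneg_right h3 (Complex.normSq_pos.2 hpq)

theorem n8b_start {S : T4 N} (hS : IsOp S) (h2 : PICw S) {M : ℝ} (hM : ∀ v, |rq S v| ≤ M * nsq v)
    {Z : Matrix (Fin N) (Fin 4) ℂ} (h0 : Zᵀ * Z = 0) (h1 : Zᴴ * Z = 1) {B : CMat 4}
    (hB : Bᵀ = -B) : 0 ≤ rq S (Z * B * Zᵀ) + 4 * M * penK 1 Z (Z * B * Zᵀ) := by
  obtain ⟨D, hD, p1, p2, p3⟩ := s4_pf_sym B
  have e : penK 1 Z (Z * B * Zᵀ) = ‖pf4 B‖ := by
    rw [penK, pow_one, Matrix.mul_assoc, Matrix.mul_assoc, unit_conj h1, Matrix.mul_one,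
      ← Matrix.mul_assoc, h1, Matrix.one_mul, s4_det hB, norm_pow, ← Real.rpow_natCast,
      ← Real.rpow_mul (norm_nonneg _)]
    norm_num
  have k := s4_sym hS hM (w := Z * B * Zᵀ) (y := Z * D * Zᵀ)
    (by rw [← Matrix.add_mul, ← Matrix.mul_add]
        exact n8b_dec h2 h0 (by rw [transpose_add, hB, hD, neg_add]) p1)
    (by rw [← Matrix.sub_mul, ← Matrix.mul_sub]
        exact n8b_dec h2 h0 (by rw [transpose_sub, hB, hD, neg_sub_neg, neg_sub]) p2)
  rw [s4_nsq_unit h1, p3] at k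
  rw [e]
  linarith

/-- The pointwise inequality for a maximal isotropic subspace. -/
theorem n8b_core {S : T4 8} (hS : IsCurv S) {V : Matrix (Fin 8) (Fin 4) ℂ} (hV0 : Vᵀ * V = 0)
    (hV1 : Vᴴ * V = 1) {w : CMat 8} (hw : wᵀ = -w) {c t : ℝ} (hc : 0 < c) (ht : t = 1 / 2)
    (H1 : ∀ X : CMat 8, Xᵀ = -X → cq S (X * w - w * X) w / 4 = -(c * t) * (Vᴴ * X * V).trace)
    (H2 : ∀ (X : CMat 8) (Y : Matrix (Fin 8) (Fin 4) ℂ), Xᵀ = -X → Yᵀ * V = 0 →
      0 ≤ rq S (X * w - w * X + (V * Yᵀ - Y * Vᵀ)) +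
        Complex.normSq (cq S (X * w - w * X + (V * Yᵀ - Y * Vᵀ)) w / 4) / c +
        c * t * nsr ((1 - V * Vᴴ) * X * V)) :
    -(c * (scal4 S / 8)) ≤ rq (Qq4 S) w := by
  refine le_trans ?_ (pen_exact hS hV1 hw hc H1 H2)
  have a5 := nsr_block_le hV1 ((cop S w).map conj)
  have e : midP V = 0 := by
    rw [midP, ← complete_even (r := 4) hV0 hV1, add_sub_cancel_left, sub_eq_zero]
    conv_rhs => rw [← proj_herm]
    rfl
  have e0 : ∀ X, bt S X 0 = 0 := fun X => by simp [bt]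
  rw [nsq_conj] at a5
  rw [scal4_eq_bt hS.isOp V, e, e0, e0, ht, Complex.zero_re]
  linarith only [a5]

/-- The square-zero cone for the inverse image under the Boehm-Wilking map. -/
theorem n8_T0 {W : ℝ → Set (T4 8)} (hW : CurvFlow 8 T W)
    (h : AsymP T W fun R => Gb (1 / 8) (1 / 32) R ∧ PICw R) :
    AsymP T W fun R => Pos 4 (fun _ _ => True) (linv (1 / 8) R) := by
  let F : T4 8 →ₗ[ℝ] T4 8 := IsLinearMap.mk' _ (isLinearMap_linv (1 / 8))
  have hc : Continuous fun p : Matrix (Fin 8) (Fin 4) ℂ × CMat 8 => penK 1 p.1 p.2 :=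
    continuous_penK 1
  have hs : ∀ R : T4 8, scal4 (linv (1 / 8) R) = 32 / 109 * scal4 R := fun R => by
    rw [scal4_eq (by norm_num), scal4_eq (by norm_num) R, lb_linv (b := 1 / 8) (by norm_num)
      (by norm_num) R, aa]
    push_cast
    ring
  obtain ⟨C, hC⟩ := shift_bound (by norm_num) F (fun R hR => isCurv_linv hR _)
    fun _ _ : Fin 4 => True
  obtain ⟨M, hM⟩ := (isCompact_TK 8 fun _ _ : Fin 4 => True).exists_bound_of_continuousOn
    hc.continuousOn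
  refine rat_XS (pen := fun Z w => penK 1 Z w) hW h
    (fun R hR h => h.2.scal_pos (by norm_num) hR) F hc
    (fun _ _ => penK_nonneg _ _ _) (fun Z c w => penK_smul (by norm_num) _ _ _) (β := 4 * 8 ^ 3)
    (κ := 1 / 16) (C := C + 7 * (4 * 8 ^ 3 * M)) (by norm_num) (by norm_num)
    (fun R hR h Z w h0 h1 hw => ?_) fun η hη s hs' R hR h hne hall Z w hp hact hpos => ?_
  · obtain ⟨B, hB, rfl⟩ := s4_max h0 h1 hw
    have hS := isCurv_linv hR (1 / 8)
    have k := n8b_start hS.isOp h.1.1 (s3_rq_le (by norm_num) hS h.1.1) h0 h1 hB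
    have k1 := mul_nonneg (h.2.scal_ge (by norm_num) hR) (penK_nonneg 1 Z (Z * B * Zᵀ))
    rw [hs, Nat.cast_ofNat] at k
    change 0 ≤ rq (linv (1 / 8) R) _ + _
    linarith only [k, k1]
  · have a0 := h.2.scal_pos (by norm_num) hR hne
    have hS : IsCurv (F R + (η * scal4 R) • Id4 8) := (isCurv_linv hR _).add_Id4 _
    obtain ⟨H1, H2⟩ := pen_var (k := 1) hS.isOp le_rfl (by norm_num)
      (fun Z U w _ => s4_hU_true Z U w) (fun _ j _ _ => j.2) (fun Z w h0 h1 hw => by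
        obtain ⟨B, -, rfl⟩ := s4_max h0 h1 hw
        exact ⟨B, pow_one _⟩) (mul_pos hs'.1 a0) hall hp.1 hp.2.1 hp.2.2.1 hact hpos
    have a1 := n8b_core hS hp.1 hp.2.1 hp.2.2.1.skew (mul_pos (mul_pos hs'.1 a0) hpos)
      (by norm_num) H1 H2
    have a2 := hC R hR h.2 η hη Z w hp
    have a3 : scal4 (F R) = 32 / 109 * scal4 R := hs R
    have a4 : F (Qq4 R) = Qq4 (F R) + DD (1 / 8) (F R) := linv_Qq4 (by norm_num) (by norm_num) hR
    have a5 := scal4_Qq4_ge (by norm_num) hR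
    have a6 := mul_pos hs'.1 hpos
    have a7 := mul_le_mul_of_nonneg_right a5 (add_pos hη.1 a6).le
    have a8 : 0 ≤ scal4 R ^ 2 * η := mul_nonneg (by positivity) hη.1.le
    have a9 : s * penK 1 Z w ≤ 4 * 8 ^ 3 * M :=
      mul_le_mul hs'.2 (Real.le_norm_self _ |>.trans (hM (Z, w) hp)) hpos.le (by norm_num)
    have b1 := mul_le_mul_of_nonneg_right a9 a8
    have b2 : 0 ≤ rq (DD (1 / 8) (F R)) w := by
      obtain ⟨B, hB, e⟩ := s4_max hp.1 hp.2.1 hp.2.2.1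
      exact (n8b_D (isCurv_linv hR _) h.1.2 hp.1 hB).trans_eq (congrArg _ e.symm)
    have b3 := mul_pos (pow_pos a0 2) a6
    rw [scal4_add_Id4, a3] at a1
    rw [a4, rq_add]
    rw [Nat.cast_ofNat] at a1 a7
    linarith only [a1, a2, a7, a8, b1, b2, b3]

end

end Pool.Agent.Work.MP_3a9764_gt
end
end

-- merged part: Pool.Agent.Work.MP_3a9764_gt.N8E
section
-- merged part: Pool.Agent.Work.MP_3a9764_gt.N8E
section
/-! The extension cones in dimension eight. -/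

set_option autoImplicit false

open Filter Set Matrix
open scoped Topology ComplexConjugate

namespace Pool.Agent.Work.MP_3a9764_gt

noncomputable section

variable {n : ℕ}

/-- The bivector `w + v ∧ e` on the space with one more dimension has square zero. -/
def T321 (w : CMat n) (v : Fin n → ℂ) : Prop :=
  wᵀ = -w ∧ w * w = vecMulVec v v ∧ w *ᵥ v = 0 ∧ v ⬝ᵥ v = 0

/-- Non-negativity of the extension of `linv b R` by `α Ric` on bivectors of square zero. -/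
def ExtN (b α : ℝ) (R : T4 n) : Prop :=
  ∀ (w : CMat n) (v : Fin n → ℂ), T321 w v →
    0 ≤ rq (linv b R) w + α * (hf (ric4 (linv b R)) v v).re

/-- Non-negativity on the closure of the orbit of type `[3, 2, 2, 1]`. -/
def P321 (R : T4 n) : Prop := ∀ (w : CMat n) (v : Fin n → ℂ), T321 w v → 0 ≤ rq R w

end

end Pool.Agent.Work.MP_3a9764_gt
end

-- merged part: Pool.Agent.Work.MP_3a9764_gt.N8S
section
/-! Definitions for the chain in dimension eight. -/

set_option autoImplicit false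

open Filter Set Matrix
open scoped Topology ComplexConjugate

namespace Pool.Agent.Work.MP_3a9764_gt

noncomputable section

variable {N : ℕ} {T : ℝ} {W : ℝ → Set (T4 8)}

/-- The pattern of the type `[4, 4]`. -/
def pat3 (i j : Fin 4) : Prop := 2 ≤ (i : ℕ) ∨ (j : ℕ) < 2

/-- The pattern of the type `[5, 3]`. -/
def pat4 (i j : Fin 3) : Prop := i ≠ 0 ∨ j = 0

/-- The standing hypotheses of the chain. -/
def H8 (R : T4 8) : Prop := G1 R ∧ PIC2w R

end

end Pool.Agent.Work.MP_3a9764_gt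
end

-- merged part: Pool.Agent.Work.MP_3a9764_gt.N8T3a
section
/-! The starting estimate for the orbit of type `[4, 4]`. -/

set_option autoImplicit false

open Filter Set Matrix
open scoped Topology ComplexConjugate

namespace Pool.Agent.Work.MP_3a9764_gt

noncomputable section

variable {N : ℕ}

/-- A Hermitian form which is non-negative on three hyperplanes. -/
theorem n8_th3 {S : T4 N} (hS : IsOp S) {M : ℝ} (hM0 : 0 ≤ M) (hM : ∀ v, rq S v ≤ M * nsq v)
    {w P Q U : CMat N} (n1 : nsq P ≤ 4) (n2 : nsq Q ≤ 4) (n3 : nsq U ≤ 4)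
    (key : ∀ s t₁ t₂ t₃ : ℂ, t₁ = 0 ∨ t₂ = 0 ∨ t₃ = 0 →
      0 ≤ rq S (s • w + t₁ • P + t₂ • Q + t₃ • U)) (A B C : ℂ) {p : ℝ} (hp : 0 ≤ p)
    (h3 : p ^ 3 = ‖A * B * C‖ ^ 2) : 0 ≤ rq S (w + A • P + B • Q + C • U) + 16 * M * p := by
  have k1 := s4c_th hS hM0 hM (u := w + C • U) n1 n2
    (fun s t => by convert key s t 0 (s * C) (by simp) using 2; module)
    (fun s t => by convert key s 0 t (s * C) (by simp) using 2; module) A B
  have k2 := s4c_th hS hM0 hM (u := w + A • P) n2 n3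
    (fun s t => by convert key s (s * A) t 0 (by simp) using 2; module)
    (fun s t => by convert key s (s * A) 0 t (by simp) using 2; module) B C
  have k3 := s4c_th hS hM0 hM (u := w + B • Q) n1 n3
    (fun s t => by convert key s t (s * B) 0 (by simp) using 2; module)
    (fun s t => by convert key s 0 (s * B) t (by simp) using 2; module) A C
  rw [show w + C • U + A • P + B • Q = w + A • P + B • Q + C • U by abel, norm_mul] at k1
  rw [norm_mul] at k2
  rw [show w + B • Q + A • P + C • U = w + A • P + B • Q + C • U by abel, norm_mul] at k3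
  rw [norm_mul, norm_mul] at h3
  rcases s4d_min (A := ‖A‖) (B := ‖B‖) (C := ‖C‖) hp (by rw [h3]; ring) with k | k | k <;>
    linarith only [k1, k, hM0, k2, k3, mul_le_mul_of_nonneg_left k hM0]

theorem n8_unit_wedge {a b : Fin N → ℂ} (ha : star a ⬝ᵥ a = 1) (hb : star b ⬝ᵥ b = 1) :
    nsq (wedge a b) ≤ 4 ∧ nsq (wedge a (star b)) ≤ 4 :=
  ⟨by simpa [s3_nv_one ha, s3_nv_one hb] using s3_nsq_wedge a b,
    by simpa [s3_nv_star, s3_nv_one ha, s3_nv_one hb] using s3_nsq_wedge a (star b)⟩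

theorem t3_pow {a b c d x y : Fin N → ℂ} (hF : Fr4 a b c d) (xa : x ⬝ᵥ a = 0) (xb : x ⬝ᵥ b = 0)
    (ya : y ⬝ᵥ a = 0) (yb : y ⬝ᵥ b = 0) (ξ : ℂ) :
    (wedge a x + wedge b y + ξ • wedge c d) ^ 3 =
      (-(ξ * (x ⬝ᵥ c * y ⬝ᵥ d - x ⬝ᵥ d * y ⬝ᵥ c))) • wedge a b := by
  obtain ⟨w, hw⟩ : ∃ w, w = wedge a x + wedge b y + ξ • wedge c d := ⟨_, rfl⟩
  have e : ∀ v, w *ᵥ v = (x ⬝ᵥ v) • a - (a ⬝ᵥ v) • x + ((y ⬝ᵥ v) • b - (b ⬝ᵥ v) • y) +
      ξ • ((d ⬝ᵥ v) • c - (c ⬝ᵥ v) • d) := fun v => by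
    simp only [hw, wedge, add_mulVec, sub_mulVec, smul_mulVec, vecMulVec_mulVec, op_smul_eq_smul]
  have wa : w *ᵥ a = 0 := by simp [e, xa, ya, hF.aa, hF.ba, hF.ca, hF.da]
  have wb : w *ᵥ b = 0 := by simp [e, xb, yb, hF.ab, hF.bb, hF.cb, hF.db]
  have wc : w *ᵥ c = (x ⬝ᵥ c) • a + (y ⬝ᵥ c) • b := by simp [e, hF.ac, hF.bc, hF.cc, hF.dc]
  have wd : w *ᵥ d = (x ⬝ᵥ d) • a + (y ⬝ᵥ d) • b := by simp [e, hF.ad, hF.bd, hF.cd, hF.dd]
  have wy : w *ᵥ y = (x ⬝ᵥ y) • a + (y ⬝ᵥ y) • b + ξ • ((y ⬝ᵥ d) • c - (y ⬝ᵥ c) • d) := by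
    simp [e, ya, yb, dotProduct_comm a y, dotProduct_comm b y, dotProduct_comm c y,
      dotProduct_comm d y]
  have wx : w *ᵥ x = (x ⬝ᵥ x) • a + (y ⬝ᵥ x) • b + ξ • ((x ⬝ᵥ d) • c - (x ⬝ᵥ c) • d) := by
    simp [e, xa, xb, dotProduct_comm a x, dotProduct_comm b x, dotProduct_comm c x,
      dotProduct_comm d x]
  rw [← hw, show w ^ 3 = w * w * (wedge a x + wedge b y + ξ • wedge c d) by
    rw [← hw]; noncomm_ring]
  simp only [wedge, mul_add, mul_sub, Matrix.mul_smul, mul_vecMulVec, ← mulVec_mulVec, wa, wb, wc,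
    wd, wy, wx, mulVec_add, mulVec_sub, mulVec_smul, mulVec_zero, smul_zero, add_zero, zero_add,
    sub_zero, zero_sub, zero_vecMulVec]
  ext i j
  simp [vecMulVec_apply]
  ring

variable {S : T4 8} {a b c d x y : Fin 8 → ℂ}

theorem t3_nf (hF : Fr4 a b c d) {u v : Fin 8 → ℂ} (xa : x ⬝ᵥ a = 0) (xb : x ⬝ᵥ b = 0)
    (ya : y ⬝ᵥ a = 0) (yb : y ⬝ᵥ b = 0) (ua : u ⬝ᵥ a = 0) (ub : u ⬝ᵥ b = 0) (uc : u ⬝ᵥ c = 0)
    (ud : u ⬝ᵥ d = 0) (va : v ⬝ᵥ a = 0) (vb : v ⬝ᵥ b = 0) (vc : v ⬝ᵥ c = 0) (vd : v ⬝ᵥ d = 0) :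
    ∃ (x' y' : Fin 8 → ℂ) (ξ : ℂ), x' ⬝ᵥ a = 0 ∧ x' ⬝ᵥ b = 0 ∧ y' ⬝ᵥ a = 0 ∧ y' ⬝ᵥ b = 0 ∧
      wedge a x + wedge b y + wedge c u + wedge d v = wedge a x' + wedge b y' + ξ • wedge c d := by
  obtain ⟨u1, u2, u3, u4, rfl⟩ := hF.mem ua ub uc ud
  obtain ⟨v1, v2, v3, v4, rfl⟩ := hF.mem va vb vc vd
  refine ⟨x - u1 • c - v1 • d, y - u2 • c - v2 • d, u4 - v3, by simp [xa, hF.ca, hF.da],
    by simp [xb, hF.cb, hF.db], by simp [ya, hF.ca, hF.da], by simp [yb, hF.cb, hF.db], ?_⟩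
  ext i j
  simp only [wedge, vecMulVec_apply, Matrix.add_apply, Matrix.sub_apply, Matrix.smul_apply,
    Pi.add_apply, Pi.sub_apply, Pi.smul_apply, smul_eq_mul]
  ring

theorem t3_det0 (h2 : PIC2w S) (h : Pos 2 (fun _ _ => True) S) (hF : Fr4 a b c d)
    (xa : x ⬝ᵥ a = 0) (ya : y ⬝ᵥ a = 0) (yb : y ⬝ᵥ b = 0) (yc : y ⬝ᵥ c = 0) (yd : y ⬝ᵥ d = 0)
    (ξ : ℂ) : 0 ≤ rq S (wedge a x + wedge b y + ξ • wedge c d) := by
  obtain ⟨y1, y2, y3, y4, hy⟩ := hF.mem ya yb yc yd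
  by_cases hξ : ξ = 0
  · rw [hξ, zero_smul, add_zero]
    refine s4c_iso h2 h hF.aa hF.saa hF.ab hF.sab hF.bb xa ya yb ?_
    conv_lhs => enter [2]; rw [hy]
    simp [ya, yb, yc, yd]
  have k := s4c_iso h2 h (b := c + (y4 / ξ) • b) (x := x - y1 • b) (y := ξ • d - y3 • b)
    hF.aa hF.saa (by simp [hF.ab, hF.ac]) (by simp [hF.sab, hF.sac])
    (by simp [hF.bb, hF.bc, hF.cb, hF.cc]) (by simp [xa, hF.ba]) (by simp [hF.da, hF.ba])
    (by simp [hF.db, hF.dc, hF.bb, hF.bc]) (by simp [hF.db, hF.dd, hF.bb, hF.bd])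
  convert k using 2
  ext i j
  simp only [hy, wedge, vecMulVec_apply, Matrix.add_apply, Matrix.sub_apply, Matrix.smul_apply,
    Pi.add_apply, Pi.sub_apply, Pi.smul_apply, smul_eq_mul]
  field_simp
  ring

theorem t3_det1 (h2 : PIC2w S) (h : Pos 2 (fun _ _ => True) S) (hF : Fr4 a b c d)
    (xa : x ⬝ᵥ a = 0) (xb : x ⬝ᵥ b = 0) (xc : x ⬝ᵥ c = 0) (ya : y ⬝ᵥ a = 0) (yb : y ⬝ᵥ b = 0)
    (yc : y ⬝ᵥ c = 0) (ξ : ℂ) : 0 ≤ rq S (wedge a x + wedge b y + ξ • wedge c d) := by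
  obtain ⟨α, β, k1, k2⟩ := s3_perp2 (y ⬝ᵥ d) (-(x ⬝ᵥ d))
  have k := t3_det0 h2 h (hF.rot01 k1) (x := conj α • x + conj β • y) (y := -β • x + α • y)
    (by simp [*]) (by simp [*]) (by simp [*]) (by simp [*]) (by
      simp only [add_dotProduct, smul_dotProduct, smul_eq_mul]
      linear_combination k2) ξ
  rwa [s3_rot a b x y k1] at k

theorem t3_start0 (hS : IsOp S) {M : ℝ} (hM0 : 0 ≤ M) (hM : ∀ v, rq S v ≤ M * nsq v)
    (h2 : PIC2w S) (h : Pos 2 (fun _ _ => True) S) (hF : Fr4 a b c d)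
    (xa : x ⬝ᵥ a = 0) (xb : x ⬝ᵥ b = 0) (ya : y ⬝ᵥ a = 0) (yb : y ⬝ᵥ b = 0) (yc : y ⬝ᵥ c = 0)
    (ξ : ℂ) {p : ℝ} (hp : 0 ≤ p) (h3 : p ^ 3 = ‖x ⬝ᵥ c * y ⬝ᵥ d * ξ‖ ^ 2) :
    0 ≤ rq S (wedge a x + wedge b y + ξ • wedge c d) + 16 * M * p := by
  have sca := hF.sca
  have scb := hF.scb
  have scc := hF.scc
  have sda := hF.sda
  have sdb := hF.sdb
  have sdc := hF.sdc
  have sdd := hF.sdd
  obtain ⟨A, hA⟩ : ∃ A, x ⬝ᵥ c = A := ⟨_, rfl⟩
  obtain ⟨B, hB⟩ : ∃ B, y ⬝ᵥ d = B := ⟨_, rfl⟩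
  obtain ⟨w, hw⟩ : ∃ w, w = wedge a (x - A • star c) + wedge b (y - B • star d) := ⟨_, rfl⟩
  have e1 : ∀ s t₁ t₂ t₃ : ℂ, s • w + t₁ • wedge a (star c) + t₂ • wedge b (star d) +
      t₃ • wedge c d = wedge a (s • (x - A • star c) + t₁ • star c) +
      wedge b (s • (y - B • star d) + t₂ • star d) + t₃ • wedge c d :=
    fun s t₁ t₂ t₃ => by
      ext i j
      simp only [hw, wedge, vecMulVec_apply, Matrix.add_apply, Matrix.sub_apply, Matrix.smul_apply,
        Pi.add_apply, Pi.sub_apply, Pi.smul_apply, smul_eq_mul]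
      ring
  have k := n8_th3 hS hM0 hM (w := w) (n8_unit_wedge hF.saa scc).2 (n8_unit_wedge hF.sbb sdd).2
    (n8_unit_wedge scc sdd).1 (fun s t₁ t₂ t₃ ht => by
      rw [e1]
      rcases ht with rfl | rfl | rfl
      · exact t3_det1 h2 h hF (by simp [*]) (by simp [*]) (by simp [*]) (by simp [*])
          (by simp [*]) (by simp [*]) _
      · exact t3_det0 h2 h hF (by simp [*]) (by simp [*]) (by simp [*]) (by simp [*])
          (by simp [*]) _
      · rw [zero_smul, add_zero]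
        exact s4c_two h2 h hF.aa hF.saa hF.ab hF.sab hF.bb (by simp [*]) (by simp [*])
          (by simp [*]) (by simp [*])) A B ξ hp (by rw [h3, hA, hB])
  have e2 := e1 1 A B ξ
  simp only [one_smul, sub_add_cancel] at e2
  rwa [e2] at k

theorem t3_start (hS : IsOp S) {M : ℝ} (hM0 : 0 ≤ M) (hM : ∀ v, rq S v ≤ M * nsq v)
    (h2 : PIC2w S) (h : Pos 2 (fun _ _ => True) S) (hF : Fr4 a b c d)
    (xa : x ⬝ᵥ a = 0) (xb : x ⬝ᵥ b = 0) (ya : y ⬝ᵥ a = 0) (yb : y ⬝ᵥ b = 0)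
    (ξ : ℂ) {p : ℝ} (hp : 0 ≤ p)
    (h3 : p ^ 3 = ‖ξ * (x ⬝ᵥ c * y ⬝ᵥ d - x ⬝ᵥ d * y ⬝ᵥ c)‖ ^ 2) :
    0 ≤ rq S (wedge a x + wedge b y + ξ • wedge c d) + 16 * M * p := by
  obtain ⟨α, β, k1, k2⟩ := s3_perp2 (y ⬝ᵥ c) (y ⬝ᵥ d)
  have k := t3_start0 hS hM0 hM h2 h (hF.rot23 k1) xa xb ya yb (by simpa using k2) ξ hp (by
    rw [h3]
    congr 2
    simp only [dotProduct_add, dotProduct_smul, smul_eq_mul]
    linear_combination (-(ξ * (x ⬝ᵥ c * y ⬝ᵥ d - x ⬝ᵥ d * y ⬝ᵥ c))) * k1 +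
      (-ξ * (-conj β * x ⬝ᵥ c + conj α * x ⬝ᵥ d)) * k2)
  have e : wedge (α • c + β • d) (-conj β • c + conj α • d) = wedge c d := by
    ext i j
    simp only [wedge, vecMulVec_apply, Matrix.sub_apply, Pi.add_apply, Pi.smul_apply, smul_eq_mul]
    linear_combination (c i * d j - d i * c j) * k1
  rwa [e] at k

end

end Pool.Agent.Work.MP_3a9764_gt
end

-- merged part: Pool.Agent.Work.MP_3a9764_gt.N8T3b
section
/-! The step of type `[4, 4]`. -/

set_option autoImplicit false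

open Filter Set Matrix
open scoped Topology ComplexConjugate

namespace Pool.Agent.Work.MP_3a9764_gt

noncomputable section

variable {N : ℕ} {T : ℝ} {W : ℝ → Set (T4 8)}

theorem t3_cols (h : 2 ≤ 4) (Z : Matrix (Fin N) (Fin 4) ℂ) (t : ℂ) :
    t • wedge (fun i => Z i 0) (fun i => Z i 1) =
      cols h Z * (!![0, t; -t, 0] : CMat 2) * (cols h Z)ᵀ := by
  ext i j
  simp only [cols, wedge, Matrix.smul_apply, Matrix.sub_apply, vecMulVec_apply, Matrix.mul_apply,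
    Fin.sum_univ_two, submatrix_apply, transpose_apply, of_apply, smul_eq_mul, id, cons_val',
    cons_val_zero, cons_val_one, cons_val_fin_one]
  change t * (Z i 0 * Z j 1 - Z i 1 * Z j 0) =
    (Z i 0 * 0 + Z i 1 * -t) * Z j 0 + (Z i 0 * t + Z i 1 * 0) * Z j 1
  ring

theorem n8_T3 (hW : CurvFlow 8 T W) (h : AsymP T W fun R => H8 R ∧ Pos 2 (fun _ _ => True) R) :
    AsymP T W (Pos 4 pat3) := by
  have nf := fun (Z C : Matrix (Fin 8) (Fin 4) ℂ) (h0 : Zᵀ * Z = 0) (h1 : Zᴴ * Z = 1)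
      (hC : ∀ i j, pat3 i j → (Cᵀ * Z) i j = 0) => t3_nf ((fr_iff Z).1 ⟨h0, h1⟩).fr4
    (x := fun i => C i 0) (y := fun i => C i 1) (u := fun i => C i 2) (v := fun i => C i 3)
    (hC 0 0 (.inr (by decide))) (hC 0 1 (.inr (by decide))) (hC 1 0 (.inr (by decide)))
    (hC 1 1 (.inr (by decide))) (hC 2 0 (.inl (by decide))) (hC 2 1 (.inl (by decide)))
    (hC 2 2 (.inl (by decide))) (hC 2 3 (.inl (by decide))) (hC 3 0 (.inl (by decide)))
    (hC 3 1 (.inl (by decide))) (hC 3 2 (.inl (by decide))) (hC 3 3 (.inl (by decide)))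
  refine pen8 hW (r := 2) (k := 3) (by norm_num) (.inl le_rfl) pat3 ?_
    (fun i j h1 h2 => h1.resolve_left (by omega)) ?_
    (h.mono fun R _ h => ⟨h.1.1, h.1.2, h.2⟩) (β := 16) ?_
  · rintro Z U w hU hd ⟨C, rfl, hC⟩
    obtain ⟨e1, e2⟩ := xs_frame (Z := Z) (C := C) hd
    refine ⟨_, e1, fun i j hij => ?_⟩
    rw [e2, mul_apply]
    refine Finset.sum_eq_zero fun l _ => ?_
    by_cases hl : j < l
    · rw [tri_inv hU hd hl, mul_zero]
    rw [mul_apply, Finset.sum_eq_zero, zero_mul]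
    intro m _
    by_cases hm : m < i
    · rw [hU hm, zero_mul]
    rw [hC m l, mul_zero]
    rw [not_lt, Fin.le_def] at hl hm
    exact hij.imp (fun k => k.trans hm) fun k => hl.trans_lt k
  · rintro Z w h0 h1 ⟨C, rfl, hC⟩
    obtain ⟨x, y, ξ, xa, xb, ya, yb, e⟩ := nf Z C h0 h1 hC
    rw [s3_sum, Fin.sum_univ_four, e, t3_pow ((fr_iff Z).1 ⟨h0, h1⟩).fr4 xa xb ya yb]
    exact ⟨_, t3_cols _ Z _⟩
  · rintro S M hS h2 h3 hM0 hM - Z w h0 h1 ⟨C, rfl, hC⟩
    obtain ⟨x, y, ξ, xa, xb, ya, yb, e⟩ := nf Z C h0 h1 hC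
    have hF := ((fr_iff Z).1 ⟨h0, h1⟩).fr4
    rw [s3_sum, Fin.sum_univ_four, e,
      s4c_pen (cols_unit _ h1) ((t3_pow hF xa xb ya yb ξ).trans (t3_cols _ Z _))]
    refine t3_start hS.isOp hM0 (fun v => (le_abs_self _).trans (hM v)) h2 h3 hF xa xb ya yb ξ
      (by positivity) ?_
    rw [← Real.rpow_natCast _ 3, ← Real.rpow_mul (norm_nonneg _),
      show (2 : ℝ) / ((2 : ℕ) * (3 : ℕ)) * (3 : ℕ) = 1 by norm_num, Real.rpow_one, det_fin_two_of,
      ← norm_pow]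
    congr 1
    ring

end

end Pool.Agent.Work.MP_3a9764_gt
end

-- merged part: Pool.Agent.Work.MP_3a9764_gt.N8Ia
section
/-! Real skew matrices and isotropic flags. -/

set_option autoImplicit false

open Filter Set Matrix
open scoped Topology ComplexConjugate

namespace Pool.Agent.Work.MP_3a9764_gt

noncomputable section

variable {N : ℕ}

/-- A real skew matrix preserves a maximal isotropic flag. -/
theorem n8_flag {r : ℕ} (hr : 2 * r ≤ N) (hr' : N ≤ 2 * r + 1) (φ : Mat N)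
    (hφ : ∀ i j, φ j i = -φ i j) : ∃ Z : Matrix (Fin N) (Fin r) ℂ, Zᵀ * Z = 0 ∧ Zᴴ * Z = 1 ∧
      XS (fun i j => j < i) Z (φ.map fun x => (x : ℂ)) := by
  classical
  set Φ : CMat N := φ.map fun x => (x : ℂ) with hΦ
  have t1 : Φᵀ = -Φ := by
    ext i j
    simp [hΦ, hφ i j]
  have t2 : Φ.map conj = Φ := by
    ext i j
    simp [hΦ]
  obtain ⟨U, l, u1, u2, hU⟩ := fr_spec (H := Complex.I • Φ) (by
    ext i j
    simp [hΦ, hφ i j])
  have s1 : ∀ j k, (Uᵀ * U) j k * (l j + l k : ℝ) = 0 := fun j k => by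
    have e1 : Uᵀ * ((Complex.I • Φ) * U) = -(((Complex.I • Φ) * U)ᵀ * U) := by
      rw [transpose_mul, transpose_smul, t1, smul_neg, Matrix.mul_neg, Matrix.neg_mul, neg_neg,
        Matrix.mul_assoc]
    rw [hU, transpose_mul, diagonal_transpose, ← Matrix.mul_assoc, Matrix.mul_assoc (diagonal _)]
      at e1
    have e2 := congrFun (congrFun e1 j) k
    rw [mul_diagonal, Matrix.neg_apply, diagonal_mul] at e2
    push_cast
    linear_combination e2
  have s2 : ∀ j k, (Uᵀ * U) j k ≠ 0 → l j + l k = 0 := fun j k h => by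
    exact_mod_cast (mul_eq_zero.1 (s1 j k)).resolve_left h
  let Dp : CMat N := diagonal fun j => ((max (l j) 0 : ℝ) : ℂ)
  let Dm : CMat N := diagonal fun j => ((max (-l j) 0 : ℝ) : ℂ)
  have s3 : Dp * (Uᵀ * U) = Uᵀ * U * Dm := by
    ext j k
    rw [diagonal_mul, mul_diagonal, mul_comm]
    by_cases h : (Uᵀ * U) j k = 0
    · rw [h, zero_mul, zero_mul]
    · rw [show l j = -l k by linarith only [s2, h, s2 j k h]]
  have u3 : U.map conj * Uᵀ = 1 := by
    have := congrArg transpose u2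
    rw [transpose_mul, transpose_one] at this
    exact this
  have s4 : U.map conj * Dp * Uᵀ = U * Dm * Uᴴ := by
    rw [← Matrix.mul_one (U.map conj * Dp * Uᵀ), ← u2, ← Matrix.mul_assoc,
      Matrix.mul_assoc _ Uᵀ, Matrix.mul_assoc _ Dp, s3, ← Matrix.mul_assoc, ← Matrix.mul_assoc,
      u3, Matrix.one_mul]
  have s5 : Complex.I • Φ = U * Dp * Uᴴ - U.map conj * Dp * Uᵀ := by
    rw [s4, ← Matrix.sub_mul, ← Matrix.mul_sub, diagonal_sub, ← Matrix.mul_one (Complex.I • Φ),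
      ← u2, ← Matrix.mul_assoc, hU]
    congr 3
    funext j
    rw [← Complex.ofReal_sub, max_zero_sub_max_neg_zero_eq_self]
  let S := Finset.univ.filter fun j => 0 < l j
  let g := S.orderEmbOfFin rfl
  have g1 : ∀ a, 0 < l (g a) := fun a => (Finset.mem_filter.1 (S.orderEmbOfFin_mem rfl a)).2
  have hF : Fr fun a i => U i (g a) := by
    refine ⟨fun a b => ?_, fun a b => ?_⟩
    · by_contra h
      linarith only [s2, h, g1, s2 (g a) (g b) h, g1 a, g1 b]
    · have := congrFun (congrFun u1 (g a)) (g b)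
      rw [Matrix.one_apply, if_congr g.injective.eq_iff rfl rfl] at this
      exact this
  have hd : S.card ≤ r := by
    have := fr_card_le _ (fr_dbl hF)
    rw [Fintype.card_sum, Fintype.card_fin] at this
    omega
  obtain ⟨z, k1, k2⟩ := fr_ext hd hr hF
  obtain ⟨c, hc⟩ := fr_pad hd fun a => (l (g a) : ℂ)
  obtain ⟨k3, k4⟩ := (fr_iff (Matrix.of z)ᵀ).2 k1
  have s6 : ∀ F : ℂ → ℂ → ℂ, ∀ i j, ∑ a, F (z a i) (z a j) * c a =
      ∑ k, F (U i k) (U j k) * ((max (l k) 0 : ℝ) : ℂ) := fun F i j => by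
    rw [hc fun a => F (z a i) (z a j)]
    refine Fintype.sum_of_injective g g.injective _ _ (fun k hk => ?_) fun a => ?_
    · have : ¬ 0 < l k := fun h => hk (by
        rw [Finset.range_orderEmbOfFin]
        exact Finset.mem_filter.2 ⟨Finset.mem_univ _, h⟩)
      rw [max_eq_right (not_lt.1 this), Complex.ofReal_zero, mul_zero]
    · rw [k2, max_eq_left (g1 a).le]
  refine ⟨(Matrix.of z)ᵀ, k3, k4, Matrix.of fun i a => -Complex.I * c a * conj (z a i), ?_,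
    fun a b hab => ?_⟩
  · ext i j
    have e1 := congrFun (congrFun s5 i) j
    have e2 := s6 (fun x y => x * conj y) i j
    have e3 := s6 (fun x y => conj x * y) i j
    simp only [Matrix.smul_apply, Matrix.sub_apply, Matrix.mul_apply (N := Uᴴ),
      Matrix.mul_apply (N := Uᵀ), Dp, mul_diagonal, conjTranspose_apply, transpose_apply,
      Matrix.map_apply, smul_eq_mul, Complex.star_def] at e1
    simp only [mul_right_comm _ _ ((max (l _) 0 : ℝ) : ℂ)] at e2 e3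
    rw [← e2, ← e3] at e1
    simp only [Matrix.sub_apply, Matrix.mul_apply, transpose_apply, of_apply]
    have e4 : ∑ a, z a i * (-Complex.I * c a * conj (z a j)) =
        -Complex.I * ∑ a, z a i * conj (z a j) * c a := by
      rw [Finset.mul_sum]
      exact Finset.sum_congr rfl fun a _ => by ring
    have e5 : ∑ a, -Complex.I * c a * conj (z a i) * z a j =
        -Complex.I * ∑ a, conj (z a i) * z a j * c a := by
      rw [Finset.mul_sum]
      exact Finset.sum_congr rfl fun a _ => by ring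
    rw [e4, e5]
    linear_combination -Complex.I * e1 + Φ i j * Complex.I_sq
  · have e1 := k1.2 a b
    rw [if_neg hab.ne'] at e1
    simp only [Matrix.mul_apply, transpose_apply, of_apply, mul_assoc, ← Finset.mul_sum]
    rw [show ∑ i, conj (z a i) * z b i = 0 from e1, mul_zero, mul_zero]

theorem n8_op0 {R : T4 8} (h : Pos 4 (fun i j => j < i) R) : OpNonneg R := by
  intro φ hφ
  obtain ⟨Z, h2, h3, h4⟩ := n8_flag (r := 4) le_rfl (by norm_num) φ hφ
  have h5 := h Z _ h2 h3 h4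
  simp only [rq, cq, map_apply, Complex.conj_ofReal, ← Complex.ofReal_mul, ← Complex.ofReal_sum,
    Complex.ofReal_re] at h5
  linarith only [h5]

end

end Pool.Agent.Work.MP_3a9764_gt
end

-- merged part: Pool.Agent.Work.MP_3a9764_gt.N8I
section
/-! The invariant steps in dimension eight. -/

set_option autoImplicit false

open Filter Set Matrix
open scoped Topology ComplexConjugate

namespace Pool.Agent.Work.MP_3a9764_gt

noncomputable section

variable {N : ℕ} {T : ℝ} {W : ℝ → Set (T4 8)}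

/-- A lower bound on the bivectors with a given block `τ`. -/
def LoT (S : T4 N) (τ : CMat 4) (κ : ℝ) : Prop :=
  ∀ Z C : Matrix (Fin N) (Fin 4) ℂ, Zᵀ * Z = 0 → Zᴴ * Z = 1 → Cᵀ * Z = τ →
    0 ≤ rq S (Z * Cᵀ - C * Zᵀ) + κ

theorem loT_iff {S : T4 N} {τ : CMat 4} {κ : ℝ} : LoT S τ κ ↔ ∀ z x : Fin 4 → Fin N → ℂ, Fr z →
    (∀ i j, x i ⬝ᵥ z j = τ i j) → 0 ≤ rq S (∑ i, wedge (z i) (x i)) + κ := by
  refine ⟨fun h z x hz hx => ?_, fun h Z C h0 h1 hC => ?_⟩
  · obtain ⟨h0, h1⟩ := (fr_iff (of z)ᵀ).2 hz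
    have k := h _ (of x)ᵀ h0 h1 (Matrix.ext hx)
    rwa [s3_sum] at k
  · rw [s3_sum]
    exact h _ _ ((fr_iff Z).1 ⟨h0, h1⟩) fun i j => congrFun (congrFun hC i) j

theorem LoT.unit {S : T4 N} {τ U : CMat 4} {κ : ℝ} (hU : Uᴴ * U = 1) (h : LoT S (Uᴴ * τ * U) κ) :
    LoT S τ κ := by
  intro Z C h0 h1 hC
  have e1 : U * Uᴴ = 1 := mul_eq_one_comm.1 hU
  have e2 : Uᴴᵀ * Uᵀ = 1 := by rw [← transpose_mul, e1, transpose_one]
  have k := h (Z * U) (C * Uᴴᵀ)
    (by rw [transpose_mul, Matrix.mul_assoc, ← Matrix.mul_assoc Zᵀ, h0]; simp)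
    (by rw [conjTranspose_mul, Matrix.mul_assoc, ← Matrix.mul_assoc Zᴴ, h1, Matrix.one_mul, hU])
    (by rw [transpose_mul, transpose_transpose, ← hC]; simp only [Matrix.mul_assoc])
  rwa [transpose_mul, transpose_mul, transpose_transpose, Matrix.mul_assoc, Matrix.mul_assoc,
    ← Matrix.mul_assoc U, ← Matrix.mul_assoc Uᴴᵀ, e1, e2, Matrix.one_mul, Matrix.one_mul] at k

theorem n8_nsq {Z : Matrix (Fin N) (Fin 4) ℂ} (h1 : Zᴴ * Z = 1) (D : CMat 4) :
    nsq (Z * D * Zᴴ) = nsq D := by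
  have e : (nsr (Z * D * Zᴴ) : ℂ) = nsr D := by
    rw [MP_3a9764_gt.T.nsr_eq, MP_3a9764_gt.T.nsr_eq, conjTranspose_mul, conjTranspose_mul,
      conjTranspose_conjTranspose, Matrix.mul_assoc, ← Matrix.mul_assoc Zᴴ, h1, Matrix.one_mul,
      Matrix.mul_assoc, trace_mul_comm, Matrix.mul_assoc, Matrix.mul_assoc, h1, Matrix.mul_one]
  exact_mod_cast e

theorem LoT.sym {S : T4 N} (hS : IsOp S) {M : ℝ} (hM0 : 0 ≤ M) (hM : ∀ v, |rq S v| ≤ M * nsq v)
    {τ D : CMat 4} {κ ρ : ℝ} (h1 : LoT S (τ + D) κ) (h2 : LoT S (τ - D) κ) (hD : nsq D ≤ ρ) :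
    LoT S τ (κ + 4 * M * ρ) := by
  intro Z C z0 z1 hC
  have e : (Zᴴᵀ * Dᵀ)ᵀ = D * Zᴴ := by rw [transpose_mul, transpose_transpose, transpose_transpose]
  have e1 : D * Zᴴ * Z = D := by rw [Matrix.mul_assoc, z1, Matrix.mul_one]
  have k1 := h1 Z (C + Zᴴᵀ * Dᵀ) z0 z1 (by rw [transpose_add, Matrix.add_mul, hC, e, e1])
  have k2 := h2 Z (C - Zᴴᵀ * Dᵀ) z0 z1 (by rw [transpose_sub, Matrix.sub_mul, hC, e, e1])
  have k3 := s3_rq_par hS (Z * Cᵀ - C * Zᵀ) (Z * D * Zᴴ - (Z * D * Zᴴ)ᵀ)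
  have k4 := s3_nsq_sub (Z * D * Zᴴ) (Z * D * Zᴴ)ᵀ
  have k5 : nsq (Z * D * Zᴴ)ᵀ = nsq (Z * D * Zᴴ) := Finset.sum_comm
  rw [k5, n8_nsq z1] at k4
  have k6 := (le_abs_self _).trans ((hM _).trans (mul_le_mul_of_nonneg_left k4 hM0))
  have k7 := mul_le_mul_of_nonneg_left hD hM0
  rw [show Z * Cᵀ - C * Zᵀ + (Z * D * Zᴴ - (Z * D * Zᴴ)ᵀ) =
      Z * (C + Zᴴᵀ * Dᵀ)ᵀ - (C + Zᴴᵀ * Dᵀ) * Zᵀ by
    simp only [transpose_add, transpose_mul, transpose_transpose, Matrix.mul_add, Matrix.add_mul,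
      Matrix.mul_assoc]; abel,
    show Z * Cᵀ - C * Zᵀ - (Z * D * Zᴴ - (Z * D * Zᴴ)ᵀ) =
      Z * (C - Zᴴᵀ * Dᵀ)ᵀ - (C - Zᴴᵀ * Dᵀ) * Zᵀ by
    simp only [transpose_sub, transpose_mul, transpose_transpose, Matrix.mul_sub, Matrix.sub_mul,
      Matrix.mul_assoc]; abel] at k3
  linarith only [k1, k2, k3, k6, k7]

/-- Upper triangular matrices with a given diagonal. -/
structure Up (τ : CMat 4) (a b c d : ℂ) : Prop where
  h10 : τ 1 0 = 0
  h20 : τ 2 0 = 0
  h30 : τ 3 0 = 0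
  h21 : τ 2 1 = 0
  h31 : τ 3 1 = 0
  h32 : τ 3 2 = 0
  h0 : τ 0 0 = a
  h1 : τ 1 1 = b
  h2 : τ 2 2 = c
  h3 : τ 3 3 = d

/-- A lower bound on the triangular bivectors with a given diagonal. -/
def LoD (S : T4 N) (a b c d : ℂ) (κ : ℝ) : Prop := ∀ τ, Up τ a b c d → LoT S τ κ

theorem LoD.swap01 {S : T4 N} {a b c d : ℂ} {κ : ℝ} (h : LoD S b a c d κ) : LoD S a b c d κ := by
  intro τ ⟨t1, t2, t3, t4, t5, t6, t7, t8, t9, t10⟩
  obtain ⟨α, β, k1, k2⟩ := s3_perp2 (a - b) (τ 0 1)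
  refine LoT.unit (U := !![α, -conj β, 0, 0; β, conj α, 0, 0; 0, 0, 1, 0; 0, 0, 0, 1]) ?_ (h _ ?_)
  · ext i j
    fin_cases i <;> fin_cases j <;> simp [Matrix.mul_apply, Fin.sum_univ_four] <;>
      first | linear_combination k1 | ring
  · constructor <;> simp [Matrix.mul_apply, Fin.sum_univ_four, *]
    · linear_combination -β * k2
    · linear_combination conj α * k2 + b * k1
    · linear_combination -conj α * k2 + a * k1

theorem LoD.swap12 {S : T4 N} {a b c d : ℂ} {κ : ℝ} (h : LoD S a c b d κ) : LoD S a b c d κ := by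
  intro τ ⟨t1, t2, t3, t4, t5, t6, t7, t8, t9, t10⟩
  obtain ⟨α, β, k1, k2⟩ := s3_perp2 (b - c) (τ 1 2)
  refine LoT.unit (U := !![1, 0, 0, 0; 0, α, -conj β, 0; 0, β, conj α, 0; 0, 0, 0, 1]) ?_ (h _ ?_)
  · ext i j
    fin_cases i <;> fin_cases j <;> simp [Matrix.mul_apply, Fin.sum_univ_four] <;>
      first | linear_combination k1 | ring
  · constructor <;> simp [Matrix.mul_apply, Fin.sum_univ_four, *]
    · linear_combination -β * k2
    · linear_combination conj α * k2 + c * k1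
    · linear_combination -conj α * k2 + b * k1

theorem n8_ker {L P Q : ℂ} (h : L ^ 2 + P * Q = 0) : ∃ α β : ℂ, conj α * α + conj β * β = 1 ∧
    α * L + β * P = 0 ∧ α * Q - β * L = 0 := by
  obtain ⟨α, β, k1, k2⟩ := s3_perp2 L P
  by_cases hL : L = 0
  · by_cases hP : P = 0
    · exact ⟨0, 1, by simp, by simp [hP], by simp [hL]⟩
    · exact ⟨α, β, k1, k2, mul_left_cancel₀ hP (by linear_combination α * h - L * k2)⟩
  · exact ⟨α, β, k1, k2, mul_left_cancel₀ hL (by linear_combination Q * k2 - β * h)⟩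

theorem LoD.nil {S : T4 N} (h : LoD S 0 0 0 0 0) {τ : CMat 4} (t1 : τ 1 0 = 0) (t2 : τ 2 0 = 0)
    (t3 : τ 3 0 = 0) (t4 : τ 2 1 = 0) (t5 : τ 3 1 = 0) (t6 : τ 0 0 = 0) (t7 : τ 1 1 = 0)
    (t8 : τ 3 3 = -τ 2 2) (t9 : τ 2 2 ^ 2 + τ 2 3 * τ 3 2 = 0) : LoT S τ 0 := by
  obtain ⟨α, β, k1, k2, k3⟩ := n8_ker t9
  refine LoT.unit (U := !![1, 0, 0, 0; 0, 1, 0, 0; 0, 0, α, -conj β; 0, 0, β, conj α]) ?_ (h _ ?_)
  · ext i j
    fin_cases i <;> fin_cases j <;> simp [Matrix.mul_apply, Fin.sum_univ_four] <;>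
      first | linear_combination k1 | ring
  · constructor <;> simp [Matrix.mul_apply, Fin.sum_univ_four, *]
    · linear_combination -β * k2 + α * k3
    · linear_combination conj α * k2 + conj β * k3
    · linear_combination -conj α * k2 - conj β * k3

section

variable {S : T4 8}

theorem n8_dec {z : Fin 4 → Fin 8 → ℂ} (hz : Fr z) {v : Fin 8 → ℂ} (h0 : v ⬝ᵥ z 0 = 0)
    (h1 : v ⬝ᵥ z 1 = 0) (h2 : v ⬝ᵥ z 2 = 0) : ∃ α β γ δ : ℂ,
      v = α • z 0 + β • z 1 + γ • z 2 + δ • z 3 + (v ⬝ᵥ z 3) • star (z 3) := by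
  obtain ⟨k0, k1⟩ := (fr_iff (of z)ᵀ).2 hz
  have k3 := complete_even (r := 4) k0 k1
  have e : v = (star (z 0) ⬝ᵥ v) • z 0 + (star (z 1) ⬝ᵥ v) • z 1 + (star (z 2) ⬝ᵥ v) • z 2 +
      (star (z 3) ⬝ᵥ v) • z 3 + (v ⬝ᵥ z 0) • star (z 0) + (v ⬝ᵥ z 1) • star (z 1) +
      (v ⬝ᵥ z 2) • star (z 2) + (v ⬝ᵥ z 3) • star (z 3) := by
    funext i
    have k4 := congrFun (congrArg (· *ᵥ v) k3) i
    simp only [one_mulVec] at k4
    rw [← k4]
    simp only [mulVec, dotProduct, Matrix.add_apply, map_apply, Matrix.mul_apply, Fin.sum_univ_four,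
      conjTranspose_apply, transpose_apply, of_apply, Pi.add_apply,
      Pi.smul_apply, smul_eq_mul, Pi.star_apply, Finset.sum_mul, ← Finset.sum_add_distrib,
      map_add, map_mul, Complex.star_def, Complex.conj_conj]
    exact Finset.sum_congr rfl fun j _ => by ring
  simp only [h0, h1, h2, zero_smul, add_zero] at e
  exact ⟨_, _, _, _, e⟩

theorem Fr.fr3' {z : Fin 4 → Fin N → ℂ} (h : Fr z) : Fr3 (z 0) (z 1) (z 2) :=
  ⟨h.1 0 0, h.1 0 1, h.1 0 2, h.1 1 1, h.1 1 2, h.1 2 2, h.2 0 0, h.2 0 1, h.2 0 2, h.2 1 1,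
    h.2 1 2, h.2 2 2⟩

theorem n8_zero (h : Pos 3 (fun i j => j ≤ i) S) : LoD S 0 0 0 0 0 := by
  intro τ ⟨t1, t2, t3, t4, t5, t6, t7, t8, t9, t10⟩
  refine loT_iff.2 fun z x hz hx => ?_
  obtain ⟨α, β, γ, δ, e⟩ := n8_dec hz ((hx 3 0).trans t3) ((hx 3 1).trans t5) ((hx 3 2).trans t6)
  rw [hx, t10, zero_smul, add_zero] at e
  have k := s3_pos h (z := ![z 0, z 1, z 2]) (x := ![x 0 - α • z 3, x 1 - β • z 3, x 2 - γ • z 3])
    hz.fr3'.fr fun i j hij => by
      fin_cases i <;> fin_cases j <;> simp [hz.1, *] at hij ⊢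
  rw [Fin.sum_univ_three] at k
  rw [Fin.sum_univ_four, add_zero, e]
  convert k using 2
  ext i j
  simp [wedge, vecMulVec_apply]
  ring

theorem LoD.flip {a b c d : ℂ} {κ : ℝ} (h : LoD S a b c (-d) κ) : LoD S a b c d κ := by
  intro τ ⟨t1, t2, t3, t4, t5, t6, t7, t8, t9, t10⟩
  refine loT_iff.2 fun z x hz hx => ?_
  obtain ⟨α, β, γ, δ, e⟩ := n8_dec hz ((hx 3 0).trans t3) ((hx 3 1).trans t5) ((hx 3 2).trans t6)
  rw [hx, t10] at e
  have st : ∀ i j, star (z i) ⬝ᵥ star (z j) = 0 := fun i j => by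
    rw [star_dotProduct_star, hz.1, star_zero]
  have sd : ∀ i j, z i ⬝ᵥ star (z j) = if j = i then 1 else 0 := fun i j => by
    rw [dotProduct_comm, hz.2]
  have k := loT_iff.1 (h (of fun i j => ![x 0 - α • z 3, x 1 - β • z 3, x 2 - γ • z 3, -d • z 3] i ⬝ᵥ
      ![z 0, z 1, z 2, star (z 3)] j) (by constructor <;> simp [hz.1, *]))
    ![z 0, z 1, z 2, star (z 3)] _ (by
      constructor <;> intro i j <;> fin_cases i <;> fin_cases j <;> simp [hz.1, hz.2, st, sd])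
    fun _ _ => rfl
  rw [Fin.sum_univ_four] at k ⊢
  rw [e]
  convert k using 3
  ext i j
  simp [wedge, vecMulVec_apply]
  ring

variable (hS : IsOp S) {M : ℝ} (hM0 : 0 ≤ M) (hM : ∀ v, |rq S v| ≤ M * nsq v)
include hS hM0 hM

theorem LoD.sym {a b c d a' b' c' d' : ℂ} {κ ρ : ℝ} (h1 : LoD S (a + a') (b + b') (c + c') (d + d') κ)
    (h2 : LoD S (a - a') (b - b') (c - c') (d - d') κ)
    (h : ‖a'‖ ^ 2 + ‖b'‖ ^ 2 + ‖c'‖ ^ 2 + ‖d'‖ ^ 2 ≤ ρ) : LoD S a b c d (κ + 4 * M * ρ) := by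
  intro τ ⟨t1, t2, t3, t4, t5, t6, t7, t8, t9, t10⟩
  refine LoT.sym hS hM0 hM (D := !![a', 0, 0, 0; 0, b', 0, 0; 0, 0, c', 0; 0, 0, 0, d'])
    (h1 _ (by constructor <;> simp [*])) (h2 _ (by constructor <;> simp [*])) ?_
  simpa [nsq, Fin.sum_univ_four, Complex.normSq_eq_norm_sq] using h

variable (h : LoD S 0 0 0 0 0)
include h

theorem n8_one {l : ℂ} {ρ : ℝ} (hl : ‖l‖ ≤ ρ) : LoD S 0 0 l (-l) (28 * M * ρ ^ 2) := by
  intro τ ⟨t1, t2, t3, t4, t5, t6, t7, t8, t9, t10⟩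
  obtain ⟨A, L, B, k1, k2, k3, k4, k5⟩ := s3_pair l (τ 2 3 / 2)
  have k := LoT.sym hS hM0 hM (τ := τ) (ρ := 7 * ρ ^ 2)
    (D := !![0, 0, 0, 0; 0, 0, 0, 0; 0, 0, L, 2 * A; 0, 0, B, -L])
    (h.nil (by simp [*]) (by simp [*]) (by simp [*]) (by simp [*]) (by simp [*]) (by simp [*])
      (by simp [*]) (by simp [*, add_comm]) (by simp [t6, t9]; linear_combination 2 * k1 + k2))
    (h.nil (by simp [*]) (by simp [*]) (by simp [*]) (by simp [*]) (by simp [*]) (by simp [*])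
      (by simp [*]) (by simp [*]; ring) (by simp [t6, t9]; linear_combination -2 * k1 + k2)) (by
      have a1 := pow_le_pow_left₀ (norm_nonneg _) (k3.trans hl) 2
      have a2 := pow_le_pow_left₀ (norm_nonneg _) (k4.trans hl) 2
      have a3 := pow_le_pow_left₀ (norm_nonneg _) (k5.trans hl) 2
      simp [nsq, Fin.sum_univ_four, Complex.normSq_eq_norm_sq]
      linarith only [a1, a2, a3])
  convert k using 1
  ring

theorem n8_two {c d : ℂ} {ρ : ℝ} (hc : ‖c‖ ≤ ρ) (hd : ‖d‖ ≤ ρ) :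
    LoD S 0 0 c d (120 * M * ρ ^ 2) := by
  have a1 := pow_le_pow_left₀ (norm_nonneg _) hc 2
  have a2 := pow_le_pow_left₀ (norm_nonneg _) hd 2
  have k := LoD.sym hS hM0 hM (a := 0) (b := 0) (c := c) (d := d) (a' := 0) (b' := 0) (c' := d)
    (d' := c) (ρ := 2 * ρ ^ 2) (κ := 28 * M * (2 * ρ) ^ 2)
    (by simpa [add_comm] using (n8_one hS hM0 hM h (l := c + d) (ρ := 2 * ρ)
      ((norm_add_le _ _).trans (by linarith))).flip)
    (by simpa using n8_one hS hM0 hM h (l := c - d) ((norm_sub_le _ _).trans (by linarith)))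
    (by simp; linarith)
  convert k using 1
  ring

theorem n8_three {b c d : ℂ} {ρ : ℝ} (hb : ‖b‖ ≤ ρ) (hc : ‖c‖ ≤ ρ) (hd : ‖d‖ ≤ ρ) :
    LoD S 0 b c d (488 * M * ρ ^ 2) := by
  have a1 := pow_le_pow_left₀ (norm_nonneg _) hb 2
  have a2 := pow_le_pow_left₀ (norm_nonneg _) hc 2
  have a3 := norm_nonneg d
  have k := LoD.sym hS hM0 hM (a := 0) (b := b) (c := c) (d := d) (a' := 0) (b' := b) (c' := -c)
    (d' := 0) (ρ := 2 * ρ ^ 2) (κ := 120 * M * (2 * ρ) ^ 2)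
    (by simpa using (n8_two hS hM0 hM h (c := b + b) (d := d) (ρ := 2 * ρ)
      ((norm_add_le _ _).trans (by linarith only [hb])) (by linarith)).swap12)
    (by simpa using (n8_two hS hM0 hM h (c := c + c) (d := d) (ρ := 2 * ρ)
      ((norm_add_le _ _).trans (by linarith)) (by linarith)))
    (by simp; linarith)
  convert k using 1
  ring

theorem n8_four {a b c d : ℂ} {ρ : ℝ} (ha : ‖a‖ ≤ ρ) (hb : ‖b‖ ≤ ρ) (hc : ‖c‖ ≤ ρ)
    (hd : ‖d‖ ≤ ρ) : LoD S a b c d (1960 * M * ρ ^ 2) := by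
  have a1 := pow_le_pow_left₀ (norm_nonneg _) ha 2
  have a2 := pow_le_pow_left₀ (norm_nonneg _) hb 2
  have a3 := norm_nonneg d
  have k := LoD.sym hS hM0 hM (a := a) (b := b) (c := c) (d := d) (a' := a) (b' := -b) (c' := 0)
    (d' := 0) (ρ := 2 * ρ ^ 2) (κ := 488 * M * (2 * ρ) ^ 2)
    (by simpa using (n8_three hS hM0 hM h (b := a + a) (c := c) (d := d) (ρ := 2 * ρ)
      ((norm_add_le _ _).trans (by linarith only [ha])) (by linarith) (by linarith)).swap01)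
    (by simpa using (n8_three hS hM0 hM h (b := b + b) (c := c) (d := d) (ρ := 2 * ρ)
      ((norm_add_le _ _).trans (by linarith)) (by linarith) (by linarith)))
    (by simp; linarith)
  convert k using 1
  ring

end

theorem n8_I (hW : CurvFlow 8 T W)
    (h : AsymP T W fun R => PIC2w R ∧ Pos 3 (fun i j => j ≤ i) R) :
    AsymP T W (Pos 4 fun i j => j < i) := by
  refine inv8 hW _ (fun _ _ h => h) (fun _ _ h => h.le) nv (by unfold nv; fun_prop) s3_nv_nonneg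
    s3_nv_smul h (β := 1960) fun S M hS _ h3 hM0 hM z x hz hx => ?_
  have b : ∀ i, ‖x i ⬝ᵥ z i‖ ≤ √(nv fun i => x i ⬝ᵥ z i) := fun i => Real.le_sqrt_of_sq_le (by
    rw [← Complex.normSq_eq_norm_sq]
    exact Finset.single_le_sum (f := fun i => Complex.normSq (x i ⬝ᵥ z i))
      (fun _ _ => Complex.normSq_nonneg _) (Finset.mem_univ i))
  have k := loT_iff.1 (n8_four hS.isOp hM0 hM (n8_zero h3) (b 0) (b 1) (b 2) (b 3)
    (of fun i j => x i ⬝ᵥ z j) ⟨hx 1 0 (by decide), hx 2 0 (by decide), hx 3 0 (by decide),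
      hx 2 1 (by decide), hx 3 1 (by decide), hx 3 2 (by decide), rfl, rfl, rfl, rfl⟩) z x hz
    fun _ _ => rfl
  rwa [Real.sq_sqrt (s3_nv_nonneg _)] at k

theorem n8_op {R : T4 8} (_hR : IsCurv R) (h : Pos 4 (fun i j => j < i) R) : OpNonneg R :=
  n8_op0 h

end

end Pool.Agent.Work.MP_3a9764_gt
end
end

-- merged part: Pool.Agent.Work.MP_3a9764_gt.N8D
section
/-! The path from the extension cone to the orbit of type `[3, 2, 2, 1]`. -/

set_option autoImplicit false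

open Filter Set Matrix
open scoped Topology ComplexConjugate

namespace Pool.Agent.Work.MP_3a9764_gt

noncomputable section

variable {n N : ℕ}

theorem exists_iso_frame' {k r : ℕ} (hk : N ≤ 2 * r + 1) (hr : 2 * r ≤ N)
    (Y : Matrix (Fin N) (Fin k) ℂ) (hY : Yᵀ * Y = 0) :
    ∃ (Z : Matrix (Fin N) (Fin r) ℂ) (U : Matrix (Fin r) (Fin k) ℂ),
      Zᵀ * Z = 0 ∧ Zᴴ * Z = 1 ∧ Y = Z * U := by
  classical
  let f : Fin k → EuclideanSpace ℂ (Fin N) := fun j => WithLp.toLp 2 (Yᵀ j)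
  let V := Submodule.span ℂ (range f)
  let b := stdOrthonormalBasis ℂ V
  have hV : ∀ x ∈ V, ∃ c, x.ofLp = Y *ᵥ c := fun x hx => by
    obtain ⟨c, rfl⟩ := (Submodule.mem_span_range_iff_exists_fun ℂ).1 hx
    refine ⟨c, funext fun i => ?_⟩
    simp only [WithLp.ofLp_sum, WithLp.ofLp_smul, Finset.sum_apply, Pi.smul_apply, smul_eq_mul]
    exact Finset.sum_congr rfl fun a _ => mul_comm _ _
  have hz : Fr fun a => (b a : EuclideanSpace ℂ (Fin N)).ofLp := by
    refine ⟨fun a a' => ?_, fun a a' => ?_⟩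
    · obtain ⟨c, hc⟩ := hV _ (b a).2
      obtain ⟨c', hc'⟩ := hV _ (b a').2
      simp only [hc, hc']
      rw [dotProduct_mulVec, vecMul_mulVec, hY, vecMul_zero, zero_dotProduct]
    · have := orthonormal_iff_ite.1 b.orthonormal a a'
      rw [Submodule.coe_inner, EuclideanSpace.inner_eq_star_dotProduct, dotProduct_comm] at this
      exact this
  have hd : Module.finrank ℂ V ≤ r := by
    have h1 := fr_card_le _ (fr_dbl hz)
    rw [Fintype.card_sum, Fintype.card_fin] at h1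
    omega
  obtain ⟨z, k1, k2⟩ := fr_ext hd hr hz
  have hj : ∀ j, ∃ u : Fin r → ℂ, ∀ i, Y i j = ∑ a, z a i * u a := fun j => by
    have h1 := congrArg (fun x : V => (x : EuclideanSpace ℂ (Fin N)).ofLp)
      (b.sum_repr ⟨f j, Submodule.subset_span ⟨j, rfl⟩⟩)
    simp only [Submodule.coe_sum, Submodule.coe_smul, WithLp.ofLp_sum, WithLp.ofLp_smul] at h1
    generalize (b.repr ⟨f j, _⟩).ofLp = c at h1
    obtain ⟨u, hu⟩ := fr_pad hd c
    refine ⟨u, fun i => ?_⟩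
    have h2 := congrFun h1 i
    rw [Finset.sum_apply] at h2
    rw [hu fun a => z a i]
    refine h2.symm.trans (Finset.sum_congr rfl fun a _ => ?_)
    rw [k2, mul_comm]
    rfl
  choose u hu using hj
  obtain ⟨k3, k4⟩ := (fr_iff (Matrix.of z)ᵀ).2 k1
  exact ⟨(Matrix.of z)ᵀ, (Matrix.of u)ᵀ, k3, k4, by ext i j; exact hu j i⟩

theorem sqzero_xs {r : ℕ} (hk : N ≤ 2 * r + 1) (hr : 2 * r ≤ N) {w : CMat N} (hw : wᵀ = -w)
    (h : w * w = 0) : ∃ Z : Matrix (Fin N) (Fin r) ℂ, Zᵀ * Z = 0 ∧ Zᴴ * Z = 1 ∧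
      XS (fun _ _ => True) Z w := by
  obtain ⟨Z, U, h0, h1, h2⟩ := exists_iso_frame' hk hr w (by rw [hw, Matrix.neg_mul, h, neg_zero])
  refine ⟨Z, h0, h1, (xs_iff h0 h1).2 ⟨hw, ?_, fun i j _ => ?_⟩⟩
  · have e : (1 - Z * Zᴴ) * w = 0 := by
      rw [h2, Matrix.sub_mul, Matrix.one_mul, Matrix.mul_assoc, ← Matrix.mul_assoc Zᴴ, h1,
        Matrix.one_mul, sub_self]
    rw [e, Matrix.zero_mul]
  · have e : w * Z = 0 := by
      rw [← neg_eq_zero, ← Matrix.neg_mul, ← hw, h2, transpose_mul, Matrix.mul_assoc, h0,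
        Matrix.mul_zero]
    rw [Matrix.mul_assoc, e, Matrix.mul_zero, Matrix.zero_apply]

theorem P321.vec {R : T4 n} (h : P321 R) {q : ℕ} {Z : Matrix (Fin n) (Fin q) ℂ}
    (hZ : Zᵀ * Z = 0) {B : CMat q} (hB : Bᵀ = -B) (c : Fin q → ℂ) {x : Fin n → ℂ}
    (hx : Zᵀ *ᵥ x = 0) : 0 ≤ rq R (wedge (Z *ᵥ c) x + Z * B * Zᵀ) := by
  obtain ⟨γ, hγ⟩ := IsAlgClosed.exists_eq_mul_self (-(x ⬝ᵥ x))
  have e1 : Zᵀ *ᵥ (Z *ᵥ c) = 0 := by rw [mulVec_mulVec, hZ, zero_mulVec]
  have e2 : (Z *ᵥ c) ⬝ᵥ (Z *ᵥ c) = 0 := by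
    rw [dotProduct_mulVec, ← mulVec_transpose, e1, zero_dotProduct]
  have e3 : x ⬝ᵥ (Z *ᵥ c) = 0 := by
    rw [dotProduct_mulVec, ← mulVec_transpose, hx, zero_dotProduct]
  have e4 : Zᵀ * wedge (Z *ᵥ c) x = 0 := by
    rw [wedge, Matrix.mul_sub, mul_vecMulVec, mul_vecMulVec, e1, hx]
    simp
  have e5 : wedge (Z *ᵥ c) x * Z = 0 := by
    rw [← neg_eq_zero, ← Matrix.neg_mul, ← wedge_skew, ← transpose_transpose Z, ← transpose_mul,
      transpose_transpose Z, e4, transpose_zero]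
  refine h _ (γ • Z *ᵥ c) ⟨?_, ?_, ?_, by simp [e2]⟩
  · rw [transpose_add, wedge_skew, neg_add]
    simp only [transpose_mul, transpose_transpose, hB, Matrix.neg_mul, Matrix.mul_neg,
      Matrix.mul_assoc]
  · rw [Matrix.add_mul, Matrix.mul_add, Matrix.mul_add, Matrix.mul_assoc Z B,
      ← Matrix.mul_assoc _ Z, e5, Matrix.mul_assoc Z, Matrix.mul_assoc B, e4, Matrix.mul_assoc Z,
      Matrix.mul_assoc B, ← Matrix.mul_assoc Zᵀ, hZ]
    simp only [Matrix.zero_mul, Matrix.mul_zero, add_zero, wedge, Matrix.sub_mul, Matrix.mul_sub,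
      vecMulVec_mul_vecMulVec, e2, e3, dotProduct_comm (Z *ᵥ c) x, zero_smul, vecMulVec_zero]
    ext i j
    simp only [Matrix.sub_apply, Matrix.zero_apply, vecMulVec_apply, Pi.smul_apply, smul_eq_mul]
    linear_combination (Z *ᵥ c) i * (Z *ᵥ c) j * hγ
  · rw [mulVec_smul, add_mulVec, mulVec_mulVec, e5, ← mulVec_mulVec, e1]
    simp

namespace N8D

open S2

theorem rq_kn_skew (A : Mat n) {w : CMat n} (hw : wᵀ = -w) :
    rq (kn A 1) w = ∑ j, (hf A (fun i => w i j) fun i => w i j).re := by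
  have h : ∀ i j, w j i = -w i j := fun i j => congrFun (congrFun hw i) j
  have e : cq (kn A 1) w w = 4 * ∑ j, hf A (fun i => w i j) fun i => w i j := by
    have e1 : ∑ i, ∑ j, ∑ k, (A i k : ℂ) * w i j * conj (w k j) =
        ∑ j, hf A (fun i => w i j) fun i => w i j := Finset.sum_comm
    have e2 : ∑ i, ∑ j, ∑ k, (A i k : ℂ) * w i j * conj (w j k) =
        -∑ j, hf A (fun i => w i j) fun i => w i j := by
      simp only [← e1, ← Finset.sum_neg_distrib]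
      exact Finset.sum_congr rfl fun i _ => Finset.sum_congr rfl fun j _ =>
        Finset.sum_congr rfl fun k _ => by rw [h k j, map_neg, mul_neg]
    have e3 : ∑ i, ∑ j, ∑ k, (A j k : ℂ) * w i j * conj (w k i) =
        -∑ j, hf A (fun i => w i j) fun i => w i j := by
      simp only [hf, ← Finset.sum_neg_distrib]
      exact Finset.sum_congr rfl fun i _ => Finset.sum_congr rfl fun j _ =>
        Finset.sum_congr rfl fun k _ => by rw [h j i, mul_neg, neg_mul]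
    have e4 : ∑ i, ∑ j, ∑ k, (A j k : ℂ) * w i j * conj (w i k) =
        ∑ j, hf A (fun i => w i j) fun i => w i j :=
      Finset.sum_congr rfl fun i _ => Finset.sum_congr rfl fun j _ =>
        Finset.sum_congr rfl fun k _ => by rw [h j i, h k i, map_neg]; ring
    simp only [cq, kn, one_apply, mul_ite, mul_one, mul_zero, Complex.ofReal_add,
      Complex.ofReal_sub, apply_ite Complex.ofReal, Complex.ofReal_zero, add_mul, sub_mul, ite_mul,
      zero_mul, Finset.sum_add_distrib, Finset.sum_sub_distrib, Finset.sum_ite_eq,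
      Finset.sum_ite_irrel, Finset.sum_const_zero, Finset.mem_univ, if_true]
    rw [e1, e2, e3, e4]
    ring
  rw [rq, e, ← Complex.re_sum]
  simp

theorem hf_sq_nonneg {A : Mat n} (hA : A.IsSymm) (x : Fin n → ℂ) : 0 ≤ (hf (A * A) x x).re := by
  rw [← hq_col1, hq_sq hA, Complex.ofReal_re]
  exact nsr_nonneg _

theorem bf_eq (A : Mat n) (x y : Fin n → ℝ) : bf A x y = x ⬝ᵥ A *ᵥ y := by
  simp only [bf, dotProduct, mulVec, Finset.mul_sum]
  exact Finset.sum_congr rfl fun _ _ => Finset.sum_congr rfl fun _ _ => by ring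

theorem bf_sq_le {B : Mat n} (hB : B.IsSymm) {M : ℝ} (hM : 0 < M) (h0 : ∀ x, 0 ≤ bf B x x)
    (h1 : ∀ x, bf B x x ≤ M * (x ⬝ᵥ x)) (x : Fin n → ℝ) : bf (B * B) x x ≤ M * bf B x x := by
  have e : ∀ y, x ⬝ᵥ B *ᵥ y = (B *ᵥ x) ⬝ᵥ y := fun y => by
    rw [dotProduct_mulVec, ← mulVec_transpose, hB.eq]
  have k1 := h0 (M • x - B *ᵥ x)
  have k2 := h1 (B *ᵥ x)
  simp only [bf_eq, mulVec_sub, mulVec_smul, sub_dotProduct, dotProduct_sub, smul_dotProduct,
    dotProduct_smul, smul_eq_mul, e (B *ᵥ x)] at k1 k2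
  rw [bf_eq, bf_eq, ← mulVec_mulVec, e (B *ᵥ x)]
  exact le_of_mul_le_mul_left (by linarith only [k1, k2]) hM

theorem ric_nonneg {R : T4 n} (hR : IsCurv R) (h : PIC2w R) (x : Fin n → ℝ) :
    0 ≤ bf (ric4 R) x x := by
  have e : bf (ric4 R) x x = ∑ j, ev4 R (Pi.single j 1) x (Pi.single j 1) x := by
    simp only [bf, ric4, ev4, Pi.single_apply, mul_ite, mul_one, mul_zero, ite_mul, zero_mul,
      Finset.sum_ite_irrel, Finset.sum_const_zero, Finset.sum_ite_eq', Finset.mem_univ, if_true,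
      Finset.sum_mul]
    exact (ap_rot3 _).symm
  rw [e]
  refine Finset.sum_nonneg fun j _ => ?_
  have h1 := h (cv (Pi.single j 1) 0) (cv x 0)
  rw [ap_rq_cv hR] at h1
  simpa [ev4] using h1

theorem ric_le (hn : 5 ≤ n) {R : T4 n} (hR : IsCurv R) (h : PICw R) (x : Fin n → ℝ) :
    bf (ric4 R) x x ≤ scal4 R / 2 * (x ⬝ᵥ x) := by
  obtain ⟨c, t, h1, -, -, rfl⟩ := fr_dir (k := 0) (by omega) ![] x fun j => j.elim0
  obtain ⟨P, hP, h2⟩ := exists_orth_of_on (k := 1) (by omega) ![c] fun a b => by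
    fin_cases a; fin_cases b; simpa using h1
  have h3 := (h.pullT hP).p2 hn (isCurv_pullT hR P) (Fin.castLE (by omega) (0 : Fin 1))
  rw [ric4_pullT R (mul_eq_one_comm.1 hP), scal4_pullT R (mul_eq_one_comm.1 hP)] at h3
  have e : (Pᵀ * ric4 R * P) (Fin.castLE (by omega) (0 : Fin 1))
      (Fin.castLE (by omega) (0 : Fin 1)) = bf (ric4 R) c c := by
    simp only [mul_apply, transpose_apply, h2, bf, Finset.sum_mul, cons_val_zero]
    rw [Finset.sum_comm]
    exact Finset.sum_congr rfl fun _ _ => Finset.sum_congr rfl fun _ _ => by ring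
  rw [e] at h3
  rw [bf_smul_self, smul_dotProduct, dotProduct_smul, h1, smul_eq_mul, smul_eq_mul]
  linarith only [h3, mul_le_mul_of_nonneg_left h3 (sq_nonneg t), sq_nonneg t]

theorem ric0_sq_le {R : T4 8} (hR : IsCurv R) (h : PIC2w R) (hl : 0 < lb R) (v : Fin 8 → ℂ) :
    (hf (ric0 R * ric0 R) v v).re ≤ 2 * lb R * (hf (ric0 R) v v).re + 3 * lb R ^ 2 * nv v := by
  have h1 : (hf (ric4 R * ric4 R) v v).re ≤ 4 * lb R * (hf (ric4 R) v v).re := by
    obtain ⟨a, b, rfl⟩ := fr_exists_cv v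
    have h2 := bf_sq_le (ric4_isSymm hR) (M := 4 * lb R) (by linarith only [hl]) (ric_nonneg hR h) fun x => by
      have h3 := ric_le (by norm_num) hR h.picw x
      rw [scal4_eq (by norm_num), Nat.cast_ofNat] at h3
      linarith only [h3]
    rw [hf_cv_re, hf_cv_re]
    linarith [h2 a, h2 b]
  have e : ric4 R * ric4 R = ric0 R * ric0 R + (2 * lb R) • ric0 R + (lb R ^ 2) • (1 : Mat 8) := by
    rw [ric4_eq]
    simp only [Matrix.add_mul, Matrix.mul_add, Matrix.smul_mul, Matrix.mul_smul, Matrix.mul_one,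
      Matrix.one_mul]
    module
  rw [e, ric4_eq] at h1
  simp only [hf_add, hf_smul, hf_one_self, Complex.add_re, Complex.re_ofReal_mul,
    Complex.ofReal_re] at h1
  linarith

theorem ric0_ge {R : T4 8} (h : Gb (1 / 8) (1 / 32) R) {z : Fin 8 → ℂ} (hz : z ⬝ᵥ z = 0) :
    -(231 / 436 * lb R * nv z) ≤ (hf (ric0 R) z z).re := by
  have h1 := h.2 z hz
  rw [ric4_eq] at h1
  rw [ric0_linv (by norm_num) (by norm_num : (0 : ℝ) ≤ 1 / 8) R,
    lb_linv (by norm_num) (by norm_num : (0 : ℝ) ≤ 1 / 8) R, aa]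
  simp only [hf_add, hf_smul, hf_one_self, Complex.add_re, Complex.re_ofReal_mul,
    Complex.ofReal_re, Nat.cast_ofNat] at h1 ⊢
  linarith only [h1]

section

variable {b : ℝ} (hb : 0 < b) (hb1 : b ≤ 1 / 29) {R : T4 8} (hR : IsCurv R)
  (hG : Gb (1 / 8) (1 / 32) R) (hl : 0 < lb R)
include hb hb1

theorem cc_nonneg : 0 ≤ cc 8 b := by
  rw [cc]
  refine div_nonneg (mul_nonneg (sq_nonneg _) ?_) (AD_a (by norm_num) hb.le).le
  rw [Nat.cast_ofNat]
  linarith only [hb, hb1, mul_nonneg_of_nonpos_of_nonpos (le_of_lt (Mathlib.Tactic.Linarith.sub_neg_of_lt hb)) (Mathlib.Tactic.Linarith.sub_nonpos_of_le hb1)]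

include hR hG hl

theorem ricD_pos (h2 : PIC2w R) {v : Fin 8 → ℂ} (hv : v ⬝ᵥ v = 0) (hv0 : 0 < nv v) :
    0 < (hf (ric4 (DD b (linv b R))) v v).re := by
  have hS := isCurv_linv hR b
  have k1 := ric0_sq_le hR h2 hl v
  have k2 := ric0_ge hG hv
  have k3 : 0 ≤ ee 8 b * sg (linv b R) * nv v := by
    refine mul_nonneg (mul_nonneg ?_ (sg_nonneg hS)) hv0.le
    have := cc_nonneg hb hb1
    rw [ee, Nat.cast_ofNat]
    positivity
  rw [lb_linv (by norm_num) hb.le R] at hl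
  rw [ric0_linv (by norm_num) hb.le R, lb_linv (by norm_num) hb.le R] at k1 k2
  rw [ric4_DD (by norm_num) b hS]
  have hl' := (mul_pos_iff_of_pos_left (AD_a (by norm_num) hb.le)).1 hl
  simp only [Matrix.smul_mul, Matrix.mul_smul, hf_add, hf_smul, hf_one_self, Complex.add_re,
    Complex.re_ofReal_mul, Complex.ofReal_re, Nat.cast_ofNat, aa] at k1 k2 ⊢
  generalize (hf (ric0 (linv b R) * ric0 (linv b R)) v v).re = Q at *
  generalize (hf (ric0 (linv b R)) v v).re = X at *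
  generalize lb (linv b R) = l at *
  have p2 : b ^ 2 ≤ (1 / 29) ^ 2 := pow_le_pow_left₀ hb.le hb1 2
  have p3 : b ^ 3 ≤ (1 / 29) ^ 3 := pow_le_pow_left₀ hb.le hb1 3
  have p4 : b ^ 4 ≤ (1 / 29) ^ 4 := pow_le_pow_left₀ hb.le hb1 4
  have q1 : 0 < 8 + 42 * b - 672 * b ^ 2 - 5544 * b ^ 3 - 10584 * b ^ 4 -
      231 / 436 * (8 + 164 * b + 1112 * b ^ 2 + 2856 * b ^ 3 + 2016 * b ^ 4) := by
    norm_num at p2 p3 p4
    linarith only [hb, hb1, p2, p3, p4]
  have q2 := mul_pos (mul_pos hb (mul_pos (mul_pos hl' hl') hv0)) q1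
  have q3 : 0 ≤ b * l * (8 + 52 * b + 48 * b ^ 2) := by positivity
  have q4 := mul_le_mul_of_nonneg_left k2 q3
  have q5 := mul_le_mul_of_nonneg_left k1 hb.le
  have q6 : 0 < (1 + 6 * b) ^ 2 := by positivity
  have q7 := mul_nonneg q6.le k3
  refine (mul_pos_iff_of_pos_left q6).1 ?_
  linarith only [q2, q4, q5, q7]

theorem margin (hT : Pos 4 (fun _ _ => True) (linv (1 / 8) R)) {w : CMat 8} (hw : wᵀ = -w)
    (h0 : w * w = 0) (h1 : 0 < nsq w) : 0 < rq (linv b R) w := by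
  obtain ⟨Z, k1, k2, k3⟩ := sqzero_xs (r := 4) (by norm_num) (by norm_num) hw h0
  have k4 := hT Z w k1 k2 k3
  have k5 : -(231 / 436 * lb R * nsq w) ≤ rq (kn (ric0 R) 1) w := by
    rw [rq_kn_skew _ hw, nsq, Finset.sum_comm, Finset.mul_sum, ← Finset.sum_neg_distrib]
    refine Finset.sum_le_sum fun j _ => ric0_ge hG ?_
    have k6 : wᵀ * w = 0 := by rw [hw, Matrix.neg_mul, h0, neg_zero]
    exact congrFun (congrFun k6 j) j
  rw [lb_linv (by norm_num) hb.le R] at hl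
  rw [ric0_linv (by norm_num) hb.le R, lb_linv (by norm_num) hb.le R, kn_smul_left,
    Pool.Agent.Work.MP_3a9764_gt.rq_smul] at k5
  have hl' := (mul_pos_iff_of_pos_left (AD_a (by norm_num) hb.le)).1 hl
  rw [linv_sub (by norm_num) hb.le (by norm_num : (0 : ℝ) ≤ 1 / 8) R,
    Pool.Agent.Work.MP_3a9764_gt.rq_add, Pool.Agent.Work.MP_3a9764_gt.rq_add,
    Pool.Agent.Work.MP_3a9764_gt.rq_smul, Pool.Agent.Work.MP_3a9764_gt.rq_smul,
    Pool.Agent.Work.MP_3a9764_gt.rq_Id4 hw]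
  simp only [Nat.cast_ofNat, aa] at k5 ⊢
  generalize rq (kn (ric0 (linv b R)) 1) w = X at *
  generalize lb (linv b R) = l at *
  have q1 : 0 < 11 / 256 - 95 / 128 * b + 3 / 128 * b ^ 2 + 405 / 16 * b ^ 3 := by
    have : 0 ≤ 3 / 128 * b ^ 2 + 405 / 16 * b ^ 3 := by positivity
    linarith only [hb, hb1, this]
  have q2 := mul_pos (mul_pos hl' h1) q1
  have q3 := mul_le_mul_of_nonneg_left k5 (by linarith only [hb, hb1] : 0 ≤ 1 / 8 - b)
  have q4 : 0 < 1 + 6 * b := by positivity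
  have q5 := mul_nonneg q4.le k4
  refine (mul_pos_iff_of_pos_left q4).1 ?_
  norm_num at q2 q3 ⊢
  linarith only [q5, q2, q3]

end

theorem blk_mem {w : CMat n} {v : Fin n → ℂ} (h : T321 w v) :
    blk w (col1 v) 0 ∈ SqZero (n + 1) := by
  refine ⟨blk_skew h.1 _ zero_skew, ?_⟩
  have e1 : w * w - col1 v * (col1 v)ᵀ = 0 := by
    rw [h.2.1]
    ext i j
    simp [col1, mul_apply, vecMulVec_apply]
  have e2 : w * col1 v = 0 := by
    ext i j
    exact congrFun h.2.2.1 i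
  have e3 : (col1 v)ᵀ * w = 0 := by
    rw [← neg_eq_zero, ← Matrix.mul_neg, ← h.1, ← transpose_mul, e2, transpose_zero]
  have e4 : (col1 v)ᵀ * col1 v = 0 := by
    ext i j
    exact h.2.2.2
  rw [blk_mul, e1, e2, e3, e4]
  simp

theorem exists_of_mem {u : CMat (n + 1)} (h : u ∈ SqZero (n + 1)) :
    ∃ w v, T321 w v ∧ u = blk w (col1 v) 0 := by
  obtain ⟨w, U, x, h1, h2, rfl⟩ := exists_blk h.1
  obtain rfl : x = 0 := by
    ext i j
    have h3 : x i i = -x i i := congrFun (congrFun h2 i) i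
    rw [Subsingleton.elim j i, Matrix.zero_apply]
    linear_combination h3 / 2
  obtain ⟨v, rfl⟩ : ∃ v, U = col1 v := ⟨fun i => U i 0, by
    ext i j
    rw [Subsingleton.elim j 0]
    rfl⟩
  obtain ⟨k1, k2, k3⟩ := blk_sq_zero h.2
  refine ⟨w, v, ⟨h1, ?_, funext fun i => ?_, ?_⟩, rfl⟩
  · rw [k1]
    ext i j
    simp [col1, mul_apply, vecMulVec_apply]
  · rw [Matrix.mul_zero, add_zero] at k2
    exact congrFun (congrFun k2 i) 0
  · rw [Matrix.mul_zero] at k3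
    exact (congrFun (congrFun k3 0) 0).symm

theorem cq_blk (S : T4 n) (H : Mat n) (w : CMat n) (v : Fin n → ℂ) :
    (cq (ext4 1 S H 0) (blk w (col1 v) 0) (blk w (col1 v) 0)).re =
      4 * (rq S w + (hf H v v).re) := by
  rw [cq_ext4_re _ _ _ _ _ zero_skew, hq_col1, rq]
  ring

theorem active {S : T4 n} (hS : IsCurv S) {α : ℝ}
    (h : ∀ w v, T321 w v → 0 ≤ rq S w + α * (hf (ric4 S) v v).re) {w : CMat n} {v : Fin n → ℂ}
    (hw : T321 w v) (h0 : rq S w + α * (hf (ric4 S) v v).re = 0) :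
    0 ≤ rq (Qq4 S) w + α ^ 2 / 2 * rq (kn (ric4 S) (ric4 S)) w +
      α * (hf (ric4 (Qq4 S)) v v).re := by
  have h1 := (ext_min hS.isOp ((ric4_isSymm hS).smul α) 0 hw.1 (col1 v) zero_skew
    (min_of_invariant sqZero_invariant (fun u hu => by
      obtain ⟨w', v', k1, rfl⟩ := exists_of_mem hu
      rw [cq_blk, hf_smul, Complex.re_ofReal_mul]
      linarith only [h, k1, h w' v' k1]) (blk_mem hw) (by
      rw [cq_blk, hf_smul, Complex.re_ofReal_mul, h0, mul_zero]))).1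
  rw [mul_zero, zero_smul, add_zero, st4_smul_right, ← ric4_Qq4 hS, hq_col1, hf_smul,
    kn_smul_left, kn_smul_right, cq_smul, cq_smul, Complex.re_ofReal_mul, Complex.re_ofReal_mul,
    Complex.re_ofReal_mul, show nsq (0 : CMat 1) = 0 by simp [nsq], Nat.cast_one] at h1
  rw [rq, rq]
  linarith only [h1, nsq_nonneg (cop S w)]

/-- The test function as a linear functional. -/
def EL (b α : ℝ) (w : CMat n) (v : Fin n → ℂ) : T4 n →ₗ[ℝ] ℝ where
  toFun R := rq (linv b R) w + α * (hf (ric4 (linv b R)) v v).re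
  map_add' R S := by
    simp only [(isLinearMap_linv b).map_add, S2.rq_add, ric4_add, hf_add, Complex.add_re]
    ring
  map_smul' c R := by
    simp only [(isLinearMap_linv b).map_smul, S2.rq_smul, ric4_smul, hf_smul,
      Complex.re_ofReal_mul, RingHom.id_apply, smul_eq_mul]
    ring

theorem EL_apply (b α : ℝ) (w : CMat n) (v : Fin n → ℂ) (R : T4 n) :
    EL b α w v R = rq (linv b R) w + α * (hf (ric4 (linv b R)) v v).re := rfl

/-- The compact test space. -/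
def KE (n : ℕ) : Set (CMat n × (Fin n → ℂ)) := {p | T321 p.1 p.2 ∧ nsq p.1 + nv p.2 = 1}

theorem isCompact_KE : IsCompact (KE n) := by
  have hc : Continuous (nv : (Fin n → ℂ) → ℝ) := by unfold nv; fun_prop
  refine ((isCompact_box _ _ 1).prod (isCompact_closedBall (0 : Fin n → ℂ) 1)).of_isClosed_subset
    ?_ ?_
  · refine IsClosed.inter (IsClosed.inter (isClosed_eq ?_ ?_) (IsClosed.inter (isClosed_eq ?_ ?_)
      (IsClosed.inter (isClosed_eq ?_ ?_) (isClosed_eq ?_ ?_))))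
      (isClosed_eq ((continuous_nsq.comp continuous_fst).add (hc.comp continuous_snd)) ?_) <;>
      fun_prop
  · rintro ⟨w, v⟩ ⟨-, h⟩
    have h1 := nsq_nonneg w
    have h2 := s3_nv_nonneg v
    refine ⟨fun i j => (normSq_le_nsr w i j).trans (by change nsq w ≤ 1; linarith only [h, h2]), ?_⟩
    rw [mem_closedBall_zero_iff, pi_norm_le_iff_of_nonneg zero_le_one]
    intro i
    have h3 : Complex.normSq (v i) ≤ nv v := Finset.single_le_sum
      (f := fun i => Complex.normSq (v i)) (fun _ _ => Complex.normSq_nonneg _) (Finset.mem_univ i)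
    rw [Complex.normSq_eq_norm_sq] at h3
    exact (sq_le_one_iff₀ (norm_nonneg _)).1 (by change ‖v i‖ ^ 2 ≤ 1; linarith)

theorem nv_eq_zero {v : Fin n → ℂ} (h : nv v = 0) : v = 0 := by
  funext i
  exact Complex.normSq_eq_zero.1 ((Finset.sum_eq_zero_iff_of_nonneg fun _ _ =>
    Complex.normSq_nonneg _).1 h i (Finset.mem_univ _))

theorem extN_of {b α : ℝ} {R : T4 n} (h : ∀ p : KE n, 0 ≤ EL b α p.1.1 p.1.2 R) : ExtN b α R := by
  intro w v hw
  have h1 := nsq_nonneg w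
  have h2 := s3_nv_nonneg v
  rcases (add_nonneg h1 h2).eq_or_lt with h3 | h3
  · rw [nsq_eq_zero (by linarith only [h1, h2, h3] : nsq w = 0), nv_eq_zero (by linarith : nv v = 0)]
    simp [rq, cq, hf]
  · have e : Complex.normSq (√(nsq w + nv v)⁻¹ : ℝ) = (nsq w + nv v)⁻¹ := by
      rw [Complex.normSq_ofReal, Real.mul_self_sqrt (by positivity)]
    generalize ((√(nsq w + nv v)⁻¹ : ℝ) : ℂ) = c at e
    have h4 : 0 ≤ rq (linv b R) (c • w) + α * (hf (ric4 (linv b R)) (c • v) (c • v)).re :=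
      h ⟨(c • w, c • v), ⟨by rw [transpose_smul, hw.1, smul_neg], by
        rw [Matrix.smul_mul, Matrix.mul_smul, hw.2.1, smul_vecMulVec, vecMulVec_smul], by
        rw [smul_mulVec, mulVec_smul, hw.2.2.1, smul_zero, smul_zero], by simp [hw.2.2.2]⟩, by
        rw [nsq_smul, s3_nv_smul, e, ← mul_add, inv_mul_cancel₀ h3.ne']⟩
    rw [S2.rq_smul_right, hf_smul_self, Complex.re_ofReal_mul, mul_left_comm, ← mul_add, e] at h4
    exact nonneg_of_mul_nonneg_right h4 (inv_pos.2 h3)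

theorem cont_aux : Continuous fun p : (ℝ × T4 n) × CMat n × (Fin n → ℂ) =>
    rq p.1.2 p.2.1 + p.1.1 * (hf (ric4 p.1.2) p.2.2 p.2.2).re := by
  simp only [rq, cq, hf, ric4]
  fun_prop

theorem cont_linv (R : T4 8) : ContinuousOn (fun b => linv b R) (Ici 0) := by
  have h2 : Continuous (aa 8) := by unfold aa; fun_prop
  refine (continuousOn_const.sub ((ContinuousOn.div (by fun_prop) (by fun_prop) fun b h =>
    (AD_a (by norm_num) h).ne').mul continuousOn_const |>.smul continuousOn_const)).sub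
    ((ContinuousOn.div (by fun_prop) (by fun_prop) fun b h =>
    (AD_b (by norm_num) h).ne').smul continuousOn_const)

theorem cont_EL (R : T4 8) : ContinuousOn (fun p : ℝ × KE 8 =>
    EL (1 / 29 - p.1) √(2 * aa 8 (1 / 29 - p.1)) p.2.1.1 p.2.1.2 R) (Icc 0 (1 / 29) ×ˢ univ) := by
  have h2 : Continuous (aa 8) := by unfold aa; fun_prop
  have h1 : ContinuousOn (fun p : ℝ × KE 8 => linv (1 / 29 - p.1) R) (Icc 0 (1 / 29) ×ˢ univ) :=
    (cont_linv R).comp (by fun_prop) fun p hp => sub_nonneg.2 hp.1.2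
  have h3 : Continuous fun p : ℝ × KE 8 => √(2 * aa 8 (1 / 29 - p.1)) := by fun_prop
  have h4 : Continuous fun p : ℝ × KE 8 => (p.2 : CMat 8 × (Fin 8 → ℂ)) :=
    continuous_subtype_val.comp continuous_snd
  have h5 := cont_aux.comp_continuousOn ((h3.continuousOn.prodMk h1).prodMk h4.continuousOn)
  simpa only [Function.comp_def, EL_apply] using h5

end N8D

open N8D in
theorem n8_D {T : ℝ} {W : ℝ → Set (T4 8)} (hW : CurvFlow 8 T W)
    (h : AsymP T W fun R => Gb (1 / 8) (1 / 32) R ∧ PIC2w R ∧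
      Pos 4 (fun _ _ => True) (linv (1 / 8) R) ∧ ExtN (1 / 29) (8 / 29) R) :
    AsymP T W P321 := by
  have : CompactSpace (KE 8) := isCompact_iff_compactSpace.1 isCompact_KE
  have e0 : √(2 * aa 8 (1 / 29 - 0)) = 8 / 29 := by
    rw [Real.sqrt_eq_iff_mul_self_eq (by norm_num [aa]) (by norm_num)]
    norm_num [aa]
  have h1 := h.family hW (a := 0) (b := 1 / 29) (l := fun s (p : KE 8) =>
    EL (1 / 29 - s) √(2 * aa 8 (1 / 29 - s)) p.1.1 p.1.2) (by norm_num) cont_EL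
    (fun s hs R hR hne hP hall p hp => by
      have hb : 0 < 1 / 29 - s := sub_pos.2 hs.2
      have hb1 : 1 / 29 - s ≤ 1 / 29 := sub_le_self _ hs.1
      generalize 1 / 29 - s = b at *
      have hl : 0 < lb R := div_pos (hP.2.1.picw.scal_pos (by norm_num) hR hne) (by norm_num)
      have hS := isCurv_linv hR b
      obtain ⟨⟨w, v⟩, hw, hn⟩ := p
      have ha : 0 < 2 * aa 8 b := by rw [aa, Nat.cast_ofNat]; positivity
      have k0 : rq (linv b R) w + √(2 * aa 8 b) * (hf (ric4 (linv b R)) v v).re = 0 := hp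
      have k1 := active hS (extN_of hall) hw k0
      rw [Real.sq_sqrt ha.le] at k1
      have k2 : 0 < nv v := by
        refine lt_of_le_of_ne (s3_nv_nonneg v) fun h0 => ?_
        obtain rfl := nv_eq_zero h0.symm
        have k3 := margin hb hb1 hR hP.1 hl hP.2.2.1 hw.1 (hw.2.1.trans (by simp))
          (by rw [← h0, add_zero] at hn; rw [hn]; exact one_pos)
        simp [hf, k3.ne'] at k0
      have k3 := mul_pos (Real.sqrt_pos.2 ha) (ricD_pos hb hb1 hR hP.1 hl hP.2.1 hw.2.2.2 k2)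
      have k4 : 0 ≤ b ^ 2 * rq (kn (ric0 (linv b R) * ric0 (linv b R)) 1) w := by
        refine mul_nonneg (sq_nonneg _) ?_
        rw [rq_kn_skew _ hw.1]
        exact Finset.sum_nonneg fun j _ => hf_sq_nonneg (ric0_isSymm hS) _
      have k5 : 0 ≤ cc 8 b * sg (linv b R) * rq (Id4 8) w := by
        rw [rq_Id4 hw.1]
        exact mul_nonneg (mul_nonneg (cc_nonneg hb hb1) (sg_nonneg hS))
          (div_nonneg (nsq_nonneg w) zero_le_two)
      change 0 < rq (linv b (Qq4 R)) w + √(2 * aa 8 b) * (hf (ric4 (linv b (Qq4 R))) v v).re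
      rw [linv_Qq4 (by norm_num) hb.le hR, ric4_add, S2.hf_add, Complex.add_re, rq_add]
      rw [show rq (DD b (linv b R)) w = _ by rw [DD, rq_add, rq_add, rq_smul, rq_smul, rq_smul]]
      linarith only [k1, k3, k4, k5])
    (h.start hW (fun R => by
      have h2 := (cont_EL R).comp_continuous (f := fun p : KE 8 => ((0 : ℝ), p)) (by fun_prop)
        fun p => ⟨⟨le_rfl, by norm_num⟩, mem_univ _⟩
      exact h2) fun R _ hP p => by
      rw [e0, sub_zero]
      exact hP.2.2.2 _ _ p.2.1)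
  refine ⟨_, _, h1, fun R _ h2 w v hw => ?_⟩
  have h3 := extN_of h2 w v hw
  simpa [linv_zero, aa] using h3

end

end Pool.Agent.Work.MP_3a9764_gt
end

-- merged part: Pool.Agent.Work.MP_3a9764_gt.N8Nf
section
/-! The normal form of the test bivectors in dimension eight. -/

set_option autoImplicit false

open Filter Set Matrix
open scoped Topology ComplexConjugate

namespace Pool.Agent.Work.MP_3a9764_gt

noncomputable section

variable {N : ℕ}

theorem nf_skew {w : CMat N} (hw : wᵀ = -w) (x y : Fin N → ℂ) :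
    x ⬝ᵥ w *ᵥ y = -(y ⬝ᵥ w *ᵥ x) := by
  rw [dotProduct_mulVec, ← mulVec_transpose, hw, neg_mulVec, neg_dotProduct, dotProduct_comm]

theorem nf_wedge_mulVec (a y x : Fin N → ℂ) : wedge a y *ᵥ x = (y ⬝ᵥ x) • a - (a ⬝ᵥ x) • y := by
  rw [wedge, sub_mulVec, vecMulVec_mulVec, vecMulVec_mulVec, op_smul_eq_smul, op_smul_eq_smul]

theorem nf_peel {w : CMat N} (hw : wᵀ = -w) {a : Fin N → ℂ} (h0 : a ⬝ᵥ a = 0)
    (h1 : star a ⬝ᵥ a = 1) (h2 : w *ᵥ a = 0) {g : ℂ} (h3 : w * w = g • vecMulVec a a) :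
    ∃ (y : Fin N → ℂ) (β : CMat N), w = wedge a y + β ∧ y = -(w *ᵥ star a) ∧ y ⬝ᵥ a = 0 ∧
      star a ⬝ᵥ y = 0 ∧ y ⬝ᵥ y = -g ∧ βᵀ = -β ∧ β * β = 0 ∧ β *ᵥ a = 0 ∧ β *ᵥ star a = 0 ∧
      β *ᵥ y = 0 ∧ ∀ x, w *ᵥ x = 0 → a ⬝ᵥ x = 0 → y ⬝ᵥ x = 0 ∧ β *ᵥ x = 0 := by
  obtain ⟨y, hy⟩ : ∃ y, y = -(w *ᵥ star a) := ⟨_, rfl⟩
  obtain ⟨β, hβ⟩ : ∃ β, β = w - wedge a y := ⟨_, rfl⟩
  have k0 : ∀ x, w *ᵥ x = 0 → a ⬝ᵥ x = 0 → y ⬝ᵥ x = 0 ∧ β *ᵥ x = 0 := fun x k1 k2 => by
    have k3 : y ⬝ᵥ x = 0 := by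
      rw [hy, neg_dotProduct, dotProduct_comm, nf_skew hw, k1, dotProduct_zero, neg_neg]
    exact ⟨k3, by rw [hβ, sub_mulVec, nf_wedge_mulVec, k1, k2, k3]; simp⟩
  have k1 : star a ⬝ᵥ y = 0 := by
    have k2 := nf_skew hw (star a) (star a)
    rw [hy, dotProduct_neg]
    linear_combination -k2 / 2
  have k2 : βᵀ = -β := by rw [hβ, transpose_sub, hw, wedge_skew, neg_sub_neg, neg_sub]
  have k3 : β *ᵥ star a = 0 := by
    rw [hβ, sub_mulVec, nf_wedge_mulVec, dotProduct_comm y, k1, dotProduct_comm a, h1, hy]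
    simp
  have k4 : w *ᵥ y = -(g • a) := by
    rw [hy, mulVec_neg, mulVec_mulVec, h3, smul_mulVec, vecMulVec_mulVec, dotProduct_comm a, h1]
    simp
  have k5 : β *ᵥ y = -((g + y ⬝ᵥ y) • a) := by
    rw [hβ, sub_mulVec, nf_wedge_mulVec, k4, dotProduct_comm a, (k0 a h2 h0).1]
    module
  have k6 : g + y ⬝ᵥ y = 0 := by
    have k7 := nf_skew k2 (star a) y
    rw [k3, k5, dotProduct_neg, dotProduct_smul, h1, dotProduct_zero, smul_eq_mul] at k7
    linear_combination -k7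
  rw [k6, zero_smul, neg_zero] at k5
  have k7 : β * wedge a y = 0 := by
    rw [wedge, Matrix.mul_sub, mul_vecMulVec, mul_vecMulVec, k5, (k0 a h2 h0).2]
    simp
  have k8 : wedge a y * β = 0 := by
    have k9 := congrArg transpose k7
    rwa [transpose_mul, k2, wedge_skew, neg_mul_neg, transpose_zero] at k9
  have e : w = wedge a y + β := by rw [hβ, add_sub_cancel]
  have k9 : wedge a y * wedge a y = g • vecMulVec a a := by
    simp only [wedge, Matrix.sub_mul, Matrix.mul_sub, vecMulVec_mul_vecMulVec, h0,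
      (k0 a h2 h0).1, dotProduct_comm a y, zero_smul, vecMulVec_zero]
    ext i j
    simp only [Matrix.sub_apply, Matrix.zero_apply, vecMulVec_apply, Pi.smul_apply, smul_eq_mul,
      Matrix.smul_apply]
    linear_combination -(a i * a j) * k6
  refine ⟨y, β, e, hy, (k0 a h2 h0).1, k1, by linear_combination k6, k2, ?_, (k0 a h2 h0).2, k3,
    k5, k0⟩
  rw [e, Matrix.add_mul, Matrix.mul_add, Matrix.mul_add, k7, k8, k9] at h3
  simpa using h3

theorem nf_two {a y : Fin 8 → ℂ} (h0 : a ⬝ᵥ a = 0) (h1 : star a ⬝ᵥ a = 1) (hy : y ⬝ᵥ y ≠ 0)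
    (h2 : y ⬝ᵥ a = 0) {β : CMat 8} (k1 : βᵀ = -β) (k2 : β * β = 0) (k3 : β *ᵥ a = 0)
    (k4 : β *ᵥ star a = 0) (k5 : β *ᵥ y = 0) : ∃ (b c : Fin 8 → ℂ) (μ : ℂ), Fr3 a b c ∧
      y ⬝ᵥ b = 0 ∧ y ⬝ᵥ c = 0 ∧ β = μ • wedge b c := by
  by_cases hβ : β = 0
  · obtain ⟨b, b1, b2, b3⟩ := fr_new (ι := Fin 2) (N := 8) (by simp) ![a, y]
    obtain ⟨c, c1, c2, c3⟩ := fr_new (ι := Fin 3) (N := 8) (by simp) ![a, y, b]
    exact ⟨b, c, 0, ⟨h0, (b3 0).1, (c3 0).1, b1, (c3 2).1, c1, h1, (b3 0).2.1, (c3 0).2.1, b2,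
      (c3 2).2.1, c2⟩, (b3 1).1, (c3 1).1, by rw [hβ, zero_smul]⟩
  obtain ⟨x, hx⟩ : ∃ x, β *ᵥ x ≠ 0 := by
    by_contra h
    push Not at h
    exact hβ (Matrix.ext_iff_mulVec.2 fun x => by rw [h, zero_mulVec])
  obtain ⟨r, b, hr, b1, b2⟩ := s3_unit hx
  have im : ∀ t, β *ᵥ t = 0 → t ⬝ᵥ b = 0 := fun t ht => by
    have h3 := nf_skew k1 t x
    rw [ht, b2, dotProduct_smul, dotProduct_zero, neg_zero] at h3
    exact (smul_eq_zero_iff_right hr).1 h3
  have b3 : β *ᵥ b = 0 := by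
    have h3 : β *ᵥ β *ᵥ x = 0 := by rw [mulVec_mulVec, k2, zero_mulVec]
    rw [b2, mulVec_smul] at h3
    exact (smul_eq_zero_iff_right hr).1 h3
  obtain ⟨c', β', e, c0, c1, c2, c3, m1, m2, m3, m4, m5, m6⟩ :=
    nf_peel k1 (im b b3) b1 b3 (g := 0) (by rw [k2, zero_smul])
  have hc : c' ≠ 0 := fun h => by
    have h3 := nf_skew k1 (star b) x
    rw [← neg_neg (β *ᵥ star b), ← c0, h, b2, dotProduct_smul, b1] at h3
    simp [hr] at h3
  obtain ⟨μ, c, hμ, c4, rfl⟩ := s3_unit hc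
  have a1 := m6 a k3 ((dotProduct_comm _ _).trans (im a k3))
  have a2 := m6 (star a) k4 ((dotProduct_comm _ _).trans (im _ k4))
  have a3 := m6 y k5 ((dotProduct_comm _ _).trans (im _ k5))
  simp only [smul_dotProduct, dotProduct_smul, mulVec_smul, neg_zero,
    smul_eq_zero_iff_right hμ] at c1 c2 c3 m5 a1 a2 a3
  have hF : Fr3 a b c := ⟨h0, im a k3, (dotProduct_comm _ _).trans a1.1, im b b3,
    (dotProduct_comm _ _).trans c1, c3, h1, im _ k4, (dotProduct_comm _ _).trans a2.1, b1, c2, c4⟩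
  obtain ⟨d, hd⟩ := hF.ext4 le_rfl
  have yb : y ⬝ᵥ b = 0 := im y k5
  have yc : y ⬝ᵥ c = 0 := (dotProduct_comm _ _).trans a3.1
  have dd : star d ⬝ᵥ star d = 0 := hd.flip.dd
  have yy : y ⬝ᵥ y = 2 * ((star d ⬝ᵥ y) * (y ⬝ᵥ d)) := by
    have h3 := congrArg (y ⬝ᵥ ·) (dec8 hd y)
    simp only [dotProduct_add, dotProduct_smul, smul_eq_mul, h2, yb, yc, mul_zero, zero_mul,
      zero_add, add_zero, dotProduct_comm y (star d)] at h3
    rw [h3]; ring
  have p0 : star d ⬝ᵥ y ≠ 0 := fun h => hy (by rw [yy, h]; simp)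
  have q0 : y ⬝ᵥ d ≠ 0 := fun h => hy (by rw [yy, h]; simp)
  have ker : ∀ s t, β' *ᵥ s = 0 → s ⬝ᵥ β' *ᵥ t = 0 := fun s t hs => by
    rw [nf_skew m1, hs, dotProduct_zero, neg_zero]
  have self : ∀ t, t ⬝ᵥ β' *ᵥ t = 0 := fun t => by linear_combination nf_skew m1 t t / 2
  have dec : ∀ t, star c ⬝ᵥ β' *ᵥ t = 0 →
      β' *ᵥ t = (star d ⬝ᵥ β' *ᵥ t) • d + (d ⬝ᵥ β' *ᵥ t) • star d ∧
      (star d ⬝ᵥ β' *ᵥ t) * (y ⬝ᵥ d) + (d ⬝ᵥ β' *ᵥ t) * (star d ⬝ᵥ y) = 0 := fun t ht => by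
    have h3 := dec8 hd (β' *ᵥ t)
    simp only [dotProduct_comm (β' *ᵥ t), ker _ t a1.2, ker _ t a2.2, ker _ t m3, ker _ t m4,
      ker _ t m5, ht, zero_smul, zero_add, add_zero] at h3
    refine ⟨h3, ?_⟩
    have h4 := ker _ t a3.2
    rw [h3] at h4
    simpa only [dotProduct_add, dotProduct_smul, smul_eq_mul, dotProduct_comm y (star d)] using h4
  have z1 : β' *ᵥ star c = 0 := by
    obtain ⟨h3, h4⟩ := dec _ (self _)
    have h5 : (β' *ᵥ star c) ⬝ᵥ β' *ᵥ star c = 0 :=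
      ker _ _ (by rw [mulVec_mulVec, m2, zero_mulVec])
    generalize star d ⬝ᵥ β' *ᵥ star c = s at h3 h4
    generalize d ⬝ᵥ β' *ᵥ star c = t at h3 h4
    rw [h3] at h5 ⊢
    simp only [add_dotProduct, dotProduct_add, smul_dotProduct, dotProduct_smul, smul_eq_mul,
      hd.dd, dd, hd.sdd, dotProduct_comm d (star d)] at h5
    have h6 : s = 0 := by
      have : s * s * (y ⬝ᵥ d) = 0 := by linear_combination s * h4 - (star d ⬝ᵥ y) / 2 * h5
      simpa [q0] using this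
    have h7 : t = 0 := by simpa [h6, p0] using h4
    simp [h6, h7]
  have z2 : β' *ᵥ d = 0 := by
    obtain ⟨h3, h4⟩ := dec d (ker _ _ z1)
    rw [self d, zero_mul, add_zero] at h4
    rw [h3, self d, (mul_eq_zero_iff_right q0).1 h4]
    simp
  have z3 : β' *ᵥ star d = 0 := by
    obtain ⟨h3, h4⟩ := dec (star d) (ker _ _ z1)
    rw [h3, self (star d), ker _ _ z2]
    simp
  have z4 : β' = 0 := Matrix.ext_iff_mulVec.2 fun t => by
    rw [dec8 hd t]
    simp only [mulVec_add, mulVec_smul, a1.2, a2.2, m3, m4, m5, z1, z2, z3, smul_zero, add_zero,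
      zero_mulVec]
  refine ⟨b, c, μ, hF, yb, yc, ?_⟩
  rw [e, z4, add_zero]
  ext i j
  simp only [wedge, vecMulVec_apply, Matrix.sub_apply, Matrix.smul_apply, Pi.smul_apply,
    smul_eq_mul]
  ring

/-- The normal form with complex coefficients. -/
theorem n8_nf {w : CMat 8} {v : Fin 8 → ℂ} (h : T321 w v) (hv : v ≠ 0) :
    ∃ (a b c d : Fin 8 → ℂ) (p q ξ μ γ : ℂ), Fr4 a b c d ∧
      w = wedge a (p • d + q • star d + ξ • b) + μ • wedge b c ∧ v = γ • a ∧
      γ * γ = -(2 * (p * q)) := by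
  obtain ⟨γ, a, hγ, a1, rfl⟩ := s3_unit hv
  obtain ⟨h1, h2, h3, h4⟩ := h
  simp only [smul_dotProduct, dotProduct_smul, mulVec_smul, smul_eq_zero_iff_right hγ] at h3 h4
  obtain ⟨y, β, e, -, y1, y2, y3, k1, k2, k3, k4, k5, -⟩ := nf_peel h1 h4 a1 h3 (g := γ * γ)
    (by rw [h2, smul_vecMulVec, vecMulVec_smul, smul_smul])
  obtain ⟨b, c, μ, hF, yb, yc, rfl⟩ := nf_two h4 a1
    (by rw [y3]; exact neg_ne_zero.2 (mul_ne_zero hγ hγ)) y1 k1 k2 k3 k4 k5
  obtain ⟨d, hd⟩ := hF.ext4 le_rfl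
  obtain ⟨α, δ, r1, r2⟩ := s3_perp2 (star c ⬝ᵥ y) (-(star b ⬝ᵥ y))
  have hd' := hd.rot12 r1
  have r3 : star (-conj δ • b + conj α • c) ⬝ᵥ y = 0 := by
    simp only [star_add, star_smul, add_dotProduct, smul_dotProduct, smul_eq_mul, star_neg,
      Complex.star_def, Complex.conj_conj]
    linear_combination r2
  have h5 := dec8 hd' y
  simp only [y1, y2, r3, dotProduct_add, dotProduct_smul, yb, yc, smul_zero, zero_smul, zero_add,
    add_zero] at h5
  refine ⟨a, _, _, d, star d ⬝ᵥ y, y ⬝ᵥ d, star (α • b + δ • c) ⬝ᵥ y, μ, γ, hd', ?_, rfl, ?_⟩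
  · rw [e]
    congr 1
    · congr 1
      rw [add_comm]
      exact h5.trans (add_assoc _ _ _)
    · congr 1
      ext i j
      simp only [wedge, vecMulVec_apply, Matrix.sub_apply, Pi.add_apply, Pi.smul_apply,
        smul_eq_mul]
      linear_combination -(b i * c j - c i * b j) * r1
  · have h6 := congrArg (y ⬝ᵥ ·) (dec8 hd y)
    simp only [dotProduct_add, dotProduct_smul, smul_eq_mul, y1, yb, yc, mul_zero, zero_mul,
      zero_add, add_zero, dotProduct_comm y (star d)] at h6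
    linear_combination y3 - h6

theorem nf_phase (z : ℂ) : ∃ ω : ℂ, conj ω * ω = 1 ∧ z = (‖z‖ : ℂ) * ω :=
  ⟨Complex.exp (z.arg * Complex.I), by
    rw [← Complex.normSq_eq_conj_mul_self, Complex.normSq_eq_norm_sq, Complex.norm_exp_ofReal_mul_I]
    simp, (Complex.norm_mul_exp_arg_mul_I z).symm⟩

theorem Fr4.phase {a b c d : Fin N → ℂ} (h : Fr4 a b c d) {s t u x : ℂ} (hs : conj s * s = 1)
    (ht : conj t * t = 1) (hu : conj u * u = 1) (hx : conj x * x = 1) :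
    Fr4 (s • a) (t • b) (u • c) (x • d) := by
  constructor <;>
    simp only [star_smul, smul_dotProduct, dotProduct_smul, smul_eq_mul, h.aa, h.ab, h.ac, h.ad,
      h.bb, h.bc, h.bd, h.cc, h.cd, h.dd, h.saa, h.sab, h.sac, h.sad, h.sbb, h.sbc, h.sbd, h.scc,
      h.scd, h.sdd, mul_zero, mul_one, Complex.star_def]
  exacts [by linear_combination hs, by linear_combination ht, by linear_combination hu,
    by linear_combination hx]

/-- The normal form with non-negative coefficients. -/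
theorem n8_nf' {w : CMat 8} {v : Fin 8 → ℂ} (h : T321 w v) (hv : v ≠ 0) :
    ∃ (a b c d : Fin 8 → ℂ) (p q ξ μ : ℝ) (γ : ℂ), Fr4 a b c d ∧ 0 ≤ p ∧ 0 ≤ q ∧ 0 ≤ ξ ∧ 0 ≤ μ ∧
      w = wedge a ((p : ℂ) • d + (q : ℂ) • star d + (ξ : ℂ) • b) + (μ : ℂ) • wedge b c ∧
      v = γ • a ∧ Complex.normSq γ = 2 * (p * q) := by
  obtain ⟨a, b, c, d, p, q, ξ, μ, γ, hF, h1, h2, h3⟩ := n8_nf h hv
  obtain ⟨ωp, p1, p2⟩ := nf_phase p
  obtain ⟨ωq, q1, q2⟩ := nf_phase q
  obtain ⟨ωx, x1, x2⟩ := nf_phase ξ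
  obtain ⟨ωm, m1, m2⟩ := nf_phase μ
  obtain ⟨s, hs⟩ := IsAlgClosed.exists_eq_mul_self (ωp * ωq)
  have s1 : conj s * s = 1 := by
    have k1 : Complex.normSq s * Complex.normSq s = 1 := by
      apply Complex.ofReal_injective
      rw [← map_mul, ← hs, Complex.normSq_eq_conj_mul_self, map_mul, Complex.ofReal_one]
      linear_combination conj ωq * ωq * p1 + q1
    rw [← Complex.normSq_eq_conj_mul_self,
      (mul_self_eq_one_iff.1 k1).resolve_right (by linarith only [Complex.normSq_nonneg s]),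
      Complex.ofReal_one]
  refine ⟨s • a, (ωx * conj s) • b, (ωm * conj ωx * s) • c, (ωp * conj s) • d, ‖p‖, ‖q‖, ‖ξ‖, ‖μ‖,
    γ * conj s, hF.phase s1 ?_ ?_ ?_, norm_nonneg _, norm_nonneg _, norm_nonneg _, norm_nonneg _,
    ?_, by rw [smul_smul, mul_assoc, s1, mul_one, h2], ?_⟩
  · simp only [map_mul, Complex.conj_conj]
    linear_combination conj s * s * x1 + s1
  · simp only [map_mul, Complex.conj_conj]
    linear_combination conj s * s * (conj ωx * ωx) * m1 + conj s * s * x1 + s1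
  · simp only [map_mul, Complex.conj_conj]
    linear_combination conj s * s * p1 + s1
  · have e1 : s * (ωp * conj s) = ωp := by linear_combination ωp * s1
    have e2 : s * (conj ωp * s) = ωq := by linear_combination ωq * p1 - conj ωp * hs
    have e3 : s * (ωx * conj s) = ωx := by linear_combination ωx * s1
    have e4 : ωx * conj s * (ωm * conj ωx * s) = ωm := by
      linear_combination ωm * (conj s * s) * x1 + ωm * s1
    rw [h1]
    ext i j
    simp only [wedge, vecMulVec_apply, Matrix.sub_apply, Matrix.add_apply, Matrix.smul_apply,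
      Pi.add_apply, Pi.smul_apply, smul_eq_mul, star_smul, Complex.star_def, map_mul,
      Complex.conj_conj]
    linear_combination (a i * d j - d i * a j) * (p2 - (‖p‖ : ℂ) * e1) +
      (a i * star d j - star d i * a j) * (q2 - (‖q‖ : ℂ) * e2) +
      (a i * b j - b i * a j) * (x2 - (‖ξ‖ : ℂ) * e3) +
      (b i * c j - c i * b j) * (m2 - (‖μ‖ : ℂ) * e4)
  · have e1 : Complex.normSq s = 1 := by
      apply Complex.ofReal_injective
      rw [Complex.normSq_eq_conj_mul_self, s1, Complex.ofReal_one]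
    rw [map_mul, Complex.normSq_conj, e1, mul_one, Complex.normSq_eq_norm_sq, sq, ← norm_mul, h3,
      norm_neg, norm_mul, norm_mul, Complex.norm_ofNat]

end

end Pool.Agent.Work.MP_3a9764_gt
end

-- merged part: Pool.Agent.Work.MP_3a9764_gt.N8C3b
section
-- merged part: Pool.Agent.Work.MP_3a9764_gt.N8C3a
section
/-! Linear consequences of the isotropic inequalities between sectional curvatures. -/

set_option autoImplicit false

namespace Pool.Agent.Work.MP_3a9764_gt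

theorem c3_lin (K : Fin 8 → Fin 8 → ℝ) (hs : ∀ i j, K j i = K i j) (h0 : ∀ i, K i i = 0)
    (hI : ∀ i j k l, i ≠ j → k ≠ l → i ≠ k → i ≠ l → j ≠ k → j ≠ l →
      0 ≤ K i k + K i l + K j k + K j l) (r : Fin 8 → ℝ) (hr : ∀ i, 2 * r i = ∑ j, K i j) {lam : ℝ}
    (hl0 : 0 ≤ lam) (hl : 16 * lam = ∑ i, r i)
    (hQ : ∀ i j, i ≠ j → 0 ≤ K i j + 3 / 8 * lam + (r i + r j) / 4)
    {A B C ra rb : ℝ} (hA : 4 * A = K 0 7 + K 1 7) (hB : 8 * B = K 0 4 + K 0 5 + K 1 4 + K 1 5)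
    (hC : 8 * C = K 2 6 + K 2 7 + K 3 6 + K 3 7) (ha : 4 * ra = r 0 + r 1)
    (hb : 4 * rb = r 2 + r 3) :
    49 / 100 * A + 149 / 200 * B ≤ 4 / 5 * ra + 93 / 200 * lam ∧
    49 / 100 * A + 149 / 200 * B + 4 * (1 / 8 * C) ≤
      4 / 5 * ra + 93 / 200 * lam + 4 * (3 / 40 * rb + 11 / 500 * lam) ∧
    49 / 100 * A + B + 4 * (63 / 1000 * C) ≤
      4 / 5 * ra + 93 / 200 * lam + 4 * (3 / 40 * rb + 11 / 500 * lam) ∧
    63 / 1000 * C ≤ 3 / 40 * rb + 11 / 500 * lam := by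
  have r0 := hr 0
  have r1 := hr 1
  have r2 := hr 2
  have r3 := hr 3
  have r4 := hr 4
  have r5 := hr 5
  have r6 := hr 6
  have r7 := hr 7
  simp only [Fin.sum_univ_eight, h0, hs 0 1, hs 0 2, hs 0 3, hs 0 4, hs 0 5, hs 0 6, hs 0 7, hs 1 2,
    hs 1 3, hs 1 4, hs 1 5, hs 1 6, hs 1 7, hs 2 3, hs 2 4, hs 2 5, hs 2 6, hs 2 7, hs 3 4, hs 3 5,
    hs 3 6, hs 3 7, hs 4 5, hs 4 6, hs 4 7, hs 5 6, hs 5 7, hs 6 7] at r0 r1 r2 r3 r4 r5 r6 r7 hl
  have J : ∀ i j k l : Fin 8, (i ≠ j ∧ k ≠ l ∧ i ≠ k ∧ i ≠ l ∧ j ≠ k ∧ j ≠ l) →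
      0 ≤ K i k + K i l + K j k + K j l := fun i j k l h =>
    hI i j k l h.1 h.2.1 h.2.2.1 h.2.2.2.1 h.2.2.2.2.1 h.2.2.2.2.2
  have q1 := hQ 0 1 (by decide)
  have q2 := hQ 2 3 (by decide)
  have n1 := J 0 1 2 3 (by decide)
  have n2 := J 0 1 4 5 (by decide)
  have n3 := J 0 1 6 7 (by decide)
  have n4 := J 2 3 4 5 (by decide)
  have n5 := J 4 5 6 7 (by decide)
  have a1 := J 0 1 2 6 (by decide)
  have a2 := J 0 1 3 6 (by decide)
  have b1 := J 0 2 1 6 (by decide)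
  have b2 := J 0 3 1 6 (by decide)
  have b3 := J 1 2 0 6 (by decide)
  have b4 := J 1 3 0 6 (by decide)
  have c1 := J 2 3 0 7 (by decide)
  have c2 := J 2 3 1 7 (by decide)
  have d1 := J 2 3 4 7 (by decide)
  have d2 := J 2 3 5 7 (by decide)
  have e1 := J 0 2 1 4 (by decide)
  have e2 := J 0 3 1 5 (by decide)
  have e3 := J 1 2 0 5 (by decide)
  have e4 := J 1 3 0 4 (by decide)
  have f1 := J 0 2 1 3 (by decide)
  have f2 := J 0 3 1 2 (by decide)
  have g1 := J 4 6 5 7 (by decide)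
  have g2 := J 4 7 5 6 (by decide)
  simp only [hs 0 1, hs 0 2, hs 0 3, hs 1 2, hs 1 3, hs 2 3, hs 5 6, hs 5 7, hs 6 7] at *
  refine ⟨?_, ?_, ?_, ?_⟩ <;> linarith only [hA, hB, ha, r0, r1, r2, r3, r4, r5, r6, r7, hl, q1, n1, n2, n5, a1, a2, d1, d2, b2, b3, c1, c2, e1, e2, e3, e4, f1, g1, g2, hC, hb, q2, n4, f2, n3, hl0]

end Pool.Agent.Work.MP_3a9764_gt
end

-- merged part: Pool.Agent.Work.MP_3a9764_gt.N8C3b
section
/-! Sectional curvatures in the real frame of a unitary isotropic four-frame. -/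

set_option autoImplicit false

open Filter Set Matrix Complex
open scoped Topology ComplexConjugate

namespace Pool.Agent.Work.MP_3a9764_gt

noncomputable section

variable {N : ℕ} {S : T4 N}

theorem c3_smul_wedge (c : ℂ) (x y : Fin N → ℂ) : wedge (c • x) y = c • wedge x y := by
  ext i j
  simp only [wedge, vecMulVec_apply, Matrix.sub_apply, Pi.smul_apply, smul_eq_mul,
    Matrix.smul_apply]
  ring

theorem c3_wedge_smul (c : ℂ) (x y : Fin N → ℂ) : wedge x (c • y) = c • wedge x y := by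
  ext i j
  simp only [wedge, vecMulVec_apply, Matrix.sub_apply, Pi.smul_apply, smul_eq_mul,
    Matrix.smul_apply]
  ring

theorem c3_comm (S : T4 N) (x y : Fin N → ℂ) : rq S (wedge y x) = rq S (wedge x y) := by
  rw [S2.wedge_comm, rq_smul_right]
  simp

theorem c3_conj (S : T4 N) (x y : Fin N → ℂ) :
    rq S (wedge (star x) (star y)) = rq S (wedge x y) := by
  have h : cq S (wedge (star x) (star y)) (wedge (star x) (star y)) =
      conj (cq S (wedge x y) (wedge x y)) := by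
    simp only [cq, map_sum, map_mul, conj_ofReal, wedge, Matrix.sub_apply, vecMulVec_apply,
      Pi.star_apply, star_def, map_sub]
  rw [rq, h, conj_re, rq]

theorem c3_parI (hS : IsOp S) (u v : CMat N) :
    rq S (u + I • v) + rq S (u - I • v) = 2 * rq S u + 2 * rq S v := by
  rw [s3_rq_par hS, rq_smul_right, normSq_I, one_mul]

theorem c3_I2 (hS : IsOp S) (hP : PICw S) {x z t : Fin N → ℂ} (xx : x ⬝ᵥ x = 0)
    (zt : z ⬝ᵥ t = 0) (zz : z ⬝ᵥ z = t ⬝ᵥ t) (xz : x ⬝ᵥ z = 0) (xt : x ⬝ᵥ t = 0) :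
    0 ≤ rq S (wedge x z) + rq S (wedge x t) := by
  have tz : t ⬝ᵥ z = 0 := by rwa [dotProduct_comm]
  have h1 := hP x (z + I • t) xx (by simp [xz, xt]) (by
    simp only [add_dotProduct, dotProduct_add, smul_dotProduct, dotProduct_smul, smul_eq_mul, zt, tz,
      zz]
    linear_combination (t ⬝ᵥ t) * I_mul_I)
  have h2 := hP x (z - I • t) xx (by simp [xz, xt]) (by
    simp only [sub_dotProduct, dotProduct_sub, smul_dotProduct, dotProduct_smul, smul_eq_mul, zt, tz,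
      zz]
    linear_combination (t ⬝ᵥ t) * I_mul_I)
  rw [s3_wedge_add, c3_wedge_smul] at h1
  rw [s3_wedge_sub, c3_wedge_smul] at h2
  linarith only [h1, h2, hS, c3_parI hS (wedge x z) (wedge x t)]

theorem c3_I4 (hS : IsOp S) (hP : PICw S) {x y z t : Fin N → ℂ} (xy : x ⬝ᵥ y = 0)
    (xx : x ⬝ᵥ x = y ⬝ᵥ y) (zt : z ⬝ᵥ t = 0) (zz : z ⬝ᵥ z = t ⬝ᵥ t) (xz : x ⬝ᵥ z = 0)
    (xt : x ⬝ᵥ t = 0) (yz : y ⬝ᵥ z = 0) (yt : y ⬝ᵥ t = 0) :
    0 ≤ rq S (wedge x z) + rq S (wedge x t) + rq S (wedge y z) + rq S (wedge y t) := by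
  have yx : y ⬝ᵥ x = 0 := by rwa [dotProduct_comm]
  have h1 := c3_I2 hS hP (x := x + I • y) (by
    simp only [add_dotProduct, dotProduct_add, smul_dotProduct, dotProduct_smul, smul_eq_mul, xy, yx,
      xx]
    linear_combination (y ⬝ᵥ y) * I_mul_I) zt zz (by simp [xz, yz]) (by simp [xt, yt])
  have h2 := c3_I2 hS hP (x := x - I • y) (by
    simp only [sub_dotProduct, dotProduct_sub, smul_dotProduct, dotProduct_smul, smul_eq_mul, xy, yx,
      xx]
    linear_combination (y ⬝ᵥ y) * I_mul_I) zt zz (by simp [xz, yz]) (by simp [xt, yt])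
  simp only [s3_add_wedge, s3_sub_wedge, c3_smul_wedge] at h1 h2
  linarith only [h1, h2, hS, c3_parI hS (wedge x z) (wedge y z), c3_parI hS (wedge x t) (wedge y t)]

theorem c3_split (hS : IsOp S) (z y : Fin N → ℂ) :
    rq S (wedge (z + star z) y) + rq S (wedge (I • (star z - z)) y) =
      2 * rq S (wedge z y) + 2 * rq S (wedge (star z) y) := by
  rw [c3_smul_wedge, rq_smul_right, normSq_I, one_mul, s3_add_wedge, s3_sub_wedge, add_comm (wedge z y),
    s3_rq_par hS, add_comm]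

theorem c3_split_real (hS : IsOp S) (z : Fin N → ℂ) {y : Fin N → ℂ} (hy : star y = y) :
    rq S (wedge (z + star z) y) + rq S (wedge (I • (star z - z)) y) = 4 * rq S (wedge z y) := by
  have h := c3_conj S z y
  rw [hy] at h
  rw [c3_split hS, h]
  ring

theorem c3_hf_split (A : Mat N) (z : Fin N → ℂ) :
    (hf A (z + star z) (z + star z)).re + (hf A (I • (star z - z)) (I • (star z - z))).re =
      4 * (hf A z z).re := by
  have h1 : hf A (star z) (star z) = conj (hf A z z) := by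
    simp only [hf, map_sum, map_mul, conj_ofReal, Pi.star_apply, star_def]
  have h2 : hf A (z + star z) (z + star z) + hf A (star z - z) (star z - z) =
      2 * hf A z z + 2 * hf A (star z) (star z) := by
    simp only [hf, Pi.add_apply, Pi.sub_apply, map_add, map_sub, Finset.mul_sum,
      ← Finset.sum_add_distrib]
    exact Finset.sum_congr rfl fun i _ => Finset.sum_congr rfl fun j _ => by ring
  have h3 := congrArg re h2
  rw [S2.hf_smul_self, normSq_I, ofReal_one, one_mul]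
  simp only [h1, add_re, mul_re, re_ofNat, im_ofNat, conj_re] at h3
  linarith only [h3]

section

variable {f : Fin N → Fin N → ℂ} (hf2 : ∀ i j, f i ⬝ᵥ f j = if i = j then 2 else 0)
  (hfs : ∀ i, star (f i) = f i)
include hf2 hfs

theorem c3_complete (G : Fin N → Fin N → ℂ) :
    ∑ j, ∑ k, ∑ l, G k l * f j k * conj (f j l) = 2 * ∑ k, G k k := by
  have h1 : ((2 : ℂ)⁻¹ • of f) * (of f)ᵀ = 1 := by
    ext i j
    rw [Matrix.smul_mul, Matrix.smul_apply, one_apply]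
    change (2 : ℂ)⁻¹ • (f i ⬝ᵥ f j) = _
    rw [hf2]
    split_ifs <;> simp
  have h2 := mul_eq_one_comm.1 h1
  have h3 : ∀ k l, ∑ j, f j k * conj (f j l) = if k = l then 2 else 0 := fun k l => by
    have h4 := congrFun (congrFun h2 k) l
    rw [Matrix.mul_smul, Matrix.smul_apply, one_apply, mul_apply] at h4
    have h5 : ∀ j, conj (f j l) = f j l := fun j => congrFun (hfs j) l
    simp only [h5, transpose_apply, of_apply, smul_eq_mul] at h4 ⊢
    split_ifs at h4 ⊢ <;> linear_combination 2 * h4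
  rw [Finset.sum_comm, Finset.mul_sum]
  refine Finset.sum_congr rfl fun k _ => ?_
  rw [Finset.sum_comm]
  simp only [mul_assoc, ← Finset.mul_sum, h3, mul_ite, mul_zero, Finset.sum_ite_eq, Finset.mem_univ,
    if_true]
  rw [mul_comm]

theorem c3_ric (hS : IsOp S) (x : Fin N → ℂ) :
    2 * (hf (ric4 S) x x).re = ∑ j, rq S (wedge x (f j)) := by
  have h1 := c3_complete hf2 hfs fun k l => ∑ i, ∑ p, (S i k p l : ℂ) * x i * conj (x p)
  have h2 : ∀ j, rq S (wedge x (f j)) =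
      (∑ k, ∑ l, (∑ i, ∑ p, (S i k p l : ℂ) * x i * conj (x p)) * f j k * conj (f j l)).re :=
    fun j => by
      rw [rq, cq_wedge hS, show (4 : ℂ) = ((4 : ℝ) : ℂ) by norm_num, re_ofReal_mul,
        mul_div_cancel_left₀ _ (by norm_num)]
      congr 1
      simp only [cq, vecMulVec_apply, map_mul, Finset.sum_mul]
      rw [Finset.sum_comm]
      refine Finset.sum_congr rfl fun k _ => ?_
      rw [Finset.sum_comm (f := fun l i => ∑ p, (S i k p l : ℂ) * x i * conj (x p) * f j k *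
        conj (f j l))]
      refine Finset.sum_congr rfl fun i _ => ?_
      rw [Finset.sum_comm]
      exact Finset.sum_congr rfl fun _ _ => Finset.sum_congr rfl fun _ _ => by ring
  have h3 : hf (ric4 S) x x = ∑ k, ∑ i, ∑ p, (S i k p k : ℂ) * x i * conj (x p) := by
    simp only [hf, ric4, ofReal_sum, Finset.sum_mul]
    rw [Finset.sum_comm (f := fun k i => ∑ p, (S i k p k : ℂ) * x i * conj (x p))]
    refine Finset.sum_congr rfl fun i _ => ?_
    rw [Finset.sum_comm]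
    exact Finset.sum_congr rfl fun k _ => Finset.sum_congr rfl fun p _ => by
      rw [hS.skew i k k p, hS.skew' i k p k, neg_neg]
  simp only [h2, ← re_sum, h1, h3]
  simp

theorem c3_trace (S : T4 N) : ∑ j, (hf (ric4 S) (f j) (f j)).re = 2 * scal4 S := by
  have h1 := c3_complete hf2 hfs fun k l => (ric4 S k l : ℂ)
  rw [← re_sum, ← trace_ric4]
  simp only [hf, h1, trace, diag_apply]
  simp

end

theorem c3_four {S : T4 8} (hS : IsCurv S) (hP : PICw S)
    (hQ : PIC2w (S + (3 / 32 * lb S) • Id4 8 + (1 / 8 : ℝ) • kn (ric4 S) 1))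
    {a b c d : Fin 8 → ℂ} (hF : Fr4 a b c d) {A B C ra rb : ℝ}
    (hA : A = rq S (wedge a (d - star d))) (hB : B = rq S (wedge a c) + rq S (wedge a (star c)))
    (hC : C = rq S (wedge b d) + rq S (wedge b (star d))) (ha : ra = (hf (ric4 S) a a).re)
    (hb : rb = (hf (ric4 S) b b).re) :
    49 / 100 * A + 149 / 200 * B ≤ 4 / 5 * ra + 93 / 200 * lb S ∧
    49 / 100 * A + 149 / 200 * B + 4 * (1 / 8 * C) ≤
      4 / 5 * ra + 93 / 200 * lb S + 4 * (3 / 40 * rb + 11 / 500 * lb S) ∧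
    49 / 100 * A + B + 4 * (63 / 1000 * C) ≤
      4 / 5 * ra + 93 / 200 * lb S + 4 * (3 / 40 * rb + 11 / 500 * lb S) ∧
    63 / 1000 * C ≤ 3 / 40 * rb + 11 / 500 * lb S := by
  have hO := hS.isOp
  obtain ⟨z, hz⟩ : ∃ z : Fin 4 → Fin 8 → ℂ, z = ![a, b, c, d] := ⟨_, rfl⟩
  obtain ⟨z0, z1⟩ : Fr z := hz ▸ hF.fr
  have z2 : ∀ i j, z i ⬝ᵥ star (z j) = if i = j then 1 else 0 := fun i j => by
    rw [dotProduct_comm, z1]; simp only [eq_comm]
  have z3 : ∀ i j, star (z i) ⬝ᵥ star (z j) = 0 := fun i j => by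
    rw [star_dotProduct_star, z0, star_zero]
  let e : Fin 4 → Fin 8 → ℂ := fun i => z i + star (z i)
  let o : Fin 4 → Fin 8 → ℂ := fun i => I • (star (z i) - z i)
  have ee : ∀ i j, e i ⬝ᵥ e j = if i = j then 2 else 0 := fun i j => by
    simp only [e, add_dotProduct, dotProduct_add, z0, z1, z2, z3]
    split_ifs <;> norm_num
  have eo : ∀ i j, e i ⬝ᵥ o j = 0 := fun i j => by
    simp only [e, o, add_dotProduct, dotProduct_sub, dotProduct_smul, z0, z1, z2, z3]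
    simp
  have oe : ∀ i j, o i ⬝ᵥ e j = 0 := fun i j => by rw [dotProduct_comm, eo]
  have oo : ∀ i j, o i ⬝ᵥ o j = if i = j then 2 else 0 := fun i j => by
    simp only [o, sub_dotProduct, dotProduct_sub, dotProduct_smul, smul_dotProduct, z0, z1, z2, z3,
      smul_eq_mul]
    split_ifs
    · linear_combination (-2) * I_mul_I
    · simp
  have se : ∀ i, star (e i) = e i := fun i => by simp only [e, star_add, star_star, add_comm]
  have so : ∀ i, star (o i) = o i := fun i => by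
    simp only [o, star_smul, star_sub, star_star, star_def, conj_I]
    rw [neg_smul, ← smul_neg, neg_sub]
  let f : Fin 8 → Fin 8 → ℂ := ![e 0, o 0, e 1, o 1, e 2, o 2, e 3, o 3]
  have hf2 : ∀ i j, f i ⬝ᵥ f j = if i = j then 2 else 0 := fun i j => by
    fin_cases i <;> fin_cases j <;> simp [f, ee, eo, oe, oo]
  have hfs : ∀ i, star (f i) = f i := fun i => by fin_cases i <;> simp [f, se, so]
  have fn : ∀ i, nv (f i) = 2 := fun i => by
    have h := s3_nv_eq (f i)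
    rw [hfs, hf2, if_pos rfl] at h
    exact_mod_cast h.symm
  have sp : ∀ i {y : Fin 8 → ℂ}, star y = y →
      rq S (wedge (e i) y) + rq S (wedge (o i) y) = 4 * rq S (wedge (z i) y) := fun i _ hy =>
    c3_split_real hO _ hy
  have sp' : ∀ i j, rq S (wedge (z i) (e j)) + rq S (wedge (z i) (o j)) =
      2 * rq S (wedge (z i) (z j)) + 2 * rq S (wedge (z i) (star (z j))) := fun i j => by
    simp only [c3_comm S _ (z i)]
    exact c3_split hO _ _
  have za : z 0 = a := by rw [hz]; rfl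
  have zb : z 1 = b := by rw [hz]; rfl
  have zc : z 2 = c := by rw [hz]; rfl
  have zd : z 3 = d := by rw [hz]; rfl
  refine c3_lin (fun i j => rq S (wedge (f i) (f j))) (fun i j => c3_comm S _ _)
    (fun i => by simp [rq, wedge, cq]) (fun i j k l h1 h2 h3 h4 h5 h6 => c3_I4 hO hP
      (by rw [hf2, if_neg h1]) (by simp [hf2]) (by rw [hf2, if_neg h2]) (by simp [hf2])
      (by rw [hf2, if_neg h3]) (by rw [hf2, if_neg h4]) (by rw [hf2, if_neg h5])
      (by rw [hf2, if_neg h6])) (fun i => (hf (ric4 S) (f i) (f i)).re)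
    (fun i => c3_ric hf2 hfs hO _) (lam := lb S)
    (div_nonneg (hP.scal_ge (by norm_num) hS) (by norm_num))
    (by rw [c3_trace hf2 hfs, lb]; push_cast; ring) (fun i j h => ?_) ?_ ?_ ?_ ?_ ?_
  · have h1 : hf 1 (f i) (f j) = 0 := by rw [s3_hf_one, hfs, hf2, if_neg h.symm]
    have h2 := hQ (f i) (f j)
    rw [rq_add, rq_add, rq_smul, rq_smul, S2.rq_Id4 h1, S2.rq_kn_one (ric4_isSymm hS) h1, fn,
      fn] at h2
    linarith only [h2]
  · have h1 := sp 0 (so 3)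
    have h2 : rq S (wedge (z 0) (o 3)) = A := by
      rw [hA, ← za, ← zd, c3_wedge_smul, rq_smul_right, normSq_I, one_mul, ← neg_sub,
        ← neg_one_smul ℂ (z 3 - star (z 3)), c3_wedge_smul, rq_smul_right]
      simp
    rw [h2] at h1
    exact h1.symm
  · have h1 := sp 0 (se 2)
    have h2 := sp 0 (so 2)
    have h3 := sp' 0 2
    rw [za, zc] at h3
    rw [za] at h1 h2
    change 8 * B = rq S (wedge (e 0) (e 2)) + rq S (wedge (e 0) (o 2)) + rq S (wedge (o 0) (e 2)) +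
      rq S (wedge (o 0) (o 2))
    linarith only [hB, h1, h2, h3]
  · have h1 := sp 1 (se 3)
    have h2 := sp 1 (so 3)
    have h3 := sp' 1 3
    rw [zb, zd] at h3
    rw [zb] at h1 h2
    change 8 * C = rq S (wedge (e 1) (e 3)) + rq S (wedge (e 1) (o 3)) + rq S (wedge (o 1) (e 3)) +
      rq S (wedge (o 1) (o 3))
    linarith only [hC, h1, h2, h3]
  · rw [ha, ← za]
    exact (c3_hf_split _ _).symm
  · rw [hb, ← zb]
    exact (c3_hf_split _ _).symm

end

end Pool.Agent.Work.MP_3a9764_gt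
end
end
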