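import Pool.Agent.Work.MP_3a9764_gt.St2e
import Pool.Agent.Work.MP_3a9764_gt.Bridge

-- merged part: Pool.Agent.Work.MP_3a9764_gt.St1s
section
/-! The scalar inequalities of stages 0 and 1. -/

set_option autoImplicit false

namespace Pool.Agent.Work.MP_3a9764_gt

namespace St1

noncomputable section

variable {n : ℕ} {β h : ℝ}

/-- The admissible parameters. -/
structure Par (n : ℕ) (β h : ℝ) : Prop where
  n5 : 5 ≤ n
  n8 : n ≤ 8
  pos : 0 < β
  le : β ≤ bOne n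
  h0 : 0 ≤ h
  sm : h = 0 ∨ β ≤ 1 / 10 ^ 5

def ff (n : ℕ) (β : ℝ) : ℝ := 9 / 10 * (1 - 2 * β) / n

theorem Par.bds (hp : Par n β h) : (5 : ℝ) ≤ n ∧ (n : ℝ) ≤ 8 ∧ n * β ≤ 3 / 10 := by
  have h5 : (5 : ℝ) ≤ n := by exact_mod_cast hp.n5
  have h8 : (n : ℝ) ≤ 8 := by exact_mod_cast hp.n8
  have h1 := hp.le
  rw [bOne, le_div_iff₀ (by linarith only [h5])] at h1
  exact ⟨h5, h8, by linarith only [h1]⟩

theorem Par.le' (hp : Par n β h) : β ≤ 3 / 50 := by
  obtain ⟨h5, h8, h1⟩ := hp.bds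
  (refine le_of_not_gt fun h_nl => ?_; linarith only [h_nl, h5, h1, hp.pos, mul_nonneg_of_nonpos_of_nonpos (Mathlib.Tactic.Linarith.sub_nonpos_of_le h5) (le_of_lt (Mathlib.Tactic.Linarith.sub_neg_of_lt h_nl))])

theorem Par.mb (hp : Par n β h) : 0 ≤ ((n : ℝ) - 2) * β ∧ ((n : ℝ) - 2) * β ≤ 9 / 40 := by
  obtain ⟨h5, h8, h1⟩ := hp.bds
  constructor <;> (refine le_of_not_gt fun h_nl => ?_; linarith only [h_nl, hp, h5, h8, h1, hp.pos, mul_nonneg_of_nonpos_of_nonpos (Mathlib.Tactic.Linarith.sub_nonpos_of_le h5) (le_of_lt (Mathlib.Tactic.Linarith.sub_neg_of_lt hp.pos)), mul_nonneg_of_nonpos_of_nonpos (Mathlib.Tactic.Linarith.sub_nonpos_of_le (Mathlib.Tactic.Linarith.natCast_nonneg ℝ n)) (Mathlib.Tactic.Linarith.sub_nonpos_of_le h1), mul_nonneg_of_nonpos_of_nonpos (Mathlib.Tactic.Linarith.sub_nonpos_of_le h5) (Mathlib.Tactic.Linarith.sub_nonpos_of_le h1), mul_nonneg_of_nonpos_of_nonpos (Mathlib.Tactic.Linarith.sub_nonpos_of_le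 h5) (le_of_lt (Mathlib.Tactic.Linarith.sub_neg_of_lt h_nl))])

theorem Par.aa_bds (hp : Par n β h) : β ≤ aa n β ∧ aa n β ≤ 9 / 8 * β := by
  obtain ⟨h1, h2⟩ := hp.mb
  rw [aa]
  constructor <;> linarith only [h1, hp, h2, hp.pos, mul_nonneg_of_nonpos_of_nonpos (Mathlib.Tactic.Linarith.sub_nonpos_of_le h1) (le_of_lt (Mathlib.Tactic.Linarith.sub_neg_of_lt hp.pos)), mul_nonneg_of_nonpos_of_nonpos (Mathlib.Tactic.Linarith.sub_nonpos_of_le h2) (le_of_lt (Mathlib.Tactic.Linarith.sub_neg_of_lt hp.pos))]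

theorem Par.cc_nonneg (hp : Par n β h) : 0 ≤ cc n β := by
  obtain ⟨h5, h8, h1⟩ := hp.bds
  obtain ⟨h2, h3⟩ := hp.mb
  have h4 := hp.le'
  have h6 : (n : ℝ) * β * (((n : ℝ) - 2) * β) ≤ 3 / 10 * (9 / 40) :=
    mul_le_mul h1 h3 h2 (by norm_num)
  exact div_nonneg (mul_nonneg (sq_nonneg _) (by linarith only [h4, h6]))
    (AD_a (by have := hp.n5; omega) hp.pos.le).le

theorem Par.ee_nonneg (hp : Par n β h) : 0 ≤ ee n β := by
  obtain ⟨h5, h8, h1⟩ := hp.bds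
  have h2 := hp.cc_nonneg
  have h3 : (0 : ℝ) ≤ n - 1 := by linarith only [h5]
  rw [ee]
  positivity

theorem Par.den_le (hp : Par n β h) : 1 + 2 * ((n : ℝ) - 1) * aa n β ≤ 2 := by
  obtain ⟨h5, h8, h1⟩ := hp.bds
  have h2 := mul_le_mul_of_nonneg_left hp.aa_bds.2 (show (0 : ℝ) ≤ n - 1 by linarith only [h5])
  linarith only [h1, h2, hp, hp.pos]

theorem Par.ff_ge (hp : Par n β h) : 5 * β ≤ 2 * ff n β := by
  obtain ⟨h5, h8, h1⟩ := hp.bds
  have h4 := hp.le'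
  rw [ff, ← mul_div_assoc, le_div_iff₀ (by linarith only [h5])]
  linarith only [h1, h4]

theorem sc2 (hp : Par n β h) {l X Y Z q₁ q₂ σ g : ℝ} (hl : 0 ≤ l) (hg : g = β / 3 * l + h / 2)
    (hZ : Z ≤ (X + 2 * g) * (Y + 2 * g)) (h1 : (X - 2 * l) ^ 2 / 2 + Z / 2 ≤ q₁)
    (h2 : (Y - 2 * l) ^ 2 / 2 + Z / 2 ≤ q₂) (hσ : 0 ≤ σ) (hXY : X + Y ≤ 2 * n * l) :
    β ^ 2 / 10 * l ^ 2 - 40 * β * (h * l + h ^ 2) ≤
      2 * aa n β * (X * Y - Z) + 2 * β ^ 2 * (q₁ + q₂) + 4 * (cc n β * σ) -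
        4 * (β ^ 2 / 20 * l ^ 2) := by
  obtain ⟨h5, h8, -⟩ := hp.bds
  obtain ⟨a1, a2⟩ := hp.aa_bds
  have hb := hp.pos
  have hb1 := hp.le'
  have hh := hp.h0
  have hc := mul_nonneg hp.cc_nonneg hσ
  obtain ⟨t, ht⟩ : ∃ t, t = aa n β / β * l / 3 := ⟨_, rfl⟩
  have hr : aa n β / β ≤ 9 / 8 := by rw [div_le_iff₀ hb]; exact a2
  have hr0 : 0 ≤ aa n β / β := div_nonneg (hb.le.trans a1) hb.le
  have ht0 : 0 ≤ t := by rw [ht]; positivity
  have ht1 : t ≤ 3 / 8 * l := by rw [ht]; linarith only [hr, hl, mul_le_mul_of_nonneg_right hr hl]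
  have e : aa n β * (β / 3 * l) = β ^ 2 * t := by rw [ht]; field_simp
  generalize aa n β = a at *
  have hg0 : 0 ≤ g := by rw [hg]; positivity
  have b1 : 0 ≤ (2 * a - 2 * β ^ 2) * ((X + 2 * g) * (Y + 2 * g) - Z) :=
    mul_nonneg (by linarith only [hb, a1, hb1, mul_le_mul_of_nonneg_left hb1 hb.le]) (by linarith only [hZ])
  have b2 := mul_le_mul_of_nonneg_left (add_le_add h1 h2) (show 0 ≤ 2 * β ^ 2 by positivity)
  have b3 : a * h * (X + Y) ≤ 9 / 8 * β * h * (16 * l) := by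
    have c1 : X + Y ≤ 16 * l := by linarith only [hXY, h8, hl, mul_le_mul_of_nonneg_right h8 hl]
    have c2 : 0 ≤ a * h := mul_nonneg (hb.le.trans a1) hh
    exact (mul_le_mul_of_nonneg_left c1 c2).trans
      (mul_le_mul_of_nonneg_right (mul_le_mul_of_nonneg_right a2 hh) (by positivity))
  have b4 : 7 / 16 * l ^ 2 ≤ (X + Y + 2 * g - 2 * l) ^ 2 - 4 * t * (X + Y + 2 * g - 2 * l) +
      (2 * l + 2 * g) ^ 2 - 8 * t * l := by
    linarith only [hl, hg0, ht1, ht0, sq_nonneg (X + Y + 2 * g - 2 * l - 2 * t), mul_nonneg hl hg0, sq_nonneg g,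
      mul_le_mul ht1 ht1 ht0 (by positivity), mul_le_mul_of_nonneg_right ht1 hl]
  have b5 := mul_le_mul_of_nonneg_left b4 (sq_nonneg β)
  have b6 : β ^ 2 * t * h ≤ β * (h * l) := by
    have c1 : β * t ≤ l := by linarith only [hl, hb1, ht1, ht0, mul_le_mul hb1 ht1 ht0 (by norm_num)]
    linarith only [c1, hb, hh, mul_le_mul_of_nonneg_left c1 (mul_nonneg hb.le hh)]
  have b7 : a * h ^ 2 ≤ 9 / 8 * β * h ^ 2 := mul_le_mul_of_nonneg_right a2 (sq_nonneg h)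
  have b8 : 0 ≤ β * h ^ 2 := by positivity
  have b9 : 0 ≤ β ^ 2 * l ^ 2 := by positivity
  have key : 2 * a * (X * Y - Z) + 2 * β ^ 2 * ((X - 2 * l) ^ 2 / 2 + Z / 2 +
      ((Y - 2 * l) ^ 2 / 2 + Z / 2)) = (2 * a - 2 * β ^ 2) * ((X + 2 * g) * (Y + 2 * g) - Z) +
      β ^ 2 * ((X + Y + 2 * g - 2 * l) ^ 2 - 4 * t * (X + Y + 2 * g - 2 * l) +
      (2 * l + 2 * g) ^ 2 - 8 * t * l) - 4 * (β ^ 2 * t * h) - 2 * (a * h * (X + Y)) -
      2 * (a * h ^ 2) := by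
    rw [hg]
    linear_combination (-4 * (X + Y + 2 * (β / 3 * l + h / 2) - 2 * l) - 8 * l - 4 * h) * e
  linarith only [hc, b1, b2, b3, b5, b6, b7, b8, b9, key]

theorem sc3 (hp : Par n β h) {l μ B σ g : ℝ} (hl : 0 < l) (hg : g = β / 3 * l + h / 2)
    (hμ : 0 ≤ μ) (hB0 : 0 ≤ B) (hB : 3 * β * (2 * μ - 9 / 10 * l - h) ≤ B)
    (hσ : 2 * (l + g) ^ 2 + 2 * μ ^ 2 + 4 * (l + g) ^ 2 / ((n : ℝ) - 2) ≤ n * σ) :
    0 < 2 * g ^ 2 + μ * B - 2 * β * (2 * (l + g) ^ 2 + 2 * μ ^ 2) +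
      2 * aa n β * ((n : ℝ) - 2) * l * (-2 * g - 2 * l) +
      2 * (2 * aa n β * ((n : ℝ) - 1) * l ^ 2 + ee n β * σ) +
      2 * (β / 3) * ((1 + 2 * aa n β * ((n : ℝ) - 1)) * l ^ 2 + (1 - 2 * β + ee n β) * σ) := by
  obtain ⟨h5, h8, -⟩ := hp.bds
  obtain ⟨a1, a2⟩ := hp.aa_bds
  obtain ⟨m1, m2⟩ := hp.mb
  have hb := hp.pos
  have hb1 := hp.le'
  have hh := hp.h0
  have he := hp.ee_nonneg
  have hg0 : 0 ≤ g := by rw [hg]; positivity
  have s1 : l ^ 2 ≤ (l + g) ^ 2 := pow_le_pow_left₀ hl.le (by linarith only [hg0]) 2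
  have s2 : 4 * (l + g) ^ 2 / 6 ≤ 4 * (l + g) ^ 2 / ((n : ℝ) - 2) :=
    div_le_div_of_nonneg_left (by positivity) (by linarith only [h5, hb, hb1]) (by linarith only [h8])
  have s0 : 0 ≤ σ := by
    have : 0 ≤ (n : ℝ) * σ := by linarith only [hσ, s2, sq_nonneg μ, sq_nonneg (l + g)]
    exact nonneg_of_mul_nonneg_right this (by linarith only [h5, hb, hb1])
  have s3 : l ^ 2 / 3 + μ ^ 2 / 4 ≤ σ := by linarith only [hσ, s1, s2, h8, s0, mul_le_mul_of_nonneg_right h8 s0]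
  have s4 : 0 ≤ ee n β * σ := mul_nonneg he s0
  have s5 : 0 ≤ β * (ee n β * σ) := mul_nonneg hb.le s4
  have s6 : β * ((1 - 2 * β) * (l ^ 2 / 3 + μ ^ 2 / 4)) ≤ β * ((1 - 2 * β) * σ) :=
    mul_le_mul_of_nonneg_left (mul_le_mul_of_nonneg_left s3 (by linarith only [hb, hb1])) hb.le
  have s7 : β * (β * μ ^ 2) ≤ β * (3 / 50 * μ ^ 2) :=
    mul_le_mul_of_nonneg_left (mul_le_mul_of_nonneg_right hb1 (sq_nonneg _)) hb.le
  have s8 : β * l ^ 2 * (4 * β) ≤ β * l ^ 2 * (aa n β * ((n : ℝ) - 1)) :=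
    mul_le_mul_of_nonneg_left (by
      linarith only [a1, h5, hb, mul_le_mul a1 (show (4 : ℝ) ≤ n - 1 by linarith) (by norm_num) (hb.le.trans a1)])
      (by positivity)
  have s9 : aa n β * ((n : ℝ) - 2) * (l * h) ≤ 9 / 8 * β * 6 * (l * h) :=
    mul_le_mul_of_nonneg_right (mul_le_mul a2 (by linarith only [h8]) (by linarith only [h5, hb, hb1]) (by positivity))
      (by positivity)
  have s10 : ((n : ℝ) - 2) * β * l ^ 2 * aa n β ≤ ((n : ℝ) - 2) * β * l ^ 2 * (9 / 8 * β) :=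
    mul_le_mul_of_nonneg_left a2 (by positivity)
  have s11 : 0 ≤ ((n : ℝ) - 2) * β * l ^ 2 * β := by positivity
  have s12 : β * g ^ 2 ≤ 3 / 50 * g ^ 2 := mul_le_mul_of_nonneg_right hb1 (sq_nonneg _)
  have s13 : h ^ 2 / 4 ≤ g ^ 2 := by
    have : h / 2 ≤ g := by rw [hg]; linarith only [hb, hl, mul_pos hb hl]
    linarith only [hh, this, pow_le_pow_left₀ (by linarith) this 2]
  have s14 : 0 ≤ β ^ 2 * l ^ 2 := by positivity
  have s15 : β * (l ^ 2 + μ ^ 2) / 100 - 3 * β * (μ * h) ≤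
      μ * B - 4 * β * μ ^ 2 + β * (8 / 9 * l ^ 2 + 11 / 75 * μ ^ 2) := by
    have c0 : 0 ≤ β * (μ * h) := by positivity
    rcases le_total μ (9 / 20 * l) with c | c
    · have c1 : μ ^ 2 ≤ (9 / 20 * l) ^ 2 := pow_le_pow_left₀ hμ c 2
      linarith only [c0, c1, hb, hμ, hB0, mul_le_mul_of_nonneg_left c1 hb.le, mul_nonneg hμ hB0,
        mul_nonneg hb.le (sq_nonneg l)]
    · linarith only [hB, hμ, hb, mul_le_mul_of_nonneg_left hB hμ, mul_nonneg hb.le (sq_nonneg (μ - 16 / 25 * l)),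
        mul_nonneg hb.le (sq_nonneg l), mul_nonneg hb.le (sq_nonneg μ)]
  have s16 : 0 < β * (l ^ 2 + μ ^ 2) / 100 - 3 * β * (μ * h) - 35 / 2 * β * (l * h) +
      7 / 16 * h ^ 2 := by
    have c0 : 0 < β * l ^ 2 := by positivity
    have c1 : 0 ≤ β * μ ^ 2 := by positivity
    rcases hp.sm with c | c
    · rw [c]; linarith only [c0, c1]
    · linarith only [s7, c0, c, c1, sq_nonneg (h / 2 - 35 / 2 * β * l), sq_nonneg (h - 12 * β * μ), sq_nonneg h,
        mul_le_mul_of_nonneg_right c c0.le, mul_le_mul_of_nonneg_right c c1]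
  have ea : aa n β * l ^ 2 = β * l ^ 2 + ((n : ℝ) - 2) * β * l ^ 2 * β / 2 := by rw [aa]; ring
  have eg1 : aa n β * ((n : ℝ) - 2) * l * g =
      ((n : ℝ) - 2) * β * l ^ 2 * aa n β / 3 + aa n β * ((n : ℝ) - 2) * (l * h) / 2 := by
    rw [hg]; ring
  have eg2 : β * (l * g) = β ^ 2 * l ^ 2 / 3 + β * (l * h) / 2 := by rw [hg]; ring
  linarith only [s4, s5, s6, s7, s8, s9, s10, s11, s12, s13, s14, s15, s16, ea, eg1, eg2, sq_nonneg h]

theorem quad_pos {α p r l D : ℝ} (hl : 0 < l) (hα : 0 < α) (hd : p ^ 2 < 4 * α * r) :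
    0 < α * D ^ 2 - p * l * D + r * l ^ 2 := by
  have h1 : 0 < (4 * α * r - p ^ 2) * l ^ 2 := mul_pos (by linarith) (by positivity)
  have h2 : 0 < 4 * α * (α * D ^ 2 - p * l * D + r * l ^ 2) := by
    linarith only [h1, sq_nonneg (2 * α * D - p * l)]
  exact pos_of_mul_pos_left' h2 hα
  where pos_of_mul_pos_left' {x y : ℝ} (h : 0 < 4 * x * y) (hx : 0 < x) : 0 < y :=
    pos_of_mul_pos_right (show 0 < (4 * x) * y from h) (by linarith only [hx])

theorem aux4 {α γ φ p r a a₁ v l D u α' γ' φ' : ℝ} (hl : 0 < l) (hD : 9 / 10 * l ≤ D)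
    (hu : -(v * l) ≤ u) (hα0 : 0 < α) (hα : α ≤ α') (hγ : γ' ≤ γ) (hφ : φ ≤ φ') (hφ0 : 0 ≤ φ)
    (hv : 0 ≤ v) (hγ0 : 0 ≤ γ') (hs : 2 * φ' * v ≤ 9 / 10 * γ') (ha0 : 0 ≤ a) (ha1 : a ≤ a₁)
    (d0 : (γ * v) ^ 2 < 4 * α * (9 / 10 + φ * v ^ 2))
    (d1 : (γ * v + a₁ * p) ^ 2 < 4 * α * (9 / 10 + φ * v ^ 2 + a₁ * r)) :
    0 < D ^ 2 * α' + D * u * γ' - a * p * l * D + (9 / 10 + a * r) * l ^ 2 + φ' * u ^ 2 := by
  have hD0 : 0 ≤ D := by linarith only [hl, hD]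
  have q0 := quad_pos (D := D) hl hα0 d0
  have q1 := quad_pos (D := D) hl hα0 d1
  obtain ⟨s, rfl⟩ : ∃ s, u = s - v * l := ⟨u + v * l, by ring⟩
  have hs0 : 0 ≤ s := by linarith only [hu]
  have b1 : 0 ≤ s * (γ' * D - 2 * φ' * v * l) := mul_nonneg hs0 (by
    linarith only [hD, hγ0, hs, hl, mul_le_mul_of_nonneg_left hD hγ0, mul_le_mul_of_nonneg_right hs hl.le])
  have b2 : 0 ≤ φ' * s ^ 2 := mul_nonneg (hφ0.trans hφ) (sq_nonneg _)
  have b3 := mul_le_mul_of_nonneg_right hα (sq_nonneg D)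
  have b4 := mul_le_mul_of_nonneg_right hγ (show 0 ≤ v * l * D by positivity)
  have b5 := mul_le_mul_of_nonneg_right hφ (sq_nonneg (v * l))
  rcases le_total 0 (r * l ^ 2 - p * l * D) with c | c
  · linarith only [q0, b1, b2, b3, b4, b5, ha0, c, mul_nonneg ha0 c]
  · linarith only [q1, b1, b2, b3, b4, b5, ha1, c, mul_le_mul_of_nonpos_right ha1 c]

theorem sc4 (hp : Par n β h) {l D u : ℝ} (hl : 0 < l) (hD : 9 / 10 * l + h ≤ D)
    (hu : -2 * l - 2 * (β / 3) * l - h ≤ u) :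
    0 < D ^ 2 * (1 / (2 * ((n : ℝ) - 2) * (3 * β)) - ((n : ℝ) - 2) * (3 * β) / 8 + ff n β / 2) +
      D * u * (1 / 2 + 1 / ((n : ℝ) - 2) + 2 * β) - 2 * aa n β * ((n : ℝ) - 2) * l * D +
      9 / 10 * (1 + 2 * aa n β * ((n : ℝ) - 1)) * l ^ 2 +
      ff n β * (1 / 2 + 1 / ((n : ℝ) - 2)) * u ^ 2 := by
  obtain ⟨h5, h8, h1⟩ := hp.bds
  obtain ⟨a1, a2⟩ := hp.aa_bds
  obtain ⟨m1, m2⟩ := hp.mb
  have hb := hp.pos
  have hb1 := hp.le'
  have hh := hp.h0
  have hm : (0 : ℝ) < n - 2 := by linarith only [h5]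
  have ha0 : 0 ≤ aa n β := hb.le.trans a1
  rcases hp.sm with c | c
  · subst c
    have key := fun (α γ φ a₁ v : ℝ) => aux4 (α := α) (γ := γ) (φ := φ) (a₁ := a₁) (v := v)
      (p := 2 * ((n : ℝ) - 2)) (r := 9 / 5 * ((n : ℝ) - 1)) (a := aa n β) (u := u) (D := D)
      (α' := 1 / (2 * ((n : ℝ) - 2) * (3 * β)) - ((n : ℝ) - 2) * (3 * β) / 8 + ff n β / 2)
      (γ' := 1 / 2 + 1 / ((n : ℝ) - 2) + 2 * β) (φ' := ff n β * (1 / 2 + 1 / ((n : ℝ) - 2)))
      hl (by linarith only [hD])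
    have hk : ∀ k : ℝ, 0 < k → 2 * ((n : ℝ) - 2) * (3 * β) ≤ k →
        1 / k ≤ 1 / (2 * ((n : ℝ) - 2) * (3 * β)) :=
      fun k _ hk => one_div_le_one_div_of_le (by positivity) hk
    have hbb : ∀ k : ℝ, β ≤ k → β ^ 2 ≤ k ^ 2 := fun k hk => pow_le_pow_left₀ hb.le hk 2
    have hbl : ∀ k : ℝ, β ≤ k → β * l ≤ k * l := fun k hk => mul_le_mul_of_nonneg_right hk hl.le
    have n5 := hp.n5
    have n8 := hp.n8
    suffices H : 0 < D ^ 2 * (1 / (2 * ((n : ℝ) - 2) * (3 * β)) - ((n : ℝ) - 2) * (3 * β) / 8 +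
        ff n β / 2) + D * u * (1 / 2 + 1 / ((n : ℝ) - 2) + 2 * β) -
        aa n β * (2 * ((n : ℝ) - 2)) * l * D + (9 / 10 + aa n β * (9 / 5 * ((n : ℝ) - 1))) * l ^ 2 +
        ff n β * (1 / 2 + 1 / ((n : ℝ) - 2)) * u ^ 2 by linarith only [H]
    generalize 1 / (2 * ((n : ℝ) - 2) * (3 * β)) = k at key hk ⊢
    interval_cases n
    · have k0 := hb1
      have k1 := hk (27 / 25) (by norm_num) (by push_cast at h1 ⊢; linarith only [hb1])
      have k2 := hbb (3 / 50) hb1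
      have k3 := hbl (3 / 50) hb1
      refine key (253159 / 270000) (143 / 150) (33 / 250) (327 / 5000) (51 / 25)
        (by linarith only [hu, k3]) (by norm_num) ?_ ?_ ?_ (by norm_num) (by norm_num) ?_ ?_ ha0 ?_
        (by norm_num) (by norm_num) <;>
        (simp only [ff, aa, Nat.cast_ofNat]; linarith only [k0, k1, k2, hb])
    · have k0 : β ≤ 1 / 20 := by push_cast at h1; linarith only [h1]
      have k1 := hk (6 / 5) (by norm_num) (by push_cast at h1 ⊢; linarith only [h1])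
      have k2 := hbb _ k0
      have k3 := hbl _ k0
      refine key (991 / 1200) (17 / 20) (81 / 800) (11 / 200) (61 / 30)
        (by linarith only [hu, k3]) (by norm_num) ?_ ?_ ?_ (by norm_num) (by norm_num) ?_ ?_ ha0 ?_
        (by norm_num) (by norm_num) <;>
        (simp only [ff, aa, Nat.cast_ofNat]; linarith only [k0, k1, k2, hb])
    · have k0 : β ≤ 3 / 70 := by push_cast at h1; linarith only [h1]
      have k1 := hk (9 / 7) (by norm_num) (by push_cast at h1 ⊢; linarith only [h1])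
      have k2 := hbb _ k0
      have k3 := hbl _ k0
      refine key (133393 / 176400) (11 / 14) (72 / 875) (93 / 1960) (71 / 35)
        (by linarith only [hu, k3]) (by norm_num) ?_ ?_ ?_ (by norm_num) (by norm_num) ?_ ?_ ha0 ?_
        (by norm_num) (by norm_num) <;>
        (simp only [ff, aa, Nat.cast_ofNat]; linarith only [k0, k1, k2, hb])
    · have k0 : β ≤ 3 / 80 := by push_cast at h1; linarith only [h1]
      have k1 := hk (27 / 20) (by norm_num) (by push_cast at h1 ⊢; linarith only [h1])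
      have k2 := hbb _ k0
      have k3 := hbl _ k0
      refine key (122411 / 172800) (89 / 120) (111 / 1600) (267 / 6400) (81 / 40)
        (by linarith only [hu, k3]) (by norm_num) ?_ ?_ ?_ (by norm_num) (by norm_num) ?_ ?_ ha0 ?_
        (by norm_num) (by norm_num) <;>
        (simp only [ff, aa, Nat.cast_ofNat]; linarith only [k0, k1, k2, hb])
  · have hD0 : 0 < D := by linarith only [hl, hD, hh]
    have f0 : 0 ≤ ff n β := by linarith only [hb, hp, hp.ff_ge]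
    have i0 : 0 < 1 / ((n : ℝ) - 2) := by positivity
    have i1 : 1 / ((n : ℝ) - 2) ≤ 1 / 3 := one_div_le_one_div_of_le (by norm_num) (by linarith only [h5])
    have i2 : 1 / (1 / 100) ≤ 1 / (2 * ((n : ℝ) - 2) * (3 * β)) :=
      one_div_le_one_div_of_le (by positivity)
        (by linarith only [hb, c, h8, mul_le_mul_of_nonneg_right (show (n : ℝ) - 2 ≤ 6 by linarith) hb.le])
    have b1 : D ^ 2 * 99 ≤ D ^ 2 * (1 / (2 * ((n : ℝ) - 2) * (3 * β)) -
        ((n : ℝ) - 2) * (3 * β) / 8 + ff n β / 2) :=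
      mul_le_mul_of_nonneg_left (by linarith only [m2, hb, c, f0, i2]) (sq_nonneg _)
    have b2 : -(3 * D) ≤ u := by linarith only [hD, hu, hh, hD0, hb1, hl, mul_le_mul_of_nonneg_right hb1 hl.le]
    have b3 : D * -(3 * D) * (1 / 2 + 1 / ((n : ℝ) - 2) + 2 * β) ≤
        D * u * (1 / 2 + 1 / ((n : ℝ) - 2) + 2 * β) :=
      mul_le_mul_of_nonneg_right (mul_le_mul_of_nonneg_left b2 hD0.le) (by positivity)
    have b4 : D ^ 2 * (1 / 2 + 1 / ((n : ℝ) - 2) + 2 * β) ≤ D ^ 2 * 1 :=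
      mul_le_mul_of_nonneg_left (by linarith only [hb, c, i1]) (sq_nonneg _)
    have b5 : aa n β * ((n : ℝ) - 2) * (l * D) ≤ 1 * (2 * D * D) :=
      mul_le_mul (by linarith only [m2, hb, c, a2, hm, mul_le_mul_of_nonneg_right a2 hm.le])
        (mul_le_mul_of_nonneg_right (by linarith only [hD, hh, hD0]) hD0.le) (by positivity) zero_le_one
    have b6 : 0 ≤ 9 / 10 * (1 + 2 * aa n β * ((n : ℝ) - 1)) * l ^ 2 := by
      have : (0 : ℝ) ≤ n - 1 := by linarith only [h5, hb, c]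
      positivity
    have b7 : 0 ≤ ff n β * (1 / 2 + 1 / ((n : ℝ) - 2)) * u ^ 2 := by positivity
    linarith only [b1, b3, b4, b5, b6, b7, hD0, pow_pos hD0 2]

end

end St1

end Pool.Agent.Work.MP_3a9764_gt
end

-- merged part: Pool.Agent.Work.MP_3a9764_gt.St1e
section
-- merged part: Pool.Agent.Work.MP_3a9764_gt.St1a
section
/-! The lifted cone of stages 0 and 1 and its elementary properties. -/

set_option autoImplicit false

open Filter Set Matrix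
open scoped Topology ComplexConjugate

namespace Pool.Agent.Work.MP_3a9764_gt

namespace St1

noncomputable section

variable {n : ℕ} {β h : ℝ}

/-- The first four indices. -/
def ix (hn : 5 ≤ n) (k : Fin 4) : Fin n := Fin.castLE (by omega) k

def c3 (β : ℝ) (a b : Fin n) (S : T4 n) : ℝ := ric4 S a a + ric4 S b b + 2 * (β / 3) * lb S

def BT (a b : Fin n) (U : T4 n) : ℝ := ric4 U a a + ric4 U b b - 2 * U a b a b

def c4 (β : ℝ) (a b : Fin n) (S U : T4 n) : ℝ :=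
  BT a b U - 3 * β * (ric4 S b b - ric4 S a a - 9 / 10 * lb S)

/-- The square of an operator. -/
def sqT (S : T4 n) : T4 n :=
  fun i j k l => 1 / 8 * ∑ p, ∑ q, (S i j p q - S j i p q) * (S k l p q - S l k p q)

def Sv (β : ℝ) (S : T4 n) : T4 n := Qq4 S + DD β S

def Tv (β : ℝ) (S : T4 n) : T4 n := sqT S + (β ^ 2 / 20 * lb S ^ 2) • Id4 n

/-- The lifted cone. -/
structure Cn (hn : 5 ≤ n) (β h : ℝ) (S U : T4 n) : Prop where
  curv : IsCurv S
  op : IsOp U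
  nn : OpNonneg U
  pic : PICw (S - U)
  h3 : ∀ P : Mat n, Pᵀ * P = 1 → -h ≤ c3 β (ix hn 0) (ix hn 1) (pullT S P)
  h4 : ∀ P : Mat n, Pᵀ * P = 1 →
    -(3 * β * h) ≤ c4 β (ix hn 0) (ix hn 1) (pullT S P) (pullT U P)

theorem ix_inj (hn : 5 ≤ n) : Function.Injective (ix hn) :=
  Fin.castLE_injective (show 4 ≤ n by omega)

theorem pullT_one (S : T4 n) : pullT S (1 : Mat n) = S := act_one S

theorem pullT_mul (S : T4 n) (P Q : Mat n) : pullT (pullT S P) Q = pullT S (P * Q) :=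
  act_act S P Q

theorem pullT_sub (S U : T4 n) (P : Mat n) : pullT (S - U) P = pullT S P - pullT U P := by
  funext i j k l
  simp only [pullT, ev4, Pi.sub_apply, sub_mul, Finset.sum_sub_distrib]

theorem pullT_swap (S : T4 n) (P : Mat n) (i j k l : Fin n) :
    pullT S P j i k l = pullT (fun a b c d => S b a c d) P i j k l := by
  simp only [pullT, ev4]
  rw [Finset.sum_comm]
  exact Finset.sum_congr rfl fun _ _ => Finset.sum_congr rfl fun _ _ =>
    Finset.sum_congr rfl fun _ _ => Finset.sum_congr rfl fun _ _ => by ring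

theorem isOp_pullT {U : T4 n} (hU : IsOp U) (P : Mat n) : IsOp (pullT U P) := by
  refine ⟨fun i j k l => ?_, fun i j k l => ?_⟩
  · rw [pullT_swap]
    simp only [pullT, ev4, ← Finset.sum_neg_distrib]
    exact Finset.sum_congr rfl fun a _ => Finset.sum_congr rfl fun b _ =>
      Finset.sum_congr rfl fun c _ => Finset.sum_congr rfl fun d _ => by
        rw [hU.skew a b c d]; ring
  · simp only [pullT, ev4]
    rw [ap_sum22]
    exact Finset.sum_congr rfl fun a _ => Finset.sum_congr rfl fun b _ =>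
      Finset.sum_congr rfl fun c _ => Finset.sum_congr rfl fun d _ => by
        rw [hU.pair a b c d]; ring

theorem opNonneg_pullT {U : T4 n} (hU : OpNonneg U) (P : Mat n) : OpNonneg (pullT U P) :=
  G.opNonneg_act hU P

theorem isOp_sqT (S : T4 n) : IsOp (sqT S) := by
  refine ⟨fun i j k l => ?_, fun i j k l => ?_⟩
  · simp only [sqT, ← mul_neg, ← Finset.sum_neg_distrib]
    congr 1
    exact Finset.sum_congr rfl fun _ _ => Finset.sum_congr rfl fun _ _ => by ring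
  · simp only [sqT, mul_comm (S k l _ _ - _)]

theorem sqT_apply {S : T4 n} (hS : IsOp S) (i j k l : Fin n) :
    sqT S i j k l = 1 / 2 * ∑ p, ∑ q, S i j p q * S k l p q := by
  simp only [sqT, Finset.mul_sum]
  exact Finset.sum_congr rfl fun p _ => Finset.sum_congr rfl fun q _ => by
    rw [hS.skew i j p q, hS.skew k l p q]; ring

theorem sqT_pullT (S : T4 n) {P : Mat n} (hP : Pᵀ * P = 1) :
    sqT (pullT S P) = pullT (sqT S) P := by
  funext i j k l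
  have e : ∀ i j p q, pullT S P i j p q - pullT S P j i p q =
      pullT (S - fun a b c d => S b a c d) P i j p q := fun i j p q => by
    rw [pullT_sub, pullT_swap S P i j]; rfl
  have h := ap_contr (S - fun a b c d => S b a c d) (S - fun a b c d => S b a c d)
    (mul_eq_one_comm.1 hP) i j k l
  have e2 : sqT S = (1 / 8 : ℝ) • fun a b c d => ∑ p, ∑ q,
    (S - fun a b c d => S b a c d) a b p q * (S - fun a b c d => S b a c d) c d p q := rfl
  rw [e2, pullT_smul]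
  simp only [sqT, e, h, Pi.smul_apply, smul_eq_mul]

theorem conj_sq (A : Mat n) {P : Mat n} (hP : Pᵀ * P = 1) :
    Pᵀ * A * P * (Pᵀ * A * P) = Pᵀ * (A * A) * P := by
  have h := mul_eq_one_comm.1 hP
  calc _ = Pᵀ * A * (P * Pᵀ) * A * P := by simp only [Matrix.mul_assoc]
    _ = _ := by rw [h, Matrix.mul_one]; simp only [Matrix.mul_assoc]

theorem sg_pullT (S : T4 n) {P : Mat n} (hP : Pᵀ * P = 1) : sg (pullT S P) = sg S := by
  rw [sg, sg, ric0_pullT S hP, conj_sq _ hP, trace_mul_comm, ← Matrix.mul_assoc,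
    mul_eq_one_comm.1 hP, Matrix.one_mul]

theorem Sv_pullT (β : ℝ) (S : T4 n) {P : Mat n} (hP : Pᵀ * P = 1) :
    Sv β (pullT S P) = pullT (Sv β S) P := by
  have h := mul_eq_one_comm.1 hP
  simp only [Sv, DD, pullT_add, pullT_smul, pullT_kn, pullT_Id4 hP, Qq4_pullT S h, ric4_pullT S h,
    ric0_pullT S hP, sg_pullT S hP, conj_sq _ hP, Matrix.mul_one, hP]

theorem Tv_pullT (β : ℝ) (S : T4 n) {P : Mat n} (hP : Pᵀ * P = 1) :
    Tv β (pullT S P) = pullT (Tv β S) P := by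
  simp only [Tv, pullT_add, pullT_smul, pullT_Id4 hP, sqT_pullT S hP, lb_pullT S hP]

theorem exists_orth2 (hn : 5 ≤ n) {u w : Fin n → ℝ} (hu : u ⬝ᵥ u = 1) (hw : w ⬝ᵥ w = 1)
    (huw : u ⬝ᵥ w = 0) : ∃ P : Mat n, Pᵀ * P = 1 ∧ (∀ i, P i (ix hn 0) = u i) ∧
      ∀ i, P i (ix hn 1) = w i := by
  obtain ⟨P, hP, h1⟩ := exists_orth_of_on (k := 2) (by omega : 2 ≤ n) ![u, w] (by
    intro a b
    fin_cases a <;> fin_cases b <;> simp [hu, hw, huw, dotProduct_comm w u])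
  exact ⟨P, hP, h1 0, h1 1⟩

theorem conj_entry (A P : Mat n) (a b : Fin n) {u w : Fin n → ℝ} (hu : ∀ i, P i a = u i)
    (hw : ∀ i, P i b = w i) : (Pᵀ * A * P) a b = u ⬝ᵥ A *ᵥ w := by
  rw [Matrix.mul_assoc]
  simp only [mul_apply, transpose_apply, hu, hw, dotProduct, mulVec]

/-- The sum over both orientations. -/
theorem rq_pm {U : T4 n} (hU : IsOp U) (x y u w : Fin n → ℝ) :
    rq U (wedge (cv x y) (cv u w)) + rq U (wedge (cv x y) (cv u (-w))) =
      2 * (ev4 U x u x u + ev4 U y u y u + ev4 U x w x w + ev4 U y w y w) := by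
  rw [rq, rq, cq_wedge hU, cq_wedge hU]
  simp only [Complex.mul_re, Complex.re_ofNat, Complex.im_ofNat, zero_mul, sub_zero,
    mul_div_cancel_left₀ _ (four_ne_zero (α := ℝ))]
  simp only [cq, ev4, Complex.re_sum, ← Finset.sum_add_distrib, Finset.mul_sum]
  refine Finset.sum_congr rfl fun i _ => Finset.sum_congr rfl fun j _ =>
    Finset.sum_congr rfl fun k _ => Finset.sum_congr rfl fun l _ => ?_
  simp [vecMulVec_apply, cv]
  ring

theorem rq_nonneg {U : T4 n} (h0 : OpNonneg U) (z w : Fin n → ℂ) : 0 ≤ rq U (wedge z w) :=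
  div_nonneg (h0.cq_nonneg (wedge_skew z w)) (by norm_num)

theorem rq_add (R S : T4 n) (v : CMat n) : rq (R + S) v = rq R v + rq S v := by
  rw [rq, rq, rq, cq_add, Complex.add_re, add_div]

theorem rq_sub (R S : T4 n) (v : CMat n) : rq (R - S) v = rq R v - rq S v := by
  rw [rq, rq, rq, cq_sub, Complex.sub_re, sub_div]

theorem rq_smul (c : ℝ) (R : T4 n) (v : CMat n) : rq (c • R) v = c * rq R v := by
  rw [rq, rq, cq_smul, Complex.re_ofReal_mul, mul_div_assoc]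

theorem ev4_nonneg {U : T4 n} (hU : IsOp U) (h0 : OpNonneg U) (x u : Fin n → ℝ) :
    0 ≤ ev4 U x u x u := by
  have h1 := rq_pm hU x 0 u 0
  have h2 := rq_nonneg h0 (cv x 0) (cv u 0)
  rw [neg_zero] at h1
  simp only [ev4, Pi.zero_apply, mul_zero, zero_mul, Finset.sum_const_zero, add_zero] at h1 ⊢
  linarith only [h2, h1]

theorem diag_nonneg {U : T4 n} (hU : IsOp U) (h0 : OpNonneg U) (i j : Fin n) : 0 ≤ U i j i j := by
  simpa only [ev4_single, mul_one] using ev4_nonneg hU h0 (Pi.single i 1) (Pi.single j 1)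

theorem BT_nonneg {U : T4 n} (hU : IsOp U) (h0 : OpNonneg U) {a b : Fin n} (_hab : a ≠ b) :
    0 ≤ BT a b U := by
  have h1 : U b a b a ≤ ric4 U a a := Finset.single_le_sum (f := fun i => U i a i a)
    (fun i _ => diag_nonneg hU h0 i a) (Finset.mem_univ b)
  have h2 : U a b a b ≤ ric4 U b b := Finset.single_le_sum (f := fun i => U i b i b)
    (fun i _ => diag_nonneg hU h0 i b) (Finset.mem_univ a)
  have h3 := hU.skew a b b a
  have h4 := hU.skew' a b a b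
  rw [BT]
  linarith only [h1, h2, h3, h4]

theorem exists_unit {u : Fin n → ℝ} (hu : u ≠ 0) : ∃ r : ℝ, 0 < r ∧ r * r * (u ⬝ᵥ u) = 1 := by
  have h0 : 0 < u ⬝ᵥ u := lt_of_le_of_ne (Finset.sum_nonneg fun i _ => mul_self_nonneg _)
    fun h => hu (dotProduct_self_eq_zero.1 h.symm)
  refine ⟨(√(u ⬝ᵥ u))⁻¹, inv_pos.2 (Real.sqrt_pos.2 h0), ?_⟩
  rw [← mul_inv, Real.mul_self_sqrt h0.le, inv_mul_cancel₀ h0.ne']

theorem p2_vec (hn : 5 ≤ n) {S : T4 n} (hS : IsCurv S) (hp : PICw S) (u : Fin n → ℝ) :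
    u ⬝ᵥ ric4 S *ᵥ u ≤ scal4 S / 2 * (u ⬝ᵥ u) := by
  by_cases hu : u = 0
  · simp [hu]
  obtain ⟨r, hr, h1⟩ := exists_unit hu
  obtain ⟨P, hP, h2⟩ := exists_orth_of_on (k := 1) (by omega : 1 ≤ n) ![r • u] (by
    intro a b
    fin_cases a; fin_cases b
    simpa [mul_assoc] using h1)
  have h3 := (hp.pullT hP).p2 hn (isCurv_pullT hS P) (Fin.castLE (by omega : 1 ≤ n) 0)
  rw [ric4_pullT S (mul_eq_one_comm.1 hP), scal4_pullT S (mul_eq_one_comm.1 hP),
    conj_entry _ P _ _ (h2 0) (h2 0)] at h3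
  simp only [cons_val_zero, mulVec_smul, smul_dotProduct, dotProduct_smul, smul_eq_mul] at h3
  refine le_of_mul_le_mul_left ?_ (mul_pos hr hr)
  calc _ ≤ scal4 S / 2 := by linarith only [h3]
    _ = _ := by linear_combination (-scal4 S / 2) * h1

/-- The two isotropic vectors of the coordinate frame. -/
def z0 (hn : 5 ≤ n) : Fin n → ℂ := cv (Pi.single (ix hn 0) 1) (Pi.single (ix hn 1) 1)

def w0 (hn : 5 ≤ n) : Fin n → ℂ := cv (Pi.single (ix hn 2) 1) (Pi.single (ix hn 3) 1)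

theorem mulVec_cv (P : Mat n) (u w : Fin n → ℝ) :
    P.map (fun x => (x : ℂ)) *ᵥ cv u w = cv (P *ᵥ u) (P *ᵥ w) := by
  ext i
  simp only [mulVec, dotProduct, cv, map_apply, Complex.ofReal_sum, Complex.ofReal_mul,
    Finset.mul_sum, ← Finset.sum_add_distrib]
  exact Finset.sum_congr rfl fun _ _ => by ring

theorem exists_frame (hn : 5 ≤ n) {e : Fin 4 → Fin n → ℝ} (he : ON4 e) :
    ∃ P : Mat n, Pᵀ * P = 1 ∧ ∀ V : T4 n, rq (pullT V P) (wedge (z0 hn) (w0 hn)) =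
      rq V (wedge (cv (e 0) (e 1)) (cv (e 2) (e 3))) := by
  obtain ⟨P, hP, h1⟩ := exists_orth_of_on (k := 4) (by omega : 4 ≤ n) e he
  have h2 : ∀ a, P *ᵥ Pi.single (ix hn a) 1 = e a := fun a => by
    ext i
    rw [mulVec_single_one]
    exact h1 a i
  exact ⟨P, hP, fun V => by rw [ap_rq_pullT, z0, w0, mulVec_cv, mulVec_cv, h2, h2, h2, h2]⟩

theorem picw_of_frames (hn : 5 ≤ n) {V : T4 n}
    (h : ∀ P : Mat n, Pᵀ * P = 1 → 0 ≤ rq (pullT V P) (wedge (z0 hn) (w0 hn))) : PICw V := by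
  intro z w hz hzw hw
  obtain ⟨e, κ, he, h1⟩ := iso_nf (by omega) hz hzw hw
  obtain ⟨P, hP, h2⟩ := exists_frame hn he
  rw [h1, ap_rq_smul, ← h2]
  exact mul_nonneg (Complex.normSq_nonneg _) (h P hP)

theorem single_dot (hn : 5 ≤ n) (a b : Fin 4) :
    (Pi.single (ix hn a) 1 : Fin n → ℝ) ⬝ᵥ Pi.single (ix hn b) 1 = if a = b then 1 else 0 := by
  simp [Pi.single_apply, (ix_inj hn).eq_iff, eq_comm]

theorem on4_single (hn : 5 ≤ n) : ON4 fun a => (Pi.single (ix hn a) 1 : Fin n → ℝ) :=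
  single_dot hn

theorem rq_Id4 (hn : 5 ≤ n) : rq (Id4 n) (wedge (z0 hn) (w0 hn)) = 4 := by
  rw [z0, w0, ap_rq_cv isCurv_Id4]
  simp [ev4_single, Id4, (ix_inj hn).eq_iff]
  norm_num

theorem opNonneg_Id4 : OpNonneg (Id4 n) := fun φ hφ => by
  have h : 0 ≤ opL φ φ (Id4 n) := by rw [opL_Id4 hφ]; positivity
  exact h

theorem opNonneg_add_Id4 {U : T4 n} (hU : OpNonneg U) {c : ℝ} (hc : 0 ≤ c) :
    OpNonneg (U + c • Id4 n) := fun φ hφ => by
  have h : 0 ≤ opL φ φ (U + c • Id4 n) := by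
    rw [map_add, map_smul]
    exact add_nonneg (hU φ hφ) (mul_nonneg hc (opNonneg_Id4 φ hφ))
  exact h

/-- A non-negative operator that is non-positive on isotropic planes vanishes. -/
theorem eq_zero_of_pic (hn : 5 ≤ n) {U : T4 n} (hU : IsOp U) (h0 : OpNonneg U)
    (hp : PICw (0 - U)) : U = 0 := by
  have h1 : ∀ i j, U i j i j = 0 := by
    intro i j
    by_cases hij : i = j
    · subst hij; linarith only [hU, hU.skew i i i i]
    obtain ⟨k, hk⟩ : ∃ k, k ∉ ({i, j} : Finset (Fin n)) := Finset.exists_mem_notMem_of_card_lt_card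
      (s := {i, j}) (t := Finset.univ) (by
        rw [Finset.card_univ, Fintype.card_fin]; exact lt_of_le_of_lt Finset.card_le_two (by omega))
      |>.imp fun _ h => h.2
    obtain ⟨l, hl⟩ : ∃ l, l ∉ ({i, j, k} : Finset (Fin n)) :=
      Finset.exists_mem_notMem_of_card_lt_card (s := {i, j, k}) (t := Finset.univ) (by
        rw [Finset.card_univ, Fintype.card_fin]
        exact lt_of_le_of_lt Finset.card_le_three (by omega)) |>.imp fun _ h => h.2
    simp only [Finset.mem_insert, Finset.mem_singleton, not_or] at hk hl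
    have h2 := rq_pm hU (Pi.single i 1) (Pi.single k 1) (Pi.single j 1) (Pi.single l 1)
    have h3 := hp (cv (Pi.single i 1) (Pi.single k 1)) (cv (Pi.single j 1) (Pi.single l 1))
      (by simp [fr_cv_dot, hk.1, Ne.symm hk.1])
      (by simp [fr_cv_dot, hij, hk.2, Ne.symm hl.1, Ne.symm hl.2.2])
      (by simp [fr_cv_dot, hl.2.1, Ne.symm hl.2.1])
    have h4 := hp (cv (Pi.single i 1) (Pi.single k 1)) (cv (Pi.single j 1) (-Pi.single l 1))
      (by simp [fr_cv_dot, hk.1, Ne.symm hk.1])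
      (by simp [fr_cv_dot, hij, hk.2, Ne.symm hl.1, Ne.symm hl.2.2])
      (by simp [fr_cv_dot, hl.2.1, Ne.symm hl.2.1])
    rw [zero_sub, ← neg_one_smul ℝ U, rq_smul] at h3 h4
    simp only [ev4_single, mul_one] at h2
    linarith only [hU, h0, h3, h4, h2, diag_nonneg hU h0 i j, diag_nonneg hU h0 k j, diag_nonneg hU h0 i l,
      diag_nonneg hU h0 k l]
  have hb : ∀ i j k l, opL (biv i j) (biv k l) U = 4 * U i j k l := fun i j k l => by
    simp only [biv, opL_add_left, opL_add_right, opL_smul_left, opL_smul_right, opL_single]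
    rw [hU.skew i j l k, hU.skew i j k l, hU.skew' i j k l]
    ring
  funext i j k l
  have h3 : ∀ c : ℝ, 0 ≤ c * U i j k l := by
    intro c
    have h4 : 0 ≤ opL (biv i j + c • biv k l) (biv i j + c • biv k l) U := h0 _ fun a b => by
      simp only [Matrix.add_apply, Matrix.smul_apply, smul_eq_mul, biv_skew i j a b,
        biv_skew k l a b]
      ring
    simp only [opL_add_left, opL_add_right, opL_smul_left, opL_smul_right, hb,
      hU.pair i j k l, h1] at h4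
    linarith
  have h4 := h3 1
  have h5 := h3 (-1)
  change U i j k l = 0
  linarith only [h4, h5]

section

variable {hn : 5 ≤ n} {S U : T4 n}

theorem Cn.pullT (hc : Cn hn β h S U) {P : Mat n} (hP : Pᵀ * P = 1) :
    Cn hn β h (pullT S P) (pullT U P) := by
  have hQ : ∀ Q : Mat n, Qᵀ * Q = 1 → (P * Q)ᵀ * (P * Q) = 1 := fun Q hQ => by
    rw [transpose_mul, Matrix.mul_assoc, ← Matrix.mul_assoc Pᵀ, hP, Matrix.one_mul, hQ]
  refine ⟨isCurv_pullT hc.curv P, isOp_pullT hc.op P, opNonneg_pullT hc.nn P, ?_,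
    fun Q h => ?_, fun Q h => ?_⟩
  · rw [← pullT_sub]; exact hc.pic.pullT hP
  · rw [pullT_mul]; exact hc.h3 _ (hQ Q h)
  · rw [pullT_mul, pullT_mul]; exact hc.h4 _ (hQ Q h)

theorem Cn.picS (hc : Cn hn β h S U) : PICw S := by
  intro z w hz hzw hw
  have h1 := hc.pic z w hz hzw hw
  have h2 := rq_nonneg hc.nn z w
  rw [rq_sub] at h1
  linarith only [h1, h2]

theorem Cn.c3_ge (hc : Cn hn β h S U) : -h ≤ c3 β (ix hn 0) (ix hn 1) S := by
  simpa only [pullT_one] using hc.h3 1 (by simp)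

theorem Cn.c4_ge (hc : Cn hn β h S U) : -(3 * β * h) ≤ c4 β (ix hn 0) (ix hn 1) S U := by
  simpa only [pullT_one] using hc.h4 1 (by simp)

/-- Condition (iii) for pairs of vectors. -/
theorem real3 (h3 : ∀ P : Mat n, Pᵀ * P = 1 → -h ≤ c3 β (ix hn 0) (ix hn 1) (pullT S P))
    {u w : Fin n → ℝ} (huw : u ⬝ᵥ w = 0) (hn' : u ⬝ᵥ u = w ⬝ᵥ w) :
    0 ≤ u ⬝ᵥ ric4 S *ᵥ u + w ⬝ᵥ ric4 S *ᵥ w + 2 * (β / 3 * lb S + h / 2) * (u ⬝ᵥ u) := by
  by_cases hu : u = 0
  · obtain rfl : w = 0 := dotProduct_self_eq_zero.1 (by rw [← hn', hu, zero_dotProduct])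
    simp [hu]
  obtain ⟨r, hr, h1⟩ := exists_unit hu
  obtain ⟨P, hP, h2, h4⟩ := exists_orth2 hn (u := r • u) (w := r • w)
    (by simpa [mul_assoc] using h1) (by simpa [mul_assoc, hn'] using h1) (by simp [huw])
  have h5 := h3 P hP
  rw [c3, ric4_pullT S (mul_eq_one_comm.1 hP), lb_pullT S hP, conj_entry _ P _ _ h2 h2,
    conj_entry _ P _ _ h4 h4] at h5
  simp only [mulVec_smul, smul_dotProduct, dotProduct_smul, smul_eq_mul] at h5
  refine nonneg_of_mul_nonneg_right ?_ (mul_pos hr hr)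
  calc _ ≤ r * (r * u ⬝ᵥ ric4 S *ᵥ u) + r * (r * w ⬝ᵥ ric4 S *ᵥ w) + 2 * (β / 3) * lb S + h := by
        linarith only [h5]
    _ = _ := by linear_combination (-2 * (β / 3 * lb S + h / 2)) * h1

theorem hf_cv_re (A : Mat n) (u w : Fin n → ℝ) :
    (hf A (cv u w) (cv u w)).re = u ⬝ᵥ A *ᵥ u + w ⬝ᵥ A *ᵥ w := by
  simp only [hf, Complex.re_sum, dotProduct, mulVec, Finset.mul_sum, ← Finset.sum_add_distrib]
  refine Finset.sum_congr rfl fun i _ => Finset.sum_congr rfl fun j _ => ?_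
  simp [cv]
  ring

theorem nv_cv (u w : Fin n → ℝ) : nv (cv u w) = u ⬝ᵥ u + w ⬝ᵥ w := by
  simp only [nv, dotProduct, ← Finset.sum_add_distrib]
  refine Finset.sum_congr rfl fun i _ => ?_
  simp [cv, Complex.normSq_apply]

/-- Condition (iii) for isotropic vectors. -/
theorem iso3 (h3 : ∀ P : Mat n, Pᵀ * P = 1 → -h ≤ c3 β (ix hn 0) (ix hn 1) (pullT S P))
    {z : Fin n → ℂ} (hz : z ⬝ᵥ z = 0) :
    0 ≤ (hf (ric4 S) z z).re + (β / 3 * lb S + h / 2) * nv z := by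
  obtain ⟨u, w, rfl⟩ := fr_exists_cv z
  rw [fr_cv_dot] at hz
  have e1 := congrArg Complex.re hz
  have e2 := congrArg Complex.im hz
  simp [dotProduct_comm w u] at e1 e2
  have h1 := real3 h3 e2 (sub_eq_zero.1 e1)
  rw [hf_cv_re, nv_cv, ← sub_eq_zero.1 e1]
  linarith only [h1]

/-- Condition (ii) for orthonormal frames, summed over both orientations. -/
theorem Cn.real2 (hc : Cn hn β h S U) {x y u w : Fin n → ℝ} (hx : x ⬝ᵥ x = y ⬝ᵥ y)
    (hu : u ⬝ᵥ u = w ⬝ᵥ w) (hxy : x ⬝ᵥ y = 0) (huw : u ⬝ᵥ w = 0) (hxu : x ⬝ᵥ u = 0)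
    (hxw : x ⬝ᵥ w = 0) (hyu : y ⬝ᵥ u = 0) (hyw : y ⬝ᵥ w = 0) :
    0 ≤ ev4 (S - U) x u x u + ev4 (S - U) y u y u + ev4 (S - U) x w x w +
      ev4 (S - U) y w y w := by
  have h1 := rq_pm (hc.curv.isOp.sub hc.op) x y u w
  have h2 := hc.pic (cv x y) (cv u w) (by simp [fr_cv_dot, hx, hxy, dotProduct_comm y x])
    (by simp [fr_cv_dot, hxu, hxw, hyu, hyw]) (by simp [fr_cv_dot, hu, huw, dotProduct_comm w u])
  have h3 := hc.pic (cv x y) (cv u (-w)) (by simp [fr_cv_dot, hx, hxy, dotProduct_comm y x])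
    (by simp [fr_cv_dot, hxu, hxw, hyu, hyw]) (by simp [fr_cv_dot, hu, huw, dotProduct_comm w u])
  linarith only [h1, h2, h3]

end

end

end St1

end Pool.Agent.Work.MP_3a9764_gt
end

-- merged part: Pool.Agent.Work.MP_3a9764_gt.St1x
section
/-! Linear algebra for stage 1. -/

set_option autoImplicit false

open Filter Set Matrix
open scoped Topology ComplexConjugate

namespace Pool.Agent.Work.MP_3a9764_gt

noncomputable section

variable {n : ℕ}

theorem x_spec {ι : Type} [Fintype ι] [DecidableEq ι] {A : Matrix ι ι ℝ} (hA : A.IsSymm) :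
    ∃ (P : Matrix ι ι ℝ) (l : ι → ℝ), Pᵀ * P = 1 ∧ Pᵀ * A * P = diagonal l := by
  have hH : A.IsHermitian := by rwa [IsHermitian, conjTranspose_eq_transpose_of_trivial]
  have h1 : (hH.eigenvectorUnitary : Matrix ι ι ℝ)ᵀ * hH.eigenvectorUnitary = 1 := by
    have := hH.eigenvectorUnitary.2.1
    rwa [star_eq_conjTranspose, conjTranspose_eq_transpose_of_trivial] at this
  refine ⟨hH.eigenvectorUnitary, hH.eigenvalues, h1, ?_⟩
  have h2 : A * hH.eigenvectorUnitary = hH.eigenvectorUnitary * diagonal hH.eigenvalues := by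
    ext i j
    have := congrFun (hH.mulVec_eigenvectorBasis j) i
    rw [mul_diagonal, mul_comm]
    exact this
  rw [Matrix.mul_assoc, h2, ← Matrix.mul_assoc, h1, Matrix.one_mul]

/-- Diagonalisation of a block diagonal matrix. -/
theorem x_block {A : Mat n} (hA : A.IsSymm) (p : Fin n → Prop) [DecidablePred p]
    (h : ∀ i j, p i → ¬ p j → A i j = 0) : ∃ P : Mat n, Pᵀ * P = 1 ∧
      (∀ i j, p i → ¬ p j → P i j = 0 ∧ P j i = 0) ∧ ∀ i j, i ≠ j → (Pᵀ * A * P) i j = 0 := by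
  let e := Equiv.sumCompl p
  obtain ⟨P₁, l₁, h1, k1⟩ := x_spec (hA.submatrix (Subtype.val : {i // p i} → Fin n))
  obtain ⟨P₂, l₂, h2, k2⟩ := x_spec (hA.submatrix (Subtype.val : {i // ¬ p i} → Fin n))
  have hA' : A = (fromBlocks (A.submatrix Subtype.val Subtype.val) 0 0
      (A.submatrix Subtype.val Subtype.val)).submatrix e.symm e.symm := by
    ext i j
    obtain ⟨i, rfl⟩ := e.surjective i
    obtain ⟨j, rfl⟩ := e.surjective j
    rw [submatrix_apply, e.symm_apply_apply, e.symm_apply_apply]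
    rcases i with i | i <;> rcases j with j | j
    · rfl
    · exact h _ _ i.2 j.2
    · exact (hA.apply _ _).trans (h _ _ j.2 i.2)
    · rfl
  refine ⟨(fromBlocks P₁ 0 0 P₂).submatrix e.symm e.symm, ?_, fun i j hi hj => ?_,
    fun i j hij => ?_⟩
  · rw [transpose_submatrix, submatrix_mul_equiv, fromBlocks_transpose, fromBlocks_multiply]
    simp [h1, h2]
  · simp [e, Equiv.sumCompl_symm_apply_of_pos hi, Equiv.sumCompl_symm_apply_of_neg hj]
  · rw [hA', transpose_submatrix, submatrix_mul_equiv, submatrix_mul_equiv, fromBlocks_transpose,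
      fromBlocks_multiply, fromBlocks_multiply]
    simp only [transpose_zero, Matrix.zero_mul, Matrix.mul_zero, add_zero, zero_add, k1, k2,
      fromBlocks_diagonal]
    exact diagonal_apply_ne _ (e.symm.injective.ne hij)

theorem x_two {ι : Type} [DecidableEq ι] (s : Finset ι) (ν C : ι → ℝ) (h0 : ∀ j ∈ s, 0 ≤ ν j)
    (h1 : ∀ j ∈ s, 2 * ν j ≤ ∑ k ∈ s, ν k) (h2 : ∀ j ∈ s, ∀ k ∈ s, j ≠ k → 0 ≤ C j + C k) :
    0 ≤ ∑ j ∈ s, ν j * C j := by
  by_cases h : ∀ j ∈ s, 0 ≤ C j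
  · exact Finset.sum_nonneg fun j hj => mul_nonneg (h0 j hj) (h j hj)
  push Not at h
  obtain ⟨j, hj, hC⟩ := h
  have e1 := h1 j hj
  rw [← Finset.add_sum_erase s _ hj] at e1 ⊢
  have e2 : ∑ k ∈ s.erase j, ν k * (-C j) ≤ ∑ k ∈ s.erase j, ν k * C k :=
    Finset.sum_le_sum fun k hk => mul_le_mul_of_nonneg_left
      (by linarith [h2 j hj k (Finset.mem_of_mem_erase hk) (Finset.ne_of_mem_erase hk).symm])
      (h0 k (Finset.mem_of_mem_erase hk))
  rw [← Finset.sum_mul] at e2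
  linarith only [e2, hC, e1, mul_nonneg_of_nonpos_of_nonpos (le_of_lt (Mathlib.Tactic.Linarith.sub_neg_of_lt hC)) (Mathlib.Tactic.Linarith.sub_nonpos_of_le e1)]

theorem x_lin_zero {α β : ℝ} (h : ∀ c s : ℝ, c ^ 2 + s ^ 2 = 1 → 0 ≤ 2 * c * s * α + s ^ 2 * β) :
    α = 0 := by
  have k : ∀ t : ℝ, 0 ≤ 2 * t * α + t ^ 2 * β := fun t => by
    have h1 : 0 < 1 + t ^ 2 := by positivity
    have h2 := Real.sq_sqrt h1.le
    have h3 := Real.sqrt_pos.2 h1
    generalize √(1 + t ^ 2) = r at h2 h3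
    have := mul_nonneg (sq_nonneg r) (h r⁻¹ (t * r⁻¹) (by field_simp; linarith only [h2]))
    refine this.trans_eq ?_
    field_simp
  by_contra hα
  have h1 : 0 < |β| + 1 := by positivity
  have := k (-α / (|β| + 1))
  have e : 2 * (-α / (|β| + 1)) * α + (-α / (|β| + 1)) ^ 2 * β =
      (α / (|β| + 1)) ^ 2 * (β - 2 * (|β| + 1)) := by
    field_simp
    ring
  rw [e] at this
  have h2 : 0 < (α / (|β| + 1)) ^ 2 := by positivity
  have h3 : β - 2 * (|β| + 1) < 0 := by linarith only [h1, le_abs_self β, abs_nonneg β]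
  linarith only [this, h2, h3, mul_pos_of_neg_of_neg (Mathlib.Tactic.Linarith.sub_neg_of_lt h2) (Mathlib.Tactic.Linarith.sub_neg_of_lt h3)]

theorem x_rq_both {U : T4 n} (hU : IsOp U) (a b c d : Fin n → ℝ) :
    rq U (wedge (cv a b) (cv c d)) + rq U (wedge (cv a b) (cv c (-d))) =
      2 * (ev4 U a c a c + ev4 U a d a d + ev4 U b c b c + ev4 U b d b d) := by
  have e : ∀ X : ℂ, (4 * X).re / 4 = X.re := fun X => by simp
  simp only [rq, cq_wedge hU, e]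
  simp only [cq, ev4, Complex.re_sum, ← Finset.sum_add_distrib, Finset.mul_sum]
  refine Finset.sum_congr rfl fun i _ => Finset.sum_congr rfl fun j _ =>
    Finset.sum_congr rfl fun k _ => Finset.sum_congr rfl fun l _ => ?_
  simp [vecMulVec_apply, cv]
  ring

/-- (P1) without the Bianchi identity. -/
theorem PICw.p1_op {U : T4 n} (hU : IsOp U) (h : PICw U) {a b c d : Fin n} (hab : a ≠ b)
    (hac : a ≠ c) (had : a ≠ d) (hbc : b ≠ c) (hbd : b ≠ d) (hcd : c ≠ d) :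
    0 ≤ U a c a c + U a d a d + U b c b c + U b d b d := by
  have h1 := h (cv (Pi.single a 1) (Pi.single b 1)) (cv (Pi.single c 1) (Pi.single d 1))
    (by simp [fr_cv_dot, hab, hab.symm]) (by simp [fr_cv_dot, hac, had, hbc, hbd])
    (by simp [fr_cv_dot, hcd, hcd.symm])
  have h2 := h (cv (Pi.single a 1) (Pi.single b 1)) (cv (Pi.single c 1) (-Pi.single d 1))
    (by simp [fr_cv_dot, hab, hab.symm]) (by simp [fr_cv_dot, hac, had, hbc, hbd])
    (by simp [fr_cv_dot, hcd, hcd.symm])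
  have h3 := x_rq_both hU (Pi.single a 1) (Pi.single b 1) (Pi.single c 1) (Pi.single d 1)
  simp only [ev4_single, mul_one] at h3
  linarith only [h1, h2, h3]

theorem x_picw {S U : T4 n} (hU : OpNonneg U) (h : PICw (S - U)) : PICw S := fun z w h1 h2 h3 => by
  have e1 := h z w h1 h2 h3
  have e2 := hU.cq_nonneg (wedge_skew z w)
  rw [rq, cq_sub, Complex.sub_re] at e1
  rw [rq]
  linarith only [e1, e2]

theorem x_split {i j : Fin n} (h : i ≠ j) (F : Fin n → ℝ) :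
    ∑ p, F p = F i + F j + ∑ p ∈ (Finset.univ.erase i).erase j, F p := by
  rw [add_assoc, Finset.add_sum_erase _ _ (Finset.mem_erase.2 ⟨h.symm, Finset.mem_univ _⟩),
    Finset.add_sum_erase _ _ (Finset.mem_univ _)]

theorem x_card {i j : Fin n} (h : i ≠ j) :
    ((((Finset.univ.erase i).erase j).card : ℕ) : ℝ) = n - 2 := by
  have := x_split h fun _ => 1
  simp only [Finset.sum_const, Finset.card_univ, Fintype.card_fin, nsmul_eq_mul, mul_one] at this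
  linarith only [this]

theorem x_ric_diag {S : T4 n} (hS : IsCurv S) {i j : Fin n} (h : i ≠ j) :
    ric4 S i i = S i j i j + ∑ p ∈ (Finset.univ.erase i).erase j, S i p i p := by
  have z1 : S i i i i = 0 := by linarith only [hS, hS.skew i i i i]
  simp only [ric4, x_split h, z1, zero_add, hS.swap i]

theorem x_sec_nonneg {U : T4 n} (hU : IsOp U) (h : OpNonneg U) (a c : Fin n → ℝ) :
    0 ≤ ev4 U a c a c := by
  have h1 := x_rq_both hU a 0 c 0
  have h2 := h.cq_nonneg (wedge_skew (cv a 0) (cv c 0))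
  have z : ∀ x : Fin n → ℝ, ev4 U x 0 x 0 = 0 ∧ ev4 U 0 x 0 x = 0 := fun x => by simp [ev4]
  rw [neg_zero, (z a).1, (z c).2, (z 0).1, rq] at h1
  linarith only [h1, h2]

/-- The reaction term of the sum of two Ricci eigenvalues. -/
theorem x_iii (hn : 5 ≤ n) {S U : T4 n} (hS : IsCurv S) (hU : IsOp U) (hU0 : OpNonneg U)
    (hP : PICw (S - U)) {i j : Fin n} (h : i ≠ j) (hd : ∀ p q, p ≠ q → ric4 S p q = 0) {x μ : ℝ}
    (hx : x = ric4 S i i + ric4 S j j) (hx0 : x ≤ 0) (hμ : 0 ≤ μ)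
    (hν : ∀ p, p ≠ i → p ≠ j → μ ≤ ric4 S p p - x / 2) :
    x ^ 2 / 2 + μ * ∑ p ∈ (Finset.univ.erase i).erase j, (U i p i p + U j p j p) ≤
      st4 S (ric4 S) i i + st4 S (ric4 S) j j := by
  have ec : (Finset.univ.erase j).erase i = (Finset.univ.erase i).erase j := Finset.erase_right_comm
  have e1 := x_ric_diag hS h
  have e2 := x_ric_diag hS h.symm
  have z1 : ∀ k, S k k k k = 0 := fun k => by linarith only [hS, hS.skew k k k k]
  have e3 : ∀ k, st4 S (ric4 S) k k = ∑ p, S k p k p * ric4 S p p := fun k =>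
    Finset.sum_congr rfl fun p _ => Finset.sum_eq_single p
      (fun q _ hq => by rw [hd p q hq.symm, mul_zero]) fun hp => absurd (Finset.mem_univ p) hp
  have e4 : scal4 S = ∑ p, ric4 S p p := (trace_ric4 S).symm
  rw [ec, hS.swap i j i j] at e2
  rw [e3, e3, x_split h, x_split h, z1, z1, hS.swap i j i j]
  rw [x_split h] at e4
  have hc := x_card h
  have hm : ∀ p ∈ (Finset.univ.erase i).erase j, p ≠ i ∧ p ≠ j := fun p hp =>
    ⟨Finset.ne_of_mem_erase (Finset.mem_of_mem_erase hp), Finset.ne_of_mem_erase hp⟩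
  generalize (Finset.univ.erase i).erase j = s at *
  have hn' : (5 : ℝ) ≤ n := by exact_mod_cast hn
  have a1 := x_two s (fun p => ric4 S p p - x / 2)
    (fun p => (S - U) i p i p + (S - U) j p j p)
    (fun p hp => hμ.trans (hν p (hm p hp).1 (hm p hp).2)) (fun p hp => by
      have := (x_picw hU0 hP).p2 hn hS p
      rw [Finset.sum_sub_distrib, Finset.sum_const, nsmul_eq_mul, hc]
      linarith only [hx, e4, this, hx0, hc, mul_nonneg_of_nonpos_of_nonpos (Mathlib.Tactic.Linarith.sub_nonpos_of_le (Mathlib.Tactic.Linarith.natCast_nonneg ℝ s.card)) (Mathlib.Tactic.Linarith.sub_nonpos_of_le hx0), Mathlib.Tactic.Linarith.mul_zero_eq (Mathlib.Tactic.Linarith.sub_nonpos_of_le hx0) (sub_eq_zero_of_eq hc)]) fun p hp q hq hpq => by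
      have := hP.p1_op (hS.isOp.sub hU) h (hm p hp).1.symm (hm q hq).1.symm (hm p hp).2.symm
        (hm q hq).2.symm hpq
      linarith
  have a2 : ∑ p ∈ s, μ * (U i p i p + U j p j p) ≤
      ∑ p ∈ s, (ric4 S p p - x / 2) * (U i p i p + U j p j p) := Finset.sum_le_sum fun p hp => by
    have k1 := x_sec_nonneg hU hU0 (Pi.single i 1) (Pi.single p 1)
    have k2 := x_sec_nonneg hU hU0 (Pi.single j 1) (Pi.single p 1)
    simp only [ev4_single, mul_one] at k1 k2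
    exact mul_le_mul_of_nonneg_right (hν p (hm p hp).1 (hm p hp).2) (add_nonneg k1 k2)
  have a3 : ∑ p ∈ s, S i p i p * ric4 S p p + ∑ p ∈ s, S j p j p * ric4 S p p =
      ∑ p ∈ s, (ric4 S p p - x / 2) * ((S - U) i p i p + (S - U) j p j p) +
      ∑ p ∈ s, (ric4 S p p - x / 2) * (U i p i p + U j p j p) +
      x / 2 * (∑ p ∈ s, S i p i p + ∑ p ∈ s, S j p j p) := by
    simp only [← Finset.sum_add_distrib, Finset.mul_sum, Pi.sub_apply]
    exact Finset.sum_congr rfl fun p _ => by ring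
  rw [← Finset.mul_sum] at a2
  rw [eq_sub_of_add_eq' e1.symm, eq_sub_of_add_eq' e2.symm] at a3
  subst hx
  linear_combination a1 + a2 - a3

theorem x_sg_ge {S : T4 n} (hS : IsCurv S) {i j : Fin n} (h : i ≠ j) {β : ℝ}
    (hβ : ((n : ℝ) - 2) * β = -(ric4 S i i + ric4 S j j - 2 * lb S)) :
    (ric4 S i i - lb S) ^ 2 + (ric4 S j j - lb S) ^ 2 + ((n : ℝ) - 2) * β ^ 2 ≤ n * sg S := by
  have hn : (n : ℝ) ≠ 0 := Nat.cast_ne_zero.2 i.pos.ne'
  have e5 := trace_ric0 hn S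
  have e8 : ∀ k, ric0 S k k = ric4 S k k - lb S := fun k => by simp [ric0]
  have e9 : ∑ p, ric0 S p p ^ 2 ≤ n * sg S := by
    rw [← trace_ric0_sq hn S, trace_sq_eq (ric0_isSymm hS)]
    exact Finset.sum_le_sum fun p _ => Finset.single_le_sum (f := fun q => ric0 S p q ^ 2)
      (fun _ _ => sq_nonneg _) (Finset.mem_univ p)
  simp only [Matrix.trace, Matrix.diag, x_split h] at e5
  rw [x_split h] at e9
  have hc := x_card h
  generalize (Finset.univ.erase i).erase j = s at *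
  have a1 : ∑ p ∈ s, (2 * β * ric0 S p p - β ^ 2) ≤ ∑ p ∈ s, ric0 S p p ^ 2 :=
    Finset.sum_le_sum fun p _ => by linarith only [sq_nonneg (ric0 S p p - β), sq_nonneg (ric0 S p p - β)]
  rw [Finset.sum_sub_distrib, ← Finset.mul_sum, Finset.sum_const, nsmul_eq_mul, hc,
    show ∑ p ∈ s, ric0 S p p = (n - 2) * β by linarith only [hβ, e5, e8, e8 i, e8 j]] at a1
  rw [e8, e8] at e9
  linarith only [e9, a1]

end

end Pool.Agent.Work.MP_3a9764_gt
end

-- merged part: Pool.Agent.Work.MP_3a9764_gt.St1b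
section
/-! The derivatives of conditions (i) and (ii). -/

set_option autoImplicit false

open Filter Set Matrix
open scoped Topology ComplexConjugate

namespace Pool.Agent.Work.MP_3a9764_gt

namespace St1

noncomputable section

variable {n : ℕ} {β h : ℝ}

theorem cq_sqT {S : T4 n} (hS : IsOp S) (v : CMat n) :
    (cq (sqT S) v v).re = nsq (cop S v) / 2 := by
  have e : cq (sqT S) v v = (1 / 2) * ∑ p, ∑ q, cop S v p q * conj (cop S v p q) := by
    simp only [cq, cop, sqT_apply hS, map_sum, map_mul, Complex.conj_ofReal, Finset.sum_mul,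
      Finset.mul_sum, Complex.ofReal_sum, Complex.ofReal_mul]
    rw [ap_sum22]
    symm
    rw [ap_sum22]
    refine Finset.sum_congr rfl fun i _ => Finset.sum_congr rfl fun j _ => ?_
    rw [ap_sum22]
    refine Finset.sum_congr rfl fun k _ => Finset.sum_congr rfl fun l _ =>
      Finset.sum_congr rfl fun p _ => Finset.sum_congr rfl fun q _ => ?_
    rw [hS.pair i j, hS.pair k l]
    push_cast
    ring
  rw [e, nsq_eq]
  simp
  ring

theorem opL_sqT_nonneg (S : T4 n) (φ : Mat n) : 0 ≤ opL φ φ (sqT S) := by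
  have e : opL φ φ (sqT S) =
      1 / 8 * ∑ p, ∑ q, (∑ i, ∑ j, (S i j p q - S j i p q) * φ i j) ^ 2 := by
    simp only [opL_apply, sqT, sq, Finset.sum_mul, Finset.mul_sum]
    rw [ap_sum22]
    symm
    rw [ap_sum22]
    refine Finset.sum_congr rfl fun i _ => Finset.sum_congr rfl fun j _ => ?_
    rw [ap_sum22]
    refine Finset.sum_congr rfl fun k _ => Finset.sum_congr rfl fun l _ =>
      Finset.sum_congr rfl fun p _ => Finset.sum_congr rfl fun q _ => ?_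
    ring
  rw [e]
  positivity

/-- The derivative of condition (i). -/
theorem der1 (β : ℝ) (S : T4 n) {φ : Fin n → Fin n → ℝ} (hφ : φ ∈ UnitBiv n) :
    β ^ 2 / 10 * lb S ^ 2 ≤ opL φ φ (Tv β S) := by
  have h1 := opL_sqT_nonneg S φ
  have h2 := opL_Id4 (φ := φ) hφ.1
  rw [hφ.2] at h2
  rw [Tv, map_add, map_smul, h2, smul_eq_mul]
  linarith only [h1]

theorem hf_cv (A : Mat n) (a b c d : Fin n → ℝ) : hf A (cv a b) (cv c d) =
    ((a ⬝ᵥ A *ᵥ c + b ⬝ᵥ A *ᵥ d : ℝ) : ℂ) + Complex.I * ((b ⬝ᵥ A *ᵥ c - a ⬝ᵥ A *ᵥ d : ℝ) : ℂ) := by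
  simp only [hf, dotProduct, mulVec, cv, Finset.mul_sum, map_add, map_mul, Complex.conj_ofReal,
    Complex.conj_I]
  push_cast
  simp only [← Finset.sum_sub_distrib, ← Finset.sum_add_distrib, Finset.mul_sum]
  refine Finset.sum_congr rfl fun i _ => Finset.sum_congr rfl fun j _ => ?_
  linear_combination (-(A i j * b i * d j) : ℂ) * Complex.I_sq

theorem sym_dot {A : Mat n} (hA : A.IsSymm) (a c : Fin n → ℝ) : c ⬝ᵥ A *ᵥ a = a ⬝ᵥ A *ᵥ c := by
  rw [dotProduct_mulVec, ← mulVec_transpose, hA.eq, dotProduct_comm]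

theorem bessel4 {e : Fin 4 → Fin n → ℝ} (he : ON4 e) (y : Fin n → ℝ) :
    (e 0 ⬝ᵥ y) ^ 2 + (e 1 ⬝ᵥ y) ^ 2 + (e 2 ⬝ᵥ y) ^ 2 + (e 3 ⬝ᵥ y) ^ 2 ≤ y ⬝ᵥ y := by
  have h : 0 ≤ (y - ∑ k, (e k ⬝ᵥ y) • e k) ⬝ᵥ (y - ∑ k, (e k ⬝ᵥ y) • e k) :=
    Finset.sum_nonneg fun i _ => mul_self_nonneg _
  simp only [sub_dotProduct, dotProduct_sub, sum_dotProduct, dotProduct_sum, smul_dotProduct,
    dotProduct_smul, ap_on4_dot he, dotProduct_comm y (e _), smul_eq_mul, mul_ite, mul_one,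
    mul_zero, Finset.sum_ite_eq', Finset.mem_univ, if_true] at h
  simp only [Fin.sum_univ_four] at h
  linarith only [h]

theorem mul_wedge (g : CMat n) (z w : Fin n → ℂ) :
    g * wedge z w * gᵀ = wedge (g *ᵥ z) (g *ᵥ w) := by
  simp only [wedge, Matrix.mul_sub, Matrix.sub_mul, mul_vecMulVec, vecMulVec_mul, vecMul_transpose]

theorem orth_dot {g : CMat n} (hg : gᵀ * g = 1) (z w : Fin n → ℂ) :
    (g *ᵥ z) ⬝ᵥ (g *ᵥ w) = z ⬝ᵥ w := by
  rw [dotProduct_mulVec, vecMul_mulVec, hg, vecMul_one]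

/-- The derivative of condition (ii) at an active frame. -/
theorem der2 (hp : Par n β h) {S U : T4 n} (hS : IsCurv S) (hU : IsOp U) (nn : OpNonneg U)
    (pic : PICw (S - U))
    (h3 : ∀ P : Mat n, Pᵀ * P = 1 → -h ≤ c3 β (ix hp.n5 0) (ix hp.n5 1) (pullT S P))
    (hl : 0 ≤ lb S) {e : Fin 4 → Fin n → ℝ} (he : ON4 e)
    (hact : rq (S - U) (wedge (cv (e 0) (e 1)) (cv (e 2) (e 3))) = 0) :
    β ^ 2 / 10 * lb S ^ 2 - 40 * β * (h * lb S + h ^ 2) ≤
      rq (Sv β S - Tv β S) (wedge (cv (e 0) (e 1)) (cv (e 2) (e 3))) := by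
  have hn : (n : ℝ) ≠ 0 := Nat.cast_ne_zero.2 (by have := hp.n5; omega)
  have hd := ap_on4_dot he
  have hA := ric4_isSymm hS
  have hR := ric0_isSymm hS
  have k1 := orbit_min_hidden hS.isOp hU nn (wedge_skew (cv (e 0) (e 1)) (cv (e 2) (e 3)))
    (Eventually.of_forall fun g hg _ => by
      have := pic (g *ᵥ cv (e 0) (e 1)) (g *ᵥ cv (e 2) (e 3))
        (by simp [orth_dot hg, fr_cv_dot, hd]) (by simp [orth_dot hg, fr_cv_dot, hd])
        (by simp [orth_dot hg, fr_cv_dot, hd])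
      rw [rq] at this hact
      rw [mul_wedge]
      linarith only [hact, this])
  have k2 := cq_sqT hS.isOp (wedge (cv (e 0) (e 1)) (cv (e 2) (e 3)))
  have k3 := rq_kn_wedge hA hA (cv (e 0) (e 1)) (cv (e 2) (e 3))
  have k4 := rq_kn_wedge hS.ric0_sq_isSymm isSymm_one (cv (e 0) (e 1)) (cv (e 2) (e 3))
  have k5 := rq_kn_wedge isSymm_one isSymm_one (cv (e 0) (e 1)) (cv (e 2) (e 3))
  have e1 : ∀ i j, e i ⬝ᵥ ric0 S *ᵥ e j = e i ⬝ᵥ ric4 S *ᵥ e j - if i = j then lb S else 0 :=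
    fun i j => by simp [ric0, sub_mulVec, smul_mulVec, hd]
  have e2 : ∀ i, e i ⬝ᵥ (ric0 S * ric0 S) *ᵥ e i = (ric0 S *ᵥ e i) ⬝ᵥ (ric0 S *ᵥ e i) :=
    fun i => by rw [← mulVec_mulVec, sym_dot hR]
  have e3 := fun i => bessel4 he (ric0 S *ᵥ e i)
  have b0 := e3 0
  have b1 := e3 1
  have b2 := e3 2
  have b3 := e3 3
  have e4 : ∀ i, e i ⬝ᵥ ric4 S *ᵥ e i ≤ n * lb S / 2 := fun i => by
    simpa [hd, scal4_eq hn] using p2_vec hp.n5 hS (x_picw nn pic) (e i)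
  have e5 : ∀ s x y : ℝ, 0 ≤ (s • e 0 + x • e 2 - y • e 3) ⬝ᵥ ric4 S *ᵥ (s • e 0 + x • e 2 - y • e 3) +
      (s • e 1 + y • e 2 + x • e 3) ⬝ᵥ ric4 S *ᵥ (s • e 1 + y • e 2 + x • e 3) +
      2 * (β / 3 * lb S + h / 2) * (s ^ 2 + x ^ 2 + y ^ 2) := fun s x y => by
    have := real3 h3 (u := s • e 0 + x • e 2 - y • e 3) (w := s • e 1 + y • e 2 + x • e 3)
      (by simp [hd]; ring) (by simp [hd]; ring)
    rwa [show (s • e 0 + x • e 2 - y • e 3) ⬝ᵥ (s • e 0 + x • e 2 - y • e 3) = s ^ 2 + x ^ 2 + y ^ 2 by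
      simp [hd]; ring] at this
  simp only [mulVec_add, mulVec_sub, mulVec_smul, add_dotProduct, sub_dotProduct, dotProduct_add,
    dotProduct_sub, smul_dotProduct, dotProduct_smul, smul_eq_mul] at e5
  simp only [hf_cv, one_mulVec, hd, e2] at k3 k4 k5
  simp only [e1] at b0 b1 b2 b3
  simp only [sym_dot hA (e 0), sym_dot hA (e 1) (e 2), sym_dot hA (e 1) (e 3),
    sym_dot hA (e 2) (e 3)] at k3 b0 b1 b2 b3 e5
  have p0 := e4 0
  have p1 := e4 1
  have p2 := e4 2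
  have p3 := e4 3
  rw [kn_one_one] at k5
  simp only [rq, Sv, Tv, DD, cq_sub, cq_add, cq_smul, Complex.sub_re, Complex.add_re,
    Complex.re_ofReal_mul] at k3 k4 k5 ⊢
  simp at k3 k4 k5 b0 b1 b2 b3
  generalize e 0 ⬝ᵥ ric4 S *ᵥ e 0 = r00 at *
  generalize e 0 ⬝ᵥ ric4 S *ᵥ e 1 = r01 at *
  generalize e 0 ⬝ᵥ ric4 S *ᵥ e 2 = r02 at *
  generalize e 0 ⬝ᵥ ric4 S *ᵥ e 3 = r03 at *
  generalize e 1 ⬝ᵥ ric4 S *ᵥ e 1 = r11 at *
  generalize e 1 ⬝ᵥ ric4 S *ᵥ e 2 = r12 at *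
  generalize e 1 ⬝ᵥ ric4 S *ᵥ e 3 = r13 at *
  generalize e 2 ⬝ᵥ ric4 S *ᵥ e 2 = r22 at *
  generalize e 2 ⬝ᵥ ric4 S *ᵥ e 3 = r23 at *
  generalize e 3 ⬝ᵥ ric4 S *ᵥ e 3 = r33 at *
  have k6 := sc2 hp (X := r00 + r11) (Y := r22 + r33) (Z := (r02 + r13) ^ 2 + (r12 - r03) ^ 2)
    (q₁ := (ric0 S *ᵥ e 0) ⬝ᵥ (ric0 S *ᵥ e 0) + (ric0 S *ᵥ e 1) ⬝ᵥ (ric0 S *ᵥ e 1))
    (q₂ := (ric0 S *ᵥ e 2) ⬝ᵥ (ric0 S *ᵥ e 2) + (ric0 S *ᵥ e 3) ⬝ᵥ (ric0 S *ᵥ e 3)) hl rfl
    (by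
      generalize β / 3 * lb S + h / 2 = g at e5
      have q1 := e5 1 0 0
      have q2 := e5 0 1 0
      rcases (add_nonneg (sq_nonneg (r02 + r13)) (sq_nonneg (r12 - r03))).eq_or_lt with z | z
      · rw [← z]
        exact mul_nonneg (by linarith only [q1]) (by linarith only [q2])
      · have := discrim_le_zero (a := ((r02 + r13) ^ 2 + (r12 - r03) ^ 2) * (r22 + r33 + 2 * g))
          (b := 2 * ((r02 + r13) ^ 2 + (r12 - r03) ^ 2)) (c := r00 + r11 + 2 * g) fun t => by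
            linear_combination e5 1 (t * (r02 + r13)) (t * (r12 - r03))
        rw [discrim] at this
        refine le_of_mul_le_mul_left ?_ z
        linarith only [this])
    (by linarith only [b0, b1, sq_nonneg (r00 - r11), sq_nonneg (r02 - r13), sq_nonneg (r12 + r03),
      sq_nonneg r01, sq_nonneg r01, sq_nonneg (r12 + r03), sq_nonneg (r02 - r13), sq_nonneg (r00 - r11)])
    (by linarith only [b2, b3, sq_nonneg (r22 - r33), sq_nonneg (r02 - r13), sq_nonneg (r12 + r03),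
      sq_nonneg r23, sq_nonneg r23, sq_nonneg (r12 + r03), sq_nonneg (r02 - r13), sq_nonneg (r22 - r33)])
    (sg_nonneg hS) (by linarith only [p0, p1, p2, p3])
  linear_combination k6 + 1 / 4 * k1 + 1 / 4 * k2 - aa n β * k3 - β ^ 2 * k4 +
    (β ^ 2 / 20 * lb S ^ 2 - cc n β * sg S) / 2 * k5

end

end St1

end Pool.Agent.Work.MP_3a9764_gt
end

-- merged part: Pool.Agent.Work.MP_3a9764_gt.St1c
section
/-! The derivative of condition (iii) at an active frame.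

Plan. `a = ix 0`, `b = ix 1`, `A = ric4 S`, `l = lb S`, `g = β / 3 * l + h / 2`, `x = A a a + A b b = -2 g`.
Reduction to `A a b = 0`, `A a a ≤ A b b`: rotate in the plane (`exists_orth2`, `Cn.pullT`, `Sv_pullT`;
`c3` of a curvature tensor does not change under such a rotation).
Core: `real3` with `(e_a + t e_j, √(1 + t ^ 2) e_b)` gives `A a j = 0`, and `A b j = 0`, for `j ∉ {a, b}`.
Put `μ = (A b b - A a a) / 2`, `N p q = A p q - x / 2 * δ` for `p, q ∉ {a, b}` and `0` otherwise,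
`M p q = S a p a q + S b p b q`, `B p q = U a p a q + U b p b q`.
`st4 S A a a + st4 S A b b = x ^ 2 / 2 + ∑ M p q * N p q` since `A = x / 2 + N + μ (E_bb - E_aa)`.
Spectral theorem for `N`: eigenvectors with eigenvalue `ν ≠ 0` vanish at `a, b`, `ν ≥ 0` (`real3`),
`2 ν ≤ tr N` (`p2_vec`, `x ≤ 0`), `(M - B)(u, u) + (M - B)(w, w) ≥ 0` (`Cn.real2`), so `⟨M - B, N⟩ ≥ 0`.
The same for `N - μ (1 - E_aa - E_bb) ≥ 0` and `B ≥ 0` (`ev4_nonneg`): `⟨B, N⟩ ≥ μ * BT a b U`.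
Then `ric4_Qq4`, `ric4_DD`, `lb_Qq4_add_DD`, Cauchy-Schwarz for `n * sg S`, and `sc3`. -/

set_option autoImplicit false

open Filter Set Matrix
open scoped Topology ComplexConjugate

namespace Pool.Agent.Work.MP_3a9764_gt

namespace St1

noncomputable section

variable {n : ℕ} {β h : ℝ}

theorem BT_eq {U : T4 n} (hU : IsOp U) {a b : Fin n} (hab : a ≠ b) :
    BT a b U = ∑ p ∈ (Finset.univ.erase a).erase b, (U a p a p + U b p b p) := by
  have z : ∀ k, U k k k k = 0 := fun k => by linarith only [hU, hU.skew k k k k]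
  have sw : ∀ i j, U j i j i = U i j i j := fun i j => by rw [hU.skew, hU.skew', neg_neg]
  simp only [BT, ric4, x_split hab, z, sw a, Finset.sum_add_distrib]
  rw [Finset.sum_congr rfl fun p _ => sw b p]
  ring

theorem conj_apply (A P : Mat n) (i j : Fin n) :
    (Pᵀ * A * P) i j = (fun p => P p i) ⬝ᵥ A *ᵥ fun p => P p j := by
  rw [Matrix.mul_assoc]
  rfl

theorem c4_swap {hn : 5 ≤ n} {S U : T4 n} (hc : Cn hn β h S U) :
    -(3 * β * h) ≤ c4 β (ix hn 1) (ix hn 0) S U := by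
  have hab : ix hn 0 ≠ ix hn 1 := (ix_inj hn).ne (by decide)
  obtain ⟨P, hP, h0, h1⟩ := exists_orth2 hn (u := Pi.single (ix hn 1) 1)
    (w := Pi.single (ix hn 0) 1) (by simp) (by simp) (by simp [hab])
  have := hc.h4 P hP
  simp only [c4, BT, ric4_pullT _ (mul_eq_one_comm.1 hP), lb_pullT _ hP, conj_apply] at this ⊢
  simpa [pullT, funext h0, funext h1, ev4_single] using this

theorem tr2 {P : Mat n} (hP : Pᵀ * P = 1) {a b : Fin n} (hab : a ≠ b)
    (h : ∀ i j, (i = a ∨ i = b) → ¬ (j = a ∨ j = b) → P i j = 0 ∧ P j i = 0) (A : Mat n) :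
    (Pᵀ * A * P) a a + (Pᵀ * A * P) b b = A a a + A b b := by
  have hs : ∀ p ∈ (Finset.univ.erase a).erase b, ¬ (p = a ∨ p = b) := fun p hp => not_or.2
    ⟨Finset.ne_of_mem_erase (Finset.mem_of_mem_erase hp), Finset.ne_of_mem_erase hp⟩
  have e1 : ∀ k, (k = a ∨ k = b) → ∀ F : Fin n → ℝ, ∑ p, P p k * F p = P a k * F a + P b k * F b :=
    fun k hk F => by
      rw [x_split hab, Finset.sum_eq_zero fun p hp => by rw [(h k p hk (hs p hp)).2, zero_mul],
        add_zero]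
  have e2 : ∀ k, (k = a ∨ k = b) → ∀ l, P k a * P l a + P k b * P l b = (1 : Mat n) k l :=
    fun k hk l => by
      rw [← mul_eq_one_comm.1 hP, Matrix.mul_apply, x_split hab,
        Finset.sum_eq_zero fun p hp => by rw [(h k p hk (hs p hp)).1, zero_mul], add_zero]
      rfl
  have k1 := e2 a (.inl rfl) a
  have k2 := e2 a (.inl rfl) b
  have k3 := e2 b (.inr rfl) b
  rw [one_apply_eq] at k1 k3
  rw [one_apply_ne hab] at k2
  simp only [conj_apply, dotProduct, mulVec, mul_comm (A _ _), e1 a (.inl rfl), e1 b (.inr rfl)]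
  linear_combination A a a * k1 + (A a b + A b a) * k2 + A b b * k3

theorem quad_pair {A : Mat n} (hA : A.IsSymm) (i k : Fin n) (c s : ℝ) :
    (Pi.single i c + Pi.single k s) ⬝ᵥ A *ᵥ (Pi.single i c + Pi.single k s) =
      c ^ 2 * A i i + 2 * c * s * A i k + s ^ 2 * A k k := by
  simp only [mulVec_add, add_dotProduct, dotProduct_add, single_dotProduct, mulVec_single,
    Pi.smul_apply, col_apply, MulOpposite.smul_eq_mul_unop, MulOpposite.unop_op, hA.apply i k]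
  ring

theorem der3_diag (hp : Par n β h) {S U : T4 n} (hc : Cn hp.n5 β h S U) (hl : 0 < lb S)
    (hact : c3 β (ix hp.n5 0) (ix hp.n5 1) S = -h) (hd : ∀ p q, p ≠ q → ric4 S p q = 0) :
    0 < c3 β (ix hp.n5 0) (ix hp.n5 1) (Sv β S) := by
  have hn3 : 3 ≤ n := by have := hp.n5; omega
  have hn : (5 : ℝ) ≤ n := by exact_mod_cast hp.n5
  have hm : 0 < (n : ℝ) - 2 := by linarith only [hn]
  have hβ := hp.pos
  have hh := hp.h0
  have hS := hc.curv
  have hab : ix hp.n5 0 ≠ ix hp.n5 1 := (ix_inj hp.n5).ne (by decide)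
  have k1 := hc.c4_ge
  have k2 := c4_swap hc
  have k3 : ∀ i k, i ≠ k → 0 ≤ ric4 S i i + ric4 S k k + 2 * (β / 3 * lb S + h / 2) :=
    fun i k hik => by
      simpa using real3 hc.h3 (u := Pi.single i 1) (w := Pi.single k 1) (by simp [hik]) (by simp)
  generalize ix hp.n5 0 = a at *
  generalize ix hp.n5 1 = b at *
  have k4 : BT b a U = BT a b U := by
    rw [BT, BT, hc.op.skew, hc.op.skew', neg_neg, add_comm]
  have k5 := BT_nonneg hc.op hc.nn hab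
  rw [c4] at k1 k2
  rw [c3] at hact
  have hg : 0 ≤ β / 3 * lb S := by positivity
  obtain ⟨μ, hμ⟩ : ∃ μ, μ = |ric4 S b b - ric4 S a a| / 2 := ⟨_, rfl⟩
  have m0 : 0 ≤ μ := by rw [hμ]; positivity
  have m1 : 4 * μ ^ 2 = (ric4 S b b - ric4 S a a) ^ 2 := by rw [hμ, div_pow, sq_abs]; ring
  have k6 := x_iii hp.n5 hS hc.op hc.nn hc.pic hab hd rfl (by linarith only [hh, hact, hg]) m0 fun p h1 h2 => by
    clear * - n S p a β h k3 h1 b h2 μ hμ hact
    have e1 := k3 p a h1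
    have e2 := k3 p b h2
    rw [hμ]
    cases abs_cases (ric4 S b b - ric4 S a a) <;> linarith
  rw [← BT_eq hc.op hab] at k6
  have k7 := x_sg_ge hS hab (mul_div_cancel₀ _ hm.ne')
  have e8 : ∀ k, ric0 S k k = ric4 S k k - lb S := fun k => by simp [ric0]
  have e9 : ∀ k, (ric0 S * ric0 S) k k = (ric4 S k k - lb S) ^ 2 := fun k => by
    rw [Matrix.mul_apply, Finset.sum_eq_single k (fun q _ hq => by
      simp [ric0, hd k q hq.symm, one_apply_ne hq.symm]) fun e => absurd (Finset.mem_univ k) e,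
      e8, sq]
  rw [c3, Sv, lb_Qq4_add_DD hn3 β hS, ric4_add, ric4_Qq4 hS, ric4_DD hn3 β hS]
  simp only [Matrix.add_apply, Matrix.smul_apply, smul_eq_mul, one_apply_eq, e8, e9]
  have k8 := sc3 hp (σ := sg S) hl rfl m0 k5
    (by
      clear * - β μ n S h a b U hμ k1 hβ k2 k4
      rw [hμ]
      cases abs_cases (ric4 S b b - ric4 S a a) <;> nlinarith)
    (by
      clear * - n S β h μ a b hact hm m1 k7
      refine le_trans (le_of_eq ?_) k7
      rw [show ric4 S b b = -h - 2 * (β / 3) * lb S - ric4 S a a by linarith only [hact]] at m1 ⊢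
      field_simp
      linear_combination (18 * ((n : ℝ) - 2)) * m1)
  rw [show ric4 S b b = -h - 2 * (β / 3) * lb S - ric4 S a a by linarith only [hact]] at m1 k6 ⊢
  linear_combination k6 + k8 - β * m1

theorem der3 (hp : Par n β h) {S U : T4 n} (hc : Cn hp.n5 β h S U) (hl : 0 < lb S)
    (hact : c3 β (ix hp.n5 0) (ix hp.n5 1) S = -h) :
    0 < c3 β (ix hp.n5 0) (ix hp.n5 1) (Sv β S) := by
  have hab : ix hp.n5 0 ≠ ix hp.n5 1 := (ix_inj hp.n5).ne (by decide)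
  have hA := ric4_isSymm hc.curv
  have key : ∀ i j k, i ≠ j → k ≠ i → k ≠ j →
      ric4 S i i + ric4 S j j + 2 * (β / 3) * lb S = -h → ric4 S i k = 0 := by
    intro i j k hij hki hkj e
    refine x_lin_zero (β := ric4 S k k - ric4 S i i) fun c s hcs => ?_
    have e1 : (Pi.single i c + Pi.single k s : Fin n → ℝ) ⬝ᵥ (Pi.single i c + Pi.single k s) =
        1 := by
      simp [hki, hki.symm]
      linarith only [hcs]
    have := real3 hc.h3 (u := Pi.single i c + Pi.single k s) (w := Pi.single j 1)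
      (by simp [hij.symm, hkj.symm]) (by rw [e1]; simp)
    rw [quad_pair hA, e1] at this
    simp only [single_dotProduct, mulVec_single, MulOpposite.op_one, one_smul, col_apply,
      one_mul] at this
    linear_combination this + e + ric4 S i i * hcs
  obtain ⟨P, hP, h1, h2⟩ := x_block hA (fun i => i = ix hp.n5 0 ∨ i = ix hp.n5 1) (by
    rintro i k (rfl | rfl) hk
    · exact key _ _ k hab (not_or.1 hk).1 (not_or.1 hk).2 hact
    · exact key _ _ k hab.symm (not_or.1 hk).2 (not_or.1 hk).1 (by rw [← hact, c3]; ring))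
  have e : ∀ R : T4 n, c3 β (ix hp.n5 0) (ix hp.n5 1) (pullT R P) =
      c3 β (ix hp.n5 0) (ix hp.n5 1) R := fun R => by
    rw [c3, c3, lb_pullT _ hP, ric4_pullT _ (mul_eq_one_comm.1 hP), tr2 hP hab h1]
  have := der3_diag hp (hc.pullT hP) (by rwa [lb_pullT _ hP]) (by rw [e, hact])
    (by rwa [ric4_pullT _ (mul_eq_one_comm.1 hP)])
  rwa [Sv_pullT _ _ hP, e] at this

end

end St1

end Pool.Agent.Work.MP_3a9764_gt
end

-- merged part: Pool.Agent.Work.MP_3a9764_gt.St1d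
section
/-! The derivative of condition (iv) at an active frame.

Plan. `J = (univ.erase a).erase b`, `m = n - 2`, `κ = 3 β`, `A = ric4 S`, `l = lb S`, `D = A b b - A a a`,
`u = A a a + A b b - 2 l`, `K = S a b a b`, `y = u + 2 l - 2 K`, `P1 p q = S a p a q`, `P2 p q = S b p b q`.
`BT (Tv) ≥ BT (sqT S) ≥ ∑_J (P1 ^ 2 + P2 ^ 2) + ∑_J (S a j a b ^ 2 + S b j a b ^ 2)`.
`st4 S A b b - st4 S A a a = l D - K D + ⟨P2 - P1, ric0⟩_J + 2 ∑_J S b a b q A a q - 2 ∑_J S a b a q A b q`.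
`n sg = (u ^ 2 + D ^ 2) / 2 + 2 (A a b) ^ 2 + 2 ∑_J (A a q ^ 2 + A b q ^ 2) + ∑_J ric0 ^ 2`, and
`9 / 10 (1 - 2 β + e) sg ≥ ff * (n sg)`. Complete squares entry by entry, with the traceless parts on `J`
(`∑ (X - tr X / m) (Y - tr Y / m) = ∑ X Y - tr X tr Y / m`), using `Par.ff_ge`;
`y ^ 2 / (2 m κ) + K D ≥ -m κ D ^ 2 / 8 + (u + 2 l) D / 2`. What remains is `κ` times `sc4`. -/

set_option autoImplicit false

open Filter Set Matrix
open scoped Topology ComplexConjugate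

namespace Pool.Agent.Work.MP_3a9764_gt

namespace St1

noncomputable section

variable {n : ℕ} {β h : ℝ}

theorem d4_split {a b : Fin n} (hab : a ≠ b) (f : Fin n → ℝ) :
    ∑ i, f i = f a + f b + ∑ i ∈ (Finset.univ.erase a).erase b, f i := by
  rw [← Finset.add_sum_erase _ f (Finset.mem_univ a),
    ← Finset.add_sum_erase _ f (Finset.mem_erase.2 ⟨hab.symm, Finset.mem_univ b⟩), add_assoc]

theorem d4_sq {a b : Fin n} {J : Finset (Fin n)}
    (hJ : ∀ f : Fin n → ℝ, ∑ i, f i = f a + f b + ∑ i ∈ J, f i) (g : Fin n → Fin n → ℝ)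
    (hg : ∀ p q, g q p = -g p q) :
    g a b ^ 2 + ∑ q ∈ J, g a q ^ 2 ≤ 1 / 2 * ∑ p, ∑ q, g p q * g p q := by
  have h0 : ∀ p q, g p q * g p q ≤ ∑ r, g p r * g p r := fun p q =>
    Finset.single_le_sum (f := fun r => g p r * g p r) (fun r _ => mul_self_nonneg _)
      (Finset.mem_univ q)
  have h1 : ∑ q ∈ J, g a q ^ 2 ≤ ∑ p ∈ J, ∑ q, g p q * g p q :=
    Finset.sum_le_sum fun p _ => by
      have := h0 p a
      rw [hg a p] at this
      linarith only [this]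
  have h2 := h0 b a
  rw [hg a b] at h2
  have h3 := hJ fun q => g a q * g a q
  have h4 : ∑ q ∈ J, g a q * g a q = ∑ q ∈ J, g a q ^ 2 :=
    Finset.sum_congr rfl fun q _ => by ring
  rw [hJ fun p => ∑ q, g p q * g p q]
  linarith only [h1, h2, h3, h4, mul_self_nonneg (g a a), mul_self_nonneg (g a a)]

theorem d4_ric {S : T4 n} (hS : IsCurv S) {a b : Fin n} {J : Finset (Fin n)}
    (hJ : ∀ f : Fin n → ℝ, ∑ i, f i = f a + f b + ∑ i ∈ J, f i) :
    ric4 S a a = S a b a b + ∑ j ∈ J, S a j a j := by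
  have h0 : S a a a a = 0 := by linarith only [hS, hS.skew a a a a]
  show ∑ i, S i a i a = _
  rw [hJ, h0, zero_add, hS.swap a b a b]
  congr 1
  exact Finset.sum_congr rfl fun j _ => hS.swap a j a j

theorem d4_ricsq {S : T4 n} (hS : IsCurv S) {a b : Fin n} {J : Finset (Fin n)}
    (hJ : ∀ f : Fin n → ℝ, ∑ i, f i = f a + f b + ∑ i ∈ J, f i) :
    sqT S a b a b + (∑ q ∈ J, S a b a q ^ 2 + ∑ p ∈ J, ∑ q ∈ J, S a p a q ^ 2) ≤
      ric4 (sqT S) a a := by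
  have h0 : 0 ≤ sqT S a a a a := by
    rw [sqT_apply hS.isOp]
    exact mul_nonneg (by norm_num)
      (Finset.sum_nonneg fun p _ => Finset.sum_nonneg fun q _ => mul_self_nonneg _)
  have h1 : sqT S b a b a = sqT S a b a b := by
    rw [(isOp_sqT S).skew a b b a, (isOp_sqT S).skew' a b a b, neg_neg]
  have h2 : ∑ q ∈ J, S a b a q ^ 2 + ∑ p ∈ J, ∑ q ∈ J, S a p a q ^ 2 ≤ ∑ j ∈ J, sqT S j a j a := by
    rw [← Finset.sum_add_distrib]
    refine Finset.sum_le_sum fun j _ => ?_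
    have := d4_sq hJ (S j a) fun p q => hS.skew' j a p q
    rw [sqT_apply hS.isOp]
    refine le_trans (le_of_eq ?_) this
    rw [hS.skew a j a b, neg_sq, hS.pair a j a b]
    congr 1
    exact Finset.sum_congr rfl fun q _ => by rw [hS.skew a j a q, neg_sq]
  show _ ≤ ∑ i, sqT S i a i a
  rw [hJ, h1]
  linarith

theorem d4_st {S : T4 n} (hS : IsCurv S) {Z : Mat n} (hZ : Z.IsSymm) {a b : Fin n}
    {J : Finset (Fin n)} (hJ : ∀ f : Fin n → ℝ, ∑ i, f i = f a + f b + ∑ i ∈ J, f i) :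
    st4 S Z a a = S a b a b * Z b b + 2 * ∑ q ∈ J, S a b a q * Z b q +
      ∑ p ∈ J, ∑ q ∈ J, S a p a q * Z p q := by
  have h0 : ∀ k l, S a a k l = 0 := fun k l => by linarith only [hS, hS.skew a a k l]
  have h1 : ∀ i j, S i j a a = 0 := fun i j => by linarith [hS.skew' i j a a]
  have h2 : ∀ p, ∑ q, S a p a q * Z p q = S a b a p * Z b p + ∑ q ∈ J, S a p a q * Z p q := by
    intro p
    rw [hJ, h1, zero_mul, zero_add, hS.pair a b a p, hZ.apply b p]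
  show ∑ p, ∑ q, S a p a q * Z p q = _
  simp only [h2]
  rw [hJ, Finset.sum_add_distrib]
  simp only [h0, h1, zero_mul, Finset.sum_const_zero]
  ring

theorem d4_mul {Z : Mat n} (hZ : Z.IsSymm) {a b : Fin n} {J : Finset (Fin n)}
    (hJ : ∀ f : Fin n → ℝ, ∑ i, f i = f a + f b + ∑ i ∈ J, f i) :
    (Z * Z) a a = Z a a ^ 2 + Z a b ^ 2 + ∑ q ∈ J, Z a q ^ 2 := by
  rw [Matrix.mul_apply, ← hJ fun q => Z a q ^ 2]
  exact Finset.sum_congr rfl fun q _ => by rw [hZ.apply a q]; ring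

theorem d4_tr {Z : Mat n} (hZ : Z.IsSymm) {a b : Fin n} {J : Finset (Fin n)}
    (hJ : ∀ f : Fin n → ℝ, ∑ i, f i = f a + f b + ∑ i ∈ J, f i) :
    (Z * Z).trace = Z a a ^ 2 + Z b b ^ 2 + 2 * Z a b ^ 2 + 2 * ∑ q ∈ J, Z a q ^ 2 +
      2 * ∑ q ∈ J, Z b q ^ 2 + ∑ p ∈ J, ∑ q ∈ J, Z p q ^ 2 := by
  have h2 : ∀ p, ∑ q, Z p q ^ 2 = Z a p ^ 2 + Z b p ^ 2 + ∑ q ∈ J, Z p q ^ 2 := by
    intro p
    rw [hJ, hZ.apply a p, hZ.apply b p]
  rw [trace_sq_eq hZ]
  simp only [h2]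
  rw [hJ, Finset.sum_add_distrib, Finset.sum_add_distrib, hZ.apply a b]
  ring

theorem d4_JJ (J : Finset (Fin n)) {m κ f : ℝ} (hm : (J.card : ℝ) = m) (hm0 : 0 < m) (hκ : 0 ≤ κ)
    (hf : κ ≤ 2 * f) (X Y Z : Fin n → Fin n → ℝ) :
    ((∑ j ∈ J, X j j) ^ 2 + (∑ j ∈ J, Y j j) ^ 2 -
      κ * (∑ j ∈ J, Y j j - ∑ j ∈ J, X j j) * (∑ j ∈ J, Z j j) + κ * f * (∑ j ∈ J, Z j j) ^ 2) / m ≤
      ∑ p ∈ J, ∑ q ∈ J, X p q ^ 2 + ∑ p ∈ J, ∑ q ∈ J, Y p q ^ 2 -
        κ * ∑ p ∈ J, ∑ q ∈ J, Y p q * Z p q + κ * ∑ p ∈ J, ∑ q ∈ J, X p q * Z p q +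
        κ * f * ∑ p ∈ J, ∑ q ∈ J, Z p q ^ 2 := by
  have hd : ∀ G : Fin n → Fin n → ℝ,
      (∑ j ∈ J, G j j) ^ 2 ≤ m * ∑ p ∈ J, ∑ q ∈ J, G p q ^ 2 := by
    intro G
    refine le_trans (sq_sum_le_card_mul_sum_sq (s := J) (f := fun j => G j j)) ?_
    rw [hm]
    refine mul_le_mul_of_nonneg_left (Finset.sum_le_sum fun p hp => ?_) hm0.le
    exact Finset.single_le_sum (f := fun q => G p q ^ 2) (fun q _ => sq_nonneg _) hp
  have h1 := hd fun p q => X p q + κ / 2 * Z p q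
  have h2 := hd fun p q => Y p q - κ / 2 * Z p q
  have h3 := mul_le_mul_of_nonneg_left (hd Z) (show 0 ≤ κ * f - κ ^ 2 / 2 by linarith only [hκ, hf, mul_nonneg_of_nonpos_of_nonpos (Mathlib.Tactic.Linarith.sub_nonpos_of_le hκ) (Mathlib.Tactic.Linarith.sub_nonpos_of_le hf)])
  have e1 : ∀ p q, (X p q + κ / 2 * Z p q) ^ 2 =
      X p q ^ 2 + κ * (X p q * Z p q) + κ ^ 2 / 4 * Z p q ^ 2 := fun p q => by ring
  have e2 : ∀ p q, (Y p q - κ / 2 * Z p q) ^ 2 =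
      Y p q ^ 2 - κ * (Y p q * Z p q) + κ ^ 2 / 4 * Z p q ^ 2 := fun p q => by ring
  simp only [e1, e2, Finset.sum_add_distrib, Finset.sum_sub_distrib, ← Finset.mul_sum] at h1 h2
  rw [div_le_iff₀ hm0]
  linarith only [h3, h1, h2]

theorem d4_mix (J : Finset (Fin n)) {f : ℝ} (hβ : 0 < β) (hf : 5 * β ≤ 2 * f)
    (x w y z : Fin n → ℝ) :
    0 ≤ ∑ q ∈ J, x q ^ 2 + ∑ q ∈ J, w q ^ 2 - 2 * (3 * β) * ∑ q ∈ J, w q * y q +
      2 * (3 * β) * ∑ q ∈ J, x q * z q + 2 * (3 * β) * (f - β) * ∑ q ∈ J, y q ^ 2 +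
      2 * (3 * β) * (f + β) * ∑ q ∈ J, z q ^ 2 := by
  simp only [Finset.mul_sum, ← Finset.sum_add_distrib, ← Finset.sum_sub_distrib]
  refine Finset.sum_nonneg fun q _ => ?_
  have h1 : 0 ≤ β * (2 * f - 5 * β) * y q ^ 2 :=
    mul_nonneg (mul_nonneg hβ.le (by linarith)) (sq_nonneg _)
  have h2 : 0 ≤ β * (2 * f - β) * z q ^ 2 :=
    mul_nonneg (mul_nonneg hβ.le (by linarith only [hβ, hf])) (sq_nonneg _)
  linarith only [h1, h2, sq_nonneg (w q - 3 * β * y q), sq_nonneg (x q + 3 * β * z q), sq_nonneg (x q + (3 : ℝ) * β * z q), sq_nonneg (w q - (3 : ℝ) * β * y q)]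

theorem der4 (hp : Par n β h) {S U : T4 n} (hS : IsCurv S) {a b : Fin n} (hab : a ≠ b)
    (hB : 0 ≤ BT a b U) (h3 : -h ≤ c3 β a b S) (hl : 0 < lb S)
    (hact : c4 β a b S U = -(3 * β * h)) : 0 < c4 β a b (Sv β S) (Tv β S) := by
  classical
  have hn5 := hp.n5
  have hn3 : 3 ≤ n := by omega
  have hn0 : (n : ℝ) ≠ 0 := AD_n hn3
  have hnr : (5 : ℝ) ≤ n := by exact_mod_cast hn5
  have hβ := hp.pos
  have hf := hp.ff_ge
  have he := hp.ee_nonneg
  obtain ⟨J, hJ, hm⟩ : ∃ J : Finset (Fin n),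
      (∀ f : Fin n → ℝ, ∑ i, f i = f a + f b + ∑ i ∈ J, f i) ∧ (J.card : ℝ) = (n : ℝ) - 2 := by
    refine ⟨_, d4_split hab, ?_⟩
    have := d4_split hab fun _ => (1 : ℝ)
    simp only [Finset.sum_const, Finset.card_univ, Fintype.card_fin, nsmul_eq_mul, mul_one] at this
    linarith only [this]
  have hJ' : ∀ f : Fin n → ℝ, ∑ i, f i = f b + f a + ∑ i ∈ J, f i := fun f => by
    rw [hJ, add_comm (f a)]
  have hZ := ric0_isSymm hS
  have hm0 : (0 : ℝ) < (n : ℝ) - 2 := by linarith only [hnr]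
  have rA : ∀ i, ric4 S i i = ric0 S i i + lb S := fun i => by
    rw [ric4_eq S]; simp
  have t1 := d4_ric hS hJ
  have t2 := d4_ric hS hJ'
  have t3 : ric0 S a a + ric0 S b b + ∑ j ∈ J, ric0 S j j = 0 := by
    rw [← hJ fun j => ric0 S j j]
    exact trace_ric0 hn0 S
  have q1 := d4_ricsq hS hJ
  have q2 := d4_ricsq hS hJ'
  have q3 : sqT S b a b a = sqT S a b a b := by
    rw [(isOp_sqT S).skew a b b a, (isOp_sqT S).skew' a b a b, neg_neg]
  have s1 := d4_st hS hZ hJ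
  have s2 := d4_st hS hZ hJ'
  have m1 := d4_mul hZ hJ
  have m2 := d4_mul hZ hJ'
  have tr := d4_tr hZ hJ
  rw [trace_ric0_sq hn0] at tr
  rw [hS.swap a b a b] at t2 s2
  rw [hZ.apply a b] at m2
  have jj := d4_JJ J hm hm0 (show 0 ≤ 3 * β by linarith only [hβ]) (show 3 * β ≤ 2 * ff n β by linarith only [hβ, hf])
    (fun p q => S a p a q) (fun p q => S b p b q) (ric0 S)
  have mx := d4_mix J hβ hf (fun q => S a b a q) (fun q => S b a b q) (ric0 S a) (ric0 S b)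
  have hT : sqT S a b a b + sqT S a b a b - 2 * sqT S a b a b +
      ((ric4 (sqT S) a a - sqT S a b a b) + (ric4 (sqT S) b b - sqT S a b a b)) ≤
      BT a b (Tv β S) := by
    clear * - β n S hβ hl hm0 a b hab
    have hc : 0 ≤ β ^ 2 / 20 * lb S ^ 2 * ((n : ℝ) - 2) := by positivity
    have hI : Id4 n a b a b = 1 := by simp [Id4, hab]
    simp only [BT, Tv, ric4_add, ric4_smul, ric4_Id4, Matrix.add_apply, Matrix.smul_apply,
      Matrix.one_apply_eq, Pi.add_apply, Pi.smul_apply, smul_eq_mul, hI]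
    linarith only [hc]
  have hR : ∀ i, ric4 (Sv β S) i i = st4 S (ric0 S) i i + lb S * (ric0 S i i + lb S) +
      (-2 * β * (ric0 S * ric0 S) i i + 2 * aa n β * ((n : ℝ) - 2) * lb S * ric0 S i i +
        (2 * aa n β * ((n : ℝ) - 1) * lb S ^ 2 + ee n β * sg S)) := by
    intro i
    simp only [Sv, ric4_add, ric4_Qq4_eq hS, ric4_DD hn3 β hS, Matrix.add_apply, Matrix.smul_apply,
      Matrix.one_apply_eq, smul_eq_mul, rA, mul_one]
  have hL : 9 / 10 * lb (Sv β S) = 9 / 10 * (1 + 2 * aa n β * ((n : ℝ) - 1)) * lb S ^ 2 +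
      ff n β * (n * sg S) + 9 / 10 * (ee n β * sg S) := by
    rw [Sv, lb_Qq4_add_DD hn3 β hS, ff]
    field_simp
    ring
  have hes : 0 ≤ ee n β * sg S := mul_nonneg he (sg_nonneg hS)
  have hD : 9 / 10 * lb S + h ≤ ric0 S b b - ric0 S a a := by
    rw [c4, rA, rA] at hact
    by_contra hc
    have := mul_pos hβ (sub_pos.2 (not_le.1 hc))
    linarith only [hB, hact, this]
  have hu : -2 * lb S - 2 * (β / 3) * lb S - h ≤ ric0 S a a + ric0 S b b := by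
    rw [c3, rA, rA] at h3
    linarith only [h3]
  have sc := mul_pos (show 0 < 3 * β by linarith only [hβ]) (sc4 hp hl hD hu)
  have e1 : ∑ j ∈ J, S a j a j = ric0 S a a + lb S - S a b a b := by rw [← rA]; linarith only [t1]
  have e2 : ∑ j ∈ J, S b j b j = ric0 S b b + lb S - S a b a b := by rw [← rA]; linarith only [t2]
  have e3 : ∑ j ∈ J, ric0 S j j = -(ric0 S a a + ric0 S b b) := by linarith only [t3]
  simp only [e1, e2, e3] at jj
  have hab2 : 0 ≤ 3 * β * ff n β * ric0 S a b ^ 2 :=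
    mul_nonneg (mul_nonneg (by linarith only [hβ]) (by linarith only [hβ, hf])) (sq_nonneg _)
  have hy : 0 ≤ (ric0 S a a + ric0 S b b + 2 * lb S - 2 * S a b a b -
      ((n : ℝ) - 2) * (3 * β) * (ric0 S b b - ric0 S a a) / 2) ^ 2 / (2 * ((n : ℝ) - 2)) := by
    clear * - n S a b β hm0
    positivity
  have hes' : 0 ≤ 3 * β * (ee n β * sg S) := mul_nonneg (by linarith only [hβ]) hes
  rw [c4, hR, hR, hL, tr, s1, s2, m1, m2]
  have key : 3 * β * ((ric0 S b b - ric0 S a a) ^ 2 * (1 / (2 * ((n : ℝ) - 2) * (3 * β)) -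
        ((n : ℝ) - 2) * (3 * β) / 8 + ff n β / 2) +
      (ric0 S b b - ric0 S a a) * (ric0 S a a + ric0 S b b) * (1 / 2 + 1 / ((n : ℝ) - 2) + 2 * β) -
      2 * aa n β * ((n : ℝ) - 2) * lb S * (ric0 S b b - ric0 S a a) +
      9 / 10 * (1 + 2 * aa n β * ((n : ℝ) - 1)) * lb S ^ 2 +
      ff n β * (1 / 2 + 1 / ((n : ℝ) - 2)) * (ric0 S a a + ric0 S b b) ^ 2) +
      (ric0 S a a + ric0 S b b + 2 * lb S - 2 * S a b a b -
        ((n : ℝ) - 2) * (3 * β) * (ric0 S b b - ric0 S a a) / 2) ^ 2 / (2 * ((n : ℝ) - 2)) =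
      ((ric0 S a a + lb S - S a b a b) ^ 2 + (ric0 S b b + lb S - S a b a b) ^ 2 -
        3 * β * (ric0 S b b + lb S - S a b a b - (ric0 S a a + lb S - S a b a b)) *
          -(ric0 S a a + ric0 S b b) + 3 * β * ff n β * (-(ric0 S a a + ric0 S b b)) ^ 2) /
        ((n : ℝ) - 2) +
      3 * β * ((S a b a b - lb S) * (ric0 S b b - ric0 S a a) +
        2 * β * (ric0 S b b ^ 2 - ric0 S a a ^ 2) -
        2 * aa n β * ((n : ℝ) - 2) * lb S * (ric0 S b b - ric0 S a a) +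
        9 / 10 * (1 + 2 * aa n β * ((n : ℝ) - 1)) * lb S ^ 2 +
        ff n β * (ric0 S a a ^ 2 + ric0 S b b ^ 2)) := by
    clear * - n hm0 β hβ S b a
    have h1 : (n : ℝ) - 2 ≠ 0 := hm0.ne'
    have h2 : β ≠ 0 := hβ.ne'
    field_simp
    ring
  clear * - n a b β S J q1 q2 q3 mx hT sc jj hab2 hy hes' key; linarith only [q1, q2, q3, mx, hT, sc, jj, hab2, hy, hes', key]

end

end St1

end Pool.Agent.Work.MP_3a9764_gt
end

-- merged part: Pool.Agent.Work.MP_3a9764_gt.St1e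
section
/-! The family of functionals of stages 0 and 1 and its transversality. -/

set_option autoImplicit false

open Filter Set Matrix
open scoped Topology ComplexConjugate

namespace Pool.Agent.Work.MP_3a9764_gt

namespace St1

noncomputable section

variable {n : ℕ} {β h μ₁ μ₂ A : ℝ}

/-- The six functionals in the coordinate frame. -/
def gk (hn : 5 ≤ n) (β μ₁ μ₂ : ℝ) (φ : Fin n → Fin n → ℝ) (S U : T4 n) : Fin 6 → ℝ :=
  ![opL φ φ U, c3 β (ix hn 0) (ix hn 1) S, c4 β (ix hn 0) (ix hn 1) S U,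
    rq (S - U) (wedge (z0 hn) (w0 hn)), rq (S - U) (wedge (z0 hn) (w0 hn)) + μ₁ * lb S,
    rq (S - U) (wedge (z0 hn) (w0 hn)) + μ₂ * lb S]

/-- The levels. -/
def ck (β h A : ℝ) : Fin 6 → ℝ := ![0, -h, -(3 * β * h), 0, A, A / 2]

theorem ck_zero (β : ℝ) (k : Fin 6) : ck β 0 0 k = 0 := by
  fin_cases k <;> simp [ck]

theorem gk_add (hn : 5 ≤ n) (φ : Fin n → Fin n → ℝ) (S U S' U' : T4 n) (k : Fin 6) :
    gk hn β μ₁ μ₂ φ (S + S') (U + U') k = gk hn β μ₁ μ₂ φ S U k + gk hn β μ₁ μ₂ φ S' U' k := by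
  fin_cases k <;> simp [gk, c3, c4, BT, rq_add, rq_sub, ric4_add, lb_add] <;> ring

theorem gk_smul (hn : 5 ≤ n) (φ : Fin n → Fin n → ℝ) (c : ℝ) (S U : T4 n) (k : Fin 6) :
    gk hn β μ₁ μ₂ φ (c • S) (c • U) k = c * gk hn β μ₁ μ₂ φ S U k := by
  fin_cases k <;> simp [gk, c3, c4, BT, rq_smul, rq_sub, ric4_smul, lb_smul] <;> ring

theorem gk_Id4 (hn : 5 ≤ n) {φ : Fin n → Fin n → ℝ} (hφ : φ ∈ UnitBiv n) (θ τ : ℝ) :
    gk hn β μ₁ μ₂ φ (θ • Id4 n) (τ • Id4 n) = ![2 * τ, (2 + 2 * (β / 3)) * (((n : ℝ) - 1) * θ),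
      2 * (((n : ℝ) - 2) * τ) + 27 / 10 * β * (((n : ℝ) - 1) * θ), 4 * (θ - τ),
      4 * (θ - τ) + μ₁ * (((n : ℝ) - 1) * θ), 4 * (θ - τ) + μ₂ * (((n : ℝ) - 1) * θ)] := by
  have h0 : (n : ℝ) ≠ 0 := Nat.cast_ne_zero.2 (by omega)
  have h1 := opL_Id4 (φ := φ) hφ.1
  rw [hφ.2] at h1
  have h2 : Id4 n (ix hn 0) (ix hn 1) (ix hn 0) (ix hn 1) = 1 := by
    simp [Id4, (ix_inj hn).eq_iff]
  funext k
  fin_cases k <;> simp [gk, c3, c4, BT, rq_smul, rq_sub, ric4_smul, lb_smul, h1, h2, rq_Id4,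
    ric4_Id4, lb_Id4 h0] <;> ring

theorem continuous_gk (hn : 5 ≤ n) (k : Fin 6) :
    Continuous fun p : ℝ × (Fin n → Fin n → ℝ) × T4 n × T4 n =>
      gk hn p.1 μ₁ μ₂ p.2.1 p.2.2.1 p.2.2.2 k := by
  have h1 : Continuous fun p : ℝ × (Fin n → Fin n → ℝ) × T4 n × T4 n =>
      rq (p.2.2.1 - p.2.2.2) (wedge (z0 hn) (w0 hn)) := by
    unfold rq cq
    fun_prop
  have h2 : Continuous fun p : ℝ × (Fin n → Fin n → ℝ) × T4 n × T4 n => lb p.2.2.1 := by
    unfold lb scal4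
    fun_prop
  fin_cases k
  · change Continuous fun p : ℝ × (Fin n → Fin n → ℝ) × T4 n × T4 n =>
      ∑ i, ∑ j, ∑ k, ∑ l, p.2.2.2 i j k l * p.2.1 i j * p.2.1 k l
    fun_prop
  · change Continuous fun p : ℝ × (Fin n → Fin n → ℝ) × T4 n × T4 n =>
      c3 p.1 (ix hn 0) (ix hn 1) p.2.2.1
    unfold c3 ric4
    fun_prop
  · change Continuous fun p : ℝ × (Fin n → Fin n → ℝ) × T4 n × T4 n =>
      c4 p.1 (ix hn 0) (ix hn 1) p.2.2.1 p.2.2.2
    unfold c4 BT ric4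
    fun_prop
  · exact h1
  · exact h1.add (continuous_const.mul h2)
  · exact h1.add (continuous_const.mul h2)

theorem unitBiv_nonempty (hn : 5 ≤ n) : (UnitBiv n).Nonempty := by
  have hab : ix hn 0 ≠ ix hn 1 := (ix_inj hn).ne (by decide)
  have h1 : opL (biv (ix hn 0) (ix hn 1)) (biv (ix hn 0) (ix hn 1)) (Id4 n) = 4 := by
    rw [opL_biv isCurv_Id4]
    simp [Id4, hab]
  rw [opL_Id4 (biv_skew _ _)] at h1
  refine ⟨(√2)⁻¹ • biv (ix hn 0) (ix hn 1), fun i j => ?_, ?_⟩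
  · change (√2)⁻¹ * biv _ _ j i = -((√2)⁻¹ * biv _ _ i j)
    rw [biv_skew]; ring
  · change ∑ i, ∑ j, ((√2)⁻¹ * biv (ix hn 0) (ix hn 1) i j) ^ 2 = 1
    simp only [mul_pow, ← Finset.mul_sum]
    rw [inv_pow, Real.sq_sqrt zero_le_two]
    linarith only [hn, h1]

/-- All six conditions in all frames. -/
def All (hn : 5 ≤ n) (β h μ₁ μ₂ A : ℝ) (S U : T4 n) : Prop :=
  ∀ k, ∀ P : Mat n, Pᵀ * P = 1 → ∀ φ ∈ UnitBiv n,
    ck β h A k ≤ gk hn β μ₁ μ₂ φ (pullT S P) (pullT U P) k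

section

variable {hn : 5 ≤ n} {S U : T4 n}

theorem All.pullT (H : All hn β h μ₁ μ₂ A S U) {P : Mat n} (hP : Pᵀ * P = 1) :
    All hn β h μ₁ μ₂ A (pullT S P) (pullT U P) := fun k Q hQ φ hφ => by
  rw [pullT_mul, pullT_mul]
  refine H k _ ?_ φ hφ
  rw [transpose_mul, Matrix.mul_assoc, ← Matrix.mul_assoc Pᵀ, hP, Matrix.one_mul, hQ]

theorem All.nn (H : All hn β h μ₁ μ₂ A S U) : OpNonneg U :=
  opNonneg_of_unit fun φ hφ => by simpa [ck, gk, pullT_one] using H 0 1 (by simp) φ hφ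

theorem All.cn (H : All hn β h μ₁ μ₂ A S U) (hS : IsCurv S) (hU : IsOp U) : Cn hn β h S U := by
  obtain ⟨φ, hφ⟩ := unitBiv_nonempty hn
  refine ⟨hS, hU, H.nn, picw_of_frames hn fun P hP => ?_, fun P hP => H 1 P hP φ hφ,
    fun P hP => H 2 P hP φ hφ⟩
  rw [pullT_sub]
  exact H 3 P hP φ hφ

theorem lb_Sv (hp : Par n β h) (hS : IsCurv S) : lb S ^ 2 ≤ lb (Sv β S) := by
  have hn3 : 3 ≤ n := by have := hp.n5; omega
  have h1 : 0 ≤ 2 * aa n β * ((n : ℝ) - 1) * lb S ^ 2 := by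
    have := aa_nonneg hn3 hp.pos.le
    have : (0 : ℝ) ≤ n - 1 := by linarith only [hp, hp.bds.1]
    positivity
  have h2 : 0 ≤ (1 - 2 * β + ee n β) * sg S :=
    mul_nonneg (by linarith only [hp, hp.le', hp.ee_nonneg]) (sg_nonneg hS)
  rw [Sv, lb_Qq4_add_DD hn3 β hS]
  linarith only [h1, h2]

theorem der2' (hp : Par n β h) (hc : Cn hp.n5 β h S U) (hl : 0 ≤ lb S)
    (hmin : ∀ P : Mat n, Pᵀ * P = 1 → rq (S - U) (wedge (z0 hp.n5) (w0 hp.n5)) ≤
      rq (pullT S P - pullT U P) (wedge (z0 hp.n5) (w0 hp.n5))) :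
    β ^ 2 / 10 * lb S ^ 2 - 40 * β * (h * lb S + h ^ 2) ≤
      rq (Sv β S - Tv β S) (wedge (z0 hp.n5) (w0 hp.n5)) := by
  have he := on4_single hp.n5
  set m := rq (S - U) (wedge (z0 hp.n5) (w0 hp.n5)) with hm
  have h0 : 0 ≤ m := hc.pic _ _ (by simp [z0, fr_cv_dot, ap_on4_dot he])
    (by simp [z0, w0, fr_cv_dot, ap_on4_dot he]) (by simp [w0, fr_cv_dot, ap_on4_dot he])
  have h1 : PICw (S - (U + (m / 4) • Id4 n)) := picw_of_frames hp.n5 fun P hP => by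
    have h1 := hmin P hP
    rw [pullT_sub, pullT_add, pullT_smul, pullT_Id4 hP, ← sub_sub, rq_sub, rq_smul, rq_Id4]
    linarith only [hp, h1]
  have h2 : rq (S - (U + (m / 4) • Id4 n)) (wedge (z0 hp.n5) (w0 hp.n5)) = 0 := by
    rw [← sub_sub, rq_sub, rq_smul, rq_Id4, ← hm]
    ring
  rw [z0, w0] at h2 ⊢
  have h3 := der2 hp hc.curv (hc.op.add (isCurv_Id4.isOp.smul _))
    (opNonneg_add_Id4 hc.nn (by positivity)) h1 hc.h3 hl he h2
  exact h3

theorem trans0 (hp : Par n β h) (hμ₁ : 0 ≤ μ₁) (hμ₂ : 0 ≤ μ₂) (hS : IsCurv S) (hU : IsOp U)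
    (H : All hp.n5 β h μ₁ μ₂ A S U) (hl : 0 < lb S)
    (H3 : A / 2 ≤ μ₂ * lb S → 40 * β * (h * lb S + h ^ 2) < β ^ 2 / 10 * lb S ^ 2)
    (H4 : 40 * β * (h * lb S + h ^ 2) < β ^ 2 / 10 * lb S ^ 2 + μ₁ * lb S ^ 2)
    (H5 : A / 2 ≤ μ₁ * lb S →
      40 * β * (h * lb S + h ^ 2) < β ^ 2 / 10 * lb S ^ 2 + μ₂ * lb S ^ 2)
    {φ : Fin n → Fin n → ℝ} (hφ : φ ∈ UnitBiv n) (k : Fin 6)
    (hact : gk hp.n5 β μ₁ μ₂ φ S U k = ck β h A k) :
    0 < gk hp.n5 β μ₁ μ₂ φ (Sv β S) (Tv β S) k := by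
  have hc := H.cn hS hU
  have hab : ix hp.n5 0 ≠ ix hp.n5 1 := (ix_inj hp.n5).ne (by decide)
  have hL := lb_Sv hp hS
  have g4 : A ≤ rq (S - U) (wedge (z0 hp.n5) (w0 hp.n5)) + μ₁ * lb S := by
    simpa [ck, gk, pullT_one] using H 4 1 (by simp) φ hφ
  have g5 : A / 2 ≤ rq (S - U) (wedge (z0 hp.n5) (w0 hp.n5)) + μ₂ * lb S := by
    simpa [ck, gk, pullT_one] using H 5 1 (by simp) φ hφ
  fin_cases k
  · have h1 := der1 β S hφ
    have h2 : 0 < β ^ 2 / 10 * lb S ^ 2 := by have := hp.pos; positivity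
    exact h2.trans_le h1
  · exact der3 hp hc hl hact
  · exact der4 hp hS hab (BT_nonneg hU hc.nn hab) hc.c3_ge hl hact
  · change rq (S - U) (wedge (z0 hp.n5) (w0 hp.n5)) = 0 at hact
    have h1 := der2' hp hc hl.le fun P hP => hact.le.trans (H 3 P hP φ hφ)
    have h2 := H3 (by linarith only [hp, g5, hact])
    change 0 < rq (Sv β S - Tv β S) (wedge (z0 hp.n5) (w0 hp.n5))
    linarith only [hp, h1, h2]
  · change rq (S - U) (wedge (z0 hp.n5) (w0 hp.n5)) + μ₁ * lb S = A at hact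
    have h1 := der2' hp hc hl.le fun P hP => by
      have h2 : A ≤ rq (pullT S P - pullT U P) _ + μ₁ * lb (pullT S P) := H 4 P hP φ hφ
      rw [lb_pullT S hP] at h2
      linarith only [hp, hact, h2]
    have h2 := mul_le_mul_of_nonneg_left hL hμ₁
    change 0 < rq (Sv β S - Tv β S) (wedge (z0 hp.n5) (w0 hp.n5)) + μ₁ * lb (Sv β S)
    linarith only [hp, H4, h1, h2]
  · change rq (S - U) (wedge (z0 hp.n5) (w0 hp.n5)) + μ₂ * lb S = A / 2 at hact
    have h1 := der2' hp hc hl.le fun P hP => by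
      have h2 : A / 2 ≤ rq (pullT S P - pullT U P) _ + μ₂ * lb (pullT S P) := H 5 P hP φ hφ
      rw [lb_pullT S hP] at h2
      linarith only [hp, hact, h2]
    have h2 := mul_le_mul_of_nonneg_left hL hμ₂
    have h3 := H5 (by linarith only [hp, g4, hact, hμ₂, hl, mul_nonneg hμ₂ hl.le])
    change 0 < rq (Sv β S - Tv β S) (wedge (z0 hp.n5) (w0 hp.n5)) + μ₂ * lb (Sv β S)
    linarith only [hp, h1, h2, h3]

theorem trans1 (hp : Par n β h) (hμ₁ : 0 ≤ μ₁) (hμ₂ : 0 ≤ μ₂) (hS : IsCurv S) (hU : IsOp U)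
    (H : All hp.n5 β h μ₁ μ₂ A S U) (hl : 0 < lb S)
    (H3 : A / 2 ≤ μ₂ * lb S → 40 * β * (h * lb S + h ^ 2) < β ^ 2 / 10 * lb S ^ 2)
    (H4 : 40 * β * (h * lb S + h ^ 2) < β ^ 2 / 10 * lb S ^ 2 + μ₁ * lb S ^ 2)
    (H5 : A / 2 ≤ μ₁ * lb S →
      40 * β * (h * lb S + h ^ 2) < β ^ 2 / 10 * lb S ^ 2 + μ₂ * lb S ^ 2)
    {φ : Fin n → Fin n → ℝ} (hφ : φ ∈ UnitBiv n) (k : Fin 6) {P : Mat n} (hP : Pᵀ * P = 1)
    (hact : gk hp.n5 β μ₁ μ₂ φ (pullT S P) (pullT U P) k = ck β h A k) :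
    0 < gk hp.n5 β μ₁ μ₂ φ (pullT (Sv β S) P) (pullT (Tv β S) P) k := by
  rw [← Sv_pullT β S hP, ← Tv_pullT β S hP]
  rw [← lb_pullT S hP] at hl H3 H4 H5
  exact trans0 hp hμ₁ hμ₂ (isCurv_pullT hS P) (isOp_pullT hU P) (H.pullT hP) hl H3 H4 H5 hφ k hact

end

/-- The choice of the slopes in stage 0. -/
theorem choose_par {l₀ : ℝ} (hh : 0 < h) (hA : 0 < A) (hl₀ : 0 < l₀) :
    ∃ β₁ > 0, ∀ β, 0 < β → β ≤ β₁ → ∃ μ₁ μ₂ : ℝ, 0 ≤ μ₁ ∧ 0 ≤ μ₂ ∧ ∀ l, l₀ ≤ l →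
      (A / 2 ≤ μ₂ * l → 40 * β * (h * l + h ^ 2) < β ^ 2 / 10 * l ^ 2) ∧
      40 * β * (h * l + h ^ 2) < β ^ 2 / 10 * l ^ 2 + μ₁ * l ^ 2 ∧
      (A / 2 ≤ μ₁ * l → 40 * β * (h * l + h ^ 2) < β ^ 2 / 10 * l ^ 2 + μ₂ * l ^ 2) := by
  obtain ⟨K, hK, hK'⟩ : ∃ K > 0, ∀ l, l₀ ≤ l → 40 * (h * l + h ^ 2) ≤ K * l := by
    refine ⟨40 * (h + h ^ 2 / l₀), by positivity, fun l hl => ?_⟩
    have h1 : h ^ 2 ≤ h ^ 2 / l₀ * l := by
      rw [div_mul_eq_mul_div, le_div_iff₀ hl₀]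
      exact mul_le_mul_of_nonneg_left hl (sq_nonneg _)
    linarith only [h1]
  refine ⟨A ^ 2 / (80 * K ^ 2) * l₀ / K, by positivity, fun β hβ hβ1 =>
    ⟨A ^ 2 / (80 * K ^ 2), β * A / (40 * K), by positivity, by positivity, fun l hl => ?_⟩⟩
  have hl0 : 0 < l := hl₀.trans_le hl
  have h1 := mul_le_mul_of_nonneg_left (hK' l hl) hβ.le
  have h2 : 0 < β ^ 2 / 10 * l ^ 2 := by positivity
  have h3 : 0 < β * (K * l) := by positivity
  refine ⟨fun h4 => ?_, ?_, fun h4 => ?_⟩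
  · rw [div_mul_eq_mul_div, div_le_div_iff₀ two_pos (by positivity)] at h4
    have h5 : 20 * K ≤ β * l := le_of_mul_le_mul_left (by linarith only [h4]) hA
    have h6 := mul_le_mul_of_nonneg_left h5 (mul_pos hβ hl0).le
    linarith only [h1, h3, h6]
  · rw [le_div_iff₀ hK] at hβ1
    have h5 := mul_le_mul_of_nonneg_left hl (show 0 ≤ A ^ 2 / (80 * K ^ 2) by positivity)
    have h6 := mul_le_mul_of_nonneg_right (hβ1.trans h5) hl0.le
    linarith only [h1, h2, h6]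
  · rw [div_mul_eq_mul_div, div_le_div_iff₀ two_pos (by positivity)] at h4
    have h5 : 40 * K ^ 2 ≤ A * l := le_of_mul_le_mul_left (by linarith only [h4]) hA
    have h6 : β * (K * l) ≤ β * A / (40 * K) * l ^ 2 := by
      rw [div_mul_eq_mul_div, le_div_iff₀ (by positivity)]
      have h7 := mul_le_mul_of_nonneg_left h5 (mul_pos hβ hl0).le
      linarith only [h7]
    linarith only [h1, h2, h6]

end

end St1

end Pool.Agent.Work.MP_3a9764_gt
end
end
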