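import Pool.Agent.Work.MP_3a9764_gt.St2e

/-! Certificates for stage 2 in dimension 6. -/

set_option autoImplicit false
set_option linter.unusedVariables false
set_option linter.unusedSimpArgs false

namespace Pool.Agent.Work.MP_3a9764_gt.C6

theorem a0_0_0_0 {u s t : ℝ} (h1 : (6733 / 25000 : ℝ) ≤ u + 2) (h2 : (6733 / 25000 : ℝ) ≤ s + t + 2) (h3 : t + 1 ≤ (3 : ℝ)) :
    0 < E1 6 (101250 / 5851561 : ℝ) (81 / 4838 : ℝ) (450 / 2419 : ℝ) (81 / 2419 : ℝ) ((0 : ℝ) * (0 : ℝ)) u s t -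
      (103 / 2500 : ℝ) * Act 6 (44117171 / 906991955 : ℝ) (1609 / 58056 : ℝ) (450 / 2419 : ℝ) (81 / 2419 : ℝ) ((1 - (0 : ℝ)) * (1 - (0 : ℝ))) u s t :=
  QC.chkA 0 0 0 (QC.rd 101250 5851561) (QC.rd 81 4838) (QC.rd 450 2419) (QC.rd 81 2419)
    QC.r0 QC.r0 (QC.rd 103 2500) (QC.rd 44117171 906991955) (QC.rd 1609 58056) (QC.rd 450 2419) (QC.rd 81 2419) (QC.rd 6733 25000) (QC.rn 3)
    (by decide +kernel) h1 h2 h3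

theorem a0_0_0_1 {u s t : ℝ} (h1 : (6733 / 25000 : ℝ) ≤ u + 2) (h2 : (6733 / 25000 : ℝ) ≤ s + t + 2) (h3 : t + 1 ≤ (3 : ℝ)) :
    0 < E1 6 (101250 / 5851561 : ℝ) (81 / 4838 : ℝ) (450 / 2419 : ℝ) (81 / 2419 : ℝ) ((0 : ℝ) * (7 / 10 : ℝ)) u s t -
      (103 / 2500 : ℝ) * Act 6 (44117171 / 906991955 : ℝ) (1609 / 58056 : ℝ) (450 / 2419 : ℝ) (81 / 2419 : ℝ) ((1 - (0 : ℝ)) * (1 - (7 / 10 : ℝ))) u s t :=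
  QC.chkA 0 0 0 (QC.rd 101250 5851561) (QC.rd 81 4838) (QC.rd 450 2419) (QC.rd 81 2419)
    QC.r0 (QC.rd 7 10) (QC.rd 103 2500) (QC.rd 44117171 906991955) (QC.rd 1609 58056) (QC.rd 450 2419) (QC.rd 81 2419) (QC.rd 6733 25000) (QC.rn 3)
    (by decide +kernel) h1 h2 h3

theorem a0_0_0_2 {u s t : ℝ} (h1 : (6733 / 25000 : ℝ) ≤ u + 2) (h2 : (6733 / 25000 : ℝ) ≤ s + t + 2) (h3 : t + 1 ≤ (3 : ℝ)) :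
    0 < E1 6 (101250 / 5851561 : ℝ) (81 / 4838 : ℝ) (450 / 2419 : ℝ) (81 / 2419 : ℝ) ((7 / 10 : ℝ) * (7 / 10 : ℝ)) u s t -
      (103 / 2500 : ℝ) * Act 6 (44117171 / 906991955 : ℝ) (1609 / 58056 : ℝ) (450 / 2419 : ℝ) (81 / 2419 : ℝ) ((1 - (7 / 10 : ℝ)) * (1 - (7 / 10 : ℝ))) u s t :=
  QC.chkA 0 0 0 (QC.rd 101250 5851561) (QC.rd 81 4838) (QC.rd 450 2419) (QC.rd 81 2419)
    (QC.rd 7 10) (QC.rd 7 10) (QC.rd 103 2500) (QC.rd 44117171 906991955) (QC.rd 1609 58056) (QC.rd 450 2419) (QC.rd 81 2419) (QC.rd 6733 25000) (QC.rn 3)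
    (by decide +kernel) h1 h2 h3

theorem a0_0_1_0 {u s t : ℝ} (h1 : (6733 / 25000 : ℝ) ≤ u + 2) (h2 : (6733 / 25000 : ℝ) ≤ s + t + 2) (h3 : t + 1 ≤ (3 : ℝ)) :
    0 < E1 6 (101250 / 5851561 : ℝ) (81 / 4838 : ℝ) (450 / 2419 : ℝ) (1 : ℝ) ((0 : ℝ) * (0 : ℝ)) u s t -
      (0 : ℝ) * Act 6 (44117171 / 906991955 : ℝ) (1609 / 58056 : ℝ) (450 / 2419 : ℝ) (81 / 2419 : ℝ) ((1 - (0 : ℝ)) * (1 - (0 : ℝ))) u s t :=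
  QC.chkA 0 0 0 (QC.rd 101250 5851561) (QC.rd 81 4838) (QC.rd 450 2419) QC.r1
    QC.r0 QC.r0 QC.r0 (QC.rd 44117171 906991955) (QC.rd 1609 58056) (QC.rd 450 2419) (QC.rd 81 2419) (QC.rd 6733 25000) (QC.rn 3)
    (by decide +kernel) h1 h2 h3

theorem a0_0_1_1 {u s t : ℝ} (h1 : (6733 / 25000 : ℝ) ≤ u + 2) (h2 : (6733 / 25000 : ℝ) ≤ s + t + 2) (h3 : t + 1 ≤ (3 : ℝ)) :
    0 < E1 6 (101250 / 5851561 : ℝ) (81 / 4838 : ℝ) (450 / 2419 : ℝ) (1 : ℝ) ((0 : ℝ) * (7 / 10 : ℝ)) u s t -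
      (0 : ℝ) * Act 6 (44117171 / 906991955 : ℝ) (1609 / 58056 : ℝ) (450 / 2419 : ℝ) (81 / 2419 : ℝ) ((1 - (0 : ℝ)) * (1 - (7 / 10 : ℝ))) u s t :=
  QC.chkA 0 0 0 (QC.rd 101250 5851561) (QC.rd 81 4838) (QC.rd 450 2419) QC.r1
    QC.r0 (QC.rd 7 10) QC.r0 (QC.rd 44117171 906991955) (QC.rd 1609 58056) (QC.rd 450 2419) (QC.rd 81 2419) (QC.rd 6733 25000) (QC.rn 3)
    (by decide +kernel) h1 h2 h3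

theorem a0_0_1_2 {u s t : ℝ} (h1 : (6733 / 25000 : ℝ) ≤ u + 2) (h2 : (6733 / 25000 : ℝ) ≤ s + t + 2) (h3 : t + 1 ≤ (3 : ℝ)) :
    0 < E1 6 (101250 / 5851561 : ℝ) (81 / 4838 : ℝ) (450 / 2419 : ℝ) (1 : ℝ) ((7 / 10 : ℝ) * (7 / 10 : ℝ)) u s t -
      (0 : ℝ) * Act 6 (44117171 / 906991955 : ℝ) (1609 / 58056 : ℝ) (450 / 2419 : ℝ) (81 / 2419 : ℝ) ((1 - (7 / 10 : ℝ)) * (1 - (7 / 10 : ℝ))) u s t :=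
  QC.chkA 0 0 0 (QC.rd 101250 5851561) (QC.rd 81 4838) (QC.rd 450 2419) QC.r1
    (QC.rd 7 10) (QC.rd 7 10) QC.r0 (QC.rd 44117171 906991955) (QC.rd 1609 58056) (QC.rd 450 2419) (QC.rd 81 2419) (QC.rd 6733 25000) (QC.rn 3)
    (by decide +kernel) h1 h2 h3

theorem a0_1_0_0 {u s t : ℝ} (h1 : (6733 / 25000 : ℝ) ≤ u + 2) (h2 : (6733 / 25000 : ℝ) ≤ s + t + 2) (h3 : t + 1 ≤ (3 : ℝ)) :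
    0 < E1 6 (101250 / 5851561 : ℝ) (81 / 4838 : ℝ) (450 / 2419 : ℝ) (81 / 2419 : ℝ) ((7 / 10 : ℝ) * (7 / 10 : ℝ)) u s t -
      (717 / 1000 : ℝ) * Act 6 (44117171 / 906991955 : ℝ) (1609 / 58056 : ℝ) (450 / 2419 : ℝ) (81 / 2419 : ℝ) ((1 - (7 / 10 : ℝ)) * (1 - (7 / 10 : ℝ))) u s t :=
  QC.chkA (3 / 100) 0 (1 / 100) (QC.rd 101250 5851561) (QC.rd 81 4838) (QC.rd 450 2419) (QC.rd 81 2419)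
    (QC.rd 7 10) (QC.rd 7 10) (QC.rd 717 1000) (QC.rd 44117171 906991955) (QC.rd 1609 58056) (QC.rd 450 2419) (QC.rd 81 2419) (QC.rd 6733 25000) (QC.rn 3)
    (by decide +kernel) h1 h2 h3

theorem a0_1_0_1 {u s t : ℝ} (h1 : (6733 / 25000 : ℝ) ≤ u + 2) (h2 : (6733 / 25000 : ℝ) ≤ s + t + 2) (h3 : t + 1 ≤ (3 : ℝ)) :
    0 < E1 6 (101250 / 5851561 : ℝ) (81 / 4838 : ℝ) (450 / 2419 : ℝ) (81 / 2419 : ℝ) ((7 / 10 : ℝ) * (1 : ℝ)) u s t -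
      (717 / 1000 : ℝ) * Act 6 (44117171 / 906991955 : ℝ) (1609 / 58056 : ℝ) (450 / 2419 : ℝ) (81 / 2419 : ℝ) ((1 - (7 / 10 : ℝ)) * (1 - (1 : ℝ))) u s t :=
  QC.chkA 0 0 0 (QC.rd 101250 5851561) (QC.rd 81 4838) (QC.rd 450 2419) (QC.rd 81 2419)
    (QC.rd 7 10) QC.r1 (QC.rd 717 1000) (QC.rd 44117171 906991955) (QC.rd 1609 58056) (QC.rd 450 2419) (QC.rd 81 2419) (QC.rd 6733 25000) (QC.rn 3)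
    (by decide +kernel) h1 h2 h3

theorem a0_1_0_2 {u s t : ℝ} (h1 : (6733 / 25000 : ℝ) ≤ u + 2) (h2 : (6733 / 25000 : ℝ) ≤ s + t + 2) (h3 : t + 1 ≤ (3 : ℝ)) :
    0 < E1 6 (101250 / 5851561 : ℝ) (81 / 4838 : ℝ) (450 / 2419 : ℝ) (81 / 2419 : ℝ) ((1 : ℝ) * (1 : ℝ)) u s t -
      (717 / 1000 : ℝ) * Act 6 (44117171 / 906991955 : ℝ) (1609 / 58056 : ℝ) (450 / 2419 : ℝ) (81 / 2419 : ℝ) ((1 - (1 : ℝ)) * (1 - (1 : ℝ))) u s t :=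
  QC.chkA (1 / 20) (638628869 / 23406244000) 0 (QC.rd 101250 5851561) (QC.rd 81 4838) (QC.rd 450 2419) (QC.rd 81 2419)
    QC.r1 QC.r1 (QC.rd 717 1000) (QC.rd 44117171 906991955) (QC.rd 1609 58056) (QC.rd 450 2419) (QC.rd 81 2419) (QC.rd 6733 25000) (QC.rn 3)
    (by decide +kernel) h1 h2 h3

theorem a0_1_1_0 {u s t : ℝ} (h1 : (6733 / 25000 : ℝ) ≤ u + 2) (h2 : (6733 / 25000 : ℝ) ≤ s + t + 2) (h3 : t + 1 ≤ (3 : ℝ)) :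
    0 < E1 6 (101250 / 5851561 : ℝ) (81 / 4838 : ℝ) (450 / 2419 : ℝ) (1 : ℝ) ((7 / 10 : ℝ) * (7 / 10 : ℝ)) u s t -
      (201 / 10 : ℝ) * Act 6 (44117171 / 906991955 : ℝ) (1609 / 58056 : ℝ) (450 / 2419 : ℝ) (81 / 2419 : ℝ) ((1 - (7 / 10 : ℝ)) * (1 - (7 / 10 : ℝ))) u s t :=
  QC.chkA 0 0 (3 / 10) (QC.rd 101250 5851561) (QC.rd 81 4838) (QC.rd 450 2419) QC.r1
    (QC.rd 7 10) (QC.rd 7 10) (QC.rd 201 10) (QC.rd 44117171 906991955) (QC.rd 1609 58056) (QC.rd 450 2419) (QC.rd 81 2419) (QC.rd 6733 25000) (QC.rn 3)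
    (by decide +kernel) h1 h2 h3

theorem a0_1_1_1 {u s t : ℝ} (h1 : (6733 / 25000 : ℝ) ≤ u + 2) (h2 : (6733 / 25000 : ℝ) ≤ s + t + 2) (h3 : t + 1 ≤ (3 : ℝ)) :
    0 < E1 6 (101250 / 5851561 : ℝ) (81 / 4838 : ℝ) (450 / 2419 : ℝ) (1 : ℝ) ((7 / 10 : ℝ) * (1 : ℝ)) u s t -
      (201 / 10 : ℝ) * Act 6 (44117171 / 906991955 : ℝ) (1609 / 58056 : ℝ) (450 / 2419 : ℝ) (81 / 2419 : ℝ) ((1 - (7 / 10 : ℝ)) * (1 - (1 : ℝ))) u s t :=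
  QC.chkA 0 0 0 (QC.rd 101250 5851561) (QC.rd 81 4838) (QC.rd 450 2419) QC.r1
    (QC.rd 7 10) QC.r1 (QC.rd 201 10) (QC.rd 44117171 906991955) (QC.rd 1609 58056) (QC.rd 450 2419) (QC.rd 81 2419) (QC.rd 6733 25000) (QC.rn 3)
    (by decide +kernel) h1 h2 h3

theorem a0_1_1_2 {u s t : ℝ} (h1 : (6733 / 25000 : ℝ) ≤ u + 2) (h2 : (6733 / 25000 : ℝ) ≤ s + t + 2) (h3 : t + 1 ≤ (3 : ℝ)) :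
    0 < E1 6 (101250 / 5851561 : ℝ) (81 / 4838 : ℝ) (450 / 2419 : ℝ) (1 : ℝ) ((1 : ℝ) * (1 : ℝ)) u s t -
      (201 / 10 : ℝ) * Act 6 (44117171 / 906991955 : ℝ) (1609 / 58056 : ℝ) (450 / 2419 : ℝ) (81 / 2419 : ℝ) ((1 - (1 : ℝ)) * (1 - (1 : ℝ))) u s t :=
  QC.chkA (71 / 50) (1217 / 1640) 0 (QC.rd 101250 5851561) (QC.rd 81 4838) (QC.rd 450 2419) QC.r1
    QC.r1 QC.r1 (QC.rd 201 10) (QC.rd 44117171 906991955) (QC.rd 1609 58056) (QC.rd 450 2419) (QC.rd 81 2419) (QC.rd 6733 25000) (QC.rn 3)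
    (by decide +kernel) h1 h2 h3

theorem a1_0_0_0 {u s t : ℝ} (h1 : (6733 / 25000 : ℝ) ≤ u + 2) (h2 : (6733 / 25000 : ℝ) ≤ s + t + 2) (h3 : t + 1 ≤ (3 : ℝ)) :
    0 < E1 6 (101250 / 5851561 : ℝ) (81 / 4838 : ℝ) (450 / 2419 : ℝ) (1 : ℝ) ((0 : ℝ) * (0 : ℝ)) u s t -
      (91 / 50 : ℝ) * Act 6 (44117171 / 906991955 : ℝ) (1609 / 58056 : ℝ) (450 / 2419 : ℝ) (1 : ℝ) ((1 - (0 : ℝ)) * (1 - (0 : ℝ))) u s t :=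
  QC.chkA 0 0 0 (QC.rd 101250 5851561) (QC.rd 81 4838) (QC.rd 450 2419) QC.r1
    QC.r0 QC.r0 (QC.rd 91 50) (QC.rd 44117171 906991955) (QC.rd 1609 58056) (QC.rd 450 2419) QC.r1 (QC.rd 6733 25000) (QC.rn 3)
    (by decide +kernel) h1 h2 h3

theorem a1_0_0_1 {u s t : ℝ} (h1 : (6733 / 25000 : ℝ) ≤ u + 2) (h2 : (6733 / 25000 : ℝ) ≤ s + t + 2) (h3 : t + 1 ≤ (3 : ℝ)) :
    0 < E1 6 (101250 / 5851561 : ℝ) (81 / 4838 : ℝ) (450 / 2419 : ℝ) (1 : ℝ) ((0 : ℝ) * (4 / 5 : ℝ)) u s t -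
      (91 / 50 : ℝ) * Act 6 (44117171 / 906991955 : ℝ) (1609 / 58056 : ℝ) (450 / 2419 : ℝ) (1 : ℝ) ((1 - (0 : ℝ)) * (1 - (4 / 5 : ℝ))) u s t :=
  QC.chkA 0 0 0 (QC.rd 101250 5851561) (QC.rd 81 4838) (QC.rd 450 2419) QC.r1
    QC.r0 (QC.rd 4 5) (QC.rd 91 50) (QC.rd 44117171 906991955) (QC.rd 1609 58056) (QC.rd 450 2419) QC.r1 (QC.rd 6733 25000) (QC.rn 3)
    (by decide +kernel) h1 h2 h3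

theorem a1_0_0_2 {u s t : ℝ} (h1 : (6733 / 25000 : ℝ) ≤ u + 2) (h2 : (6733 / 25000 : ℝ) ≤ s + t + 2) (h3 : t + 1 ≤ (3 : ℝ)) :
    0 < E1 6 (101250 / 5851561 : ℝ) (81 / 4838 : ℝ) (450 / 2419 : ℝ) (1 : ℝ) ((4 / 5 : ℝ) * (4 / 5 : ℝ)) u s t -
      (91 / 50 : ℝ) * Act 6 (44117171 / 906991955 : ℝ) (1609 / 58056 : ℝ) (450 / 2419 : ℝ) (1 : ℝ) ((1 - (4 / 5 : ℝ)) * (1 - (4 / 5 : ℝ))) u s t :=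
  QC.chkA 0 0 0 (QC.rd 101250 5851561) (QC.rd 81 4838) (QC.rd 450 2419) QC.r1
    (QC.rd 4 5) (QC.rd 4 5) (QC.rd 91 50) (QC.rd 44117171 906991955) (QC.rd 1609 58056) (QC.rd 450 2419) QC.r1 (QC.rd 6733 25000) (QC.rn 3)
    (by decide +kernel) h1 h2 h3

theorem a1_0_1_0 {u s t : ℝ} (h1 : (6733 / 25000 : ℝ) ≤ u + 2) (h2 : (6733 / 25000 : ℝ) ≤ s + t + 2) (h3 : t + 1 ≤ (3 : ℝ)) :
    0 < E1 6 (101250 / 5851561 : ℝ) (81 / 4838 : ℝ) (450 / 2419 : ℝ) (3 : ℝ) ((0 : ℝ) * (0 : ℝ)) u s t -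
      (121 / 25 : ℝ) * Act 6 (44117171 / 906991955 : ℝ) (1609 / 58056 : ℝ) (450 / 2419 : ℝ) (1 : ℝ) ((1 - (0 : ℝ)) * (1 - (0 : ℝ))) u s t :=
  QC.chkA 0 0 0 (QC.rd 101250 5851561) (QC.rd 81 4838) (QC.rd 450 2419) (QC.rn 3)
    QC.r0 QC.r0 (QC.rd 121 25) (QC.rd 44117171 906991955) (QC.rd 1609 58056) (QC.rd 450 2419) QC.r1 (QC.rd 6733 25000) (QC.rn 3)
    (by decide +kernel) h1 h2 h3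

theorem a1_0_1_1 {u s t : ℝ} (h1 : (6733 / 25000 : ℝ) ≤ u + 2) (h2 : (6733 / 25000 : ℝ) ≤ s + t + 2) (h3 : t + 1 ≤ (3 : ℝ)) :
    0 < E1 6 (101250 / 5851561 : ℝ) (81 / 4838 : ℝ) (450 / 2419 : ℝ) (3 : ℝ) ((0 : ℝ) * (4 / 5 : ℝ)) u s t -
      (121 / 25 : ℝ) * Act 6 (44117171 / 906991955 : ℝ) (1609 / 58056 : ℝ) (450 / 2419 : ℝ) (1 : ℝ) ((1 - (0 : ℝ)) * (1 - (4 / 5 : ℝ))) u s t :=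
  QC.chkA 0 0 0 (QC.rd 101250 5851561) (QC.rd 81 4838) (QC.rd 450 2419) (QC.rn 3)
    QC.r0 (QC.rd 4 5) (QC.rd 121 25) (QC.rd 44117171 906991955) (QC.rd 1609 58056) (QC.rd 450 2419) QC.r1 (QC.rd 6733 25000) (QC.rn 3)
    (by decide +kernel) h1 h2 h3

theorem a1_0_1_2 {u s t : ℝ} (h1 : (6733 / 25000 : ℝ) ≤ u + 2) (h2 : (6733 / 25000 : ℝ) ≤ s + t + 2) (h3 : t + 1 ≤ (3 : ℝ)) :
    0 < E1 6 (101250 / 5851561 : ℝ) (81 / 4838 : ℝ) (450 / 2419 : ℝ) (3 : ℝ) ((4 / 5 : ℝ) * (4 / 5 : ℝ)) u s t -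
      (121 / 25 : ℝ) * Act 6 (44117171 / 906991955 : ℝ) (1609 / 58056 : ℝ) (450 / 2419 : ℝ) (1 : ℝ) ((1 - (4 / 5 : ℝ)) * (1 - (4 / 5 : ℝ))) u s t :=
  QC.chkA 0 0 0 (QC.rd 101250 5851561) (QC.rd 81 4838) (QC.rd 450 2419) (QC.rn 3)
    (QC.rd 4 5) (QC.rd 4 5) (QC.rd 121 25) (QC.rd 44117171 906991955) (QC.rd 1609 58056) (QC.rd 450 2419) QC.r1 (QC.rd 6733 25000) (QC.rn 3)
    (by decide +kernel) h1 h2 h3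

theorem a1_1_0_0 {u s t : ℝ} (h1 : (6733 / 25000 : ℝ) ≤ u + 2) (h2 : (6733 / 25000 : ℝ) ≤ s + t + 2) (h3 : t + 1 ≤ (3 : ℝ)) :
    0 < E1 6 (101250 / 5851561 : ℝ) (81 / 4838 : ℝ) (450 / 2419 : ℝ) (1 : ℝ) ((4 / 5 : ℝ) * (4 / 5 : ℝ)) u s t -
      (161 : ℝ) * Act 6 (44117171 / 906991955 : ℝ) (1609 / 58056 : ℝ) (450 / 2419 : ℝ) (1 : ℝ) ((1 - (4 / 5 : ℝ)) * (1 - (4 / 5 : ℝ))) u s t :=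
  QC.chkA (13 / 2) (73 / 10) (23 / 5) (QC.rd 101250 5851561) (QC.rd 81 4838) (QC.rd 450 2419) QC.r1
    (QC.rd 4 5) (QC.rd 4 5) (QC.rn 161) (QC.rd 44117171 906991955) (QC.rd 1609 58056) (QC.rd 450 2419) QC.r1 (QC.rd 6733 25000) (QC.rn 3)
    (by decide +kernel) h1 h2 h3

theorem a1_1_0_1 {u s t : ℝ} (h1 : (6733 / 25000 : ℝ) ≤ u + 2) (h2 : (6733 / 25000 : ℝ) ≤ s + t + 2) (h3 : t + 1 ≤ (3 : ℝ)) :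
    0 < E1 6 (101250 / 5851561 : ℝ) (81 / 4838 : ℝ) (450 / 2419 : ℝ) (1 : ℝ) ((4 / 5 : ℝ) * (1 : ℝ)) u s t -
      (161 : ℝ) * Act 6 (44117171 / 906991955 : ℝ) (1609 / 58056 : ℝ) (450 / 2419 : ℝ) (1 : ℝ) ((1 - (4 / 5 : ℝ)) * (1 - (1 : ℝ))) u s t :=
  QC.chkA 9 8 0 (QC.rd 101250 5851561) (QC.rd 81 4838) (QC.rd 450 2419) QC.r1
    (QC.rd 4 5) QC.r1 (QC.rn 161) (QC.rd 44117171 906991955) (QC.rd 1609 58056) (QC.rd 450 2419) QC.r1 (QC.rd 6733 25000) (QC.rn 3)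
    (by decide +kernel) h1 h2 h3

theorem a1_1_0_2 {u s t : ℝ} (h1 : (6733 / 25000 : ℝ) ≤ u + 2) (h2 : (6733 / 25000 : ℝ) ≤ s + t + 2) (h3 : t + 1 ≤ (3 : ℝ)) :
    0 < E1 6 (101250 / 5851561 : ℝ) (81 / 4838 : ℝ) (450 / 2419 : ℝ) (1 : ℝ) ((1 : ℝ) * (1 : ℝ)) u s t -
      (161 : ℝ) * Act 6 (44117171 / 906991955 : ℝ) (1609 / 58056 : ℝ) (450 / 2419 : ℝ) (1 : ℝ) ((1 - (1 : ℝ)) * (1 - (1 : ℝ))) u s t :=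
  QC.chkA (907 / 100) (248249 / 29028) 0 (QC.rd 101250 5851561) (QC.rd 81 4838) (QC.rd 450 2419) QC.r1
    QC.r1 QC.r1 (QC.rn 161) (QC.rd 44117171 906991955) (QC.rd 1609 58056) (QC.rd 450 2419) QC.r1 (QC.rd 6733 25000) (QC.rn 3)
    (by decide +kernel) h1 h2 h3

theorem a1_1_1_0 {u s t : ℝ} (h1 : (6733 / 25000 : ℝ) ≤ u + 2) (h2 : (6733 / 25000 : ℝ) ≤ s + t + 2) (h3 : t + 1 ≤ (3 : ℝ)) :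
    0 < E1 6 (101250 / 5851561 : ℝ) (81 / 4838 : ℝ) (450 / 2419 : ℝ) (3 : ℝ) ((4 / 5 : ℝ) * (4 / 5 : ℝ)) u s t -
      (484 : ℝ) * Act 6 (44117171 / 906991955 : ℝ) (1609 / 58056 : ℝ) (450 / 2419 : ℝ) (1 : ℝ) ((1 - (4 / 5 : ℝ)) * (1 - (4 / 5 : ℝ))) u s t :=
  QC.chkA 19 22 14 (QC.rd 101250 5851561) (QC.rd 81 4838) (QC.rd 450 2419) (QC.rn 3)
    (QC.rd 4 5) (QC.rd 4 5) (QC.rn 484) (QC.rd 44117171 906991955) (QC.rd 1609 58056) (QC.rd 450 2419) QC.r1 (QC.rd 6733 25000) (QC.rn 3)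
    (by decide +kernel) h1 h2 h3

theorem a1_1_1_1 {u s t : ℝ} (h1 : (6733 / 25000 : ℝ) ≤ u + 2) (h2 : (6733 / 25000 : ℝ) ≤ s + t + 2) (h3 : t + 1 ≤ (3 : ℝ)) :
    0 < E1 6 (101250 / 5851561 : ℝ) (81 / 4838 : ℝ) (450 / 2419 : ℝ) (3 : ℝ) ((4 / 5 : ℝ) * (1 : ℝ)) u s t -
      (484 : ℝ) * Act 6 (44117171 / 906991955 : ℝ) (1609 / 58056 : ℝ) (450 / 2419 : ℝ) (1 : ℝ) ((1 - (4 / 5 : ℝ)) * (1 - (1 : ℝ))) u s t :=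
  QC.chkA 26 25 0 (QC.rd 101250 5851561) (QC.rd 81 4838) (QC.rd 450 2419) (QC.rn 3)
    (QC.rd 4 5) QC.r1 (QC.rn 484) (QC.rd 44117171 906991955) (QC.rd 1609 58056) (QC.rd 450 2419) QC.r1 (QC.rd 6733 25000) (QC.rn 3)
    (by decide +kernel) h1 h2 h3

theorem a1_1_1_2 {u s t : ℝ} (h1 : (6733 / 25000 : ℝ) ≤ u + 2) (h2 : (6733 / 25000 : ℝ) ≤ s + t + 2) (h3 : t + 1 ≤ (3 : ℝ)) :
    0 < E1 6 (101250 / 5851561 : ℝ) (81 / 4838 : ℝ) (450 / 2419 : ℝ) (3 : ℝ) ((1 : ℝ) * (1 : ℝ)) u s t -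
      (484 : ℝ) * Act 6 (44117171 / 906991955 : ℝ) (1609 / 58056 : ℝ) (450 / 2419 : ℝ) (1 : ℝ) ((1 - (1 : ℝ)) * (1 - (1 : ℝ))) u s t :=
  QC.chkA (1377 / 50) (186589 / 7257) 0 (QC.rd 101250 5851561) (QC.rd 81 4838) (QC.rd 450 2419) (QC.rn 3)
    QC.r1 QC.r1 (QC.rn 484) (QC.rd 44117171 906991955) (QC.rd 1609 58056) (QC.rd 450 2419) QC.r1 (QC.rd 6733 25000) (QC.rn 3)
    (by decide +kernel) h1 h2 h3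

theorem pathA {β la : ℝ} {u s t : ℝ} (h1 : (6733 / 25000 : ℝ) ≤ u + 2) (h2 : (6733 / 25000 : ℝ) ≤ s + t + 2) (h3 : t + 1 ≤ (3 : ℝ))
    (β0 : (81 / 2419 : ℝ) ≤ β) (β1 : β ≤ (3 : ℝ)) (la0 : (0 : ℝ) ≤ la) (la1 : la ≤ (1 : ℝ))
    (h4 : 0 ≤ Act 6 (44117171 / 906991955 : ℝ) (1609 / 58056 : ℝ) (450 / 2419 : ℝ) β ((1 - la) ^ 2) u s t) :
    0 < E1 6 (101250 / 5851561 : ℝ) (81 / 4838 : ℝ) (450 / 2419 : ℝ) β (la ^ 2) u s t := by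
  rcases le_total β (1 : ℝ) with βh0 | βl0
  · rcases le_total la (7 / 10 : ℝ) with lah0 | lal0
    · exact cellA β0 βh0 (by norm_num) la0 lah0 h4 (by norm_num) (by norm_num)
        (a0_0_0_0 h1 h2 h3) (a0_0_0_1 h1 h2 h3) (a0_0_0_2 h1 h2 h3) (a0_0_1_0 h1 h2 h3) (a0_0_1_1 h1 h2 h3) (a0_0_1_2 h1 h2 h3)
    exact cellA β0 βh0 (by norm_num) lal0 la1 h4 (by norm_num) (by norm_num)
      (a0_1_0_0 h1 h2 h3) (a0_1_0_1 h1 h2 h3) (a0_1_0_2 h1 h2 h3) (a0_1_1_0 h1 h2 h3) (a0_1_1_1 h1 h2 h3) (a0_1_1_2 h1 h2 h3)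
  rcases le_total la (4 / 5 : ℝ) with lah0 | lal0
  · exact cellA βl0 β1 (by norm_num) la0 lah0 h4 (by norm_num) (by norm_num)
      (a1_0_0_0 h1 h2 h3) (a1_0_0_1 h1 h2 h3) (a1_0_0_2 h1 h2 h3) (a1_0_1_0 h1 h2 h3) (a1_0_1_1 h1 h2 h3) (a1_0_1_2 h1 h2 h3)
  exact cellA βl0 β1 (by norm_num) lal0 la1 h4 (by norm_num) (by norm_num)
    (a1_1_0_0 h1 h2 h3) (a1_1_0_1 h1 h2 h3) (a1_1_0_2 h1 h2 h3) (a1_1_1_0 h1 h2 h3) (a1_1_1_1 h1 h2 h3) (a1_1_1_2 h1 h2 h3)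

theorem b0_0_0_0_0 {u s t : ℝ} (h1 : (6733 / 25000 : ℝ) ≤ u + 2) (h2 : (6733 / 25000 : ℝ) ≤ s + t + 2) (h3 : t + 1 ≤ (3 : ℝ)) :
    0 < E2 6 (81 / 4838 : ℝ) (0 : ℝ) ((0 : ℝ) * (0 : ℝ)) u s t -
      (103 / 100 : ℝ) * Act 6 (11 / 155 : ℝ) (1 / 24 : ℝ) (0 : ℝ) (0 : ℝ) ((1 - (0 : ℝ)) * (1 - (0 : ℝ))) u s t :=
  QC.chkB 0 0 0 (QC.rd 81 4838) QC.r0
    QC.r0 QC.r0 (QC.rd 103 100) (QC.rd 11 155) (QC.ri 24) QC.r0 QC.r0 (QC.rd 6733 25000) (QC.rn 3)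
    (by decide +kernel) h1 h2 h3

theorem b0_0_0_0_1 {u s t : ℝ} (h1 : (6733 / 25000 : ℝ) ≤ u + 2) (h2 : (6733 / 25000 : ℝ) ≤ s + t + 2) (h3 : t + 1 ≤ (3 : ℝ)) :
    0 < E2 6 (81 / 4838 : ℝ) (0 : ℝ) ((0 : ℝ) * (4 / 5 : ℝ)) u s t -
      (103 / 100 : ℝ) * Act 6 (11 / 155 : ℝ) (1 / 24 : ℝ) (0 : ℝ) (0 : ℝ) ((1 - (0 : ℝ)) * (1 - (4 / 5 : ℝ))) u s t :=
  QC.chkB 0 0 0 (QC.rd 81 4838) QC.r0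
    QC.r0 (QC.rd 4 5) (QC.rd 103 100) (QC.rd 11 155) (QC.ri 24) QC.r0 QC.r0 (QC.rd 6733 25000) (QC.rn 3)
    (by decide +kernel) h1 h2 h3

theorem b0_0_0_0_2 {u s t : ℝ} (h1 : (6733 / 25000 : ℝ) ≤ u + 2) (h2 : (6733 / 25000 : ℝ) ≤ s + t + 2) (h3 : t + 1 ≤ (3 : ℝ)) :
    0 < E2 6 (81 / 4838 : ℝ) (0 : ℝ) ((4 / 5 : ℝ) * (4 / 5 : ℝ)) u s t -
      (103 / 100 : ℝ) * Act 6 (11 / 155 : ℝ) (1 / 24 : ℝ) (0 : ℝ) (0 : ℝ) ((1 - (4 / 5 : ℝ)) * (1 - (4 / 5 : ℝ))) u s t :=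
  QC.chkB 0 0 0 (QC.rd 81 4838) QC.r0
    (QC.rd 4 5) (QC.rd 4 5) (QC.rd 103 100) (QC.rd 11 155) (QC.ri 24) QC.r0 QC.r0 (QC.rd 6733 25000) (QC.rn 3)
    (by decide +kernel) h1 h2 h3

theorem b0_0_0_1_0 {u s t : ℝ} (h1 : (6733 / 25000 : ℝ) ≤ u + 2) (h2 : (6733 / 25000 : ℝ) ≤ s + t + 2) (h3 : t + 1 ≤ (3 : ℝ)) :
    0 < E2 6 (81 / 4838 : ℝ) (450 / 2419 : ℝ) ((0 : ℝ) * (0 : ℝ)) u s t -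
      (69 / 25 : ℝ) * Act 6 (11 / 155 : ℝ) (1 / 24 : ℝ) (0 : ℝ) (0 : ℝ) ((1 - (0 : ℝ)) * (1 - (0 : ℝ))) u s t :=
  QC.chkB 0 0 0 (QC.rd 81 4838) (QC.rd 450 2419)
    QC.r0 QC.r0 (QC.rd 69 25) (QC.rd 11 155) (QC.ri 24) QC.r0 QC.r0 (QC.rd 6733 25000) (QC.rn 3)
    (by decide +kernel) h1 h2 h3

theorem b0_0_0_1_1 {u s t : ℝ} (h1 : (6733 / 25000 : ℝ) ≤ u + 2) (h2 : (6733 / 25000 : ℝ) ≤ s + t + 2) (h3 : t + 1 ≤ (3 : ℝ)) :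
    0 < E2 6 (81 / 4838 : ℝ) (450 / 2419 : ℝ) ((0 : ℝ) * (4 / 5 : ℝ)) u s t -
      (69 / 25 : ℝ) * Act 6 (11 / 155 : ℝ) (1 / 24 : ℝ) (0 : ℝ) (0 : ℝ) ((1 - (0 : ℝ)) * (1 - (4 / 5 : ℝ))) u s t :=
  QC.chkB 0 0 0 (QC.rd 81 4838) (QC.rd 450 2419)
    QC.r0 (QC.rd 4 5) (QC.rd 69 25) (QC.rd 11 155) (QC.ri 24) QC.r0 QC.r0 (QC.rd 6733 25000) (QC.rn 3)
    (by decide +kernel) h1 h2 h3

theorem b0_0_0_1_2 {u s t : ℝ} (h1 : (6733 / 25000 : ℝ) ≤ u + 2) (h2 : (6733 / 25000 : ℝ) ≤ s + t + 2) (h3 : t + 1 ≤ (3 : ℝ)) :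
    0 < E2 6 (81 / 4838 : ℝ) (450 / 2419 : ℝ) ((4 / 5 : ℝ) * (4 / 5 : ℝ)) u s t -
      (69 / 25 : ℝ) * Act 6 (11 / 155 : ℝ) (1 / 24 : ℝ) (0 : ℝ) (0 : ℝ) ((1 - (4 / 5 : ℝ)) * (1 - (4 / 5 : ℝ))) u s t :=
  QC.chkB 0 0 0 (QC.rd 81 4838) (QC.rd 450 2419)
    (QC.rd 4 5) (QC.rd 4 5) (QC.rd 69 25) (QC.rd 11 155) (QC.ri 24) QC.r0 QC.r0 (QC.rd 6733 25000) (QC.rn 3)
    (by decide +kernel) h1 h2 h3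

theorem b0_0_1_0_0 {u s t : ℝ} (h1 : (6733 / 25000 : ℝ) ≤ u + 2) (h2 : (6733 / 25000 : ℝ) ≤ s + t + 2) (h3 : t + 1 ≤ (3 : ℝ)) :
    0 < E2 6 (81 / 4838 : ℝ) (0 : ℝ) ((4 / 5 : ℝ) * (4 / 5 : ℝ)) u s t -
      (0 : ℝ) * Act 6 (11 / 155 : ℝ) (1 / 24 : ℝ) (0 : ℝ) (0 : ℝ) ((1 - (4 / 5 : ℝ)) * (1 - (4 / 5 : ℝ))) u s t :=
  QC.chkB 0 0 0 (QC.rd 81 4838) QC.r0
    (QC.rd 4 5) (QC.rd 4 5) QC.r0 (QC.rd 11 155) (QC.ri 24) QC.r0 QC.r0 (QC.rd 6733 25000) (QC.rn 3)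
    (by decide +kernel) h1 h2 h3

theorem b0_0_1_0_1 {u s t : ℝ} (h1 : (6733 / 25000 : ℝ) ≤ u + 2) (h2 : (6733 / 25000 : ℝ) ≤ s + t + 2) (h3 : t + 1 ≤ (3 : ℝ)) :
    0 < E2 6 (81 / 4838 : ℝ) (0 : ℝ) ((4 / 5 : ℝ) * (1 : ℝ)) u s t -
      (0 : ℝ) * Act 6 (11 / 155 : ℝ) (1 / 24 : ℝ) (0 : ℝ) (0 : ℝ) ((1 - (4 / 5 : ℝ)) * (1 - (1 : ℝ))) u s t :=
  QC.chkB 0 0 0 (QC.rd 81 4838) QC.r0
    (QC.rd 4 5) QC.r1 QC.r0 (QC.rd 11 155) (QC.ri 24) QC.r0 QC.r0 (QC.rd 6733 25000) (QC.rn 3)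
    (by decide +kernel) h1 h2 h3

theorem b0_0_1_0_2 {u s t : ℝ} (h1 : (6733 / 25000 : ℝ) ≤ u + 2) (h2 : (6733 / 25000 : ℝ) ≤ s + t + 2) (h3 : t + 1 ≤ (3 : ℝ)) :
    0 < E2 6 (81 / 4838 : ℝ) (0 : ℝ) ((1 : ℝ) * (1 : ℝ)) u s t -
      (0 : ℝ) * Act 6 (11 / 155 : ℝ) (1 / 24 : ℝ) (0 : ℝ) (0 : ℝ) ((1 - (1 : ℝ)) * (1 - (1 : ℝ))) u s t :=
  QC.chkB (1 / 100) 0 0 (QC.rd 81 4838) QC.r0
    QC.r1 QC.r1 QC.r0 (QC.rd 11 155) (QC.ri 24) QC.r0 QC.r0 (QC.rd 6733 25000) (QC.rn 3)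
    (by decide +kernel) h1 h2 h3

theorem b0_0_1_1_0 {u s t : ℝ} (h1 : (6733 / 25000 : ℝ) ≤ u + 2) (h2 : (6733 / 25000 : ℝ) ≤ s + t + 2) (h3 : t + 1 ≤ (3 : ℝ)) :
    0 < E2 6 (81 / 4838 : ℝ) (450 / 2419 : ℝ) ((4 / 5 : ℝ) * (4 / 5 : ℝ)) u s t -
      (893 / 100 : ℝ) * Act 6 (11 / 155 : ℝ) (1 / 24 : ℝ) (0 : ℝ) (0 : ℝ) ((1 - (4 / 5 : ℝ)) * (1 - (4 / 5 : ℝ))) u s t :=
  QC.chkB 0 0 0 (QC.rd 81 4838) (QC.rd 450 2419)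
    (QC.rd 4 5) (QC.rd 4 5) (QC.rd 893 100) (QC.rd 11 155) (QC.ri 24) QC.r0 QC.r0 (QC.rd 6733 25000) (QC.rn 3)
    (by decide +kernel) h1 h2 h3

theorem b0_0_1_1_1 {u s t : ℝ} (h1 : (6733 / 25000 : ℝ) ≤ u + 2) (h2 : (6733 / 25000 : ℝ) ≤ s + t + 2) (h3 : t + 1 ≤ (3 : ℝ)) :
    0 < E2 6 (81 / 4838 : ℝ) (450 / 2419 : ℝ) ((4 / 5 : ℝ) * (1 : ℝ)) u s t -
      (893 / 100 : ℝ) * Act 6 (11 / 155 : ℝ) (1 / 24 : ℝ) (0 : ℝ) (0 : ℝ) ((1 - (4 / 5 : ℝ)) * (1 - (1 : ℝ))) u s t :=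
  QC.chkB 0 0 0 (QC.rd 81 4838) (QC.rd 450 2419)
    (QC.rd 4 5) QC.r1 (QC.rd 893 100) (QC.rd 11 155) (QC.ri 24) QC.r0 QC.r0 (QC.rd 6733 25000) (QC.rn 3)
    (by decide +kernel) h1 h2 h3

theorem b0_0_1_1_2 {u s t : ℝ} (h1 : (6733 / 25000 : ℝ) ≤ u + 2) (h2 : (6733 / 25000 : ℝ) ≤ s + t + 2) (h3 : t + 1 ≤ (3 : ℝ)) :
    0 < E2 6 (81 / 4838 : ℝ) (450 / 2419 : ℝ) ((1 : ℝ) * (1 : ℝ)) u s t -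
      (893 / 100 : ℝ) * Act 6 (11 / 155 : ℝ) (1 / 24 : ℝ) (0 : ℝ) (0 : ℝ) ((1 - (1 : ℝ)) * (1 - (1 : ℝ))) u s t :=
  QC.chkB (83 / 50) (167 / 2902800) 0 (QC.rd 81 4838) (QC.rd 450 2419)
    QC.r1 QC.r1 (QC.rd 893 100) (QC.rd 11 155) (QC.ri 24) QC.r0 QC.r0 (QC.rd 6733 25000) (QC.rn 3)
    (by decide +kernel) h1 h2 h3

theorem b0_1_0_0_0 {u s t : ℝ} (h1 : (6733 / 25000 : ℝ) ≤ u + 2) (h2 : (6733 / 25000 : ℝ) ≤ s + t + 2) (h3 : t + 1 ≤ (3 : ℝ)) :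
    0 < E2 6 (81 / 4838 : ℝ) (0 : ℝ) ((0 : ℝ) * (0 : ℝ)) u s t -
      (949 / 1000 : ℝ) * Act 6 (44117171 / 906991955 : ℝ) (1609 / 58056 : ℝ) (0 : ℝ) (81 / 2419 : ℝ) ((1 - (0 : ℝ)) * (1 - (0 : ℝ))) u s t :=
  QC.chkB 0 0 0 (QC.rd 81 4838) QC.r0
    QC.r0 QC.r0 (QC.rd 949 1000) (QC.rd 44117171 906991955) (QC.rd 1609 58056) QC.r0 (QC.rd 81 2419) (QC.rd 6733 25000) (QC.rn 3)
    (by decide +kernel) h1 h2 h3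

theorem b0_1_0_0_1 {u s t : ℝ} (h1 : (6733 / 25000 : ℝ) ≤ u + 2) (h2 : (6733 / 25000 : ℝ) ≤ s + t + 2) (h3 : t + 1 ≤ (3 : ℝ)) :
    0 < E2 6 (81 / 4838 : ℝ) (0 : ℝ) ((0 : ℝ) * (4 / 5 : ℝ)) u s t -
      (949 / 1000 : ℝ) * Act 6 (44117171 / 906991955 : ℝ) (1609 / 58056 : ℝ) (0 : ℝ) (81 / 2419 : ℝ) ((1 - (0 : ℝ)) * (1 - (4 / 5 : ℝ))) u s t :=
  QC.chkB 0 0 0 (QC.rd 81 4838) QC.r0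
    QC.r0 (QC.rd 4 5) (QC.rd 949 1000) (QC.rd 44117171 906991955) (QC.rd 1609 58056) QC.r0 (QC.rd 81 2419) (QC.rd 6733 25000) (QC.rn 3)
    (by decide +kernel) h1 h2 h3

theorem b0_1_0_0_2 {u s t : ℝ} (h1 : (6733 / 25000 : ℝ) ≤ u + 2) (h2 : (6733 / 25000 : ℝ) ≤ s + t + 2) (h3 : t + 1 ≤ (3 : ℝ)) :
    0 < E2 6 (81 / 4838 : ℝ) (0 : ℝ) ((4 / 5 : ℝ) * (4 / 5 : ℝ)) u s t -
      (949 / 1000 : ℝ) * Act 6 (44117171 / 906991955 : ℝ) (1609 / 58056 : ℝ) (0 : ℝ) (81 / 2419 : ℝ) ((1 - (4 / 5 : ℝ)) * (1 - (4 / 5 : ℝ))) u s t :=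
  QC.chkB 0 0 0 (QC.rd 81 4838) QC.r0
    (QC.rd 4 5) (QC.rd 4 5) (QC.rd 949 1000) (QC.rd 44117171 906991955) (QC.rd 1609 58056) QC.r0 (QC.rd 81 2419) (QC.rd 6733 25000) (QC.rn 3)
    (by decide +kernel) h1 h2 h3

theorem b0_1_0_1_0 {u s t : ℝ} (h1 : (6733 / 25000 : ℝ) ≤ u + 2) (h2 : (6733 / 25000 : ℝ) ≤ s + t + 2) (h3 : t + 1 ≤ (3 : ℝ)) :
    0 < E2 6 (81 / 4838 : ℝ) (450 / 2419 : ℝ) ((0 : ℝ) * (0 : ℝ)) u s t -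
      (259 / 100 : ℝ) * Act 6 (44117171 / 906991955 : ℝ) (1609 / 58056 : ℝ) (0 : ℝ) (81 / 2419 : ℝ) ((1 - (0 : ℝ)) * (1 - (0 : ℝ))) u s t :=
  QC.chkB 0 0 0 (QC.rd 81 4838) (QC.rd 450 2419)
    QC.r0 QC.r0 (QC.rd 259 100) (QC.rd 44117171 906991955) (QC.rd 1609 58056) QC.r0 (QC.rd 81 2419) (QC.rd 6733 25000) (QC.rn 3)
    (by decide +kernel) h1 h2 h3

theorem b0_1_0_1_1 {u s t : ℝ} (h1 : (6733 / 25000 : ℝ) ≤ u + 2) (h2 : (6733 / 25000 : ℝ) ≤ s + t + 2) (h3 : t + 1 ≤ (3 : ℝ)) :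
    0 < E2 6 (81 / 4838 : ℝ) (450 / 2419 : ℝ) ((0 : ℝ) * (4 / 5 : ℝ)) u s t -
      (259 / 100 : ℝ) * Act 6 (44117171 / 906991955 : ℝ) (1609 / 58056 : ℝ) (0 : ℝ) (81 / 2419 : ℝ) ((1 - (0 : ℝ)) * (1 - (4 / 5 : ℝ))) u s t :=
  QC.chkB 0 0 0 (QC.rd 81 4838) (QC.rd 450 2419)
    QC.r0 (QC.rd 4 5) (QC.rd 259 100) (QC.rd 44117171 906991955) (QC.rd 1609 58056) QC.r0 (QC.rd 81 2419) (QC.rd 6733 25000) (QC.rn 3)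
    (by decide +kernel) h1 h2 h3

theorem b0_1_0_1_2 {u s t : ℝ} (h1 : (6733 / 25000 : ℝ) ≤ u + 2) (h2 : (6733 / 25000 : ℝ) ≤ s + t + 2) (h3 : t + 1 ≤ (3 : ℝ)) :
    0 < E2 6 (81 / 4838 : ℝ) (450 / 2419 : ℝ) ((4 / 5 : ℝ) * (4 / 5 : ℝ)) u s t -
      (259 / 100 : ℝ) * Act 6 (44117171 / 906991955 : ℝ) (1609 / 58056 : ℝ) (0 : ℝ) (81 / 2419 : ℝ) ((1 - (4 / 5 : ℝ)) * (1 - (4 / 5 : ℝ))) u s t :=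
  QC.chkB 0 0 0 (QC.rd 81 4838) (QC.rd 450 2419)
    (QC.rd 4 5) (QC.rd 4 5) (QC.rd 259 100) (QC.rd 44117171 906991955) (QC.rd 1609 58056) QC.r0 (QC.rd 81 2419) (QC.rd 6733 25000) (QC.rn 3)
    (by decide +kernel) h1 h2 h3

theorem b0_1_1_0_0 {u s t : ℝ} (h1 : (6733 / 25000 : ℝ) ≤ u + 2) (h2 : (6733 / 25000 : ℝ) ≤ s + t + 2) (h3 : t + 1 ≤ (3 : ℝ)) :
    0 < E2 6 (81 / 4838 : ℝ) (0 : ℝ) ((4 / 5 : ℝ) * (4 / 5 : ℝ)) u s t -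
      (679 / 10 : ℝ) * Act 6 (44117171 / 906991955 : ℝ) (1609 / 58056 : ℝ) (0 : ℝ) (81 / 2419 : ℝ) ((1 - (4 / 5 : ℝ)) * (1 - (4 / 5 : ℝ))) u s t :=
  QC.chkB 0 1 0 (QC.rd 81 4838) QC.r0
    (QC.rd 4 5) (QC.rd 4 5) (QC.rd 679 10) (QC.rd 44117171 906991955) (QC.rd 1609 58056) QC.r0 (QC.rd 81 2419) (QC.rd 6733 25000) (QC.rn 3)
    (by decide +kernel) h1 h2 h3

theorem b0_1_1_0_1 {u s t : ℝ} (h1 : (6733 / 25000 : ℝ) ≤ u + 2) (h2 : (6733 / 25000 : ℝ) ≤ s + t + 2) (h3 : t + 1 ≤ (3 : ℝ)) :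
    0 < E2 6 (81 / 4838 : ℝ) (0 : ℝ) ((4 / 5 : ℝ) * (1 : ℝ)) u s t -
      (679 / 10 : ℝ) * Act 6 (44117171 / 906991955 : ℝ) (1609 / 58056 : ℝ) (0 : ℝ) (81 / 2419 : ℝ) ((1 - (4 / 5 : ℝ)) * (1 - (1 : ℝ))) u s t :=
  QC.chkB 0 3 0 (QC.rd 81 4838) QC.r0
    (QC.rd 4 5) QC.r1 (QC.rd 679 10) (QC.rd 44117171 906991955) (QC.rd 1609 58056) QC.r0 (QC.rd 81 2419) (QC.rd 6733 25000) (QC.rn 3)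
    (by decide +kernel) h1 h2 h3

theorem b0_1_1_0_2 {u s t : ℝ} (h1 : (6733 / 25000 : ℝ) ≤ u + 2) (h2 : (6733 / 25000 : ℝ) ≤ s + t + 2) (h3 : t + 1 ≤ (3 : ℝ)) :
    0 < E2 6 (81 / 4838 : ℝ) (0 : ℝ) ((1 : ℝ) * (1 : ℝ)) u s t -
      (679 / 10 : ℝ) * Act 6 (44117171 / 906991955 : ℝ) (1609 / 58056 : ℝ) (0 : ℝ) (81 / 2419 : ℝ) ((1 - (1 : ℝ)) * (1 - (1 : ℝ))) u s t :=
  QC.chkB (161 / 50) (1092511 / 290280) 0 (QC.rd 81 4838) QC.r0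
    QC.r1 QC.r1 (QC.rd 679 10) (QC.rd 44117171 906991955) (QC.rd 1609 58056) QC.r0 (QC.rd 81 2419) (QC.rd 6733 25000) (QC.rn 3)
    (by decide +kernel) h1 h2 h3

theorem b0_1_1_1_0 {u s t : ℝ} (h1 : (6733 / 25000 : ℝ) ≤ u + 2) (h2 : (6733 / 25000 : ℝ) ≤ s + t + 2) (h3 : t + 1 ≤ (3 : ℝ)) :
    0 < E2 6 (81 / 4838 : ℝ) (450 / 2419 : ℝ) ((4 / 5 : ℝ) * (4 / 5 : ℝ)) u s t -
      (773 / 10 : ℝ) * Act 6 (44117171 / 906991955 : ℝ) (1609 / 58056 : ℝ) (0 : ℝ) (81 / 2419 : ℝ) ((1 - (4 / 5 : ℝ)) * (1 - (4 / 5 : ℝ))) u s t :=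
  QC.chkB 3 1 0 (QC.rd 81 4838) (QC.rd 450 2419)
    (QC.rd 4 5) (QC.rd 4 5) (QC.rd 773 10) (QC.rd 44117171 906991955) (QC.rd 1609 58056) QC.r0 (QC.rd 81 2419) (QC.rd 6733 25000) (QC.rn 3)
    (by decide +kernel) h1 h2 h3

theorem b0_1_1_1_1 {u s t : ℝ} (h1 : (6733 / 25000 : ℝ) ≤ u + 2) (h2 : (6733 / 25000 : ℝ) ≤ s + t + 2) (h3 : t + 1 ≤ (3 : ℝ)) :
    0 < E2 6 (81 / 4838 : ℝ) (450 / 2419 : ℝ) ((4 / 5 : ℝ) * (1 : ℝ)) u s t -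
      (773 / 10 : ℝ) * Act 6 (44117171 / 906991955 : ℝ) (1609 / 58056 : ℝ) (0 : ℝ) (81 / 2419 : ℝ) ((1 - (4 / 5 : ℝ)) * (1 - (1 : ℝ))) u s t :=
  QC.chkB 5 3 0 (QC.rd 81 4838) (QC.rd 450 2419)
    (QC.rd 4 5) QC.r1 (QC.rd 773 10) (QC.rd 44117171 906991955) (QC.rd 1609 58056) QC.r0 (QC.rd 81 2419) (QC.rd 6733 25000) (QC.rn 3)
    (by decide +kernel) h1 h2 h3

theorem b0_1_1_1_2 {u s t : ℝ} (h1 : (6733 / 25000 : ℝ) ≤ u + 2) (h2 : (6733 / 25000 : ℝ) ≤ s + t + 2) (h3 : t + 1 ≤ (3 : ℝ)) :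
    0 < E2 6 (81 / 4838 : ℝ) (450 / 2419 : ℝ) ((1 : ℝ) * (1 : ℝ)) u s t -
      (773 / 10 : ℝ) * Act 6 (44117171 / 906991955 : ℝ) (1609 / 58056 : ℝ) (0 : ℝ) (81 / 2419 : ℝ) ((1 - (1 : ℝ)) * (1 - (1 : ℝ))) u s t :=
  QC.chkB (443 / 100) (1027757 / 290280) 0 (QC.rd 81 4838) (QC.rd 450 2419)
    QC.r1 QC.r1 (QC.rd 773 10) (QC.rd 44117171 906991955) (QC.rd 1609 58056) QC.r0 (QC.rd 81 2419) (QC.rd 6733 25000) (QC.rn 3)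
    (by decide +kernel) h1 h2 h3

theorem pathB0 {α la : ℝ} {u s t : ℝ} (h1 : (6733 / 25000 : ℝ) ≤ u + 2) (h2 : (6733 / 25000 : ℝ) ≤ s + t + 2) (h3 : t + 1 ≤ (3 : ℝ))
    (α0 : (0 : ℝ) ≤ α) (α1 : α ≤ (450 / 2419 : ℝ)) (la0 : (0 : ℝ) ≤ la) (la1 : la ≤ (1 : ℝ))
    (h4 : 0 ≤ Act 6 (11 / 155 : ℝ) (1 / 24 : ℝ) (0 : ℝ) (0 : ℝ) ((1 - la) ^ 2) u s t ∨
      0 ≤ Act 6 (44117171 / 906991955 : ℝ) (1609 / 58056 : ℝ) (0 : ℝ) (81 / 2419 : ℝ) ((1 - la) ^ 2) u s t) :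
    0 < E2 6 (81 / 4838 : ℝ) α (la ^ 2) u s t := by
  rcases h4 with h4 | h4
  · rcases le_total la (4 / 5 : ℝ) with lah0 | lal0
    · exact cellB α0 α1 (by norm_num) la0 lah0 h4 (by norm_num) (by norm_num)
        (b0_0_0_0_0 h1 h2 h3) (b0_0_0_0_1 h1 h2 h3) (b0_0_0_0_2 h1 h2 h3) (b0_0_0_1_0 h1 h2 h3) (b0_0_0_1_1 h1 h2 h3) (b0_0_0_1_2 h1 h2 h3)
    exact cellB α0 α1 (by norm_num) lal0 la1 h4 (by norm_num) (by norm_num)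
      (b0_0_1_0_0 h1 h2 h3) (b0_0_1_0_1 h1 h2 h3) (b0_0_1_0_2 h1 h2 h3) (b0_0_1_1_0 h1 h2 h3) (b0_0_1_1_1 h1 h2 h3) (b0_0_1_1_2 h1 h2 h3)
  · rcases le_total la (4 / 5 : ℝ) with lah0 | lal0
    · exact cellB α0 α1 (by norm_num) la0 lah0 h4 (by norm_num) (by norm_num)
        (b0_1_0_0_0 h1 h2 h3) (b0_1_0_0_1 h1 h2 h3) (b0_1_0_0_2 h1 h2 h3) (b0_1_0_1_0 h1 h2 h3) (b0_1_0_1_1 h1 h2 h3) (b0_1_0_1_2 h1 h2 h3)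
    exact cellB α0 α1 (by norm_num) lal0 la1 h4 (by norm_num) (by norm_num)
      (b0_1_1_0_0 h1 h2 h3) (b0_1_1_0_1 h1 h2 h3) (b0_1_1_0_2 h1 h2 h3) (b0_1_1_1_0 h1 h2 h3) (b0_1_1_1_1 h1 h2 h3) (b0_1_1_1_2 h1 h2 h3)

end Pool.Agent.Work.MP_3a9764_gt.C6
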