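import Pool.Agent.Work.MP_3a9764_gt.St2e

/-! Certificates for stage 2 in dimension 7. -/

set_option autoImplicit false
set_option linter.unusedVariables false
set_option linter.unusedSimpArgs false

namespace Pool.Agent.Work.MP_3a9764_gt.C7

theorem a0_0_0_0 {u s t : ℝ} (h1 : (12349 / 50000 : ℝ) ≤ u + 2) (h2 : (12349 / 50000 : ℝ) ≤ s + t + 2) (h3 : t + 1 ≤ (7 / 2 : ℝ)) :
    0 < E1 7 (64800 / 3682561 : ℝ) (162 / 9595 : ℝ) (360 / 1919 : ℝ) (324 / 9595 : ℝ) ((0 : ℝ) * (0 : ℝ)) u s t -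
      (51 / 1250 : ℝ) * Act 7 (215470173 / 5663778818 : ℝ) (3489 / 163115 : ℝ) (360 / 1919 : ℝ) (324 / 9595 : ℝ) ((1 - (0 : ℝ)) * (1 - (0 : ℝ))) u s t :=
  QC.chkA 0 0 0 (QC.rd 64800 3682561) (QC.rd 162 9595) (QC.rd 360 1919) (QC.rd 324 9595)
    QC.r0 QC.r0 (QC.rd 51 1250) (QC.rd 215470173 5663778818) (QC.rd 3489 163115) (QC.rd 360 1919) (QC.rd 324 9595) (QC.rd 12349 50000) (QC.rd 7 2)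
    (by decide +kernel) h1 h2 h3

theorem a0_0_0_1 {u s t : ℝ} (h1 : (12349 / 50000 : ℝ) ≤ u + 2) (h2 : (12349 / 50000 : ℝ) ≤ s + t + 2) (h3 : t + 1 ≤ (7 / 2 : ℝ)) :
    0 < E1 7 (64800 / 3682561 : ℝ) (162 / 9595 : ℝ) (360 / 1919 : ℝ) (324 / 9595 : ℝ) ((0 : ℝ) * (7 / 10 : ℝ)) u s t -
      (51 / 1250 : ℝ) * Act 7 (215470173 / 5663778818 : ℝ) (3489 / 163115 : ℝ) (360 / 1919 : ℝ) (324 / 9595 : ℝ) ((1 - (0 : ℝ)) * (1 - (7 / 10 : ℝ))) u s t :=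
  QC.chkA 0 0 0 (QC.rd 64800 3682561) (QC.rd 162 9595) (QC.rd 360 1919) (QC.rd 324 9595)
    QC.r0 (QC.rd 7 10) (QC.rd 51 1250) (QC.rd 215470173 5663778818) (QC.rd 3489 163115) (QC.rd 360 1919) (QC.rd 324 9595) (QC.rd 12349 50000) (QC.rd 7 2)
    (by decide +kernel) h1 h2 h3

theorem a0_0_0_2 {u s t : ℝ} (h1 : (12349 / 50000 : ℝ) ≤ u + 2) (h2 : (12349 / 50000 : ℝ) ≤ s + t + 2) (h3 : t + 1 ≤ (7 / 2 : ℝ)) :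
    0 < E1 7 (64800 / 3682561 : ℝ) (162 / 9595 : ℝ) (360 / 1919 : ℝ) (324 / 9595 : ℝ) ((7 / 10 : ℝ) * (7 / 10 : ℝ)) u s t -
      (51 / 1250 : ℝ) * Act 7 (215470173 / 5663778818 : ℝ) (3489 / 163115 : ℝ) (360 / 1919 : ℝ) (324 / 9595 : ℝ) ((1 - (7 / 10 : ℝ)) * (1 - (7 / 10 : ℝ))) u s t :=
  QC.chkA 0 0 0 (QC.rd 64800 3682561) (QC.rd 162 9595) (QC.rd 360 1919) (QC.rd 324 9595)
    (QC.rd 7 10) (QC.rd 7 10) (QC.rd 51 1250) (QC.rd 215470173 5663778818) (QC.rd 3489 163115) (QC.rd 360 1919) (QC.rd 324 9595) (QC.rd 12349 50000) (QC.rd 7 2)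
    (by decide +kernel) h1 h2 h3

theorem a0_0_1_0 {u s t : ℝ} (h1 : (12349 / 50000 : ℝ) ≤ u + 2) (h2 : (12349 / 50000 : ℝ) ≤ s + t + 2) (h3 : t + 1 ≤ (7 / 2 : ℝ)) :
    0 < E1 7 (64800 / 3682561 : ℝ) (162 / 9595 : ℝ) (360 / 1919 : ℝ) (4 / 5 : ℝ) ((0 : ℝ) * (0 : ℝ)) u s t -
      (0 : ℝ) * Act 7 (215470173 / 5663778818 : ℝ) (3489 / 163115 : ℝ) (360 / 1919 : ℝ) (324 / 9595 : ℝ) ((1 - (0 : ℝ)) * (1 - (0 : ℝ))) u s t :=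
  QC.chkA 0 0 0 (QC.rd 64800 3682561) (QC.rd 162 9595) (QC.rd 360 1919) (QC.rd 4 5)
    QC.r0 QC.r0 QC.r0 (QC.rd 215470173 5663778818) (QC.rd 3489 163115) (QC.rd 360 1919) (QC.rd 324 9595) (QC.rd 12349 50000) (QC.rd 7 2)
    (by decide +kernel) h1 h2 h3

theorem a0_0_1_1 {u s t : ℝ} (h1 : (12349 / 50000 : ℝ) ≤ u + 2) (h2 : (12349 / 50000 : ℝ) ≤ s + t + 2) (h3 : t + 1 ≤ (7 / 2 : ℝ)) :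
    0 < E1 7 (64800 / 3682561 : ℝ) (162 / 9595 : ℝ) (360 / 1919 : ℝ) (4 / 5 : ℝ) ((0 : ℝ) * (7 / 10 : ℝ)) u s t -
      (0 : ℝ) * Act 7 (215470173 / 5663778818 : ℝ) (3489 / 163115 : ℝ) (360 / 1919 : ℝ) (324 / 9595 : ℝ) ((1 - (0 : ℝ)) * (1 - (7 / 10 : ℝ))) u s t :=
  QC.chkA 0 0 0 (QC.rd 64800 3682561) (QC.rd 162 9595) (QC.rd 360 1919) (QC.rd 4 5)
    QC.r0 (QC.rd 7 10) QC.r0 (QC.rd 215470173 5663778818) (QC.rd 3489 163115) (QC.rd 360 1919) (QC.rd 324 9595) (QC.rd 12349 50000) (QC.rd 7 2)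
    (by decide +kernel) h1 h2 h3

theorem a0_0_1_2 {u s t : ℝ} (h1 : (12349 / 50000 : ℝ) ≤ u + 2) (h2 : (12349 / 50000 : ℝ) ≤ s + t + 2) (h3 : t + 1 ≤ (7 / 2 : ℝ)) :
    0 < E1 7 (64800 / 3682561 : ℝ) (162 / 9595 : ℝ) (360 / 1919 : ℝ) (4 / 5 : ℝ) ((7 / 10 : ℝ) * (7 / 10 : ℝ)) u s t -
      (0 : ℝ) * Act 7 (215470173 / 5663778818 : ℝ) (3489 / 163115 : ℝ) (360 / 1919 : ℝ) (324 / 9595 : ℝ) ((1 - (7 / 10 : ℝ)) * (1 - (7 / 10 : ℝ))) u s t :=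
  QC.chkA 0 0 0 (QC.rd 64800 3682561) (QC.rd 162 9595) (QC.rd 360 1919) (QC.rd 4 5)
    (QC.rd 7 10) (QC.rd 7 10) QC.r0 (QC.rd 215470173 5663778818) (QC.rd 3489 163115) (QC.rd 360 1919) (QC.rd 324 9595) (QC.rd 12349 50000) (QC.rd 7 2)
    (by decide +kernel) h1 h2 h3

theorem a0_1_0_0 {u s t : ℝ} (h1 : (12349 / 50000 : ℝ) ≤ u + 2) (h2 : (12349 / 50000 : ℝ) ≤ s + t + 2) (h3 : t + 1 ≤ (7 / 2 : ℝ)) :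
    0 < E1 7 (64800 / 3682561 : ℝ) (162 / 9595 : ℝ) (360 / 1919 : ℝ) (324 / 9595 : ℝ) ((7 / 10 : ℝ) * (7 / 10 : ℝ)) u s t -
      (49 / 100 : ℝ) * Act 7 (215470173 / 5663778818 : ℝ) (3489 / 163115 : ℝ) (360 / 1919 : ℝ) (324 / 9595 : ℝ) ((1 - (7 / 10 : ℝ)) * (1 - (7 / 10 : ℝ))) u s t :=
  QC.chkA (3 / 100) 0 0 (QC.rd 64800 3682561) (QC.rd 162 9595) (QC.rd 360 1919) (QC.rd 324 9595)
    (QC.rd 7 10) (QC.rd 7 10) (QC.rd 49 100) (QC.rd 215470173 5663778818) (QC.rd 3489 163115) (QC.rd 360 1919) (QC.rd 324 9595) (QC.rd 12349 50000) (QC.rd 7 2)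
    (by decide +kernel) h1 h2 h3

theorem a0_1_0_1 {u s t : ℝ} (h1 : (12349 / 50000 : ℝ) ≤ u + 2) (h2 : (12349 / 50000 : ℝ) ≤ s + t + 2) (h3 : t + 1 ≤ (7 / 2 : ℝ)) :
    0 < E1 7 (64800 / 3682561 : ℝ) (162 / 9595 : ℝ) (360 / 1919 : ℝ) (324 / 9595 : ℝ) ((7 / 10 : ℝ) * (1 : ℝ)) u s t -
      (49 / 100 : ℝ) * Act 7 (215470173 / 5663778818 : ℝ) (3489 / 163115 : ℝ) (360 / 1919 : ℝ) (324 / 9595 : ℝ) ((1 - (7 / 10 : ℝ)) * (1 - (1 : ℝ))) u s t :=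
  QC.chkA 0 0 0 (QC.rd 64800 3682561) (QC.rd 162 9595) (QC.rd 360 1919) (QC.rd 324 9595)
    (QC.rd 7 10) QC.r1 (QC.rd 49 100) (QC.rd 215470173 5663778818) (QC.rd 3489 163115) (QC.rd 360 1919) (QC.rd 324 9595) (QC.rd 12349 50000) (QC.rd 7 2)
    (by decide +kernel) h1 h2 h3

theorem a0_1_0_2 {u s t : ℝ} (h1 : (12349 / 50000 : ℝ) ≤ u + 2) (h2 : (12349 / 50000 : ℝ) ≤ s + t + 2) (h3 : t + 1 ≤ (7 / 2 : ℝ)) :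
    0 < E1 7 (64800 / 3682561 : ℝ) (162 / 9595 : ℝ) (360 / 1919 : ℝ) (324 / 9595 : ℝ) ((1 : ℝ) * (1 : ℝ)) u s t -
      (49 / 100 : ℝ) * Act 7 (215470173 / 5663778818 : ℝ) (3489 / 163115 : ℝ) (360 / 1919 : ℝ) (324 / 9595 : ℝ) ((1 - (1 : ℝ)) * (1 - (1 : ℝ))) u s t :=
  QC.chkA (3 / 100) (129786159 / 15650884250) 0 (QC.rd 64800 3682561) (QC.rd 162 9595) (QC.rd 360 1919) (QC.rd 324 9595)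
    QC.r1 QC.r1 (QC.rd 49 100) (QC.rd 215470173 5663778818) (QC.rd 3489 163115) (QC.rd 360 1919) (QC.rd 324 9595) (QC.rd 12349 50000) (QC.rd 7 2)
    (by decide +kernel) h1 h2 h3

theorem a0_1_1_0 {u s t : ℝ} (h1 : (12349 / 50000 : ℝ) ≤ u + 2) (h2 : (12349 / 50000 : ℝ) ≤ s + t + 2) (h3 : t + 1 ≤ (7 / 2 : ℝ)) :
    0 < E1 7 (64800 / 3682561 : ℝ) (162 / 9595 : ℝ) (360 / 1919 : ℝ) (4 / 5 : ℝ) ((7 / 10 : ℝ) * (7 / 10 : ℝ)) u s t -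
      (101 / 10 : ℝ) * Act 7 (215470173 / 5663778818 : ℝ) (3489 / 163115 : ℝ) (360 / 1919 : ℝ) (324 / 9595 : ℝ) ((1 - (7 / 10 : ℝ)) * (1 - (7 / 10 : ℝ))) u s t :=
  QC.chkA 0 0 0 (QC.rd 64800 3682561) (QC.rd 162 9595) (QC.rd 360 1919) (QC.rd 4 5)
    (QC.rd 7 10) (QC.rd 7 10) (QC.rd 101 10) (QC.rd 215470173 5663778818) (QC.rd 3489 163115) (QC.rd 360 1919) (QC.rd 324 9595) (QC.rd 12349 50000) (QC.rd 7 2)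
    (by decide +kernel) h1 h2 h3

theorem a0_1_1_1 {u s t : ℝ} (h1 : (12349 / 50000 : ℝ) ≤ u + 2) (h2 : (12349 / 50000 : ℝ) ≤ s + t + 2) (h3 : t + 1 ≤ (7 / 2 : ℝ)) :
    0 < E1 7 (64800 / 3682561 : ℝ) (162 / 9595 : ℝ) (360 / 1919 : ℝ) (4 / 5 : ℝ) ((7 / 10 : ℝ) * (1 : ℝ)) u s t -
      (101 / 10 : ℝ) * Act 7 (215470173 / 5663778818 : ℝ) (3489 / 163115 : ℝ) (360 / 1919 : ℝ) (324 / 9595 : ℝ) ((1 - (7 / 10 : ℝ)) * (1 - (1 : ℝ))) u s t :=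
  QC.chkA 0 0 0 (QC.rd 64800 3682561) (QC.rd 162 9595) (QC.rd 360 1919) (QC.rd 4 5)
    (QC.rd 7 10) QC.r1 (QC.rd 101 10) (QC.rd 215470173 5663778818) (QC.rd 3489 163115) (QC.rd 360 1919) (QC.rd 324 9595) (QC.rd 12349 50000) (QC.rd 7 2)
    (by decide +kernel) h1 h2 h3

theorem a0_1_1_2 {u s t : ℝ} (h1 : (12349 / 50000 : ℝ) ≤ u + 2) (h2 : (12349 / 50000 : ℝ) ≤ s + t + 2) (h3 : t + 1 ≤ (7 / 2 : ℝ)) :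
    0 < E1 7 (64800 / 3682561 : ℝ) (162 / 9595 : ℝ) (360 / 1919 : ℝ) (4 / 5 : ℝ) ((1 : ℝ) * (1 : ℝ)) u s t -
      (101 / 10 : ℝ) * Act 7 (215470173 / 5663778818 : ℝ) (3489 / 163115 : ℝ) (360 / 1919 : ℝ) (324 / 9595 : ℝ) ((1 - (1 : ℝ)) * (1 - (1 : ℝ))) u s t :=
  QC.chkA (7 / 10) (107589 / 815575) 0 (QC.rd 64800 3682561) (QC.rd 162 9595) (QC.rd 360 1919) (QC.rd 4 5)
    QC.r1 QC.r1 (QC.rd 101 10) (QC.rd 215470173 5663778818) (QC.rd 3489 163115) (QC.rd 360 1919) (QC.rd 324 9595) (QC.rd 12349 50000) (QC.rd 7 2)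
    (by decide +kernel) h1 h2 h3

theorem a1_0_0_0 {u s t : ℝ} (h1 : (12349 / 50000 : ℝ) ≤ u + 2) (h2 : (12349 / 50000 : ℝ) ≤ s + t + 2) (h3 : t + 1 ≤ (7 / 2 : ℝ)) :
    0 < E1 7 (64800 / 3682561 : ℝ) (162 / 9595 : ℝ) (360 / 1919 : ℝ) (4 / 5 : ℝ) ((0 : ℝ) * (0 : ℝ)) u s t -
      (367 / 500 : ℝ) * Act 7 (215470173 / 5663778818 : ℝ) (3489 / 163115 : ℝ) (360 / 1919 : ℝ) (4 / 5 : ℝ) ((1 - (0 : ℝ)) * (1 - (0 : ℝ))) u s t :=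
  QC.chkA 0 0 0 (QC.rd 64800 3682561) (QC.rd 162 9595) (QC.rd 360 1919) (QC.rd 4 5)
    QC.r0 QC.r0 (QC.rd 367 500) (QC.rd 215470173 5663778818) (QC.rd 3489 163115) (QC.rd 360 1919) (QC.rd 4 5) (QC.rd 12349 50000) (QC.rd 7 2)
    (by decide +kernel) h1 h2 h3

theorem a1_0_0_1 {u s t : ℝ} (h1 : (12349 / 50000 : ℝ) ≤ u + 2) (h2 : (12349 / 50000 : ℝ) ≤ s + t + 2) (h3 : t + 1 ≤ (7 / 2 : ℝ)) :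
    0 < E1 7 (64800 / 3682561 : ℝ) (162 / 9595 : ℝ) (360 / 1919 : ℝ) (4 / 5 : ℝ) ((0 : ℝ) * (4 / 5 : ℝ)) u s t -
      (367 / 500 : ℝ) * Act 7 (215470173 / 5663778818 : ℝ) (3489 / 163115 : ℝ) (360 / 1919 : ℝ) (4 / 5 : ℝ) ((1 - (0 : ℝ)) * (1 - (4 / 5 : ℝ))) u s t :=
  QC.chkA 0 0 0 (QC.rd 64800 3682561) (QC.rd 162 9595) (QC.rd 360 1919) (QC.rd 4 5)
    QC.r0 (QC.rd 4 5) (QC.rd 367 500) (QC.rd 215470173 5663778818) (QC.rd 3489 163115) (QC.rd 360 1919) (QC.rd 4 5) (QC.rd 12349 50000) (QC.rd 7 2)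
    (by decide +kernel) h1 h2 h3

theorem a1_0_0_2 {u s t : ℝ} (h1 : (12349 / 50000 : ℝ) ≤ u + 2) (h2 : (12349 / 50000 : ℝ) ≤ s + t + 2) (h3 : t + 1 ≤ (7 / 2 : ℝ)) :
    0 < E1 7 (64800 / 3682561 : ℝ) (162 / 9595 : ℝ) (360 / 1919 : ℝ) (4 / 5 : ℝ) ((4 / 5 : ℝ) * (4 / 5 : ℝ)) u s t -
      (367 / 500 : ℝ) * Act 7 (215470173 / 5663778818 : ℝ) (3489 / 163115 : ℝ) (360 / 1919 : ℝ) (4 / 5 : ℝ) ((1 - (4 / 5 : ℝ)) * (1 - (4 / 5 : ℝ))) u s t :=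
  QC.chkA 0 0 0 (QC.rd 64800 3682561) (QC.rd 162 9595) (QC.rd 360 1919) (QC.rd 4 5)
    (QC.rd 4 5) (QC.rd 4 5) (QC.rd 367 500) (QC.rd 215470173 5663778818) (QC.rd 3489 163115) (QC.rd 360 1919) (QC.rd 4 5) (QC.rd 12349 50000) (QC.rd 7 2)
    (by decide +kernel) h1 h2 h3

theorem a1_0_1_0 {u s t : ℝ} (h1 : (12349 / 50000 : ℝ) ≤ u + 2) (h2 : (12349 / 50000 : ℝ) ≤ s + t + 2) (h3 : t + 1 ≤ (7 / 2 : ℝ)) :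
    0 < E1 7 (64800 / 3682561 : ℝ) (162 / 9595 : ℝ) (360 / 1919 : ℝ) (1 : ℝ) ((0 : ℝ) * (0 : ℝ)) u s t -
      (797 / 1000 : ℝ) * Act 7 (215470173 / 5663778818 : ℝ) (3489 / 163115 : ℝ) (360 / 1919 : ℝ) (4 / 5 : ℝ) ((1 - (0 : ℝ)) * (1 - (0 : ℝ))) u s t :=
  QC.chkA 0 0 0 (QC.rd 64800 3682561) (QC.rd 162 9595) (QC.rd 360 1919) QC.r1
    QC.r0 QC.r0 (QC.rd 797 1000) (QC.rd 215470173 5663778818) (QC.rd 3489 163115) (QC.rd 360 1919) (QC.rd 4 5) (QC.rd 12349 50000) (QC.rd 7 2)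
    (by decide +kernel) h1 h2 h3

theorem a1_0_1_1 {u s t : ℝ} (h1 : (12349 / 50000 : ℝ) ≤ u + 2) (h2 : (12349 / 50000 : ℝ) ≤ s + t + 2) (h3 : t + 1 ≤ (7 / 2 : ℝ)) :
    0 < E1 7 (64800 / 3682561 : ℝ) (162 / 9595 : ℝ) (360 / 1919 : ℝ) (1 : ℝ) ((0 : ℝ) * (4 / 5 : ℝ)) u s t -
      (797 / 1000 : ℝ) * Act 7 (215470173 / 5663778818 : ℝ) (3489 / 163115 : ℝ) (360 / 1919 : ℝ) (4 / 5 : ℝ) ((1 - (0 : ℝ)) * (1 - (4 / 5 : ℝ))) u s t :=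
  QC.chkA 0 0 0 (QC.rd 64800 3682561) (QC.rd 162 9595) (QC.rd 360 1919) QC.r1
    QC.r0 (QC.rd 4 5) (QC.rd 797 1000) (QC.rd 215470173 5663778818) (QC.rd 3489 163115) (QC.rd 360 1919) (QC.rd 4 5) (QC.rd 12349 50000) (QC.rd 7 2)
    (by decide +kernel) h1 h2 h3

theorem a1_0_1_2 {u s t : ℝ} (h1 : (12349 / 50000 : ℝ) ≤ u + 2) (h2 : (12349 / 50000 : ℝ) ≤ s + t + 2) (h3 : t + 1 ≤ (7 / 2 : ℝ)) :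
    0 < E1 7 (64800 / 3682561 : ℝ) (162 / 9595 : ℝ) (360 / 1919 : ℝ) (1 : ℝ) ((4 / 5 : ℝ) * (4 / 5 : ℝ)) u s t -
      (797 / 1000 : ℝ) * Act 7 (215470173 / 5663778818 : ℝ) (3489 / 163115 : ℝ) (360 / 1919 : ℝ) (4 / 5 : ℝ) ((1 - (4 / 5 : ℝ)) * (1 - (4 / 5 : ℝ))) u s t :=
  QC.chkA 0 0 0 (QC.rd 64800 3682561) (QC.rd 162 9595) (QC.rd 360 1919) QC.r1
    (QC.rd 4 5) (QC.rd 4 5) (QC.rd 797 1000) (QC.rd 215470173 5663778818) (QC.rd 3489 163115) (QC.rd 360 1919) (QC.rd 4 5) (QC.rd 12349 50000) (QC.rd 7 2)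
    (by decide +kernel) h1 h2 h3

theorem a1_1_0_0 {u s t : ℝ} (h1 : (12349 / 50000 : ℝ) ≤ u + 2) (h2 : (12349 / 50000 : ℝ) ≤ s + t + 2) (h3 : t + 1 ≤ (7 / 2 : ℝ)) :
    0 < E1 7 (64800 / 3682561 : ℝ) (162 / 9595 : ℝ) (360 / 1919 : ℝ) (4 / 5 : ℝ) ((4 / 5 : ℝ) * (4 / 5 : ℝ)) u s t -
      (283 / 5 : ℝ) * Act 7 (215470173 / 5663778818 : ℝ) (3489 / 163115 : ℝ) (360 / 1919 : ℝ) (4 / 5 : ℝ) ((1 - (4 / 5 : ℝ)) * (1 - (4 / 5 : ℝ))) u s t :=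
  QC.chkA (7 / 5) (13 / 10) (9 / 10) (QC.rd 64800 3682561) (QC.rd 162 9595) (QC.rd 360 1919) (QC.rd 4 5)
    (QC.rd 4 5) (QC.rd 4 5) (QC.rd 283 5) (QC.rd 215470173 5663778818) (QC.rd 3489 163115) (QC.rd 360 1919) (QC.rd 4 5) (QC.rd 12349 50000) (QC.rd 7 2)
    (by decide +kernel) h1 h2 h3

theorem a1_1_0_1 {u s t : ℝ} (h1 : (12349 / 50000 : ℝ) ≤ u + 2) (h2 : (12349 / 50000 : ℝ) ≤ s + t + 2) (h3 : t + 1 ≤ (7 / 2 : ℝ)) :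
    0 < E1 7 (64800 / 3682561 : ℝ) (162 / 9595 : ℝ) (360 / 1919 : ℝ) (4 / 5 : ℝ) ((4 / 5 : ℝ) * (1 : ℝ)) u s t -
      (283 / 5 : ℝ) * Act 7 (215470173 / 5663778818 : ℝ) (3489 / 163115 : ℝ) (360 / 1919 : ℝ) (4 / 5 : ℝ) ((1 - (4 / 5 : ℝ)) * (1 - (1 : ℝ))) u s t :=
  QC.chkA 2 2 0 (QC.rd 64800 3682561) (QC.rd 162 9595) (QC.rd 360 1919) (QC.rd 4 5)
    (QC.rd 4 5) QC.r1 (QC.rd 283 5) (QC.rd 215470173 5663778818) (QC.rd 3489 163115) (QC.rd 360 1919) (QC.rd 4 5) (QC.rd 12349 50000) (QC.rd 7 2)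
    (by decide +kernel) h1 h2 h3

theorem a1_1_0_2 {u s t : ℝ} (h1 : (12349 / 50000 : ℝ) ≤ u + 2) (h2 : (12349 / 50000 : ℝ) ≤ s + t + 2) (h3 : t + 1 ≤ (7 / 2 : ℝ)) :
    0 < E1 7 (64800 / 3682561 : ℝ) (162 / 9595 : ℝ) (360 / 1919 : ℝ) (4 / 5 : ℝ) ((1 : ℝ) * (1 : ℝ)) u s t -
      (283 / 5 : ℝ) * Act 7 (215470173 / 5663778818 : ℝ) (3489 / 163115 : ℝ) (360 / 1919 : ℝ) (4 / 5 : ℝ) ((1 - (1 : ℝ)) * (1 - (1 : ℝ))) u s t :=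
  QC.chkA (261 / 100) (1729974 / 815575) 0 (QC.rd 64800 3682561) (QC.rd 162 9595) (QC.rd 360 1919) (QC.rd 4 5)
    QC.r1 QC.r1 (QC.rd 283 5) (QC.rd 215470173 5663778818) (QC.rd 3489 163115) (QC.rd 360 1919) (QC.rd 4 5) (QC.rd 12349 50000) (QC.rd 7 2)
    (by decide +kernel) h1 h2 h3

theorem a1_1_1_0 {u s t : ℝ} (h1 : (12349 / 50000 : ℝ) ≤ u + 2) (h2 : (12349 / 50000 : ℝ) ≤ s + t + 2) (h3 : t + 1 ≤ (7 / 2 : ℝ)) :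
    0 < E1 7 (64800 / 3682561 : ℝ) (162 / 9595 : ℝ) (360 / 1919 : ℝ) (1 : ℝ) ((4 / 5 : ℝ) * (4 / 5 : ℝ)) u s t -
      (707 / 10 : ℝ) * Act 7 (215470173 / 5663778818 : ℝ) (3489 / 163115 : ℝ) (360 / 1919 : ℝ) (4 / 5 : ℝ) ((1 - (4 / 5 : ℝ)) * (1 - (4 / 5 : ℝ))) u s t :=
  QC.chkA (9 / 5) (8 / 5) (6 / 5) (QC.rd 64800 3682561) (QC.rd 162 9595) (QC.rd 360 1919) QC.r1
    (QC.rd 4 5) (QC.rd 4 5) (QC.rd 707 10) (QC.rd 215470173 5663778818) (QC.rd 3489 163115) (QC.rd 360 1919) (QC.rd 4 5) (QC.rd 12349 50000) (QC.rd 7 2)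
    (by decide +kernel) h1 h2 h3

theorem a1_1_1_1 {u s t : ℝ} (h1 : (12349 / 50000 : ℝ) ≤ u + 2) (h2 : (12349 / 50000 : ℝ) ≤ s + t + 2) (h3 : t + 1 ≤ (7 / 2 : ℝ)) :
    0 < E1 7 (64800 / 3682561 : ℝ) (162 / 9595 : ℝ) (360 / 1919 : ℝ) (1 : ℝ) ((4 / 5 : ℝ) * (1 : ℝ)) u s t -
      (707 / 10 : ℝ) * Act 7 (215470173 / 5663778818 : ℝ) (3489 / 163115 : ℝ) (360 / 1919 : ℝ) (4 / 5 : ℝ) ((1 - (4 / 5 : ℝ)) * (1 - (1 : ℝ))) u s t :=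
  QC.chkA 3 (5 / 2) 0 (QC.rd 64800 3682561) (QC.rd 162 9595) (QC.rd 360 1919) QC.r1
    (QC.rd 4 5) QC.r1 (QC.rd 707 10) (QC.rd 215470173 5663778818) (QC.rd 3489 163115) (QC.rd 360 1919) (QC.rd 4 5) (QC.rd 12349 50000) (QC.rd 7 2)
    (by decide +kernel) h1 h2 h3

theorem a1_1_1_2 {u s t : ℝ} (h1 : (12349 / 50000 : ℝ) ≤ u + 2) (h2 : (12349 / 50000 : ℝ) ≤ s + t + 2) (h3 : t + 1 ≤ (7 / 2 : ℝ)) :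
    0 < E1 7 (64800 / 3682561 : ℝ) (162 / 9595 : ℝ) (360 / 1919 : ℝ) (1 : ℝ) ((1 : ℝ) * (1 : ℝ)) u s t -
      (707 / 10 : ℝ) * Act 7 (215470173 / 5663778818 : ℝ) (3489 / 163115 : ℝ) (360 / 1919 : ℝ) (4 / 5 : ℝ) ((1 - (1 : ℝ)) * (1 - (1 : ℝ))) u s t :=
  QC.chkA (327 / 100) (2160723 / 815575) 0 (QC.rd 64800 3682561) (QC.rd 162 9595) (QC.rd 360 1919) QC.r1
    QC.r1 QC.r1 (QC.rd 707 10) (QC.rd 215470173 5663778818) (QC.rd 3489 163115) (QC.rd 360 1919) (QC.rd 4 5) (QC.rd 12349 50000) (QC.rd 7 2)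
    (by decide +kernel) h1 h2 h3

theorem a2_0_0_0 {u s t : ℝ} (h1 : (12349 / 50000 : ℝ) ≤ u + 2) (h2 : (12349 / 50000 : ℝ) ≤ s + t + 2) (h3 : t + 1 ≤ (7 / 2 : ℝ)) :
    0 < E1 7 (64800 / 3682561 : ℝ) (162 / 9595 : ℝ) (360 / 1919 : ℝ) (1 : ℝ) ((0 : ℝ) * (0 : ℝ)) u s t -
      (34 / 25 : ℝ) * Act 7 (215470173 / 5663778818 : ℝ) (3489 / 163115 : ℝ) (360 / 1919 : ℝ) (1 : ℝ) ((1 - (0 : ℝ)) * (1 - (0 : ℝ))) u s t :=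
  QC.chkA 0 0 0 (QC.rd 64800 3682561) (QC.rd 162 9595) (QC.rd 360 1919) QC.r1
    QC.r0 QC.r0 (QC.rd 34 25) (QC.rd 215470173 5663778818) (QC.rd 3489 163115) (QC.rd 360 1919) QC.r1 (QC.rd 12349 50000) (QC.rd 7 2)
    (by decide +kernel) h1 h2 h3

theorem a2_0_0_1 {u s t : ℝ} (h1 : (12349 / 50000 : ℝ) ≤ u + 2) (h2 : (12349 / 50000 : ℝ) ≤ s + t + 2) (h3 : t + 1 ≤ (7 / 2 : ℝ)) :
    0 < E1 7 (64800 / 3682561 : ℝ) (162 / 9595 : ℝ) (360 / 1919 : ℝ) (1 : ℝ) ((0 : ℝ) * (4 / 5 : ℝ)) u s t -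
      (34 / 25 : ℝ) * Act 7 (215470173 / 5663778818 : ℝ) (3489 / 163115 : ℝ) (360 / 1919 : ℝ) (1 : ℝ) ((1 - (0 : ℝ)) * (1 - (4 / 5 : ℝ))) u s t :=
  QC.chkA 0 0 0 (QC.rd 64800 3682561) (QC.rd 162 9595) (QC.rd 360 1919) QC.r1
    QC.r0 (QC.rd 4 5) (QC.rd 34 25) (QC.rd 215470173 5663778818) (QC.rd 3489 163115) (QC.rd 360 1919) QC.r1 (QC.rd 12349 50000) (QC.rd 7 2)
    (by decide +kernel) h1 h2 h3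

theorem a2_0_0_2 {u s t : ℝ} (h1 : (12349 / 50000 : ℝ) ≤ u + 2) (h2 : (12349 / 50000 : ℝ) ≤ s + t + 2) (h3 : t + 1 ≤ (7 / 2 : ℝ)) :
    0 < E1 7 (64800 / 3682561 : ℝ) (162 / 9595 : ℝ) (360 / 1919 : ℝ) (1 : ℝ) ((4 / 5 : ℝ) * (4 / 5 : ℝ)) u s t -
      (34 / 25 : ℝ) * Act 7 (215470173 / 5663778818 : ℝ) (3489 / 163115 : ℝ) (360 / 1919 : ℝ) (1 : ℝ) ((1 - (4 / 5 : ℝ)) * (1 - (4 / 5 : ℝ))) u s t :=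
  QC.chkA 0 0 0 (QC.rd 64800 3682561) (QC.rd 162 9595) (QC.rd 360 1919) QC.r1
    (QC.rd 4 5) (QC.rd 4 5) (QC.rd 34 25) (QC.rd 215470173 5663778818) (QC.rd 3489 163115) (QC.rd 360 1919) QC.r1 (QC.rd 12349 50000) (QC.rd 7 2)
    (by decide +kernel) h1 h2 h3

theorem a2_0_1_0 {u s t : ℝ} (h1 : (12349 / 50000 : ℝ) ≤ u + 2) (h2 : (12349 / 50000 : ℝ) ≤ s + t + 2) (h3 : t + 1 ≤ (7 / 2 : ℝ)) :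
    0 < E1 7 (64800 / 3682561 : ℝ) (162 / 9595 : ℝ) (360 / 1919 : ℝ) (7 / 2 : ℝ) ((0 : ℝ) * (0 : ℝ)) u s t -
      (173 / 50 : ℝ) * Act 7 (215470173 / 5663778818 : ℝ) (3489 / 163115 : ℝ) (360 / 1919 : ℝ) (1 : ℝ) ((1 - (0 : ℝ)) * (1 - (0 : ℝ))) u s t :=
  QC.chkA 0 0 0 (QC.rd 64800 3682561) (QC.rd 162 9595) (QC.rd 360 1919) (QC.rd 7 2)
    QC.r0 QC.r0 (QC.rd 173 50) (QC.rd 215470173 5663778818) (QC.rd 3489 163115) (QC.rd 360 1919) QC.r1 (QC.rd 12349 50000) (QC.rd 7 2)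
    (by decide +kernel) h1 h2 h3

theorem a2_0_1_1 {u s t : ℝ} (h1 : (12349 / 50000 : ℝ) ≤ u + 2) (h2 : (12349 / 50000 : ℝ) ≤ s + t + 2) (h3 : t + 1 ≤ (7 / 2 : ℝ)) :
    0 < E1 7 (64800 / 3682561 : ℝ) (162 / 9595 : ℝ) (360 / 1919 : ℝ) (7 / 2 : ℝ) ((0 : ℝ) * (4 / 5 : ℝ)) u s t -
      (173 / 50 : ℝ) * Act 7 (215470173 / 5663778818 : ℝ) (3489 / 163115 : ℝ) (360 / 1919 : ℝ) (1 : ℝ) ((1 - (0 : ℝ)) * (1 - (4 / 5 : ℝ))) u s t :=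
  QC.chkA 0 0 0 (QC.rd 64800 3682561) (QC.rd 162 9595) (QC.rd 360 1919) (QC.rd 7 2)
    QC.r0 (QC.rd 4 5) (QC.rd 173 50) (QC.rd 215470173 5663778818) (QC.rd 3489 163115) (QC.rd 360 1919) QC.r1 (QC.rd 12349 50000) (QC.rd 7 2)
    (by decide +kernel) h1 h2 h3

theorem a2_0_1_2 {u s t : ℝ} (h1 : (12349 / 50000 : ℝ) ≤ u + 2) (h2 : (12349 / 50000 : ℝ) ≤ s + t + 2) (h3 : t + 1 ≤ (7 / 2 : ℝ)) :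
    0 < E1 7 (64800 / 3682561 : ℝ) (162 / 9595 : ℝ) (360 / 1919 : ℝ) (7 / 2 : ℝ) ((4 / 5 : ℝ) * (4 / 5 : ℝ)) u s t -
      (173 / 50 : ℝ) * Act 7 (215470173 / 5663778818 : ℝ) (3489 / 163115 : ℝ) (360 / 1919 : ℝ) (1 : ℝ) ((1 - (4 / 5 : ℝ)) * (1 - (4 / 5 : ℝ))) u s t :=
  QC.chkA 0 0 0 (QC.rd 64800 3682561) (QC.rd 162 9595) (QC.rd 360 1919) (QC.rd 7 2)
    (QC.rd 4 5) (QC.rd 4 5) (QC.rd 173 50) (QC.rd 215470173 5663778818) (QC.rd 3489 163115) (QC.rd 360 1919) QC.r1 (QC.rd 12349 50000) (QC.rd 7 2)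
    (by decide +kernel) h1 h2 h3

theorem a2_1_0_0 {u s t : ℝ} (h1 : (12349 / 50000 : ℝ) ≤ u + 2) (h2 : (12349 / 50000 : ℝ) ≤ s + t + 2) (h3 : t + 1 ≤ (7 / 2 : ℝ)) :
    0 < E1 7 (64800 / 3682561 : ℝ) (162 / 9595 : ℝ) (360 / 1919 : ℝ) (1 : ℝ) ((4 / 5 : ℝ) * (4 / 5 : ℝ)) u s t -
      (483 / 5 : ℝ) * Act 7 (215470173 / 5663778818 : ℝ) (3489 / 163115 : ℝ) (360 / 1919 : ℝ) (1 : ℝ) ((1 - (4 / 5 : ℝ)) * (1 - (4 / 5 : ℝ))) u s t :=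
  QC.chkA (13 / 5) (27 / 10) (21 / 10) (QC.rd 64800 3682561) (QC.rd 162 9595) (QC.rd 360 1919) QC.r1
    (QC.rd 4 5) (QC.rd 4 5) (QC.rd 483 5) (QC.rd 215470173 5663778818) (QC.rd 3489 163115) (QC.rd 360 1919) QC.r1 (QC.rd 12349 50000) (QC.rd 7 2)
    (by decide +kernel) h1 h2 h3

theorem a2_1_0_1 {u s t : ℝ} (h1 : (12349 / 50000 : ℝ) ≤ u + 2) (h2 : (12349 / 50000 : ℝ) ≤ s + t + 2) (h3 : t + 1 ≤ (7 / 2 : ℝ)) :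
    0 < E1 7 (64800 / 3682561 : ℝ) (162 / 9595 : ℝ) (360 / 1919 : ℝ) (1 : ℝ) ((4 / 5 : ℝ) * (1 : ℝ)) u s t -
      (483 / 5 : ℝ) * Act 7 (215470173 / 5663778818 : ℝ) (3489 / 163115 : ℝ) (360 / 1919 : ℝ) (1 : ℝ) ((1 - (4 / 5 : ℝ)) * (1 - (1 : ℝ))) u s t :=
  QC.chkA (41 / 10) (18 / 5) 0 (QC.rd 64800 3682561) (QC.rd 162 9595) (QC.rd 360 1919) QC.r1
    (QC.rd 4 5) QC.r1 (QC.rd 483 5) (QC.rd 215470173 5663778818) (QC.rd 3489 163115) (QC.rd 360 1919) QC.r1 (QC.rd 12349 50000) (QC.rd 7 2)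
    (by decide +kernel) h1 h2 h3

theorem a2_1_0_2 {u s t : ℝ} (h1 : (12349 / 50000 : ℝ) ≤ u + 2) (h2 : (12349 / 50000 : ℝ) ≤ s + t + 2) (h3 : t + 1 ≤ (7 / 2 : ℝ)) :
    0 < E1 7 (64800 / 3682561 : ℝ) (162 / 9595 : ℝ) (360 / 1919 : ℝ) (1 : ℝ) ((1 : ℝ) * (1 : ℝ)) u s t -
      (483 / 5 : ℝ) * Act 7 (215470173 / 5663778818 : ℝ) (3489 / 163115 : ℝ) (360 / 1919 : ℝ) (1 : ℝ) ((1 - (1 : ℝ)) * (1 - (1 : ℝ))) u s t :=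
  QC.chkA (109 / 25) (3064374 / 815575) 0 (QC.rd 64800 3682561) (QC.rd 162 9595) (QC.rd 360 1919) QC.r1
    QC.r1 QC.r1 (QC.rd 483 5) (QC.rd 215470173 5663778818) (QC.rd 3489 163115) (QC.rd 360 1919) QC.r1 (QC.rd 12349 50000) (QC.rd 7 2)
    (by decide +kernel) h1 h2 h3

theorem a2_1_1_0 {u s t : ℝ} (h1 : (12349 / 50000 : ℝ) ≤ u + 2) (h2 : (12349 / 50000 : ℝ) ≤ s + t + 2) (h3 : t + 1 ≤ (7 / 2 : ℝ)) :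
    0 < E1 7 (64800 / 3682561 : ℝ) (162 / 9595 : ℝ) (360 / 1919 : ℝ) (7 / 2 : ℝ) ((4 / 5 : ℝ) * (4 / 5 : ℝ)) u s t -
      (338 : ℝ) * Act 7 (215470173 / 5663778818 : ℝ) (3489 / 163115 : ℝ) (360 / 1919 : ℝ) (1 : ℝ) ((1 - (4 / 5 : ℝ)) * (1 - (4 / 5 : ℝ))) u s t :=
  QC.chkA 9 9 7 (QC.rd 64800 3682561) (QC.rd 162 9595) (QC.rd 360 1919) (QC.rd 7 2)
    (QC.rd 4 5) (QC.rd 4 5) (QC.rn 338) (QC.rd 215470173 5663778818) (QC.rd 3489 163115) (QC.rd 360 1919) QC.r1 (QC.rd 12349 50000) (QC.rd 7 2)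
    (by decide +kernel) h1 h2 h3

theorem a2_1_1_1 {u s t : ℝ} (h1 : (12349 / 50000 : ℝ) ≤ u + 2) (h2 : (12349 / 50000 : ℝ) ≤ s + t + 2) (h3 : t + 1 ≤ (7 / 2 : ℝ)) :
    0 < E1 7 (64800 / 3682561 : ℝ) (162 / 9595 : ℝ) (360 / 1919 : ℝ) (7 / 2 : ℝ) ((4 / 5 : ℝ) * (1 : ℝ)) u s t -
      (338 : ℝ) * Act 7 (215470173 / 5663778818 : ℝ) (3489 / 163115 : ℝ) (360 / 1919 : ℝ) (1 : ℝ) ((1 - (4 / 5 : ℝ)) * (1 - (1 : ℝ))) u s t :=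
  QC.chkA 14 12 0 (QC.rd 64800 3682561) (QC.rd 162 9595) (QC.rd 360 1919) (QC.rd 7 2)
    (QC.rd 4 5) QC.r1 (QC.rn 338) (QC.rd 215470173 5663778818) (QC.rd 3489 163115) (QC.rd 360 1919) QC.r1 (QC.rd 12349 50000) (QC.rd 7 2)
    (by decide +kernel) h1 h2 h3

theorem a2_1_1_2 {u s t : ℝ} (h1 : (12349 / 50000 : ℝ) ≤ u + 2) (h2 : (12349 / 50000 : ℝ) ≤ s + t + 2) (h3 : t + 1 ≤ (7 / 2 : ℝ)) :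
    0 < E1 7 (64800 / 3682561 : ℝ) (162 / 9595 : ℝ) (360 / 1919 : ℝ) (7 / 2 : ℝ) ((1 : ℝ) * (1 : ℝ)) u s t -
      (338 : ℝ) * Act 7 (215470173 / 5663778818 : ℝ) (3489 / 163115 : ℝ) (360 / 1919 : ℝ) (1 : ℝ) ((1 - (1 : ℝ)) * (1 - (1 : ℝ))) u s t :=
  QC.chkA (1547 / 100) (2144364 / 163115) 0 (QC.rd 64800 3682561) (QC.rd 162 9595) (QC.rd 360 1919) (QC.rd 7 2)
    QC.r1 QC.r1 (QC.rn 338) (QC.rd 215470173 5663778818) (QC.rd 3489 163115) (QC.rd 360 1919) QC.r1 (QC.rd 12349 50000) (QC.rd 7 2)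
    (by decide +kernel) h1 h2 h3

theorem pathA {β la : ℝ} {u s t : ℝ} (h1 : (12349 / 50000 : ℝ) ≤ u + 2) (h2 : (12349 / 50000 : ℝ) ≤ s + t + 2) (h3 : t + 1 ≤ (7 / 2 : ℝ))
    (β0 : (324 / 9595 : ℝ) ≤ β) (β1 : β ≤ (7 / 2 : ℝ)) (la0 : (0 : ℝ) ≤ la) (la1 : la ≤ (1 : ℝ))
    (h4 : 0 ≤ Act 7 (215470173 / 5663778818 : ℝ) (3489 / 163115 : ℝ) (360 / 1919 : ℝ) β ((1 - la) ^ 2) u s t) :
    0 < E1 7 (64800 / 3682561 : ℝ) (162 / 9595 : ℝ) (360 / 1919 : ℝ) β (la ^ 2) u s t := by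
  rcases le_total β (4 / 5 : ℝ) with βh0 | βl0
  · rcases le_total la (7 / 10 : ℝ) with lah0 | lal0
    · exact cellA β0 βh0 (by norm_num) la0 lah0 h4 (by norm_num) (by norm_num)
        (a0_0_0_0 h1 h2 h3) (a0_0_0_1 h1 h2 h3) (a0_0_0_2 h1 h2 h3) (a0_0_1_0 h1 h2 h3) (a0_0_1_1 h1 h2 h3) (a0_0_1_2 h1 h2 h3)
    exact cellA β0 βh0 (by norm_num) lal0 la1 h4 (by norm_num) (by norm_num)
      (a0_1_0_0 h1 h2 h3) (a0_1_0_1 h1 h2 h3) (a0_1_0_2 h1 h2 h3) (a0_1_1_0 h1 h2 h3) (a0_1_1_1 h1 h2 h3) (a0_1_1_2 h1 h2 h3)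
  rcases le_total β (1 : ℝ) with βh1 | βl1
  · rcases le_total la (4 / 5 : ℝ) with lah0 | lal0
    · exact cellA βl0 βh1 (by norm_num) la0 lah0 h4 (by norm_num) (by norm_num)
        (a1_0_0_0 h1 h2 h3) (a1_0_0_1 h1 h2 h3) (a1_0_0_2 h1 h2 h3) (a1_0_1_0 h1 h2 h3) (a1_0_1_1 h1 h2 h3) (a1_0_1_2 h1 h2 h3)
    exact cellA βl0 βh1 (by norm_num) lal0 la1 h4 (by norm_num) (by norm_num)
      (a1_1_0_0 h1 h2 h3) (a1_1_0_1 h1 h2 h3) (a1_1_0_2 h1 h2 h3) (a1_1_1_0 h1 h2 h3) (a1_1_1_1 h1 h2 h3) (a1_1_1_2 h1 h2 h3)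
  rcases le_total la (4 / 5 : ℝ) with lah0 | lal0
  · exact cellA βl1 β1 (by norm_num) la0 lah0 h4 (by norm_num) (by norm_num)
      (a2_0_0_0 h1 h2 h3) (a2_0_0_1 h1 h2 h3) (a2_0_0_2 h1 h2 h3) (a2_0_1_0 h1 h2 h3) (a2_0_1_1 h1 h2 h3) (a2_0_1_2 h1 h2 h3)
  exact cellA βl1 β1 (by norm_num) lal0 la1 h4 (by norm_num) (by norm_num)
    (a2_1_0_0 h1 h2 h3) (a2_1_0_1 h1 h2 h3) (a2_1_0_2 h1 h2 h3) (a2_1_1_0 h1 h2 h3) (a2_1_1_1 h1 h2 h3) (a2_1_1_2 h1 h2 h3)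

theorem b0_0_0_0_0 {u s t : ℝ} (h1 : (5347 / 20000 : ℝ) ≤ u + 2) (h2 : (5347 / 20000 : ℝ) ≤ s + t + 2) (h3 : t + 1 ≤ (7 / 2 : ℝ)) :
    0 < E2 7 (162 / 9595 : ℝ) (0 : ℝ) ((0 : ℝ) * (0 : ℝ)) u s t -
      (107 / 100 : ℝ) * Act 7 (93 / 1538 : ℝ) (3 / 85 : ℝ) (0 : ℝ) (0 : ℝ) ((1 - (0 : ℝ)) * (1 - (0 : ℝ))) u s t :=
  QC.chkB 0 0 0 (QC.rd 162 9595) QC.r0
    QC.r0 QC.r0 (QC.rd 107 100) (QC.rd 93 1538) (QC.rd 3 85) QC.r0 QC.r0 (QC.rd 5347 20000) (QC.rd 7 2)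
    (by decide +kernel) h1 h2 h3

theorem b0_0_0_0_1 {u s t : ℝ} (h1 : (5347 / 20000 : ℝ) ≤ u + 2) (h2 : (5347 / 20000 : ℝ) ≤ s + t + 2) (h3 : t + 1 ≤ (7 / 2 : ℝ)) :
    0 < E2 7 (162 / 9595 : ℝ) (0 : ℝ) ((0 : ℝ) * (4 / 5 : ℝ)) u s t -
      (107 / 100 : ℝ) * Act 7 (93 / 1538 : ℝ) (3 / 85 : ℝ) (0 : ℝ) (0 : ℝ) ((1 - (0 : ℝ)) * (1 - (4 / 5 : ℝ))) u s t :=
  QC.chkB 0 0 0 (QC.rd 162 9595) QC.r0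
    QC.r0 (QC.rd 4 5) (QC.rd 107 100) (QC.rd 93 1538) (QC.rd 3 85) QC.r0 QC.r0 (QC.rd 5347 20000) (QC.rd 7 2)
    (by decide +kernel) h1 h2 h3

theorem b0_0_0_0_2 {u s t : ℝ} (h1 : (5347 / 20000 : ℝ) ≤ u + 2) (h2 : (5347 / 20000 : ℝ) ≤ s + t + 2) (h3 : t + 1 ≤ (7 / 2 : ℝ)) :
    0 < E2 7 (162 / 9595 : ℝ) (0 : ℝ) ((4 / 5 : ℝ) * (4 / 5 : ℝ)) u s t -
      (107 / 100 : ℝ) * Act 7 (93 / 1538 : ℝ) (3 / 85 : ℝ) (0 : ℝ) (0 : ℝ) ((1 - (4 / 5 : ℝ)) * (1 - (4 / 5 : ℝ))) u s t :=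
  QC.chkB 0 0 0 (QC.rd 162 9595) QC.r0
    (QC.rd 4 5) (QC.rd 4 5) (QC.rd 107 100) (QC.rd 93 1538) (QC.rd 3 85) QC.r0 QC.r0 (QC.rd 5347 20000) (QC.rd 7 2)
    (by decide +kernel) h1 h2 h3

theorem b0_0_0_1_0 {u s t : ℝ} (h1 : (5347 / 20000 : ℝ) ≤ u + 2) (h2 : (5347 / 20000 : ℝ) ≤ s + t + 2) (h3 : t + 1 ≤ (7 / 2 : ℝ)) :
    0 < E2 7 (162 / 9595 : ℝ) (1360 / 7711 : ℝ) ((0 : ℝ) * (0 : ℝ)) u s t -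
      (271 / 100 : ℝ) * Act 7 (93 / 1538 : ℝ) (3 / 85 : ℝ) (0 : ℝ) (0 : ℝ) ((1 - (0 : ℝ)) * (1 - (0 : ℝ))) u s t :=
  QC.chkB 0 0 0 (QC.rd 162 9595) (QC.rd 1360 7711)
    QC.r0 QC.r0 (QC.rd 271 100) (QC.rd 93 1538) (QC.rd 3 85) QC.r0 QC.r0 (QC.rd 5347 20000) (QC.rd 7 2)
    (by decide +kernel) h1 h2 h3

theorem b0_0_0_1_1 {u s t : ℝ} (h1 : (5347 / 20000 : ℝ) ≤ u + 2) (h2 : (5347 / 20000 : ℝ) ≤ s + t + 2) (h3 : t + 1 ≤ (7 / 2 : ℝ)) :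
    0 < E2 7 (162 / 9595 : ℝ) (1360 / 7711 : ℝ) ((0 : ℝ) * (4 / 5 : ℝ)) u s t -
      (271 / 100 : ℝ) * Act 7 (93 / 1538 : ℝ) (3 / 85 : ℝ) (0 : ℝ) (0 : ℝ) ((1 - (0 : ℝ)) * (1 - (4 / 5 : ℝ))) u s t :=
  QC.chkB 0 0 0 (QC.rd 162 9595) (QC.rd 1360 7711)
    QC.r0 (QC.rd 4 5) (QC.rd 271 100) (QC.rd 93 1538) (QC.rd 3 85) QC.r0 QC.r0 (QC.rd 5347 20000) (QC.rd 7 2)
    (by decide +kernel) h1 h2 h3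

theorem b0_0_0_1_2 {u s t : ℝ} (h1 : (5347 / 20000 : ℝ) ≤ u + 2) (h2 : (5347 / 20000 : ℝ) ≤ s + t + 2) (h3 : t + 1 ≤ (7 / 2 : ℝ)) :
    0 < E2 7 (162 / 9595 : ℝ) (1360 / 7711 : ℝ) ((4 / 5 : ℝ) * (4 / 5 : ℝ)) u s t -
      (271 / 100 : ℝ) * Act 7 (93 / 1538 : ℝ) (3 / 85 : ℝ) (0 : ℝ) (0 : ℝ) ((1 - (4 / 5 : ℝ)) * (1 - (4 / 5 : ℝ))) u s t :=
  QC.chkB 0 0 0 (QC.rd 162 9595) (QC.rd 1360 7711)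
    (QC.rd 4 5) (QC.rd 4 5) (QC.rd 271 100) (QC.rd 93 1538) (QC.rd 3 85) QC.r0 QC.r0 (QC.rd 5347 20000) (QC.rd 7 2)
    (by decide +kernel) h1 h2 h3

theorem b0_0_1_0_0 {u s t : ℝ} (h1 : (5347 / 20000 : ℝ) ≤ u + 2) (h2 : (5347 / 20000 : ℝ) ≤ s + t + 2) (h3 : t + 1 ≤ (7 / 2 : ℝ)) :
    0 < E2 7 (162 / 9595 : ℝ) (0 : ℝ) ((4 / 5 : ℝ) * (4 / 5 : ℝ)) u s t -
      (0 : ℝ) * Act 7 (93 / 1538 : ℝ) (3 / 85 : ℝ) (0 : ℝ) (0 : ℝ) ((1 - (4 / 5 : ℝ)) * (1 - (4 / 5 : ℝ))) u s t :=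
  QC.chkB 0 0 0 (QC.rd 162 9595) QC.r0
    (QC.rd 4 5) (QC.rd 4 5) QC.r0 (QC.rd 93 1538) (QC.rd 3 85) QC.r0 QC.r0 (QC.rd 5347 20000) (QC.rd 7 2)
    (by decide +kernel) h1 h2 h3

theorem b0_0_1_0_1 {u s t : ℝ} (h1 : (5347 / 20000 : ℝ) ≤ u + 2) (h2 : (5347 / 20000 : ℝ) ≤ s + t + 2) (h3 : t + 1 ≤ (7 / 2 : ℝ)) :
    0 < E2 7 (162 / 9595 : ℝ) (0 : ℝ) ((4 / 5 : ℝ) * (1 : ℝ)) u s t -
      (0 : ℝ) * Act 7 (93 / 1538 : ℝ) (3 / 85 : ℝ) (0 : ℝ) (0 : ℝ) ((1 - (4 / 5 : ℝ)) * (1 - (1 : ℝ))) u s t :=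
  QC.chkB 0 0 0 (QC.rd 162 9595) QC.r0
    (QC.rd 4 5) QC.r1 QC.r0 (QC.rd 93 1538) (QC.rd 3 85) QC.r0 QC.r0 (QC.rd 5347 20000) (QC.rd 7 2)
    (by decide +kernel) h1 h2 h3

theorem b0_0_1_0_2 {u s t : ℝ} (h1 : (5347 / 20000 : ℝ) ≤ u + 2) (h2 : (5347 / 20000 : ℝ) ≤ s + t + 2) (h3 : t + 1 ≤ (7 / 2 : ℝ)) :
    0 < E2 7 (162 / 9595 : ℝ) (0 : ℝ) ((1 : ℝ) * (1 : ℝ)) u s t -
      (0 : ℝ) * Act 7 (93 / 1538 : ℝ) (3 / 85 : ℝ) (0 : ℝ) (0 : ℝ) ((1 - (1 : ℝ)) * (1 - (1 : ℝ))) u s t :=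
  QC.chkB (1 / 100) 0 0 (QC.rd 162 9595) QC.r0
    QC.r1 QC.r1 QC.r0 (QC.rd 93 1538) (QC.rd 3 85) QC.r0 QC.r0 (QC.rd 5347 20000) (QC.rd 7 2)
    (by decide +kernel) h1 h2 h3

theorem b0_0_1_1_0 {u s t : ℝ} (h1 : (5347 / 20000 : ℝ) ≤ u + 2) (h2 : (5347 / 20000 : ℝ) ≤ s + t + 2) (h3 : t + 1 ≤ (7 / 2 : ℝ)) :
    0 < E2 7 (162 / 9595 : ℝ) (1360 / 7711 : ℝ) ((4 / 5 : ℝ) * (4 / 5 : ℝ)) u s t -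
      (10 : ℝ) * Act 7 (93 / 1538 : ℝ) (3 / 85 : ℝ) (0 : ℝ) (0 : ℝ) ((1 - (4 / 5 : ℝ)) * (1 - (4 / 5 : ℝ))) u s t :=
  QC.chkB 0 0 0 (QC.rd 162 9595) (QC.rd 1360 7711)
    (QC.rd 4 5) (QC.rd 4 5) (QC.rn 10) (QC.rd 93 1538) (QC.rd 3 85) QC.r0 QC.r0 (QC.rd 5347 20000) (QC.rd 7 2)
    (by decide +kernel) h1 h2 h3

theorem b0_0_1_1_1 {u s t : ℝ} (h1 : (5347 / 20000 : ℝ) ≤ u + 2) (h2 : (5347 / 20000 : ℝ) ≤ s + t + 2) (h3 : t + 1 ≤ (7 / 2 : ℝ)) :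
    0 < E2 7 (162 / 9595 : ℝ) (1360 / 7711 : ℝ) ((4 / 5 : ℝ) * (1 : ℝ)) u s t -
      (10 : ℝ) * Act 7 (93 / 1538 : ℝ) (3 / 85 : ℝ) (0 : ℝ) (0 : ℝ) ((1 - (4 / 5 : ℝ)) * (1 - (1 : ℝ))) u s t :=
  QC.chkB 0 0 0 (QC.rd 162 9595) (QC.rd 1360 7711)
    (QC.rd 4 5) QC.r1 (QC.rn 10) (QC.rd 93 1538) (QC.rd 3 85) QC.r0 QC.r0 (QC.rd 5347 20000) (QC.rd 7 2)
    (by decide +kernel) h1 h2 h3

theorem b0_0_1_1_2 {u s t : ℝ} (h1 : (5347 / 20000 : ℝ) ≤ u + 2) (h2 : (5347 / 20000 : ℝ) ≤ s + t + 2) (h3 : t + 1 ≤ (7 / 2 : ℝ)) :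
    0 < E2 7 (162 / 9595 : ℝ) (1360 / 7711 : ℝ) ((1 : ℝ) * (1 : ℝ)) u s t -
      (10 : ℝ) * Act 7 (93 / 1538 : ℝ) (3 / 85 : ℝ) (0 : ℝ) (0 : ℝ) ((1 - (1 : ℝ)) * (1 - (1 : ℝ))) u s t :=
  QC.chkB (38 / 25) (52 / 131087) 0 (QC.rd 162 9595) (QC.rd 1360 7711)
    QC.r1 QC.r1 (QC.rn 10) (QC.rd 93 1538) (QC.rd 3 85) QC.r0 QC.r0 (QC.rd 5347 20000) (QC.rd 7 2)
    (by decide +kernel) h1 h2 h3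

theorem b0_1_0_0_0 {u s t : ℝ} (h1 : (5347 / 20000 : ℝ) ≤ u + 2) (h2 : (5347 / 20000 : ℝ) ≤ s + t + 2) (h3 : t + 1 ≤ (7 / 2 : ℝ)) :
    0 < E2 7 (162 / 9595 : ℝ) (0 : ℝ) ((0 : ℝ) * (0 : ℝ)) u s t -
      (971 / 1000 : ℝ) * Act 7 (3717127453 / 91448743298 : ℝ) (15041 / 655435 : ℝ) (0 : ℝ) (1156 / 38555 : ℝ) ((1 - (0 : ℝ)) * (1 - (0 : ℝ))) u s t :=
  QC.chkB 0 0 0 (QC.rd 162 9595) QC.r0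
    QC.r0 QC.r0 (QC.rd 971 1000) (QC.rd 3717127453 91448743298) (QC.rd 15041 655435) QC.r0 (QC.rd 1156 38555) (QC.rd 5347 20000) (QC.rd 7 2)
    (by decide +kernel) h1 h2 h3

theorem b0_1_0_0_1 {u s t : ℝ} (h1 : (5347 / 20000 : ℝ) ≤ u + 2) (h2 : (5347 / 20000 : ℝ) ≤ s + t + 2) (h3 : t + 1 ≤ (7 / 2 : ℝ)) :
    0 < E2 7 (162 / 9595 : ℝ) (0 : ℝ) ((0 : ℝ) * (4 / 5 : ℝ)) u s t -
      (971 / 1000 : ℝ) * Act 7 (3717127453 / 91448743298 : ℝ) (15041 / 655435 : ℝ) (0 : ℝ) (1156 / 38555 : ℝ) ((1 - (0 : ℝ)) * (1 - (4 / 5 : ℝ))) u s t :=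
  QC.chkB 0 0 0 (QC.rd 162 9595) QC.r0
    QC.r0 (QC.rd 4 5) (QC.rd 971 1000) (QC.rd 3717127453 91448743298) (QC.rd 15041 655435) QC.r0 (QC.rd 1156 38555) (QC.rd 5347 20000) (QC.rd 7 2)
    (by decide +kernel) h1 h2 h3

theorem b0_1_0_0_2 {u s t : ℝ} (h1 : (5347 / 20000 : ℝ) ≤ u + 2) (h2 : (5347 / 20000 : ℝ) ≤ s + t + 2) (h3 : t + 1 ≤ (7 / 2 : ℝ)) :
    0 < E2 7 (162 / 9595 : ℝ) (0 : ℝ) ((4 / 5 : ℝ) * (4 / 5 : ℝ)) u s t -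
      (971 / 1000 : ℝ) * Act 7 (3717127453 / 91448743298 : ℝ) (15041 / 655435 : ℝ) (0 : ℝ) (1156 / 38555 : ℝ) ((1 - (4 / 5 : ℝ)) * (1 - (4 / 5 : ℝ))) u s t :=
  QC.chkB 0 0 0 (QC.rd 162 9595) QC.r0
    (QC.rd 4 5) (QC.rd 4 5) (QC.rd 971 1000) (QC.rd 3717127453 91448743298) (QC.rd 15041 655435) QC.r0 (QC.rd 1156 38555) (QC.rd 5347 20000) (QC.rd 7 2)
    (by decide +kernel) h1 h2 h3

theorem b0_1_0_1_0 {u s t : ℝ} (h1 : (5347 / 20000 : ℝ) ≤ u + 2) (h2 : (5347 / 20000 : ℝ) ≤ s + t + 2) (h3 : t + 1 ≤ (7 / 2 : ℝ)) :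
    0 < E2 7 (162 / 9595 : ℝ) (1360 / 7711 : ℝ) ((0 : ℝ) * (0 : ℝ)) u s t -
      (63 / 25 : ℝ) * Act 7 (3717127453 / 91448743298 : ℝ) (15041 / 655435 : ℝ) (0 : ℝ) (1156 / 38555 : ℝ) ((1 - (0 : ℝ)) * (1 - (0 : ℝ))) u s t :=
  QC.chkB 0 0 0 (QC.rd 162 9595) (QC.rd 1360 7711)
    QC.r0 QC.r0 (QC.rd 63 25) (QC.rd 3717127453 91448743298) (QC.rd 15041 655435) QC.r0 (QC.rd 1156 38555) (QC.rd 5347 20000) (QC.rd 7 2)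
    (by decide +kernel) h1 h2 h3

theorem b0_1_0_1_1 {u s t : ℝ} (h1 : (5347 / 20000 : ℝ) ≤ u + 2) (h2 : (5347 / 20000 : ℝ) ≤ s + t + 2) (h3 : t + 1 ≤ (7 / 2 : ℝ)) :
    0 < E2 7 (162 / 9595 : ℝ) (1360 / 7711 : ℝ) ((0 : ℝ) * (4 / 5 : ℝ)) u s t -
      (63 / 25 : ℝ) * Act 7 (3717127453 / 91448743298 : ℝ) (15041 / 655435 : ℝ) (0 : ℝ) (1156 / 38555 : ℝ) ((1 - (0 : ℝ)) * (1 - (4 / 5 : ℝ))) u s t :=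
  QC.chkB 0 0 0 (QC.rd 162 9595) (QC.rd 1360 7711)
    QC.r0 (QC.rd 4 5) (QC.rd 63 25) (QC.rd 3717127453 91448743298) (QC.rd 15041 655435) QC.r0 (QC.rd 1156 38555) (QC.rd 5347 20000) (QC.rd 7 2)
    (by decide +kernel) h1 h2 h3

theorem b0_1_0_1_2 {u s t : ℝ} (h1 : (5347 / 20000 : ℝ) ≤ u + 2) (h2 : (5347 / 20000 : ℝ) ≤ s + t + 2) (h3 : t + 1 ≤ (7 / 2 : ℝ)) :
    0 < E2 7 (162 / 9595 : ℝ) (1360 / 7711 : ℝ) ((4 / 5 : ℝ) * (4 / 5 : ℝ)) u s t -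
      (63 / 25 : ℝ) * Act 7 (3717127453 / 91448743298 : ℝ) (15041 / 655435 : ℝ) (0 : ℝ) (1156 / 38555 : ℝ) ((1 - (4 / 5 : ℝ)) * (1 - (4 / 5 : ℝ))) u s t :=
  QC.chkB 0 0 0 (QC.rd 162 9595) (QC.rd 1360 7711)
    (QC.rd 4 5) (QC.rd 4 5) (QC.rd 63 25) (QC.rd 3717127453 91448743298) (QC.rd 15041 655435) QC.r0 (QC.rd 1156 38555) (QC.rd 5347 20000) (QC.rd 7 2)
    (by decide +kernel) h1 h2 h3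

theorem b0_1_1_0_0 {u s t : ℝ} (h1 : (5347 / 20000 : ℝ) ≤ u + 2) (h2 : (5347 / 20000 : ℝ) ≤ s + t + 2) (h3 : t + 1 ≤ (7 / 2 : ℝ)) :
    0 < E2 7 (162 / 9595 : ℝ) (0 : ℝ) ((4 / 5 : ℝ) * (4 / 5 : ℝ)) u s t -
      (283 / 5 : ℝ) * Act 7 (3717127453 / 91448743298 : ℝ) (15041 / 655435 : ℝ) (0 : ℝ) (1156 / 38555 : ℝ) ((1 - (4 / 5 : ℝ)) * (1 - (4 / 5 : ℝ))) u s t :=
  QC.chkB 0 1 0 (QC.rd 162 9595) QC.r0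
    (QC.rd 4 5) (QC.rd 4 5) (QC.rd 283 5) (QC.rd 3717127453 91448743298) (QC.rd 15041 655435) QC.r0 (QC.rd 1156 38555) (QC.rd 5347 20000) (QC.rd 7 2)
    (by decide +kernel) h1 h2 h3

theorem b0_1_1_0_1 {u s t : ℝ} (h1 : (5347 / 20000 : ℝ) ≤ u + 2) (h2 : (5347 / 20000 : ℝ) ≤ s + t + 2) (h3 : t + 1 ≤ (7 / 2 : ℝ)) :
    0 < E2 7 (162 / 9595 : ℝ) (0 : ℝ) ((4 / 5 : ℝ) * (1 : ℝ)) u s t -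
      (283 / 5 : ℝ) * Act 7 (3717127453 / 91448743298 : ℝ) (15041 / 655435 : ℝ) (0 : ℝ) (1156 / 38555 : ℝ) ((1 - (4 / 5 : ℝ)) * (1 - (1 : ℝ))) u s t :=
  QC.chkB 0 2 0 (QC.rd 162 9595) QC.r0
    (QC.rd 4 5) QC.r1 (QC.rd 283 5) (QC.rd 3717127453 91448743298) (QC.rd 15041 655435) QC.r0 (QC.rd 1156 38555) (QC.rd 5347 20000) (QC.rd 7 2)
    (by decide +kernel) h1 h2 h3

theorem b0_1_1_0_2 {u s t : ℝ} (h1 : (5347 / 20000 : ℝ) ≤ u + 2) (h2 : (5347 / 20000 : ℝ) ≤ s + t + 2) (h3 : t + 1 ≤ (7 / 2 : ℝ)) :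
    0 < E2 7 (162 / 9595 : ℝ) (0 : ℝ) ((1 : ℝ) * (1 : ℝ)) u s t -
      (283 / 5 : ℝ) * Act 7 (3717127453 / 91448743298 : ℝ) (15041 / 655435 : ℝ) (0 : ℝ) (1156 / 38555 : ℝ) ((1 - (1 : ℝ)) * (1 - (1 : ℝ))) u s t :=
  QC.chkB (201 / 100) (8513206 / 3277175) 0 (QC.rd 162 9595) QC.r0
    QC.r1 QC.r1 (QC.rd 283 5) (QC.rd 3717127453 91448743298) (QC.rd 15041 655435) QC.r0 (QC.rd 1156 38555) (QC.rd 5347 20000) (QC.rd 7 2)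
    (by decide +kernel) h1 h2 h3

theorem b0_1_1_1_0 {u s t : ℝ} (h1 : (5347 / 20000 : ℝ) ≤ u + 2) (h2 : (5347 / 20000 : ℝ) ≤ s + t + 2) (h3 : t + 1 ≤ (7 / 2 : ℝ)) :
    0 < E2 7 (162 / 9595 : ℝ) (1360 / 7711 : ℝ) ((4 / 5 : ℝ) * (4 / 5 : ℝ)) u s t -
      (66 : ℝ) * Act 7 (3717127453 / 91448743298 : ℝ) (15041 / 655435 : ℝ) (0 : ℝ) (1156 / 38555 : ℝ) ((1 - (4 / 5 : ℝ)) * (1 - (4 / 5 : ℝ))) u s t :=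
  QC.chkB 2 0 0 (QC.rd 162 9595) (QC.rd 1360 7711)
    (QC.rd 4 5) (QC.rd 4 5) (QC.rn 66) (QC.rd 3717127453 91448743298) (QC.rd 15041 655435) QC.r0 (QC.rd 1156 38555) (QC.rd 5347 20000) (QC.rd 7 2)
    (by decide +kernel) h1 h2 h3

theorem b0_1_1_1_1 {u s t : ℝ} (h1 : (5347 / 20000 : ℝ) ≤ u + 2) (h2 : (5347 / 20000 : ℝ) ≤ s + t + 2) (h3 : t + 1 ≤ (7 / 2 : ℝ)) :
    0 < E2 7 (162 / 9595 : ℝ) (1360 / 7711 : ℝ) ((4 / 5 : ℝ) * (1 : ℝ)) u s t -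
      (66 : ℝ) * Act 7 (3717127453 / 91448743298 : ℝ) (15041 / 655435 : ℝ) (0 : ℝ) (1156 / 38555 : ℝ) ((1 - (4 / 5 : ℝ)) * (1 - (1 : ℝ))) u s t :=
  QC.chkB 4 2 0 (QC.rd 162 9595) (QC.rd 1360 7711)
    (QC.rd 4 5) QC.r1 (QC.rn 66) (QC.rd 3717127453 91448743298) (QC.rd 15041 655435) QC.r0 (QC.rd 1156 38555) (QC.rd 5347 20000) (QC.rd 7 2)
    (by decide +kernel) h1 h2 h3

theorem b0_1_1_1_2 {u s t : ℝ} (h1 : (5347 / 20000 : ℝ) ≤ u + 2) (h2 : (5347 / 20000 : ℝ) ≤ s + t + 2) (h3 : t + 1 ≤ (7 / 2 : ℝ)) :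
    0 < E2 7 (162 / 9595 : ℝ) (1360 / 7711 : ℝ) ((1 : ℝ) * (1 : ℝ)) u s t -
      (66 : ℝ) * Act 7 (3717127453 / 91448743298 : ℝ) (15041 / 655435 : ℝ) (0 : ℝ) (1156 / 38555 : ℝ) ((1 - (1 : ℝ)) * (1 - (1 : ℝ))) u s t :=
  QC.chkB (307 / 100) (1523012 / 655435) 0 (QC.rd 162 9595) (QC.rd 1360 7711)
    QC.r1 QC.r1 (QC.rn 66) (QC.rd 3717127453 91448743298) (QC.rd 15041 655435) QC.r0 (QC.rd 1156 38555) (QC.rd 5347 20000) (QC.rd 7 2)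
    (by decide +kernel) h1 h2 h3

theorem pathB0 {α la : ℝ} {u s t : ℝ} (h1 : (5347 / 20000 : ℝ) ≤ u + 2) (h2 : (5347 / 20000 : ℝ) ≤ s + t + 2) (h3 : t + 1 ≤ (7 / 2 : ℝ))
    (α0 : (0 : ℝ) ≤ α) (α1 : α ≤ (1360 / 7711 : ℝ)) (la0 : (0 : ℝ) ≤ la) (la1 : la ≤ (1 : ℝ))
    (h4 : 0 ≤ Act 7 (93 / 1538 : ℝ) (3 / 85 : ℝ) (0 : ℝ) (0 : ℝ) ((1 - la) ^ 2) u s t ∨
      0 ≤ Act 7 (3717127453 / 91448743298 : ℝ) (15041 / 655435 : ℝ) (0 : ℝ) (1156 / 38555 : ℝ) ((1 - la) ^ 2) u s t) :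
    0 < E2 7 (162 / 9595 : ℝ) α (la ^ 2) u s t := by
  rcases h4 with h4 | h4
  · rcases le_total la (4 / 5 : ℝ) with lah0 | lal0
    · exact cellB α0 α1 (by norm_num) la0 lah0 h4 (by norm_num) (by norm_num)
        (b0_0_0_0_0 h1 h2 h3) (b0_0_0_0_1 h1 h2 h3) (b0_0_0_0_2 h1 h2 h3) (b0_0_0_1_0 h1 h2 h3) (b0_0_0_1_1 h1 h2 h3) (b0_0_0_1_2 h1 h2 h3)
    exact cellB α0 α1 (by norm_num) lal0 la1 h4 (by norm_num) (by norm_num)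
      (b0_0_1_0_0 h1 h2 h3) (b0_0_1_0_1 h1 h2 h3) (b0_0_1_0_2 h1 h2 h3) (b0_0_1_1_0 h1 h2 h3) (b0_0_1_1_1 h1 h2 h3) (b0_0_1_1_2 h1 h2 h3)
  · rcases le_total la (4 / 5 : ℝ) with lah0 | lal0
    · exact cellB α0 α1 (by norm_num) la0 lah0 h4 (by norm_num) (by norm_num)
        (b0_1_0_0_0 h1 h2 h3) (b0_1_0_0_1 h1 h2 h3) (b0_1_0_0_2 h1 h2 h3) (b0_1_0_1_0 h1 h2 h3) (b0_1_0_1_1 h1 h2 h3) (b0_1_0_1_2 h1 h2 h3)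
    exact cellB α0 α1 (by norm_num) lal0 la1 h4 (by norm_num) (by norm_num)
      (b0_1_1_0_0 h1 h2 h3) (b0_1_1_0_1 h1 h2 h3) (b0_1_1_0_2 h1 h2 h3) (b0_1_1_1_0 h1 h2 h3) (b0_1_1_1_1 h1 h2 h3) (b0_1_1_1_2 h1 h2 h3)

theorem b1_0_0_0_0 {u s t : ℝ} (h1 : (12349 / 50000 : ℝ) ≤ u + 2) (h2 : (12349 / 50000 : ℝ) ≤ s + t + 2) (h3 : t + 1 ≤ (7 / 2 : ℝ)) :
    0 < E2 7 (162 / 9595 : ℝ) (1360 / 7711 : ℝ) ((0 : ℝ) * (0 : ℝ)) u s t -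
      (13 / 5 : ℝ) * Act 7 (3717127453 / 91448743298 : ℝ) (15041 / 655435 : ℝ) (1360 / 7711 : ℝ) (1156 / 38555 : ℝ) ((1 - (0 : ℝ)) * (1 - (0 : ℝ))) u s t :=
  QC.chkB 0 0 0 (QC.rd 162 9595) (QC.rd 1360 7711)
    QC.r0 QC.r0 (QC.rd 13 5) (QC.rd 3717127453 91448743298) (QC.rd 15041 655435) (QC.rd 1360 7711) (QC.rd 1156 38555) (QC.rd 12349 50000) (QC.rd 7 2)
    (by decide +kernel) h1 h2 h3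

theorem b1_0_0_0_1 {u s t : ℝ} (h1 : (12349 / 50000 : ℝ) ≤ u + 2) (h2 : (12349 / 50000 : ℝ) ≤ s + t + 2) (h3 : t + 1 ≤ (7 / 2 : ℝ)) :
    0 < E2 7 (162 / 9595 : ℝ) (1360 / 7711 : ℝ) ((0 : ℝ) * (4 / 5 : ℝ)) u s t -
      (13 / 5 : ℝ) * Act 7 (3717127453 / 91448743298 : ℝ) (15041 / 655435 : ℝ) (1360 / 7711 : ℝ) (1156 / 38555 : ℝ) ((1 - (0 : ℝ)) * (1 - (4 / 5 : ℝ))) u s t :=
  QC.chkB 0 0 0 (QC.rd 162 9595) (QC.rd 1360 7711)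
    QC.r0 (QC.rd 4 5) (QC.rd 13 5) (QC.rd 3717127453 91448743298) (QC.rd 15041 655435) (QC.rd 1360 7711) (QC.rd 1156 38555) (QC.rd 12349 50000) (QC.rd 7 2)
    (by decide +kernel) h1 h2 h3

theorem b1_0_0_0_2 {u s t : ℝ} (h1 : (12349 / 50000 : ℝ) ≤ u + 2) (h2 : (12349 / 50000 : ℝ) ≤ s + t + 2) (h3 : t + 1 ≤ (7 / 2 : ℝ)) :
    0 < E2 7 (162 / 9595 : ℝ) (1360 / 7711 : ℝ) ((4 / 5 : ℝ) * (4 / 5 : ℝ)) u s t -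
      (13 / 5 : ℝ) * Act 7 (3717127453 / 91448743298 : ℝ) (15041 / 655435 : ℝ) (1360 / 7711 : ℝ) (1156 / 38555 : ℝ) ((1 - (4 / 5 : ℝ)) * (1 - (4 / 5 : ℝ))) u s t :=
  QC.chkB 0 0 0 (QC.rd 162 9595) (QC.rd 1360 7711)
    (QC.rd 4 5) (QC.rd 4 5) (QC.rd 13 5) (QC.rd 3717127453 91448743298) (QC.rd 15041 655435) (QC.rd 1360 7711) (QC.rd 1156 38555) (QC.rd 12349 50000) (QC.rd 7 2)
    (by decide +kernel) h1 h2 h3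

theorem b1_0_0_1_0 {u s t : ℝ} (h1 : (12349 / 50000 : ℝ) ≤ u + 2) (h2 : (12349 / 50000 : ℝ) ≤ s + t + 2) (h3 : t + 1 ≤ (7 / 2 : ℝ)) :
    0 < E2 7 (162 / 9595 : ℝ) (360 / 1919 : ℝ) ((0 : ℝ) * (0 : ℝ)) u s t -
      (53 / 20 : ℝ) * Act 7 (3717127453 / 91448743298 : ℝ) (15041 / 655435 : ℝ) (1360 / 7711 : ℝ) (1156 / 38555 : ℝ) ((1 - (0 : ℝ)) * (1 - (0 : ℝ))) u s t :=
  QC.chkB 0 0 0 (QC.rd 162 9595) (QC.rd 360 1919)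
    QC.r0 QC.r0 (QC.rd 53 20) (QC.rd 3717127453 91448743298) (QC.rd 15041 655435) (QC.rd 1360 7711) (QC.rd 1156 38555) (QC.rd 12349 50000) (QC.rd 7 2)
    (by decide +kernel) h1 h2 h3

theorem b1_0_0_1_1 {u s t : ℝ} (h1 : (12349 / 50000 : ℝ) ≤ u + 2) (h2 : (12349 / 50000 : ℝ) ≤ s + t + 2) (h3 : t + 1 ≤ (7 / 2 : ℝ)) :
    0 < E2 7 (162 / 9595 : ℝ) (360 / 1919 : ℝ) ((0 : ℝ) * (4 / 5 : ℝ)) u s t -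
      (53 / 20 : ℝ) * Act 7 (3717127453 / 91448743298 : ℝ) (15041 / 655435 : ℝ) (1360 / 7711 : ℝ) (1156 / 38555 : ℝ) ((1 - (0 : ℝ)) * (1 - (4 / 5 : ℝ))) u s t :=
  QC.chkB 0 0 0 (QC.rd 162 9595) (QC.rd 360 1919)
    QC.r0 (QC.rd 4 5) (QC.rd 53 20) (QC.rd 3717127453 91448743298) (QC.rd 15041 655435) (QC.rd 1360 7711) (QC.rd 1156 38555) (QC.rd 12349 50000) (QC.rd 7 2)
    (by decide +kernel) h1 h2 h3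

theorem b1_0_0_1_2 {u s t : ℝ} (h1 : (12349 / 50000 : ℝ) ≤ u + 2) (h2 : (12349 / 50000 : ℝ) ≤ s + t + 2) (h3 : t + 1 ≤ (7 / 2 : ℝ)) :
    0 < E2 7 (162 / 9595 : ℝ) (360 / 1919 : ℝ) ((4 / 5 : ℝ) * (4 / 5 : ℝ)) u s t -
      (53 / 20 : ℝ) * Act 7 (3717127453 / 91448743298 : ℝ) (15041 / 655435 : ℝ) (1360 / 7711 : ℝ) (1156 / 38555 : ℝ) ((1 - (4 / 5 : ℝ)) * (1 - (4 / 5 : ℝ))) u s t :=
  QC.chkB 1 0 0 (QC.rd 162 9595) (QC.rd 360 1919)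
    (QC.rd 4 5) (QC.rd 4 5) (QC.rd 53 20) (QC.rd 3717127453 91448743298) (QC.rd 15041 655435) (QC.rd 1360 7711) (QC.rd 1156 38555) (QC.rd 12349 50000) (QC.rd 7 2)
    (by decide +kernel) h1 h2 h3

theorem b1_0_1_0_0 {u s t : ℝ} (h1 : (12349 / 50000 : ℝ) ≤ u + 2) (h2 : (12349 / 50000 : ℝ) ≤ s + t + 2) (h3 : t + 1 ≤ (7 / 2 : ℝ)) :
    0 < E2 7 (162 / 9595 : ℝ) (1360 / 7711 : ℝ) ((4 / 5 : ℝ) * (4 / 5 : ℝ)) u s t -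
      (68 : ℝ) * Act 7 (3717127453 / 91448743298 : ℝ) (15041 / 655435 : ℝ) (1360 / 7711 : ℝ) (1156 / 38555 : ℝ) ((1 - (4 / 5 : ℝ)) * (1 - (4 / 5 : ℝ))) u s t :=
  QC.chkB 3 (1 / 2) 0 (QC.rd 162 9595) (QC.rd 1360 7711)
    (QC.rd 4 5) (QC.rd 4 5) (QC.rn 68) (QC.rd 3717127453 91448743298) (QC.rd 15041 655435) (QC.rd 1360 7711) (QC.rd 1156 38555) (QC.rd 12349 50000) (QC.rd 7 2)
    (by decide +kernel) h1 h2 h3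

theorem b1_0_1_0_1 {u s t : ℝ} (h1 : (12349 / 50000 : ℝ) ≤ u + 2) (h2 : (12349 / 50000 : ℝ) ≤ s + t + 2) (h3 : t + 1 ≤ (7 / 2 : ℝ)) :
    0 < E2 7 (162 / 9595 : ℝ) (1360 / 7711 : ℝ) ((4 / 5 : ℝ) * (1 : ℝ)) u s t -
      (68 : ℝ) * Act 7 (3717127453 / 91448743298 : ℝ) (15041 / 655435 : ℝ) (1360 / 7711 : ℝ) (1156 / 38555 : ℝ) ((1 - (4 / 5 : ℝ)) * (1 - (1 : ℝ))) u s t :=
  QC.chkB 4 2 0 (QC.rd 162 9595) (QC.rd 1360 7711)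
    (QC.rd 4 5) QC.r1 (QC.rn 68) (QC.rd 3717127453 91448743298) (QC.rd 15041 655435) (QC.rd 1360 7711) (QC.rd 1156 38555) (QC.rd 12349 50000) (QC.rd 7 2)
    (by decide +kernel) h1 h2 h3

theorem b1_0_1_0_2 {u s t : ℝ} (h1 : (12349 / 50000 : ℝ) ≤ u + 2) (h2 : (12349 / 50000 : ℝ) ≤ s + t + 2) (h3 : t + 1 ≤ (7 / 2 : ℝ)) :
    0 < E2 7 (162 / 9595 : ℝ) (1360 / 7711 : ℝ) ((1 : ℝ) * (1 : ℝ)) u s t -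
      (68 : ℝ) * Act 7 (3717127453 / 91448743298 : ℝ) (15041 / 655435 : ℝ) (1360 / 7711 : ℝ) (1156 / 38555 : ℝ) ((1 - (1 : ℝ)) * (1 - (1 : ℝ))) u s t :=
  QC.chkB (69 / 20) (93128 / 38555) 0 (QC.rd 162 9595) (QC.rd 1360 7711)
    QC.r1 QC.r1 (QC.rn 68) (QC.rd 3717127453 91448743298) (QC.rd 15041 655435) (QC.rd 1360 7711) (QC.rd 1156 38555) (QC.rd 12349 50000) (QC.rd 7 2)
    (by decide +kernel) h1 h2 h3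

theorem b1_0_1_1_0 {u s t : ℝ} (h1 : (12349 / 50000 : ℝ) ≤ u + 2) (h2 : (12349 / 50000 : ℝ) ≤ s + t + 2) (h3 : t + 1 ≤ (7 / 2 : ℝ)) :
    0 < E2 7 (162 / 9595 : ℝ) (360 / 1919 : ℝ) ((4 / 5 : ℝ) * (4 / 5 : ℝ)) u s t -
      (343 / 5 : ℝ) * Act 7 (3717127453 / 91448743298 : ℝ) (15041 / 655435 : ℝ) (1360 / 7711 : ℝ) (1156 / 38555 : ℝ) ((1 - (4 / 5 : ℝ)) * (1 - (4 / 5 : ℝ))) u s t :=
  QC.chkB (16 / 5) (2 / 5) 0 (QC.rd 162 9595) (QC.rd 360 1919)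
    (QC.rd 4 5) (QC.rd 4 5) (QC.rd 343 5) (QC.rd 3717127453 91448743298) (QC.rd 15041 655435) (QC.rd 1360 7711) (QC.rd 1156 38555) (QC.rd 12349 50000) (QC.rd 7 2)
    (by decide +kernel) h1 h2 h3

theorem b1_0_1_1_1 {u s t : ℝ} (h1 : (12349 / 50000 : ℝ) ≤ u + 2) (h2 : (12349 / 50000 : ℝ) ≤ s + t + 2) (h3 : t + 1 ≤ (7 / 2 : ℝ)) :
    0 < E2 7 (162 / 9595 : ℝ) (360 / 1919 : ℝ) ((4 / 5 : ℝ) * (1 : ℝ)) u s t -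
      (343 / 5 : ℝ) * Act 7 (3717127453 / 91448743298 : ℝ) (15041 / 655435 : ℝ) (1360 / 7711 : ℝ) (1156 / 38555 : ℝ) ((1 - (4 / 5 : ℝ)) * (1 - (1 : ℝ))) u s t :=
  QC.chkB 4 2 0 (QC.rd 162 9595) (QC.rd 360 1919)
    (QC.rd 4 5) QC.r1 (QC.rd 343 5) (QC.rd 3717127453 91448743298) (QC.rd 15041 655435) (QC.rd 1360 7711) (QC.rd 1156 38555) (QC.rd 12349 50000) (QC.rd 7 2)
    (by decide +kernel) h1 h2 h3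

theorem b1_0_1_1_2 {u s t : ℝ} (h1 : (12349 / 50000 : ℝ) ≤ u + 2) (h2 : (12349 / 50000 : ℝ) ≤ s + t + 2) (h3 : t + 1 ≤ (7 / 2 : ℝ)) :
    0 < E2 7 (162 / 9595 : ℝ) (360 / 1919 : ℝ) ((1 : ℝ) * (1 : ℝ)) u s t -
      (343 / 5 : ℝ) * Act 7 (3717127453 / 91448743298 : ℝ) (15041 / 655435 : ℝ) (1360 / 7711 : ℝ) (1156 / 38555 : ℝ) ((1 - (1 : ℝ)) * (1 - (1 : ℝ))) u s t :=
  QC.chkB (88 / 25) (15081351794 / 6288898825) 0 (QC.rd 162 9595) (QC.rd 360 1919)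
    QC.r1 QC.r1 (QC.rd 343 5) (QC.rd 3717127453 91448743298) (QC.rd 15041 655435) (QC.rd 1360 7711) (QC.rd 1156 38555) (QC.rd 12349 50000) (QC.rd 7 2)
    (by decide +kernel) h1 h2 h3

theorem b1_1_0_0_0 {u s t : ℝ} (h1 : (12349 / 50000 : ℝ) ≤ u + 2) (h2 : (12349 / 50000 : ℝ) ≤ s + t + 2) (h3 : t + 1 ≤ (7 / 2 : ℝ)) :
    0 < E2 7 (162 / 9595 : ℝ) (1360 / 7711 : ℝ) ((0 : ℝ) * (0 : ℝ)) u s t -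
      (129 / 50 : ℝ) * Act 7 (215470173 / 5663778818 : ℝ) (3489 / 163115 : ℝ) (1360 / 7711 : ℝ) (324 / 9595 : ℝ) ((1 - (0 : ℝ)) * (1 - (0 : ℝ))) u s t :=
  QC.chkB 0 0 0 (QC.rd 162 9595) (QC.rd 1360 7711)
    QC.r0 QC.r0 (QC.rd 129 50) (QC.rd 215470173 5663778818) (QC.rd 3489 163115) (QC.rd 1360 7711) (QC.rd 324 9595) (QC.rd 12349 50000) (QC.rd 7 2)
    (by decide +kernel) h1 h2 h3

theorem b1_1_0_0_1 {u s t : ℝ} (h1 : (12349 / 50000 : ℝ) ≤ u + 2) (h2 : (12349 / 50000 : ℝ) ≤ s + t + 2) (h3 : t + 1 ≤ (7 / 2 : ℝ)) :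
    0 < E2 7 (162 / 9595 : ℝ) (1360 / 7711 : ℝ) ((0 : ℝ) * (4 / 5 : ℝ)) u s t -
      (129 / 50 : ℝ) * Act 7 (215470173 / 5663778818 : ℝ) (3489 / 163115 : ℝ) (1360 / 7711 : ℝ) (324 / 9595 : ℝ) ((1 - (0 : ℝ)) * (1 - (4 / 5 : ℝ))) u s t :=
  QC.chkB 0 0 0 (QC.rd 162 9595) (QC.rd 1360 7711)
    QC.r0 (QC.rd 4 5) (QC.rd 129 50) (QC.rd 215470173 5663778818) (QC.rd 3489 163115) (QC.rd 1360 7711) (QC.rd 324 9595) (QC.rd 12349 50000) (QC.rd 7 2)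
    (by decide +kernel) h1 h2 h3

theorem b1_1_0_0_2 {u s t : ℝ} (h1 : (12349 / 50000 : ℝ) ≤ u + 2) (h2 : (12349 / 50000 : ℝ) ≤ s + t + 2) (h3 : t + 1 ≤ (7 / 2 : ℝ)) :
    0 < E2 7 (162 / 9595 : ℝ) (1360 / 7711 : ℝ) ((4 / 5 : ℝ) * (4 / 5 : ℝ)) u s t -
      (129 / 50 : ℝ) * Act 7 (215470173 / 5663778818 : ℝ) (3489 / 163115 : ℝ) (1360 / 7711 : ℝ) (324 / 9595 : ℝ) ((1 - (4 / 5 : ℝ)) * (1 - (4 / 5 : ℝ))) u s t :=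
  QC.chkB 0 0 0 (QC.rd 162 9595) (QC.rd 1360 7711)
    (QC.rd 4 5) (QC.rd 4 5) (QC.rd 129 50) (QC.rd 215470173 5663778818) (QC.rd 3489 163115) (QC.rd 1360 7711) (QC.rd 324 9595) (QC.rd 12349 50000) (QC.rd 7 2)
    (by decide +kernel) h1 h2 h3

theorem b1_1_0_1_0 {u s t : ℝ} (h1 : (12349 / 50000 : ℝ) ≤ u + 2) (h2 : (12349 / 50000 : ℝ) ≤ s + t + 2) (h3 : t + 1 ≤ (7 / 2 : ℝ)) :
    0 < E2 7 (162 / 9595 : ℝ) (360 / 1919 : ℝ) ((0 : ℝ) * (0 : ℝ)) u s t -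
      (263 / 100 : ℝ) * Act 7 (215470173 / 5663778818 : ℝ) (3489 / 163115 : ℝ) (1360 / 7711 : ℝ) (324 / 9595 : ℝ) ((1 - (0 : ℝ)) * (1 - (0 : ℝ))) u s t :=
  QC.chkB 0 0 0 (QC.rd 162 9595) (QC.rd 360 1919)
    QC.r0 QC.r0 (QC.rd 263 100) (QC.rd 215470173 5663778818) (QC.rd 3489 163115) (QC.rd 1360 7711) (QC.rd 324 9595) (QC.rd 12349 50000) (QC.rd 7 2)
    (by decide +kernel) h1 h2 h3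

theorem b1_1_0_1_1 {u s t : ℝ} (h1 : (12349 / 50000 : ℝ) ≤ u + 2) (h2 : (12349 / 50000 : ℝ) ≤ s + t + 2) (h3 : t + 1 ≤ (7 / 2 : ℝ)) :
    0 < E2 7 (162 / 9595 : ℝ) (360 / 1919 : ℝ) ((0 : ℝ) * (4 / 5 : ℝ)) u s t -
      (263 / 100 : ℝ) * Act 7 (215470173 / 5663778818 : ℝ) (3489 / 163115 : ℝ) (1360 / 7711 : ℝ) (324 / 9595 : ℝ) ((1 - (0 : ℝ)) * (1 - (4 / 5 : ℝ))) u s t :=
  QC.chkB 0 0 0 (QC.rd 162 9595) (QC.rd 360 1919)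
    QC.r0 (QC.rd 4 5) (QC.rd 263 100) (QC.rd 215470173 5663778818) (QC.rd 3489 163115) (QC.rd 1360 7711) (QC.rd 324 9595) (QC.rd 12349 50000) (QC.rd 7 2)
    (by decide +kernel) h1 h2 h3

theorem b1_1_0_1_2 {u s t : ℝ} (h1 : (12349 / 50000 : ℝ) ≤ u + 2) (h2 : (12349 / 50000 : ℝ) ≤ s + t + 2) (h3 : t + 1 ≤ (7 / 2 : ℝ)) :
    0 < E2 7 (162 / 9595 : ℝ) (360 / 1919 : ℝ) ((4 / 5 : ℝ) * (4 / 5 : ℝ)) u s t -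
      (263 / 100 : ℝ) * Act 7 (215470173 / 5663778818 : ℝ) (3489 / 163115 : ℝ) (1360 / 7711 : ℝ) (324 / 9595 : ℝ) ((1 - (4 / 5 : ℝ)) * (1 - (4 / 5 : ℝ))) u s t :=
  QC.chkB 1 0 0 (QC.rd 162 9595) (QC.rd 360 1919)
    (QC.rd 4 5) (QC.rd 4 5) (QC.rd 263 100) (QC.rd 215470173 5663778818) (QC.rd 3489 163115) (QC.rd 1360 7711) (QC.rd 324 9595) (QC.rd 12349 50000) (QC.rd 7 2)
    (by decide +kernel) h1 h2 h3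

theorem b1_1_1_0_0 {u s t : ℝ} (h1 : (12349 / 50000 : ℝ) ≤ u + 2) (h2 : (12349 / 50000 : ℝ) ≤ s + t + 2) (h3 : t + 1 ≤ (7 / 2 : ℝ)) :
    0 < E2 7 (162 / 9595 : ℝ) (1360 / 7711 : ℝ) ((4 / 5 : ℝ) * (4 / 5 : ℝ)) u s t -
      (337 / 5 : ℝ) * Act 7 (215470173 / 5663778818 : ℝ) (3489 / 163115 : ℝ) (1360 / 7711 : ℝ) (324 / 9595 : ℝ) ((1 - (4 / 5 : ℝ)) * (1 - (4 / 5 : ℝ))) u s t :=
  QC.chkB 3 0 0 (QC.rd 162 9595) (QC.rd 1360 7711)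
    (QC.rd 4 5) (QC.rd 4 5) (QC.rd 337 5) (QC.rd 215470173 5663778818) (QC.rd 3489 163115) (QC.rd 1360 7711) (QC.rd 324 9595) (QC.rd 12349 50000) (QC.rd 7 2)
    (by decide +kernel) h1 h2 h3

theorem b1_1_1_0_1 {u s t : ℝ} (h1 : (12349 / 50000 : ℝ) ≤ u + 2) (h2 : (12349 / 50000 : ℝ) ≤ s + t + 2) (h3 : t + 1 ≤ (7 / 2 : ℝ)) :
    0 < E2 7 (162 / 9595 : ℝ) (1360 / 7711 : ℝ) ((4 / 5 : ℝ) * (1 : ℝ)) u s t -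
      (337 / 5 : ℝ) * Act 7 (215470173 / 5663778818 : ℝ) (3489 / 163115 : ℝ) (1360 / 7711 : ℝ) (324 / 9595 : ℝ) ((1 - (4 / 5 : ℝ)) * (1 - (1 : ℝ))) u s t :=
  QC.chkB 4 2 0 (QC.rd 162 9595) (QC.rd 1360 7711)
    (QC.rd 4 5) QC.r1 (QC.rd 337 5) (QC.rd 215470173 5663778818) (QC.rd 3489 163115) (QC.rd 1360 7711) (QC.rd 324 9595) (QC.rd 12349 50000) (QC.rd 7 2)
    (by decide +kernel) h1 h2 h3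

theorem b1_1_1_0_2 {u s t : ℝ} (h1 : (12349 / 50000 : ℝ) ≤ u + 2) (h2 : (12349 / 50000 : ℝ) ≤ s + t + 2) (h3 : t + 1 ≤ (7 / 2 : ℝ)) :
    0 < E2 7 (162 / 9595 : ℝ) (1360 / 7711 : ℝ) ((1 : ℝ) * (1 : ℝ)) u s t -
      (337 / 5 : ℝ) * Act 7 (215470173 / 5663778818 : ℝ) (3489 / 163115 : ℝ) (1360 / 7711 : ℝ) (324 / 9595 : ℝ) ((1 - (1 : ℝ)) * (1 - (1 : ℝ))) u s t :=
  QC.chkB (311 / 100) (13696351646 / 6288898825) 0 (QC.rd 162 9595) (QC.rd 1360 7711)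
    QC.r1 QC.r1 (QC.rd 337 5) (QC.rd 215470173 5663778818) (QC.rd 3489 163115) (QC.rd 1360 7711) (QC.rd 324 9595) (QC.rd 12349 50000) (QC.rd 7 2)
    (by decide +kernel) h1 h2 h3

theorem b1_1_1_1_0 {u s t : ℝ} (h1 : (12349 / 50000 : ℝ) ≤ u + 2) (h2 : (12349 / 50000 : ℝ) ≤ s + t + 2) (h3 : t + 1 ≤ (7 / 2 : ℝ)) :
    0 < E2 7 (162 / 9595 : ℝ) (360 / 1919 : ℝ) ((4 / 5 : ℝ) * (4 / 5 : ℝ)) u s t -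
      (68 : ℝ) * Act 7 (215470173 / 5663778818 : ℝ) (3489 / 163115 : ℝ) (1360 / 7711 : ℝ) (324 / 9595 : ℝ) ((1 - (4 / 5 : ℝ)) * (1 - (4 / 5 : ℝ))) u s t :=
  QC.chkB 3 0 0 (QC.rd 162 9595) (QC.rd 360 1919)
    (QC.rd 4 5) (QC.rd 4 5) (QC.rn 68) (QC.rd 215470173 5663778818) (QC.rd 3489 163115) (QC.rd 1360 7711) (QC.rd 324 9595) (QC.rd 12349 50000) (QC.rd 7 2)
    (by decide +kernel) h1 h2 h3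

theorem b1_1_1_1_1 {u s t : ℝ} (h1 : (12349 / 50000 : ℝ) ≤ u + 2) (h2 : (12349 / 50000 : ℝ) ≤ s + t + 2) (h3 : t + 1 ≤ (7 / 2 : ℝ)) :
    0 < E2 7 (162 / 9595 : ℝ) (360 / 1919 : ℝ) ((4 / 5 : ℝ) * (1 : ℝ)) u s t -
      (68 : ℝ) * Act 7 (215470173 / 5663778818 : ℝ) (3489 / 163115 : ℝ) (1360 / 7711 : ℝ) (324 / 9595 : ℝ) ((1 - (4 / 5 : ℝ)) * (1 - (1 : ℝ))) u s t :=
  QC.chkB 4 2 0 (QC.rd 162 9595) (QC.rd 360 1919)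
    (QC.rd 4 5) QC.r1 (QC.rn 68) (QC.rd 215470173 5663778818) (QC.rd 3489 163115) (QC.rd 1360 7711) (QC.rd 324 9595) (QC.rd 12349 50000) (QC.rd 7 2)
    (by decide +kernel) h1 h2 h3

theorem b1_1_1_1_2 {u s t : ℝ} (h1 : (12349 / 50000 : ℝ) ≤ u + 2) (h2 : (12349 / 50000 : ℝ) ≤ s + t + 2) (h3 : t + 1 ≤ (7 / 2 : ℝ)) :
    0 < E2 7 (162 / 9595 : ℝ) (360 / 1919 : ℝ) ((1 : ℝ) * (1 : ℝ)) u s t -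
      (68 : ℝ) * Act 7 (215470173 / 5663778818 : ℝ) (3489 / 163115 : ℝ) (1360 / 7711 : ℝ) (324 / 9595 : ℝ) ((1 - (1 : ℝ)) * (1 - (1 : ℝ))) u s t :=
  QC.chkB (159 / 50) (20712 / 9595) 0 (QC.rd 162 9595) (QC.rd 360 1919)
    QC.r1 QC.r1 (QC.rn 68) (QC.rd 215470173 5663778818) (QC.rd 3489 163115) (QC.rd 1360 7711) (QC.rd 324 9595) (QC.rd 12349 50000) (QC.rd 7 2)
    (by decide +kernel) h1 h2 h3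

theorem pathB1 {α la : ℝ} {u s t : ℝ} (h1 : (12349 / 50000 : ℝ) ≤ u + 2) (h2 : (12349 / 50000 : ℝ) ≤ s + t + 2) (h3 : t + 1 ≤ (7 / 2 : ℝ))
    (α0 : (1360 / 7711 : ℝ) ≤ α) (α1 : α ≤ (360 / 1919 : ℝ)) (la0 : (0 : ℝ) ≤ la) (la1 : la ≤ (1 : ℝ))
    (h4 : 0 ≤ Act 7 (3717127453 / 91448743298 : ℝ) (15041 / 655435 : ℝ) (1360 / 7711 : ℝ) (1156 / 38555 : ℝ) ((1 - la) ^ 2) u s t ∨
      0 ≤ Act 7 (215470173 / 5663778818 : ℝ) (3489 / 163115 : ℝ) (1360 / 7711 : ℝ) (324 / 9595 : ℝ) ((1 - la) ^ 2) u s t) :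
    0 < E2 7 (162 / 9595 : ℝ) α (la ^ 2) u s t := by
  rcases h4 with h4 | h4
  · rcases le_total la (4 / 5 : ℝ) with lah0 | lal0
    · exact cellB α0 α1 (by norm_num) la0 lah0 h4 (by norm_num) (by norm_num)
        (b1_0_0_0_0 h1 h2 h3) (b1_0_0_0_1 h1 h2 h3) (b1_0_0_0_2 h1 h2 h3) (b1_0_0_1_0 h1 h2 h3) (b1_0_0_1_1 h1 h2 h3) (b1_0_0_1_2 h1 h2 h3)
    exact cellB α0 α1 (by norm_num) lal0 la1 h4 (by norm_num) (by norm_num)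
      (b1_0_1_0_0 h1 h2 h3) (b1_0_1_0_1 h1 h2 h3) (b1_0_1_0_2 h1 h2 h3) (b1_0_1_1_0 h1 h2 h3) (b1_0_1_1_1 h1 h2 h3) (b1_0_1_1_2 h1 h2 h3)
  · rcases le_total la (4 / 5 : ℝ) with lah0 | lal0
    · exact cellB α0 α1 (by norm_num) la0 lah0 h4 (by norm_num) (by norm_num)
        (b1_1_0_0_0 h1 h2 h3) (b1_1_0_0_1 h1 h2 h3) (b1_1_0_0_2 h1 h2 h3) (b1_1_0_1_0 h1 h2 h3) (b1_1_0_1_1 h1 h2 h3) (b1_1_0_1_2 h1 h2 h3)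
    exact cellB α0 α1 (by norm_num) lal0 la1 h4 (by norm_num) (by norm_num)
      (b1_1_1_0_0 h1 h2 h3) (b1_1_1_0_1 h1 h2 h3) (b1_1_1_0_2 h1 h2 h3) (b1_1_1_1_0 h1 h2 h3) (b1_1_1_1_1 h1 h2 h3) (b1_1_1_1_2 h1 h2 h3)

end Pool.Agent.Work.MP_3a9764_gt.C7
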