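import Pool.Agent.Work.MP_3a9764_gt.St2e

/-! Certificates for stage 2 in dimension 8. -/

set_option autoImplicit false
set_option linter.unusedVariables false
set_option linter.unusedSimpArgs false

namespace Pool.Agent.Work.MP_3a9764_gt.C8

theorem a0_0_0_0 {u s t : ℝ} (h1 : (5579 / 25000 : ℝ) ≤ u + 2) (h2 : (5579 / 25000 : ℝ) ≤ s + t + 2) (h3 : t + 1 ≤ (4 : ℝ)) :
    0 < E1 8 (405000 / 22629049 : ℝ) (81 / 4757 : ℝ) (900 / 4757 : ℝ) (162 / 4757 : ℝ) ((0 : ℝ) * (0 : ℝ)) u s t -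
      (147 / 5000 : ℝ) * Act 8 (3449956083 / 114706649381 : ℝ) (159 / 9514 : ℝ) (900 / 4757 : ℝ) (162 / 4757 : ℝ) ((1 - (0 : ℝ)) * (1 - (0 : ℝ))) u s t :=
  QC.chkA 0 0 0 (QC.rd 405000 22629049) (QC.rd 81 4757) (QC.rd 900 4757) (QC.rd 162 4757)
    QC.r0 QC.r0 (QC.rd 147 5000) (QC.rd 3449956083 114706649381) (QC.rd 159 9514) (QC.rd 900 4757) (QC.rd 162 4757) (QC.rd 5579 25000) (QC.rn 4)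
    (by decide +kernel) h1 h2 h3

theorem a0_0_0_1 {u s t : ℝ} (h1 : (5579 / 25000 : ℝ) ≤ u + 2) (h2 : (5579 / 25000 : ℝ) ≤ s + t + 2) (h3 : t + 1 ≤ (4 : ℝ)) :
    0 < E1 8 (405000 / 22629049 : ℝ) (81 / 4757 : ℝ) (900 / 4757 : ℝ) (162 / 4757 : ℝ) ((0 : ℝ) * (7 / 10 : ℝ)) u s t -
      (147 / 5000 : ℝ) * Act 8 (3449956083 / 114706649381 : ℝ) (159 / 9514 : ℝ) (900 / 4757 : ℝ) (162 / 4757 : ℝ) ((1 - (0 : ℝ)) * (1 - (7 / 10 : ℝ))) u s t :=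
  QC.chkA 0 0 0 (QC.rd 405000 22629049) (QC.rd 81 4757) (QC.rd 900 4757) (QC.rd 162 4757)
    QC.r0 (QC.rd 7 10) (QC.rd 147 5000) (QC.rd 3449956083 114706649381) (QC.rd 159 9514) (QC.rd 900 4757) (QC.rd 162 4757) (QC.rd 5579 25000) (QC.rn 4)
    (by decide +kernel) h1 h2 h3

theorem a0_0_0_2 {u s t : ℝ} (h1 : (5579 / 25000 : ℝ) ≤ u + 2) (h2 : (5579 / 25000 : ℝ) ≤ s + t + 2) (h3 : t + 1 ≤ (4 : ℝ)) :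
    0 < E1 8 (405000 / 22629049 : ℝ) (81 / 4757 : ℝ) (900 / 4757 : ℝ) (162 / 4757 : ℝ) ((7 / 10 : ℝ) * (7 / 10 : ℝ)) u s t -
      (147 / 5000 : ℝ) * Act 8 (3449956083 / 114706649381 : ℝ) (159 / 9514 : ℝ) (900 / 4757 : ℝ) (162 / 4757 : ℝ) ((1 - (7 / 10 : ℝ)) * (1 - (7 / 10 : ℝ))) u s t :=
  QC.chkA 0 0 0 (QC.rd 405000 22629049) (QC.rd 81 4757) (QC.rd 900 4757) (QC.rd 162 4757)
    (QC.rd 7 10) (QC.rd 7 10) (QC.rd 147 5000) (QC.rd 3449956083 114706649381) (QC.rd 159 9514) (QC.rd 900 4757) (QC.rd 162 4757) (QC.rd 5579 25000) (QC.rn 4)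
    (by decide +kernel) h1 h2 h3

theorem a0_0_1_0 {u s t : ℝ} (h1 : (5579 / 25000 : ℝ) ≤ u + 2) (h2 : (5579 / 25000 : ℝ) ≤ s + t + 2) (h3 : t + 1 ≤ (4 : ℝ)) :
    0 < E1 8 (405000 / 22629049 : ℝ) (81 / 4757 : ℝ) (900 / 4757 : ℝ) (4 / 5 : ℝ) ((0 : ℝ) * (0 : ℝ)) u s t -
      (0 : ℝ) * Act 8 (3449956083 / 114706649381 : ℝ) (159 / 9514 : ℝ) (900 / 4757 : ℝ) (162 / 4757 : ℝ) ((1 - (0 : ℝ)) * (1 - (0 : ℝ))) u s t :=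
  QC.chkA 0 0 0 (QC.rd 405000 22629049) (QC.rd 81 4757) (QC.rd 900 4757) (QC.rd 4 5)
    QC.r0 QC.r0 QC.r0 (QC.rd 3449956083 114706649381) (QC.rd 159 9514) (QC.rd 900 4757) (QC.rd 162 4757) (QC.rd 5579 25000) (QC.rn 4)
    (by decide +kernel) h1 h2 h3

theorem a0_0_1_1 {u s t : ℝ} (h1 : (5579 / 25000 : ℝ) ≤ u + 2) (h2 : (5579 / 25000 : ℝ) ≤ s + t + 2) (h3 : t + 1 ≤ (4 : ℝ)) :
    0 < E1 8 (405000 / 22629049 : ℝ) (81 / 4757 : ℝ) (900 / 4757 : ℝ) (4 / 5 : ℝ) ((0 : ℝ) * (7 / 10 : ℝ)) u s t -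
      (0 : ℝ) * Act 8 (3449956083 / 114706649381 : ℝ) (159 / 9514 : ℝ) (900 / 4757 : ℝ) (162 / 4757 : ℝ) ((1 - (0 : ℝ)) * (1 - (7 / 10 : ℝ))) u s t :=
  QC.chkA 0 0 0 (QC.rd 405000 22629049) (QC.rd 81 4757) (QC.rd 900 4757) (QC.rd 4 5)
    QC.r0 (QC.rd 7 10) QC.r0 (QC.rd 3449956083 114706649381) (QC.rd 159 9514) (QC.rd 900 4757) (QC.rd 162 4757) (QC.rd 5579 25000) (QC.rn 4)
    (by decide +kernel) h1 h2 h3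

theorem a0_0_1_2 {u s t : ℝ} (h1 : (5579 / 25000 : ℝ) ≤ u + 2) (h2 : (5579 / 25000 : ℝ) ≤ s + t + 2) (h3 : t + 1 ≤ (4 : ℝ)) :
    0 < E1 8 (405000 / 22629049 : ℝ) (81 / 4757 : ℝ) (900 / 4757 : ℝ) (4 / 5 : ℝ) ((7 / 10 : ℝ) * (7 / 10 : ℝ)) u s t -
      (0 : ℝ) * Act 8 (3449956083 / 114706649381 : ℝ) (159 / 9514 : ℝ) (900 / 4757 : ℝ) (162 / 4757 : ℝ) ((1 - (7 / 10 : ℝ)) * (1 - (7 / 10 : ℝ))) u s t :=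
  QC.chkA 0 0 0 (QC.rd 405000 22629049) (QC.rd 81 4757) (QC.rd 900 4757) (QC.rd 4 5)
    (QC.rd 7 10) (QC.rd 7 10) QC.r0 (QC.rd 3449956083 114706649381) (QC.rd 159 9514) (QC.rd 900 4757) (QC.rd 162 4757) (QC.rd 5579 25000) (QC.rn 4)
    (by decide +kernel) h1 h2 h3

theorem a0_1_0_0 {u s t : ℝ} (h1 : (5579 / 25000 : ℝ) ≤ u + 2) (h2 : (5579 / 25000 : ℝ) ≤ s + t + 2) (h3 : t + 1 ≤ (4 : ℝ)) :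
    0 < E1 8 (405000 / 22629049 : ℝ) (81 / 4757 : ℝ) (900 / 4757 : ℝ) (162 / 4757 : ℝ) ((7 / 10 : ℝ) * (7 / 10 : ℝ)) u s t -
      (279 / 1000 : ℝ) * Act 8 (3449956083 / 114706649381 : ℝ) (159 / 9514 : ℝ) (900 / 4757 : ℝ) (162 / 4757 : ℝ) ((1 - (7 / 10 : ℝ)) * (1 - (7 / 10 : ℝ))) u s t :=
  QC.chkA 0 0 0 (QC.rd 405000 22629049) (QC.rd 81 4757) (QC.rd 900 4757) (QC.rd 162 4757)
    (QC.rd 7 10) (QC.rd 7 10) (QC.rd 279 1000) (QC.rd 3449956083 114706649381) (QC.rd 159 9514) (QC.rd 900 4757) (QC.rd 162 4757) (QC.rd 5579 25000) (QC.rn 4)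
    (by decide +kernel) h1 h2 h3

theorem a0_1_0_1 {u s t : ℝ} (h1 : (5579 / 25000 : ℝ) ≤ u + 2) (h2 : (5579 / 25000 : ℝ) ≤ s + t + 2) (h3 : t + 1 ≤ (4 : ℝ)) :
    0 < E1 8 (405000 / 22629049 : ℝ) (81 / 4757 : ℝ) (900 / 4757 : ℝ) (162 / 4757 : ℝ) ((7 / 10 : ℝ) * (9 / 10 : ℝ)) u s t -
      (279 / 1000 : ℝ) * Act 8 (3449956083 / 114706649381 : ℝ) (159 / 9514 : ℝ) (900 / 4757 : ℝ) (162 / 4757 : ℝ) ((1 - (7 / 10 : ℝ)) * (1 - (9 / 10 : ℝ))) u s t :=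
  QC.chkA 0 0 0 (QC.rd 405000 22629049) (QC.rd 81 4757) (QC.rd 900 4757) (QC.rd 162 4757)
    (QC.rd 7 10) (QC.rd 9 10) (QC.rd 279 1000) (QC.rd 3449956083 114706649381) (QC.rd 159 9514) (QC.rd 900 4757) (QC.rd 162 4757) (QC.rd 5579 25000) (QC.rn 4)
    (by decide +kernel) h1 h2 h3

theorem a0_1_0_2 {u s t : ℝ} (h1 : (5579 / 25000 : ℝ) ≤ u + 2) (h2 : (5579 / 25000 : ℝ) ≤ s + t + 2) (h3 : t + 1 ≤ (4 : ℝ)) :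
    0 < E1 8 (405000 / 22629049 : ℝ) (81 / 4757 : ℝ) (900 / 4757 : ℝ) (162 / 4757 : ℝ) ((9 / 10 : ℝ) * (9 / 10 : ℝ)) u s t -
      (279 / 1000 : ℝ) * Act 8 (3449956083 / 114706649381 : ℝ) (159 / 9514 : ℝ) (900 / 4757 : ℝ) (162 / 4757 : ℝ) ((1 - (9 / 10 : ℝ)) * (1 - (9 / 10 : ℝ))) u s t :=
  QC.chkA 0 0 0 (QC.rd 405000 22629049) (QC.rd 81 4757) (QC.rd 900 4757) (QC.rd 162 4757)
    (QC.rd 9 10) (QC.rd 9 10) (QC.rd 279 1000) (QC.rd 3449956083 114706649381) (QC.rd 159 9514) (QC.rd 900 4757) (QC.rd 162 4757) (QC.rd 5579 25000) (QC.rn 4)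
    (by decide +kernel) h1 h2 h3

theorem a0_1_1_0 {u s t : ℝ} (h1 : (5579 / 25000 : ℝ) ≤ u + 2) (h2 : (5579 / 25000 : ℝ) ≤ s + t + 2) (h3 : t + 1 ≤ (4 : ℝ)) :
    0 < E1 8 (405000 / 22629049 : ℝ) (81 / 4757 : ℝ) (900 / 4757 : ℝ) (4 / 5 : ℝ) ((7 / 10 : ℝ) * (7 / 10 : ℝ)) u s t -
      (547 / 100 : ℝ) * Act 8 (3449956083 / 114706649381 : ℝ) (159 / 9514 : ℝ) (900 / 4757 : ℝ) (162 / 4757 : ℝ) ((1 - (7 / 10 : ℝ)) * (1 - (7 / 10 : ℝ))) u s t :=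
  QC.chkA 0 0 0 (QC.rd 405000 22629049) (QC.rd 81 4757) (QC.rd 900 4757) (QC.rd 4 5)
    (QC.rd 7 10) (QC.rd 7 10) (QC.rd 547 100) (QC.rd 3449956083 114706649381) (QC.rd 159 9514) (QC.rd 900 4757) (QC.rd 162 4757) (QC.rd 5579 25000) (QC.rn 4)
    (by decide +kernel) h1 h2 h3

theorem a0_1_1_1 {u s t : ℝ} (h1 : (5579 / 25000 : ℝ) ≤ u + 2) (h2 : (5579 / 25000 : ℝ) ≤ s + t + 2) (h3 : t + 1 ≤ (4 : ℝ)) :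
    0 < E1 8 (405000 / 22629049 : ℝ) (81 / 4757 : ℝ) (900 / 4757 : ℝ) (4 / 5 : ℝ) ((7 / 10 : ℝ) * (9 / 10 : ℝ)) u s t -
      (547 / 100 : ℝ) * Act 8 (3449956083 / 114706649381 : ℝ) (159 / 9514 : ℝ) (900 / 4757 : ℝ) (162 / 4757 : ℝ) ((1 - (7 / 10 : ℝ)) * (1 - (9 / 10 : ℝ))) u s t :=
  QC.chkA 0 0 0 (QC.rd 405000 22629049) (QC.rd 81 4757) (QC.rd 900 4757) (QC.rd 4 5)
    (QC.rd 7 10) (QC.rd 9 10) (QC.rd 547 100) (QC.rd 3449956083 114706649381) (QC.rd 159 9514) (QC.rd 900 4757) (QC.rd 162 4757) (QC.rd 5579 25000) (QC.rn 4)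
    (by decide +kernel) h1 h2 h3

theorem a0_1_1_2 {u s t : ℝ} (h1 : (5579 / 25000 : ℝ) ≤ u + 2) (h2 : (5579 / 25000 : ℝ) ≤ s + t + 2) (h3 : t + 1 ≤ (4 : ℝ)) :
    0 < E1 8 (405000 / 22629049 : ℝ) (81 / 4757 : ℝ) (900 / 4757 : ℝ) (4 / 5 : ℝ) ((9 / 10 : ℝ) * (9 / 10 : ℝ)) u s t -
      (547 / 100 : ℝ) * Act 8 (3449956083 / 114706649381 : ℝ) (159 / 9514 : ℝ) (900 / 4757 : ℝ) (162 / 4757 : ℝ) ((1 - (9 / 10 : ℝ)) * (1 - (9 / 10 : ℝ))) u s t :=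
  QC.chkA (3 / 10) 0 0 (QC.rd 405000 22629049) (QC.rd 81 4757) (QC.rd 900 4757) (QC.rd 4 5)
    (QC.rd 9 10) (QC.rd 9 10) (QC.rd 547 100) (QC.rd 3449956083 114706649381) (QC.rd 159 9514) (QC.rd 900 4757) (QC.rd 162 4757) (QC.rd 5579 25000) (QC.rn 4)
    (by decide +kernel) h1 h2 h3

theorem a0_2_0_0 {u s t : ℝ} (h1 : (5579 / 25000 : ℝ) ≤ u + 2) (h2 : (5579 / 25000 : ℝ) ≤ s + t + 2) (h3 : t + 1 ≤ (4 : ℝ)) :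
    0 < E1 8 (405000 / 22629049 : ℝ) (81 / 4757 : ℝ) (900 / 4757 : ℝ) (162 / 4757 : ℝ) ((9 / 10 : ℝ) * (9 / 10 : ℝ)) u s t -
      (233 / 100 : ℝ) * Act 8 (3449956083 / 114706649381 : ℝ) (159 / 9514 : ℝ) (900 / 4757 : ℝ) (162 / 4757 : ℝ) ((1 - (9 / 10 : ℝ)) * (1 - (9 / 10 : ℝ))) u s t :=
  QC.chkA (1 / 10) (1 / 20) 0 (QC.rd 405000 22629049) (QC.rd 81 4757) (QC.rd 900 4757) (QC.rd 162 4757)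
    (QC.rd 9 10) (QC.rd 9 10) (QC.rd 233 100) (QC.rd 3449956083 114706649381) (QC.rd 159 9514) (QC.rd 900 4757) (QC.rd 162 4757) (QC.rd 5579 25000) (QC.rn 4)
    (by decide +kernel) h1 h2 h3

theorem a0_2_0_1 {u s t : ℝ} (h1 : (5579 / 25000 : ℝ) ≤ u + 2) (h2 : (5579 / 25000 : ℝ) ≤ s + t + 2) (h3 : t + 1 ≤ (4 : ℝ)) :
    0 < E1 8 (405000 / 22629049 : ℝ) (81 / 4757 : ℝ) (900 / 4757 : ℝ) (162 / 4757 : ℝ) ((9 / 10 : ℝ) * (1 : ℝ)) u s t -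
      (233 / 100 : ℝ) * Act 8 (3449956083 / 114706649381 : ℝ) (159 / 9514 : ℝ) (900 / 4757 : ℝ) (162 / 4757 : ℝ) ((1 - (9 / 10 : ℝ)) * (1 - (1 : ℝ))) u s t :=
  QC.chkA (1 / 10) (3 / 50) 0 (QC.rd 405000 22629049) (QC.rd 81 4757) (QC.rd 900 4757) (QC.rd 162 4757)
    (QC.rd 9 10) QC.r1 (QC.rd 233 100) (QC.rd 3449956083 114706649381) (QC.rd 159 9514) (QC.rd 900 4757) (QC.rd 162 4757) (QC.rd 5579 25000) (QC.rn 4)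
    (by decide +kernel) h1 h2 h3

theorem a0_2_0_2 {u s t : ℝ} (h1 : (5579 / 25000 : ℝ) ≤ u + 2) (h2 : (5579 / 25000 : ℝ) ≤ s + t + 2) (h3 : t + 1 ≤ (4 : ℝ)) :
    0 < E1 8 (405000 / 22629049 : ℝ) (81 / 4757 : ℝ) (900 / 4757 : ℝ) (162 / 4757 : ℝ) ((1 : ℝ) * (1 : ℝ)) u s t -
      (233 / 100 : ℝ) * Act 8 (3449956083 / 114706649381 : ℝ) (159 / 9514 : ℝ) (900 / 4757 : ℝ) (162 / 4757 : ℝ) ((1 - (1 : ℝ)) * (1 - (1 : ℝ))) u s t :=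
  QC.chkA (2 / 25) (147072579 / 2262904900) 0 (QC.rd 405000 22629049) (QC.rd 81 4757) (QC.rd 900 4757) (QC.rd 162 4757)
    QC.r1 QC.r1 (QC.rd 233 100) (QC.rd 3449956083 114706649381) (QC.rd 159 9514) (QC.rd 900 4757) (QC.rd 162 4757) (QC.rd 5579 25000) (QC.rn 4)
    (by decide +kernel) h1 h2 h3

theorem a0_2_1_0 {u s t : ℝ} (h1 : (5579 / 25000 : ℝ) ≤ u + 2) (h2 : (5579 / 25000 : ℝ) ≤ s + t + 2) (h3 : t + 1 ≤ (4 : ℝ)) :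
    0 < E1 8 (405000 / 22629049 : ℝ) (81 / 4757 : ℝ) (900 / 4757 : ℝ) (4 / 5 : ℝ) ((9 / 10 : ℝ) * (9 / 10 : ℝ)) u s t -
      (529 / 10 : ℝ) * Act 8 (3449956083 / 114706649381 : ℝ) (159 / 9514 : ℝ) (900 / 4757 : ℝ) (162 / 4757 : ℝ) ((1 - (9 / 10 : ℝ)) * (1 - (9 / 10 : ℝ))) u s t :=
  QC.chkA (8 / 5) (11 / 10) 0 (QC.rd 405000 22629049) (QC.rd 81 4757) (QC.rd 900 4757) (QC.rd 4 5)
    (QC.rd 9 10) (QC.rd 9 10) (QC.rd 529 10) (QC.rd 3449956083 114706649381) (QC.rd 159 9514) (QC.rd 900 4757) (QC.rd 162 4757) (QC.rd 5579 25000) (QC.rn 4)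
    (by decide +kernel) h1 h2 h3

theorem a0_2_1_1 {u s t : ℝ} (h1 : (5579 / 25000 : ℝ) ≤ u + 2) (h2 : (5579 / 25000 : ℝ) ≤ s + t + 2) (h3 : t + 1 ≤ (4 : ℝ)) :
    0 < E1 8 (405000 / 22629049 : ℝ) (81 / 4757 : ℝ) (900 / 4757 : ℝ) (4 / 5 : ℝ) ((9 / 10 : ℝ) * (1 : ℝ)) u s t -
      (529 / 10 : ℝ) * Act 8 (3449956083 / 114706649381 : ℝ) (159 / 9514 : ℝ) (900 / 4757 : ℝ) (162 / 4757 : ℝ) ((1 - (9 / 10 : ℝ)) * (1 - (1 : ℝ))) u s t :=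
  QC.chkA (19 / 10) (7 / 5) 0 (QC.rd 405000 22629049) (QC.rd 81 4757) (QC.rd 900 4757) (QC.rd 4 5)
    (QC.rd 9 10) QC.r1 (QC.rd 529 10) (QC.rd 3449956083 114706649381) (QC.rd 159 9514) (QC.rd 900 4757) (QC.rd 162 4757) (QC.rd 5579 25000) (QC.rn 4)
    (by decide +kernel) h1 h2 h3

theorem a0_2_1_2 {u s t : ℝ} (h1 : (5579 / 25000 : ℝ) ≤ u + 2) (h2 : (5579 / 25000 : ℝ) ≤ s + t + 2) (h3 : t + 1 ≤ (4 : ℝ)) :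
    0 < E1 8 (405000 / 22629049 : ℝ) (81 / 4757 : ℝ) (900 / 4757 : ℝ) (4 / 5 : ℝ) ((1 : ℝ) * (1 : ℝ)) u s t -
      (529 / 10 : ℝ) * Act 8 (3449956083 / 114706649381 : ℝ) (159 / 9514 : ℝ) (900 / 4757 : ℝ) (162 / 4757 : ℝ) ((1 - (1 : ℝ)) * (1 - (1 : ℝ))) u s t :=
  QC.chkA (99 / 50) (69711 / 47570) 0 (QC.rd 405000 22629049) (QC.rd 81 4757) (QC.rd 900 4757) (QC.rd 4 5)
    QC.r1 QC.r1 (QC.rd 529 10) (QC.rd 3449956083 114706649381) (QC.rd 159 9514) (QC.rd 900 4757) (QC.rd 162 4757) (QC.rd 5579 25000) (QC.rn 4)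
    (by decide +kernel) h1 h2 h3

theorem a1_0_0_0 {u s t : ℝ} (h1 : (5579 / 25000 : ℝ) ≤ u + 2) (h2 : (5579 / 25000 : ℝ) ≤ s + t + 2) (h3 : t + 1 ≤ (4 : ℝ)) :
    0 < E1 8 (405000 / 22629049 : ℝ) (81 / 4757 : ℝ) (900 / 4757 : ℝ) (4 / 5 : ℝ) ((0 : ℝ) * (0 : ℝ)) u s t -
      (119 / 500 : ℝ) * Act 8 (3449956083 / 114706649381 : ℝ) (159 / 9514 : ℝ) (900 / 4757 : ℝ) (4 / 5 : ℝ) ((1 - (0 : ℝ)) * (1 - (0 : ℝ))) u s t :=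
  QC.chkA 0 0 0 (QC.rd 405000 22629049) (QC.rd 81 4757) (QC.rd 900 4757) (QC.rd 4 5)
    QC.r0 QC.r0 (QC.rd 119 500) (QC.rd 3449956083 114706649381) (QC.rd 159 9514) (QC.rd 900 4757) (QC.rd 4 5) (QC.rd 5579 25000) (QC.rn 4)
    (by decide +kernel) h1 h2 h3

theorem a1_0_0_1 {u s t : ℝ} (h1 : (5579 / 25000 : ℝ) ≤ u + 2) (h2 : (5579 / 25000 : ℝ) ≤ s + t + 2) (h3 : t + 1 ≤ (4 : ℝ)) :
    0 < E1 8 (405000 / 22629049 : ℝ) (81 / 4757 : ℝ) (900 / 4757 : ℝ) (4 / 5 : ℝ) ((0 : ℝ) * (7 / 10 : ℝ)) u s t -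
      (119 / 500 : ℝ) * Act 8 (3449956083 / 114706649381 : ℝ) (159 / 9514 : ℝ) (900 / 4757 : ℝ) (4 / 5 : ℝ) ((1 - (0 : ℝ)) * (1 - (7 / 10 : ℝ))) u s t :=
  QC.chkA 0 0 0 (QC.rd 405000 22629049) (QC.rd 81 4757) (QC.rd 900 4757) (QC.rd 4 5)
    QC.r0 (QC.rd 7 10) (QC.rd 119 500) (QC.rd 3449956083 114706649381) (QC.rd 159 9514) (QC.rd 900 4757) (QC.rd 4 5) (QC.rd 5579 25000) (QC.rn 4)
    (by decide +kernel) h1 h2 h3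

theorem a1_0_0_2 {u s t : ℝ} (h1 : (5579 / 25000 : ℝ) ≤ u + 2) (h2 : (5579 / 25000 : ℝ) ≤ s + t + 2) (h3 : t + 1 ≤ (4 : ℝ)) :
    0 < E1 8 (405000 / 22629049 : ℝ) (81 / 4757 : ℝ) (900 / 4757 : ℝ) (4 / 5 : ℝ) ((7 / 10 : ℝ) * (7 / 10 : ℝ)) u s t -
      (119 / 500 : ℝ) * Act 8 (3449956083 / 114706649381 : ℝ) (159 / 9514 : ℝ) (900 / 4757 : ℝ) (4 / 5 : ℝ) ((1 - (7 / 10 : ℝ)) * (1 - (7 / 10 : ℝ))) u s t :=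
  QC.chkA 0 0 0 (QC.rd 405000 22629049) (QC.rd 81 4757) (QC.rd 900 4757) (QC.rd 4 5)
    (QC.rd 7 10) (QC.rd 7 10) (QC.rd 119 500) (QC.rd 3449956083 114706649381) (QC.rd 159 9514) (QC.rd 900 4757) (QC.rd 4 5) (QC.rd 5579 25000) (QC.rn 4)
    (by decide +kernel) h1 h2 h3

theorem a1_0_1_0 {u s t : ℝ} (h1 : (5579 / 25000 : ℝ) ≤ u + 2) (h2 : (5579 / 25000 : ℝ) ≤ s + t + 2) (h3 : t + 1 ≤ (4 : ℝ)) :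
    0 < E1 8 (405000 / 22629049 : ℝ) (81 / 4757 : ℝ) (900 / 4757 : ℝ) (1 : ℝ) ((0 : ℝ) * (0 : ℝ)) u s t -
      (289 / 1000 : ℝ) * Act 8 (3449956083 / 114706649381 : ℝ) (159 / 9514 : ℝ) (900 / 4757 : ℝ) (4 / 5 : ℝ) ((1 - (0 : ℝ)) * (1 - (0 : ℝ))) u s t :=
  QC.chkA 0 0 0 (QC.rd 405000 22629049) (QC.rd 81 4757) (QC.rd 900 4757) QC.r1
    QC.r0 QC.r0 (QC.rd 289 1000) (QC.rd 3449956083 114706649381) (QC.rd 159 9514) (QC.rd 900 4757) (QC.rd 4 5) (QC.rd 5579 25000) (QC.rn 4)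
    (by decide +kernel) h1 h2 h3

theorem a1_0_1_1 {u s t : ℝ} (h1 : (5579 / 25000 : ℝ) ≤ u + 2) (h2 : (5579 / 25000 : ℝ) ≤ s + t + 2) (h3 : t + 1 ≤ (4 : ℝ)) :
    0 < E1 8 (405000 / 22629049 : ℝ) (81 / 4757 : ℝ) (900 / 4757 : ℝ) (1 : ℝ) ((0 : ℝ) * (7 / 10 : ℝ)) u s t -
      (289 / 1000 : ℝ) * Act 8 (3449956083 / 114706649381 : ℝ) (159 / 9514 : ℝ) (900 / 4757 : ℝ) (4 / 5 : ℝ) ((1 - (0 : ℝ)) * (1 - (7 / 10 : ℝ))) u s t :=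
  QC.chkA 0 0 0 (QC.rd 405000 22629049) (QC.rd 81 4757) (QC.rd 900 4757) QC.r1
    QC.r0 (QC.rd 7 10) (QC.rd 289 1000) (QC.rd 3449956083 114706649381) (QC.rd 159 9514) (QC.rd 900 4757) (QC.rd 4 5) (QC.rd 5579 25000) (QC.rn 4)
    (by decide +kernel) h1 h2 h3

theorem a1_0_1_2 {u s t : ℝ} (h1 : (5579 / 25000 : ℝ) ≤ u + 2) (h2 : (5579 / 25000 : ℝ) ≤ s + t + 2) (h3 : t + 1 ≤ (4 : ℝ)) :
    0 < E1 8 (405000 / 22629049 : ℝ) (81 / 4757 : ℝ) (900 / 4757 : ℝ) (1 : ℝ) ((7 / 10 : ℝ) * (7 / 10 : ℝ)) u s t -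
      (289 / 1000 : ℝ) * Act 8 (3449956083 / 114706649381 : ℝ) (159 / 9514 : ℝ) (900 / 4757 : ℝ) (4 / 5 : ℝ) ((1 - (7 / 10 : ℝ)) * (1 - (7 / 10 : ℝ))) u s t :=
  QC.chkA 0 0 0 (QC.rd 405000 22629049) (QC.rd 81 4757) (QC.rd 900 4757) QC.r1
    (QC.rd 7 10) (QC.rd 7 10) (QC.rd 289 1000) (QC.rd 3449956083 114706649381) (QC.rd 159 9514) (QC.rd 900 4757) (QC.rd 4 5) (QC.rd 5579 25000) (QC.rn 4)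
    (by decide +kernel) h1 h2 h3

theorem a1_1_0_0 {u s t : ℝ} (h1 : (5579 / 25000 : ℝ) ≤ u + 2) (h2 : (5579 / 25000 : ℝ) ≤ s + t + 2) (h3 : t + 1 ≤ (4 : ℝ)) :
    0 < E1 8 (405000 / 22629049 : ℝ) (81 / 4757 : ℝ) (900 / 4757 : ℝ) (4 / 5 : ℝ) ((7 / 10 : ℝ) * (7 / 10 : ℝ)) u s t -
      (122 / 5 : ℝ) * Act 8 (3449956083 / 114706649381 : ℝ) (159 / 9514 : ℝ) (900 / 4757 : ℝ) (4 / 5 : ℝ) ((1 - (7 / 10 : ℝ)) * (1 - (7 / 10 : ℝ))) u s t :=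
  QC.chkA 0 0 (4 / 5) (QC.rd 405000 22629049) (QC.rd 81 4757) (QC.rd 900 4757) (QC.rd 4 5)
    (QC.rd 7 10) (QC.rd 7 10) (QC.rd 122 5) (QC.rd 3449956083 114706649381) (QC.rd 159 9514) (QC.rd 900 4757) (QC.rd 4 5) (QC.rd 5579 25000) (QC.rn 4)
    (by decide +kernel) h1 h2 h3

theorem a1_1_0_1 {u s t : ℝ} (h1 : (5579 / 25000 : ℝ) ≤ u + 2) (h2 : (5579 / 25000 : ℝ) ≤ s + t + 2) (h3 : t + 1 ≤ (4 : ℝ)) :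
    0 < E1 8 (405000 / 22629049 : ℝ) (81 / 4757 : ℝ) (900 / 4757 : ℝ) (4 / 5 : ℝ) ((7 / 10 : ℝ) * (1 : ℝ)) u s t -
      (122 / 5 : ℝ) * Act 8 (3449956083 / 114706649381 : ℝ) (159 / 9514 : ℝ) (900 / 4757 : ℝ) (4 / 5 : ℝ) ((1 - (7 / 10 : ℝ)) * (1 - (1 : ℝ))) u s t :=
  QC.chkA (1 / 2) 0 0 (QC.rd 405000 22629049) (QC.rd 81 4757) (QC.rd 900 4757) (QC.rd 4 5)
    (QC.rd 7 10) QC.r1 (QC.rd 122 5) (QC.rd 3449956083 114706649381) (QC.rd 159 9514) (QC.rd 900 4757) (QC.rd 4 5) (QC.rd 5579 25000) (QC.rn 4)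
    (by decide +kernel) h1 h2 h3

theorem a1_1_0_2 {u s t : ℝ} (h1 : (5579 / 25000 : ℝ) ≤ u + 2) (h2 : (5579 / 25000 : ℝ) ≤ s + t + 2) (h3 : t + 1 ≤ (4 : ℝ)) :
    0 < E1 8 (405000 / 22629049 : ℝ) (81 / 4757 : ℝ) (900 / 4757 : ℝ) (4 / 5 : ℝ) ((1 : ℝ) * (1 : ℝ)) u s t -
      (122 / 5 : ℝ) * Act 8 (3449956083 / 114706649381 : ℝ) (159 / 9514 : ℝ) (900 / 4757 : ℝ) (4 / 5 : ℝ) ((1 - (1 : ℝ)) * (1 - (1 : ℝ))) u s t :=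
  QC.chkA (53 / 50) (12198 / 23785) 0 (QC.rd 405000 22629049) (QC.rd 81 4757) (QC.rd 900 4757) (QC.rd 4 5)
    QC.r1 QC.r1 (QC.rd 122 5) (QC.rd 3449956083 114706649381) (QC.rd 159 9514) (QC.rd 900 4757) (QC.rd 4 5) (QC.rd 5579 25000) (QC.rn 4)
    (by decide +kernel) h1 h2 h3

theorem a1_1_1_0 {u s t : ℝ} (h1 : (5579 / 25000 : ℝ) ≤ u + 2) (h2 : (5579 / 25000 : ℝ) ≤ s + t + 2) (h3 : t + 1 ≤ (4 : ℝ)) :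
    0 < E1 8 (405000 / 22629049 : ℝ) (81 / 4757 : ℝ) (900 / 4757 : ℝ) (1 : ℝ) ((7 / 10 : ℝ) * (7 / 10 : ℝ)) u s t -
      (152 / 5 : ℝ) * Act 8 (3449956083 / 114706649381 : ℝ) (159 / 9514 : ℝ) (900 / 4757 : ℝ) (4 / 5 : ℝ) ((1 - (7 / 10 : ℝ)) * (1 - (7 / 10 : ℝ))) u s t :=
  QC.chkA 0 0 1 (QC.rd 405000 22629049) (QC.rd 81 4757) (QC.rd 900 4757) QC.r1
    (QC.rd 7 10) (QC.rd 7 10) (QC.rd 152 5) (QC.rd 3449956083 114706649381) (QC.rd 159 9514) (QC.rd 900 4757) (QC.rd 4 5) (QC.rd 5579 25000) (QC.rn 4)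
    (by decide +kernel) h1 h2 h3

theorem a1_1_1_1 {u s t : ℝ} (h1 : (5579 / 25000 : ℝ) ≤ u + 2) (h2 : (5579 / 25000 : ℝ) ≤ s + t + 2) (h3 : t + 1 ≤ (4 : ℝ)) :
    0 < E1 8 (405000 / 22629049 : ℝ) (81 / 4757 : ℝ) (900 / 4757 : ℝ) (1 : ℝ) ((7 / 10 : ℝ) * (1 : ℝ)) u s t -
      (152 / 5 : ℝ) * Act 8 (3449956083 / 114706649381 : ℝ) (159 / 9514 : ℝ) (900 / 4757 : ℝ) (4 / 5 : ℝ) ((1 - (7 / 10 : ℝ)) * (1 - (1 : ℝ))) u s t :=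
  QC.chkA (7 / 10) 0 0 (QC.rd 405000 22629049) (QC.rd 81 4757) (QC.rd 900 4757) QC.r1
    (QC.rd 7 10) QC.r1 (QC.rd 152 5) (QC.rd 3449956083 114706649381) (QC.rd 159 9514) (QC.rd 900 4757) (QC.rd 4 5) (QC.rd 5579 25000) (QC.rn 4)
    (by decide +kernel) h1 h2 h3

theorem a1_1_1_2 {u s t : ℝ} (h1 : (5579 / 25000 : ℝ) ≤ u + 2) (h2 : (5579 / 25000 : ℝ) ≤ s + t + 2) (h3 : t + 1 ≤ (4 : ℝ)) :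
    0 < E1 8 (405000 / 22629049 : ℝ) (81 / 4757 : ℝ) (900 / 4757 : ℝ) (1 : ℝ) ((1 : ℝ) * (1 : ℝ)) u s t -
      (152 / 5 : ℝ) * Act 8 (3449956083 / 114706649381 : ℝ) (159 / 9514 : ℝ) (900 / 4757 : ℝ) (4 / 5 : ℝ) ((1 - (1 : ℝ)) * (1 - (1 : ℝ))) u s t :=
  QC.chkA (133 / 100) (15168 / 23785) 0 (QC.rd 405000 22629049) (QC.rd 81 4757) (QC.rd 900 4757) QC.r1
    QC.r1 QC.r1 (QC.rd 152 5) (QC.rd 3449956083 114706649381) (QC.rd 159 9514) (QC.rd 900 4757) (QC.rd 4 5) (QC.rd 5579 25000) (QC.rn 4)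
    (by decide +kernel) h1 h2 h3

theorem a2_0_0_0 {u s t : ℝ} (h1 : (5579 / 25000 : ℝ) ≤ u + 2) (h2 : (5579 / 25000 : ℝ) ≤ s + t + 2) (h3 : t + 1 ≤ (4 : ℝ)) :
    0 < E1 8 (405000 / 22629049 : ℝ) (81 / 4757 : ℝ) (900 / 4757 : ℝ) (1 : ℝ) ((0 : ℝ) * (0 : ℝ)) u s t -
      (84 / 125 : ℝ) * Act 8 (3449956083 / 114706649381 : ℝ) (159 / 9514 : ℝ) (900 / 4757 : ℝ) (1 : ℝ) ((1 - (0 : ℝ)) * (1 - (0 : ℝ))) u s t :=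
  QC.chkA 0 0 0 (QC.rd 405000 22629049) (QC.rd 81 4757) (QC.rd 900 4757) QC.r1
    QC.r0 QC.r0 (QC.rd 84 125) (QC.rd 3449956083 114706649381) (QC.rd 159 9514) (QC.rd 900 4757) QC.r1 (QC.rd 5579 25000) (QC.rn 4)
    (by decide +kernel) h1 h2 h3

theorem a2_0_0_1 {u s t : ℝ} (h1 : (5579 / 25000 : ℝ) ≤ u + 2) (h2 : (5579 / 25000 : ℝ) ≤ s + t + 2) (h3 : t + 1 ≤ (4 : ℝ)) :
    0 < E1 8 (405000 / 22629049 : ℝ) (81 / 4757 : ℝ) (900 / 4757 : ℝ) (1 : ℝ) ((0 : ℝ) * (7 / 10 : ℝ)) u s t -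
      (84 / 125 : ℝ) * Act 8 (3449956083 / 114706649381 : ℝ) (159 / 9514 : ℝ) (900 / 4757 : ℝ) (1 : ℝ) ((1 - (0 : ℝ)) * (1 - (7 / 10 : ℝ))) u s t :=
  QC.chkA 0 0 0 (QC.rd 405000 22629049) (QC.rd 81 4757) (QC.rd 900 4757) QC.r1
    QC.r0 (QC.rd 7 10) (QC.rd 84 125) (QC.rd 3449956083 114706649381) (QC.rd 159 9514) (QC.rd 900 4757) QC.r1 (QC.rd 5579 25000) (QC.rn 4)
    (by decide +kernel) h1 h2 h3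

theorem a2_0_0_2 {u s t : ℝ} (h1 : (5579 / 25000 : ℝ) ≤ u + 2) (h2 : (5579 / 25000 : ℝ) ≤ s + t + 2) (h3 : t + 1 ≤ (4 : ℝ)) :
    0 < E1 8 (405000 / 22629049 : ℝ) (81 / 4757 : ℝ) (900 / 4757 : ℝ) (1 : ℝ) ((7 / 10 : ℝ) * (7 / 10 : ℝ)) u s t -
      (84 / 125 : ℝ) * Act 8 (3449956083 / 114706649381 : ℝ) (159 / 9514 : ℝ) (900 / 4757 : ℝ) (1 : ℝ) ((1 - (7 / 10 : ℝ)) * (1 - (7 / 10 : ℝ))) u s t :=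
  QC.chkA 0 0 0 (QC.rd 405000 22629049) (QC.rd 81 4757) (QC.rd 900 4757) QC.r1
    (QC.rd 7 10) (QC.rd 7 10) (QC.rd 84 125) (QC.rd 3449956083 114706649381) (QC.rd 159 9514) (QC.rd 900 4757) QC.r1 (QC.rd 5579 25000) (QC.rn 4)
    (by decide +kernel) h1 h2 h3

theorem a2_0_1_0 {u s t : ℝ} (h1 : (5579 / 25000 : ℝ) ≤ u + 2) (h2 : (5579 / 25000 : ℝ) ≤ s + t + 2) (h3 : t + 1 ≤ (4 : ℝ)) :
    0 < E1 8 (405000 / 22629049 : ℝ) (81 / 4757 : ℝ) (900 / 4757 : ℝ) (3 / 2 : ℝ) ((0 : ℝ) * (0 : ℝ)) u s t -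
      (977 / 1000 : ℝ) * Act 8 (3449956083 / 114706649381 : ℝ) (159 / 9514 : ℝ) (900 / 4757 : ℝ) (1 : ℝ) ((1 - (0 : ℝ)) * (1 - (0 : ℝ))) u s t :=
  QC.chkA 0 0 0 (QC.rd 405000 22629049) (QC.rd 81 4757) (QC.rd 900 4757) (QC.rd 3 2)
    QC.r0 QC.r0 (QC.rd 977 1000) (QC.rd 3449956083 114706649381) (QC.rd 159 9514) (QC.rd 900 4757) QC.r1 (QC.rd 5579 25000) (QC.rn 4)
    (by decide +kernel) h1 h2 h3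

theorem a2_0_1_1 {u s t : ℝ} (h1 : (5579 / 25000 : ℝ) ≤ u + 2) (h2 : (5579 / 25000 : ℝ) ≤ s + t + 2) (h3 : t + 1 ≤ (4 : ℝ)) :
    0 < E1 8 (405000 / 22629049 : ℝ) (81 / 4757 : ℝ) (900 / 4757 : ℝ) (3 / 2 : ℝ) ((0 : ℝ) * (7 / 10 : ℝ)) u s t -
      (977 / 1000 : ℝ) * Act 8 (3449956083 / 114706649381 : ℝ) (159 / 9514 : ℝ) (900 / 4757 : ℝ) (1 : ℝ) ((1 - (0 : ℝ)) * (1 - (7 / 10 : ℝ))) u s t :=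
  QC.chkA 0 0 0 (QC.rd 405000 22629049) (QC.rd 81 4757) (QC.rd 900 4757) (QC.rd 3 2)
    QC.r0 (QC.rd 7 10) (QC.rd 977 1000) (QC.rd 3449956083 114706649381) (QC.rd 159 9514) (QC.rd 900 4757) QC.r1 (QC.rd 5579 25000) (QC.rn 4)
    (by decide +kernel) h1 h2 h3

theorem a2_0_1_2 {u s t : ℝ} (h1 : (5579 / 25000 : ℝ) ≤ u + 2) (h2 : (5579 / 25000 : ℝ) ≤ s + t + 2) (h3 : t + 1 ≤ (4 : ℝ)) :
    0 < E1 8 (405000 / 22629049 : ℝ) (81 / 4757 : ℝ) (900 / 4757 : ℝ) (3 / 2 : ℝ) ((7 / 10 : ℝ) * (7 / 10 : ℝ)) u s t -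
      (977 / 1000 : ℝ) * Act 8 (3449956083 / 114706649381 : ℝ) (159 / 9514 : ℝ) (900 / 4757 : ℝ) (1 : ℝ) ((1 - (7 / 10 : ℝ)) * (1 - (7 / 10 : ℝ))) u s t :=
  QC.chkA 0 0 0 (QC.rd 405000 22629049) (QC.rd 81 4757) (QC.rd 900 4757) (QC.rd 3 2)
    (QC.rd 7 10) (QC.rd 7 10) (QC.rd 977 1000) (QC.rd 3449956083 114706649381) (QC.rd 159 9514) (QC.rd 900 4757) QC.r1 (QC.rd 5579 25000) (QC.rn 4)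
    (by decide +kernel) h1 h2 h3

theorem a2_1_0_0 {u s t : ℝ} (h1 : (5579 / 25000 : ℝ) ≤ u + 2) (h2 : (5579 / 25000 : ℝ) ≤ s + t + 2) (h3 : t + 1 ≤ (4 : ℝ)) :
    0 < E1 8 (405000 / 22629049 : ℝ) (81 / 4757 : ℝ) (900 / 4757 : ℝ) (1 : ℝ) ((7 / 10 : ℝ) * (7 / 10 : ℝ)) u s t -
      (219 / 5 : ℝ) * Act 8 (3449956083 / 114706649381 : ℝ) (159 / 9514 : ℝ) (900 / 4757 : ℝ) (1 : ℝ) ((1 - (7 / 10 : ℝ)) * (1 - (7 / 10 : ℝ))) u s t :=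
  QC.chkA 0 0 (9 / 5) (QC.rd 405000 22629049) (QC.rd 81 4757) (QC.rd 900 4757) QC.r1
    (QC.rd 7 10) (QC.rd 7 10) (QC.rd 219 5) (QC.rd 3449956083 114706649381) (QC.rd 159 9514) (QC.rd 900 4757) QC.r1 (QC.rd 5579 25000) (QC.rn 4)
    (by decide +kernel) h1 h2 h3

theorem a2_1_0_1 {u s t : ℝ} (h1 : (5579 / 25000 : ℝ) ≤ u + 2) (h2 : (5579 / 25000 : ℝ) ≤ s + t + 2) (h3 : t + 1 ≤ (4 : ℝ)) :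
    0 < E1 8 (405000 / 22629049 : ℝ) (81 / 4757 : ℝ) (900 / 4757 : ℝ) (1 : ℝ) ((7 / 10 : ℝ) * (1 : ℝ)) u s t -
      (219 / 5 : ℝ) * Act 8 (3449956083 / 114706649381 : ℝ) (159 / 9514 : ℝ) (900 / 4757 : ℝ) (1 : ℝ) ((1 - (7 / 10 : ℝ)) * (1 - (1 : ℝ))) u s t :=
  QC.chkA 1 1 0 (QC.rd 405000 22629049) (QC.rd 81 4757) (QC.rd 900 4757) QC.r1
    (QC.rd 7 10) QC.r1 (QC.rd 219 5) (QC.rd 3449956083 114706649381) (QC.rd 159 9514) (QC.rd 900 4757) QC.r1 (QC.rd 5579 25000) (QC.rn 4)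
    (by decide +kernel) h1 h2 h3

theorem a2_1_0_2 {u s t : ℝ} (h1 : (5579 / 25000 : ℝ) ≤ u + 2) (h2 : (5579 / 25000 : ℝ) ≤ s + t + 2) (h3 : t + 1 ≤ (4 : ℝ)) :
    0 < E1 8 (405000 / 22629049 : ℝ) (81 / 4757 : ℝ) (900 / 4757 : ℝ) (1 : ℝ) ((1 : ℝ) * (1 : ℝ)) u s t -
      (219 / 5 : ℝ) * Act 8 (3449956083 / 114706649381 : ℝ) (159 / 9514 : ℝ) (900 / 4757 : ℝ) (1 : ℝ) ((1 - (1 : ℝ)) * (1 - (1 : ℝ))) u s t :=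
  QC.chkA (44 / 25) (25821 / 23785) 0 (QC.rd 405000 22629049) (QC.rd 81 4757) (QC.rd 900 4757) QC.r1
    QC.r1 QC.r1 (QC.rd 219 5) (QC.rd 3449956083 114706649381) (QC.rd 159 9514) (QC.rd 900 4757) QC.r1 (QC.rd 5579 25000) (QC.rn 4)
    (by decide +kernel) h1 h2 h3

theorem a2_1_1_0 {u s t : ℝ} (h1 : (5579 / 25000 : ℝ) ≤ u + 2) (h2 : (5579 / 25000 : ℝ) ≤ s + t + 2) (h3 : t + 1 ≤ (4 : ℝ)) :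
    0 < E1 8 (405000 / 22629049 : ℝ) (81 / 4757 : ℝ) (900 / 4757 : ℝ) (3 / 2 : ℝ) ((7 / 10 : ℝ) * (7 / 10 : ℝ)) u s t -
      (327 / 5 : ℝ) * Act 8 (3449956083 / 114706649381 : ℝ) (159 / 9514 : ℝ) (900 / 4757 : ℝ) (1 : ℝ) ((1 - (7 / 10 : ℝ)) * (1 - (7 / 10 : ℝ))) u s t :=
  QC.chkA 0 0 (13 / 5) (QC.rd 405000 22629049) (QC.rd 81 4757) (QC.rd 900 4757) (QC.rd 3 2)
    (QC.rd 7 10) (QC.rd 7 10) (QC.rd 327 5) (QC.rd 3449956083 114706649381) (QC.rd 159 9514) (QC.rd 900 4757) QC.r1 (QC.rd 5579 25000) (QC.rn 4)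
    (by decide +kernel) h1 h2 h3

theorem a2_1_1_1 {u s t : ℝ} (h1 : (5579 / 25000 : ℝ) ≤ u + 2) (h2 : (5579 / 25000 : ℝ) ≤ s + t + 2) (h3 : t + 1 ≤ (4 : ℝ)) :
    0 < E1 8 (405000 / 22629049 : ℝ) (81 / 4757 : ℝ) (900 / 4757 : ℝ) (3 / 2 : ℝ) ((7 / 10 : ℝ) * (1 : ℝ)) u s t -
      (327 / 5 : ℝ) * Act 8 (3449956083 / 114706649381 : ℝ) (159 / 9514 : ℝ) (900 / 4757 : ℝ) (1 : ℝ) ((1 - (7 / 10 : ℝ)) * (1 - (1 : ℝ))) u s t :=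
  QC.chkA 2 1 0 (QC.rd 405000 22629049) (QC.rd 81 4757) (QC.rd 900 4757) (QC.rd 3 2)
    (QC.rd 7 10) QC.r1 (QC.rd 327 5) (QC.rd 3449956083 114706649381) (QC.rd 159 9514) (QC.rd 900 4757) QC.r1 (QC.rd 5579 25000) (QC.rn 4)
    (by decide +kernel) h1 h2 h3

theorem a2_1_1_2 {u s t : ℝ} (h1 : (5579 / 25000 : ℝ) ≤ u + 2) (h2 : (5579 / 25000 : ℝ) ≤ s + t + 2) (h3 : t + 1 ≤ (4 : ℝ)) :
    0 < E1 8 (405000 / 22629049 : ℝ) (81 / 4757 : ℝ) (900 / 4757 : ℝ) (3 / 2 : ℝ) ((1 : ℝ) * (1 : ℝ)) u s t -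
      (327 / 5 : ℝ) * Act 8 (3449956083 / 114706649381 : ℝ) (159 / 9514 : ℝ) (900 / 4757 : ℝ) (1 : ℝ) ((1 - (1 : ℝ)) * (1 - (1 : ℝ))) u s t :=
  QC.chkA (53 / 20) (38493 / 23785) 0 (QC.rd 405000 22629049) (QC.rd 81 4757) (QC.rd 900 4757) (QC.rd 3 2)
    QC.r1 QC.r1 (QC.rd 327 5) (QC.rd 3449956083 114706649381) (QC.rd 159 9514) (QC.rd 900 4757) QC.r1 (QC.rd 5579 25000) (QC.rn 4)
    (by decide +kernel) h1 h2 h3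

theorem a3_0_0_0 {u s t : ℝ} (h1 : (5579 / 25000 : ℝ) ≤ u + 2) (h2 : (5579 / 25000 : ℝ) ≤ s + t + 2) (h3 : t + 1 ≤ (4 : ℝ)) :
    0 < E1 8 (405000 / 22629049 : ℝ) (81 / 4757 : ℝ) (900 / 4757 : ℝ) (3 / 2 : ℝ) ((0 : ℝ) * (0 : ℝ)) u s t -
      (329 / 100 : ℝ) * Act 8 (3449956083 / 114706649381 : ℝ) (159 / 9514 : ℝ) (900 / 4757 : ℝ) (3 / 2 : ℝ) ((1 - (0 : ℝ)) * (1 - (0 : ℝ))) u s t :=
  QC.chkA 0 0 0 (QC.rd 405000 22629049) (QC.rd 81 4757) (QC.rd 900 4757) (QC.rd 3 2)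
    QC.r0 QC.r0 (QC.rd 329 100) (QC.rd 3449956083 114706649381) (QC.rd 159 9514) (QC.rd 900 4757) (QC.rd 3 2) (QC.rd 5579 25000) (QC.rn 4)
    (by decide +kernel) h1 h2 h3

theorem a3_0_0_1 {u s t : ℝ} (h1 : (5579 / 25000 : ℝ) ≤ u + 2) (h2 : (5579 / 25000 : ℝ) ≤ s + t + 2) (h3 : t + 1 ≤ (4 : ℝ)) :
    0 < E1 8 (405000 / 22629049 : ℝ) (81 / 4757 : ℝ) (900 / 4757 : ℝ) (3 / 2 : ℝ) ((0 : ℝ) * (4 / 5 : ℝ)) u s t -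
      (329 / 100 : ℝ) * Act 8 (3449956083 / 114706649381 : ℝ) (159 / 9514 : ℝ) (900 / 4757 : ℝ) (3 / 2 : ℝ) ((1 - (0 : ℝ)) * (1 - (4 / 5 : ℝ))) u s t :=
  QC.chkA 0 0 0 (QC.rd 405000 22629049) (QC.rd 81 4757) (QC.rd 900 4757) (QC.rd 3 2)
    QC.r0 (QC.rd 4 5) (QC.rd 329 100) (QC.rd 3449956083 114706649381) (QC.rd 159 9514) (QC.rd 900 4757) (QC.rd 3 2) (QC.rd 5579 25000) (QC.rn 4)
    (by decide +kernel) h1 h2 h3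

theorem a3_0_0_2 {u s t : ℝ} (h1 : (5579 / 25000 : ℝ) ≤ u + 2) (h2 : (5579 / 25000 : ℝ) ≤ s + t + 2) (h3 : t + 1 ≤ (4 : ℝ)) :
    0 < E1 8 (405000 / 22629049 : ℝ) (81 / 4757 : ℝ) (900 / 4757 : ℝ) (3 / 2 : ℝ) ((4 / 5 : ℝ) * (4 / 5 : ℝ)) u s t -
      (329 / 100 : ℝ) * Act 8 (3449956083 / 114706649381 : ℝ) (159 / 9514 : ℝ) (900 / 4757 : ℝ) (3 / 2 : ℝ) ((1 - (4 / 5 : ℝ)) * (1 - (4 / 5 : ℝ))) u s t :=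
  QC.chkA 0 0 0 (QC.rd 405000 22629049) (QC.rd 81 4757) (QC.rd 900 4757) (QC.rd 3 2)
    (QC.rd 4 5) (QC.rd 4 5) (QC.rd 329 100) (QC.rd 3449956083 114706649381) (QC.rd 159 9514) (QC.rd 900 4757) (QC.rd 3 2) (QC.rd 5579 25000) (QC.rn 4)
    (by decide +kernel) h1 h2 h3

theorem a3_0_1_0 {u s t : ℝ} (h1 : (5579 / 25000 : ℝ) ≤ u + 2) (h2 : (5579 / 25000 : ℝ) ≤ s + t + 2) (h3 : t + 1 ≤ (4 : ℝ)) :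
    0 < E1 8 (405000 / 22629049 : ℝ) (81 / 4757 : ℝ) (900 / 4757 : ℝ) (4 : ℝ) ((0 : ℝ) * (0 : ℝ)) u s t -
      (409 / 50 : ℝ) * Act 8 (3449956083 / 114706649381 : ℝ) (159 / 9514 : ℝ) (900 / 4757 : ℝ) (3 / 2 : ℝ) ((1 - (0 : ℝ)) * (1 - (0 : ℝ))) u s t :=
  QC.chkA 0 0 0 (QC.rd 405000 22629049) (QC.rd 81 4757) (QC.rd 900 4757) (QC.rn 4)
    QC.r0 QC.r0 (QC.rd 409 50) (QC.rd 3449956083 114706649381) (QC.rd 159 9514) (QC.rd 900 4757) (QC.rd 3 2) (QC.rd 5579 25000) (QC.rn 4)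
    (by decide +kernel) h1 h2 h3

theorem a3_0_1_1 {u s t : ℝ} (h1 : (5579 / 25000 : ℝ) ≤ u + 2) (h2 : (5579 / 25000 : ℝ) ≤ s + t + 2) (h3 : t + 1 ≤ (4 : ℝ)) :
    0 < E1 8 (405000 / 22629049 : ℝ) (81 / 4757 : ℝ) (900 / 4757 : ℝ) (4 : ℝ) ((0 : ℝ) * (4 / 5 : ℝ)) u s t -
      (409 / 50 : ℝ) * Act 8 (3449956083 / 114706649381 : ℝ) (159 / 9514 : ℝ) (900 / 4757 : ℝ) (3 / 2 : ℝ) ((1 - (0 : ℝ)) * (1 - (4 / 5 : ℝ))) u s t :=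
  QC.chkA 0 0 0 (QC.rd 405000 22629049) (QC.rd 81 4757) (QC.rd 900 4757) (QC.rn 4)
    QC.r0 (QC.rd 4 5) (QC.rd 409 50) (QC.rd 3449956083 114706649381) (QC.rd 159 9514) (QC.rd 900 4757) (QC.rd 3 2) (QC.rd 5579 25000) (QC.rn 4)
    (by decide +kernel) h1 h2 h3

theorem a3_0_1_2 {u s t : ℝ} (h1 : (5579 / 25000 : ℝ) ≤ u + 2) (h2 : (5579 / 25000 : ℝ) ≤ s + t + 2) (h3 : t + 1 ≤ (4 : ℝ)) :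
    0 < E1 8 (405000 / 22629049 : ℝ) (81 / 4757 : ℝ) (900 / 4757 : ℝ) (4 : ℝ) ((4 / 5 : ℝ) * (4 / 5 : ℝ)) u s t -
      (409 / 50 : ℝ) * Act 8 (3449956083 / 114706649381 : ℝ) (159 / 9514 : ℝ) (900 / 4757 : ℝ) (3 / 2 : ℝ) ((1 - (4 / 5 : ℝ)) * (1 - (4 / 5 : ℝ))) u s t :=
  QC.chkA 0 0 0 (QC.rd 405000 22629049) (QC.rd 81 4757) (QC.rd 900 4757) (QC.rn 4)
    (QC.rd 4 5) (QC.rd 4 5) (QC.rd 409 50) (QC.rd 3449956083 114706649381) (QC.rd 159 9514) (QC.rd 900 4757) (QC.rd 3 2) (QC.rd 5579 25000) (QC.rn 4)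
    (by decide +kernel) h1 h2 h3

theorem a3_1_0_0 {u s t : ℝ} (h1 : (5579 / 25000 : ℝ) ≤ u + 2) (h2 : (5579 / 25000 : ℝ) ≤ s + t + 2) (h3 : t + 1 ≤ (4 : ℝ)) :
    0 < E1 8 (405000 / 22629049 : ℝ) (81 / 4757 : ℝ) (900 / 4757 : ℝ) (3 / 2 : ℝ) ((4 / 5 : ℝ) * (4 / 5 : ℝ)) u s t -
      (299 : ℝ) * Act 8 (3449956083 / 114706649381 : ℝ) (159 / 9514 : ℝ) (900 / 4757 : ℝ) (3 / 2 : ℝ) ((1 - (4 / 5 : ℝ)) * (1 - (4 / 5 : ℝ))) u s t :=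
  QC.chkA 6 8 9 (QC.rd 405000 22629049) (QC.rd 81 4757) (QC.rd 900 4757) (QC.rd 3 2)
    (QC.rd 4 5) (QC.rd 4 5) (QC.rn 299) (QC.rd 3449956083 114706649381) (QC.rd 159 9514) (QC.rd 900 4757) (QC.rd 3 2) (QC.rd 5579 25000) (QC.rn 4)
    (by decide +kernel) h1 h2 h3

theorem a3_1_0_1 {u s t : ℝ} (h1 : (5579 / 25000 : ℝ) ≤ u + 2) (h2 : (5579 / 25000 : ℝ) ≤ s + t + 2) (h3 : t + 1 ≤ (4 : ℝ)) :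
    0 < E1 8 (405000 / 22629049 : ℝ) (81 / 4757 : ℝ) (900 / 4757 : ℝ) (3 / 2 : ℝ) ((4 / 5 : ℝ) * (1 : ℝ)) u s t -
      (299 : ℝ) * Act 8 (3449956083 / 114706649381 : ℝ) (159 / 9514 : ℝ) (900 / 4757 : ℝ) (3 / 2 : ℝ) ((1 - (4 / 5 : ℝ)) * (1 - (1 : ℝ))) u s t :=
  QC.chkA 10 9 0 (QC.rd 405000 22629049) (QC.rd 81 4757) (QC.rd 900 4757) (QC.rd 3 2)
    (QC.rd 4 5) QC.r1 (QC.rn 299) (QC.rd 3449956083 114706649381) (QC.rd 159 9514) (QC.rd 900 4757) (QC.rd 3 2) (QC.rd 5579 25000) (QC.rn 4)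
    (by decide +kernel) h1 h2 h3

theorem a3_1_0_2 {u s t : ℝ} (h1 : (5579 / 25000 : ℝ) ≤ u + 2) (h2 : (5579 / 25000 : ℝ) ≤ s + t + 2) (h3 : t + 1 ≤ (4 : ℝ)) :
    0 < E1 8 (405000 / 22629049 : ℝ) (81 / 4757 : ℝ) (900 / 4757 : ℝ) (3 / 2 : ℝ) ((1 : ℝ) * (1 : ℝ)) u s t -
      (299 : ℝ) * Act 8 (3449956083 / 114706649381 : ℝ) (159 / 9514 : ℝ) (900 / 4757 : ℝ) (3 / 2 : ℝ) ((1 - (1 : ℝ)) * (1 - (1 : ℝ))) u s t :=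
  QC.chkA (1033 / 100) (44841 / 4757) 0 (QC.rd 405000 22629049) (QC.rd 81 4757) (QC.rd 900 4757) (QC.rd 3 2)
    QC.r1 QC.r1 (QC.rn 299) (QC.rd 3449956083 114706649381) (QC.rd 159 9514) (QC.rd 900 4757) (QC.rd 3 2) (QC.rd 5579 25000) (QC.rn 4)
    (by decide +kernel) h1 h2 h3

theorem a3_1_1_0 {u s t : ℝ} (h1 : (5579 / 25000 : ℝ) ≤ u + 2) (h2 : (5579 / 25000 : ℝ) ≤ s + t + 2) (h3 : t + 1 ≤ (4 : ℝ)) :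
    0 < E1 8 (405000 / 22629049 : ℝ) (81 / 4757 : ℝ) (900 / 4757 : ℝ) (4 : ℝ) ((4 / 5 : ℝ) * (4 / 5 : ℝ)) u s t -
      (798 : ℝ) * Act 8 (3449956083 / 114706649381 : ℝ) (159 / 9514 : ℝ) (900 / 4757 : ℝ) (3 / 2 : ℝ) ((1 - (4 / 5 : ℝ)) * (1 - (4 / 5 : ℝ))) u s t :=
  QC.chkA 16 21 24 (QC.rd 405000 22629049) (QC.rd 81 4757) (QC.rd 900 4757) (QC.rn 4)
    (QC.rd 4 5) (QC.rd 4 5) (QC.rn 798) (QC.rd 3449956083 114706649381) (QC.rd 159 9514) (QC.rd 900 4757) (QC.rd 3 2) (QC.rd 5579 25000) (QC.rn 4)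
    (by decide +kernel) h1 h2 h3

theorem a3_1_1_1 {u s t : ℝ} (h1 : (5579 / 25000 : ℝ) ≤ u + 2) (h2 : (5579 / 25000 : ℝ) ≤ s + t + 2) (h3 : t + 1 ≤ (4 : ℝ)) :
    0 < E1 8 (405000 / 22629049 : ℝ) (81 / 4757 : ℝ) (900 / 4757 : ℝ) (4 : ℝ) ((4 / 5 : ℝ) * (1 : ℝ)) u s t -
      (798 : ℝ) * Act 8 (3449956083 / 114706649381 : ℝ) (159 / 9514 : ℝ) (900 / 4757 : ℝ) (3 / 2 : ℝ) ((1 - (4 / 5 : ℝ)) * (1 - (1 : ℝ))) u s t :=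
  QC.chkA 27 25 0 (QC.rd 405000 22629049) (QC.rd 81 4757) (QC.rd 900 4757) (QC.rn 4)
    (QC.rd 4 5) QC.r1 (QC.rn 798) (QC.rd 3449956083 114706649381) (QC.rd 159 9514) (QC.rd 900 4757) (QC.rd 3 2) (QC.rd 5579 25000) (QC.rn 4)
    (by decide +kernel) h1 h2 h3

theorem a3_1_1_2 {u s t : ℝ} (h1 : (5579 / 25000 : ℝ) ≤ u + 2) (h2 : (5579 / 25000 : ℝ) ≤ s + t + 2) (h3 : t + 1 ≤ (4 : ℝ)) :
    0 < E1 8 (405000 / 22629049 : ℝ) (81 / 4757 : ℝ) (900 / 4757 : ℝ) (4 : ℝ) ((1 : ℝ) * (1 : ℝ)) u s t -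
      (798 : ℝ) * Act 8 (3449956083 / 114706649381 : ℝ) (159 / 9514 : ℝ) (900 / 4757 : ℝ) (3 / 2 : ℝ) ((1 - (1 : ℝ)) * (1 - (1 : ℝ))) u s t :=
  QC.chkA (2779 / 100) (119682 / 4757) 0 (QC.rd 405000 22629049) (QC.rd 81 4757) (QC.rd 900 4757) (QC.rn 4)
    QC.r1 QC.r1 (QC.rn 798) (QC.rd 3449956083 114706649381) (QC.rd 159 9514) (QC.rd 900 4757) (QC.rd 3 2) (QC.rd 5579 25000) (QC.rn 4)
    (by decide +kernel) h1 h2 h3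

theorem pathA {β la : ℝ} {u s t : ℝ} (h1 : (5579 / 25000 : ℝ) ≤ u + 2) (h2 : (5579 / 25000 : ℝ) ≤ s + t + 2) (h3 : t + 1 ≤ (4 : ℝ))
    (β0 : (162 / 4757 : ℝ) ≤ β) (β1 : β ≤ (4 : ℝ)) (la0 : (0 : ℝ) ≤ la) (la1 : la ≤ (1 : ℝ))
    (h4 : 0 ≤ Act 8 (3449956083 / 114706649381 : ℝ) (159 / 9514 : ℝ) (900 / 4757 : ℝ) β ((1 - la) ^ 2) u s t) :
    0 < E1 8 (405000 / 22629049 : ℝ) (81 / 4757 : ℝ) (900 / 4757 : ℝ) β (la ^ 2) u s t := by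
  rcases le_total β (4 / 5 : ℝ) with βh0 | βl0
  · rcases le_total la (7 / 10 : ℝ) with lah0 | lal0
    · exact cellA β0 βh0 (by norm_num) la0 lah0 h4 (by norm_num) (by norm_num)
        (a0_0_0_0 h1 h2 h3) (a0_0_0_1 h1 h2 h3) (a0_0_0_2 h1 h2 h3) (a0_0_1_0 h1 h2 h3) (a0_0_1_1 h1 h2 h3) (a0_0_1_2 h1 h2 h3)
    rcases le_total la (9 / 10 : ℝ) with lah1 | lal1
    · exact cellA β0 βh0 (by norm_num) lal0 lah1 h4 (by norm_num) (by norm_num)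
        (a0_1_0_0 h1 h2 h3) (a0_1_0_1 h1 h2 h3) (a0_1_0_2 h1 h2 h3) (a0_1_1_0 h1 h2 h3) (a0_1_1_1 h1 h2 h3) (a0_1_1_2 h1 h2 h3)
    exact cellA β0 βh0 (by norm_num) lal1 la1 h4 (by norm_num) (by norm_num)
      (a0_2_0_0 h1 h2 h3) (a0_2_0_1 h1 h2 h3) (a0_2_0_2 h1 h2 h3) (a0_2_1_0 h1 h2 h3) (a0_2_1_1 h1 h2 h3) (a0_2_1_2 h1 h2 h3)
  rcases le_total β (1 : ℝ) with βh1 | βl1
  · rcases le_total la (7 / 10 : ℝ) with lah0 | lal0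
    · exact cellA βl0 βh1 (by norm_num) la0 lah0 h4 (by norm_num) (by norm_num)
        (a1_0_0_0 h1 h2 h3) (a1_0_0_1 h1 h2 h3) (a1_0_0_2 h1 h2 h3) (a1_0_1_0 h1 h2 h3) (a1_0_1_1 h1 h2 h3) (a1_0_1_2 h1 h2 h3)
    exact cellA βl0 βh1 (by norm_num) lal0 la1 h4 (by norm_num) (by norm_num)
      (a1_1_0_0 h1 h2 h3) (a1_1_0_1 h1 h2 h3) (a1_1_0_2 h1 h2 h3) (a1_1_1_0 h1 h2 h3) (a1_1_1_1 h1 h2 h3) (a1_1_1_2 h1 h2 h3)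
  rcases le_total β (3 / 2 : ℝ) with βh2 | βl2
  · rcases le_total la (7 / 10 : ℝ) with lah0 | lal0
    · exact cellA βl1 βh2 (by norm_num) la0 lah0 h4 (by norm_num) (by norm_num)
        (a2_0_0_0 h1 h2 h3) (a2_0_0_1 h1 h2 h3) (a2_0_0_2 h1 h2 h3) (a2_0_1_0 h1 h2 h3) (a2_0_1_1 h1 h2 h3) (a2_0_1_2 h1 h2 h3)
    exact cellA βl1 βh2 (by norm_num) lal0 la1 h4 (by norm_num) (by norm_num)
      (a2_1_0_0 h1 h2 h3) (a2_1_0_1 h1 h2 h3) (a2_1_0_2 h1 h2 h3) (a2_1_1_0 h1 h2 h3) (a2_1_1_1 h1 h2 h3) (a2_1_1_2 h1 h2 h3)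
  rcases le_total la (4 / 5 : ℝ) with lah0 | lal0
  · exact cellA βl2 β1 (by norm_num) la0 lah0 h4 (by norm_num) (by norm_num)
      (a3_0_0_0 h1 h2 h3) (a3_0_0_1 h1 h2 h3) (a3_0_0_2 h1 h2 h3) (a3_0_1_0 h1 h2 h3) (a3_0_1_1 h1 h2 h3) (a3_0_1_2 h1 h2 h3)
  exact cellA βl2 β1 (by norm_num) lal0 la1 h4 (by norm_num) (by norm_num)
    (a3_1_0_0 h1 h2 h3) (a3_1_0_1 h1 h2 h3) (a3_1_0_2 h1 h2 h3) (a3_1_1_0 h1 h2 h3) (a3_1_1_1 h1 h2 h3) (a3_1_1_2 h1 h2 h3)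

theorem b0_0_0_0_0 {u s t : ℝ} (h1 : (26879 / 100000 : ℝ) ≤ u + 2) (h2 : (26879 / 100000 : ℝ) ≤ s + t + 2) (h3 : t + 1 ≤ (4 : ℝ)) :
    0 < E2 8 (81 / 4757 : ℝ) (0 : ℝ) ((0 : ℝ) * (0 : ℝ)) u s t -
      (109 / 100 : ℝ) * Act 8 (267 / 5069 : ℝ) (3 / 98 : ℝ) (0 : ℝ) (0 : ℝ) ((1 - (0 : ℝ)) * (1 - (0 : ℝ))) u s t :=
  QC.chkB 0 0 0 (QC.rd 81 4757) QC.r0
    QC.r0 QC.r0 (QC.rd 109 100) (QC.rd 267 5069) (QC.rd 3 98) QC.r0 QC.r0 (QC.rd 26879 100000) (QC.rn 4)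
    (by decide +kernel) h1 h2 h3

theorem b0_0_0_0_1 {u s t : ℝ} (h1 : (26879 / 100000 : ℝ) ≤ u + 2) (h2 : (26879 / 100000 : ℝ) ≤ s + t + 2) (h3 : t + 1 ≤ (4 : ℝ)) :
    0 < E2 8 (81 / 4757 : ℝ) (0 : ℝ) ((0 : ℝ) * (4 / 5 : ℝ)) u s t -
      (109 / 100 : ℝ) * Act 8 (267 / 5069 : ℝ) (3 / 98 : ℝ) (0 : ℝ) (0 : ℝ) ((1 - (0 : ℝ)) * (1 - (4 / 5 : ℝ))) u s t :=
  QC.chkB 0 0 0 (QC.rd 81 4757) QC.r0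
    QC.r0 (QC.rd 4 5) (QC.rd 109 100) (QC.rd 267 5069) (QC.rd 3 98) QC.r0 QC.r0 (QC.rd 26879 100000) (QC.rn 4)
    (by decide +kernel) h1 h2 h3

theorem b0_0_0_0_2 {u s t : ℝ} (h1 : (26879 / 100000 : ℝ) ≤ u + 2) (h2 : (26879 / 100000 : ℝ) ≤ s + t + 2) (h3 : t + 1 ≤ (4 : ℝ)) :
    0 < E2 8 (81 / 4757 : ℝ) (0 : ℝ) ((4 / 5 : ℝ) * (4 / 5 : ℝ)) u s t -
      (109 / 100 : ℝ) * Act 8 (267 / 5069 : ℝ) (3 / 98 : ℝ) (0 : ℝ) (0 : ℝ) ((1 - (4 / 5 : ℝ)) * (1 - (4 / 5 : ℝ))) u s t :=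
  QC.chkB 0 0 0 (QC.rd 81 4757) QC.r0
    (QC.rd 4 5) (QC.rd 4 5) (QC.rd 109 100) (QC.rd 267 5069) (QC.rd 3 98) QC.r0 QC.r0 (QC.rd 26879 100000) (QC.rn 4)
    (by decide +kernel) h1 h2 h3

theorem b0_0_0_1_0 {u s t : ℝ} (h1 : (26879 / 100000 : ℝ) ≤ u + 2) (h2 : (26879 / 100000 : ℝ) ≤ s + t + 2) (h3 : t + 1 ≤ (4 : ℝ)) :
    0 < E2 8 (81 / 4757 : ℝ) (100 / 601 : ℝ) ((0 : ℝ) * (0 : ℝ)) u s t -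
      (263 / 100 : ℝ) * Act 8 (267 / 5069 : ℝ) (3 / 98 : ℝ) (0 : ℝ) (0 : ℝ) ((1 - (0 : ℝ)) * (1 - (0 : ℝ))) u s t :=
  QC.chkB 0 0 0 (QC.rd 81 4757) (QC.rd 100 601)
    QC.r0 QC.r0 (QC.rd 263 100) (QC.rd 267 5069) (QC.rd 3 98) QC.r0 QC.r0 (QC.rd 26879 100000) (QC.rn 4)
    (by decide +kernel) h1 h2 h3

theorem b0_0_0_1_1 {u s t : ℝ} (h1 : (26879 / 100000 : ℝ) ≤ u + 2) (h2 : (26879 / 100000 : ℝ) ≤ s + t + 2) (h3 : t + 1 ≤ (4 : ℝ)) :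
    0 < E2 8 (81 / 4757 : ℝ) (100 / 601 : ℝ) ((0 : ℝ) * (4 / 5 : ℝ)) u s t -
      (263 / 100 : ℝ) * Act 8 (267 / 5069 : ℝ) (3 / 98 : ℝ) (0 : ℝ) (0 : ℝ) ((1 - (0 : ℝ)) * (1 - (4 / 5 : ℝ))) u s t :=
  QC.chkB 0 0 0 (QC.rd 81 4757) (QC.rd 100 601)
    QC.r0 (QC.rd 4 5) (QC.rd 263 100) (QC.rd 267 5069) (QC.rd 3 98) QC.r0 QC.r0 (QC.rd 26879 100000) (QC.rn 4)
    (by decide +kernel) h1 h2 h3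

theorem b0_0_0_1_2 {u s t : ℝ} (h1 : (26879 / 100000 : ℝ) ≤ u + 2) (h2 : (26879 / 100000 : ℝ) ≤ s + t + 2) (h3 : t + 1 ≤ (4 : ℝ)) :
    0 < E2 8 (81 / 4757 : ℝ) (100 / 601 : ℝ) ((4 / 5 : ℝ) * (4 / 5 : ℝ)) u s t -
      (263 / 100 : ℝ) * Act 8 (267 / 5069 : ℝ) (3 / 98 : ℝ) (0 : ℝ) (0 : ℝ) ((1 - (4 / 5 : ℝ)) * (1 - (4 / 5 : ℝ))) u s t :=
  QC.chkB 0 0 0 (QC.rd 81 4757) (QC.rd 100 601)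
    (QC.rd 4 5) (QC.rd 4 5) (QC.rd 263 100) (QC.rd 267 5069) (QC.rd 3 98) QC.r0 QC.r0 (QC.rd 26879 100000) (QC.rn 4)
    (by decide +kernel) h1 h2 h3

theorem b0_0_1_0_0 {u s t : ℝ} (h1 : (26879 / 100000 : ℝ) ≤ u + 2) (h2 : (26879 / 100000 : ℝ) ≤ s + t + 2) (h3 : t + 1 ≤ (4 : ℝ)) :
    0 < E2 8 (81 / 4757 : ℝ) (0 : ℝ) ((4 / 5 : ℝ) * (4 / 5 : ℝ)) u s t -
      (0 : ℝ) * Act 8 (267 / 5069 : ℝ) (3 / 98 : ℝ) (0 : ℝ) (0 : ℝ) ((1 - (4 / 5 : ℝ)) * (1 - (4 / 5 : ℝ))) u s t :=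
  QC.chkB 0 0 0 (QC.rd 81 4757) QC.r0
    (QC.rd 4 5) (QC.rd 4 5) QC.r0 (QC.rd 267 5069) (QC.rd 3 98) QC.r0 QC.r0 (QC.rd 26879 100000) (QC.rn 4)
    (by decide +kernel) h1 h2 h3

theorem b0_0_1_0_1 {u s t : ℝ} (h1 : (26879 / 100000 : ℝ) ≤ u + 2) (h2 : (26879 / 100000 : ℝ) ≤ s + t + 2) (h3 : t + 1 ≤ (4 : ℝ)) :
    0 < E2 8 (81 / 4757 : ℝ) (0 : ℝ) ((4 / 5 : ℝ) * (1 : ℝ)) u s t -
      (0 : ℝ) * Act 8 (267 / 5069 : ℝ) (3 / 98 : ℝ) (0 : ℝ) (0 : ℝ) ((1 - (4 / 5 : ℝ)) * (1 - (1 : ℝ))) u s t :=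
  QC.chkB 0 0 0 (QC.rd 81 4757) QC.r0
    (QC.rd 4 5) QC.r1 QC.r0 (QC.rd 267 5069) (QC.rd 3 98) QC.r0 QC.r0 (QC.rd 26879 100000) (QC.rn 4)
    (by decide +kernel) h1 h2 h3

theorem b0_0_1_0_2 {u s t : ℝ} (h1 : (26879 / 100000 : ℝ) ≤ u + 2) (h2 : (26879 / 100000 : ℝ) ≤ s + t + 2) (h3 : t + 1 ≤ (4 : ℝ)) :
    0 < E2 8 (81 / 4757 : ℝ) (0 : ℝ) ((1 : ℝ) * (1 : ℝ)) u s t -
      (0 : ℝ) * Act 8 (267 / 5069 : ℝ) (3 / 98 : ℝ) (0 : ℝ) (0 : ℝ) ((1 - (1 : ℝ)) * (1 - (1 : ℝ))) u s t :=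
  QC.chkB (1 / 100) 0 0 (QC.rd 81 4757) QC.r0
    QC.r1 QC.r1 QC.r0 (QC.rd 267 5069) (QC.rd 3 98) QC.r0 QC.r0 (QC.rd 26879 100000) (QC.rn 4)
    (by decide +kernel) h1 h2 h3

theorem b0_0_1_1_0 {u s t : ℝ} (h1 : (26879 / 100000 : ℝ) ≤ u + 2) (h2 : (26879 / 100000 : ℝ) ≤ s + t + 2) (h3 : t + 1 ≤ (4 : ℝ)) :
    0 < E2 8 (81 / 4757 : ℝ) (100 / 601 : ℝ) ((4 / 5 : ℝ) * (4 / 5 : ℝ)) u s t -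
      (109 / 10 : ℝ) * Act 8 (267 / 5069 : ℝ) (3 / 98 : ℝ) (0 : ℝ) (0 : ℝ) ((1 - (4 / 5 : ℝ)) * (1 - (4 / 5 : ℝ))) u s t :=
  QC.chkB 0 0 0 (QC.rd 81 4757) (QC.rd 100 601)
    (QC.rd 4 5) (QC.rd 4 5) (QC.rd 109 10) (QC.rd 267 5069) (QC.rd 3 98) QC.r0 QC.r0 (QC.rd 26879 100000) (QC.rn 4)
    (by decide +kernel) h1 h2 h3

theorem b0_0_1_1_1 {u s t : ℝ} (h1 : (26879 / 100000 : ℝ) ≤ u + 2) (h2 : (26879 / 100000 : ℝ) ≤ s + t + 2) (h3 : t + 1 ≤ (4 : ℝ)) :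
    0 < E2 8 (81 / 4757 : ℝ) (100 / 601 : ℝ) ((4 / 5 : ℝ) * (1 : ℝ)) u s t -
      (109 / 10 : ℝ) * Act 8 (267 / 5069 : ℝ) (3 / 98 : ℝ) (0 : ℝ) (0 : ℝ) ((1 - (4 / 5 : ℝ)) * (1 - (1 : ℝ))) u s t :=
  QC.chkB 0 0 0 (QC.rd 81 4757) (QC.rd 100 601)
    (QC.rd 4 5) QC.r1 (QC.rd 109 10) (QC.rd 267 5069) (QC.rd 3 98) QC.r0 QC.r0 (QC.rd 26879 100000) (QC.rn 4)
    (by decide +kernel) h1 h2 h3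

theorem b0_0_1_1_2 {u s t : ℝ} (h1 : (26879 / 100000 : ℝ) ≤ u + 2) (h2 : (26879 / 100000 : ℝ) ≤ s + t + 2) (h3 : t + 1 ≤ (4 : ℝ)) :
    0 < E2 8 (81 / 4757 : ℝ) (100 / 601 : ℝ) ((1 : ℝ) * (1 : ℝ)) u s t -
      (109 / 10 : ℝ) * Act 8 (267 / 5069 : ℝ) (3 / 98 : ℝ) (0 : ℝ) (0 : ℝ) ((1 - (1 : ℝ)) * (1 - (1 : ℝ))) u s t :=
  QC.chkB (139 / 100) (527 / 294490) 0 (QC.rd 81 4757) (QC.rd 100 601)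
    QC.r1 QC.r1 (QC.rd 109 10) (QC.rd 267 5069) (QC.rd 3 98) QC.r0 QC.r0 (QC.rd 26879 100000) (QC.rn 4)
    (by decide +kernel) h1 h2 h3

theorem b0_1_0_0_0 {u s t : ℝ} (h1 : (26879 / 100000 : ℝ) ≤ u + 2) (h2 : (26879 / 100000 : ℝ) ≤ s + t + 2) (h3 : t + 1 ≤ (4 : ℝ)) :
    0 < E2 8 (81 / 4757 : ℝ) (0 : ℝ) ((0 : ℝ) * (0 : ℝ)) u s t -
      (489 / 500 : ℝ) * Act 8 (64440667 / 1830927869 : ℝ) (1163 / 58898 : ℝ) (0 : ℝ) (16 / 601 : ℝ) ((1 - (0 : ℝ)) * (1 - (0 : ℝ))) u s t :=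
  QC.chkB 0 0 0 (QC.rd 81 4757) QC.r0
    QC.r0 QC.r0 (QC.rd 489 500) (QC.rd 64440667 1830927869) (QC.rd 1163 58898) QC.r0 (QC.rd 16 601) (QC.rd 26879 100000) (QC.rn 4)
    (by decide +kernel) h1 h2 h3

theorem b0_1_0_0_1 {u s t : ℝ} (h1 : (26879 / 100000 : ℝ) ≤ u + 2) (h2 : (26879 / 100000 : ℝ) ≤ s + t + 2) (h3 : t + 1 ≤ (4 : ℝ)) :
    0 < E2 8 (81 / 4757 : ℝ) (0 : ℝ) ((0 : ℝ) * (4 / 5 : ℝ)) u s t -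
      (489 / 500 : ℝ) * Act 8 (64440667 / 1830927869 : ℝ) (1163 / 58898 : ℝ) (0 : ℝ) (16 / 601 : ℝ) ((1 - (0 : ℝ)) * (1 - (4 / 5 : ℝ))) u s t :=
  QC.chkB 0 0 0 (QC.rd 81 4757) QC.r0
    QC.r0 (QC.rd 4 5) (QC.rd 489 500) (QC.rd 64440667 1830927869) (QC.rd 1163 58898) QC.r0 (QC.rd 16 601) (QC.rd 26879 100000) (QC.rn 4)
    (by decide +kernel) h1 h2 h3

theorem b0_1_0_0_2 {u s t : ℝ} (h1 : (26879 / 100000 : ℝ) ≤ u + 2) (h2 : (26879 / 100000 : ℝ) ≤ s + t + 2) (h3 : t + 1 ≤ (4 : ℝ)) :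
    0 < E2 8 (81 / 4757 : ℝ) (0 : ℝ) ((4 / 5 : ℝ) * (4 / 5 : ℝ)) u s t -
      (489 / 500 : ℝ) * Act 8 (64440667 / 1830927869 : ℝ) (1163 / 58898 : ℝ) (0 : ℝ) (16 / 601 : ℝ) ((1 - (4 / 5 : ℝ)) * (1 - (4 / 5 : ℝ))) u s t :=
  QC.chkB 0 0 0 (QC.rd 81 4757) QC.r0
    (QC.rd 4 5) (QC.rd 4 5) (QC.rd 489 500) (QC.rd 64440667 1830927869) (QC.rd 1163 58898) QC.r0 (QC.rd 16 601) (QC.rd 26879 100000) (QC.rn 4)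
    (by decide +kernel) h1 h2 h3

theorem b0_1_0_1_0 {u s t : ℝ} (h1 : (26879 / 100000 : ℝ) ≤ u + 2) (h2 : (26879 / 100000 : ℝ) ≤ s + t + 2) (h3 : t + 1 ≤ (4 : ℝ)) :
    0 < E2 8 (81 / 4757 : ℝ) (100 / 601 : ℝ) ((0 : ℝ) * (0 : ℝ)) u s t -
      (121 / 50 : ℝ) * Act 8 (64440667 / 1830927869 : ℝ) (1163 / 58898 : ℝ) (0 : ℝ) (16 / 601 : ℝ) ((1 - (0 : ℝ)) * (1 - (0 : ℝ))) u s t :=
  QC.chkB 0 0 0 (QC.rd 81 4757) (QC.rd 100 601)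
    QC.r0 QC.r0 (QC.rd 121 50) (QC.rd 64440667 1830927869) (QC.rd 1163 58898) QC.r0 (QC.rd 16 601) (QC.rd 26879 100000) (QC.rn 4)
    (by decide +kernel) h1 h2 h3

theorem b0_1_0_1_1 {u s t : ℝ} (h1 : (26879 / 100000 : ℝ) ≤ u + 2) (h2 : (26879 / 100000 : ℝ) ≤ s + t + 2) (h3 : t + 1 ≤ (4 : ℝ)) :
    0 < E2 8 (81 / 4757 : ℝ) (100 / 601 : ℝ) ((0 : ℝ) * (4 / 5 : ℝ)) u s t -
      (121 / 50 : ℝ) * Act 8 (64440667 / 1830927869 : ℝ) (1163 / 58898 : ℝ) (0 : ℝ) (16 / 601 : ℝ) ((1 - (0 : ℝ)) * (1 - (4 / 5 : ℝ))) u s t :=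
  QC.chkB 0 0 0 (QC.rd 81 4757) (QC.rd 100 601)
    QC.r0 (QC.rd 4 5) (QC.rd 121 50) (QC.rd 64440667 1830927869) (QC.rd 1163 58898) QC.r0 (QC.rd 16 601) (QC.rd 26879 100000) (QC.rn 4)
    (by decide +kernel) h1 h2 h3

theorem b0_1_0_1_2 {u s t : ℝ} (h1 : (26879 / 100000 : ℝ) ≤ u + 2) (h2 : (26879 / 100000 : ℝ) ≤ s + t + 2) (h3 : t + 1 ≤ (4 : ℝ)) :
    0 < E2 8 (81 / 4757 : ℝ) (100 / 601 : ℝ) ((4 / 5 : ℝ) * (4 / 5 : ℝ)) u s t -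
      (121 / 50 : ℝ) * Act 8 (64440667 / 1830927869 : ℝ) (1163 / 58898 : ℝ) (0 : ℝ) (16 / 601 : ℝ) ((1 - (4 / 5 : ℝ)) * (1 - (4 / 5 : ℝ))) u s t :=
  QC.chkB 0 0 0 (QC.rd 81 4757) (QC.rd 100 601)
    (QC.rd 4 5) (QC.rd 4 5) (QC.rd 121 50) (QC.rd 64440667 1830927869) (QC.rd 1163 58898) QC.r0 (QC.rd 16 601) (QC.rd 26879 100000) (QC.rn 4)
    (by decide +kernel) h1 h2 h3

theorem b0_1_1_0_0 {u s t : ℝ} (h1 : (26879 / 100000 : ℝ) ≤ u + 2) (h2 : (26879 / 100000 : ℝ) ≤ s + t + 2) (h3 : t + 1 ≤ (4 : ℝ)) :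
    0 < E2 8 (81 / 4757 : ℝ) (0 : ℝ) ((4 / 5 : ℝ) * (4 / 5 : ℝ)) u s t -
      (248 / 5 : ℝ) * Act 8 (64440667 / 1830927869 : ℝ) (1163 / 58898 : ℝ) (0 : ℝ) (16 / 601 : ℝ) ((1 - (4 / 5 : ℝ)) * (1 - (4 / 5 : ℝ))) u s t :=
  QC.chkB 0 (2 / 5) 0 (QC.rd 81 4757) QC.r0
    (QC.rd 4 5) (QC.rd 4 5) (QC.rd 248 5) (QC.rd 64440667 1830927869) (QC.rd 1163 58898) QC.r0 (QC.rd 16 601) (QC.rd 26879 100000) (QC.rn 4)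
    (by decide +kernel) h1 h2 h3

theorem b0_1_1_0_1 {u s t : ℝ} (h1 : (26879 / 100000 : ℝ) ≤ u + 2) (h2 : (26879 / 100000 : ℝ) ≤ s + t + 2) (h3 : t + 1 ≤ (4 : ℝ)) :
    0 < E2 8 (81 / 4757 : ℝ) (0 : ℝ) ((4 / 5 : ℝ) * (1 : ℝ)) u s t -
      (248 / 5 : ℝ) * Act 8 (64440667 / 1830927869 : ℝ) (1163 / 58898 : ℝ) (0 : ℝ) (16 / 601 : ℝ) ((1 - (4 / 5 : ℝ)) * (1 - (1 : ℝ))) u s t :=
  QC.chkB 0 2 0 (QC.rd 81 4757) QC.r0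
    (QC.rd 4 5) QC.r1 (QC.rd 248 5) (QC.rd 64440667 1830927869) (QC.rd 1163 58898) QC.r0 (QC.rd 16 601) (QC.rd 26879 100000) (QC.rn 4)
    (by decide +kernel) h1 h2 h3

theorem b0_1_1_0_2 {u s t : ℝ} (h1 : (26879 / 100000 : ℝ) ≤ u + 2) (h2 : (26879 / 100000 : ℝ) ≤ s + t + 2) (h3 : t + 1 ≤ (4 : ℝ)) :
    0 < E2 8 (81 / 4757 : ℝ) (0 : ℝ) ((1 : ℝ) * (1 : ℝ)) u s t -
      (248 / 5 : ℝ) * Act 8 (64440667 / 1830927869 : ℝ) (1163 / 58898 : ℝ) (0 : ℝ) (16 / 601 : ℝ) ((1 - (1 : ℝ)) * (1 - (1 : ℝ))) u s t :=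
  QC.chkB (69 / 50) (288424 / 147245) 0 (QC.rd 81 4757) QC.r0
    QC.r1 QC.r1 (QC.rd 248 5) (QC.rd 64440667 1830927869) (QC.rd 1163 58898) QC.r0 (QC.rd 16 601) (QC.rd 26879 100000) (QC.rn 4)
    (by decide +kernel) h1 h2 h3

theorem b0_1_1_1_0 {u s t : ℝ} (h1 : (26879 / 100000 : ℝ) ≤ u + 2) (h2 : (26879 / 100000 : ℝ) ≤ s + t + 2) (h3 : t + 1 ≤ (4 : ℝ)) :
    0 < E2 8 (81 / 4757 : ℝ) (100 / 601 : ℝ) ((4 / 5 : ℝ) * (4 / 5 : ℝ)) u s t -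
      (589 / 10 : ℝ) * Act 8 (64440667 / 1830927869 : ℝ) (1163 / 58898 : ℝ) (0 : ℝ) (16 / 601 : ℝ) ((1 - (4 / 5 : ℝ)) * (1 - (4 / 5 : ℝ))) u s t :=
  QC.chkB 2 0 0 (QC.rd 81 4757) (QC.rd 100 601)
    (QC.rd 4 5) (QC.rd 4 5) (QC.rd 589 10) (QC.rd 64440667 1830927869) (QC.rd 1163 58898) QC.r0 (QC.rd 16 601) (QC.rd 26879 100000) (QC.rn 4)
    (by decide +kernel) h1 h2 h3

theorem b0_1_1_1_1 {u s t : ℝ} (h1 : (26879 / 100000 : ℝ) ≤ u + 2) (h2 : (26879 / 100000 : ℝ) ≤ s + t + 2) (h3 : t + 1 ≤ (4 : ℝ)) :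
    0 < E2 8 (81 / 4757 : ℝ) (100 / 601 : ℝ) ((4 / 5 : ℝ) * (1 : ℝ)) u s t -
      (589 / 10 : ℝ) * Act 8 (64440667 / 1830927869 : ℝ) (1163 / 58898 : ℝ) (0 : ℝ) (16 / 601 : ℝ) ((1 - (4 / 5 : ℝ)) * (1 - (1 : ℝ))) u s t :=
  QC.chkB 4 1 0 (QC.rd 81 4757) (QC.rd 100 601)
    (QC.rd 4 5) QC.r1 (QC.rd 589 10) (QC.rd 64440667 1830927869) (QC.rd 1163 58898) QC.r0 (QC.rd 16 601) (QC.rd 26879 100000) (QC.rn 4)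
    (by decide +kernel) h1 h2 h3

theorem b0_1_1_1_2 {u s t : ℝ} (h1 : (26879 / 100000 : ℝ) ≤ u + 2) (h2 : (26879 / 100000 : ℝ) ≤ s + t + 2) (h3 : t + 1 ≤ (4 : ℝ)) :
    0 < E2 8 (81 / 4757 : ℝ) (100 / 601 : ℝ) ((1 : ℝ) * (1 : ℝ)) u s t -
      (589 / 10 : ℝ) * Act 8 (64440667 / 1830927869 : ℝ) (1163 / 58898 : ℝ) (0 : ℝ) (16 / 601 : ℝ) ((1 - (1 : ℝ)) * (1 - (1 : ℝ))) u s t :=
  QC.chkB (58 / 25) (489007 / 294490) 0 (QC.rd 81 4757) (QC.rd 100 601)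
    QC.r1 QC.r1 (QC.rd 589 10) (QC.rd 64440667 1830927869) (QC.rd 1163 58898) QC.r0 (QC.rd 16 601) (QC.rd 26879 100000) (QC.rn 4)
    (by decide +kernel) h1 h2 h3

theorem pathB0 {α la : ℝ} {u s t : ℝ} (h1 : (26879 / 100000 : ℝ) ≤ u + 2) (h2 : (26879 / 100000 : ℝ) ≤ s + t + 2) (h3 : t + 1 ≤ (4 : ℝ))
    (α0 : (0 : ℝ) ≤ α) (α1 : α ≤ (100 / 601 : ℝ)) (la0 : (0 : ℝ) ≤ la) (la1 : la ≤ (1 : ℝ))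
    (h4 : 0 ≤ Act 8 (267 / 5069 : ℝ) (3 / 98 : ℝ) (0 : ℝ) (0 : ℝ) ((1 - la) ^ 2) u s t ∨
      0 ≤ Act 8 (64440667 / 1830927869 : ℝ) (1163 / 58898 : ℝ) (0 : ℝ) (16 / 601 : ℝ) ((1 - la) ^ 2) u s t) :
    0 < E2 8 (81 / 4757 : ℝ) α (la ^ 2) u s t := by
  rcases h4 with h4 | h4
  · rcases le_total la (4 / 5 : ℝ) with lah0 | lal0
    · exact cellB α0 α1 (by norm_num) la0 lah0 h4 (by norm_num) (by norm_num)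
        (b0_0_0_0_0 h1 h2 h3) (b0_0_0_0_1 h1 h2 h3) (b0_0_0_0_2 h1 h2 h3) (b0_0_0_1_0 h1 h2 h3) (b0_0_0_1_1 h1 h2 h3) (b0_0_0_1_2 h1 h2 h3)
    exact cellB α0 α1 (by norm_num) lal0 la1 h4 (by norm_num) (by norm_num)
      (b0_0_1_0_0 h1 h2 h3) (b0_0_1_0_1 h1 h2 h3) (b0_0_1_0_2 h1 h2 h3) (b0_0_1_1_0 h1 h2 h3) (b0_0_1_1_1 h1 h2 h3) (b0_0_1_1_2 h1 h2 h3)
  · rcases le_total la (4 / 5 : ℝ) with lah0 | lal0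
    · exact cellB α0 α1 (by norm_num) la0 lah0 h4 (by norm_num) (by norm_num)
        (b0_1_0_0_0 h1 h2 h3) (b0_1_0_0_1 h1 h2 h3) (b0_1_0_0_2 h1 h2 h3) (b0_1_0_1_0 h1 h2 h3) (b0_1_0_1_1 h1 h2 h3) (b0_1_0_1_2 h1 h2 h3)
    exact cellB α0 α1 (by norm_num) lal0 la1 h4 (by norm_num) (by norm_num)
      (b0_1_1_0_0 h1 h2 h3) (b0_1_1_0_1 h1 h2 h3) (b0_1_1_0_2 h1 h2 h3) (b0_1_1_1_0 h1 h2 h3) (b0_1_1_1_1 h1 h2 h3) (b0_1_1_1_2 h1 h2 h3)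

theorem b1_0_0_0_0 {u s t : ℝ} (h1 : (5579 / 25000 : ℝ) ≤ u + 2) (h2 : (5579 / 25000 : ℝ) ≤ s + t + 2) (h3 : t + 1 ≤ (4 : ℝ)) :
    0 < E2 8 (81 / 4757 : ℝ) (100 / 601 : ℝ) ((0 : ℝ) * (0 : ℝ)) u s t -
      (21 / 10 : ℝ) * Act 8 (64440667 / 1830927869 : ℝ) (1163 / 58898 : ℝ) (100 / 601 : ℝ) (16 / 601 : ℝ) ((1 - (0 : ℝ)) * (1 - (0 : ℝ))) u s t :=
  QC.chkB 0 0 0 (QC.rd 81 4757) (QC.rd 100 601)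
    QC.r0 QC.r0 (QC.rd 21 10) (QC.rd 64440667 1830927869) (QC.rd 1163 58898) (QC.rd 100 601) (QC.rd 16 601) (QC.rd 5579 25000) (QC.rn 4)
    (by decide +kernel) h1 h2 h3

theorem b1_0_0_0_1 {u s t : ℝ} (h1 : (5579 / 25000 : ℝ) ≤ u + 2) (h2 : (5579 / 25000 : ℝ) ≤ s + t + 2) (h3 : t + 1 ≤ (4 : ℝ)) :
    0 < E2 8 (81 / 4757 : ℝ) (100 / 601 : ℝ) ((0 : ℝ) * (7 / 10 : ℝ)) u s t -
      (21 / 10 : ℝ) * Act 8 (64440667 / 1830927869 : ℝ) (1163 / 58898 : ℝ) (100 / 601 : ℝ) (16 / 601 : ℝ) ((1 - (0 : ℝ)) * (1 - (7 / 10 : ℝ))) u s t :=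
  QC.chkB 0 0 0 (QC.rd 81 4757) (QC.rd 100 601)
    QC.r0 (QC.rd 7 10) (QC.rd 21 10) (QC.rd 64440667 1830927869) (QC.rd 1163 58898) (QC.rd 100 601) (QC.rd 16 601) (QC.rd 5579 25000) (QC.rn 4)
    (by decide +kernel) h1 h2 h3

theorem b1_0_0_0_2 {u s t : ℝ} (h1 : (5579 / 25000 : ℝ) ≤ u + 2) (h2 : (5579 / 25000 : ℝ) ≤ s + t + 2) (h3 : t + 1 ≤ (4 : ℝ)) :
    0 < E2 8 (81 / 4757 : ℝ) (100 / 601 : ℝ) ((7 / 10 : ℝ) * (7 / 10 : ℝ)) u s t -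
      (21 / 10 : ℝ) * Act 8 (64440667 / 1830927869 : ℝ) (1163 / 58898 : ℝ) (100 / 601 : ℝ) (16 / 601 : ℝ) ((1 - (7 / 10 : ℝ)) * (1 - (7 / 10 : ℝ))) u s t :=
  QC.chkB 0 0 0 (QC.rd 81 4757) (QC.rd 100 601)
    (QC.rd 7 10) (QC.rd 7 10) (QC.rd 21 10) (QC.rd 64440667 1830927869) (QC.rd 1163 58898) (QC.rd 100 601) (QC.rd 16 601) (QC.rd 5579 25000) (QC.rn 4)
    (by decide +kernel) h1 h2 h3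

theorem b1_0_0_1_0 {u s t : ℝ} (h1 : (5579 / 25000 : ℝ) ≤ u + 2) (h2 : (5579 / 25000 : ℝ) ≤ s + t + 2) (h3 : t + 1 ≤ (4 : ℝ)) :
    0 < E2 8 (81 / 4757 : ℝ) (900 / 4757 : ℝ) ((0 : ℝ) * (0 : ℝ)) u s t -
      (109 / 50 : ℝ) * Act 8 (64440667 / 1830927869 : ℝ) (1163 / 58898 : ℝ) (100 / 601 : ℝ) (16 / 601 : ℝ) ((1 - (0 : ℝ)) * (1 - (0 : ℝ))) u s t :=
  QC.chkB 0 0 0 (QC.rd 81 4757) (QC.rd 900 4757)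
    QC.r0 QC.r0 (QC.rd 109 50) (QC.rd 64440667 1830927869) (QC.rd 1163 58898) (QC.rd 100 601) (QC.rd 16 601) (QC.rd 5579 25000) (QC.rn 4)
    (by decide +kernel) h1 h2 h3

theorem b1_0_0_1_1 {u s t : ℝ} (h1 : (5579 / 25000 : ℝ) ≤ u + 2) (h2 : (5579 / 25000 : ℝ) ≤ s + t + 2) (h3 : t + 1 ≤ (4 : ℝ)) :
    0 < E2 8 (81 / 4757 : ℝ) (900 / 4757 : ℝ) ((0 : ℝ) * (7 / 10 : ℝ)) u s t -
      (109 / 50 : ℝ) * Act 8 (64440667 / 1830927869 : ℝ) (1163 / 58898 : ℝ) (100 / 601 : ℝ) (16 / 601 : ℝ) ((1 - (0 : ℝ)) * (1 - (7 / 10 : ℝ))) u s t :=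
  QC.chkB 0 0 0 (QC.rd 81 4757) (QC.rd 900 4757)
    QC.r0 (QC.rd 7 10) (QC.rd 109 50) (QC.rd 64440667 1830927869) (QC.rd 1163 58898) (QC.rd 100 601) (QC.rd 16 601) (QC.rd 5579 25000) (QC.rn 4)
    (by decide +kernel) h1 h2 h3

theorem b1_0_0_1_2 {u s t : ℝ} (h1 : (5579 / 25000 : ℝ) ≤ u + 2) (h2 : (5579 / 25000 : ℝ) ≤ s + t + 2) (h3 : t + 1 ≤ (4 : ℝ)) :
    0 < E2 8 (81 / 4757 : ℝ) (900 / 4757 : ℝ) ((7 / 10 : ℝ) * (7 / 10 : ℝ)) u s t -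
      (109 / 50 : ℝ) * Act 8 (64440667 / 1830927869 : ℝ) (1163 / 58898 : ℝ) (100 / 601 : ℝ) (16 / 601 : ℝ) ((1 - (7 / 10 : ℝ)) * (1 - (7 / 10 : ℝ))) u s t :=
  QC.chkB 0 0 0 (QC.rd 81 4757) (QC.rd 900 4757)
    (QC.rd 7 10) (QC.rd 7 10) (QC.rd 109 50) (QC.rd 64440667 1830927869) (QC.rd 1163 58898) (QC.rd 100 601) (QC.rd 16 601) (QC.rd 5579 25000) (QC.rn 4)
    (by decide +kernel) h1 h2 h3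

theorem b1_0_1_0_0 {u s t : ℝ} (h1 : (5579 / 25000 : ℝ) ≤ u + 2) (h2 : (5579 / 25000 : ℝ) ≤ s + t + 2) (h3 : t + 1 ≤ (4 : ℝ)) :
    0 < E2 8 (81 / 4757 : ℝ) (100 / 601 : ℝ) ((7 / 10 : ℝ) * (7 / 10 : ℝ)) u s t -
      (149 / 10 : ℝ) * Act 8 (64440667 / 1830927869 : ℝ) (1163 / 58898 : ℝ) (100 / 601 : ℝ) (16 / 601 : ℝ) ((1 - (7 / 10 : ℝ)) * (1 - (7 / 10 : ℝ))) u s t :=
  QC.chkB 0 0 0 (QC.rd 81 4757) (QC.rd 100 601)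
    (QC.rd 7 10) (QC.rd 7 10) (QC.rd 149 10) (QC.rd 64440667 1830927869) (QC.rd 1163 58898) (QC.rd 100 601) (QC.rd 16 601) (QC.rd 5579 25000) (QC.rn 4)
    (by decide +kernel) h1 h2 h3

theorem b1_0_1_0_1 {u s t : ℝ} (h1 : (5579 / 25000 : ℝ) ≤ u + 2) (h2 : (5579 / 25000 : ℝ) ≤ s + t + 2) (h3 : t + 1 ≤ (4 : ℝ)) :
    0 < E2 8 (81 / 4757 : ℝ) (100 / 601 : ℝ) ((7 / 10 : ℝ) * (9 / 10 : ℝ)) u s t -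
      (149 / 10 : ℝ) * Act 8 (64440667 / 1830927869 : ℝ) (1163 / 58898 : ℝ) (100 / 601 : ℝ) (16 / 601 : ℝ) ((1 - (7 / 10 : ℝ)) * (1 - (9 / 10 : ℝ))) u s t :=
  QC.chkB 0 0 0 (QC.rd 81 4757) (QC.rd 100 601)
    (QC.rd 7 10) (QC.rd 9 10) (QC.rd 149 10) (QC.rd 64440667 1830927869) (QC.rd 1163 58898) (QC.rd 100 601) (QC.rd 16 601) (QC.rd 5579 25000) (QC.rn 4)
    (by decide +kernel) h1 h2 h3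

theorem b1_0_1_0_2 {u s t : ℝ} (h1 : (5579 / 25000 : ℝ) ≤ u + 2) (h2 : (5579 / 25000 : ℝ) ≤ s + t + 2) (h3 : t + 1 ≤ (4 : ℝ)) :
    0 < E2 8 (81 / 4757 : ℝ) (100 / 601 : ℝ) ((9 / 10 : ℝ) * (9 / 10 : ℝ)) u s t -
      (149 / 10 : ℝ) * Act 8 (64440667 / 1830927869 : ℝ) (1163 / 58898 : ℝ) (100 / 601 : ℝ) (16 / 601 : ℝ) ((1 - (9 / 10 : ℝ)) * (1 - (9 / 10 : ℝ))) u s t :=
  QC.chkB 0 0 0 (QC.rd 81 4757) (QC.rd 100 601)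
    (QC.rd 9 10) (QC.rd 9 10) (QC.rd 149 10) (QC.rd 64440667 1830927869) (QC.rd 1163 58898) (QC.rd 100 601) (QC.rd 16 601) (QC.rd 5579 25000) (QC.rn 4)
    (by decide +kernel) h1 h2 h3

theorem b1_0_1_1_0 {u s t : ℝ} (h1 : (5579 / 25000 : ℝ) ≤ u + 2) (h2 : (5579 / 25000 : ℝ) ≤ s + t + 2) (h3 : t + 1 ≤ (4 : ℝ)) :
    0 < E2 8 (81 / 4757 : ℝ) (900 / 4757 : ℝ) ((7 / 10 : ℝ) * (7 / 10 : ℝ)) u s t -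
      (153 / 10 : ℝ) * Act 8 (64440667 / 1830927869 : ℝ) (1163 / 58898 : ℝ) (100 / 601 : ℝ) (16 / 601 : ℝ) ((1 - (7 / 10 : ℝ)) * (1 - (7 / 10 : ℝ))) u s t :=
  QC.chkB 0 0 0 (QC.rd 81 4757) (QC.rd 900 4757)
    (QC.rd 7 10) (QC.rd 7 10) (QC.rd 153 10) (QC.rd 64440667 1830927869) (QC.rd 1163 58898) (QC.rd 100 601) (QC.rd 16 601) (QC.rd 5579 25000) (QC.rn 4)
    (by decide +kernel) h1 h2 h3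

theorem b1_0_1_1_1 {u s t : ℝ} (h1 : (5579 / 25000 : ℝ) ≤ u + 2) (h2 : (5579 / 25000 : ℝ) ≤ s + t + 2) (h3 : t + 1 ≤ (4 : ℝ)) :
    0 < E2 8 (81 / 4757 : ℝ) (900 / 4757 : ℝ) ((7 / 10 : ℝ) * (9 / 10 : ℝ)) u s t -
      (153 / 10 : ℝ) * Act 8 (64440667 / 1830927869 : ℝ) (1163 / 58898 : ℝ) (100 / 601 : ℝ) (16 / 601 : ℝ) ((1 - (7 / 10 : ℝ)) * (1 - (9 / 10 : ℝ))) u s t :=
  QC.chkB 0 0 0 (QC.rd 81 4757) (QC.rd 900 4757)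
    (QC.rd 7 10) (QC.rd 9 10) (QC.rd 153 10) (QC.rd 64440667 1830927869) (QC.rd 1163 58898) (QC.rd 100 601) (QC.rd 16 601) (QC.rd 5579 25000) (QC.rn 4)
    (by decide +kernel) h1 h2 h3

theorem b1_0_1_1_2 {u s t : ℝ} (h1 : (5579 / 25000 : ℝ) ≤ u + 2) (h2 : (5579 / 25000 : ℝ) ≤ s + t + 2) (h3 : t + 1 ≤ (4 : ℝ)) :
    0 < E2 8 (81 / 4757 : ℝ) (900 / 4757 : ℝ) ((9 / 10 : ℝ) * (9 / 10 : ℝ)) u s t -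
      (153 / 10 : ℝ) * Act 8 (64440667 / 1830927869 : ℝ) (1163 / 58898 : ℝ) (100 / 601 : ℝ) (16 / 601 : ℝ) ((1 - (9 / 10 : ℝ)) * (1 - (9 / 10 : ℝ))) u s t :=
  QC.chkB 0 0 0 (QC.rd 81 4757) (QC.rd 900 4757)
    (QC.rd 9 10) (QC.rd 9 10) (QC.rd 153 10) (QC.rd 64440667 1830927869) (QC.rd 1163 58898) (QC.rd 100 601) (QC.rd 16 601) (QC.rd 5579 25000) (QC.rn 4)
    (by decide +kernel) h1 h2 h3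

theorem b1_0_2_0_0 {u s t : ℝ} (h1 : (5579 / 25000 : ℝ) ≤ u + 2) (h2 : (5579 / 25000 : ℝ) ≤ s + t + 2) (h3 : t + 1 ≤ (4 : ℝ)) :
    0 < E2 8 (81 / 4757 : ℝ) (100 / 601 : ℝ) ((9 / 10 : ℝ) * (9 / 10 : ℝ)) u s t -
      (130 : ℝ) * Act 8 (64440667 / 1830927869 : ℝ) (1163 / 58898 : ℝ) (100 / 601 : ℝ) (16 / 601 : ℝ) ((1 - (9 / 10 : ℝ)) * (1 - (9 / 10 : ℝ))) u s t :=
  QC.chkB (59 / 10) (18 / 5) 0 (QC.rd 81 4757) (QC.rd 100 601)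
    (QC.rd 9 10) (QC.rd 9 10) (QC.rn 130) (QC.rd 64440667 1830927869) (QC.rd 1163 58898) (QC.rd 100 601) (QC.rd 16 601) (QC.rd 5579 25000) (QC.rn 4)
    (by decide +kernel) h1 h2 h3

theorem b1_0_2_0_1 {u s t : ℝ} (h1 : (5579 / 25000 : ℝ) ≤ u + 2) (h2 : (5579 / 25000 : ℝ) ≤ s + t + 2) (h3 : t + 1 ≤ (4 : ℝ)) :
    0 < E2 8 (81 / 4757 : ℝ) (100 / 601 : ℝ) ((9 / 10 : ℝ) * (1 : ℝ)) u s t -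
      (130 : ℝ) * Act 8 (64440667 / 1830927869 : ℝ) (1163 / 58898 : ℝ) (100 / 601 : ℝ) (16 / 601 : ℝ) ((1 - (9 / 10 : ℝ)) * (1 - (1 : ℝ))) u s t :=
  QC.chkB 7 4 0 (QC.rd 81 4757) (QC.rd 100 601)
    (QC.rd 9 10) QC.r1 (QC.rn 130) (QC.rd 64440667 1830927869) (QC.rd 1163 58898) (QC.rd 100 601) (QC.rd 16 601) (QC.rd 5579 25000) (QC.rn 4)
    (by decide +kernel) h1 h2 h3

theorem b1_0_2_0_2 {u s t : ℝ} (h1 : (5579 / 25000 : ℝ) ≤ u + 2) (h2 : (5579 / 25000 : ℝ) ≤ s + t + 2) (h3 : t + 1 ≤ (4 : ℝ)) :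
    0 < E2 8 (81 / 4757 : ℝ) (100 / 601 : ℝ) ((1 : ℝ) * (1 : ℝ)) u s t -
      (130 : ℝ) * Act 8 (64440667 / 1830927869 : ℝ) (1163 / 58898 : ℝ) (100 / 601 : ℝ) (16 / 601 : ℝ) ((1 - (1 : ℝ)) * (1 - (1 : ℝ))) u s t :=
  QC.chkB (279 / 50) (131590 / 29449) 0 (QC.rd 81 4757) (QC.rd 100 601)
    QC.r1 QC.r1 (QC.rn 130) (QC.rd 64440667 1830927869) (QC.rd 1163 58898) (QC.rd 100 601) (QC.rd 16 601) (QC.rd 5579 25000) (QC.rn 4)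
    (by decide +kernel) h1 h2 h3

theorem b1_0_2_1_0 {u s t : ℝ} (h1 : (5579 / 25000 : ℝ) ≤ u + 2) (h2 : (5579 / 25000 : ℝ) ≤ s + t + 2) (h3 : t + 1 ≤ (4 : ℝ)) :
    0 < E2 8 (81 / 4757 : ℝ) (900 / 4757 : ℝ) ((9 / 10 : ℝ) * (9 / 10 : ℝ)) u s t -
      (132 : ℝ) * Act 8 (64440667 / 1830927869 : ℝ) (1163 / 58898 : ℝ) (100 / 601 : ℝ) (16 / 601 : ℝ) ((1 - (9 / 10 : ℝ)) * (1 - (9 / 10 : ℝ))) u s t :=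
  QC.chkB (31 / 5) (18 / 5) 0 (QC.rd 81 4757) (QC.rd 900 4757)
    (QC.rd 9 10) (QC.rd 9 10) (QC.rn 132) (QC.rd 64440667 1830927869) (QC.rd 1163 58898) (QC.rd 100 601) (QC.rd 16 601) (QC.rd 5579 25000) (QC.rn 4)
    (by decide +kernel) h1 h2 h3

theorem b1_0_2_1_1 {u s t : ℝ} (h1 : (5579 / 25000 : ℝ) ≤ u + 2) (h2 : (5579 / 25000 : ℝ) ≤ s + t + 2) (h3 : t + 1 ≤ (4 : ℝ)) :
    0 < E2 8 (81 / 4757 : ℝ) (900 / 4757 : ℝ) ((9 / 10 : ℝ) * (1 : ℝ)) u s t -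
      (132 : ℝ) * Act 8 (64440667 / 1830927869 : ℝ) (1163 / 58898 : ℝ) (100 / 601 : ℝ) (16 / 601 : ℝ) ((1 - (9 / 10 : ℝ)) * (1 - (1 : ℝ))) u s t :=
  QC.chkB 7 4 0 (QC.rd 81 4757) (QC.rd 900 4757)
    (QC.rd 9 10) QC.r1 (QC.rn 132) (QC.rd 64440667 1830927869) (QC.rd 1163 58898) (QC.rd 100 601) (QC.rd 16 601) (QC.rd 5579 25000) (QC.rn 4)
    (by decide +kernel) h1 h2 h3

theorem b1_0_2_1_2 {u s t : ℝ} (h1 : (5579 / 25000 : ℝ) ≤ u + 2) (h2 : (5579 / 25000 : ℝ) ≤ s + t + 2) (h3 : t + 1 ≤ (4 : ℝ)) :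
    0 < E2 8 (81 / 4757 : ℝ) (900 / 4757 : ℝ) ((1 : ℝ) * (1 : ℝ)) u s t -
      (132 : ℝ) * Act 8 (64440667 / 1830927869 : ℝ) (1163 / 58898 : ℝ) (100 / 601 : ℝ) (16 / 601 : ℝ) ((1 - (1 : ℝ)) * (1 - (1 : ℝ))) u s t :=
  QC.chkB (287 / 50) (624259212 / 140088893) 0 (QC.rd 81 4757) (QC.rd 900 4757)
    QC.r1 QC.r1 (QC.rn 132) (QC.rd 64440667 1830927869) (QC.rd 1163 58898) (QC.rd 100 601) (QC.rd 16 601) (QC.rd 5579 25000) (QC.rn 4)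
    (by decide +kernel) h1 h2 h3

theorem b1_1_0_0_0 {u s t : ℝ} (h1 : (5579 / 25000 : ℝ) ≤ u + 2) (h2 : (5579 / 25000 : ℝ) ≤ s + t + 2) (h3 : t + 1 ≤ (4 : ℝ)) :
    0 < E2 8 (81 / 4757 : ℝ) (100 / 601 : ℝ) ((0 : ℝ) * (0 : ℝ)) u s t -
      (67 / 50 : ℝ) * Act 8 (3449956083 / 114706649381 : ℝ) (159 / 9514 : ℝ) (100 / 601 : ℝ) (162 / 4757 : ℝ) ((1 - (0 : ℝ)) * (1 - (0 : ℝ))) u s t :=
  QC.chkB 0 0 0 (QC.rd 81 4757) (QC.rd 100 601)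
    QC.r0 QC.r0 (QC.rd 67 50) (QC.rd 3449956083 114706649381) (QC.rd 159 9514) (QC.rd 100 601) (QC.rd 162 4757) (QC.rd 5579 25000) (QC.rn 4)
    (by decide +kernel) h1 h2 h3

theorem b1_1_0_0_1 {u s t : ℝ} (h1 : (5579 / 25000 : ℝ) ≤ u + 2) (h2 : (5579 / 25000 : ℝ) ≤ s + t + 2) (h3 : t + 1 ≤ (4 : ℝ)) :
    0 < E2 8 (81 / 4757 : ℝ) (100 / 601 : ℝ) ((0 : ℝ) * (7 / 10 : ℝ)) u s t -
      (67 / 50 : ℝ) * Act 8 (3449956083 / 114706649381 : ℝ) (159 / 9514 : ℝ) (100 / 601 : ℝ) (162 / 4757 : ℝ) ((1 - (0 : ℝ)) * (1 - (7 / 10 : ℝ))) u s t :=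
  QC.chkB 0 0 0 (QC.rd 81 4757) (QC.rd 100 601)
    QC.r0 (QC.rd 7 10) (QC.rd 67 50) (QC.rd 3449956083 114706649381) (QC.rd 159 9514) (QC.rd 100 601) (QC.rd 162 4757) (QC.rd 5579 25000) (QC.rn 4)
    (by decide +kernel) h1 h2 h3

theorem b1_1_0_0_2 {u s t : ℝ} (h1 : (5579 / 25000 : ℝ) ≤ u + 2) (h2 : (5579 / 25000 : ℝ) ≤ s + t + 2) (h3 : t + 1 ≤ (4 : ℝ)) :
    0 < E2 8 (81 / 4757 : ℝ) (100 / 601 : ℝ) ((7 / 10 : ℝ) * (7 / 10 : ℝ)) u s t -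
      (67 / 50 : ℝ) * Act 8 (3449956083 / 114706649381 : ℝ) (159 / 9514 : ℝ) (100 / 601 : ℝ) (162 / 4757 : ℝ) ((1 - (7 / 10 : ℝ)) * (1 - (7 / 10 : ℝ))) u s t :=
  QC.chkB 0 0 0 (QC.rd 81 4757) (QC.rd 100 601)
    (QC.rd 7 10) (QC.rd 7 10) (QC.rd 67 50) (QC.rd 3449956083 114706649381) (QC.rd 159 9514) (QC.rd 100 601) (QC.rd 162 4757) (QC.rd 5579 25000) (QC.rn 4)
    (by decide +kernel) h1 h2 h3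

theorem b1_1_0_1_0 {u s t : ℝ} (h1 : (5579 / 25000 : ℝ) ≤ u + 2) (h2 : (5579 / 25000 : ℝ) ≤ s + t + 2) (h3 : t + 1 ≤ (4 : ℝ)) :
    0 < E2 8 (81 / 4757 : ℝ) (900 / 4757 : ℝ) ((0 : ℝ) * (0 : ℝ)) u s t -
      (83 / 50 : ℝ) * Act 8 (3449956083 / 114706649381 : ℝ) (159 / 9514 : ℝ) (100 / 601 : ℝ) (162 / 4757 : ℝ) ((1 - (0 : ℝ)) * (1 - (0 : ℝ))) u s t :=
  QC.chkB 0 0 0 (QC.rd 81 4757) (QC.rd 900 4757)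
    QC.r0 QC.r0 (QC.rd 83 50) (QC.rd 3449956083 114706649381) (QC.rd 159 9514) (QC.rd 100 601) (QC.rd 162 4757) (QC.rd 5579 25000) (QC.rn 4)
    (by decide +kernel) h1 h2 h3

theorem b1_1_0_1_1 {u s t : ℝ} (h1 : (5579 / 25000 : ℝ) ≤ u + 2) (h2 : (5579 / 25000 : ℝ) ≤ s + t + 2) (h3 : t + 1 ≤ (4 : ℝ)) :
    0 < E2 8 (81 / 4757 : ℝ) (900 / 4757 : ℝ) ((0 : ℝ) * (7 / 10 : ℝ)) u s t -
      (83 / 50 : ℝ) * Act 8 (3449956083 / 114706649381 : ℝ) (159 / 9514 : ℝ) (100 / 601 : ℝ) (162 / 4757 : ℝ) ((1 - (0 : ℝ)) * (1 - (7 / 10 : ℝ))) u s t :=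
  QC.chkB 0 0 0 (QC.rd 81 4757) (QC.rd 900 4757)
    QC.r0 (QC.rd 7 10) (QC.rd 83 50) (QC.rd 3449956083 114706649381) (QC.rd 159 9514) (QC.rd 100 601) (QC.rd 162 4757) (QC.rd 5579 25000) (QC.rn 4)
    (by decide +kernel) h1 h2 h3

theorem b1_1_0_1_2 {u s t : ℝ} (h1 : (5579 / 25000 : ℝ) ≤ u + 2) (h2 : (5579 / 25000 : ℝ) ≤ s + t + 2) (h3 : t + 1 ≤ (4 : ℝ)) :
    0 < E2 8 (81 / 4757 : ℝ) (900 / 4757 : ℝ) ((7 / 10 : ℝ) * (7 / 10 : ℝ)) u s t -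
      (83 / 50 : ℝ) * Act 8 (3449956083 / 114706649381 : ℝ) (159 / 9514 : ℝ) (100 / 601 : ℝ) (162 / 4757 : ℝ) ((1 - (7 / 10 : ℝ)) * (1 - (7 / 10 : ℝ))) u s t :=
  QC.chkB 0 0 0 (QC.rd 81 4757) (QC.rd 900 4757)
    (QC.rd 7 10) (QC.rd 7 10) (QC.rd 83 50) (QC.rd 3449956083 114706649381) (QC.rd 159 9514) (QC.rd 100 601) (QC.rd 162 4757) (QC.rd 5579 25000) (QC.rn 4)
    (by decide +kernel) h1 h2 h3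

theorem b1_1_1_0_0 {u s t : ℝ} (h1 : (5579 / 25000 : ℝ) ≤ u + 2) (h2 : (5579 / 25000 : ℝ) ≤ s + t + 2) (h3 : t + 1 ≤ (4 : ℝ)) :
    0 < E2 8 (81 / 4757 : ℝ) (100 / 601 : ℝ) ((7 / 10 : ℝ) * (7 / 10 : ℝ)) u s t -
      (143 / 10 : ℝ) * Act 8 (3449956083 / 114706649381 : ℝ) (159 / 9514 : ℝ) (100 / 601 : ℝ) (162 / 4757 : ℝ) ((1 - (7 / 10 : ℝ)) * (1 - (7 / 10 : ℝ))) u s t :=
  QC.chkB 0 0 0 (QC.rd 81 4757) (QC.rd 100 601)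
    (QC.rd 7 10) (QC.rd 7 10) (QC.rd 143 10) (QC.rd 3449956083 114706649381) (QC.rd 159 9514) (QC.rd 100 601) (QC.rd 162 4757) (QC.rd 5579 25000) (QC.rn 4)
    (by decide +kernel) h1 h2 h3

theorem b1_1_1_0_1 {u s t : ℝ} (h1 : (5579 / 25000 : ℝ) ≤ u + 2) (h2 : (5579 / 25000 : ℝ) ≤ s + t + 2) (h3 : t + 1 ≤ (4 : ℝ)) :
    0 < E2 8 (81 / 4757 : ℝ) (100 / 601 : ℝ) ((7 / 10 : ℝ) * (9 / 10 : ℝ)) u s t -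
      (143 / 10 : ℝ) * Act 8 (3449956083 / 114706649381 : ℝ) (159 / 9514 : ℝ) (100 / 601 : ℝ) (162 / 4757 : ℝ) ((1 - (7 / 10 : ℝ)) * (1 - (9 / 10 : ℝ))) u s t :=
  QC.chkB 0 0 0 (QC.rd 81 4757) (QC.rd 100 601)
    (QC.rd 7 10) (QC.rd 9 10) (QC.rd 143 10) (QC.rd 3449956083 114706649381) (QC.rd 159 9514) (QC.rd 100 601) (QC.rd 162 4757) (QC.rd 5579 25000) (QC.rn 4)
    (by decide +kernel) h1 h2 h3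

theorem b1_1_1_0_2 {u s t : ℝ} (h1 : (5579 / 25000 : ℝ) ≤ u + 2) (h2 : (5579 / 25000 : ℝ) ≤ s + t + 2) (h3 : t + 1 ≤ (4 : ℝ)) :
    0 < E2 8 (81 / 4757 : ℝ) (100 / 601 : ℝ) ((9 / 10 : ℝ) * (9 / 10 : ℝ)) u s t -
      (143 / 10 : ℝ) * Act 8 (3449956083 / 114706649381 : ℝ) (159 / 9514 : ℝ) (100 / 601 : ℝ) (162 / 4757 : ℝ) ((1 - (9 / 10 : ℝ)) * (1 - (9 / 10 : ℝ))) u s t :=
  QC.chkB 0 0 0 (QC.rd 81 4757) (QC.rd 100 601)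
    (QC.rd 9 10) (QC.rd 9 10) (QC.rd 143 10) (QC.rd 3449956083 114706649381) (QC.rd 159 9514) (QC.rd 100 601) (QC.rd 162 4757) (QC.rd 5579 25000) (QC.rn 4)
    (by decide +kernel) h1 h2 h3

theorem b1_1_1_1_0 {u s t : ℝ} (h1 : (5579 / 25000 : ℝ) ≤ u + 2) (h2 : (5579 / 25000 : ℝ) ≤ s + t + 2) (h3 : t + 1 ≤ (4 : ℝ)) :
    0 < E2 8 (81 / 4757 : ℝ) (900 / 4757 : ℝ) ((7 / 10 : ℝ) * (7 / 10 : ℝ)) u s t -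
      (74 / 5 : ℝ) * Act 8 (3449956083 / 114706649381 : ℝ) (159 / 9514 : ℝ) (100 / 601 : ℝ) (162 / 4757 : ℝ) ((1 - (7 / 10 : ℝ)) * (1 - (7 / 10 : ℝ))) u s t :=
  QC.chkB 1 0 0 (QC.rd 81 4757) (QC.rd 900 4757)
    (QC.rd 7 10) (QC.rd 7 10) (QC.rd 74 5) (QC.rd 3449956083 114706649381) (QC.rd 159 9514) (QC.rd 100 601) (QC.rd 162 4757) (QC.rd 5579 25000) (QC.rn 4)
    (by decide +kernel) h1 h2 h3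

theorem b1_1_1_1_1 {u s t : ℝ} (h1 : (5579 / 25000 : ℝ) ≤ u + 2) (h2 : (5579 / 25000 : ℝ) ≤ s + t + 2) (h3 : t + 1 ≤ (4 : ℝ)) :
    0 < E2 8 (81 / 4757 : ℝ) (900 / 4757 : ℝ) ((7 / 10 : ℝ) * (9 / 10 : ℝ)) u s t -
      (74 / 5 : ℝ) * Act 8 (3449956083 / 114706649381 : ℝ) (159 / 9514 : ℝ) (100 / 601 : ℝ) (162 / 4757 : ℝ) ((1 - (7 / 10 : ℝ)) * (1 - (9 / 10 : ℝ))) u s t :=
  QC.chkB 0 0 0 (QC.rd 81 4757) (QC.rd 900 4757)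
    (QC.rd 7 10) (QC.rd 9 10) (QC.rd 74 5) (QC.rd 3449956083 114706649381) (QC.rd 159 9514) (QC.rd 100 601) (QC.rd 162 4757) (QC.rd 5579 25000) (QC.rn 4)
    (by decide +kernel) h1 h2 h3

theorem b1_1_1_1_2 {u s t : ℝ} (h1 : (5579 / 25000 : ℝ) ≤ u + 2) (h2 : (5579 / 25000 : ℝ) ≤ s + t + 2) (h3 : t + 1 ≤ (4 : ℝ)) :
    0 < E2 8 (81 / 4757 : ℝ) (900 / 4757 : ℝ) ((9 / 10 : ℝ) * (9 / 10 : ℝ)) u s t -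
      (74 / 5 : ℝ) * Act 8 (3449956083 / 114706649381 : ℝ) (159 / 9514 : ℝ) (100 / 601 : ℝ) (162 / 4757 : ℝ) ((1 - (9 / 10 : ℝ)) * (1 - (9 / 10 : ℝ))) u s t :=
  QC.chkB 2 0 0 (QC.rd 81 4757) (QC.rd 900 4757)
    (QC.rd 9 10) (QC.rd 9 10) (QC.rd 74 5) (QC.rd 3449956083 114706649381) (QC.rd 159 9514) (QC.rd 100 601) (QC.rd 162 4757) (QC.rd 5579 25000) (QC.rn 4)
    (by decide +kernel) h1 h2 h3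

theorem b1_1_2_0_0 {u s t : ℝ} (h1 : (5579 / 25000 : ℝ) ≤ u + 2) (h2 : (5579 / 25000 : ℝ) ≤ s + t + 2) (h3 : t + 1 ≤ (4 : ℝ)) :
    0 < E2 8 (81 / 4757 : ℝ) (100 / 601 : ℝ) ((9 / 10 : ℝ) * (9 / 10 : ℝ)) u s t -
      (127 : ℝ) * Act 8 (3449956083 / 114706649381 : ℝ) (159 / 9514 : ℝ) (100 / 601 : ℝ) (162 / 4757 : ℝ) ((1 - (9 / 10 : ℝ)) * (1 - (9 / 10 : ℝ))) u s t :=
  QC.chkB 5 3 0 (QC.rd 81 4757) (QC.rd 100 601)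
    (QC.rd 9 10) (QC.rd 9 10) (QC.rn 127) (QC.rd 3449956083 114706649381) (QC.rd 159 9514) (QC.rd 100 601) (QC.rd 162 4757) (QC.rd 5579 25000) (QC.rn 4)
    (by decide +kernel) h1 h2 h3

theorem b1_1_2_0_1 {u s t : ℝ} (h1 : (5579 / 25000 : ℝ) ≤ u + 2) (h2 : (5579 / 25000 : ℝ) ≤ s + t + 2) (h3 : t + 1 ≤ (4 : ℝ)) :
    0 < E2 8 (81 / 4757 : ℝ) (100 / 601 : ℝ) ((9 / 10 : ℝ) * (1 : ℝ)) u s t -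
      (127 : ℝ) * Act 8 (3449956083 / 114706649381 : ℝ) (159 / 9514 : ℝ) (100 / 601 : ℝ) (162 / 4757 : ℝ) ((1 - (9 / 10 : ℝ)) * (1 - (1 : ℝ))) u s t :=
  QC.chkB (28 / 5) (17 / 5) 0 (QC.rd 81 4757) (QC.rd 100 601)
    (QC.rd 9 10) QC.r1 (QC.rn 127) (QC.rd 3449956083 114706649381) (QC.rd 159 9514) (QC.rd 100 601) (QC.rd 162 4757) (QC.rd 5579 25000) (QC.rn 4)
    (by decide +kernel) h1 h2 h3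

theorem b1_1_2_0_2 {u s t : ℝ} (h1 : (5579 / 25000 : ℝ) ≤ u + 2) (h2 : (5579 / 25000 : ℝ) ≤ s + t + 2) (h3 : t + 1 ≤ (4 : ℝ)) :
    0 < E2 8 (81 / 4757 : ℝ) (100 / 601 : ℝ) ((1 : ℝ) * (1 : ℝ)) u s t -
      (127 : ℝ) * Act 8 (3449956083 / 114706649381 : ℝ) (159 / 9514 : ℝ) (100 / 601 : ℝ) (162 / 4757 : ℝ) ((1 - (1 : ℝ)) * (1 - (1 : ℝ))) u s t :=
  QC.chkB (107 / 25) (10233193 / 2858957) 0 (QC.rd 81 4757) (QC.rd 100 601)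
    QC.r1 QC.r1 (QC.rn 127) (QC.rd 3449956083 114706649381) (QC.rd 159 9514) (QC.rd 100 601) (QC.rd 162 4757) (QC.rd 5579 25000) (QC.rn 4)
    (by decide +kernel) h1 h2 h3

theorem b1_1_2_1_0 {u s t : ℝ} (h1 : (5579 / 25000 : ℝ) ≤ u + 2) (h2 : (5579 / 25000 : ℝ) ≤ s + t + 2) (h3 : t + 1 ≤ (4 : ℝ)) :
    0 < E2 8 (81 / 4757 : ℝ) (900 / 4757 : ℝ) ((9 / 10 : ℝ) * (9 / 10 : ℝ)) u s t -
      (129 : ℝ) * Act 8 (3449956083 / 114706649381 : ℝ) (159 / 9514 : ℝ) (100 / 601 : ℝ) (162 / 4757 : ℝ) ((1 - (9 / 10 : ℝ)) * (1 - (9 / 10 : ℝ))) u s t :=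
  QC.chkB (53 / 10) (27 / 10) 0 (QC.rd 81 4757) (QC.rd 900 4757)
    (QC.rd 9 10) (QC.rd 9 10) (QC.rn 129) (QC.rd 3449956083 114706649381) (QC.rd 159 9514) (QC.rd 100 601) (QC.rd 162 4757) (QC.rd 5579 25000) (QC.rn 4)
    (by decide +kernel) h1 h2 h3

theorem b1_1_2_1_1 {u s t : ℝ} (h1 : (5579 / 25000 : ℝ) ≤ u + 2) (h2 : (5579 / 25000 : ℝ) ≤ s + t + 2) (h3 : t + 1 ≤ (4 : ℝ)) :
    0 < E2 8 (81 / 4757 : ℝ) (900 / 4757 : ℝ) ((9 / 10 : ℝ) * (1 : ℝ)) u s t -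
      (129 : ℝ) * Act 8 (3449956083 / 114706649381 : ℝ) (159 / 9514 : ℝ) (100 / 601 : ℝ) (162 / 4757 : ℝ) ((1 - (9 / 10 : ℝ)) * (1 - (1 : ℝ))) u s t :=
  QC.chkB (29 / 5) (17 / 5) 0 (QC.rd 81 4757) (QC.rd 900 4757)
    (QC.rd 9 10) QC.r1 (QC.rn 129) (QC.rd 3449956083 114706649381) (QC.rd 159 9514) (QC.rd 100 601) (QC.rd 162 4757) (QC.rd 5579 25000) (QC.rn 4)
    (by decide +kernel) h1 h2 h3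

theorem b1_1_2_1_2 {u s t : ℝ} (h1 : (5579 / 25000 : ℝ) ≤ u + 2) (h2 : (5579 / 25000 : ℝ) ≤ s + t + 2) (h3 : t + 1 ≤ (4 : ℝ)) :
    0 < E2 8 (81 / 4757 : ℝ) (900 / 4757 : ℝ) ((1 : ℝ) * (1 : ℝ)) u s t -
      (129 : ℝ) * Act 8 (3449956083 / 114706649381 : ℝ) (159 / 9514 : ℝ) (100 / 601 : ℝ) (162 / 4757 : ℝ) ((1 - (1 : ℝ)) * (1 - (1 : ℝ))) u s t :=
  QC.chkB (443 / 100) (16911 / 4757) 0 (QC.rd 81 4757) (QC.rd 900 4757)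
    QC.r1 QC.r1 (QC.rn 129) (QC.rd 3449956083 114706649381) (QC.rd 159 9514) (QC.rd 100 601) (QC.rd 162 4757) (QC.rd 5579 25000) (QC.rn 4)
    (by decide +kernel) h1 h2 h3

theorem pathB1 {α la : ℝ} {u s t : ℝ} (h1 : (5579 / 25000 : ℝ) ≤ u + 2) (h2 : (5579 / 25000 : ℝ) ≤ s + t + 2) (h3 : t + 1 ≤ (4 : ℝ))
    (α0 : (100 / 601 : ℝ) ≤ α) (α1 : α ≤ (900 / 4757 : ℝ)) (la0 : (0 : ℝ) ≤ la) (la1 : la ≤ (1 : ℝ))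
    (h4 : 0 ≤ Act 8 (64440667 / 1830927869 : ℝ) (1163 / 58898 : ℝ) (100 / 601 : ℝ) (16 / 601 : ℝ) ((1 - la) ^ 2) u s t ∨
      0 ≤ Act 8 (3449956083 / 114706649381 : ℝ) (159 / 9514 : ℝ) (100 / 601 : ℝ) (162 / 4757 : ℝ) ((1 - la) ^ 2) u s t) :
    0 < E2 8 (81 / 4757 : ℝ) α (la ^ 2) u s t := by
  rcases h4 with h4 | h4
  · rcases le_total la (7 / 10 : ℝ) with lah0 | lal0
    · exact cellB α0 α1 (by norm_num) la0 lah0 h4 (by norm_num) (by norm_num)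
        (b1_0_0_0_0 h1 h2 h3) (b1_0_0_0_1 h1 h2 h3) (b1_0_0_0_2 h1 h2 h3) (b1_0_0_1_0 h1 h2 h3) (b1_0_0_1_1 h1 h2 h3) (b1_0_0_1_2 h1 h2 h3)
    rcases le_total la (9 / 10 : ℝ) with lah1 | lal1
    · exact cellB α0 α1 (by norm_num) lal0 lah1 h4 (by norm_num) (by norm_num)
        (b1_0_1_0_0 h1 h2 h3) (b1_0_1_0_1 h1 h2 h3) (b1_0_1_0_2 h1 h2 h3) (b1_0_1_1_0 h1 h2 h3) (b1_0_1_1_1 h1 h2 h3) (b1_0_1_1_2 h1 h2 h3)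
    exact cellB α0 α1 (by norm_num) lal1 la1 h4 (by norm_num) (by norm_num)
      (b1_0_2_0_0 h1 h2 h3) (b1_0_2_0_1 h1 h2 h3) (b1_0_2_0_2 h1 h2 h3) (b1_0_2_1_0 h1 h2 h3) (b1_0_2_1_1 h1 h2 h3) (b1_0_2_1_2 h1 h2 h3)
  · rcases le_total la (7 / 10 : ℝ) with lah0 | lal0
    · exact cellB α0 α1 (by norm_num) la0 lah0 h4 (by norm_num) (by norm_num)
        (b1_1_0_0_0 h1 h2 h3) (b1_1_0_0_1 h1 h2 h3) (b1_1_0_0_2 h1 h2 h3) (b1_1_0_1_0 h1 h2 h3) (b1_1_0_1_1 h1 h2 h3) (b1_1_0_1_2 h1 h2 h3)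
    rcases le_total la (9 / 10 : ℝ) with lah1 | lal1
    · exact cellB α0 α1 (by norm_num) lal0 lah1 h4 (by norm_num) (by norm_num)
        (b1_1_1_0_0 h1 h2 h3) (b1_1_1_0_1 h1 h2 h3) (b1_1_1_0_2 h1 h2 h3) (b1_1_1_1_0 h1 h2 h3) (b1_1_1_1_1 h1 h2 h3) (b1_1_1_1_2 h1 h2 h3)
    exact cellB α0 α1 (by norm_num) lal1 la1 h4 (by norm_num) (by norm_num)
      (b1_1_2_0_0 h1 h2 h3) (b1_1_2_0_1 h1 h2 h3) (b1_1_2_0_2 h1 h2 h3) (b1_1_2_1_0 h1 h2 h3) (b1_1_2_1_1 h1 h2 h3) (b1_1_2_1_2 h1 h2 h3)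

end Pool.Agent.Work.MP_3a9764_gt.C8
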