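import Pool.Agent.Work.MP_3a9764_gt.St2n5
import Pool.Agent.Work.MP_3a9764_gt.St2n6
import Pool.Agent.Work.MP_3a9764_gt.St2n7
import Pool.Agent.Work.MP_3a9764_gt.St2n8
import Pool.Agent.Work.MP_3a9764_gt.N8C3b
import Pool.Agent.Work.MP_3a9764_gt.St2e
import Pool.Agent.Work.MP_3a9764_gt.St1e

-- merged part: Pool.Agent.Work.MP_3a9764_gt.St2c
section
/-! The scalar inequalities of stage 2. -/

set_option autoImplicit false

namespace Pool.Agent.Work.MP_3a9764_gt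

noncomputable section

variable {n : ℕ} {τ : ℝ}

theorem St2.den_pos (hn8 : n ≤ 8) (hτ0 : 0 ≤ τ) (hτ : τ ≤ 9 / 100) :
    95 / 100 ≤ 1 - ((n : ℝ) - 2) * τ ^ 2 := by
  have h : (n : ℝ) ≤ 8 := by exact_mod_cast hn8
  have h1 : τ ^ 2 ≤ 81 / 10000 := by linarith only [hτ, hτ0, mul_nonneg_of_nonpos_of_nonpos (Mathlib.Tactic.Linarith.sub_nonpos_of_le hτ0) (Mathlib.Tactic.Linarith.sub_nonpos_of_le hτ)]
  have h2 := mul_le_mul_of_nonneg_right (show (n : ℝ) - 2 ≤ 6 by linarith only [h]) (sq_nonneg τ)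
  linarith only [h1, h2]

theorem St2.tb_mono (hn : 5 ≤ n) (hn8 : n ≤ 8) {σ : ℝ} (h0 : 0 ≤ σ) (h : σ ≤ τ)
    (hτ : τ ≤ 9 / 100) : tb n σ ≤ tb n τ ∧ tal n σ ≤ tal n τ := by
  have h5 : (5 : ℝ) ≤ n := by exact_mod_cast hn
  have d1 := St2.den_pos hn8 h0 (h.trans hτ)
  have d2 := St2.den_pos hn8 (h0.trans h) hτ
  have hs : σ ^ 2 ≤ τ ^ 2 := pow_le_pow_left₀ h0 h 2
  have hd : 1 - ((n : ℝ) - 2) * τ ^ 2 ≤ 1 - ((n : ℝ) - 2) * σ ^ 2 := by
    have := mul_le_mul_of_nonneg_left hs (show (0 : ℝ) ≤ (n : ℝ) - 2 by linarith only [h5])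
    linarith only [this]
  exact ⟨div_le_div₀ (by positivity) (by linarith only [hs]) (by linarith only [d2]) hd,
    div_le_div₀ (by linarith only [h0, h]) (by linarith only [h]) (by linarith only [d2]) hd⟩

theorem St2.small (hn8 : n ≤ 8) (hτ0 : 0 ≤ τ) (hτ : τ ≤ 9 / 100) :
    0 ≤ tb n τ ∧ tb n τ ≤ 171 / 10000 ∧ 0 ≤ tal n τ ∧ tal n τ ≤ 19 / 100 := by
  have d := St2.den_pos hn8 hτ0 hτ
  have hp : 0 < 1 - ((n : ℝ) - 2) * τ ^ 2 := by linarith only [d]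
  have h1 : τ ^ 2 ≤ 81 / 10000 := by linarith only [hτ, hτ0, mul_nonneg_of_nonpos_of_nonpos (Mathlib.Tactic.Linarith.sub_nonpos_of_le hτ0) (Mathlib.Tactic.Linarith.sub_nonpos_of_le hτ)]
  refine ⟨by unfold tb; positivity, ?_, by unfold tal; positivity, ?_⟩
  · rw [tb, div_le_iff₀ hp]; linarith only [d, hp, h1]
  · rw [tal, div_le_iff₀ hp]; linarith only [hτ, d, hp]

theorem St2.dl_anti (hn : 5 ≤ n) {b b' : ℝ} (h0 : 0 ≤ b) (h : b ≤ b') : dl n b' ≤ dl n b := by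
  have h5 : (5 : ℝ) ≤ n := by exact_mod_cast hn
  have h2 : (0 : ℝ) ≤ (n : ℝ) - 2 := by linarith only [h5]
  have h1 : (0 : ℝ) ≤ (n : ℝ) - 1 := by linarith
  have h0' := h0.trans h
  have hs : 0 < 1 + 2 * ((n : ℝ) - 1) * aa n (bOne n) := by unfold aa bOne; positivity
  have hb : 0 ≤ bOne n := by unfold bOne; positivity
  have e : ∀ x, dl n x = 2 - (1 + ((n : ℝ) - 2) * bOne n) * (2 + 2 * (bOne n / 3)) /
      (1 + 2 * ((n : ℝ) - 1) * aa n (bOne n)) *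
      ((1 + 2 * ((n : ℝ) - 1) * aa n x) / (1 + ((n : ℝ) - 2) * x)) := fun x => by
    unfold dl; ring
  have key : (1 + 2 * ((n : ℝ) - 1) * aa n b) / (1 + ((n : ℝ) - 2) * b) ≤
      (1 + 2 * ((n : ℝ) - 1) * aa n b') / (1 + ((n : ℝ) - 2) * b') := by
    rw [div_le_div_iff₀ (by positivity) (by positivity), ← sub_nonneg]
    have hd := sub_nonneg.2 h
    have e2 : (1 + 2 * ((n : ℝ) - 1) * aa n b') * (1 + ((n : ℝ) - 2) * b) -
        (1 + 2 * ((n : ℝ) - 1) * aa n b) * (1 + ((n : ℝ) - 2) * b') =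
        (b' - b) * (n + ((n : ℝ) - 1) * ((n : ℝ) - 2) * (b + b') +
          ((n : ℝ) - 1) * ((n : ℝ) - 2) ^ 2 * (b * b')) := by unfold aa; ring
    rw [e2]; positivity
  rw [e b, e b']
  have := mul_le_mul_of_nonneg_left key (show 0 ≤ (1 + ((n : ℝ) - 2) * bOne n) *
    (2 + 2 * (bOne n / 3)) / (1 + 2 * ((n : ℝ) - 1) * aa n (bOne n)) by positivity)
  linarith only [this]

theorem tal_sq (hn : 5 ≤ n) (hn8 : n ≤ 8) (hτ0 : 0 ≤ τ) (hτ : τ ≤ 9 / 100) :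
    tal n τ ^ 2 = 2 * aa n (tb n τ) := by
  have d := St2.den_pos hn8 hτ0 hτ
  have hp : 1 - ((n : ℝ) - 2) * τ ^ 2 ≠ 0 := by linarith only [d]
  unfold tal aa tb
  field_simp
  ring

theorem tb_bounds (hn : 5 ≤ n) (hn8 : n ≤ 8) (hτ0 : 0 ≤ τ) (hτ : τ ≤ 9 / 100) :
    0 ≤ tb n τ ∧ tb n τ ≤ bOne n ∧ 0 ≤ tal n τ ∧ 0 < 1 - ((n : ℝ) - 2) * τ ^ 2 ∧
      0 < dl n (tb n τ) ∧ 0 ≤ cA n (tb n τ) ∧ 0 ≤ cB n (tb n τ) := by
  obtain ⟨b0, b1, a0, -⟩ := St2.small hn8 hτ0 hτ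
  have d := St2.den_pos hn8 hτ0 hτ
  have h5 : (5 : ℝ) ≤ n := by exact_mod_cast hn
  have h8 : (n : ℝ) ≤ 8 := by exact_mod_cast hn8
  have h2 : (0 : ℝ) ≤ (n : ℝ) - 2 := by linarith only [h5]
  have h1 : (0 : ℝ) ≤ (n : ℝ) - 1 := by linarith only [h5]
  have hb : tb n τ ≤ bOne n := by
    rw [bOne, le_div_iff₀ (by positivity)]; linarith only [h8, b1, mul_nonneg_of_nonpos_of_nonpos (Mathlib.Tactic.Linarith.sub_nonpos_of_le (Mathlib.Tactic.Linarith.natCast_nonneg ℝ n)) (Mathlib.Tactic.Linarith.sub_nonpos_of_le b1)]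
  have hb0 := b0.trans hb
  refine ⟨b0, hb, a0, by linarith only [d], ?_, ?_, div_nonneg (sub_nonneg.2 hb) (by positivity)⟩
  · refine lt_of_lt_of_le ?_ (St2.dl_anti hn b0 b1)
    obtain rfl | rfl | rfl | rfl : n = 5 ∨ n = 6 ∨ n = 7 ∨ n = 8 := by omega
    all_goals norm_num [dl, aa, bOne]
  · refine div_nonneg ?_ (by unfold aa; positivity)
    have := mul_le_mul_of_nonneg_left (pow_le_pow_left₀ b0 hb 2) h2
    unfold aa; linarith only [hb, this]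

theorem st2_margin (hn : 5 ≤ n) (hn8 : n ≤ 8) (hτ0 : 0 ≤ τ) (hτ : τ ≤ 9 / 100) {u s t : ℝ}
    (h1 : dl n (tb n τ) ≤ u + 2) (h2 : dl n (tb n τ) ≤ s + t + 2) :
    0 < 4 * cA n (tb n τ) + 2 * cB n (tb n τ) * (u + s + t) := by
  obtain ⟨b0, b1, -, -⟩ := St2.small hn8 hτ0 hτ
  have hB := (tb_bounds hn hn8 hτ0 hτ).2.2.2.2.2.2
  generalize tb n τ = b at *
  have h3 := mul_le_mul_of_nonneg_left (show 2 * dl n b - 4 ≤ u + s + t by linarith only [h1, h2]) hB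
  suffices h : 0 < cA n b + cB n b * (dl n b - 2) by linarith only [h3, h]
  have h5 : (5 : ℝ) ≤ n := by exact_mod_cast hn
  have g2 : (0 : ℝ) ≤ (n : ℝ) - 2 := by linarith only [h5]
  have g1 : (0 : ℝ) ≤ (n : ℝ) - 1 := by linarith only [h5]
  have hs : 0 < 1 + 2 * ((n : ℝ) - 1) * aa n (bOne n) := by unfold aa bOne; positivity
  have ht : 0 < 1 + ((n : ℝ) - 2) * bOne n := by unfold bOne; positivity
  have ht' : 0 < 1 + ((n : ℝ) - 2) * b := by positivity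
  have e : cA n b + cB n b * (dl n b - 2) = (bOne n - b) *
      ((2 + ((n : ℝ) - 2) * (bOne n + b)) * (1 + ((n : ℝ) - 2) * b) -
        (2 + 2 * (bOne n / 3)) * (1 + 2 * ((n : ℝ) - 1) * aa n b)) /
      ((1 + 2 * ((n : ℝ) - 1) * aa n (bOne n)) * (1 + ((n : ℝ) - 2) * b)) := by
    have e1 : cA n b = (bOne n - b) * (2 + ((n : ℝ) - 2) * (bOne n + b)) /
        (1 + 2 * ((n : ℝ) - 1) * aa n (bOne n)) := by
      rw [cA]; congr 1; unfold aa; ring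
    rw [e1, cB, dl]
    generalize 1 + 2 * ((n : ℝ) - 1) * aa n (bOne n) = s₁ at hs ⊢
    generalize 1 + ((n : ℝ) - 2) * bOne n = t₁ at ht ⊢
    generalize 1 + ((n : ℝ) - 2) * b = t₂ at ht' ⊢
    field_simp
    ring
  rw [e]
  refine div_pos (mul_pos ?_ ?_) (mul_pos hs ht')
  all_goals
    obtain rfl | rfl | rfl | rfl : n = 5 ∨ n = 6 ∨ n = 7 ∨ n = 8 := by omega
    all_goals
      norm_num [aa, bOne]
      linarith only [b1, b0, mul_nonneg_of_nonpos_of_nonpos (Mathlib.Tactic.Linarith.sub_nonpos_of_le b0) (Mathlib.Tactic.Linarith.sub_nonpos_of_le b1)]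

theorem St2.cc_nonneg (hn : 5 ≤ n) (hn8 : n ≤ 8) {b : ℝ} (h0 : 0 ≤ b) (h1 : b ≤ 171 / 10000) :
    0 ≤ cc n b := by
  have h5 : (5 : ℝ) ≤ n := by exact_mod_cast hn
  have h8 : (n : ℝ) ≤ 8 := by exact_mod_cast hn8
  have g2 : (0 : ℝ) ≤ (n : ℝ) - 2 := by linarith only [h5]
  have g1 : (0 : ℝ) ≤ (n : ℝ) - 1 := by linarith only [h5]
  refine div_nonneg (mul_nonneg (sq_nonneg _) ?_) (by unfold aa; positivity)
  have h2 : n * ((n : ℝ) - 2) ≤ 48 := by linarith only [h8, mul_nonneg_of_nonpos_of_nonpos (Mathlib.Tactic.Linarith.sub_nonpos_of_le (Mathlib.Tactic.Linarith.natCast_nonneg ℝ n)) (Mathlib.Tactic.Linarith.sub_nonpos_of_le h8)]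
  have h3 := mul_le_mul_of_nonneg_right h2 (sq_nonneg b)
  linarith only [h1, h3, h0, mul_nonneg_of_nonpos_of_nonpos (Mathlib.Tactic.Linarith.sub_nonpos_of_le h0) (Mathlib.Tactic.Linarith.sub_nonpos_of_le h1)]

theorem St2.A5 {β la u s t : ℝ} (hβ0 : 2 * tb 5 (9 / 100) ≤ β) (hβ1 : β ≤ (5 : ℕ) / 2)
    (hla : 0 ≤ la) (hla1 : la ≤ 1) (h1 : dl 5 (tb 5 (9 / 100)) ≤ u + 2)
    (h2 : dl 5 (tb 5 (9 / 100)) ≤ s + t + 2) (h3 : t + 1 ≤ (5 : ℕ) / 2)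
    (h4 : 0 ≤ Act 5 (cA 5 (tb 5 (9 / 100))) (cB 5 (tb 5 (9 / 100))) (tal 5 (9 / 100)) β
      ((1 - la) ^ 2) u s t) :
    0 < E1 5 (aa 5 (tb 5 (9 / 100))) (tb 5 (9 / 100)) (tal 5 (9 / 100)) β (la ^ 2) u s t := by
  have eb : tb 5 (9 / 100) = (162 / 9757 : ℝ) := by norm_num [tb]
  have eα : tal 5 (9 / 100) = (1800 / 9757 : ℝ) := by norm_num [tal]
  rw [eb] at hβ0 h1 h2 h4
  rw [eb, eα, show aa 5 (162 / 9757 : ℝ) = (1620000 / 95199049 : ℝ) by norm_num [aa]]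
  rw [eα, show cA 5 (162 / 9757 : ℝ) = (1354711119 / 21324586976 : ℝ) by norm_num [cA, aa, bOne],
    show cB 5 (162 / 9757 : ℝ) = (21171 / 575663 : ℝ) by norm_num [cB, bOne]] at h4
  norm_num [dl, aa, bOne] at h1 h2
  push_cast at hβ1 h3
  exact C5.pathA (by linarith only [h1]) (by linarith only [h2]) (by linarith only [h3]) (by linarith only [hβ0]) (by linarith only [hβ1]) hla hla1 h4

theorem St2.B5_0 {la u s t : ℝ} (hτ0 : (0 : ℝ) ≤ τ) (hτ1 : τ ≤ (9 / 100 : ℝ))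
    (hla : 0 ≤ la) (hla1 : la ≤ 1) (h1 : dl 5 (tb 5 τ) ≤ u + 2)
    (h2 : dl 5 (tb 5 τ) ≤ s + t + 2) (h3 : t + 1 ≤ (5 : ℕ) / 2) (hx : 0 ≤ u + 2)
    (h4 : 0 ≤ Act 5 (cA 5 (tb 5 τ)) (cB 5 (tb 5 τ)) (tal 5 τ) (2 * tb 5 τ)
      ((1 - la) ^ 2) u s t) :
    0 < E2 5 (tb 5 (9 / 100)) (tal 5 τ) (la ^ 2) u s t := by
  have h0 : 0 ≤ τ := le_trans (by norm_num) hτ0
  have h9 : τ ≤ 9 / 100 := hτ1.trans (by norm_num)
  obtain ⟨m1, m2⟩ := St2.tb_mono (n := 5) (by norm_num) (by norm_num) (by norm_num) hτ0 h9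
  obtain ⟨m3, m4⟩ := St2.tb_mono (n := 5) (by norm_num) (by norm_num) h0 hτ1 (by norm_num)
  have m5 := St2.dl_anti (n := 5) (by norm_num) (St2.small (n := 5) (by norm_num) h0 h9).1 m3
  have h5 := act_ends (by norm_num) m1 m3 m2 (sq_nonneg _) hx h4
  have e0 : tb 5 (0 : ℝ) = (0 : ℝ) := by norm_num [tb]
  have e1 : tb 5 (9 / 100 : ℝ) = (162 / 9757 : ℝ) := by norm_num [tb]
  have e2 : tal 5 (0 : ℝ) = (0 : ℝ) := by norm_num [tal]
  have e3 : tal 5 (9 / 100 : ℝ) = (1800 / 9757 : ℝ) := by norm_num [tal]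
  have c0 : cA 5 (0 : ℝ) = (327 / 3808 : ℝ) := by norm_num [cA, aa, bOne]
  have c1 : cB 5 (0 : ℝ) = (3 / 59 : ℝ) := by norm_num [cB, bOne]
  have c2 : cA 5 (162 / 9757 : ℝ) = (1354711119 / 21324586976 : ℝ) := by norm_num [cA, aa, bOne]
  have c3 : cB 5 (162 / 9757 : ℝ) = (21171 / 575663 : ℝ) := by norm_num [cB, bOne]
  rw [e0, e1, e2, c0, c1, c2, c3, show 2 * (0 : ℝ) = (0 : ℝ) by norm_num,
    show 2 * (162 / 9757 : ℝ) = (324 / 9757 : ℝ) by norm_num] at h5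
  rw [e1] at m5
  rw [e2] at m2
  rw [e3] at m4
  have m6 : (28969 / 100000 : ℝ) ≤ dl 5 (162 / 9757 : ℝ) := by norm_num [dl, aa, bOne]
  rw [show tb 5 (9 / 100) = (162 / 9757 : ℝ) by norm_num [tb]]
  push_cast at h3
  exact C5.pathB0 (by linarith only [h1, m5, m6]) (by linarith only [h2, m5, m6]) (by linarith only [h3]) m2 m4 hla hla1 h5

theorem St2.A6 {β la u s t : ℝ} (hβ0 : 2 * tb 6 (9 / 100) ≤ β) (hβ1 : β ≤ (6 : ℕ) / 2)
    (hla : 0 ≤ la) (hla1 : la ≤ 1) (h1 : dl 6 (tb 6 (9 / 100)) ≤ u + 2)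
    (h2 : dl 6 (tb 6 (9 / 100)) ≤ s + t + 2) (h3 : t + 1 ≤ (6 : ℕ) / 2)
    (h4 : 0 ≤ Act 6 (cA 6 (tb 6 (9 / 100))) (cB 6 (tb 6 (9 / 100))) (tal 6 (9 / 100)) β
      ((1 - la) ^ 2) u s t) :
    0 < E1 6 (aa 6 (tb 6 (9 / 100))) (tb 6 (9 / 100)) (tal 6 (9 / 100)) β (la ^ 2) u s t := by
  have eb : tb 6 (9 / 100) = (81 / 4838 : ℝ) := by norm_num [tb]
  have eα : tal 6 (9 / 100) = (450 / 2419 : ℝ) := by norm_num [tal]
  rw [eb] at hβ0 h1 h2 h4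
  rw [eb, eα, show aa 6 (81 / 4838 : ℝ) = (101250 / 5851561 : ℝ) by norm_num [aa]]
  rw [eα, show cA 6 (81 / 4838 : ℝ) = (44117171 / 906991955 : ℝ) by norm_num [cA, aa, bOne],
    show cB 6 (81 / 4838 : ℝ) = (1609 / 58056 : ℝ) by norm_num [cB, bOne]] at h4
  norm_num [dl, aa, bOne] at h1 h2
  push_cast at hβ1 h3
  exact C6.pathA (by linarith only [h1]) (by linarith only [h2]) (by linarith only [h3]) (by linarith only [hβ0]) (by linarith only [hβ1]) hla hla1 h4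

theorem St2.B6_0 {la u s t : ℝ} (hτ0 : (0 : ℝ) ≤ τ) (hτ1 : τ ≤ (9 / 100 : ℝ))
    (hla : 0 ≤ la) (hla1 : la ≤ 1) (h1 : dl 6 (tb 6 τ) ≤ u + 2)
    (h2 : dl 6 (tb 6 τ) ≤ s + t + 2) (h3 : t + 1 ≤ (6 : ℕ) / 2) (hx : 0 ≤ u + 2)
    (h4 : 0 ≤ Act 6 (cA 6 (tb 6 τ)) (cB 6 (tb 6 τ)) (tal 6 τ) (2 * tb 6 τ)
      ((1 - la) ^ 2) u s t) :
    0 < E2 6 (tb 6 (9 / 100)) (tal 6 τ) (la ^ 2) u s t := by
  have h0 : 0 ≤ τ := le_trans (by norm_num) hτ0
  have h9 : τ ≤ 9 / 100 := hτ1.trans (by norm_num)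
  obtain ⟨m1, m2⟩ := St2.tb_mono (n := 6) (by norm_num) (by norm_num) (by norm_num) hτ0 h9
  obtain ⟨m3, m4⟩ := St2.tb_mono (n := 6) (by norm_num) (by norm_num) h0 hτ1 (by norm_num)
  have m5 := St2.dl_anti (n := 6) (by norm_num) (St2.small (n := 6) (by norm_num) h0 h9).1 m3
  have h5 := act_ends (by norm_num) m1 m3 m2 (sq_nonneg _) hx h4
  have e0 : tb 6 (0 : ℝ) = (0 : ℝ) := by norm_num [tb]
  have e1 : tb 6 (9 / 100 : ℝ) = (81 / 4838 : ℝ) := by norm_num [tb]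
  have e2 : tal 6 (0 : ℝ) = (0 : ℝ) := by norm_num [tal]
  have e3 : tal 6 (9 / 100 : ℝ) = (450 / 2419 : ℝ) := by norm_num [tal]
  have c0 : cA 6 (0 : ℝ) = (11 / 155 : ℝ) := by norm_num [cA, aa, bOne]
  have c1 : cB 6 (0 : ℝ) = (1 / 24 : ℝ) := by norm_num [cB, bOne]
  have c2 : cA 6 (81 / 4838 : ℝ) = (44117171 / 906991955 : ℝ) := by norm_num [cA, aa, bOne]
  have c3 : cB 6 (81 / 4838 : ℝ) = (1609 / 58056 : ℝ) := by norm_num [cB, bOne]
  rw [e0, e1, e2, c0, c1, c2, c3, show 2 * (0 : ℝ) = (0 : ℝ) by norm_num,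
    show 2 * (81 / 4838 : ℝ) = (81 / 2419 : ℝ) by norm_num] at h5
  rw [e1] at m5
  rw [e2] at m2
  rw [e3] at m4
  have m6 : (6733 / 25000 : ℝ) ≤ dl 6 (81 / 4838 : ℝ) := by norm_num [dl, aa, bOne]
  rw [show tb 6 (9 / 100) = (81 / 4838 : ℝ) by norm_num [tb]]
  push_cast at h3
  exact C6.pathB0 (by linarith only [h1, m5, m6]) (by linarith only [h2, m5, m6]) (by linarith only [h3]) m2 m4 hla hla1 h5

theorem St2.A7 {β la u s t : ℝ} (hβ0 : 2 * tb 7 (9 / 100) ≤ β) (hβ1 : β ≤ (7 : ℕ) / 2)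
    (hla : 0 ≤ la) (hla1 : la ≤ 1) (h1 : dl 7 (tb 7 (9 / 100)) ≤ u + 2)
    (h2 : dl 7 (tb 7 (9 / 100)) ≤ s + t + 2) (h3 : t + 1 ≤ (7 : ℕ) / 2)
    (h4 : 0 ≤ Act 7 (cA 7 (tb 7 (9 / 100))) (cB 7 (tb 7 (9 / 100))) (tal 7 (9 / 100)) β
      ((1 - la) ^ 2) u s t) :
    0 < E1 7 (aa 7 (tb 7 (9 / 100))) (tb 7 (9 / 100)) (tal 7 (9 / 100)) β (la ^ 2) u s t := by
  have eb : tb 7 (9 / 100) = (162 / 9595 : ℝ) := by norm_num [tb]
  have eα : tal 7 (9 / 100) = (360 / 1919 : ℝ) := by norm_num [tal]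
  rw [eb] at hβ0 h1 h2 h4
  rw [eb, eα, show aa 7 (162 / 9595 : ℝ) = (64800 / 3682561 : ℝ) by norm_num [aa]]
  rw [eα, show cA 7 (162 / 9595 : ℝ) = (215470173 / 5663778818 : ℝ) by norm_num [cA, aa, bOne],
    show cB 7 (162 / 9595 : ℝ) = (3489 / 163115 : ℝ) by norm_num [cB, bOne]] at h4
  norm_num [dl, aa, bOne] at h1 h2
  push_cast at hβ1 h3
  exact C7.pathA (by linarith only [h1]) (by linarith only [h2]) (by linarith only [h3]) (by linarith only [hβ0]) (by linarith only [hβ1]) hla hla1 h4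

theorem St2.B7_0 {la u s t : ℝ} (hτ0 : (0 : ℝ) ≤ τ) (hτ1 : τ ≤ (17 / 200 : ℝ))
    (hla : 0 ≤ la) (hla1 : la ≤ 1) (h1 : dl 7 (tb 7 τ) ≤ u + 2)
    (h2 : dl 7 (tb 7 τ) ≤ s + t + 2) (h3 : t + 1 ≤ (7 : ℕ) / 2) (hx : 0 ≤ u + 2)
    (h4 : 0 ≤ Act 7 (cA 7 (tb 7 τ)) (cB 7 (tb 7 τ)) (tal 7 τ) (2 * tb 7 τ)
      ((1 - la) ^ 2) u s t) :
    0 < E2 7 (tb 7 (9 / 100)) (tal 7 τ) (la ^ 2) u s t := by
  have h0 : 0 ≤ τ := le_trans (by norm_num) hτ0
  have h9 : τ ≤ 9 / 100 := hτ1.trans (by norm_num)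
  obtain ⟨m1, m2⟩ := St2.tb_mono (n := 7) (by norm_num) (by norm_num) (by norm_num) hτ0 h9
  obtain ⟨m3, m4⟩ := St2.tb_mono (n := 7) (by norm_num) (by norm_num) h0 hτ1 (by norm_num)
  have m5 := St2.dl_anti (n := 7) (by norm_num) (St2.small (n := 7) (by norm_num) h0 h9).1 m3
  have h5 := act_ends (by norm_num) m1 m3 m2 (sq_nonneg _) hx h4
  have e0 : tb 7 (0 : ℝ) = (0 : ℝ) := by norm_num [tb]
  have e1 : tb 7 (17 / 200 : ℝ) = (578 / 38555 : ℝ) := by norm_num [tb]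
  have e2 : tal 7 (0 : ℝ) = (0 : ℝ) := by norm_num [tal]
  have e3 : tal 7 (17 / 200 : ℝ) = (1360 / 7711 : ℝ) := by norm_num [tal]
  have c0 : cA 7 (0 : ℝ) = (93 / 1538 : ℝ) := by norm_num [cA, aa, bOne]
  have c1 : cB 7 (0 : ℝ) = (3 / 85 : ℝ) := by norm_num [cB, bOne]
  have c2 : cA 7 (578 / 38555 : ℝ) = (3717127453 / 91448743298 : ℝ) := by norm_num [cA, aa, bOne]
  have c3 : cB 7 (578 / 38555 : ℝ) = (15041 / 655435 : ℝ) := by norm_num [cB, bOne]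
  rw [e0, e1, e2, c0, c1, c2, c3, show 2 * (0 : ℝ) = (0 : ℝ) by norm_num,
    show 2 * (578 / 38555 : ℝ) = (1156 / 38555 : ℝ) by norm_num] at h5
  rw [e1] at m5
  rw [e2] at m2
  rw [e3] at m4
  have m6 : (5347 / 20000 : ℝ) ≤ dl 7 (578 / 38555 : ℝ) := by norm_num [dl, aa, bOne]
  rw [show tb 7 (9 / 100) = (162 / 9595 : ℝ) by norm_num [tb]]
  push_cast at h3
  exact C7.pathB0 (by linarith only [h1, m5, m6]) (by linarith only [h2, m5, m6]) (by linarith only [h3]) m2 m4 hla hla1 h5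

theorem St2.B7_1 {la u s t : ℝ} (hτ0 : (17 / 200 : ℝ) ≤ τ) (hτ1 : τ ≤ (9 / 100 : ℝ))
    (hla : 0 ≤ la) (hla1 : la ≤ 1) (h1 : dl 7 (tb 7 τ) ≤ u + 2)
    (h2 : dl 7 (tb 7 τ) ≤ s + t + 2) (h3 : t + 1 ≤ (7 : ℕ) / 2) (hx : 0 ≤ u + 2)
    (h4 : 0 ≤ Act 7 (cA 7 (tb 7 τ)) (cB 7 (tb 7 τ)) (tal 7 τ) (2 * tb 7 τ)
      ((1 - la) ^ 2) u s t) :
    0 < E2 7 (tb 7 (9 / 100)) (tal 7 τ) (la ^ 2) u s t := by
  have h0 : 0 ≤ τ := le_trans (by norm_num) hτ0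
  have h9 : τ ≤ 9 / 100 := hτ1.trans (by norm_num)
  obtain ⟨m1, m2⟩ := St2.tb_mono (n := 7) (by norm_num) (by norm_num) (by norm_num) hτ0 h9
  obtain ⟨m3, m4⟩ := St2.tb_mono (n := 7) (by norm_num) (by norm_num) h0 hτ1 (by norm_num)
  have m5 := St2.dl_anti (n := 7) (by norm_num) (St2.small (n := 7) (by norm_num) h0 h9).1 m3
  have h5 := act_ends (by norm_num) m1 m3 m2 (sq_nonneg _) hx h4
  have e0 : tb 7 (17 / 200 : ℝ) = (578 / 38555 : ℝ) := by norm_num [tb]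
  have e1 : tb 7 (9 / 100 : ℝ) = (162 / 9595 : ℝ) := by norm_num [tb]
  have e2 : tal 7 (17 / 200 : ℝ) = (1360 / 7711 : ℝ) := by norm_num [tal]
  have e3 : tal 7 (9 / 100 : ℝ) = (360 / 1919 : ℝ) := by norm_num [tal]
  have c0 : cA 7 (578 / 38555 : ℝ) = (3717127453 / 91448743298 : ℝ) := by norm_num [cA, aa, bOne]
  have c1 : cB 7 (578 / 38555 : ℝ) = (15041 / 655435 : ℝ) := by norm_num [cB, bOne]
  have c2 : cA 7 (162 / 9595 : ℝ) = (215470173 / 5663778818 : ℝ) := by norm_num [cA, aa, bOne]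
  have c3 : cB 7 (162 / 9595 : ℝ) = (3489 / 163115 : ℝ) := by norm_num [cB, bOne]
  rw [e0, e1, e2, c0, c1, c2, c3, show 2 * (578 / 38555 : ℝ) = (1156 / 38555 : ℝ) by norm_num,
    show 2 * (162 / 9595 : ℝ) = (324 / 9595 : ℝ) by norm_num] at h5
  rw [e1] at m5
  rw [e2] at m2
  rw [e3] at m4
  have m6 : (12349 / 50000 : ℝ) ≤ dl 7 (162 / 9595 : ℝ) := by norm_num [dl, aa, bOne]
  rw [show tb 7 (9 / 100) = (162 / 9595 : ℝ) by norm_num [tb]]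
  push_cast at h3
  exact C7.pathB1 (by linarith only [h1, m5, m6]) (by linarith only [h2, m5, m6]) (by linarith only [h3]) m2 m4 hla hla1 h5

theorem St2.A8 {β la u s t : ℝ} (hβ0 : 2 * tb 8 (9 / 100) ≤ β) (hβ1 : β ≤ (8 : ℕ) / 2)
    (hla : 0 ≤ la) (hla1 : la ≤ 1) (h1 : dl 8 (tb 8 (9 / 100)) ≤ u + 2)
    (h2 : dl 8 (tb 8 (9 / 100)) ≤ s + t + 2) (h3 : t + 1 ≤ (8 : ℕ) / 2)
    (h4 : 0 ≤ Act 8 (cA 8 (tb 8 (9 / 100))) (cB 8 (tb 8 (9 / 100))) (tal 8 (9 / 100)) β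
      ((1 - la) ^ 2) u s t) :
    0 < E1 8 (aa 8 (tb 8 (9 / 100))) (tb 8 (9 / 100)) (tal 8 (9 / 100)) β (la ^ 2) u s t := by
  have eb : tb 8 (9 / 100) = (81 / 4757 : ℝ) := by norm_num [tb]
  have eα : tal 8 (9 / 100) = (900 / 4757 : ℝ) := by norm_num [tal]
  rw [eb] at hβ0 h1 h2 h4
  rw [eb, eα, show aa 8 (81 / 4757 : ℝ) = (405000 / 22629049 : ℝ) by norm_num [aa]]
  rw [eα, show cA 8 (81 / 4757 : ℝ) = (3449956083 / 114706649381 : ℝ) by norm_num [cA, aa, bOne],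
    show cB 8 (81 / 4757 : ℝ) = (159 / 9514 : ℝ) by norm_num [cB, bOne]] at h4
  norm_num [dl, aa, bOne] at h1 h2
  push_cast at hβ1 h3
  exact C8.pathA (by linarith only [h1]) (by linarith only [h2]) (by linarith only [h3]) (by linarith only [hβ0]) (by linarith only [hβ1]) hla hla1 h4

theorem St2.B8_0 {la u s t : ℝ} (hτ0 : (0 : ℝ) ≤ τ) (hτ1 : τ ≤ (2 / 25 : ℝ))
    (hla : 0 ≤ la) (hla1 : la ≤ 1) (h1 : dl 8 (tb 8 τ) ≤ u + 2)
    (h2 : dl 8 (tb 8 τ) ≤ s + t + 2) (h3 : t + 1 ≤ (8 : ℕ) / 2) (hx : 0 ≤ u + 2)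
    (h4 : 0 ≤ Act 8 (cA 8 (tb 8 τ)) (cB 8 (tb 8 τ)) (tal 8 τ) (2 * tb 8 τ)
      ((1 - la) ^ 2) u s t) :
    0 < E2 8 (tb 8 (9 / 100)) (tal 8 τ) (la ^ 2) u s t := by
  have h0 : 0 ≤ τ := le_trans (by norm_num) hτ0
  have h9 : τ ≤ 9 / 100 := hτ1.trans (by norm_num)
  obtain ⟨m1, m2⟩ := St2.tb_mono (n := 8) (by norm_num) (by norm_num) (by norm_num) hτ0 h9
  obtain ⟨m3, m4⟩ := St2.tb_mono (n := 8) (by norm_num) (by norm_num) h0 hτ1 (by norm_num)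
  have m5 := St2.dl_anti (n := 8) (by norm_num) (St2.small (n := 8) (by norm_num) h0 h9).1 m3
  have h5 := act_ends (by norm_num) m1 m3 m2 (sq_nonneg _) hx h4
  have e0 : tb 8 (0 : ℝ) = (0 : ℝ) := by norm_num [tb]
  have e1 : tb 8 (2 / 25 : ℝ) = (8 / 601 : ℝ) := by norm_num [tb]
  have e2 : tal 8 (0 : ℝ) = (0 : ℝ) := by norm_num [tal]
  have e3 : tal 8 (2 / 25 : ℝ) = (100 / 601 : ℝ) := by norm_num [tal]
  have c0 : cA 8 (0 : ℝ) = (267 / 5069 : ℝ) := by norm_num [cA, aa, bOne]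
  have c1 : cB 8 (0 : ℝ) = (3 / 98 : ℝ) := by norm_num [cB, bOne]
  have c2 : cA 8 (8 / 601 : ℝ) = (64440667 / 1830927869 : ℝ) := by norm_num [cA, aa, bOne]
  have c3 : cB 8 (8 / 601 : ℝ) = (1163 / 58898 : ℝ) := by norm_num [cB, bOne]
  rw [e0, e1, e2, c0, c1, c2, c3, show 2 * (0 : ℝ) = (0 : ℝ) by norm_num,
    show 2 * (8 / 601 : ℝ) = (16 / 601 : ℝ) by norm_num] at h5
  rw [e1] at m5
  rw [e2] at m2
  rw [e3] at m4
  have m6 : (26879 / 100000 : ℝ) ≤ dl 8 (8 / 601 : ℝ) := by norm_num [dl, aa, bOne]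
  rw [show tb 8 (9 / 100) = (81 / 4757 : ℝ) by norm_num [tb]]
  push_cast at h3
  exact C8.pathB0 (by linarith only [h1, m5, m6]) (by linarith only [h2, m5, m6]) (by linarith only [h3]) m2 m4 hla hla1 h5

theorem St2.B8_1 {la u s t : ℝ} (hτ0 : (2 / 25 : ℝ) ≤ τ) (hτ1 : τ ≤ (9 / 100 : ℝ))
    (hla : 0 ≤ la) (hla1 : la ≤ 1) (h1 : dl 8 (tb 8 τ) ≤ u + 2)
    (h2 : dl 8 (tb 8 τ) ≤ s + t + 2) (h3 : t + 1 ≤ (8 : ℕ) / 2) (hx : 0 ≤ u + 2)
    (h4 : 0 ≤ Act 8 (cA 8 (tb 8 τ)) (cB 8 (tb 8 τ)) (tal 8 τ) (2 * tb 8 τ)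
      ((1 - la) ^ 2) u s t) :
    0 < E2 8 (tb 8 (9 / 100)) (tal 8 τ) (la ^ 2) u s t := by
  have h0 : 0 ≤ τ := le_trans (by norm_num) hτ0
  have h9 : τ ≤ 9 / 100 := hτ1.trans (by norm_num)
  obtain ⟨m1, m2⟩ := St2.tb_mono (n := 8) (by norm_num) (by norm_num) (by norm_num) hτ0 h9
  obtain ⟨m3, m4⟩ := St2.tb_mono (n := 8) (by norm_num) (by norm_num) h0 hτ1 (by norm_num)
  have m5 := St2.dl_anti (n := 8) (by norm_num) (St2.small (n := 8) (by norm_num) h0 h9).1 m3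
  have h5 := act_ends (by norm_num) m1 m3 m2 (sq_nonneg _) hx h4
  have e0 : tb 8 (2 / 25 : ℝ) = (8 / 601 : ℝ) := by norm_num [tb]
  have e1 : tb 8 (9 / 100 : ℝ) = (81 / 4757 : ℝ) := by norm_num [tb]
  have e2 : tal 8 (2 / 25 : ℝ) = (100 / 601 : ℝ) := by norm_num [tal]
  have e3 : tal 8 (9 / 100 : ℝ) = (900 / 4757 : ℝ) := by norm_num [tal]
  have c0 : cA 8 (8 / 601 : ℝ) = (64440667 / 1830927869 : ℝ) := by norm_num [cA, aa, bOne]
  have c1 : cB 8 (8 / 601 : ℝ) = (1163 / 58898 : ℝ) := by norm_num [cB, bOne]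
  have c2 : cA 8 (81 / 4757 : ℝ) = (3449956083 / 114706649381 : ℝ) := by norm_num [cA, aa, bOne]
  have c3 : cB 8 (81 / 4757 : ℝ) = (159 / 9514 : ℝ) := by norm_num [cB, bOne]
  rw [e0, e1, e2, c0, c1, c2, c3, show 2 * (8 / 601 : ℝ) = (16 / 601 : ℝ) by norm_num,
    show 2 * (81 / 4757 : ℝ) = (162 / 4757 : ℝ) by norm_num] at h5
  rw [e1] at m5
  rw [e2] at m2
  rw [e3] at m4
  have m6 : (5579 / 25000 : ℝ) ≤ dl 8 (81 / 4757 : ℝ) := by norm_num [dl, aa, bOne]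
  rw [show tb 8 (9 / 100) = (81 / 4757 : ℝ) by norm_num [tb]]
  push_cast at h3
  exact C8.pathB1 (by linarith only [h1, m5, m6]) (by linarith only [h2, m5, m6]) (by linarith only [h3]) m2 m4 hla hla1 h5

theorem st2_scalar (hn : 5 ≤ n) (hn8 : n ≤ 8) (hτ0 : 0 < τ) (hτ : τ ≤ 9 / 100)
    {β la u s t q σ : ℝ}
    (hβ : β = 2 * tb n τ ∨ (τ = 9 / 100 ∧ 2 * tb n τ ≤ β ∧ β ≤ n / 2)) (hla : 0 ≤ la)
    (hla1 : la ≤ 1) (hq : u ^ 2 / 2 ≤ q)
    (hσ : q + s ^ 2 + t ^ 2 + (u + s + t) ^ 2 / ((n : ℝ) - 4) ≤ n * σ)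
    (h1 : dl n (tb n τ) ≤ u + 2) (h2 : dl n (tb n τ) ≤ s + t + 2) (h3 : t + 1 ≤ n / 2)
    (h4 : 0 ≤ Act n (cA n (tb n τ)) (cB n (tb n τ)) (tal n τ) β ((1 - la) ^ 2) u s t) :
    0 < Efull n (tb n τ) (tal n τ) β (la ^ 2) u s t q σ := by
  obtain ⟨b0, b1, a0, a1⟩ := St2.small hn8 hτ0.le hτ
  have h8 : (n : ℝ) ≤ 8 := by exact_mod_cast hn8
  have hβ2 : 2 * tb n τ ≤ β := by
    rcases hβ with h | h
    · exact h.ge
    · exact h.2.1
  have hL : la ^ 2 ≤ 1 := pow_le_one₀ hla hla1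
  have hx : 0 ≤ u + 2 := (tb_bounds hn hn8 hτ0.le hτ).2.2.2.2.1.le.trans h1
  refine lt_of_lt_of_le ?_ (E1_le_Efull hn a0 (by linarith only [b0, hβ2]) (sq_nonneg _) hL
    (St2.cc_nonneg hn hn8 b0 b1) (by linarith only [hτ0, hτ, b1]) ?_ hq hσ)
  swap
  · have k1 : n * tal n τ ≤ 8 * (19 / 100) := mul_le_mul h8 a1 a0 (by norm_num)
    have k2 := mul_le_mul_of_nonneg_right k1 b0
    have k3 := mul_le_mul_of_nonneg_right hβ2 (show 0 ≤ 1 - 2 * tb n τ by linarith only [hτ0, hτ, b1])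
    (refine le_of_not_gt fun h_nl => ?_; linarith only [h_nl, b0, k2, k3, hτ0, hτ, b1, mul_pos_of_neg_of_neg (Mathlib.Tactic.Linarith.sub_neg_of_lt hτ0) (Mathlib.Tactic.Linarith.sub_neg_of_lt h_nl), mul_nonneg_of_nonpos_of_nonpos (Mathlib.Tactic.Linarith.sub_nonpos_of_le hτ) (le_of_lt (Mathlib.Tactic.Linarith.sub_neg_of_lt h_nl)), mul_nonneg_of_nonpos_of_nonpos (Mathlib.Tactic.Linarith.sub_nonpos_of_le b0) (Mathlib.Tactic.Linarith.sub_nonpos_of_le b1)])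
  rcases hβ with rfl | ⟨rfl, hβ0, hβ1⟩
  · have hb : 0 < tb n τ := by
      have := St2.den_pos hn8 hτ0.le hτ
      exact div_pos (by positivity) (by linarith only [hτ0, hτ, this])
    refine lt_of_lt_of_le (mul_pos hb ?_) (E2_le_E1 hn b0
      (St2.tb_mono hn hn8 hτ0.le hτ le_rfl).1 a0 (tal_sq hn hn8 hτ0.le hτ) (sq_nonneg _) hL hx)
    obtain rfl | rfl | rfl | rfl : n = 5 ∨ n = 6 ∨ n = 7 ∨ n = 8 := by omega
    · exact St2.B5_0 hτ0.le hτ hla hla1 h1 h2 h3 hx h4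
    · exact St2.B6_0 hτ0.le hτ hla hla1 h1 h2 h3 hx h4
    · rcases le_total τ (17 / 200) with h | h
      · exact St2.B7_0 hτ0.le h hla hla1 h1 h2 h3 hx h4
      · exact St2.B7_1 h hτ hla hla1 h1 h2 h3 hx h4
    · rcases le_total τ (2 / 25) with h | h
      · exact St2.B8_0 hτ0.le h hla hla1 h1 h2 h3 hx h4
      · exact St2.B8_1 h hτ hla hla1 h1 h2 h3 hx h4
  · obtain rfl | rfl | rfl | rfl : n = 5 ∨ n = 6 ∨ n = 7 ∨ n = 8 := by omega
    · exact St2.A5 hβ0 hβ1 hla hla1 h1 h2 h3 h4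
    · exact St2.A6 hβ0 hβ1 hla hla1 h1 h2 h3 h4
    · exact St2.A7 hβ0 hβ1 hla hla1 h1 h2 h3 h4
    · exact St2.A8 hβ0 hβ1 hla hla1 h1 h2 h3 h4

end

end Pool.Agent.Work.MP_3a9764_gt
end

-- merged part: Pool.Agent.Work.MP_3a9764_gt.St2
section
/-! Stage 2. -/

set_option autoImplicit false

open Filter Set Matrix
open scoped Topology ComplexConjugate

namespace Pool.Agent.Work.MP_3a9764_gt

noncomputable section

variable {n N : ℕ} {T : ℝ} {W : ℝ → Set (T4 n)}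

namespace S2

theorem Fv_one (S : T4 n) (H : Mat n) (e : Fin 4 → Fin n → ℝ) :
    Fv S H e 1 = rq S (wedge (zv e) (yv e 1)) := by simp [Fv]

section

variable (hn : 5 ≤ n) (hn8 : n ≤ 8) {τ : ℝ} (hτ0 : 0 ≤ τ) (hτ : τ ≤ 9 / 100) {R : T4 n}
  (hR : IsCurv R) (hG : G1 R) (hl : lb (linv (tb n τ) R) = 1)
include hn hn8 hτ0 hτ hR hG hl

theorem iso_pos {e : Fin 4 → Fin n → ℝ} (he : ON4 e) :
    0 < rq (linv (tb n τ) R) (wedge (zv e) (yv e 1)) := by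
  have hb := (tb_bounds hn hn8 hτ0 hτ).1
  have c1 := dl_le hn hG hb hl he
  have c2 : dl n (tb n τ) ≤ bf (ric0 (linv (tb n τ) R)) (e 2) (e 2) +
      bf (ric0 (linv (tb n τ) R)) (e 3) (e 3) + 2 := by
    have h := dl_le hn hG hb hl (on_perm he (σ := ![2, 3, 0, 1]) (by decide))
    rwa [show (e ∘ ![2, 3, 0, 1]) 0 = e 2 from rfl, show (e ∘ ![2, 3, 0, 1]) 1 = e 3 from rfl] at h
  have c3 := iso_ge hn hR hG hb hl he
  exact (st2_margin hn hn8 hτ0 hτ c1 c2).trans_le c3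

theorem start1 {e : Fin 4 → Fin n → ℝ} (he : ON4 e) {la : ℝ} (hla : la ∈ Icc (0 : ℝ) 1) :
    0 ≤ Fv (linv (tb n τ) R) (HH (tal n τ) (n / 2) (linv (tb n τ) R)) e la := by
  obtain ⟨hb, -, hα, -, hd, -⟩ := tb_bounds hn hn8 hτ0 hτ
  have hS := isCurv_linv hR (tb n τ)
  have hP : PICw (linv (tb n τ) R) := (picw_iff (by omega) hS).2 fun e he => by
    have h := iso_pos hn hn8 hτ0 hτ hR hG hl he
    rw [zv, yv, rq_wedge_cv hS] at h
    rw [iso4]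
    linarith only [h]
  have c1 := dl_le hn hG hb hl he
  generalize linv (tb n τ) R = S at *
  have h1 := hP _ _ (zv_zv he) (zv_yv he 1) (by rw [yv_yv he]; simp)
  have h2 := hP _ _ (zv_zv he) (zv_yv he (-1)) (by rw [yv_yv he]; simp)
  rw [zv, yv, rq_wedge_cv hS] at h1 h2
  have h3 := p2_frame hn he hS hP
  have h4 := p3_frame hn he hS hP
  rw [scal4_eq (AD_n (by omega)), hl, mul_one] at h3
  have h5 : 0 ≤ tal n τ * (hf (ric4 S) (zv e) (zv e)).re := by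
    refine mul_nonneg hα ?_
    rw [hf_zv, bf_ric4 he, bf_ric4 he, hl]
    linarith only [hd, c1]
  have h6 : 0 ≤ (hf (HH (tal n τ) (n / 2) S) (zv e) (zv e)).re -
      (ev4 S (e 0) (e 3) (e 0) (e 3) + ev4 S (e 1) (e 3) (e 1) (e 3)) := by
    rw [hf_HH he, hl]
    linarith only [h4, h5, h3, h3 0, h3 1, h3 3]
  have h7 : 0 ≤ 1 - la ^ 2 := by linarith only [hla, hla.1, hla.2, mul_nonneg_of_nonpos_of_nonpos (Mathlib.Tactic.Linarith.sub_nonpos_of_le hla.left) (Mathlib.Tactic.Linarith.sub_nonpos_of_le hla.right)]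
  rw [Fv_eq hS]
  linarith only [h7, h6, hla, h1, h2, mul_nonneg h7 h6, mul_nonneg hla.1 h1, mul_nonneg (sub_nonneg.2 hla.2) (add_nonneg h1 h2)]

theorem trans1 (hτ1 : 0 < τ) {β : ℝ}
    (hβ : β = 2 * tb n τ ∨ (τ = 9 / 100 ∧ 2 * tb n τ ≤ β ∧ β ≤ n / 2))
    (h : PICw (ext4 1 (linv (tb n τ) R) (HH (tal n τ) β (linv (tb n τ) R)) 0))
    {e : Fin 4 → Fin n → ℝ} (he : ON4 e) {la : ℝ} (hla : la ∈ Icc (0 : ℝ) 1)
    (h0 : Fv (linv (tb n τ) R) (HH (tal n τ) β (linv (tb n τ) R)) e la = 0) :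
    0 < Fv (linv (tb n τ) (Qq4 R)) (HH (tal n τ) β (linv (tb n τ) (Qq4 R))) e la := by
  have hb := (tb_bounds hn hn8 hτ0 hτ).1
  have hS := isCurv_linv hR (tb n τ)
  have hn0 : (n : ℝ) ≠ 0 := AD_n (by omega)
  have c0 := iso_pos hn hn8 hτ0 hτ hR hG hl he
  have c1 := dl_le hn hG hb hl he
  have c2 : dl n (tb n τ) ≤ bf (ric0 (linv (tb n τ) R)) (e 2) (e 2) +
      bf (ric0 (linv (tb n τ) R)) (e 3) (e 3) + 2 := by
    have h := dl_le hn hG hb hl (on_perm he (σ := ![2, 3, 0, 1]) (by decide))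
    rwa [show (e ∘ ![2, 3, 0, 1]) 0 = e 2 from rfl, show (e ∘ ![2, 3, 0, 1]) 1 = e 3 from rfl] at h
  have c3 := iso_ge hn hR hG hb hl he
  have c4 := sec_le hn hR hG hb hl he
  rw [linv_Qq4 (by omega) hb hR]
  generalize linv (tb n τ) R = S at *
  have hl1 : la < 1 := hla.2.lt_of_ne fun h1 => by
    rw [h1, Fv_one] at h0
    exact c0.ne' h0
  have c5 := p2_frame hn he hS (picw_of_ext h) 3
  rw [scal4_eq hn0, hl, mul_one, bf_ric4 he, hl] at c5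
  obtain ⟨c6, c7⟩ := sq_frame hn he (ric0_isSymm hS) (trace_ric0 hn0 S)
  rw [trace_ric0_sq hn0, Fin.sum_univ_four, Fin.sum_univ_four] at c7
  have c8 := double_root (fun x hx => by rw [← Fv_eq hS]; exact Fv_nonneg h he hx)
    ⟨by linarith only [hτ, hτ1, hla, hla.1], hl1⟩ (by rw [← Fv_eq hS]; exact h0)
  have c9 := Fv_eq hS (HH (tal n τ) β S) e 1
  rw [Fv_one] at c9
  rw [hf_HH he, hf_zv, bf_ric4 he, bf_ric4 he, hl] at c8 c9
  refine (st2_scalar hn hn8 hτ1 hτ hβ hla.1 hla.2 ?_ ?_ c1 c2 c5 ?_).trans_le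
    (deriv_ge hn hS hl (tal_sq hn hn8 hτ0 hτ) h he (by linarith only [hl1, hla, hla.1, mul_nonneg_of_nonpos_of_nonpos (Mathlib.Tactic.Linarith.sub_nonpos_of_le (sq_nonneg la)) (le_of_lt (Mathlib.Tactic.Linarith.sub_neg_of_lt hl1)), mul_nonneg_of_nonpos_of_nonpos (Mathlib.Tactic.Linarith.sub_nonpos_of_le (sq_nonneg ((1 : ℝ) - la))) (Mathlib.Tactic.Linarith.sub_nonpos_of_le hla.left)]) h0)
  · linarith only [c6, c6 0, c6 1, sq_nonneg (bf (ric0 S) (e 0) (e 0) - bf (ric0 S) (e 1) (e 1)), sq_nonneg (bf (ric0 S) (e (0 : Fin (4 : ℕ))) (e (0 : Fin (4 : ℕ))) - bf (ric0 S) (e (1 : Fin (4 : ℕ))) (e (1 : Fin (4 : ℕ))))]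
  · linarith only [c7, c6, c6 2, c6 3]
  · rw [Act]
    linarith only [c3, c8, c9, c4, mul_le_mul_of_nonneg_left c4 (sq_nonneg (1 - la))]

end

theorem linv_add (b : ℝ) (R S : T4 n) : linv b (R + S) = linv b R + linv b S :=
  (isLinearMap_linv b).map_add R S

theorem linv_smul (b c : ℝ) (R : T4 n) : linv b (c • R) = c • linv b R :=
  (isLinearMap_linv b).map_smul c R

/-- The test function as a linear functional. -/
def FL (b α β : ℝ) (e : Fin 4 → Fin n → ℝ) (la : ℝ) : T4 n →ₗ[ℝ] ℝ where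
  toFun R := Fv (linv b R) (HH α β (linv b R)) e la
  map_add' R S := by
    simp only [Fv, HH, linv_add, rq_add, ric4_add, lb_add, hf_add, hf_smul, Complex.add_re,
      Complex.re_ofReal_mul]
    ring
  map_smul' c R := by
    simp only [Fv, HH, linv_smul, rq_smul, ric4_smul, lb_smul, hf_add, hf_smul, Complex.add_re,
      Complex.re_ofReal_mul, RingHom.id_apply, smul_eq_mul]
    ring

theorem G1_smul {R : T4 n} (h : G1 R) {c : ℝ} (hc : 0 ≤ c) : G1 (c • R) := by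
  refine ⟨fun z w h1 h2 h3 => ?_, fun z hz => ?_⟩
  · rw [linv_smul, rq_smul]
    exact mul_nonneg hc (h.1 z w h1 h2 h3)
  · rw [linv_smul, ric4_smul, lb_smul, hf_smul, Complex.re_ofReal_mul]
    linarith only [hc, h, hz, mul_nonneg hc (h.2 z hz)]

theorem exists_scale (hn : 5 ≤ n) {b : ℝ} (hb : 0 ≤ b) {R : T4 n} (hR : IsCurv R) (hG : G1 R)
    (hne : R ≠ 0) :
    ∃ c > (0 : ℝ), ∃ R' : T4 n, IsCurv R' ∧ G1 R' ∧ lb (linv b R') = 1 ∧ R = c • R' := by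
  have h3 : 3 ≤ n := by omega
  have h1 : 0 < scal4 (linv (bOne n) R) := lt_of_not_ge fun h => hne <| by
    have h2 := hG.1.p4 hn (isCurv_linv hR _) h
    rw [← lB_lBi (AD_n h3) (AD_a h3 (bOne_nonneg n)).ne' (AD_b h3 (bOne_nonneg n)).ne' R,
      ← linv_eq, h2, map_zero]
  have h2 : 0 < lb R := by
    rw [lb_linv h3 (bOne_nonneg n) R]
    exact mul_pos (AD_a h3 (bOne_nonneg n)) (div_pos h1 (Nat.cast_pos.2 (by omega)))
  have h4 : 0 < lb (linv b R) := by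
    rw [lb_linv h3 hb R] at h2
    exact (mul_pos_iff_of_pos_left (AD_a h3 hb)).1 h2
  refine ⟨lb (linv b R), h4, (lb (linv b R))⁻¹ • R, T.isCurv_smul _ hR,
    G1_smul hG (inv_pos.2 h4).le, ?_, (smul_inv_smul₀ h4.ne' R).symm⟩
  rw [linv_smul, lb_smul, inv_mul_cancel₀ h4.ne']

theorem isCompact_on4 : IsCompact {e : Fin 4 → Fin n → ℝ | ON4 e} := by
  refine Metric.isCompact_of_isClosed_isBounded ?_ ?_
  · simp only [ON4, ofPred_forall]
    exact isClosed_iInter fun a => isClosed_iInter fun b =>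
      isClosed_eq (by fun_prop) continuous_const
  · refine (Metric.isBounded_closedBall (x := 0) (r := 1)).subset fun e he => ?_
    rw [mem_closedBall_zero_iff, pi_norm_le_iff_of_nonneg zero_le_one]
    intro a
    rw [pi_norm_le_iff_of_nonneg zero_le_one]
    intro i
    have h1 := he a a
    rw [if_pos rfl] at h1
    have h2 := Finset.single_le_sum (f := fun j => e a j * e a j)
      (fun j _ => mul_self_nonneg _) (Finset.mem_univ i)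
    rw [Real.norm_eq_abs, ← sq_le_one_iff_abs_le_one, sq]
    linarith

/-- The compact set of test frames. -/
abbrev KK (n : ℕ) : Type := {e : Fin 4 → Fin n → ℝ | ON4 e} × Icc (0 : ℝ) 1

instance : CompactSpace {e : Fin 4 → Fin n → ℝ | ON4 e} :=
  isCompact_iff_compactSpace.1 isCompact_on4

/-- The family of cones. -/
def fam (τ β : ℝ) (k : KK n) : T4 n →ₗ[ℝ] ℝ := FL (tb n τ) (tal n τ) β k.1 k.2

theorem cont_Fv' : Continuous fun p : (ℝ × ℝ × T4 n) × (Fin 4 → Fin n → ℝ) × ℝ =>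
    Fv p.1.2.2 (HH p.1.1 p.1.2.1 p.1.2.2) p.2.1 p.2.2 := by
  simp only [Fv, rq, cq, hf, wedge, zv, yv, cv, HH, ric4, lb, scal4, Matrix.sub_apply,
    vecMulVec_apply, Matrix.add_apply, Matrix.smul_apply, Pi.smul_apply, smul_eq_mul]
  fun_prop

theorem cont_Fv {X : Type} [TopologicalSpace X] {s : Set X} {α β : X → ℝ} {S : X → T4 n}
    {k : X → KK n} (hα : ContinuousOn α s) (hβ : ContinuousOn β s) (hS : ContinuousOn S s)
    (hk : ContinuousOn k s) :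
    ContinuousOn (fun x => Fv (S x) (HH (α x) (β x) (S x)) (k x).1 (k x).2) s := by
  have h1 : ContinuousOn (fun x => ((k x).1 : Fin 4 → Fin n → ℝ)) s :=
    (continuous_subtype_val.comp continuous_fst).comp_continuousOn hk
  have h2 : ContinuousOn (fun x => ((k x).2 : ℝ)) s :=
    (continuous_subtype_val.comp continuous_snd).comp_continuousOn hk
  have h3 := cont_Fv'.comp_continuousOn ((hα.prodMk (hβ.prodMk hS)).prodMk (h1.prodMk h2))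
  simpa only [Function.comp_def] using h3

theorem picw_fam (hn : 5 ≤ n) {τ β : ℝ} {R : T4 n} (h : ∀ k, 0 ≤ fam τ β k R) :
    PICw (ext4 1 (linv (tb n τ) R) (HH (tal n τ) β (linv (tb n τ) R)) 0) :=
  picw_ext (by omega) fun e la he hla => h (⟨e, he⟩, ⟨la, hla⟩)

section

variable (hn : 5 ≤ n) (hn8 : n ≤ 8)
include hn hn8

theorem cont_tb : ContinuousOn (tb n) (Icc 0 (9 / 100)) :=
  ContinuousOn.div (by fun_prop) (by fun_prop) fun _ h => (tb_bounds hn hn8 h.1 h.2).2.2.2.1.ne'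

theorem cont_tal : ContinuousOn (tal n) (Icc 0 (9 / 100)) :=
  ContinuousOn.div (by fun_prop) (by fun_prop) fun _ h => (tb_bounds hn hn8 h.1 h.2).2.2.2.1.ne'

theorem cont_linv (R : T4 n) : ContinuousOn (fun τ => linv (tb n τ) R) (Icc 0 (9 / 100)) := by
  have h1 := cont_tb hn hn8
  have h2 : ContinuousOn (fun τ => aa n (tb n τ)) (Icc 0 (9 / 100)) := by
    simp only [aa]; fun_prop
  refine (continuousOn_const.sub ((ContinuousOn.div (by fun_prop) (by fun_prop) fun τ h =>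
    (AD_a (by omega) (tb_bounds hn hn8 h.1 h.2).1).ne').mul continuousOn_const |>.smul
    continuousOn_const)).sub ((ContinuousOn.div h1 (by fun_prop) fun τ h =>
    (AD_b (by omega) (tb_bounds hn hn8 h.1 h.2).1).ne').smul continuousOn_const)

theorem path (hW : CurvFlow n T W) (h : AsymP T W G1) {τ β : ℝ → ℝ} {a b : ℝ} (hab : a ≤ b)
    (hτ : ContinuousOn τ (Icc a b)) (hβ : ContinuousOn β (Icc a b))
    (h1 : MapsTo τ (Icc a b) (Icc 0 (9 / 100)))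
    (h2 : ∀ s ∈ Ico a b, 0 < τ s ∧ (β s = 2 * tb n (τ s) ∨
      (τ s = 9 / 100 ∧ 2 * tb n (τ s) ≤ β s ∧ β s ≤ n / 2)))
    (ha : Asym T W (fam (τ a) (β a))) : Asym T W (fam (τ b) (β b)) := by
  refine h.family hW (l := fun s => fam (τ s) (β s)) hab (fun R => ?_) ?_ ha
  · have hm : MapsTo Prod.fst (Icc a b ×ˢ (univ : Set (KK n))) (Icc a b) := fun _ hp => hp.1
    exact cont_Fv (((cont_tal hn hn8).comp hτ h1).comp continuousOn_fst hm)
      (hβ.comp continuousOn_fst hm) (((cont_linv hn hn8 R).comp hτ h1).comp continuousOn_fst hm)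
      continuousOn_snd
  · intro s hs R hR hne hG h3 k h4
    have h5 := h1 (Ico_subset_Icc_self hs)
    obtain ⟨c, hc, R', hR', hG', hl, rfl⟩ :=
      exists_scale hn (tb_bounds hn hn8 h5.1 h5.2).1 hR hG hne
    simp only [map_smul, smul_eq_mul] at h3 h4
    rw [MP_3a9764_gt.T.Qq4_smul, map_smul]
    exact mul_pos (mul_pos hc hc) (trans1 hn hn8 h5.1 h5.2 hR' hG' hl (h2 s hs).1 (h2 s hs).2
      (picw_fam hn fun k => nonneg_of_mul_nonneg_right (h3 k) hc) k.1.2 k.2.2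
      ((mul_eq_zero.1 h4).resolve_left hc.ne'))

theorem start (hW : CurvFlow n T W) (h : AsymP T W G1) : Asym T W (fam (9 / 100) (n / 2)) := by
  refine h.start hW (fun R => continuousOn_univ.1 (cont_Fv continuousOn_const
    continuousOn_const continuousOn_const continuousOn_id)) ?_
  intro R hR hG k
  by_cases hne : R = 0
  · rw [hne, map_zero]
  obtain ⟨c, hc, R', hR', hG', hl, rfl⟩ :=
    exists_scale hn (tb_bounds hn hn8 (by norm_num) le_rfl).1 hR hG hne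
  rw [map_smul]
  exact mul_nonneg hc.le (start1 hn hn8 (by norm_num) le_rfl hR' hG' hl k.1.2 k.2.2)

end

end S2

open S2 in
theorem stage2 (hW : CurvFlow n T W) (hn : 5 ≤ n) (hn8 : n ≤ 8) (h : AsymP T W G1) :
    AsymP T W PIC1w := by
  have h5 : (5 : ℝ) ≤ n := by exact_mod_cast hn
  have h0 : 2 * tb n (9 / 100) ≤ n / 2 := by
    have h1 := (tb_bounds hn hn8 (τ := 9 / 100) (by norm_num) le_rfl).2.1
    have h2 : bOne n ≤ 1 := by
      rw [bOne, div_le_one (by linarith only [h5])]; linarith only [h5]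
    linarith only [h5, h1, h2]
  have h1 := path hn hn8 hW h (τ := fun _ => 9 / 100) (β := fun s => -s) (neg_le_neg h0)
    continuousOn_const continuousOn_neg (fun _ _ => ⟨by norm_num, le_rfl⟩)
    (fun s hs => ⟨by norm_num, .inr ⟨rfl, by linarith only [hs, hs.2], by linarith only [hs, hs.1]⟩⟩)
    (by simpa only [neg_neg] using start hn hn8 hW h)
  have hm : MapsTo (fun s : ℝ => -s) (Icc (-(9 / 100)) 0) (Icc 0 (9 / 100)) :=
    fun s hs => ⟨by linarith only [hs, hs.2], by linarith only [hs, hs.1]⟩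
  have h2 := path hn hn8 hW h (τ := fun s => -s) (β := fun s => 2 * tb n (-s))
    (a := -(9 / 100)) (b := 0) (by norm_num) continuousOn_neg
    (continuousOn_const.mul ((cont_tb hn hn8).comp continuousOn_neg hm)) hm
    (fun s hs => ⟨by linarith only [hs, hs.2], .inl rfl⟩) (by simpa only [neg_neg] using h1)
  refine ⟨_, _, h2, fun R _ h3 => pic1w_of_ext ?_⟩
  simpa [tb, tal, HH, linv_zero] using picw_fam hn h3

end

end Pool.Agent.Work.MP_3a9764_gt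
end

-- merged part: Pool.Agent.Work.MP_3a9764_gt.N8As
section
/-! The scalar inequalities of the extended first stage in dimension eight. -/

set_option autoImplicit false

namespace Pool.Agent.Work.MP_3a9764_gt

namespace N8A

noncomputable section

variable {b : ℝ}

/-- The Ricci margin along the path. -/
def gm (b : ℝ) : ℝ := 3 / 14 * b + 1 / 224

theorem aa8 (b : ℝ) : aa 8 b = b + 3 * b ^ 2 := by
  rw [aa]; push_cast; ring

theorem cc8 (b : ℝ) : cc 8 b = b ^ 2 * (2 - 4 * b - 48 * b ^ 2) / (1 + 14 * (b + 3 * b ^ 2)) := by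
  rw [cc, aa8]; push_cast; ring

theorem cc_ge (h0 : 3 / 80 ≤ b) (h1 : b ≤ 1 / 8) : 3 / 14 * b ^ 2 ≤ cc 8 b := by
  have h2 : b ^ 2 ≤ (1 / 8) ^ 2 := pow_le_pow_left₀ (by linarith only [h0]) h1 2
  have h3 : 0 ≤ b ^ 2 * (25 / 2 - 49 * b - 399 * b ^ 2) := mul_nonneg (sq_nonneg b) (by linarith only [h1, h2])
  rw [cc8, le_div_iff₀ (by positivity)]
  linarith only [h3]

theorem ee_ge (h0 : 3 / 80 ≤ b) (h1 : b ≤ 1 / 8) : 19 / 2 * b ^ 2 ≤ ee 8 b := by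
  have := cc_ge h0 h1
  rw [ee]; push_cast; linarith only [this]

theorem sc2 (h0 : 3 / 80 ≤ b) (h1 : b ≤ 1 / 8) {l X Y Z q₁ q₂ σ g : ℝ} (hl : 0 < l)
    (hg : g = gm b * l) (hZ : Z ≤ (X + 2 * g) * (Y + 2 * g)) (k1 : (X - 2 * l) ^ 2 / 2 + Z / 2 ≤ q₁)
    (k2 : (Y - 2 * l) ^ 2 / 2 + Z / 2 ≤ q₂) (hσ : 0 ≤ σ) :
    0 < 2 * aa 8 b * (X * Y - Z) + 2 * b ^ 2 * (q₁ + q₂) + 4 * (cc 8 b * σ) := by
  have hb : 0 < b := by linarith only [h0]
  have hc : 0 ≤ cc 8 b * σ := mul_nonneg (le_trans (by positivity) (cc_ge h0 h1)) hσ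
  have hg0 : 0 ≤ g := by rw [hg, gm]; positivity
  obtain ⟨t, ht⟩ : ∃ t, t = (1 + 3 * b) * gm b / b * l := ⟨_, rfl⟩
  have hr : (1 + 3 * b) * gm b / b ≤ 3 / 8 := by
    rw [div_le_iff₀ hb, gm]
    linarith only [h0, hb, h1, mul_nonneg (sub_nonneg.2 h0) (sub_nonneg.2 h1)]
  have hr0 : 0 ≤ (1 + 3 * b) * gm b / b := by rw [gm]; positivity
  have ht0 : 0 ≤ t := by rw [ht]; positivity
  have ht1 : t ≤ 3 / 8 * l := by rw [ht]; exact mul_le_mul_of_nonneg_right hr hl.le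
  have e : aa 8 b * g = b ^ 2 * t := by rw [ht, hg, aa8]; field_simp
  have a1 : 0 ≤ 2 * aa 8 b - 2 * b ^ 2 := by rw [aa8]; linarith only [hb, sq_nonneg b]
  generalize aa 8 b = a at *
  have b1 : 0 ≤ (2 * a - 2 * b ^ 2) * ((X + 2 * g) * (Y + 2 * g) - Z) :=
    mul_nonneg a1 (by linarith only [hZ])
  have b2 := mul_le_mul_of_nonneg_left (add_le_add k1 k2) (show 0 ≤ 2 * b ^ 2 by positivity)
  have b4 : 7 / 16 * l ^ 2 ≤ (X + Y + 2 * g - 2 * l) ^ 2 - 4 * t * (X + Y + 2 * g - 2 * l) +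
      (2 * l + 2 * g) ^ 2 - 8 * t * l := by
    linarith only [hl, hg0, ht1, ht0, sq_nonneg (X + Y + 2 * g - 2 * l - 2 * t), mul_nonneg hl.le hg0, sq_nonneg g,
      mul_le_mul ht1 ht1 ht0 (by positivity), mul_le_mul_of_nonneg_right ht1 hl.le, sq_nonneg g, sq_nonneg (X + Y + (2 : ℝ) * g - (2 : ℝ) * l - (2 : ℝ) * t)]
  have b5 := mul_le_mul_of_nonneg_left b4 (sq_nonneg b)
  have b9 : 0 < b ^ 2 * l ^ 2 := by positivity
  have key : 2 * a * (X * Y - Z) + 2 * b ^ 2 * ((X - 2 * l) ^ 2 / 2 + Z / 2 +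
      ((Y - 2 * l) ^ 2 / 2 + Z / 2)) = (2 * a - 2 * b ^ 2) * ((X + 2 * g) * (Y + 2 * g) - Z) +
      b ^ 2 * ((X + Y + 2 * g - 2 * l) ^ 2 - 4 * t * (X + Y + 2 * g - 2 * l) +
      (2 * l + 2 * g) ^ 2 - 8 * t * l) := by
    linear_combination (-4 * (X + Y + 2 * g - 2 * l) - 8 * l) * e
  linarith only [hc, b1, b2, b5, b9, key]

theorem poly3 (h0 : 3 / 80 ≤ b) (h1 : b ≤ 1 / 8) :
    0 < 2 * gm b ^ 2 - 4 * b * (1 + gm b) ^ 2 + 4 * (b + 3 * b ^ 2) * (1 - 6 * gm b) +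
      2 * gm b * (1 + 14 * (b + 3 * b ^ 2)) +
      (19 * b ^ 2 + 2 * gm b * (1 - 2 * b + 19 / 2 * b ^ 2)) * (1 + gm b) ^ 2 / 3 -
      (4 * b - (19 * b ^ 2 + 2 * gm b * (1 - 2 * b + 19 / 2 * b ^ 2)) / 4) *
        (95 / 14 * b + 15 / 224) ^ 2 := by
  have t0 : 0 ≤ b - 3 / 80 := sub_nonneg.2 h0
  have u0 : 0 ≤ 1 / 8 - b := sub_nonneg.2 h1
  have p0 : 0 ≤ (1 / 8 - b) ^ 5 := by positivity
  have p1 : 0 ≤ (b - 3 / 80) * (1 / 8 - b) ^ 4 := by positivity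
  have p2 : 0 ≤ (b - 3 / 80) ^ 2 * (1 / 8 - b) ^ 3 := by positivity
  have p3 : 0 ≤ (b - 3 / 80) ^ 3 * (1 / 8 - b) ^ 2 := by positivity
  have p4 : 0 ≤ (b - 3 / 80) ^ 4 * (1 / 8 - b) := by positivity
  have p5 : 0 ≤ (b - 3 / 80) ^ 5 := by positivity
  rw [gm]
  linarith only [h1, p1, p2, p3, p4]

theorem sc3 (h0 : 3 / 80 ≤ b) (h1 : b ≤ 1 / 8) {l μ σ g : ℝ} (hl : 0 < l) (hg : g = gm b * l)
    (hμ : 0 ≤ μ) (hμ1 : μ ≤ (95 / 14 * b + 15 / 224) * l)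
    (hσ : 2 * (l + g) ^ 2 + 2 * μ ^ 2 + 4 * (l + g) ^ 2 / 6 ≤ 8 * σ) :
    0 < 2 * g ^ 2 - 2 * b * (2 * (l + g) ^ 2 + 2 * μ ^ 2) +
      2 * aa 8 b * 6 * l * (-2 * g - 2 * l) + 2 * (2 * aa 8 b * 7 * l ^ 2 + ee 8 b * σ) +
      2 * gm b * ((1 + 2 * aa 8 b * 7) * l ^ 2 + (1 - 2 * b + ee 8 b) * σ) := by
  have hb : 0 < b := by linarith only [h0]
  have g0 : 0 ≤ gm b := by rw [gm]; positivity
  have g1 : gm b ≤ 1 / 32 := by rw [gm]; linarith only [h1]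
  have s0 : 0 ≤ σ := by linarith only [hσ, sq_nonneg μ, sq_nonneg (l + g), sq_nonneg (l + g), sq_nonneg μ]
  have s1 := mul_le_mul_of_nonneg_right (ee_ge h0 h1) s0
  have s2 := mul_le_mul_of_nonneg_left s1 g0
  have s3 := mul_pos (poly3 h0 h1) (pow_pos hl 2)
  obtain ⟨E, hE⟩ : ∃ E, E = 19 * b ^ 2 + 2 * gm b * (1 - 2 * b + 19 / 2 * b ^ 2) := ⟨_, rfl⟩
  have b2 : b ^ 2 ≤ 1 / 8 * b := by linarith only [h1, h0, mul_nonneg_of_nonpos_of_nonpos (Mathlib.Tactic.Linarith.sub_nonpos_of_le h0) (Mathlib.Tactic.Linarith.sub_nonpos_of_le h1)]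
  have c0 : 0 ≤ 1 - 2 * b + 19 / 2 * b ^ 2 := by linarith only [h1, hb, sq_nonneg ((1 : ℝ) * b)]
  have c1 : 1 - 2 * b + 19 / 2 * b ^ 2 ≤ 1 := by linarith only [hb, b2]
  have E0 : 0 ≤ E := by rw [hE]; positivity
  have E1 : 0 ≤ 4 * b - E / 4 := by
    have := mul_le_mul g1 c1 c0 (by norm_num)
    rw [hE]; linarith only [h0, hb, b2, this]
  have s4 := mul_le_mul_of_nonneg_left hσ E0
  have s5 := mul_le_mul_of_nonneg_left (pow_le_pow_left₀ hμ hμ1 2) E1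
  have s6 : E * σ = 19 * b ^ 2 * σ + 2 * gm b * (1 - 2 * b) * σ +
      2 * (gm b * (19 / 2 * b ^ 2 * σ)) := by rw [hE]; ring
  rw [← hE] at s3
  rw [aa8]
  subst hg
  linarith only [s1, s2, s3, s5, s6, s4]

end

end N8A

end Pool.Agent.Work.MP_3a9764_gt
end

-- merged part: Pool.Agent.Work.MP_3a9764_gt.N8A
section
/-! The extended first stage in dimension eight. -/

set_option autoImplicit false

open Filter Set Matrix
open scoped Topology ComplexConjugate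

namespace Pool.Agent.Work.MP_3a9764_gt

namespace N8A

open St1

noncomputable section

variable {n : ℕ} {b : ℝ}

theorem h58 : 5 ≤ 8 := by norm_num

/-- The cone of the path together with the lower Ricci bound. -/
structure Cb (b : ℝ) (S : T4 8) : Prop where
  curv : IsCurv S
  pic : PICw S
  h3 : ∀ P : Mat 8, Pᵀ * P = 1 → -0 ≤ c3 (3 * gm b) (ix h58 0) (ix h58 1) (pullT S P)
  ric : ∀ P : Mat 8, Pᵀ * P = 1 → ∀ i, -((7 * b + 1 / 14) * lb S) ≤ ric4 (pullT S P) i i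

theorem Cb.pullT {S : T4 8} (hc : Cb b S) {P : Mat 8} (hP : Pᵀ * P = 1) : Cb b (pullT S P) := by
  have hQ : ∀ Q : Mat 8, Qᵀ * Q = 1 → (P * Q)ᵀ * (P * Q) = 1 := fun Q hQ => by
    rw [transpose_mul, Matrix.mul_assoc, ← Matrix.mul_assoc Pᵀ, hP, Matrix.one_mul, hQ]
  refine ⟨isCurv_pullT hc.curv P, hc.pic.pullT hP, fun Q h => ?_, fun Q h => ?_⟩
  · rw [pullT_mul]; exact hc.h3 _ (hQ Q h)
  · rw [pullT_mul, lb_pullT _ hP]; exact hc.ric _ (hQ Q h)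

theorem der2 (h0 : 3 / 80 ≤ b) (h1 : b ≤ 1 / 8) {S : T4 8} (hc : Cb b S) (hl : 0 < lb S)
    {e : Fin 4 → Fin 8 → ℝ} (he : ON4 e)
    (hact : rq S (wedge (cv (e 0) (e 1)) (cv (e 2) (e 3))) = 0) :
    0 < rq (Sv b S) (wedge (cv (e 0) (e 1)) (cv (e 2) (e 3))) := by
  have hS := hc.curv
  have hd := ap_on4_dot he
  have hA := ric4_isSymm hS
  have hR := ric0_isSymm hS
  have k1 := (div_nonneg (nsq_nonneg _) zero_le_two).trans (orbit_min hS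
    (wedge_skew (cv (e 0) (e 1)) (cv (e 2) (e 3))) (S2.PICw.min hc.pic ⟨_, _,
      by simp [fr_cv_dot, hd], by simp [fr_cv_dot, hd], by simp [fr_cv_dot, hd], rfl⟩ hact)).2
  have k3 := rq_kn_wedge hA hA (cv (e 0) (e 1)) (cv (e 2) (e 3))
  have k4 := rq_kn_wedge hS.ric0_sq_isSymm isSymm_one (cv (e 0) (e 1)) (cv (e 2) (e 3))
  have k5 := rq_kn_wedge isSymm_one isSymm_one (cv (e 0) (e 1)) (cv (e 2) (e 3))
  have e1 : ∀ i j, e i ⬝ᵥ ric0 S *ᵥ e j = e i ⬝ᵥ ric4 S *ᵥ e j - if i = j then lb S else 0 :=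
    fun i j => by simp [ric0, sub_mulVec, smul_mulVec, hd]
  have e2 : ∀ i, e i ⬝ᵥ (ric0 S * ric0 S) *ᵥ e i = (ric0 S *ᵥ e i) ⬝ᵥ (ric0 S *ᵥ e i) :=
    fun i => by rw [← mulVec_mulVec, sym_dot hR]
  have e3 := fun i => bessel4 he (ric0 S *ᵥ e i)
  have b0 := e3 0
  have b1 := e3 1
  have b2 := e3 2
  have b3 := e3 3
  have e5 : ∀ s x y : ℝ, 0 ≤ (s • e 0 + x • e 2 - y • e 3) ⬝ᵥ ric4 S *ᵥ (s • e 0 + x • e 2 - y • e 3) +
      (s • e 1 + y • e 2 + x • e 3) ⬝ᵥ ric4 S *ᵥ (s • e 1 + y • e 2 + x • e 3) +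
      2 * (gm b * lb S) * (s ^ 2 + x ^ 2 + y ^ 2) := fun s x y => by
    have := real3 hc.h3 (u := s • e 0 + x • e 2 - y • e 3) (w := s • e 1 + y • e 2 + x • e 3)
      (by simp [hd]; ring) (by simp [hd]; ring)
    rw [show (s • e 0 + x • e 2 - y • e 3) ⬝ᵥ (s • e 0 + x • e 2 - y • e 3) = s ^ 2 + x ^ 2 + y ^ 2 by
      simp [hd]; ring] at this
    linarith only [this]
  simp only [mulVec_add, mulVec_sub, mulVec_smul, add_dotProduct, sub_dotProduct, dotProduct_add,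
    dotProduct_sub, smul_dotProduct, dotProduct_smul, smul_eq_mul] at e5
  simp only [hf_cv, one_mulVec, hd, e2] at k3 k4 k5
  simp only [e1] at b0 b1 b2 b3
  simp only [sym_dot hA (e 0), sym_dot hA (e 1) (e 2), sym_dot hA (e 1) (e 3),
    sym_dot hA (e 2) (e 3)] at k3 b0 b1 b2 b3 e5
  rw [kn_one_one] at k5
  simp only [rq, Sv, DD, cq_add, cq_smul, Complex.add_re, Complex.re_ofReal_mul] at k3 k4 k5 ⊢
  simp at k3 k4 k5 b0 b1 b2 b3
  generalize e 0 ⬝ᵥ ric4 S *ᵥ e 0 = r00 at *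
  generalize e 0 ⬝ᵥ ric4 S *ᵥ e 1 = r01 at *
  generalize e 0 ⬝ᵥ ric4 S *ᵥ e 2 = r02 at *
  generalize e 0 ⬝ᵥ ric4 S *ᵥ e 3 = r03 at *
  generalize e 1 ⬝ᵥ ric4 S *ᵥ e 1 = r11 at *
  generalize e 1 ⬝ᵥ ric4 S *ᵥ e 2 = r12 at *
  generalize e 1 ⬝ᵥ ric4 S *ᵥ e 3 = r13 at *
  generalize e 2 ⬝ᵥ ric4 S *ᵥ e 2 = r22 at *
  generalize e 2 ⬝ᵥ ric4 S *ᵥ e 3 = r23 at *
  generalize e 3 ⬝ᵥ ric4 S *ᵥ e 3 = r33 at *
  have k6 := sc2 h0 h1 (X := r00 + r11) (Y := r22 + r33) (Z := (r02 + r13) ^ 2 + (r12 - r03) ^ 2)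
    (q₁ := (ric0 S *ᵥ e 0) ⬝ᵥ (ric0 S *ᵥ e 0) + (ric0 S *ᵥ e 1) ⬝ᵥ (ric0 S *ᵥ e 1))
    (q₂ := (ric0 S *ᵥ e 2) ⬝ᵥ (ric0 S *ᵥ e 2) + (ric0 S *ᵥ e 3) ⬝ᵥ (ric0 S *ᵥ e 3)) hl rfl
    (by
      generalize gm b * lb S = g at e5
      have q1 := e5 1 0 0
      have q2 := e5 0 1 0
      rcases (add_nonneg (sq_nonneg (r02 + r13)) (sq_nonneg (r12 - r03))).eq_or_lt with z | z
      · rw [← z]
        exact mul_nonneg (by linarith only [q1]) (by linarith only [q2])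
      · have := discrim_le_zero (a := ((r02 + r13) ^ 2 + (r12 - r03) ^ 2) * (r22 + r33 + 2 * g))
          (b := 2 * ((r02 + r13) ^ 2 + (r12 - r03) ^ 2)) (c := r00 + r11 + 2 * g) fun t => by
            linear_combination e5 1 (t * (r02 + r13)) (t * (r12 - r03))
        rw [discrim] at this
        refine le_of_mul_le_mul_left ?_ z
        linarith only [this])
    (by linarith only [b0, b1, sq_nonneg (r00 - r11), sq_nonneg (r02 - r13), sq_nonneg (r12 + r03),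
      sq_nonneg r01, sq_nonneg r01, sq_nonneg (r12 + r03), sq_nonneg (r02 - r13), sq_nonneg (r00 - r11)])
    (by linarith only [b2, b3, sq_nonneg (r22 - r33), sq_nonneg (r02 - r13), sq_nonneg (r12 + r03),
      sq_nonneg r23, sq_nonneg r23, sq_nonneg (r12 + r03), sq_nonneg (r02 - r13), sq_nonneg (r22 - r33)])
    (sg_nonneg hS)
  linear_combination k6 + 1 / 4 * k1 - aa 8 b * k3 - b ^ 2 * k4 - cc 8 b * sg S / 2 * k5

theorem der3_diag (h0 : 3 / 80 ≤ b) (h1 : b ≤ 1 / 8) {S : T4 8} (hc : Cb b S) (hl : 0 < lb S)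
    (hact : c3 (3 * gm b) (ix h58 0) (ix h58 1) S = -0) (hd : ∀ p q, p ≠ q → ric4 S p q = 0) :
    0 < c3 (3 * gm b) (ix h58 0) (ix h58 1) (Sv b S) := by
  have hn3 : 3 ≤ 8 := by norm_num
  have hS := hc.curv
  have hab : ix h58 0 ≠ ix h58 1 := (ix_inj h58).ne (by decide)
  have k1 : ∀ i, -((7 * b + 1 / 14) * lb S) ≤ ric4 S i i := by
    simpa only [pullT_one] using hc.ric 1 (by simp)
  have k3 : ∀ i k, i ≠ k → 0 ≤ ric4 S i i + ric4 S k k + 2 * (gm b * lb S) := fun i k hik => by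
    simpa using real3 hc.h3 (u := Pi.single i 1) (w := Pi.single k 1) (by simp [hik]) (by simp)
  generalize ix h58 0 = i at *
  generalize ix h58 1 = j at *
  have ha : ric4 S j j = -(2 * (gm b * lb S)) - ric4 S i i := by
    rw [c3] at hact; linarith only [hact]
  have hg : 0 ≤ gm b * lb S := by
    have : 0 < b := by linarith only [h0]
    rw [gm]; positivity
  obtain ⟨μ, hμ⟩ : ∃ μ, μ = |ric4 S j j - ric4 S i i| / 2 := ⟨_, rfl⟩
  have m0 : 0 ≤ μ := by rw [hμ]; positivity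
  have m1 : 4 * μ ^ 2 = (ric4 S j j - ric4 S i i) ^ 2 := by rw [hμ, div_pow, sq_abs]; ring
  have k6 := x_iii (U := 0) (μ := 0) h58 hS ⟨by simp, by simp⟩ (fun _ _ => by simp)
    (by rw [sub_zero]; exact hc.pic) hab hd rfl (by linarith only [ha, hg]) le_rfl fun p h1 h2 => by
      linarith only [ha, k3, h1, h2, k3 p i h1, k3 p j h2]
  have k7 := x_sg_ge hS hab (β := (lb S + gm b * lb S) / 3) (by push_cast; linarith only [ha])
  have e8 : ∀ k, ric0 S k k = ric4 S k k - lb S := fun k => by simp [ric0]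
  have e9 : ∀ k, (ric0 S * ric0 S) k k = (ric4 S k k - lb S) ^ 2 := fun k => by
    rw [Matrix.mul_apply, Finset.sum_eq_single k (fun q _ hq => by
      simp [ric0, hd k q hq.symm, one_apply_ne hq.symm]) fun e => absurd (Finset.mem_univ k) e,
      e8, sq]
  rw [c3, Sv, lb_Qq4_add_DD hn3 b hS, ric4_add, ric4_Qq4 hS, ric4_DD hn3 b hS]
  simp only [Matrix.add_apply, Matrix.smul_apply, smul_eq_mul, one_apply_eq, e8, e9]
  have k8 := sc3 h0 h1 (σ := sg S) hl rfl m0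
    (by
      have a1 := k1 i
      have a2 := k1 j
      rw [gm] at ha
      rw [hμ]
      cases abs_cases (ric4 S j j - ric4 S i i) <;> linarith)
    (by
      push_cast at k7
      rw [ha] at m1 k7
      linarith only [m1, k7])
  push_cast
  rw [ha] at m1 k6 ⊢
  linear_combination k6 + k8 - b * m1

theorem der3 (h0 : 3 / 80 ≤ b) (h1 : b ≤ 1 / 8) {S : T4 8} (hc : Cb b S) (hl : 0 < lb S)
    (hact : c3 (3 * gm b) (ix h58 0) (ix h58 1) S = -0) :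
    0 < c3 (3 * gm b) (ix h58 0) (ix h58 1) (Sv b S) := by
  have hab : ix h58 0 ≠ ix h58 1 := (ix_inj h58).ne (by decide)
  have hA := ric4_isSymm hc.curv
  have key : ∀ i j k, i ≠ j → k ≠ i → k ≠ j →
      ric4 S i i + ric4 S j j + 2 * (3 * gm b / 3) * lb S = -0 → ric4 S i k = 0 := by
    intro i j k hij hki hkj e
    refine x_lin_zero (β := ric4 S k k - ric4 S i i) fun c s hcs => ?_
    have e1 : (Pi.single i c + Pi.single k s : Fin 8 → ℝ) ⬝ᵥ (Pi.single i c + Pi.single k s) =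
        1 := by
      simp [hki, hki.symm]
      linarith only [hcs]
    have := real3 hc.h3 (u := Pi.single i c + Pi.single k s) (w := Pi.single j 1)
      (by simp [hij.symm, hkj.symm]) (by rw [e1]; simp)
    rw [quad_pair hA, e1] at this
    simp only [single_dotProduct, mulVec_single, MulOpposite.op_one, one_smul, col_apply,
      one_mul] at this
    linear_combination this + e + ric4 S i i * hcs
  obtain ⟨P, hP, k1, k2⟩ := x_block hA (fun i => i = ix h58 0 ∨ i = ix h58 1) (by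
    rintro i k (rfl | rfl) hk
    · exact key _ _ k hab (not_or.1 hk).1 (not_or.1 hk).2 hact
    · exact key _ _ k hab.symm (not_or.1 hk).2 (not_or.1 hk).1 (by rw [← hact, c3]; ring))
  have e : ∀ R : T4 8, c3 (3 * gm b) (ix h58 0) (ix h58 1) (pullT R P) =
      c3 (3 * gm b) (ix h58 0) (ix h58 1) R := fun R => by
    rw [c3, c3, lb_pullT _ hP, ric4_pullT _ (mul_eq_one_comm.1 hP), tr2 hP hab k1]
  have := der3_diag h0 h1 (hc.pullT hP) (by rwa [lb_pullT _ hP]) (by rw [e, hact])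
    (by rwa [ric4_pullT _ (mul_eq_one_comm.1 hP)])
  rwa [Sv_pullT _ _ hP, e] at this

theorem pic1_pullT {R : T4 n} (h : PIC1w R) {P : Mat n} (hP : Pᵀ * P = 1) : PIC1w (pullT R P) := by
  intro z w hz hzw
  rw [ap_rq_pullT]
  exact h _ _ (by rw [ap_dot_pull hP, hz]) (by rw [ap_dot_pull hP, hzw])

theorem pic1_ric (hn : 3 ≤ n) {R : T4 n} (hR : IsCurv R) (h : PIC1w R) (i : Fin n) :
    0 ≤ ric4 R i i := by
  have hp : ∀ c ∈ Finset.univ.erase i, ∀ d ∈ Finset.univ.erase i, c ≠ d →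
      0 ≤ R c i c i + R d i d i := by
    intro c hc d hd hcd
    have h1 := h (cv (Pi.single c 1) (Pi.single d 1)) (cv (Pi.single i 1) (Pi.single i 0))
      (by simp [fr_cv_dot, hcd, hcd.symm])
      (by simp [fr_cv_dot, Finset.ne_of_mem_erase hc, Finset.ne_of_mem_erase hd])
    simpa only [ap_rq_cv hR, ev4_single, mul_one, mul_zero, add_zero, sub_zero] using h1
  obtain ⟨c, hc, d, hd, hcd, h1⟩ := ap_pair (by
    rw [Finset.card_erase_of_mem (Finset.mem_univ _), Finset.card_univ, Fintype.card_fin]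
    omega) hp
  rw [Finset.sum_erase_eq_sub (Finset.mem_univ i), ap_diag hR, sub_zero] at h1
  exact (hp c hc d hd hcd).trans h1

theorem ric_linv (h0 : 0 ≤ b) (h1 : b ≤ 1 / 8) {R : T4 8} (hR : IsCurv R) (h : PIC1w R)
    (hl : 0 ≤ lb (linv b R)) (i : Fin 8) :
    -((7 * b + 1 / 14) * lb (linv b R)) ≤ ric4 (linv b R) i i := by
  have hn3 : 3 ≤ 8 := by norm_num
  have k1 := pic1_ric hn3 hR h i
  rw [ric4_eq, ric0_linv hn3 h0, lb_linv hn3 h0 R, aa8] at k1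
  rw [ric4_eq]
  simp only [Matrix.add_apply, Matrix.smul_apply, smul_eq_mul, one_apply_eq, mul_one] at k1 ⊢
  push_cast at k1
  have k2 := mul_nonneg (sub_nonneg.2 h1) hl
  refine le_of_mul_le_mul_left (a := 1 + 6 * b) ?_ (by linarith only [h0])
  linarith only [k1, k2]

/-- The Ricci test function of a frame. -/
def F3 (γ : ℝ) (S : T4 n) (e : Fin 4 → Fin n → ℝ) : ℝ :=
  e 0 ⬝ᵥ ric4 S *ᵥ e 0 + e 1 ⬝ᵥ ric4 S *ᵥ e 1 + 2 * γ * lb S

theorem c3_eq (γ : ℝ) (S : T4 8) {P : Mat 8} (hP : Pᵀ * P = 1) :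
    c3 (3 * γ) (ix h58 0) (ix h58 1) (pullT S P) = F3 γ S fun a i => P i (ix h58 a) := by
  rw [c3, F3, lb_pullT _ hP, ric4_pullT _ (mul_eq_one_comm.1 hP), conj_apply, conj_apply]
  ring

theorem on4_cols {P : Mat 8} (hP : Pᵀ * P = 1) : ON4 fun a i => P i (ix h58 a) := fun a c => by
  have := congrFun (congrFun hP (ix h58 a)) (ix h58 c)
  rw [Matrix.mul_apply, one_apply] at this
  simpa only [transpose_apply, (ix_inj h58).eq_iff] using this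

/-- The test function. -/
def Fk (γ : ℝ) (S : T4 n) (e : Fin 4 → Fin n → ℝ) (θ : ℝ) : ℝ :=
  θ * rq S (wedge (cv (e 0) (e 1)) (cv (e 2) (e 3))) + (1 - θ) * F3 γ S e

/-- The family of cones. -/
def fam (b : ℝ) (k : S2.KK 8) : T4 8 →ₗ[ℝ] ℝ where
  toFun R := Fk (gm b) (linv b R) k.1 k.2
  map_add' R S := by
    simp only [Fk, F3, S2.linv_add, rq_add, ric4_add, lb_add, add_mulVec, dotProduct_add]
    ring
  map_smul' c R := by
    simp only [Fk, F3, S2.linv_smul, rq_smul, ric4_smul, lb_smul, smul_mulVec, dotProduct_smul,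
      RingHom.id_apply, smul_eq_mul]
    ring

theorem cont_Fk : Continuous fun p : (ℝ × T4 n) × (Fin 4 → Fin n → ℝ) × ℝ =>
    Fk p.1.1 p.1.2 p.2.1 p.2.2 := by
  simp only [Fk, F3, rq, cq, wedge, cv, ric4, lb, scal4, Matrix.sub_apply, vecMulVec_apply,
    dotProduct, mulVec]
  fun_prop

theorem cont_linv (R : T4 8) : ContinuousOn (fun b => linv b R) (Ici 0) := by
  have h2 : Continuous fun b => aa 8 b := by
    simp only [aa]; fun_prop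
  refine (continuousOn_const.sub ((ContinuousOn.div (by fun_prop) (by fun_prop) fun b h =>
    (AD_a (by norm_num) h).ne').mul continuousOn_const |>.smul
    continuousOn_const)).sub ((ContinuousOn.div continuousOn_id (by fun_prop) fun b h =>
    (AD_b (by norm_num) h).ne').smul continuousOn_const)

theorem cont_fam (R : T4 8) :
    ContinuousOn (fun p : ℝ × S2.KK 8 => fam p.1 p.2 R) (Ici 0 ×ˢ univ) := by
  have h1 : Continuous fun p : ℝ × S2.KK 8 => (p.2.1 : Fin 4 → Fin 8 → ℝ) := by fun_prop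
  have h2 : Continuous fun p : ℝ × S2.KK 8 => (p.2.2 : ℝ) := by fun_prop
  have h3 : Continuous fun p : ℝ × S2.KK 8 => gm p.1 := by simp only [gm]; fun_prop
  have h4 : ContinuousOn (fun p : ℝ × S2.KK 8 => linv p.1 R) (Ici 0 ×ˢ univ) :=
    (cont_linv R).comp continuousOn_fst fun _ hp => hp.1
  exact cont_Fk.comp_continuousOn
    ((h3.continuousOn.prodMk h4).prodMk (h1.prodMk h2).continuousOn)

theorem fam_split {R : T4 8} (h : ∀ k, 0 ≤ fam b k R) {e : Fin 4 → Fin 8 → ℝ} (he : ON4 e) :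
    0 ≤ rq (linv b R) (wedge (cv (e 0) (e 1)) (cv (e 2) (e 3))) ∧ 0 ≤ F3 (gm b) (linv b R) e := by
  have h1 : 0 ≤ Fk (gm b) (linv b R) e 1 := h (⟨e, he⟩, ⟨1, zero_le_one, le_rfl⟩)
  have h2 : 0 ≤ Fk (gm b) (linv b R) e 0 := h (⟨e, he⟩, ⟨0, le_rfl, zero_le_one⟩)
  rw [Fk] at h1 h2
  constructor <;> linarith only [h1, h2]

theorem fam_pic {R : T4 8} (h : ∀ k, 0 ≤ fam b k R) : PICw (linv b R) := by
  intro z w hz hzw hw
  obtain ⟨e, κ, he, h1⟩ := iso_nf (by norm_num) hz hzw hw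
  rw [h1, ap_rq_smul]
  exact mul_nonneg (Complex.normSq_nonneg _) (fam_split h he).1

theorem fam_c3 {R : T4 8} (h : ∀ k, 0 ≤ fam b k R) (P : Mat 8) (hP : Pᵀ * P = 1) :
    -0 ≤ c3 (3 * gm b) (ix h58 0) (ix h58 1) (pullT (linv b R) P) := by
  rw [c3_eq _ _ hP, neg_zero]
  exact (fam_split h (on4_cols hP)).2

theorem trans (h0 : 3 / 80 ≤ b) (h1 : b ≤ 1 / 8) {R : T4 8} (hR : IsCurv R) (hne : R ≠ 0)
    (hp : PIC1w R) (h : ∀ k, 0 ≤ fam b k R) (k : S2.KK 8) (hk : fam b k R = 0) :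
    0 < fam b k (Qq4 R) := by
  have hn3 : 3 ≤ 8 := by norm_num
  have hb : 0 ≤ b := by linarith only [h0]
  have hS := isCurv_linv hR b
  have hl : 0 < lb (linv b R) := by
    refine div_pos (lt_of_not_ge fun hs => hne ?_) (by norm_num)
    rw [← lB_lBi (AD_n hn3) (AD_a hn3 hb).ne' (AD_b hn3 hb).ne' R, ← linv_eq,
      (fam_pic h).p4 h58 hS hs, map_zero]
  have hc : Cb b (linv b R) := ⟨hS, fam_pic h, fam_c3 h, fun P hP i => by
    rw [← lb_pullT _ hP, ← linv_pullT _ _ hP]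
    exact ric_linv hb h1 (isCurv_pullT hR P) (pic1_pullT hp hP)
      (by rw [linv_pullT _ _ hP, lb_pullT _ hP]; exact hl.le) i⟩
  obtain ⟨⟨e, he⟩, θ, t0, t1⟩ := k
  obtain ⟨a1, a2⟩ := fam_split h he
  have d2 := der2 h0 h1 hc hl he
  have d3 : F3 (gm b) (linv b R) e = 0 → 0 < F3 (gm b) (Sv b (linv b R)) e := fun hz => by
    obtain ⟨P, hP, k1⟩ := exists_orth_of_on (k := 4) (by norm_num : 4 ≤ 8) e he
    have k2 : (fun a i => P i (ix h58 a)) = e := funext fun a => funext fun i => k1 a i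
    have := der3 h0 h1 (hc.pullT hP) (by rwa [lb_pullT _ hP]) (by rw [c3_eq _ _ hP, k2, hz, neg_zero])
    rwa [Sv_pullT _ _ hP, c3_eq _ _ hP, k2] at this
  change Fk (gm b) (linv b R) e θ = 0 at hk
  change 0 < Fk (gm b) (linv b (Qq4 R)) e θ
  rw [linv_Qq4 hn3 hb hR]
  change 0 < Fk (gm b) (Sv b (linv b R)) e θ
  rw [Fk] at hk ⊢
  obtain ⟨z1, z2⟩ := (add_eq_zero_iff_of_nonneg (mul_nonneg t0 a1)
    (mul_nonneg (sub_nonneg.2 t1) a2)).1 hk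
  rcases t0.eq_or_lt with rfl | t2
  · simpa using d3 (by simpa using z2)
  have p1 := mul_pos t2 (d2 ((mul_eq_zero.1 z1).resolve_left t2.ne'))
  rcases t1.eq_or_lt with rfl | t3
  · simpa using p1
  exact add_pos p1 (mul_pos (sub_pos.2 t3)
    (d3 ((mul_eq_zero.1 z2).resolve_left (sub_pos.2 t3).ne')))

end

end N8A

open N8A St1 in
/-- The extended first stage. -/
theorem n8_A {T : ℝ} {W : ℝ → Set (T4 8)} (hW : CurvFlow 8 T W)
    (h : AsymP T W fun R => G1 R ∧ PIC1w R) : AsymP T W (Gb (1 / 8) (1 / 32)) := by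
  have e1 : bOne 8 = 3 / 80 := by rw [bOne]; norm_num
  have h1 : Asym T W (fam (3 / 80)) := by
    refine h.start hW (fun R => continuousOn_univ.1 ((cont_fam R).comp
      (f := fun k => ((3 / 80 : ℝ), k)) (by fun_prop) fun k _ => ⟨by norm_num, trivial⟩)) ?_
    rintro R - ⟨⟨g1, g2⟩, -⟩ ⟨⟨e, he⟩, θ, t0, t1⟩
    rw [e1] at g1 g2
    have hd := ap_on4_dot he
    have a1 := g1 (cv (e 0) (e 1)) (cv (e 2) (e 3)) (by simp [fr_cv_dot, hd])
      (by simp [fr_cv_dot, hd]) (by simp [fr_cv_dot, hd])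
    have a2 := g2 (cv (e 0) (e 1)) (by simp [fr_cv_dot, hd])
    rw [hf_cv_re, nv_cv, hd, hd] at a2
    refine add_nonneg (mul_nonneg t0 a1) (mul_nonneg (sub_nonneg.2 t1) ?_)
    rw [F3, gm]
    simp only [if_true] at a2
    linarith only [he, t0, t1, a2]
  have h2 := h.family hW (l := fam) (a := 3 / 80) (b := 1 / 8) (by norm_num)
    (fun R => (cont_fam R).mono fun p hp => ⟨le_trans (by norm_num) hp.1.1, trivial⟩)
    (fun s hs R hR hne hG => trans hs.1 hs.2.le hR hne hG.2) h1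
  refine ⟨_, _, h2, fun R _ h3 => ⟨fam_pic h3, fun z hz => ?_⟩⟩
  have := iso3 (fam_c3 h3) hz
  rw [gm] at this
  linarith only [this]

end Pool.Agent.Work.MP_3a9764_gt
end
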