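import Pool.Agent.Work.MP_3a9764_gt.S3b

-- merged part: Pool.Agent.Work.MP_3a9764_gt.S4c
section
/-! The third non-invariant step of stage 4. -/

set_option autoImplicit false

open Filter Set Matrix
open scoped Topology ComplexConjugate

namespace Pool.Agent.Work.MP_3a9764_gt

noncomputable section

variable {n N : ℕ} {T : ℝ} {W : ℝ → Set (T4 n)} {S : T4 N}

theorem s4c_par (hS : IsOp S) (A B : CMat N) (σ τ : ℝ) :
    σ * τ * rq S (A + B) + rq S ((τ : ℂ) • A - (σ : ℂ) • B) =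
      (σ + τ) * (τ * rq S A + σ * rq S B) := by
  rw [sub_eq_add_neg, ← neg_smul, s3_rq_add hS, s3_rq_add hS, rq_smul_right, rq_smul_right,
    cq_smul_left, cq_smul_right]
  simp only [Complex.normSq_neg, Complex.normSq_ofReal, map_neg, Complex.conj_ofReal, neg_mul,
    mul_neg, Complex.neg_re, Complex.re_ofReal_mul]
  ring

/-- A Hermitian form which is non-negative on two hyperplanes. -/
theorem s4c_th (hS : IsOp S) {M K : ℝ} (hM0 : 0 ≤ M) (hM : ∀ v, rq S v ≤ M * nsq v)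
    {u p q : CMat N} (hp : nsq p ≤ K) (hq : nsq q ≤ K)
    (h1 : ∀ c d : ℂ, 0 ≤ rq S (c • u + d • p)) (h2 : ∀ c d : ℂ, 0 ≤ rq S (c • u + d • q))
    (s t : ℂ) : 0 ≤ rq S (u + s • p + t • q) + 4 * M * K * ‖s * t‖ := by
  by_cases hs : s = 0
  · simpa [hs] using h2 1 t
  by_cases ht : t = 0
  · simpa [ht] using h1 1 s
  have a1 := norm_pos_iff.2 hs
  have a2 := norm_pos_iff.2 ht
  have b1 := Complex.normSq_eq_norm_sq s
  have b2 := Complex.normSq_eq_norm_sq t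
  rw [norm_mul]
  generalize ‖s‖ = σ at *
  generalize ‖t‖ = τ at *
  have k := s4c_par hS ((σ : ℂ) • u + (((σ + τ : ℝ) : ℂ) * s) • p)
    ((τ : ℂ) • u + (((σ + τ : ℝ) : ℂ) * t) • q) σ τ
  have e1 : (σ : ℂ) • u + (((σ + τ : ℝ) : ℂ) * s) • p +
      ((τ : ℂ) • u + (((σ + τ : ℝ) : ℂ) * t) • q) = ((σ + τ : ℝ) : ℂ) • (u + s • p + t • q) := by
    push_cast
    module
  have e2 : (τ : ℂ) • ((σ : ℂ) • u + (((σ + τ : ℝ) : ℂ) * s) • p) -
      (σ : ℂ) • ((τ : ℂ) • u + (((σ + τ : ℝ) : ℂ) * t) • q) =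
        ((σ + τ : ℝ) : ℂ) • (((τ : ℂ) * s) • p - ((σ : ℂ) * t) • q) := by
    push_cast
    module
  rw [e1, e2, rq_smul_right, rq_smul_right, Complex.normSq_ofReal] at k
  have k1 := s3_nsq_sub (((τ : ℂ) * s) • p) (((σ : ℂ) * t) • q)
  simp only [nsq_smul, map_mul, Complex.normSq_ofReal, b1, b2] at k1
  have k2 := mul_le_mul_of_nonneg_left hp (sq_nonneg (σ * τ))
  have k3 := mul_le_mul_of_nonneg_left hq (sq_nonneg (σ * τ))
  have k4 := (hM _).trans (mul_le_mul_of_nonneg_left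
    (k1.trans (by linarith only [k2, k3] : _ ≤ 4 * K * (σ * τ) ^ 2)) hM0)
  have k5 := mul_nonneg (add_pos a1 a2).le (add_nonneg
    (mul_nonneg a2.le (h1 σ (((σ + τ : ℝ) : ℂ) * s))) (mul_nonneg a1.le
      (h2 τ (((σ + τ : ℝ) : ℂ) * t))))
  have k6 := mul_le_mul_of_nonneg_left k4 (mul_self_nonneg (σ + τ))
  refine nonneg_of_mul_nonneg_right (a := σ * τ * ((σ + τ) * (σ + τ))) ?_ (by positivity)
  linarith only [k, k5, k6]

theorem s4c_two (h2 : PIC2w S) (h : Pos 2 (fun _ _ => True) S) {a v x u : Fin N → ℂ}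
    (aa : a ⬝ᵥ a = 0) (sa : star a ⬝ᵥ a = 1) (av : a ⬝ᵥ v = 0) (sv : star a ⬝ᵥ v = 0)
    (vv : v ⬝ᵥ v = 0) (xa : x ⬝ᵥ a = 0) (xv : x ⬝ᵥ v = 0) (ua : u ⬝ᵥ a = 0) (uv : u ⬝ᵥ v = 0) :
    0 ≤ rq S (wedge a x + wedge v u) := by
  by_cases hv : v = 0
  · simpa [hv, wedge] using h2 a x
  obtain ⟨r, t, hr, k1, rfl⟩ := s3_unit hv
  simp only [smul_dotProduct, dotProduct_smul, smul_eq_mul, mul_eq_zero, hr, false_or]
    at av sv vv xv uv
  have k := s3_pos h (z := ![a, t]) (x := ![x, r • u])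
    (by constructor <;> intro i j <;> fin_cases i <;> fin_cases j <;>
      simp [aa, sa, av, sv, vv, k1, dotProduct_comm t a, s3_star_comm sv])
    fun i j _ => by fin_cases i <;> fin_cases j <;> simp [xa, xv, ua, uv]
  have e : wedge t (r • u) = wedge (r • t) u := by
    ext i j
    simp only [wedge, vecMulVec_apply, Matrix.sub_apply, Pi.smul_apply, smul_eq_mul]
    ring
  rw [Fin.sum_univ_two] at k
  exact e ▸ k

theorem s4c_iso (h2 : PIC2w S) (h : Pos 2 (fun _ _ => True) S) {a b x y : Fin N → ℂ}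
    (aa : a ⬝ᵥ a = 0) (sa : star a ⬝ᵥ a = 1) (ab : a ⬝ᵥ b = 0) (sb : star a ⬝ᵥ b = 0)
    (bb : b ⬝ᵥ b = 0) (xa : x ⬝ᵥ a = 0) (ya : y ⬝ᵥ a = 0) (yb : y ⬝ᵥ b = 0) (yy : y ⬝ᵥ y = 0) :
    0 ≤ rq S (wedge a x + wedge b y) := by
  obtain ⟨m, hm⟩ : ∃ m, m = star a ⬝ᵥ y := ⟨_, rfl⟩
  obtain ⟨α, β, k1, k2⟩ := s3_perp2 (x ⬝ᵥ b) (x ⬝ᵥ y)
  have k := s4c_two h2 h (v := α • b + β • (y - m • a)) (x := x - m • b)
    (u := -conj β • b + conj α • (y - m • a)) aa sa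
    (by simp [aa, ab, dotProduct_comm a y, ya]) (by simp [sa, sb, hm])
    (by simp [aa, ab, bb, ya, yb, yy, dotProduct_comm a y, dotProduct_comm b y,
      dotProduct_comm b a])
    (by simp [xa, ab, dotProduct_comm b a])
    (by simpa [xa, ab, bb, yb, dotProduct_comm b y, dotProduct_comm b a] using k2)
    (by simp [aa, ab, ya, dotProduct_comm b a])
    (by simp [aa, ab, bb, ya, yb, yy, dotProduct_comm a y, dotProduct_comm b y,
      dotProduct_comm b a])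
  have e : wedge a (x - m • b) +
      wedge (α • b + β • (y - m • a)) (-conj β • b + conj α • (y - m • a)) =
        wedge a x + wedge b y := by
    ext i j
    simp only [wedge, vecMulVec_apply, Matrix.add_apply, Matrix.sub_apply, Pi.add_apply,
      Pi.sub_apply, Pi.smul_apply, smul_eq_mul]
    linear_combination (b i * (y j - m * a j) - (y i - m * a i) * b j) * k1
  exact e ▸ k

theorem s4c_perp (a b y : Fin 7 → ℂ) : ∃ c : Fin 7 → ℂ, c ⬝ᵥ c = 1 ∧ nv c = 1 ∧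
    a ⬝ᵥ c = 0 ∧ b ⬝ᵥ c = 0 ∧ y ⬝ᵥ c = 0 := by
  obtain ⟨a, a', rfl⟩ := fr_exists_cv a
  obtain ⟨b, b', rfl⟩ := fr_exists_cv b
  obtain ⟨y, y', rfl⟩ := fr_exists_cv y
  obtain ⟨c, h1, h2⟩ := exists_perp (k := 6) (by omega) ![a, a', b, b', y, y']
  have k0 : a ⬝ᵥ c = 0 := h2 0
  have k1 : a' ⬝ᵥ c = 0 := h2 1
  have k2 : b ⬝ᵥ c = 0 := h2 2
  have k3 : b' ⬝ᵥ c = 0 := h2 3
  have k4 : y ⬝ᵥ c = 0 := h2 4
  have k5 : y' ⬝ᵥ c = 0 := h2 5
  refine ⟨cv c 0, by simp [fr_cv_dot, h1], s3_nv_one ?_, by simp [fr_cv_dot, k0, k1],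
    by simp [fr_cv_dot, k2, k3], by simp [fr_cv_dot, k4, k5]⟩
  simp [fr_star_cv, fr_cv_dot, h1]

theorem s4c_start {S : T4 7} (hS : IsOp S) {M : ℝ} (hM0 : 0 ≤ M) (hM : ∀ v, rq S v ≤ M * nsq v)
    (h2 : PIC2w S) (h : Pos 2 (fun _ _ => True) S) {a b x y : Fin 7 → ℂ}
    (aa : a ⬝ᵥ a = 0) (sa : star a ⬝ᵥ a = 1) (ab : a ⬝ᵥ b = 0) (sab : star a ⬝ᵥ b = 0)
    (bb : b ⬝ᵥ b = 0) (sb : star b ⬝ᵥ b = 1) (xa : x ⬝ᵥ a = 0) (ya : y ⬝ᵥ a = 0)
    (yb : y ⬝ᵥ b = 0) {γ : ℂ} (hγ : y ⬝ᵥ y = -(γ * γ)) :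
    0 ≤ rq S (wedge a x + wedge b y) + 16 * M * ‖(x ⬝ᵥ b) * γ‖ := by
  obtain ⟨c, c0, c1, c2, c3, c4⟩ := s4c_perp a b y
  obtain ⟨α, hα⟩ : ∃ α, α = x ⬝ᵥ b := ⟨_, rfl⟩
  have sba := s3_star_comm sab
  have e : ∀ s t r : ℂ, s • (wedge a (x - α • star b) + wedge b (y + γ • c)) +
      t • wedge a (star b) + r • wedge b c = wedge a (s • (x - α • star b) + t • star b) +
        wedge b (s • (y + γ • c) + r • c) := fun s t r => by
    ext i j
    simp only [wedge, vecMulVec_apply, Matrix.add_apply, Matrix.sub_apply, Matrix.smul_apply,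
      Pi.add_apply, Pi.sub_apply, Pi.smul_apply, smul_eq_mul]
    ring
  have k := s4c_th hS hM0 hM (u := wedge a (x - α • star b) + wedge b (y + γ • c))
    (p := wedge a (star b)) (q := wedge b c) (K := 4)
    (by simpa [s3_nv_star, s3_nv_one sa, s3_nv_one sb] using s3_nsq_wedge a (star b))
    (by simpa [s3_nv_one sb, c1] using s3_nsq_wedge b c)
    (fun s t => by
      have e1 := e s t 0
      rw [zero_smul, add_zero] at e1
      rw [e1]
      exact s4c_iso h2 h aa sa ab sab bb (by simp [xa, sba]) (by simp [ya, dotProduct_comm c a, c2])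
        (by simp [yb, dotProduct_comm c b, c3])
        (by simp [hγ, c0, c4, dotProduct_comm c y, mul_left_comm γ]))
    (fun s t => by
      have e1 := e s 0 t
      rw [zero_smul, add_zero] at e1
      rw [e1]
      exact s4c_two h2 h aa sa ab sab bb (by simp [xa, sba]) (by simp [hα, sb])
        (by simp [ya, dotProduct_comm c a, c2]) (by simp [yb, dotProduct_comm c b, c3])) α (-γ)
  have e2 := e 1 α (-γ)
  rw [one_smul, one_smul, one_smul, sub_add_cancel, neg_smul γ c,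
    add_neg_cancel_right] at e2
  rw [e2, mul_neg, norm_neg, hα] at k
  linarith only [k]

theorem s4c_pow {a b x y : Fin N → ℂ} (aa : a ⬝ᵥ a = 0) (ab : a ⬝ᵥ b = 0) (bb : b ⬝ᵥ b = 0)
    (xa : x ⬝ᵥ a = 0) (ya : y ⬝ᵥ a = 0) (yb : y ⬝ᵥ b = 0) :
    (wedge a x + wedge b y) ^ 4 = ((x ⬝ᵥ b) ^ 2 * (y ⬝ᵥ y)) • vecMulVec a a := by
  have e : (wedge a x + wedge b y) * (wedge a x + wedge b y) =
      vecMulVec a ((x ⬝ᵥ b) • y - (x ⬝ᵥ x) • a - (x ⬝ᵥ y) • b) + vecMulVec ((x ⬝ᵥ b) • y) a -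
        vecMulVec b ((x ⬝ᵥ y) • a + (y ⬝ᵥ y) • b) := by
    simp only [wedge, add_mul, mul_add, sub_mul, mul_sub, vecMulVec_mul_vecMulVec, aa, ab, bb, xa,
      ya, yb, dotProduct_comm a x, dotProduct_comm a y, dotProduct_comm b y, dotProduct_comm b a,
      dotProduct_comm b x, dotProduct_comm y x]
    ext i j
    simp only [vecMulVec_apply, Matrix.add_apply, Matrix.sub_apply, Pi.add_apply, Pi.sub_apply,
      Pi.smul_apply, smul_eq_mul]
    ring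
  rw [show 4 = 2 * 2 from rfl, pow_mul, sq (_ + _), e, sq]
  simp only [add_mul, mul_add, sub_mul, mul_sub, vecMulVec_mul_vecMulVec, add_dotProduct,
    sub_dotProduct, smul_dotProduct, dotProduct_smul, aa, ab, bb, ya, yb, dotProduct_comm a y,
    dotProduct_comm b y, dotProduct_comm b a]
  ext i j
  simp only [vecMulVec_apply, Matrix.add_apply, Matrix.sub_apply, Matrix.smul_apply, Pi.add_apply,
    Pi.sub_apply, Pi.smul_apply, smul_eq_mul]
  ring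

theorem s4c_pen {r k : ℕ} {V : Matrix (Fin N) (Fin r) ℂ} (hV : Vᴴ * V = 1) {w : CMat N}
    {B : CMat r} (hB : w ^ k = V * B * Vᵀ) : penK k V w = ‖B.det‖ ^ ((2 : ℝ) / (r * k)) := by
  rw [penK, hB, ← Matrix.mul_assoc, ← Matrix.mul_assoc, hV, Matrix.one_mul, Matrix.mul_assoc,
    unit_conj hV, Matrix.mul_one]

theorem s4c_cols (Z : Matrix (Fin N) (Fin 2) ℂ) (t : ℂ) :
    t • vecMulVec (fun i => Z i 0) (fun i => Z i 0) =
      cols one_le_two Z * (of fun _ _ => t : CMat 1) * (cols one_le_two Z)ᵀ := by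
  ext i j
  simp only [cols, Matrix.smul_apply, vecMulVec_apply, mul_apply, Fin.sum_univ_one,
    submatrix_apply, transpose_apply, of_apply, smul_eq_mul, id]
  change t * (Z i 0 * Z j 0) = Z i 0 * t * Z j 0
  ring

theorem stage_S3 (hW : CurvFlow n T W) (hn : 5 ≤ n) (hn7 : n ≤ 7)
    (h : AsymP T W fun R => PIC2w R ∧ Pos 2 (fun _ _ => True) (flat 7 R)) :
    AsymP T W fun R => Pos 2 (fun i j => j ≤ i) (flat 7 R) := by
  have key : ∀ Z C : Matrix (Fin 7) (Fin 2) ℂ, Zᵀ * Z = 0 → (∀ i j, j ≤ i → (Cᵀ * Z) i j = 0) →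
      (Z * Cᵀ - C * Zᵀ) ^ 4 = cols one_le_two Z * (of fun _ _ => ((fun i => C i 0) ⬝ᵥ
        fun i => Z i 1) ^ 2 * ((fun i => C i 1) ⬝ᵥ fun i => C i 1) : CMat 1) *
          (cols one_le_two Z)ᵀ :=
    fun Z C h0 hC => by
      rw [s3_sum, Fin.sum_univ_two, ← s4c_cols]
      exact s4c_pow (congrFun (congrFun h0 0) 0) (congrFun (congrFun h0 0) 1)
        (congrFun (congrFun h0 1) 1) (hC 0 0 le_rfl) (hC 1 0 zero_le_one) (hC 1 1 le_rfl)
  refine penStep hW hn hn7 hn7 (k := 4) one_le_two (by norm_num) _ ?_ (fun i j h1 h2 => ?_)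
    (fun i j h1 h2 => ?_) ?_ h (fun R _ h => h.1) (β := 16 * 7 ^ 3) ?_
  · rintro Z U w hU hd ⟨C, rfl, hC⟩
    obtain ⟨e1, e2⟩ := xs_frame (Z := Z) (C := C) hd
    have hτ : (Cᵀ * (Z * U)).BlockTriangular id := fun i j h => hC i j (le_of_lt h)
    refine ⟨_, e1, fun i j hij => ?_⟩
    rw [e2]
    rcases hij.eq_or_lt with h | h
    · subst h
      rw [tri_conj_diag hU hd hτ, hC _ _ le_rfl]
    · exact (hU.mul hτ).mul (tri_inv hU hd) h
  · exact lt_of_le_of_lt h1 h2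
  · exact Fin.le_def.2 (h1.trans_le h2).le
  · rintro Z w h0 - ⟨C, rfl, hC⟩
    exact ⟨_, key Z C h0 hC⟩
  · rintro R hR h Z w h0 h1 ⟨C, rfl, hC⟩
    have hS : IsCurv (flat 7 R) := isCurv_pullT hR _
    have h2 : PIC2w (flat 7 R) := h.1.pullT _
    obtain ⟨γ, hγ⟩ := IsAlgClosed.exists_eq_mul_self (-((fun i => C i 1) ⬝ᵥ fun i => C i 1))
    obtain ⟨f0, f1⟩ := (fr_iff Z).1 ⟨h0, h1⟩
    have h3 := s4c_start hS.isOp (M := 7 ^ 3 * scal4 R)
      (mul_nonneg (by norm_num) (h.1.picw.scal_ge hn hR)) (fun v => by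
        have h4 := (le_abs_self _).trans (s3_rq_le (by norm_num) hS h2.picw v)
        rwa [show scal4 (flat 7 R) = scal4 R from scal4_pullT R (emb_mul hn7), Nat.cast_ofNat]
          at h4) h2 h.2 (f0 0 0) (f1 0 0) (f0 0 1) (f1 0 1) (f0 1 1) (f1 1 1) (hC 0 0 le_rfl)
      (hC 1 0 zero_le_one) (hC 1 1 le_rfl) (neg_eq_iff_eq_neg.1 hγ)
    rw [s4c_pen (cols_unit _ h1) (key Z C h0 hC), det_unique, of_apply, neg_eq_iff_eq_neg.1 hγ,
      mul_neg, norm_neg, ← sq, ← mul_pow, norm_pow, ← Real.rpow_natCast _ 2,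
      ← Real.rpow_mul (norm_nonneg _), s3_sum, Fin.sum_univ_two,
      show ((2 : ℕ) : ℝ) * (2 / ((1 : ℕ) * (4 : ℕ))) = 1 by norm_num, Real.rpow_one, mul_assoc 16]
    exact h3

end

end Pool.Agent.Work.MP_3a9764_gt
end

-- merged part: Pool.Agent.Work.MP_3a9764_gt.S4a
section
-- merged part: Pool.Agent.Work.MP_3a9764_gt.S4a
section
/-! The first non-invariant step of stage 4. -/

set_option autoImplicit false

open Filter Set Matrix
open scoped Topology ComplexConjugate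

namespace Pool.Agent.Work.MP_3a9764_gt

noncomputable section

variable {n N : ℕ} {T : ℝ} {W : ℝ → Set (T4 n)}

/-- The non-invariant step with the starting estimate stated for a bounded form. -/
theorem s4_step (hW : CurvFlow n T W) (hn : 5 ≤ n) (hn7 : n ≤ 7) (hN : n ≤ N) {q r k : ℕ}
    (hr : r ≤ q) (hrk : 4 ≤ r * k) (pat : Fin q → Fin q → Prop)
    (hU : ∀ (Z : Matrix (Fin N) (Fin q) ℂ) (U : Matrix (Fin q) (Fin q) ℂ) (w : CMat N),
      U.BlockTriangular id → IsUnit U.det → XS pat (Z * U) w → XS pat Z w)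
    (hrow : ∀ i j, pat i j → (i : ℕ) < r → (j : ℕ) < r)
    (hcol : ∀ i j : Fin q, (j : ℕ) < r → r ≤ (i : ℕ) → pat i j)
    (hpow : ∀ (Z : Matrix (Fin N) (Fin q) ℂ) (w : CMat N), Zᵀ * Z = 0 → Zᴴ * Z = 1 → XS pat Z w →
      ∃ B : Matrix (Fin r) (Fin r) ℂ, w ^ k = cols hr Z * B * (cols hr Z)ᵀ)
    {P : T4 n → Prop} (h0 : AsymP T W fun R => PIC2w R ∧ P R) {β : ℝ}
    (hstart : ∀ (R : T4 n) (M : ℝ), IsCurv (flat N R) → PIC2w (flat N R) → P R → 0 ≤ M →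
      (∀ v, |rq (flat N R) v| ≤ M * nsq v) →
      (∀ v w, ‖cq (flat N R) v w‖ ≤ 4 * M * (√(nsq v) * √(nsq w))) →
      ∀ (Z : Matrix (Fin N) (Fin q) ℂ) (w : CMat N), Zᵀ * Z = 0 → Zᴴ * Z = 1 → XS pat Z w →
        0 ≤ rq (flat N R) w + β * M * penK k (cols hr Z) w) :
    AsymP T W fun R => Pos q pat (flat N R) := by
  refine penStep hW hn hn7 hN hr hrk pat hU hrow hcol hpow h0 (fun R _ h => h.1) (β := β * N ^ 3)
    fun R hR h Z w z0 z1 hw => ?_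
  have hS : IsCurv (flat N R) := isCurv_pullT hR _
  have h1 : PIC2w (flat N R) := h.1.pullT _
  have h2 : scal4 (flat N R) = scal4 R := scal4_pullT R (emb_mul hN)
  rw [mul_assoc β, ← h2]
  exact hstart R _ hS h1 h.2 (mul_nonneg (by positivity) (h1.picw.scal_ge (hn.trans hN) hS))
    (s3_rq_le (hn.trans hN) hS h1.picw) (s3_cq_le (hn.trans hN) hS h1.picw) Z w z0 z1 hw

theorem s4_cols {q : ℕ} (Z : Matrix (Fin N) (Fin q) ℂ) : cols le_rfl Z = Z := rfl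

theorem s4_hU_true {q : ℕ} (Z : Matrix (Fin N) (Fin q) ℂ) (U : CMat q) (w : CMat N)
    (hd : IsUnit U.det) (h : XS (fun _ _ => True) (Z * U) w) : XS (fun _ _ => True) Z w := by
  obtain ⟨C, rfl, hC⟩ := h
  obtain ⟨e1, e2⟩ := xs_frame (Z := Z) (C := C) hd
  refine ⟨C * Uᵀ, e1, fun i j _ => ?_⟩
  rw [e2, show Cᵀ * (Z * U) = 0 from Matrix.ext fun i j => hC i j trivial]
  simp

theorem s4_sym {S : T4 N} (hS : IsOp S) {M : ℝ} (hM : ∀ v, |rq S v| ≤ M * nsq v) {w y : CMat N}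
    (h1 : 0 ≤ rq S (w + y)) (h2 : 0 ≤ rq S (w - y)) : 0 ≤ rq S w + M * nsq y := by
  linarith only [h1, h2, hS, hM, s3_rq_par hS w y, le_abs_self (rq S y), hM y]

theorem s4_nsq_unit {q : ℕ} {Z : Matrix (Fin N) (Fin q) ℂ} (h1 : Zᴴ * Z = 1) (B : CMat q) :
    nsq (Z * B * Zᵀ) = nsq B := by
  have e : (nsr (Z * B * Zᵀ) : ℂ) = nsr B := by
    have h2 : Zᵀ * Zᵀᴴ = 1 := unit_conj h1
    rw [MP_3a9764_gt.T.nsr_eq, MP_3a9764_gt.T.nsr_eq, conjTranspose_mul, conjTranspose_mul, Matrix.mul_assoc,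
      ← Matrix.mul_assoc Zᵀ, h2, Matrix.one_mul, Matrix.mul_assoc, trace_mul_comm,
      Matrix.mul_assoc, Matrix.mul_assoc, h1, Matrix.mul_one]
  exact_mod_cast e

/-- The Pfaffian. -/
def pf4 (B : CMat 4) : ℂ := B 0 1 * B 2 3 - B 0 2 * B 1 3 + B 0 3 * B 1 2

theorem s4_skew4 {B : CMat 4} (hB : Bᵀ = -B) : B = !![0, B 0 1, B 0 2, B 0 3; -B 0 1, 0, B 1 2, B 1 3;
    -B 0 2, -B 1 2, 0, B 2 3; -B 0 3, -B 1 3, -B 2 3, 0] := by
  have h : ∀ i j, B j i = -B i j := fun i j => congrFun (congrFun hB i) j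
  have z : ∀ i, B i i = 0 := fun i => by linear_combination (1 / 2 : ℂ) * h i i
  ext i j
  fin_cases i <;> fin_cases j <;> simp [z] <;> exact h _ _

theorem s4_det {B : CMat 4} (hB : Bᵀ = -B) : B.det = pf4 B ^ 2 := by
  rw [pf4]
  conv_lhs => rw [s4_skew4 hB]
  simp [det_succ_row_zero, Fin.sum_univ_succ, Fin.succAbove]
  ring

theorem s4_plucker {B : CMat 4} (hB : Bᵀ = -B) (h : pf4 B = 0) (p q : Fin 4) :
    B p q • B = wedge (B p) (B q) := by
  rw [pf4] at h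
  have sk : ∀ i j, B j i = -B i j := fun i j => congrFun (congrFun hB i) j
  have z : ∀ i, B i i = 0 := fun i => by linear_combination (1 / 2 : ℂ) * sk i i
  have c : ∀ x : Fin 4, x = 0 ∨ x = 1 ∨ x = 2 ∨ x = 3 := by decide
  ext i j
  show B p q * B i j = B p i * B q j - B q i * B p j
  by_cases h1 : p = q
  · rw [h1, z]; ring
  by_cases h2 : p = i
  · rw [← h2, z, sk p q]; ring
  by_cases h3 : p = j
  · rw [← h3, z, sk p q, sk p i]; ring
  by_cases h4 : q = i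
  · rw [← h4, z]; ring
  by_cases h5 : q = j
  · rw [← h5, z, sk q i]; ring
  by_cases h6 : i = j
  · rw [← h6, z]; ring
  have e10 := sk 0 1
  have e20 := sk 0 2
  have e30 := sk 0 3
  have e21 := sk 1 2
  have e31 := sk 1 3
  have e32 := sk 2 3
  rcases c p with rfl | rfl | rfl | rfl <;> rcases c q with rfl | rfl | rfl | rfl <;>
    first
    | exact absurd rfl h1
    | (rcases c i with rfl | rfl | rfl | rfl <;>
        first
        | exact absurd rfl h2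
        | exact absurd rfl h4
        | (rcases c j with rfl | rfl | rfl | rfl <;>
            first
            | exact absurd rfl h3
            | exact absurd rfl h5
            | exact absurd rfl h6
            | ((try simp only [e10, e20, e30, e21, e31, e32])
               first | linear_combination h | linear_combination -h)))

theorem s4_dec {S : T4 N} (h2 : PIC2w S) (Z : Matrix (Fin N) (Fin 4) ℂ) {B : CMat 4}
    (hB : Bᵀ = -B) (h : pf4 B = 0) : 0 ≤ rq S (Z * B * Zᵀ) := by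
  by_cases h0 : B = 0
  · simp [h0, rq, cq]
  obtain ⟨p, q, hpq⟩ : ∃ p q, B p q ≠ 0 := by
    by_contra h1
    push Not at h1
    exact h0 (Matrix.ext h1)
  have e : B p q • (Z * B * Zᵀ) = wedge (Z *ᵥ B p) (Z *ᵥ B q) := by
    rw [← Matrix.smul_mul, ← Matrix.mul_smul, s4_plucker hB h]
    simp only [wedge, Matrix.mul_sub, Matrix.sub_mul, mul_vecMulVec, vecMulVec_mul,
      vecMul_transpose]
  have h3 := h2 (Z *ᵥ B p) (Z *ᵥ B q)
  rw [← e, rq_smul_right] at h3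
  exact nonneg_of_mul_nonneg_right h3 (Complex.normSq_pos.2 hpq)

theorem s4_pf_sym (B : CMat 4) : ∃ D : CMat 4, Dᵀ = -D ∧ pf4 (B + D) = 0 ∧ pf4 (B - D) = 0 ∧
    nsq D = 4 * ‖pf4 B‖ := by
  obtain ⟨t, ht⟩ : ∃ t : ℂ, t ^ 2 = -pf4 B := IsAlgClosed.exists_pow_nat_eq _ two_pos
  obtain ⟨c, hc, h⟩ := exists_perp (n := 3) (k := 2) (by norm_num)
    ![![(B 0 1 + B 2 3).re, (B 0 2 - B 1 3).re, (B 0 3 + B 1 2).re],
      ![(B 0 1 + B 2 3).im, (B 0 2 - B 1 3).im, (B 0 3 + B 1 2).im]]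
  have h0 := h 0
  have h1 := h 1
  simp only [dotProduct, Fin.sum_univ_three, cons_val] at hc h0 h1
  have e : (B 0 1 + B 2 3) * c 0 + (B 0 2 - B 1 3) * c 1 + (B 0 3 + B 1 2) * c 2 = 0 :=
    Complex.ext (by simpa using h0) (by simpa using h1)
  have hc' : (c 0 : ℂ) * c 0 + c 1 * c 1 + c 2 * c 2 = 1 := by exact_mod_cast hc
  have hn : Complex.normSq t = ‖pf4 B‖ := by
    rw [Complex.normSq_eq_norm_sq, ← norm_pow, ht, norm_neg]
  refine ⟨t • (!![0, c 0, c 1, c 2; -c 0, 0, c 2, -c 1; -c 1, -c 2, 0, c 0; -c 2, c 1, -c 0, 0] :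
    CMat 4), ?_, ?_, ?_, ?_⟩
  · ext i j
    fin_cases i <;> fin_cases j <;> simp
  · simp only [pf4] at ht ⊢
    simp
    linear_combination ht + t * e + t ^ 2 * hc'
  · simp only [pf4] at ht ⊢
    simp
    linear_combination ht - t * e + t ^ 2 * hc'
  · rw [nsq_smul, hn]
    simp [nsq, Fin.sum_univ_four]
    linear_combination 4 * ‖pf4 B‖ * hc

theorem s4_max {Z : Matrix (Fin 8) (Fin 4) ℂ} {w : CMat 8} (h0 : Zᵀ * Z = 0) (h1 : Zᴴ * Z = 1)
    (hw : XS (fun _ _ => True) Z w) : ∃ B : CMat 4, Bᵀ = -B ∧ w = Z * B * Zᵀ := by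
  obtain ⟨C, rfl, hC⟩ := hw
  have e0 : Zᵀ * C = 0 := by
    rw [← transpose_transpose C, ← transpose_mul,
      show Cᵀ * Z = 0 from Matrix.ext fun i j => hC i j trivial, transpose_zero]
  have e1 : C = Z * (Zᴴ * C) := by
    have e2 : (Z * Zᴴ).map conj = Z.map conj * Zᵀ := by
      ext i j
      simp [mul_apply]
    have e3 := congrArg (· * C) (complete_even (r := 4) h0 h1)
    simp only [e2, Matrix.add_mul, Matrix.mul_assoc, e0, Matrix.mul_zero, add_zero,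
      Matrix.one_mul] at e3
    exact e3.symm
  generalize Zᴴ * C = A at e1
  subst e1
  exact ⟨Aᵀ - A, by simp, by
    simp only [transpose_mul, Matrix.mul_sub, Matrix.sub_mul, Matrix.mul_assoc]⟩

theorem stage_S1 (hW : CurvFlow n T W) (hn : 5 ≤ n) (hn7 : n ≤ 7) (h : AsymP T W PIC2w) :
    AsymP T W fun R => Pos 4 (fun _ _ => True) (flat 8 R) := by
  refine s4_step hW hn hn7 (by omega) (r := 4) (k := 1) le_rfl le_rfl _
    (fun Z U w _ => s4_hU_true Z U w) (fun _ j _ _ => j.2) (fun _ _ _ _ => trivial)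
    (fun Z w h0 h1 hw => ?_) (P := fun _ => True) (h.mono fun R _ h => ⟨h, trivial⟩) (β := 4)
    fun R M hS h2 _ _ hM _ Z w h0 h1 hw => ?_
  · obtain ⟨B, -, rfl⟩ := s4_max h0 h1 hw
    exact ⟨B, pow_one _⟩
  obtain ⟨B, hB, rfl⟩ := s4_max h0 h1 hw
  obtain ⟨D, hD, p1, p2, p3⟩ := s4_pf_sym B
  have e : penK 1 (cols le_rfl Z) (Z * B * Zᵀ) = ‖pf4 B‖ := by
    rw [penK, s4_cols, pow_one, Matrix.mul_assoc, Matrix.mul_assoc, unit_conj h1, Matrix.mul_one,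
      ← Matrix.mul_assoc, h1, Matrix.one_mul, s4_det hB, norm_pow, ← Real.rpow_natCast,
      ← Real.rpow_mul (norm_nonneg _)]
    norm_num
  have k := s4_sym hS.isOp hM (w := Z * B * Zᵀ) (y := Z * D * Zᵀ)
    (by rw [← Matrix.add_mul, ← Matrix.mul_add]
        exact s4_dec h2 Z (by rw [transpose_add, hB, hD, neg_add]) p1)
    (by rw [← Matrix.sub_mul, ← Matrix.mul_sub]
        exact s4_dec h2 Z (by rw [transpose_sub, hB, hD, neg_sub_neg, neg_sub]) p2)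
  rw [s4_nsq_unit h1, p3] at k
  rw [e]
  linarith only [k]

end

end Pool.Agent.Work.MP_3a9764_gt
end

-- merged part: Pool.Agent.Work.MP_3a9764_gt.S4d
section
/-! The fourth non-invariant step of stage 4. -/

set_option autoImplicit false

open Filter Set Matrix
open scoped Topology ComplexConjugate

namespace Pool.Agent.Work.MP_3a9764_gt

noncomputable section

variable {n N : ℕ} {T : ℝ} {W : ℝ → Set (T4 n)}

section

variable {S : T4 7} {a b c x y u : Fin 7 → ℂ}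

theorem s4d_dec (hF : Fr3 a b c) : ∃ e : Fin 7 → ℂ, e ⬝ᵥ e = 1 ∧ nv e = 1 ∧ e ⬝ᵥ a = 0 ∧
    e ⬝ᵥ b = 0 ∧ e ⬝ᵥ c = 0 ∧ ∀ u : Fin 7 → ℂ, u ⬝ᵥ a = 0 → u ⬝ᵥ b = 0 → u ⬝ᵥ c = 0 →
      u ⬝ᵥ u = (e ⬝ᵥ u) ^ 2 ∧ ∃ α β γ : ℂ, u = α • a + β • b + γ • c + (e ⬝ᵥ u) • e := by
  obtain ⟨e, e0, e1, ea, eb, ec, hd⟩ := s3_dec hF
  refine ⟨e, e0, s3_nv_one (by rw [e1, e0]), by rwa [dotProduct_comm], by rwa [dotProduct_comm],
    by rwa [dotProduct_comm], fun u ua ub uc => ?_⟩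
  have h := hd u
  simp only [ua, ub, uc, zero_smul, add_zero] at h
  refine ⟨?_, _, _, _, h⟩
  conv_lhs => enter [2]; rw [h]
  simp [ua, ub, uc, dotProduct_comm u e, sq]

theorem s4d_L (h : Pos 2 (fun i j => j ≤ i) S) (hF : Fr3 a b c) (xa : x ⬝ᵥ a = 0)
    (ya : y ⬝ᵥ a = 0) (yb : y ⬝ᵥ b = 0) (ua : u ⬝ᵥ a = 0) (ub : u ⬝ᵥ b = 0) (uc : u ⬝ᵥ c = 0)
    (uu : u ⬝ᵥ u = 0) : 0 ≤ rq S (wedge a x + wedge b y + wedge c u) := by
  obtain ⟨e, -, -, -, -, -, hd⟩ := s4d_dec hF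
  obtain ⟨h1, α, β, γ, h2⟩ := hd u ua ub uc
  rw [pow_eq_zero_iff two_ne_zero |>.1 (h1.symm.trans uu), zero_smul, add_zero] at h2
  have k := s3_pos h (z := ![a, b]) (x := ![x - α • c, y - β • c])
    (by constructor <;> intro i j <;> fin_cases i <;> fin_cases j <;>
      simp [hF.aa, hF.ab, hF.bb, hF.saa, hF.sab, hF.sbb, dotProduct_comm b a, s3_star_comm hF.sab])
    fun i j hij => by
      fin_cases i <;> fin_cases j <;>
        simp [xa, ya, yb, dotProduct_comm c a, dotProduct_comm c b, hF.ac, hF.bc] at hij ⊢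
  rw [Fin.sum_univ_two] at k
  convert k using 2
  ext i j
  simp [h2, wedge, vecMulVec_apply]
  ring

theorem s4d_two (h : Pos 2 (fun i j => j ≤ i) S) (hF : Fr3 a b c) (xa : x ⬝ᵥ a = 0)
    (ya : y ⬝ᵥ a = 0) (yb : y ⬝ᵥ b = 0) (ua : u ⬝ᵥ a = 0) (ub : u ⬝ᵥ b = 0) (uc : u ⬝ᵥ c = 0)
    (yc : y ⬝ᵥ c = 0) : 0 ≤ rq S (wedge a x + wedge b y + wedge c u) := by
  obtain ⟨e, -, -, -, -, -, hd⟩ := s4d_dec hF
  obtain ⟨α, β, k1, k2⟩ := s3_perp2 (e ⬝ᵥ u) (-(e ⬝ᵥ y))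
  have k := s4d_L h (hF.rot12 k1) (y := conj α • y + conj β • u) (u := -β • y + α • u) xa
    (by simp [*]) (by simp [*]) (by simp [*]) (by simp [*]) (by simp [*]) (by
      rw [(hd _ (by simp [*]) (by simp [*]) (by simp [*])).1, pow_eq_zero_iff two_ne_zero]
      simp only [dotProduct_add, dotProduct_smul, smul_eq_mul]
      linear_combination k2)
  rwa [add_assoc, s3_rot b c y u k1, ← add_assoc] at k

theorem s4d_one (h : Pos 2 (fun i j => j ≤ i) S) (hF : Fr3 a b c) (xa : x ⬝ᵥ a = 0)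
    (ya : y ⬝ᵥ a = 0) (yb : y ⬝ᵥ b = 0) (ua : u ⬝ᵥ a = 0) (ub : u ⬝ᵥ b = 0) (uc : u ⬝ᵥ c = 0)
    (xb : x ⬝ᵥ b = 0) : 0 ≤ rq S (wedge a x + wedge b y + wedge c u) := by
  obtain ⟨α, β, k1, k2⟩ := s3_perp2 (y ⬝ᵥ c) (-(x ⬝ᵥ c))
  have k := s4d_two h (hF.rot01 k1) (x := conj α • x + conj β • y) (y := -β • x + α • y) (u := u)
    (by simp [*]) (by simp [*]) (by simp [*]) (by simp [*]) (by simp [*]) uc (by
      simp only [add_dotProduct, smul_dotProduct, smul_eq_mul]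
      linear_combination k2)
  rwa [s3_rot a b x y k1] at k

theorem s4d_min {A B C p : ℝ} (hp : 0 ≤ p) (h : p ^ 3 = A * B * (B * C) * (A * C)) :
    A * B ≤ p ∨ B * C ≤ p ∨ A * C ≤ p := by
  by_contra h1
  push Not at h1
  have := mul_lt_mul'' (mul_lt_mul'' h1.1 h1.2.1 hp hp) h1.2.2 (mul_nonneg hp hp) hp
  linarith

theorem s4d_start (hS : IsOp S) {M : ℝ} (hM0 : 0 ≤ M) (hM : ∀ v, rq S v ≤ M * nsq v)
    (h : Pos 2 (fun i j => j ≤ i) S) (hF : Fr3 a b c) (xa : x ⬝ᵥ a = 0)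
    (ya : y ⬝ᵥ a = 0) (yb : y ⬝ᵥ b = 0) (ua : u ⬝ᵥ a = 0) (ub : u ⬝ᵥ b = 0) (uc : u ⬝ᵥ c = 0)
    {p : ℝ} (hp : 0 ≤ p) (h3 : p ^ 3 = ‖(x ⬝ᵥ b) ^ 2 * (y ⬝ᵥ c) ^ 2 * u ⬝ᵥ u‖) :
    0 ≤ rq S (wedge a x + wedge b y + wedge c u) + 16 * M * p := by
  obtain ⟨e, ee, ne, ea, eb, ec, hd⟩ := s4d_dec hF
  rw [(hd u ua ub uc).1] at h3
  have sba := s3_star_comm hF.sab
  have sca := s3_star_comm hF.sac
  have scb := s3_star_comm hF.sbc
  have sbb := hF.sbb
  have scc := hF.scc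
  obtain ⟨A, hA⟩ : ∃ A, x ⬝ᵥ b = A := ⟨_, rfl⟩
  obtain ⟨B, hB⟩ : ∃ B, y ⬝ᵥ c = B := ⟨_, rfl⟩
  obtain ⟨C, hC⟩ : ∃ C, e ⬝ᵥ u = C := ⟨_, rfl⟩
  obtain ⟨w, hw⟩ : ∃ w, w = wedge a (x - A • star b) + wedge b (y - B • star c) +
    wedge c (u - C • e) := ⟨_, rfl⟩
  have e1 : ∀ s t₁ t₂ t₃ : ℂ, s • w + t₁ • wedge a (star b) + t₂ • wedge b (star c) +
      t₃ • wedge c e = wedge a (s • (x - A • star b) + t₁ • star b) +
      wedge b (s • (y - B • star c) + t₂ • star c) + wedge c (s • (u - C • e) + t₃ • e) :=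
    fun s t₁ t₂ t₃ => by
      ext i j
      simp only [hw, wedge, vecMulVec_apply, Matrix.add_apply, Matrix.sub_apply, Matrix.smul_apply,
        Pi.add_apply, Pi.sub_apply, Pi.smul_apply, smul_eq_mul]
      ring
  have key : ∀ s t₁ t₂ t₃ : ℂ, t₁ = 0 ∨ t₂ = 0 ∨ t₃ = 0 → 0 ≤ rq S (s • w +
      t₁ • wedge a (star b) + t₂ • wedge b (star c) + t₃ • wedge c e) := fun s t₁ t₂ t₃ ht => by
    rw [e1]
    rcases ht with rfl | rfl | rfl
    · exact s4d_one h hF (by simp [*]) (by simp [*]) (by simp [*]) (by simp [*]) (by simp [*])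
        (by simp [*]) (by simp [*])
    · exact s4d_two h hF (by simp [*]) (by simp [*]) (by simp [*]) (by simp [*]) (by simp [*])
        (by simp [*]) (by simp [*])
    · exact s4d_L h hF (by simp [*]) (by simp [*]) (by simp [*]) (by simp [*]) (by simp [*])
        (by simp [*]) (by rw [(hd _ (by simp [*]) (by simp [*]) (by simp [*])).1]; simp [*])
  have e2 : wedge a x + wedge b y + wedge c u =
      w + A • wedge a (star b) + B • wedge b (star c) + C • wedge c e := by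
    simpa using (e1 1 A B C).symm
  have n1 : nsq (wedge a (star b)) ≤ 4 := by
    simpa [s3_nv_star, s3_nv_one hF.saa, s3_nv_one sbb] using s3_nsq_wedge a (star b)
  have n2 : nsq (wedge b (star c)) ≤ 4 := by
    simpa [s3_nv_star, s3_nv_one scc, s3_nv_one sbb] using s3_nsq_wedge b (star c)
  have n3 : nsq (wedge c e) ≤ 4 := by simpa [ne, s3_nv_one scc] using s3_nsq_wedge c e
  rw [e2]
  generalize wedge a (star b) = P at *
  generalize wedge b (star c) = Q at *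
  generalize wedge c e = U at *
  have k1 := s4c_th hS hM0 hM (u := w + C • U) n1 n2
    (fun s t => by convert key s t 0 (s * C) (by simp) using 2; module)
    (fun s t => by convert key s 0 t (s * C) (by simp) using 2; module) A B
  have k2 := s4c_th hS hM0 hM (u := w + A • P) n2 n3
    (fun s t => by convert key s (s * A) t 0 (by simp) using 2; module)
    (fun s t => by convert key s (s * A) 0 t (by simp) using 2; module) B C
  have k3 := s4c_th hS hM0 hM (u := w + B • Q) n1 n3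
    (fun s t => by convert key s t (s * B) 0 (by simp) using 2; module)
    (fun s t => by convert key s 0 (s * B) t (by simp) using 2; module) A C
  rw [show w + C • U + A • P + B • Q = w + A • P + B • Q + C • U by abel, norm_mul] at k1
  rw [norm_mul] at k2
  rw [show w + B • Q + A • P + C • U = w + A • P + B • Q + C • U by abel, norm_mul] at k3
  rw [hA, hB, hC, norm_mul, norm_mul, norm_pow, norm_pow, norm_pow] at h3
  rcases s4d_min (A := ‖A‖) (B := ‖B‖) (C := ‖C‖) hp (by rw [h3]; ring) with k | k | k <;>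
    linarith only [k1, k, hM0, k2, k3, mul_le_mul_of_nonneg_left k hM0]

end

theorem s4d_pow {a b c x y u : Fin N → ℂ} (hF : Fr3 a b c) (xa : x ⬝ᵥ a = 0) (ya : y ⬝ᵥ a = 0)
    (yb : y ⬝ᵥ b = 0) (ua : u ⬝ᵥ a = 0) (ub : u ⬝ᵥ b = 0) (uc : u ⬝ᵥ c = 0) :
    (wedge a x + wedge b y + wedge c u) ^ 6 =
      (-((x ⬝ᵥ b) ^ 2 * (y ⬝ᵥ c) ^ 2 * u ⬝ᵥ u)) • vecMulVec a a := by
  obtain ⟨w, hw⟩ : ∃ w, w = wedge a x + wedge b y + wedge c u := ⟨_, rfl⟩
  have e : ∀ v, w *ᵥ v = (x ⬝ᵥ v) • a - (a ⬝ᵥ v) • x + ((y ⬝ᵥ v) • b - (b ⬝ᵥ v) • y) +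
      ((u ⬝ᵥ v) • c - (c ⬝ᵥ v) • u) := fun v => by
    simp only [hw, wedge, add_mulVec, sub_mulVec, vecMulVec_mulVec, op_smul_eq_smul]
  have wa : w *ᵥ a = 0 := by
    simp [e, xa, ya, ua, hF.aa, dotProduct_comm b a, dotProduct_comm c a, hF.ab, hF.ac]
  have wb : w *ᵥ b = (x ⬝ᵥ b) • a := by
    simp [e, yb, ub, hF.ab, hF.bb, dotProduct_comm c b, hF.bc]
  have wc : w *ᵥ c = (x ⬝ᵥ c) • a + (y ⬝ᵥ c) • b := by
    simp [e, uc, hF.ac, hF.bc, hF.cc]
  have wu : w *ᵥ u = (x ⬝ᵥ u) • a + (y ⬝ᵥ u) • b + (u ⬝ᵥ u) • c := by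
    simp [e, ua, ub, uc, dotProduct_comm a u, dotProduct_comm b u, dotProduct_comm c u]
  have wy : w *ᵥ y = (x ⬝ᵥ y) • a + (y ⬝ᵥ y) • b + ((u ⬝ᵥ y) • c - (y ⬝ᵥ c) • u) := by
    simp [e, ya, yb, dotProduct_comm a y, dotProduct_comm b y, dotProduct_comm c y]
  have wx : w *ᵥ x = (x ⬝ᵥ x) • a + ((y ⬝ᵥ x) • b - (x ⬝ᵥ b) • y) +
      ((u ⬝ᵥ x) • c - (x ⬝ᵥ c) • u) := by
    simp [e, xa, dotProduct_comm a x, dotProduct_comm b x, dotProduct_comm c x]
  rw [← hw, show w ^ 6 = w * w * w * w * w * (wedge a x + wedge b y + wedge c u) by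
    rw [← hw]; noncomm_ring]
  simp only [wedge, mul_add, mul_sub, mul_vecMulVec, ← mulVec_mulVec, wa, wb, wc, wu, wy, wx,
    mulVec_add, mulVec_sub, mulVec_smul, mulVec_zero, smul_zero, add_zero, zero_add, sub_zero,
    zero_sub, zero_vecMulVec]
  ext i j
  simp [vecMulVec_apply]
  ring

theorem s4d_cols (h : 1 ≤ 3) (Z : Matrix (Fin N) (Fin 3) ℂ) (t : ℂ) :
    t • vecMulVec (fun i => Z i 0) (fun i => Z i 0) =
      cols h Z * (of fun _ _ => t : CMat 1) * (cols h Z)ᵀ := by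
  ext i j
  simp only [cols, Matrix.smul_apply, vecMulVec_apply, Matrix.mul_apply, Fin.sum_univ_one,
    submatrix_apply, transpose_apply, of_apply, smul_eq_mul, id]
  change t * (Z i 0 * Z j 0) = Z i 0 * t * Z j 0
  ring

theorem stage_S4 (hW : CurvFlow n T W) (hn : 5 ≤ n) (hn7 : n ≤ 7)
    (h : AsymP T W fun R => PIC2w R ∧ Pos 2 (fun i j => j ≤ i) (flat 7 R)) :
    AsymP T W fun R => Pos 3 (fun i j => j ≤ i) (flat 7 R) := by
  have key := fun (Z C : Matrix (Fin 7) (Fin 3) ℂ) (h0 : Zᵀ * Z = 0) (h1 : Zᴴ * Z = 1)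
      (hC : ∀ i j, j ≤ i → (Cᵀ * Z) i j = 0) => ((congrArg (· ^ 6) ((s3_sum Z C).trans
    (Fin.sum_univ_three _))).trans (s4d_pow ((fr_iff Z).1 ⟨h0, h1⟩).fr3 (hC 0 0 le_rfl)
      (hC 1 0 (by decide)) (hC 1 1 le_rfl) (hC 2 0 (by decide)) (hC 2 1 (by decide))
      (hC 2 2 le_rfl))).trans (s4d_cols (by norm_num) Z _)
  refine s4_step hW hn hn7 hn7 (r := 1) (k := 6) (by norm_num) (by norm_num) _ ?_
    (fun i j h1 h2 => lt_of_le_of_lt h1 h2) (fun i j h1 h2 => Fin.le_def.2 (h1.trans_le h2).le) ?_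
    h (β := 16) ?_
  · rintro Z U w hU hd ⟨C, rfl, hC⟩
    obtain ⟨e1, e2⟩ := xs_frame (Z := Z) (C := C) hd
    have hτ : (Cᵀ * (Z * U)).BlockTriangular id := fun i j h => hC i j (le_of_lt h)
    refine ⟨_, e1, fun i j hij => ?_⟩
    rw [e2]
    rcases hij.eq_or_lt with h | h
    · subst h
      rw [tri_conj_diag hU hd hτ, hC _ _ le_rfl]
    · exact (hU.mul hτ).mul (tri_inv hU hd) h
  · rintro Z w h0 h1 ⟨C, rfl, hC⟩
    exact ⟨_, key Z C h0 h1 hC⟩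
  · rintro R M hS - h3 hM0 hM - Z w h0 h1 ⟨C, rfl, hC⟩
    rw [s4c_pen (cols_unit _ h1) (key Z C h0 h1 hC), det_unique, of_apply, norm_neg, s3_sum,
      Fin.sum_univ_three]
    refine s4d_start hS.isOp hM0 (fun v => (le_abs_self _).trans (hM v)) h3
      ((fr_iff Z).1 ⟨h0, h1⟩).fr3 (hC 0 0 le_rfl) (hC 1 0 (by decide)) (hC 1 1 le_rfl)
      (hC 2 0 (by decide)) (hC 2 1 (by decide)) (hC 2 2 le_rfl) (by positivity) ?_
    rw [← Real.rpow_natCast _ 3, ← Real.rpow_mul (norm_nonneg _),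
      show (2 : ℝ) / ((1 : ℕ) * (6 : ℕ)) * (3 : ℕ) = 1 by norm_num, Real.rpow_one]
    rfl

end

end Pool.Agent.Work.MP_3a9764_gt
end
end

-- merged part: Pool.Agent.Work.MP_3a9764_gt.N8F
section
-- merged part: Pool.Agent.Work.MP_3a9764_gt.St3
section
/-! Stage 3 and the invariant steps of stage 4. -/

set_option autoImplicit false

open Filter Set Matrix
open scoped Topology ComplexConjugate

namespace Pool.Agent.Work.MP_3a9764_gt

noncomputable section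

variable {n N : ℕ} {T : ℝ} {W : ℝ → Set (T4 n)}

theorem s3_hf_one (x y : Fin n → ℂ) : hf 1 x y = star y ⬝ᵥ x := by
  simp [hf, one_apply, apply_ite, dotProduct, mul_comm]

theorem s3_hf_ric0 (S : T4 n) (z : Fin n → ℂ) :
    (hf (ric0 S) z z).re = (hf (ric4 S) z z).re - lb S * nv z := by
  have h : hf (ric0 S) z z = hf (ric4 S) z z - lb S * hf 1 z z := by
    simp only [hf, ric0, Matrix.sub_apply, Matrix.smul_apply, smul_eq_mul, Complex.ofReal_sub,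
      Complex.ofReal_mul, sub_mul, Finset.sum_sub_distrib, Finset.mul_sum, mul_assoc]
  rw [h, s3_hf_one, s3_nv_eq, ← Complex.ofReal_mul, Complex.sub_re, Complex.ofReal_re]

/-- Uniform positivity of the isotropic curvature in the cone of stage 1. -/
theorem G1.uniform (hn : 5 ≤ n) : ∃ δ > 0, ∀ R : T4 n, IsCurv R → G1 R → 0 ≤ scal4 R →
    ∀ z w : Fin n → ℂ, z ⬝ᵥ z = 0 → z ⬝ᵥ w = 0 → w ⬝ᵥ w = 0 → star z ⬝ᵥ w = 0 →
      δ * scal4 R * (nv z * nv w) ≤ rq R (wedge z w) := by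
  have h3 : 3 ≤ n := by omega
  have h5 : (5 : ℝ) ≤ n := by exact_mod_cast hn
  have hb : 0 < bOne n := by rw [bOne]; positivity
  have ha := AD_a h3 hb.le
  refine ⟨bOne n ^ 2 / (n * (1 + 2 * ((n : ℝ) - 1) * aa n (bOne n))), by positivity,
    fun R hR h hs z w hz hzw hw hzw' => ?_⟩
  set S := linv (bOne n) R with hSd
  have hS : IsCurv S := isCurv_linv hR _
  have e : R = S + (2 * aa n (bOne n) * lb S) • Id4 n + bOne n • kn (ric0 S) 1 := by
    rw [← lB_apply, hSd, linv_eq, lB_lBi (AD_n h3) ha.ne' (AD_b h3 hb.le).ne']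
  have e1 : scal4 R = n * ((1 + 2 * ((n : ℝ) - 1) * aa n (bOne n)) * lb S) := by
    rw [scal4_eq (AD_n h3), lb_linv h3 hb.le R]
  have hl : 0 ≤ lb S := by
    rw [e1] at hs
    exact nonneg_of_mul_nonneg_right (nonneg_of_mul_nonneg_right hs (by linarith only [h5])) ha
  have e2 : bOne n ^ 2 / (n * (1 + 2 * ((n : ℝ) - 1) * aa n (bOne n))) * scal4 R =
      bOne n ^ 2 * lb S := by
    rw [e1]; field_simp
  have e3 : rq (kn (ric0 S) 1) (wedge z w) =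
      ((hf (ric4 S) z z).re - lb S * nv z) * nv w + ((hf (ric4 S) w w).re - lb S * nv w) * nv z := by
    rw [rq_kn_wedge (ric0_isSymm hS) isSymm_one]
    simp only [s3_hf_one, hzw', s3_star_comm hzw', s3_nv_eq, mul_zero, sub_zero, Complex.add_re,
      Complex.re_mul_ofReal, s3_hf_ric0]
  have e4 : rq (Id4 n) (wedge z w) = nv z * nv w := by
    have h1 := rq_kn_wedge (isSymm_one (n := Fin n) (α := ℝ)) isSymm_one z w
    rw [kn_one_one, rq_smul] at h1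
    simp only [s3_hf_one, hzw', s3_star_comm hzw', s3_nv_eq, mul_zero, sub_zero, Complex.add_re,
      Complex.re_mul_ofReal, Complex.ofReal_re] at h1
    linarith only [h1]
  have k1 := h.1 z w hz hzw hw
  have k2 := mul_nonneg (h.2 z hz) (s3_nv_nonneg w)
  have k3 := mul_nonneg (h.2 w hw) (s3_nv_nonneg z)
  rw [← hSd] at k1 k2 k3
  have k4 := mul_nonneg hb.le (add_nonneg k2 k3)
  have k5 : 0 ≤ ((n : ℝ) - 5) * (bOne n ^ 2 * (lb S * (nv z * nv w))) :=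
    mul_nonneg (by linarith only [h5]) (mul_nonneg (sq_nonneg _)
      (mul_nonneg hl (mul_nonneg (s3_nv_nonneg z) (s3_nv_nonneg w))))
  have k6 : 0 ≤ bOne n ^ 2 * (lb S * (nv z * nv w)) :=
    mul_nonneg (sq_nonneg _) (mul_nonneg hl (mul_nonneg (s3_nv_nonneg z) (s3_nv_nonneg w)))
  rw [e2]
  conv_rhs => rw [e]
  rw [rq_add, rq_add, rq_smul, rq_smul, e3, e4, aa]
  linarith only [k1, k4, k5, k6]

theorem s3_real_perp (hn : 5 ≤ n) (z y : Fin n → ℂ) : ∃ c : Fin n → ℂ, c ⬝ᵥ c = 1 ∧ nv c = 1 ∧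
    z ⬝ᵥ c = 0 ∧ star z ⬝ᵥ c = 0 ∧ y ⬝ᵥ c = 0 := by
  obtain ⟨a, b, rfl⟩ := fr_exists_cv z
  obtain ⟨a', b', rfl⟩ := fr_exists_cv y
  obtain ⟨c, h1, h2⟩ := exists_perp (k := 4) (by omega) ![a, b, a', b']
  have k0 : a ⬝ᵥ c = 0 := h2 0
  have k1 : b ⬝ᵥ c = 0 := h2 1
  have k2 : a' ⬝ᵥ c = 0 := h2 2
  have k3 : b' ⬝ᵥ c = 0 := h2 3
  refine ⟨cv c 0, by simp [fr_cv_dot, h1], s3_nv_one ?_, by simp [fr_cv_dot, k0, k1], ?_,
    by simp [fr_cv_dot, k2, k3]⟩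
  · simp [fr_star_cv, fr_cv_dot, h1]
  · simp [fr_star_cv, fr_cv_dot, k0, k1]

theorem PIC1w.gram {R : T4 n} (h : PIC1w R) {u x : Fin n → ℂ} (hx : x ⬝ᵥ x ≠ 0)
    (hg : (u ⬝ᵥ u) * (x ⬝ᵥ x) = (u ⬝ᵥ x) ^ 2) : 0 ≤ rq R (wedge u x) := by
  have h1 := h ((x ⬝ᵥ x) • u - (u ⬝ᵥ x) • x) x
    (by simp only [sub_dotProduct, dotProduct_sub, smul_dotProduct, dotProduct_smul, smul_eq_mul,
          dotProduct_comm x u]
        linear_combination (x ⬝ᵥ x) * hg)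
    (by simp only [sub_dotProduct, smul_dotProduct, smul_eq_mul]; ring)
  have e : wedge ((x ⬝ᵥ x) • u - (u ⬝ᵥ x) • x) x = (x ⬝ᵥ x) • wedge u x := by
    ext i j
    simp only [wedge, vecMulVec_apply, Matrix.sub_apply, Matrix.smul_apply, Pi.sub_apply,
      Pi.smul_apply, smul_eq_mul]
    ring
  rw [e, rq_smul_right] at h1
  exact nonneg_of_mul_nonneg_right h1 (Complex.normSq_pos.2 hx)

theorem s3_wedge_add (z x y : Fin n → ℂ) : wedge z (x + y) = wedge z x + wedge z y := by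
  ext i j
  simp only [wedge, vecMulVec_apply, Matrix.add_apply, Matrix.sub_apply, Pi.add_apply]
  ring

theorem s3_wedge_sub (z x y : Fin n → ℂ) : wedge z (x - y) = wedge z x - wedge z y := by
  ext i j
  simp only [wedge, vecMulVec_apply, Matrix.sub_apply, Pi.sub_apply]
  ring

theorem s3_add_wedge (z x y : Fin n → ℂ) : wedge (x + y) z = wedge x z + wedge y z := by
  ext i j
  simp only [wedge, vecMulVec_apply, Matrix.add_apply, Matrix.sub_apply, Pi.add_apply]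
  ring

theorem s3_sub_wedge (z x y : Fin n → ℂ) : wedge (x - y) z = wedge x z - wedge y z := by
  ext i j
  simp only [wedge, vecMulVec_apply, Matrix.sub_apply, Pi.sub_apply]
  ring

section

variable {R : T4 n} {M d : ℝ} {z y c : Fin n → ℂ}

theorem s3_caseA (hR : IsOp R) (hM0 : 0 ≤ M) (hM : ∀ v, |rq R v| ≤ M * nsq v) (hd0 : 0 ≤ d)
    (hd : ∀ w, z ⬝ᵥ w = 0 → w ⬝ᵥ w = 0 → star z ⬝ᵥ w = 0 → d * nv w ≤ rq R (wedge z w))
    (hz : nv z = 1) (h1 : z ⬝ᵥ y = 0) (h2 : star z ⬝ᵥ y = 0) (c0 : c ⬝ᵥ c = 1) (c1 : nv c = 1)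
    (c2 : z ⬝ᵥ c = 0) (c3 : star z ⬝ᵥ c = 0) (c4 : y ⬝ᵥ c = 0) :
    d * nv y - 4 * M * ‖y ⬝ᵥ y‖ ≤ rq R (wedge z y) := by
  obtain ⟨γ, hγ⟩ := IsAlgClosed.exists_eq_mul_self (-(y ⬝ᵥ y))
  have e : y ⬝ᵥ y = -(γ * γ) := by rw [← hγ, neg_neg]
  have k1 := hd (y + γ • c) (by simp [h1, c2])
    (by simp [add_dotProduct, dotProduct_add, c0, c4, dotProduct_comm c y, e]) (by simp [h2, c3])
  have k2 := hd (y - γ • c) (by simp [h1, c2])
    (by simp [sub_dotProduct, dotProduct_sub, c0, c4, dotProduct_comm c y, e]) (by simp [h2, c3])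
  rw [s3_wedge_add] at k1
  rw [s3_wedge_sub] at k2
  have k3 := s3_rq_par hR (wedge z y) (wedge z (γ • c))
  have k4 := s3_nv_par y (γ • c)
  have k5 := ((le_abs_self _).trans (hM _)).trans
    (mul_le_mul_of_nonneg_left (s3_nsq_wedge z (γ • c)) hM0)
  have k6 : Complex.normSq γ = ‖y ⬝ᵥ y‖ := by
    rw [e, norm_neg, norm_mul, Complex.normSq_eq_norm_sq, sq]
  rw [s3_nv_smul, hz, c1, k6] at k5
  linarith only [k1, k2, k3, k5, hd0, k4, mul_nonneg hd0 (s3_nv_nonneg (γ • c)), Mathlib.Tactic.Linarith.mul_zero_eq (Mathlib.Tactic.Linarith.sub_nonpos_of_le hd0) (sub_eq_zero_of_eq k4)]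

theorem s3_caseC (hR : IsOp R) (hM0 : 0 ≤ M) (hM : ∀ v, |rq R v| ≤ M * nsq v) (h : PIC1w R)
    (hz : z ⬝ᵥ z = 0) (hy : y ⬝ᵥ y ≠ 0) (c0 : c ⬝ᵥ c = 1) (c1 : nv c = 1) (c2 : z ⬝ᵥ c = 0)
    (c4 : y ⬝ᵥ c = 0) :
    -(4 * M * (Complex.normSq (z ⬝ᵥ y) / ‖y ⬝ᵥ y‖ * nv y)) ≤ rq R (wedge z y) := by
  obtain ⟨γ, hγ⟩ := IsAlgClosed.exists_eq_mul_self ((z ⬝ᵥ y) ^ 2 / (y ⬝ᵥ y))
  have e : γ * γ * (y ⬝ᵥ y) = (z ⬝ᵥ y) ^ 2 := by rw [← hγ, div_mul_cancel₀ _ hy]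
  have k1 := h.gram (u := z + γ • c) hy (by
    simp [add_dotProduct, dotProduct_add, hz, c0, c2, c4, dotProduct_comm c z,
      dotProduct_comm c y, e])
  have k2 := h.gram (u := z - γ • c) hy (by
    simp [sub_dotProduct, dotProduct_sub, hz, c0, c2, c4, dotProduct_comm c z,
      dotProduct_comm c y, e])
  rw [s3_add_wedge] at k1
  rw [s3_sub_wedge] at k2
  have k3 := s3_rq_par hR (wedge z y) (wedge (γ • c) y)
  have k5 := ((le_abs_self _).trans (hM _)).trans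
    (mul_le_mul_of_nonneg_left (s3_nsq_wedge (γ • c) y) hM0)
  have k6 : Complex.normSq γ = Complex.normSq (z ⬝ᵥ y) / ‖y ⬝ᵥ y‖ := by
    rw [Complex.normSq_eq_norm_sq, sq, ← norm_mul, ← hγ, norm_div, norm_pow,
      Complex.normSq_eq_norm_sq]
  rw [s3_nv_smul, c1, k6] at k5
  linarith only [k1, k2, k3, k5]

end

theorem s3_start (hn : 5 ≤ n) : ∃ β : ℝ, ∀ R : T4 n, IsCurv R → G1 R → PIC1w R →
    ∀ z x : Fin n → ℂ, z ⬝ᵥ z = 0 → star z ⬝ᵥ z = 1 →
      0 ≤ rq R (wedge z x) + β * scal4 R * Complex.normSq (x ⬝ᵥ z) := by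
  obtain ⟨δ, hδ, hG⟩ := G1.uniform hn
  obtain ⟨K, hK⟩ : ∃ K : ℝ, K = (n : ℝ) ^ 3 := ⟨_, rfl⟩
  have hK0 : 0 < K := by
    have : (0 : ℝ) < n := by exact_mod_cast (by omega : 0 < n)
    rw [hK]; positivity
  refine ⟨16 * K + 160 * K ^ 2 / δ, fun R hR h1 h2 z x hz hz1 => ?_⟩
  have hP : PICw R := fun z w k1 k2 _ => h2 z w k1 k2
  have hs := hP.scal_ge hn hR
  have hM0 : 0 ≤ K * scal4 R := mul_nonneg hK0.le hs
  have hM : ∀ v, |rq R v| ≤ K * scal4 R * nsq v := by rw [hK]; exact s3_rq_le hn hR hP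
  have hz2 := s3_nv_one hz1
  have hz3 : star z ⬝ᵥ star z = 0 := by rw [star_dotProduct_star, hz, star_zero]
  obtain ⟨a, ha⟩ : ∃ a, a = x ⬝ᵥ z := ⟨_, rfl⟩
  obtain ⟨y, hy⟩ : ∃ y, y = x - (star z ⬝ᵥ x) • z - a • star z := ⟨_, rfl⟩
  have y1 : z ⬝ᵥ y = 0 := by
    simp [hy, hz, ha, dotProduct_comm z x, dotProduct_comm z (star z), hz1]
  have y2 : star z ⬝ᵥ y = 0 := by simp [hy, hz1, hz3]
  have e : wedge z x = wedge z (y + a • star z) := by
    ext i j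
    simp only [hy, wedge, vecMulVec_apply, Matrix.sub_apply, Pi.add_apply, Pi.sub_apply,
      Pi.smul_apply, smul_eq_mul]
    ring
  obtain ⟨c, c0, c1, c2, c3, c4⟩ := s3_real_perp hn z y
  rw [e, ← ha]
  have a0 := Complex.normSq_nonneg a
  have m0 := s3_nv_nonneg y
  have n1 := s3_nv_add y (a • star z)
  rw [s3_nv_smul, s3_nv_star, hz2, mul_one] at n1
  have t1 : 0 ≤ K * scal4 R * Complex.normSq a := mul_nonneg hM0 a0
  have t2 : 0 ≤ K ^ 2 / δ * scal4 R * Complex.normSq a := by positivity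
  have e0 : (16 * K + 160 * K ^ 2 / δ) * scal4 R * Complex.normSq a =
      16 * (K * scal4 R * Complex.normSq a) + 160 * (K ^ 2 / δ * scal4 R * Complex.normSq a) := by
    ring
  rw [e0]
  by_cases hA : 8 * K * ‖y ⬝ᵥ y‖ ≤ δ * nv y
  · have k1 := s3_caseA hR.isOp hM0 hM (mul_nonneg hδ.le hs) (fun w k1 k2 k3 => by
      have k4 := hG R hR h1 hs z w hz k1 k2 k3
      rwa [hz2, one_mul] at k4) hz2 y1 y2 c0 c1 c2 c3 c4
    have k2 := (neg_le_of_abs_le (hM _)).trans' (neg_le_neg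
      (mul_le_mul_of_nonneg_left (s3_diag_le hz1 a) hM0))
    have k3 := neg_le_of_abs_le ((Complex.abs_re_le_norm _).trans
      (s3_cq_le hn hR hP (wedge z y) (wedge z (a • star z))))
    rw [← hK] at k3
    have k4 := s3_nsq_wedge z y
    rw [hz2, one_mul] at k4
    have k5 := s3_diag_le hz1 a
    have k6 := Real.mul_self_sqrt (nsq_nonneg (wedge z y))
    have k7 := Real.mul_self_sqrt (nsq_nonneg (wedge z (a • star z)))
    have k8 : 2 * K * (√(nsq (wedge z y)) * √(nsq (wedge z (a • star z)))) ≤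
        δ / 2 * nv y + 32 * (K ^ 2 / δ) * Complex.normSq a := by
      have k9 : K ^ 2 / δ * δ = K ^ 2 := div_mul_cancel₀ _ hδ.ne'
      have k10 : 0 ≤ K ^ 2 / δ := by positivity
      refine le_of_mul_le_mul_left ?_ hδ
      have k11 := mul_le_mul_of_nonneg_left k4 (sq_nonneg δ)
      have k12 := mul_le_mul_of_nonneg_left k5 (sq_nonneg K)
      have k13 : δ * (32 * (K ^ 2 / δ) * Complex.normSq a) = 32 * (K ^ 2 * Complex.normSq a) := by
        field_simp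
      rw [mul_add, k13]
      linarith only [k11, k12, k6, k7, sq_nonneg (δ * √(nsq (wedge z y)) - 8 * K * √(nsq (wedge z (a • star z)))), sq_nonneg (δ * √(nsq (wedge z y)) - (8 : ℝ) * K * √(nsq (wedge z (a • star z)))), Mathlib.Tactic.Linarith.mul_zero_eq (Mathlib.Tactic.Linarith.sub_nonpos_of_le (sq_nonneg δ)) (sub_eq_zero_of_eq k6), Mathlib.Tactic.Linarith.mul_zero_eq (Mathlib.Tactic.Linarith.sub_nonpos_of_le (sq_nonneg K)) (sub_eq_zero_of_eq k7)]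
    have k9 := mul_le_mul_of_nonneg_left k8 hs
    have k10 := mul_le_mul_of_nonneg_left hA hs
    rw [s3_wedge_add, s3_rq_add hR.isOp]
    linarith only [t1, t2, k1, k2, k3, k9, k10]
  by_cases hB : nv y ≤ Complex.normSq a
  · have k1 := s3_nsq_wedge z (y + a • star z)
    rw [hz2, one_mul] at k1
    have k2 := mul_le_mul_of_nonneg_left
      (by linarith only [n1, hB, k1] : nsq (wedge z (y + a • star z)) ≤ 16 * Complex.normSq a) hM0
    linarith only [t2, k2, hM, neg_le_of_abs_le (hM (wedge z (y + a • star z)))]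
  push Not at hA hB
  have p0 : 0 < ‖y ⬝ᵥ y‖ := by
    by_contra hp
    have := mul_nonneg hδ.le m0
    linarith only [hA, hδ, a0, hB, hK0, hp, not_lt.1 hp, mul_nonneg_of_nonpos_of_nonpos (le_of_lt (Mathlib.Tactic.Linarith.sub_neg_of_lt hδ)) (Mathlib.Tactic.Linarith.sub_nonpos_of_le a0), mul_pos_of_neg_of_neg (Mathlib.Tactic.Linarith.sub_neg_of_lt hδ) (Mathlib.Tactic.Linarith.sub_neg_of_lt hB), mul_nonneg_of_nonpos_of_nonpos (le_of_lt (Mathlib.Tactic.Linarith.sub_neg_of_lt hK0)) (Mathlib.Tactic.Linarith.sub_nonpos_of_le (le_of_not_gt hp))]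
  have p1 : (y + a • star z) ⬝ᵥ (y + a • star z) = y ⬝ᵥ y := by
    simp [add_dotProduct, dotProduct_add, hz3, y2, dotProduct_comm y (star z)]
  have p2 : z ⬝ᵥ (y + a • star z) = a := by simp [y1, dotProduct_comm z (star z), hz1]
  have k1 := s3_caseC hR.isOp hM0 hM h2 hz (y := y + a • star z)
    (by rw [p1]; exact norm_pos_iff.1 p0) c0 c1 c2 (by simp [c3, c4])
  rw [p1, p2] at k1
  have k2 : Complex.normSq a / ‖y ⬝ᵥ y‖ * nv (y + a • star z) ≤
      32 * (K / δ) * Complex.normSq a := by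
    rw [div_mul_eq_mul_div, div_le_iff₀ p0]
    have k3 : nv (y + a • star z) ≤ 32 * (K / δ) * ‖y ⬝ᵥ y‖ := by
      refine le_of_mul_le_mul_left ?_ hδ
      have k4 : δ * (32 * (K / δ) * ‖y ⬝ᵥ y‖) = 4 * (8 * K * ‖y ⬝ᵥ y‖) := by
        field_simp
        ring
      rw [k4]
      linarith only [hA, hδ, n1, hB, mul_nonneg_of_nonpos_of_nonpos (le_of_lt (Mathlib.Tactic.Linarith.sub_neg_of_lt hδ)) (Mathlib.Tactic.Linarith.sub_nonpos_of_le n1), mul_pos_of_neg_of_neg (Mathlib.Tactic.Linarith.sub_neg_of_lt hδ) (Mathlib.Tactic.Linarith.sub_neg_of_lt hB)]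
    linarith only [k3, a0, mul_le_mul_of_nonneg_left k3 a0]
  have k3 := mul_le_mul_of_nonneg_left k2 hM0
  have k4 : K * scal4 R * (32 * (K / δ) * Complex.normSq a) =
      32 * (K ^ 2 / δ * scal4 R * Complex.normSq a) := by ring
  linarith only [t1, t2, k1, k3, k4]

theorem s3_flat_self (R : T4 n) : flat n R = R := by
  funext i j k l
  simp [flat, pullT, ev4, emb, Fin.val_inj]

theorem s3_pic2 {R : T4 n} (h : Pos 1 (fun _ _ => False) R) : PIC2w R := by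
  have key : ∀ z x : Fin n → ℂ, z ⬝ᵥ z = 0 → 0 ≤ rq R (wedge z x) := by
    intro z x hz
    by_cases h0 : z = 0
    · simp [h0, wedge, rq, cq]
    obtain ⟨r, u, hr, h1, rfl⟩ := s3_unit h0
    simp only [smul_dotProduct, dotProduct_smul, smul_eq_mul, mul_eq_zero, hr, false_or] at hz
    have h2 := s3_pos h (z := fun _ => u) (x := fun _ => x)
      ⟨fun _ _ => hz, fun a b => by rw [h1, if_pos (Subsingleton.elim a b)]⟩
      fun _ _ => False.elim
    have e : wedge (r • u) x = r • wedge u x := by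
      ext i j
      simp only [wedge, vecMulVec_apply, Matrix.sub_apply, Matrix.smul_apply, Pi.smul_apply,
        smul_eq_mul]
      ring
    rw [Fin.sum_univ_one] at h2
    rw [e, rq_smul_right]
    exact mul_nonneg (Complex.normSq_nonneg _) h2
  intro z w
  by_cases hz : z ⬝ᵥ z = 0
  · exact key z w hz
  obtain ⟨s, hs⟩ := IsAlgClosed.exists_eq_mul_self ((z ⬝ᵥ w) ^ 2 - (z ⬝ᵥ z) * (w ⬝ᵥ w))
  have h1 := key (w + ((s - z ⬝ᵥ w) / (z ⬝ᵥ z)) • z) (-z) (by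
    simp only [add_dotProduct, dotProduct_add, smul_dotProduct, dotProduct_smul, smul_eq_mul,
      dotProduct_comm w z]
    field_simp
    linear_combination -hs)
  have e : wedge (w + ((s - z ⬝ᵥ w) / (z ⬝ᵥ z)) • z) (-z) = wedge z w := by
    ext i j
    simp only [wedge, vecMulVec_apply, Matrix.sub_apply, Pi.add_apply, Pi.neg_apply,
      Pi.smul_apply, smul_eq_mul]
    ring
  rwa [e] at h1

theorem stage3 (hW : CurvFlow n T W) (hn : 5 ≤ n) (hn8 : n ≤ 8)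
    (h : AsymP T W fun R => G1 R ∧ PIC1w R) : AsymP T W PIC2w := by
  obtain ⟨β, hβ⟩ := s3_start hn
  refine (s3_step hW hn le_rfl (q := 1) (fun _ _ => False)
    (fun i j hij => absurd (Subsingleton.elim j i) hij.ne) (fun _ _ => False.elim) h
    (fun R _ h z w h1 h2 _ => h.2 z w h1 h2) (β := β) fun R hR h z x hz _ => ?_).mono
    fun R _ h => s3_pic2 (by rwa [s3_flat_self] at h)
  rw [s3_flat_self, Fin.sum_univ_one, nv, Fin.sum_univ_one]
  exact hβ R hR h.1 h.2 _ _ (hz.1 0 0) (hz.2 0 0)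

theorem stage_S5 (hW : CurvFlow n T W) (hn : 5 ≤ n) (hn7 : n ≤ 7)
    (h : AsymP T W fun R => PIC2w R ∧ Pos 3 (fun i j => j ≤ i) (flat 7 R)) :
    AsymP T W fun R => Pos 3 (fun i j => j < i ∨ (i = j ∧ i ≠ 2)) (flat 7 R) := by
  exact s3_step3 hW hn hn7 _ (fun _ _ => .inl) (by decide) h (β := 40) fun S M hS h1 h2 h3 =>
    (s3_five hS h2 h3 ((h1.lo3 fun _ _ => id).imp (fun _ => trivial) (fun _ => trivial)
      fun _ => trivial)).imp (fun _ => by decide) (fun _ => by decide) False.elim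

theorem stage_S6 (hW : CurvFlow n T W) (hn : 5 ≤ n) (hn7 : n ≤ 7)
    (h : AsymP T W fun R => PIC2w R ∧ Pos 3 (fun i j => j < i ∨ (i = j ∧ i ≠ 2)) (flat 7 R)) :
    AsymP T W fun R => Pos 3 (fun i j => j < i ∨ (i = j ∧ i = 0)) (flat 7 R) := by
  exact s3_step3 hW hn hn7 _ (fun _ _ => .inl) (by decide) h (β := 8) fun S M hS h1 h2 h3 =>
    (s3_six hS h2 h3 ((h1.lo3 (by decide)).imp (fun _ => trivial) (fun _ => trivial)
      (by decide))).imp (fun _ => by decide) False.elim False.elim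

theorem stage_S7 (hW : CurvFlow n T W) (hn : 5 ≤ n) (hn7 : n ≤ 7)
    (h : AsymP T W fun R => PIC2w R ∧ Pos 3 (fun i j => j < i ∨ (i = j ∧ i = 0)) (flat 7 R)) :
    AsymP T W fun R => Pos 3 (fun i j => j < i) (flat 7 R) := by
  exact s3_step3 hW hn hn7 _ (fun _ _ => id) (fun _ _ => le_of_lt) h (β := 8)
    fun S M hS h1 h2 h3 => (s3_seven hS h2 h3 ((h1.lo3 (by decide)).imp (fun _ => trivial)
      (by decide) (by decide))).imp False.elim False.elim False.elim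

theorem opNonneg_of_pos (hn7 : n ≤ 7) {R : T4 n} (hR : IsCurv R)
    (h : Pos 3 (fun i j => j < i) (flat 7 R)) : OpNonneg R := by
  intro φ hφ
  have hE := emb_mul hn7
  have hφ' : φᵀ = -φ := Matrix.ext fun i j => hφ i j
  have h1 : ((emb n 7)ᵀ * φ * emb n 7)ᵀ = -((emb n 7)ᵀ * φ * emb n 7) := by
    simp only [transpose_mul, transpose_transpose, hφ', Matrix.neg_mul, Matrix.mul_neg,
      Matrix.mul_assoc]
  obtain ⟨Z, h2, h3, h4⟩ := real_skew_flag (r := 3) ((emb n 7)ᵀ * φ * emb n 7)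
    fun i j => congrFun (congrFun h1 i) j
  have h5 := h Z _ h2 h3 h4
  have e : (emb n 7).map (fun x => (x : ℂ)) *
      ((emb n 7)ᵀ * φ * emb n 7).map (fun x => (x : ℂ)) * ((emb n 7).map fun x => (x : ℂ))ᵀ =
      φ.map fun x => (x : ℂ) := by
    have e1 : emb n 7 * ((emb n 7)ᵀ * φ * emb n 7) * (emb n 7)ᵀ = φ := by
      rw [Matrix.mul_assoc, Matrix.mul_assoc, Matrix.mul_assoc, hE, Matrix.mul_one,
        ← Matrix.mul_assoc, hE, Matrix.one_mul]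
    have e2 := congrArg (fun M : Mat n => M.map Complex.ofRealHom) e1
    beta_reduce at e2
    rw [Matrix.map_mul, Matrix.map_mul] at e2
    exact e2
  rw [rq, flat, cq_pullT, e] at h5
  simp only [cq, map_apply, Complex.conj_ofReal, ← Complex.ofReal_mul, ← Complex.ofReal_sum,
    Complex.ofReal_re] at h5
  linarith only [h5]

end

end Pool.Agent.Work.MP_3a9764_gt
end

-- merged part: Pool.Agent.Work.MP_3a9764_gt.N8F
section
/-! Unitary isotropic four-frames. -/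

set_option autoImplicit false

open Filter Set Matrix
open scoped Topology ComplexConjugate

namespace Pool.Agent.Work.MP_3a9764_gt

noncomputable section

variable {N : ℕ} {a b c d : Fin N → ℂ}

/-- Unitary isotropic four-frames. -/
structure Fr4 (a b c d : Fin N → ℂ) : Prop where
  aa : a ⬝ᵥ a = 0
  ab : a ⬝ᵥ b = 0
  ac : a ⬝ᵥ c = 0
  ad : a ⬝ᵥ d = 0
  bb : b ⬝ᵥ b = 0
  bc : b ⬝ᵥ c = 0
  bd : b ⬝ᵥ d = 0
  cc : c ⬝ᵥ c = 0
  cd : c ⬝ᵥ d = 0
  dd : d ⬝ᵥ d = 0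
  saa : star a ⬝ᵥ a = 1
  sab : star a ⬝ᵥ b = 0
  sac : star a ⬝ᵥ c = 0
  sad : star a ⬝ᵥ d = 0
  sbb : star b ⬝ᵥ b = 1
  sbc : star b ⬝ᵥ c = 0
  sbd : star b ⬝ᵥ d = 0
  scc : star c ⬝ᵥ c = 1
  scd : star c ⬝ᵥ d = 0
  sdd : star d ⬝ᵥ d = 1

namespace Fr4

theorem ba (h : Fr4 a b c d) : b ⬝ᵥ a = 0 := (dotProduct_comm _ _).trans h.ab
theorem ca (h : Fr4 a b c d) : c ⬝ᵥ a = 0 := (dotProduct_comm _ _).trans h.ac
theorem da (h : Fr4 a b c d) : d ⬝ᵥ a = 0 := (dotProduct_comm _ _).trans h.ad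
theorem cb (h : Fr4 a b c d) : c ⬝ᵥ b = 0 := (dotProduct_comm _ _).trans h.bc
theorem db (h : Fr4 a b c d) : d ⬝ᵥ b = 0 := (dotProduct_comm _ _).trans h.bd
theorem dc (h : Fr4 a b c d) : d ⬝ᵥ c = 0 := (dotProduct_comm _ _).trans h.cd
theorem sba (h : Fr4 a b c d) : star b ⬝ᵥ a = 0 := s3_star_comm h.sab
theorem sca (h : Fr4 a b c d) : star c ⬝ᵥ a = 0 := s3_star_comm h.sac
theorem sda (h : Fr4 a b c d) : star d ⬝ᵥ a = 0 := s3_star_comm h.sad
theorem scb (h : Fr4 a b c d) : star c ⬝ᵥ b = 0 := s3_star_comm h.sbc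
theorem sdb (h : Fr4 a b c d) : star d ⬝ᵥ b = 0 := s3_star_comm h.sbd
theorem sdc (h : Fr4 a b c d) : star d ⬝ᵥ c = 0 := s3_star_comm h.scd

theorem fr (h : Fr4 a b c d) : Fr ![a, b, c, d] := by
  constructor <;> intro i j <;> fin_cases i <;> fin_cases j
  exacts [h.aa, h.ab, h.ac, h.ad, h.ba, h.bb, h.bc, h.bd, h.ca, h.cb, h.cc, h.cd, h.da, h.db, h.dc,
    h.dd, h.saa, h.sab, h.sac, h.sad, h.sba, h.sbb, h.sbc, h.sbd, h.sca, h.scb, h.scc, h.scd,
    h.sda, h.sdb, h.sdc, h.sdd]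

theorem fr3 (h : Fr4 a b c d) : Fr3 a b c :=
  ⟨h.aa, h.ab, h.ac, h.bb, h.bc, h.cc, h.saa, h.sab, h.sac, h.sbb, h.sbc, h.scc⟩

theorem swap01 (h : Fr4 a b c d) : Fr4 b a c d :=
  ⟨h.bb, h.ba, h.bc, h.bd, h.aa, h.ac, h.ad, h.cc, h.cd, h.dd, h.sbb, h.sba, h.sbc, h.sbd, h.saa,
    h.sac, h.sad, h.scc, h.scd, h.sdd⟩

theorem swap12 (h : Fr4 a b c d) : Fr4 a c b d :=
  ⟨h.aa, h.ac, h.ab, h.ad, h.cc, h.cb, h.cd, h.bb, h.bd, h.dd, h.saa, h.sac, h.sab, h.sad, h.scc,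
    h.scb, h.scd, h.sbb, h.sbd, h.sdd⟩

theorem swap23 (h : Fr4 a b c d) : Fr4 a b d c :=
  ⟨h.aa, h.ab, h.ad, h.ac, h.bb, h.bd, h.bc, h.dd, h.dc, h.cc, h.saa, h.sab, h.sad, h.sac, h.sbb,
    h.sbd, h.sbc, h.sdd, h.sdc, h.scc⟩

theorem flip (h : Fr4 a b c d) : Fr4 a b c (star d) :=
  ⟨h.aa, h.ab, h.ac, (dotProduct_comm _ _).trans h.sda, h.bb, h.bc,
    (dotProduct_comm _ _).trans h.sdb, h.cc, (dotProduct_comm _ _).trans h.sdc,
    by rw [star_dotProduct_star, h.dd, star_zero], h.saa, h.sab, h.sac,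
    by rw [star_dotProduct_star, h.da, star_zero], h.sbb, h.sbc,
    by rw [star_dotProduct_star, h.db, star_zero], h.scc,
    by rw [star_dotProduct_star, h.dc, star_zero],
    by rw [star_star, dotProduct_comm, h.sdd]⟩

theorem rot01 (h : Fr4 a b c d) {α β : ℂ} (k : conj α * α + conj β * β = 1) :
    Fr4 (α • a + β • b) (-conj β • a + conj α • b) c d := by
  have h3 := h.fr3.rot01 k
  have h4 := h.swap23.fr3.rot01 k
  exact ⟨h3.aa, h3.ab, h3.ac, h4.ac, h3.bb, h3.bc, h4.bc, h.cc, h.cd, h.dd, h3.saa, h3.sab, h3.sac,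
    h4.sac, h3.sbb, h3.sbc, h4.sbc, h.scc, h.scd, h.sdd⟩

theorem rot12 (h : Fr4 a b c d) {α β : ℂ} (k : conj α * α + conj β * β = 1) :
    Fr4 a (α • b + β • c) (-conj β • b + conj α • c) d :=
  (h.swap01.swap12.rot01 k).swap12.swap01

theorem rot23 (h : Fr4 a b c d) {α β : ℂ} (k : conj α * α + conj β * β = 1) :
    Fr4 a b (α • c + β • d) (-conj β • c + conj α • d) :=
  (h.swap12.swap23.rot12 k).swap23.swap12

end Fr4

theorem Fr.fr4 {z : Fin 4 → Fin N → ℂ} (h : Fr z) : Fr4 (z 0) (z 1) (z 2) (z 3) :=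
  ⟨h.1 _ _, h.1 _ _, h.1 _ _, h.1 _ _, h.1 _ _, h.1 _ _, h.1 _ _, h.1 _ _, h.1 _ _, h.1 _ _,
    h.2 0 0, h.2 0 1, h.2 0 2, h.2 0 3, h.2 1 1, h.2 1 2, h.2 1 3, h.2 2 2, h.2 2 3, h.2 3 3⟩

theorem Fr3.ext4 (hN : 8 ≤ N) (h : Fr3 a b c) : ∃ d, Fr4 a b c d := by
  obtain ⟨d, h1, h2, h3⟩ := fr_new (ι := Fin 3) (N := N) (by simpa using hN) ![a, b, c]
  exact ⟨d, h.aa, h.ab, h.ac, (h3 0).1, h.bb, h.bc, (h3 1).1, h.cc, (h3 2).1, h1, h.saa, h.sab,
    h.sac, (h3 0).2.1, h.sbb, h.sbc, (h3 1).2.1, h.scc, (h3 2).2.1, h2⟩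

theorem dec8 {a b c d : Fin 8 → ℂ} (h : Fr4 a b c d) (u : Fin 8 → ℂ) :
    u = (star a ⬝ᵥ u) • a + (star b ⬝ᵥ u) • b + (star c ⬝ᵥ u) • c + (star d ⬝ᵥ u) • d +
      (u ⬝ᵥ a) • star a + (u ⬝ᵥ b) • star b + (u ⬝ᵥ c) • star c + (u ⬝ᵥ d) • star d := by
  obtain ⟨h0, h1⟩ := (fr_iff (of ![a, b, c, d])ᵀ).2 h.fr
  have k3 := complete_even (r := 4) h0 h1
  funext i
  have k4 := congrFun (congrArg (· *ᵥ u) k3) i
  simp only [one_mulVec] at k4
  rw [← k4]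
  simp only [mulVec, dotProduct, Matrix.add_apply, map_apply, mul_apply, Fin.sum_univ_four,
    conjTranspose_apply, transpose_apply, of_apply, Pi.add_apply,
    Pi.smul_apply, smul_eq_mul, Pi.star_apply, Finset.sum_mul, ← Finset.sum_add_distrib,
    cons_val, map_add, map_mul, Complex.star_def, Complex.conj_conj]
  exact Finset.sum_congr rfl fun j _ => by ring

/-- A vector orthogonal to a maximal isotropic subspace lies in it. -/
theorem Fr4.mem {a b c d u : Fin 8 → ℂ} (h : Fr4 a b c d) (ua : u ⬝ᵥ a = 0) (ub : u ⬝ᵥ b = 0)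
    (uc : u ⬝ᵥ c = 0) (ud : u ⬝ᵥ d = 0) :
    ∃ p q r s : ℂ, u = p • a + q • b + r • c + s • d := by
  have k := dec8 h u
  simp only [ua, ub, uc, ud, zero_smul, add_zero] at k
  exact ⟨_, _, _, _, k⟩

end

end Pool.Agent.Work.MP_3a9764_gt
end

-- merged part: Pool.Agent.Work.MP_3a9764_gt.N8P
section
/-! The two generic steps of the last stage in dimension eight. -/

set_option autoImplicit false

open Filter Set Matrix
open scoped Topology ComplexConjugate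

namespace Pool.Agent.Work.MP_3a9764_gt

noncomputable section

variable {n N r : ℕ} {T : ℝ} {W : ℝ → Set (T4 8)}

theorem p8_split {V : Matrix (Fin N) (Fin r) ℂ} (hV0 : Vᵀ * V = 0) (hV1 : Vᴴ * V = 1)
    {y : Fin N → ℂ} (h1 : star y ⬝ᵥ y = 1) (h2 : Vᵀ *ᵥ y = 0) (h3 : Vᴴ *ᵥ y = 0) :
    ∃ G : CMat N, midP V = replicateCol Unit y * (replicateCol Unit y)ᴴ + G * Gᴴ := by
  set Y := replicateCol Unit y with hY
  have e1 : Yᴴ * Y = 1 := by
    ext i j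
    rw [hY, conjTranspose_replicateCol, replicateRow_mul_replicateCol_apply, h1,
      Subsingleton.elim i j, one_apply_eq]
  have e2 : midP V * Y = Y := by
    rw [hY, ← replicateCol_mulVec, midP, transpose_mul, sub_mulVec, sub_mulVec, ← mulVec_mulVec,
      ← mulVec_mulVec, h2, h3, one_mulVec, mulVec_zero, mulVec_zero, sub_zero, sub_zero]
  have e3 : Yᴴ * midP V = Yᴴ := by rw [← midP_herm, ← conjTranspose_mul, e2]
  refine ⟨midP V - Y * Yᴴ, ?_⟩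
  rw [conjTranspose_sub, midP_herm, conjTranspose_mul, conjTranspose_conjTranspose,
    Matrix.sub_mul, Matrix.mul_sub, Matrix.mul_sub, midP_sq hV0 hV1, ← Matrix.mul_assoc (midP V),
    e2, Matrix.mul_assoc Y Yᴴ (midP V), e3, Matrix.mul_assoc Y, ← Matrix.mul_assoc Yᴴ, e1,
    Matrix.one_mul]
  abel

theorem p8_mid (hr : 2 * r + 4 ≤ N) {V : Matrix (Fin N) (Fin r) ℂ} (hV0 : Vᵀ * V = 0)
    (hV1 : Vᴴ * V = 1) : ∃ y z : Fin N → ℂ, y ⬝ᵥ y = 0 ∧ y ⬝ᵥ z = 0 ∧ z ⬝ᵥ z = 0 ∧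
      star y ⬝ᵥ z = 0 ∧ nv y = 1 ∧ nv z = 1 ∧ ∀ S : T4 N, IsOp S → PIC2w S →
        rq S (wedge y z) ≤ (bt S (midP V) (midP V)).re := by
  obtain ⟨y, y0, y1, y2⟩ := fr_new (ι := Fin r) (N := N) (by rw [Fintype.card_fin]; omega) Vᵀ
  obtain ⟨z, z0, z1, z2⟩ := fr_new (ι := Option (Fin r)) (N := N)
    (by rw [Fintype.card_option, Fintype.card_fin]; omega) fun o => o.elim y Vᵀ
  obtain ⟨G, hG⟩ := p8_split hV0 hV1 y1 (funext fun a => (y2 a).1) (funext fun a => (y2 a).2.1)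
  obtain ⟨H, hH⟩ := p8_split hV0 hV1 z1 (funext fun a => (z2 (some a)).1)
    (funext fun a => (z2 (some a)).2.1)
  refine ⟨y, z, y0, (z2 none).1, z0, (z2 none).2.1, s3_nv_one y1, s3_nv_one z1, fun S hS h => ?_⟩
  have k1 := bt_gram_re hS (replicateCol Unit y) (replicateCol Unit z)
  have k2 := h.bt_nonneg hS (replicateCol Unit y) H
  have k3 := h.bt_nonneg hS G (replicateCol Unit z)
  have k4 := h.bt_nonneg hS G H
  rw [Fintype.sum_unique, Fintype.sum_unique] at k1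
  conv_rhs => rw [show bt S (midP V) (midP V) = bt S _ _ from congrArg₂ _ hG hH]
  simp only [bt_add_left, bt_add_right, Complex.add_re]
  change _ = rq S (wedge y z) at k1
  linarith only [k2, k3, k4, k1]

theorem p8_core {S : T4 N} (hS : IsCurv S) (h2 : PIC2w S) {V : Matrix (Fin N) (Fin r) ℂ}
    (hV0 : Vᵀ * V = 0) (hV1 : Vᴴ * V = 1) {w : CMat N} (hw : wᵀ = -w) {c t σ : ℝ} (hc : 0 < c)
    (ht : 0 ≤ t) (ht2 : t ≤ 1 / 2)
    (hσ : t ≤ 1 / 3 ∧ σ ≤ scal4 S / 72 ∨ σ ≤ (bt S (midP V) (midP V)).re / 8)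
    (H1 : ∀ X : CMat N, Xᵀ = -X → cq S (X * w - w * X) w / 4 = -(c * t) * (Vᴴ * X * V).trace)
    (H2 : ∀ (X : CMat N) (Y : Matrix (Fin N) (Fin r) ℂ), Xᵀ = -X → Yᵀ * V = 0 →
      0 ≤ rq S (X * w - w * X + (V * Yᵀ - Y * Vᵀ)) +
        Complex.normSq (cq S (X * w - w * X + (V * Yᵀ - Y * Vᵀ)) w / 4) / c +
        c * t * nsr ((1 - V * Vᴴ) * X * V)) :
    -(c * (scal4 S / 8 - σ)) ≤ rq (Qq4 S) w := by
  refine le_trans ?_ (pen_exact hS hV1 hw hc H1 H2)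
  obtain ⟨a1, a2, a3, a4⟩ := h2.signs hS.isOp hV0 hV1
  have a5 := nsr_block_le hV1 ((cop S w).map conj)
  have a6 := nsr_nonneg ((1 - V * Vᴴ) * (cop S w).map conj * V)
  rw [nsq_conj] at a5
  have a7 : (t - t ^ 2) * (bt S (V * Vᴴ) (V * Vᴴ)).re + t ^ 2 * (bt S (V * Vᴴ) (V * Vᴴ)ᵀ).re +
      t * (bt S (V * Vᴴ) (midP V)).re ≤ scal4 S / 8 - σ := by
    rw [scal4_eq_bt hS.isOp V] at hσ ⊢
    rcases hσ with ⟨h3, h4⟩ | h4
    · have b1 := mul_le_mul_of_nonneg_right (show t - t ^ 2 ≤ 2 / 9 by linarith only [h3, ht2, mul_nonneg_of_nonpos_of_nonpos (Mathlib.Tactic.Linarith.sub_nonpos_of_le ht2) (Mathlib.Tactic.Linarith.sub_nonpos_of_le h3)]) a1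
      have b2 := mul_le_mul_of_nonneg_right (show t ^ 2 ≤ 1 / 9 by linarith only [h3, ht, mul_nonneg_of_nonpos_of_nonpos (Mathlib.Tactic.Linarith.sub_nonpos_of_le ht) (Mathlib.Tactic.Linarith.sub_nonpos_of_le h3)]) a2
      have b3 := mul_le_mul_of_nonneg_right h3 a3
      linarith only [a2, a3, a4, h4, b1, b2, b3]
    · have b1 := mul_le_mul_of_nonneg_right (show t - t ^ 2 ≤ 1 / 4 by
        linarith only [sq_nonneg (t - 1 / 2), sq_nonneg ((2 : ℝ) * t - (1 : ℝ) * (1 : ℝ))]) a1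
      have b2 := mul_le_mul_of_nonneg_right (show t ^ 2 ≤ 1 / 4 by linarith only [ht2, ht, mul_nonneg_of_nonpos_of_nonpos (Mathlib.Tactic.Linarith.sub_nonpos_of_le ht) (Mathlib.Tactic.Linarith.sub_nonpos_of_le ht2)]) a2
      have b3 := mul_le_mul_of_nonneg_right ht2 a3
      linarith only [h4, b1, b2, b3]
  have a8 := mul_le_mul_of_nonneg_left a7 hc.le
  have a9 := mul_le_mul_of_nonneg_right ht2 a6
  linarith only [a5, a8, a9]

/-- The step with a non-invariant penalty. -/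
theorem pen8 (hW : CurvFlow 8 T W) {q k : ℕ} (hr : r ≤ q) (hrk : 6 ≤ r * k ∨ 4 ≤ r * k ∧ r ≤ 2)
    (pat : Fin q → Fin q → Prop)
    (hU : ∀ (Z : Matrix (Fin 8) (Fin q) ℂ) (U : Matrix (Fin q) (Fin q) ℂ) (w : CMat 8),
      U.BlockTriangular id → IsUnit U.det → XS pat (Z * U) w → XS pat Z w)
    (hrow : ∀ i j, pat i j → (i : ℕ) < r → (j : ℕ) < r)
    (hpow : ∀ (Z : Matrix (Fin 8) (Fin q) ℂ) (w : CMat 8), Zᵀ * Z = 0 → Zᴴ * Z = 1 → XS pat Z w →
      ∃ B : Matrix (Fin r) (Fin r) ℂ, w ^ k = cols hr Z * B * (cols hr Z)ᵀ)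
    {P : T4 8 → Prop} (h0 : AsymP T W fun R => G1 R ∧ PIC2w R ∧ P R) {β : ℝ}
    (hstart : ∀ (S : T4 8) (M : ℝ), IsCurv S → PIC2w S → P S → 0 ≤ M →
      (∀ v, |rq S v| ≤ M * nsq v) → (∀ v w, ‖cq S v w‖ ≤ 4 * M * (√(nsq v) * √(nsq w))) →
      ∀ (Z : Matrix (Fin 8) (Fin q) ℂ) (w : CMat 8), Zᵀ * Z = 0 → Zᴴ * Z = 1 → XS pat Z w →
        0 ≤ rq S w + β * M * penK k (cols hr Z) w) :
    AsymP T W fun R => Pos q pat R := by
  have h5 : 5 ≤ 8 := by norm_num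
  have hrk' : (4 : ℝ) ≤ r * k := by exact_mod_cast (by omega : 4 ≤ r * k)
  have hc : Continuous fun p : Matrix (Fin 8) (Fin q) ℂ × CMat 8 => penK k (cols hr p.1) p.2 :=
    (continuous_penK k).comp (f := fun p : Matrix (Fin 8) (Fin q) ℂ × CMat 8 => (cols hr p.1, p.2))
      ((continuous_fst.matrix_submatrix id (Fin.castLE hr)).prodMk continuous_snd)
  obtain ⟨δ, hδ, hG⟩ := G1.uniform h5
  obtain ⟨C, hC⟩ := shift_bound h5 LinearMap.id (fun R hR => hR) pat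
  obtain ⟨M, hM⟩ := (isCompact_TK 8 pat).exists_bound_of_continuousOn hc.continuousOn
  refine rat_XS (pen := fun Z w => penK k (cols hr Z) w) hW h0
    (fun R hR h => h.2.1.picw.scal_pos h5 hR) LinearMap.id hc
    (fun _ _ => penK_nonneg _ _ _) (fun Z c w => penK_smul (by omega) _ _ _)
    (β := max (β * 8 ^ 3) 1) (κ := min (1 / 72) (δ / 8)) (C := C + 7 * (max (β * 8 ^ 3) 1 * M))
    (lt_max_of_lt_right one_pos) (by positivity) (fun R hR h Z w h0 h1 hw => ?_)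
    fun η hη s hs R hR h hne hall Z w hp hact hpos => ?_
  · have a0 := h.2.1.picw.scal_ge h5 hR
    have a1 := hstart R _ hR h.2.1 h.2.2 (by positivity) (s3_rq_le h5 hR h.2.1.picw)
      (s3_cq_le h5 hR h.2.1.picw) Z w h0 h1 hw
    rw [← mul_assoc β, Nat.cast_ofNat] at a1
    refine a1.trans (add_le_add_right ?_ _)
    exact mul_le_mul_of_nonneg_right (mul_le_mul_of_nonneg_right (le_max_left _ _) a0)
      (penK_nonneg _ _ _)
  · have a0 := h.2.1.picw.scal_pos h5 hR hne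
    have b0 := mul_pos hη.1 a0
    have hS : IsCurv (R + (η * scal4 R) • Id4 8) := hR.add_Id4 _
    have hS2 := h.2.1.add_Id4 b0.le
    obtain ⟨H1, H2⟩ := pen_var hS.isOp hr (by omega) hU hrow hpow (mul_pos hs.1 a0) hall hp.1
      hp.2.1 hp.2.2.1 hact hpos
    have a1 := p8_core hS hS2 (cols_iso hr hp.1) (cols_unit hr hp.2.1) hp.2.2.1.skew
      (σ := min (1 / 72) (δ / 8) * scal4 R) (mul_pos (mul_pos hs.1 a0) hpos)
      (by positivity) ((div_le_iff₀ (by positivity)).2 (by linarith only [hrk'])) (hrk.imp (fun h6 => ?_)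
        fun h6 => ?_) H1 H2
    · have a2 : rq (Qq4 (R + (η * scal4 R) • Id4 8)) w ≤ rq (Qq4 R) w + _ :=
        hC R hR h.2.1.picw η hη Z w hp
      have a5 := scal4_Qq4_ge (by norm_num) hR
      have a6 := mul_pos hs.1 hpos
      have a7 := mul_le_mul_of_nonneg_right a5 (add_pos hη.1 a6).le
      have a8 : 0 ≤ scal4 R ^ 2 * η := mul_nonneg (by positivity) hη.1.le
      have a9 : s * penK k (cols hr Z) w ≤ max (β * 8 ^ 3) 1 * M :=
        mul_le_mul hs.2 (Real.le_norm_self _ |>.trans (hM (Z, w) hp)) hpos.le (hs.1.le.trans hs.2)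
      have b1 := mul_le_mul_of_nonneg_right a9 a8
      rw [scal4_add_Id4] at a1
      rw [Nat.cast_ofNat] at a1 a7
      change _ ≤ rq (Qq4 R) w + _
      change _ ≤ rq _ w at a1
      generalize min (1 / 72) (δ / 8) = m at a1 ⊢
      linarith only [hr, a2, a7, a8, b1, a1]
    · have h7 : (6 : ℝ) ≤ r * k := by exact_mod_cast h6
      have h8 := mul_le_mul_of_nonneg_right (min_le_left (1 / 72) (δ / 8)) a0.le
      rw [scal4_add_Id4, Nat.cast_ofNat]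
      exact ⟨(div_le_iff₀ (by positivity)).2 (by linarith only [h7]), by linarith only [b0, h8]⟩
    · obtain ⟨y, z, y0, y1, y2, y3, y4, y5, y6⟩ := p8_mid (N := 8) (by omega) (cols_iso hr hp.1)
        (cols_unit hr hp.2.1)
      have h7 := y6 _ hS.isOp hS2
      have h8 := hG R hR h.1 a0.le y z y0 y1 y2 y3
      have h9 := mul_le_mul_of_nonneg_right (min_le_right (1 / 72) (δ / 8)) a0.le
      have h10 := mul_nonneg b0.le (nsq_nonneg (wedge y z))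
      rw [rq_add, rq_smul, rq_Id4 (wedge_skew y z)] at h7
      rw [y4, y5] at h8
      linarith only [hr, h7, h8, h9, h10]

/-- The step with an invariant penalty. -/
theorem inv8 (hW : CurvFlow 8 T W) {q : ℕ} (pat : Fin q → Fin q → Prop)
    (hup : ∀ i j, j < i → pat i j) (hdiag : ∀ i j, pat i j → j ≤ i)
    (g : (Fin q → ℂ) → ℝ) (hg : Continuous g) (hg0 : ∀ x, 0 ≤ g x)
    (hg2 : ∀ (c : ℂ) x, g (c • x) = Complex.normSq c * g x) {P : T4 8 → Prop}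
    (h0 : AsymP T W fun R => PIC2w R ∧ P R) {β : ℝ}
    (hstart : ∀ (S : T4 8) (M : ℝ), IsCurv S → PIC2w S → P S → 0 ≤ M →
      (∀ v, |rq S v| ≤ M * nsq v) → ∀ z x : Fin q → Fin 8 → ℂ, Fr z →
      (∀ i j, pat i j → x i ⬝ᵥ z j = 0) →
        0 ≤ rq S (∑ i, wedge (z i) (x i)) + β * M * g fun i => x i ⬝ᵥ z i) :
    AsymP T W fun R => Pos q pat R := by
  have h5 : 5 ≤ 8 := by norm_num
  refine (invStep hW h5 le_rfl pat hup hdiag g hg hg0 hg2 h0 (fun R _ h => h.1.picw)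
    (β := β * 8 ^ 3) ?_).mono fun R _ h => by rwa [s3_flat_self] at h
  rintro R hR h Z w h1 h2 ⟨C, rfl, h3⟩
  have a0 := h.1.picw.scal_ge h5 hR
  have a1 := hstart R _ hR h.1 h.2 (by positivity) (s3_rq_le h5 hR h.1.picw) _ _
    ((fr_iff Z).1 ⟨h1, h2⟩) h3
  rw [← mul_assoc β, Nat.cast_ofNat] at a1
  rw [xs_tau h1 h2, s3_sum, s3_flat_self]
  exact a1

end

end Pool.Agent.Work.MP_3a9764_gt
end
end
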