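import Pool.Agent.Work.MP_3a9764_gt.St1e
import Pool.Agent.Work.MP_3a9764_gt.N8C3b
import Pool.Agent.Work.MP_3a9764_gt.N8F
import Pool.Agent.Work.MP_3a9764_gt.N8A
import Pool.Agent.Work.MP_3a9764_gt.Bridge
import Pool.Agent.Work.MP_3a9764_gt.Four

-- merged part: Pool.Agent.Work.MP_3a9764_gt.St1
section
/-! Stages 0 and 1. -/

set_option autoImplicit false

open Filter Set Matrix
open scoped Topology ComplexConjugate

namespace Pool.Agent.Work.MP_3a9764_gt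

noncomputable section

variable {n N : ℕ} {T : ℝ} {W : ℝ → Set (T4 n)}

namespace St1

open T

variable {β h μ₁ μ₂ A : ℝ}

/-- The space of the hidden variable. -/
def Yo (n : ℕ) : Submodule ℝ (T4 n) where
  carrier := {U | IsOp U}
  add_mem' := IsOp.add
  zero_mem' := ⟨fun _ _ _ _ => by simp, fun _ _ _ _ => rfl⟩
  smul_mem' c _ h := h.smul c

/-- Orthogonal matrices. -/
def Orth (n : ℕ) : Set (Mat n) := {P | Pᵀ * P = 1}

theorem isCompact_orth : IsCompact (Orth n) := by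
  have h1 : IsCompact {P : Mat n | ∀ i j, P i j ∈ Icc (-1 : ℝ) 1} := by
    have h : IsCompact {P : Fin n → Fin n → ℝ | ∀ i, P i ∈ {v : Fin n → ℝ | ∀ j,
        v j ∈ Icc (-1 : ℝ) 1}} :=
      isCompact_pi_infinite fun _ => isCompact_pi_infinite fun _ => isCompact_Icc
    exact h
  refine h1.of_isClosed_subset (isClosed_eq (by fun_prop) continuous_const) fun P hP i j => ?_
  have h2 := congrFun (congrFun (show Pᵀ * P = 1 from hP) j) j
  rw [mul_apply, one_apply_eq] at h2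
  have h3 : P i j * P i j ≤ 1 := h2 ▸ Finset.single_le_sum (f := fun k => Pᵀ j k * P k j)
    (fun k _ => mul_self_nonneg _) (Finset.mem_univ i)
  exact abs_le.1 (abs_le_one_iff_mul_self_le_one.2 h3)

/-- The index set of the functionals. -/
abbrev Ix (n : ℕ) : Type := Fin 6 × Mat n × (Fin n → Fin n → ℝ)

def Om (n : ℕ) : Set (Ix n) := univ ×ˢ Orth n ×ˢ UnitBiv n

theorem isCompact_Om : IsCompact (Om n) :=
  isCompact_univ.prod (isCompact_orth.prod isCompact_unitBiv)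

def FF (hn : 5 ≤ n) (β μ₁ μ₂ : ℝ) (w : Ix n) (x : T4 n × Yo n) : ℝ :=
  gk hn β μ₁ μ₂ w.2.2 (pullT (linv β x.1) w.2.1) (pullT x.2.1 w.2.1) w.1

def vv (β : ℝ) (x : T4 n × Yo n) : Yo n :=
  ⟨Tv β (linv β x.1), (isOp_sqT _).add (isCurv_Id4.isOp.smul _)⟩

theorem all_iff {hn : 5 ≤ n} {R : T4 n} {y : Yo n} :
    (∀ w ∈ Om n, ck β h A w.1 ≤ FF hn β μ₁ μ₂ w (R, y)) ↔ All hn β h μ₁ μ₂ A (linv β R) y.1 :=
  ⟨fun H k P hP φ hφ => H (k, P, φ) ⟨trivial, hP, hφ⟩, fun H _ hw => H _ _ hw.2.1 _ hw.2.2⟩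

theorem all_iff0 {hn : 5 ≤ n} {R : T4 n} {y : Yo n} :
    (∀ w ∈ Om n, 0 ≤ FF hn β μ₁ μ₂ w (R, y)) ↔ All hn β 0 μ₁ μ₂ 0 (linv β R) y.1 := by
  simp only [← all_iff, ck_zero]

theorem isLinearMap_FF (hn : 5 ≤ n) (β μ₁ μ₂ : ℝ) (w : Ix n) :
    IsLinearMap ℝ (FF hn β μ₁ μ₂ w) := by
  refine ⟨fun x y => ?_, fun c x => ?_⟩
  · simp only [FF, Prod.fst_add, Prod.snd_add, Submodule.coe_add, (isLinearMap_linv β).map_add,
      pullT_add, gk_add]
  · simp only [FF, Prod.smul_fst, Prod.smul_snd, Submodule.coe_smul, (isLinearMap_linv β).map_smul,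
      pullT_smul, gk_smul, smul_eq_mul]

theorem continuous_linv (hn : 5 ≤ n) : Continuous fun p : ℝ × T4 n => linv |p.1| p.2 := by
  have hn3 : 3 ≤ n := by omega
  have h1 : Continuous fun p : ℝ × T4 n => aa n |p.1| := by unfold aa; fun_prop
  have h2 : Continuous fun p : ℝ × T4 n => lb p.2 := by unfold lb scal4; fun_prop
  have h3 : Continuous fun p : ℝ × T4 n => kn (ric0 p.2) 1 := by
    refine continuous_pi fun i => continuous_pi fun j => continuous_pi fun k =>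
      continuous_pi fun l => ?_
    simp only [kn, ric0, ric4, Matrix.sub_apply, Matrix.smul_apply, smul_eq_mul]
    fun_prop
  unfold linv
  refine (continuous_snd.sub ((((continuous_const.mul h1).div (by fun_prop)
    fun p => (AD_a hn3 (abs_nonneg _)).ne').mul h2).smul continuous_const)).sub
    ((Continuous.div (by fun_prop) (by fun_prop) fun p => (AD_b hn3 (abs_nonneg _)).ne').smul h3)

theorem cont_linv (hn : 5 ≤ n) {X : Type} [TopologicalSpace X] {f : X → ℝ} {g : X → T4 n}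
    (hf : Continuous f) (hg : Continuous g) : Continuous fun x => linv |f x| (g x) := by
  have h := (continuous_linv hn).comp (hf.prodMk hg)
  simp only [Function.comp_def] at h
  exact h

theorem cont_pullT {X : Type} [TopologicalSpace X] {f : X → T4 n} {g : X → Mat n}
    (hf : Continuous f) (hg : Continuous g) : Continuous fun x => pullT (f x) (g x) := by
  have h := G.continuous_act.comp (hf.prodMk hg)
  simp only [Function.comp_def] at h
  exact h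

theorem cont_FF (hn : 5 ≤ n) (μ₁ μ₂ : ℝ) {X : Type} [TopologicalSpace X] {f : X → ℝ}
    {w : X → Ix n} (hf : Continuous f) (hw : Continuous w) (R U : T4 n) :
    Continuous fun x => gk hn |f x| μ₁ μ₂ (w x).2.2 (pullT (linv |f x| R) (w x).2.1)
      (pullT U (w x).2.1) (w x).1 := by
  have h3 := cont_pullT (cont_linv hn hf (continuous_const (y := R))) hw.snd.fst
  have h4 := cont_pullT (continuous_const (y := U)) hw.snd.fst
  have h5 : ∀ k, Continuous fun x => gk hn |f x| μ₁ μ₂ (w x).2.2 (pullT (linv |f x| R) (w x).2.1)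
      (pullT U (w x).2.1) k := fun k => by
    have h := (continuous_gk (μ₁ := μ₁) (μ₂ := μ₂) hn k).comp
      (hf.abs.prodMk (hw.snd.snd.prodMk (h3.prodMk h4)))
    simp only [Function.comp_def] at h
    exact h
  have h6 : Continuous fun p : (Fin 6 → ℝ) × Fin 6 => p.1 p.2 :=
    continuous_prod_of_discrete_right.2 fun k => continuous_apply k
  have h7 := h6.comp ((continuous_pi h5).prodMk hw.fst)
  simp only [Function.comp_def] at h7
  exact h7

theorem continuous_Tv : Continuous fun p : ℝ × T4 n => Tv p.1 p.2 := by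
  unfold Tv sqT lb scal4
  fun_prop

theorem Tv_smul (β r : ℝ) (S : T4 n) : Tv β (r • S) = r ^ 2 • Tv β S := by
  have h : sqT (r • S) = r ^ 2 • sqT S := by
    funext i j k l
    simp only [sqT, Pi.smul_apply, smul_eq_mul, Finset.mul_sum]
    exact Finset.sum_congr rfl fun _ _ => Finset.sum_congr rfl fun _ _ => by ring
  rw [Tv, Tv, h, lb_smul]
  module

theorem FF_Id4 (hp : Par n β h) (μ₁ μ₂ : ℝ) {w : Ix n} (hw : w ∈ Om n) (τ : ℝ) (y : Yo n)
    (hy : y.1 = τ • Id4 n) : ∃ θ : ℝ, 1 / 2 ≤ θ ∧ FF hp.n5 β μ₁ μ₂ w (Id4 n, y) =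
      ![2 * τ, (2 + 2 * (β / 3)) * (((n : ℝ) - 1) * θ),
      2 * (((n : ℝ) - 2) * τ) + 27 / 10 * β * (((n : ℝ) - 1) * θ), 4 * (θ - τ),
      4 * (θ - τ) + μ₁ * (((n : ℝ) - 1) * θ), 4 * (θ - τ) + μ₂ * (((n : ℝ) - 1) * θ)] w.1 := by
  have hn3 : 3 ≤ n := by have := hp.n5; omega
  have h1 := AD_a hn3 hp.pos.le
  refine ⟨(1 + 2 * ((n : ℝ) - 1) * aa n β)⁻¹, ?_, ?_⟩
  · rw [one_div]; exact inv_anti₀ h1 hp.den_le
  · rw [FF, linv_eq, lBi_Id4 (AD_n hn3) h1.ne', hy, pullT_smul, pullT_smul, pullT_Id4 hw.2.1,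
      gk_Id4 _ hw.2.2]

theorem FF_shift (hp : Par n β h) {w : Ix n} (hw : w ∈ Om n) :
    -ck β 1 0 w.1 ≤ FF hp.n5 β 0 0 w (Id4 n, 0) := by
  obtain ⟨θ, hθ, e⟩ := FF_Id4 hp 0 0 hw 0 0 (by simp)
  have h5 := hp.bds.1
  have hb := hp.pos
  have h1 : 2 ≤ ((n : ℝ) - 1) * θ := by linarith only [h5, hθ, mul_nonneg_of_nonpos_of_nonpos (Mathlib.Tactic.Linarith.sub_nonpos_of_le (Mathlib.Tactic.Linarith.natCast_nonneg ℝ n)) (Mathlib.Tactic.Linarith.sub_nonpos_of_le hθ), mul_nonneg_of_nonpos_of_nonpos (Mathlib.Tactic.Linarith.sub_nonpos_of_le hθ) (Mathlib.Tactic.Linarith.sub_nonpos_of_le h5)]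
  rw [e]
  obtain ⟨k, w⟩ := w
  fin_cases k <;> simp [ck] <;> linarith only [hb, h1, hθ, mul_nonneg_of_nonpos_of_nonpos (le_of_lt (Mathlib.Tactic.Linarith.sub_neg_of_lt hb)) (Mathlib.Tactic.Linarith.sub_nonpos_of_le h1)]

theorem FF_add_Id4 (hn : 5 ≤ n) (w : Ix n) (R : T4 n) (y : Yo n) (r : ℝ) :
    FF hn β μ₁ μ₂ w (R + r • Id4 n, y) =
      FF hn β μ₁ μ₂ w (R, y) + r * FF hn β μ₁ μ₂ w (Id4 n, 0) := by
  have e : ((R + r • Id4 n, y) : T4 n × Yo n) = (R, y) + r • (Id4 n, 0) := by simp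
  rw [e, (isLinearMap_FF hn β μ₁ μ₂ w).map_add, (isLinearMap_FF hn β μ₁ μ₂ w).map_smul,
    smul_eq_mul]

theorem ck_nonpos (hb : 0 ≤ β) (k : Fin 6) : ck β 1 0 k ≤ 0 := by
  fin_cases k <;> simp [ck, hb]

theorem eq_zero_of_scal (hp : Par n β h) {R : T4 n} (hR : IsCurv R) (hS : PICw (linv β R))
    (h0 : lb (linv β R) ≤ 0) : R = 0 := by
  have hn3 : 3 ≤ n := by have := hp.n5; omega
  have h1 : linv β R = 0 := hS.p4 hp.n5 (isCurv_linv hR β) (by
    rw [scal4_eq (AD_n hn3)]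
    exact mul_nonpos_of_nonneg_of_nonpos (Nat.cast_nonneg _) h0)
  rw [← lB_lBi (AD_n hn3) (AD_a hn3 hp.pos.le).ne' (AD_b hn3 hp.pos.le).ne' R, ← linv_eq, h1,
    map_zero]

theorem hidden_zero {hn : 5 ≤ n} {y : Yo n} (H : All hn β 0 μ₁ μ₂ 0 (linv β 0) y.1) : y = 0 := by
  rw [(isLinearMap_linv β).map_zero] at H
  have hc := H.cn (by simpa using isCurv_smul 0 (isCurv_Id4 (n := n))) y.2
  exact Subtype.ext (eq_zero_of_pic hn y.2 hc.nn hc.pic)

theorem FF_der (hp : Par n β h) {R : T4 n} (hR : IsCurv R) (y : Yo n) (w : Ix n) :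
    FF hp.n5 β μ₁ μ₂ w (Qq4 R, vv β (R, y)) = gk hp.n5 β μ₁ μ₂ w.2.2
      (pullT (Sv β (linv β R)) w.2.1) (pullT (Tv β (linv β R)) w.2.1) w.1 := by
  rw [FF, linv_Qq4 (by have := hp.n5; omega) hp.pos.le hR]
  rfl

theorem initial (hn : 5 ≤ n) {K : Set (T4 n)} (hK : IsCompact K) (hc : ∀ R ∈ K, IsCurv R)
    (h0 : ∀ R ∈ K, ∀ e, ON4 e → 0 < iso4 R e) : ∃ h > 0, ∃ A > 0, ∃ β₂ > 0,
      ∀ β, 0 < β → β ≤ β₂ → ∀ R ∈ K, ∀ P ∈ Orth n,
        2 * A ≤ rq (pullT (linv β R) P) (wedge (z0 hn) (w0 hn)) ∧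
        |ric4 (pullT (linv β R) P) (ix hn 0) (ix hn 0)| +
          |ric4 (pullT (linv β R) P) (ix hn 1) (ix hn 1)| < h := by
  have h1 : Continuous fun p : ℝ × T4 n × Mat n => pullT (linv |p.1| p.2.1) p.2.2 :=
    cont_pullT (cont_linv hn continuous_fst continuous_snd.fst) continuous_snd.snd
  have h2 : Continuous fun S : T4 n => rq S (wedge (z0 hn) (w0 hn)) := by
    unfold rq cq
    fun_prop
  have h3 : Continuous fun S : T4 n =>
      |ric4 S (ix hn 0) (ix hn 0)| + |ric4 S (ix hn 1) (ix hn 1)| := by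
    unfold ric4
    fun_prop
  obtain ⟨M, hM⟩ := ((isCompact_Icc (a := (0 : ℝ)) (b := 1)).prod
    (hK.prod isCompact_orth)).exists_bound_of_continuousOn (h3.comp h1).continuousOn
  obtain ⟨m, hm, hm'⟩ := (hK.prod isCompact_orth).exists_forall_le'
    (f := fun q : T4 n × Mat n => rq (pullT q.1 q.2) (wedge (z0 hn) (w0 hn))) (a := 0)
    (h2.comp (cont_pullT continuous_fst continuous_snd)).continuousOn (by
      rintro ⟨R, P⟩ ⟨hR, hP⟩
      have he : ON4 fun a i => P i (ix hn a) := fun a b => by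
        have := congrFun (congrFun (show Pᵀ * P = 1 from hP) (ix hn a)) (ix hn b)
        simpa [mul_apply, one_apply, (ix_inj hn).eq_iff] using this
      have h4 := h0 R hR _ he
      change 0 < rq (pullT R P) (wedge (z0 hn) (w0 hn))
      rw [z0, w0, ap_rq_cv (isCurv_pullT (hc R hR) P)]
      simp only [ev4_single, mul_one]
      exact h4)
  have h4 := (hK.prod isCompact_orth).eventually_forall_of_forall_eventually (x₀ := (0 : ℝ))
    (P := fun β q => m / 2 < rq (pullT (linv |β| q.1) q.2) (wedge (z0 hn) (w0 hn)))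
    fun q hq => (h2.comp h1).continuousAt.eventually (lt_mem_nhds (by
      have h5 := hm' q hq
      change m / 2 < rq (pullT (linv |0| q.1) q.2) (wedge (z0 hn) (w0 hn))
      rw [abs_zero, linv_zero]
      linarith only [hn, hm, h5]))
  obtain ⟨δ, hδ, h5⟩ := Metric.eventually_nhds_iff.1 h4
  refine ⟨|M| + 1, by positivity, m / 4, by positivity, min 1 (δ / 2),
    lt_min one_pos (half_pos hδ), fun β hβ hβ1 R hR P hP => ⟨?_, ?_⟩⟩
  · have h6 := h5 (y := β) (by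
      rw [Real.dist_eq, sub_zero, abs_of_pos hβ]
      linarith only [hβ, hβ1, hβ1.trans (min_le_right _ _)]) (R, P) ⟨hR, hP⟩
    rw [abs_of_pos hβ] at h6
    linarith only [hn, h6]
  · have h6 := (le_abs_self _).trans (hM (β, R, P) ⟨⟨hβ.le, hβ1.trans (min_le_left _ _)⟩, hR, hP⟩)
    simp only [Function.comp_apply, abs_of_pos hβ] at h6
    linarith only [hn, h6, le_abs_self M]

theorem stage0 (hW : CurvFlow n T W) (hn : 5 ≤ n) (hn8 : n ≤ 8)
    (h0 : ∀ R ∈ W 0, ∀ e, ON4 e → 0 < iso4 R e) (hT : 0 < T) {δ : ℝ} (hδ : 0 < δ)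
    (hsc : ∀ t ∈ Ico 0 T, ∀ R ∈ W t, δ < scal4 R) :
    ∃ β, 0 < β ∧ β ≤ bOne n ∧ AM T W (Cone (Om n) (FF hn β 0 0)) := by
  have hn3 : 3 ≤ n := by omega
  have hn0 : (0 : ℝ) < n := by exact_mod_cast (by omega : 0 < n)
  obtain ⟨h, hh, A, hA, β₂, hβ₂, hi⟩ := initial hn (hW.bound_zero hT) (hW.curv 0 ⟨le_rfl, hT⟩) h0
  obtain ⟨β₁, hβ₁, hch⟩ := choose_par hh hA (l₀ := δ / n / 2) (by positivity)
  have hb1 : 0 < bOne n := by rw [bOne]; positivity
  obtain ⟨β, hβ, b1, b2, b3, b4⟩ : ∃ β > 0, β ≤ β₁ ∧ β ≤ β₂ ∧ β ≤ bOne n ∧ β ≤ 1 / 10 ^ 5 :=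
    ⟨min (min β₁ β₂) (min (bOne n) (1 / 10 ^ 5)),
      lt_min (lt_min hβ₁ hβ₂) (lt_min hb1 (by norm_num)),
      (min_le_left _ _).trans (min_le_left _ _), (min_le_left _ _).trans (min_le_right _ _),
      (min_le_right _ _).trans (min_le_left _ _), (min_le_right _ _).trans (min_le_right _ _)⟩
  have hp : Par n β h := ⟨hn, hn8, hβ, b3, hh.le, Or.inr b4⟩
  obtain ⟨μ₁, μ₂, hμ₁, hμ₂, hμ⟩ := hch β hβ b1
  have hl : ∀ t ∈ Ico 0 T, ∀ R ∈ W t, δ / n / 2 ≤ lb (linv β R) := by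
    intro t ht R hR
    have h1 : δ / n ≤ lb R := div_le_div_of_nonneg_right (hsc t ht R hR).le hn0.le
    have h2 := lb_linv hn3 hβ.le R
    have h3 := AD_a hn3 hβ.le
    have h4 : 0 < lb (linv β R) :=
      pos_of_mul_pos_right (h2 ▸ (div_pos hδ hn0).trans_le h1) h3.le
    (refine le_of_not_gt fun h_nl => ?_; linarith only [h_nl, h1, h2, hβ, b4, h4, hp, hp.den_le, mul_pos_of_neg_of_neg (Mathlib.Tactic.Linarith.sub_neg_of_lt hβ) (Mathlib.Tactic.Linarith.sub_neg_of_lt h_nl), mul_nonneg_of_nonpos_of_nonpos (Mathlib.Tactic.Linarith.sub_nonpos_of_le b4) (le_of_lt (Mathlib.Tactic.Linarith.sub_neg_of_lt h_nl)), mul_nonneg_of_nonpos_of_nonpos (le_of_lt (Mathlib.Tactic.Linarith.sub_neg_of_lt h4)) (Mathlib.Tactic.Linarith.sub_nonpos_of_le (Par.den_le hp))])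
  have hl0 : 0 < δ / n / 2 := by positivity
  have key := barrier hW isCompact_Om (FF hn β μ₁ μ₂) (isLinearMap_FF hn β μ₁ μ₂)
    (fun x => by
      have h1 := cont_FF hn μ₁ μ₂ (continuous_const (y := β)) continuous_id x.1 x.2.1
      simp only [abs_of_pos hβ] at h1
      exact h1.continuousOn)
    (fun w => ck β h A w.1) (continuous_of_discreteTopology.comp continuous_fst).continuousOn
    (fun R hR => ⟨⟨(A / 8) • Id4 n, isCurv_Id4.isOp.smul _⟩, by
      rintro ⟨k, P, φ⟩ ⟨-, hP, hφ⟩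
      change Pᵀ * P = 1 at hP
      change φ ∈ UnitBiv n at hφ
      obtain ⟨i1, i2⟩ := hi β hβ b2 R hR P hP
      have l1 := hl0.trans_le (hl 0 ⟨le_rfl, hT⟩ R hR)
      rw [← lb_pullT _ hP] at l1
      have e1 := opL_Id4 (φ := φ) hφ.1
      rw [hφ.2] at e1
      have e3 := opNonneg_add_Id4 (U := (0 : T4 n)) (c := A / 8) (fun φ _ => by simp)
        (by positivity)
      rw [zero_add] at e3
      have e2 := BT_nonneg (isCurv_Id4.isOp.smul (A / 8)) e3
        ((ix_inj hn).ne (by decide : (0 : Fin 4) ≠ 1))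
      simp only [FF, pullT_smul, pullT_Id4 hP]
      generalize pullT (linv β R) P = S at i1 i2 l1
      have a1 := neg_abs_le (ric4 S (ix hn 0) (ix hn 0))
      have a2 := neg_abs_le (ric4 S (ix hn 1) (ix hn 1))
      have a3 := le_abs_self (ric4 S (ix hn 1) (ix hn 1))
      have a4 := mul_pos hβ l1
      have a5 := mul_nonneg hμ₁ l1.le
      have a6 := mul_nonneg hμ₂ l1.le
      have a7 := mul_lt_mul_of_pos_left
        (show ric4 S (ix hn 1) (ix hn 1) - ric4 S (ix hn 0) (ix hn 0) < h by linarith only [hn, i2, a1, a3]) hβ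
      fin_cases k <;> simp [ck, gk, c3, c4, rq_sub, rq_smul, rq_Id4, e1] <;> linarith only [hA, hn, i2, a1, a2, a4, e2, a7, i1, a5, a6]⟩)
    (fun y hy => hidden_zero (all_iff0.1 hy))
    (fun t ht R hR y hy => ⟨vv β (R, y), fun w hw hact => by
      have hR' := hW.curv t (Ioo_subset_Ico_self ht) R hR
      have l1 := hl t (Ioo_subset_Ico_self ht) R hR
      obtain ⟨H3, H4, H5⟩ := hμ _ l1
      rw [FF_der hp hR']
      exact trans1 hp hμ₁ hμ₂ (isCurv_linv hR' β) y.2 (all_iff.1 hy) (hl0.trans_le l1) H3 H4 H5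
        hw.2.2 w.1 hw.2.1 hact⟩)
  refine ⟨β, hβ, b3, AM.of_shift (fun t ht R hR => (hδ.trans (hsc t ht R hR)).le) ?_ (C := h)
    fun t ht R hR => ?_⟩
  · rintro R ⟨y, hy⟩ r hr
    refine ⟨y, fun w hw => ?_⟩
    rw [FF_add_Id4]
    exact add_nonneg (hy w hw) (mul_nonneg hr
      ((neg_nonneg.2 (ck_nonpos hβ.le _)).trans (FF_shift hp hw)))
  · obtain ⟨y, hy⟩ := key t ht R hR
    refine ⟨y, fun w hw => ?_⟩
    have h1 := mul_le_mul_of_nonneg_left (FF_shift hp hw) hh.le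
    rw [FF_add_Id4]
    obtain ⟨k, P, φ⟩ := w
    have h2 := hy (k, P, φ) hw
    have h3 := hy (3, P, φ) ⟨trivial, hw.2⟩
    simp only [FF] at h1 h2 h3 ⊢
    fin_cases k <;> simp [ck, gk] at h1 h2 h3 ⊢ <;> linarith only [h2, h1, hn, hp, h3]

theorem stage1' (hW : CurvFlow n T W) (hn : 5 ≤ n) (hn8 : n ≤ 8)
    (hsc : ∀ t ∈ Ico 0 T, ∀ R ∈ W t, 0 ≤ scal4 R) (hβ : 0 < β) (hβ1 : β ≤ bOne n)
    (h0 : AM T W (Cone (Om n) (FF hn β 0 0))) : AM T W (Cone (Om n) (FF hn (bOne n) 0 0)) := by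
  have hn3 : 3 ≤ n := by omega
  have hp : ∀ s ∈ Icc β (bOne n), Par n s 0 :=
    fun s hs => ⟨hn, hn8, hβ.trans_le hs.1, hs.2, le_rfl, Or.inl rfl⟩
  refine step hW hsc (G := {R | IsCurv R}) ⟨isClosed_isCurv,
    by simpa using isCurv_smul 0 (isCurv_Id4 (n := n)), fun R hR r _ => isCurv_smul r hR,
    fun R hR r _ => IsCurv.add hR (isCurv_smul r isCurv_Id4)⟩
    (fun ε _ => ⟨0, fun t ht R hR => (hW.curv t ht R hR).add (isCurv_smul _ isCurv_Id4)⟩)
    isCompact_Om hβ1 (fun s => FF hn s 0 0) (fun s => isLinearMap_FF hn s 0 0) (fun x => ?_) vv ?_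
    (fun s x r _ => ?_) ⟨(1 / 4 : ℝ) • Id4 n, isCurv_Id4.isOp.smul _⟩ (fun s hs w hw => ?_)
    (fun s hs R hR y hy h1 => ?_) (fun s hs R hR y hy hne w hw hact => ?_) h0
  · have h1 := cont_FF hn 0 0 (X := ℝ × Ix n) continuous_fst continuous_snd x.1 x.2.1
    refine h1.continuousOn.congr fun p hp => ?_
    simp only [abs_of_pos (hβ.trans_le hp.1.1), FF]
  · refine Topology.IsInducing.subtypeVal.continuousOn_iff.2 ?_
    have h1 := (continuous_Tv (n := n)).comp (continuous_fst.prodMk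
      (cont_linv hn (X := ℝ × (T4 n × Yo n)) continuous_fst continuous_snd.fst))
    refine h1.continuousOn.congr fun p hp => ?_
    simp only [Function.comp_apply, abs_of_pos (hβ.trans_le hp.1.1), vv]
  · refine Subtype.ext ?_
    change Tv s (linv s (r • x.1)) = r ^ 2 • Tv s (linv s x.1)
    rw [(isLinearMap_linv s).map_smul, Tv_smul]
  · obtain ⟨θ, hθ, e⟩ := FF_Id4 (hp s hs) 0 0 hw (1 / 4) ⟨_, isCurv_Id4.isOp.smul _⟩ rfl
    have h5 := (hp s hs).bds.1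
    have hb := (hp s hs).pos
    have h1 : 2 ≤ ((n : ℝ) - 1) * θ := by linarith only [h5, hθ, mul_nonneg_of_nonpos_of_nonpos (Mathlib.Tactic.Linarith.sub_nonpos_of_le (Mathlib.Tactic.Linarith.natCast_nonneg ℝ n)) (Mathlib.Tactic.Linarith.sub_nonpos_of_le hθ), mul_nonneg_of_nonpos_of_nonpos (Mathlib.Tactic.Linarith.sub_nonpos_of_le hθ) (Mathlib.Tactic.Linarith.sub_nonpos_of_le h5)]
    rw [e]
    obtain ⟨k, w⟩ := w
    fin_cases k <;> simp <;> linarith only [hb, h1, h5, hθ, mul_nonneg_of_nonpos_of_nonpos (le_of_lt (Mathlib.Tactic.Linarith.sub_neg_of_lt hb)) (Mathlib.Tactic.Linarith.sub_nonpos_of_le h1)]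
  · have H := all_iff0.1 hy
    have h2 := lb_linv hn3 (hp s hs).pos.le R
    have h3 : lb R ≤ 0 := div_nonpos_of_nonpos_of_nonneg h1 (Nat.cast_nonneg _)
    obtain rfl := eq_zero_of_scal (hp s hs) hR (H.cn (isCurv_linv hR s) y.2).picS
      (nonpos_of_mul_nonpos_right' (h2 ▸ h3) (AD_a hn3 (hp s hs).pos.le))
    exact ⟨rfl, hidden_zero H⟩
  · have H := all_iff0.1 hy
    have hl : 0 < lb (linv s R) := not_le.1 fun h1 =>
      hne (eq_zero_of_scal (hp s hs) hR (H.cn (isCurv_linv hR s) y.2).picS h1)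
    have h2 : 0 < s ^ 2 / 10 * lb (linv s R) ^ 2 := by have := (hp s hs).pos; positivity
    rw [FF_der (hp s hs) hR]
    exact trans1 (hp s hs) le_rfl le_rfl (isCurv_linv hR s) y.2 H hl (fun _ => by linarith only [h2])
      (by linarith only [h2]) (fun _ => by linarith only [h2]) hw.2.2 w.1 hw.2.1 (hact.trans (ck_zero s _).symm)
  where nonpos_of_mul_nonpos_right' {a b : ℝ} (h : a * b ≤ 0) (ha : 0 < a) : b ≤ 0 :=
    not_lt.1 fun hb => absurd (mul_pos ha hb) (not_lt.2 h)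

/-- The functionals that cut out the final cone. -/
def LL (hn : 5 ≤ n) (β : ℝ) (τ : Fin 6 × Orth n) : T4 n →ₗ[ℝ] ℝ where
  toFun R := gk hn β 0 0 0 (pullT (linv β R) τ.2.1) (pullT 0 τ.2.1) τ.1
  map_add' R S := by
    rw [← gk_add, ← pullT_add, ← pullT_add, add_zero, (isLinearMap_linv β).map_add]
  map_smul' c R := by
    rw [RingHom.id_apply, smul_eq_mul, ← gk_smul, ← pullT_smul, ← pullT_smul, smul_zero,
      (isLinearMap_linv β).map_smul]

theorem LL_apply (hn : 5 ≤ n) (β : ℝ) (τ : Fin 6 × Orth n) (R : T4 n) :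
    LL hn β τ R = gk hn β 0 0 0 (pullT (linv β R) τ.2.1) (pullT 0 τ.2.1) τ.1 := rfl

theorem pullT_zero (P : Mat n) : pullT (0 : T4 n) P = 0 := by
  simpa using pullT_smul 0 (0 : T4 n) P

theorem LL_one (hn : 5 ≤ n) (β : ℝ) (P : Orth n) (R : T4 n) :
    LL hn β (1, P) R = c3 β (ix hn 0) (ix hn 1) (pullT (linv β R) P.1) := by
  simp [LL_apply, gk]

theorem LL_three (hn : 5 ≤ n) (β : ℝ) (P : Orth n) (R : T4 n) :
    LL hn β (3, P) R = rq (pullT (linv β R) P.1) (wedge (z0 hn) (w0 hn)) := by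
  simp [LL_apply, gk, pullT_zero]

theorem asymP_of_am (hn : 5 ≤ n) (h : AM T W (Cone (Om n) (FF hn (bOne n) 0 0))) :
    AsymP T W G1 := by
  have : CompactSpace (Orth n) := isCompact_iff_compactSpace.1 isCompact_orth
  have hb : 0 ≤ bOne n := by rw [bOne]; positivity
  obtain ⟨ι, h1, h3⟩ : ∃ ι : Fin 2 → Fin 6, ι 0 = 1 ∧ ι 1 = 3 := ⟨![1, 3], rfl, rfl⟩
  have h4 := la_of_am (Y := ℝ) (l := fun τ : Fin 2 × Orth n =>
      (LL hn (bOne n) (ι τ.1, τ.2)).comp (LinearMap.fst ℝ (T4 n) ℝ))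
    (fun x => by
      have hc : Continuous fun τ : Fin 2 × Orth n => ((ι τ.1, τ.2.1, 0) : Ix n) :=
        ((continuous_of_discreteTopology.comp continuous_fst).prodMk
          ((continuous_subtype_val.comp continuous_snd).prodMk continuous_const))
      have h5 := cont_FF hn 0 0 (continuous_const (y := bOne n)) hc x.1 0
      simpa only [abs_of_nonneg hb, LinearMap.comp_apply, LinearMap.fst_apply, LL_apply] using h5)
    (h.mono (by
      rintro R ⟨y, hy⟩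
      obtain ⟨φ, hφ⟩ := unitBiv_nonempty hn
      have H := all_iff0.1 hy
      refine ⟨0, ?_⟩
      rintro ⟨j, P⟩
      rw [LinearMap.comp_apply, LinearMap.fst_apply]
      have b1 := H 1 P.1 P.2 φ hφ
      have b2 := H 3 P.1 P.2 φ hφ
      have b3 := rq_nonneg (opNonneg_pullT H.nn P.1) (z0 hn) (w0 hn)
      simp [ck, gk, rq_sub] at b1 b2
      fin_cases j
      · simpa [h1, LL_one] using b1
      · simpa [h3, LL_three] using b3.trans b2))
  refine ⟨Fin 2 × Orth n, fun τ => LL hn (bOne n) (ι τ.1, τ.2),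
    fun ε hε => (h4 ε hε).imp fun c hc t ht R hR τ => ?_, fun R _ hR => ⟨?_, ?_⟩⟩
  · obtain ⟨y, hy⟩ := hc t ht R hR
    simpa only [LinearMap.comp_apply, LinearMap.fst_apply] using hy τ
  · exact picw_of_frames hn fun P hP => by simpa only [h3, LL_three] using hR (1, ⟨P, hP⟩)
  · intro z hz
    have h2 := iso3 (hn := hn) (β := bOne n) (h := 0) (S := linv (bOne n) R)
      (fun P hP => by simpa only [h1, LL_one, neg_zero] using hR (0, ⟨P, hP⟩)) hz
    simpa only [zero_div, add_zero] using h2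

end St1

open St1 in
theorem stage1 (hW : CurvFlow n T W) (hn : 5 ≤ n) (hn8 : n ≤ 8)
    (h0 : ∀ R ∈ W 0, ∀ e, ON4 e → 0 < iso4 R e) : AsymP T W G1 := by
  refine asymP_of_am hn ?_
  by_cases hT : 0 < T
  swap
  · exact fun ε _ => ⟨0, fun t ht => absurd (ht.1.trans_lt ht.2) hT⟩
  obtain ⟨δ, hδ, hsc⟩ := hW.scal_lower fun R hR =>
    scal_pos_of_pic (by omega) (hW.curv 0 ⟨le_rfl, hT⟩ R hR) (h0 R hR)
  obtain ⟨β, hβ, hβ1, h⟩ := stage0 hW hn hn8 h0 hT hδ hsc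
  exact stage1' hW hn hn8 (fun t ht R hR => (hδ.trans (hsc t ht R hR)).le) hβ hβ1 h

end

end Pool.Agent.Work.MP_3a9764_gt
end

-- merged part: Pool.Agent.Work.MP_3a9764_gt.N8C3
section
/-! The start of the path in dimension eight: averaged test bivectors. -/

set_option autoImplicit false

open Filter Set Matrix Complex
open scoped Topology ComplexConjugate

namespace Pool.Agent.Work.MP_3a9764_gt

noncomputable section

variable {N : ℕ}

theorem c3_avg {E : Type} [AddCommGroup E] [Module ℂ E] {φ : E → ℝ}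
    (h1 : ∀ u v, φ (u + v) + φ (u - v) = 2 * φ u + 2 * φ v) (h2 : ∀ v, φ (I • v) = φ v)
    {T U V : E} (h : ∀ ω ω' : ℂ, ω * ω' = 1 → 0 ≤ φ (T + (ω' • U + ω • V))) :
    0 ≤ φ T + φ U + φ V := by
  have k1 := h 1 1 (by simp)
  have k2 := h (-1) (-1) (by simp)
  have k3 := h I (-I) (by simp)
  have k4 := h (-I) I (by simp)
  rw [show (1 : ℂ) • U + (1 : ℂ) • V = V + U by module] at k1
  rw [show T + ((-1 : ℂ) • U + (-1 : ℂ) • V) = T - (V + U) by module] at k2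
  rw [show -I • U + I • V = I • (V - U) by module] at k3
  rw [show T + (I • U + -I • V) = T - I • (V - U) by module] at k4
  linarith only [k1, k2, k3, k4, h1, h2, h1 T (V + U), h1 T (I • (V - U)), h2 (V - U), h1 V U]

theorem c3_exp {S : T4 N} (hS : IsOp S) (u v : CMat N) (s t : ℝ) :
    rq S ((s : ℂ) • u + (t : ℂ) • v) =
      s ^ 2 * rq S u + t ^ 2 * rq S v + s * t * ((cq S u v).re / 2) := by
  rw [s3_rq_add hS, rq_smul_right, rq_smul_right, cq_smul_left, cq_smul_right, conj_ofReal,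
    re_ofReal_mul, re_ofReal_mul, normSq_ofReal, normSq_ofReal]
  ring

theorem c3_sq {S : T4 8} (hT : Pos 4 (fun _ _ => True) S) {w : CMat 8} (hw : wᵀ = -w)
    (h0 : w * w = 0) : 0 ≤ rq S w := by
  obtain ⟨Z, k1, k2, k3⟩ := sqzero_xs (r := 4) (by norm_num) (by norm_num) hw h0
  exact hT Z w k1 k2 k3

theorem c3_two {S : T4 8} (hT : Pos 4 (fun _ _ => True) S) {a b x y : Fin 8 → ℂ}
    (aa : a ⬝ᵥ a = 0) (ab : a ⬝ᵥ b = 0) (bb : b ⬝ᵥ b = 0) (xa : x ⬝ᵥ a = 0) (xb : x ⬝ᵥ b = 0)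
    (ya : y ⬝ᵥ a = 0) (yb : y ⬝ᵥ b = 0) (xx : x ⬝ᵥ x = 0) (xy : x ⬝ᵥ y = 0) (yy : y ⬝ᵥ y = 0) :
    0 ≤ rq S (wedge a x + wedge b y) := by
  refine c3_sq hT (by rw [transpose_add, wedge_skew, wedge_skew, neg_add]) ?_
  simp only [wedge, add_mul, mul_add, sub_mul, mul_sub, vecMulVec_mul_vecMulVec, aa, ab, bb, xa, xb,
    ya, yb, xx, xy, yy, dotProduct_comm a x, dotProduct_comm b x, dotProduct_comm a y,
    dotProduct_comm b y, dotProduct_comm b a, dotProduct_comm y x, zero_smul, vecMulVec_zero,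
    add_zero, sub_zero]

/-- The bivector in normal form. -/
def c3w (a b c d : Fin N → ℂ) (p q ξ μ : ℝ) : CMat N :=
  wedge a ((p : ℂ) • d + (q : ℂ) • star d + (ξ : ℂ) • b) + (μ : ℂ) • wedge b c

section

variable {S : T4 8} (hS : IsOp S) (hT : Pos 4 (fun _ _ => True) S) {a b c d : Fin 8 → ℂ}
  (hF : Fr4 a b c d)
include hS hT hF

theorem c3_T (x s κ ξ μ : ℝ) :
    0 ≤ rq S (c3w a b c d x (s * κ) ξ μ) + s ^ 2 * rq S (wedge a c) +
      κ ^ 2 * rq S (((-x : ℝ) : ℂ) • wedge a (star c) + (μ : ℂ) • wedge b (star d)) := by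
  have e1 : star c ⬝ᵥ star d = 0 := by rw [star_dotProduct_star, hF.dc, star_zero]
  have e2 : star d ⬝ᵥ star c = 0 := by rw [star_dotProduct_star, hF.cd, star_zero]
  have e3 : star c ⬝ᵥ star c = 0 := by rw [star_dotProduct_star, hF.cc, star_zero]
  have e4 : star d ⬝ᵥ star d = 0 := by rw [star_dotProduct_star, hF.dd, star_zero]
  have h := c3_avg (s3_rq_par hS) (fun v => by rw [rq_smul_right, normSq_I, one_mul])
    (T := c3w a b c d x (s * κ) ξ μ) (U := (s : ℂ) • wedge a c)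
    (V := (κ : ℂ) • (((-x : ℝ) : ℂ) • wedge a (star c) + (μ : ℂ) • wedge b (star d)))
    fun ω ω' hω => by
      have k := c3_two hT (x := (x : ℂ) • (d - (κ * ω) • star c) +
        (s * ω') • (c + (κ * ω) • star d) + (ξ : ℂ) • b) (y := (μ : ℂ) • (c + (κ * ω) • star d))
        hF.aa hF.ab hF.bb ?_ ?_ ?_ ?_ ?_ ?_ ?_
      · refine k.trans_eq (congrArg _ ?_)
        ext i j
        simp only [c3w, wedge, vecMulVec_apply, Matrix.add_apply, Matrix.sub_apply,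
          Matrix.smul_apply, Pi.add_apply, Pi.sub_apply, Pi.smul_apply, smul_eq_mul, ofReal_mul,
          ofReal_neg]
        linear_combination (s * κ * (a i * star d j - star d i * a j)) * hω
      all_goals
        simp only [add_dotProduct, dotProduct_add, sub_dotProduct, dotProduct_sub, smul_dotProduct,
          dotProduct_smul, smul_eq_mul, dotProduct_comm b (star _), dotProduct_comm c (star _),
          dotProduct_comm d (star _), e1, e2, e3, e4, hF.ba, hF.ca, hF.da, hF.bb, hF.bc, hF.bd,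
          hF.cb, hF.cc, hF.cd, hF.db, hF.dc, hF.dd, hF.sca, hF.sda, hF.scb, hF.sdb, hF.scc, hF.scd,
          hF.sdc, hF.sdd]
        ring
  rwa [rq_smul_right, rq_smul_right, normSq_ofReal, normSq_ofReal, ← sq, ← sq] at h

theorem c3_T' {K ε : ℝ} (hK : 0 < K) (hε : 0 < ε) (x y ξ μ : ℝ) :
    0 ≤ rq S (c3w a b c d x y ξ μ) + y ^ 2 / K * rq S (wedge a c) +
      K * ((1 + ε) * x ^ 2 * rq S (wedge a (star c)) +
        (1 + 1 / ε) * μ ^ 2 * rq S (wedge b (star d))) := by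
  have h1 := c3_T hS hT hF x (y / √K) (√K) ξ μ
  rw [div_mul_cancel₀ _ (Real.sqrt_pos.2 hK).ne', div_pow, Real.sq_sqrt hK.le, c3_exp hS] at h1
  have h2 := c3_two hT (x := ((ε * x : ℝ) : ℂ) • star c) (y := (μ : ℂ) • star d) hF.aa hF.ab hF.bb
    (by simp [hF.sca]) (by simp [hF.scb]) (by simp [hF.sda]) (by simp [hF.sdb])
    (by simp [star_dotProduct_star, hF.cc]) (by simp [star_dotProduct_star, hF.dc])
    (by simp [star_dotProduct_star, hF.dd])
  rw [c3_wedge_smul, c3_wedge_smul, c3_exp hS] at h2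
  have h3 := mul_nonneg (div_nonneg hK.le hε.le) h2
  refine (add_nonneg h1 h3).trans_eq ?_
  field_simp
  ring

theorem c3_mix (hP : PICw S) {k ε p q : ℝ} (hk : 0 < k) (hε : 0 < ε) (hp : 0 < p) (hq : 0 < q)
    (ξ μ : ℝ) :
    0 ≤ rq S (c3w a b c d p q ξ μ) + p * q * (49 / 100 * rq S (wedge a (d - star d)) +
      9 / 100 / k * rq S (wedge a c) + 149 / 50 * k * (1 + ε) * rq S (wedge a (star c))) +
      μ ^ 2 * (k / 2 * (1 + 1 / ε) * (rq S (wedge b d) + rq S (wedge b (star d)))) := by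
  have hν : 0 < p + q := by positivity
  have hA := c3_T' hS hT hF (K := 2 * k * q / (p + q)) (by positivity) hε (p + 7 / 10 * q)
    (3 / 10 * q) ξ μ
  have hB := c3_T' hS hT hF.flip (K := 2 * k * p / (p + q)) (by positivity) hε (q + 7 / 10 * p)
    (3 / 10 * p) ξ μ
  have eA : c3w a b c d (p + 7 / 10 * q) (3 / 10 * q) ξ μ = ((1 : ℝ) : ℂ) • c3w a b c d p q ξ μ +
      ((7 / 10 * q : ℝ) : ℂ) • wedge a (d - star d) := by
    ext i j
    simp only [c3w, wedge, vecMulVec_apply, Matrix.add_apply, Matrix.sub_apply, Matrix.smul_apply,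
      Pi.add_apply, Pi.sub_apply, Pi.smul_apply, smul_eq_mul]
    push_cast
    ring
  have eB : c3w a b c (star d) (q + 7 / 10 * p) (3 / 10 * p) ξ μ =
      ((1 : ℝ) : ℂ) • c3w a b c d p q ξ μ + ((-(7 / 10 * p) : ℝ) : ℂ) • wedge a (d - star d) := by
    ext i j
    simp only [c3w, wedge, vecMulVec_apply, Matrix.add_apply, Matrix.sub_apply, Matrix.smul_apply,
      Pi.add_apply, Pi.sub_apply, Pi.smul_apply, smul_eq_mul, star_star]
    push_cast
    ring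
  rw [eA, c3_exp hS] at hA
  rw [eB, c3_exp hS, star_star] at hB
  have u2 : 0 ≤ rq S (wedge a (star c)) := hP _ _ hF.aa (by rw [dotProduct_comm, hF.sca])
    (by rw [star_dotProduct_star, hF.cc, star_zero])
  have v1 : 0 ≤ rq S (wedge b d) := hP _ _ hF.bb hF.bd hF.dd
  have v2 : 0 ≤ rq S (wedge b (star d)) := hP _ _ hF.bb hF.flip.bd hF.flip.dd
  have h1 := add_nonneg (mul_nonneg hp.le hA) (mul_nonneg hq.le hB)
  have h2 : 0 ≤ k * p * q / (p + q) * (1 + ε) * (9 / 25 * p * q) * rq S (wedge a (star c)) :=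
    mul_nonneg (by positivity) u2
  have h3 : 0 ≤ k / 2 / (p + q) * (1 + 1 / ε) * μ ^ 2 * (p - q) ^ 2 *
      (rq S (wedge b d) + rq S (wedge b (star d))) :=
    mul_nonneg (by positivity) (add_nonneg v1 v2)
  refine nonneg_of_mul_nonneg_right ((add_nonneg (add_nonneg h1 h2) h3).trans_eq ?_) hν
  field_simp
  ring

end

theorem c3_hf_par (A : Mat N) (u v : Fin N → ℂ) :
    (hf A (u + v) (u + v)).re + (hf A (u - v) (u - v)).re =
      2 * (hf A u u).re + 2 * (hf A v v).re := by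
  have h : hf A (u + v) (u + v) + hf A (u - v) (u - v) = 2 * hf A u u + 2 * hf A v v := by
    simp only [hf, Pi.add_apply, Pi.sub_apply, map_add, map_sub, Finset.mul_sum,
      ← Finset.sum_add_distrib]
    exact Finset.sum_congr rfl fun i _ => Finset.sum_congr rfl fun j _ => by ring
  simpa using congrArg re h

theorem c3_hf_star (A : Mat N) (z : Fin N → ℂ) : (hf A (star z) (star z)).re = (hf A z z).re := by
  have h1 : hf A (star z) (star z) = conj (hf A z z) := by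
    simp only [hf, map_sum, map_mul, conj_ofReal, Pi.star_apply, star_def]
  rw [h1, conj_re]

section

variable {a b c d : Fin N → ℂ} (hF : Fr4 a b c d) (p q ξ μ : ℝ)
include hF

theorem c3_nv : nv ((p : ℂ) • d + (q : ℂ) • star d + (ξ : ℂ) • b) = p ^ 2 + q ^ 2 + ξ ^ 2 := by
  apply ofReal_injective
  rw [← s3_nv_eq]
  simp only [star_add, star_smul, star_star, star_def, conj_ofReal, add_dotProduct, dotProduct_add,
    smul_dotProduct, dotProduct_smul, smul_eq_mul, hF.sdd, hF.dd, hF.sbd, hF.sdb, hF.db, hF.sbb,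
    star_dotProduct_star, star_zero, dotProduct_comm d (star d)]
  push_cast
  ring

theorem c3_kn_eq {B : Mat N} (hB : B.IsSymm) {x : Fin N → ℂ}
    (hx : x = (p : ℂ) • d + (q : ℂ) • star d + (ξ : ℂ) • b) :
    rq (kn B 1) (c3w a b c d p q ξ μ) = (p ^ 2 + q ^ 2) * (hf B a a).re + μ ^ 2 * (hf B b b).re +
      (hf B ((μ : ℂ) • c - (ξ : ℂ) • a) ((μ : ℂ) • c - (ξ : ℂ) • a)).re + (hf B x x).re := by
  have hO := (isCurv_kn hB isSymm_one).isOp
  have e1 : hf 1 a x = 0 := by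
    rw [s3_hf_one, hx]
    simp [hF.sda, hF.da, hF.sba]
  have e2 : hf 1 b ((μ : ℂ) • c) = 0 := by
    rw [s3_hf_one]
    simp [hF.scb]
  have e3 : hf 1 x ((μ : ℂ) • c) = 0 := by
    rw [s3_hf_one, hx]
    simp [hF.scd, hF.scb, star_dotProduct_star, hF.dc]
  have e4 : hf 1 x b = ξ := by
    rw [s3_hf_one, hx]
    simp [hF.sbd, hF.sbb, star_dotProduct_star, hF.db]
  have e5 : hf 1 a ((μ : ℂ) • c) = 0 := by
    rw [s3_hf_one]
    simp [hF.sca]
  have e6 : hf 1 a b = 0 := by rw [s3_hf_one, hF.sba]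
  have e7 : hf B ((μ : ℂ) • c - (ξ : ℂ) • a) ((μ : ℂ) • c - (ξ : ℂ) • a) =
      hf B ((μ : ℂ) • c) ((μ : ℂ) • c) - ξ * hf B a ((μ : ℂ) • c) - ξ * hf B ((μ : ℂ) • c) a +
        ξ ^ 2 * hf B a a := by
    simp only [hf, Pi.sub_apply, Pi.smul_apply, smul_eq_mul, map_sub, map_mul, conj_ofReal,
      Finset.mul_sum, ← Finset.sum_add_distrib, ← Finset.sum_sub_distrib]
    exact Finset.sum_congr rfl fun i _ => Finset.sum_congr rfl fun j _ => by ring
  rw [c3w, ← hx, ← c3_wedge_smul, s3_rq_add hO, S2.rq_kn_one hB e1, S2.rq_kn_one hB e2, cq_wedge hO,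
    cq_kn_vec, e3, e4, e5, e6, e7, S2.hf_symm hB a ((μ : ℂ) • c), hx, c3_nv hF, s3_nv_smul, s3_nv_one hF.saa,
    s3_nv_one hF.sbb, s3_nv_one hF.scc, normSq_ofReal, ← ofReal_pow]
  simp only [mul_re, sub_re, add_re, ofReal_re, ofReal_im, re_ofNat, im_ofNat, conj_re, zero_re,
    mul_zero, sub_zero, zero_mul]
  ring

theorem c3_Id : rq (Id4 N) (c3w a b c d p q ξ μ) = p ^ 2 + q ^ 2 + ξ ^ 2 + μ ^ 2 := by
  have h := c3_kn_eq hF p q ξ μ isSymm_one rfl
  have e : nv ((μ : ℂ) • c - (ξ : ℂ) • a) = μ ^ 2 + ξ ^ 2 := by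
    apply ofReal_injective
    rw [← s3_nv_eq]
    simp only [star_sub, star_smul, star_def, conj_ofReal, sub_dotProduct, dotProduct_sub,
      smul_dotProduct, dotProduct_smul, smul_eq_mul, hF.scc, hF.sac, hF.sca, hF.saa]
    push_cast
    ring
  simp only [kn_one_one, rq_smul, S2.hf_one_self, ofReal_re, c3_nv hF, e, s3_nv_one hF.saa,
    s3_nv_one hF.sbb] at h
  linarith only [h]

theorem c3_kn {B : Mat N} (hB : B.IsSymm) (h : ∀ z, z ⬝ᵥ z = 0 → 0 ≤ (hf B z z).re) :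
    μ ^ 2 * (hf B b b).re ≤ rq (kn B 1) (c3w a b c d p q ξ μ) := by
  have h1 := h ((μ : ℂ) • c - (ξ : ℂ) • a) (by simp [hF.cc, hF.ca, hF.ac, hF.aa])
  have h2 := c3_avg (φ := fun z => (hf B z z).re) (c3_hf_par B)
    (fun v => by simp only [S2.hf_smul_self, normSq_I, ofReal_one, one_mul])
    (T := (p : ℂ) • d + (q : ℂ) • star d + (ξ : ℂ) • b) (U := (p : ℂ) • a)
    (V := ((-q : ℝ) : ℂ) • star a) fun ω ω' hω => h _ (by
      simp only [add_dotProduct, dotProduct_add, smul_dotProduct, dotProduct_smul, smul_eq_mul,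
        dotProduct_comm a (star _), dotProduct_comm b (star _), dotProduct_comm d (star _),
        star_dotProduct_star, star_zero, hF.aa, hF.ab, hF.ad, hF.ba, hF.bb, hF.bd, hF.da, hF.db,
        hF.dd, hF.saa, hF.sab, hF.sad, hF.sda, hF.sdb, hF.sdd, ofReal_neg]
      linear_combination (-2 * p * q) * hω)
  simp only [S2.hf_smul_self, normSq_ofReal, re_ofReal_mul, c3_hf_star] at h2
  rw [c3_kn_eq hF p q ξ μ hB rfl]
  linarith only [h1, h2]

end

theorem n8_C3 {R : T4 8} (hR : IsCurv R) (hG : Gb (1 / 8) (1 / 32) R) (hP : PIC2w R)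
    (hT : Pos 4 (fun _ _ => True) (linv (1 / 8) R)) : ExtN (1 / 29) (8 / 29) R := by
  intro w v h
  obtain ⟨S, hS⟩ : ∃ S, S = linv (1 / 8) R := ⟨_, rfl⟩
  have e1 : lb R = 109 / 32 * lb S := by
    rw [lb_linv (by norm_num) (by norm_num : (0 : ℝ) ≤ 1 / 8) R, hS, aa]; norm_num
  have e2 : ric0 R = (7 / 4 : ℝ) • ric0 S := by
    rw [ric0_linv (by norm_num) (by norm_num : (0 : ℝ) ≤ 1 / 8) R, hS]; norm_num
  have e3 : lb R = 1289 / 841 * lb (linv (1 / 29) R) := by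
    rw [lb_linv (by norm_num) (by norm_num : (0 : ℝ) ≤ 1 / 29) R, aa]; norm_num
  have e4 : ric0 R = (35 / 29 : ℝ) • ric0 (linv (1 / 29) R) := by
    rw [ric0_linv (by norm_num) (by norm_num : (0 : ℝ) ≤ 1 / 29) R]; norm_num
  have e5 : R = S + (11 / 32 * lb S) • Id4 8 + (1 / 8 : ℝ) • kn (ric0 S) 1 := by
    have k : S = linv (1 / 8) R := hS
    rw [linv, e1, e2, kn_smul_left, aa] at k
    rw [← sub_eq_zero]
    nth_rewrite 1 [k]
    norm_num
    module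
  have hC : IsCurv S := hS ▸ isCurv_linv hR _
  rw [← hS] at hT
  obtain ⟨hG1, hG2⟩ := hG
  rw [← hS] at hG1 hG2
  have hl : 0 ≤ lb S := div_nonneg (hG1.scal_ge (by norm_num) hC) (by norm_num)
  obtain ⟨B, hB⟩ : ∃ B : Mat 8, B = ric4 S + (1 / 32 * lb S) • 1 := ⟨_, rfl⟩
  have b1 : B.IsSymm := hB ▸ (ric4_isSymm hC).add (isSymm_one.smul _)
  have b2 : ∀ z, (hf B z z).re = (hf (ric4 S) z z).re + 1 / 32 * lb S * nv z := fun z => by
    rw [hB, S2.hf_add, S2.hf_smul, S2.hf_one_self, add_re, ← ofReal_mul, ofReal_re]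
  have b3 : ∀ z, z ⬝ᵥ z = 0 → 0 ≤ (hf B z z).re := fun z hz => b2 z ▸ hG2 z hz
  have b4 : ric0 S = B - (33 / 32 * lb S) • 1 := by rw [hB, ric0]; module
  have f1 : rq (linv (1 / 29) R) w = rq S w + 3 / 40 * rq (kn B 1) w +
      (11 / 32 - 218 / 1289 - 99 / 640) * lb S * rq (Id4 8) w := by
    have k : linv (1 / 29) R = S + (3 / 40 : ℝ) • kn B 1 +
        ((11 / 32 - 218 / 1289 - 99 / 640) * lb S) • Id4 8 := by
      rw [linv, e1, e2, kn_smul_left, aa]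
      nth_rewrite 1 [e5]
      rw [b4, kn_sub_left, kn_smul_left, kn_one_one]
      norm_num
      module
    rw [k, rq_add, rq_add, rq_smul, rq_smul]
  have f2 : (hf (ric4 (linv (1 / 29) R)) v v).re =
      29 / 20 * (hf (ric4 S) v v).re + (91669 / 41248 - 29 / 20) * lb S * nv v := by
    have k1 := s3_hf_ric0 (linv (1 / 29) R) v
    have k2 := s3_hf_ric0 S v
    have k3 := congrArg (fun A => (hf A v v).re) (e2.symm.trans e4)
    simp only [S2.hf_smul, re_ofReal_mul] at k3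
    have k4 : lb (linv (1 / 29) R) = 91669 / 41248 * lb S := by linarith only [e1, e3]
    rw [k4] at k1
    linarith only [k1, k2, k3]
  rw [f1, f2]
  rcases eq_or_ne v 0 with rfl | hv
  · have h0 : w * w = 0 := by rw [h.2.1, vecMulVec_zero]
    have k1 := c3_sq hT h.1 h0
    have k2 : 0 ≤ rq (kn B 1) w := by
      rw [N8D.rq_kn_skew _ h.1]
      refine Finset.sum_nonneg fun j _ => b3 _ ?_
      have k6 : wᵀ * w = 0 := by rw [h.1, Matrix.neg_mul, h0, neg_zero]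
      exact congrFun (congrFun k6 j) j
    have k3 : 0 ≤ lb S * rq (Id4 8) w :=
      mul_nonneg hl (by rw [rq_Id4 h.1]; exact div_nonneg (nsq_nonneg _) zero_le_two)
    simp only [hf, nv, Pi.zero_apply, mul_zero, Finset.sum_const_zero, zero_re, map_zero]
    linarith only [k1, k2, k3]
  obtain ⟨a, b, c, d, p, q, ξ, μ, γ, hF, hp, hq, -, -, hw, rfl, hγ⟩ := n8_nf' h hv
  have hpq : 0 < p * q := by
    have : 0 < normSq γ := normSq_pos.2 fun k => hv (by rw [k, zero_smul])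
    linarith only [hγ, this]
  have hp' : 0 < p := hp.lt_of_ne fun k => by simp [← k] at hpq
  have hq' : 0 < q := hq.lt_of_ne fun k => by simp [← k] at hpq
  have hQ : PIC2w (S + (3 / 32 * lb S) • Id4 8 + (1 / 8 : ℝ) • kn (ric4 S) 1) := by
    have k : S + (3 / 32 * lb S) • Id4 8 + (1 / 8 : ℝ) • kn (ric4 S) 1 = R := by
      rw [e5, ric4_eq S, kn_add_left, kn_smul_left, kn_one_one]
      module
    rwa [k]
  obtain ⟨l1, l2, l3, l4⟩ := c3_four hC hG1 hQ hF rfl rfl rfl rfl rfl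
  have m1 := c3_mix hC.isOp hT hF hG1 (k := 1 / 8) (ε := 1) (by norm_num) (by norm_num) hp' hq' ξ μ
  have m2 := c3_mix hC.isOp hT hF hG1 (k := 9 / 100) (ε := 5 / 2) (by norm_num) (by norm_num) hp' hq'
    ξ μ
  have m3 := c3_kn hF p q ξ μ b1 b3
  have u1 := mul_nonneg hpq.le (hG1 _ _ hF.aa hF.ac hF.cc)
  have u2 := mul_nonneg hpq.le (hG1 a (star c) hF.aa (by rw [dotProduct_comm, hF.sca])
    (by rw [star_dotProduct_star, hF.cc, star_zero]))
  rw [b2, s3_nv_one hF.sbb] at m3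
  rw [show w = c3w a b c d p q ξ μ from hw, c3_Id hF, S2.hf_smul_self, re_ofReal_mul, s3_nv_smul,
    s3_nv_one hF.saa, hγ]
  have n1 := mul_nonneg hl (sq_nonneg (p - q))
  have n2 := mul_nonneg hl (sq_nonneg ξ)
  have n3 := mul_nonneg hl (sq_nonneg μ)
  have n4 := mul_nonneg hl hpq.le
  rcases le_total (μ ^ 2) (4 * (p * q)) with hc | hc
  · have t1 := mul_le_mul_of_nonneg_left l1 (sub_nonneg.2 hc)
    have t2 := mul_le_mul_of_nonneg_left l2 (sq_nonneg μ)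
    linarith only [m1, m3, u1, n1, n2, n3, n4, t1, t2]
  · have t1 := mul_le_mul_of_nonneg_left l3 hpq.le
    have t2 := mul_le_mul_of_nonneg_left l4 (sub_nonneg.2 hc)
    linarith only [m2, m3, u2, n1, n2, n3, n4, t1, t2]

end

end Pool.Agent.Work.MP_3a9764_gt
end

-- merged part: Pool.Agent.Work.MP_3a9764_gt.Final
section
-- merged part: Pool.Agent.Work.MP_3a9764_gt.St4
section
/-! The non-invariant steps of stage 4 are in the files `S4a` to `S4d`. -/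
end

-- merged part: Pool.Agent.Work.MP_3a9764_gt.AMain
section
/-! Assembly of the algebraic part. -/

set_option autoImplicit false

open Filter Set Matrix
open scoped Topology ComplexConjugate

namespace Pool.Agent.Work.MP_3a9764_gt

noncomputable section

variable {n N : ℕ} {T : ℝ} {W : ℝ → Set (T4 n)}

theorem asymP_pic2 (hW : CurvFlow n T W) (hn : 5 ≤ n) (hn8 : n ≤ 8)
    (h0 : ∀ R ∈ W 0, ∀ e, ON4 e → 0 < iso4 R e) : AsymP T W PIC2w :=
  have h1 := stage1 hW hn hn8 h0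
  stage3 hW hn hn8 (h1.and (stage2 hW hn hn8 h1))

theorem pinched_of_pic (hW : CurvFlow n T W) (hn : 5 ≤ n) (hn7 : n ≤ 7)
    (h0 : ∀ R ∈ W 0, ∀ e, ON4 e → 0 < iso4 R e) : Pinched T W := by
  have h2 := asymP_pic2 hW hn (by omega) h0
  have s1 := stage_S1 hW hn hn7 h2
  have s2 := stage_S2 hW hn hn7 (h2.and s1)
  have s3 := stage_S3 hW hn hn7 (h2.and s2)
  have s4 := stage_S4 hW hn hn7 (h2.and s3)
  have s5 := stage_S5 hW hn hn7 (h2.and s4)
  have s6 := stage_S6 hW hn hn7 (h2.and s5)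
  have s7 := stage_S7 hW hn hn7 (h2.and s6)
  exact (s7.mono fun R hR h => opNonneg_of_pos hn7 hR h).pinched hW

end

end Pool.Agent.Work.MP_3a9764_gt
end

-- merged part: Pool.Agent.Work.MP_3a9764_gt.N8C
section
/-! The start of the path in dimension eight. -/

set_option autoImplicit false

open Filter Set Matrix
open scoped Topology ComplexConjugate

namespace Pool.Agent.Work.MP_3a9764_gt

noncomputable section

theorem n8_C {R : T4 8} (hR : IsCurv R) (hG : Gb (1 / 8) (1 / 32) R) (hP : PIC2w R)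
    (hT : Pos 4 (fun _ _ => True) (linv (1 / 8) R)) : ExtN (1 / 29) (8 / 29) R :=
  n8_C3 hR hG hP hT

end

end Pool.Agent.Work.MP_3a9764_gt
end

-- merged part: Pool.Agent.Work.MP_3a9764_gt.N8T2
section
/-! The steps of type `[3, 3, 1, 1]` and `[5, 3]`. -/

set_option autoImplicit false

open Filter Set Matrix
open scoped Topology ComplexConjugate

namespace Pool.Agent.Work.MP_3a9764_gt

noncomputable section

variable {N : ℕ} {T : ℝ} {W : ℝ → Set (T4 8)}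

theorem n8_T2 (hW : CurvFlow 8 T W) (h : AsymP T W fun R => H8 R ∧ L4 R) :
    AsymP T W (Pos 2 fun _ _ => True) := by
  refine pen8 hW (r := 2) (k := 2) le_rfl (.inr ⟨le_rfl, le_rfl⟩) _
    (fun Z U w _ => s4_hU_true Z U w) (fun _ j _ _ => j.2) (fun Z w h0 h1 hw => ?_)
    (h.mono fun _ _ h => ⟨h.1.1, h.1.2, h.2⟩) (β := 16)
    fun S M hS h2 h4 hM0 hM _ Z w h0 h1 hw => ?_
  · obtain ⟨C, rfl, hC⟩ := hw
    exact ⟨_, s4_sq h0 (Matrix.ext fun i j => hC i j trivial)⟩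
  obtain ⟨C, rfl, hC⟩ := hw
  obtain ⟨f0, f1⟩ := (fr_iff Z).1 ⟨h0, h1⟩
  have k := s4_two' hS.isOp h2 h4 hM0 hM (x := Cᵀ 0) (y := Cᵀ 1) (f0 0 0) (f0 0 1)
    (f0 1 1) (f1 0 0) (f1 0 1) (f1 1 1) (hC 0 0 trivial) (hC 0 1 trivial) (hC 1 0 trivial)
    (hC 1 1 trivial)
  rw [penK, s4_cols, s4_sq h0 (Matrix.ext fun i j => hC i j trivial), Matrix.mul_assoc,
    Matrix.mul_assoc, unit_conj h1, Matrix.mul_one, ← Matrix.mul_assoc, h1, Matrix.one_mul,
    det_fin_two, s3_sum, Fin.sum_univ_two]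
  simp only [Matrix.neg_apply, neg_mul_neg]
  rw [show (Cᵀ * C) 1 0 = Cᵀ 0 ⬝ᵥ Cᵀ 1 from dotProduct_comm _ _,
    show (2 : ℝ) / ((2 : ℕ) * (2 : ℕ)) = 1 / 2 by norm_num]
  exact k

section

variable {S : T4 N} {a b c d x y u : Fin N → ℂ}

theorem t4_L (h : Pos 4 pat3 S) (hF : Fr4 a b c d) (xa : x ⬝ᵥ a = 0) (xb : x ⬝ᵥ b = 0)
    (ya : y ⬝ᵥ a = 0) (yb : y ⬝ᵥ b = 0) (ua : u ⬝ᵥ a = 0) (ub : u ⬝ᵥ b = 0) (uc : u ⬝ᵥ c = 0)
    (ud : u ⬝ᵥ d = 0) : 0 ≤ rq S (wedge a x + wedge b y + wedge c u) := by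
  have k := s3_pos h hF.fr (x := ![x, y, u, 0]) fun i j hij => by
    fin_cases i <;> fin_cases j <;> simp [pat3, *] at hij ⊢
  have e : wedge d 0 = 0 := by simp [wedge]
  rw [Fin.sum_univ_four] at k
  change 0 ≤ rq S (wedge a x + wedge b y + wedge c u + wedge d 0) at k
  rwa [e, add_zero] at k

theorem t4_top (h : Pos 4 pat3 S) (hF : Fr4 a b c d) (xa : x ⬝ᵥ a = 0) (xb : x ⬝ᵥ b = 0)
    (xc : x ⬝ᵥ c = 0) (ya : y ⬝ᵥ a = 0) (yb : y ⬝ᵥ b = 0) (yc : y ⬝ᵥ c = 0) (ua : u ⬝ᵥ a = 0)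
    (ub : u ⬝ᵥ b = 0) (uc : u ⬝ᵥ c = 0) : 0 ≤ rq S (wedge a x + wedge b y + wedge c u) := by
  obtain ⟨α, β, k1, k2⟩ := s3_perp2 (u ⬝ᵥ d) (-(y ⬝ᵥ d))
  have k := t4_L h (hF.rot12 k1) (y := conj α • y + conj β • u) (u := -β • y + α • u) xa
    (by simp [*]) (by simp [*]) (by simp [*]) (by simp [*]) (by simp [*]) (by simp [*]) (by
      simp only [add_dotProduct, smul_dotProduct, smul_eq_mul]
      linear_combination k2)
  rwa [add_assoc, s3_rot b c y u k1, ← add_assoc] at k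

theorem t4_th (hS : IsOp S) {M : ℝ} (hM0 : 0 ≤ M) (hM : ∀ v, rq S v ≤ M * nsq v)
    (h : Pos 4 pat3 S) (hF : Fr4 a b c d) (xa : x ⬝ᵥ a = 0) (xb : x ⬝ᵥ b = 0)
    (ya : y ⬝ᵥ a = 0) (yb : y ⬝ᵥ b = 0) (yc : y ⬝ᵥ c = 0) (ua : u ⬝ᵥ a = 0) (ub : u ⬝ᵥ b = 0)
    (uc : u ⬝ᵥ c = 0) :
    0 ≤ rq S (wedge a x + wedge b y + wedge c u) + 16 * M * ‖(x ⬝ᵥ c) * (u ⬝ᵥ d)‖ := by
  obtain ⟨A, hA⟩ : ∃ A, x ⬝ᵥ c = A := ⟨_, rfl⟩
  obtain ⟨B, hB⟩ : ∃ B, u ⬝ᵥ d = B := ⟨_, rfl⟩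
  have e : ∀ s t r : ℂ, s • (wedge a (x - A • star c) + wedge b y + wedge c (u - B • star d)) +
      t • wedge a (star c) + r • wedge c (star d) = wedge a (s • (x - A • star c) + t • star c) +
        wedge b (s • y) + wedge c (s • (u - B • star d) + r • star d) := fun s t r => by
    ext i j
    simp only [wedge, vecMulVec_apply, Matrix.add_apply, Matrix.sub_apply, Matrix.smul_apply,
      Pi.add_apply, Pi.sub_apply, Pi.smul_apply, smul_eq_mul]
    ring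
  have sca := hF.sca
  have scb := hF.scb
  have scc := hF.scc
  have sda := hF.sda
  have sdb := hF.sdb
  have sdc := hF.sdc
  have sdd := hF.sdd
  have k := s4c_th hS hM0 hM
    (u := wedge a (x - A • star c) + wedge b y + wedge c (u - B • star d))
    (p := wedge a (star c)) (q := wedge c (star d)) (K := 4)
    (by simpa [s3_nv_star, s3_nv_one hF.saa, s3_nv_one scc] using s3_nsq_wedge a (star c))
    (by simpa [s3_nv_star, s3_nv_one scc, s3_nv_one sdd] using s3_nsq_wedge c (star d))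
    (fun s t => by
      have e1 := e s t 0
      rw [zero_smul, add_zero] at e1
      rw [e1]
      exact t4_L h hF (by simp [*]) (by simp [*]) (by simp [*]) (by simp [*]) (by simp [*])
        (by simp [*]) (by simp [*]) (by simp [*]))
    (fun s t => by
      have e1 := e s 0 t
      rw [zero_smul, add_zero] at e1
      rw [e1]
      exact t4_top h hF (by simp [*]) (by simp [*]) (by simp [*]) (by simp [*]) (by simp [*])
        (by simp [*]) (by simp [*]) (by simp [*]) (by simp [*])) A B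
  have e2 := e 1 A B
  simp only [one_smul, sub_add_cancel] at e2
  rw [e2] at k
  rw [hA, hB]
  linarith

theorem t4_pow (hF : Fr3 a b c) (xa : x ⬝ᵥ a = 0) (ya : y ⬝ᵥ a = 0) (yb : y ⬝ᵥ b = 0)
    (yc : y ⬝ᵥ c = 0) (ua : u ⬝ᵥ a = 0) (ub : u ⬝ᵥ b = 0) (uc : u ⬝ᵥ c = 0) :
    (wedge a x + wedge b y + wedge c u) ^ 4 =
      (((x ⬝ᵥ b) • y + (x ⬝ᵥ c) • u) ⬝ᵥ ((x ⬝ᵥ b) • y + (x ⬝ᵥ c) • u)) • vecMulVec a a := by
  obtain ⟨w, hw⟩ : ∃ w, w = wedge a x + wedge b y + wedge c u := ⟨_, rfl⟩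
  have e : ∀ v, w *ᵥ v = (x ⬝ᵥ v) • a - (a ⬝ᵥ v) • x + ((y ⬝ᵥ v) • b - (b ⬝ᵥ v) • y) +
      ((u ⬝ᵥ v) • c - (c ⬝ᵥ v) • u) := fun v => by
    simp only [hw, wedge, add_mulVec, sub_mulVec, vecMulVec_mulVec, op_smul_eq_smul]
  have wa : w *ᵥ a = 0 := by
    simp [e, xa, ya, ua, hF.aa, dotProduct_comm b a, dotProduct_comm c a, hF.ab, hF.ac]
  have wb : w *ᵥ b = (x ⬝ᵥ b) • a := by
    simp [e, yb, ub, hF.ab, hF.bb, dotProduct_comm c b, hF.bc]
  have wc : w *ᵥ c = (x ⬝ᵥ c) • a := by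
    simp [e, yc, uc, hF.ac, hF.bc, hF.cc]
  have wu : w *ᵥ u = (x ⬝ᵥ u) • a + (y ⬝ᵥ u) • b + (u ⬝ᵥ u) • c := by
    simp [e, ua, ub, uc, dotProduct_comm a u, dotProduct_comm b u, dotProduct_comm c u]
  have wy : w *ᵥ y = (x ⬝ᵥ y) • a + (y ⬝ᵥ y) • b + (y ⬝ᵥ u) • c := by
    simp [e, ya, yb, yc, dotProduct_comm a y, dotProduct_comm b y, dotProduct_comm c y,
      dotProduct_comm u y]
  have wx : w *ᵥ x = (x ⬝ᵥ x) • a + ((y ⬝ᵥ x) • b - (x ⬝ᵥ b) • y) +
      ((u ⬝ᵥ x) • c - (x ⬝ᵥ c) • u) := by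
    simp [e, xa, dotProduct_comm a x, dotProduct_comm b x, dotProduct_comm c x]
  rw [← hw, show w ^ 4 = w * w * w * (wedge a x + wedge b y + wedge c u) by
    rw [← hw]; noncomm_ring]
  simp only [wedge, mul_add, mul_sub, mul_vecMulVec, ← mulVec_mulVec, wa, wb, wc, wu, wy, wx,
    mulVec_add, mulVec_sub, mulVec_smul, mulVec_zero, smul_zero, add_zero, zero_add, sub_zero,
    zero_sub, zero_vecMulVec, add_dotProduct, dotProduct_add, smul_dotProduct, dotProduct_smul,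
    dotProduct_comm u y]
  ext i j
  simp [vecMulVec_apply]
  ring

end

theorem t4_start {S : T4 8} {a b c x y u : Fin 8 → ℂ} (hS : IsOp S) {M : ℝ} (hM0 : 0 ≤ M)
    (hM : ∀ v, rq S v ≤ M * nsq v) (h : Pos 4 pat3 S) (hF : Fr3 a b c) (xa : x ⬝ᵥ a = 0)
    (ya : y ⬝ᵥ a = 0) (yb : y ⬝ᵥ b = 0) (yc : y ⬝ᵥ c = 0) (ua : u ⬝ᵥ a = 0) (ub : u ⬝ᵥ b = 0)
    (uc : u ⬝ᵥ c = 0) : 0 ≤ rq S (wedge a x + wedge b y + wedge c u) +
      16 * M * √‖((x ⬝ᵥ b) • y + (x ⬝ᵥ c) • u) ⬝ᵥ ((x ⬝ᵥ b) • y + (x ⬝ᵥ c) • u)‖ := by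
  obtain ⟨α, β, k1, k2⟩ := s3_perp2 (x ⬝ᵥ b) (x ⬝ᵥ c)
  have e : (x ⬝ᵥ b) • y + (x ⬝ᵥ c) • u =
      (x ⬝ᵥ (-conj β • b + conj α • c)) • (-β • y + α • u) := by
    ext i
    simp only [dotProduct_add, dotProduct_smul, Pi.add_apply, Pi.smul_apply, smul_eq_mul]
    linear_combination (conj α * y i + conj β * u i) * k2 - ((x ⬝ᵥ b) * y i + (x ⬝ᵥ c) * u i) * k1
  obtain ⟨d, hd⟩ := (hF.rot12 k1).ext4 le_rfl
  have xb : x ⬝ᵥ (α • b + β • c) = 0 := by simpa using k2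
  have f : ∀ s t : ℂ, (s • y + t • u) ⬝ᵥ a = 0 ∧ ∀ p q : ℂ, (s • y + t • u) ⬝ᵥ (p • b + q • c) = 0 :=
    fun s t => ⟨by simp [*], fun p q => by simp [*]⟩
  obtain ⟨f1, f2⟩ := f (conj α) (conj β)
  obtain ⟨f3, f4⟩ := f (-β) α
  have k3 := t4_th hS hM0 hM h hd xa xb f1 (f2 _ _) (f2 _ _) f3 (f4 _ _) (f4 _ _)
  have k4 := t4_th hS hM0 hM h hd.flip xa xb f1 (f2 _ _) (f2 _ _) f3 (f4 _ _) (f4 _ _)
  have k5 := congrArg ((-β • y + α • u) ⬝ᵥ ·) (dec8 hd (-β • y + α • u))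
  rw [add_assoc, s3_rot b c y u k1, ← add_assoc] at k3 k4
  simp only [f3, f4, zero_smul, add_zero] at k5
  rw [e]
  generalize -β • y + α • u = v at *
  simp only [dotProduct_add, dotProduct_smul, f3, f4, mul_zero, zero_add, smul_eq_mul,
    dotProduct_comm (star d) v] at k5
  rw [smul_dotProduct, dotProduct_smul, k5]
  generalize x ⬝ᵥ (-conj β • b + conj α • c) = A at *
  generalize v ⬝ᵥ d = p at *
  generalize v ⬝ᵥ star d = q at *
  have e1 : ‖A • A • (q * p + p * q)‖ = 2 * (‖A * p‖ * ‖A * q‖) := by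
    rw [← norm_mul, ← Complex.norm_ofNat 2, ← norm_mul, smul_eq_mul, smul_eq_mul]
    congr 1
    ring
  rw [e1]
  have n1 := norm_nonneg (A * p)
  have n2 := norm_nonneg (A * q)
  rcases le_total ‖A * p‖ ‖A * q‖ with k | k
  · have := Real.le_sqrt_of_sq_le (by linarith only [n1, n2, k, mul_nonneg_of_nonpos_of_nonpos (Mathlib.Tactic.Linarith.sub_nonpos_of_le n1) (Mathlib.Tactic.Linarith.sub_nonpos_of_le n2), mul_nonneg_of_nonpos_of_nonpos (Mathlib.Tactic.Linarith.sub_nonpos_of_le n1) (Mathlib.Tactic.Linarith.sub_nonpos_of_le k)] : ‖A * p‖ ^ 2 ≤ 2 * (‖A * p‖ * ‖A * q‖))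
    linarith only [k3, this, hM0, mul_le_mul_of_nonneg_left this hM0]
  · have := Real.le_sqrt_of_sq_le (by linarith only [n1, n2, k, mul_nonneg_of_nonpos_of_nonpos (Mathlib.Tactic.Linarith.sub_nonpos_of_le n1) (Mathlib.Tactic.Linarith.sub_nonpos_of_le n2), mul_nonneg_of_nonpos_of_nonpos (Mathlib.Tactic.Linarith.sub_nonpos_of_le n2) (Mathlib.Tactic.Linarith.sub_nonpos_of_le k)] : ‖A * q‖ ^ 2 ≤ 2 * (‖A * p‖ * ‖A * q‖))
    linarith only [k4, this, hM0, mul_le_mul_of_nonneg_left this hM0]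

theorem n8_T4 (hW : CurvFlow 8 T W)
    (h : AsymP T W fun R => H8 R ∧ Pos 2 (fun _ _ => True) R ∧ Pos 4 pat3 R) :
    AsymP T W (Pos 3 pat4) := by
  have key := fun (Z C : Matrix (Fin 8) (Fin 3) ℂ) (h0 : Zᵀ * Z = 0) (h1 : Zᴴ * Z = 1)
      (hC : ∀ i j, pat4 i j → (Cᵀ * Z) i j = 0) => ((congrArg (· ^ 4) ((s3_sum Z C).trans
    (Fin.sum_univ_three _))).trans (t4_pow ((fr_iff Z).1 ⟨h0, h1⟩).fr3 (hC 0 0 (.inr rfl))
      (hC 1 0 (.inr rfl)) (hC 1 1 (.inl (by decide))) (hC 1 2 (.inl (by decide)))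
      (hC 2 0 (.inr rfl)) (hC 2 1 (.inl (by decide))) (hC 2 2 (.inl (by decide))))).trans
      (s4d_cols (by norm_num) Z _)
  refine pen8 hW (r := 1) (k := 4) (by norm_num) (.inr ⟨le_rfl, one_le_two⟩) _ ?_
    (fun i j h1 h2 => ?_) ?_ (h.mono fun _ _ h => ⟨h.1.1, h.1.2, h.2.2⟩) (β := 16) ?_
  · rintro Z U w hU hd ⟨C, rfl, hC⟩
    obtain ⟨e1, e2⟩ := xs_frame (Z := Z) (C := C) hd
    have hτ : (Cᵀ * (Z * U)).BlockTriangular id := fun i j h =>
      hC i j (.inl (Fin.pos_iff_ne_zero.1 (lt_of_le_of_lt (Fin.zero_le j) h)))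
    refine ⟨_, e1, fun i j hij => ?_⟩
    rw [e2]
    by_cases hi : i = 0
    · rw [hi, hij.resolve_left (not_not.2 hi), tri_conj_diag hU hd hτ, hC _ _ (.inr rfl)]
    · rw [mul_apply]
      refine Finset.sum_eq_zero fun l _ => mul_eq_zero_of_left ?_ _
      rw [mul_apply]
      refine Finset.sum_eq_zero fun m _ => ?_
      by_cases hm : m = 0
      · exact mul_eq_zero_of_left (hU (hm ▸ Fin.pos_iff_ne_zero.2 hi)) _
      · exact mul_eq_zero_of_right _ (hC m l (.inl hm))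
  · rcases h1 with h1 | rfl
    · exact absurd (Fin.ext (by omega)) h1
    · exact one_pos
  · rintro Z w h0 h1 ⟨C, rfl, hC⟩
    exact ⟨_, key Z C h0 h1 hC⟩
  · rintro S M hS - h3 hM0 hM - Z w h0 h1 ⟨C, rfl, hC⟩
    rw [s4c_pen (cols_unit _ h1) (key Z C h0 h1 hC), det_unique, of_apply, s3_sum,
      Fin.sum_univ_three, show (2 : ℝ) / ((1 : ℕ) * (4 : ℕ)) = 1 / 2 by norm_num,
      ← Real.sqrt_eq_rpow]
    exact t4_start hS.isOp hM0 (fun v => (le_abs_self _).trans (hM v)) h3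
      ((fr_iff Z).1 ⟨h0, h1⟩).fr3 (hC 0 0 (.inr rfl))
      (hC 1 0 (.inr rfl)) (hC 1 1 (.inl (by decide))) (hC 1 2 (.inl (by decide)))
      (hC 2 0 (.inr rfl)) (hC 2 1 (.inl (by decide))) (hC 2 2 (.inl (by decide)))

end

end Pool.Agent.Work.MP_3a9764_gt
end

-- merged part: Pool.Agent.Work.MP_3a9764_gt.N8T3
section
/-! The step of type `[7, 1]`. -/

set_option autoImplicit false

open Filter Set Matrix
open scoped Topology ComplexConjugate

namespace Pool.Agent.Work.MP_3a9764_gt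

noncomputable section

variable {N : ℕ} {T : ℝ} {W : ℝ → Set (T4 8)}

theorem t5_two {S : T4 N} {a b c x y u : Fin N → ℂ} (h : Pos 3 pat4 S) (hF : Fr3 a b c)
    (xa : x ⬝ᵥ a = 0) (ya : y ⬝ᵥ a = 0) (yb : y ⬝ᵥ b = 0) (ua : u ⬝ᵥ a = 0) (ub : u ⬝ᵥ b = 0)
    (uc : u ⬝ᵥ c = 0) (yc : y ⬝ᵥ c = 0) : 0 ≤ rq S (wedge a x + wedge b y + wedge c u) := by
  have k := s3_pos h hF.fr (x := ![x, y, u]) fun i j hij => by
    fin_cases i <;> fin_cases j
    exacts [xa, absurd hij (by simp [pat4]), absurd hij (by simp [pat4]), ya, yb, yc, ua, ub, uc]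
  rwa [Fin.sum_univ_three] at k

theorem t5_one {S : T4 N} {a b c x y u : Fin N → ℂ} (h : Pos 3 pat4 S) (hF : Fr3 a b c)
    (xa : x ⬝ᵥ a = 0) (ya : y ⬝ᵥ a = 0) (yb : y ⬝ᵥ b = 0) (ua : u ⬝ᵥ a = 0) (ub : u ⬝ᵥ b = 0)
    (uc : u ⬝ᵥ c = 0) (xb : x ⬝ᵥ b = 0) : 0 ≤ rq S (wedge a x + wedge b y + wedge c u) := by
  obtain ⟨α, β, k1, k2⟩ := s3_perp2 (y ⬝ᵥ c) (-(x ⬝ᵥ c))
  have k := t5_two h (hF.rot01 k1) (x := conj α • x + conj β • y) (y := -β • x + α • y) (u := u)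
    (by simp [*]) (by simp [*]) (by simp [*]) (by simp [*]) (by simp [*]) uc (by
      simp only [add_dotProduct, smul_dotProduct, smul_eq_mul]
      linear_combination k2)
  rwa [s3_rot a b x y k1] at k

variable {S : T4 8} {a b c d x y u : Fin 8 → ℂ}

theorem t5_iso (h : Pos 3 pat4 S) (hF : Fr4 a b c d) (xa : x ⬝ᵥ a = 0) (ya : y ⬝ᵥ a = 0)
    (yb : y ⬝ᵥ b = 0) (ua : u ⬝ᵥ a = 0) (ub : u ⬝ᵥ b = 0) (uc : u ⬝ᵥ c = 0) (ud : u ⬝ᵥ d = 0) :
    0 ≤ rq S (wedge a x + wedge b y + wedge c u) := by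
  obtain ⟨u1, u2, u3, u4, rfl⟩ := hF.mem ua ub uc ud
  obtain ⟨α, β, k1, k2⟩ := s3_perp2 (y ⬝ᵥ c) (y ⬝ᵥ d)
  have hG := hF.rot23 k1
  have k := t5_two h hG.fr3 (x := x - u1 • c) (y := y - u2 • c)
    (u := u4 • (-conj β • c + conj α • d)) (by simp [xa, hF.ca]) (by simp [ya, hF.ca])
    (by simp [yb, hF.cb]) (by rw [smul_dotProduct, hG.da, smul_zero])
    (by rw [smul_dotProduct, hG.db, smul_zero]) (by rw [smul_dotProduct, hG.dc, smul_zero])
    (by simpa [hF.cc, hF.cd] using k2)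
  convert k using 2
  ext i j
  simp only [wedge, vecMulVec_apply, Matrix.add_apply, Matrix.sub_apply, Pi.add_apply,
    Pi.sub_apply, Pi.smul_apply, smul_eq_mul]
  linear_combination (-u4 * (c i * d j - d i * c j)) * k1

theorem t5_start (hS : IsOp S) {M : ℝ} (hM0 : 0 ≤ M) (hM : ∀ v, rq S v ≤ M * nsq v)
    (h : Pos 3 pat4 S) (hF : Fr3 a b c) (xa : x ⬝ᵥ a = 0) (ya : y ⬝ᵥ a = 0) (yb : y ⬝ᵥ b = 0)
    (ua : u ⬝ᵥ a = 0) (ub : u ⬝ᵥ b = 0) (uc : u ⬝ᵥ c = 0) {p : ℝ} (hp : 0 ≤ p)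
    (h3 : p ^ 3 = ‖(x ⬝ᵥ b) ^ 2 * (y ⬝ᵥ c) ^ 2 * u ⬝ᵥ u‖) :
    0 ≤ rq S (wedge a x + wedge b y + wedge c u) + 16 * M * p := by
  obtain ⟨d, hG⟩ := hF.ext4 le_rfl
  have uu : u ⬝ᵥ u = 2 * (u ⬝ᵥ d * star d ⬝ᵥ u) := by
    conv_lhs => enter [2]; rw [dec8 hG u]
    simp only [dotProduct_add, dotProduct_smul, ua, ub, uc, smul_eq_mul, dotProduct_comm u (star d)]
    ring
  have sba := hG.sba
  have sca := hG.sca
  have scb := hG.scb
  have sbb := hG.sbb
  have scc := hG.scc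
  have key : ∀ e, Fr4 a b c e → ∀ s t₁ t₂ t₃ : ℂ, t₁ = 0 ∨ t₂ = 0 ∨ t₃ = 0 →
      0 ≤ rq S (s • (wedge a (x - (x ⬝ᵥ b) • star b) + wedge b (y - (y ⬝ᵥ c) • star c) +
        wedge c (u - (u ⬝ᵥ e) • star e)) + t₁ • wedge a (star b) + t₂ • wedge b (star c) +
        t₃ • wedge c (star e)) := fun e hE s t₁ t₂ t₃ ht => by
    have sea := hE.sda
    have seb := hE.sdb
    have sec := hE.sdc
    have see := hE.sdd
    have e1 : s • (wedge a (x - (x ⬝ᵥ b) • star b) + wedge b (y - (y ⬝ᵥ c) • star c) +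
        wedge c (u - (u ⬝ᵥ e) • star e)) + t₁ • wedge a (star b) + t₂ • wedge b (star c) +
        t₃ • wedge c (star e) = wedge a (s • (x - (x ⬝ᵥ b) • star b) + t₁ • star b) +
        wedge b (s • (y - (y ⬝ᵥ c) • star c) + t₂ • star c) +
        wedge c (s • (u - (u ⬝ᵥ e) • star e) + t₃ • star e) := by
      ext i j
      simp only [wedge, vecMulVec_apply, Matrix.add_apply, Matrix.sub_apply, Matrix.smul_apply,
        Pi.add_apply, Pi.sub_apply, Pi.smul_apply, smul_eq_mul]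
      ring
    rw [e1]
    rcases ht with rfl | rfl | rfl
    · exact t5_one h hF (by simp [*]) (by simp [*]) (by simp [*]) (by simp [*]) (by simp [*])
        (by simp [*]) (by simp [*])
    · exact t5_two h hF (by simp [*]) (by simp [*]) (by simp [*]) (by simp [*]) (by simp [*])
        (by simp [*]) (by simp [*])
    · exact t5_iso h hE (by simp [*]) (by simp [*]) (by simp [*]) (by simp [*]) (by simp [*])
        (by simp [*]) (by simp [*])
  have fin : ∀ e, Fr4 a b c e → ‖u ⬝ᵥ e‖ ^ 2 ≤ ‖u ⬝ᵥ u‖ →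
      0 ≤ rq S (wedge a x + wedge b y + wedge c u) + 16 * M * p := fun e hE he => by
    obtain ⟨p', hp', h4⟩ : ∃ p' : ℝ, 0 ≤ p' ∧ p' ^ 3 = ‖x ⬝ᵥ b * y ⬝ᵥ c * u ⬝ᵥ e‖ ^ 2 :=
      ⟨_, by positivity, Real.rpow_inv_natCast_pow (sq_nonneg _) three_ne_zero⟩
    have k := n8_th3 hS hM0 hM (n8_unit_wedge hF.saa sbb).2 (n8_unit_wedge sbb scc).2
      (n8_unit_wedge scc hE.sdd).2 (key e hE) _ _ _ hp' h4
    have h5 : p' ≤ p := by
      refine le_of_pow_le_pow_left₀ three_ne_zero hp ?_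
      rw [h3, h4, norm_mul, norm_mul, norm_mul, norm_mul, norm_pow, norm_pow, mul_pow, mul_pow]
      exact mul_le_mul_of_nonneg_left he (by positivity)
    have e2 : wedge a (x - (x ⬝ᵥ b) • star b) + wedge b (y - (y ⬝ᵥ c) • star c) +
        wedge c (u - (u ⬝ᵥ e) • star e) + (x ⬝ᵥ b) • wedge a (star b) +
        (y ⬝ᵥ c) • wedge b (star c) + (u ⬝ᵥ e) • wedge c (star e) =
        wedge a x + wedge b y + wedge c u := by
      ext i j
      simp only [wedge, vecMulVec_apply, Matrix.add_apply, Matrix.sub_apply, Matrix.smul_apply,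
        Pi.sub_apply, Pi.smul_apply, smul_eq_mul]
      ring
    rw [e2] at k
    linarith only [k, h5, hM0, mul_le_mul_of_nonneg_left h5 hM0]
  have n1 := norm_nonneg (u ⬝ᵥ d)
  have n2 := norm_nonneg (star d ⬝ᵥ u)
  rcases le_total ‖u ⬝ᵥ d‖ ‖star d ⬝ᵥ u‖ with k | k
  · exact fin d hG (by rw [uu, norm_mul, norm_mul, Complex.norm_two]; linarith only [n1, n2, k, mul_nonneg_of_nonpos_of_nonpos (Mathlib.Tactic.Linarith.sub_nonpos_of_le n1) (Mathlib.Tactic.Linarith.sub_nonpos_of_le n2), mul_nonneg_of_nonpos_of_nonpos (Mathlib.Tactic.Linarith.sub_nonpos_of_le n1) (Mathlib.Tactic.Linarith.sub_nonpos_of_le k)])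
  · exact fin _ hG.flip (by
      rw [uu, norm_mul, norm_mul, Complex.norm_two, dotProduct_comm u (star d)]; linarith only [n1, n2, k, mul_nonneg_of_nonpos_of_nonpos (Mathlib.Tactic.Linarith.sub_nonpos_of_le n1) (Mathlib.Tactic.Linarith.sub_nonpos_of_le n2), mul_nonneg_of_nonpos_of_nonpos (Mathlib.Tactic.Linarith.sub_nonpos_of_le n2) (Mathlib.Tactic.Linarith.sub_nonpos_of_le k)])

theorem n8_T5 (hW : CurvFlow 8 T W) (h : AsymP T W fun R => H8 R ∧ Pos 3 pat4 R) :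
    AsymP T W (Pos 3 fun i j => j ≤ i) := by
  have key := fun (Z C : Matrix (Fin 8) (Fin 3) ℂ) (h0 : Zᵀ * Z = 0) (h1 : Zᴴ * Z = 1)
      (hC : ∀ i j, j ≤ i → (Cᵀ * Z) i j = 0) => ((congrArg (· ^ 6) ((s3_sum Z C).trans
    (Fin.sum_univ_three _))).trans (s4d_pow ((fr_iff Z).1 ⟨h0, h1⟩).fr3 (hC 0 0 le_rfl)
      (hC 1 0 (by decide)) (hC 1 1 le_rfl) (hC 2 0 (by decide)) (hC 2 1 (by decide))
      (hC 2 2 le_rfl))).trans (s4d_cols (by norm_num) Z _)
  refine pen8 hW (r := 1) (k := 6) (by norm_num) (.inl le_rfl) _ ?_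
    (fun i j h1 h2 => lt_of_le_of_lt h1 h2) ?_
    (h.mono fun R _ h => ⟨h.1.1, h.1.2, h.2⟩) (β := 16) ?_
  · rintro Z U w hU hd ⟨C, rfl, hC⟩
    obtain ⟨e1, e2⟩ := xs_frame (Z := Z) (C := C) hd
    have hτ : (Cᵀ * (Z * U)).BlockTriangular id := fun i j h => hC i j (le_of_lt h)
    refine ⟨_, e1, fun i j hij => ?_⟩
    rw [e2]
    rcases hij.eq_or_lt with h | h
    · subst h
      rw [tri_conj_diag hU hd hτ, hC _ _ le_rfl]
    · exact (hU.mul hτ).mul (tri_inv hU hd) h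
  · rintro Z w h0 h1 ⟨C, rfl, hC⟩
    exact ⟨_, key Z C h0 h1 hC⟩
  · rintro S M hS - h3 hM0 hM - Z w h0 h1 ⟨C, rfl, hC⟩
    rw [s4c_pen (cols_unit _ h1) (key Z C h0 h1 hC), det_unique, of_apply, norm_neg, s3_sum,
      Fin.sum_univ_three]
    refine t5_start hS.isOp hM0 (fun v => (le_abs_self _).trans (hM v)) h3
      ((fr_iff Z).1 ⟨h0, h1⟩).fr3 (hC 0 0 le_rfl) (hC 1 0 (by decide)) (hC 1 1 le_rfl)
      (hC 2 0 (by decide)) (hC 2 1 (by decide)) (hC 2 2 le_rfl) (by positivity) ?_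
    rw [← Real.rpow_natCast _ 3, ← Real.rpow_mul (norm_nonneg _),
      show (2 : ℝ) / ((1 : ℕ) * (6 : ℕ)) * (3 : ℕ) = 1 by norm_num, Real.rpow_one]
    rfl

end

end Pool.Agent.Work.MP_3a9764_gt
end

-- merged part: Pool.Agent.Work.MP_3a9764_gt.N8T
section
/-! The chain in dimension eight. -/

set_option autoImplicit false

open Filter Set Matrix
open scoped Topology ComplexConjugate

namespace Pool.Agent.Work.MP_3a9764_gt

noncomputable section

variable {N : ℕ} {T : ℝ} {W : ℝ → Set (T4 8)}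

theorem P321.l4 {R : T4 N} (h : P321 R) : L4 R := by
  intro a b c x aa ab ac bb bc cc xa xb xc
  obtain ⟨t, ht⟩ : ∃ t : ℂ, t ^ 2 = -(x ⬝ᵥ x) := IsAlgClosed.exists_pow_nat_eq _ two_pos
  refine h _ (t • a) ⟨by rw [transpose_add, wedge_skew, wedge_skew, neg_add], ?_, ?_, by simp [aa]⟩
  · simp only [wedge, add_mul, mul_add, sub_mul, mul_sub, vecMulVec_mul_vecMulVec, aa, ab, ac, bb,
      bc, cc, xa, xb, xc, dotProduct_comm a x, dotProduct_comm b x, dotProduct_comm c x,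
      dotProduct_comm b a, dotProduct_comm c a, dotProduct_comm c b]
    ext i j
    simp only [vecMulVec_apply, Matrix.add_apply, Matrix.sub_apply, Pi.smul_apply, smul_eq_mul]
    linear_combination (-(a i * a j)) * ht
  · simp only [wedge, add_mulVec, sub_mulVec, vecMulVec_mulVec, dotProduct_smul, aa, xa,
      dotProduct_comm b a, dotProduct_comm c a, ab, ac]
    simp

theorem n8_T (hW : CurvFlow 8 T W) (h : AsymP T W fun R => G1 R ∧ PIC2w R ∧ P321 R) :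
    AsymP T W OpNonneg := by
  have h8 : AsymP T W H8 := h.mono fun _ _ h => ⟨h.1, h.2.1⟩
  have t2 := n8_T2 hW (h8.and (h.mono fun _ _ h => h.2.2.l4))
  have t3 := n8_T3 hW (h8.and t2)
  have t4 := n8_T4 hW (h8.and (t2.and t3))
  have t5 := n8_T5 hW (h8.and t4)
  exact (n8_I hW ((h.mono fun _ _ h => h.2.1).and t5)).mono fun R hR h => n8_op hR h

end

end Pool.Agent.Work.MP_3a9764_gt
end

-- merged part: Pool.Agent.Work.MP_3a9764_gt.N8Main
section
/-! Assembly of the algebraic part in dimension eight. -/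

set_option autoImplicit false

open Filter Set Matrix
open scoped Topology ComplexConjugate

namespace Pool.Agent.Work.MP_3a9764_gt

noncomputable section

theorem pinched_eight {T : ℝ} {W : ℝ → Set (T4 8)} (hW : CurvFlow 8 T W)
    (h0 : ∀ R ∈ W 0, ∀ e, ON4 e → 0 < iso4 R e) : Pinched T W := by
  have h1 := stage1 hW (by norm_num) le_rfl h0
  have h2 := stage2 hW (by norm_num) le_rfl h1
  have h3 := stage3 hW (by norm_num) le_rfl (h1.and h2)
  have hA := n8_A hW (h1.and h2)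
  have hB := n8_T0 hW (hA.and (h3.mono fun _ _ h => h.picw))
  have hD := n8_D hW ((hA.and (h3.and hB)).mono fun R hR h =>
    ⟨h.1, h.2.1, h.2.2, n8_C hR h.1 h.2.1 h.2.2⟩)
  exact (n8_T hW (h1.and (h3.and hD))).pinched hW

theorem pinched_of_pic8 {n : ℕ} {T : ℝ} {W : ℝ → Set (T4 n)} (hW : CurvFlow n T W) (hn : 5 ≤ n)
    (hn8 : n ≤ 8) (h0 : ∀ R ∈ W 0, ∀ e, ON4 e → 0 < iso4 R e) : Pinched T W := by
  rcases hn8.eq_or_lt with rfl | h7
  · exact pinched_eight hW h0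
  · exact pinched_of_pic hW hn (by omega) h0

end

end Pool.Agent.Work.MP_3a9764_gt
end

-- merged part: Pool.Agent.Work.MP_3a9764_gt.Final
section
/-! Assembly. -/

set_option autoImplicit false

open scoped Manifold ContDiff Topology

namespace Pool.Agent.Work.MP_3a9764_gt

noncomputable section

variable {n : ℕ} {M : Type} [TopologicalSpace M] [ChartedSpace (Eu n) M]
  [IsManifold 𝓘(ℝ, Eu n) ∞ M] [CompactSpace M] {T : ℝ} {g : ℝ → Bil n M}
  {N : Type} [TopologicalSpace N] [ChartedSpace (Eu n) N] [IsManifold 𝓘(ℝ, Eu n) ∞ N]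
  {J : Set ℝ} {h : ℝ → Bil n N} {p : N}

theorem main_op (hn : 4 ≤ n) (hn8 : n ≤ 8) (hg : IsRicciFlow (Set.Ico 0 T) g) (h0 : HasPIC (g 0))
    (hl : IsBlowupLimit T g J h p) : ∀ s ∈ J, NonnegCurvOp (h s) := by
  refine nonneg_of_pinched hg ?_ hl
  rcases hn.eq_or_lt with rfl | h5
  · exact pinched_four (curvFlow_vals hg) fun _ hR _ he => pic_vals h0 hR he
  · exact pinched_of_pic8 (curvFlow_vals hg) h5 hn8 fun _ hR _ he => pic_vals h0 hR he

theorem main_pic2 (hn : 5 ≤ n) (hn8 : n ≤ 8) (hg : IsRicciFlow (Set.Ico 0 T) g)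
    (h0 : HasPIC (g 0)) (hl : IsBlowupLimit T g J h p) : ∀ s ∈ J, WeakPIC2 (h s) :=
  fun s hs => G.weakPIC2_of (hl.1.isMetric hs) (G.asymP_limit hg
    (asymP_pic2 (curvFlow_vals hg) hn hn8 fun _ hR _ he => pic_vals h0 hR he) hl s hs)

theorem main_unif (hn : 5 ≤ n) (hn8 : n ≤ 8) (hg : IsRicciFlow (Set.Ico 0 T) g)
    (h0 : HasPIC (g 0)) (hl : IsBlowupLimit T g J h p) : ∀ s ∈ J, UnifPIC (G.theta n) (h s) :=
  fun s hs => G.unifPIC_of hn (hl.1.isMetric hs) (G.asymP_limit hg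
    (stage1 (curvFlow_vals hg) hn hn8 fun _ hR _ he => pic_vals h0 hR he) hl s hs)

end

end Pool.Agent.Work.MP_3a9764_gt
end
end
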