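import Pool.Agent.Work.MP_3a9764_gt.St2e

/-! Certificates for stage 2 in dimension 5. -/

set_option autoImplicit false
set_option linter.unusedVariables false
set_option linter.unusedSimpArgs false

namespace Pool.Agent.Work.MP_3a9764_gt.C5

theorem a0_0_0_0 {u s t : ℝ} (h1 : (28969 / 100000 : ℝ) ≤ u + 2) (h2 : (28969 / 100000 : ℝ) ≤ s + t + 2) (h3 : t + 1 ≤ (5 / 2 : ℝ)) :
    0 < E1 5 (1620000 / 95199049 : ℝ) (162 / 9757 : ℝ) (1800 / 9757 : ℝ) (324 / 9757 : ℝ) ((0 : ℝ) * (0 : ℝ)) u s t -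
      (201 / 5000 : ℝ) * Act 5 (1354711119 / 21324586976 : ℝ) (21171 / 575663 : ℝ) (1800 / 9757 : ℝ) (324 / 9757 : ℝ) ((1 - (0 : ℝ)) * (1 - (0 : ℝ))) u s t :=
  QC.chkA 0 0 0 (QC.rd 1620000 95199049) (QC.rd 162 9757) (QC.rd 1800 9757) (QC.rd 324 9757)
    QC.r0 QC.r0 (QC.rd 201 5000) (QC.rd 1354711119 21324586976) (QC.rd 21171 575663) (QC.rd 1800 9757) (QC.rd 324 9757) (QC.rd 28969 100000) (QC.rd 5 2)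
    (by decide +kernel) h1 h2 h3

theorem a0_0_0_1 {u s t : ℝ} (h1 : (28969 / 100000 : ℝ) ≤ u + 2) (h2 : (28969 / 100000 : ℝ) ≤ s + t + 2) (h3 : t + 1 ≤ (5 / 2 : ℝ)) :
    0 < E1 5 (1620000 / 95199049 : ℝ) (162 / 9757 : ℝ) (1800 / 9757 : ℝ) (324 / 9757 : ℝ) ((0 : ℝ) * (7 / 10 : ℝ)) u s t -
      (201 / 5000 : ℝ) * Act 5 (1354711119 / 21324586976 : ℝ) (21171 / 575663 : ℝ) (1800 / 9757 : ℝ) (324 / 9757 : ℝ) ((1 - (0 : ℝ)) * (1 - (7 / 10 : ℝ))) u s t :=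
  QC.chkA 0 0 0 (QC.rd 1620000 95199049) (QC.rd 162 9757) (QC.rd 1800 9757) (QC.rd 324 9757)
    QC.r0 (QC.rd 7 10) (QC.rd 201 5000) (QC.rd 1354711119 21324586976) (QC.rd 21171 575663) (QC.rd 1800 9757) (QC.rd 324 9757) (QC.rd 28969 100000) (QC.rd 5 2)
    (by decide +kernel) h1 h2 h3

theorem a0_0_0_2 {u s t : ℝ} (h1 : (28969 / 100000 : ℝ) ≤ u + 2) (h2 : (28969 / 100000 : ℝ) ≤ s + t + 2) (h3 : t + 1 ≤ (5 / 2 : ℝ)) :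
    0 < E1 5 (1620000 / 95199049 : ℝ) (162 / 9757 : ℝ) (1800 / 9757 : ℝ) (324 / 9757 : ℝ) ((7 / 10 : ℝ) * (7 / 10 : ℝ)) u s t -
      (201 / 5000 : ℝ) * Act 5 (1354711119 / 21324586976 : ℝ) (21171 / 575663 : ℝ) (1800 / 9757 : ℝ) (324 / 9757 : ℝ) ((1 - (7 / 10 : ℝ)) * (1 - (7 / 10 : ℝ))) u s t :=
  QC.chkA 0 0 0 (QC.rd 1620000 95199049) (QC.rd 162 9757) (QC.rd 1800 9757) (QC.rd 324 9757)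
    (QC.rd 7 10) (QC.rd 7 10) (QC.rd 201 5000) (QC.rd 1354711119 21324586976) (QC.rd 21171 575663) (QC.rd 1800 9757) (QC.rd 324 9757) (QC.rd 28969 100000) (QC.rd 5 2)
    (by decide +kernel) h1 h2 h3

theorem a0_0_1_0 {u s t : ℝ} (h1 : (28969 / 100000 : ℝ) ≤ u + 2) (h2 : (28969 / 100000 : ℝ) ≤ s + t + 2) (h3 : t + 1 ≤ (5 / 2 : ℝ)) :
    0 < E1 5 (1620000 / 95199049 : ℝ) (162 / 9757 : ℝ) (1800 / 9757 : ℝ) (1 : ℝ) ((0 : ℝ) * (0 : ℝ)) u s t -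
      (0 : ℝ) * Act 5 (1354711119 / 21324586976 : ℝ) (21171 / 575663 : ℝ) (1800 / 9757 : ℝ) (324 / 9757 : ℝ) ((1 - (0 : ℝ)) * (1 - (0 : ℝ))) u s t :=
  QC.chkA 0 0 0 (QC.rd 1620000 95199049) (QC.rd 162 9757) (QC.rd 1800 9757) QC.r1
    QC.r0 QC.r0 QC.r0 (QC.rd 1354711119 21324586976) (QC.rd 21171 575663) (QC.rd 1800 9757) (QC.rd 324 9757) (QC.rd 28969 100000) (QC.rd 5 2)
    (by decide +kernel) h1 h2 h3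

theorem a0_0_1_1 {u s t : ℝ} (h1 : (28969 / 100000 : ℝ) ≤ u + 2) (h2 : (28969 / 100000 : ℝ) ≤ s + t + 2) (h3 : t + 1 ≤ (5 / 2 : ℝ)) :
    0 < E1 5 (1620000 / 95199049 : ℝ) (162 / 9757 : ℝ) (1800 / 9757 : ℝ) (1 : ℝ) ((0 : ℝ) * (7 / 10 : ℝ)) u s t -
      (0 : ℝ) * Act 5 (1354711119 / 21324586976 : ℝ) (21171 / 575663 : ℝ) (1800 / 9757 : ℝ) (324 / 9757 : ℝ) ((1 - (0 : ℝ)) * (1 - (7 / 10 : ℝ))) u s t :=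
  QC.chkA 0 0 0 (QC.rd 1620000 95199049) (QC.rd 162 9757) (QC.rd 1800 9757) QC.r1
    QC.r0 (QC.rd 7 10) QC.r0 (QC.rd 1354711119 21324586976) (QC.rd 21171 575663) (QC.rd 1800 9757) (QC.rd 324 9757) (QC.rd 28969 100000) (QC.rd 5 2)
    (by decide +kernel) h1 h2 h3

theorem a0_0_1_2 {u s t : ℝ} (h1 : (28969 / 100000 : ℝ) ≤ u + 2) (h2 : (28969 / 100000 : ℝ) ≤ s + t + 2) (h3 : t + 1 ≤ (5 / 2 : ℝ)) :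
    0 < E1 5 (1620000 / 95199049 : ℝ) (162 / 9757 : ℝ) (1800 / 9757 : ℝ) (1 : ℝ) ((7 / 10 : ℝ) * (7 / 10 : ℝ)) u s t -
      (0 : ℝ) * Act 5 (1354711119 / 21324586976 : ℝ) (21171 / 575663 : ℝ) (1800 / 9757 : ℝ) (324 / 9757 : ℝ) ((1 - (7 / 10 : ℝ)) * (1 - (7 / 10 : ℝ))) u s t :=
  QC.chkA 0 0 0 (QC.rd 1620000 95199049) (QC.rd 162 9757) (QC.rd 1800 9757) QC.r1
    (QC.rd 7 10) (QC.rd 7 10) QC.r0 (QC.rd 1354711119 21324586976) (QC.rd 21171 575663) (QC.rd 1800 9757) (QC.rd 324 9757) (QC.rd 28969 100000) (QC.rd 5 2)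
    (by decide +kernel) h1 h2 h3

theorem a0_1_0_0 {u s t : ℝ} (h1 : (28969 / 100000 : ℝ) ≤ u + 2) (h2 : (28969 / 100000 : ℝ) ≤ s + t + 2) (h3 : t + 1 ≤ (5 / 2 : ℝ)) :
    0 < E1 5 (1620000 / 95199049 : ℝ) (162 / 9757 : ℝ) (1800 / 9757 : ℝ) (324 / 9757 : ℝ) ((7 / 10 : ℝ) * (7 / 10 : ℝ)) u s t -
      (113 / 100 : ℝ) * Act 5 (1354711119 / 21324586976 : ℝ) (21171 / 575663 : ℝ) (1800 / 9757 : ℝ) (324 / 9757 : ℝ) ((1 - (7 / 10 : ℝ)) * (1 - (7 / 10 : ℝ))) u s t :=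
  QC.chkA (3 / 100) 0 (1 / 25) (QC.rd 1620000 95199049) (QC.rd 162 9757) (QC.rd 1800 9757) (QC.rd 324 9757)
    (QC.rd 7 10) (QC.rd 7 10) (QC.rd 113 100) (QC.rd 1354711119 21324586976) (QC.rd 21171 575663) (QC.rd 1800 9757) (QC.rd 324 9757) (QC.rd 28969 100000) (QC.rd 5 2)
    (by decide +kernel) h1 h2 h3

theorem a0_1_0_1 {u s t : ℝ} (h1 : (28969 / 100000 : ℝ) ≤ u + 2) (h2 : (28969 / 100000 : ℝ) ≤ s + t + 2) (h3 : t + 1 ≤ (5 / 2 : ℝ)) :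
    0 < E1 5 (1620000 / 95199049 : ℝ) (162 / 9757 : ℝ) (1800 / 9757 : ℝ) (324 / 9757 : ℝ) ((7 / 10 : ℝ) * (1 : ℝ)) u s t -
      (113 / 100 : ℝ) * Act 5 (1354711119 / 21324586976 : ℝ) (21171 / 575663 : ℝ) (1800 / 9757 : ℝ) (324 / 9757 : ℝ) ((1 - (7 / 10 : ℝ)) * (1 - (1 : ℝ))) u s t :=
  QC.chkA (1 / 20) 0 0 (QC.rd 1620000 95199049) (QC.rd 162 9757) (QC.rd 1800 9757) (QC.rd 324 9757)
    (QC.rd 7 10) QC.r1 (QC.rd 113 100) (QC.rd 1354711119 21324586976) (QC.rd 21171 575663) (QC.rd 1800 9757) (QC.rd 324 9757) (QC.rd 28969 100000) (QC.rd 5 2)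
    (by decide +kernel) h1 h2 h3

theorem a0_1_0_2 {u s t : ℝ} (h1 : (28969 / 100000 : ℝ) ≤ u + 2) (h2 : (28969 / 100000 : ℝ) ≤ s + t + 2) (h3 : t + 1 ≤ (5 / 2 : ℝ)) :
    0 < E1 5 (1620000 / 95199049 : ℝ) (162 / 9757 : ℝ) (1800 / 9757 : ℝ) (324 / 9757 : ℝ) ((1 : ℝ) * (1 : ℝ)) u s t -
      (113 / 100 : ℝ) * Act 5 (1354711119 / 21324586976 : ℝ) (21171 / 575663 : ℝ) (1800 / 9757 : ℝ) (324 / 9757 : ℝ) ((1 - (1 : ℝ)) * (1 - (1 : ℝ))) u s t :=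
  QC.chkA (9 / 100) (19901015511 / 280837194550) 0 (QC.rd 1620000 95199049) (QC.rd 162 9757) (QC.rd 1800 9757) (QC.rd 324 9757)
    QC.r1 QC.r1 (QC.rd 113 100) (QC.rd 1354711119 21324586976) (QC.rd 21171 575663) (QC.rd 1800 9757) (QC.rd 324 9757) (QC.rd 28969 100000) (QC.rd 5 2)
    (by decide +kernel) h1 h2 h3

theorem a0_1_1_0 {u s t : ℝ} (h1 : (28969 / 100000 : ℝ) ≤ u + 2) (h2 : (28969 / 100000 : ℝ) ≤ s + t + 2) (h3 : t + 1 ≤ (5 / 2 : ℝ)) :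
    0 < E1 5 (1620000 / 95199049 : ℝ) (162 / 9757 : ℝ) (1800 / 9757 : ℝ) (1 : ℝ) ((7 / 10 : ℝ) * (7 / 10 : ℝ)) u s t -
      (166 / 5 : ℝ) * Act 5 (1354711119 / 21324586976 : ℝ) (21171 / 575663 : ℝ) (1800 / 9757 : ℝ) (324 / 9757 : ℝ) ((1 - (7 / 10 : ℝ)) * (1 - (7 / 10 : ℝ))) u s t :=
  QC.chkA 0 0 1 (QC.rd 1620000 95199049) (QC.rd 162 9757) (QC.rd 1800 9757) QC.r1
    (QC.rd 7 10) (QC.rd 7 10) (QC.rd 166 5) (QC.rd 1354711119 21324586976) (QC.rd 21171 575663) (QC.rd 1800 9757) (QC.rd 324 9757) (QC.rd 28969 100000) (QC.rd 5 2)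
    (by decide +kernel) h1 h2 h3

theorem a0_1_1_1 {u s t : ℝ} (h1 : (28969 / 100000 : ℝ) ≤ u + 2) (h2 : (28969 / 100000 : ℝ) ≤ s + t + 2) (h3 : t + 1 ≤ (5 / 2 : ℝ)) :
    0 < E1 5 (1620000 / 95199049 : ℝ) (162 / 9757 : ℝ) (1800 / 9757 : ℝ) (1 : ℝ) ((7 / 10 : ℝ) * (1 : ℝ)) u s t -
      (166 / 5 : ℝ) * Act 5 (1354711119 / 21324586976 : ℝ) (21171 / 575663 : ℝ) (1800 / 9757 : ℝ) (324 / 9757 : ℝ) ((1 - (7 / 10 : ℝ)) * (1 - (1 : ℝ))) u s t :=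
  QC.chkA 1 0 0 (QC.rd 1620000 95199049) (QC.rd 162 9757) (QC.rd 1800 9757) QC.r1
    (QC.rd 7 10) QC.r1 (QC.rd 166 5) (QC.rd 1354711119 21324586976) (QC.rd 21171 575663) (QC.rd 1800 9757) (QC.rd 324 9757) (QC.rd 28969 100000) (QC.rd 5 2)
    (by decide +kernel) h1 h2 h3

theorem a0_1_1_2 {u s t : ℝ} (h1 : (28969 / 100000 : ℝ) ≤ u + 2) (h2 : (28969 / 100000 : ℝ) ≤ s + t + 2) (h3 : t + 1 ≤ (5 / 2 : ℝ)) :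
    0 < E1 5 (1620000 / 95199049 : ℝ) (162 / 9757 : ℝ) (1800 / 9757 : ℝ) (1 : ℝ) ((1 : ℝ) * (1 : ℝ)) u s t -
      (166 / 5 : ℝ) * Act 5 (1354711119 / 21324586976 : ℝ) (21171 / 575663 : ℝ) (1800 / 9757 : ℝ) (324 / 9757 : ℝ) ((1 - (1 : ℝ)) * (1 - (1 : ℝ))) u s t :=
  QC.chkA (273 / 100) (5966772 / 2878315) 0 (QC.rd 1620000 95199049) (QC.rd 162 9757) (QC.rd 1800 9757) QC.r1
    QC.r1 QC.r1 (QC.rd 166 5) (QC.rd 1354711119 21324586976) (QC.rd 21171 575663) (QC.rd 1800 9757) (QC.rd 324 9757) (QC.rd 28969 100000) (QC.rd 5 2)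
    (by decide +kernel) h1 h2 h3

theorem a1_0_0_0 {u s t : ℝ} (h1 : (28969 / 100000 : ℝ) ≤ u + 2) (h2 : (28969 / 100000 : ℝ) ≤ s + t + 2) (h3 : t + 1 ≤ (5 / 2 : ℝ)) :
    0 < E1 5 (1620000 / 95199049 : ℝ) (162 / 9757 : ℝ) (1800 / 9757 : ℝ) (1 : ℝ) ((0 : ℝ) * (0 : ℝ)) u s t -
      (327 / 100 : ℝ) * Act 5 (1354711119 / 21324586976 : ℝ) (21171 / 575663 : ℝ) (1800 / 9757 : ℝ) (1 : ℝ) ((1 - (0 : ℝ)) * (1 - (0 : ℝ))) u s t :=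
  QC.chkA 0 0 0 (QC.rd 1620000 95199049) (QC.rd 162 9757) (QC.rd 1800 9757) QC.r1
    QC.r0 QC.r0 (QC.rd 327 100) (QC.rd 1354711119 21324586976) (QC.rd 21171 575663) (QC.rd 1800 9757) QC.r1 (QC.rd 28969 100000) (QC.rd 5 2)
    (by decide +kernel) h1 h2 h3

theorem a1_0_0_1 {u s t : ℝ} (h1 : (28969 / 100000 : ℝ) ≤ u + 2) (h2 : (28969 / 100000 : ℝ) ≤ s + t + 2) (h3 : t + 1 ≤ (5 / 2 : ℝ)) :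
    0 < E1 5 (1620000 / 95199049 : ℝ) (162 / 9757 : ℝ) (1800 / 9757 : ℝ) (1 : ℝ) ((0 : ℝ) * (9 / 10 : ℝ)) u s t -
      (327 / 100 : ℝ) * Act 5 (1354711119 / 21324586976 : ℝ) (21171 / 575663 : ℝ) (1800 / 9757 : ℝ) (1 : ℝ) ((1 - (0 : ℝ)) * (1 - (9 / 10 : ℝ))) u s t :=
  QC.chkA 0 0 0 (QC.rd 1620000 95199049) (QC.rd 162 9757) (QC.rd 1800 9757) QC.r1
    QC.r0 (QC.rd 9 10) (QC.rd 327 100) (QC.rd 1354711119 21324586976) (QC.rd 21171 575663) (QC.rd 1800 9757) QC.r1 (QC.rd 28969 100000) (QC.rd 5 2)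
    (by decide +kernel) h1 h2 h3

theorem a1_0_0_2 {u s t : ℝ} (h1 : (28969 / 100000 : ℝ) ≤ u + 2) (h2 : (28969 / 100000 : ℝ) ≤ s + t + 2) (h3 : t + 1 ≤ (5 / 2 : ℝ)) :
    0 < E1 5 (1620000 / 95199049 : ℝ) (162 / 9757 : ℝ) (1800 / 9757 : ℝ) (1 : ℝ) ((9 / 10 : ℝ) * (9 / 10 : ℝ)) u s t -
      (327 / 100 : ℝ) * Act 5 (1354711119 / 21324586976 : ℝ) (21171 / 575663 : ℝ) (1800 / 9757 : ℝ) (1 : ℝ) ((1 - (9 / 10 : ℝ)) * (1 - (9 / 10 : ℝ))) u s t :=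
  QC.chkA 0 0 0 (QC.rd 1620000 95199049) (QC.rd 162 9757) (QC.rd 1800 9757) QC.r1
    (QC.rd 9 10) (QC.rd 9 10) (QC.rd 327 100) (QC.rd 1354711119 21324586976) (QC.rd 21171 575663) (QC.rd 1800 9757) QC.r1 (QC.rd 28969 100000) (QC.rd 5 2)
    (by decide +kernel) h1 h2 h3

theorem a1_0_1_0 {u s t : ℝ} (h1 : (28969 / 100000 : ℝ) ≤ u + 2) (h2 : (28969 / 100000 : ℝ) ≤ s + t + 2) (h3 : t + 1 ≤ (5 / 2 : ℝ)) :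
    0 < E1 5 (1620000 / 95199049 : ℝ) (162 / 9757 : ℝ) (1800 / 9757 : ℝ) (5 / 2 : ℝ) ((0 : ℝ) * (0 : ℝ)) u s t -
      (39 / 5 : ℝ) * Act 5 (1354711119 / 21324586976 : ℝ) (21171 / 575663 : ℝ) (1800 / 9757 : ℝ) (1 : ℝ) ((1 - (0 : ℝ)) * (1 - (0 : ℝ))) u s t :=
  QC.chkA 0 0 0 (QC.rd 1620000 95199049) (QC.rd 162 9757) (QC.rd 1800 9757) (QC.rd 5 2)
    QC.r0 QC.r0 (QC.rd 39 5) (QC.rd 1354711119 21324586976) (QC.rd 21171 575663) (QC.rd 1800 9757) QC.r1 (QC.rd 28969 100000) (QC.rd 5 2)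
    (by decide +kernel) h1 h2 h3

theorem a1_0_1_1 {u s t : ℝ} (h1 : (28969 / 100000 : ℝ) ≤ u + 2) (h2 : (28969 / 100000 : ℝ) ≤ s + t + 2) (h3 : t + 1 ≤ (5 / 2 : ℝ)) :
    0 < E1 5 (1620000 / 95199049 : ℝ) (162 / 9757 : ℝ) (1800 / 9757 : ℝ) (5 / 2 : ℝ) ((0 : ℝ) * (9 / 10 : ℝ)) u s t -
      (39 / 5 : ℝ) * Act 5 (1354711119 / 21324586976 : ℝ) (21171 / 575663 : ℝ) (1800 / 9757 : ℝ) (1 : ℝ) ((1 - (0 : ℝ)) * (1 - (9 / 10 : ℝ))) u s t :=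
  QC.chkA 0 0 0 (QC.rd 1620000 95199049) (QC.rd 162 9757) (QC.rd 1800 9757) (QC.rd 5 2)
    QC.r0 (QC.rd 9 10) (QC.rd 39 5) (QC.rd 1354711119 21324586976) (QC.rd 21171 575663) (QC.rd 1800 9757) QC.r1 (QC.rd 28969 100000) (QC.rd 5 2)
    (by decide +kernel) h1 h2 h3

theorem a1_0_1_2 {u s t : ℝ} (h1 : (28969 / 100000 : ℝ) ≤ u + 2) (h2 : (28969 / 100000 : ℝ) ≤ s + t + 2) (h3 : t + 1 ≤ (5 / 2 : ℝ)) :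
    0 < E1 5 (1620000 / 95199049 : ℝ) (162 / 9757 : ℝ) (1800 / 9757 : ℝ) (5 / 2 : ℝ) ((9 / 10 : ℝ) * (9 / 10 : ℝ)) u s t -
      (39 / 5 : ℝ) * Act 5 (1354711119 / 21324586976 : ℝ) (21171 / 575663 : ℝ) (1800 / 9757 : ℝ) (1 : ℝ) ((1 - (9 / 10 : ℝ)) * (1 - (9 / 10 : ℝ))) u s t :=
  QC.chkA 0 0 0 (QC.rd 1620000 95199049) (QC.rd 162 9757) (QC.rd 1800 9757) (QC.rd 5 2)
    (QC.rd 9 10) (QC.rd 9 10) (QC.rd 39 5) (QC.rd 1354711119 21324586976) (QC.rd 21171 575663) (QC.rd 1800 9757) QC.r1 (QC.rd 28969 100000) (QC.rd 5 2)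
    (by decide +kernel) h1 h2 h3

theorem a1_1_0_0 {u s t : ℝ} (h1 : (28969 / 100000 : ℝ) ≤ u + 2) (h2 : (28969 / 100000 : ℝ) ≤ s + t + 2) (h3 : t + 1 ≤ (5 / 2 : ℝ)) :
    0 < E1 5 (1620000 / 95199049 : ℝ) (162 / 9757 : ℝ) (1800 / 9757 : ℝ) (1 : ℝ) ((9 / 10 : ℝ) * (9 / 10 : ℝ)) u s t -
      (1000 : ℝ) * Act 5 (1354711119 / 21324586976 : ℝ) (21171 / 575663 : ℝ) (1800 / 9757 : ℝ) (1 : ℝ) ((1 - (9 / 10 : ℝ)) * (1 - (9 / 10 : ℝ))) u s t :=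
  QC.chkA 70 72 9 (QC.rd 1620000 95199049) (QC.rd 162 9757) (QC.rd 1800 9757) QC.r1
    (QC.rd 9 10) (QC.rd 9 10) (QC.rn 1000) (QC.rd 1354711119 21324586976) (QC.rd 21171 575663) (QC.rd 1800 9757) QC.r1 (QC.rd 28969 100000) (QC.rd 5 2)
    (by decide +kernel) h1 h2 h3

theorem a1_1_0_1 {u s t : ℝ} (h1 : (28969 / 100000 : ℝ) ≤ u + 2) (h2 : (28969 / 100000 : ℝ) ≤ s + t + 2) (h3 : t + 1 ≤ (5 / 2 : ℝ)) :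
    0 < E1 5 (1620000 / 95199049 : ℝ) (162 / 9757 : ℝ) (1800 / 9757 : ℝ) (1 : ℝ) ((9 / 10 : ℝ) * (1 : ℝ)) u s t -
      (1000 : ℝ) * Act 5 (1354711119 / 21324586976 : ℝ) (21171 / 575663 : ℝ) (1800 / 9757 : ℝ) (1 : ℝ) ((1 - (9 / 10 : ℝ)) * (1 - (1 : ℝ))) u s t :=
  QC.chkA 73 73 0 (QC.rd 1620000 95199049) (QC.rd 162 9757) (QC.rd 1800 9757) QC.r1
    (QC.rd 9 10) QC.r1 (QC.rn 1000) (QC.rd 1354711119 21324586976) (QC.rd 21171 575663) (QC.rd 1800 9757) QC.r1 (QC.rd 28969 100000) (QC.rd 5 2)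
    (by decide +kernel) h1 h2 h3

theorem a1_1_0_2 {u s t : ℝ} (h1 : (28969 / 100000 : ℝ) ≤ u + 2) (h2 : (28969 / 100000 : ℝ) ≤ s + t + 2) (h3 : t + 1 ≤ (5 / 2 : ℝ)) :
    0 < E1 5 (1620000 / 95199049 : ℝ) (162 / 9757 : ℝ) (1800 / 9757 : ℝ) (1 : ℝ) ((1 : ℝ) * (1 : ℝ)) u s t -
      (1000 : ℝ) * Act 5 (1354711119 / 21324586976 : ℝ) (21171 / 575663 : ℝ) (1800 / 9757 : ℝ) (1 : ℝ) ((1 - (1 : ℝ)) * (1 - (1 : ℝ))) u s t :=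
  QC.chkA (2076570175404 / 28083719455) (42129600 / 575663) 0 (QC.rd 1620000 95199049) (QC.rd 162 9757) (QC.rd 1800 9757) QC.r1
    QC.r1 QC.r1 (QC.rn 1000) (QC.rd 1354711119 21324586976) (QC.rd 21171 575663) (QC.rd 1800 9757) QC.r1 (QC.rd 28969 100000) (QC.rd 5 2)
    (by decide +kernel) h1 h2 h3

theorem a1_1_1_0 {u s t : ℝ} (h1 : (28969 / 100000 : ℝ) ≤ u + 2) (h2 : (28969 / 100000 : ℝ) ≤ s + t + 2) (h3 : t + 1 ≤ (5 / 2 : ℝ)) :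
    0 < E1 5 (1620000 / 95199049 : ℝ) (162 / 9757 : ℝ) (1800 / 9757 : ℝ) (5 / 2 : ℝ) ((9 / 10 : ℝ) * (9 / 10 : ℝ)) u s t -
      (1000 : ℝ) * Act 5 (1354711119 / 21324586976 : ℝ) (21171 / 575663 : ℝ) (1800 / 9757 : ℝ) (1 : ℝ) ((1 - (9 / 10 : ℝ)) * (1 - (9 / 10 : ℝ))) u s t :=
  QC.chkA 69 70 8 (QC.rd 1620000 95199049) (QC.rd 162 9757) (QC.rd 1800 9757) (QC.rd 5 2)
    (QC.rd 9 10) (QC.rd 9 10) (QC.rn 1000) (QC.rd 1354711119 21324586976) (QC.rd 21171 575663) (QC.rd 1800 9757) QC.r1 (QC.rd 28969 100000) (QC.rd 5 2)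
    (by decide +kernel) h1 h2 h3

theorem a1_1_1_1 {u s t : ℝ} (h1 : (28969 / 100000 : ℝ) ≤ u + 2) (h2 : (28969 / 100000 : ℝ) ≤ s + t + 2) (h3 : t + 1 ≤ (5 / 2 : ℝ)) :
    0 < E1 5 (1620000 / 95199049 : ℝ) (162 / 9757 : ℝ) (1800 / 9757 : ℝ) (5 / 2 : ℝ) ((9 / 10 : ℝ) * (1 : ℝ)) u s t -
      (1000 : ℝ) * Act 5 (1354711119 / 21324586976 : ℝ) (21171 / 575663 : ℝ) (1800 / 9757 : ℝ) (1 : ℝ) ((1 - (9 / 10 : ℝ)) * (1 - (1 : ℝ))) u s t :=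
  QC.chkA 73 72 0 (QC.rd 1620000 95199049) (QC.rd 162 9757) (QC.rd 1800 9757) (QC.rd 5 2)
    (QC.rd 9 10) QC.r1 (QC.rn 1000) (QC.rd 1354711119 21324586976) (QC.rd 21171 575663) (QC.rd 1800 9757) QC.r1 (QC.rd 28969 100000) (QC.rd 5 2)
    (by decide +kernel) h1 h2 h3

theorem a1_1_1_2 {u s t : ℝ} (h1 : (28969 / 100000 : ℝ) ≤ u + 2) (h2 : (28969 / 100000 : ℝ) ≤ s + t + 2) (h3 : t + 1 ≤ (5 / 2 : ℝ)) :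
    0 < E1 5 (1620000 / 95199049 : ℝ) (162 / 9757 : ℝ) (1800 / 9757 : ℝ) (5 / 2 : ℝ) ((1 : ℝ) * (1 : ℝ)) u s t -
      (1000 : ℝ) * Act 5 (1354711119 / 21324586976 : ℝ) (21171 / 575663 : ℝ) (1800 / 9757 : ℝ) (1 : ℝ) ((1 - (1 : ℝ)) * (1 - (1 : ℝ))) u s t :=
  QC.chkA (2092113076404 / 28083719455) (3801000 / 52333) 0 (QC.rd 1620000 95199049) (QC.rd 162 9757) (QC.rd 1800 9757) (QC.rd 5 2)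
    QC.r1 QC.r1 (QC.rn 1000) (QC.rd 1354711119 21324586976) (QC.rd 21171 575663) (QC.rd 1800 9757) QC.r1 (QC.rd 28969 100000) (QC.rd 5 2)
    (by decide +kernel) h1 h2 h3

theorem pathA {β la : ℝ} {u s t : ℝ} (h1 : (28969 / 100000 : ℝ) ≤ u + 2) (h2 : (28969 / 100000 : ℝ) ≤ s + t + 2) (h3 : t + 1 ≤ (5 / 2 : ℝ))
    (β0 : (324 / 9757 : ℝ) ≤ β) (β1 : β ≤ (5 / 2 : ℝ)) (la0 : (0 : ℝ) ≤ la) (la1 : la ≤ (1 : ℝ))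
    (h4 : 0 ≤ Act 5 (1354711119 / 21324586976 : ℝ) (21171 / 575663 : ℝ) (1800 / 9757 : ℝ) β ((1 - la) ^ 2) u s t) :
    0 < E1 5 (1620000 / 95199049 : ℝ) (162 / 9757 : ℝ) (1800 / 9757 : ℝ) β (la ^ 2) u s t := by
  rcases le_total β (1 : ℝ) with βh0 | βl0
  · rcases le_total la (7 / 10 : ℝ) with lah0 | lal0
    · exact cellA β0 βh0 (by norm_num) la0 lah0 h4 (by norm_num) (by norm_num)
        (a0_0_0_0 h1 h2 h3) (a0_0_0_1 h1 h2 h3) (a0_0_0_2 h1 h2 h3) (a0_0_1_0 h1 h2 h3) (a0_0_1_1 h1 h2 h3) (a0_0_1_2 h1 h2 h3)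
    exact cellA β0 βh0 (by norm_num) lal0 la1 h4 (by norm_num) (by norm_num)
      (a0_1_0_0 h1 h2 h3) (a0_1_0_1 h1 h2 h3) (a0_1_0_2 h1 h2 h3) (a0_1_1_0 h1 h2 h3) (a0_1_1_1 h1 h2 h3) (a0_1_1_2 h1 h2 h3)
  rcases le_total la (9 / 10 : ℝ) with lah0 | lal0
  · exact cellA βl0 β1 (by norm_num) la0 lah0 h4 (by norm_num) (by norm_num)
      (a1_0_0_0 h1 h2 h3) (a1_0_0_1 h1 h2 h3) (a1_0_0_2 h1 h2 h3) (a1_0_1_0 h1 h2 h3) (a1_0_1_1 h1 h2 h3) (a1_0_1_2 h1 h2 h3)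
  exact cellA βl0 β1 (by norm_num) lal0 la1 h4 (by norm_num) (by norm_num)
    (a1_1_0_0 h1 h2 h3) (a1_1_0_1 h1 h2 h3) (a1_1_0_2 h1 h2 h3) (a1_1_1_0 h1 h2 h3) (a1_1_1_1 h1 h2 h3) (a1_1_1_2 h1 h2 h3)

theorem b0_0_0_0_0 {u s t : ℝ} (h1 : (28969 / 100000 : ℝ) ≤ u + 2) (h2 : (28969 / 100000 : ℝ) ≤ s + t + 2) (h3 : t + 1 ≤ (5 / 2 : ℝ)) :
    0 < E2 5 (162 / 9757 : ℝ) (0 : ℝ) ((0 : ℝ) * (0 : ℝ)) u s t -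
      (943 / 1000 : ℝ) * Act 5 (327 / 3808 : ℝ) (3 / 59 : ℝ) (0 : ℝ) (0 : ℝ) ((1 - (0 : ℝ)) * (1 - (0 : ℝ))) u s t :=
  QC.chkB 0 0 0 (QC.rd 162 9757) QC.r0
    QC.r0 QC.r0 (QC.rd 943 1000) (QC.rd 327 3808) (QC.rd 3 59) QC.r0 QC.r0 (QC.rd 28969 100000) (QC.rd 5 2)
    (by decide +kernel) h1 h2 h3

theorem b0_0_0_0_1 {u s t : ℝ} (h1 : (28969 / 100000 : ℝ) ≤ u + 2) (h2 : (28969 / 100000 : ℝ) ≤ s + t + 2) (h3 : t + 1 ≤ (5 / 2 : ℝ)) :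
    0 < E2 5 (162 / 9757 : ℝ) (0 : ℝ) ((0 : ℝ) * (4 / 5 : ℝ)) u s t -
      (943 / 1000 : ℝ) * Act 5 (327 / 3808 : ℝ) (3 / 59 : ℝ) (0 : ℝ) (0 : ℝ) ((1 - (0 : ℝ)) * (1 - (4 / 5 : ℝ))) u s t :=
  QC.chkB 0 0 0 (QC.rd 162 9757) QC.r0
    QC.r0 (QC.rd 4 5) (QC.rd 943 1000) (QC.rd 327 3808) (QC.rd 3 59) QC.r0 QC.r0 (QC.rd 28969 100000) (QC.rd 5 2)
    (by decide +kernel) h1 h2 h3

theorem b0_0_0_0_2 {u s t : ℝ} (h1 : (28969 / 100000 : ℝ) ≤ u + 2) (h2 : (28969 / 100000 : ℝ) ≤ s + t + 2) (h3 : t + 1 ≤ (5 / 2 : ℝ)) :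
    0 < E2 5 (162 / 9757 : ℝ) (0 : ℝ) ((4 / 5 : ℝ) * (4 / 5 : ℝ)) u s t -
      (943 / 1000 : ℝ) * Act 5 (327 / 3808 : ℝ) (3 / 59 : ℝ) (0 : ℝ) (0 : ℝ) ((1 - (4 / 5 : ℝ)) * (1 - (4 / 5 : ℝ))) u s t :=
  QC.chkB 0 0 0 (QC.rd 162 9757) QC.r0
    (QC.rd 4 5) (QC.rd 4 5) (QC.rd 943 1000) (QC.rd 327 3808) (QC.rd 3 59) QC.r0 QC.r0 (QC.rd 28969 100000) (QC.rd 5 2)
    (by decide +kernel) h1 h2 h3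

theorem b0_0_0_1_0 {u s t : ℝ} (h1 : (28969 / 100000 : ℝ) ≤ u + 2) (h2 : (28969 / 100000 : ℝ) ≤ s + t + 2) (h3 : t + 1 ≤ (5 / 2 : ℝ)) :
    0 < E2 5 (162 / 9757 : ℝ) (1800 / 9757 : ℝ) ((0 : ℝ) * (0 : ℝ)) u s t -
      (133 / 50 : ℝ) * Act 5 (327 / 3808 : ℝ) (3 / 59 : ℝ) (0 : ℝ) (0 : ℝ) ((1 - (0 : ℝ)) * (1 - (0 : ℝ))) u s t :=
  QC.chkB 0 0 0 (QC.rd 162 9757) (QC.rd 1800 9757)
    QC.r0 QC.r0 (QC.rd 133 50) (QC.rd 327 3808) (QC.rd 3 59) QC.r0 QC.r0 (QC.rd 28969 100000) (QC.rd 5 2)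
    (by decide +kernel) h1 h2 h3

theorem b0_0_0_1_1 {u s t : ℝ} (h1 : (28969 / 100000 : ℝ) ≤ u + 2) (h2 : (28969 / 100000 : ℝ) ≤ s + t + 2) (h3 : t + 1 ≤ (5 / 2 : ℝ)) :
    0 < E2 5 (162 / 9757 : ℝ) (1800 / 9757 : ℝ) ((0 : ℝ) * (4 / 5 : ℝ)) u s t -
      (133 / 50 : ℝ) * Act 5 (327 / 3808 : ℝ) (3 / 59 : ℝ) (0 : ℝ) (0 : ℝ) ((1 - (0 : ℝ)) * (1 - (4 / 5 : ℝ))) u s t :=
  QC.chkB 0 0 0 (QC.rd 162 9757) (QC.rd 1800 9757)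
    QC.r0 (QC.rd 4 5) (QC.rd 133 50) (QC.rd 327 3808) (QC.rd 3 59) QC.r0 QC.r0 (QC.rd 28969 100000) (QC.rd 5 2)
    (by decide +kernel) h1 h2 h3

theorem b0_0_0_1_2 {u s t : ℝ} (h1 : (28969 / 100000 : ℝ) ≤ u + 2) (h2 : (28969 / 100000 : ℝ) ≤ s + t + 2) (h3 : t + 1 ≤ (5 / 2 : ℝ)) :
    0 < E2 5 (162 / 9757 : ℝ) (1800 / 9757 : ℝ) ((4 / 5 : ℝ) * (4 / 5 : ℝ)) u s t -
      (133 / 50 : ℝ) * Act 5 (327 / 3808 : ℝ) (3 / 59 : ℝ) (0 : ℝ) (0 : ℝ) ((1 - (4 / 5 : ℝ)) * (1 - (4 / 5 : ℝ))) u s t :=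
  QC.chkB 0 0 0 (QC.rd 162 9757) (QC.rd 1800 9757)
    (QC.rd 4 5) (QC.rd 4 5) (QC.rd 133 50) (QC.rd 327 3808) (QC.rd 3 59) QC.r0 QC.r0 (QC.rd 28969 100000) (QC.rd 5 2)
    (by decide +kernel) h1 h2 h3

theorem b0_0_1_0_0 {u s t : ℝ} (h1 : (28969 / 100000 : ℝ) ≤ u + 2) (h2 : (28969 / 100000 : ℝ) ≤ s + t + 2) (h3 : t + 1 ≤ (5 / 2 : ℝ)) :
    0 < E2 5 (162 / 9757 : ℝ) (0 : ℝ) ((4 / 5 : ℝ) * (4 / 5 : ℝ)) u s t -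
      (0 : ℝ) * Act 5 (327 / 3808 : ℝ) (3 / 59 : ℝ) (0 : ℝ) (0 : ℝ) ((1 - (4 / 5 : ℝ)) * (1 - (4 / 5 : ℝ))) u s t :=
  QC.chkB 0 0 0 (QC.rd 162 9757) QC.r0
    (QC.rd 4 5) (QC.rd 4 5) QC.r0 (QC.rd 327 3808) (QC.rd 3 59) QC.r0 QC.r0 (QC.rd 28969 100000) (QC.rd 5 2)
    (by decide +kernel) h1 h2 h3

theorem b0_0_1_0_1 {u s t : ℝ} (h1 : (28969 / 100000 : ℝ) ≤ u + 2) (h2 : (28969 / 100000 : ℝ) ≤ s + t + 2) (h3 : t + 1 ≤ (5 / 2 : ℝ)) :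
    0 < E2 5 (162 / 9757 : ℝ) (0 : ℝ) ((4 / 5 : ℝ) * (1 : ℝ)) u s t -
      (0 : ℝ) * Act 5 (327 / 3808 : ℝ) (3 / 59 : ℝ) (0 : ℝ) (0 : ℝ) ((1 - (4 / 5 : ℝ)) * (1 - (1 : ℝ))) u s t :=
  QC.chkB 0 0 0 (QC.rd 162 9757) QC.r0
    (QC.rd 4 5) QC.r1 QC.r0 (QC.rd 327 3808) (QC.rd 3 59) QC.r0 QC.r0 (QC.rd 28969 100000) (QC.rd 5 2)
    (by decide +kernel) h1 h2 h3

theorem b0_0_1_0_2 {u s t : ℝ} (h1 : (28969 / 100000 : ℝ) ≤ u + 2) (h2 : (28969 / 100000 : ℝ) ≤ s + t + 2) (h3 : t + 1 ≤ (5 / 2 : ℝ)) :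
    0 < E2 5 (162 / 9757 : ℝ) (0 : ℝ) ((1 : ℝ) * (1 : ℝ)) u s t -
      (0 : ℝ) * Act 5 (327 / 3808 : ℝ) (3 / 59 : ℝ) (0 : ℝ) (0 : ℝ) ((1 - (1 : ℝ)) * (1 - (1 : ℝ))) u s t :=
  QC.chkB (1 / 100) 0 0 (QC.rd 162 9757) QC.r0
    QC.r1 QC.r1 QC.r0 (QC.rd 327 3808) (QC.rd 3 59) QC.r0 QC.r0 (QC.rd 28969 100000) (QC.rd 5 2)
    (by decide +kernel) h1 h2 h3

theorem b0_0_1_1_0 {u s t : ℝ} (h1 : (28969 / 100000 : ℝ) ≤ u + 2) (h2 : (28969 / 100000 : ℝ) ≤ s + t + 2) (h3 : t + 1 ≤ (5 / 2 : ℝ)) :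
    0 < E2 5 (162 / 9757 : ℝ) (1800 / 9757 : ℝ) ((4 / 5 : ℝ) * (4 / 5 : ℝ)) u s t -
      (363 / 50 : ℝ) * Act 5 (327 / 3808 : ℝ) (3 / 59 : ℝ) (0 : ℝ) (0 : ℝ) ((1 - (4 / 5 : ℝ)) * (1 - (4 / 5 : ℝ))) u s t :=
  QC.chkB 0 0 0 (QC.rd 162 9757) (QC.rd 1800 9757)
    (QC.rd 4 5) (QC.rd 4 5) (QC.rd 363 50) (QC.rd 327 3808) (QC.rd 3 59) QC.r0 QC.r0 (QC.rd 28969 100000) (QC.rd 5 2)
    (by decide +kernel) h1 h2 h3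

theorem b0_0_1_1_1 {u s t : ℝ} (h1 : (28969 / 100000 : ℝ) ≤ u + 2) (h2 : (28969 / 100000 : ℝ) ≤ s + t + 2) (h3 : t + 1 ≤ (5 / 2 : ℝ)) :
    0 < E2 5 (162 / 9757 : ℝ) (1800 / 9757 : ℝ) ((4 / 5 : ℝ) * (1 : ℝ)) u s t -
      (363 / 50 : ℝ) * Act 5 (327 / 3808 : ℝ) (3 / 59 : ℝ) (0 : ℝ) (0 : ℝ) ((1 - (4 / 5 : ℝ)) * (1 - (1 : ℝ))) u s t :=
  QC.chkB 0 0 0 (QC.rd 162 9757) (QC.rd 1800 9757)
    (QC.rd 4 5) QC.r1 (QC.rd 363 50) (QC.rd 327 3808) (QC.rd 3 59) QC.r0 QC.r0 (QC.rd 28969 100000) (QC.rd 5 2)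
    (by decide +kernel) h1 h2 h3

theorem b0_0_1_1_2 {u s t : ℝ} (h1 : (28969 / 100000 : ℝ) ≤ u + 2) (h2 : (28969 / 100000 : ℝ) ≤ s + t + 2) (h3 : t + 1 ≤ (5 / 2 : ℝ)) :
    0 < E2 5 (162 / 9757 : ℝ) (1800 / 9757 : ℝ) ((1 : ℝ) * (1 : ℝ)) u s t -
      (363 / 50 : ℝ) * Act 5 (327 / 3808 : ℝ) (3 / 59 : ℝ) (0 : ℝ) (0 : ℝ) ((1 - (1 : ℝ)) * (1 - (1 : ℝ))) u s t :=
  QC.chkB (8 / 5) (5373 / 14391575) 0 (QC.rd 162 9757) (QC.rd 1800 9757)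
    QC.r1 QC.r1 (QC.rd 363 50) (QC.rd 327 3808) (QC.rd 3 59) QC.r0 QC.r0 (QC.rd 28969 100000) (QC.rd 5 2)
    (by decide +kernel) h1 h2 h3

theorem b0_1_0_0_0 {u s t : ℝ} (h1 : (28969 / 100000 : ℝ) ≤ u + 2) (h2 : (28969 / 100000 : ℝ) ≤ s + t + 2) (h3 : t + 1 ≤ (5 / 2 : ℝ)) :
    0 < E2 5 (162 / 9757 : ℝ) (0 : ℝ) ((0 : ℝ) * (0 : ℝ)) u s t -
      (897 / 1000 : ℝ) * Act 5 (1354711119 / 21324586976 : ℝ) (21171 / 575663 : ℝ) (0 : ℝ) (324 / 9757 : ℝ) ((1 - (0 : ℝ)) * (1 - (0 : ℝ))) u s t :=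
  QC.chkB 0 0 0 (QC.rd 162 9757) QC.r0
    QC.r0 QC.r0 (QC.rd 897 1000) (QC.rd 1354711119 21324586976) (QC.rd 21171 575663) QC.r0 (QC.rd 324 9757) (QC.rd 28969 100000) (QC.rd 5 2)
    (by decide +kernel) h1 h2 h3

theorem b0_1_0_0_1 {u s t : ℝ} (h1 : (28969 / 100000 : ℝ) ≤ u + 2) (h2 : (28969 / 100000 : ℝ) ≤ s + t + 2) (h3 : t + 1 ≤ (5 / 2 : ℝ)) :
    0 < E2 5 (162 / 9757 : ℝ) (0 : ℝ) ((0 : ℝ) * (4 / 5 : ℝ)) u s t -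
      (897 / 1000 : ℝ) * Act 5 (1354711119 / 21324586976 : ℝ) (21171 / 575663 : ℝ) (0 : ℝ) (324 / 9757 : ℝ) ((1 - (0 : ℝ)) * (1 - (4 / 5 : ℝ))) u s t :=
  QC.chkB 0 0 0 (QC.rd 162 9757) QC.r0
    QC.r0 (QC.rd 4 5) (QC.rd 897 1000) (QC.rd 1354711119 21324586976) (QC.rd 21171 575663) QC.r0 (QC.rd 324 9757) (QC.rd 28969 100000) (QC.rd 5 2)
    (by decide +kernel) h1 h2 h3

theorem b0_1_0_0_2 {u s t : ℝ} (h1 : (28969 / 100000 : ℝ) ≤ u + 2) (h2 : (28969 / 100000 : ℝ) ≤ s + t + 2) (h3 : t + 1 ≤ (5 / 2 : ℝ)) :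
    0 < E2 5 (162 / 9757 : ℝ) (0 : ℝ) ((4 / 5 : ℝ) * (4 / 5 : ℝ)) u s t -
      (897 / 1000 : ℝ) * Act 5 (1354711119 / 21324586976 : ℝ) (21171 / 575663 : ℝ) (0 : ℝ) (324 / 9757 : ℝ) ((1 - (4 / 5 : ℝ)) * (1 - (4 / 5 : ℝ))) u s t :=
  QC.chkB 0 0 0 (QC.rd 162 9757) QC.r0
    (QC.rd 4 5) (QC.rd 4 5) (QC.rd 897 1000) (QC.rd 1354711119 21324586976) (QC.rd 21171 575663) QC.r0 (QC.rd 324 9757) (QC.rd 28969 100000) (QC.rd 5 2)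
    (by decide +kernel) h1 h2 h3

theorem b0_1_0_1_0 {u s t : ℝ} (h1 : (28969 / 100000 : ℝ) ≤ u + 2) (h2 : (28969 / 100000 : ℝ) ≤ s + t + 2) (h3 : t + 1 ≤ (5 / 2 : ℝ)) :
    0 < E2 5 (162 / 9757 : ℝ) (1800 / 9757 : ℝ) ((0 : ℝ) * (0 : ℝ)) u s t -
      (51 / 20 : ℝ) * Act 5 (1354711119 / 21324586976 : ℝ) (21171 / 575663 : ℝ) (0 : ℝ) (324 / 9757 : ℝ) ((1 - (0 : ℝ)) * (1 - (0 : ℝ))) u s t :=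
  QC.chkB 0 0 0 (QC.rd 162 9757) (QC.rd 1800 9757)
    QC.r0 QC.r0 (QC.rd 51 20) (QC.rd 1354711119 21324586976) (QC.rd 21171 575663) QC.r0 (QC.rd 324 9757) (QC.rd 28969 100000) (QC.rd 5 2)
    (by decide +kernel) h1 h2 h3

theorem b0_1_0_1_1 {u s t : ℝ} (h1 : (28969 / 100000 : ℝ) ≤ u + 2) (h2 : (28969 / 100000 : ℝ) ≤ s + t + 2) (h3 : t + 1 ≤ (5 / 2 : ℝ)) :
    0 < E2 5 (162 / 9757 : ℝ) (1800 / 9757 : ℝ) ((0 : ℝ) * (4 / 5 : ℝ)) u s t -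
      (51 / 20 : ℝ) * Act 5 (1354711119 / 21324586976 : ℝ) (21171 / 575663 : ℝ) (0 : ℝ) (324 / 9757 : ℝ) ((1 - (0 : ℝ)) * (1 - (4 / 5 : ℝ))) u s t :=
  QC.chkB 0 0 0 (QC.rd 162 9757) (QC.rd 1800 9757)
    QC.r0 (QC.rd 4 5) (QC.rd 51 20) (QC.rd 1354711119 21324586976) (QC.rd 21171 575663) QC.r0 (QC.rd 324 9757) (QC.rd 28969 100000) (QC.rd 5 2)
    (by decide +kernel) h1 h2 h3

theorem b0_1_0_1_2 {u s t : ℝ} (h1 : (28969 / 100000 : ℝ) ≤ u + 2) (h2 : (28969 / 100000 : ℝ) ≤ s + t + 2) (h3 : t + 1 ≤ (5 / 2 : ℝ)) :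
    0 < E2 5 (162 / 9757 : ℝ) (1800 / 9757 : ℝ) ((4 / 5 : ℝ) * (4 / 5 : ℝ)) u s t -
      (51 / 20 : ℝ) * Act 5 (1354711119 / 21324586976 : ℝ) (21171 / 575663 : ℝ) (0 : ℝ) (324 / 9757 : ℝ) ((1 - (4 / 5 : ℝ)) * (1 - (4 / 5 : ℝ))) u s t :=
  QC.chkB 0 0 0 (QC.rd 162 9757) (QC.rd 1800 9757)
    (QC.rd 4 5) (QC.rd 4 5) (QC.rd 51 20) (QC.rd 1354711119 21324586976) (QC.rd 21171 575663) QC.r0 (QC.rd 324 9757) (QC.rd 28969 100000) (QC.rd 5 2)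
    (by decide +kernel) h1 h2 h3

theorem b0_1_1_0_0 {u s t : ℝ} (h1 : (28969 / 100000 : ℝ) ≤ u + 2) (h2 : (28969 / 100000 : ℝ) ≤ s + t + 2) (h3 : t + 1 ≤ (5 / 2 : ℝ)) :
    0 < E2 5 (162 / 9757 : ℝ) (0 : ℝ) ((4 / 5 : ℝ) * (4 / 5 : ℝ)) u s t -
      (481 / 5 : ℝ) * Act 5 (1354711119 / 21324586976 : ℝ) (21171 / 575663 : ℝ) (0 : ℝ) (324 / 9757 : ℝ) ((1 - (4 / 5 : ℝ)) * (1 - (4 / 5 : ℝ))) u s t :=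
  QC.chkB 3 3 1 (QC.rd 162 9757) QC.r0
    (QC.rd 4 5) (QC.rd 4 5) (QC.rd 481 5) (QC.rd 1354711119 21324586976) (QC.rd 21171 575663) QC.r0 (QC.rd 324 9757) (QC.rd 28969 100000) (QC.rd 5 2)
    (by decide +kernel) h1 h2 h3

theorem b0_1_1_0_1 {u s t : ℝ} (h1 : (28969 / 100000 : ℝ) ≤ u + 2) (h2 : (28969 / 100000 : ℝ) ≤ s + t + 2) (h3 : t + 1 ≤ (5 / 2 : ℝ)) :
    0 < E2 5 (162 / 9757 : ℝ) (0 : ℝ) ((4 / 5 : ℝ) * (1 : ℝ)) u s t -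
      (481 / 5 : ℝ) * Act 5 (1354711119 / 21324586976 : ℝ) (21171 / 575663 : ℝ) (0 : ℝ) (324 / 9757 : ℝ) ((1 - (4 / 5 : ℝ)) * (1 - (1 : ℝ))) u s t :=
  QC.chkB 6 6 0 (QC.rd 162 9757) QC.r0
    (QC.rd 4 5) QC.r1 (QC.rd 481 5) (QC.rd 1354711119 21324586976) (QC.rd 21171 575663) QC.r0 (QC.rd 324 9757) (QC.rd 28969 100000) (QC.rd 5 2)
    (by decide +kernel) h1 h2 h3

theorem b0_1_1_0_2 {u s t : ℝ} (h1 : (28969 / 100000 : ℝ) ≤ u + 2) (h2 : (28969 / 100000 : ℝ) ≤ s + t + 2) (h3 : t + 1 ≤ (5 / 2 : ℝ)) :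
    0 < E2 5 (162 / 9757 : ℝ) (0 : ℝ) ((1 : ℝ) * (1 : ℝ)) u s t -
      (481 / 5 : ℝ) * Act 5 (1354711119 / 21324586976 : ℝ) (21171 / 575663 : ℝ) (0 : ℝ) (324 / 9757 : ℝ) ((1 - (1 : ℝ)) * (1 - (1 : ℝ))) u s t :=
  QC.chkB (643 / 100) (20366502 / 2878315) 0 (QC.rd 162 9757) QC.r0
    QC.r1 QC.r1 (QC.rd 481 5) (QC.rd 1354711119 21324586976) (QC.rd 21171 575663) QC.r0 (QC.rd 324 9757) (QC.rd 28969 100000) (QC.rd 5 2)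
    (by decide +kernel) h1 h2 h3

theorem b0_1_1_1_0 {u s t : ℝ} (h1 : (28969 / 100000 : ℝ) ≤ u + 2) (h2 : (28969 / 100000 : ℝ) ≤ s + t + 2) (h3 : t + 1 ≤ (5 / 2 : ℝ)) :
    0 < E2 5 (162 / 9757 : ℝ) (1800 / 9757 : ℝ) ((4 / 5 : ℝ) * (4 / 5 : ℝ)) u s t -
      (106 : ℝ) * Act 5 (1354711119 / 21324586976 : ℝ) (21171 / 575663 : ℝ) (0 : ℝ) (324 / 9757 : ℝ) ((1 - (4 / 5 : ℝ)) * (1 - (4 / 5 : ℝ))) u s t :=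
  QC.chkB 5 3 1 (QC.rd 162 9757) (QC.rd 1800 9757)
    (QC.rd 4 5) (QC.rd 4 5) (QC.rn 106) (QC.rd 1354711119 21324586976) (QC.rd 21171 575663) QC.r0 (QC.rd 324 9757) (QC.rd 28969 100000) (QC.rd 5 2)
    (by decide +kernel) h1 h2 h3

theorem b0_1_1_1_1 {u s t : ℝ} (h1 : (28969 / 100000 : ℝ) ≤ u + 2) (h2 : (28969 / 100000 : ℝ) ≤ s + t + 2) (h3 : t + 1 ≤ (5 / 2 : ℝ)) :
    0 < E2 5 (162 / 9757 : ℝ) (1800 / 9757 : ℝ) ((4 / 5 : ℝ) * (1 : ℝ)) u s t -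
      (106 : ℝ) * Act 5 (1354711119 / 21324586976 : ℝ) (21171 / 575663 : ℝ) (0 : ℝ) (324 / 9757 : ℝ) ((1 - (4 / 5 : ℝ)) * (1 - (1 : ℝ))) u s t :=
  QC.chkB 8 6 0 (QC.rd 162 9757) (QC.rd 1800 9757)
    (QC.rd 4 5) QC.r1 (QC.rn 106) (QC.rd 1354711119 21324586976) (QC.rd 21171 575663) QC.r0 (QC.rd 324 9757) (QC.rd 28969 100000) (QC.rd 5 2)
    (by decide +kernel) h1 h2 h3

theorem b0_1_1_1_2 {u s t : ℝ} (h1 : (28969 / 100000 : ℝ) ≤ u + 2) (h2 : (28969 / 100000 : ℝ) ≤ s + t + 2) (h3 : t + 1 ≤ (5 / 2 : ℝ)) :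
    0 < E2 5 (162 / 9757 : ℝ) (1800 / 9757 : ℝ) ((1 : ℝ) * (1 : ℝ)) u s t -
      (106 : ℝ) * Act 5 (1354711119 / 21324586976 : ℝ) (21171 / 575663 : ℝ) (0 : ℝ) (324 / 9757 : ℝ) ((1 - (1 : ℝ)) * (1 - (1 : ℝ))) u s t :=
  QC.chkB (783 / 100) (4063452 / 575663) 0 (QC.rd 162 9757) (QC.rd 1800 9757)
    QC.r1 QC.r1 (QC.rn 106) (QC.rd 1354711119 21324586976) (QC.rd 21171 575663) QC.r0 (QC.rd 324 9757) (QC.rd 28969 100000) (QC.rd 5 2)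
    (by decide +kernel) h1 h2 h3

theorem pathB0 {α la : ℝ} {u s t : ℝ} (h1 : (28969 / 100000 : ℝ) ≤ u + 2) (h2 : (28969 / 100000 : ℝ) ≤ s + t + 2) (h3 : t + 1 ≤ (5 / 2 : ℝ))
    (α0 : (0 : ℝ) ≤ α) (α1 : α ≤ (1800 / 9757 : ℝ)) (la0 : (0 : ℝ) ≤ la) (la1 : la ≤ (1 : ℝ))
    (h4 : 0 ≤ Act 5 (327 / 3808 : ℝ) (3 / 59 : ℝ) (0 : ℝ) (0 : ℝ) ((1 - la) ^ 2) u s t ∨
      0 ≤ Act 5 (1354711119 / 21324586976 : ℝ) (21171 / 575663 : ℝ) (0 : ℝ) (324 / 9757 : ℝ) ((1 - la) ^ 2) u s t) :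
    0 < E2 5 (162 / 9757 : ℝ) α (la ^ 2) u s t := by
  rcases h4 with h4 | h4
  · rcases le_total la (4 / 5 : ℝ) with lah0 | lal0
    · exact cellB α0 α1 (by norm_num) la0 lah0 h4 (by norm_num) (by norm_num)
        (b0_0_0_0_0 h1 h2 h3) (b0_0_0_0_1 h1 h2 h3) (b0_0_0_0_2 h1 h2 h3) (b0_0_0_1_0 h1 h2 h3) (b0_0_0_1_1 h1 h2 h3) (b0_0_0_1_2 h1 h2 h3)
    exact cellB α0 α1 (by norm_num) lal0 la1 h4 (by norm_num) (by norm_num)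
      (b0_0_1_0_0 h1 h2 h3) (b0_0_1_0_1 h1 h2 h3) (b0_0_1_0_2 h1 h2 h3) (b0_0_1_1_0 h1 h2 h3) (b0_0_1_1_1 h1 h2 h3) (b0_0_1_1_2 h1 h2 h3)
  · rcases le_total la (4 / 5 : ℝ) with lah0 | lal0
    · exact cellB α0 α1 (by norm_num) la0 lah0 h4 (by norm_num) (by norm_num)
        (b0_1_0_0_0 h1 h2 h3) (b0_1_0_0_1 h1 h2 h3) (b0_1_0_0_2 h1 h2 h3) (b0_1_0_1_0 h1 h2 h3) (b0_1_0_1_1 h1 h2 h3) (b0_1_0_1_2 h1 h2 h3)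
    exact cellB α0 α1 (by norm_num) lal0 la1 h4 (by norm_num) (by norm_num)
      (b0_1_1_0_0 h1 h2 h3) (b0_1_1_0_1 h1 h2 h3) (b0_1_1_0_2 h1 h2 h3) (b0_1_1_1_0 h1 h2 h3) (b0_1_1_1_1 h1 h2 h3) (b0_1_1_1_2 h1 h2 h3)

end Pool.Agent.Work.MP_3a9764_gt.C5
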