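import Pool.Agent.Work.MP_3a9764_gt.Defs0

/-! Ricci flow, isotropic curvature, the curvature operator and blow-up limits. -/

set_option autoImplicit false

open scoped Manifold ContDiff Topology
open Filter

namespace Pool.Agent.Work.MP_3a9764_gt.Stmt

noncomputable section

/-- Continuous bilinear forms on a vector space. -/
def BiForm (V : Type) [AddCommGroup V] [Module ℝ V] [TopologicalSpace V] : Type :=
  V →L[ℝ] V →L[ℝ] ℝ

/-- The value of a bilinear form. -/
def BiForm.val {V : Type} [AddCommGroup V] [Module ℝ V] [TopologicalSpace V] (B : BiForm V)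
    (v w : V) : ℝ :=
  (show V →L[ℝ] V →L[ℝ] ℝ from B) v w

section

variable {E : Type} [NormedAddCommGroup E] [NormedSpace ℝ E]

/-- A bilinear form on every tangent space of `M`. -/
def Forms (E : Type) [NormedAddCommGroup E] [NormedSpace ℝ E] (M : Type) [TopologicalSpace M]
    [ChartedSpace E M] : Type :=
  (x : M) → BiForm (TangentSpace 𝓘(ℝ, E) x)

variable {M N : Type} [TopologicalSpace M] [ChartedSpace E M] [TopologicalSpace N]
  [ChartedSpace E N]

/-- The forms are symmetric and positive definite. -/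
def Forms.IsPosDef (g : Forms E M) : Prop :=
  (∀ x v w, (g x).val v w = (g x).val w v) ∧ ∀ x v, v ≠ 0 → 0 < (g x).val v v

/-- The differential of a map from the model space to `M`. -/
def push (F : E → M) (y v : E) : TangentSpace 𝓘(ℝ, E) (F y) := mfderiv 𝓘(ℝ, E) 𝓘(ℝ, E) F y v

/-- The maps `Φ i` are diffeomorphisms from an increasing sequence of open sets that exhaust `N`
onto open subsets of `M`, with `Φ i p = x i`. -/
def IsExhaustion (E : Type) [NormedAddCommGroup E] [NormedSpace ℝ E] [ChartedSpace E M]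
    [ChartedSpace E N] (Φ : ℕ → N → M) (p : N) (x : ℕ → M) : Prop :=
  ∃ Ψ : ℕ → PartialDiffeomorph 𝓘(ℝ, E) 𝓘(ℝ, E) N M ∞, (∀ i, Φ i = Ψ i) ∧
    (Monotone fun i => (Ψ i).source) ∧ (⋃ i, (Ψ i).source) = Set.univ ∧
    ∀ i, p ∈ (Ψ i).source ∧ Φ i p = x i

/-- The time-dependent functions `f i` converge to `f₀` with all space derivatives, uniformly on
compact subsets of `U`. -/
def SmoothConv (f : ℕ → ℝ → E → ℝ) (f₀ : ℝ → E → ℝ) (U : Set (ℝ × E)) : Prop :=
  ∀ (k : ℕ) (K : Set (ℝ × E)), IsCompact K → K ⊆ U →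
    TendstoUniformlyOn (fun i (z : ℝ × E) => iteratedFDeriv ℝ k (f i z.1) z.2)
      (fun z => iteratedFDeriv ℝ k (f₀ z.1) z.2) atTop K

end

variable {n : ℕ} {M : Type} [TopologicalSpace M] [ChartedSpace (Eu n) M]

/-- The coefficients of the pull-back of `g` under a map `F` from Euclidean space to `M`. -/
def pull (g : Forms (Eu n) M) (F : Eu n → M) (y : Eu n) : Mat n :=
  fun i j => (g (F y)).val (push F y (EuclideanSpace.single i 1))
    (push F y (EuclideanSpace.single j 1))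

/-- The coefficients of `g` in the chart at `x`. -/
def coef (g : Forms (Eu n) M) (x : M) : Eu n → Mat n := pull g (chartAt (Eu n) x).symm

/-- `g t`, `t ∈ J`, is a smooth family of Riemannian metrics that solves the Ricci flow
`∂_t g = -2 Ric`. -/
def IsRicciFlow (J : Set ℝ) (g : ℝ → Forms (Eu n) M) : Prop :=
  (∀ t ∈ J, (g t).IsPosDef) ∧
  (∀ x i j, ContDiffOn ℝ ∞ (fun p : ℝ × Eu n => coef (g p.1) x p.2 i j)
    (J ×ˢ (chartAt (Eu n) x).target)) ∧
  ∀ x i j, ∀ t ∈ J, ∀ y ∈ (chartAt (Eu n) x).target,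
    HasDerivWithinAt (fun s => coef (g s) x y i j) (-2 * ricci (coef (g t) x) y i j) J t

/-- The curvature tensor of `g` at `x` evaluated on four vectors, given by their coordinates in
the chart at `x`. -/
def curv (g : Forms (Eu n) M) (x : M) (a b c d : Fin n → ℝ) : ℝ :=
  ev4 (riem (coef g x) (ctr n x)) a b c d

/-- Orthonormal four-frames of `g` at `x`. -/
def IsFrame (g : Forms (Eu n) M) (x : M) (e : Fin 4 → Fin n → ℝ) : Prop :=
  ∀ a b, ∑ i, ∑ j, coef g x (ctr n x) i j * e a i * e b j = if a = b then 1 else 0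

/-- `R_1313 + λ² R_1414 + μ² R_2323 + λ² μ² R_2424 - 2 λ μ R_1234`; for `λ = μ = 1` this is the
isotropic curvature. -/
def iso (g : Forms (Eu n) M) (x : M) (e : Fin 4 → Fin n → ℝ) (la mu : ℝ) : ℝ :=
  curv g x (e 0) (e 2) (e 0) (e 2) + la ^ 2 * curv g x (e 0) (e 3) (e 0) (e 3) +
    mu ^ 2 * curv g x (e 1) (e 2) (e 1) (e 2) +
    la ^ 2 * mu ^ 2 * curv g x (e 1) (e 3) (e 1) (e 3) -
    2 * la * mu * curv g x (e 0) (e 1) (e 2) (e 3)

/-- Positive isotropic curvature. -/
def HasPIC (g : Forms (Eu n) M) : Prop := ∀ x e, IsFrame g x e → 0 < iso g x e 1 1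

/-- Non-negative curvature operator: `R(φ, φ) ≥ 0` for every bivector `φ`. -/
def NonnegCurvOp (g : Forms (Eu n) M) : Prop :=
  ∀ (x : M) (φ : Mat n), (∀ i j, φ j i = -φ i j) →
    0 ≤ ∑ i, ∑ j, ∑ k, ∑ l, riem (coef g x) (ctr n x) i j k l * φ i j * φ k l

/-- The pointed Ricci flow `(N, h s, p)`, `s ∈ J`, is a blow-up limit of the flow `g` on
`M × [0, T)`: a smooth pointed Cheeger-Gromov limit of the flows `Q i * g (t i + s / Q i)` based
at `x i`, where `t i → T` and `Q i = |Rm| (x i, t i) → ∞`. -/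
def IsBlowupLimit (T : ℝ) (g : ℝ → Forms (Eu n) M) {N : Type} [TopologicalSpace N]
    [ChartedSpace (Eu n) N] (J : Set ℝ) (h : ℝ → Forms (Eu n) N) (p : N) : Prop :=
  IsRicciFlow J h ∧ (0 : ℝ) ∈ J ∧ J.OrdConnected ∧
  ∃ (x : ℕ → M) (t Q : ℕ → ℝ) (Φ : ℕ → N → M),
    (∀ i, t i ∈ Set.Ico 0 T) ∧ Tendsto t atTop (𝓝 T) ∧
    (∀ i, Q i = riemNorm (coef (g (t i)) (x i)) (ctr n (x i))) ∧ Tendsto Q atTop atTop ∧
    IsExhaustion (Eu n) Φ p x ∧ (∀ s ∈ J, ∀ᶠ i in atTop, t i + s / Q i ∈ Set.Ico 0 T) ∧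
    ∀ (q : N) (a b : Fin n), SmoothConv
      (fun i s y => Q i * pull (g (t i + s / Q i)) (Φ i ∘ (chartAt (Eu n) q).symm) y a b)
      (fun s y => coef (h s) q y a b) (J ×ˢ (chartAt (Eu n) q).target)

end

end Pool.Agent.Work.MP_3a9764_gt.Stmt
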